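import Pool.Agent.helper440_simplex.StepE

/-! # Comparison with caps -/

set_option autoImplicit false
set_option linter.unusedSectionVars false

namespace Pool.Agent.helper440_simplex

open MeasureTheory Metric Set Filter Topology
open scoped RealInnerProductSpace ENNReal

section Geo
variable {E : Type*} [NormedAddCommGroup E] [InnerProductSpace ℝ E]

theorem dist_sq (a b : SS E) : dist a b ^ 2 = 2 - 2 * ⟪(a : E), b⟫ := by
  rw [Subtype.dist_eq, dist_eq_norm, norm_sub_sq_real, norm_eq_of_mem_sphere a,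
    norm_eq_of_mem_sphere b]
  ring

theorem sep_sum {t : ℕ} {r : ℝ} (hr : 0 ≤ r)
    (x : Fin t → SS E) (hsep : ∀ i j, i ≠ j → r ≤ dist (x i) (x j)) :
    t * (t - 1) * r ^ 2 ≤ 2 * t ^ 2 - 2 * ‖∑ a, (x a : E)‖ ^ 2 := by
  have h2 : ∀ a : Fin t, ∀ b : Fin t, (if a = b then (0 : ℝ) else r ^ 2)
      ≤ 2 - 2 * ⟪(x a : E), x b⟫ := by
    intro a b
    split_ifs with hab
    · subst hab
      rw [real_inner_self_eq_norm_sq, norm_eq_of_mem_sphere]
      norm_num
    · rw [← dist_sq]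
      exact pow_le_pow_left₀ hr (hsep a b hab) 2
  have h3 : ∑ a : Fin t, ∑ b : Fin t, (if a = b then (0 : ℝ) else r ^ 2)
      = t * (t - 1) * r ^ 2 := by
    have : ∀ a b : Fin t, (if a = b then (0 : ℝ) else r ^ 2)
        = r ^ 2 - (if a = b then r ^ 2 else 0) := by
      intro a b
      split_ifs <;> ring
    simp only [this, Finset.sum_sub_distrib, Finset.sum_ite_eq, Finset.mem_univ, if_true,
      Finset.sum_const, Finset.card_univ, Fintype.card_fin, nsmul_eq_mul]
    ring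
  have h4 : ∑ a : Fin t, ∑ b : Fin t, (2 - 2 * ⟪(x a : E), x b⟫)
      = 2 * t ^ 2 - 2 * ‖∑ a, (x a : E)‖ ^ 2 := by
    rw [← real_inner_self_eq_norm_sq, sum_inner]
    simp only [inner_sum, Finset.sum_sub_distrib, Finset.mul_sum, Finset.sum_const,
      Finset.card_univ, Fintype.card_fin, nsmul_eq_mul]
    ring
  rw [← h3, ← h4]
  exact Finset.sum_le_sum fun a _ => Finset.sum_le_sum fun b _ => h2 a b

theorem sep_bound {t : ℕ} (ht : 2 ≤ t) {c r : ℝ} (hc : 0 ≤ c) (hr : 0 ≤ r)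
    (x : Fin t → SS E) (hx : t * c ≤ ‖∑ a, (x a : E)‖)
    (hsep : ∀ i j, i ≠ j → r ≤ dist (x i) (x j)) :
    r ^ 2 ≤ 2 - 2 * (-1 / (t - 1 : ℝ) + t * c ^ 2 / (t - 1 : ℝ)) := by
  have ht2 : (2 : ℝ) ≤ t := by exact_mod_cast ht
  have ht0 : (0 : ℝ) < t := by linarith
  have ht1 : (0 : ℝ) < t - 1 := by linarith
  have h1 := sep_sum hr x hsep
  have h6 : (t * c) ^ 2 ≤ ‖∑ a, (x a : E)‖ ^ 2 := pow_le_pow_left₀ (by positivity) hx 2
  have h7 : t * (t - 1) * r ^ 2 ≤ 2 * t ^ 2 - 2 * (t * c) ^ 2 := by linarith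
  have h8 : t * ((t - 1) * r ^ 2) ≤ t * (2 * t - 2 * t * c ^ 2) := by nlinarith
  have h9 := le_of_mul_le_mul_left h8 ht0
  have h10 : 2 - 2 * (-1 / (t - 1 : ℝ) + t * c ^ 2 / (t - 1 : ℝ))
      = (2 * t - 2 * t * c ^ 2) / (t - 1) := by
    field_simp
    ring
  rw [h10, le_div_iff₀ ht1]
  linarith

/-- separation of points of a cap -/
theorem cap_opt {t : ℕ} (ht : 2 ≤ t) (v : E) (hv : ‖v‖ = 1) {c r : ℝ} (hc : 0 ≤ c) (hr : 0 ≤ r)
    (x : Fin t → SS E) (hx : ∀ i, c ≤ ⟪(x i : E), v⟫) (hsep : ∀ i j, i ≠ j → r ≤ dist (x i) (x j)) :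
    r ^ 2 ≤ 2 - 2 * (-1 / (t - 1 : ℝ) + t * c ^ 2 / (t - 1 : ℝ)) := by
  refine sep_bound ht hc hr x ?_ hsep
  have h6 : t * c ≤ ⟪∑ a, (x a : E), v⟫ := by
    rw [sum_inner]
    calc t * c = ∑ _a : Fin t, c := by simp
      _ ≤ _ := Finset.sum_le_sum fun a _ => hx a
  have h7 := real_inner_le_norm (∑ a, (x a : E)) v
  rw [hv, mul_one] at h7
  linarith

end Geo

theorem area_pos (m : ℕ) :
    (volume : Measure (EuclideanSpace ℝ (Fin (m + 2)))).toSphere univ ≠ 0 := by
  intro h0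
  exact (Measure.toSphere_ne_zero (volume : Measure (EuclideanSpace ℝ (Fin (m + 2)))))
    (Measure.measure_univ_eq_zero.1 h0)

/-- comparison of normalised measures -/
theorem area_le {m : ℕ} (x0 : SS (EuclideanSpace ℝ (Fin (m + 2))))
    {C A : Set (SS (EuclideanSpace ℝ (Fin (m + 2))))} (hC : MeasurableSet C)
    (hA : MeasurableSet A) {η : ℝ} (hη : 0 ≤ η)
    (h : (volume : Measure (EuclideanSpace ℝ (Fin (m + 2)))).toSphere C + ENNReal.ofReal η *
      (volume : Measure (EuclideanSpace ℝ (Fin (m + 2)))).toSphere univ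
      ≤ (volume : Measure (EuclideanSpace ℝ (Fin (m + 2)))).toSphere A) :
    (hm (EuclideanSpace ℝ (Fin (m + 2)))).real {g | sa g x0 ∈ C} + η
      ≤ (hm (EuclideanSpace ℝ (Fin (m + 2)))).real {g | sa g x0 ∈ A} := by
  have hfin : 1 ≤ Module.finrank ℝ (EuclideanSpace ℝ (Fin (m + 2))) := by simp
  rw [← law hfin x0 hC, ← law hfin x0 hA, ← add_mul] at h
  have h2 := (ENNReal.mul_le_mul_iff_left (area_pos m) (measure_ne_top _ _)).1 h
  have h3 := ENNReal.toReal_mono (measure_ne_top _ _) h2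
  rw [ENNReal.toReal_add (measure_ne_top _ _) ENNReal.ofReal_ne_top,
    ENNReal.toReal_ofReal hη] at h3
  exact h3

theorem simplex_prob (t : ℕ) (ht : 2 ≤ t) (ε : ℝ) (hε : 1 / 2 < ε) :
    ∃ m0 : ℕ, ∀ m : ℕ, m0 ≤ m →
      ∀ A : Set (SS (EuclideanSpace ℝ (Fin (m + 2)))), MeasurableSet A → ∀ x0,
        ε < (hm (EuclideanSpace ℝ (Fin (m + 2)))).real {g | sa g x0 ∈ A} →
        ∃ y : Fin t → SS (EuclideanSpace ℝ (Fin (m + 2))),
          (∀ i, y i ∈ A) ∧ ∀ i j, i ≠ j →
            ⟪(y i : EuclideanSpace ℝ (Fin (m + 2))), y j⟫ = -1 / (t - 1 : ℝ) := by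
  obtain ⟨k1, hk1⟩ := simplex_in_set t ht ε hε
  refine ⟨k1, fun m hmle A hA x0 hP => ?_⟩
  refine hk1 (m + 1) (by omega) A hA ?_
  have hfin : 1 ≤ Module.finrank ℝ (EuclideanSpace ℝ (Fin (m + 2))) := by simp
  have h1 := law hfin x0 hA
  rw [← h1]
  refine ENNReal.mul_lt_mul_left (area_pos m) (measure_ne_top _ _) ?_
  rw [ENNReal.ofReal_lt_iff_lt_toReal (by linarith) (measure_ne_top _ _)]
  exact hP

/-- the comparison theorem, normalised -/
theorem cap_prob (t : ℕ) (ht : 2 ≤ t) (η : ℝ) (hη : 0 < η) (hη1 : η ≤ 1) :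
    ∃ m0 : ℕ, ∀ m : ℕ, m0 ≤ m →
      ∀ A : Set (SS (EuclideanSpace ℝ (Fin (m + 2)))), MeasurableSet A →
      ∀ v x0 : SS (EuclideanSpace ℝ (Fin (m + 2))), ∀ c : ℝ,
        (hm (EuclideanSpace ℝ (Fin (m + 2)))).real
          {g | c ≤ ⟪(v : EuclideanSpace ℝ (Fin (m + 2))), (sa g x0 :
            EuclideanSpace ℝ (Fin (m + 2)))⟫} + η
        ≤ (hm (EuclideanSpace ℝ (Fin (m + 2)))).real {g | sa g x0 ∈ A} →
        ∀ (x : Fin t → SS (EuclideanSpace ℝ (Fin (m + 2)))) (r : ℝ),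
          (∀ i, c ≤ ⟪(x i : EuclideanSpace ℝ (Fin (m + 2))), (v :
            EuclideanSpace ℝ (Fin (m + 2)))⟫) →
          (∀ i j, i ≠ j → r ≤ dist (x i) (x j)) →
          ∃ y : Fin t → SS (EuclideanSpace ℝ (Fin (m + 2))),
            (∀ i, y i ∈ A) ∧ ∀ i j, i ≠ j → r ≤ dist (y i) (y j) := by
  have ht2 : (2 : ℝ) ≤ t := by exact_mod_cast ht
  have ht0 : (0 : ℝ) < t := by linarith
  have ht1 : (0 : ℝ) < t - 1 := by linarith
  obtain ⟨m0, hm0⟩ := core2 t ht η hη hη1
  obtain ⟨m1, hm1⟩ := simplex_prob t ht (1 / 2 + η / 4) (by linarith)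
  refine ⟨m0 + m1, fun m hmle A hA v x0 c hAc x r hxc hxr => ?_⟩
  have hfin : Module.finrank ℝ (EuclideanSpace ℝ (Fin (m + 2))) = m + 2 := by simp
  set q := Real.sqrt (m + 2 : ℝ) with hq
  have hq0 : 0 < q := Real.sqrt_pos.2 (by positivity)
  have hq2 : q ^ 2 = m + 2 := Real.sq_sqrt (by positivity)
  have hvn : ‖(v : EuclideanSpace ℝ (Fin (m + 2)))‖ = 1 := norm_eq_of_mem_sphere v
  set P : Set (UG (EuclideanSpace ℝ (Fin (m + 2)))) → ℝ :=
    fun S => (hm (EuclideanSpace ℝ (Fin (m + 2)))).real S with hP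
  set h : UG (EuclideanSpace ℝ (Fin (m + 2))) → ℝ := fun g =>
    ⟪(v : EuclideanSpace ℝ (Fin (m + 2))), (sa g x0 : EuclideanSpace ℝ (Fin (m + 2)))⟫ with hh'
  -- trivial separation
  rcases lt_or_ge r 0 with hr | hr
  · have hne : ∃ a, a ∈ A := by
      by_contra hcon
      push Not at hcon
      have h1 : P {g | sa g x0 ∈ A} = 0 := by
        have : {g : UG (EuclideanSpace ℝ (Fin (m + 2))) | sa g x0 ∈ A} = ∅ := by
          ext g; simp [hcon]
        rw [this]; simp [hP]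
      have h2 : 0 ≤ P {g | c ≤ h g} := measureReal_nonneg
      have h3 : P {g | c ≤ h g} + η ≤ P {g | sa g x0 ∈ A} := hAc
      linarith
    obtain ⟨a, ha⟩ := hne
    exact ⟨fun _ => a, fun _ => ha, fun i j _ => hr.le.trans dist_nonneg⟩
  have hb : 0 < η / 40 := by positivity
  rcases le_or_gt c (η / 40 / q) with hc | hc
  · -- large measure
    have hlow : 1 / 2 ≤ P {g | 0 ≤ h g} := by
      have h1 := ht_symm v x0 0
      rw [neg_zero] at h1
      have hS : MeasurableSet {g : UG (EuclideanSpace ℝ (Fin (m + 2))) | 0 ≤ h g} :=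
        (isClosed_le continuous_const (ht_cont v x0)).measurableSet
      have h2 := probReal_compl_eq_one_sub (μ := hm (EuclideanSpace ℝ (Fin (m + 2)))) hS
      have e4 : {g : UG (EuclideanSpace ℝ (Fin (m + 2))) | 0 ≤ h g}ᶜ = {g | h g < 0} := by
        ext g; simp
      rw [e4] at h2
      have h3 : (hm (EuclideanSpace ℝ (Fin (m + 2)))).real {g | 0 < h g}
          ≤ (hm (EuclideanSpace ℝ (Fin (m + 2)))).real {g | 0 ≤ h g} :=
        measureReal_mono (fun g (hg : 0 < h g) => (le_of_lt hg : 0 ≤ h g)) (measure_ne_top _ _)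
      simp only [hP]
      linarith
    have hPc : 1 / 2 + 3 * η / 4 ≤ P {g | sa g x0 ∈ A} := by
      rcases le_or_gt (η / 40 / q) (1 / 4) with hsm | hsm
      · have h1 := ht_conc hfin v x0 (a := 0) (b := η / 40 / q) (by positivity)
          (by rw [abs_zero]; linarith)
        have e6 : 5 * (η / 40 / q) * Real.sqrt (m + 2 : ℝ) = η / 8 := by
          rw [← hq]; field_simp; norm_num
        rw [e6] at h1
        have h6 : {g : UG (EuclideanSpace ℝ (Fin (m + 2))) | 0 ≤ h g}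
            ⊆ {g | c ≤ h g} ∪ {g | |h g - 0| ≤ η / 40 / q} := by
          intro g hg
          have hg' : 0 ≤ h g := hg
          rcases le_or_gt c (h g) with h7 | h7
          · exact Or.inl h7
          · refine Or.inr ?_
            show |h g - 0| ≤ η / 40 / q
            rw [sub_zero, abs_of_nonneg hg']
            linarith
        have h7 := (measureReal_mono h6 (measure_ne_top _ _)).trans
          (measureReal_union_le (μ := hm (EuclideanSpace ℝ (Fin (m + 2)))) _ _)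
        have h8 : P {g | c ≤ h g} + η ≤ P {g | sa g x0 ∈ A} := hAc
        simp only [hP] at h8 hlow ⊢
        linarith
      · exfalso
        have h1 : η / 40 / q ≤ 1 / 40 := by
          rw [div_le_div_iff₀ hq0 (by norm_num)]
          have : 1 ≤ q := by
            rw [hq]; rw [Real.one_le_sqrt]; have : (0 : ℝ) ≤ m := Nat.cast_nonneg m; linarith
          nlinarith
        linarith
    obtain ⟨y, hyA, hy⟩ := hm1 m (by omega) A hA x0 (by
      have : P {g | sa g x0 ∈ A} = (hm (EuclideanSpace ℝ (Fin (m + 2)))).real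
        {g | sa g x0 ∈ A} := rfl
      linarith)
    refine ⟨y, hyA, fun i j hij => ?_⟩
    have h1 := sep_bound ht (c := 0) le_rfl hr x (by rw [mul_zero]; exact norm_nonneg _) hxr
    have h2 := dist_sq (y i) (y j)
    rw [hy i j hij] at h2
    refine (pow_le_pow_iff_left₀ hr dist_nonneg two_ne_zero).1 ?_
    rw [h2]
    simpa using h1
  · -- small measure
    have hbq : 0 < η / 40 / q := by positivity
    set c1 := min c (2 / η / q) with hc1
    have hc1c : c1 ≤ c := min_le_left _ _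
    have hc1H : c1 ≤ 2 / η / q := min_le_right _ _
    have hc1b : η / 40 / q ≤ c1 := by
      refine le_min hc.le ?_
      rw [div_le_div_iff_of_pos_right hq0, div_le_div_iff₀ (by norm_num) hη]
      nlinarith
    have hP1 : P {g | c1 ≤ h g} + η / 2 ≤ P {g | sa g x0 ∈ A} := by
      have h8 : P {g | c ≤ h g} + η ≤ P {g | sa g x0 ∈ A} := hAc
      rcases le_or_gt c (2 / η / q) with h9 | h9
      · have : c1 = c := min_eq_left h9
        rw [this]; linarith
      · have e1 : c1 = 2 / η / q := min_eq_right h9.le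
        have h10 := scaled_cheb hfin v x0 (κ := 2 / η) (q := q) (by positivity) hq0 hq2
        have h11 : P {g | c1 ≤ h g} ≤ 1 / (2 / η) ^ 2 := by
          refine le_trans (measureReal_mono ?_ (measure_ne_top _ _)) h10
          intro g hg
          have hg' : c1 ≤ h g := hg
          show 2 / η / q ≤ |h g|
          rw [← e1]
          exact hg'.trans (le_abs_self _)
        have h12 : 1 / (2 / η) ^ 2 = η ^ 2 / 4 := by field_simp; norm_num
        rw [h12] at h11
        have h13 : 0 ≤ P {g | c ≤ h g} := measureReal_nonneg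
        nlinarith
    set A' : Set (EuclideanSpace ℝ (Fin (m + 2))) := Subtype.val '' A with hA'
    have hA'm : MeasurableSet A' :=
      (MeasurableEmbedding.subtype_coe isClosed_sphere.measurableSet).measurableSet_image.2 hA
    have hset : {g : UG (EuclideanSpace ℝ (Fin (m + 2))) |
        av g (x0 : EuclideanSpace ℝ (Fin (m + 2))) ∈ A'} = {g | sa g x0 ∈ A} := by
      ext g
      simp only [mem_ofPred_eq, hA', mem_image]
      constructor
      · rintro ⟨z, hz, hz2⟩
        have : z = sa g x0 := Subtype.ext hz2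
        rwa [← this]
      · intro hg
        exact ⟨sa g x0, hg, rfl⟩
    obtain ⟨z, hzA, hzn, hzz⟩ := hm0 m (by omega) A' hA'm v x0 c1 hc1b hc1H (by
      rw [hset]; exact hP1)
    choose w hwA hwz using hzA
    refine ⟨w, hwA, fun i j hij => ?_⟩
    have h1 := cap_opt ht (v : EuclideanSpace ℝ (Fin (m + 2))) hvn
      (hbq.le.trans hc.le) hr x hxc hxr
    have h2 := dist_sq (w i) (w j)
    rw [hwz, hwz] at h2
    refine (pow_le_pow_iff_left₀ hr dist_nonneg two_ne_zero).1 ?_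
    rw [h2]
    have h3 := hzz i j hij
    have h4 : t * c1 ^ 2 / (t - 1 : ℝ) ≤ t * c ^ 2 / (t - 1 : ℝ) := by
      rw [div_le_div_iff_of_pos_right ht1]
      have : c1 ^ 2 ≤ c ^ 2 := pow_le_pow_left₀ (hbq.le.trans hc1b) hc1c 2
      nlinarith
    linarith

/-- the comparison theorem -/
theorem cap_main (t : ℕ) (ht : 2 ≤ t) (η : ℝ) (hη : 0 < η) :
    ∃ k₀ : ℕ, ∀ k : ℕ, k₀ < k →
      ∀ A : Set (sphere (0 : EuclideanSpace ℝ (Fin (k + 1))) 1), MeasurableSet A →
      ∀ v : EuclideanSpace ℝ (Fin (k + 1)), ‖v‖ = 1 → ∀ c : ℝ,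
        (volume : Measure (EuclideanSpace ℝ (Fin (k + 1)))).toSphere
              {x | c ≤ inner ℝ (x : EuclideanSpace ℝ (Fin (k + 1))) v}
            + ENNReal.ofReal η *
              (volume : Measure (EuclideanSpace ℝ (Fin (k + 1)))).toSphere univ
          ≤ (volume : Measure (EuclideanSpace ℝ (Fin (k + 1)))).toSphere A →
        ∀ (x : Fin t → sphere (0 : EuclideanSpace ℝ (Fin (k + 1))) 1) (r : ℝ),
          (∀ i, c ≤ inner ℝ (x i : EuclideanSpace ℝ (Fin (k + 1))) v) →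
          (∀ i j, i ≠ j → r ≤ dist (x i) (x j)) →
          ∃ y : Fin t → sphere (0 : EuclideanSpace ℝ (Fin (k + 1))) 1,
            (∀ i, y i ∈ A) ∧ ∀ i j, i ≠ j → r ≤ dist (y i) (y j) := by
  set η' := min η 1 with hη'
  have hη'0 : 0 < η' := lt_min hη one_pos
  have hη'1 : η' ≤ 1 := min_le_right _ _
  obtain ⟨m0, hm0⟩ := cap_prob t ht η' hη'0 hη'1
  refine ⟨m0 + 2, fun k hk A hA v hv c hAc x r hxc hxr => ?_⟩
  obtain ⟨m, rfl⟩ : ∃ m, k = m + 1 := ⟨k - 1, by omega⟩
  set vs : SS (EuclideanSpace ℝ (Fin (m + 2))) := ⟨v, by rwa [mem_sphere_zero_iff_norm]⟩ with hvs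
  have hCm : MeasurableSet {x : SS (EuclideanSpace ℝ (Fin (m + 2))) |
      c ≤ inner ℝ (x : EuclideanSpace ℝ (Fin (m + 2))) v} :=
    (isClosed_le continuous_const (continuous_subtype_val.inner continuous_const)).measurableSet
  have h1 := area_le vs hCm hA hη'0.le (by
    refine le_trans ?_ hAc
    gcongr
    exact min_le_left _ _)
  refine hm0 m (by omega) A hA vs vs c ?_ x r hxc hxr
  refine le_trans (add_le_add (measureReal_mono ?_ (measure_ne_top _ _)) le_rfl) h1
  intro g hg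
  have hg' : c ≤ ⟪(vs : EuclideanSpace ℝ (Fin (m + 2))), (sa g vs :
    EuclideanSpace ℝ (Fin (m + 2)))⟫ := hg
  rw [real_inner_comm] at hg'
  exact hg'

end Pool.Agent.helper440_simplex
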