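import Pool.Agent.helper440_simplex.HeightLaw

set_option autoImplicit false
set_option linter.unusedSectionVars false

namespace Pool.Agent.helper440_simplex

open MeasureTheory Metric Set Filter Topology
open scoped RealInnerProductSpace

section CoreW
variable {E : Type*} [NormedAddCommGroup E] [InnerProductSpace ℝ E] [CompleteSpace E]
  [FiniteDimensional ℝ E] [MeasurableSpace E] [BorelSpace E]

/-! # Caps, bad sets, slices -/

section CapDef
variable {E : Type*} [NormedAddCommGroup E] [InnerProductSpace ℝ E]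

/-- closed cap -/
def Cp (v : SS E) (c : ℝ) : Set (SS E) := {x | c ≤ ⟪(v : E), (x : E)⟫}

/-- the critical inner product -/
noncomputable def rhoc (t : ℕ) (c : ℝ) : ℝ := (t * c ^ 2 - 1) / (t - 1)

/-- no `t` points with pairwise inner products at most `ρ` -/
def Bad (t : ℕ) (ρ : ℝ) (A : Set (SS E)) : Prop :=
  ∀ x : Fin t → SS E, (∀ i, x i ∈ A) → ∃ i j, i ≠ j ∧ ρ < ⟪(x i : E), (x j : E)⟫

/-- clamped set -/
def clp (v : SS E) (c a b : ℝ) (A : Set (SS E)) : Set (SS E) :=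
  (A ∩ {x | c - a ≤ ⟪(v : E), (x : E)⟫}) ∪ {x | c + b ≤ ⟪(v : E), (x : E)⟫}

end CapDef

/-- slice measure of a cap as function of the height -/
noncomputable def Gc (n : ℕ) (ρ c τ : ℝ) : ℝ :=
  mm (n - 1) ((c - ρ * τ) / (Real.sqrt (1 - ρ ^ 2) * Real.sqrt (1 - τ ^ 2)))

/-- the theorem for `t` points -/
def Thm (t : ℕ) : Prop := ∀ ε : ℝ, 0 < ε → ∃ n0 : ℕ, ∀ (E : Type) [NormedAddCommGroup E]
    [InnerProductSpace ℝ E] [CompleteSpace E] [FiniteDimensional ℝ E] [MeasurableSpace E]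
    [BorelSpace E], n0 ≤ Module.finrank ℝ E → ∀ (v : SS E) (c : ℝ), 0 ≤ c →
    ε ≤ (sm E).real (Cp v c) → ∀ A : Set (SS E), IsClosed A → Bad t (rhoc t c) A →
    (sm E).real A ≤ (sm E).real (Cp v c)

/-- stability for `t` points -/
def Gst (t : ℕ) : Prop := ∀ ε κ : ℝ, 0 < ε → 0 < κ → ∃ n0 : ℕ, ∀ (E : Type)
    [NormedAddCommGroup E]
    [InnerProductSpace ℝ E] [CompleteSpace E] [FiniteDimensional ℝ E] [MeasurableSpace E]
    [BorelSpace E], n0 ≤ Module.finrank ℝ E → ∀ (v : SS E) (c : ℝ), 0 ≤ c →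
    ε ≤ (sm E).real (Cp v c) → ∀ A : Set (SS E), IsClosed A → Bad t (rhoc t c) A →
    (sm E).real (Cp v c) ≤ (sm E).real A →
    ∃ v' : SS E, (sm E).real (symmDiff A (Cp v' c)) ≤ κ

end CoreW

end Pool.Agent.helper440_simplex
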