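import Pool.Agent.helper440_simplex.G0b

set_option autoImplicit false
set_option linter.unusedSectionVars false

namespace Pool.Agent.helper440_simplex

open MeasureTheory Metric Set Filter Topology
open scoped RealInnerProductSpace

section CoreW
variable {E : Type*} [NormedAddCommGroup E] [InnerProductSpace ℝ E] [CompleteSpace E]
  [FiniteDimensional ℝ E] [MeasurableSpace E] [BorelSpace E]

section Lin
variable {E : Type*} [NormedAddCommGroup E] [InnerProductSpace ℝ E] [CompleteSpace E]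
  [FiniteDimensional ℝ E] [MeasurableSpace E] [BorelSpace E]

/-- the barycentre of a set -/
noncomputable def bar (B : Set (SS E)) : E := ∫ x, ind B x • (x : E) ∂(sm E)

/-- the model profile -/
noncomputable def gm (s : ℝ) (B : Set (SS E)) (x : SS E) : ℝ :=
  PhN (Real.sqrt (2 * Real.pi) * s * (Module.finrank ℝ E * ⟪bar B, (x : E)⟫) / Real.sqrt (1 - s ^ 2))

-- bar_props
theorem bar_props_int (hn1 : 1 ≤ Module.finrank ℝ E) {f : SS E → ℝ} (hf : Measurable f)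
    {C : ℝ} (hC : ∀ x, |f x| ≤ C) : Integrable f (sm E) := by
  haveI := sm_prob (E := E) hn1
  exact Integrable.of_bound hf.aestronglyMeasurable C
    (Filter.Eventually.of_forall fun x => by rw [Real.norm_eq_abs]; exact hC x)

theorem bar_props_meas (y : E) : Measurable fun x : SS E => ⟪y, (x : E)⟫ :=
  (continuous_const.inner continuous_subtype_val).measurable

theorem bar_props_le (y : E) (x : SS E) : |⟪y, (x : E)⟫| ≤ ‖y‖ := by
  have h := abs_real_inner_le_norm y (x : E)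
  rwa [norm_eq_of_mem_sphere x, mul_one] at h

theorem bar_props_int2 (hn1 : 1 ≤ Module.finrank ℝ E) (y z : E) :
    Integrable (fun x : SS E => ⟪y, (x : E)⟫ * ⟪z, (x : E)⟫) (sm E) := by
  refine bar_props_int hn1 ((bar_props_meas y).mul (bar_props_meas z)) (C := ‖y‖ * ‖z‖) fun x => ?_
  rw [abs_mul]
  exact mul_le_mul (bar_props_le y x) (bar_props_le z x) (abs_nonneg _) (norm_nonneg _)

theorem bar_props_sq {n : ℕ} (hn : Module.finrank ℝ E = n) (h5 : 5 ≤ n) (y : E) :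
    ∫ x : SS E, ⟪y, (x : E)⟫ * ⟪y, (x : E)⟫ ∂(sm E) = ‖y‖ ^ 2 / n := by
  by_cases hy : y = 0
  · subst hy; simp
  have hny : ‖y‖ ≠ 0 := norm_ne_zero_iff.2 hy
  set v : SS E := ⟨‖y‖⁻¹ • y, by
    rw [mem_sphere_zero_iff_norm, norm_smul, norm_inv, norm_norm, inv_mul_cancel₀ hny]⟩ with hv
  have hyv : y = ‖y‖ • (v : E) := by
    rw [hv]; simp only [smul_smul, mul_inv_cancel₀ hny, one_smul]
  obtain ⟨_, _, _, hz, _⟩ := om_basic (n := n) (by omega)
  have h1 := sm_height hn (by omega : 4 ≤ n) v (ψ := fun s => (max (-1) (min s 1)) ^ 2)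
    ((measurable_const.max (measurable_id.min measurable_const)).pow_const 2)
    ⟨1, fun s => by
      have ha : -1 ≤ max (-1) (min s 1) := le_max_left _ _
      have hb : max (-1) (min s 1) ≤ 1 := max_le (by norm_num) (min_le_right _ _)
      rw [abs_of_nonneg (sq_nonneg _)]
      nlinarith⟩
  have h2 : ∫ x : SS E, (fun s : ℝ => (max (-1) (min s 1)) ^ 2) ⟪(v : E), (x : E)⟫ ∂(sm E)
      = ∫ x : SS E, ⟪(v : E), (x : E)⟫ * ⟪(v : E), (x : E)⟫ ∂(sm E) := by
    congr 1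
    ext x
    have h := abs_le.1 (bar_props_le (v : E) x)
    rw [norm_eq_of_mem_sphere v] at h
    simp only
    rw [min_eq_left h.2, max_eq_right h.1, sq]
  have h3 : ∫ s, om n s * (fun s : ℝ => (max (-1) (min s 1)) ^ 2) s = ∫ s, om n s * s ^ 2 := by
    congr 1
    ext s
    by_cases hs : 1 ≤ |s|
    · rw [hz s hs, zero_mul, zero_mul]
    · have h := abs_lt.1 (not_le.1 hs)
      simp only
      rw [min_eq_left h.2.le, max_eq_right h.1.le]
  rw [h2, h3, om_sq (by omega)] at h1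
  have h4 : (fun x : SS E => ⟪y, (x : E)⟫ * ⟪y, (x : E)⟫)
      = fun x : SS E => ‖y‖ ^ 2 * (⟪(v : E), (x : E)⟫ * ⟪(v : E), (x : E)⟫) := by
    ext x
    have : ⟪y, (x : E)⟫ = ‖y‖ * ⟪(v : E), (x : E)⟫ := by
      conv_lhs => rw [hyv]
      rw [real_inner_smul_left]
    rw [this]; ring
  rw [h4, integral_const_mul, h1]
  ring

theorem bar_props {n : ℕ} (hn : Module.finrank ℝ E = n) (h5 : 5 ≤ n) {B : Set (SS E)}
    (hB : MeasurableSet B) : (∀ y z : E, ∫ x, ⟪y, (x : E)⟫ * ⟪z, (x : E)⟫ ∂(sm E) = ⟪y, z⟫ / n) ∧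
    (∀ y : E, ∫ x, ind B x * ⟪y, (x : E)⟫ ∂(sm E) = ⟪bar B, y⟫) ∧
    n * ‖bar B‖ ^ 2 ≤ 1 := by
  have hn1 : 1 ≤ Module.finrank ℝ E := by omega
  haveI := sm_prob (E := E) hn1
  have hn0 : (0 : ℝ) < n := by
    have : 0 < n := by omega
    exact_mod_cast this
  have P1 : ∀ y z : E, ∫ x : SS E, ⟪y, (x : E)⟫ * ⟪z, (x : E)⟫ ∂(sm E) = ⟪y, z⟫ / n := by
    intro y z
    have e1 := bar_props_sq hn h5 (y + z)
    have e2 := bar_props_sq hn h5 (y - z)
    have e3 : (fun x : SS E => ⟪y, (x : E)⟫ * ⟪z, (x : E)⟫)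
        = fun x : SS E => (⟪y + z, (x : E)⟫ * ⟪y + z, (x : E)⟫
          - ⟪y - z, (x : E)⟫ * ⟪y - z, (x : E)⟫) / 4 := by
      ext x
      rw [inner_add_left, inner_sub_left]; ring
    rw [e3, integral_div, integral_sub (bar_props_int2 hn1 _ _) (bar_props_int2 hn1 _ _), e1, e2,
      norm_add_sq_real, norm_sub_sq_real]
    ring
  have hindm : Measurable (ind B) := measurable_const.indicator hB
  have hindle : ∀ x : SS E, |ind B x| ≤ 1 := by
    intro x
    unfold ind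
    by_cases hx : x ∈ B
    · rw [Set.indicator_of_mem hx]; simp
    · rw [Set.indicator_of_notMem hx]; simp
  have P2 : ∀ y : E, ∫ x : SS E, ind B x * ⟪y, (x : E)⟫ ∂(sm E) = ⟪bar B, y⟫ := by
    intro y
    have hint : Integrable (fun x : SS E => ind B x • (x : E)) (sm E) := by
      refine Integrable.of_bound (hindm.smul measurable_subtype_coe).aestronglyMeasurable 1
        (Filter.Eventually.of_forall fun x => ?_)
      rw [norm_smul, norm_eq_of_mem_sphere x, mul_one, Real.norm_eq_abs]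
      exact hindle x
    rw [real_inner_comm]
    unfold bar
    rw [← integral_inner hint y]
    congr 1
    ext x
    rw [real_inner_smul_right]
  refine ⟨P1, P2, ?_⟩
  set b := bar B with hb
  have I1 : Integrable (fun x : SS E => ind B x * ind B x) (sm E) := by
    refine bar_props_int hn1 (hindm.mul hindm) (C := 1) fun x => ?_
    rw [abs_mul]
    have := hindle x
    have h0 := abs_nonneg (ind B x)
    nlinarith
  have I2 : Integrable (fun x : SS E => ind B x * ⟪b, (x : E)⟫) (sm E) := by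
    refine bar_props_int hn1 (hindm.mul (bar_props_meas b)) (C := 1 * ‖b‖) fun x => ?_
    rw [abs_mul]
    exact mul_le_mul (hindle x) (bar_props_le b x) (abs_nonneg _) zero_le_one
  have I3 := bar_props_int2 hn1 b b
  have q0 : 0 ≤ ∫ x : SS E, (ind B x - n * ⟪b, (x : E)⟫) ^ 2 ∂(sm E) :=
    integral_nonneg fun x => sq_nonneg _
  have q1 : (fun x : SS E => (ind B x - n * ⟪b, (x : E)⟫) ^ 2)
      = fun x : SS E => (ind B x * ind B x - 2 * n * (ind B x * ⟪b, (x : E)⟫))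
        + n ^ 2 * (⟪b, (x : E)⟫ * ⟪b, (x : E)⟫) := by
    ext x; ring
  have q2 : ∫ x : SS E, ind B x * ind B x ∂(sm E) ≤ 1 := by
    have : ∫ x : SS E, ind B x * ind B x ∂(sm E) ≤ ∫ _ : SS E, (1 : ℝ) ∂(sm E) := by
      refine integral_mono I1 (integrable_const _) fun x => ?_
      have h := abs_le.1 (hindle x)
      show ind B x * ind B x ≤ 1
      nlinarith
    simpa using this
  have J1 : Integrable (fun x : SS E => ind B x * ind B x - 2 * n * (ind B x * ⟪b, (x : E)⟫))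
      (sm E) := I1.sub (I2.const_mul _)
  have J2 : Integrable (fun x : SS E => (n : ℝ) ^ 2 * (⟪b, (x : E)⟫ * ⟪b, (x : E)⟫)) (sm E) :=
    I3.const_mul _
  have J3 : Integrable (fun x : SS E => 2 * (n : ℝ) * (ind B x * ⟪b, (x : E)⟫)) (sm E) :=
    I2.const_mul _
  rw [q1, integral_add J1 J2, integral_sub I1 J3,
    integral_const_mul, integral_const_mul, P1, P2, real_inner_self_eq_norm_sq] at q0
  have q3 : (n : ℝ) ^ 2 * (‖b‖ ^ 2 / n) = n * ‖b‖ ^ 2 := by
    field_simp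
  rw [q3] at q0
  nlinarith

-- base_V
theorem base_V_bm_const (c : ℝ) : BM (fun _ : SS E => c) := ⟨measurable_const, |c|, fun _ => le_rfl⟩

theorem base_V_bm_add {f g : SS E → ℝ} (hf : BM f) (hg : BM g) : BM (fun x => f x + g x) := by
  obtain ⟨hf1, C, hC⟩ := hf
  obtain ⟨hg1, D, hD⟩ := hg
  exact ⟨hf1.add hg1, C + D, fun x => (abs_add_le _ _).trans (add_le_add (hC x) (hD x))⟩

theorem base_V_bm_mul {f g : SS E → ℝ} (hf : BM f) (hg : BM g) : BM (fun x => f x * g x) := by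
  obtain ⟨hf1, C, hC⟩ := hf
  obtain ⟨hg1, D, hD⟩ := hg
  refine ⟨hf1.mul hg1, C * D, fun x => ?_⟩
  rw [abs_mul]
  exact mul_le_mul (hC x) (hD x) (abs_nonneg _) ((abs_nonneg _).trans (hC x))

theorem base_V_bm_inner (y : E) : BM (fun x : SS E => ⟪y, (x : E)⟫) := by
  refine ⟨(continuous_const.inner continuous_subtype_val).measurable, ‖y‖, fun x => ?_⟩
  have := abs_real_inner_le_norm y (x : E)
  rwa [norm_eq_of_mem_sphere x, mul_one] at this

theorem base_V_bm_ind {B : Set (SS E)} (hB : MeasurableSet B) : BM (ind B) := by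
  refine ⟨measurable_const.indicator hB, 1, fun x => ?_⟩
  unfold ind
  by_cases h : x ∈ B <;> simp [h]

theorem base_V_int (hn : 1 ≤ Module.finrank ℝ E) {f : SS E → ℝ} (hf : BM f) :
    Integrable f (sm E) := by
  haveI := sm_prob (E := E) hn
  obtain ⟨hf1, C, hC⟩ := hf
  exact Integrable.of_bound hf1.aestronglyMeasurable C (Eventually.of_forall fun x => by
    rw [Real.norm_eq_abs]; exact hC x)

theorem base_V_lin0 (hn : 3 ≤ Module.finrank ℝ E) (y : E) : ∫ x, ⟪y, (x : E)⟫ ∂(sm E) = 0 := by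
  have h1 := (PP_sym (E := E) hn (r := 0) (by norm_num) (by norm_num) (base_V_bm_inner y)
    (base_V_bm_const 1)).2.1
  rw [← h1]
  have h2 : ∀ x : SS E, PP 0 (fun z => ⟪y, (z : E)⟫) x = 0 := fun x => by
    rw [PP_linear hn (by norm_num) y x, zero_mul]
  simp only [h2, integral_zero]

theorem base_V_exp (x : ℝ) : |Real.exp (-(x ^ 2) / 2) - 1| ≤ |x| := by
  have h1 : Real.exp (-(x ^ 2) / 2) ≤ 1 := Real.exp_le_one_iff.2 (by nlinarith [sq_nonneg x])
  have h2 : -(x ^ 2) / 2 + 1 ≤ Real.exp (-(x ^ 2) / 2) := Real.add_one_le_exp _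
  have h3 : 0 < Real.exp (-(x ^ 2) / 2) := Real.exp_pos _
  rw [abs_le]
  have h4 : x ^ 2 = |x| ^ 2 := (sq_abs x).symm
  have h5 := abs_nonneg x
  constructor
  · rcases le_total |x| 1 with h | h
    · nlinarith
    · linarith
  · linarith

theorem base_V_Psi (z : ℝ) : |Psi z - z| ≤ z ^ 2 := by
  have h1 : ∀ x ∈ Metric.closedBall (0 : ℝ) |z|, HasDerivWithinAt (fun x => Psi x - x)
      (Real.exp (-(x ^ 2) / 2) - 1) (Metric.closedBall (0 : ℝ) |z|) x := fun x _ =>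
    ((hasDerivAt_Psi x).sub (hasDerivAt_id x)).hasDerivWithinAt
  have h2 : ∀ x ∈ Metric.closedBall (0 : ℝ) |z|, ‖Real.exp (-(x ^ 2) / 2) - 1‖ ≤ |z| := by
    intro x hx
    rw [mem_closedBall_zero_iff, Real.norm_eq_abs] at hx
    rw [Real.norm_eq_abs]
    exact (base_V_exp x).trans hx
  have h3 := (convex_closedBall (0 : ℝ) |z|).norm_image_sub_le_of_norm_hasDerivWithin_le h1 h2
    (mem_closedBall_self (abs_nonneg z)) (y := z) (by simp)
  simp only [Psi_zero, sub_zero, Real.norm_eq_abs] at h3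
  calc |Psi z - z| ≤ |z| * |z| := h3
    _ = z ^ 2 := by rw [← sq, sq_abs]

theorem base_V_pt {s w : ℝ} (hs0 : 0 < s) (hs : s ≤ 1 / 2) :
    |PhN (Real.sqrt (2 * Real.pi) * s * w / Real.sqrt (1 - s ^ 2)) - 1 / 2 - s * w| ≤
      4 * s ^ 2 * w ^ 2 + s ^ 2 * |w| := by
  obtain ⟨q, hq⟩ : ∃ q, q = Real.sqrt (2 * Real.pi) := ⟨_, rfl⟩
  obtain ⟨r, hr⟩ : ∃ r, r = Real.sqrt (1 - s ^ 2) := ⟨_, rfl⟩
  have hpi := Real.pi_gt_three
  have hpi2 := Real.pi_lt_d2
  have hq2 : q ^ 2 = 2 * Real.pi := by rw [hq, Real.sq_sqrt (by linarith)]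
  have hq0 : 0 < q := by rw [hq]; exact Real.sqrt_pos.2 (by linarith)
  have hq3 : q ≤ 3 := by nlinarith
  have hs2 : s ^ 2 ≤ 1 / 4 := by nlinarith
  have hr2 : r ^ 2 = 1 - s ^ 2 := by rw [hr, Real.sq_sqrt (by linarith)]
  have hr0 : 0 < r := by rw [hr]; exact Real.sqrt_pos.2 (by linarith)
  have hr1 : r ≤ 1 := by nlinarith
  have hr3 : 1 - s ^ 2 ≤ r := by nlinarith
  obtain ⟨z, hz⟩ : ∃ z, z = q * s * w / r := ⟨_, rfl⟩
  have hP : PhN z - 1 / 2 = Psi z / q := by unfold PhN; rw [← hq]; ring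
  rw [← hq, ← hr, ← hz, hP]
  have hzr : z * r = q * s * w := by rw [hz]; field_simp
  have h1 : Psi z / q - s * w = (Psi z - z) / q + (z / q - s * w) := by
    field_simp
    ring
  have h2 : |(Psi z - z) / q| ≤ 4 * s ^ 2 * w ^ 2 := by
    rw [abs_div, abs_of_pos hq0, div_le_iff₀ hq0]
    refine (base_V_Psi z).trans ?_
    have e1 : z ^ 2 * (1 - s ^ 2) = q ^ 2 * s ^ 2 * w ^ 2 := by
      rw [← hr2, ← mul_pow, hzr]; ring
    have e2 : z ^ 2 * (3 / 4) ≤ z ^ 2 * (1 - s ^ 2) := mul_le_mul_of_nonneg_left (by linarith) (sq_nonneg z)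
    have e3 : q ^ 2 * s ^ 2 * w ^ 2 ≤ 3 * q * (s ^ 2 * w ^ 2) := by
      have : q ^ 2 ≤ 3 * q := by nlinarith
      have h0 : 0 ≤ s ^ 2 * w ^ 2 := by positivity
      nlinarith
    linarith
  have h3 : |z / q - s * w| ≤ s ^ 2 * |w| := by
    have e0 : z / q = s * w / r := by rw [hz]; field_simp
    have e1 : z / q - s * w = s * w * ((1 - r) / r) := by rw [e0]; field_simp
    have e2 : 0 ≤ (1 - r) / r := div_nonneg (by linarith) hr0.le
    have e3 : (1 - r) / r ≤ s := by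
      rw [div_le_iff₀ hr0]
      nlinarith
    rw [e1, abs_mul, abs_mul, abs_of_pos hs0, abs_of_nonneg e2]
    have e4 : s * |w| * ((1 - r) / r) ≤ s * |w| * s := mul_le_mul_of_nonneg_left e3 (by positivity)
    linarith
  rw [h1]
  exact (abs_add_le _ _).trans (add_le_add h2 h3)

theorem base_V {n : ℕ} (hn : Module.finrank ℝ E = n) (h5 : 5 ≤ n) {s : ℝ} (hs0 : 0 < s)
    (hs : s ≤ 1 / 2) {B : Set (SS E)} (hB : MeasurableSet B) :
    ∫ x, |PP s (ind B) x - gm s B x| ∂(sm E) ≤ |(sm E).real B - 1 / 2| + 20 * s ^ 2 + 2 / n := by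
  have h1 : 1 ≤ Module.finrank ℝ E := by omega
  have h3 : 3 ≤ Module.finrank ℝ E := by omega
  haveI := sm_prob (E := E) h1
  obtain ⟨hb1, hb2, hb3⟩ := bar_props hn h5 hB
  obtain ⟨b, hb⟩ : ∃ b : E, b = bar B := ⟨_, rfl⟩
  rw [← hb] at hb2 hb3
  have hn0 : (5 : ℝ) ≤ n := by exact_mod_cast h5
  obtain ⟨μ, hμ⟩ : ∃ μ, μ = (sm E).real B := ⟨_, rfl⟩
  have hμi : ∫ x, ind B x ∂(sm E) = μ := by
    rw [hμ]; unfold ind; rw [integral_indicator_const (1 : ℝ) hB]; simp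
  have hf := base_V_bm_ind hB
  have hl := base_V_bm_inner (E := E)
  have hc := base_V_bm_const (E := E)
  have hI : ∀ {g : SS E → ℝ}, BM g → Integrable g (sm E) := fun hg => base_V_int h1 hg
  -- the linear part and the rest
  have hA : BM (fun x : SS E => μ * 1 + (n : ℝ) * ⟪b, (x : E)⟫) :=
    base_V_bm_add (base_V_bm_mul (hc μ) (hc 1)) (base_V_bm_mul (hc n) (hl b))
  obtain ⟨A, hAd⟩ : ∃ A : SS E → ℝ, A = fun x : SS E => μ * 1 + (n : ℝ) * ⟪b, (x : E)⟫ := ⟨_, rfl⟩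
  rw [← hAd] at hA
  have hR : BM (fun x : SS E => ind B x + (-1) * A x) := base_V_bm_add hf (base_V_bm_mul (hc (-1)) hA)
  obtain ⟨R, hRd⟩ : ∃ R : SS E → ℝ, R = fun x : SS E => ind B x + (-1) * A x := ⟨_, rfl⟩
  rw [← hRd] at hR
  have hAx : ∀ x, A x = μ + (n : ℝ) * ⟪b, (x : E)⟫ := fun x => by rw [hAd]; ring
  have hRx : ∀ x, R x = ind B x - A x := fun x => by rw [hRd]; ring
  have hAint : ∫ x, A x ∂(sm E) = μ := by
    simp only [hAx]
    rw [integral_add (hI (hc μ)) (hI (base_V_bm_mul (hc n) (hl b))), integral_const_mul,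
      base_V_lin0 h3, integral_const]
    simp
  have hR0 : ∫ x, R x ∂(sm E) = 0 := by
    simp only [hRx]
    rw [integral_sub (hI hf) (hI hA), hAint, hμi, sub_self]
  have hAl : ∀ y : E, ∫ x, ⟪y, (x : E)⟫ * A x ∂(sm E) = ⟪y, b⟫ := by
    intro y
    have e : ∀ x : SS E, ⟪y, (x : E)⟫ * A x = μ * ⟪y, (x : E)⟫ + n * (⟪y, (x : E)⟫ * ⟪b, (x : E)⟫) :=
      fun x => by rw [hAx]; ring
    simp only [e]
    rw [integral_add (hI (base_V_bm_mul (hc μ) (hl y)))
      (hI (base_V_bm_mul (hc n) (base_V_bm_mul (hl y) (hl b)))), integral_const_mul,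
      integral_const_mul, base_V_lin0 h3, hb1]
    field_simp
    ring
  have hR1 : ∀ y : E, ∫ x, ⟪y, (x : E)⟫ * R x ∂(sm E) = 0 := by
    intro y
    have e : ∀ x : SS E, ⟪y, (x : E)⟫ * R x = ind B x * ⟪y, (x : E)⟫ - ⟪y, (x : E)⟫ * A x :=
      fun x => by rw [hRx]; ring
    simp only [e]
    rw [integral_sub (hI (base_V_bm_mul hf (hl y))) (hI (base_V_bm_mul (hl y) hA)), hb2, hAl,
      real_inner_comm, sub_self]
  have hRA : ∫ x, R x * A x ∂(sm E) = 0 := by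
    have e : ∀ x : SS E, R x * A x = μ * R x + n * (⟪b, (x : E)⟫ * R x) :=
      fun x => by rw [hAx]; ring
    simp only [e]
    rw [integral_add (hI (base_V_bm_mul (hc μ) hR))
      (hI (base_V_bm_mul (hc n) (base_V_bm_mul (hl b) hR))), integral_const_mul,
      integral_const_mul, hR0, hR1]
    ring
  have hRsq : ∫ x, (R x) ^ 2 ∂(sm E) ≤ 1 := by
    have e1 : ∀ x : SS E, (R x) ^ 2 = ind B x * ind B x + (-1) * (A x * A x) + (-2) * (R x * A x) :=
      fun x => by rw [hRx]; ring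
    have e2 : ∫ x, ind B x * ind B x ∂(sm E) ≤ 1 := by
      have e3 : ∀ x, ind B x * ind B x = ind B x := fun x => by
        unfold ind
        by_cases h : x ∈ B <;> simp [h]
      simp only [e3]
      rw [hμi, hμ]
      exact measureReal_le_one
    have e4 : 0 ≤ ∫ x, A x * A x ∂(sm E) := integral_nonneg fun x => mul_self_nonneg _
    simp only [e1]
    rw [integral_add (hI (base_V_bm_add (base_V_bm_mul hf hf) (base_V_bm_mul (hc (-1)) (base_V_bm_mul hA hA))))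
      (hI (base_V_bm_mul (hc (-2)) (base_V_bm_mul hR hA))),
      integral_add (hI (base_V_bm_mul hf hf)) (hI (base_V_bm_mul (hc (-1)) (base_V_bm_mul hA hA))),
      integral_const_mul, integral_const_mul, hRA]
    linarith
  have hs1 : |s| ≤ 1 := by rw [abs_of_pos hs0]; linarith
  -- the spectral bound
  obtain ⟨θ, hθ⟩ : ∃ θ : ℝ, θ = s ^ 2 + 2 / n := ⟨_, rfl⟩
  have hθ0 : 0 < θ := by rw [hθ]; positivity
  have hsp : ∫ x, (PP s R x) ^ 2 ∂(sm E) ≤ θ ^ 2 := by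
    have := spec_rest hn h5 hs1 hR hR0 hR1
    rw [← hθ] at this
    nlinarith [sq_nonneg θ]
  -- decomposition of the operator
  have hb_c := (PP_basic h3 s hf hA).2.1
  have hPA : ∀ x, PP s A x = μ + s * (n * ⟪b, (x : E)⟫) := by
    intro x
    have := (PP_basic h3 s (hc 1) (hl b)).2.2.1 μ n x
    rw [hAd, this, hb_c, PP_linear h3 hs1]
    ring
  have hPf : ∀ x, PP s (ind B) x = PP s R x + (μ + s * (n * ⟪b, (x : E)⟫)) := by
    intro x
    have := (PP_basic h3 s hf hA).2.2.1 1 (-1) x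
    have e : (fun y => 1 * ind B y + -1 * A y) = R := by rw [hRd]; ext y; ring
    rw [e, hPA] at this
    linarith
  have hPR := (PP_basic h3 s hR hR).1
  have hw2 : ∫ x, ((n : ℝ) * ⟪b, (x : E)⟫) ^ 2 ∂(sm E) ≤ 1 := by
    have e : ∀ x : SS E, ((n : ℝ) * ⟪b, (x : E)⟫) ^ 2 = n ^ 2 * (⟪b, (x : E)⟫ * ⟪b, (x : E)⟫) :=
      fun x => by ring
    simp only [e]
    rw [integral_const_mul, hb1, real_inner_self_eq_norm_sq]
    have : (n : ℝ) ^ 2 * (‖b‖ ^ 2 / n) = n * ‖b‖ ^ 2 := by field_simp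
    rw [this]; exact hb3
  -- the majorant
  have hWm : BM (fun x : SS E => ((n : ℝ) * ⟪b, (x : E)⟫) * ((n : ℝ) * ⟪b, (x : E)⟫)) :=
    base_V_bm_mul (base_V_bm_mul (hc n) (hl b)) (base_V_bm_mul (hc n) (hl b))
  have hPm : BM (fun x : SS E => PP s R x * PP s R x) := base_V_bm_mul hPR hPR
  have hpt : ∀ x : SS E, |PP s (ind B) x - gm s B x| ≤
      (|μ - 1 / 2| + s ^ 2 / 2 + θ / 2) + ((9 / 2 * s ^ 2) * (((n : ℝ) * ⟪b, (x : E)⟫) * ((n : ℝ) * ⟪b, (x : E)⟫)) +
        (1 / (2 * θ)) * (PP s R x * PP s R x)) := by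
    intro x
    have g1 := base_V_pt (s := s) (w := (n : ℝ) * ⟪b, (x : E)⟫) hs0 hs
    have g2 : gm s B x = PhN (Real.sqrt (2 * Real.pi) * s * ((n : ℝ) * ⟪b, (x : E)⟫) / Real.sqrt (1 - s ^ 2)) := by
      unfold gm; rw [hn, hb]
    rw [← g2] at g1
    obtain ⟨w, hw⟩ : ∃ w, w = (n : ℝ) * ⟪b, (x : E)⟫ := ⟨_, rfl⟩
    rw [hPf, ← hw]
    rw [← hw] at g1
    have k1 : |PP s R x| ≤ θ / 2 + (1 / (2 * θ)) * (PP s R x * PP s R x) := by
      have k2 : 0 ≤ (|PP s R x| - θ) ^ 2 / (2 * θ) := by positivity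
      have k3 : (|PP s R x| - θ) ^ 2 / (2 * θ) = (1 / (2 * θ)) * (|PP s R x| ^ 2) - |PP s R x| + θ / 2 := by
        field_simp
        ring
      rw [sq_abs] at k3
      have k4 : PP s R x ^ 2 = PP s R x * PP s R x := sq _
      rw [k4] at k3
      linarith
    have k5 : |w| ≤ 1 / 2 + w ^ 2 / 2 := by
      have := sq_nonneg (|w| - 1)
      have h' : |w| ^ 2 = w ^ 2 := sq_abs w
      nlinarith
    have k6 : s ^ 2 * |w| ≤ s ^ 2 * (1 / 2 + w ^ 2 / 2) := mul_le_mul_of_nonneg_left k5 (sq_nonneg s)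
    have k7 : PP s R x + (μ + s * w) - gm s B x = PP s R x + ((μ - 1 / 2) - (gm s B x - 1 / 2 - s * w)) := by ring
    have k8 : |(μ - 1 / 2) - (gm s B x - 1 / 2 - s * w)| ≤ |μ - 1 / 2| + |gm s B x - 1 / 2 - s * w| :=
      abs_sub _ _
    rw [k7]
    refine (abs_add_le _ _).trans ?_
    nlinarith
  calc ∫ x, |PP s (ind B) x - gm s B x| ∂(sm E)
      ≤ ∫ x, ((|μ - 1 / 2| + s ^ 2 / 2 + θ / 2) + ((9 / 2 * s ^ 2) * (((n : ℝ) * ⟪b, (x : E)⟫) * ((n : ℝ) * ⟪b, (x : E)⟫)) +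
        (1 / (2 * θ)) * (PP s R x * PP s R x))) ∂(sm E) := by
        refine integral_mono_of_nonneg (Eventually.of_forall fun x => abs_nonneg _) ?_
          (Eventually.of_forall hpt)
        exact hI (base_V_bm_add (hc _) (base_V_bm_add (base_V_bm_mul (hc _) hWm) (base_V_bm_mul (hc _) hPm)))
    _ = (|μ - 1 / 2| + s ^ 2 / 2 + θ / 2) + ((9 / 2 * s ^ 2) * ∫ x, ((n : ℝ) * ⟪b, (x : E)⟫) ^ 2 ∂(sm E) +
        (1 / (2 * θ)) * ∫ x, (PP s R x) ^ 2 ∂(sm E)) := by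
        rw [integral_add (hI (hc _)) (hI (base_V_bm_add (base_V_bm_mul (hc _) hWm) (base_V_bm_mul (hc _) hPm))),
          integral_add (hI (base_V_bm_mul (hc _) hWm)) (hI (base_V_bm_mul (hc _) hPm)),
          integral_const_mul, integral_const_mul, integral_const]
        simp [sq]
    _ ≤ (|μ - 1 / 2| + s ^ 2 / 2 + θ / 2) + ((9 / 2 * s ^ 2) * 1 + (1 / (2 * θ)) * θ ^ 2) := by
        gcongr
    _ = |μ - 1 / 2| + 6 * s ^ 2 + 2 / n := by
        have : (1 / (2 * θ)) * θ ^ 2 = θ / 2 := by field_simp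
        rw [this, hθ]; ring
    _ ≤ |μ - 1 / 2| + 20 * s ^ 2 + 2 / n := by nlinarith [sq_nonneg s]
    _ = |(sm E).real B - 1 / 2| + 20 * s ^ 2 + 2 / n := by rw [hμ]

-- gm_double
theorem gm_double {s : ℝ} (hs0 : 0 < s) (hs4 : 4 * s ^ 2 < 1) (B : Set (SS E)) (x : SS E) :
    Dm (2 * Real.sqrt (1 - s ^ 2) / Real.sqrt (1 - 4 * s ^ 2)) (gm s B x) = gm (2 * s) B x := by
  have h1 : 0 < 1 - s ^ 2 := by nlinarith
  have h4 : 0 < 1 - 4 * s ^ 2 := by linarith
  have p1 := Real.sqrt_pos.2 h1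
  have p4 := Real.sqrt_pos.2 h4
  have hle : Real.sqrt (1 - 4 * s ^ 2) ≤ Real.sqrt (1 - s ^ 2) :=
    Real.sqrt_le_sqrt (by nlinarith [sq_nonneg s])
  have hκ : 1 ≤ 2 * Real.sqrt (1 - s ^ 2) / Real.sqrt (1 - 4 * s ^ 2) := by
    rw [le_div_iff₀ p4]; linarith
  unfold gm
  rw [(Dm_props hκ).1]
  congr 1
  have e : (2 * s) ^ 2 = 4 * s ^ 2 := by ring
  rw [e]
  field_simp

end Lin


end CoreW

end Pool.Agent.helper440_simplex
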