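import Pool.Agent.helper440_simplex.G0a
import Pool.Agent.helper440_simplex.G0c

set_option autoImplicit false
set_option linter.unusedSectionVars false

namespace Pool.Agent.helper440_simplex

open MeasureTheory Metric Set Filter Topology
open scoped RealInnerProductSpace

section CoreW
variable {E : Type*} [NormedAddCommGroup E] [InnerProductSpace ℝ E] [CompleteSpace E]
  [FiniteDimensional ℝ E] [MeasurableSpace E] [BorelSpace E]

/-- stability of the hemisphere for `t` points -/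
def G0st (t : ℕ) : Prop := ∀ κ : ℝ, 0 < κ →
    ∃ p0 : ℝ, 0 < p0 ∧ ∃ η : ℝ, 0 < η ∧ ∃ n0 : ℕ, ∀ (E : Type) [NormedAddCommGroup E]
    [InnerProductSpace ℝ E] [CompleteSpace E] [FiniteDimensional ℝ E] [MeasurableSpace E]
    [BorelSpace E], n0 ≤ Module.finrank ℝ E → ∀ s : Fin t → SS E, IsSimp s →
    ∀ B : Set (SS E), MeasurableSet B → (hm E).real {g | ∀ i, sa g (s i) ∈ B} ≤ p0 →
    1 / 2 - η ≤ (sm E).real B →
    ∃ v : SS E, (sm E).real (symmDiff B {x | 0 ≤ ⟪(v : E), (x : E)⟫}) ≤ κ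

-- half_pair
theorem half_pair_int {f : SS E → ℝ} (hn : 1 ≤ Module.finrank ℝ E) (hf : BM f) :
    Integrable f (sm E) := by
  have := sm_prob (E := E) hn
  obtain ⟨hm, C, hC⟩ := hf
  exact Integrable.of_bound hm.aestronglyMeasurable C
    (Filter.Eventually.of_forall fun x => by rw [Real.norm_eq_abs]; exact hC x)

theorem half_pair_mul {f h : SS E → ℝ} (hf : BM f) (hh : BM h) : BM (fun x => f x * h x) := by
  obtain ⟨hm, C, hC⟩ := hf
  obtain ⟨hm', C', hC'⟩ := hh
  refine ⟨hm.mul hm', C * C', fun x => ?_⟩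
  rw [abs_mul]
  exact mul_le_mul (hC x) (hC' x) (abs_nonneg _) ((abs_nonneg _).trans (hC x))

theorem half_pair_sub {f h : SS E → ℝ} (hf : BM f) (hh : BM h) : BM (fun x => f x - h x) := by
  obtain ⟨hm, C, hC⟩ := hf
  obtain ⟨hm', C', hC'⟩ := hh
  refine ⟨hm.sub hm', C + C', fun x => ?_⟩
  exact (abs_sub _ _).trans (add_le_add (hC x) (hC' x))

theorem half_pair_lin (y : E) : BM (fun x : SS E => ⟪y, (x : E)⟫) := by
  refine ⟨(continuous_const.inner continuous_subtype_val).measurable, ‖y‖, fun x => ?_⟩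
  have h := abs_real_inner_le_norm y (x : E)
  have hx : ‖(x : E)‖ = 1 := norm_eq_of_mem_sphere x
  rwa [hx, mul_one] at h

theorem half_pair_half {n : ℕ} (h4 : 4 ≤ n) : mm n 0 = 1 / 2 := by
  obtain ⟨_, _, _, _, _, hsym, hint, h1, _, _⟩ := om_basic h4
  unfold mm
  rw [integral_Ici_eq_integral_Ioi]
  have e1 : ∫ x in Iic (0 : ℝ), om n x = ∫ x in Ioi (0 : ℝ), om n x := by
    have := integral_comp_neg_Iic (0 : ℝ) (om n)
    simp only [hsym, neg_zero] at this
    exact this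
  have e2 := integral_add_compl (measurableSet_Ioi (a := (0 : ℝ))) hint
  rw [compl_Ioi, e1, h1] at e2
  linarith

theorem half_pair {E : Type*} [NormedAddCommGroup E] [InnerProductSpace ℝ E] [CompleteSpace E]
  [FiniteDimensional ℝ E] [MeasurableSpace E] [BorelSpace E] {n : ℕ}
    (hn : Module.finrank ℝ E = n) (h5 : 5 ≤ n) (v : SS E) {s : ℝ} (h0 : 0 ≤ s) (h1 : s ≤ 1) :
    1 / 4 + s / 12 - 1 / (n - 2) ≤ ∫ x, ind {x : SS E | 0 ≤ ⟪(v : E), (x : E)⟫} x *
      PP s (ind {x : SS E | 0 ≤ ⟪(v : E), (x : E)⟫}) x ∂(sm E) := by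
  have hr1 : 1 ≤ Module.finrank ℝ E := by omega
  have hr3 : 3 ≤ Module.finrank ℝ E := by omega
  have hn5 : (5 : ℝ) ≤ n := by exact_mod_cast h5
  have hn0 : (0 : ℝ) < n := by linarith
  have hsabs : |s| ≤ 1 := abs_le.2 ⟨by linarith, h1⟩
  have hprob := sm_prob (E := E) hr1
  set H : Set (SS E) := {x : SS E | 0 ≤ ⟪(v : E), (x : E)⟫} with hH
  have hHm : MeasurableSet H :=
    measurableSet_le measurable_const (continuous_const.inner continuous_subtype_val).measurable
  have hv : ‖(v : E)‖ = 1 := norm_eq_of_mem_sphere v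
  obtain ⟨q1, q2, q3⟩ := bar_props (E := E) hn h5 hHm
  set b : E := bar H with hb
  -- bounded measurable functions
  have bI : BM (ind H) := by
    refine ⟨measurable_const.indicator hHm, 1, fun x => ?_⟩
    unfold ind
    by_cases hx : x ∈ H
    · simp [hx]
    · simp [hx]
  have bl : ∀ y : E, BM (fun x : SS E => ⟪y, (x : E)⟫) := fun y => half_pair_lin y
  set f1 : SS E → ℝ := fun x => ⟪(n : ℝ) • b, (x : E)⟫ with hf1
  have b1 : BM f1 := bl _
  set g : SS E → ℝ := fun x => ind H x - f1 x with hg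
  have bg : BM g := half_pair_sub bI b1
  -- mean of linear functions
  have mlin : ∀ y : E, ∫ x : SS E, ⟪y, (x : E)⟫ ∂(sm E) = 0 := by
    intro y
    have h := (PP_sym (E := E) hr3 (r := 0) (by norm_num) (by norm_num) (bl y) (bl y)).2.1
    rw [← h]
    have : ∀ x, PP 0 (fun z : SS E => ⟪y, (z : E)⟫) x = 0 := by
      intro x
      rw [PP_linear hr3 (by norm_num)]
      ring
    simp only [this, integral_zero]
  have hmean : ∫ x, ind H x ∂(sm E) = 1 / 2 := by
    have h := cap_meas (E := E) hn (by omega) v 0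
    rw [half_pair_half (by omega)] at h
    unfold ind
    rw [integral_indicator_const _ hHm]
    simp only [smul_eq_mul, mul_one]
    exact h
  -- second and fourth moments
  have m2 : ∫ x : SS E, ⟪(v : E), (x : E)⟫ ^ 2 ∂(sm E) = 1 / n := by
    have h := q1 v v
    rw [real_inner_self_eq_norm_sq, hv] at h
    simp only [← sq] at h
    simpa using h
  have m4 : ((n : ℝ) + 2) * ∫ x : SS E, ⟪(v : E), (x : E)⟫ ^ 4 ∂(sm E) = 3 / n := by
    have h := sm_stein (E := E) hn (by omega) v 2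
    have e : ∫ x : SS E, (1 - ⟪(v : E), (x : E)⟫ ^ 2) * ⟪(v : E), (x : E)⟫ ^ 2 ∂(sm E)
        = 1 / n - ∫ x : SS E, ⟪(v : E), (x : E)⟫ ^ 4 ∂(sm E) := by
      rw [← m2, ← integral_sub]
      · congr 1; funext x; ring
      · have := half_pair_int hr1 (half_pair_mul (bl (v : E)) (bl (v : E)))
        simpa only [← sq] using this
      · have := half_pair_int hr1 (half_pair_mul (half_pair_mul (bl (v : E)) (bl (v : E)))
          (half_pair_mul (bl (v : E)) (bl (v : E))))
        refine this.congr (Filter.Eventually.of_forall fun x => ?_)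
        simp only
        ring
    rw [e] at h
    push_cast at h
    norm_num at h
    have e3 : (3 : ℝ) / n = 3 * (n : ℝ)⁻¹ := by rw [div_eq_mul_inv]
    rw [e3]
    linarith
  set M4 : ℝ := ∫ x : SS E, ⟪(v : E), (x : E)⟫ ^ 4 ∂(sm E) with hM4
  -- first absolute moment
  have mabs : ∫ x : SS E, |⟪(v : E), (x : E)⟫| ∂(sm E) = 2 * ⟪b, (v : E)⟫ := by
    rw [← q2 v]
    have e : ∀ x : SS E, |⟪(v : E), (x : E)⟫| = 2 * (ind H x * ⟪(v : E), (x : E)⟫)
        - ⟪(v : E), (x : E)⟫ := by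
      intro x
      by_cases hx : 0 ≤ ⟪(v : E), (x : E)⟫
      · have : x ∈ H := hx
        rw [abs_of_nonneg hx]
        simp only [ind, Set.indicator_of_mem this]
        ring
      · have : x ∉ H := hx
        rw [abs_of_neg (not_le.1 hx)]
        simp only [ind, Set.indicator_of_notMem this]
        ring
    simp only [e]
    rw [integral_sub ((half_pair_int hr1 (half_pair_mul bI (bl v))).const_mul 2)
      (half_pair_int hr1 (bl v)), integral_const_mul, mlin, sub_zero]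
  set c : ℝ := Real.sqrt (3 / n) with hc
  have hc0 : 0 < c := Real.sqrt_pos.2 (by positivity)
  have hc2 : c ^ 2 = 3 / n := Real.sq_sqrt (by positivity)
  have hM4' : M4 ≤ c ^ 4 / 3 := by
    have e1 : c ^ 4 / 3 = 3 / n * (1 / n) := by
      have : c ^ 4 = (c ^ 2) ^ 2 := by ring
      rw [this, hc2]; ring
    have e2 : M4 = 3 / n / (n + 2) := by
      rw [eq_div_iff (by positivity)]
      linarith
    rw [e1, e2]
    rw [div_eq_mul_one_div (3 / (n : ℝ))]
    refine mul_le_mul_of_nonneg_left ?_ (by positivity)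
    exact one_div_le_one_div_of_le hn0 (by linarith)
  have mom : c / 3 ≤ ∫ x : SS E, |⟪(v : E), (x : E)⟫| ∂(sm E) := by
    have habs : BM (fun x : SS E => |⟪(v : E), (x : E)⟫|) := by
      obtain ⟨hm, C, hC⟩ := bl (v : E)
      exact ⟨hm.abs, C, fun x => by rw [abs_abs]; exact hC x⟩
    have i1 : Integrable (fun x : SS E => ⟪(v : E), (x : E)⟫ ^ 2) (sm E) := by
      have := half_pair_int hr1 (half_pair_mul (bl (v : E)) (bl (v : E)))
      simpa only [← sq] using this
    have i2 : Integrable (fun x : SS E => ⟪(v : E), (x : E)⟫ ^ 4) (sm E) := by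
      have := half_pair_int hr1 (half_pair_mul (half_pair_mul (bl (v : E)) (bl (v : E)))
          (half_pair_mul (bl (v : E)) (bl (v : E))))
      refine this.congr (Filter.Eventually.of_forall fun x => ?_)
      simp only
      ring
    have h := integral_mono (μ := sm E)
      (f := fun x : SS E => 3 * c ^ 2 * ⟪(v : E), (x : E)⟫ ^ 2 - ⟪(v : E), (x : E)⟫ ^ 4)
      (g := fun x : SS E => 2 * c ^ 3 * |⟪(v : E), (x : E)⟫|)
      ((i1.const_mul _).sub i2) ((half_pair_int hr1 habs).const_mul _) (by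
        intro x
        simp only
        have hsq : ⟪(v : E), (x : E)⟫ ^ 2 = |⟪(v : E), (x : E)⟫| ^ 2 := (sq_abs _).symm
        have hsq4 : ⟪(v : E), (x : E)⟫ ^ 4 = |⟪(v : E), (x : E)⟫| ^ 4 := by
          have : ⟪(v : E), (x : E)⟫ ^ 4 = (⟪(v : E), (x : E)⟫ ^ 2) ^ 2 := by ring
          rw [this, hsq]; ring
        rw [hsq4, hsq]
        set y := |⟪(v : E), (x : E)⟫|
        have hy : 0 ≤ y := abs_nonneg _
        have : 0 ≤ y * ((y - c) ^ 2 * (y + 2 * c)) := by positivity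
        nlinarith [this])
    rw [integral_sub (i1.const_mul _) i2, integral_const_mul, integral_const_mul, m2] at h
    have h3 : 3 * c ^ 2 * (1 / n) = c ^ 4 := by
      have : c ^ 4 = (c ^ 2) ^ 2 := by ring
      rw [this, hc2]; field_simp
    rw [h3] at h
    have h4 : 2 * c ^ 3 * (c / 3) ≤ 2 * c ^ 3 * ∫ x : SS E, |⟪(v : E), (x : E)⟫| ∂(sm E) := by
      refine le_trans ?_ h
      nlinarith
    exact le_of_mul_le_mul_left h4 (by positivity)
  have hbn : 1 / 12 ≤ n * ‖b‖ ^ 2 := by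
    have h2 : c / 6 ≤ ‖b‖ := by
      have h3 : ⟪b, (v : E)⟫ ≤ ‖b‖ := by
        have := real_inner_le_norm b (v : E)
        rwa [hv, mul_one] at this
      rw [mabs] at mom
      linarith
    have h3 : (c / 6) ^ 2 ≤ ‖b‖ ^ 2 := pow_le_pow_left₀ (by positivity) h2 2
    have h4 : (c / 6) ^ 2 = 1 / (12 * n) := by
      rw [div_pow, hc2]; field_simp; norm_num
    rw [h4] at h3
    calc (1 : ℝ) / 12 = n * (1 / (12 * n)) := by field_simp
      _ ≤ _ := mul_le_mul_of_nonneg_left h3 hn0.le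
  -- inner products
  have j11 : ∫ x, f1 x * f1 x ∂(sm E) = n * ‖b‖ ^ 2 := by
    have h := q1 ((n : ℝ) • b) ((n : ℝ) • b)
    rw [real_inner_self_eq_norm_sq, norm_smul, Real.norm_of_nonneg hn0.le] at h
    rw [show (∫ x, f1 x * f1 x ∂(sm E)) = _ from h]
    field_simp
  have jI1 : ∫ x, ind H x * f1 x ∂(sm E) = n * ‖b‖ ^ 2 := by
    have h := q2 ((n : ℝ) • b)
    rw [real_inner_smul_right, real_inner_self_eq_norm_sq] at h
    exact h
  have jg1 : ∫ x, g x * f1 x ∂(sm E) = 0 := by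
    have e : ∀ x, g x * f1 x = ind H x * f1 x - f1 x * f1 x := fun x => by
      simp only [hg]; ring
    simp only [e]
    rw [integral_sub (half_pair_int hr1 (half_pair_mul bI b1))
      (half_pair_int hr1 (half_pair_mul b1 b1)), j11, jI1, sub_self]
  have jgm : ∫ x, g x ∂(sm E) = 1 / 2 := by
    simp only [hg]
    rw [integral_sub (half_pair_int hr1 bI) (half_pair_int hr1 b1), hmean, mlin, sub_zero]
  have jgg : ∫ x, (g x) ^ 2 ∂(sm E) ≤ 1 / 2 := by
    have e : ∀ x, g x ^ 2 = ind H x - ind H x * f1 x - g x * f1 x := by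
      intro x
      have hi : ind H x * ind H x = ind H x := by
        unfold ind
        by_cases hx : x ∈ H
        · simp [hx]
        · simp [hx]
      simp only [hg]
      linear_combination hi
    simp only [e]
    rw [integral_sub (half_pair_int hr1 (half_pair_sub bI (half_pair_mul bI b1)))
      (half_pair_int hr1 (half_pair_mul bg b1)), integral_sub (half_pair_int hr1 bI)
      (half_pair_int hr1 (half_pair_mul bI b1)), hmean, jI1, jg1]
    have : 0 ≤ n * ‖b‖ ^ 2 := by positivity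
    linarith
  have hpsd := psd (E := E) hn h5 h0 h1 bg
  rw [jgm] at hpsd
  have hPP1 : ∀ x, PP s f1 x = s * f1 x := fun x => PP_linear hr3 hsabs _ x
  have hPPg : ∀ x, PP s (ind H) x = PP s g x + s * f1 x := by
    intro x
    have h := (PP_basic (E := E) hr3 s bg b1).2.2.1 1 1 x
    rw [hPP1] at h
    have e : (fun y => 1 * g y + 1 * f1 y) = ind H := by
      funext y
      simp only [hg]; ring
    rw [e] at h
    linarith
  have bPg : BM (PP s g) := (PP_basic (E := E) hr3 s bg b1).1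
  have hsym := (PP_sym (E := E) hr3 (r := s) (by linarith) h1 bg b1).1
  have hs1 : ∫ x, f1 x * PP s g x ∂(sm E) = 0 := by
    rw [hsym]
    simp only [hPP1]
    have e : ∀ x, g x * (s * f1 x) = s * (g x * f1 x) := fun x => by ring
    simp only [e]
    rw [integral_const_mul, jg1, mul_zero]
  have hexp : ∫ x, ind H x * PP s (ind H) x ∂(sm E)
      = ∫ x, g x * PP s g x ∂(sm E) + s * (n * ‖b‖ ^ 2) := by
    have e : ∀ x, ind H x * PP s (ind H) x
        = g x * PP s g x + (f1 x * PP s g x + s * (ind H x * f1 x)) := by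
      intro x
      rw [hPPg]
      simp only [hg]; ring
    simp only [e]
    have i1 := half_pair_int hr1 (half_pair_mul bg bPg)
    have i2 := half_pair_int hr1 (half_pair_mul b1 bPg)
    have i3 := (half_pair_int hr1 (half_pair_mul bI b1)).const_mul s
    have i4 : Integrable (fun x => f1 x * PP s g x + s * (ind H x * f1 x)) (sm E) := i2.add i3
    rw [integral_add i1 i4, integral_add i2 i3, integral_const_mul, hs1, jI1]
    ring
  rw [hexp]
  have hn2 : (0 : ℝ) < n - 2 := by linarith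
  have h6 : (∫ x, (g x) ^ 2 ∂(sm E)) / (n - 2) ≤ 1 / (n - 2) :=
    div_le_div_of_nonneg_right (by linarith) hn2.le
  have h7 : s * (1 / 12) ≤ s * (n * ‖b‖ ^ 2) := mul_le_mul_of_nonneg_left hbn h0
  linarith

-- case_small
section CaseSmallAux
variable {F : Type*} [NormedAddCommGroup F] [InnerProductSpace ℝ F] [CompleteSpace F]
  [FiniteDimensional ℝ F] [MeasurableSpace F] [BorelSpace F]

theorem case_small_ind01 (D : Set (SS F)) (x : SS F) : 0 ≤ ind D x ∧ ind D x ≤ 1 := by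
  unfold ind
  by_cases h : x ∈ D
  · simp [h]
  · simp [h]

theorem case_small_BM {D : Set (SS F)} (hD : MeasurableSet D) : BM (ind D) := by
  refine ⟨measurable_const.indicator hD, 1, fun x => ?_⟩
  obtain ⟨h0, h1⟩ := case_small_ind01 D x
  rw [abs_le]; constructor <;> linarith

theorem case_small_bm_int (hn : 1 ≤ Module.finrank ℝ F) {f : SS F → ℝ} (hf : BM f) :
    Integrable f (sm F) := by
  have := sm_prob (E := F) hn
  obtain ⟨hm, C, hC⟩ := hf
  exact Integrable.of_bound hm.aestronglyMeasurable C (Eventually.of_forall fun x => by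
    rw [Real.norm_eq_abs]; exact hC x)

theorem case_small_bm_mul {f h : SS F → ℝ} (hf : BM f) (hh : BM h) :
    BM (fun x => f x * h x) := by
  obtain ⟨hm, C, hC⟩ := hf
  obtain ⟨hm', C', hC'⟩ := hh
  refine ⟨hm.mul hm', |C| * |C'|, fun x => ?_⟩
  rw [abs_mul]
  exact mul_le_mul ((hC x).trans (le_abs_self C)) ((hC' x).trans (le_abs_self C'))
    (abs_nonneg _) (abs_nonneg _)

theorem case_small_bm_sub {f h : SS F → ℝ} (hf : BM f) (hh : BM h) :
    BM (fun x => f x - h x) := by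
  obtain ⟨hm, C, hC⟩ := hf
  obtain ⟨hm', C', hC'⟩ := hh
  refine ⟨hm.sub hm', C + C', fun x => ?_⟩
  have := abs_sub (f x) (h x)
  linarith [hC x, hC' x]

theorem case_small_PP01 (hn : 3 ≤ Module.finrank ℝ F) (r : ℝ) {D : Set (SS F)}
    (hD : MeasurableSet D) (x : SS F) : 0 ≤ PP r (ind D) x ∧ PP r (ind D) x ≤ 1 := by
  obtain ⟨_, _, _, h1, h0, _⟩ := PP_basic hn r (case_small_BM hD) (case_small_BM hD)
  exact ⟨h0 0 x fun y => (case_small_ind01 D y).1, h1 1 x fun y => (case_small_ind01 D y).2⟩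

theorem case_small_int_ind {D : Set (SS F)} (hD : MeasurableSet D) :
    ∫ x, ind D x ∂(sm F) = (sm F).real D := by
  unfold ind
  rw [integral_indicator hD]
  simp

theorem case_small_int_sq {D : Set (SS F)} (hD : MeasurableSet D) :
    ∫ x, (ind D x) ^ 2 ∂(sm F) = (sm F).real D := by
  rw [← case_small_int_ind hD]
  congr 1
  ext x
  unfold ind
  by_cases h : x ∈ D
  · simp [h]
  · simp [h]

/-- the quadratic lower bound -/
theorem case_small_low {n : ℕ} (hn : Module.finrank ℝ F = n) (h5 : 5 ≤ n) {s : ℝ} (h0 : 0 ≤ s)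
    (h1 : s ≤ 1) {D : Set (SS F)} (hD : MeasurableSet D) :
    (sm F).real D - 1 / 4 - 1 / (n - 2) ≤ ∫ x, ind D x * PP s (ind D) x ∂(sm F) := by
  have := sm_prob (E := F) (by omega)
  have h := psd hn h5 h0 h1 (case_small_BM hD)
  rw [case_small_int_ind hD, case_small_int_sq hD] at h
  have hm1 : (sm F).real D ≤ 1 := measureReal_le_one
  have hn2 : (0 : ℝ) < n - 2 := by
    have : (5 : ℝ) ≤ n := by exact_mod_cast h5
    linarith
  have h2 : (sm F).real D / (n - 2) ≤ 1 / (n - 2) := by gcongr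
  nlinarith [sq_nonneg ((sm F).real D - 1 / 2)]

/-- the lower bound near a half space -/
theorem case_small_half {n : ℕ} (hn : Module.finrank ℝ F = n) (h5 : 5 ≤ n) {s : ℝ} (h0 : 0 ≤ s)
    (h1 : s ≤ 1) {D : Set (SS F)} (hD : MeasurableSet D) (v : SS F) {κ : ℝ}
    (hκ : (sm F).real (symmDiff D {x | 0 ≤ ⟪(v : F), (x : F)⟫}) ≤ κ) :
    1 / 4 + s / 12 - 1 / (n - 2) - 2 * κ ≤ ∫ x, ind D x * PP s (ind D) x ∂(sm F) := by
  have := sm_prob (E := F) (by omega)
  have hn1 : 1 ≤ Module.finrank ℝ F := by omega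
  have hn3 : 3 ≤ Module.finrank ℝ F := by omega
  set H : Set (SS F) := {x | 0 ≤ ⟪(v : F), (x : F)⟫} with hH
  have hHm : MeasurableSet H := by
    apply IsClosed.measurableSet
    exact isClosed_le continuous_const (continuous_const.inner continuous_subtype_val)
  have hp := half_pair hn h5 v h0 h1
  rw [← hH] at hp
  have bD := case_small_BM hD
  have bH := case_small_BM hHm
  have bPD := (PP_basic hn3 s bD bD).1
  have bPH := (PP_basic hn3 s bH bH).1
  have hsym := (PP_sym hn3 (by linarith : (-1 : ℝ) ≤ s) h1 bD bH).1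
  -- ∫ H PP D = ∫ D PP H
  have i1 := case_small_bm_int hn1 (case_small_bm_mul bD bPD)
  have i2 := case_small_bm_int hn1 (case_small_bm_mul bH bPH)
  have i3 := case_small_bm_int hn1 (case_small_bm_mul bH bPD)
  have i4 := case_small_bm_int hn1 (case_small_bm_mul bD bPH)
  have j1 : Integrable (fun x => ind D x * PP s (ind D) x - ind H x * PP s (ind D) x) (sm F) :=
    i1.sub i3
  have j2 : Integrable (fun x => ind D x * PP s (ind H) x - ind H x * PP s (ind H) x) (sm F) :=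
    i4.sub i2
  have e : (∫ x, ind D x * PP s (ind D) x ∂(sm F)) - (∫ x, ind H x * PP s (ind H) x ∂(sm F))
      = ∫ x, ((ind D x * PP s (ind D) x - ind H x * PP s (ind D) x)
        + (ind D x * PP s (ind H) x - ind H x * PP s (ind H) x)) ∂(sm F) := by
    rw [integral_add j1 j2, integral_sub i1 i3, integral_sub i4 i2, hsym]
    ring
  have hsd : MeasurableSet (symmDiff D H) := hD.symmDiff hHm
  have hpt : ∀ x, -(2 * ind (symmDiff D H) x) ≤ 
      ((ind D x * PP s (ind D) x - ind H x * PP s (ind D) x)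
        + (ind D x * PP s (ind H) x - ind H x * PP s (ind H) x)) := by
    intro x
    obtain ⟨a0, a1⟩ := case_small_PP01 hn3 s hD x
    obtain ⟨b0, b1⟩ := case_small_PP01 hn3 s hHm x
    have d1 : x ∈ D → ind D x = 1 := fun h => by simp [ind, h]
    have d0 : x ∉ D → ind D x = 0 := fun h => by simp [ind, h]
    have c1 : x ∈ H → ind H x = 1 := fun h => by simp [ind, h]
    have c0 : x ∉ H → ind H x = 0 := fun h => by simp [ind, h]
    have g1 : x ∈ symmDiff D H → ind (symmDiff D H) x = 1 := fun h => by simp [ind, h]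
    have g0 := (case_small_ind01 (symmDiff D H) x).1
    by_cases hxD : x ∈ D <;> by_cases hxH : x ∈ H
    · rw [d1 hxD, c1 hxH]; linarith
    · rw [d1 hxD, c0 hxH, g1 (by rw [Set.mem_symmDiff]; tauto)]; linarith
    · rw [d0 hxD, c1 hxH, g1 (by rw [Set.mem_symmDiff]; tauto)]; linarith
    · rw [d0 hxD, c0 hxH]; linarith
  have e2 : -(2 * ∫ x, ind (symmDiff D H) x ∂(sm F)) ≤
      ∫ x, ((ind D x * PP s (ind D) x - ind H x * PP s (ind D) x)
        + (ind D x * PP s (ind H) x - ind H x * PP s (ind H) x)) ∂(sm F) := by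
    rw [← integral_const_mul, ← integral_neg]
    exact integral_mono ((case_small_bm_int hn1 (case_small_BM hsd)).const_mul 2).neg
      (j1.add j2) hpt
  rw [case_small_int_ind hsd] at e2
  linarith


theorem case_small_hbm_int {f : UG F → ℝ} (h1 : Measurable f) (h2 : ∃ C : ℝ, ∀ g, |f g| ≤ C) :
    Integrable f (hm F) := by
  obtain ⟨C, hC⟩ := h2
  exact Integrable.of_bound h1.aestronglyMeasurable C (Eventually.of_forall fun x => by
    rw [Real.norm_eq_abs]; exact hC x)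

/-- the fibre of a rotated set -/
def case_small_fib (B : Set (SS F)) (e : SS F) (ρ : ℝ) (g : UG F) : Set (SS (Pe e)) :=
  {w | sa g (pt e ρ w) ∈ B}

theorem case_small_fib_meas {B : Set (SS F)} (hB : MeasurableSet B) (e : SS F) (ρ : ℝ) (g : UG F) :
    MeasurableSet (case_small_fib B e ρ g) := by
  have h1 : Continuous (fun w : SS (Pe e) => ((ρ, w) : ℝ × SS (Pe e))) :=
    Continuous.prodMk continuous_const continuous_id
  have h2 : Continuous (fun w : SS (Pe e) => pt e ρ w) := by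
    have h3 := Continuous.comp (pt_cont e) h1
    exact h3
  have hc : Continuous (fun w : SS (Pe e) => sa g (pt e ρ w)) :=
    Continuous.comp (sa_continuous_right g) h2
  exact hc.measurable hB

theorem case_small_fib_ind (B : Set (SS F)) (e : SS F) (ρ : ℝ) (g : UG F) (w : SS (Pe e)) :
    ind (case_small_fib B e ρ g) w = ind B (sa g (pt e ρ w)) := by
  unfold ind case_small_fib
  by_cases h : sa g (pt e ρ w) ∈ B
  · rw [Set.indicator_of_mem h, Set.indicator_of_mem (by exact h)]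
  · rw [Set.indicator_of_notMem h, Set.indicator_of_notMem (by exact h)]

theorem case_small_fib_mass (hn : 2 ≤ Module.finrank ℝ F) {B : Set (SS F)} (hB : MeasurableSet B)
    (e : SS F) (ρ : ℝ) (g : UG F) :
    (sm (Pe e)).real (case_small_fib B e ρ g) = PP ρ (ind B) (sa g e) := by
  rw [PP_rot hn ρ (case_small_BM hB).1 g e, ← case_small_int_ind (case_small_fib_meas hB e ρ g)]
  simp only [case_small_fib_ind]
  rfl

theorem case_small_ex_sa (e : SS F) (g : UG F) (k : UG (Pe e)) (ρ : ℝ) (w : SS (Pe e)) :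
    sa (g * ex e k) (pt e ρ w) = sa g (pt e ρ (sa k w)) := by
  rw [sa_mul, ex_pt]

theorem case_small_ex_e (e : SS F) (g : UG F) (k : UG (Pe e)) :
    sa (g * ex e k) e = sa g e := by
  rw [sa_mul]
  congr 1
  exact Subtype.ext (by rw [sa_coe]; exact (ex_props e k).1)

theorem case_small_cond_meas (e : SS F) {Φ : UG F → ℝ} (hΦ : Measurable Φ) :
    Measurable (fun g => ∫ k, Φ (g * ex e k) ∂(hm (Pe e))) := by
  have h1 : Continuous (fun p : UG F × UG (Pe e) => p.1 * ex e p.2) :=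
    continuous_fst.mul ((ex_cont e).comp continuous_snd)
  have h2 : Measurable (Function.uncurry fun (g : UG F) (k : UG (Pe e)) => Φ (g * ex e k)) :=
    hΦ.comp h1.measurable
  exact (h2.stronglyMeasurable.integral_prod_right (ν := hm (Pe e))).measurable

theorem case_small_cond_bd (e : SS F) {Φ : UG F → ℝ} (hΦ : Measurable Φ)
    (h01 : ∀ g, 0 ≤ Φ g ∧ Φ g ≤ 1) (g : UG F) :
    0 ≤ ∫ k, Φ (g * ex e k) ∂(hm (Pe e)) ∧ ∫ k, Φ (g * ex e k) ∂(hm (Pe e)) ≤ 1 := by
  have h1 : Continuous (fun k : UG (Pe e) => g * ex e k) :=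
    continuous_const.mul (ex_cont e)
  have hi : Integrable (fun k : UG (Pe e) => Φ (g * ex e k)) (hm (Pe e)) :=
    case_small_hbm_int (hΦ.comp h1.measurable) ⟨1, fun k => by
      rw [abs_le]; constructor <;> linarith [(h01 (g * ex e k)).1, (h01 (g * ex e k)).2]⟩
  constructor
  · exact integral_nonneg fun k => (h01 _).1
  · calc ∫ k, Φ (g * ex e k) ∂(hm (Pe e)) ≤ ∫ _k, (1 : ℝ) ∂(hm (Pe e)) :=
        integral_mono hi (integrable_const 1) fun k => (h01 _).2
      _ = 1 := by simp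


theorem case_small_cons {m : ℕ} (h3 : 3 ≤ m) (e : SS F) (z : Fin m → SS (Pe e)) (hz : IsSimp z) :
    IsSimp (t := m + 1) (Fin.cons e (fun i => pt e (-1 / (m : ℝ)) (z i)) : Fin (m + 1) → SS F) := by
  have hm0 : (3 : ℝ) ≤ m := by exact_mod_cast h3
  have hmp : (0 : ℝ) < m := by linarith
  have hr1 : (-1 : ℝ) ≤ -1 / (m : ℝ) := by
    rw [le_div_iff₀ hmp]; linarith
  have hr2 : -1 / (m : ℝ) ≤ 1 := by
    rw [div_le_iff₀ hmp]; linarith
  have hcast : ((m + 1 : ℕ) : ℝ) - 1 = m := by push_cast; ring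
  have hsq : Real.sqrt (1 - (-1 / (m : ℝ)) ^ 2) * Real.sqrt (1 - (-1 / (m : ℝ)) ^ 2)
      = 1 - (-1 / (m : ℝ)) ^ 2 := by
    apply Real.mul_self_sqrt
    nlinarith
  have e0 : ∀ i : Fin m, ⟪(e : F), (pt e (-1 / (m : ℝ)) (z i) : F)⟫ = -1 / (m : ℝ) := fun i =>
    (pt_inner hr1 hr2 hr1 hr2 e (z i) (z i)).1
  intro i l hil
  rw [hcast]
  induction i using Fin.cases with
  | zero =>
    induction l using Fin.cases with
    | zero => exact absurd rfl hil
    | succ l => simpa using e0 l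
  | succ i =>
    induction l using Fin.cases with
    | zero =>
      rw [real_inner_comm]
      simpa using e0 i
    | succ l =>
      have hil' : i ≠ l := fun h => hil (by rw [h])
      have h := (pt_inner hr1 hr2 hr1 hr2 e (z i) (z l)).2
      rw [hsq, hz i l hil'] at h
      simp only [Fin.cons_succ]
      rw [h]
      have : (m : ℝ) - 1 ≠ 0 := by linarith
      field_simp
      ring

theorem case_small_core {m n : ℕ} (h3 : 3 ≤ m) (hn : Module.finrank ℝ F = n + 1) (hn5 : 5 ≤ n)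
    (hmn : m ≤ n) {κ p1 η1 : ℝ} (hp1 : 0 < p1) (hη1 : 0 < η1)
    (hκ : 0 ≤ 1 / (12 * ((m : ℝ) + 1)) - 2 * κ)
    (H : ∀ (e : SS F) (z : Fin m → SS (Pe e)), IsSimp z → ∀ D : Set (SS (Pe e)),
      MeasurableSet D → (hm (Pe e)).real {k | ∀ i, sa k (z i) ∈ D} ≤ p1 →
      1 / 2 - η1 ≤ (sm (Pe e)).real D →
      ∃ v : SS (Pe e), (sm (Pe e)).real (symmDiff D {x | 0 ≤ ⟪(v : Pe e), (x : Pe e)⟫}) ≤ κ)
    (s : Fin (m + 1) → SS F) (hs : IsSimp s) {B : Set (SS F)} (hB : MeasurableSet B) :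
    1 / 4 - 1 / ((n : ℝ) - 2) - ∫ x, |PP (-1 / (m : ℝ)) (ind B) x - 1 / 2| ∂(sm F)
      + (1 / (12 * ((m : ℝ) + 1)) - 2 * κ) * ((sm F).real B
        - (hm F).real {g | ∀ i, sa g (s i) ∈ B} / p1
        - (∫ x, |PP (-1 / (m : ℝ)) (ind B) x - 1 / 2| ∂(sm F)) / η1)
      ≤ ∫ x, ind B x * PP (1 / (m : ℝ)) (ind B) x ∂(sm F) := by
  have hm0 : (3 : ℝ) ≤ m := by exact_mod_cast h3
  have hmp : (0 : ℝ) < m := by linarith
  have hn2 : 2 ≤ Module.finrank ℝ F := by omega
  have hn1 : 1 ≤ Module.finrank ℝ F := by omega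
  have hn3 : 3 ≤ Module.finrank ℝ F := by omega
  have hr1 : (-1 : ℝ) ≤ -1 / (m : ℝ) := by
    rw [le_div_iff₀ hmp]; linarith
  have hr2 : -1 / (m : ℝ) ≤ 1 := by
    rw [div_le_iff₀ hmp]; linarith
  have hs0 : (0 : ℝ) ≤ 1 / ((m : ℝ) + 1) := by positivity
  have hs1 : 1 / ((m : ℝ) + 1) ≤ 1 := by
    rw [div_le_iff₀ (by linarith)]; linarith
  have hsq : Real.sqrt (1 - (-1 / (m : ℝ)) ^ 2) * Real.sqrt (1 - (-1 / (m : ℝ)) ^ 2)
      = 1 - (-1 / (m : ℝ)) ^ 2 := by
    apply Real.mul_self_sqrt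
    nlinarith
  -- the base point and the frames
  let e : SS F := s 0
  have hPe : Module.finrank ℝ (Pe e) = n := finrank_Pe hn e
  obtain ⟨z, hz⟩ := exists_simplex (E := Pe e) (t := m) (by omega) hmn hPe
  have hzS : IsSimp z := hz
  let w0 : SS (Pe e) := z ⟨0, by omega⟩
  have hPw : Module.finrank ℝ (Pe w0) = n - 1 := finrank_Pe (by omega) w0
  obtain ⟨u⟩ := sm_nonempty (E := Pe w0) (by omega)
  let w1 : SS (Pe e) := pt w0 (1 / ((m : ℝ) + 1)) u
  have hw : ⟪(w0 : Pe e), (w1 : Pe e)⟫ = 1 / ((m : ℝ) + 1) :=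
    (pt_inner (by linarith) hs1 (by linarith) hs1 w0 u u).1
  have hS := case_small_cons h3 e z hzS
  set S : Fin (m + 1) → SS F := Fin.cons e (fun i => pt e (-1 / (m : ℝ)) (z i)) with hSdef
  have hR : ⟪(pt e (-1 / (m : ℝ)) w0 : F), (pt e (-1 / (m : ℝ)) w1 : F)⟫ = 1 / (m : ℝ) := by
    have h := (pt_inner hr1 hr2 hr1 hr2 e w0 w1).2
    rw [hsq, hw] at h
    rw [h]
    have : (m : ℝ) + 1 ≠ 0 := by linarith
    field_simp
    ring
  -- the functions
  have bB := case_small_BM hB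
  let Φ : UG F → ℝ := fun g => ind B (sa g (pt e (-1 / (m : ℝ)) w0)) *
    ind B (sa g (pt e (-1 / (m : ℝ)) w1))
  have hΦm : Measurable Φ := (bB.1.comp (sa_continuous_left _).measurable).mul
    (bB.1.comp (sa_continuous_left _).measurable)
  have hΦ01 : ∀ g, 0 ≤ Φ g ∧ Φ g ≤ 1 := by
    intro g
    have a := case_small_ind01 B (sa g (pt e (-1 / (m : ℝ)) w0))
    have b := case_small_ind01 B (sa g (pt e (-1 / (m : ℝ)) w1))
    exact ⟨mul_nonneg a.1 b.1, mul_le_one₀ a.2 b.1 b.2⟩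
  let T : Set (UG F) := {g | ∀ i, sa g (S i) ∈ B}
  have hTm : MeasurableSet T := by
    have : T = ⋂ i, (fun g => sa g (S i)) ⁻¹' B := by
      ext g; simp [T]
    rw [this]
    exact MeasurableSet.iInter fun i => (sa_continuous_left (S i)).measurable hB
  let Ψ : UG F → ℝ := T.indicator fun _ => 1
  have hΨm : Measurable Ψ := measurable_const.indicator hTm
  have hΨ01 : ∀ g, 0 ≤ Ψ g ∧ Ψ g ≤ 1 := by
    intro g
    by_cases h : g ∈ T
    · simp [Ψ, h]
    · simp [Ψ, h]
  -- total integrals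
  have iΦ : ∫ g, Φ g ∂(hm F) = ∫ x, ind B x * PP (1 / (m : ℝ)) (ind B) x ∂(sm F) := by
    have h := PP_pair hn2 bB bB (fun r => (PP_basic hn3 r bB bB).1.1)
      (pt e (-1 / (m : ℝ)) w0) (pt e (-1 / (m : ℝ)) w1)
    rw [hR] at h
    exact h.symm
  have iΨ : ∫ g, Ψ g ∂(hm F) = (hm F).real {g | ∀ i, sa g (s i) ∈ B} := by
    rw [simp_prob_eq (by omega) s S hs hS B]
    simp only [Ψ]
    rw [integral_indicator hTm]
    simp [T]
  have cΦ := cond_right e hΦm ⟨1, fun g => by
    rw [abs_le]; constructor <;> linarith [(hΦ01 g).1, (hΦ01 g).2]⟩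
  have cΨ := cond_right e hΨm ⟨1, fun g => by
    rw [abs_le]; constructor <;> linarith [(hΨ01 g).1, (hΨ01 g).2]⟩
  -- pointwise identities
  have pΦ : ∀ g : UG F, ∫ k, Φ (g * ex e k) ∂(hm (Pe e)) =
      ∫ w, ind (case_small_fib B e (-1 / (m : ℝ)) g) w *
        PP (1 / ((m : ℝ) + 1)) (ind (case_small_fib B e (-1 / (m : ℝ)) g)) w ∂(sm (Pe e)) := by
    intro g
    have bD := case_small_BM (case_small_fib_meas hB e (-1 / (m : ℝ)) g)
    have h := PP_pair (E := Pe e) (by omega) bD bD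
      (fun r => (PP_basic (by omega) r bD bD).1.1) w0 w1
    rw [hw] at h
    rw [h]
    congr 1
    ext k
    simp only [Φ]
    rw [case_small_ex_sa, case_small_ex_sa, case_small_fib_ind, case_small_fib_ind]
  have pΨ : ∀ g : UG F, ∫ k, Ψ (g * ex e k) ∂(hm (Pe e)) = ind B (sa g e) *
      (hm (Pe e)).real {k | ∀ i, sa k (z i) ∈ case_small_fib B e (-1 / (m : ℝ)) g} := by
    intro g
    have hKm : MeasurableSet {k : UG (Pe e) | ∀ i, sa k (z i) ∈
        case_small_fib B e (-1 / (m : ℝ)) g} := by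
      have : {k : UG (Pe e) | ∀ i, sa k (z i) ∈ case_small_fib B e (-1 / (m : ℝ)) g}
          = ⋂ i, (fun k => sa k (z i)) ⁻¹' (case_small_fib B e (-1 / (m : ℝ)) g) := by
        ext k; simp
      rw [this]
      exact MeasurableSet.iInter fun i => (sa_continuous_left (z i)).measurable
        (case_small_fib_meas hB e (-1 / (m : ℝ)) g)
    have hpt : ∀ k, Ψ (g * ex e k) = ind B (sa g e) *
        ({k : UG (Pe e) | ∀ i, sa k (z i) ∈ case_small_fib B e (-1 / (m : ℝ)) g}.indicator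
          (fun _ => (1 : ℝ)) k) := by
      intro k
      have hiff : (g * ex e k ∈ T) ↔ (sa g e ∈ B ∧ ∀ i, sa k (z i) ∈
          case_small_fib B e (-1 / (m : ℝ)) g) := by
        show (∀ i, sa (g * ex e k) (S i) ∈ B) ↔ _
        rw [Fin.forall_fin_succ]
        simp only [hSdef, Fin.cons_zero, Fin.cons_succ, case_small_ex_e, case_small_ex_sa]
        rfl
      by_cases h1 : sa g e ∈ B
      · by_cases h2 : ∀ i, sa k (z i) ∈ case_small_fib B e (-1 / (m : ℝ)) g
        · have h3 : g * ex e k ∈ T := hiff.2 ⟨h1, h2⟩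
          have h4 : k ∈ {k : UG (Pe e) | ∀ i, sa k (z i) ∈
            case_small_fib B e (-1 / (m : ℝ)) g} := h2
          simp only [Ψ, ind]
          rw [Set.indicator_of_mem h3, Set.indicator_of_mem h1, Set.indicator_of_mem h4, mul_one]
        · have h3 : g * ex e k ∉ T := fun h => h2 (hiff.1 h).2
          have h4 : k ∉ {k : UG (Pe e) | ∀ i, sa k (z i) ∈
            case_small_fib B e (-1 / (m : ℝ)) g} := h2
          simp only [Ψ, ind]
          rw [Set.indicator_of_notMem h3, Set.indicator_of_notMem h4, mul_zero]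
      · have h3 : g * ex e k ∉ T := fun h => h1 (hiff.1 h).1
        simp only [Ψ, ind]
        rw [Set.indicator_of_notMem h3, Set.indicator_of_notMem h1, zero_mul]
    simp only [hpt]
    rw [integral_const_mul, integral_indicator hKm]
    simp
  have hmass : ∀ g : UG F, (sm (Pe e)).real (case_small_fib B e (-1 / (m : ℝ)) g)
      = PP (-1 / (m : ℝ)) (ind B) (sa g e) := fun g => case_small_fib_mass hn2 hB e _ g
  -- the pointwise inequality
  have key : ∀ g : UG F, 1 / 4 - 1 / ((n : ℝ) - 2) - |PP (-1 / (m : ℝ)) (ind B) (sa g e) - 1 / 2|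
      + (1 / (12 * ((m : ℝ) + 1)) - 2 * κ) * (ind B (sa g e)
        - (∫ k, Ψ (g * ex e k) ∂(hm (Pe e))) / p1
        - |PP (-1 / (m : ℝ)) (ind B) (sa g e) - 1 / 2| / η1)
      ≤ ∫ k, Φ (g * ex e k) ∂(hm (Pe e)) := by
    intro g
    have hD := case_small_fib_meas hB e (-1 / (m : ℝ)) g
    have hlow := case_small_low hPe hn5 hs0 hs1 hD
    rw [← pΦ g, hmass g] at hlow
    have habs := neg_abs_le (PP (-1 / (m : ℝ)) (ind B) (sa g e) - 1 / 2)
    have hJ := (case_small_cond_bd e hΨm hΨ01 g).1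
    have habs0 := abs_nonneg (PP (-1 / (m : ℝ)) (ind B) (sa g e) - 1 / 2)
    have hJ0 : 0 ≤ (∫ k, Ψ (g * ex e k) ∂(hm (Pe e))) / p1 := div_nonneg hJ hp1.le
    have hA0 : 0 ≤ |PP (-1 / (m : ℝ)) (ind B) (sa g e) - 1 / 2| / η1 := div_nonneg habs0 hη1.le
    have hbase : (ind B (sa g e) - (∫ k, Ψ (g * ex e k) ∂(hm (Pe e))) / p1
        - |PP (-1 / (m : ℝ)) (ind B) (sa g e) - 1 / 2| / η1) ≤ 0 →
        1 / 4 - 1 / ((n : ℝ) - 2) - |PP (-1 / (m : ℝ)) (ind B) (sa g e) - 1 / 2|
      + (1 / (12 * ((m : ℝ) + 1)) - 2 * κ) * (ind B (sa g e)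
        - (∫ k, Ψ (g * ex e k) ∂(hm (Pe e))) / p1
        - |PP (-1 / (m : ℝ)) (ind B) (sa g e) - 1 / 2| / η1)
      ≤ ∫ k, Φ (g * ex e k) ∂(hm (Pe e)) := by
      intro h
      have := mul_nonpos_of_nonneg_of_nonpos hκ h
      linarith
    by_cases h1 : sa g e ∈ B
    · have hb : ind B (sa g e) = 1 := by simp only [ind]; rw [Set.indicator_of_mem h1]
      by_cases h2 : (hm (Pe e)).real {k | ∀ i, sa k (z i) ∈
          case_small_fib B e (-1 / (m : ℝ)) g} ≤ p1
      · by_cases h4 : 1 / 2 - η1 ≤ (sm (Pe e)).real (case_small_fib B e (-1 / (m : ℝ)) g)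
        · obtain ⟨v, hv⟩ := H e z hzS _ hD h2 h4
          have hhalf := case_small_half hPe hn5 hs0 hs1 hD v hv
          rw [← pΦ g] at hhalf
          rw [hb]
          have h5 : (1 / (12 * ((m : ℝ) + 1)) - 2 * κ) * (1
            - (∫ k, Ψ (g * ex e k) ∂(hm (Pe e))) / p1
            - |PP (-1 / (m : ℝ)) (ind B) (sa g e) - 1 / 2| / η1)
            ≤ (1 / (12 * ((m : ℝ) + 1)) - 2 * κ) * 1 := by
            apply mul_le_mul_of_nonneg_left _ hκ
            linarith
          have h6 : 1 / (12 * ((m : ℝ) + 1)) = 1 / ((m : ℝ) + 1) / 12 := by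
            rw [div_div, mul_comm]
          rw [h6] at h5 ⊢
          linarith
        · apply hbase
          rw [hb]
          have h5 : 1 ≤ |PP (-1 / (m : ℝ)) (ind B) (sa g e) - 1 / 2| / η1 := by
            rw [le_div_iff₀ hη1]
            rw [hmass g] at h4
            push Not at h4
            linarith
          linarith
      · apply hbase
        rw [hb]
        push Not at h2
        have h5 : 1 ≤ (∫ k, Ψ (g * ex e k) ∂(hm (Pe e))) / p1 := by
          rw [le_div_iff₀ hp1, pΨ g, hb]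
          linarith
        linarith
    · have hb : ind B (sa g e) = 0 := by simp only [ind]; rw [Set.indicator_of_notMem h1]
      apply hbase
      rw [hb]
      linarith
  -- integrate
  have bP := (PP_basic hn3 (-1 / (m : ℝ)) bB bB).1
  have mabs : Measurable (fun x : SS F => |PP (-1 / (m : ℝ)) (ind B) x - 1 / 2|) :=
    (bP.1.sub_const _).abs
  have iabs : Integrable (fun g : UG F => |PP (-1 / (m : ℝ)) (ind B) (sa g e) - 1 / 2|) (hm F) :=
    case_small_hbm_int (mabs.comp (sa_continuous_left e).measurable) (by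
      obtain ⟨C, hC⟩ := bP.2
      refine ⟨C + 1 / 2, fun g => ?_⟩
      rw [abs_abs]
      have h1 := abs_sub (PP (-1 / (m : ℝ)) (ind B) (sa g e)) (1 / 2 : ℝ)
      have h2 : |(1 / 2 : ℝ)| = 1 / 2 := abs_of_pos (by norm_num)
      linarith [hC (sa g e)])
  have ib : Integrable (fun g : UG F => ind B (sa g e)) (hm F) :=
    case_small_hbm_int (bB.1.comp (sa_continuous_left e).measurable) (by
      obtain ⟨C, hC⟩ := bB.2
      exact ⟨C, fun g => hC _⟩)
  have iJ : Integrable (fun g : UG F => ∫ k, Ψ (g * ex e k) ∂(hm (Pe e))) (hm F) :=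
    case_small_hbm_int (case_small_cond_meas e hΨm) ⟨1, fun g => by
      have := case_small_cond_bd e hΨm hΨ01 g
      rw [abs_le]; constructor <;> linarith⟩
  have iI : Integrable (fun g : UG F => ∫ k, Φ (g * ex e k) ∂(hm (Pe e))) (hm F) :=
    case_small_hbm_int (case_small_cond_meas e hΦm) ⟨1, fun g => by
      have := case_small_cond_bd e hΦm hΦ01 g
      rw [abs_le]; constructor <;> linarith⟩
  have ebr : Integrable (fun g : UG F => ind B (sa g e)
        - (∫ k, Ψ (g * ex e k) ∂(hm (Pe e))) / p1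
        - |PP (-1 / (m : ℝ)) (ind B) (sa g e) - 1 / 2| / η1) (hm F) :=
    (ib.sub (iJ.div_const p1)).sub (iabs.div_const η1)
  have e1 : Integrable (fun g : UG F => (1 / (12 * ((m : ℝ) + 1)) - 2 * κ) * (ind B (sa g e)
        - (∫ k, Ψ (g * ex e k) ∂(hm (Pe e))) / p1
        - |PP (-1 / (m : ℝ)) (ind B) (sa g e) - 1 / 2| / η1)) (hm F) := ebr.const_mul _
  have e2 : Integrable (fun g : UG F => 1 / 4 - 1 / ((n : ℝ) - 2)
      - |PP (-1 / (m : ℝ)) (ind B) (sa g e) - 1 / 2|) (hm F) :=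
    (integrable_const _).sub iabs
  have hmono := integral_mono (e2.add e1) iI key
  rw [← cΦ, iΦ] at hmono
  refine le_trans (le_of_eq ?_) hmono
  have i5 : Integrable (fun g : UG F => ind B (sa g e)
        - (∫ k, Ψ (g * ex e k) ∂(hm (Pe e))) / p1) (hm F) := ib.sub (iJ.div_const p1)
  have hc : ∫ (_g : UG F), (1 / 4 - 1 / ((n : ℝ) - 2)) ∂(hm F) = 1 / 4 - 1 / ((n : ℝ) - 2) := by
    simp
  have hA : ∫ g, |PP (-1 / (m : ℝ)) (ind B) (sa g e) - 1 / 2| ∂(hm F)
      = ∫ x, |PP (-1 / (m : ℝ)) (ind B) x - 1 / 2| ∂(sm F) := (sm_int hn1 e mabs).symm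
  have hB' : ∫ g, ind B (sa g e) ∂(hm F) = (sm F).real B := by
    rw [← sm_int hn1 e bB.1, case_small_int_ind hB]
  have hsum : ∫ g : UG F, ((1 / 4 - 1 / ((n : ℝ) - 2)
      - |PP (-1 / (m : ℝ)) (ind B) (sa g e) - 1 / 2|) +
      (1 / (12 * ((m : ℝ) + 1)) - 2 * κ) * (ind B (sa g e)
        - (∫ k, Ψ (g * ex e k) ∂(hm (Pe e))) / p1
        - |PP (-1 / (m : ℝ)) (ind B) (sa g e) - 1 / 2| / η1)) ∂(hm F) =
      1 / 4 - 1 / ((n : ℝ) - 2) - ∫ x, |PP (-1 / (m : ℝ)) (ind B) x - 1 / 2| ∂(sm F)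
      + (1 / (12 * ((m : ℝ) + 1)) - 2 * κ) * ((sm F).real B
        - (hm F).real {g | ∀ i, sa g (s i) ∈ B} / p1
        - (∫ x, |PP (-1 / (m : ℝ)) (ind B) x - 1 / 2| ∂(sm F)) / η1) := by
    rw [integral_add e2 e1, integral_sub (integrable_const _) iabs, integral_const_mul,
      integral_sub i5 (iabs.div_const η1), integral_sub ib (iJ.div_const p1),
      integral_div, integral_div, hc, hA, hB', ← cΨ, iΨ]
  rw [← hsum]
  rfl
end CaseSmallAux

theorem case_small_upper (hn : 3 ≤ Module.finrank ℝ E) {B : Set (SS E)} (hB : MeasurableSet B)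
    (r : ℝ) : ∫ x, ind B x * PP r (ind B) x ∂(sm E)
      ≤ 1 / 2 * (sm E).real B + ∫ x, |PP r (ind B) x - 1 / 2| ∂(sm E) := by
  have hn1 : 1 ≤ Module.finrank ℝ E := by omega
  have := sm_prob (E := E) hn1
  have bB := case_small_BM hB
  have bP := (PP_basic hn r bB bB).1
  have iabs : Integrable (fun x => |PP r (ind B) x - 1 / 2|) (sm E) :=
    ((case_small_bm_int hn1 bP).sub (integrable_const _)).abs
  have h1 := integral_mono (case_small_bm_int hn1 (case_small_bm_mul bB bP))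
    (((case_small_bm_int hn1 bB).const_mul (1 / 2)).add iabs) (fun x => by
      have h2 := case_small_ind01 B x
      have h3 := le_abs_self (PP r (ind B) x - 1 / 2)
      have h4 := abs_nonneg (PP r (ind B) x - 1 / 2)
      show ind B x * PP r (ind B) x ≤ 1 / 2 * ind B x + |PP r (ind B) x - 1 / 2|
      nlinarith [mul_le_mul_of_nonneg_left h3 h2.1, mul_le_mul_of_nonneg_right h2.2 h4])
  refine h1.trans (le_of_eq ?_)
  have h5 := integral_add ((case_small_bm_int hn1 bB).const_mul (1 / 2)) iabs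
  rw [integral_const_mul, case_small_int_ind hB] at h5
  exact h5

theorem case_small (t : ℕ) (ht : 4 ≤ t) (hG : G0st (t - 1)) :
    ∃ ε0 : ℝ, 0 < ε0 ∧ ∃ p0 : ℝ, 0 < p0 ∧ ∃ η : ℝ, 0 < η ∧ ∃ n0 : ℕ, ∀ (E : Type)
    [NormedAddCommGroup E]
    [InnerProductSpace ℝ E] [CompleteSpace E] [FiniteDimensional ℝ E] [MeasurableSpace E]
    [BorelSpace E], n0 ≤ Module.finrank ℝ E → ∀ s : Fin t → SS E, IsSimp s →
    ∀ B : Set (SS E), MeasurableSet B → (hm E).real {g | ∀ i, sa g (s i) ∈ B} ≤ p0 →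
    1 / 2 - η ≤ (sm E).real B →
    (∫ x, |PP (1 / (t - 1 : ℝ)) (ind B) x - 1 / 2| ∂(sm E) ≤ ε0) →
    (∫ x, |PP (-1 / (t - 1 : ℝ)) (ind B) x - 1 / 2| ∂(sm E) ≤ ε0) → False := by
  obtain ⟨m, rfl⟩ : ∃ m, t = m + 1 := ⟨t - 1, by omega⟩
  have hG' : G0st m := hG
  have h3 : 3 ≤ m := by omega
  have hm0 : (3 : ℝ) ≤ m := by exact_mod_cast h3
  obtain ⟨δ, hδdef⟩ : ∃ δ : ℝ, δ = 1 / (24 * ((m : ℝ) + 1)) := ⟨_, rfl⟩
  have hδ : 0 < δ := by rw [hδdef]; positivity
  have hδ2 : 1 / (12 * ((m : ℝ) + 1)) - 2 * (δ / 2) = δ := by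
    rw [hδdef]; field_simp; ring
  obtain ⟨p1, hp1, η1, hη1, n1, H1⟩ := hG' (δ / 2) (by positivity)
  obtain ⟨p2, hp2, n2, H2⟩ := mu_up (m + 1) (by omega) (η := δ / 8) (by positivity)
  refine ⟨min (η1 / 16) (δ / 32), lt_min (by positivity) (by positivity), min p2 (p1 / 16),
    lt_min hp2 (by positivity), 1 / 8, by norm_num,
    n1 + n2 + m + ⌈16 / δ⌉₊ + 8, ?_⟩
  intro E _ _ _ _ _ _ hnE s hs B hB hP hBl hAR hA
  have hcast : ((m + 1 : ℕ) : ℝ) - 1 = m := by push_cast; ring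
  rw [hcast] at hAR hA
  obtain ⟨n, hn⟩ : ∃ n, Module.finrank ℝ E = n + 1 := ⟨Module.finrank ℝ E - 1, by omega⟩
  have hn5 : 5 ≤ n := by omega
  have hmn : m ≤ n := by omega
  have hup := case_small_upper (by omega) hB (1 / (m : ℝ))
  have hBu := H2 E (by omega) s hs B hB (hP.trans (min_le_left _ _))
  have hlo := case_small_core h3 hn hn5 hmn hp1 hη1 (κ := δ / 2) (by rw [hδ2]; exact hδ.le)
    (fun e z hz D hD hq hmD => by
      have hPe : Module.finrank ℝ (Pe e) = n := finrank_Pe hn e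
      exact H1 (Pe e) (by omega) z hz D hD hq hmD) s hs hB
  rw [hδ2] at hlo
  have hn2 : 1 / ((n : ℝ) - 2) ≤ δ / 16 := by
    have h1 : (16 / δ) ≤ (⌈16 / δ⌉₊ : ℝ) := Nat.le_ceil _
    have h2 : ((⌈16 / δ⌉₊ + 2 : ℕ) : ℝ) ≤ n := by
      have : ⌈16 / δ⌉₊ + 2 ≤ n := by omega
      exact_mod_cast this
    push_cast at h2
    have h4 : 16 / δ ≤ (n : ℝ) - 2 := by linarith
    have h5 : (0 : ℝ) < 16 / δ := by positivity
    calc 1 / ((n : ℝ) - 2) ≤ 1 / (16 / δ) := by gcongr
      _ = δ / 16 := by field_simp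
  have hA1 : (∫ x, |PP (-1 / (m : ℝ)) (ind B) x - 1 / 2| ∂(sm E)) ≤ δ / 32 :=
    hA.trans (min_le_right _ _)
  have hA2 : (∫ x, |PP (-1 / (m : ℝ)) (ind B) x - 1 / 2| ∂(sm E)) / η1 ≤ 1 / 16 := by
    rw [div_le_iff₀ hη1]
    have := hA.trans (min_le_left _ _)
    linarith
  have hP1 : (hm E).real {g | ∀ i, sa g (s i) ∈ B} / p1 ≤ 1 / 16 := by
    rw [div_le_iff₀ hp1]
    have := hP.trans (min_le_right _ _)
    linarith
  have hAR1 : (∫ x, |PP (1 / (m : ℝ)) (ind B) x - 1 / 2| ∂(sm E)) ≤ δ / 32 :=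
    hAR.trans (min_le_right _ _)
  have h6 : δ * (1 / 4) ≤ δ * ((sm E).real B - (hm E).real {g | ∀ i, sa g (s i) ∈ B} / p1
      - (∫ x, |PP (-1 / (m : ℝ)) (ind B) x - 1 / 2| ∂(sm E)) / η1) := by
    apply mul_le_mul_of_nonneg_left _ hδ.le
    linarith
  linarith


end CoreW

end Pool.Agent.helper440_simplex
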