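import Pool.Agent.helper440_simplex.G0a

set_option autoImplicit false
set_option linter.unusedSectionVars false

namespace Pool.Agent.helper440_simplex

open MeasureTheory Metric Set Filter Topology
open scoped RealInnerProductSpace

section CoreW
variable {E : Type*} [NormedAddCommGroup E] [InnerProductSpace ℝ E] [CompleteSpace E]
  [FiniteDimensional ℝ E] [MeasurableSpace E] [BorelSpace E]

section Rig
variable {E : Type*} [NormedAddCommGroup E] [InnerProductSpace ℝ E] [CompleteSpace E]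
  [FiniteDimensional ℝ E] [MeasurableSpace E] [BorelSpace E]

/-- antipode -/
noncomputable def an (x : SS E) : SS E := ⟨-(x : E), by
  rw [mem_sphere_zero_iff_norm, norm_neg]; exact norm_eq_of_mem_sphere x⟩

-- rig1
theorem rig1_tri {χ : SS E → ℝ} (s s' : Fin 3 → SS E) (hs : IsSimp s) (hs' : IsSimp s') {δ : ℝ}
    (hδ : (hm E).real {g | χ (sa g (s 0)) * χ (sa g (s 1)) * χ (sa g (s 2)) ≠ 1} ≤ δ) :
    (hm E).real {g | χ (sa g (s' 0)) * χ (sa g (s' 1)) * χ (sa g (s' 2)) ≠ 1} ≤ δ := by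
  obtain ⟨h, hh⟩ := simp_trans (t := 3) (by norm_num) s s' hs hs'
  have e : {g : UG E | χ (sa g (s' 0)) * χ (sa g (s' 1)) * χ (sa g (s' 2)) ≠ 1} =
      (fun g => g * h) ⁻¹' {g | χ (sa g (s 0)) * χ (sa g (s 1)) * χ (sa g (s 2)) ≠ 1} := by
    ext g
    simp only [Set.mem_ofPred_eq, Set.mem_preimage, sa_mul, hh]
  rw [e]
  refine le_trans (le_of_eq ?_) hδ
  unfold Measure.real
  rw [measure_preimage_mul_right]

theorem rig1_simp {a b c : SS E} (h1 : ⟪(a : E), (b : E)⟫ = -1 / 2) (h2 : ⟪(a : E), (c : E)⟫ = -1 / 2)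
    (h3 : ⟪(b : E), (c : E)⟫ = -1 / 2) : IsSimp ![a, b, c] := by
  have e : (-1 : ℝ) / (((3 : ℕ) : ℝ) - 1) = -1 / 2 := by norm_num
  intro i l hil
  rw [e]
  fin_cases i <;> fin_cases l
  · exact absurd rfl hil
  · exact h1
  · exact h2
  · exact (real_inner_comm _ _).trans h1
  · exact absurd rfl hil
  · exact h3
  · exact (real_inner_comm _ _).trans h2
  · exact (real_inner_comm _ _).trans h3
  · exact absurd rfl hil

theorem rig1_an (g : UG E) (x : SS E) : sa g (an x) = an (sa g x) := by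
  apply Subtype.ext
  show av g (-(x : E)) = - av g x
  have := av_smul g (-1 : ℝ) (x : E)
  simpa using this

theorem rig1 (hn : 5 ≤ Module.finrank ℝ E) {χ : SS E → ℝ} (hχ : Measurable χ)
    (hχ1 : ∀ x, χ x = 1 ∨ χ x = -1) (s : Fin 3 → SS E) (hs : IsSimp s) {δ : ℝ}
    (hδ : (hm E).real {g | χ (sa g (s 0)) * χ (sa g (s 1)) * χ (sa g (s 2)) ≠ 1} ≤ δ)
    (e p q u v u' v' : SS E) (hep : ⟪(e : E), (p : E)⟫ = 0) (heq : ⟪(e : E), (q : E)⟫ = 0)
    (hpq : ⟪(p : E), (q : E)⟫ = 0) (hu : (u : E) = (Real.sqrt 2)⁻¹ • ((p : E) + e))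
    (hv : (v : E) = (Real.sqrt 2)⁻¹ • ((p : E) - e))
    (hu' : (u' : E) = (Real.sqrt 2)⁻¹ • ((q : E) + e))
    (hv' : (v' : E) = (Real.sqrt 2)⁻¹ • ((q : E) - e)) :
    (hm E).real {g | χ (sa g u') * χ (sa g v') ≠ χ (an (sa g u)) * χ (an (sa g v))} ≤ 2 * δ := by
  have hss : Real.sqrt 2 * Real.sqrt 2 = 2 := Real.mul_self_sqrt (by norm_num)
  have hs2 : (Real.sqrt 2)⁻¹ * (Real.sqrt 2)⁻¹ = 1 / 2 := by
    rw [← mul_inv, hss]; norm_num
  have hne : ∀ x : SS E, ⟪(x : E), (x : E)⟫ = 1 := fun x => by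
    rw [real_inner_self_eq_norm_sq, norm_eq_of_mem_sphere]; norm_num
  have hpe : ⟪(p : E), (e : E)⟫ = 0 := (real_inner_comm _ _).trans hep
  have hqe : ⟪(q : E), (e : E)⟫ = 0 := (real_inner_comm _ _).trans heq
  have hqp : ⟪(q : E), (p : E)⟫ = 0 := (real_inner_comm _ _).trans hpq
  have hd : ‖(Real.sqrt 2)⁻¹ • ((p : E) - q)‖ = 1 := by
    have h : ‖(Real.sqrt 2)⁻¹ • ((p : E) - q)‖ ^ 2 = 1 := by
      rw [← real_inner_self_eq_norm_sq]
      simp only [inner_smul_left, inner_smul_right, inner_sub_left, inner_sub_right, hne, hpq, hqp]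
      simp only [RCLike.conj_to_real]
      linear_combination 2 * hs2
    nlinarith [norm_nonneg ((Real.sqrt 2)⁻¹ • ((p : E) - q))]
  let d : SS E := ⟨(Real.sqrt 2)⁻¹ • ((p : E) - q), by rw [mem_sphere_zero_iff_norm]; exact hd⟩
  have hdc : (d : E) = (Real.sqrt 2)⁻¹ • ((p : E) - q) := rfl
  have hau : ((an u : SS E) : E) = -(u : E) := rfl
  have hav : ((an v : SS E) : E) = -(v : E) := rfl
  have T1 : IsSimp ![u', d, an u] := by
    apply rig1_simp <;> simp only [hau, hu, hu', hdc, inner_neg_left, inner_neg_right, inner_smul_left,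
      inner_smul_right, inner_sub_left, inner_sub_right, inner_add_left, inner_add_right, hne, hpq, hqp, hpe, hqe,
      hep, heq, RCLike.conj_to_real] <;> linear_combination (-1) * hs2
  have T2 : IsSimp ![v', d, an v] := by
    apply rig1_simp <;> simp only [hav, hv, hv', hdc, inner_neg_left, inner_neg_right, inner_smul_left,
      inner_smul_right, inner_sub_left, inner_sub_right, inner_add_left, inner_add_right, hne, hpq, hqp, hpe, hqe,
      hep, heq, RCLike.conj_to_real] <;> linear_combination (-1) * hs2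
  have M1 := rig1_tri s _ hs T1 hδ
  have M2 := rig1_tri s _ hs T2 hδ
  simp only [Matrix.cons_val_zero, Matrix.cons_val_one, Matrix.cons_val, rig1_an] at M1 M2
  have hsub : {g : UG E | χ (sa g u') * χ (sa g v') ≠ χ (an (sa g u)) * χ (an (sa g v))} ⊆
      {g | χ (sa g u') * χ (sa g d) * χ (an (sa g u)) ≠ 1} ∪
      {g | χ (sa g v') * χ (sa g d) * χ (an (sa g v)) ≠ 1} := by
    intro g hg
    by_contra hcon
    simp only [Set.mem_union, Set.mem_ofPred_eq, not_or, not_not] at hcon hg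
    obtain ⟨c1, c2⟩ := hcon
    apply hg
    rcases hχ1 (sa g u') with h1 | h1 <;> rcases hχ1 (sa g v') with h2 | h2 <;>
      rcases hχ1 (sa g d) with h3 | h3 <;> rcases hχ1 (an (sa g u)) with h4 | h4 <;>
      rcases hχ1 (an (sa g v)) with h5 | h5 <;> rw [h1, h3, h4] at c1 <;> rw [h2, h3, h5] at c2 <;>
      first | (norm_num at c1; done) | (norm_num at c2; done) | (rw [h1, h2, h4, h5]; done) | (rw [h1, h2, h4, h5]; norm_num)
  calc (hm E).real {g : UG E | χ (sa g u') * χ (sa g v') ≠ χ (an (sa g u)) * χ (an (sa g v))}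
      ≤ (hm E).real ({g | χ (sa g u') * χ (sa g d) * χ (an (sa g u)) ≠ 1} ∪
      {g | χ (sa g v') * χ (sa g d) * χ (an (sa g v)) ≠ 1}) := measureReal_mono hsub
    _ ≤ _ := measureReal_union_le _ _
    _ ≤ δ + δ := add_le_add M1 M2
    _ = 2 * δ := by ring

-- rig2

theorem rig2_sq (r e : SS E) (h : ⟪(e : E), (r : E)⟫ = 0) (c : ℝ) (hc : c ^ 2 = 1) :
    ‖(Real.sqrt 2)⁻¹ • ((r : E) + c • (e : E))‖ = 1 := by
  have hr : ‖(r : E)‖ = 1 := norm_eq_of_mem_sphere r
  have he : ‖(e : E)‖ = 1 := norm_eq_of_mem_sphere e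
  have h2 : (0 : ℝ) ≤ 2 := by norm_num
  have hs : Real.sqrt 2 ^ 2 = 2 := Real.sq_sqrt h2
  have h' : ⟪(r : E), (e : E)⟫ = 0 := by rw [real_inner_comm]; exact h
  have key : ‖(Real.sqrt 2)⁻¹ • ((r : E) + c • (e : E))‖ ^ 2 = 1 := by
    rw [norm_smul, mul_pow, norm_add_sq_real, norm_smul, real_inner_smul_right, h', hr, he]
    simp only [Real.norm_eq_abs, mul_one, sq_abs, inv_pow, mul_zero, add_zero, one_pow]
    rw [hs, hc]; norm_num
  have h0 : 0 ≤ ‖(Real.sqrt 2)⁻¹ • ((r : E) + c • (e : E))‖ := norm_nonneg _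
  nlinarith

theorem rig2_perp (hn : 5 ≤ Module.finrank ℝ E) (e p q : SS E) :
    ∃ r : SS E, ⟪(e : E), (r : E)⟫ = 0 ∧ ⟪(p : E), (r : E)⟫ = 0 ∧ ⟪(q : E), (r : E)⟫ = 0 := by
  classical
  set K : Submodule ℝ E := Submodule.span ℝ (({(e : E), (p : E), (q : E)} : Finset E) : Set E)
    with hK
  have h3 : Module.finrank ℝ K ≤ 3 := by
    refine (finrank_span_finset_le_card _).trans ?_
    exact Finset.card_le_three
  have hadd := K.finrank_add_finrank_orthogonal
  have hpos : 0 < Module.finrank ℝ Kᗮ := by omega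
  have : Nontrivial Kᗮ := Module.finrank_pos_iff.mp hpos
  obtain ⟨w, hw⟩ := exists_ne (0 : Kᗮ)
  have hw0 : (w : E) ≠ 0 := fun h => hw (Subtype.ext h)
  have hwn : ‖(w : E)‖ ≠ 0 := norm_ne_zero_iff.mpr hw0
  refine ⟨⟨(‖(w : E)‖)⁻¹ • (w : E), ?_⟩, ?_, ?_, ?_⟩
  · rw [mem_sphere_zero_iff_norm, norm_smul, norm_inv, norm_norm, inv_mul_cancel₀ hwn]
  · show ⟪(e : E), (‖(w : E)‖)⁻¹ • (w : E)⟫ = 0
    rw [real_inner_smul_right, w.2 (e : E) (Submodule.subset_span (by simp)), mul_zero]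
  · show ⟪(p : E), (‖(w : E)‖)⁻¹ • (w : E)⟫ = 0
    rw [real_inner_smul_right, w.2 (p : E) (Submodule.subset_span (by simp)), mul_zero]
  · show ⟪(q : E), (‖(w : E)‖)⁻¹ • (w : E)⟫ = 0
    rw [real_inner_smul_right, w.2 (q : E) (Submodule.subset_span (by simp)), mul_zero]

theorem rig2_tri (μ : Measure (UG E)) [IsFiniteMeasure μ] (a b c : UG E → ℝ) {x y : ℝ}
    (hab : μ.real {g | a g ≠ b g} ≤ x) (hbc : μ.real {g | b g ≠ c g} ≤ y) :
    μ.real {g | a g ≠ c g} ≤ x + y := by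
  have hsub : {g | a g ≠ c g} ⊆ {g | a g ≠ b g} ∪ {g | b g ≠ c g} := by
    intro g hg
    by_contra hcon
    simp only [Set.mem_union, Set.mem_ofPred_eq, not_or, not_not] at hcon
    exact hg (hcon.1.trans hcon.2)
  calc μ.real {g | a g ≠ c g} ≤ μ.real ({g | a g ≠ b g} ∪ {g | b g ≠ c g}) :=
        measureReal_mono hsub
    _ ≤ μ.real {g | a g ≠ b g} + μ.real {g | b g ≠ c g} := measureReal_union_le _ _
    _ ≤ x + y := add_le_add hab hbc

theorem rig2 (hn : 5 ≤ Module.finrank ℝ E) {χ : SS E → ℝ} (hχ : Measurable χ)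
    (hχ1 : ∀ x, χ x = 1 ∨ χ x = -1) (s : Fin 3 → SS E) (hs : IsSimp s) {δ : ℝ}
    (hδ : (hm E).real {g | χ (sa g (s 0)) * χ (sa g (s 1)) * χ (sa g (s 2)) ≠ 1} ≤ δ)
    (e p q u v u' v' : SS E) (hep : ⟪(e : E), (p : E)⟫ = 0) (heq : ⟪(e : E), (q : E)⟫ = 0)
    (hpq : ⟪(p : E), (q : E)⟫ = 0) (hu : (u : E) = (Real.sqrt 2)⁻¹ • ((p : E) + e))
    (hv : (v : E) = (Real.sqrt 2)⁻¹ • ((p : E) - e))
    (hu' : (u' : E) = (Real.sqrt 2)⁻¹ • ((q : E) + e))
    (hv' : (v' : E) = (Real.sqrt 2)⁻¹ • ((q : E) - e)) :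
    (hm E).real {g | χ (sa g u) * χ (sa g v) ≠ χ (sa g u') * χ (sa g v')} ≤ 4 * δ ∧
    (hm E).real {g | χ (sa g u) * χ (sa g v) ≠ χ (an (sa g u)) * χ (an (sa g v))} ≤ 6 * δ := by
  obtain ⟨r, her, hpr, hqr⟩ := rig2_perp hn e p q
  set wp : SS E := ⟨(Real.sqrt 2)⁻¹ • ((r : E) + (1 : ℝ) • (e : E)), by
    rw [mem_sphere_zero_iff_norm]; exact rig2_sq r e her 1 (by norm_num)⟩ with hwp
  set wm : SS E := ⟨(Real.sqrt 2)⁻¹ • ((r : E) + (-1 : ℝ) • (e : E)), by
    rw [mem_sphere_zero_iff_norm]; exact rig2_sq r e her (-1) (by norm_num)⟩ with hwm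
  have hwp' : (wp : E) = (Real.sqrt 2)⁻¹ • ((r : E) + e) := by
    show (Real.sqrt 2)⁻¹ • ((r : E) + (1 : ℝ) • (e : E)) = _
    rw [one_smul]
  have hwm' : (wm : E) = (Real.sqrt 2)⁻¹ • ((r : E) - e) := by
    show (Real.sqrt 2)⁻¹ • ((r : E) + (-1 : ℝ) • (e : E)) = _
    rw [neg_one_smul, sub_eq_add_neg]
  have hrq : ⟪(r : E), (q : E)⟫ = 0 := by rw [real_inner_comm]; exact hqr
  have hrp : ⟪(r : E), (p : E)⟫ = 0 := by rw [real_inner_comm]; exact hpr
  have h1 := rig1 hn hχ hχ1 s hs hδ e r q wp wm u' v' her heq hrq hwp' hwm' hu' hv'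
  have h2 := rig1 hn hχ hχ1 s hs hδ e r p wp wm u v her hep hrp hwp' hwm' hu hv
  have h3 := rig1 hn hχ hχ1 s hs hδ e p q u v u' v' hep heq hpq hu hv hu' hv'
  have h1' : (hm E).real {g | χ (an (sa g wp)) * χ (an (sa g wm)) ≠ χ (sa g u') * χ (sa g v')}
      ≤ 2 * δ := by
    have : {g : UG E | χ (an (sa g wp)) * χ (an (sa g wm)) ≠ χ (sa g u') * χ (sa g v')}
        = {g : UG E | χ (sa g u') * χ (sa g v') ≠ χ (an (sa g wp)) * χ (an (sa g wm))} := by
      ext g; exact ne_comm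
    rw [this]; exact h1
  have h4 : (hm E).real {g | χ (sa g u) * χ (sa g v) ≠ χ (sa g u') * χ (sa g v')} ≤ 4 * δ := by
    have := rig2_tri (hm E) _ _ _ h2 h1'
    linarith
  refine ⟨h4, ?_⟩
  have := rig2_tri (hm E) _ _ _ h4 h3
  linarith

-- rig_even

theorem rig_even_an_cont : Continuous (an : SS E → SS E) := by
  refine Continuous.subtype_mk ?_ _
  exact continuous_subtype_val.neg

theorem rig_even {n : ℕ} (hf : Module.finrank ℝ E = n) (hn : 5 ≤ n) {χ : SS E → ℝ}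
    (hχ : Measurable χ)
    (hχ1 : ∀ x, χ x = 1 ∨ χ x = -1) (s : Fin 3 → SS E) (hs : IsSimp s) {δ : ℝ}
    (hδ : (hm E).real {g | χ (sa g (s 0)) * χ (sa g (s 1)) * χ (sa g (s 2)) ≠ 1} ≤ δ) :
    1 - 12 * δ - 2 / n ≤ (∫ x, χ x * χ (an x) ∂(sm E)) ^ 2 := by
  have hn1 : 1 ≤ Module.finrank ℝ E := by omega
  have hn2 : 2 ≤ Module.finrank ℝ E := by omega
  have hn3 : 3 ≤ Module.finrank ℝ E := by omega
  have hn5 : 5 ≤ Module.finrank ℝ E := by omega
  have hprob : IsProbabilityMeasure (sm E) := sm_prob hn1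
  -- the even function
  set ε : SS E → ℝ := fun x => χ x * χ (an x) with hε
  have hεm : Measurable ε := hχ.mul (hχ.comp rig_even_an_cont.measurable)
  have hε1 : ∀ x, ε x = 1 ∨ ε x = -1 := by
    intro x
    rcases hχ1 x with h | h <;> rcases hχ1 (an x) with h' | h' <;> simp [hε, h, h']
  have hεabs : ∀ x, |ε x| ≤ 1 := by
    intro x
    rcases hε1 x with h | h <;> simp [h]
  have hBM : BM ε := ⟨hεm, 1, hεabs⟩
  -- the frame
  let b := stdOrthonormalBasis ℝ E
  have hb := b.orthonormal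
  let i0 : Fin (Module.finrank ℝ E) := ⟨0, by omega⟩
  let i1 : Fin (Module.finrank ℝ E) := ⟨1, by omega⟩
  let i2 : Fin (Module.finrank ℝ E) := ⟨2, by omega⟩
  have h01 : i0 ≠ i1 := by simp [i0, i1]
  have h02 : i0 ≠ i2 := by simp [i0, i2]
  have h12 : i1 ≠ i2 := by simp [i1, i2]
  have e0 : ‖b i0‖ = 1 := hb.1 i0
  have e1 : ‖b i1‖ = 1 := hb.1 i1
  have e2 : ‖b i2‖ = 1 := hb.1 i2
  have n01 : ⟪b i0, b i1⟫ = 0 := hb.2 h01
  have n02 : ⟪b i0, b i2⟫ = 0 := hb.2 h02
  have n12 : ⟪b i1, b i2⟫ = 0 := hb.2 h12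
  have hs2 : (Real.sqrt 2)⁻¹ ^ 2 = 1 / 2 := by
    rw [inv_pow, Real.sq_sqrt (by norm_num)]; norm_num
  have hnn : 0 ≤ (Real.sqrt 2)⁻¹ := by positivity
  have nplus : ∀ x y : E, ‖x‖ = 1 → ‖y‖ = 1 → ⟪x, y⟫ = 0 →
      ‖(Real.sqrt 2)⁻¹ • (x + y)‖ = 1 := by
    intro x y hx hy hxy
    have h : ‖(Real.sqrt 2)⁻¹ • (x + y)‖ ^ 2 = 1 := by
      rw [norm_smul, mul_pow, Real.norm_of_nonneg hnn, hs2, norm_add_sq_real, hx, hy, hxy]
      norm_num
    have h0 := norm_nonneg ((Real.sqrt 2)⁻¹ • (x + y))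
    nlinarith
  have nminus : ∀ x y : E, ‖x‖ = 1 → ‖y‖ = 1 → ⟪x, y⟫ = 0 →
      ‖(Real.sqrt 2)⁻¹ • (x - y)‖ = 1 := by
    intro x y hx hy hxy
    have h : ‖(Real.sqrt 2)⁻¹ • (x - y)‖ ^ 2 = 1 := by
      rw [norm_smul, mul_pow, Real.norm_of_nonneg hnn, hs2, norm_sub_sq_real, hx, hy, hxy]
      norm_num
    have h0 := norm_nonneg ((Real.sqrt 2)⁻¹ • (x - y))
    nlinarith
  have n10 : ⟪b i1, b i0⟫ = 0 := by rw [real_inner_comm]; exact n01
  have n20 : ⟪b i2, b i0⟫ = 0 := by rw [real_inner_comm]; exact n02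
  let e : SS E := ⟨b i0, by rw [mem_sphere_zero_iff_norm]; exact e0⟩
  let p : SS E := ⟨b i1, by rw [mem_sphere_zero_iff_norm]; exact e1⟩
  let q : SS E := ⟨b i2, by rw [mem_sphere_zero_iff_norm]; exact e2⟩
  let u : SS E := ⟨(Real.sqrt 2)⁻¹ • (b i1 + b i0), by
    rw [mem_sphere_zero_iff_norm]; exact nplus _ _ e1 e0 n10⟩
  let v : SS E := ⟨(Real.sqrt 2)⁻¹ • (b i1 - b i0), by
    rw [mem_sphere_zero_iff_norm]; exact nminus _ _ e1 e0 n10⟩
  let u' : SS E := ⟨(Real.sqrt 2)⁻¹ • (b i2 + b i0), by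
    rw [mem_sphere_zero_iff_norm]; exact nplus _ _ e2 e0 n20⟩
  let v' : SS E := ⟨(Real.sqrt 2)⁻¹ • (b i2 - b i0), by
    rw [mem_sphere_zero_iff_norm]; exact nminus _ _ e2 e0 n20⟩
  have huv : ⟪(u : E), (v : E)⟫ = 0 := by
    show ⟪(Real.sqrt 2)⁻¹ • (b i1 + b i0), (Real.sqrt 2)⁻¹ • (b i1 - b i0)⟫ = 0
    rw [real_inner_smul_left, real_inner_smul_right, inner_add_left, inner_sub_right,
      inner_sub_right, real_inner_self_eq_norm_sq, real_inner_self_eq_norm_sq, e1, e0, n01, n10]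
    ring
  have hrig := (rig2 hn5 hχ hχ1 s hs hδ e p q u v u' v' n01 n02 n12 rfl rfl rfl rfl).2
  -- the integral over the group
  have hmu : ∀ x : SS E, Measurable (fun g : UG E => sa g x) :=
    fun x => (sa_continuous_left x).measurable
  have hmε : ∀ x : SS E, Measurable (fun g : UG E => ε (sa g x)) := fun x => hεm.comp (hmu x)
  set S : Set (UG E) := {g | χ (sa g u) * χ (sa g v) ≠ χ (an (sa g u)) * χ (an (sa g v))} with hS
  have hSm : MeasurableSet S := by
    have h1 : Measurable (fun g : UG E => χ (sa g u) * χ (sa g v)) :=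
      (hχ.comp (hmu u)).mul (hχ.comp (hmu v))
    have h2 : Measurable (fun g : UG E => χ (an (sa g u)) * χ (an (sa g v))) :=
      (hχ.comp (rig_even_an_cont.measurable.comp (hmu u))).mul
        (hχ.comp (rig_even_an_cont.measurable.comp (hmu v)))
    exact (measurableSet_eq_fun h1 h2).compl
  have hint : Integrable (fun g : UG E => ε (sa g u) * ε (sa g v)) (hm E) := by
    refine Integrable.mono' (integrable_const (1 : ℝ)) ((hmε u).mul (hmε v)).aestronglyMeasurable ?_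
    refine Filter.Eventually.of_forall fun g => ?_
    rw [Real.norm_eq_abs, abs_mul]
    have h1 := hεabs (sa g u)
    have h2 := hεabs (sa g v)
    nlinarith [abs_nonneg (ε (sa g u)), abs_nonneg (ε (sa g v))]
  have hind : Integrable (S.indicator (fun _ => (1 : ℝ))) (hm E) :=
    (integrable_const (1 : ℝ)).indicator hSm
  have hlow : 1 - 12 * δ ≤ ∫ g, ε (sa g u) * ε (sa g v) ∂(hm E) := by
    have h1 : ∫ g, (1 - 2 * S.indicator (fun _ => (1 : ℝ)) g) ∂(hm E)
        ≤ ∫ g, ε (sa g u) * ε (sa g v) ∂(hm E) := by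
      refine integral_mono ((integrable_const (1 : ℝ)).sub (hind.const_mul 2)) hint ?_
      intro g
      show 1 - 2 * S.indicator (fun _ => (1 : ℝ)) g ≤ ε (sa g u) * ε (sa g v)
      by_cases hg : g ∈ S
      · rw [Set.indicator_of_mem hg]
        have h3 : |ε (sa g u) * ε (sa g v)| ≤ 1 := by
          rw [abs_mul]
          have h1 := hεabs (sa g u)
          have h2 := hεabs (sa g v)
          nlinarith [abs_nonneg (ε (sa g u)), abs_nonneg (ε (sa g v))]
        have := (abs_le.1 h3).1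
        linarith
      · rw [Set.indicator_of_notMem hg]
        have h3 : χ (sa g u) * χ (sa g v) = χ (an (sa g u)) * χ (an (sa g v)) := by
          by_contra h
          exact hg h
        have h4 : ε (sa g u) * ε (sa g v) = (χ (sa g u) * χ (sa g v)) ^ 2 := by
          calc ε (sa g u) * ε (sa g v)
              = (χ (sa g u) * χ (sa g v)) * (χ (an (sa g u)) * χ (an (sa g v))) := by
                simp only [hε]; ring
            _ = (χ (sa g u) * χ (sa g v)) ^ 2 := by rw [← h3]; ring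
        have h5 : (χ (sa g u) * χ (sa g v)) ^ 2 = 1 := by
          rcases hχ1 (sa g u) with h | h <;> rcases hχ1 (sa g v) with h' | h' <;> simp [h, h']
        rw [h4, h5]
        norm_num
    have h2 : ∫ g, (1 - 2 * S.indicator (fun _ => (1 : ℝ)) g) ∂(hm E) = 1 - 2 * (hm E).real S := by
      rw [integral_sub (integrable_const (1 : ℝ)) (hind.const_mul 2), integral_const_mul,
        integral_indicator_const _ hSm]
      simp
    rw [h2] at h1
    have h3 : (hm E).real S ≤ 6 * δ := hrig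
    linarith
  have hpair := PP_pair hn2 hBM hBM (fun r => (PP_basic hn3 r hBM hBM).1.1) u v
  rw [huv] at hpair
  have hmix := mixing hf hn hBM hBM
  have hsq : ∫ x, (ε x) ^ 2 ∂(sm E) = 1 := by
    have h1 : ∀ x, (ε x) ^ 2 = 1 := by
      intro x
      rcases hε1 x with h | h <;> simp [h]
    simp [h1]
  rw [hsq, hpair, Real.sqrt_one, mul_one, mul_one] at hmix
  have h6 := (abs_le.1 hmix).2
  have h7 : (∫ x, χ x * χ (an x) ∂(sm E)) ^ 2 = (∫ x, ε x ∂(sm E)) * ∫ x, ε x ∂(sm E) := by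
    rw [sq]
  rw [h7]
  linarith

-- rig_odd
theorem rig_odd_int {X : Type*} [MeasurableSpace X] {μ : Measure X} [IsProbabilityMeasure μ]
    {f : X → ℝ} (hf : Measurable f) (C : ℝ) (hb : ∀ x, |f x| ≤ C) : Integrable f μ :=
  Integrable.of_bound hf.aestronglyMeasurable C (ae_of_all _ hb)

theorem rig_odd_cs {X : Type*} [MeasurableSpace X] {μ : Measure X} [IsProbabilityMeasure μ]
    {f : X → ℝ} (hf : Measurable f) (C : ℝ) (hb : ∀ x, |f x| ≤ C) {τ : ℝ}
    (h : ∫ x, (f x) ^ 2 ∂μ ≤ τ) : ∫ x, |f x| ∂μ ≤ Real.sqrt τ := by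
  set c := ∫ x, |f x| ∂μ with hc
  have h1 : Integrable (fun x => |f x|) μ := (rig_odd_int hf C hb).abs
  have h2 : Integrable (fun x => (f x) ^ 2) μ := by
    refine rig_odd_int (hf.pow_const 2) (C ^ 2) fun x => ?_
    rw [abs_pow]
    exact pow_le_pow_left₀ (abs_nonneg _) (hb x) 2
  have h3 : 0 ≤ ∫ x, (|f x| - c) ^ 2 ∂μ := integral_nonneg fun x => sq_nonneg _
  have h4 : ∫ x, (|f x| - c) ^ 2 ∂μ = ∫ x, (f x) ^ 2 ∂μ - c ^ 2 := by
    have : ∀ x, (|f x| - c) ^ 2 = (f x) ^ 2 - 2 * c * |f x| + c ^ 2 := fun x => by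
      rw [← sq_abs (f x)]; ring
    simp only [this]
    have h5 : Integrable (fun x => 2 * c * |f x|) μ := h1.const_mul _
    have h6 : Integrable (fun x => (f x) ^ 2 - 2 * c * |f x|) μ := h2.sub h5
    rw [integral_add h6 (integrable_const _), integral_sub h2 h5,
      integral_const_mul, integral_const, ← hc]
    simp
    ring
  have h5 : c ^ 2 ≤ τ := by linarith
  exact Real.le_sqrt_of_sq_le h5

theorem rig_odd_polish : PolishSpace (UG E) := by
  have : ProperSpace (E →L[ℝ] E) := FiniteDimensional.proper_real _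
  have : SecondCountableTopology (E →L[ℝ] E) := inferInstance
  have : PolishSpace (E →L[ℝ] E) := inferInstance
  exact (isClosed_unitary (R := E →L[ℝ] E)).polishSpace

theorem rig_odd_desc (hn : 1 ≤ Module.finrank ℝ E) (e : SS E) {M : UG E → ℝ} (hM : Measurable M)
    (hinv : ∀ g (k : UG (Pe e)), M (g * ex e k) = M g) :
    ∃ m : SS E → ℝ, Measurable m ∧ ∀ g, m (sa g e) = M g := by
  have hs : Function.Surjective (fun g : UG E => sa g e) := fun y => sa_trans hn e y
  have key : ∀ g g' : UG E, sa g e = sa g' e → M g' = M g := by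
    intro g g' h
    have h1 : av (g⁻¹ * g') (e : E) = e := by
      rw [av_mul]
      have : av g' (e : E) = av g e := by
        have := congrArg (fun z : SS E => (z : E)) h
        exact this.symm
      rw [this, av_inv]
    obtain ⟨k, hk⟩ := ex_surj e (g⁻¹ * g') h1
    have h2 : g' = g * ex e k := by rw [hk]; group
    rw [h2, hinv]
  let m : SS E → ℝ := fun x => M (Function.surjInv hs x)
  have hm : ∀ g, m (sa g e) = M g := by
    intro g
    refine key g _ ?_
    exact (Function.surjInv_eq hs (sa g e)).symm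
  refine ⟨m, ?_, hm⟩
  have : PolishSpace (UG E) := rig_odd_polish
  have hπ : Measurable (fun g : UG E => sa g e) := (sa_continuous_left e).measurable
  rw [← hπ.measurable_comp_iff_of_surjective hs]
  have : m ∘ (fun g : UG E => sa g e) = M := funext hm
  rw [this]; exact hM

theorem rig_odd_frame {n : ℕ} (hf : Module.finrank ℝ E = n) (hn : 6 ≤ n) :
    ∃ (e : SS E) (p' q' : SS (Pe e)) (p q : SS E) (σ : UG E), (p : E) = ((p' : Pe e) : E) ∧
      (q : E) = ((q' : Pe e) : E) ∧ ⟪(p' : Pe e), (q' : Pe e)⟫ = 0 ∧ ⟪(p : E), (q : E)⟫ = 0 ∧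
      ⟪(e : E), (p : E)⟫ = 0 ∧ ⟪(e : E), (q : E)⟫ = 0 ∧ sa σ e = p ∧ sa σ p = e := by
  subst hf
  set b := stdOrthonormalBasis ℝ E with hb
  let i0 : Fin (Module.finrank ℝ E) := ⟨0, by omega⟩
  let i1 : Fin (Module.finrank ℝ E) := ⟨1, by omega⟩
  let i2 : Fin (Module.finrank ℝ E) := ⟨2, by omega⟩
  have h01 : i0 ≠ i1 := by simp [i0, i1]
  have h02 : i0 ≠ i2 := by simp [i0, i2]
  have h12 : i1 ≠ i2 := by simp [i1, i2]
  have hO := b.orthonormal
  let e : SS E := ⟨b i0, by rw [mem_sphere_zero_iff_norm]; exact hO.1 i0⟩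
  let p : SS E := ⟨b i1, by rw [mem_sphere_zero_iff_norm]; exact hO.1 i1⟩
  let q : SS E := ⟨b i2, by rw [mem_sphere_zero_iff_norm]; exact hO.1 i2⟩
  have hp : b i1 ∈ Pe e := by
    rw [Submodule.mem_orthogonal_singleton_iff_inner_right]; exact hO.2 h01
  have hq : b i2 ∈ Pe e := by
    rw [Submodule.mem_orthogonal_singleton_iff_inner_right]; exact hO.2 h02
  obtain ⟨σ, hσ⟩ := exists_UG b (b.reindex (Equiv.swap i0 i1))
  refine ⟨e, ⟨⟨b i1, hp⟩, ?_⟩, ⟨⟨b i2, hq⟩, ?_⟩, p, q, σ, rfl, rfl, ?_, hO.2 h12, hO.2 h01,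
    hO.2 h02, ?_, ?_⟩
  · rw [mem_sphere_zero_iff_norm]; exact hO.1 i1
  · rw [mem_sphere_zero_iff_norm]; exact hO.1 i2
  · exact hO.2 h12
  · apply Subtype.ext
    rw [sa_coe]
    show av σ (b i0) = b i1
    rw [hσ]; simp
  · apply Subtype.ext
    rw [sa_coe]
    show av σ (b i1) = b i0
    rw [hσ]; simp

theorem rig_odd_ptc (e : SS E) (r : ℝ) : Continuous (fun w : SS (Pe e) => pt e r w) := by
  have h1 : Continuous (fun w : SS (Pe e) => ((r, w) : ℝ × SS (Pe e))) :=
    Continuous.prodMk_right r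
  have h2 := (pt_cont e).comp h1
  exact h2

theorem rig_odd {n : ℕ} (hf : Module.finrank ℝ E = n) (hn : 6 ≤ n) {χ : SS E → ℝ}
    (hχ : Measurable χ)
    (hχ1 : ∀ x, χ x = 1 ∨ χ x = -1) (s : Fin 3 → SS E) (hs : IsSimp s) {δ : ℝ}
    (hδ : (hm E).real {g | χ (sa g (s 0)) * χ (sa g (s 1)) * χ (sa g (s 2)) ≠ 1} ≤ δ) :
    |∫ x, χ x * χ (an x) ∂(sm E)| ≤ ((∫ x, χ x ∂(sm E)) ^ 2 + 2 / n) ^ 2 + 2 / n
      + 2 * Real.sqrt (8 * δ + 2 / (n - 1)) := by
  obtain ⟨e, p', q', p, q, σ, hpp, hqq, hpq', hpq, hep, heq, hσe, hσp⟩ := rig_odd_frame hf hn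
  have hf1 : 1 ≤ Module.finrank ℝ E := by omega
  have hf2 : 2 ≤ Module.finrank ℝ E := by omega
  have hf3 : 3 ≤ Module.finrank ℝ E := by omega
  have := sm_prob (E := E) hf1
  have hfP : Module.finrank ℝ (Pe e) = n - 1 := finrank_Pe (by omega) e
  have : IsProbabilityMeasure (sm (Pe e)) := sm_prob (by omega)
  have hχa : ∀ x, |χ x| = 1 := fun x => by rcases hχ1 x with h | h <;> simp [h]
  have hχ2 : ∀ x, χ x * χ x = 1 := fun x => by rcases hχ1 x with h | h <;> simp [h]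
  set a : ℝ := (Real.sqrt 2)⁻¹ with ha
  have ha2 : a ^ 2 = 1 / 2 := by
    rw [ha, inv_pow, Real.sq_sqrt (by norm_num)]; norm_num
  have ha0 : 0 < a := by positivity
  have ha1 : a ≤ 1 := by nlinarith
  have hsq : Real.sqrt (1 - a ^ 2) = a := by
    rw [ha2, show (1 : ℝ) - 1 / 2 = a ^ 2 by rw [ha2]; norm_num, Real.sqrt_sq ha0.le]
  have hsq' : Real.sqrt (1 - (-a) ^ 2) = a := by rw [neg_sq]; exact hsq
  have hu : (pt e a p' : E) = a • ((p : E) + e) := by
    rw [pt_coe (by linarith) ha1, hsq, hpp, smul_add, add_comm]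
  have hv : (pt e (-a) p' : E) = a • ((p : E) - e) := by
    rw [pt_coe (by linarith) (by linarith), hsq', hpp, smul_sub, neg_smul, sub_eq_add_neg, add_comm]
  have hu' : (pt e a q' : E) = a • ((q : E) + e) := by
    rw [pt_coe (by linarith) ha1, hsq, hqq, smul_add, add_comm]
  have hv' : (pt e (-a) q' : E) = a • ((q : E) - e) := by
    rw [pt_coe (by linarith) (by linarith), hsq', hqq, smul_sub, neg_smul, sub_eq_add_neg, add_comm]
  set u := pt e a p' with hud
  set v := pt e (-a) p' with hvd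
  set u' := pt e a q' with hud'
  set v' := pt e (-a) q' with hvd'
  have hR := (rig2 (by omega) hχ hχ1 s hs hδ e p q u v u' v' hep heq hpq hu hv hu' hv').1
  set Φ : UG E → ℝ := fun g => χ (sa g u) * χ (sa g v) with hΦ
  set Ψ : UG E → ℝ := fun g => χ (sa g u') * χ (sa g v') with hΨ
  set F : UG E → SS (Pe e) → ℝ := fun g w => χ (sa g (pt e a w)) * χ (sa g (pt e (-a) w)) with hF
  set M : UG E → ℝ := fun g => ∫ w, F g w ∂(sm (Pe e)) with hM
  have hχm : ∀ x, Measurable (fun g : UG E => χ (sa g x)) := fun x =>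
    hχ.comp (sa_continuous_left x).measurable
  have hΦm : Measurable Φ := (hχm u).mul (hχm v)
  have hΨm : Measurable Ψ := (hχm u').mul (hχm v')
  have hΦa : ∀ g, |Φ g| = 1 := fun g => by rw [hΦ]; simp only [abs_mul, hχa, mul_one]
  have hΨa : ∀ g, |Ψ g| = 1 := fun g => by rw [hΨ]; simp only [abs_mul, hχa, mul_one]
  have hΦ2 : ∀ g, Φ g * Φ g = 1 := fun g => by
    have := hΦa g
    rw [← abs_mul_abs_self, this, one_mul]
  have hFa : ∀ g w, |F g w| = 1 := fun g w => by rw [hF]; simp only [abs_mul, hχa, mul_one]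
  have hptc : ∀ r : ℝ, Continuous (fun w : SS (Pe e) => pt e r w) := rig_odd_ptc e
  have hFm2 : Measurable (Function.uncurry F) := by
    have h1 : ∀ r : ℝ, Measurable (fun z : UG E × SS (Pe e) => χ (sa z.1 (pt e r z.2))) := fun r =>
      hχ.comp (sa_continuous.comp (continuous_fst.prodMk ((hptc r).comp continuous_snd))).measurable
    exact (h1 a).mul (h1 (-a))
  have hFm : ∀ g, Measurable (F g) := fun g => hFm2.of_uncurry_left
  have hMm : Measurable M := (hFm2.stronglyMeasurable.integral_prod_right).measurable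
  have hMa : ∀ g, |M g| ≤ 1 := by
    intro g
    rw [hM]
    refine (abs_integral_le_integral_abs).trans ?_
    simp only [hFa, integral_const, smul_eq_mul, mul_one]
    simp
  have hFk : ∀ g k, F g (sa k p') = Φ (g * ex e k) := by
    intro g k
    simp only [hF, hΦ, sa_mul, hud, hvd, ex_pt]
  have hFk' : ∀ g k, F g (sa k q') = Ψ (g * ex e k) := by
    intro g k
    simp only [hF, hΨ, sa_mul, hud', hvd', ex_pt]
  have hMk : ∀ g, M g = ∫ k, Φ (g * ex e k) ∂(hm (Pe e)) := by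
    intro g
    simp only [← hFk]
    exact sm_int (by omega) p' (hFm g)
  have hMinv : ∀ g (k : UG (Pe e)), M (g * ex e k) = M g := by
    intro g k
    have h1 : ∀ w, F (g * ex e k) w = F g (sa k w) := by
      intro w
      simp only [hF, sa_mul, ex_pt]
    simp only [hM, h1]
    have h2 := (sm_inv k).map_eq
    conv_rhs => rw [← h2]
    rw [integral_map (sm_inv k).measurable.aemeasurable (hFm g).aestronglyMeasurable]
  -- step A
  have hA : 1 - 8 * δ ≤ ∫ g, Φ g * Ψ g ∂(hm E) := by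
    have hS : MeasurableSet {g : UG E | Φ g ≠ Ψ g} := (measurableSet_eq_fun hΦm hΨm).compl
    have h1 : ∀ g, Φ g * Ψ g = 1 - 2 * ({g : UG E | Φ g ≠ Ψ g}.indicator (fun _ => (1 : ℝ)) g) := by
      intro g
      by_cases h : Φ g = Ψ g
      · rw [indicator_of_notMem (by simp [h]), ← h, hΦ2]; ring
      · rw [indicator_of_mem (by simpa using h)]
        have h3 : Φ g = 1 ∨ Φ g = -1 := by
          rcases abs_eq (zero_le_one) |>.1 (hΦa g) with h | h <;> simp [h]
        have h4 : Ψ g = 1 ∨ Ψ g = -1 := by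
          rcases abs_eq (zero_le_one) |>.1 (hΨa g) with h | h <;> simp [h]
        rcases h3 with h3 | h3 <;> rcases h4 with h4 | h4
        · exact absurd (h3.trans h4.symm) h
        · rw [h3, h4]; norm_num
        · rw [h3, h4]; norm_num
        · exact absurd (h3.trans h4.symm) h
    simp only [h1]
    rw [integral_sub (integrable_const _) ((integrable_const (1 : ℝ)).indicator hS |>.const_mul 2),
      integral_const_mul, integral_indicator_const _ hS]
    simp only [integral_const, probReal_univ, smul_eq_mul, mul_one]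
    have : (hm E).real {g : UG E | Φ g ≠ Ψ g} ≤ 4 * δ := hR
    linarith
  -- step B
  have hB : ∀ g, ∫ k, Φ (g * ex e k) * Ψ (g * ex e k) ∂(hm (Pe e)) ≤ M g ^ 2 + 2 / (n - 1) := by
    intro g
    have hBM : BM (F g) := ⟨hFm g, 1, fun w => (hFa g w).le⟩
    have h1 := PP_pair (E := Pe e) (by omega) hBM hBM
      (fun r => (PP_basic (E := Pe e) (by omega) r hBM hBM).1.1) p' q'
    rw [hpq'] at h1
    simp only [hFk, hFk'] at h1
    rw [← h1]
    have h2 := mixing (E := Pe e) hfP (by omega) hBM hBM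
    have h3 : ∫ x, (F g x) ^ 2 ∂(sm (Pe e)) = 1 := by
      have : ∀ w, F g w ^ 2 = 1 := fun w => by rw [← sq_abs, hFa]; norm_num
      simp [this]
    rw [h3, Real.sqrt_one, mul_one, mul_one, Nat.cast_sub (by omega), Nat.cast_one] at h2
    have h4 := (abs_le.1 h2).2
    have h5 : M g = ∫ x, F g x ∂(sm (Pe e)) := rfl
    rw [h5]
    linarith
  -- step C
  have hn1 : (0 : ℝ) < (n : ℝ) - 1 := by
    have : (6 : ℝ) ≤ n := by exact_mod_cast hn
    linarith
  have hM2i : Integrable (fun g => M g ^ 2) (hm E) :=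
    rig_odd_int (hMm.pow_const 2) 1 fun g => by
      rw [abs_pow]; exact pow_le_one₀ (abs_nonneg _) (hMa g)
  have hC : 1 - 8 * δ - 2 / (n - 1) ≤ ∫ g, M g ^ 2 ∂(hm E) := by
    have h1 := cond_right e (hΦm.mul hΨm) ⟨1, fun g => by
      simp only [Pi.mul_apply, abs_mul, hΦa, hΨa, mul_one, le_refl]⟩
    simp only [Pi.mul_apply] at h1
    have hmm : Measurable (fun z : UG E × UG (Pe e) => z.1 * ex e z.2) :=
      (continuous_fst.mul ((ex_cont e).comp continuous_snd)).measurable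
    have h2 : Measurable (fun g : UG E => ∫ k, Φ (g * ex e k) * Ψ (g * ex e k) ∂(hm (Pe e))) := by
      have : Measurable (Function.uncurry (fun (g : UG E) (k : UG (Pe e)) =>
        Φ (g * ex e k) * Ψ (g * ex e k))) := (hΦm.comp hmm).mul (hΨm.comp hmm)
      exact (this.stronglyMeasurable.integral_prod_right).measurable
    have h3 : Integrable (fun g : UG E => ∫ k, Φ (g * ex e k) * Ψ (g * ex e k) ∂(hm (Pe e)))
        (hm E) := by
      refine rig_odd_int h2 1 fun g => ?_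
      refine (abs_integral_le_integral_abs).trans ?_
      simp only [abs_mul, hΦa, hΨa, mul_one, integral_const, smul_eq_mul]
      simp
    have h4 : ∫ g, ∫ k, Φ (g * ex e k) * Ψ (g * ex e k) ∂(hm (Pe e)) ∂(hm E)
        ≤ ∫ g, (M g ^ 2 + 2 / (n - 1)) ∂(hm E) :=
      integral_mono h3 (hM2i.add (integrable_const _)) hB
    rw [integral_add hM2i (integrable_const _)] at h4
    simp only [integral_const, probReal_univ, smul_eq_mul, one_mul] at h4
    linarith
  -- step D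
  have hΦMi : Integrable (fun g => Φ g * M g) (hm E) :=
    rig_odd_int (hΦm.mul hMm) 1 fun g => by
      simp only [Pi.mul_apply, abs_mul, hΦa, one_mul]; exact hMa g
  have hD : ∫ g, Φ g * M g ∂(hm E) = ∫ g, M g ^ 2 ∂(hm E) := by
    have h1 := cond_right e (hΦm.mul hMm) ⟨1, fun g => by
      simp only [Pi.mul_apply, abs_mul, hΦa, one_mul]; exact hMa g⟩
    simp only [Pi.mul_apply, hMinv] at h1
    rw [h1]
    refine integral_congr_ae (ae_of_all _ fun g => ?_)
    simp only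
    rw [integral_mul_const, ← hMk, sq]
  -- step E
  have hE : ∫ g, (Φ g - M g) ^ 2 ∂(hm E) ≤ 8 * δ + 2 / (n - 1) := by
    have : ∀ g, (Φ g - M g) ^ 2 = 1 - 2 * (Φ g * M g) + M g ^ 2 := fun g => by
      have := hΦ2 g
      linear_combination this
    simp only [this]
    have hi3 : Integrable (fun g => 2 * (Φ g * M g)) (hm E) := hΦMi.const_mul 2
    have hi4 : Integrable (fun g => 1 - 2 * (Φ g * M g)) (hm E) := (integrable_const _).sub hi3
    rw [integral_add hi4 hM2i,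
      integral_sub (integrable_const _) hi3, integral_const_mul, hD]
    simp only [integral_const, probReal_univ, smul_eq_mul, one_mul]
    linarith
  -- step F
  have hdm : Measurable (fun g => Φ g - M g) := hΦm.sub hMm
  have hdb : ∀ g, |Φ g - M g| ≤ 2 := fun g => by
    have h1 := abs_sub (Φ g) (M g)
    have h2 := hΦa g
    have h3 := hMa g
    linarith
  have hFF : ∫ g, |Φ g - M g| ∂(hm E) ≤ Real.sqrt (8 * δ + 2 / (n - 1)) :=
    rig_odd_cs hdm 2 hdb hE
  have hdi : Integrable (fun g => |Φ g - M g|) (hm E) := (rig_odd_int hdm 2 hdb).abs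
  have hdi' : Integrable (fun g => |Φ (g * σ) - M (g * σ)|) (hm E) :=
    (rig_odd_int (hdm.comp (measurable_mul_const σ)) 2 fun g => hdb (g * σ)).abs
  -- step G
  have hG1 : ∫ g, Φ g * Φ (g * σ) ∂(hm E) = ∫ x, χ x * χ (an x) ∂(sm E) := by
    have hanm : Measurable (fun x : SS E => χ x * χ (an x)) := by
      refine hχ.mul (hχ.comp ?_)
      refine Continuous.measurable ?_
      exact Continuous.subtype_mk (continuous_neg.comp continuous_subtype_val) _
    rw [sm_int hf1 v hanm]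
    refine integral_congr_ae (ae_of_all _ fun g => ?_)
    have hσE : av σ (e : E) = p := by rw [← sa_coe, hσe]
    have hσP : av σ (p : E) = e := by rw [← sa_coe, hσp]
    have h1 : sa σ u = u := by
      apply Subtype.ext
      rw [sa_coe, hu, av_smul, av_add, hσE, hσP, add_comm]
    have h2 : sa (g * σ) v = an (sa g v) := by
      apply Subtype.ext
      rw [sa_mul, sa_coe, sa_coe, hv, av_smul, av_sub, hσE, hσP]
      show _ = -((sa g v : SS E) : E)
      rw [sa_coe, hv]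
      have : a • ((e : E) - p) = (-1 : ℝ) • (a • ((p : E) - e)) := by
        rw [smul_comm, neg_one_smul, neg_sub]
      rw [this, av_smul, neg_one_smul]
    simp only [hΦ, h2]
    rw [sa_mul, h1]
    have := hχ2 (sa g u)
    linear_combination (χ (sa g v) * χ (an (sa g v))) * this
  have hi1 : Integrable (fun g => Φ g * Φ (g * σ)) (hm E) :=
    rig_odd_int (hΦm.mul (hΦm.comp (measurable_mul_const σ))) 1 fun g => by
      simp only [Function.comp, Pi.mul_apply, abs_mul, hΦa, mul_one, le_refl]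
  have hMσ : Measurable (fun g => M (g * σ)) := hMm.comp (measurable_mul_const σ)
  have hi2 : Integrable (fun g => M g * M (g * σ)) (hm E) :=
    rig_odd_int (hMm.mul hMσ) 1 fun g => by
      simp only [Pi.mul_apply, abs_mul]
      exact mul_le_one₀ (hMa g) (abs_nonneg _) (hMa _)
  have hG2 : |∫ g, Φ g * Φ (g * σ) ∂(hm E) - ∫ g, M g * M (g * σ) ∂(hm E)|
      ≤ 2 * Real.sqrt (8 * δ + 2 / (n - 1)) := by
    rw [← integral_sub hi1 hi2]
    refine (abs_integral_le_integral_abs).trans ?_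
    have h1 : ∀ g, |Φ g * Φ (g * σ) - M g * M (g * σ)|
        ≤ |Φ (g * σ) - M (g * σ)| + |Φ g - M g| := by
      intro g
      have h2 : Φ g * Φ (g * σ) - M g * M (g * σ)
          = Φ g * (Φ (g * σ) - M (g * σ)) + (Φ g - M g) * M (g * σ) := by ring
      rw [h2]
      refine (abs_add_le _ _).trans ?_
      have h3 : |Φ g * (Φ (g * σ) - M (g * σ))| = |Φ (g * σ) - M (g * σ)| := by
        rw [abs_mul (Φ g), hΦa, one_mul]
      have h4 : |(Φ g - M g) * M (g * σ)| = |Φ g - M g| * |M (g * σ)| := abs_mul _ _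
      rw [h3, h4]
      have := mul_le_of_le_one_right (abs_nonneg (Φ g - M g)) (hMa (g * σ))
      linarith
    refine (integral_mono (hi1.sub hi2).abs (hdi'.add hdi) h1).trans ?_
    have h5 : ∫ g, ((fun g => |Φ (g * σ) - M (g * σ)|) + fun g => |Φ g - M g|) g ∂(hm E)
        = ∫ g, |Φ (g * σ) - M (g * σ)| ∂(hm E) + ∫ g, |Φ g - M g| ∂(hm E) :=
      integral_add hdi' hdi
    rw [h5, hm_int_right σ (fun g => |Φ g - M g|)]
    linarith
  -- step H
  obtain ⟨m, hmm, hmM⟩ := rig_odd_desc hf1 e hMm hMinv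
  have hma : ∀ x, |m x| ≤ 1 := by
    intro x
    obtain ⟨g, rfl⟩ := sa_trans hf1 e x
    rw [hmM]; exact hMa g
  have hmBM : BM m := ⟨hmm, 1, hma⟩
  have hχBM : BM χ := ⟨hχ, 1, fun x => (hχa x).le⟩
  have hmi : ∫ x, (m x) ^ 2 ∂(sm E) ≤ 1 := by
    have : ∫ x, (m x) ^ 2 ∂(sm E) ≤ ∫ x, (1 : ℝ) ∂(sm E) :=
      integral_mono (rig_odd_int (hmm.pow_const 2) 1 fun x => by
        rw [abs_pow]; exact pow_le_one₀ (abs_nonneg _) (hma x)) (integrable_const _)
        fun x => by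
          rw [← sq_abs]; exact pow_le_one₀ (abs_nonneg _) (hma x)
    simpa using this
  have hH1 : ∫ g, M g * M (g * σ) ∂(hm E) = ∫ x, m x * PP 0 m x ∂(sm E) := by
    have h1 := PP_pair hf2 hmBM hmBM (fun r => (PP_basic hf3 r hmBM hmBM).1.1) e p
    rw [hep] at h1
    rw [h1]
    refine integral_congr_ae (ae_of_all _ fun g => ?_)
    simp only
    rw [← hmM, ← hmM, sa_mul, hσe]
  have hn0 : (0 : ℝ) < (n : ℝ) := by linarith
  have hH2 : |∫ x, m x * PP 0 m x ∂(sm E) - (∫ x, m x ∂(sm E)) * ∫ x, m x ∂(sm E)| ≤ 2 / n := by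
    refine (mixing hf (by omega) hmBM hmBM).trans ?_
    rw [Real.mul_self_sqrt (integral_nonneg fun x => sq_nonneg _)]
    exact mul_le_of_le_one_right (by positivity) hmi
  have hH3 : ∫ x, m x ∂(sm E) = ∫ x, χ x * PP 0 χ x ∂(sm E) := by
    have huv : ⟪(u : E), (v : E)⟫ = 0 := by
      rw [hu, hv, real_inner_smul_left, real_inner_smul_right, inner_add_left, inner_sub_right,
        inner_sub_right, real_inner_self_eq_norm_sq, real_inner_self_eq_norm_sq,
        norm_eq_of_mem_sphere, norm_eq_of_mem_sphere, hep, real_inner_comm, hep]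
      ring
    have h1 := PP_pair hf2 hχBM hχBM (fun r => (PP_basic hf3 r hχBM hχBM).1.1) u v
    rw [huv] at h1
    rw [h1, sm_int hf1 e hmm]
    simp only [hmM]
    have h2 := cond_right e hΦm ⟨1, fun g => (hΦa g).le⟩
    have h3 : ∫ g, Φ g ∂(hm E) = ∫ g, M g ∂(hm E) := by
      rw [h2]; simp only [hMk]
    exact h3.symm
  have hH4 : |∫ x, χ x * PP 0 χ x ∂(sm E) - (∫ x, χ x ∂(sm E)) * ∫ x, χ x ∂(sm E)| ≤ 2 / n := by
    refine (mixing hf (by omega) hχBM hχBM).trans ?_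
    have : ∀ x, χ x ^ 2 = 1 := fun x => by rw [sq, hχ2]
    simp [this]
  rw [← hH3] at hH4
  rw [hH1, hG1] at hG2
  set I := ∫ x, m x ∂(sm E)
  set J := ∫ x, χ x ∂(sm E)
  have hI : |I| ≤ J ^ 2 + 2 / n := by
    rw [abs_le] at hH4 ⊢
    constructor
    · nlinarith [sq_nonneg J, hH4.1]
    · nlinarith [sq_nonneg J, hH4.2]
  have hI2 : I * I ≤ (J ^ 2 + 2 / n) ^ 2 := by
    rw [← abs_mul_abs_self, ← sq]
    exact pow_le_pow_left₀ (abs_nonneg _) hI 2
  have hI0 : 0 ≤ I * I := mul_self_nonneg _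
  rw [abs_le] at hG2 hH2 ⊢
  constructor
  · linarith [hG2.1, hH2.1]
  · linarith [hG2.2, hH2.2]

end Rig


end CoreW

end Pool.Agent.helper440_simplex
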