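import Pool.Agent.helper440_simplex.G0d
import Pool.Agent.helper440_simplex.G0e
import Pool.Agent.helper440_simplex.G0f

set_option autoImplicit false
set_option linter.unusedSectionVars false

namespace Pool.Agent.helper440_simplex

open MeasureTheory Metric Set Filter Topology
open scoped RealInnerProductSpace

section CoreW
variable {E : Type*} [NormedAddCommGroup E] [InnerProductSpace ℝ E] [CompleteSpace E]
  [FiniteDimensional ℝ E] [MeasurableSpace E] [BorelSpace E]

-- case_small3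
theorem case_small3_BM {E : Type} [NormedAddCommGroup E] [InnerProductSpace ℝ E] [CompleteSpace E]
    [FiniteDimensional ℝ E] [MeasurableSpace E] [BorelSpace E] {B : Set (SS E)}
    (hB : MeasurableSet B) : BM (ind B) := by
  refine ⟨measurable_const.indicator hB, 1, fun x => ?_⟩
  unfold ind
  by_cases hx : x ∈ B
  · rw [indicator_of_mem hx]; simp
  · rw [indicator_of_notMem hx]; simp

theorem case_small3_real {E : Type} [NormedAddCommGroup E] [InnerProductSpace ℝ E]
    [CompleteSpace E] [FiniteDimensional ℝ E] [MeasurableSpace E] [BorelSpace E] {B : Set (SS E)}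
    (hB : MeasurableSet B) : ∫ x, ind B x ∂(sm E) = (sm E).real B := by
  unfold ind
  exact integral_indicator_one hB

theorem case_small3_cases {E : Type} [NormedAddCommGroup E] (B : Set (SS E)) (x : SS E) :
    (x ∈ B ∧ ind B x = 1) ∨ (x ∉ B ∧ ind B x = 0) := by
  unfold ind
  by_cases hx : x ∈ B
  · exact Or.inl ⟨hx, indicator_of_mem hx _⟩
  · exact Or.inr ⟨hx, indicator_of_notMem hx _⟩

theorem case_small3_pair {E : Type} [NormedAddCommGroup E] [InnerProductSpace ℝ E]
    [CompleteSpace E] [FiniteDimensional ℝ E] [MeasurableSpace E] [BorelSpace E]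
    (hn : 3 ≤ Module.finrank ℝ E) {B : Set (SS E)}
    (hB : MeasurableSet B) {ε0 : ℝ} (h : ∫ x, |PP (-1 / 2) (ind B) x - 1 / 2| ∂(sm E) ≤ ε0)
    (a b : SS E) (hab : ⟪(a : E), (b : E)⟫ = -1 / 2) :
    (sm E).real B / 2 - ε0 ≤ ∫ g, ind B (sa g a) * ind B (sa g b) ∂(hm E) := by
  have hBM := case_small3_BM hB
  have hp : IsProbabilityMeasure (sm E) := sm_prob (by omega)
  rw [← PP_pair (by omega) hBM hBM (fun r => (PP_basic hn r hBM hBM).1.1) a b, hab,
    ← case_small3_real hB]
  obtain ⟨hPm, C, hC⟩ := (PP_basic hn (-1 / 2) hBM hBM).1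
  have hPi : Integrable (PP (-1 / 2) (ind B)) (sm E) :=
    Integrable.of_bound hPm.aestronglyMeasurable C (Filter.Eventually.of_forall fun x => by
      rw [Real.norm_eq_abs]; exact hC x)
  have hIi : Integrable (ind B) (sm E) :=
    Integrable.of_bound hBM.1.aestronglyMeasurable 1 (Filter.Eventually.of_forall fun x => by
      rw [Real.norm_eq_abs]
      rcases case_small3_cases B x with ⟨_, h⟩ | ⟨_, h⟩ <;> rw [h] <;> simp)
  have hAi : Integrable (fun x => |PP (-1 / 2) (ind B) x - 1 / 2|) (sm E) :=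
    (hPi.sub (integrable_const _)).abs
  have hIPi : Integrable (fun x => ind B x * PP (-1 / 2) (ind B) x) (sm E) :=
    Integrable.of_bound (hBM.1.mul hPm).aestronglyMeasurable (|C|)
      (Filter.Eventually.of_forall fun x => by
      rw [Real.norm_eq_abs, abs_mul]
      have h1 := hC x
      have h2 := le_abs_self C
      rcases case_small3_cases B x with ⟨_, h⟩ | ⟨_, h⟩ <;> rw [h]
      · rw [abs_one, one_mul]; exact h1.trans h2
      · rw [abs_zero, zero_mul]; exact abs_nonneg _)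
  have key : ∫ x, (ind B x / 2 - |PP (-1 / 2) (ind B) x - 1 / 2|) ∂(sm E)
      ≤ ∫ x, ind B x * PP (-1 / 2) (ind B) x ∂(sm E) := by
    refine integral_mono ((hIi.div_const 2).sub hAi) hIPi fun x => ?_
    show ind B x / 2 - |PP (-1 / 2) (ind B) x - 1 / 2| ≤ ind B x * PP (-1 / 2) (ind B) x
    rcases case_small3_cases B x with ⟨_, h⟩ | ⟨_, h⟩ <;> rw [h]
    · have := neg_abs_le (PP (-1 / 2) (ind B) x - 1 / 2)
      linarith
    · have := abs_nonneg (PP (-1 / 2) (ind B) x - 1 / 2)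
      linarith
  rw [integral_sub (hIi.div_const 2) hAi, integral_div] at key
  linarith

theorem case_small3_sa {E : Type} [NormedAddCommGroup E] [InnerProductSpace ℝ E]
    [CompleteSpace E] [FiniteDimensional ℝ E] [MeasurableSpace E] [BorelSpace E] {B : Set (SS E)}
    (hB : MeasurableSet B) (x : SS E) : Measurable (fun g : UG E => ind B (sa g x)) :=
  (case_small3_BM hB).1.comp (sa_continuous_left x).measurable

theorem case_small3_prob {E : Type} [NormedAddCommGroup E] [InnerProductSpace ℝ E]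
    [CompleteSpace E] [FiniteDimensional ℝ E] [MeasurableSpace E] [BorelSpace E]
    (hn : 3 ≤ Module.finrank ℝ E) {B : Set (SS E)}
    (hB : MeasurableSet B) {ε0 p0 : ℝ}
    (h : ∫ x, |PP (-1 / 2) (ind B) x - 1 / 2| ∂(sm E) ≤ ε0) (s : Fin 3 → SS E) (hs : IsSimp s)
    (hp : (hm E).real {g | ∀ i, sa g (s i) ∈ B} ≤ p0) :
    (hm E).real {g | (1 - 2 * ind B (sa g (s 0))) * (1 - 2 * ind B (sa g (s 1))) *
      (1 - 2 * ind B (sa g (s 2))) ≠ 1} ≤ 6 * ε0 + 4 * p0 := by
  have hin : ∀ i j : Fin 3, i ≠ j → ⟪(s i : E), (s j : E)⟫ = -1 / 2 := by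
    intro i j hij
    rw [hs i j hij]
    norm_num
  set b : Fin 3 → UG E → ℝ := fun i g => ind B (sa g (s i)) with hb
  have hbm : ∀ i, Measurable (b i) := fun i => case_small3_sa hB (s i)
  have hb01 : ∀ i g, b i g = 1 ∨ b i g = 0 := fun i g =>
    (case_small3_cases B (sa g (s i))).imp (fun h => h.2) (fun h => h.2)
  have hbi : ∀ i, Integrable (b i) (hm E) := fun i =>
    Integrable.of_bound (hbm i).aestronglyMeasurable 1 (Filter.Eventually.of_forall fun g => by
      rw [Real.norm_eq_abs]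
      rcases hb01 i g with h | h <;> rw [h] <;> simp)
  have hbij : ∀ i j, Integrable (fun g => b i g * b j g) (hm E) := fun i j =>
    Integrable.of_bound ((hbm i).mul (hbm j)).aestronglyMeasurable 1
      (Filter.Eventually.of_forall fun g => by
      rw [Real.norm_eq_abs]
      rcases hb01 i g with h | h <;> rcases hb01 j g with h' | h' <;> rw [h, h'] <;> simp)
  have hbt : Integrable (fun g => b 0 g * b 1 g * b 2 g) (hm E) :=
    Integrable.of_bound (((hbm 0).mul (hbm 1)).mul (hbm 2)).aestronglyMeasurable 1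
      (Filter.Eventually.of_forall fun g => by
      rw [Real.norm_eq_abs]
      rcases hb01 0 g with h | h <;> rcases hb01 1 g with h' | h' <;>
        rcases hb01 2 g with h'' | h'' <;> rw [h, h', h''] <;> simp)
  have e1 : ∀ i, ∫ g, b i g ∂(hm E) = (sm E).real B := by
    intro i
    rw [← case_small3_real hB, sm_int (by omega) (s i) (case_small3_BM hB).1]
  have e2 : ∀ i j : Fin 3, i ≠ j → (sm E).real B / 2 - ε0 ≤ ∫ g, b i g * b j g ∂(hm E) :=
    fun i j hij => case_small3_pair hn hB h (s i) (s j) (hin i j hij)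
  have e3 : ∫ g, b 0 g * b 1 g * b 2 g ∂(hm E) ≤ p0 := by
    have hset : MeasurableSet {g : UG E | ∀ i, sa g (s i) ∈ B} := by
      have : {g : UG E | ∀ i, sa g (s i) ∈ B} = ⋂ i, (fun g : UG E => sa g (s i)) ⁻¹' B := by
        ext g
        simp
      rw [this]
      exact MeasurableSet.iInter fun i => (sa_continuous_left (s i)).measurable hB
    have : (fun g => b 0 g * b 1 g * b 2 g) =
        {g : UG E | ∀ i, sa g (s i) ∈ B}.indicator (1 : UG E → ℝ) := by
      funext g
      by_cases hg : g ∈ {g : UG E | ∀ i, sa g (s i) ∈ B}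
      · rw [indicator_of_mem hg]
        have hh : ∀ i, b i g = 1 := fun i =>
          (case_small3_cases B (sa g (s i))).elim (fun h => h.2) (fun h => absurd (hg i) h.1)
        rw [hh, hh, hh]
        simp
      · rw [indicator_of_notMem hg]
        rcases hb01 0 g with h0 | h0
        · rcases hb01 1 g with h1 | h1
          · rcases hb01 2 g with h2 | h2
            · exfalso
              apply hg
              have hmem : ∀ i, b i g = 1 → sa g (s i) ∈ B := fun i hi =>
                (case_small3_cases B (sa g (s i))).elim (fun h => h.1) (fun h => by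
                  exfalso
                  have : b i g = 0 := h.2
                  rw [hi] at this
                  exact one_ne_zero this)
              intro i
              fin_cases i
              · exact hmem 0 h0
              · exact hmem 1 h1
              · exact hmem 2 h2
            · rw [h2, mul_zero]
          · rw [h1, mul_zero, zero_mul]
        · rw [h0, zero_mul, zero_mul]
    rw [this, integral_indicator_one hset]
    exact hp
  have hSm : MeasurableSet {g : UG E | (1 - 2 * b 0 g) * (1 - 2 * b 1 g) * (1 - 2 * b 2 g) ≠ 1} := by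
    have hf : Measurable (fun g => (1 - 2 * b 0 g) * (1 - 2 * b 1 g) * (1 - 2 * b 2 g)) := by
      have := hbm 0
      have := hbm 1
      have := hbm 2
      fun_prop
    exact (hf (measurableSet_singleton (1 : ℝ))).compl
  have e4 : (hm E).real {g : UG E | (1 - 2 * b 0 g) * (1 - 2 * b 1 g) * (1 - 2 * b 2 g) ≠ 1} =
      ∫ g, ((b 0 g + b 1 g + b 2 g) - 2 * (b 0 g * b 1 g + b 0 g * b 2 g + b 1 g * b 2 g)
        + 4 * (b 0 g * b 1 g * b 2 g)) ∂(hm E) := by
    rw [← integral_indicator_one hSm]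
    refine integral_congr_ae (Filter.Eventually.of_forall fun g => ?_)
    show ({g : UG E | (1 - 2 * b 0 g) * (1 - 2 * b 1 g) * (1 - 2 * b 2 g) ≠ 1}.indicator
      (1 : UG E → ℝ)) g = _
    beta_reduce
    by_cases hg : (1 - 2 * b 0 g) * (1 - 2 * b 1 g) * (1 - 2 * b 2 g) = 1
    · rw [indicator_of_notMem (by simpa using hg)]
      rcases hb01 0 g with h0 | h0 <;> rcases hb01 1 g with h1 | h1 <;>
        rcases hb01 2 g with h2 | h2 <;>
        first
        | (exfalso; revert hg; rw [h0, h1, h2]; norm_num; done)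
        | (rw [h0, h1, h2]; norm_num; done)
    · rw [indicator_of_mem (by simpa using hg)]
      rw [Pi.one_apply]
      rcases hb01 0 g with h0 | h0 <;> rcases hb01 1 g with h1 | h1 <;>
        rcases hb01 2 g with h2 | h2 <;>
        first
        | (exfalso; revert hg; rw [h0, h1, h2]; norm_num; done)
        | (rw [h0, h1, h2]; norm_num; done)
  show (hm E).real {g : UG E | (1 - 2 * b 0 g) * (1 - 2 * b 1 g) * (1 - 2 * b 2 g) ≠ 1} ≤ _
  rw [e4]
  have i2 : Integrable (fun g => b 0 g + b 1 g) (hm E) := (hbi 0).add (hbi 1)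
  have i3 : Integrable (fun g => b 0 g + b 1 g + b 2 g) (hm E) := i2.add (hbi 2)
  have j2 : Integrable (fun g => b 0 g * b 1 g + b 0 g * b 2 g) (hm E) := (hbij 0 1).add (hbij 0 2)
  have i4 : Integrable (fun g => b 0 g * b 1 g + b 0 g * b 2 g + b 1 g * b 2 g) (hm E) :=
    j2.add (hbij 1 2)
  have i4' : Integrable (fun g => 2 * (b 0 g * b 1 g + b 0 g * b 2 g + b 1 g * b 2 g)) (hm E) :=
    i4.const_mul 2
  have i5 : Integrable (fun g => b 0 g + b 1 g + b 2 g
      - 2 * (b 0 g * b 1 g + b 0 g * b 2 g + b 1 g * b 2 g)) (hm E) := i3.sub i4'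
  have i6 : Integrable (fun g => 4 * (b 0 g * b 1 g * b 2 g)) (hm E) := hbt.const_mul 4
  rw [integral_add i5 i6, integral_sub i3 i4', integral_const_mul, integral_const_mul,
    integral_add i2 (hbi 2), integral_add (hbi 0) (hbi 1),
    integral_add j2 (hbij 1 2), integral_add (hbij 0 1) (hbij 0 2),
    e1, e1, e1]
  have := e2 0 1 (by decide)
  have := e2 0 2 (by decide)
  have := e2 1 2 (by decide)
  linarith

theorem case_small3 :
    ∃ ε0 : ℝ, 0 < ε0 ∧ ∃ p0 : ℝ, 0 < p0 ∧ ∃ η : ℝ, 0 < η ∧ ∃ n0 : ℕ, ∀ (E : Type)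
    [NormedAddCommGroup E]
    [InnerProductSpace ℝ E] [CompleteSpace E] [FiniteDimensional ℝ E] [MeasurableSpace E]
    [BorelSpace E], n0 ≤ Module.finrank ℝ E → ∀ s : Fin 3 → SS E, IsSimp s →
    ∀ B : Set (SS E), MeasurableSet B → (hm E).real {g | ∀ i, sa g (s i) ∈ B} ≤ p0 →
    1 / 2 - η ≤ (sm E).real B →
    (∫ x, |PP (-1 / 2) (ind B) x - 1 / 2| ∂(sm E) ≤ ε0) → False := by
  obtain ⟨p1, hp1, n1, H1⟩ := mu_up 3 (by norm_num) (η := 1 / 100) (by norm_num)
  refine ⟨1 / 10000, by norm_num, min p1 (1 / 10000), lt_min hp1 (by norm_num), 1 / 100,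
    by norm_num, max n1 1001, ?_⟩
  intro E _ _ _ _ _ _ hn s hs B hB hp hlow hint
  have hn1 : n1 ≤ Module.finrank ℝ E := le_trans (le_max_left _ _) hn
  have hn2 : 1001 ≤ Module.finrank ℝ E := le_trans (le_max_right _ _) hn
  have hup := H1 E hn1 s hs B hB (hp.trans (min_le_left _ _))
  have hδ := case_small3_prob (by omega) hB hint s hs (hp.trans (min_le_right _ _))
  set χ : SS E → ℝ := fun x => 1 - 2 * ind B x with hχ
  have hBM := case_small3_BM hB
  have hχm : Measurable χ := measurable_const.sub (hBM.1.const_mul 2)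
  have hχ1 : ∀ x, χ x = 1 ∨ χ x = -1 := by
    intro x
    rcases case_small3_cases B x with ⟨_, h⟩ | ⟨_, h⟩
    · right
      show 1 - 2 * ind B x = -1
      rw [h]; norm_num
    · left
      show 1 - 2 * ind B x = 1
      rw [h]; norm_num
  have hδ' : (hm E).real {g | χ (sa g (s 0)) * χ (sa g (s 1)) * χ (sa g (s 2)) ≠ 1} ≤ 1 / 1000 := by
    refine le_trans hδ ?_
    norm_num
  have hE := rig_even rfl (by omega) hχm hχ1 s hs hδ'
  have hO := rig_odd rfl (by omega) hχm hχ1 s hs hδ'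
  have hpr : IsProbabilityMeasure (sm E) := sm_prob (by omega)
  have hIi : Integrable (ind B) (sm E) :=
    Integrable.of_bound hBM.1.aestronglyMeasurable 1 (Filter.Eventually.of_forall fun x => by
      rw [Real.norm_eq_abs]
      rcases case_small3_cases B x with ⟨_, h⟩ | ⟨_, h⟩ <;> rw [h] <;> simp)
  have hχint : ∫ x, χ x ∂(sm E) = 1 - 2 * (sm E).real B := by
    show ∫ x, (1 - 2 * ind B x) ∂(sm E) = _
    rw [integral_sub (integrable_const _) (hIi.const_mul 2), integral_const_mul,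
      case_small3_real hB]
    simp
  rw [hχint] at hO
  set μ := (sm E).real B with hμ
  set A := ∫ x, χ x * χ (an x) ∂(sm E) with hA
  set n := Module.finrank ℝ E with hnn
  have hnR : (1001 : ℝ) ≤ n := by exact_mod_cast hn2
  have h2n : 2 / (n : ℝ) ≤ 1 / 500 := by
    rw [div_le_div_iff₀ (by linarith) (by norm_num)]
    linarith
  have h2n0 : 0 ≤ 2 / (n : ℝ) := by positivity
  have h2n' : 2 / ((n : ℝ) - 1) ≤ 1 / 500 := by
    rw [div_le_div_iff₀ (by linarith) (by norm_num)]
    linarith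
  have hsq : Real.sqrt (8 * (1 / 1000) + 2 / ((n : ℝ) - 1)) ≤ 1 / 10 := by
    rw [show (1 / 10 : ℝ) = Real.sqrt ((1 / 10) ^ 2) by rw [Real.sqrt_sq (by norm_num)]]
    apply Real.sqrt_le_sqrt
    norm_num
    linarith
  have hq : (1 - 2 * μ) ^ 2 ≤ 1 / 2500 := by
    have h1 : |1 - 2 * μ| ≤ 1 / 50 := by
      rw [abs_le]
      constructor <;> linarith
    rw [← sq_abs]
    nlinarith [abs_nonneg (1 - 2 * μ)]
  have hq0 : 0 ≤ (1 - 2 * μ) ^ 2 := sq_nonneg _
  have hq2 : ((1 - 2 * μ) ^ 2 + 2 / (n : ℝ)) ^ 2 ≤ 1 / 100 := by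
    have h1 : (1 - 2 * μ) ^ 2 + 2 / (n : ℝ) ≤ 1 / 10 := by linarith
    have h2 : 0 ≤ (1 - 2 * μ) ^ 2 + 2 / (n : ℝ) := by linarith
    nlinarith
  have hA1 : |A| ≤ 1 / 4 := by linarith
  have hA2 : A ^ 2 ≤ 1 / 16 := by
    rw [← sq_abs]
    nlinarith [abs_nonneg A]
  linarith

-- gm_small
theorem gm_small_c {s : ℝ} (hs : |s| ≤ 1 / 2) :
    Real.sqrt (2 * Real.pi) * |s| / Real.sqrt (1 - s ^ 2) ≤ 2 := by
  have h1 : s ^ 2 ≤ 1 / 4 := by
    have := sq_abs s
    nlinarith [abs_nonneg s]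
  have h2 : (1 / 2 : ℝ) ≤ Real.sqrt (1 - s ^ 2) := by
    apply Real.le_sqrt_of_sq_le
    nlinarith
  have h2' : (3 / 4 : ℝ) ≤ Real.sqrt (1 - s ^ 2) := by
    apply Real.le_sqrt_of_sq_le
    nlinarith
  have h3 : Real.sqrt (2 * Real.pi) ≤ 3 := by
    rw [Real.sqrt_le_left (by norm_num)]
    nlinarith [Real.pi_lt_d2]
  rw [div_le_iff₀ (by linarith)]
  have h4 : Real.sqrt (2 * Real.pi) * |s| ≤ 3 * (1 / 2) :=
    mul_le_mul h3 hs (abs_nonneg _) (by norm_num)
  linarith

theorem gm_small {E : Type*} [NormedAddCommGroup E] [InnerProductSpace ℝ E] [CompleteSpace E]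
  [FiniteDimensional ℝ E] [MeasurableSpace E] [BorelSpace E] {n : ℕ}
    (hn : Module.finrank ℝ E = n) (h5 : 5 ≤ n) {s : ℝ} (hs : |s| ≤ 1 / 2) {B : Set (SS E)}
    (hB : MeasurableSet B) :
    ∫ x, |gm s B x - 1 / 2| ∂(sm E) ≤ Real.sqrt n * ‖bar B‖ := by
  have hn1 : 1 ≤ Module.finrank ℝ E := by omega
  haveI := sm_prob (E := E) hn1
  obtain ⟨hb1, -, -⟩ := bar_props hn h5 hB
  obtain ⟨-, -, -, -, hP0, -, hPl, -, -⟩ := PhN_props
  set b : E := bar B with hb
  set c : ℝ := Real.sqrt (2 * Real.pi) * |s| / Real.sqrt (1 - s ^ 2) with hc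
  have hc2 : c ≤ 2 := gm_small_c hs
  have hc0 : 0 ≤ c := by positivity
  have hnpos : (0 : ℝ) < n := by
    have : 0 < n := by omega
    exact_mod_cast this
  have hcont : Continuous (fun x : SS E => ⟪b, (x : E)⟫) :=
    continuous_const.inner continuous_subtype_val
  have hint : ∀ {f : SS E → ℝ}, Continuous f → Integrable f (sm E) := fun hf =>
    hf.integrable_of_hasCompactSupport (HasCompactSupport.of_compactSpace _)
  -- pointwise bound
  have hpt : ∀ x : SS E, |gm s B x - 1 / 2| ≤ c * n / 2 * |⟪b, (x : E)⟫| := by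
    intro x
    unfold gm
    rw [← hP0]
    refine (hPl _ _).trans (le_of_eq ?_)
    rw [sub_zero, abs_div, abs_mul, abs_mul, abs_mul, abs_of_nonneg (Real.sqrt_nonneg _),
      abs_of_nonneg (Real.sqrt_nonneg _), hn, abs_of_pos hnpos, hc, ← hb]
    ring
  have h1 : ∫ x, |gm s B x - 1 / 2| ∂(sm E) ≤ ∫ x, c * n / 2 * |⟪b, (x : E)⟫| ∂(sm E) := by
    refine integral_mono_of_nonneg (Filter.Eventually.of_forall fun x => abs_nonneg _)
      (hint (continuous_const.mul hcont.abs)) (Filter.Eventually.of_forall hpt)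
  rw [integral_const_mul] at h1
  -- second moment
  have h2 : ∫ x, ⟪b, (x : E)⟫ ^ 2 ∂(sm E) = ‖b‖ ^ 2 / n := by
    have := hb1 b b
    rw [real_inner_self_eq_norm_sq] at this
    rw [← this]
    refine integral_congr_ae (Filter.Eventually.of_forall fun x => ?_)
    simp only [sq]
  have h3 : ∫ x, |⟪b, (x : E)⟫| ∂(sm E) ≤ ‖b‖ / Real.sqrt n := by
    set m : ℝ := ‖b‖ / Real.sqrt n with hm
    have hsn : 0 < Real.sqrt n := Real.sqrt_pos.mpr hnpos
    have hm2 : m ^ 2 = ‖b‖ ^ 2 / n := by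
      rw [hm, div_pow, Real.sq_sqrt hnpos.le]
    have hm0 : 0 ≤ m := by positivity
    have h4 : 0 ≤ ∫ x, (|⟪b, (x : E)⟫| - m) ^ 2 ∂(sm E) :=
      integral_nonneg fun x => sq_nonneg _
    have h5' : ∫ x, (|⟪b, (x : E)⟫| - m) ^ 2 ∂(sm E)
        = ∫ x, ⟪b, (x : E)⟫ ^ 2 ∂(sm E) - 2 * m * ∫ x, |⟪b, (x : E)⟫| ∂(sm E) + m ^ 2 := by
      have e : ∀ x : SS E, (|⟪b, (x : E)⟫| - m) ^ 2
          = ⟪b, (x : E)⟫ ^ 2 - 2 * m * |⟪b, (x : E)⟫| + m ^ 2 := by
        intro x
        rw [sub_sq, sq_abs]; ring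
      simp only [e]
      have i1 : Integrable (fun x : SS E => ⟪b, (x : E)⟫ ^ 2) (sm E) := hint (hcont.pow 2)
      have i2 : Integrable (fun x : SS E => 2 * m * |⟪b, (x : E)⟫|) (sm E) :=
        hint (continuous_const.mul hcont.abs)
      have i3 : Integrable (fun x : SS E => ⟪b, (x : E)⟫ ^ 2 - 2 * m * |⟪b, (x : E)⟫|) (sm E) :=
        i1.sub i2
      rw [integral_add i3 (integrable_const _), integral_sub i1 i2, integral_const_mul,
        integral_const]
      simp
    rw [h5', h2, hm2] at h4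
    by_cases hb0 : ‖b‖ = 0
    · have : b = 0 := norm_eq_zero.mp hb0
      rw [hm, this]
      simp
    · have hbp : 0 < ‖b‖ := lt_of_le_of_ne (norm_nonneg _) (Ne.symm hb0)
      have hmp : 0 < m := by positivity
      rw [← hm2] at h4
      by_contra hcon
      push Not at hcon
      nlinarith
  calc ∫ x, |gm s B x - 1 / 2| ∂(sm E) ≤ c * n / 2 * ∫ x, |⟪b, (x : E)⟫| ∂(sm E) := h1
    _ ≤ c * n / 2 * (‖b‖ / Real.sqrt n) := by
        apply mul_le_mul_of_nonneg_left h3
        positivity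
    _ = c / 2 * (Real.sqrt n * ‖b‖) := by
        have hsn : 0 < Real.sqrt n := Real.sqrt_pos.mpr hnpos
        have h6 : (n : ℝ) / Real.sqrt n = Real.sqrt n := Real.div_sqrt
        calc c * n / 2 * (‖b‖ / Real.sqrt n) = c / 2 * (((n : ℝ) / Real.sqrt n) * ‖b‖) := by ring
          _ = _ := by rw [h6]
    _ ≤ 1 * (Real.sqrt n * ‖b‖) := by
        apply mul_le_mul_of_nonneg_right _ (by positivity)
        linarith
    _ = Real.sqrt n * ‖b‖ := one_mul _

-- G0_all
theorem G0_all_tri {F : Type} [NormedAddCommGroup F] [InnerProductSpace ℝ F] [CompleteSpace F]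
    [FiniteDimensional ℝ F] [MeasurableSpace F] [BorelSpace F] (h5 : 5 ≤ Module.finrank ℝ F)
    {s : ℝ} (hs : |s| ≤ 1 / 2) {B : Set (SS F)} (hB : MeasurableSet B) {ε α : ℝ}
    (h1 : ∫ x, |PP s (ind B) x - gm s B x| ∂(sm F) ≤ ε)
    (h2 : Real.sqrt (Module.finrank ℝ F) * ‖bar B‖ ≤ α) :
    ∫ x, |PP s (ind B) x - 1 / 2| ∂(sm F) ≤ ε + α := by
  have := sm_prob (E := F) (by omega)
  have hind : BM (ind B) := by
    refine ⟨measurable_const.indicator hB, 1, fun x => ?_⟩
    unfold ind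
    by_cases hx : x ∈ B <;> simp [hx]
  have hPP : BM (PP s (ind B)) := (PP_basic (by omega) s hind hind).1
  obtain ⟨hPm, C, hC⟩ := hPP
  obtain ⟨-, hPc, hP01, -⟩ := PhN_props
  have hgc : Continuous (gm s B) := by
    unfold gm
    refine hPc.comp ?_
    fun_prop
  have hg01 : ∀ x, |gm s B x| ≤ 1 := fun x => by
    have := hP01 (Real.sqrt (2 * Real.pi) * s * (Module.finrank ℝ F * ⟪bar B, (x : F)⟫)
      / Real.sqrt (1 - s ^ 2))
    rw [abs_le]; unfold gm
    constructor <;> linarith [this.1, this.2]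
  have hi1 : Integrable (fun x => |PP s (ind B) x - gm s B x|) (sm F) := by
    refine Integrable.of_bound ((hPm.sub hgc.measurable).abs.aestronglyMeasurable) (C + 1)
      (Eventually.of_forall fun x => ?_)
    rw [Real.norm_eq_abs, abs_abs]
    exact (abs_sub _ _).trans (add_le_add (hC x) (hg01 x))
  have hi2 : Integrable (fun x => |gm s B x - 1 / 2|) (sm F) := by
    refine Integrable.of_bound ((hgc.sub continuous_const).abs.aestronglyMeasurable) (1 + 1)
      (Eventually.of_forall fun x => ?_)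
    rw [Real.norm_eq_abs, abs_abs]
    exact (abs_sub _ _).trans (add_le_add (hg01 x) (by norm_num [abs_le]))
  have hi3 : Integrable (fun x => |PP s (ind B) x - 1 / 2|) (sm F) := by
    refine Integrable.of_bound ((hPm.sub measurable_const).abs.aestronglyMeasurable) (C + 1)
      (Eventually.of_forall fun x => ?_)
    rw [Real.norm_eq_abs, abs_abs]
    exact (abs_sub _ _).trans (add_le_add (hC x) (by norm_num [abs_le]))
  calc ∫ x, |PP s (ind B) x - 1 / 2| ∂(sm F)
      ≤ ∫ x, (|PP s (ind B) x - gm s B x| + |gm s B x - 1 / 2|) ∂(sm F) :=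
        integral_mono hi3 (hi1.add hi2) fun x => abs_sub_le _ _ _
    _ = ∫ x, |PP s (ind B) x - gm s B x| ∂(sm F) + ∫ x, |gm s B x - 1 / 2| ∂(sm F) :=
        integral_add hi1 hi2
    _ ≤ ε + α := add_le_add h1 ((gm_small rfl h5 hs hB).trans h2)

theorem G0_all_step (t : ℕ) (ht : 3 ≤ t) (hS :
    ∃ ε0 : ℝ, 0 < ε0 ∧ ∃ p0 : ℝ, 0 < p0 ∧ ∃ η : ℝ, 0 < η ∧ ∃ n0 : ℕ, ∀ (E : Type)
    [NormedAddCommGroup E]
    [InnerProductSpace ℝ E] [CompleteSpace E] [FiniteDimensional ℝ E] [MeasurableSpace E]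
    [BorelSpace E], n0 ≤ Module.finrank ℝ E → ∀ s : Fin t → SS E, IsSimp s →
    ∀ B : Set (SS E), MeasurableSet B → (hm E).real {g | ∀ i, sa g (s i) ∈ B} ≤ p0 →
    1 / 2 - η ≤ (sm E).real B →
    (∫ x, |PP (1 / (t - 1 : ℝ)) (ind B) x - 1 / 2| ∂(sm E) ≤ ε0) →
    (∫ x, |PP (-1 / (t - 1 : ℝ)) (ind B) x - 1 / 2| ∂(sm E) ≤ ε0) → False) : G0st t := by
  intro κ hκ
  obtain ⟨ε0, hε0, p1, hp1, η1, hη1, n1, H1⟩ := hS
  obtain ⟨ε1, hε1, η2, hη2, n2, H2⟩ := case_big t ht hκ (half_pos hε0)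
  obtain ⟨p3, hp3, η3, hη3, n3, H3⟩ := profile_V t ht (ε := min (ε0 / 2) ε1)
    (lt_min (half_pos hε0) hε1)
  obtain ⟨p4, hp4, n4, H4⟩ := star_V t ht hε1
  refine ⟨min p1 (min p3 p4), lt_min hp1 (lt_min hp3 hp4), min η1 (min η2 η3),
    lt_min hη1 (lt_min hη2 hη3), max (max n1 n2) (max (max n3 n4) 5), ?_⟩
  intro F _ _ _ _ _ _ hF s hs B hB hprob hη
  have ht3 : (3 : ℝ) ≤ t := by exact_mod_cast ht
  have hn1 : n1 ≤ Module.finrank ℝ F := by omega
  have hn2 : n2 ≤ Module.finrank ℝ F := by omega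
  have hn3 : n3 ≤ Module.finrank ℝ F := by omega
  have hn4 : n4 ≤ Module.finrank ℝ F := by omega
  have hn5 : 5 ≤ Module.finrank ℝ F := by omega
  have hq1 : min p1 (min p3 p4) ≤ p1 := min_le_left _ _
  have hq3 : min p1 (min p3 p4) ≤ p3 := (min_le_right _ _).trans (min_le_left _ _)
  have hq4 : min p1 (min p3 p4) ≤ p4 := (min_le_right _ _).trans (min_le_right _ _)
  have he1 : min η1 (min η2 η3) ≤ η1 := min_le_left _ _
  have he2 : min η1 (min η2 η3) ≤ η2 := (min_le_right _ _).trans (min_le_left _ _)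
  have he3 : min η1 (min η2 η3) ≤ η3 := (min_le_right _ _).trans (min_le_right _ _)
  obtain ⟨h3a, h3b⟩ := H3 F hn3 s hs B hB (hprob.trans hq3) (by linarith)
  have h4 := H4 F hn4 s hs B hB (hprob.trans hq4)
  rcases le_or_gt (ε0 / 2) (Real.sqrt (Module.finrank ℝ F) * ‖bar B‖) with hbig | hsmall
  · exact H2 F hn2 B hB (h3b.trans (min_le_right _ _)) h4 (by linarith) hbig
  · exfalso
    have hR : |1 / (t - 1 : ℝ)| ≤ 1 / 2 := by
      rw [abs_of_pos (by apply div_pos one_pos; linarith)]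
      exact one_div_le_one_div_of_le (by norm_num) (by linarith)
    have hR' : |-1 / (t - 1 : ℝ)| ≤ 1 / 2 := by rwa [neg_div, abs_neg]
    have e : ε0 = ε0 / 2 + ε0 / 2 := by ring
    refine H1 F hn1 s hs B hB (hprob.trans hq1) (by linarith) ?_ ?_
    · rw [e]
      exact G0_all_tri hn5 hR hB (h3a.trans (min_le_left _ _)) hsmall.le
    · rw [e]
      exact G0_all_tri hn5 hR' hB (h3b.trans (min_le_left _ _)) hsmall.le

theorem G0_all (t : ℕ) (ht : 3 ≤ t) : G0st t := by
  induction t, ht using Nat.le_induction with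
  | base =>
    refine G0_all_step 3 le_rfl ?_
    obtain ⟨ε0, hε0, p1, hp1, η1, hη1, n1, H1⟩ := case_small3
    refine ⟨ε0, hε0, p1, hp1, η1, hη1, n1, ?_⟩
    intro F _ _ _ _ _ _ hF s hs B hB hprob hη _ h2
    refine H1 F hF s hs B hB hprob hη ?_
    have e : (-1 / (((3 : ℕ) : ℝ) - 1)) = -1 / 2 := by norm_num
    rwa [e] at h2
  | succ t ht ih =>
    exact G0_all_step (t + 1) (by omega) (case_small (t + 1) (by omega) (by simpa using ih))


end CoreW

end Pool.Agent.helper440_simplex
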