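import Pool.Agent.helper440_simplex.Law

/-! # Polarisation and isoperimetry on the sphere -/

set_option autoImplicit false
set_option linter.unusedSectionVars false

namespace Pool.Agent.helper440_simplex

open MeasureTheory Metric Set Filter Topology
open scoped RealInnerProductSpace BoundedContinuousFunction

section Refl
variable {E : Type*} [NormedAddCommGroup E] [InnerProductSpace ℝ E] [CompleteSpace E]

/-- reflection in the hyperplane orthogonal to `w` -/
noncomputable def hh (w : E) : UG E :=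
  Unitary.linearIsometryEquiv.symm ((Submodule.span ℝ {w})ᗮ).reflection

theorem hh_apply' (w z : E) : av (hh w) z = ((Submodule.span ℝ {w})ᗮ).reflection z := by
  unfold av hh
  rw [Unitary.coe_symm_linearIsometryEquiv_apply]
  rfl

theorem hh_apply (w z : E) : av (hh w) z = z - (2 * ⟪w, z⟫ / ‖w‖ ^ 2) • w := by
  rw [hh_apply', Submodule.reflection_orthogonal_apply, Submodule.reflection_singleton_apply]
  rw [neg_sub, two_smul, ← add_smul]
  congr 2
  simp only [RCLike.ofReal_real_eq_id, id_eq]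
  ring

theorem hh_hh (w z : E) : av (hh w) (av (hh w) z) = z := by
  rw [hh_apply', hh_apply', Submodule.reflection_reflection]

theorem hh_sub {x y : E} (h : ‖x‖ = ‖y‖) : av (hh (x - y)) x = y := by
  rw [hh_apply', Submodule.reflection_sub h]

theorem hh_fix {w z : E} (h : ⟪w, z⟫ = 0) : av (hh w) z = z := by
  rw [hh_apply, h]; simp

theorem hh_inner (w z : E) : ⟪w, av (hh w) z⟫ = - ⟪w, z⟫ := by
  by_cases hw : w = 0
  · simp [hw]
  · have : ‖w‖ ≠ 0 := norm_ne_zero_iff.2 hw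
    rw [hh_apply, inner_sub_right, real_inner_smul_right, real_inner_self_eq_norm_sq]
    field_simp
    ring

theorem hh_sa (w : E) (z : SS E) : sa (hh w) (sa (hh w) z) = z :=
  Subtype.ext (by rw [sa_coe, sa_coe, hh_hh])

theorem hh_sa_sub {x y : SS E} : sa (hh ((x : E) - y)) x = y :=
  Subtype.ext (by
    rw [sa_coe, hh_sub]
    rw [norm_eq_of_mem_sphere x, norm_eq_of_mem_sphere y])

theorem hh_sa_fix {w : E} {z : SS E} (h : ⟪w, (z : E)⟫ = 0) : sa (hh w) z = z :=
  Subtype.ext (by rw [sa_coe, hh_fix h])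

theorem sa_norm_sub (g : UG E) (x y : SS E) : ‖(sa g x : E) - sa g y‖ = ‖(x : E) - y‖ := by
  rw [sa_coe, sa_coe, ← av_sub, av_norm]

/-- reflecting to the same side decreases distances -/
theorem hh_closer {w : E} {z z' : SS E} (h : 0 ≤ ⟪w, (z : E)⟫) (h' : ⟪w, (z' : E)⟫ ≤ 0) :
    ‖(z : E) - sa (hh w) z'‖ ≤ ‖(z : E) - z'‖ := by
  have h1 : ‖(z : E) - sa (hh w) z'‖ ^ 2 ≤ ‖(z : E) - z'‖ ^ 2 := by
    rw [norm_sub_sq_real, norm_sub_sq_real, norm_eq_of_mem_sphere z, norm_eq_of_mem_sphere z',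
      norm_eq_of_mem_sphere (sa (hh w) z'), sa_coe, hh_apply, inner_sub_right,
      real_inner_smul_right, real_inner_comm w (z : E)]
    have h2 : 2 * ⟪w, (z' : E)⟫ / ‖w‖ ^ 2 * ⟪w, (z : E)⟫ ≤ 0 := by
      apply mul_nonpos_of_nonpos_of_nonneg _ h
      apply div_nonpos_of_nonpos_of_nonneg (by linarith) (by positivity)
    linarith
  exact (pow_le_pow_iff_left₀ (norm_nonneg _) (norm_nonneg _) two_ne_zero).1 h1

/-- polarisation of a function -/
noncomputable def pol (w : E) (f : SS E → ℝ) (z : SS E) : ℝ :=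
  if 0 ≤ ⟪w, (z : E)⟫ then max (f z) (f (sa (hh w) z)) else min (f z) (f (sa (hh w) z))

theorem max_min_aux {a b a' b' d : ℝ} (h1 : |a - a'| ≤ d) (h2 : |a - b'| ≤ d) (h3 : |b - a'| ≤ d)
    (h4 : |b - b'| ≤ d) : |max a b - min a' b'| ≤ d := by
  rcases max_cases a b with ⟨e, _⟩ | ⟨e, _⟩ <;> rcases min_cases a' b' with ⟨e', _⟩ | ⟨e', _⟩ <;>
    rw [e, e'] <;> assumption

theorem pol_lip {w : E} {f : SS E → ℝ} {L : ℝ} (hL : 0 ≤ L)
    (hf : ∀ x y : SS E, |f x - f y| ≤ L * ‖(x : E) - y‖) (x y : SS E) :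
    |pol w f x - pol w f y| ≤ L * ‖(x : E) - y‖ := by
  have key : ∀ x y : SS E, 0 ≤ ⟪w, (x : E)⟫ → ⟪w, (y : E)⟫ < 0 →
      |max (f x) (f (sa (hh w) x)) - min (f y) (f (sa (hh w) y))| ≤ L * ‖(x : E) - y‖ := by
    intro x y hx hy
    have h1 := hh_closer hx hy.le
    have h2 : ‖(sa (hh w) x : E) - y‖ = ‖(x : E) - sa (hh w) y‖ := by
      rw [← sa_norm_sub (hh w) (sa (hh w) x) y, hh_sa]
    refine max_min_aux (hf x y) ?_ ?_ ?_
    · exact (hf _ _).trans (mul_le_mul_of_nonneg_left h1 hL)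
    · refine (hf _ _).trans (mul_le_mul_of_nonneg_left ?_ hL)
      rw [h2]; exact h1
    · refine (hf _ _).trans (mul_le_mul_of_nonneg_left ?_ hL)
      rw [sa_norm_sub]
  have h2 : |f (sa (hh w) x) - f (sa (hh w) y)| ≤ L * ‖(x : E) - y‖ := by
    rw [← sa_norm_sub (hh w) x y]; exact hf _ _
  unfold pol
  by_cases hx : 0 ≤ ⟪w, (x : E)⟫ <;> by_cases hy : 0 ≤ ⟪w, (y : E)⟫
  · rw [if_pos hx, if_pos hy]
    exact (abs_max_sub_max_le_max _ _ _ _).trans (max_le (hf x y) h2)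
  · rw [if_pos hx, if_neg hy]
    exact key x y hx (not_le.1 hy)
  · rw [if_neg hx, if_pos hy, abs_sub_comm, norm_sub_rev]
    exact key y x hy (not_le.1 hx)
  · rw [if_neg hx, if_neg hy]
    exact (abs_min_sub_min_le_max _ _ _ _).trans (max_le (hf x y) h2)

theorem pol_pair (w : E) (f : SS E → ℝ) (ψ : ℝ → ℝ) (z : SS E) :
    ψ (pol w f z) + ψ (pol w f (sa (hh w) z)) = ψ (f z) + ψ (f (sa (hh w) z)) := by
  have h1 : ⟪w, (sa (hh w) z : E)⟫ = - ⟪w, (z : E)⟫ := by rw [sa_coe, hh_inner]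
  rcases lt_trichotomy ⟪w, (z : E)⟫ 0 with h | h | h
  · have e1 : pol w f z = min (f z) (f (sa (hh w) z)) := by
      unfold pol; rw [if_neg (not_le.2 h)]
    have e2 : pol w f (sa (hh w) z) = max (f (sa (hh w) z)) (f z) := by
      unfold pol; rw [h1, if_pos (by linarith), hh_sa]
    rw [e1, e2]
    rcases le_total (f z) (f (sa (hh w) z)) with h2 | h2
    · rw [min_eq_left h2, max_eq_left h2]
    · rw [min_eq_right h2, max_eq_right h2]; ring
  · have e1 : pol w f z = f z := by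
      unfold pol; rw [if_pos h.symm.le, hh_sa_fix h, max_self]
    rw [hh_sa_fix h, e1]
  · have e1 : pol w f z = max (f z) (f (sa (hh w) z)) := by
      unfold pol; rw [if_pos h.le]
    have e2 : pol w f (sa (hh w) z) = min (f (sa (hh w) z)) (f z) := by
      unfold pol; rw [h1, if_neg (by linarith), hh_sa]
    rw [e1, e2]
    rcases le_total (f z) (f (sa (hh w) z)) with h2 | h2
    · rw [min_eq_right h2, max_eq_right h2]; ring
    · rw [min_eq_left h2, max_eq_left h2]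

theorem pol_mem {w : E} {f : SS E → ℝ} {M : ℝ} (hf : ∀ x, f x ∈ Icc (-M) M) (x : SS E) :
    pol w f x ∈ Icc (-M) M := by
  unfold pol
  split_ifs
  · rcases max_cases (f x) (f (sa (hh w) x)) with ⟨e, _⟩ | ⟨e, _⟩ <;> rw [e] <;> exact hf _
  · rcases min_cases (f x) (f (sa (hh w) x)) with ⟨e, _⟩ | ⟨e, _⟩ <;> rw [e] <;> exact hf _

theorem pol_sign (w : E) (f : SS E → ℝ) (z : SS E) :
    0 ≤ (pol w f z - f z) * ⟪w, (z : E)⟫ := by
  unfold pol
  split_ifs with h
  · exact mul_nonneg (sub_nonneg.2 (le_max_left _ _)) h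
  · exact mul_nonneg_of_nonpos_of_nonpos (sub_nonpos.2 (min_le_left _ _)) (not_le.1 h).le

theorem cont_of_lip {f : SS E → ℝ} {L : ℝ}
    (hf : ∀ x y : SS E, |f x - f y| ≤ L * ‖(x : E) - y‖) : Continuous f := by
  have : LipschitzWith (Real.toNNReal L) f := by
    refine LipschitzWith.of_dist_le_mul fun x y => ?_
    rw [Real.dist_eq, Subtype.dist_eq, dist_eq_norm]
    exact (hf x y).trans (mul_le_mul_of_nonneg_right (Real.le_coe_toNNReal L) (norm_nonneg _))
  exact this.continuous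

end Refl

section Rearr
variable {E : Type*} [NormedAddCommGroup E] [InnerProductSpace ℝ E] [CompleteSpace E]
  [FiniteDimensional ℝ E]

/-- Lipschitz functions with a given law -/
def LF (L M : ℝ) (x0 : SS E) (f : SS E → ℝ) : Set (SS E →ᵇ ℝ) :=
  {u | (∀ x y : SS E, |u x - u y| ≤ L * ‖(x : E) - y‖) ∧ (∀ x, u x ∈ Icc (-M) M) ∧
    ∀ ψ : ℝ →ᵇ ℝ, ∫ g, ψ (u (sa g x0)) ∂(hm E) = ∫ g, ψ (f (sa g x0)) ∂(hm E)}

theorem cont_int (x0 : SS E) (ψ : ℝ →ᵇ ℝ) :
    Continuous (fun u : SS E →ᵇ ℝ => ∫ g, ψ (u (sa g x0)) ∂(hm E)) := by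
  refine continuous_of_dominated (bound := fun _ => ‖ψ‖) (fun u => ?_) (fun u => ?_)
    (integrable_const _) ?_
  · exact (ψ.continuous.comp (u.continuous.comp (sa_continuous_left x0))).aestronglyMeasurable
  · exact Eventually.of_forall fun g => ψ.norm_coe_le_norm _
  · refine Eventually.of_forall fun g => ψ.continuous.comp ?_
    exact (continuous_apply (sa g x0)).comp BoundedContinuousFunction.continuous_coe

theorem LF_closed (L M : ℝ) (x0 : SS E) (f : SS E → ℝ) : IsClosed (LF L M x0 f) := by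
  have hev : ∀ x : SS E, Continuous (fun u : SS E →ᵇ ℝ => u x) := fun x =>
    (continuous_apply x).comp BoundedContinuousFunction.continuous_coe
  have e : LF L M x0 f = (⋂ x : SS E, ⋂ y : SS E, {u : SS E →ᵇ ℝ | |u x - u y| ≤ L * ‖(x : E) - y‖})
      ∩ (⋂ x : SS E, {u : SS E →ᵇ ℝ | u x ∈ Icc (-M) M})
      ∩ (⋂ ψ : ℝ →ᵇ ℝ, {u : SS E →ᵇ ℝ | ∫ g, ψ (u (sa g x0)) ∂(hm E)
          = ∫ g, ψ (f (sa g x0)) ∂(hm E)}) := by
    ext u
    simp only [LF, mem_ofPred_eq, mem_inter_iff, mem_iInter, and_assoc]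
  rw [e]
  refine (IsClosed.inter (isClosed_iInter fun x => isClosed_iInter fun y => ?_)
    (isClosed_iInter fun x => ?_)).inter (isClosed_iInter fun ψ => ?_)
  · exact isClosed_le (((hev x).sub (hev y)).abs) continuous_const
  · exact isClosed_Icc.preimage (hev x)
  · exact isClosed_eq (cont_int x0 ψ) continuous_const

theorem LF_compact (L M : ℝ) (x0 : SS E) (f : SS E → ℝ) : IsCompact (LF L M x0 f) := by
  refine BoundedContinuousFunction.arzela_ascoli₂ (Icc (-M) M) isCompact_Icc _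
    (LF_closed L M x0 f) (fun u x hu => hu.2.1 x) ?_
  refine (LipschitzWith.uniformEquicontinuous _ (Real.toNNReal L) ?_).equicontinuous
  rintro ⟨u, hu⟩
  refine LipschitzWith.of_dist_le_mul fun x y => ?_
  rw [Real.dist_eq, Subtype.dist_eq, dist_eq_norm]
  exact (hu.1 x y).trans (mul_le_mul_of_nonneg_right (Real.le_coe_toNNReal L) (norm_nonneg _))

/-- the law of a polarised function -/
theorem pol_law (w : E) {f : SS E → ℝ} (hf : Continuous f) (hp : Continuous (pol w f))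
    (x0 : SS E) (ψ : ℝ →ᵇ ℝ) :
    ∫ g, ψ (pol w f (sa g x0)) ∂(hm E) = ∫ g, ψ (f (sa g x0)) ∂(hm E) := by
  have hi : ∀ u : SS E → ℝ, Continuous u → ∀ h : UG E,
      Integrable (fun g => ψ (u (sa (h * g) x0))) (hm E) := fun u hu h =>
    hm_integrable (ψ.continuous.comp (hu.comp ((sa_continuous_left x0).comp
      (continuous_const.mul continuous_id))))
  have e1 := hm_int_left (hh w) (fun g => ψ (pol w f (sa g x0)))
  have e2 := hm_int_left (hh w) (fun g => ψ (f (sa g x0)))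
  have i1 := hi _ hp (hh w)
  have i2 := hi _ hf (hh w)
  have i3 := hi _ hp 1
  have i4 := hi _ hf 1
  simp only [one_mul] at i3 i4
  have e3 : ∫ g, (ψ (pol w f (sa g x0)) + ψ (pol w f (sa (hh w * g) x0))) ∂(hm E)
      = ∫ g, (ψ (f (sa g x0)) + ψ (f (sa (hh w * g) x0))) ∂(hm E) := by
    congr 1
    funext g
    rw [sa_mul]
    exact pol_pair w f ψ _
  rw [integral_add i3 i1, integral_add i4 i2, e1, e2] at e3
  linarith

/-- rearrangement: a Lipschitz function with the same law, monotone in the height -/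
theorem rearr (hn : 1 ≤ Module.finrank ℝ E) {L M : ℝ} (hL : 0 ≤ L) (v : E) (x0 : SS E)
    {f : SS E → ℝ}
    (hf : ∀ x y : SS E, |f x - f y| ≤ L * ‖(x : E) - y‖) (hfM : ∀ x, f x ∈ Icc (-M) M) :
    ∃ u : SS E → ℝ, (∀ x y : SS E, |u x - u y| ≤ L * ‖(x : E) - y‖) ∧
      (∀ x, u x ∈ Icc (-M) M) ∧
      (∀ ψ : ℝ →ᵇ ℝ, ∫ g, ψ (u (sa g x0)) ∂(hm E) = ∫ g, ψ (f (sa g x0)) ∂(hm E)) ∧
      ∀ x y : SS E, ⟪v, (y : E)⟫ < ⟪v, (x : E)⟫ → u y ≤ u x := by
  set J : (SS E →ᵇ ℝ) → ℝ := fun u => ∫ g, max (-M) (min M (u (sa g x0))) * ⟪v, (sa g x0 : E)⟫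
    ∂(hm E) with hJ
  have hvc : ∀ x : SS E, Continuous (fun g : UG E => ⟪v, (sa g x : E)⟫) := fun x =>
    continuous_const.inner (continuous_subtype_val.comp (sa_continuous_left x))
  have hvb : ∀ x : SS E, |⟪v, (x : E)⟫| ≤ ‖v‖ := by
    intro x
    have := abs_real_inner_le_norm v (x : E)
    rwa [norm_eq_of_mem_sphere x, mul_one] at this
  have hM : -M ≤ M := (hfM x0).1.trans (hfM x0).2
  have hclamp : ∀ r : ℝ, |max (-M) (min M r)| ≤ M := by
    intro r
    rw [abs_le]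
    exact ⟨le_max_left _ _, max_le hM (min_le_left _ _)⟩
  have hJc : Continuous J := by
    refine continuous_of_dominated (bound := fun _ => M * ‖v‖) (fun u => ?_) (fun u => ?_)
      (integrable_const _) ?_
    · exact ((continuous_const.max (continuous_const.min
        (u.continuous.comp (sa_continuous_left x0)))).mul (hvc x0)).aestronglyMeasurable
    · refine Eventually.of_forall fun g => ?_
      rw [Real.norm_eq_abs, abs_mul]
      exact mul_le_mul (hclamp _) (hvb _) (abs_nonneg _) ((abs_nonneg _).trans (hclamp 0))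
    · refine Eventually.of_forall fun g => ?_
      refine (continuous_const.max (continuous_const.min ?_)).mul continuous_const
      exact (continuous_apply (sa g x0)).comp BoundedContinuousFunction.continuous_coe
  have hne : (LF L M x0 f).Nonempty :=
    ⟨BoundedContinuousFunction.mkOfCompact ⟨f, cont_of_lip hf⟩, hf, hfM, fun ψ => rfl⟩
  obtain ⟨u, hu, hmax⟩ := (LF_compact L M x0 f).exists_isMaxOn hne hJc.continuousOn
  refine ⟨u, hu.1, hu.2.1, hu.2.2, fun x y hxy => ?_⟩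
  by_contra hcon
  push Not at hcon
  set w : E := (x : E) - y with hw
  have hwv : 0 < ⟪w, v⟫ := by
    rw [hw, real_inner_comm, inner_sub_right]; linarith
  have hw0 : 0 < ‖w‖ := by
    rw [norm_pos_iff]; rintro h; rw [h, inner_zero_left] at hwv; exact lt_irrefl _ hwv
  have hplip := pol_lip (w := w) hL hu.1
  have hpc : Continuous (pol w u) := cont_of_lip hplip
  have hpM := pol_mem (w := w) hu.2.1
  set u' : SS E →ᵇ ℝ := BoundedContinuousFunction.mkOfCompact ⟨pol w u, hpc⟩ with hu'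
  have hu'mem : u' ∈ LF L M x0 f := by
    refine ⟨hplip, hpM, fun ψ => ?_⟩
    rw [← hu.2.2 ψ]
    exact pol_law w u.continuous hpc x0 ψ
  have hle : J u' ≤ J u := hmax hu'mem
  have hJe : ∀ q : SS E →ᵇ ℝ, (∀ x, q x ∈ Icc (-M) M) →
      J q = ∫ g, q (sa g x0) * ⟪v, (sa g x0 : E)⟫ ∂(hm E) := by
    intro q hq
    simp only [hJ]
    congr 1
    funext g
    have := hq (sa g x0)
    rw [min_eq_right this.2, max_eq_right this.1]
  rw [hJe u' hpM, hJe u hu.2.1] at hle
  -- symmetrised integrals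
  have hfl : ∀ q : SS E →ᵇ ℝ, ∀ h : UG E,
      Integrable (fun g => q (sa (h * g) x0) * ⟪v, (sa (h * g) x0 : E)⟫) (hm E) := by
    intro q h
    have hc : Continuous (fun g : UG E => sa (h * g) x0) :=
      (sa_continuous_left x0).comp (continuous_const.mul continuous_id)
    exact hm_integrable ((q.continuous.comp hc).mul
      (continuous_const.inner (continuous_subtype_val.comp hc)))
  have e1 := hm_int_left (hh w) (fun g => u' (sa g x0) * ⟪v, (sa g x0 : E)⟫)
  have e2 := hm_int_left (hh w) (fun g => u (sa g x0) * ⟪v, (sa g x0 : E)⟫)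
  have i1 := hfl u' (hh w)
  have i2 := hfl u (hh w)
  have i3 := hfl u' 1
  have i4 := hfl u 1
  simp only [one_mul] at i3 i4
  set KK' : SS E → ℝ := fun z => (pol w u z - u z) * (⟪v, (z : E)⟫ - ⟪v, (sa (hh w) z : E)⟫)
    with hKK
  have hdiff : ∀ z : SS E, ⟪v, (z : E)⟫ - ⟪v, (sa (hh w) z : E)⟫
      = 2 * ⟪w, (z : E)⟫ / ‖w‖ ^ 2 * ⟪w, v⟫ := by
    intro z
    rw [sa_coe, hh_apply, inner_sub_right, real_inner_smul_right, real_inner_comm w v]
    ring
  have hKnn : ∀ z, 0 ≤ KK' z := by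
    intro z
    have h1 := pol_sign w u z
    simp only [hKK]
    rw [hdiff]
    have : (pol w u z - u z) * (2 * ⟪w, (z : E)⟫ / ‖w‖ ^ 2 * ⟪w, v⟫)
        = ((pol w u z - u z) * ⟪w, (z : E)⟫) * (2 * ⟪w, v⟫ / ‖w‖ ^ 2) := by ring
    rw [this]
    exact mul_nonneg h1 (by positivity)
  have hKc : Continuous KK' := by
    refine (hpc.sub u.continuous).mul ?_
    exact (continuous_const.inner continuous_subtype_val).sub
      (continuous_const.inner (continuous_subtype_val.comp (sa_continuous_right _)))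
  have hKx : 0 < KK' x := by
    simp only [hKK]
    have hwx : 0 < ⟪w, (x : E)⟫ := by
      have h1 : ⟪w, (x : E)⟫ - ⟪w, (y : E)⟫ = ‖w‖ ^ 2 := by
        rw [← inner_sub_right, ← real_inner_self_eq_norm_sq]
      have h2 : ⟪w, (y : E)⟫ = - ⟪w, (x : E)⟫ := by
        rw [hw, inner_sub_left, inner_sub_left, real_inner_self_eq_norm_sq,
          real_inner_self_eq_norm_sq, norm_eq_of_mem_sphere x, norm_eq_of_mem_sphere y,
          real_inner_comm (x : E) (y : E)]
        ring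
      have h3 : 0 < ‖w‖ ^ 2 := by positivity
      linarith
    refine mul_pos ?_ ?_
    · unfold pol
      rw [if_pos hwx.le, hw, hh_sa_sub]
      have := le_max_right (u x) (u y)
      linarith
    · rw [hdiff]; positivity
  have hKi : ∀ h : UG E, Integrable (fun g : UG E => KK' (sa g x0)) (hm E) := fun _ =>
    hm_integrable (hKc.comp (sa_continuous_left x0))
  have e3 : ∫ g, (u' (sa g x0) * ⟪v, (sa g x0 : E)⟫
        + u' (sa (hh w * g) x0) * ⟪v, (sa (hh w * g) x0 : E)⟫) ∂(hm E)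
      = ∫ g, (u (sa g x0) * ⟪v, (sa g x0 : E)⟫
        + u (sa (hh w * g) x0) * ⟪v, (sa (hh w * g) x0 : E)⟫) ∂(hm E)
        + ∫ g, KK' (sa g x0) ∂(hm E) := by
    have i5 : Integrable (fun g => u (sa g x0) * ⟪v, (sa g x0 : E)⟫
        + u (sa (hh w * g) x0) * ⟪v, (sa (hh w * g) x0 : E)⟫) (hm E) := i4.add i2
    rw [← integral_add i5 (hKi 1)]
    congr 1
    funext g
    rw [sa_mul]
    have h1 := pol_pair w u id (sa g x0)
    simp only [id] at h1
    have h2 : ∀ z, u' z = pol w u z := fun z => rfl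
    simp only [h2, hKK]
    have h3 : pol w u (sa (hh w) (sa g x0))
        = u (sa g x0) + u (sa (hh w) (sa g x0)) - pol w u (sa g x0) := by linarith
    rw [h3]
    ring
  rw [integral_add i3 i1, integral_add i4 i2, e1, e2] at e3
  have hpos : 0 < ∫ g, KK' (sa g x0) ∂(hm E) := by
    obtain ⟨g, hg⟩ := sa_trans hn x0 x
    refine (hKc.comp (sa_continuous_left x0)).integral_pos_of_hasCompactSupport_nonneg_nonzero
      (HasCompactSupport.of_compactSpace _) (fun g => hKnn _) (x := g) ?_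
    show KK' (sa g x0) ≠ 0
    rw [hg]
    exact hKx.ne'
  linarith

theorem law_eq {x0 : SS E} {u f : SS E → ℝ} (hu : Continuous u) (hf : Continuous f)
    (h : ∀ ψ : ℝ →ᵇ ℝ, ∫ g, ψ (u (sa g x0)) ∂(hm E) = ∫ g, ψ (f (sa g x0)) ∂(hm E))
    {s : Set ℝ} (hs : MeasurableSet s) :
    (hm E).real {g | u (sa g x0) ∈ s} = (hm E).real {g | f (sa g x0) ∈ s} := by
  have mu : Measurable (fun g : UG E => u (sa g x0)) :=
    (hu.comp (sa_continuous_left x0)).measurable
  have mf : Measurable (fun g : UG E => f (sa g x0)) :=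
    (hf.comp (sa_continuous_left x0)).measurable
  have p1 : IsProbabilityMeasure ((hm E).map (fun g : UG E => u (sa g x0))) :=
    Measure.isProbabilityMeasure_map mu.aemeasurable
  have p2 : IsProbabilityMeasure ((hm E).map (fun g : UG E => f (sa g x0))) :=
    Measure.isProbabilityMeasure_map mf.aemeasurable
  have e : (hm E).map (fun g : UG E => u (sa g x0)) = (hm E).map (fun g : UG E => f (sa g x0)) := by
    apply ext_of_forall_integral_eq_of_IsFiniteMeasure
    intro ψ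
    rw [integral_map mu.aemeasurable ψ.continuous.aestronglyMeasurable,
      integral_map mf.aemeasurable ψ.continuous.aestronglyMeasurable]
    exact h ψ
  have e2 := congrArg (fun m => m.real s) e
  simp only [map_measureReal_apply mu hs, map_measureReal_apply mf hs] at e2
  exact e2

theorem cap_near (v y : SS E) {a b c0 δ : ℝ} (ha : |a| ≤ c0) (hb : |b| ≤ c0) (hc0 : c0 ≤ 1 / 2)
    (hab : 0 ≤ a + b) (hδ : (a + b) * (1 + c0 ^ 2) ≤ δ) (hy : -b ≤ ⟪(v : E), y⟫) :
    ∃ x : SS E, a ≤ ⟪(v : E), x⟫ ∧ ‖(x : E) - y‖ ≤ δ := by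
  have hδ0 : 0 ≤ δ := le_trans (by positivity) hδ
  set s := ⟪(v : E), (y : E)⟫ with hs
  rcases le_or_gt a s with h | h
  · exact ⟨y, h, by simpa using hδ0⟩
  have ha' := abs_le.1 ha
  have hb' := abs_le.1 hb
  have hs1 : |s| ≤ c0 := by rw [abs_le]; constructor <;> linarith
  have hs1' := abs_le.1 hs1
  have hc00 : 0 ≤ c0 := (abs_nonneg _).trans ha
  have hsq : s ^ 2 ≤ 1 / 4 := by nlinarith
  have haq : a ^ 2 ≤ 1 / 4 := by nlinarith
  have hv : ‖(v : E)‖ = 1 := norm_eq_of_mem_sphere v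
  have hyn : ‖(y : E)‖ = 1 := norm_eq_of_mem_sphere y
  set p := Real.sqrt (1 - a ^ 2) with hp
  set q := Real.sqrt (1 - s ^ 2) with hq
  have hp2 : p ^ 2 = 1 - a ^ 2 := Real.sq_sqrt (by linarith)
  have hq2 : q ^ 2 = 1 - s ^ 2 := Real.sq_sqrt (by linarith)
  have hp0 : 0 < p := Real.sqrt_pos.2 (by linarith)
  have hq0 : 0 < q := Real.sqrt_pos.2 (by linarith)
  set z : E := (p / q) • ((y : E) - s • (v : E)) + a • (v : E) with hz
  have hvy : ⟪(v : E), (y : E) - s • (v : E)⟫ = 0 := by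
    rw [inner_sub_right, real_inner_smul_right, real_inner_self_eq_norm_sq, hv, ← hs]; ring
  have hny : ‖(y : E) - s • (v : E)‖ ^ 2 = q ^ 2 := by
    rw [norm_sub_sq_real, norm_smul, hyn, hv, real_inner_smul_right,
      real_inner_comm (v : E) (y : E), ← hs, hq2, Real.norm_eq_abs, mul_one, sq_abs]
    ring
  have hvz : ⟪(v : E), z⟫ = a := by
    rw [hz, inner_add_right, real_inner_smul_right, hvy, real_inner_smul_right,
      real_inner_self_eq_norm_sq, hv]
    ring
  have hzn : ‖z‖ ^ 2 = 1 := by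
    rw [hz, norm_add_sq_real, norm_smul, norm_smul, hv, real_inner_smul_left,
      real_inner_smul_right, real_inner_comm (v : E) _, hvy, mul_pow, hny, Real.norm_eq_abs,
      Real.norm_eq_abs, sq_abs, mul_one, sq_abs]
    field_simp
    linear_combination q * hp2
  have hzm : z ∈ SS E := by
    rw [mem_sphere_zero_iff_norm]
    nlinarith [norm_nonneg z]
  refine ⟨⟨z, hzm⟩, hvz.ge, ?_⟩
  show ‖z - y‖ ≤ δ
  have hd : ‖z - y‖ ^ 2 = (a - s) ^ 2 + (p - q) ^ 2 := by
    have e1 : z - y = ((p - q) / q) • ((y : E) - s • (v : E)) + (a - s) • (v : E) := by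
      rw [hz]
      have : (p - q) / q = p / q - 1 := by field_simp
      rw [this, sub_smul, sub_smul, one_smul]
      abel
    rw [e1, norm_add_sq_real, norm_smul, norm_smul, hv, real_inner_smul_left,
      real_inner_smul_right, real_inner_comm (v : E) _, hvy, mul_pow, hny, Real.norm_eq_abs,
      Real.norm_eq_abs, sq_abs, mul_one, sq_abs]
    field_simp
    ring
  have hpq : (p - q) ^ 2 ≤ (a - s) ^ 2 * (4 / 3 * c0 ^ 2) := by
    have e1 : (p - q) * (p + q) = -((a - s) * (a + s)) := by ring_nf; rw [hp2, hq2]; ring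
    have e2 : 3 ≤ (p + q) ^ 2 := by
      have f1 : (3 / 4 : ℝ) ^ 2 ≤ (p * q) ^ 2 := by
        rw [mul_pow, hp2, hq2]
        calc (3 / 4 : ℝ) ^ 2 = 3 / 4 * (3 / 4) := by ring
          _ ≤ _ := mul_le_mul (by linarith) (by linarith) (by norm_num) (by linarith)
      have f2 : 3 / 4 ≤ p * q :=
        (pow_le_pow_iff_left₀ (by norm_num) (by positivity) two_ne_zero).1 f1
      have f3 : (p + q) ^ 2 = p ^ 2 + q ^ 2 + 2 * (p * q) := by ring
      rw [f3, hp2, hq2]
      linarith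
    have e3 : (a + s) ^ 2 ≤ 4 * c0 ^ 2 := by
      have : (a + s) ^ 2 ≤ (2 * c0) ^ 2 := by apply sq_le_sq' <;> linarith
      linarith [this, (by ring : (2 * c0) ^ 2 = 4 * c0 ^ 2)]
    have e4 : (p - q) ^ 2 * (p + q) ^ 2 = (a - s) ^ 2 * (a + s) ^ 2 := by
      rw [← mul_pow, e1]; ring
    have e5 : (p - q) ^ 2 * 3 ≤ (p - q) ^ 2 * (p + q) ^ 2 :=
      mul_le_mul_of_nonneg_left e2 (sq_nonneg _)
    have e6 : (a - s) ^ 2 * (a + s) ^ 2 ≤ (a - s) ^ 2 * (4 * c0 ^ 2) :=
      mul_le_mul_of_nonneg_left e3 (sq_nonneg _)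
    linarith
  have h1 : ‖z - y‖ ^ 2 ≤ δ ^ 2 := by
    rw [hd]
    have e1 : (a - s) ^ 2 ≤ (a + b) ^ 2 := by
      apply sq_le_sq' <;> linarith
    have e2 : ((a + b) * (1 + c0 ^ 2)) ^ 2 ≤ δ ^ 2 :=
      pow_le_pow_left₀ (by positivity) hδ 2
    have e3 : (a - s) ^ 2 * (1 + 4 / 3 * c0 ^ 2) ≤ (a + b) ^ 2 * (1 + c0 ^ 2) ^ 2 := by
      refine mul_le_mul e1 ?_ (by positivity) (by positivity)
      have : (1 + c0 ^ 2) ^ 2 = 1 + 2 * c0 ^ 2 + (c0 ^ 2) ^ 2 := by ring
      rw [this]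
      have f1 : 0 ≤ c0 ^ 2 := sq_nonneg _
      have f2 : 0 ≤ (c0 ^ 2) ^ 2 := sq_nonneg _
      linarith
    have e4 : ((a + b) * (1 + c0 ^ 2)) ^ 2 = (a + b) ^ 2 * (1 + c0 ^ 2) ^ 2 := by ring
    have e5 : (a - s) ^ 2 * (1 + 4 / 3 * c0 ^ 2)
        = (a - s) ^ 2 + (a - s) ^ 2 * (4 / 3 * c0 ^ 2) := by ring
    linarith
  exact (pow_le_pow_iff_left₀ (norm_nonneg _) hδ0 two_ne_zero).1 h1

/-- isoperimetry -/
theorem iso (hn : 1 ≤ Module.finrank ℝ E) (v x0 : SS E) {K : Set (SS E)} (hKc : IsClosed K)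
    (hKne : K.Nonempty) {a b c0 δ : ℝ} (ha : |a| ≤ c0) (hb : |b| ≤ c0) (hc0 : c0 ≤ 1 / 2)
    (hab : 0 ≤ a + b) (hδ : (a + b) * (1 + c0 ^ 2) ≤ δ)
    (hK : (hm E).real {g | a ≤ ⟪(v : E), (sa g x0 : E)⟫} < (hm E).real {g | sa g x0 ∈ K}) :
    (hm E).real {g | -b ≤ ⟪(v : E), (sa g x0 : E)⟫}
      ≤ (hm E).real {g | infDist (sa g x0) K ≤ δ} := by
  set f : SS E → ℝ := fun x => - infDist x K with hf
  have hfl : ∀ x y : SS E, |f x - f y| ≤ 1 * ‖(x : E) - y‖ := by
    intro x y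
    have h1 := (lipschitz_infDist_pt K).dist_le_mul x y
    rw [Real.dist_eq, Subtype.dist_eq, dist_eq_norm] at h1
    simp only [hf]
    rw [neg_sub_neg, abs_sub_comm]
    simpa using h1
  have hfM : ∀ x, f x ∈ Icc (-2 : ℝ) 2 := by
    intro x
    obtain ⟨k, hk⟩ := hKne
    have h1 := infDist_le_dist_of_mem (x := x) hk
    have h2 : dist x k ≤ 2 := by
      rw [Subtype.dist_eq, dist_eq_norm]
      refine (norm_sub_le _ _).trans ?_
      rw [norm_eq_of_mem_sphere x, norm_eq_of_mem_sphere k]; norm_num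
    have h3 : 0 ≤ infDist x K := infDist_nonneg
    constructor <;> simp only [hf] <;> linarith
  obtain ⟨u, hul, -, hlaw, hmono⟩ := rearr hn zero_le_one (v : E) x0 hfl hfM
  have huc := cont_of_lip hul
  have hfc := cont_of_lip hfl
  have e1 := law_eq huc hfc hlaw (s := Ici 0) measurableSet_Ici
  have e2 := law_eq huc hfc hlaw (s := Ici (-δ)) measurableSet_Ici
  have hK2 : {g : UG E | f (sa g x0) ∈ Ici (0 : ℝ)} = {g | sa g x0 ∈ K} := by
    ext g
    simp only [mem_ofPred_eq, mem_Ici, hf]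
    rw [Left.nonneg_neg_iff, ← hKc.mem_iff_infDist_zero hKne |>.symm]
    constructor
    · intro h
      exact le_antisymm h infDist_nonneg
    · intro h; exact h.le
  have hK3 : {g : UG E | f (sa g x0) ∈ Ici (-δ)} = {g | infDist (sa g x0) K ≤ δ} := by
    ext g
    simp only [mem_ofPred_eq, mem_Ici, hf, neg_le_neg_iff]
  rw [hK2] at e1
  rw [hK3] at e2
  rw [← e1] at hK
  rw [← e2]
  obtain ⟨g0, hg0, hg0'⟩ : ∃ g : UG E, 0 ≤ u (sa g x0) ∧ ⟪(v : E), (sa g x0 : E)⟫ < a := by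
    by_contra hcon
    push Not at hcon
    have : (hm E).real {g | u (sa g x0) ∈ Ici (0 : ℝ)}
        ≤ (hm E).real {g | a ≤ ⟪(v : E), (sa g x0 : E)⟫} := by
      refine measureReal_mono ?_ (measure_ne_top _ _)
      intro g hg
      exact hcon g hg
    linarith
  refine measureReal_mono ?_ (measure_ne_top _ _)
  intro g hg
  obtain ⟨x, hx1, hx2⟩ := cap_near v (sa g x0) ha hb hc0 hab hδ hg
  have h1 : u (sa g0 x0) ≤ u x := hmono _ _ (lt_of_lt_of_le hg0' hx1)
  have h2 := hul x (sa g x0)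
  rw [one_mul] at h2
  have h3 := (abs_le.1 h2).2
  show -δ ≤ u (sa g x0)
  linarith

end Rearr

end Pool.Agent.helper440_simplex
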