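import Pool.Agent.helper440_simplex.Spec
import Pool.Agent.helper440_simplex.CapBase
import Pool.Agent.helper440_simplex.G0
import Pool.Agent.helper440_simplex.Iso
import Pool.Agent.helper440_simplex.CapMain

set_option autoImplicit false
set_option linter.unusedSectionVars false

namespace Pool.Agent.helper440_simplex

open MeasureTheory Metric Set Filter Topology
open scoped RealInnerProductSpace

section CoreW
variable {E : Type*} [NormedAddCommGroup E] [InnerProductSpace ℝ E] [CompleteSpace E]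
  [FiniteDimensional ℝ E] [MeasurableSpace E] [BorelSpace E]

/-! # Stability for caps -/

-- mm_props
theorem mm_props_int {n : ℕ} (hn : 4 ≤ n) (a b : ℝ) :
    mm n a - mm n b = ∫ s in a..b, om n s := by
  obtain ⟨-, -, -, -, -, -, hint, -, -, -⟩ := om_basic hn
  unfold mm
  rw [integral_Ici_eq_integral_Ioi, integral_Ici_eq_integral_Ioi]
  have h := intervalIntegral.integral_interval_add_Ioi (f := om n) (μ := volume) (a := a) (b := b)
    hint.integrableOn hint.integrableOn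
  linarith

theorem mm_props {n : ℕ} (hn : 4 ≤ n) : mm n 0 = 1 / 2 ∧
    (∀ a b : ℝ, a ≤ b → mm n b ≤ mm n a ∧ mm n a - mm n b ≤ Real.sqrt n * (b - a)) ∧
    (∀ a b : ℝ, 0 ≤ a → a < 1 → a < b → mm n b < mm n a) ∧ Continuous (mm n) ∧
    (∀ b : ℝ, 0 ≤ mm n b ∧ mm n b ≤ 1) ∧ (∀ b : ℝ, 1 ≤ b → mm n b = 0) ∧
    (∀ a b : ℝ, a ≤ b → mm n a - mm n b = ∫ s in a..b, om n s) := by
  obtain ⟨-, hcont, hnn, hz, hpos, heven, hint, hone, -, hle⟩ := om_basic hn
  have hcn := (cn_bounds hn).2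
  have h7 := mm_props_int hn
  have hle' : ∀ s, om n s ≤ Real.sqrt n := fun s => (hle s).trans hcn
  have h2 : ∀ a b : ℝ, a ≤ b → mm n b ≤ mm n a ∧ mm n a - mm n b ≤ Real.sqrt n * (b - a) := by
    intro a b hab
    rw [h7 a b]
    constructor
    · have h := intervalIntegral.integral_nonneg (μ := volume) hab (fun s _ => hnn s)
      have := h7 a b
      linarith
    · have h := intervalIntegral.integral_mono_on (μ := volume) hab (hcont.intervalIntegrable a b)
        (intervalIntegrable_const (c := Real.sqrt n)) (fun s _ => hle' s)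
      rw [intervalIntegral.integral_const, smul_eq_mul] at h
      linarith
  refine ⟨?_, h2, ?_, ?_, ?_, ?_, fun a b _ => h7 a b⟩
  · have e1 : ∫ s in Iic (0 : ℝ), om n s = mm n 0 := by
      have h := integral_comp_neg_Iic (0 : ℝ) (om n)
      simp only [heven, neg_zero] at h
      rw [h]
      unfold mm
      rw [integral_Ici_eq_integral_Ioi]
    have e2 := integral_add_compl (measurableSet_Iic (a := (0 : ℝ))) hint
    rw [hone, compl_Iic, ← integral_Ici_eq_integral_Ioi] at e2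
    have e3 : ∫ s in Ici (0 : ℝ), om n s = mm n 0 := rfl
    rw [e1, e3] at e2
    linarith
  · intro a b ha ha1 hab
    have hac : a < min b 1 := lt_min hab ha1
    have h := intervalIntegral.intervalIntegral_pos_of_pos_on (hcont.intervalIntegrable a (min b 1))
      (fun s hs => hpos s (by
        rw [abs_lt]
        exact ⟨by linarith [hs.1], hs.2.trans_le (min_le_right _ _)⟩)) hac
    rw [← h7] at h
    have := (h2 (min b 1) b (min_le_left _ _)).1
    linarith
  · have e : mm n = fun b => mm n 0 - ∫ s in (0 : ℝ)..b, om n s := by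
      ext b
      rw [← h7]
      ring
    rw [e]
    exact continuous_const.sub (intervalIntegral.continuous_primitive
      (fun a b => hcont.intervalIntegrable a b) 0)
  · intro b
    constructor
    · exact setIntegral_nonneg measurableSet_Ici fun s _ => hnn s
    · rw [← hone]
      exact setIntegral_le_integral hint (Eventually.of_forall hnn)
  · intro b hb
    refine setIntegral_eq_zero_of_forall_eq_zero fun s hs => hz s ?_
    exact (hb.trans hs).trans (le_abs_self s)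

-- mm_win
theorem mm_win {R : ℝ} (hR : 0 ≤ R) : ∃ n0 : ℕ, 4 ≤ n0 ∧ ∀ n : ℕ, n0 ≤ n → ∀ a b : ℝ, a ≤ b →
    |a| ≤ R / Real.sqrt n → |b| ≤ R / Real.sqrt n →
    Real.sqrt n * (Real.exp (-R ^ 2) / 10) * (b - a) ≤ mm n a - mm n b := by
  obtain ⟨n0, h4, hw⟩ := om_window hR
  refine ⟨n0, h4, ?_⟩
  intro n hn a b hab ha hb
  have hn4 : 4 ≤ n := h4.trans hn
  obtain ⟨-, -, -, -, -, -, hint⟩ := mm_props hn4
  obtain ⟨-, hcont, -⟩ := om_basic hn4
  rw [hint a b hab]
  have h1 : ∫ _ in a..b, (Real.sqrt n * (Real.exp (-R ^ 2) / 10)) ≤ ∫ s in a..b, om n s := by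
    refine intervalIntegral.integral_mono_on hab intervalIntegrable_const
      (hcont.intervalIntegrable a b) ?_
    intro s hs
    refine hw n hn s ?_
    rw [abs_le] at ha hb ⊢
    exact ⟨ha.1.trans hs.1, hs.2.trans hb.2⟩
  rw [intervalIntegral.integral_const, smul_eq_mul] at h1
  linarith

section GCap
variable {E : Type*} [NormedAddCommGroup E] [InnerProductSpace ℝ E] [CompleteSpace E]
  [FiniteDimensional ℝ E] [MeasurableSpace E] [BorelSpace E]

-- mA_eq
theorem mA_eq_inner {s : ℝ} (hs : |s| < 1) (x : SS E) (w : SS (Pe x)) :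
    ⟪(x : E), (pt x s w : E)⟫ = s :=
  (pt_inner (abs_le.mp hs.le).1 (abs_le.mp hs.le).2 (abs_le.mp hs.le).1 (abs_le.mp hs.le).2
    x w w).1

theorem mA_eq_pj {s : ℝ} (hs : |s| < 1) (x : SS E) (w : SS (Pe x)) :
    pj (x : E) (pt x s w : E) = ((w : Pe x) : E) := by
  have hw : ‖((w : Pe x) : E)‖ = 1 := norm_eq_of_mem_sphere w
  have h1 := (abs_le.mp hs.le).1
  have h2 := (abs_le.mp hs.le).2
  have hsq : 0 < 1 - s ^ 2 := by
    have := sq_abs s
    nlinarith [abs_nonneg s]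
  have hsr : 0 < Real.sqrt (1 - s ^ 2) := Real.sqrt_pos.mpr hsq
  have hdiff : (pt x s w : E) - ⟪(x : E), (pt x s w : E)⟫ • (x : E)
      = Real.sqrt (1 - s ^ 2) • ((w : Pe x) : E) := by
    rw [mA_eq_inner hs, pt_coe h1 h2]
    abel
  unfold pj
  rw [hdiff, norm_smul, hw, mul_one, Real.norm_eq_abs, abs_of_pos hsr, smul_smul,
    inv_mul_cancel₀ hsr.ne', one_smul]

theorem mA_eq_Om {θ : ℝ} (h0 : 0 < θ) (h1 : θ ≤ 1) (A : Set (SS E)) (x : SS E)
    (w : SS (Pe x)) :
    ((w : Pe x) : E) ∈ Om θ ((fun y : SS E => (y : E)) '' A) (x : E)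
      ↔ pt x (Real.cos θ) w ∈ A := by
  have hw : ‖((w : Pe x) : E)‖ = 1 := norm_eq_of_mem_sphere w
  have hac : Real.arccos (Real.cos θ) = θ :=
    Real.arccos_cos h0.le (h1.trans (by linarith [Real.pi_gt_three]))
  have hc : (pt x (Real.cos θ) w : E) = Real.cos θ • (x : E) + Real.sin θ • ((w : Pe x) : E) := by
    show Real.cos (Real.arccos (Real.cos θ)) • (x : E)
      + Real.sin (Real.arccos (Real.cos θ)) • ((w : Pe x) : E) = _
    rw [hac]
  constructor
  · rintro ⟨-, -, y, hy, hyx⟩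
    have : y = pt x (Real.cos θ) w := Subtype.ext (by rw [hc]; exact hyx)
    rwa [← this]
  · intro h
    exact ⟨hw, Pe_inner x _, pt x (Real.cos θ) w, h, hc⟩

theorem mA_eq {n : ℕ} (hn : Module.finrank ℝ E = n) (h4 : 4 ≤ n) {θ : ℝ} (h0 : 0 < θ) (h1 : θ ≤ 1)
    {A : Set (SS E)} (hA : MeasurableSet A) (f x : SS E) :
    mA θ ((fun y : SS E => (y : E)) '' A) (f : E) (x : E)
      = (sm E).real {z : SS E | |⟪(x : E), (z : E)⟫| ≤ 1 / 2} * PP (Real.cos θ) (ind A) x := by
  have hsph : MeasurableSet (sphere (0 : E) 1) := isClosed_sphere.measurableSet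
  have hA'm : MeasurableSet ((fun y : SS E => (y : E)) '' A) :=
    (MeasurableEmbedding.subtype_coe hsph).measurableSet_image.mpr hA
  have h1n : 1 ≤ Module.finrank ℝ E := by omega
  have hOm : MeasurableSet {z : SS E | pj (x : E) (z : E)
      ∈ Om θ ((fun y : SS E => (y : E)) '' A) (x : E)} := by
    have hm : Measurable (fun z : SS E => ((x : E), pj (x : E) (z : E))) := by
      refine measurable_const.prodMk ?_
      have : Measurable (fun z : SS E => ((x : E), (z : E))) :=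
        measurable_const.prodMk measurable_subtype_coe
      exact (pj_meas (E := E)).comp this
    exact hm (Om_meas θ hA'm)
  have hht : Measurable (fun z : SS E => ⟪(x : E), (z : E)⟫) :=
    (continuous_const.inner continuous_subtype_val).measurable
  have hB : MeasurableSet {z : SS E | |⟪(x : E), (z : E)⟫| ≤ 1 / 2} := by
    have : MeasurableSet {s : ℝ | |s| ≤ 1 / 2} :=
      (isClosed_le continuous_abs continuous_const).measurableSet
    exact hht this
  set S : Set (SS E) := {z | |⟪(x : E), (z : E)⟫| ≤ 1 / 2 ∧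
    pj (x : E) (z : E) ∈ Om θ ((fun y : SS E => (y : E)) '' A) (x : E)} with hS
  have hSm : MeasurableSet S := hB.inter hOm
  have e1 : mA θ ((fun y : SS E => (y : E)) '' A) (f : E) (x : E) = (sm E).real S := by
    have hgm : Measurable (fun g : UG E => sa g f) := (sa_continuous_left f).measurable
    rw [sm_eq h1n f, map_measureReal_apply hgm hSm]
    rfl
  have e2 : (sm E).real S = ∫ z, ind S z ∂(sm E) := by
    unfold ind
    rw [← integral_indicator_one hSm]
    rfl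
  have hBM : BM (ind S) := by
    refine ⟨measurable_const.indicator hSm, 1, fun z => ?_⟩
    unfold ind
    by_cases hz : z ∈ S
    · simp [hz]
    · simp [hz]
  have e3 : ∀ s : ℝ, om n s * PP s (ind S) x
      = (om n s * (({s : ℝ | |s| ≤ 1 / 2} : Set ℝ).indicator (fun _ => (1 : ℝ)) s))
        * PP (Real.cos θ) (ind A) x := by
    intro s
    by_cases hs : 1 ≤ |s|
    · rw [(om_basic h4).2.2.2.1 s hs]; ring
    · push Not at hs
      by_cases h2 : |s| ≤ 1 / 2
      · have : PP s (ind S) x = PP (Real.cos θ) (ind A) x := by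
          unfold PP
          congr 1
          funext w
          have hiff : pt x s w ∈ S ↔ pt x (Real.cos θ) w ∈ A := by
            rw [← mA_eq_Om h0 h1 A x w, hS, Set.mem_ofPred_eq, mA_eq_inner hs, mA_eq_pj hs]
            exact ⟨fun h => h.2, fun h => ⟨h2, h⟩⟩
          unfold ind
          by_cases hw : pt x s w ∈ S
          · rw [Set.indicator_of_mem hw, Set.indicator_of_mem (hiff.mp hw)]
          · rw [Set.indicator_of_notMem hw, Set.indicator_of_notMem (fun h => hw (hiff.mpr h))]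
        rw [this, Set.indicator_of_mem (show s ∈ {s : ℝ | |s| ≤ 1 / 2} from h2)]
        ring
      · have : PP s (ind S) x = 0 := by
          unfold PP
          rw [← integral_zero (SS (Pe x)) ℝ (μ := sm (Pe x))]
          congr 1
          funext w
          unfold ind
          rw [Set.indicator_of_notMem]
          intro hw
          apply h2
          have := hw.1
          rwa [mA_eq_inner hs] at this
        rw [this, Set.indicator_of_notMem (show s ∉ {s : ℝ | |s| ≤ 1 / 2} from h2)]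
        ring
  have e4 : ∫ s, om n s * (({s : ℝ | |s| ≤ 1 / 2} : Set ℝ).indicator (fun _ => (1 : ℝ)) s)
      = (sm E).real {z : SS E | |⟪(x : E), (z : E)⟫| ≤ 1 / 2} := by
    have hm : MeasurableSet {s : ℝ | |s| ≤ 1 / 2} :=
      (isClosed_le continuous_abs continuous_const).measurableSet
    rw [← sm_height hn h4 x (ψ := ({s : ℝ | |s| ≤ 1 / 2} : Set ℝ).indicator (fun _ => (1 : ℝ)))
      (measurable_const.indicator hm) ⟨1, fun s => ?_⟩, ← integral_indicator_one hB]
    · rfl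
    · by_cases hs : s ∈ {s : ℝ | |s| ≤ 1 / 2}
      · rw [Set.indicator_of_mem hs]; simp
      · rw [Set.indicator_of_notMem hs]; simp
  rw [e1, e2, fiber hn h4 x hBM]
  simp_rw [e3]
  rw [integral_mul_const, e4]

-- A_minus
theorem A_minus {n : ℕ} (hn : Module.finrank ℝ E = n) (h5 : 5 ≤ n) {s z : ℝ} (h0 : 0 ≤ s)
    (h1 : s ≤ 1) (hz : 0 ≤ z) {A : Set (SS E)} (hA : MeasurableSet A) :
    (sm E).real {x | x ∈ A ∧ PP s (ind A) x < z} ≤ z + 1 / ((n : ℝ) - 2) := by
  have hn3 : 3 ≤ Module.finrank ℝ E := by omega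
  haveI : IsProbabilityMeasure (sm E) := sm_prob (by omega)
  have hBA : BM (ind A) := by
    refine ⟨measurable_const.indicator hA, 1, fun x => ?_⟩
    unfold ind
    by_cases hx : x ∈ A
    · rw [Set.indicator_of_mem hx]; norm_num
    · rw [Set.indicator_of_notMem hx]; norm_num
  have hPA : BM (PP s (ind A)) := (PP_basic hn3 s hBA hBA).1
  obtain ⟨S, hS⟩ : ∃ S : Set (SS E), S = {x | x ∈ A ∧ PP s (ind A) x < z} := ⟨_, rfl⟩
  have hSm : MeasurableSet S := by
    rw [hS]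
    exact hA.inter (measurableSet_lt hPA.1 measurable_const)
  have hBS : BM (ind S) := by
    refine ⟨measurable_const.indicator hSm, 1, fun x => ?_⟩
    unfold ind
    by_cases hx : x ∈ S
    · rw [Set.indicator_of_mem hx]; norm_num
    · rw [Set.indicator_of_notMem hx]; norm_num
  rw [← hS]
  have hpsd := psd hn h5 h0 h1 hBS
  obtain ⟨hBP, -, -, -, -, hmono, -⟩ := PP_basic hn3 s hBS hBA
  have hle : ∀ y, ind S y ≤ ind A y := by
    intro y
    unfold ind
    by_cases hy : y ∈ S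
    · have hyA : y ∈ A := by rw [hS] at hy; exact hy.1
      rw [Set.indicator_of_mem hy, Set.indicator_of_mem hyA]
    · rw [Set.indicator_of_notMem hy]
      exact Set.indicator_nonneg (fun _ _ => zero_le_one) y
  have hint1 : ∫ x, ind S x ∂(sm E) = (sm E).real S := by
    have := integral_indicator_one (μ := sm E) hSm
    exact this
  have hint2 : ∫ x, (ind S x) ^ 2 ∂(sm E) = (sm E).real S := by
    rw [← hint1]
    congr 1
    funext x
    unfold ind
    by_cases hx : x ∈ S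
    · rw [Set.indicator_of_mem hx]; norm_num
    · rw [Set.indicator_of_notMem hx]; norm_num
  have hI1 : Integrable (fun x => ind S x * PP s (ind S) x) (sm E) := by
    obtain ⟨C, hC⟩ := hBP.2
    refine Integrable.of_bound (hBS.1.mul hBP.1).aestronglyMeasurable C
      (Filter.Eventually.of_forall fun x => ?_)
    rw [Real.norm_eq_abs, abs_mul]
    have h2 : |ind S x| ≤ 1 := by
      unfold ind
      by_cases hx : x ∈ S
      · rw [Set.indicator_of_mem hx]; norm_num
      · rw [Set.indicator_of_notMem hx]; norm_num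
    have h3 := hC x
    calc |ind S x| * |PP s (ind S) x| ≤ 1 * |PP s (ind S) x| :=
          mul_le_mul_of_nonneg_right h2 (abs_nonneg _)
      _ ≤ C := by rw [one_mul]; exact h3
  have hI2 : Integrable (fun x => z * ind S x) (sm E) := by
    refine Integrable.const_mul ?_ z
    exact (integrable_const (1 : ℝ)).indicator hSm
  have hmain : ∫ x, ind S x * PP s (ind S) x ∂(sm E) ≤ z * (sm E).real S := by
    rw [← hint1, ← integral_const_mul]
    refine integral_mono hI1 hI2 fun x => ?_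
    show ind S x * PP s (ind S) x ≤ z * ind S x
    by_cases hx : x ∈ S
    · have e1 : ind S x = 1 := by unfold ind; rw [Set.indicator_of_mem hx]
      have e2 : PP s (ind A) x < z := by rw [hS] at hx; exact hx.2
      have e3 := hmono hle x
      rw [e1]; linarith
    · have e1 : ind S x = 0 := by unfold ind; rw [Set.indicator_of_notMem hx]
      rw [e1]; simp
  rw [hint1, hint2] at hpsd
  have hn5 : (5 : ℝ) ≤ n := by exact_mod_cast h5
  have hσ0 : 0 ≤ (sm E).real S := measureReal_nonneg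
  obtain ⟨σ, hσ⟩ : ∃ σ : ℝ, σ = (sm E).real S := ⟨_, rfl⟩
  rw [← hσ] at hpsd hmain hσ0 ⊢
  have hfin : σ ^ 2 - σ / ((n : ℝ) - 2) ≤ z * σ := hpsd.trans hmain
  have hinv : 0 ≤ 1 / ((n : ℝ) - 2) := by
    apply div_nonneg zero_le_one; linarith
  rcases hσ0.lt_or_eq with hpos | hzero
  · have h2 : σ * (σ - (z + 1 / ((n : ℝ) - 2))) ≤ 0 := by
      have : σ * (σ - (z + 1 / ((n : ℝ) - 2))) = σ ^ 2 - σ / ((n : ℝ) - 2) - z * σ := by ring
      rw [this]; linarith
    have h3 : σ - (z + 1 / ((n : ℝ) - 2)) ≤ 0 := by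
      by_contra hcon
      push Not at hcon
      have := mul_pos hpos hcon
      linarith
    linarith
  · rw [← hzero]; linarith

end GCap

-- nb_small
theorem nb_small_cheb {E : Type*} [NormedAddCommGroup E] [InnerProductSpace ℝ E]
    [CompleteSpace E] [FiniteDimensional ℝ E] [MeasurableSpace E] [BorelSpace E] {n : ℕ}
    (hn : Module.finrank ℝ E = n) (h8 : 8 ≤ n) (x : SS E) :
    1 / 2 ≤ (sm E).real {z : SS E | |⟪(x : E), (z : E)⟫| ≤ 1 / 2} := by
  obtain ⟨_, hc, h0, hz, _, _, hi, h1, _, _⟩ := om_basic (n := n) (by omega)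
  have hS : MeasurableSet {s : ℝ | |s| ≤ 1 / 2} :=
    (isClosed_le continuous_abs continuous_const).measurableSet
  have hT : MeasurableSet {z : SS E | |⟪(x : E), (z : E)⟫| ≤ 1 / 2} :=
    (isClosed_le (continuous_abs.comp (continuous_const.inner continuous_subtype_val))
      continuous_const).measurableSet
  have h2 := sm_height hn (by omega) x (ψ := {s : ℝ | |s| ≤ 1 / 2}.indicator (fun _ => (1 : ℝ)))
    (measurable_const.indicator hS) ⟨1, fun s => by
      by_cases hs : s ∈ {s : ℝ | |s| ≤ 1 / 2}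
      · rw [Set.indicator_of_mem hs]; simp
      · rw [Set.indicator_of_notMem hs]; simp⟩
  have h3 : ∫ z, {s : ℝ | |s| ≤ 1 / 2}.indicator (fun _ => (1 : ℝ)) ⟪(x : E), (z : E)⟫ ∂(sm E)
      = (sm E).real {z : SS E | |⟪(x : E), (z : E)⟫| ≤ 1 / 2} := by
    rw [← integral_indicator_one hT]
    rfl
  rw [← h3, h2]
  have hi2 : Integrable (fun s => om n s * s ^ 2) := by
    refine hi.mono ((hc.mul (continuous_id.pow 2)).aestronglyMeasurable)
      (ae_of_all _ fun s => ?_)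
    rw [norm_mul]
    rcases le_or_gt 1 |s| with h | h
    · rw [hz s h]; simp
    · have h4 : ‖s ^ 2‖ ≤ 1 := by
        rw [Real.norm_eq_abs, abs_pow]
        exact pow_le_one₀ (abs_nonneg s) h.le
      exact mul_le_of_le_one_right (norm_nonneg _) h4
  have e : (fun s => om n s * (1 - 4 * s ^ 2)) = fun s => om n s - 4 * (om n s * s ^ 2) := by
    ext s; ring
  have hi3 : Integrable (fun s => om n s * (1 - 4 * s ^ 2)) := by
    rw [e]; exact hi.sub (hi2.const_mul 4)
  have h4 : ∫ s : ℝ, om n s * (1 - 4 * s ^ 2) = 1 - 4 / (n : ℝ) := by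
    rw [e, integral_sub hi (hi2.const_mul 4), h1, integral_const_mul, om_sq (by omega)]
    ring
  have e2 : (fun s => om n s * {s : ℝ | |s| ≤ 1 / 2}.indicator (fun _ => (1 : ℝ)) s)
      = {s : ℝ | |s| ≤ 1 / 2}.indicator (om n) := by
    ext s
    by_cases hs : s ∈ {s : ℝ | |s| ≤ 1 / 2}
    · rw [Set.indicator_of_mem hs, Set.indicator_of_mem hs, mul_one]
    · rw [Set.indicator_of_notMem hs, Set.indicator_of_notMem hs, mul_zero]
  have hi4 : Integrable (fun s => om n s * {s : ℝ | |s| ≤ 1 / 2}.indicator (fun _ => (1 : ℝ)) s) := by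
    rw [e2]; exact hi.indicator hS
  have h5 : ∫ s, om n s * (1 - 4 * s ^ 2) ≤
      ∫ s, om n s * {s : ℝ | |s| ≤ 1 / 2}.indicator (fun _ => (1 : ℝ)) s := by
    refine integral_mono hi3 hi4 fun s => ?_
    apply mul_le_mul_of_nonneg_left _ (h0 s)
    by_cases hs : s ∈ {s : ℝ | |s| ≤ 1 / 2}
    · rw [Set.indicator_of_mem hs]
      nlinarith [sq_nonneg s]
    · rw [Set.indicator_of_notMem hs]
      have hs' : 1 / 2 < |s| := not_le.1 hs
      have : s ^ 2 = |s| ^ 2 := (sq_abs s).symm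
      nlinarith
  rw [h4] at h5
  refine le_trans ?_ h5
  have h6 : (8 : ℝ) ≤ n := by exact_mod_cast h8
  have h7 : 4 / (n : ℝ) ≤ 1 / 2 := by
    rw [div_le_div_iff₀ (by linarith) (by norm_num)]
    linarith
  linarith

theorem nb_small (t : ℕ) (ht : 2 ≤ t) {ζ p0 b H : ℝ} (hζ : 0 < ζ) (hζ1 : ζ ≤ 1 / 8) (hp0 : 0 < p0)
    (hp1 : p0 ≤ 1) (hb : 0 < b) (hb1 : b ≤ 1) (hH : 0 < H) :
    ∃ θ : ℝ, 0 < θ ∧ θ ≤ 1 ∧ ∃ n0 : ℕ, ∀ (E : Type) [NormedAddCommGroup E]
    [InnerProductSpace ℝ E] [CompleteSpace E] [FiniteDimensional ℝ E] [MeasurableSpace E]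
    [BorelSpace E], ∀ n : ℕ, Module.finrank ℝ E = n → n0 ≤ n → ∀ c : ℝ,
    b ≤ Real.sqrt n * c → Real.sqrt n * c ≤ H → ∀ A : Set (SS E), MeasurableSet A →
    Bad t (rhoc t c) A → ∀ K : Set (SS E), K ⊆ {x | 2 * ζ ≤ PP (Real.cos θ) (ind A) x} →
    K.Nonempty → ∀ s : Fin t → SS E, IsSimp s →
    (hm E).real {g | ∀ i, infDist (sa g (s i)) K < c - b / (8 * Real.sqrt n)} ≤ p0 := by
  obtain ⟨θ, κ1, κ2, K1, K4, r2, τ, L, hθ, hθ1, hκ1, hκ2, hκη, hr2, hK1, hK4, hτ, hP2, hL, hP4,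
    hP6⟩ := exists_aux t ht (η := 8 * ζ) (p0 := p0) (b := b) (H := H) (by linarith) (by linarith)
      hp0 hp1 hb hb1 hH
  have hsin : 0 < Real.sin θ := Real.sin_pos_of_pos_of_le_one hθ hθ1
  obtain ⟨X, hX⟩ : ∃ X : ℝ, X = (t ^ 3 * (2 * (2 * K4 + 2 * H ^ 2) + 2 * τ) ^ 2
      / (t * (t - 1) * (2 * τ)) + t * (2 * (2 * K4 + 2 * H ^ 2) + 2 * τ)) := ⟨_, rfl⟩
  refine ⟨θ, hθ, hθ1, 2 * t + 8 + ⌈(2 * κ1) ^ 2⌉₊ + ⌈(2 * κ2) ^ 2⌉₊ + ⌈X / Real.sin θ ^ 2⌉₊, ?_⟩
  intro E _ _ _ _ _ _ n hn hn0 c hbc hcH A hA hbad K hK hKne s hs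
  by_contra hcon
  push Not at hcon
  obtain ⟨m, rfl⟩ : ∃ m, n = m + 2 := ⟨n - 2, by omega⟩
  have hnr : (0 : ℝ) < ((m + 2 : ℕ) : ℝ) := by positivity
  obtain ⟨q, hq⟩ : ∃ q : ℝ, q = Real.sqrt ((m + 2 : ℕ) : ℝ) := ⟨_, rfl⟩
  have hq0 : 0 < q := by rw [hq]; exact Real.sqrt_pos.2 hnr
  have hq2 : q ^ 2 = ((m + 2 : ℕ) : ℝ) := by rw [hq]; exact Real.sq_sqrt hnr.le
  rw [← hq] at hbc hcH hcon
  have k1 : (2 * κ1) ^ 2 ≤ ((m + 2 : ℕ) : ℝ) :=
    (Nat.le_ceil _).trans (by exact_mod_cast (show ⌈(2 * κ1) ^ 2⌉₊ ≤ m + 2 by omega))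
  have k2 : (2 * κ2) ^ 2 ≤ ((m + 2 : ℕ) : ℝ) :=
    (Nat.le_ceil _).trans (by exact_mod_cast (show ⌈(2 * κ2) ^ 2⌉₊ ≤ m + 2 by omega))
  have k3 : X / Real.sin θ ^ 2 ≤ ((m + 2 : ℕ) : ℝ) :=
    (Nat.le_ceil _).trans (by exact_mod_cast (show ⌈X / Real.sin θ ^ 2⌉₊ ≤ m + 2 by omega))
  have k4 : (8 : ℝ) ≤ ((m + 2 : ℕ) : ℝ) := by exact_mod_cast (show 8 ≤ m + 2 by omega)
  have hA' : MeasurableSet ((fun y : SS E => (y : E)) '' A) :=
    (MeasurableEmbedding.subtype_coe isClosed_sphere.measurableSet).measurableSet_image.2 hA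
  obtain ⟨f, hf⟩ := hKne
  have hKT : K ⊆ {x : SS E | ζ ≤ mA θ ((fun y : SS E => (y : E)) '' A) (f : E) (x : E)} := by
    intro x hx
    have h1 := hK hx
    simp only [Set.mem_setOf_eq] at h1 ⊢
    rw [mA_eq hn (by omega) hθ hθ1 hA f x]
    have h2 := nb_small_cheb hn (by omega) x
    nlinarith
  obtain ⟨x, hxA, hx1, hxx⟩ := stepD (b := b) (H := H) (c1 := c) (θ := θ) (ζ := ζ) (κ1 := κ1)
    (κ2 := κ2) (K1 := K1) (K4 := K4) (r2 := r2) (τ := τ) (p0 := p0) (L := L) (q := q) hn ht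
    (by omega) (by omega) hq0 (by rw [hq2]; push_cast; ring) hθ hθ1 hb
    (by rw [div_le_iff₀ hq0]; linarith) (by rw [le_div_iff₀ hq0]; linarith) hζ hκ1 hκ2
    (div_le_half hκ1.le hq0 (by rw [hq2]; exact k1)) (div_le_half hκ2.le hq0 (by rw [hq2]; exact k2))
    (by
      have : 8 * ζ / 8 = ζ := by ring
      rwa [this] at hκη) hr2
    (by
      push_cast at k4
      rw [div_le_div_iff₀ (by linarith) (by norm_num)]
      linarith) hK1 hK4 hp0 hτ hP2 hL hP4
    (by
      rw [← hX, one_div_mul_eq_div, div_le_one (by positivity), hq2]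
      rwa [div_le_iff₀ (by positivity)] at k3) hP6 hA' f hKT ⟨f, hf⟩ s hs hcon.le
  choose y hyA hyx using hxA
  obtain ⟨i, j, hij, hlt⟩ := hbad y hyA
  have h1 := hxx i j hij
  have e1 : (y i : E) = x i := hyx i
  have e2 : (y j : E) = x j := hyx j
  rw [e1, e2] at hlt
  have e3 : rhoc t c = -1 / (t - 1 : ℝ) + t * c ^ 2 / (t - 1 : ℝ) := by
    unfold rhoc
    ring
  rw [e3] at hlt
  linarith

-- nb_big
theorem nb_big {H b : ℝ} (hH : 0 < H) (hb : 0 < b) (hb1 : b ≤ 1) :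
    ∃ ζ' : ℝ, 0 < ζ' ∧ ∃ n0 : ℕ, ∀ (E : Type) [NormedAddCommGroup E]
    [InnerProductSpace ℝ E] [CompleteSpace E] [FiniteDimensional ℝ E] [MeasurableSpace E]
    [BorelSpace E], ∀ n : ℕ, Module.finrank ℝ E = n → n0 ≤ n → ∀ c : ℝ,
    b ≤ Real.sqrt n * c → Real.sqrt n * c ≤ H → ∀ K : Set (SS E), IsClosed K →
    mm n c - ζ' ≤ (sm E).real K →
    1 / 2 - 2 * b ≤ (sm E).real {x | infDist x K < c - b / (8 * Real.sqrt n)} := by
  obtain ⟨n1, hn14, hwin⟩ := mm_win (R := H + 1) (by linarith)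
  have he0 : 0 < Real.exp (-(H + 1) ^ 2) / 10 := by positivity
  refine ⟨b * (Real.exp (-(H + 1) ^ 2) / 10) / 2, by positivity,
    max n1 (⌈4 * (H + 2) ^ 2⌉₊ + ⌈4 * H * (H + 2) ^ 2 / (3 * b)⌉₊), ?_⟩
  intro E _ _ _ _ _ _ n hn hn0 c hc1 hc2 K hK hKm
  have hnn1 : n1 ≤ n := (le_max_left _ _).trans hn0
  have hn2 : ⌈4 * (H + 2) ^ 2⌉₊ + ⌈4 * H * (H + 2) ^ 2 / (3 * b)⌉₊ ≤ n := (le_max_right _ _).trans hn0
  have h4 : 4 ≤ n := hn14.trans hnn1
  have hA : 4 * (H + 2) ^ 2 ≤ n :=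
    (Nat.le_ceil _).trans (by exact_mod_cast (Nat.le_add_right _ _).trans hn2)
  have hB : 4 * H * (H + 2) ^ 2 / (3 * b) ≤ n :=
    (Nat.le_ceil _).trans (by exact_mod_cast (Nat.le_add_left _ _).trans hn2)
  have hf1 : 1 ≤ Module.finrank ℝ E := by omega
  set q : ℝ := Real.sqrt n with hq
  have hnpos : (0 : ℝ) < n := by
    have : (4 : ℝ) ≤ n := by exact_mod_cast h4
    linarith
  have hq0 : 0 < q := Real.sqrt_pos.2 hnpos
  have hqq : q ^ 2 = n := Real.sq_sqrt hnpos.le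
  have hcq : c ≤ H / q := by
    rw [le_div_iff₀ hq0, mul_comm]
    exact hc2
  have hcb : b / q ≤ c := by
    rw [div_le_iff₀ hq0, mul_comm]
    exact hc1
  have hbq : 0 < b / q := by positivity
  have hc0 : 0 < c := hbq.trans_le hcb
  obtain ⟨x0⟩ := sm_nonempty (E := E) hf1
  haveI := sm_prob (E := E) hf1
  obtain ⟨hm0, hm1, -, -, hm4, -, -⟩ := mm_props h4
  have hmeas : Measurable (fun g : UG E => sa g x0) := (sa_continuous_left x0).measurable
  have conv : ∀ S : Set (SS E), MeasurableSet S →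
      (hm E).real {g | sa g x0 ∈ S} = (sm E).real S := by
    intro S hS
    rw [sm_eq hf1 x0, Measure.real, Measure.real, Measure.map_apply hmeas hS]
    rfl
  have hinner : Continuous fun x : SS E => ⟪(x0 : E), (x : E)⟫ :=
    continuous_const.inner continuous_subtype_val
  have cap : ∀ s : ℝ, (hm E).real {g | s ≤ ⟪(x0 : E), (sa g x0 : E)⟫} = mm n s := by
    intro s
    rw [← cap_meas hn h4 x0 s]
    exact conv {x | s ≤ ⟪(x0 : E), (x : E)⟫} (isClosed_le continuous_const hinner).measurableSet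
  -- the window
  have hw := hwin n hnn1 c (c + b / q) (by linarith)
    (by
      rw [abs_of_pos hc0]
      refine hcq.trans ?_
      exact div_le_div_of_nonneg_right (by linarith) hq0.le)
    (by
      rw [abs_of_pos (by linarith)]
      have : (H + 1) / q = H / q + 1 / q := by ring
      rw [this]
      have h1 : b / q ≤ 1 / q := div_le_div_of_nonneg_right hb1 hq0.le
      linarith)
  have hw2 : q * (Real.exp (-(H + 1) ^ 2) / 10) * (c + b / q - c) =
      b * (Real.exp (-(H + 1) ^ 2) / 10) := by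
    field_simp
    ring
  rw [hw2] at hw
  have hlt : mm n (c + b / q) < (sm E).real K := by
    have : 0 < b * (Real.exp (-(H + 1) ^ 2) / 10) := by positivity
    linarith
  have hKne : K.Nonempty := by
    by_contra hE
    rw [Set.not_nonempty_iff_eq_empty] at hE
    rw [hE, measureReal_empty] at hlt
    have := (hm4 (c + b / q)).1
    linarith
  have hHq : (H + 2) / q ≤ 1 / 2 := by
    rw [div_le_iff₀ hq0]
    have h1 : (2 * (H + 2)) ^ 2 ≤ q ^ 2 := by
      rw [hqq]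
      linarith
    have h2 := abs_le_of_sq_le_sq' h1 hq0.le
    linarith [h2.2]
  have h2q : b / q ≤ 1 / q := div_le_div_of_nonneg_right hb1 hq0.le
  have hsplit : (H + 2) / q = H / q + 2 * (1 / q) := by ring
  have hiso := iso hf1 x0 x0 hK hKne (a := c + b / q) (b := -(2 * (b / q))) (c0 := (H + 2) / q)
    (δ := c - b / q / 4)
    (by
      rw [abs_of_pos (by linarith), hsplit]
      have : 0 < 1 / q := by positivity
      linarith)
    (by
      rw [abs_neg, abs_of_pos (by linarith), hsplit]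
      have : 0 < H / q := by positivity
      linarith)
    hHq (by linarith)
    (by
      have e1 : ((H + 2) / q) ^ 2 = (H + 2) ^ 2 / n := by rw [div_pow, hqq]
      rw [e1]
      have h1 : (c + b / q + -(2 * (b / q))) * ((H + 2) ^ 2 / n) ≤ H / q * ((H + 2) ^ 2 / n) :=
        mul_le_mul_of_nonneg_right (by linarith) (by positivity)
      have h2 : H / q * ((H + 2) ^ 2 / n) ≤ 3 / 4 * (b / q) := by
        have h3 : H * (H + 2) ^ 2 / n ≤ 3 / 4 * b := by
          rw [div_le_iff₀ (by positivity)] at hB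
          rw [div_le_iff₀ hnpos]
          linarith
        calc H / q * ((H + 2) ^ 2 / n) = (H * (H + 2) ^ 2 / n) / q := by
              field_simp
          _ ≤ (3 / 4 * b) / q := div_le_div_of_nonneg_right h3 hq0.le
          _ = 3 / 4 * (b / q) := by ring
      linarith)
    (by
      rw [cap, conv K hK.measurableSet]
      exact hlt)
  rw [neg_neg, cap] at hiso
  have hcl : MeasurableSet {x : SS E | infDist x K ≤ c - b / q / 4} :=
    (isClosed_le (continuous_infDist_pt K) continuous_const).measurableSet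
  have hiso2 : mm n (2 * (b / q)) ≤ (sm E).real {x : SS E | infDist x K ≤ c - b / q / 4} := by
    rw [← conv _ hcl]
    exact hiso
  have hm5 := (hm1 0 (2 * (b / q)) (by positivity)).2
  rw [hm0, sub_zero] at hm5
  have e2 : Real.sqrt n * (2 * (b / q)) = 2 * b := by
    rw [← hq]
    field_simp
  rw [e2] at hm5
  have hsub : {x : SS E | infDist x K ≤ c - b / q / 4} ⊆ {x | infDist x K < c - b / (8 * q)} := by
    intro x hx
    have hx : infDist x K ≤ c - b / q / 4 := hx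
    show infDist x K < c - b / (8 * q)
    have e3 : b / (8 * q) = b / q / 8 := by
      field_simp
    rw [e3]
    linarith
  have hfin := measureReal_mono (μ := sm E) hsub
  linarith

-- shift
theorem shift_dist {k τ τ0 : ℝ} (hk0 : 0 ≤ k) (hk : k ≤ 1 / 2) (h1 : |τ| ≤ k) (h0 : |τ0| ≤ k) :
    2 - 2 * (τ * τ0 + Real.sqrt (1 - τ ^ 2) * Real.sqrt (1 - τ0 ^ 2))
      ≤ ((τ0 - τ) * (1 + 2 * k ^ 2)) ^ 2 := by
  have hτ : τ ^ 2 ≤ k ^ 2 := sq_le_sq' (by linarith [(abs_le.1 h1).1]) (abs_le.1 h1).2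
  have hτ0 : τ0 ^ 2 ≤ k ^ 2 := sq_le_sq' (by linarith [(abs_le.1 h0).1]) (abs_le.1 h0).2
  have hk2 : k ^ 2 ≤ 1 / 4 := by nlinarith
  have e1 : Real.sqrt (1 - τ ^ 2) ^ 2 = 1 - τ ^ 2 := Real.sq_sqrt (by linarith)
  have e0 : Real.sqrt (1 - τ0 ^ 2) ^ 2 = 1 - τ0 ^ 2 := Real.sq_sqrt (by linarith)
  have l1 : 1 / 2 ≤ Real.sqrt (1 - τ ^ 2) := Real.le_sqrt_of_sq_le (by linarith)
  have l0 : 1 / 2 ≤ Real.sqrt (1 - τ0 ^ 2) := Real.le_sqrt_of_sq_le (by linarith)
  generalize Real.sqrt (1 - τ ^ 2) = s at *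
  generalize Real.sqrt (1 - τ0 ^ 2) = s0 at *
  have hsum : (τ0 + τ) ^ 2 ≤ 4 * k ^ 2 := by nlinarith [sq_nonneg (τ0 - τ)]
  have hd : (s - s0) ^ 2 * (s + s0) ^ 2 = (τ0 - τ) ^ 2 * (τ0 + τ) ^ 2 := by
    have h : (s - s0) * (s + s0) = (τ0 - τ) * (τ0 + τ) := by
      have : (s - s0) * (s + s0) = s ^ 2 - s0 ^ 2 := by ring
      rw [this, e1, e0]; ring
    rw [← mul_pow, h, mul_pow]
  have hd2 : (s - s0) ^ 2 ≤ (τ0 - τ) ^ 2 * (4 * k ^ 2) := by
    calc (s - s0) ^ 2 = (s - s0) ^ 2 * 1 := by ring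
      _ ≤ (s - s0) ^ 2 * (s + s0) ^ 2 := by
        apply mul_le_mul_of_nonneg_left _ (sq_nonneg _)
        nlinarith
      _ = (τ0 - τ) ^ 2 * (τ0 + τ) ^ 2 := hd
      _ ≤ (τ0 - τ) ^ 2 * (4 * k ^ 2) := mul_le_mul_of_nonneg_left hsum (sq_nonneg _)
  have hexp : 2 - 2 * (τ * τ0 + s * s0) = (τ0 - τ) ^ 2 + (s - s0) ^ 2 := by
    have : (τ0 - τ) ^ 2 + (s - s0) ^ 2 = τ ^ 2 + τ0 ^ 2 + s ^ 2 + s0 ^ 2 - 2 * (τ * τ0 + s * s0) := by
      ring
    rw [this, e1, e0]; ring
  rw [hexp]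
  have h5 : 0 ≤ (τ0 - τ) ^ 2 * (4 * k ^ 4) := by positivity
  have h6 : ((τ0 - τ) * (1 + 2 * k ^ 2)) ^ 2
      = (τ0 - τ) ^ 2 + (τ0 - τ) ^ 2 * (4 * k ^ 2) + (τ0 - τ) ^ 2 * (4 * k ^ 4) := by ring
  rw [h6]
  linarith

section ShiftAux
variable {E : Type*} [NormedAddCommGroup E] [InnerProductSpace ℝ E] [CompleteSpace E]
  [FiniteDimensional ℝ E] [MeasurableSpace E] [BorelSpace E]

theorem shift_ww (x : SS E) (w : SS (Pe x)) : ⟪(w : Pe x), (w : Pe x)⟫ = 1 := by
  have hw : ‖(w : Pe x)‖ = 1 := norm_eq_of_mem_sphere w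
  rw [real_inner_self_eq_norm_sq, hw]; norm_num

theorem shift_pt {k τ τ0 : ℝ} (hk0 : 0 ≤ k) (hk : k ≤ 1 / 2) (h1 : |τ| ≤ k) (h0 : |τ0| ≤ k)
    (hle : τ ≤ τ0) (v : SS E) (w : SS (Pe v)) :
    dist (pt v τ w) (pt v τ0 w) ≤ (τ0 - τ) * (1 + 2 * k ^ 2) := by
  have a1 := abs_le.1 h1
  have a0 := abs_le.1 h0
  have h2 : dist (pt v τ w) (pt v τ0 w) ^ 2 ≤ ((τ0 - τ) * (1 + 2 * k ^ 2)) ^ 2 := by
    rw [dist_sq, (pt_inner (by linarith) (by linarith) (by linarith) (by linarith) v w w).2,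
      shift_ww, mul_one]
    exact shift_dist hk0 hk h1 h0
  exact abs_le_of_sq_le_sq' h2 (mul_nonneg (by linarith) (by positivity)) |>.2

theorem shift_fub {n : ℕ} (hn : Module.finrank ℝ E = n) (h4 : 4 ≤ n) (v : SS E) {f : SS E → ℝ}
    (hf : BM f) : ∫ x, f x ∂(sm E) = ∫ w, (∫ s, om n s * f (pt v s w)) ∂(sm (Pe v)) ∧
      Integrable (fun w => ∫ s, om n s * f (pt v s w)) (sm (Pe v)) ∧
      ∀ w, Integrable (fun s => om n s * f (pt v s w)) := by
  obtain ⟨m, rfl⟩ : ∃ m, n = m + 1 := ⟨n - 1, by omega⟩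
  have hm : Module.finrank ℝ (Pe v) = m := finrank_Pe hn v
  have : IsProbabilityMeasure (sm (Pe v)) := sm_prob (by rw [hm]; omega)
  obtain ⟨hfm, C, hC⟩ := hf
  have hC0 : 0 ≤ C := (abs_nonneg _).trans (hC v)
  obtain ⟨-, hoc, ho0, -, -, -, hoi, -, -, -⟩ := om_basic (n := m + 1) h4
  have hptm : Measurable (fun p : ℝ × SS (Pe v) => pt v p.1 p.2) := (pt_cont v).measurable
  have hFm : Measurable (fun p : ℝ × SS (Pe v) => om (m + 1) p.1 * f (pt v p.1 p.2)) :=
    (hoc.measurable.comp measurable_fst).mul (hfm.comp hptm)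
  have hint : Integrable (fun p : ℝ × SS (Pe v) => om (m + 1) p.1 * f (pt v p.1 p.2))
      ((volume : Measure ℝ).prod (sm (Pe v))) := by
    have h1 : Integrable (fun p : ℝ × SS (Pe v) => om (m + 1) p.1 * C)
        ((volume : Measure ℝ).prod (sm (Pe v))) :=
      (hoi.mul_const C).comp_fst (sm (Pe v))
    refine h1.mono' hFm.aestronglyMeasurable (ae_of_all _ fun p => ?_)
    rw [Real.norm_eq_abs, abs_mul, abs_of_nonneg (ho0 _)]
    exact mul_le_mul_of_nonneg_left (hC _) (ho0 _)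
  refine ⟨?_, hint.integral_prod_right, fun w => ?_⟩
  · rw [fiber hn h4 v ⟨hfm, C, hC⟩]
    have h2 : ∀ s, om (m + 1) s * PP s f v = ∫ w, om (m + 1) s * f (pt v s w) ∂(sm (Pe v)) := by
      intro s
      unfold PP
      rw [integral_const_mul]
    simp only [h2]
    exact integral_integral_swap hint
  · refine (hoi.mul_const C).mono' ?_ (ae_of_all _ fun s => ?_)
    · have h4' : Continuous (fun s : ℝ => pt v s w) := by
        have h5 := Continuous.comp (pt_cont v) (Continuous.prodMk_left (X := ℝ) w)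
        exact h5
      have h3 : Measurable (fun s : ℝ => om (m + 1) s * f (pt v s w)) :=
        hoc.measurable.mul (hfm.comp h4'.measurable)
      exact h3.aestronglyMeasurable
    · rw [Real.norm_eq_abs, abs_mul, abs_of_nonneg (ho0 _)]
      exact mul_le_mul_of_nonneg_left (hC _) (ho0 _)

theorem shift_BM {S : Set (SS E)} (hS : MeasurableSet S) : BM (ind S) := by
  refine ⟨measurable_const.indicator hS, 1, fun x => ?_⟩
  unfold ind
  by_cases hx : x ∈ S
  · rw [indicator_of_mem hx]; norm_num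
  · rw [indicator_of_notMem hx]; norm_num

theorem shift_int {S : Set (SS E)} (hS : MeasurableSet S) : ∫ x, ind S x ∂(sm E) = (sm E).real S := by
  unfold ind
  rw [integral_indicator_const _ hS, smul_eq_mul, mul_one]

theorem shift_ind_le (S : Set (SS E)) (x : SS E) : ind S x ≤ 1 := by
  unfold ind
  by_cases hx : x ∈ S
  · rw [indicator_of_mem hx]
  · rw [indicator_of_notMem hx]; norm_num

theorem shift_ind_nonneg (S : Set (SS E)) (x : SS E) : 0 ≤ ind S x := by
  unfold ind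
  by_cases hx : x ∈ S
  · rw [indicator_of_mem hx]; norm_num
  · rw [indicator_of_notMem hx]

/-- the estimate on one fibre -/
theorem shift_fibre {n : ℕ} (hn : Module.finrank ℝ E = n) (h4 : 4 ≤ n) {H ε1 q c b : ℝ}
    (hH : 0 < H) (hε : 0 < ε1) (hε1 : ε1 ≤ 1) (hq : q = Real.sqrt n)
    (hn1 : 4 * (H + 1) ^ 2 ≤ n) (hn2 : 16 * H * (H + 1) ^ 2 ≤ ε1 * n)
    (hwin : ∀ a b : ℝ, a ≤ b → |a| ≤ 1 / Real.sqrt n → |b| ≤ 1 / Real.sqrt n →
      Real.sqrt n * (Real.exp (-1 ^ 2) / 10) * (b - a) ≤ mm n a - mm n b)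
    (v : SS E) (hb : 0 < b) (hbε : b ≤ ε1) (hqc : q * c ≤ H) {K : Set (SS E)} (hK : IsClosed K)
    {S Z : Set (SS E)} (hSm : MeasurableSet S) (hZm : MeasurableSet Z)
    (hS : S = {x | x ∈ K ∧ 0 ≤ ⟪(v : E), (x : E)⟫ ∧ ⟪(v : E), (x : E)⟫ < c - ε1 / q})
    (hZ : Z = {x | infDist x K < c - b / (8 * q) ∧ ⟪(v : E), (x : E)⟫ < 0}) (w : SS (Pe v)) :
    ∫ s, om n s * ind S (pt v s w) ≤ 60 / ε1 * ∫ s, om n s * ind Z (pt v s w) := by
  obtain ⟨-, hoc, ho0, ho1, -, -, hoi, hoI, -, -⟩ := om_basic (n := n) h4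
  have hSi := (shift_fub hn h4 v (shift_BM hSm)).2.2 w
  have hZi := (shift_fub hn h4 v (shift_BM hZm)).2.2 w
  have hZ0 : 0 ≤ ∫ s, om n s * ind Z (pt v s w) :=
    integral_nonneg fun s => mul_nonneg (ho0 s) (shift_ind_nonneg _ _)
  have hnpos : (0 : ℝ) < n := by
    have : 0 < n := by omega
    exact_mod_cast this
  have hq0 : 0 < q := by rw [hq]; exact Real.sqrt_pos.2 hnpos
  have hq2 : q ^ 2 = n := by rw [hq]; exact Real.sq_sqrt hnpos.le
  by_cases h : ∃ s, |s| < 1 ∧ pt v s w ∈ S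
  · obtain ⟨τ0, hτ1, hτS⟩ := h
    have a0 := abs_lt.1 hτ1
    rw [hS] at hτS
    obtain ⟨hτK, hτ2, hτ3⟩ := hτS
    rw [(pt_inner (by linarith) (by linarith) (by linarith : (-1 : ℝ) ≤ 0) (by linarith) v w w).1]
      at hτ2 hτ3
    have hc : c ≤ H / q := by rw [le_div_iff₀ hq0]; linarith
    -- upper bound for S
    have hS1 : ∫ s, om n s * ind S (pt v s w) ≤ 1 := by
      rw [← hoI]
      refine integral_mono hSi hoi fun s => ?_
      calc om n s * ind S (pt v s w) ≤ om n s * 1 :=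
            mul_le_mul_of_nonneg_left (shift_ind_le _ _) (ho0 s)
        _ = om n s := mul_one _
    -- the points below the equator
    have hmem : ∀ τ : ℝ, τ ∈ Ioo (-(ε1 / (2 * q))) 0 → pt v τ w ∈ Z := by
      intro τ hτ
      obtain ⟨hτa, hτb⟩ := hτ
      set k := (H + 1) / q with hk
      have hk0 : 0 ≤ k := by rw [hk]; positivity
      have hkh : k ≤ 1 / 2 := by
        rw [hk, div_le_iff₀ hq0]
        nlinarith
      have hk2 : k ^ 2 = (H + 1) ^ 2 / n := by rw [hk, div_pow, hq2]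
      have e1 : ε1 / (2 * q) ≤ 1 / q := by
        rw [div_le_div_iff₀ (by positivity) hq0]
        nlinarith
      have e2 : 1 / q ≤ k := by rw [hk]; gcongr; linarith
      have e3 : H / q ≤ k := by rw [hk]; gcongr; linarith
      have h1 : |τ| ≤ k := by rw [abs_le]; constructor <;> linarith
      have e4 : 0 < ε1 / q := by positivity
      have h0 : |τ0| ≤ k := by rw [abs_le]; constructor <;> linarith
      have hd := shift_pt hk0 hkh h1 h0 (by linarith) v w
      have hin : ⟪(v : E), (pt v τ w : E)⟫ = τ :=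
        (pt_inner (by linarith [(abs_le.1 h1).1]) (by linarith) (by linarith : (-1 : ℝ) ≤ 0)
          (by linarith) v w w).1
      rw [hZ]
      refine ⟨?_, by rw [hin]; exact hτb⟩
      refine lt_of_le_of_lt (infDist_le_dist_of_mem hτK) (lt_of_le_of_lt hd ?_)
      have e5 : ε1 / q = ε1 / (2 * q) + ε1 / (2 * q) := by field_simp; ring
      have e6 : τ0 - τ < c - ε1 / (2 * q) := by linarith
      have e7 : τ0 - τ ≤ H / q := by
        have : 0 < ε1 / (2 * q) := by positivity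
        linarith
      have e8 : 2 * k ^ 2 * H ≤ ε1 / 8 := by
        rw [hk2]
        have : 2 * ((H + 1) ^ 2 / n) * H = (16 * H * (H + 1) ^ 2) / n / 8 := by ring
        rw [this]
        have : (16 * H * (H + 1) ^ 2) / n ≤ ε1 := by rw [div_le_iff₀ hnpos]; exact hn2
        linarith
      have e9 : (τ0 - τ) * (2 * k ^ 2) ≤ ε1 / (8 * q) := by
        calc (τ0 - τ) * (2 * k ^ 2) ≤ H / q * (2 * k ^ 2) :=
              mul_le_mul_of_nonneg_right e7 (by positivity)
          _ = (2 * k ^ 2 * H) / q := by ring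
          _ ≤ (ε1 / 8) / q := by gcongr
          _ = ε1 / (8 * q) := by rw [div_div]
      have e10 : b / (8 * q) ≤ ε1 / (8 * q) := by gcongr
      have e11 : ε1 / (2 * q) = 4 * (ε1 / (8 * q)) := by field_simp; ring
      have e12 : 0 < ε1 / (8 * q) := by positivity
      calc (τ0 - τ) * (1 + 2 * k ^ 2) = (τ0 - τ) + (τ0 - τ) * (2 * k ^ 2) := by ring
        _ < c - b / (8 * q) := by linarith
    -- lower bound for Z
    have hZ1 : ε1 / 60 ≤ ∫ s, om n s * ind Z (pt v s w) := by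
      have ha : -(ε1 / (2 * q)) ≤ 0 := by
        have : 0 < ε1 / (2 * q) := by positivity
        linarith
      have hle : ∫ s, (Ioo (-(ε1 / (2 * q))) 0).indicator (om n) s
          ≤ ∫ s, om n s * ind Z (pt v s w) := by
        refine integral_mono (hoi.indicator measurableSet_Ioo) hZi fun s => ?_
        by_cases hs : s ∈ Ioo (-(ε1 / (2 * q))) 0
        · rw [indicator_of_mem hs]
          have : ind Z (pt v s w) = 1 := by unfold ind; rw [indicator_of_mem (hmem s hs)]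
          show om n s ≤ om n s * ind Z (pt v s w)
          rw [this, mul_one]
        · rw [indicator_of_notMem hs]
          exact mul_nonneg (ho0 s) (shift_ind_nonneg _ _)
      have hval : ∫ s, (Ioo (-(ε1 / (2 * q))) 0).indicator (om n) s
          = mm n (-(ε1 / (2 * q))) - mm n 0 := by
        rw [integral_indicator measurableSet_Ioo, ← integral_Ioc_eq_integral_Ioo,
          ← intervalIntegral.integral_of_le ha, ((mm_props h4).2.2.2.2.2.2 _ _ ha)]
      rw [hval] at hle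
      have h1q : ε1 / (2 * q) ≤ 1 / q := by
        rw [div_le_div_iff₀ (by positivity) hq0]
        nlinarith
      have hw := hwin (-(ε1 / (2 * q))) 0 ha (by
        rw [abs_neg, abs_of_pos (by positivity), ← hq]; exact h1q) (by rw [abs_zero]; positivity)
      rw [← hq] at hw
      have hw2 : q * (Real.exp (-1 ^ 2) / 10) * (0 - -(ε1 / (2 * q)))
          = Real.exp (-1 ^ 2) * ε1 / 20 := by field_simp; ring
      rw [hw2] at hw
      have hexp : 1 / 3 ≤ Real.exp (-1 ^ 2) := by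
        have h3 : Real.exp 1 ≤ 3 := by
          have := Real.exp_one_lt_d9
          linarith
        have h4 : Real.exp (-1 ^ 2) = (Real.exp 1)⁻¹ := by
          rw [← Real.exp_neg]; norm_num
        rw [h4, one_div]
        exact inv_anti₀ (Real.exp_pos 1) h3
      have : 1 / 3 * ε1 ≤ Real.exp (-1 ^ 2) * ε1 := mul_le_mul_of_nonneg_right hexp hε.le
      linarith
    calc ∫ s, om n s * ind S (pt v s w) ≤ 1 := hS1
      _ = 60 / ε1 * (ε1 / 60) := by field_simp
      _ ≤ 60 / ε1 * ∫ s, om n s * ind Z (pt v s w) :=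
        mul_le_mul_of_nonneg_left hZ1 (by positivity)
  · push Not at h
    have hS0 : ∫ s, om n s * ind S (pt v s w) = 0 := by
      have : ∀ s, om n s * ind S (pt v s w) = 0 := by
        intro s
        by_cases hs : |s| < 1
        · unfold ind
          rw [indicator_of_notMem (h s hs), mul_zero]
        · rw [ho1 s (not_lt.1 hs), zero_mul]
      simp only [this, integral_zero]
    rw [hS0]
    positivity

end ShiftAux

theorem shift {H ε1 : ℝ} (hH : 0 < H) (hε : 0 < ε1) (hε1 : ε1 ≤ 1) :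
    ∃ n0 : ℕ, ∀ (E : Type) [NormedAddCommGroup E]
    [InnerProductSpace ℝ E] [CompleteSpace E] [FiniteDimensional ℝ E] [MeasurableSpace E]
    [BorelSpace E], ∀ n : ℕ, Module.finrank ℝ E = n → n0 ≤ n → ∀ (v : SS E) (c b : ℝ), 0 < b →
    b ≤ ε1 → b ≤ Real.sqrt n * c → Real.sqrt n * c ≤ H → ∀ K : Set (SS E), IsClosed K →
    (sm E).real {x | x ∈ K ∧ ⟪(v : E), (x : E)⟫ < c - ε1 / Real.sqrt n}
      ≤ (1 + 60 / ε1) *
        (sm E).real {x | infDist x K < c - b / (8 * Real.sqrt n) ∧ ⟪(v : E), (x : E)⟫ < 0} := by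
  obtain ⟨n1, h41, hwin⟩ := mm_win (R := 1) zero_le_one
  obtain ⟨N2, hN2⟩ := exists_nat_ge (4 * (H + 1) ^ 2)
  obtain ⟨N3, hN3⟩ := exists_nat_ge (16 * H * (H + 1) ^ 2 / ε1)
  refine ⟨max n1 (max N2 N3), ?_⟩
  intro E _ _ _ _ _ _ n hn hn0 v c b hb hbε hbc hcH K hK
  have hn01 : n1 ≤ n := (le_max_left _ _).trans hn0
  have hn02 : N2 ≤ n := (le_max_left _ _).trans ((le_max_right _ _).trans hn0)
  have hn03 : N3 ≤ n := (le_max_right _ _).trans ((le_max_right _ _).trans hn0)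
  have h4 : 4 ≤ n := h41.trans hn01
  have hn1 : 4 * (H + 1) ^ 2 ≤ (n : ℝ) := hN2.trans (by exact_mod_cast hn02)
  have hn2 : 16 * H * (H + 1) ^ 2 ≤ ε1 * (n : ℝ) := by
    have : 16 * H * (H + 1) ^ 2 / ε1 ≤ (n : ℝ) := hN3.trans (by exact_mod_cast hn03)
    rw [div_le_iff₀ hε] at this
    linarith
  have hprob : IsProbabilityMeasure (sm E) := sm_prob (by rw [hn]; omega)
  obtain ⟨m, hm⟩ : ∃ m, n = m + 1 := ⟨n - 1, by omega⟩
  have hPe : Module.finrank ℝ (Pe v) = m := finrank_Pe (hn.trans hm) v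
  have hprob' : IsProbabilityMeasure (sm (Pe v)) := sm_prob (by rw [hPe]; omega)
  obtain ⟨q, hq⟩ : ∃ q, q = Real.sqrt n := ⟨_, rfl⟩
  have hnpos : (0 : ℝ) < n := by
    have : 0 < n := by omega
    exact_mod_cast this
  have hq0 : 0 < q := by rw [hq]; exact Real.sqrt_pos.2 hnpos
  rw [← hq] at hbc hcH ⊢
  have hcont : Continuous (fun x : SS E => ⟪(v : E), (x : E)⟫) :=
    continuous_const.inner continuous_subtype_val
  obtain ⟨S, hS⟩ : ∃ S : Set (SS E),
      S = {x | x ∈ K ∧ 0 ≤ ⟪(v : E), (x : E)⟫ ∧ ⟪(v : E), (x : E)⟫ < c - ε1 / q} := ⟨_, rfl⟩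
  obtain ⟨Z, hZ⟩ : ∃ Z : Set (SS E),
      Z = {x | infDist x K < c - b / (8 * q) ∧ ⟪(v : E), (x : E)⟫ < 0} := ⟨_, rfl⟩
  have hSm : MeasurableSet S := by
    rw [hS]
    refine hK.measurableSet.inter (MeasurableSet.inter ?_ ?_)
    · exact (isClosed_le continuous_const hcont).measurableSet
    · exact (isOpen_lt hcont continuous_const).measurableSet
  have hZm : MeasurableSet Z := by
    rw [hZ]
    refine MeasurableSet.inter ?_ ?_
    · exact (isOpen_lt (continuous_infDist_pt K) continuous_const).measurableSet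
    · exact (isOpen_lt hcont continuous_const).measurableSet
  have hcpos : 0 < c - b / (8 * q) := by
    have h1 : b / q ≤ c := by rw [div_le_iff₀ hq0]; linarith
    have h2 : b / (8 * q) < b / q := by
      rw [div_lt_div_iff₀ (by positivity) hq0]
      nlinarith
    linarith
  have hsub : {x : SS E | x ∈ K ∧ ⟪(v : E), (x : E)⟫ < c - ε1 / q} ⊆ Z ∪ S := by
    rintro x ⟨hxK, hx⟩
    rcases lt_or_ge ⟪(v : E), (x : E)⟫ 0 with h | h
    · left
      rw [hZ]
      refine ⟨?_, h⟩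
      rw [infDist_zero_of_mem hxK]
      exact hcpos
    · right
      rw [hS]
      exact ⟨hxK, h, hx⟩
  have hSZ : (sm E).real S ≤ 60 / ε1 * (sm E).real Z := by
    obtain ⟨fS1, fS2, -⟩ := shift_fub hn h4 v (shift_BM hSm)
    obtain ⟨fZ1, fZ2, -⟩ := shift_fub hn h4 v (shift_BM hZm)
    rw [← shift_int hSm, ← shift_int hZm, fS1, fZ1, ← integral_const_mul]
    refine integral_mono fS2 (fZ2.const_mul _) fun w => ?_
    exact shift_fibre hn h4 hH hε hε1 hq hn1 hn2 (hwin n hn01) v hb hbε hcH hK hSm hZm hS hZ w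
  rw [← hZ]
  calc (sm E).real {x : SS E | x ∈ K ∧ ⟪(v : E), (x : E)⟫ < c - ε1 / q}
      ≤ (sm E).real (Z ∪ S) := measureReal_mono hsub
    _ ≤ (sm E).real Z + (sm E).real S := measureReal_union_le _ _
    _ ≤ (sm E).real Z + 60 / ε1 * (sm E).real Z := by linarith
    _ = (1 + 60 / ε1) * (sm E).real Z := by ring

-- cap_height0
theorem cap_height0 {E : Type*} [NormedAddCommGroup E] [InnerProductSpace ℝ E] [CompleteSpace E]
    [FiniteDimensional ℝ E] [MeasurableSpace E] [BorelSpace E] {n : ℕ}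
    (hn : Module.finrank ℝ E = n) (h4 : 4 ≤ n) (v : SS E) {c ε : ℝ} (hc : 0 ≤ c) (hε : 0 < ε)
    (h : ε ≤ (sm E).real (Cp v c)) : Real.sqrt n * c ≤ Real.sqrt (1 / ε) := by
  have hn1 : 1 ≤ Module.finrank ℝ E := by omega
  have hprob : IsProbabilityMeasure (sm E) := sm_prob hn1
  have hproper : ProperSpace E := FiniteDimensional.proper_real E
  have hcont : Continuous (fun x : SS E => ⟪(v : E), (x : E)⟫ ^ 2) := by fun_prop
  have hint : Integrable (fun x : SS E => ⟪(v : E), (x : E)⟫ ^ 2) (sm E) :=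
    hcont.integrable_of_hasCompactSupport (HasCompactSupport.of_compactSpace _)
  have hn0 : (0 : ℝ) < n := by
    have : 0 < n := by omega
    exact_mod_cast this
  have hst := sm_stein hn (by omega) v 0
  simp only [zero_add, Nat.cast_zero, pow_zero, mul_one, one_mul] at hst
  rw [integral_sub (integrable_const _) hint, integral_const, probReal_univ, smul_eq_mul,
    one_mul] at hst
  have hI : (n : ℝ) * ∫ x, ⟪(v : E), (x : E)⟫ ^ 2 ∂(sm E) = 1 := by linarith
  have hmk := mul_meas_ge_le_integral_of_nonneg (μ := sm E)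
    (f := fun x : SS E => ⟪(v : E), (x : E)⟫ ^ 2)
    (Filter.Eventually.of_forall fun x => sq_nonneg _) hint (c ^ 2)
  have hsub : (sm E).real (Cp v c) ≤
      (sm E).real {x : SS E | c ^ 2 ≤ ⟪(v : E), (x : E)⟫ ^ 2} := by
    refine measureReal_mono ?_
    intro x hx
    exact pow_le_pow_left₀ hc hx 2
  have h1 : c ^ 2 * ε ≤ ∫ x, ⟪(v : E), (x : E)⟫ ^ 2 ∂(sm E) :=
    (mul_le_mul_of_nonneg_left (h.trans hsub) (sq_nonneg c)).trans hmk
  have h2 : (n : ℝ) * c ^ 2 * ε ≤ 1 := by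
    have := mul_le_mul_of_nonneg_left h1 hn0.le
    rw [hI] at this
    linarith
  have h3 : (n : ℝ) * c ^ 2 ≤ 1 / ε := by
    rw [le_div_iff₀ hε]
    exact h2
  have h4 : Real.sqrt n * c = Real.sqrt (n * c ^ 2) := by
    rw [Real.sqrt_mul hn0.le, Real.sqrt_sq hc]
  rw [h4]
  exact Real.sqrt_le_sqrt h3

-- g_small
theorem g_small (t : ℕ) (ht : 3 ≤ t) (hG : G0st t) {κ : ℝ} (hκ : 0 < κ) :
    ∃ b : ℝ, 0 < b ∧ ∃ n0 : ℕ, ∀ (E : Type) [NormedAddCommGroup E]
    [InnerProductSpace ℝ E] [CompleteSpace E] [FiniteDimensional ℝ E] [MeasurableSpace E]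
    [BorelSpace E], ∀ n : ℕ, Module.finrank ℝ E = n → n0 ≤ n → ∀ (v : SS E) (c : ℝ), 0 ≤ c →
    Real.sqrt n * c ≤ b → ∀ A : Set (SS E), IsClosed A → Bad t (rhoc t c) A →
    (sm E).real (Cp v c) ≤ (sm E).real A →
    ∃ v' : SS E, (sm E).real (symmDiff A (Cp v' c)) ≤ κ := by
  obtain ⟨p0, hp0, η, hη, n0, H⟩ := hG (κ / 2) (half_pos hκ)
  refine ⟨min η (κ / 2), lt_min hη (half_pos hκ), max n0 (max t 4), ?_⟩
  intro E _ _ _ _ _ _ n hn hn0 v c hc hb A hA hBad hAc
  have hn0' : n0 ≤ Module.finrank ℝ E := by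
    rw [hn]; exact le_trans (le_max_left _ _) hn0
  have htn : t ≤ n := le_trans (le_trans (le_max_left _ _) (le_max_right _ _)) hn0
  have h4 : 4 ≤ n := le_trans (le_trans (le_max_right _ _) (le_max_right _ _)) hn0
  have h1 : 1 ≤ Module.finrank ℝ E := by omega
  obtain ⟨s, hs⟩ := exists_simplex (E := E) (by omega : 2 ≤ t) htn hn
  have hprob : IsProbabilityMeasure (sm E) := sm_prob h1
  have hmp := mm_props h4
  have m0 : mm n 0 = 1 / 2 := hmp.1
  have hmono := hmp.2.1 0 c hc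
  have hcap : ∀ w : SS E, ∀ d : ℝ, (sm E).real (Cp w d) = mm n d := fun w d => cap_meas hn h4 w d
  have ht1 : (0 : ℝ) < (t : ℝ) - 1 := by
    have : (3 : ℝ) ≤ t := by exact_mod_cast ht
    linarith
  have hb1 : Real.sqrt n * c ≤ η := le_trans hb (min_le_left _ _)
  have hb2 : Real.sqrt n * c ≤ κ / 2 := le_trans hb (min_le_right _ _)
  have h0 : (hm E).real {g | ∀ i, sa g (s i) ∈ A} ≤ p0 := by
    have he : {g : UG E | ∀ i, sa g (s i) ∈ A} = ∅ := by
      ext g
      simp only [Set.mem_ofPred_eq, Set.mem_empty_iff_false, iff_false]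
      intro hg
      obtain ⟨i, j, hij, hlt⟩ := hBad (fun i => sa g (s i)) hg
      have hsij := hs i j hij
      simp only [sa_coe] at hlt
      rw [av_inner, hsij] at hlt
      unfold rhoc at hlt
      rw [div_lt_div_iff_of_pos_right ht1] at hlt
      nlinarith [mul_nonneg (Nat.cast_nonneg t : (0 : ℝ) ≤ t) (sq_nonneg c)]
    rw [he]
    simp only [measureReal_empty]
    exact hp0.le
  have hhalf : 1 / 2 - η ≤ (sm E).real A := by
    have := hcap v c
    linarith [hmono.2]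
  obtain ⟨v', hv'⟩ := H E hn0' s hs A hA.measurableSet h0 hhalf
  refine ⟨v', ?_⟩
  have hCm : ∀ d : ℝ, MeasurableSet (Cp v' d) := by
    intro d
    have : IsClosed (Cp v' d) :=
      isClosed_le continuous_const (continuous_const.inner continuous_subtype_val)
    exact this.measurableSet
  have hsub : Cp v' c ⊆ Cp v' 0 := fun x hx => le_trans hc hx
  have hd : (sm E).real (Cp v' 0 \ Cp v' c) ≤ κ / 2 := by
    rw [measureReal_sdiff hsub (hCm c)]
    rw [hcap, hcap]
    linarith [hmono.2]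
  have hset : symmDiff A (Cp v' c) ⊆ symmDiff A (Cp v' 0) ∪ (Cp v' 0 \ Cp v' c) := by
    intro x hx
    rcases hx with ⟨hx1, hx2⟩ | ⟨hx1, hx2⟩
    · by_cases h : x ∈ Cp v' 0
      · exact Or.inr ⟨h, hx2⟩
      · exact Or.inl (Or.inl ⟨hx1, h⟩)
    · exact Or.inl (Or.inr ⟨hsub hx1, hx2⟩)
  calc (sm E).real (symmDiff A (Cp v' c))
      ≤ (sm E).real (symmDiff A (Cp v' 0) ∪ (Cp v' 0 \ Cp v' c)) := measureReal_mono hset
    _ ≤ (sm E).real (symmDiff A (Cp v' 0)) + (sm E).real (Cp v' 0 \ Cp v' c) :=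
        measureReal_union_le _ _
    _ ≤ κ / 2 + κ / 2 := add_le_add hv' hd
    _ = κ := by ring

-- g_big
theorem g_big (t : ℕ) (ht : 3 ≤ t) (hG : G0st t) {ε κ b0 : ℝ} (hε : 0 < ε) (hκ : 0 < κ)
    (hb0 : 0 < b0) : ∃ n0 : ℕ, ∀ (E : Type) [NormedAddCommGroup E]
    [InnerProductSpace ℝ E] [CompleteSpace E] [FiniteDimensional ℝ E] [MeasurableSpace E]
    [BorelSpace E], ∀ n : ℕ, Module.finrank ℝ E = n → n0 ≤ n → ∀ (v : SS E) (c : ℝ), 0 ≤ c →
    b0 ≤ Real.sqrt n * c → ε ≤ (sm E).real (Cp v c) →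
    ∀ A : Set (SS E), IsClosed A → Bad t (rhoc t c) A →
    (sm E).real (Cp v c) ≤ (sm E).real A →
    ∃ v' : SS E, (sm E).real (symmDiff A (Cp v' c)) ≤ κ := by
  obtain ⟨κ', hκ', hκ'1, hκ'le⟩ : ∃ κ' : ℝ, 0 < κ' ∧ κ' ≤ 1 ∧ κ' ≤ κ :=
    ⟨min κ 1, lt_min hκ one_pos, min_le_right _ _, min_le_left _ _⟩
  obtain ⟨H, hH⟩ : ∃ H, H = Real.sqrt (1 / ε) := ⟨_, rfl⟩
  have hH0 : 0 < H := by rw [hH]; exact Real.sqrt_pos.2 (by positivity)
  obtain ⟨ε1, hε1⟩ : ∃ ε1, ε1 = κ' / 16 := ⟨_, rfl⟩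
  have hε1p : 0 < ε1 := by rw [hε1]; positivity
  have hε1le : ε1 ≤ 1 := by rw [hε1]; linarith
  obtain ⟨κ0, hκ0⟩ : ∃ κ0, κ0 = κ' * ε1 / (16 * 61) := ⟨_, rfl⟩
  have hκ0p : 0 < κ0 := by rw [hκ0]; positivity
  have hκ0m : (1 + 60 / ε1) * κ0 ≤ κ' / 16 := by
    have : (1 + 60 / ε1) * κ0 = (ε1 + 60) * κ' / (16 * 61) := by
      rw [hκ0]; field_simp
    rw [this, div_le_div_iff₀ (by norm_num) (by norm_num)]
    nlinarith
  obtain ⟨p0, hp0, η, hη, n1, hG1⟩ := hG κ0 hκ0p
  obtain ⟨p1, hp1, hp11, hp10⟩ : ∃ p1 : ℝ, 0 < p1 ∧ p1 ≤ 1 ∧ p1 ≤ p0 :=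
    ⟨min p0 1, lt_min hp0 one_pos, min_le_right _ _, min_le_left _ _⟩
  obtain ⟨b, hb, hbb0, hbε, hbη, hb1⟩ : ∃ b : ℝ, 0 < b ∧ b ≤ b0 ∧ b ≤ ε1 ∧ 2 * b ≤ η ∧ b ≤ 1 := by
    refine ⟨min b0 (min ε1 (min (η / 2) 1)), ?_, min_le_left _ _, ?_, ?_, ?_⟩
    · refine lt_min hb0 (lt_min hε1p (lt_min (by positivity) one_pos))
    · exact (min_le_right _ _).trans (min_le_left _ _)
    · have : min b0 (min ε1 (min (η / 2) 1)) ≤ η / 2 :=
        (min_le_right _ _).trans ((min_le_right _ _).trans (min_le_left _ _))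
      linarith
    · exact (min_le_right _ _).trans ((min_le_right _ _).trans (min_le_right _ _))
  obtain ⟨ζ', hζ', n2, hbig⟩ := nb_big hH0 hb hb1
  obtain ⟨ζ, hζ, hζζ', hζκ, hζ8, hζε⟩ : ∃ ζ : ℝ, 0 < ζ ∧ ζ ≤ ζ' / 8 ∧ ζ ≤ κ' / 64 ∧ ζ ≤ 1 / 8 ∧
      ζ ≤ ε / 8 := by
    refine ⟨min (ζ' / 8) (min (κ' / 64) (min (1 / 8) (ε / 8))), ?_, min_le_left _ _, ?_, ?_, ?_⟩
    · refine lt_min (by positivity) (lt_min (by positivity) (lt_min (by norm_num) (by positivity)))
    · exact (min_le_right _ _).trans (min_le_left _ _)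
    · exact (min_le_right _ _).trans ((min_le_right _ _).trans (min_le_left _ _))
    · exact (min_le_right _ _).trans ((min_le_right _ _).trans (min_le_right _ _))
  obtain ⟨θ, hθ0, hθ1, n3, hsmall⟩ := nb_small t (by omega) hζ hζ8 hp1 hp11 hb hb1 hH0
  obtain ⟨n4, hshift⟩ := shift hH0 hε1p hε1le
  obtain ⟨n5, hn5⟩ := exists_nat_gt (1 / ζ + 2)
  refine ⟨max n1 (max n2 (max n3 (max n4 (max n5 (max t 5))))), ?_⟩
  intro E _ _ _ _ _ _ n hn hnn v c hc hbc hεc A hA hBad hle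
  simp only [max_le_iff] at hnn
  obtain ⟨hn1, hn2, hn3, hn4, hn5', hnt, hn55⟩ := hnn
  have := sm_prob (E := E) (by omega)
  have hnpos : (0 : ℝ) < n := by
    have : 0 < n := by omega
    exact_mod_cast this
  have hsq : 0 < Real.sqrt n := Real.sqrt_pos.2 hnpos
  have hcH : Real.sqrt n * c ≤ H := by
    rw [hH]; exact cap_height0 hn (by omega) v hc hε hεc
  have hbc' : b ≤ Real.sqrt n * c := hbb0.trans hbc
  have hn2z : 1 / ((n : ℝ) - 2) ≤ ζ := by
    have h1 : 1 / ζ + 2 < n := hn5.trans_le (by exact_mod_cast hn5')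
    have h2 : 1 / ζ < (n : ℝ) - 2 := by linarith
    have h3 : 0 < (n : ℝ) - 2 := lt_trans (by positivity) h2
    rw [div_lt_iff₀ hζ] at h2
    rw [div_le_iff₀ h3]
    linarith
  have hmA : MeasurableSet A := hA.measurableSet
  have hBM : BM (ind A) := by
    refine ⟨measurable_const.indicator hmA, 1, fun x => ?_⟩
    unfold ind
    by_cases hx : x ∈ A
    · rw [Set.indicator_of_mem hx]; simp
    · rw [Set.indicator_of_notMem hx]; simp
  have hcos0 : 0 ≤ Real.cos θ :=
    Real.cos_nonneg_of_neg_pi_div_two_le_of_le (by linarith [Real.pi_pos])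
      (by linarith [Real.pi_gt_three])
  have hcos1 : Real.cos θ ≤ 1 := Real.cos_le_one θ
  have hPm : Measurable (PP (Real.cos θ) (ind A)) :=
    (PP_basic (by omega) (Real.cos θ) hBM hBM).1.1
  obtain ⟨A0, hA0⟩ : ∃ A0 : Set (SS E), A0 = A ∩ {x | 2 * ζ ≤ PP (Real.cos θ) (ind A) x} :=
    ⟨_, rfl⟩
  have hA0m : MeasurableSet A0 := by
    rw [hA0]; exact hmA.inter (measurableSet_le measurable_const hPm)
  have hAA0 : (sm E).real A ≤ (sm E).real A0 + 3 * ζ := by
    have h1 := A_minus hn (by omega) hcos0 hcos1 (by linarith : (0 : ℝ) ≤ 2 * ζ) hmA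
    have h2 : A ⊆ A0 ∪ {x | x ∈ A ∧ PP (Real.cos θ) (ind A) x < 2 * ζ} := by
      intro x hx
      by_cases h : 2 * ζ ≤ PP (Real.cos θ) (ind A) x
      · left; rw [hA0]; exact ⟨hx, h⟩
      · right; exact ⟨hx, not_le.1 h⟩
    have h3 := (measureReal_mono (μ := sm E) h2).trans (measureReal_union_le _ _)
    linarith
  obtain ⟨K, hKA0, hKc, hKlt⟩ := hA0m.exists_isCompact_lt_add (μ := sm E)
    (measure_ne_top _ _) (ε := ENNReal.ofReal ζ) (by simpa using hζ)
  have hKm : (sm E).real A0 ≤ (sm E).real K + ζ := by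
    have h1 : (sm E A0).toReal ≤ (sm E K + ENNReal.ofReal ζ).toReal :=
      ENNReal.toReal_mono (by simp [measure_ne_top]) hKlt.le
    rw [ENNReal.toReal_add (measure_ne_top _ _) ENNReal.ofReal_ne_top,
      ENNReal.toReal_ofReal hζ.le] at h1
    exact h1
  have hKA : K ⊆ A := hKA0.trans (by rw [hA0]; exact Set.inter_subset_left)
  have hAK : (sm E).real A ≤ (sm E).real K + 4 * ζ := by linarith
  have hKcl : IsClosed K := hKc.isClosed
  have hKne : K.Nonempty := by
    rw [Set.nonempty_iff_ne_empty]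
    intro h0
    rw [h0, measureReal_empty] at hAK
    linarith
  have hcap : ∀ (w : SS E) (a : ℝ), (sm E).real (Cp w a) = mm n a :=
    fun w a => cap_meas hn (by omega) w a
  have hB2 : 1 / 2 - 2 * b ≤ (sm E).real {x | infDist x K < c - b / (8 * Real.sqrt n)} := by
    refine hbig E n hn hn2 c hbc' hcH K hKcl ?_
    rw [← hcap v c]
    linarith
  obtain ⟨s, hs⟩ := exists_simplex (E := E) (t := t) (n := n) (by omega) hnt hn
  have hP : (hm E).real {g | ∀ i, infDist (sa g (s i)) K < c - b / (8 * Real.sqrt n)} ≤ p1 := by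
    refine hsmall E n hn hn3 c hbc' hcH A hmA hBad K (fun x hx => ?_) hKne s hs
    have := hKA0 hx
    rw [hA0] at this
    exact this.2
  obtain ⟨B, hB⟩ : ∃ B : Set (SS E), B = {x | infDist x K < c - b / (8 * Real.sqrt n)} :=
    ⟨_, rfl⟩
  have hBm : MeasurableSet B := by
    rw [hB]
    exact (isOpen_lt (continuous_infDist_pt K) continuous_const).measurableSet
  obtain ⟨v', hv'⟩ := hG1 E (by omega) s hs B hBm (by
    rw [hB]; exact hP.trans hp10) (by rw [hB]; linarith)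
  refine ⟨v', ?_⟩
  have h5 : (sm E).real {x | infDist x K < c - b / (8 * Real.sqrt n) ∧ ⟪(v' : E), (x : E)⟫ < 0}
      ≤ κ0 := by
    refine (measureReal_mono (μ := sm E) ?_).trans hv'
    rintro x ⟨hx1, hx2⟩
    rw [Set.mem_symmDiff]
    left
    refine ⟨by rw [hB]; exact hx1, fun h => ?_⟩
    simp only [Set.mem_ofPred_eq] at h
    linarith
  have h6 : (sm E).real {x | x ∈ K ∧ ⟪(v' : E), (x : E)⟫ < c - ε1 / Real.sqrt n} ≤ κ' / 16 := by
    refine (hshift E n hn hn4 v' c b hb hbε hbc' hcH K hKcl).trans (le_trans ?_ hκ0m)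
    exact mul_le_mul_of_nonneg_left h5 (by positivity)
  have hmm := (mm_props (n := n) (by omega)).2.1
  have h7 : (sm E).real (Cp v' (c - ε1 / Real.sqrt n) \ Cp v' c) ≤ ε1 := by
    have hle' : c - ε1 / Real.sqrt n ≤ c := by
      have : 0 ≤ ε1 / Real.sqrt n := by positivity
      linarith
    have hsub : Cp v' c ⊆ Cp v' (c - ε1 / Real.sqrt n) := fun x hx => hle'.trans hx
    have hmeas : MeasurableSet (Cp v' c) := by
      have : IsClosed (Cp v' c) :=
        isClosed_le continuous_const (continuous_const.inner continuous_subtype_val)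
      exact this.measurableSet
    rw [measureReal_sdiff hsub hmeas, hcap, hcap]
    have := (hmm _ _ hle').2
    refine this.trans (le_of_eq ?_)
    rw [show c - (c - ε1 / Real.sqrt n) = ε1 / Real.sqrt n by ring]
    field_simp
  have h8 : (sm E).real (A \ K) ≤ 4 * ζ := by
    rw [measureReal_sdiff hKA hKcl.measurableSet]
    linarith
  have h9 : (sm E).real (A \ Cp v' c) ≤ κ' / 4 := by
    have hsub : A \ Cp v' c ⊆ ((A \ K) ∪
        {x | x ∈ K ∧ ⟪(v' : E), (x : E)⟫ < c - ε1 / Real.sqrt n}) ∪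
        (Cp v' (c - ε1 / Real.sqrt n) \ Cp v' c) := by
      rintro x ⟨hx1, hx2⟩
      by_cases hK : x ∈ K
      · by_cases h : c - ε1 / Real.sqrt n ≤ ⟪(v' : E), (x : E)⟫
        · right; exact ⟨h, hx2⟩
        · left; right; exact ⟨hK, not_le.1 h⟩
      · left; left; exact ⟨hx1, hK⟩
    have e1 := measureReal_mono (μ := sm E) hsub
    have e2 := measureReal_union_le (μ := sm E) ((A \ K) ∪
        {x | x ∈ K ∧ ⟪(v' : E), (x : E)⟫ < c - ε1 / Real.sqrt n})
        (Cp v' (c - ε1 / Real.sqrt n) \ Cp v' c)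
    have e3 := measureReal_union_le (μ := sm E) (A \ K)
        {x | x ∈ K ∧ ⟪(v' : E), (x : E)⟫ < c - ε1 / Real.sqrt n}
    linarith
  have hmeas : MeasurableSet (Cp v' c) := by
    have : IsClosed (Cp v' c) :=
      isClosed_le continuous_const (continuous_const.inner continuous_subtype_val)
    exact this.measurableSet
  have h10 : (sm E).real (Cp v' c \ A) ≤ (sm E).real (A \ Cp v' c) := by
    have e1 := measureReal_sdiff_add_inter (μ := sm E) (s := A) (t := Cp v' c) hmeas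
    have e2 := measureReal_sdiff_add_inter (μ := sm E) (s := Cp v' c) (t := A) hmA
    rw [Set.inter_comm] at e2
    have e3 : (sm E).real (Cp v' c) ≤ (sm E).real A := by
      rw [hcap, ← hcap v c]; exact hle
    linarith
  have h11 : (sm E).real (symmDiff A (Cp v' c)) ≤
      (sm E).real (A \ Cp v' c) + (sm E).real (Cp v' c \ A) := by
    rw [Set.symmDiff_def]
    exact measureReal_union_le _ _
  linarith


-- Gst_all
theorem Gst_all (t : ℕ) (ht : 3 ≤ t) : Gst t := by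
  intro ε κ hε hκ
  obtain ⟨b, hb, n1, h1⟩ := g_small t ht (G0_all t ht) hκ
  obtain ⟨n2, h2⟩ := g_big t ht (G0_all t ht) hε hκ hb
  refine ⟨max n1 n2, ?_⟩
  intro E _ _ _ _ _ _ hn v c hc hm A hA hbad hle
  by_cases hcb : Real.sqrt (Module.finrank ℝ E) * c ≤ b
  · exact h1 E _ rfl ((le_max_left _ _).trans hn) v c hc hcb A hA hbad hle
  · exact h2 E _ rfl ((le_max_right _ _).trans hn) v c hc (not_le.mp hcb).le hm A hA hbad hle


end CoreW

end Pool.Agent.helper440_simplex
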