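import Pool.Agent.helper440_simplex.LocalA
import Pool.Agent.helper440_simplex.GCap
import Pool.Agent.helper440_simplex.CapMain

set_option autoImplicit false
set_option linter.unusedSectionVars false

namespace Pool.Agent.helper440_simplex

open MeasureTheory Metric Set Filter Topology
open scoped RealInnerProductSpace

section CoreW
variable {E : Type*} [NormedAddCommGroup E] [InnerProductSpace ℝ E] [CompleteSpace E]
  [FiniteDimensional ℝ E] [MeasurableSpace E] [BorelSpace E]

/-! # The exact theorem -/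

-- iso_half
theorem iso_half {E : Type*} [NormedAddCommGroup E] [InnerProductSpace ℝ E] [CompleteSpace E]
    [FiniteDimensional ℝ E] [MeasurableSpace E] [BorelSpace E] {n : ℕ}
    (hn : Module.finrank ℝ E = n) (h4 : 4 ≤ n) (v : SS E) {c : ℝ} (h0 : 0 < c) (h1 : c < 1)
    {A : Set (SS E)} (hA : IsClosed A) (hAc : mm n c < (sm E).real A) :
    1 / 2 < (sm E).real {x | infDist x A ≤ Real.sqrt (2 - 2 * Real.sqrt (1 - c ^ 2))} := by
  have hn1 : 1 ≤ Module.finrank ℝ E := by omega
  have hn2 : 2 ≤ Module.finrank ℝ E := by omega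
  obtain ⟨m0, mlip, mlt, mcont, mbd, mone, mint⟩ := mm_props h4
  set δ : ℝ := Real.sqrt (2 - 2 * Real.sqrt (1 - c ^ 2)) with hδ
  have hsm : ∀ S : Set (SS E), MeasurableSet S →
      (sm E).real S = (hm E).real {g | sa g v ∈ S} := by
    intro S hS
    rw [sm_eq hn1 v]
    exact map_measureReal_apply (sa_continuous_left v).measurable hS
  -- A nonempty
  have hAne : A.Nonempty := by
    rw [Set.nonempty_iff_ne_empty]
    rintro rfl
    have := (mbd c).1
    simp at hAc
    linarith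
  -- the function
  let f : SS E → ℝ := fun x => - infDist x A
  have hfl : ∀ x y : SS E, |f x - f y| ≤ 1 * ‖(x : E) - y‖ := by
    intro x y
    have e : ‖(x : E) - y‖ = dist x y := by rw [Subtype.dist_eq, dist_eq_norm]
    rw [e, one_mul, abs_le]
    have a1 := infDist_le_infDist_add_dist (s := A) (x := x) (y := y)
    have a2 := infDist_le_infDist_add_dist (s := A) (x := y) (y := x)
    rw [dist_comm y x] at a2
    simp only [f]
    constructor <;> linarith
  have hfM : ∀ x, f x ∈ Icc (-2 : ℝ) 2 := by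
    intro x
    obtain ⟨a, ha⟩ := hAne
    have a1 : infDist x A ≤ dist x a := infDist_le_dist_of_mem ha
    have a2 : dist x a ≤ 2 := by
      rw [Subtype.dist_eq, dist_eq_norm]
      calc ‖(x : E) - a‖ ≤ ‖(x : E)‖ + ‖(a : E)‖ := norm_sub_le _ _
        _ = 2 := by rw [norm_eq_of_mem_sphere x, norm_eq_of_mem_sphere a]; norm_num
    have a3 : 0 ≤ infDist x A := infDist_nonneg
    simp only [f, Set.mem_Icc]
    constructor <;> linarith
  obtain ⟨u, hu, huM, hlaw, hmono⟩ := rearr hn1 (zero_le_one) (v : E) v hfl hfM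
  have huc : Continuous u := cont_of_lip hu
  have hfc : Continuous f := cont_of_lip hfl
  have key : ∀ s : Set ℝ, MeasurableSet s →
      (sm E).real {x | u x ∈ s} = (sm E).real {x | f x ∈ s} := by
    intro s hs
    change (sm E).real (u ⁻¹' s) = (sm E).real (f ⁻¹' s)
    rw [hsm _ (huc.measurable hs), hsm _ (hfc.measurable hs)]
    exact law_eq huc hfc hlaw hs
  have hfA : {x | f x ∈ Ici (0 : ℝ)} = A := by
    ext x
    simp only [f, Set.mem_setOf_eq, Set.mem_Ici]
    rw [hA.mem_iff_infDist_zero hAne]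
    have := infDist_nonneg (x := x) (s := A)
    constructor
    · intro h; linarith
    · intro h; linarith
  have hu0 : (sm E).real {x | u x ∈ Ici (0 : ℝ)} = (sm E).real A := by
    rw [key _ measurableSet_Ici, hfA]
  have _inst := sm_prob hn1 (E := E)
  -- choose c1
  have hsn : 0 < Real.sqrt n := Real.sqrt_pos.mpr (by exact_mod_cast (by omega : 0 < n))
  set d : ℝ := min (c / 2) (((sm E).real A - mm n c) / (2 * Real.sqrt n)) with hd
  have hd0 : 0 < d := lt_min (by linarith) (div_pos (by linarith) (by positivity))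
  have hdc : d ≤ c / 2 := min_le_left _ _
  have hdm : Real.sqrt n * d ≤ ((sm E).real A - mm n c) / 2 := by
    have : d ≤ ((sm E).real A - mm n c) / (2 * Real.sqrt n) := min_le_right _ _
    calc Real.sqrt n * d ≤ Real.sqrt n * (((sm E).real A - mm n c) / (2 * Real.sqrt n)) :=
          mul_le_mul_of_nonneg_left this hsn.le
      _ = ((sm E).real A - mm n c) / 2 := by field_simp
  set c1 : ℝ := c - d with hc1
  have hc1pos : 0 < c1 := by linarith
  have hc1c : c1 < c := by linarith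
  have hm1 : mm n c1 < (sm E).real A := by
    have := (mlip c1 c hc1c.le).2
    have e : c - c1 = d := by ring
    rw [e] at this
    linarith
  -- a point
  obtain ⟨y0, hy0, hy0c⟩ : ∃ y0 : SS E, 0 ≤ u y0 ∧ ⟪(v : E), (y0 : E)⟫ < c1 := by
    by_contra hcon
    push Not at hcon
    have hsub : {x | u x ∈ Ici (0 : ℝ)} ⊆ {x : SS E | c1 ≤ ⟪(v : E), (x : E)⟫} :=
      fun x hx => hcon x hx
    have h2 := measureReal_mono (μ := sm E) hsub (measure_ne_top _ _)
    rw [hu0, cap_meas hn h4] at h2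
    linarith
  have hupos : ∀ x : SS E, c1 ≤ ⟪(v : E), (x : E)⟫ → 0 ≤ u x := by
    intro x hx
    exact hy0.trans (hmono x y0 (lt_of_lt_of_le hy0c hx))
  -- choose e0
  have hsq : Real.sqrt (1 - c ^ 2) < Real.sqrt (1 - c1 ^ 2) := by
    apply Real.sqrt_lt_sqrt
    · nlinarith
    · nlinarith
  obtain ⟨e0, he0, he1, heF⟩ : ∃ e0 : ℝ, 0 < e0 ∧ e0 ≤ 1 / 2 ∧
      Real.sqrt (1 - c ^ 2) ≤ (-e0) * c1 + Real.sqrt (1 - (-e0) ^ 2) * Real.sqrt (1 - c1 ^ 2) := by
    have hFc : Continuous (fun e : ℝ => (-e) * c1 + Real.sqrt (1 - (-e) ^ 2) *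
        Real.sqrt (1 - c1 ^ 2)) := by fun_prop
    have h00 : Real.sqrt (1 - c ^ 2) < (fun e : ℝ => (-e) * c1 + Real.sqrt (1 - (-e) ^ 2) *
        Real.sqrt (1 - c1 ^ 2)) 0 := by
      simpa using hsq
    have hev := hFc.continuousAt.eventually (lt_mem_nhds h00)
    obtain ⟨r, hr, hball⟩ := Metric.eventually_nhds_iff.mp hev
    refine ⟨min (r / 2) (1 / 2), lt_min (by linarith) (by norm_num), min_le_right _ _, ?_⟩
    have : dist (min (r / 2) (1 / 2)) 0 < r := by
      rw [Real.dist_eq, sub_zero, abs_of_pos (lt_min (by linarith) (by norm_num))]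
      exact lt_of_le_of_lt (min_le_left _ _) (by linarith)
    exact (hball this).le
  -- points at height -e0
  have hlow : ∀ w : SS (Pe v), -δ ≤ u (pt v (-e0) w) := by
    intro w
    have p1 := (pt_inner (r := -e0) (r' := c1) (by linarith) (by linarith) (by linarith)
      (by linarith) v w w).2
    have p2 := (pt_inner (r := c1) (r' := c1) (by linarith) (by linarith) (by linarith)
      (by linarith) v w w).1
    have hw : ⟪(w : Pe v), (w : Pe v)⟫ = (1 : ℝ) := by
      rw [real_inner_self_eq_norm_sq, norm_eq_of_mem_sphere w]; norm_num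
    rw [hw, mul_one] at p1
    have hd2 := dist_sq (pt v (-e0) w) (pt v c1 w)
    rw [p1] at hd2
    have hdδ : dist (pt v (-e0) w) (pt v c1 w) ≤ δ := by
      apply Real.le_sqrt_of_sq_le
      rw [hd2]
      linarith
    have h3 := hu (pt v (-e0) w) (pt v c1 w)
    have e : ‖(pt v (-e0) w : E) - (pt v c1 w : E)‖ = dist (pt v (-e0) w) (pt v c1 w) := by
      rw [Subtype.dist_eq, dist_eq_norm]
    rw [e, one_mul, abs_le] at h3
    have h4' := hupos (pt v c1 w) p2.ge
    linarith [h3.1]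
  have hincl : {x : SS E | -e0 ≤ ⟪(v : E), (x : E)⟫} ⊆ {x | u x ∈ Ici (-δ)} := by
    intro x hx
    simp only [Set.mem_setOf_eq] at hx
    obtain ⟨w, hw⟩ := pt_surj hn2 v x
    show -δ ≤ u x
    rcases hx.lt_or_eq with hlt | heq
    · have p2 := (pt_inner (r := -e0) (r' := c1) (by linarith) (by linarith) (by linarith)
        (by linarith) v w w).1
      exact (hlow w).trans (hmono x (pt v (-e0) w) (by rw [p2]; exact hlt))
    · rw [hw, ← heq]
      exact hlow w
  have hmeas := measureReal_mono (μ := sm E) hincl (measure_ne_top _ _)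
  rw [cap_meas hn h4, key _ measurableSet_Ici] at hmeas
  have hset : {x | f x ∈ Ici (-δ)} = {x | infDist x A ≤ δ} := by
    ext x
    simp only [f, Set.mem_setOf_eq, Set.mem_Ici]
    constructor <;> intro h <;> linarith
  rw [hset] at hmeas
  refine lt_of_lt_of_le ?_ hmeas
  have hi := mint (-e0) 0 (by linarith)
  obtain ⟨_, ocont, _, _, opos, _⟩ := om_basic h4
  have hpos : 0 < ∫ s in (-e0)..0, om n s := by
    apply intervalIntegral.intervalIntegral_pos_of_pos_on (ocont.intervalIntegrable _ _)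
    · intro s hs
      apply opos
      rw [abs_lt]
      constructor <;> linarith [hs.1, hs.2]
    · linarith
  linarith

-- Thm_two
theorem Thm_two_half {E : Type*} [NormedAddCommGroup E] [InnerProductSpace ℝ E] [CompleteSpace E]
    [FiniteDimensional ℝ E] [MeasurableSpace E] [BorelSpace E]
    (hn : 1 ≤ Module.finrank ℝ E) {D : Set (SS E)} (hD : MeasurableSet D)
    (h : 1 / 2 < (sm E).real D) : ∃ x y : SS E, (y : E) = -x ∧ x ∈ D ∧ y ∈ D := by
  haveI := sm_prob (E := E) hn
  set g0 : UG E := ⟨-1, by rw [Unitary.mem_iff]; simp⟩ with hg0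
  have hg : ∀ x : SS E, (sa g0 x : E) = -x := by
    intro x
    rw [sa_coe]
    unfold av
    simp [hg0]
  have h1 : (sm E).real (sa g0 ⁻¹' D) = (sm E).real D := by
    unfold Measure.real
    rw [(sm_inv g0).measure_preimage hD.nullMeasurableSet]
  by_contra hne
  push Not at hne
  have hdis : Disjoint D (sa g0 ⁻¹' D) := by
    rw [Set.disjoint_left]
    intro x hx hx'
    exact hne x (sa g0 x) (hg x) hx hx'
  have h2 : (sm E).real (D ∪ sa g0 ⁻¹' D) = (sm E).real D + (sm E).real (sa g0 ⁻¹' D) :=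
    measureReal_union hdis ((sm_inv g0).measurable hD)
  have h3 : (sm E).real (D ∪ sa g0 ⁻¹' D) ≤ 1 := measureReal_le_one
  rw [h2, h1] at h3
  linarith

theorem Thm_two_inner {E : Type*} [NormedAddCommGroup E] [InnerProductSpace ℝ E]
    (x a b : SS E) {s c : ℝ} (hs : 0 ≤ s) (hsc : s ^ 2 = 1 - c ^ 2) (hc : 0 ≤ c)
    (ha : s ≤ ⟪(x : E), (a : E)⟫) (hb : ⟪(x : E), (b : E)⟫ ≤ -s) :
    ⟪(a : E), (b : E)⟫ ≤ 2 * c ^ 2 - 1 := by
  have hx1 : ‖(x : E)‖ = 1 := norm_eq_of_mem_sphere x
  have ha1 : ‖(a : E)‖ = 1 := norm_eq_of_mem_sphere a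
  have hb1 : ‖(b : E)‖ = 1 := norm_eq_of_mem_sphere b
  set α := ⟪(x : E), (a : E)⟫ with hα
  set β := ⟪(x : E), (b : E)⟫ with hβ
  have hxx : ⟪(x : E), (x : E)⟫ = 1 := by rw [real_inner_self_eq_norm_sq, hx1]; norm_num
  have haa : ⟪(a : E), (a : E)⟫ = 1 := by rw [real_inner_self_eq_norm_sq, ha1]; norm_num
  have hbb : ⟪(b : E), (b : E)⟫ = 1 := by rw [real_inner_self_eq_norm_sq, hb1]; norm_num
  have e1 : ⟪(a : E) - α • (x : E), (b : E) - β • (x : E)⟫ = ⟪(a : E), (b : E)⟫ - α * β := by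
    rw [inner_sub_left, inner_sub_right, inner_sub_right, real_inner_smul_left,
      real_inner_smul_right, real_inner_smul_left, real_inner_smul_right, hxx,
      real_inner_comm (x : E) (a : E), ← hα, ← hβ]
    ring
  have e2 : ‖(a : E) - α • (x : E)‖ ^ 2 = 1 - α ^ 2 := by
    rw [← real_inner_self_eq_norm_sq, inner_sub_left, inner_sub_right, inner_sub_right,
      real_inner_smul_left, real_inner_smul_right, real_inner_smul_left, real_inner_smul_right,
      hxx, haa, real_inner_comm (x : E) (a : E), ← hα]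
    ring
  have e3 : ‖(b : E) - β • (x : E)‖ ^ 2 = 1 - β ^ 2 := by
    rw [← real_inner_self_eq_norm_sq, inner_sub_left, inner_sub_right, inner_sub_right,
      real_inner_smul_left, real_inner_smul_right, real_inner_smul_left, real_inner_smul_right,
      hxx, hbb, real_inner_comm (x : E) (b : E), ← hβ]
    ring
  have f2 : ‖(a : E) - α • (x : E)‖ ≤ c := by
    apply abs_le_of_sq_le_sq' _ hc |>.2
    rw [e2]; nlinarith
  have f3 : ‖(b : E) - β • (x : E)‖ ≤ c := by
    apply abs_le_of_sq_le_sq' _ hc |>.2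
    rw [e3]; nlinarith
  have h1 := real_inner_le_norm ((a : E) - α • (x : E)) ((b : E) - β • (x : E))
  have h2 : ‖(a : E) - α • (x : E)‖ * ‖(b : E) - β • (x : E)‖ ≤ c * c :=
    mul_le_mul f2 f3 (norm_nonneg _) hc
  have h3 : α * β ≤ -(s * s) := by nlinarith
  rw [e1] at h1
  nlinarith

theorem Thm_two_near {E : Type*} [NormedAddCommGroup E] [InnerProductSpace ℝ E]
    [FiniteDimensional ℝ E] {A : Set (SS E)} (hA : IsClosed A) (hne : A.Nonempty) {s : ℝ}
    (hs1 : s ≤ 1) (x : SS E)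
    (hx : infDist x A ≤ Real.sqrt (2 - 2 * s)) :
    ∃ a ∈ A, s ≤ ⟪(x : E), (a : E)⟫ := by
  haveI : ProperSpace E := FiniteDimensional.proper_real E
  obtain ⟨a, haA, ha⟩ := hA.exists_infDist_eq_dist hne x
  refine ⟨a, haA, ?_⟩
  rw [ha] at hx
  have h1 : dist x a ^ 2 ≤ 2 - 2 * s := by
    have : dist x a ^ 2 ≤ (Real.sqrt (2 - 2 * s)) ^ 2 :=
      pow_le_pow_left₀ dist_nonneg hx 2
    rwa [Real.sq_sqrt (by linarith)] at this
  rw [dist_sq] at h1
  linarith

theorem Thm_two : Thm 2 := by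
  intro ε hε
  refine ⟨4, ?_⟩
  intro E _ _ _ _ _ _ hfr v c hc hcap A hA hbad
  obtain ⟨n, hn⟩ : ∃ n, Module.finrank ℝ E = n := ⟨_, rfl⟩
  have h4 : 4 ≤ n := by omega
  have h1 : 1 ≤ Module.finrank ℝ E := by omega
  have hcm : (sm E).real (Cp v c) = mm n c := cap_meas hn h4 v c
  obtain ⟨m0, -, -, -, mb, m1, -⟩ := mm_props h4
  rw [hcm] at hcap ⊢
  by_contra hlt
  push Not at hlt
  have hc1 : c < 1 := by
    by_contra h
    push Not at h
    rw [m1 c h] at hcap
    linarith
  have hpair : ∀ a ∈ A, ∀ b ∈ A, rhoc 2 c < ⟪(a : E), (b : E)⟫ := by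
    intro a ha b hb
    obtain ⟨i, j, hij, h⟩ := hbad ![a, b] (by intro i; fin_cases i <;> simp [ha, hb])
    fin_cases i <;> fin_cases j <;> simp at hij h
    · exact h
    · rw [real_inner_comm]; exact h
  have hrho : rhoc 2 c = 2 * c ^ 2 - 1 := by
    unfold rhoc
    push_cast
    norm_num
  rcases hc.eq_or_lt with h0 | h0
  · rw [← h0, m0] at hlt
    obtain ⟨x, y, hxy, hx, hy⟩ := Thm_two_half h1 hA.measurableSet hlt
    have := hpair x hx y hy
    rw [hxy, inner_neg_right, real_inner_self_eq_norm_sq, norm_eq_of_mem_sphere x, hrho, ← h0]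
      at this
    norm_num at this
  · have hne : A.Nonempty := by
      by_contra h
      rw [Set.not_nonempty_iff_eq_empty] at h
      rw [h, measureReal_empty] at hlt
      linarith [(mb c).1]
    have hD := iso_half hn h4 v h0 hc1 hA hlt
    have hDm : MeasurableSet {x : SS E | infDist x A ≤ Real.sqrt (2 - 2 * Real.sqrt (1 - c ^ 2))} :=
      (isClosed_le (continuous_infDist_pt A) continuous_const).measurableSet
    obtain ⟨x, y, hxy, hx, hy⟩ := Thm_two_half h1 hDm hD
    set s := Real.sqrt (1 - c ^ 2) with hs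
    have hs0 : 0 ≤ s := Real.sqrt_nonneg _
    have hs2 : s ^ 2 = 1 - c ^ 2 := Real.sq_sqrt (by nlinarith)
    have hs1 : s ≤ 1 := by nlinarith
    obtain ⟨a, ha, hxa⟩ := Thm_two_near hA hne hs1 x hx
    obtain ⟨b, hb, hyb⟩ := Thm_two_near hA hne hs1 y hy
    rw [hxy, inner_neg_left] at hyb
    have := Thm_two_inner x a b hs0 hs2 hc hxa (by linarith)
    have h3 := hpair a ha b hb
    rw [hrho] at h3
    linarith

-- Thm_all
theorem Thm_all (t : ℕ) (ht : 2 ≤ t) : Thm t := by
  induction t, ht using Nat.le_induction with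
  | base => exact Thm_two
  | succ n hn ih => exact step_thm (n + 1) (by omega) (by simpa using ih) (Gst_all (n + 1) (by omega))

-- exact_sm
theorem exact_sm_closure {E : Type*} [NormedAddCommGroup E] {t : ℕ} {s : ℝ} {A : Set (SS E)}
    (h : ∀ y : Fin t → SS E, (∀ i, y i ∈ A) → ∃ i j, i ≠ j ∧ dist (y i) (y j) ≤ s)
    (y : Fin t → SS E) (hy : ∀ i, y i ∈ closure A) : ∃ i j, i ≠ j ∧ dist (y i) (y j) ≤ s := by
  by_contra hc
  push Not at hc
  have hopen : IsOpen {y : Fin t → SS E | ∀ i j, i ≠ j → s < dist (y i) (y j)} := by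
    simp only [Set.setOf_forall]
    refine isOpen_iInter_of_finite fun i => isOpen_iInter_of_finite fun j =>
      isOpen_iInter_of_finite fun _ => ?_
    exact isOpen_lt continuous_const ((continuous_apply i).dist (continuous_apply j))
  have hmem : y ∈ closure (Set.pi Set.univ (fun _ : Fin t => A)) := by
    rw [closure_pi_set]
    exact fun i _ => hy i
  obtain ⟨z, hz1, hz2⟩ := mem_closure_iff.mp hmem _ hopen hc
  obtain ⟨i, j, hij, hd⟩ := h z (fun i => hz2 i (Set.mem_univ i))
  exact absurd (hz1 i j hij) (not_lt.mpr hd)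

theorem exact_sm (t : ℕ) (ht : 2 ≤ t) {ε : ℝ} (hε : 0 < ε) :
    ∃ n0 : ℕ, ∀ (E : Type) [NormedAddCommGroup E]
    [InnerProductSpace ℝ E] [CompleteSpace E] [FiniteDimensional ℝ E] [MeasurableSpace E]
    [BorelSpace E], ∀ n : ℕ, Module.finrank ℝ E = n → n0 ≤ n → ∀ A : Set (SS E),
    MeasurableSet A → ∀ (v : SS E) (c : ℝ), (sm E).real A = (sm E).real (Cp v c) →
    ε < (sm E).real A → ∀ r : ℝ,
    (∃ x : Fin t → SS E, (∀ i, c ≤ ⟪(x i : E), (v : E)⟫) ∧
      ∀ i j, i ≠ j → r ≤ dist (x i) (x j)) →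
    ∀ s : ℝ, s < r → ∃ y : Fin t → SS E, (∀ i, y i ∈ A) ∧
      ∀ i j, i ≠ j → s < dist (y i) (y j) := by
  have hm0 : 0 < min ε (1 / 2) := lt_min hε (by norm_num)
  obtain ⟨n1, hn1⟩ := Thm_all t ht (min ε (1 / 2) / 2) (by positivity)
  refine ⟨max n1 4, ?_⟩
  intro E _ _ _ _ _ _ n hn hnn A hA v c hAc hεA r hx s hsr
  obtain ⟨x, hx1, hx2⟩ := hx
  have h4 : 4 ≤ n := le_trans (le_max_right _ _) hnn
  have hn1' : n1 ≤ n := le_trans (le_max_left _ _) hnn
  have hne : A.Nonempty := by
    by_contra h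
    rw [Set.not_nonempty_iff_eq_empty] at h
    rw [h] at hεA
    simp at hεA
    linarith
  obtain ⟨a0, ha0⟩ := hne
  rcases lt_or_ge s 0 with hs | hs
  · exact ⟨fun _ => a0, fun _ => ha0, fun i j _ => by rw [dist_self]; exact hs⟩
  by_contra hcon
  push Not at hcon
  have hcl := exact_sm_closure (s := s) (A := A) hcon
  have hprob : IsProbabilityMeasure (sm E) := sm_prob (by omega)
  have ht1 : (0 : ℝ) < (t : ℝ) - 1 := by
    have : (2 : ℝ) ≤ t := by exact_mod_cast ht
    linarith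
  obtain ⟨hmm0, hmmA, hmmS, hmmC, hmm01, hmm1, -⟩ := mm_props (n := n) h4
  -- the height c'
  obtain ⟨c', hc'⟩ : ∃ c' : ℝ, c' = max c 0 := ⟨_, rfl⟩
  have hc0 : 0 ≤ c' := by rw [hc']; exact le_max_right _ _
  have hcc : c ≤ c' := by rw [hc']; exact le_max_left _ _
  have hsum : t * c' ≤ ‖∑ a, (x a : E)‖ := by
    rcases le_total 0 c with h | h
    · have e1 : c' = c := by rw [hc', max_eq_left h]
      have e2 : ⟪(∑ a, (x a : E)), (v : E)⟫ = ∑ a, ⟪(x a : E), (v : E)⟫ := sum_inner _ _ _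
      have e3 : (t : ℝ) * c ≤ ∑ a, ⟪(x a : E), (v : E)⟫ := by
        have := Finset.sum_le_sum (s := Finset.univ) (fun a _ => hx1 a)
        simpa using this
      have e4 : ⟪(∑ a, (x a : E)), (v : E)⟫ ≤ ‖∑ a, (x a : E)‖ * ‖(v : E)‖ :=
        real_inner_le_norm _ _
      rw [norm_eq_of_mem_sphere v, mul_one] at e4
      rw [e1]
      linarith [e2 ▸ e4]
    · have e1 : c' = 0 := by rw [hc', max_eq_right h]
      rw [e1, mul_zero]
      exact norm_nonneg _
  have hsep := sep_bound ht hc0 (le_trans hs hsr.le) x hsum hx2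
  have hrho : rhoc t c' < 1 - s ^ 2 / 2 := by
    have e1 : rhoc t c' = -1 / (t - 1 : ℝ) + t * c' ^ 2 / (t - 1 : ℝ) := by
      unfold rhoc
      rw [← add_div]
      congr 1
      ring
    have e2 : s ^ 2 < r ^ 2 := by nlinarith
    rw [e1]
    linarith
  have hAm : (sm E).real A = mm n c := by rw [hAc]; exact cap_meas hn h4 v c
  have hAc' : mm n c' ≤ (sm E).real A := by rw [hAm]; exact (hmmA c c' hcc).1
  have hmin : min ε (1 / 2) ≤ mm n c' := by
    rcases le_total 0 c with h | h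
    · have e1 : c' = c := by rw [hc', max_eq_left h]
      rw [e1, ← hAm]
      exact le_trans (min_le_left _ _) hεA.le
    · have e1 : c' = 0 := by rw [hc', max_eq_right h]
      rw [e1, hmm0]
      exact min_le_right _ _
  have hc1 : c' < 1 := by
    by_contra h
    rw [hmm1 c' (not_lt.mp h)] at hmin
    linarith
  have hrc : Continuous (rhoc t) := by
    unfold rhoc
    fun_prop
  have ev1 : ∀ᶠ a in 𝓝[>] c', rhoc t a < 1 - s ^ 2 / 2 :=
    (hrc.continuousAt.mono_left nhdsWithin_le_nhds).eventually (gt_mem_nhds hrho)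
  have ev2 : ∀ᶠ a in 𝓝[>] c', min ε (1 / 2) / 2 < mm n a :=
    (hmmC.continuousAt.mono_left nhdsWithin_le_nhds).eventually
      (lt_mem_nhds (show min ε (1 / 2) / 2 < mm n c' by linarith))
  have ev3 : ∀ᶠ a in 𝓝[>] c', c' < a := self_mem_nhdsWithin
  obtain ⟨a, ha1, ha2, ha3⟩ := (ev1.and (ev2.and ev3)).exists
  have hcap : (sm E).real (Cp v a) = mm n a := cap_meas hn h4 v a
  have hbad : Bad t (rhoc t a) (closure A) := by
    intro y hy
    obtain ⟨i, j, hij, hd⟩ := hcl y hy
    refine ⟨i, j, hij, ?_⟩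
    have e1 := dist_sq (y i) (y j)
    have e2 : dist (y i) (y j) ^ 2 ≤ s ^ 2 := by
      have := dist_nonneg (x := y i) (y := y j)
      nlinarith
    linarith
  have hfin := hn1 E (by rw [hn]; exact hn1') v a (le_trans hc0 ha3.le)
    (by rw [hcap]; exact ha2.le) (closure A) isClosed_closure hbad
  have hmono : (sm E).real A ≤ (sm E).real (closure A) :=
    measureReal_mono subset_closure
  have hlt := hmmS c' a hc0 hc1 ha3
  rw [hcap] at hfin
  linarith

-- exact_main
theorem exact_main :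
    ∀ t : ℕ, 2 ≤ t → ∀ ε : ℝ, 0 < ε → ∃ k₀ : ℕ, ∀ k : ℕ, k₀ < k →
      ∀ A : Set (Metric.sphere (0 : EuclideanSpace ℝ (Fin (k + 1))) 1), MeasurableSet A →
      ∀ v : EuclideanSpace ℝ (Fin (k + 1)), ‖v‖ = 1 → ∀ c : ℝ,
        (MeasureTheory.volume : MeasureTheory.Measure (EuclideanSpace ℝ (Fin (k + 1)))).toSphere A
          = (MeasureTheory.volume : MeasureTheory.Measure (EuclideanSpace ℝ (Fin (k + 1)))).toSphere
              {x | c ≤ inner ℝ (x : EuclideanSpace ℝ (Fin (k + 1))) v} →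
        ENNReal.ofReal ε *
            (MeasureTheory.volume : MeasureTheory.Measure (EuclideanSpace ℝ (Fin (k + 1)))).toSphere Set.univ
          < (MeasureTheory.volume : MeasureTheory.Measure (EuclideanSpace ℝ (Fin (k + 1)))).toSphere A →
        ∀ r : ℝ,
          (∃ x : Fin t → Metric.sphere (0 : EuclideanSpace ℝ (Fin (k + 1))) 1,
              (∀ i, c ≤ inner ℝ (x i : EuclideanSpace ℝ (Fin (k + 1))) v) ∧
              ∀ i j, i ≠ j → r ≤ dist (x i) (x j)) →
          ∀ s : ℝ, s < r →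
            ∃ y : Fin t → Metric.sphere (0 : EuclideanSpace ℝ (Fin (k + 1))) 1,
              (∀ i, y i ∈ A) ∧ ∀ i j, i ≠ j → s < dist (y i) (y j) := by
  classical
  intro t ht ε hε
  obtain ⟨n0, hn0⟩ := exact_sm t ht hε
  refine ⟨n0 + 2, fun k hk A hA v hv c hAc hεA r hx s hs => ?_⟩
  have hfr : Module.finrank ℝ (EuclideanSpace ℝ (Fin (k + 1))) = k + 1 := by simp
  have hn1 : 1 ≤ Module.finrank ℝ (EuclideanSpace ℝ (Fin (k + 1))) := by rw [hfr]; omega
  let v' : SS (EuclideanSpace ℝ (Fin (k + 1))) := ⟨v, mem_sphere_zero_iff_norm.2 hv⟩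
  have hT0 : (MeasureTheory.volume : MeasureTheory.Measure
      (EuclideanSpace ℝ (Fin (k + 1)))).toSphere Set.univ ≠ 0 := by
    rw [Measure.measure_univ_ne_zero]
    exact Measure.toSphere_ne_zero _
  have hTt : (MeasureTheory.volume : MeasureTheory.Measure
      (EuclideanSpace ℝ (Fin (k + 1)))).toSphere Set.univ ≠ ⊤ := measure_ne_top _ _
  have hsm : ∀ B : Set (SS (EuclideanSpace ℝ (Fin (k + 1)))), MeasurableSet B →
      sm (EuclideanSpace ℝ (Fin (k + 1))) B * (MeasureTheory.volume : MeasureTheory.Measure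
        (EuclideanSpace ℝ (Fin (k + 1)))).toSphere Set.univ
        = (MeasureTheory.volume : MeasureTheory.Measure
        (EuclideanSpace ℝ (Fin (k + 1)))).toSphere B := by
    intro B hB
    rw [sm_eq hn1 v', Measure.map_apply (sa_continuous_left v').measurable hB]
    exact law hn1 v' hB
  have hCpm : MeasurableSet (Cp v' c) := by
    apply IsClosed.measurableSet
    exact isClosed_le continuous_const (continuous_const.inner continuous_subtype_val)
  have hCpe : {x : Metric.sphere (0 : EuclideanSpace ℝ (Fin (k + 1))) 1 |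
      c ≤ inner ℝ (x : EuclideanSpace ℝ (Fin (k + 1))) v} = Cp v' c := by
    ext x
    simp only [Cp, Set.mem_setOf_eq]
    rw [real_inner_comm]
  rw [hCpe, ← hsm A hA, ← hsm _ hCpm] at hAc
  have h1 : sm (EuclideanSpace ℝ (Fin (k + 1))) A
      = sm (EuclideanSpace ℝ (Fin (k + 1))) (Cp v' c) :=
    (ENNReal.mul_left_inj hT0 hTt).1 hAc
  rw [← hsm A hA] at hεA
  have h2 : ENNReal.ofReal ε < sm (EuclideanSpace ℝ (Fin (k + 1))) A :=
    (ENNReal.mul_lt_mul_iff_left hT0 hTt).1 hεA
  have hprob := sm_prob hn1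
  refine hn0 (EuclideanSpace ℝ (Fin (k + 1))) (k + 1) hfr (by omega) A hA v' c ?_ ?_ r hx s hs
  · rw [Measure.real, Measure.real, h1]
  · rw [Measure.real]
    exact (ENNReal.ofReal_lt_iff_lt_toReal hε.le (measure_ne_top _ _)).1 h2


end CoreW

end Pool.Agent.helper440_simplex
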