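import Pool.Agent.helper440_simplex.Func

/-! # The algebraic positivity -/

set_option autoImplicit false

namespace Pool.Agent.helper440_simplex

open MeasureTheory Set Filter Topology
open scoped RealInnerProductSpace

variable {t : ℕ} {E : Type*} [NormedAddCommGroup E] [InnerProductSpace ℝ E]

theorem psd_core (ht : 2 ≤ t) (b : Fin t → ℝ) (z : Fin t → E) (B S0 δ Nn : ℝ)
    (hB : 0 ≤ B) (hb : ∀ i, |b i| ≤ B) (hS : 0 < S0) (hW : S0 ≤ ∑ i, b i) (hδ : 0 ≤ δ)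
    (hN : δ * (B + B ^ 2 * t / S0) ≤ Nn) :
    0 ≤ Nn * ((t / (t - 1 : ℝ)) * ∑ i, ‖z i‖ ^ 2 - (1 / (t - 1 : ℝ)) * ‖∑ i, z i‖ ^ 2)
      + δ * ∑ i, b i * ‖z i‖ ^ 2 := by
  have ht2 : (2 : ℝ) ≤ t := by exact_mod_cast ht
  have ht0 : (0 : ℝ) < t := by linarith
  have ht1 : (0 : ℝ) < t - 1 := by linarith
  set zb : E := (1 / (t : ℝ)) • ∑ i, z i with hzb
  set v : Fin t → E := fun i => z i - zb with hv
  have hsumz : ∑ i, z i = (t : ℝ) • zb := by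
    rw [hzb, smul_smul, mul_one_div_cancel ht0.ne', one_smul]
  have hsumv : ∑ i, v i = 0 := by
    simp only [hv, Finset.sum_sub_distrib, Finset.sum_const, Finset.card_univ, Fintype.card_fin]
    rw [hsumz, ← Nat.cast_smul_eq_nsmul ℝ, sub_self]
  have hzi : ∀ i, ‖z i‖ ^ 2 = ‖v i‖ ^ 2 + 2 * ⟪v i, zb⟫ + ‖zb‖ ^ 2 := by
    intro i
    have : z i = v i + zb := by simp [hv]
    rw [this, norm_add_sq_real]
  set V := ∑ i, ‖v i‖ ^ 2 with hV
  have hV0 : 0 ≤ V := Finset.sum_nonneg fun i _ => sq_nonneg _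
  have h1 : ∑ i, ‖z i‖ ^ 2 = V + t * ‖zb‖ ^ 2 := by
    simp only [hzi, Finset.sum_add_distrib, ← Finset.mul_sum, ← sum_inner, hsumv, inner_zero_left,
      mul_zero, add_zero, Finset.sum_const, Finset.card_univ, Fintype.card_fin, nsmul_eq_mul, hV]
  have h2 : ‖∑ i, z i‖ ^ 2 = t ^ 2 * ‖zb‖ ^ 2 := by
    rw [hsumz, norm_smul, mul_pow, Real.norm_eq_abs, sq_abs]
  set u : E := ∑ i, b i • v i with hu
  have h3 : ∑ i, b i * ‖z i‖ ^ 2 = ∑ i, b i * ‖v i‖ ^ 2 + 2 * ⟪u, zb⟫ + (∑ i, b i) * ‖zb‖ ^ 2 := by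
    have : ⟪u, zb⟫ = ∑ i, b i * ⟪v i, zb⟫ := by
      rw [hu, sum_inner]
      exact Finset.sum_congr rfl fun i _ => real_inner_smul_left _ _ _
    rw [this, Finset.mul_sum, Finset.sum_mul, ← Finset.sum_add_distrib, ← Finset.sum_add_distrib]
    refine Finset.sum_congr rfl fun i _ => ?_
    rw [hzi]; ring
  have h4 : -(B * V) ≤ ∑ i, b i * ‖v i‖ ^ 2 := by
    rw [hV, Finset.mul_sum, ← Finset.sum_neg_distrib]
    refine Finset.sum_le_sum fun i _ => ?_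
    have := (abs_le.1 (hb i)).1
    nlinarith [sq_nonneg ‖v i‖]
  have h5 : ‖u‖ ^ 2 ≤ B ^ 2 * t * V := by
    have e1 : ‖u‖ ≤ B * ∑ i, ‖v i‖ := by
      rw [hu, Finset.mul_sum]
      refine (norm_sum_le _ _).trans (Finset.sum_le_sum fun i _ => ?_)
      rw [norm_smul]
      exact mul_le_mul_of_nonneg_right (hb i) (norm_nonneg _)
    have e2 : (∑ i, ‖v i‖) ^ 2 ≤ t * V := by
      have := sq_sum_le_card_mul_sum_sq (s := (Finset.univ : Finset (Fin t)))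
        (f := fun i => ‖v i‖)
      simpa using this
    have e3 : 0 ≤ ∑ i, ‖v i‖ := Finset.sum_nonneg fun i _ => norm_nonneg _
    calc ‖u‖ ^ 2 ≤ (B * ∑ i, ‖v i‖) ^ 2 := pow_le_pow_left₀ (norm_nonneg _) e1 2
      _ = B ^ 2 * (∑ i, ‖v i‖) ^ 2 := by ring
      _ ≤ B ^ 2 * (t * V) := mul_le_mul_of_nonneg_left e2 (sq_nonneg _)
      _ = _ := by ring
  have h6 : -(‖u‖ ^ 2 / S0 + S0 * ‖zb‖ ^ 2) ≤ 2 * ⟪u, zb⟫ := by
    have e1 := abs_real_inner_le_norm u zb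
    have e2 := (abs_le.1 e1).1
    have e3 : 2 * (‖u‖ * ‖zb‖) ≤ ‖u‖ ^ 2 / S0 + S0 * ‖zb‖ ^ 2 := by
      have : ‖u‖ ^ 2 / S0 + S0 * ‖zb‖ ^ 2 - 2 * (‖u‖ * ‖zb‖) = (‖u‖ - S0 * ‖zb‖) ^ 2 / S0 := by
        field_simp
        ring
      have h0 : 0 ≤ (‖u‖ - S0 * ‖zb‖) ^ 2 / S0 := by positivity
      linarith
    linarith
  have h7 : ‖u‖ ^ 2 / S0 ≤ B ^ 2 * t / S0 * V := by
    rw [div_mul_eq_mul_div]
    exact div_le_div_of_nonneg_right h5 hS.le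
  have h8 : -((B + B ^ 2 * t / S0) * V) ≤ ∑ i, b i * ‖z i‖ ^ 2 := by
    rw [h3]
    have : S0 * ‖zb‖ ^ 2 ≤ (∑ i, b i) * ‖zb‖ ^ 2 := mul_le_mul_of_nonneg_right hW (sq_nonneg _)
    linarith
  have h9 : (t / (t - 1 : ℝ)) * ∑ i, ‖z i‖ ^ 2 - (1 / (t - 1 : ℝ)) * ‖∑ i, z i‖ ^ 2
      = (t / (t - 1 : ℝ)) * V := by
    rw [h1, h2]; field_simp; ring
  rw [h9]
  have h10 : V ≤ (t / (t - 1 : ℝ)) * V := by
    have : 1 ≤ t / (t - 1 : ℝ) := by rw [le_div_iff₀ ht1]; linarith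
    nlinarith
  have hNn : 0 ≤ Nn := le_trans (by positivity) hN
  have h11 : Nn * V ≤ Nn * ((t / (t - 1 : ℝ)) * V) := mul_le_mul_of_nonneg_left h10 hNn
  have h12 : δ * -((B + B ^ 2 * t / S0) * V) ≤ δ * ∑ i, b i * ‖z i‖ ^ 2 :=
    mul_le_mul_of_nonneg_left h8 hδ
  have h13 : δ * (B + B ^ 2 * t / S0) * V ≤ Nn * V := mul_le_mul_of_nonneg_right hN hV0
  nlinarith

/-- derivative of the infinitesimal rotation in the plane `(a, b)` -/
noncomputable def DD {n : ℕ} (e : OrthonormalBasis (Fin n) ℝ E) (a b : Fin n) (x y : E) : ℝ :=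
  ⟪e b, x⟫ * ⟪e a, y⟫ - ⟪e a, x⟫ * ⟪e b, y⟫

theorem sum_DD_mul {n : ℕ} (e : OrthonormalBasis (Fin n) ℝ E) (x y x' y' : E) :
    ∑ a, ∑ b, DD e a b x y * DD e a b x' y' = 2 * (⟪x, x'⟫ * ⟪y, y'⟫ - ⟪x, y'⟫ * ⟪y, x'⟫) := by
  have key : ∀ u v : E, ∑ a, ⟪e a, u⟫ * ⟪e a, v⟫ = ⟪u, v⟫ := by
    intro u v
    rw [← e.sum_inner_mul_inner u v]
    refine Finset.sum_congr rfl fun a _ => ?_
    rw [real_inner_comm u]
  have e1 : ∀ a b, DD e a b x y * DD e a b x' y'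
      = (⟪e a, y⟫ * ⟪e a, y'⟫) * (⟪e b, x⟫ * ⟪e b, x'⟫)
        - (⟪e a, y⟫ * ⟪e a, x'⟫) * (⟪e b, x⟫ * ⟪e b, y'⟫)
        - (⟪e a, x⟫ * ⟪e a, y'⟫) * (⟪e b, y⟫ * ⟪e b, x'⟫)
        + (⟪e a, x⟫ * ⟪e a, x'⟫) * (⟪e b, y⟫ * ⟪e b, y'⟫) := by
    intro a b; unfold DD; ring
  simp only [e1, Finset.sum_add_distrib, Finset.sum_sub_distrib, ← Finset.mul_sum, key,
    ← Finset.sum_mul]
  rw [real_inner_comm x' y, real_inner_comm y' y]
  ring

/-- the quadratic form of the Hessian -/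
theorem sum_hFF (S0 : ℝ) (N : ℕ) (c : ℝ) (p w : Fin t → ℝ) :
    ∑ i, hFF S0 N c p w i * w i
      = (N + 3 : ℕ) * ((N + 2 : ℕ) * tp (N + 1) (WW p - S0)) * (∑ l, ee (p l) * w l) ^ 2
        + (N + 3 : ℕ) * tp (N + 2) (WW p - S0) * (∑ i, Gam (p i) * (ee (p i) * w i) ^ 2)
        + 2 * c * ∑ i, w i ^ 2 := by
  unfold hFF
  have e1 : ∀ i, ((N + 3 : ℕ) * ((N + 2 : ℕ) * tp (N + 1) (WW p - S0) * (∑ l, ee (p l) * w l))
        * ee (p i)
      + (N + 3 : ℕ) * tp (N + 2) (WW p - S0) * (Gam (p i) * ee (p i) ^ 2 * w i)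
      + 2 * c * w i) * w i
      = ((N + 3 : ℕ) * ((N + 2 : ℕ) * tp (N + 1) (WW p - S0)) * (∑ l, ee (p l) * w l))
          * (ee (p i) * w i)
        + (N + 3 : ℕ) * tp (N + 2) (WW p - S0) * (Gam (p i) * (ee (p i) * w i) ^ 2)
        + 2 * c * w i ^ 2 := by
    intro i; ring
  simp only [e1, Finset.sum_add_distrib, ← Finset.mul_sum]
  ring

/-- the constant in the error term -/
noncomputable def KK (t : ℕ) (S0 : ℝ) (N : ℕ) (B : ℝ) : ℝ :=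
  (N + 3 : ℕ) * ((N + 2 : ℕ) * tp (N + 1) (t * B - S0)) * Real.exp (B ^ 2 / 2) ^ 2

theorem KK_nonneg (t : ℕ) (S0 : ℝ) (N : ℕ) (B : ℝ) : 0 ≤ KK t S0 N B := by
  unfold KK
  have := tp_nonneg (N + 1) (t * B - S0)
  positivity

theorem hess_lower (ht : 2 ≤ t) {n : ℕ} (e : OrthonormalBasis (Fin n) ℝ E) {B S0 c : ℝ} {N : ℕ}
    (hB : 0 ≤ B) (hS : 0 < S0) (hN : t * B * (B + B ^ 2 * t / S0) ≤ N)
    {p : Fin t → ℝ} (hp : p ∈ cube t B) (x y : Fin t → E) (hx : ∀ i, ‖x i‖ = 1)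
    (hxx : ∀ i l, i ≠ l → ⟪x i, x l⟫ = -1 / (t - 1 : ℝ)) (hxy : ∀ i, ⟪x i, y i⟫ = 0) :
    4 * c * ∑ i, ‖y i‖ ^ 2 - 2 * KK t S0 N B * ∑ i, ∑ l, ⟪x i, y l⟫ ^ 2
      ≤ ∑ a, ∑ b, ∑ i, hFF S0 N c p (fun i => DD e a b (x i) (y i)) i * DD e a b (x i) (y i) := by
  have ht2 : (2 : ℝ) ≤ t := by exact_mod_cast ht
  have ht0 : (0 : ℝ) < t := by linarith
  have ht1 : (0 : ℝ) < t - 1 := by linarith
  set z : Fin t → E := fun i => ee (p i) • y i with hz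
  have hDz : ∀ a b i, ee (p i) * DD e a b (x i) (y i) = DD e a b (x i) (z i) := by
    intro a b i
    simp only [DD, hz, real_inner_smul_right]
    ring
  have hq : ∀ a b, ∑ i, hFF S0 N c p (fun i => DD e a b (x i) (y i)) i * DD e a b (x i) (y i)
      = (N + 3 : ℕ) * ((N + 2 : ℕ) * tp (N + 1) (WW p - S0)) *
          (∑ l, ∑ l', DD e a b (x l) (z l) * DD e a b (x l') (z l'))
        + (N + 3 : ℕ) * tp (N + 2) (WW p - S0) *
          (∑ i, Gam (p i) * (DD e a b (x i) (z i) * DD e a b (x i) (z i)))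
        + 2 * c * ∑ i, DD e a b (x i) (y i) * DD e a b (x i) (y i) := by
    intro a b
    rw [sum_hFF]
    simp only [hDz]
    congr 2
    · congr 1
      rw [sq, Finset.sum_mul_sum]
    · congr 1
      exact Finset.sum_congr rfl fun i _ => by ring
    · exact Finset.sum_congr rfl fun i _ => by ring
  have hlin : ∀ (A1 A2 A3 : ℝ) (P R T : Fin n → Fin n → ℝ),
      ∑ a, ∑ b, (A1 * P a b + A2 * R a b + A3 * T a b)
        = A1 * (∑ a, ∑ b, P a b) + A2 * (∑ a, ∑ b, R a b) + A3 * (∑ a, ∑ b, T a b) := by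
    intro A1 A2 A3 P R T
    simp only [Finset.sum_add_distrib, ← Finset.mul_sum]
  simp only [hq]
  rw [hlin]
  have s1 : ∑ a, ∑ b, ∑ l, ∑ l', DD e a b (x l) (z l) * DD e a b (x l') (z l')
      = 2 * (∑ l, ∑ l', (⟪x l, x l'⟫ * ⟪z l, z l'⟫ - ⟪x l, z l'⟫ * ⟪z l, x l'⟫)) := by
    calc ∑ a, ∑ b, ∑ l, ∑ l', DD e a b (x l) (z l) * DD e a b (x l') (z l')
        = ∑ l, ∑ l', ∑ a, ∑ b, DD e a b (x l) (z l) * DD e a b (x l') (z l') := by
          have c1 : ∀ a, ∑ b, ∑ l, ∑ l', DD e a b (x l) (z l) * DD e a b (x l') (z l')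
              = ∑ l, ∑ l', ∑ b, DD e a b (x l) (z l) * DD e a b (x l') (z l') := by
            intro a
            rw [Finset.sum_comm]
            refine Finset.sum_congr rfl fun l _ => ?_
            rw [Finset.sum_comm]
          simp only [c1]
          rw [Finset.sum_comm]
          refine Finset.sum_congr rfl fun l _ => ?_
          rw [Finset.sum_comm]
      _ = _ := by
          rw [Finset.mul_sum]
          refine Finset.sum_congr rfl fun l _ => ?_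
          rw [Finset.mul_sum]
          refine Finset.sum_congr rfl fun l' _ => ?_
          rw [sum_DD_mul]
  have s2 : ∑ a, ∑ b, ∑ i, Gam (p i) * (DD e a b (x i) (z i) * DD e a b (x i) (z i))
      = 2 * ∑ i, Gam (p i) * ‖z i‖ ^ 2 := by
    have c1 : ∀ a, ∑ b, ∑ i, Gam (p i) * (DD e a b (x i) (z i) * DD e a b (x i) (z i))
        = ∑ i, ∑ b, Gam (p i) * (DD e a b (x i) (z i) * DD e a b (x i) (z i)) := by
      intro a; rw [Finset.sum_comm]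
    simp only [c1]
    rw [Finset.sum_comm, Finset.mul_sum]
    refine Finset.sum_congr rfl fun i _ => ?_
    simp only [← Finset.mul_sum]
    rw [sum_DD_mul]
    have hxz : ⟪x i, z i⟫ = 0 := by simp [hz, real_inner_smul_right, hxy]
    rw [hxz, real_inner_self_eq_norm_sq, real_inner_self_eq_norm_sq, hx]
    ring
  have s3 : ∑ a, ∑ b, ∑ i, DD e a b (x i) (y i) * DD e a b (x i) (y i)
      = 2 * ∑ i, ‖y i‖ ^ 2 := by
    have c1 : ∀ a, ∑ b, ∑ i, (DD e a b (x i) (y i) * DD e a b (x i) (y i))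
        = ∑ i, ∑ b, (DD e a b (x i) (y i) * DD e a b (x i) (y i)) := by
      intro a; rw [Finset.sum_comm]
    simp only [c1]
    rw [Finset.sum_comm, Finset.mul_sum]
    refine Finset.sum_congr rfl fun i _ => ?_
    rw [sum_DD_mul, hxy, real_inner_self_eq_norm_sq, real_inner_self_eq_norm_sq, hx]
    ring
  rw [s1, s2, s3]
  have hG : ∑ l, ∑ l', ⟪x l, x l'⟫ * ⟪z l, z l'⟫
      = (t / (t - 1 : ℝ)) * ∑ i, ‖z i‖ ^ 2 - (1 / (t - 1 : ℝ)) * ‖∑ i, z i‖ ^ 2 := by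
    have g1 : ∀ l l', ⟪x l, x l'⟫ * ⟪z l, z l'⟫
        = (if l = l' then (t / (t - 1 : ℝ)) * ‖z l‖ ^ 2 else 0)
          - (1 / (t - 1 : ℝ)) * ⟪z l, z l'⟫ := by
      intro l l'
      by_cases h : l = l'
      · subst h
        rw [if_pos rfl, real_inner_self_eq_norm_sq, real_inner_self_eq_norm_sq, hx]
        field_simp
      · rw [if_neg h, hxx l l' h]; ring
    simp only [g1, Finset.sum_sub_distrib, Finset.sum_ite_eq, Finset.mem_univ, if_true,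
      ← Finset.mul_sum]
    congr 2
    rw [← real_inner_self_eq_norm_sq, sum_inner]
    refine Finset.sum_congr rfl fun l _ => ?_
    rw [inner_sum]
  have hcross : ∑ l, ∑ l', ⟪x l, z l'⟫ * ⟪z l, x l'⟫
      ≤ Real.exp (B ^ 2 / 2) ^ 2 * ∑ i, ∑ l, ⟪x i, y l⟫ ^ 2 := by
    have h1 : ∑ l, ∑ l', ⟪x l, z l'⟫ * ⟪z l, x l'⟫ ≤ ∑ l, ∑ l', ⟪x l, z l'⟫ ^ 2 := by
      have h2 : ∀ l l', ⟪x l, z l'⟫ * ⟪z l, x l'⟫ ≤ (⟪x l, z l'⟫ ^ 2 + ⟪x l', z l⟫ ^ 2) / 2 := by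
        intro l l'
        rw [real_inner_comm (x l') (z l)]
        nlinarith [sq_nonneg (⟪x l, z l'⟫ - ⟪x l', z l⟫)]
      calc ∑ l, ∑ l', ⟪x l, z l'⟫ * ⟪z l, x l'⟫
          ≤ ∑ l, ∑ l', (⟪x l, z l'⟫ ^ 2 + ⟪x l', z l⟫ ^ 2) / 2 :=
            Finset.sum_le_sum fun l _ => Finset.sum_le_sum fun l' _ => h2 l l'
        _ = _ := by
            simp only [add_div, Finset.sum_add_distrib]
            rw [Finset.sum_comm (f := fun l l' => ⟪x l', z l⟫ ^ 2 / 2)]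
            simp only [← Finset.sum_div]
            ring
    refine h1.trans ?_
    rw [Finset.mul_sum]
    refine Finset.sum_le_sum fun i _ => ?_
    rw [Finset.mul_sum]
    refine Finset.sum_le_sum fun l _ => ?_
    simp only [hz, real_inner_smul_right, mul_pow]
    exact mul_le_mul_of_nonneg_right
      (pow_le_pow_left₀ (ee_pos _).le (ee_le hB (hp l)) 2) (sq_nonneg _)
  simp only [Finset.sum_sub_distrib]
  rw [hG]
  set T : ℝ := ∑ i, ∑ l, ⟪x i, y l⟫ ^ 2 with hT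
  have hT0 : 0 ≤ T := Finset.sum_nonneg fun i _ => Finset.sum_nonneg fun l _ => sq_nonneg _
  rcases le_total (WW p) S0 with hW | hW
  · have z1 : tp (N + 1) (WW p - S0) = 0 := tp_of_nonpos (by omega) (by linarith)
    have z2 : tp (N + 2) (WW p - S0) = 0 := tp_of_nonpos (by omega) (by linarith)
    rw [z1, z2]
    have := KK_nonneg t S0 N B
    nlinarith [mul_nonneg this hT0]
  · have z2 : tp (N + 2) (WW p - S0) = (WW p - S0) * tp (N + 1) (WW p - S0) := by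
      rw [show N + 2 = N + 2 from rfl, tp_succ]
    have hWB := WW_le hB hp
    have hpsd := psd_core ht (fun i => Gam (p i)) z B S0 (WW p - S0) (N + 2 : ℕ) hB
      (fun i => abs_Gam_le hB (hp i)) hS hW (by linarith) (by
        have h1 : (WW p - S0) * (B + B ^ 2 * t / S0) ≤ (t * B) * (B + B ^ 2 * t / S0) :=
          mul_le_mul_of_nonneg_right (by linarith) (by positivity)
        push_cast
        linarith)
    have hmono : tp (N + 1) (WW p - S0) ≤ tp (N + 1) (t * B - S0) := tp_mono (by linarith)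
    have n1 := tp_nonneg (N + 1) (WW p - S0)
    set Tq := tp (N + 1) (WW p - S0) with hTq
    rw [z2]
    have hK : (N + 3 : ℕ) * ((N + 2 : ℕ) * Tq) * (∑ l, ∑ l', ⟪x l, z l'⟫ * ⟪z l, x l'⟫)
        ≤ KK t S0 N B * T := by
      calc (N + 3 : ℕ) * ((N + 2 : ℕ) * Tq) * (∑ l, ∑ l', ⟪x l, z l'⟫ * ⟪z l, x l'⟫)
          ≤ (N + 3 : ℕ) * ((N + 2 : ℕ) * Tq) * (Real.exp (B ^ 2 / 2) ^ 2 * T) :=
            mul_le_mul_of_nonneg_left hcross (by positivity)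
        _ ≤ (N + 3 : ℕ) * ((N + 2 : ℕ) * tp (N + 1) (t * B - S0)) *
            (Real.exp (B ^ 2 / 2) ^ 2 * T) := by gcongr
        _ = KK t S0 N B * T := by unfold KK; ring
    have hpos : 0 ≤ (N + 3 : ℕ) * Tq * ((N + 2 : ℕ) *
        ((t / (t - 1 : ℝ)) * ∑ i, ‖z i‖ ^ 2 - (1 / (t - 1 : ℝ)) * ‖∑ i, z i‖ ^ 2)
        + (WW p - S0) * ∑ i, Gam (p i) * ‖z i‖ ^ 2) := by positivity
    nlinarith [hK, hpos]

end Pool.Agent.helper440_simplex
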