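import Pool.Agent.helper440_simplex.Curve

/-! # Averages of directional components of a tangent field -/

set_option autoImplicit false
set_option linter.unusedSectionVars false

namespace Pool.Agent.helper440_simplex

open MeasureTheory Metric Set Filter Topology
open scoped RealInnerProductSpace

variable {E : Type*} [NormedAddCommGroup E] [InnerProductSpace ℝ E] [CompleteSpace E]
  [FiniteDimensional ℝ E]

theorem field_cont {Y : SS E → E} (hY : Continuous Y) (l : SS E) :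
    Continuous (fun g : UG E => Y (sa g l)) := hY.comp (sa_continuous_left l)

theorem av_cont_left (x : E) : Continuous (fun g : UG E => av g x) :=
  av_continuous.comp (continuous_id.prodMk continuous_const)

theorem avg_perp {m : ℕ} (hn : Module.finrank ℝ E = m + 2) {Y : SS E → E} (hY : Continuous Y)
    (hYt : ∀ z : SS E, ⟪(z : E), Y z⟫ = 0) (l : SS E) (u : E) (hu : ‖u‖ = 1) (hlu : ⟪(l : E), u⟫ = 0) :
    (m + 1 : ℝ) * ∫ g, ⟪av g u, Y (sa g l)⟫ ^ 2 ∂(hm E) = ∫ g, ‖Y (sa g l)‖ ^ 2 ∂(hm E) := by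
  obtain ⟨c, hc0, hc1⟩ := exists_onb2 hn (l : E) u (norm_eq_of_mem_sphere l) hu hlu
  have hcont : ∀ x : E, Continuous (fun g : UG E => ⟪av g x, Y (sa g l)⟫ ^ 2) := fun x =>
    ((av_cont_left x).inner (field_cont hY l)).pow 2
  have h1 : ∀ j : Fin (m + 1), ∫ g, ⟪av g (c j.succ), Y (sa g l)⟫ ^ 2 ∂(hm E)
      = ∫ g, ⟪av g u, Y (sa g l)⟫ ^ 2 ∂(hm E) := by
    intro j
    obtain ⟨d, hd0, hd1⟩ := exists_onb2 hn (l : E) (c j.succ) (norm_eq_of_mem_sphere l)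
      (c.orthonormal.1 _) (by
        rw [← hc0]
        exact c.orthonormal.2 (Fin.succ_ne_zero j).symm)
    obtain ⟨h, hh⟩ := exists_UG c d
    have a0 := hh 0
    have a1 := hh 1
    rw [hc0, hd0] at a0
    rw [hc1, hd1] at a1
    have a2 : sa h l = l := Subtype.ext (by rw [sa_coe, a0])
    rw [← hm_int_right h (fun g => ⟪av g u, Y (sa g l)⟫ ^ 2)]
    simp only [av_mul, sa_mul, a1, a2]
  have h2 : ∀ g : UG E, ∑ j : Fin (m + 1), ⟪av g (c j.succ), Y (sa g l)⟫ ^ 2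
      = ‖Y (sa g l)‖ ^ 2 := by
    intro g
    have h3 : ∑ j : Fin (m + 2), ⟪av g (c j), Y (sa g l)⟫ ^ 2 = ‖Y (sa g l)‖ ^ 2 := by
      have h4 : ∀ j, ⟪av g (c j), Y (sa g l)⟫ = ⟪c j, av g⁻¹ (Y (sa g l))⟫ := by
        intro j
        rw [← av_inner g⁻¹, av_inv]
      simp only [h4]
      rw [← av_norm g⁻¹ (Y (sa g l)), ← real_inner_self_eq_norm_sq,
        ← c.sum_inner_mul_inner (av g⁻¹ (Y (sa g l))) (av g⁻¹ (Y (sa g l)))]
      refine Finset.sum_congr rfl fun j _ => ?_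
      rw [sq, real_inner_comm (c j) (av g⁻¹ (Y (sa g l)))]
    rw [Fin.sum_univ_succ] at h3
    have h5 : ⟪av g (c 0), Y (sa g l)⟫ = 0 := by
      rw [hc0]
      exact hYt (sa g l)
    rw [h5] at h3
    simpa using h3
  have h3 : ∫ g, ‖Y (sa g l)‖ ^ 2 ∂(hm E)
      = ∑ j : Fin (m + 1), ∫ g, ⟪av g (c j.succ), Y (sa g l)⟫ ^ 2 ∂(hm E) := by
    rw [← integral_finsetSum _ fun j _ => hm_integrable (hcont _)]
    exact integral_congr_ae (Eventually.of_forall fun g => (h2 g).symm)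
  rw [h3]
  simp only [h1, Finset.sum_const, Finset.card_univ, Fintype.card_fin, nsmul_eq_mul]
  push_cast
  ring

theorem avg_le {m : ℕ} (hn : Module.finrank ℝ E = m + 2) {Y : SS E → E} (hY : Continuous Y)
    (hYt : ∀ z : SS E, ⟪(z : E), Y z⟫ = 0) (x l : SS E) :
    (m + 1 : ℝ) * ∫ g, ⟪(sa g x : E), Y (sa g l)⟫ ^ 2 ∂(hm E)
      ≤ ∫ g, ‖Y (sa g l)‖ ^ 2 ∂(hm E) := by
  obtain ⟨u, θ, hu, hlu, hx⟩ := exists_circle hn l x
  rw [← avg_perp hn hY hYt l u hu hlu]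
  have h1 : ∀ g : UG E, ⟪(sa g x : E), Y (sa g l)⟫ ^ 2
      = Real.sin θ ^ 2 * ⟪av g u, Y (sa g l)⟫ ^ 2 := by
    intro g
    rw [sa_coe, hx, av_add, av_smul, av_smul, inner_add_left, real_inner_smul_left,
      real_inner_smul_left, ← sa_coe, hYt]
    ring
  simp only [h1]
  rw [integral_const_mul]
  have h2 : 0 ≤ ∫ g, ⟪av g u, Y (sa g l)⟫ ^ 2 ∂(hm E) := integral_nonneg fun g => sq_nonneg _
  have h3 := Real.sin_sq_le_one θ
  have h4 : Real.sin θ ^ 2 * ∫ g, ⟪av g u, Y (sa g l)⟫ ^ 2 ∂(hm E)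
      ≤ 1 * ∫ g, ⟪av g u, Y (sa g l)⟫ ^ 2 ∂(hm E) := mul_le_mul_of_nonneg_right h3 h2
  rw [one_mul] at h4
  exact mul_le_mul_of_nonneg_left h4 (by positivity)

theorem norm_avg_const {m : ℕ} (hn : Module.finrank ℝ E = m + 2) (Y : SS E → E)
    (x l : SS E) : ∫ g, ‖Y (sa g x)‖ ^ 2 ∂(hm E) = ∫ g, ‖Y (sa g l)‖ ^ 2 ∂(hm E) :=
  hm_point (by omega) x l (fun z => ‖Y z‖ ^ 2)

end Pool.Agent.helper440_simplex
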