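import Pool.Agent.helper440_simplex.Grp

set_option autoImplicit false
set_option linter.unusedSectionVars false

namespace Pool.Agent.helper440_simplex

open MeasureTheory Metric Set Filter Topology
open scoped RealInnerProductSpace

/-! # Core: surface measure, slices, averaging operators -/

section Core
variable {E : Type*} [NormedAddCommGroup E] [InnerProductSpace ℝ E] [CompleteSpace E]
  [FiniteDimensional ℝ E] [MeasurableSpace E] [BorelSpace E]

/-- normalised surface measure -/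
noncomputable def sm (E : Type*) [NormedAddCommGroup E] [InnerProductSpace ℝ E] [CompleteSpace E]
    [FiniteDimensional ℝ E] [MeasurableSpace E] [BorelSpace E] : Measure (SS E) :=
  open Classical in if h : Nonempty (SS E) then (hm E).map (fun g => sa g h.some) else 0

/-- the orthogonal complement of a unit vector -/
noncomputable abbrev Pe (x : SS E) : Submodule ℝ E := (Submodule.span ℝ {(x : E)})ᗮ

theorem Pe_inner (x : SS E) (w : Pe x) : ⟪(x : E), (w : E)⟫ = 0 :=
  w.2 (x : E) (Submodule.mem_span_singleton_self _)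

theorem pt_norm (x : SS E) (θ : ℝ) (w : SS (Pe x)) :
    ‖Real.cos θ • (x : E) + Real.sin θ • ((w : Pe x) : E)‖ = 1 := by
  have hx : ‖(x : E)‖ = 1 := norm_eq_of_mem_sphere x
  have hw : ‖((w : Pe x) : E)‖ = 1 := norm_eq_of_mem_sphere w
  have h : ‖Real.cos θ • (x : E) + Real.sin θ • ((w : Pe x) : E)‖ ^ 2 = 1 := by
    rw [norm_add_sq_real, norm_smul, norm_smul, real_inner_smul_left, real_inner_smul_right,
      Pe_inner, hx, hw]
    simp only [mul_zero, add_zero, mul_one, Real.norm_eq_abs, sq_abs]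
    exact Real.cos_sq_add_sin_sq θ
  nlinarith [norm_nonneg (Real.cos θ • (x : E) + Real.sin θ • ((w : Pe x) : E))]

/-- the point `r x + sqrt (1 - r ^ 2) w` -/
noncomputable def pt (x : SS E) (r : ℝ) (w : SS (Pe x)) : SS E :=
  ⟨Real.cos (Real.arccos r) • (x : E) + Real.sin (Real.arccos r) • ((w : Pe x) : E), by
    rw [mem_sphere_zero_iff_norm]; exact pt_norm x _ w⟩

theorem pt_coe {r : ℝ} (h1 : -1 ≤ r) (h2 : r ≤ 1) (x : SS E) (w : SS (Pe x)) :
    (pt x r w : E) = r • (x : E) + Real.sqrt (1 - r ^ 2) • ((w : Pe x) : E) := by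
  show Real.cos (Real.arccos r) • (x : E) + Real.sin (Real.arccos r) • ((w : Pe x) : E) = _
  rw [Real.cos_arccos h1 h2, Real.sin_arccos]

/-- the average over the slice at inner product `r` -/
noncomputable def PP (r : ℝ) (f : SS E → ℝ) (x : SS E) : ℝ := ∫ w, f (pt x r w) ∂(sm (Pe x))

/-- bounded and measurable -/
def BM (f : SS E → ℝ) : Prop := Measurable f ∧ ∃ C : ℝ, ∀ x, |f x| ≤ C

/-- extension of an orthogonal map of the complement, fixing `e` -/
noncomputable def exL (e : SS E) (k : UG (Pe e)) : E →L[ℝ] E :=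
  (innerSL ℝ (e : E)).smulRight (e : E)
    + (Pe e).subtypeL ∘L (k : Pe e →L[ℝ] Pe e) ∘L (Pe e).orthogonalProjectionOnto

-- exL_mem
theorem exL_mem_apply (e : SS E) (k : UG (Pe e)) (x : E) :
    exL e k x = ⟪(e : E), x⟫ • (e : E) +
      (((k : Pe e →L[ℝ] Pe e) ((Pe e).orthogonalProjectionOnto x) : Pe e) : E) := by
  simp [exL]

theorem exL_mem_dec (e : SS E) (x : E) :
    ⟪(e : E), x⟫ • (e : E) + (((Pe e).orthogonalProjectionOnto x : Pe e) : E) = x := by
  have h1 := Submodule.starProjection_add_starProjection_orthogonal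
    (K := Submodule.span ℝ {(e : E)}) x
  rw [Submodule.starProjection_unit_singleton (𝕜 := ℝ) (norm_eq_of_mem_sphere e)] at h1
  rw [Submodule.starProjection_apply] at h1
  exact h1

theorem exL_mem_inner (e : SS E) (k : UG (Pe e)) (x : E) :
    ⟪(e : E), exL e k x⟫ = ⟪(e : E), x⟫ := by
  rw [exL_mem_apply, inner_add_right, real_inner_smul_right, Pe_inner, real_inner_self_eq_norm_sq,
    norm_eq_of_mem_sphere e]
  ring

theorem exL_mem_proj (e : SS E) (k : UG (Pe e)) (x : E) :
    (Pe e).orthogonalProjectionOnto (exL e k x) =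
      (k : Pe e →L[ℝ] Pe e) ((Pe e).orthogonalProjectionOnto x) := by
  rw [exL_mem_apply, map_add, map_smul,
    Submodule.orthogonalProjectionOnto_orthogonalComplement_singleton_eq_zero, smul_zero, zero_add,
    Submodule.orthogonalProjectionOnto_mem_subspace_eq_self]

theorem exL_mem_mul (e : SS E) (k : UG (Pe e)) : exL e k * exL e k⁻¹ = 1 := by
  ext x
  show exL e k (exL e k⁻¹ x) = x
  rw [exL_mem_apply e k, exL_mem_inner, exL_mem_proj]
  have h := av_inv' k ((Pe e).orthogonalProjectionOnto x)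
  unfold av at h
  rw [h, exL_mem_dec]

theorem exL_mem_normsq (e : SS E) (a : ℝ) (p : Pe e) :
    ‖a • (e : E) + (p : E)‖ ^ 2 = a ^ 2 + ‖p‖ ^ 2 := by
  rw [norm_add_sq_real, norm_smul, real_inner_smul_left, Pe_inner, norm_eq_of_mem_sphere e]
  simp

theorem exL_mem_norm (e : SS E) (k : UG (Pe e)) (x : E) : ‖exL e k x‖ = ‖x‖ := by
  have h1 : ‖exL e k x‖ ^ 2 = ‖x‖ ^ 2 := by
    rw [exL_mem_apply, exL_mem_normsq]
    conv_rhs => rw [← exL_mem_dec e x]
    rw [exL_mem_normsq]
    have h := av_norm k ((Pe e).orthogonalProjectionOnto x)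
    unfold av at h
    rw [h]
  exact (pow_left_inj₀ (norm_nonneg _) (norm_nonneg _) two_ne_zero).mp h1

theorem exL_mem (e : SS E) (k : UG (Pe e)) : exL e k ∈ unitary (E →L[ℝ] E) := by
  have h1 : star (exL e k) * exL e k = 1 :=
    (exL e k).norm_map_iff_adjoint_comp_self.mp (exL_mem_norm e k)
  have h2 := exL_mem_mul e k
  have h3 : star (exL e k) = exL e k⁻¹ := by
    calc star (exL e k) = star (exL e k) * (exL e k * exL e k⁻¹) := by rw [h2, mul_one]
      _ = exL e k⁻¹ := by rw [← mul_assoc, h1, one_mul]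
  rw [Unitary.mem_iff]
  refine ⟨h1, ?_⟩
  rw [h3]
  exact h2

/-- extension of an orthogonal map of the complement, fixing `e` -/
noncomputable def ex (e : SS E) (k : UG (Pe e)) : UG E := ⟨exL e k, exL_mem e k⟩

-- ex_props
theorem ex_props (e : SS E) (k : UG (Pe e)) : av (ex e k) (e : E) = e ∧
    ∀ w : Pe e, av (ex e k) (w : E) = ((av k w : Pe e) : E) := by
  have hf : ∀ x : E, av (ex e k) x = (⟪(e : E), x⟫) • (e : E)
      + (((k : Pe e →L[ℝ] Pe e) ((Pe e).orthogonalProjectionOnto x) : Pe e) : E) := by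
    intro x
    show exL e k x = _
    simp [exL]
  have he : ‖(e : E)‖ = 1 := norm_eq_of_mem_sphere e
  refine ⟨?_, fun w => ?_⟩
  · have h0 : (Pe e).orthogonalProjectionOnto (e : E) = 0 :=
      Submodule.orthogonalProjectionOnto_orthogonalComplement_singleton_eq_zero (𝕜 := ℝ) (e : E)
    rw [hf, h0, map_zero, real_inner_self_eq_norm_sq, he]
    simp
  · have h1 : (Pe e).orthogonalProjectionOnto (w : E) = w := by
      simp
    rw [hf, h1, Pe_inner e w, zero_smul, zero_add]
    rfl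

-- ex_cont
theorem ex_cont (e : SS E) : Continuous (ex e : UG (Pe e) → UG E) := by
  refine Continuous.subtype_mk ?_ _
  show Continuous (fun k : UG (Pe e) => (innerSL ℝ (e : E)).smulRight (e : E)
    + (Pe e).subtypeL ∘L (k : Pe e →L[ℝ] Pe e) ∘L (Pe e).orthogonalProjectionOnto)
  refine continuous_const.add ?_
  exact continuous_const.clm_comp (continuous_subtype_val.clm_comp continuous_const)

-- ex_pt
theorem ex_pt (e : SS E) (k : UG (Pe e)) (r : ℝ) (w : SS (Pe e)) :
    sa (ex e k) (pt e r w) = pt e r (sa k w) := by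
  apply Subtype.ext
  show av (ex e k) (Real.cos (Real.arccos r) • (e : E) +
      Real.sin (Real.arccos r) • ((w : Pe e) : E)) =
    Real.cos (Real.arccos r) • (e : E) + Real.sin (Real.arccos r) • (((sa k w : SS (Pe e)) : Pe e) : E)
  rw [av_add, av_smul, av_smul, (ex_props e k).1, (ex_props e k).2, sa_coe]

-- ex_surj
theorem ex_surj_mem (e : SS E) (h : UG E) (he : av h (e : E) = e) (w : Pe e) :
    (h : E →L[ℝ] E) (w : E) ∈ Pe e := by
  rw [Submodule.mem_orthogonal_singleton_iff_inner_right]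
  have h1 : ⟪av h (e : E), av h (w : E)⟫ = ⟪(e : E), (w : E)⟫ := av_inner h _ _
  rw [he, Pe_inner] at h1
  exact h1

/-- the restriction to the complement -/
noncomputable def ex_surj_R (e : SS E) (h : UG E) (he : av h (e : E) = e) : Pe e →L[ℝ] Pe e :=
  ((h : E →L[ℝ] E) ∘L (Pe e).subtypeL).codRestrict (Pe e) (fun w => ex_surj_mem e h he w)

theorem ex_surj_R_coe (e : SS E) (h : UG E) (he : av h (e : E) = e) (w : Pe e) :
    ((ex_surj_R e h he w : Pe e) : E) = av h (w : E) := rfl

theorem ex_surj_inv (e : SS E) (h : UG E) (he : av h (e : E) = e) : av h⁻¹ (e : E) = e := by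
  conv_lhs => rw [← he]
  exact av_inv h _

theorem ex_surj_unit (e : SS E) (h : UG E) (he : av h (e : E) = e) :
    ex_surj_R e h he ∈ unitary (Pe e →L[ℝ] Pe e) := by
  have hadj : star (ex_surj_R e h he) = ex_surj_R e h⁻¹ (ex_surj_inv e h he) := by
    symm
    rw [ContinuousLinearMap.star_eq_adjoint, ContinuousLinearMap.eq_adjoint_iff]
    intro x y
    rw [Submodule.coe_inner, Submodule.coe_inner, ex_surj_R_coe, ex_surj_R_coe]
    exact av_inner_left h _ _
  rw [Unitary.mem_iff, hadj]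
  constructor
  · ext w
    show ((ex_surj_R e h⁻¹ (ex_surj_inv e h he) (ex_surj_R e h he w) : Pe e) : E) = (w : E)
    rw [ex_surj_R_coe, ex_surj_R_coe, av_inv]
  · ext w
    show ((ex_surj_R e h he (ex_surj_R e h⁻¹ (ex_surj_inv e h he) w) : Pe e) : E) = (w : E)
    rw [ex_surj_R_coe, ex_surj_R_coe, av_inv']

theorem ex_surj (e : SS E) (h : UG E) (he : av h (e : E) = e) : ∃ k : UG (Pe e), ex e k = h := by
  refine ⟨⟨ex_surj_R e h he, ex_surj_unit e h he⟩, ?_⟩
  set k : UG (Pe e) := ⟨ex_surj_R e h he, ex_surj_unit e h he⟩ with hk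
  obtain ⟨h1, h2⟩ := ex_props e k
  apply Subtype.ext
  apply ContinuousLinearMap.ext
  intro x
  show av (ex e k) x = av h x
  have hmem : x - ⟪(e : E), x⟫ • (e : E) ∈ Pe e := by
    rw [Submodule.mem_orthogonal_singleton_iff_inner_right, inner_sub_right,
      real_inner_smul_right, real_inner_self_eq_norm_sq, norm_eq_of_mem_sphere e]
    ring
  have hx : x = ⟪(e : E), x⟫ • (e : E) + ((⟨_, hmem⟩ : Pe e) : E) := by
    show x = ⟪(e : E), x⟫ • (e : E) + (x - ⟪(e : E), x⟫ • (e : E))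
    abel
  rw [hx, av_add, av_add, av_smul, av_smul, h1, he, h2]
  rfl

-- sm_eq
theorem sm_eq (hn : 1 ≤ Module.finrank ℝ E) (x0 : SS E) :
    sm E = (hm E).map (fun g => sa g x0) := by
  have hne : Nonempty (SS E) := ⟨x0⟩
  unfold sm
  rw [dif_pos hne]
  obtain ⟨n, hn⟩ : ∃ n, Module.finrank ℝ E = n + 1 := ⟨Module.finrank ℝ E - 1, by omega⟩
  obtain ⟨b, hb⟩ := exists_onb1 hn (hne.some : E) (norm_eq_of_mem_sphere hne.some)
  obtain ⟨c, hc⟩ := exists_onb1 hn (x0 : E) (norm_eq_of_mem_sphere x0)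
  obtain ⟨h, hh⟩ := exists_UG b c
  have h0 := hh 0
  rw [hb, hc] at h0
  have hx : sa h hne.some = x0 := Subtype.ext (by rw [sa_coe, h0])
  have hfun : (fun g : UG E => sa g x0) = (fun g : UG E => sa g hne.some) ∘ (fun g => g * h) := by
    funext g
    show sa g x0 = sa (g * h) hne.some
    rw [sa_mul, hx]
  rw [hfun, ← Measure.map_map (sa_continuous_left hne.some).measurable (measurable_mul_const h),
    map_mul_right_eq_self]

-- sm_prob
theorem sm_prob (hn : 1 ≤ Module.finrank ℝ E) : IsProbabilityMeasure (sm E) := by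
  obtain ⟨n, hn'⟩ : ∃ n, Module.finrank ℝ E = n + 1 := ⟨Module.finrank ℝ E - 1, by omega⟩
  have : Nontrivial E := Module.nontrivial_of_finrank_pos (R := ℝ) (by omega)
  obtain ⟨x, hx⟩ := exists_norm_eq E (zero_le_one (α := ℝ))
  rw [sm_eq hn ⟨x, by rw [mem_sphere_zero_iff_norm]; exact hx⟩]
  exact Measure.isProbabilityMeasure_map (sa_continuous_left _).measurable.aemeasurable

-- sm_nonempty
theorem sm_nonempty (hn : 1 ≤ Module.finrank ℝ E) : Nonempty (SS E) := by
  have : Nontrivial E := Module.nontrivial_of_finrank_pos (R := ℝ) (by omega)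
  obtain ⟨x, hx⟩ := exists_ne (0 : E)
  refine ⟨⟨(‖x‖⁻¹ : ℝ) • x, ?_⟩⟩
  rw [mem_sphere_zero_iff_norm, norm_smul, norm_inv, norm_norm,
    inv_mul_cancel₀ (norm_ne_zero_iff.mpr hx)]

-- sm_inv
theorem sm_inv (g : UG E) : MeasurePreserving (sa g) (sm E) (sm E) := by
  refine ⟨(sa_continuous_right g).measurable, ?_⟩
  by_cases h : Nonempty (SS E)
  · have e1 : sm E = (hm E).map (fun g => sa g h.some) := by
      unfold sm
      rw [dif_pos h]
    rw [e1, Measure.map_map (sa_continuous_right g).measurable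
      (sa_continuous_left h.some).measurable]
    have e2 : (sa g ∘ fun g' => sa g' h.some) =
        (fun g' => sa g' h.some) ∘ (fun g' : UG E => g * g') := by
      funext g'
      exact (sa_mul g g' h.some).symm
    rw [e2, ← Measure.map_map (sa_continuous_left h.some).measurable (measurable_const_mul g),
      map_mul_left_eq_self]
  · have e1 : sm E = 0 := by
      unfold sm
      rw [dif_neg h]
    rw [e1, Measure.map_zero]

-- sm_int
theorem sm_int (hn : 1 ≤ Module.finrank ℝ E) (x0 : SS E) {f : SS E → ℝ} (hf : Measurable f) :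
    ∫ x, f x ∂(sm E) = ∫ g, f (sa g x0) ∂(hm E) := by
  rw [sm_eq hn x0]
  exact integral_map (sa_continuous_left x0).measurable.aemeasurable hf.aestronglyMeasurable

-- sm_unique
theorem sm_unique_meas : Measurable (fun p : UG E × SS E => sa p.1 p.2) :=
  (sa_continuous (E := E)).measurable

theorem sm_unique (hn : 1 ≤ Module.finrank ℝ E) (ν : Measure (SS E)) [IsProbabilityMeasure ν]
    (h : ∀ g : UG E, ν.map (sa g) = ν) : ν = sm E := by
  have hmeasg : ∀ g : UG E, Measurable (sa g : SS E → SS E) := fun g =>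
    (sa_continuous_right g).measurable
  have hmeasx : ∀ x : SS E, Measurable (fun g : UG E => sa g x) := fun x =>
    (sa_continuous_left x).measurable
  ext A hA
  have hf : Measurable (fun p : UG E × SS E => A.indicator (1 : SS E → ENNReal) (sa p.1 p.2)) :=
    (measurable_one.indicator hA).comp sm_unique_meas
  have e1 : ∫⁻ g, ∫⁻ x, A.indicator (1 : SS E → ENNReal) (sa g x) ∂ν ∂(hm E) = ν A := by
    have : ∀ g, ∫⁻ x, A.indicator (1 : SS E → ENNReal) (sa g x) ∂ν = ν A := by
      intro g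
      rw [← lintegral_map (measurable_one.indicator hA) (hmeasg g), h g,
        lintegral_indicator_one hA]
    simp only [this]
    rw [lintegral_const, measure_univ, mul_one]
  have e2 : ∫⁻ x, ∫⁻ g, A.indicator (1 : SS E → ENNReal) (sa g x) ∂(hm E) ∂ν = sm E A := by
    have : ∀ x, ∫⁻ g, A.indicator (1 : SS E → ENNReal) (sa g x) ∂(hm E) = sm E A := by
      intro x
      rw [← lintegral_map (measurable_one.indicator hA) (hmeasx x), ← sm_eq hn x,
        lintegral_indicator_one hA]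
    simp only [this]
    rw [lintegral_const, measure_univ, mul_one]
  rw [← e1, ← e2]
  exact lintegral_lintegral_swap hf.aemeasurable

-- finrank_Pe
theorem finrank_Pe {n : ℕ} (hn : Module.finrank ℝ E = n + 1) (x : SS E) :
    Module.finrank ℝ (Pe x) = n := by
  have hx : (x : E) ≠ 0 := by
    have h1 := norm_eq_of_mem_sphere x
    intro h
    rw [h, norm_zero] at h1
    exact zero_ne_one h1
  have h1 := Submodule.finrank_add_finrank_orthogonal (Submodule.span ℝ {(x : E)})
  rw [finrank_span_singleton hx, hn] at h1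
  show Module.finrank ℝ (Submodule.span ℝ {(x : E)})ᗮ = n
  omega

-- pt_inner
theorem pt_inner {r r' : ℝ} (h1 : -1 ≤ r) (h2 : r ≤ 1) (h1' : -1 ≤ r') (h2' : r' ≤ 1)
    (x : SS E) (w w' : SS (Pe x)) :
    ⟪(x : E), (pt x r w : E)⟫ = r ∧ ⟪(pt x r w : E), (pt x r' w' : E)⟫
      = r * r' + Real.sqrt (1 - r ^ 2) * Real.sqrt (1 - r' ^ 2) * ⟪(w : Pe x), (w' : Pe x)⟫ := by
  rw [pt_coe h1 h2 x w, pt_coe h1' h2' x w']
  have hxx : ⟪(x : E), (x : E)⟫ = 1 := by
    rw [real_inner_self_eq_norm_sq, norm_eq_of_mem_sphere x]; norm_num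
  have hw : ⟪(x : E), ((w : Pe x) : E)⟫ = 0 := Pe_inner x _
  have hw' : ⟪(x : E), ((w' : Pe x) : E)⟫ = 0 := Pe_inner x _
  have hwx : ⟪((w : Pe x) : E), (x : E)⟫ = 0 := by rw [real_inner_comm]; exact hw
  have hc : ⟪((w : Pe x) : E), ((w' : Pe x) : E)⟫ = ⟪(w : Pe x), (w' : Pe x)⟫ := rfl
  constructor
  · rw [inner_add_right, real_inner_smul_right, real_inner_smul_right, hxx, hw]; ring
  · rw [inner_add_left, inner_add_right, inner_add_right, real_inner_smul_left,
      real_inner_smul_left, real_inner_smul_left, real_inner_smul_left,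
      real_inner_smul_right, real_inner_smul_right, real_inner_smul_right,
      real_inner_smul_right, hxx, hw', hwx, hc]
    ring

-- pt_cont
theorem pt_cont (x : SS E) : Continuous (fun p : ℝ × SS (Pe x) => pt x p.1 p.2) := by
  refine Continuous.subtype_mk ?_ _
  have h1 : Continuous (fun p : ℝ × SS (Pe x) => Real.arccos p.1) :=
    Real.continuous_arccos.comp continuous_fst
  have h2 : Continuous (fun p : ℝ × SS (Pe x) => ((p.2 : Pe x) : E)) :=
    continuous_subtype_val.comp (continuous_subtype_val.comp continuous_snd)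
  exact ((Real.continuous_cos.comp h1).smul continuous_const).add
    ((Real.continuous_sin.comp h1).smul h2)

-- pt_surj
theorem pt_surj (hn : 2 ≤ Module.finrank ℝ E) (x y : SS E) :
    ∃ w : SS (Pe x), y = pt x ⟪(x : E), (y : E)⟫ w := by
  obtain ⟨n, hn'⟩ : ∃ n, Module.finrank ℝ E = n + 1 := ⟨Module.finrank ℝ E - 1, by omega⟩
  have hP : Module.finrank ℝ (Pe x) = n := finrank_Pe hn' x
  have hx : ‖(x : E)‖ = 1 := norm_eq_of_mem_sphere x
  have hy : ‖(y : E)‖ = 1 := norm_eq_of_mem_sphere y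
  obtain ⟨r, hr⟩ : ∃ r : ℝ, r = ⟪(x : E), (y : E)⟫ := ⟨_, rfl⟩
  rw [← hr]
  have habs : |r| ≤ 1 := by
    have h := abs_real_inner_le_norm (x : E) (y : E)
    rwa [hx, hy, one_mul, ← hr] at h
  have h1 : -1 ≤ r := (abs_le.1 habs).1
  have h2 : r ≤ 1 := (abs_le.1 habs).2
  have hxx : ⟪(x : E), (x : E)⟫ = 1 := by
    rw [real_inner_self_eq_norm_sq, hx]
    norm_num
  have hv : (y : E) - r • (x : E) ∈ Pe x := by
    rw [Submodule.mem_orthogonal]
    intro u hu
    obtain ⟨c, rfl⟩ := Submodule.mem_span_singleton.1 hu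
    rw [real_inner_smul_left, inner_sub_right, real_inner_smul_right, hxx, ← hr]
    ring
  have hnv : ‖(y : E) - r • (x : E)‖ ^ 2 = 1 - r ^ 2 := by
    rw [norm_sub_sq_real, norm_smul, hx, hy, real_inner_smul_right, real_inner_comm, ← hr,
      Real.norm_eq_abs, mul_one, sq_abs]
    ring
  by_cases hlt : 0 < 1 - r ^ 2
  · have hs : 0 < Real.sqrt (1 - r ^ 2) := Real.sqrt_pos.2 hlt
    have hnv' : ‖(y : E) - r • (x : E)‖ = Real.sqrt (1 - r ^ 2) := by
      rw [← hnv, Real.sqrt_sq (norm_nonneg _)]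
    let w0 : Pe x := (Real.sqrt (1 - r ^ 2))⁻¹ • ⟨(y : E) - r • (x : E), hv⟩
    have hw0 : ‖w0‖ = 1 := by
      have h3 : ‖w0‖ = ‖(Real.sqrt (1 - r ^ 2))⁻¹ • ((y : E) - r • (x : E))‖ := rfl
      rw [h3, norm_smul, hnv', norm_inv, Real.norm_eq_abs, abs_of_pos hs, inv_mul_cancel₀ hs.ne']
    refine ⟨⟨w0, by rw [mem_sphere_zero_iff_norm]; exact hw0⟩, Subtype.ext ?_⟩
    rw [pt_coe h1 h2]
    have h3 : ((w0 : Pe x) : E) = (Real.sqrt (1 - r ^ 2))⁻¹ • ((y : E) - r • (x : E)) := rfl
    change (y : E) = r • (x : E) + Real.sqrt (1 - r ^ 2) • ((w0 : Pe x) : E)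
    rw [h3, smul_smul, mul_inv_cancel₀ hs.ne', one_smul]
    abel
  · have h0 : 1 - r ^ 2 = 0 := by
      refine le_antisymm (not_lt.1 hlt) ?_
      rw [← hnv]
      positivity
    have hv0 : (y : E) - r • (x : E) = 0 := by
      rw [h0] at hnv
      exact norm_eq_zero.1 (pow_eq_zero_iff two_ne_zero |>.1 hnv)
    obtain ⟨w⟩ : Nonempty (SS (Pe x)) := sm_nonempty (E := Pe x) (by omega)
    refine ⟨w, Subtype.ext ?_⟩
    rw [pt_coe h1 h2, h0, Real.sqrt_zero, zero_smul, add_zero]
    exact sub_eq_zero.1 hv0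

-- pair_trans
theorem pair_trans (hn : 2 ≤ Module.finrank ℝ E) (a b a' b' : SS E)
    (h : ⟪(a : E), (b : E)⟫ = ⟪(a' : E), (b' : E)⟫) : ∃ g : UG E, sa g a = a' ∧ sa g b = b' := by
  obtain ⟨n, hn2⟩ : ∃ n, Module.finrank ℝ E = n + 2 := ⟨Module.finrank ℝ E - 2, by omega⟩
  obtain ⟨w, hw⟩ := pt_surj hn a b
  obtain ⟨w', hw'⟩ := pt_surj hn a' b'
  rw [← h] at hw'
  generalize ⟪(a : E), (b : E)⟫ = r at hw hw'
  obtain ⟨B, hB0, hB1⟩ := exists_onb2 hn2 (a : E) ((w : Pe a) : E) (norm_eq_of_mem_sphere a)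
    (norm_eq_of_mem_sphere w) (Pe_inner a w)
  obtain ⟨C, hC0, hC1⟩ := exists_onb2 hn2 (a' : E) ((w' : Pe a') : E) (norm_eq_of_mem_sphere a')
    (norm_eq_of_mem_sphere w') (Pe_inner a' w')
  obtain ⟨g, hg⟩ := exists_UG B C
  have h0 := hg 0
  have h1 := hg 1
  rw [hB0, hC0] at h0
  rw [hB1, hC1] at h1
  refine ⟨g, Subtype.ext (by rw [sa_coe, h0]), Subtype.ext ?_⟩
  rw [sa_coe, hw, hw']
  show av g (Real.cos (Real.arccos r) • (a : E) + Real.sin (Real.arccos r) • ((w : Pe a) : E))
    = Real.cos (Real.arccos r) • (a' : E) + Real.sin (Real.arccos r) • ((w' : Pe a') : E)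
  rw [av_add, av_smul, av_smul, h0, h1]

-- cond_right
theorem cond_right (e : SS E) {Φ : UG E → ℝ} (hΦ : Measurable Φ) (hb : ∃ C : ℝ, ∀ g, |Φ g| ≤ C) :
    ∫ g, Φ g ∂(hm E) = ∫ g, ∫ k, Φ (g * ex e k) ∂(hm (Pe e)) ∂(hm E) := by
  obtain ⟨C, hC⟩ := hb
  have hmeas : Measurable (fun p : UG E × UG (Pe e) => Φ (p.1 * ex e p.2)) := by
    refine hΦ.comp ?_
    exact (continuous_fst.mul ((ex_cont e).comp continuous_snd)).measurable
  have hint : Integrable (Function.uncurry (fun (g : UG E) (k : UG (Pe e)) => Φ (g * ex e k)))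
      ((hm E).prod (hm (Pe e))) := by
    refine Integrable.of_bound (C := C) hmeas.aestronglyMeasurable ?_
    exact Filter.Eventually.of_forall fun p => by
      rw [Real.norm_eq_abs]
      exact hC _
  rw [integral_integral_swap hint]
  have h1 : ∀ k : UG (Pe e), ∫ g, Φ (g * ex e k) ∂(hm E) = ∫ g, Φ g ∂(hm E) :=
    fun k => hm_int_right (ex e k) Φ
  simp only [h1]
  rw [integral_const]
  simp

-- cond_left
theorem cond_left (e : SS E) {Φ : UG E → ℝ} (hΦ : Measurable Φ) (hb : ∃ C : ℝ, ∀ g, |Φ g| ≤ C) :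
    ∫ g, Φ g ∂(hm E) = ∫ g, ∫ k, Φ (ex e k * g) ∂(hm (Pe e)) ∂(hm E) := by
  obtain ⟨C, hC⟩ := hb
  have hcont : Continuous (fun p : UG E × UG (Pe e) => ex e p.2 * p.1) :=
    ((ex_cont e).comp continuous_snd).mul continuous_fst
  have hmeas : Measurable (fun p : UG E × UG (Pe e) => Φ (ex e p.2 * p.1)) :=
    hΦ.comp hcont.measurable
  have hint : Integrable (Function.uncurry fun (g : UG E) (k : UG (Pe e)) => Φ (ex e k * g))
      ((hm E).prod (hm (Pe e))) := by
    refine Integrable.of_bound (C := C) hmeas.aestronglyMeasurable ?_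
    exact Filter.Eventually.of_forall fun p => by
      rw [Real.norm_eq_abs]; exact hC _
  rw [integral_integral_swap hint]
  have h1 : ∀ k : UG (Pe e), ∫ g, Φ (ex e k * g) ∂(hm E)
      = ∫ g, Φ g ∂(hm E) := fun k => hm_int_left (ex e k) Φ
  simp only [h1]
  simp

-- PP_eq
theorem PP_eq (hn : 2 ≤ Module.finrank ℝ E) (r : ℝ) {f : SS E → ℝ} (hf : Measurable f) (x : SS E)
    (w0 : SS (Pe x)) : PP r f x = ∫ k, f (sa (ex x k) (pt x r w0)) ∂(hm (Pe x)) := by
  obtain ⟨n, hn2⟩ : ∃ n, Module.finrank ℝ E = (n + 1) + 1 :=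
    ⟨Module.finrank ℝ E - 2, by omega⟩
  have h1 : 1 ≤ Module.finrank ℝ (Pe x) := by rw [finrank_Pe hn2 x]; omega
  have h2 : Continuous (fun w : SS (Pe x) => ((r, w) : ℝ × SS (Pe x))) :=
    continuous_const.prodMk continuous_id
  have h3 := Continuous.comp (pt_cont x) h2
  have h4 : Measurable (fun w : SS (Pe x) => (pt x r w)) := h3.measurable
  have h5 := hf.comp h4
  have h6 := sm_int h1 w0 h5
  refine h6.trans ?_
  refine integral_congr_ae (Filter.Eventually.of_forall fun k => ?_)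
  have h7 := ex_pt x k r w0
  exact (congrArg f h7).symm

-- PP_rot
/-- the orthogonal complement is carried to the orthogonal complement -/
theorem PP_rot_mem (g : UG E) (x : SS E) (w : Pe x) : av g (w : E) ∈ Pe (sa g x) := by
  rw [Submodule.mem_orthogonal_singleton_iff_inner_right, sa_coe, av_inner]
  exact Pe_inner x w

theorem PP_rot_mem' (g : UG E) (x : SS E) (w : Pe (sa g x)) : av g⁻¹ (w : E) ∈ Pe x := by
  rw [Submodule.mem_orthogonal_singleton_iff_inner_right, ← av_inner g, av_inv']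
  exact Pe_inner (sa g x) w

/-- the restriction of `g` to the orthogonal complement -/
noncomputable def PP_rot_L (g : UG E) (x : SS E) : Pe x ≃ₗᵢ[ℝ] Pe (sa g x) where
  toFun w := ⟨av g (w : E), PP_rot_mem g x w⟩
  invFun w := ⟨av g⁻¹ (w : E), PP_rot_mem' g x w⟩
  map_add' a b := Subtype.ext (by simp [av_add])
  map_smul' c a := Subtype.ext (by simp [av_smul])
  left_inv w := Subtype.ext (by simp [av_inv])
  right_inv w := Subtype.ext (by simp [av_inv'])
  norm_map' w := by
    show ‖av g (w : E)‖ = ‖(w : E)‖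
    exact av_norm g _

theorem PP_rot_L_coe (g : UG E) (x : SS E) (w : Pe x) :
    ((PP_rot_L g x w : Pe (sa g x)) : E) = av g (w : E) := rfl

/-- the induced map on spheres -/
noncomputable def PP_rot_S (g : UG E) (x : SS E) (w : SS (Pe x)) : SS (Pe (sa g x)) :=
  ⟨PP_rot_L g x (w : Pe x), by
    rw [mem_sphere_zero_iff_norm, LinearIsometryEquiv.norm_map]
    exact norm_eq_of_mem_sphere w⟩

theorem PP_rot_S_cont (g : UG E) (x : SS E) : Continuous (PP_rot_S g x) :=
  Continuous.subtype_mk ((PP_rot_L g x).continuous.comp continuous_subtype_val) _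

theorem PP_rot_pt (g : UG E) (x : SS E) (r : ℝ) (w : SS (Pe x)) :
    pt (sa g x) r (PP_rot_S g x w) = sa g (pt x r w) := by
  apply Subtype.ext
  show Real.cos (Real.arccos r) • av g (x : E) + Real.sin (Real.arccos r) • av g ((w : Pe x) : E)
    = av g (Real.cos (Real.arccos r) • (x : E) + Real.sin (Real.arccos r) • ((w : Pe x) : E))
  rw [av_add, av_smul, av_smul]

theorem PP_rot_conj (g : UG E) (x : SS E) (h : UG (Pe (sa g x))) :
    ∃ k : UG (Pe x), ∀ w, sa h (PP_rot_S g x w) = PP_rot_S g x (sa k w) := by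
  refine ⟨Unitary.linearIsometryEquiv.symm
    (((PP_rot_L g x).trans (Unitary.linearIsometryEquiv h)).trans (PP_rot_L g x).symm),
    fun w => ?_⟩
  apply Subtype.ext
  show av h (PP_rot_L g x (w : Pe x)) = PP_rot_L g x (av _ (w : Pe x))
  unfold av
  rw [Unitary.coe_symm_linearIsometryEquiv_apply]
  simp only [LinearIsometryEquiv.coe_toContinuousLinearEquiv, ContinuousLinearEquiv.coe_coe,
    LinearIsometryEquiv.trans_apply, LinearIsometryEquiv.apply_symm_apply]
  rfl

theorem PP_rot (hn : 2 ≤ Module.finrank ℝ E) (r : ℝ) {f : SS E → ℝ} (hf : Measurable f) (g : UG E)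
    (x : SS E) : PP r f (sa g x) = PP r (fun y => f (sa g y)) x := by
  obtain ⟨n, hn'⟩ : ∃ n, Module.finrank ℝ E = (n + 1) + 1 := ⟨Module.finrank ℝ E - 2, by omega⟩
  have h1 : 1 ≤ Module.finrank ℝ (Pe x) := by rw [finrank_Pe hn' x]; omega
  have h2 : 1 ≤ Module.finrank ℝ (Pe (sa g x)) := by rw [finrank_Pe hn' (sa g x)]; omega
  have hSm : Measurable (PP_rot_S g x) := (PP_rot_S_cont g x).measurable
  have := sm_prob h1
  have : IsProbabilityMeasure ((sm (Pe x)).map (PP_rot_S g x)) :=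
    Measure.isProbabilityMeasure_map hSm.aemeasurable
  have key : (sm (Pe x)).map (PP_rot_S g x) = sm (Pe (sa g x)) := by
    refine sm_unique h2 _ fun h => ?_
    obtain ⟨k, hk⟩ := PP_rot_conj g x h
    have hcomp : sa h ∘ PP_rot_S g x = PP_rot_S g x ∘ sa k := funext hk
    rw [Measure.map_map (sa_continuous_right h).measurable hSm, hcomp,
      ← Measure.map_map hSm (sa_continuous_right k).measurable, (sm_inv k).map_eq]
  have hptm : Measurable (fun w : SS (Pe (sa g x)) => pt (sa g x) r w) :=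
    ((pt_cont (sa g x)).comp (continuous_const.prodMk continuous_id)).measurable
  have hfm : Measurable (fun w : SS (Pe (sa g x)) => f (pt (sa g x) r w)) := hf.comp hptm
  unfold PP
  rw [← key, integral_map hSm.aemeasurable hfm.aestronglyMeasurable]
  simp only [PP_rot_pt]

-- PP_pair
theorem PP_pair (hn : 2 ≤ Module.finrank ℝ E) {f h : SS E → ℝ} (hf : BM f) (hh : BM h)
    (hPf : ∀ r : ℝ, Measurable (PP r f)) (a b : SS E) :
    ∫ x, h x * PP ⟪(a : E), (b : E)⟫ f x ∂(sm E) = ∫ g, h (sa g a) * f (sa g b) ∂(hm E) := by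
  obtain ⟨w0, hw0⟩ := pt_surj hn a b
  set r : ℝ := ⟪(a : E), (b : E)⟫ with hr
  have hm1 : Measurable (fun x => h x * PP r f x) := hh.1.mul (hPf r)
  rw [sm_int (by omega) a hm1]
  have hma : ∀ x : SS E, Measurable (fun g : UG E => sa g x) := fun x =>
    (sa_continuous_left x).measurable
  have hΦ : Measurable (fun g : UG E => h (sa g a) * f (sa g b)) :=
    (hh.1.comp (hma a)).mul (hf.1.comp (hma b))
  have hb : ∃ C : ℝ, ∀ g : UG E, |h (sa g a) * f (sa g b)| ≤ C := by
    obtain ⟨C, hC⟩ := hh.2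
    obtain ⟨D, hD⟩ := hf.2
    refine ⟨C * D, fun g => ?_⟩
    rw [abs_mul]
    exact mul_le_mul (hC _) (hD _) (abs_nonneg _) ((abs_nonneg _).trans (hC (sa g a)))
  rw [cond_right a hΦ hb]
  congr 1
  funext g
  have h1 : PP r f (sa g a) = ∫ k, f (sa (g * ex a k) b) ∂(hm (Pe a)) := by
    have h3 : Measurable (fun y : SS E => f (sa g y)) :=
      hf.1.comp (sa_continuous_right g).measurable
    rw [PP_rot hn r hf.1 g a, PP_eq hn r h3 a w0, ← hw0]
    rfl
  have h2 : ∀ k : UG (Pe a), sa (g * ex a k) a = sa g a := by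
    intro k
    rw [sa_mul]
    congr 1
    exact Subtype.ext (ex_props a k).1
  simp only [h2]
  rw [integral_const_mul, h1]


end Core

end Pool.Agent.helper440_simplex
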