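import Pool.Agent.helper440_simplex.Hull
import Pool.Agent.helper440_simplex.Alg

/-! # The first order condition and its infinitesimal form -/

set_option autoImplicit false
set_option linter.unusedSectionVars false

namespace Pool.Agent.helper440_simplex

open MeasureTheory Metric Set Filter Topology
open scoped RealInnerProductSpace

section Cont
variable {t : ℕ} {X : Type*} [TopologicalSpace X]

theorem Gam_comp_cont {B : ℝ} (hB : 0 ≤ B) {x : X → ℝ} (hx : Continuous x)
    (hp : ∀ r, x r ∈ Icc (-Psi B) (Psi B)) : Continuous (fun r => Gam (x r)) := by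
  rw [continuous_iff_continuousAt]
  intro r
  exact (hasDerivAt_Gam hB (hp r)).continuousAt.comp hx.continuousAt

theorem ee_comp_cont {B : ℝ} (hB : 0 ≤ B) {x : X → ℝ} (hx : Continuous x)
    (hp : ∀ r, x r ∈ Icc (-Psi B) (Psi B)) : Continuous (fun r => ee (x r)) := by
  unfold ee
  exact Real.continuous_exp.comp (((Gam_comp_cont hB hx hp).pow 2).div_const 2)

theorem WW_comp_cont {B : ℝ} (hB : 0 ≤ B) {P : X → Fin t → ℝ} (hP : Continuous P)
    (hp : ∀ r, P r ∈ cube t B) : Continuous (fun r => WW (P r)) := by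
  unfold WW
  exact continuous_finsetSum _ fun i _ =>
    Gam_comp_cont hB ((continuous_apply i).comp hP) (fun r => hp r i)

theorem tpW_comp_cont {B : ℝ} (hB : 0 ≤ B) (S0 : ℝ) (m : ℕ) {P : X → Fin t → ℝ}
    (hP : Continuous P) (hp : ∀ r, P r ∈ cube t B) :
    Continuous (fun r => tp m (WW (P r) - S0)) :=
  (continuous_tp m).comp ((WW_comp_cont hB hP hp).sub continuous_const)

theorem FF_comp_cont {B : ℝ} (hB : 0 ≤ B) (S0 : ℝ) (N : ℕ) (c : ℝ) {P : X → Fin t → ℝ}
    (hP : Continuous P) (hp : ∀ r, P r ∈ cube t B) :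
    Continuous (fun r => FF S0 N c (P r)) := by
  unfold FF
  refine (tpW_comp_cont hB S0 _ hP hp).add (continuous_const.mul ?_)
  exact continuous_finsetSum _ fun i _ => ((continuous_apply i).comp hP).pow 2

theorem dFF_comp_cont {B : ℝ} (hB : 0 ≤ B) (S0 : ℝ) (N : ℕ) (c : ℝ) {P : X → Fin t → ℝ}
    (hP : Continuous P) (hp : ∀ r, P r ∈ cube t B) (i : Fin t) :
    Continuous (fun r => dFF S0 N c (P r) i) := by
  unfold dFF
  have h1 := tpW_comp_cont hB S0 (N + 2) hP hp
  have h2 := ee_comp_cont hB ((continuous_apply i).comp hP) (fun r => hp r i)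
  have h3 := (continuous_apply i).comp hP
  exact ((continuous_const.mul h1).mul h2).add (continuous_const.mul h3)

theorem hFF_comp_cont {B : ℝ} (hB : 0 ≤ B) (S0 : ℝ) (N : ℕ) (c : ℝ) {P D : X → Fin t → ℝ}
    (hP : Continuous P) (hD : Continuous D) (hp : ∀ r, P r ∈ cube t B) (i : Fin t) :
    Continuous (fun r => hFF S0 N c (P r) (D r) i) := by
  unfold hFF
  have h1 := tpW_comp_cont hB S0 (N + 2) hP hp
  have h0 := tpW_comp_cont hB S0 (N + 1) hP hp
  have h2 := ee_comp_cont hB ((continuous_apply i).comp hP) (fun r => hp r i)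
  have h3 := (continuous_apply i).comp hD
  have h4 := Gam_comp_cont hB ((continuous_apply i).comp hP) (fun r => hp r i)
  have h5 : Continuous (fun r => ∑ l, ee (P r l) * D r l) :=
    continuous_finsetSum _ fun l _ =>
      (ee_comp_cont hB ((continuous_apply l).comp hP) (fun r => hp r l)).mul
        ((continuous_apply l).comp hD)
  exact (((continuous_const.mul ((continuous_const.mul h0).mul h5)).mul h2).add
    ((continuous_const.mul h1).mul ((h4.mul (h2.pow 2)).mul h3))).add (continuous_const.mul h3)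

end Cont

variable {t : ℕ} {E : Type*} [NormedAddCommGroup E] [InnerProductSpace ℝ E] [CompleteSpace E]
  [FiniteDimensional ℝ E]

/-- the values at the points `g (s i)` -/
noncomputable def val (s : Fin t → SS E) (ψ : VV E) (g : UG E) : Fin t → ℝ :=
  fun i => (ψ (sa g (s i))).1

theorem val_cont (s : Fin t → SS E) (ψ : VV E) : Continuous (val s ψ) :=
  continuous_pi fun i => continuous_fst.comp (ψ.continuous.comp (sa_continuous_left (s i)))

theorem val_TT (s : Fin t → SS E) (ψ : VV E) (h g : UG E) :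
    val s (TT h ψ) g = val s ψ (h * g) := rfl

/-- the functional -/
noncomputable def PhiF (S0 : ℝ) (N : ℕ) (c : ℝ) (s : Fin t → SS E) (ψ : VV E) : ℝ :=
  ∫ g, FF S0 N c (val s ψ g) ∂(hm E)

/-- abstract first order condition -/
theorem first_order {B : ℝ} (hB : 0 ≤ B) (S0 : ℝ) (N : ℕ) (c : ℝ) {P Q : UG E → Fin t → ℝ}
    (hP : Continuous P) (hp : ∀ r, P r ∈ cube t B) (hQ : Continuous Q) (hq : ∀ r, Q r ∈ cube t B)
    (hmin : ∀ τ : ℝ, 0 < τ → τ ≤ 1 → ∫ g, FF S0 N c (P g) ∂(hm E)
      ≤ ∫ g, FF S0 N c (fun l => P g l + τ * (Q g l - P g l)) ∂(hm E)) :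
    0 ≤ ∫ g, ∑ i, dFF S0 N c (P g) i * (Q g i - P g i) ∂(hm E) := by
  set I := ∫ g, ∑ i, dFF S0 N c (P g) i * (Q g i - P g i) ∂(hm E) with hI
  set C := LL t S0 N c B * (∑ _l : Fin t, 2 * Psi B) ^ 2 with hC
  have hL := LL_nonneg t S0 N c hB
  have hPs : 0 ≤ Psi B := by
    rw [← Psi_zero]; exact Psi_strictMono.monotone hB
  have hc1 : Continuous (fun g => ∑ i, dFF S0 N c (P g) i * (Q g i - P g i)) :=
    continuous_finsetSum _ fun i _ => (dFF_comp_cont hB S0 N c hP hp i).mul
      (((continuous_apply i).comp hQ).sub ((continuous_apply i).comp hP))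
  have hc2 : Continuous (fun g => FF S0 N c (P g)) := FF_comp_cont hB S0 N c hP hp
  have key : ∀ τ : ℝ, 0 < τ → τ ≤ 1 → 0 ≤ I + τ * C := by
    intro τ h0 h1
    have h2 := hmin τ h0 h1
    have h3 : ∫ g, FF S0 N c (fun l => P g l + τ * (Q g l - P g l)) ∂(hm E)
        ≤ ∫ g, (FF S0 N c (P g) + τ * (∑ i, dFF S0 N c (P g) i * (Q g i - P g i)) + τ ^ 2 * C)
          ∂(hm E) := by
      refine integral_mono ?_ ?_ ?_
      · refine hm_integrable (FF_comp_cont hB S0 N c
          (P := fun g l => P g l + τ * (Q g l - P g l)) ?_ ?_)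
        · exact continuous_pi fun l => ((continuous_apply l).comp hP).add (continuous_const.mul
            (((continuous_apply l).comp hQ).sub ((continuous_apply l).comp hP)))
        · intro g
          exact segment_mem (hp g) (hq g) ⟨h0.le, h1⟩
      · exact hm_integrable ((hc2.add (continuous_const.mul hc1)).add continuous_const)
      · intro g
        refine (FF_taylor hB S0 N c (hp g) (hq g) h0 h1).trans ?_
        have : (∑ l, |Q g l - P g l|) ^ 2 ≤ (∑ _l : Fin t, 2 * Psi B) ^ 2 := by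
          refine pow_le_pow_left₀ (Finset.sum_nonneg fun l _ => abs_nonneg _)
            (Finset.sum_le_sum fun l _ => ?_) 2
          have a1 := hp g l
          have a2 := hq g l
          rw [abs_le]
          constructor <;> linarith [a1.1, a1.2, a2.1, a2.2]
        have h5 := mul_le_mul_of_nonneg_left this hL
        have h6 := mul_le_mul_of_nonneg_left h5 (sq_nonneg τ)
        simp only [hC]
        linarith
    have hc3 : Continuous (fun g => τ * ∑ i, dFF S0 N c (P g) i * (Q g i - P g i)) :=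
      continuous_const.mul hc1
    have hc4 : Continuous (fun g => FF S0 N c (P g)
        + τ * ∑ i, dFF S0 N c (P g) i * (Q g i - P g i)) := hc2.add hc3
    rw [integral_add (hm_integrable hc4) (integrable_const _),
      integral_add (hm_integrable hc2) (hm_integrable hc3), integral_const_mul] at h3
    simp only [integral_const, probReal_univ, one_smul] at h3
    have h4 : 0 ≤ τ * (I + τ * C) := by
      have e : τ * (I + τ * C) = τ * I + τ ^ 2 * C := by ring
      rw [e]
      linarith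
    exact nonneg_of_mul_nonneg_right h4 h0
  have hlim : Tendsto (fun τ : ℝ => I + τ * C) (𝓝[>] 0) (𝓝 (I + 0 * C)) := by
    have : Continuous (fun τ : ℝ => I + τ * C) := by fun_prop
    exact this.continuousAt.tendsto.mono_left nhdsWithin_le_nhds
  rw [zero_mul, add_zero] at hlim
  refine ge_of_tendsto hlim ?_
  filter_upwards [Ioo_mem_nhdsGT (zero_lt_one' ℝ)] with τ hτ
  exact key τ hτ.1 hτ.2.le

/-- the symmetrised condition -/
theorem crit {B : ℝ} (hB : 0 ≤ B) (S0 : ℝ) (N : ℕ) (c : ℝ) {P : UG E → Fin t → ℝ}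
    (hP : Continuous P) (hp : ∀ r, P r ∈ cube t B) (R : UG E)
    (hmin : ∀ τ : ℝ, 0 < τ → τ ≤ 1 → ∫ g, FF S0 N c (P g) ∂(hm E)
      ≤ ∫ g, FF S0 N c (fun l => P g l + τ * ((P (R * g) l + P (R⁻¹ * g) l) / 2 - P g l))
        ∂(hm E)) :
    ∫ g, ∑ i, (dFF S0 N c (P (R * g)) i - dFF S0 N c (P g) i) * (P (R * g) i - P g i) ∂(hm E)
      ≤ 0 := by
  have hPR : ∀ h : UG E, Continuous (fun g => P (h * g)) := fun h =>
    hP.comp (continuous_const.mul continuous_id)
  have h1 := first_order hB S0 N c hP hp (Q := fun g l => (P (R * g) l + P (R⁻¹ * g) l) / 2)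
    (continuous_pi fun l => ((((continuous_apply l).comp (hPR R))).add
      ((continuous_apply l).comp (hPR R⁻¹))).div_const 2)
    (by
      intro g l
      have a1 := hp (R * g) l
      have a2 := hp (R⁻¹ * g) l
      constructor <;> linarith [a1.1, a1.2, a2.1, a2.2])
    hmin
  have c1 : Continuous (fun g => ∑ i, dFF S0 N c (P g) i * (P (R * g) i - P g i)) :=
    continuous_finsetSum _ fun i _ => (dFF_comp_cont hB S0 N c hP hp i).mul
      (((continuous_apply i).comp (hPR R)).sub ((continuous_apply i).comp hP))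
  have c2 : Continuous (fun g => ∑ i, dFF S0 N c (P g) i * (P (R⁻¹ * g) i - P g i)) :=
    continuous_finsetSum _ fun i _ => (dFF_comp_cont hB S0 N c hP hp i).mul
      (((continuous_apply i).comp (hPR R⁻¹)).sub ((continuous_apply i).comp hP))
  have h2 : ∫ g, ∑ i, dFF S0 N c (P g) i * (P (R⁻¹ * g) i - P g i) ∂(hm E)
      = ∫ g, ∑ i, dFF S0 N c (P (R * g)) i * (P g i - P (R * g) i) ∂(hm E) := by
    have := hm_int_left R (fun g => ∑ i, dFF S0 N c (P g) i * (P (R⁻¹ * g) i - P g i))
    rw [← this]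
    simp only [inv_mul_cancel_left]
  have h3 : ∫ g, ∑ i, dFF S0 N c (P g) i * ((P (R * g) i + P (R⁻¹ * g) i) / 2 - P g i) ∂(hm E)
      = (1 / 2) * (∫ g, ∑ i, dFF S0 N c (P g) i * (P (R * g) i - P g i) ∂(hm E)
        + ∫ g, ∑ i, dFF S0 N c (P g) i * (P (R⁻¹ * g) i - P g i) ∂(hm E)) := by
    rw [← integral_add (hm_integrable c1) (hm_integrable c2), ← integral_const_mul]
    refine integral_congr_ae (Eventually.of_forall fun g => ?_)
    simp only [← Finset.sum_add_distrib, Finset.mul_sum]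
    exact Finset.sum_congr rfl fun i _ => by ring
  rw [h3, h2, ← integral_add (hm_integrable c1) ?_] at h1
  · have h4 : ∫ g, (∑ i, dFF S0 N c (P g) i * (P (R * g) i - P g i)
        + ∑ i, dFF S0 N c (P (R * g)) i * (P g i - P (R * g) i)) ∂(hm E)
        = - ∫ g, ∑ i, (dFF S0 N c (P (R * g)) i - dFF S0 N c (P g) i) *
          (P (R * g) i - P g i) ∂(hm E) := by
      rw [← integral_neg]
      refine integral_congr_ae (Eventually.of_forall fun g => ?_)
      simp only [← Finset.sum_add_distrib, ← Finset.sum_neg_distrib]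
      exact Finset.sum_congr rfl fun i _ => by ring
    rw [h4] at h1
    linarith
  · refine hm_integrable (continuous_finsetSum _ fun i _ => ?_)
    exact (dFF_comp_cont hB S0 N c (hPR R) (fun g => hp _) i).mul
      (((continuous_apply i).comp hP).sub ((continuous_apply i).comp (hPR R)))

/-- the infinitesimal form -/
theorem crit_inf {B : ℝ} (hB : 0 ≤ B) (S0 : ℝ) (N : ℕ) (c : ℝ) {P D : UG E → Fin t → ℝ}
    (hP : Continuous P) (hp : ∀ r, P r ∈ cube t B) (R : ℝ → UG E) (hR0 : R 0 = 1)
    (hder : ∀ g i, HasDerivAt (fun θ => P (R θ * g) i) (D g i) 0) (L : ℝ)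
    (hLip : ∀ᶠ θ in 𝓝 (0 : ℝ), ∀ g i, |P (R θ * g) i - P g i| ≤ L * |θ|)
    (hcrit : ∀ θ, ∫ g, ∑ i, (dFF S0 N c (P (R θ * g)) i - dFF S0 N c (P g) i) *
      (P (R θ * g) i - P g i) ∂(hm E) ≤ 0) :
    ∫ g, ∑ i, hFF S0 N c (P g) (D g) i * D g i ∂(hm E) ≤ 0 := by
  have hPR : ∀ h : UG E, Continuous (fun g => P (h * g)) := fun h =>
    hP.comp (continuous_const.mul continuous_id)
  have hLL := LL_nonneg t S0 N c hB
  have hlim : Tendsto (fun θ : ℝ => ∫ g, ∑ i, (θ⁻¹ * (dFF S0 N c (P (R θ * g)) i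
      - dFF S0 N c (P g) i)) * (θ⁻¹ * (P (R θ * g) i - P g i)) ∂(hm E)) (𝓝[≠] 0)
      (𝓝 (∫ g, ∑ i, hFF S0 N c (P g) (D g) i * D g i ∂(hm E))) := by
    refine tendsto_integral_filter_of_dominated_convergence
      (fun _ => ∑ _i : Fin t, (LL t S0 N c B * ∑ _l : Fin t, L) * L) ?_ ?_
      (integrable_const _) ?_
    · refine Eventually.of_forall fun θ => ?_
      refine Continuous.aestronglyMeasurable (continuous_finsetSum _ fun i _ => ?_)
      exact (continuous_const.mul ((dFF_comp_cont hB S0 N c (hPR _) (fun g => hp _) i).sub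
        (dFF_comp_cont hB S0 N c hP hp i))).mul (continuous_const.mul
        (((continuous_apply i).comp (hPR _)).sub ((continuous_apply i).comp hP)))
    · filter_upwards [hLip.filter_mono nhdsWithin_le_nhds, self_mem_nhdsWithin] with θ hθ h0
      refine Eventually.of_forall fun g => ?_
      have hθ0 : 0 < |θ| := abs_pos.2 h0
      refine (norm_sum_le _ _).trans (Finset.sum_le_sum fun i _ => ?_)
      rw [norm_mul]
      have e1 : ‖θ⁻¹ * (P (R θ * g) i - P g i)‖ ≤ L := by
        rw [norm_mul, norm_inv, Real.norm_eq_abs, Real.norm_eq_abs, inv_mul_le_iff₀ hθ0, mul_comm]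
        exact hθ g i
      have hL0 : 0 ≤ L := (norm_nonneg _).trans e1
      have e2 : ‖θ⁻¹ * (dFF S0 N c (P (R θ * g)) i - dFF S0 N c (P g) i)‖
          ≤ LL t S0 N c B * ∑ _l : Fin t, L := by
        rw [norm_mul, norm_inv, Real.norm_eq_abs, Real.norm_eq_abs, inv_mul_le_iff₀ hθ0]
        refine (dFF_lip hB S0 N c (hp g) (hp (R θ * g)) i).trans ?_
        calc LL t S0 N c B * ∑ l, |P (R θ * g) l - P g l|
            ≤ LL t S0 N c B * ∑ _l : Fin t, L * |θ| :=
              mul_le_mul_of_nonneg_left (Finset.sum_le_sum fun l _ => hθ g l) hLL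
          _ = _ := by rw [← Finset.sum_mul]; ring
      exact mul_le_mul e2 e1 (norm_nonneg _)
        (mul_nonneg hLL (Finset.sum_nonneg fun _ _ => hL0))
    · refine Eventually.of_forall fun g => ?_
      refine tendsto_finsetSum _ fun i _ => ?_
      have hd0 : (fun θ => P (R θ * g)) 0 = P g := by simp [hR0]
      have hd1 := hasDerivAt_dFF hB S0 N c i (x := fun θ => P (R θ * g)) (hder g) (hp _)
      have t1 := hd1.tendsto_slope_zero
      have t2 := (hder g i).tendsto_slope_zero
      simp only [zero_add, smul_eq_mul, hR0, one_mul] at t1 t2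
      exact t1.mul t2
  refine le_of_tendsto hlim ?_
  filter_upwards [self_mem_nhdsWithin] with θ h0
  have : ∀ g, ∑ i, (θ⁻¹ * (dFF S0 N c (P (R θ * g)) i - dFF S0 N c (P g) i)) *
      (θ⁻¹ * (P (R θ * g) i - P g i)) = (θ⁻¹ * θ⁻¹) *
      ∑ i, (dFF S0 N c (P (R θ * g)) i - dFF S0 N c (P g) i) * (P (R θ * g) i - P g i) := by
    intro g
    rw [Finset.mul_sum]
    exact Finset.sum_congr rfl fun i _ => by ring
  simp only [this]
  rw [integral_const_mul]
  exact mul_nonpos_of_nonneg_of_nonpos (mul_self_nonneg _) (hcrit θ)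

end Pool.Agent.helper440_simplex
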