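import Pool.Agent.helper440_simplex.Hull
import Pool.Agent.helper440_simplex.Alg

/-! # Derivatives along curves in the sphere -/

set_option autoImplicit false
set_option linter.unusedSectionVars false

namespace Pool.Agent.helper440_simplex

open MeasureTheory Metric Set Filter Topology
open scoped RealInnerProductSpace

variable {E : Type*} [NormedAddCommGroup E] [InnerProductSpace ℝ E] [CompleteSpace E]
  [FiniteDimensional ℝ E]

/-- `φ.2` is a gradient of `φ.1` along the sphere, uniformly -/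
def IsGrad (φ : VV E) : Prop :=
  ∀ ε : ℝ, 0 < ε → ∃ δ : ℝ, 0 < δ ∧ ∀ x y : SS E, ‖(y : E) - x‖ < δ →
      |(φ y).1 - (φ x).1 - ⟪(φ x).2, (y : E) - x⟫| ≤ ε * ‖(y : E) - x‖

theorem KS_isGrad {φ ψ : VV E} (h : IsGrad φ) (hψ : ψ ∈ KS φ) : IsGrad ψ := by
  intro ε hε
  obtain ⟨δ, hδ, h1⟩ := h ε hε
  exact ⟨δ, hδ, fun x y hxy => KS_mod φ h1 hψ x y hxy⟩

open Classical in
/-- extension by zero -/
noncomputable def extz (φ : VV E) (x : E) : ℝ := if h : x ∈ SS E then (φ ⟨x, h⟩).1 else 0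

theorem extz_coe (φ : VV E) (x : SS E) : extz φ x = (φ x).1 := by
  unfold extz
  rw [dif_pos x.2]

theorem extz_hasFDeriv {φ : VV E} (h : IsGrad φ) (x : SS E) :
    HasFDerivWithinAt (extz φ) (innerSL ℝ (φ x).2) (SS E) (x : E) := by
  rw [hasFDerivWithinAt_iff_isLittleO, Asymptotics.isLittleO_iff]
  intro ε hε
  obtain ⟨δ, hδ, h1⟩ := h ε hε
  filter_upwards [self_mem_nhdsWithin, mem_nhdsWithin_of_mem_nhds (ball_mem_nhds (x : E) hδ)]
    with y hy hyd
  have h2 := h1 x ⟨y, hy⟩ (by rwa [mem_ball, dist_eq_norm] at hyd)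
  have e1 : extz φ y = (φ ⟨y, hy⟩).1 := extz_coe φ ⟨y, hy⟩
  rw [e1, extz_coe, innerSL_apply_apply]
  exact h2

theorem hasDerivAt_curve {φ : VV E} (h : IsGrad φ) {γ : ℝ → E} {γ' : E} {r : ℝ}
    (hγ : HasDerivAt γ γ' r) (hs : ∀ θ, γ θ ∈ SS E) :
    HasDerivAt (fun θ => (φ ⟨γ θ, hs θ⟩).1) ⟪(φ ⟨γ r, hs r⟩).2, γ'⟫ r := by
  have h1 := extz_hasFDeriv h ⟨γ r, hs r⟩
  have h2 := h1.comp_hasDerivAt r hγ (Eventually.of_forall hs)
  have e : (extz φ ∘ γ) = fun θ => (φ ⟨γ θ, hs θ⟩).1 := by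
    funext θ
    exact extz_coe φ ⟨γ θ, hs θ⟩
  rw [e] at h2
  simpa using h2

theorem VV_norm_snd (φ : VV E) (x : SS E) : ‖(φ x).2‖ ≤ ‖φ‖ :=
  (norm_snd_le _).trans (φ.norm_coe_le_norm x)

/-- generator of the rotation in the plane of `a`, `b` -/
noncomputable def gen (a b : E) : E →L[ℝ] E :=
  (innerSL ℝ b).smulRight a - (innerSL ℝ a).smulRight b

theorem gen_apply (a b x : E) : gen a b x = ⟪b, x⟫ • a - ⟪a, x⟫ • b := rfl

theorem gen_star (a b : E) : star (gen a b) = - gen a b := by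
  rw [ContinuousLinearMap.star_eq_adjoint]
  symm
  rw [ContinuousLinearMap.eq_adjoint_iff]
  intro x y
  simp only [neg_apply, gen_apply, inner_neg_left, inner_sub_left,
    inner_sub_right, real_inner_smul_left, real_inner_smul_right, real_inner_comm x a,
    real_inner_comm x b]
  ring

theorem exp_mem (a b : E) (θ : ℝ) : NormedSpace.exp (θ • gen a b) ∈ unitary (E →L[ℝ] E) := by
  let _ : NormedAlgebra ℚ (E →L[ℝ] E) := NormedAlgebra.restrictScalars ℚ ℝ (E →L[ℝ] E)
  apply NormedSpace.exp_mem_unitary_of_mem_skewAdjoint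
  rw [skewAdjoint.mem_iff, star_smul, gen_star]
  simp

/-- the rotations -/
noncomputable def rot (a b : E) (θ : ℝ) : UG E := ⟨NormedSpace.exp (θ • gen a b), exp_mem a b θ⟩

theorem rot_zero (a b : E) : rot a b 0 = 1 := by
  apply Subtype.ext
  simp [rot]

theorem rot_hasDerivAt (a b : E) :
    HasDerivAt (fun θ => (rot a b θ : E →L[ℝ] E)) (gen a b) 0 := by
  have h := hasDerivAt_exp_smul_const (𝕂 := ℝ) (𝔸 := E →L[ℝ] E) (gen a b) 0
  simp only [zero_smul, NormedSpace.exp_zero, one_mul] at h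
  exact h

theorem rot_av_hasDerivAt (a b x : E) : HasDerivAt (fun θ => av (rot a b θ) x) (gen a b x) 0 := by
  have h := (rot_hasDerivAt a b).clm_apply (hasDerivAt_const (0 : ℝ) x)
  simpa [av] using h

theorem rot_lip (a b : E) : ∃ C : ℝ, ∀ᶠ θ in 𝓝 (0 : ℝ), ∀ x : SS E,
    ‖av (rot a b θ) x - x‖ ≤ C * |θ| := by
  obtain ⟨C, hC⟩ := (rot_hasDerivAt a b).isBigO_sub.bound
  refine ⟨C, ?_⟩
  filter_upwards [hC] with θ hθ
  intro x
  rw [sub_zero, rot_zero] at hθ
  have h1 : av (rot a b θ) x - x = ((rot a b θ : E →L[ℝ] E) - ((1 : UG E) : E →L[ℝ] E)) x := by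
    simp [av]
  rw [h1]
  refine (ContinuousLinearMap.le_opNorm _ _).trans ?_
  rw [norm_eq_of_mem_sphere x, mul_one]
  exact hθ

/-- derivative of the rotated function -/
theorem rot_val_hasDerivAt {φ : VV E} (h : IsGrad φ) (a b : E) (x : SS E) :
    HasDerivAt (fun θ => (φ (sa (rot a b θ) x)).1) ⟪(φ x).2, gen a b x⟫ 0 := by
  have h1 := hasDerivAt_curve h (rot_av_hasDerivAt a b (x : E))
    (fun θ => (sa (rot a b θ) x).2)
  have e : (⟨av (rot a b 0) x, (sa (rot a b 0) x).2⟩ : SS E) = x := by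
    apply Subtype.ext
    simp [rot_zero, av_one]
  rw [e] at h1
  exact h1

theorem rot_val_lip {φ : VV E} (h : IsGrad φ) (a b : E) : ∃ L : ℝ, ∀ᶠ θ in 𝓝 (0 : ℝ),
    ∀ x : SS E, |(φ (sa (rot a b θ) x)).1 - (φ x).1| ≤ L * |θ| := by
  obtain ⟨C, hC⟩ := rot_lip a b
  obtain ⟨δ, hδ, h1⟩ := h 1 one_pos
  have hsm : ∀ᶠ θ in 𝓝 (0 : ℝ), C * |θ| < δ := by
    have : Continuous (fun θ : ℝ => C * |θ|) := by fun_prop
    have h2 : Tendsto (fun θ : ℝ => C * |θ|) (𝓝 0) (𝓝 (C * |(0 : ℝ)|)) := this.tendsto 0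
    rw [abs_zero, mul_zero] at h2
    exact h2.eventually_lt_const hδ
  refine ⟨(‖φ‖ + 1) * C, ?_⟩
  filter_upwards [hC, hsm] with θ hθ hθ2
  intro x
  have h3 := hθ x
  have h4 := h1 x (sa (rot a b θ) x) (lt_of_le_of_lt (by rw [sa_coe]; exact h3) hθ2)
  rw [one_mul] at h4
  have h5 : |⟪(φ x).2, (sa (rot a b θ) x : E) - x⟫| ≤ ‖φ‖ * ‖(sa (rot a b θ) x : E) - x‖ :=
    (abs_real_inner_le_norm _ _).trans
      (mul_le_mul_of_nonneg_right (VV_norm_snd φ x) (norm_nonneg _))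
  rw [sa_coe] at h4 h5
  have h6 : (φ (sa (rot a b θ) x)).1 - (φ x).1 = ((φ (sa (rot a b θ) x)).1 - (φ x).1
    - ⟪(φ x).2, av (rot a b θ) x - x⟫) + ⟪(φ x).2, av (rot a b θ) x - x⟫ := by ring
  rw [h6]
  calc _ ≤ _ := abs_add_le _ _
    _ ≤ ‖av (rot a b θ) x - x‖ + ‖φ‖ * ‖av (rot a b θ) x - x‖ := add_le_add h4 h5
    _ = (‖φ‖ + 1) * ‖av (rot a b θ) x - x‖ := by ring
    _ ≤ (‖φ‖ + 1) * (C * |θ|) := mul_le_mul_of_nonneg_left h3 (by positivity)
    _ = _ := by ring

/-- tangential part of the gradient -/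
noncomputable def tang (φ : VV E) (x : SS E) : E := (φ x).2 - ⟪(x : E), (φ x).2⟫ • (x : E)

theorem tang_orth (φ : VV E) (x : SS E) : ⟪(x : E), tang φ x⟫ = 0 := by
  unfold tang
  rw [inner_sub_right, real_inner_smul_right, real_inner_self_eq_norm_sq,
    norm_eq_of_mem_sphere x]
  ring

theorem tang_continuous (φ : VV E) : Continuous (tang φ) := by
  unfold tang
  have h1 : Continuous (fun x : SS E => (φ x).2) := continuous_snd.comp φ.continuous
  exact h1.sub ((continuous_subtype_val.inner h1).smul continuous_subtype_val)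

theorem inner_gen {n : ℕ} (e : OrthonormalBasis (Fin n) ℝ E) (a b : Fin n) (φ : VV E) (x : SS E) :
    ⟪(φ x).2, gen (e a) (e b) x⟫ = DD e a b (x : E) (tang φ x) := by
  unfold DD tang
  rw [gen_apply]
  simp only [inner_sub_right, real_inner_smul_right]
  rw [real_inner_comm (e a) (φ x).2, real_inner_comm (e b) (φ x).2]
  ring

/-- two points of the sphere lie on a great circle -/
theorem exists_circle {n : ℕ} (hn : Module.finrank ℝ E = n + 2) (x y : SS E) :
    ∃ (u : E) (θ : ℝ), ‖u‖ = 1 ∧ ⟪(x : E), u⟫ = 0 ∧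
      (y : E) = Real.cos θ • (x : E) + Real.sin θ • u := by
  have hx : ‖(x : E)‖ = 1 := norm_eq_of_mem_sphere x
  have hy : ‖(y : E)‖ = 1 := norm_eq_of_mem_sphere y
  set z : E := (y : E) - ⟪(x : E), y⟫ • (x : E) with hz
  have hxz : ⟪(x : E), z⟫ = 0 := by
    rw [hz, inner_sub_right, real_inner_smul_right, real_inner_self_eq_norm_sq, hx]; ring
  have hnz : ‖z‖ ^ 2 = 1 - ⟪(x : E), y⟫ ^ 2 := by
    rw [← real_inner_self_eq_norm_sq]
    nth_rewrite 1 [hz]
    rw [inner_sub_left, real_inner_smul_left, hxz, hz, inner_sub_right, real_inner_smul_right,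
      real_inner_self_eq_norm_sq, hy, real_inner_comm (x : E) (y : E)]
    ring
  have habs : |⟪(x : E), y⟫| ≤ 1 := by
    have := abs_real_inner_le_norm (x : E) (y : E)
    rwa [hx, hy, one_mul] at this
  have hcos : Real.cos (Real.arccos ⟪(x : E), y⟫) = ⟪(x : E), y⟫ :=
    Real.cos_arccos (abs_le.1 habs).1 (abs_le.1 habs).2
  have hsin : Real.sin (Real.arccos ⟪(x : E), y⟫) = ‖z‖ := by
    rw [Real.sin_arccos, ← hnz, Real.sqrt_sq (norm_nonneg _)]
  by_cases hz0 : z = 0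
  · obtain ⟨e, he⟩ := exists_onb1 (n := n + 1) (by omega) (x : E) hx
    refine ⟨e 1, Real.arccos ⟪(x : E), y⟫, e.orthonormal.1 1, ?_, ?_⟩
    · rw [← he]
      exact e.orthonormal.2 (by simp)
    · rw [hcos, hsin, hz0, norm_zero, zero_smul, add_zero]
      exact (sub_eq_zero.1 hz0)
  · have hzn : 0 < ‖z‖ := norm_pos_iff.2 hz0
    refine ⟨‖z‖⁻¹ • z, Real.arccos ⟪(x : E), y⟫, ?_, ?_, ?_⟩
    · rw [norm_smul, norm_inv, norm_norm, inv_mul_cancel₀ hzn.ne']
    · rw [real_inner_smul_right, hxz, mul_zero]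
    · rw [hcos, hsin, smul_smul, mul_inv_cancel₀ hzn.ne', one_smul, hz]
      abel

/-- vanishing tangential gradient forces the function to be constant -/
theorem const_of_tang {φ : VV E} (h : IsGrad φ) (h0 : ∀ x, tang φ x = 0)
    {n : ℕ} (hn : Module.finrank ℝ E = n + 2) (x y : SS E) : (φ y).1 = (φ x).1 := by
  -- along great circles
  have circ : ∀ (u : E) (hu : ‖u‖ = 1) (hxu : ⟪(x : E), u⟫ = 0) (θ : ℝ)
      (hm : Real.cos θ • (x : E) + Real.sin θ • u ∈ SS E),
      (φ ⟨Real.cos θ • (x : E) + Real.sin θ • u, hm⟩).1 = (φ x).1 := by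
    intro u hu hxu θ hm
    have hx : ‖(x : E)‖ = 1 := norm_eq_of_mem_sphere x
    have hs : ∀ θ : ℝ, Real.cos θ • (x : E) + Real.sin θ • u ∈ SS E := by
      intro θ
      rw [mem_sphere_zero_iff_norm]
      have : ‖Real.cos θ • (x : E) + Real.sin θ • u‖ ^ 2 = 1 := by
        rw [norm_add_sq_real, norm_smul, norm_smul, inner_smul_left, inner_smul_right, hxu, hx, hu]
        simp only [mul_zero, add_zero, mul_one, Real.norm_eq_abs, sq_abs]
        exact Real.cos_sq_add_sin_sq θ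
      nlinarith [norm_nonneg (Real.cos θ • (x : E) + Real.sin θ • u)]
    have hd : ∀ r : ℝ, HasDerivAt (fun θ => (φ ⟨Real.cos θ • (x : E) + Real.sin θ • u, hs θ⟩).1)
        0 r := by
      intro r
      have h1 : HasDerivAt (fun θ : ℝ => Real.cos θ • (x : E) + Real.sin θ • u)
          ((-Real.sin r) • (x : E) + Real.cos r • u) r :=
        ((Real.hasDerivAt_cos r).smul_const _).add ((Real.hasDerivAt_sin r).smul_const _)
      have h2 := hasDerivAt_curve h h1 hs
      have h3 : ⟪(φ ⟨Real.cos r • (x : E) + Real.sin r • u, hs r⟩).2,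
          (-Real.sin r) • (x : E) + Real.cos r • u⟫ = 0 := by
        have h4 := h0 ⟨Real.cos r • (x : E) + Real.sin r • u, hs r⟩
        unfold tang at h4
        rw [sub_eq_zero] at h4
        rw [h4, real_inner_smul_left]
        have hux : ⟪u, (x : E)⟫ = 0 := by rw [real_inner_comm, hxu]
        have h5 : ⟪Real.cos r • (x : E) + Real.sin r • u,
            (-Real.sin r) • (x : E) + Real.cos r • u⟫ = 0 := by
          simp only [inner_add_left, inner_add_right, real_inner_smul_left, real_inner_smul_right,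
            hxu, hux, real_inner_self_eq_norm_sq, hx, hu]
          ring
        simp only
        rw [h5, mul_zero]
      rw [h3] at h2
      exact h2
    have hc := is_const_of_deriv_eq_zero (fun r => (hd r).differentiableAt)
      (fun r => (hd r).deriv) θ 0
    rw [hc]
    congr 2
    apply Subtype.ext
    simp
  obtain ⟨u, θ, hu, hxu, hyu⟩ := exists_circle hn x y
  have hm : Real.cos θ • (x : E) + Real.sin θ • u ∈ SS E := by rw [← hyu]; exact y.2
  rw [← circ u hu hxu θ hm]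
  congr 2
  exact Subtype.ext hyu

end Pool.Agent.helper440_simplex
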