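import Pool.Agent.helper440_simplex.Gram

/-! # Deterministic estimates for inner products -/

set_option autoImplicit false
set_option linter.unusedSectionVars false

namespace Pool.Agent.helper440_simplex

open MeasureTheory Metric Set Filter Topology
open scoped RealInnerProductSpace

variable {E : Type*} [NormedAddCommGroup E] [InnerProductSpace ℝ E]

theorem half_sq {y u : E} (hy : ‖y‖ = 1) (hx : ‖y + u‖ = 1) : ⟪y, u⟫ = -(‖u‖ ^ 2 / 2) := by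
  have h := norm_add_sq_real y u
  rw [hx, hy] at h
  linarith

theorem det_step {t : ℕ} (ht : 2 ≤ t) {θ d R κ : ℝ} (hθ0 : 0 ≤ θ) (hθ1 : θ ≤ 1)
    (y w u D : Fin t → E) (hw : ∀ i, ‖w i‖ = 1)
    (hyw : ∀ i j, ⟪y i, w j⟫ = 0) (hw' : ∀ i, ‖w i + D i‖ = 1)
    (hxw : ∀ i, ⟪y i + u i, w i + D i⟫ = 0) (hu : ∀ i, ‖u i‖ ≤ d) (hD : ∀ i, ‖D i‖ ≤ R)
    (T1 : ∀ i j, |⟪u i, w j⟫| ≤ κ)
    (T2 : ∀ i j, i ≠ j → |⟪D j, y i + (1 / (t - 1 : ℝ)) • y j⟫| ≤ κ)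
    (T3 : ∀ i j, i ≠ j → |⟪D j, w i - ⟪w i, w j⟫ • w j⟫| ≤ κ) {i j : Fin t} (hij : i ≠ j) :
    ⟪Real.cos θ • (y i + u i) + Real.sin θ • (w i + D i),
        Real.cos θ • (y j + u j) + Real.sin θ • (w j + D j)⟫
      ≤ Real.cos θ ^ 2 * ⟪y i + u i, y j + u j⟫ + Real.sin θ ^ 2 * ⟪w i, w j⟫
        + θ * (2 * R ^ 2 + 2 * κ + 2 * (3 * κ + 2 * d * R)) := by
  have ht2 : (2 : ℝ) ≤ t := by exact_mod_cast ht
  have ht1 : (1 : ℝ) ≤ t - 1 := by linarith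
  have hκ : 0 ≤ κ := (abs_nonneg _).trans (T1 i j)
  have hR : 0 ≤ R := (norm_nonneg _).trans (hD i)
  have hd : 0 ≤ d := (norm_nonneg _).trans (hu i)
  have huD : ∀ i j, |⟪u i, D j⟫| ≤ d * R := fun i j =>
    (abs_real_inner_le_norm _ _).trans (mul_le_mul (hu i) (hD j) (norm_nonneg _) hd)
  have hDD : ∀ i j, |⟪D i, D j⟫| ≤ R ^ 2 := fun i j => by
    rw [sq]
    exact (abs_real_inner_le_norm _ _).trans (mul_le_mul (hD i) (hD j) (norm_nonneg _) hR)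
  -- own component of `D`
  have hyD : ∀ j, |⟪D j, y j⟫| ≤ κ + d * R := by
    intro j
    have h := hxw j
    rw [inner_add_left, inner_add_right, inner_add_right, hyw j j, zero_add,
      real_inner_comm (D j) (y j)] at h
    have e : ⟪D j, y j⟫ = -(⟪u j, w j⟫ + ⟪u j, D j⟫) := by linarith
    rw [e, abs_neg]
    exact (abs_add_le _ _).trans (add_le_add (T1 j j) (huD j j))
  have hP : ∀ i j, i ≠ j → |⟪y i + u i, w j + D j⟫| ≤ 3 * κ + 2 * d * R := by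
    intro i j hij
    have e1 : ⟪y i + u i, w j + D j⟫ = (⟪D j, y i + (1 / (t - 1 : ℝ)) • y j⟫
        - (1 / (t - 1 : ℝ)) * ⟪D j, y j⟫) + ⟪u i, w j⟫ + ⟪u i, D j⟫ := by
      rw [inner_add_left, inner_add_right, inner_add_right, hyw i j, zero_add,
        inner_add_right, real_inner_smul_right, real_inner_comm (D j) (y i)]
      ring
    rw [e1]
    have h1 : |(1 / (t - 1 : ℝ)) * ⟪D j, y j⟫| ≤ κ + d * R := by
      rw [abs_mul, abs_of_pos (by positivity)]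
      have h2 : 1 / (t - 1 : ℝ) ≤ 1 := by rw [div_le_one (by linarith)]; exact ht1
      calc 1 / (t - 1 : ℝ) * |⟪D j, y j⟫| ≤ 1 * |⟪D j, y j⟫| :=
            mul_le_mul_of_nonneg_right h2 (abs_nonneg _)
        _ ≤ _ := by rw [one_mul]; exact hyD j
    have h3 := T2 i j hij
    have h4 := T1 i j
    have h5 := huD i j
    rw [abs_le] at h1 h3 h4 h5 ⊢
    constructor <;> linarith [h1.1, h1.2, h3.1, h3.2, h4.1, h4.2, h5.1, h5.2]
  have hwD : ∀ i j, i ≠ j → |⟪D j, w i⟫| ≤ κ + R ^ 2 / 2 := by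
    intro i j hij
    have e1 : ⟪D j, w i⟫ = ⟪D j, w i - ⟪w i, w j⟫ • w j⟫ + ⟪w i, w j⟫ * ⟪w j, D j⟫ := by
      rw [inner_sub_right, real_inner_smul_right, real_inner_comm (D j) (w j)]
      ring
    rw [e1, half_sq (hw j) (hw' j)]
    refine (abs_add_le _ _).trans (add_le_add (T3 i j hij) ?_)
    rw [abs_mul, abs_neg, abs_of_nonneg (by positivity : 0 ≤ ‖D j‖ ^ 2 / 2)]
    have h1 : |⟪w i, w j⟫| ≤ 1 := by
      have := abs_real_inner_le_norm (w i) (w j)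
      rwa [hw, hw, one_mul] at this
    have h2 : ‖D j‖ ^ 2 ≤ R ^ 2 := pow_le_pow_left₀ (norm_nonneg _) (hD j) 2
    calc |⟪w i, w j⟫| * (‖D j‖ ^ 2 / 2) ≤ 1 * (‖D j‖ ^ 2 / 2) :=
          mul_le_mul_of_nonneg_right h1 (by positivity)
      _ ≤ _ := by linarith
  have hww : |⟪w i + D i, w j + D j⟫ - ⟪w i, w j⟫| ≤ 2 * R ^ 2 + 2 * κ := by
    have e1 : ⟪w i + D i, w j + D j⟫ - ⟪w i, w j⟫ = ⟪D j, w i⟫ + ⟪D i, w j⟫ + ⟪D i, D j⟫ := by
      rw [inner_add_left, inner_add_right, inner_add_right, real_inner_comm (D j) (w i)]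
      ring
    rw [e1]
    have h3 := hwD i j hij
    have h4 := hwD j i hij.symm
    have h5 := hDD i j
    rw [abs_le] at h3 h4 h5 ⊢
    constructor <;> linarith [h3.1, h3.2, h4.1, h4.2, h5.1, h5.2]
  have hs0 : 0 ≤ Real.sin θ := Real.sin_nonneg_of_nonneg_of_le_pi hθ0 (by
    have := Real.pi_gt_three; linarith)
  have hs1 : Real.sin θ ≤ θ := Real.sin_le hθ0
  have hc1 : |Real.cos θ| ≤ 1 := Real.abs_cos_le_one θ
  have hs2 : Real.sin θ ^ 2 ≤ θ := by nlinarith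
  have e2 : ⟪Real.cos θ • (y i + u i) + Real.sin θ • (w i + D i),
        Real.cos θ • (y j + u j) + Real.sin θ • (w j + D j)⟫
      = Real.cos θ ^ 2 * ⟪y i + u i, y j + u j⟫ + Real.sin θ ^ 2 * ⟪w i, w j⟫
        + (Real.sin θ ^ 2 * (⟪w i + D i, w j + D j⟫ - ⟪w i, w j⟫)
          + Real.cos θ * Real.sin θ * (⟪y i + u i, w j + D j⟫ + ⟪y j + u j, w i + D i⟫)) := by
    rw [inner_add_left (Real.cos θ • (y i + u i)), inner_add_right (Real.cos θ • (y i + u i)),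
      inner_add_right (Real.sin θ • (w i + D i))]
    simp only [real_inner_smul_left, real_inner_smul_right]
    rw [real_inner_comm (y j + u j) (w i + D i)]
    ring
  rw [e2]
  have h6 : Real.sin θ ^ 2 * (⟪w i + D i, w j + D j⟫ - ⟪w i, w j⟫)
      ≤ θ * (2 * R ^ 2 + 2 * κ) := by
    refine (le_abs_self _).trans ?_
    rw [abs_mul, abs_of_nonneg (sq_nonneg _)]
    exact mul_le_mul hs2 hww (abs_nonneg _) hθ0
  have h7 : Real.cos θ * Real.sin θ * (⟪y i + u i, w j + D j⟫ + ⟪y j + u j, w i + D i⟫)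
      ≤ θ * (2 * (3 * κ + 2 * d * R)) := by
    refine (le_abs_self _).trans ?_
    rw [abs_mul, abs_mul, abs_of_nonneg hs0]
    refine mul_le_mul ?_ ?_ (abs_nonneg _) hθ0
    · calc |Real.cos θ| * Real.sin θ ≤ 1 * θ := mul_le_mul hc1 hs1 hs0 zero_le_one
        _ = θ := one_mul _
    · refine (abs_add_le _ _).trans ?_
      have h8 := hP i j hij
      have h9 := hP j i hij.symm
      linarith
  linarith

theorem det_xi {t : ℕ} (ht : 2 ≤ t) {d κ : ℝ} (y u : Fin t → E) (hy : ∀ i, ‖y i‖ = 1)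
    (hyy : ∀ i j, i ≠ j → ⟪y i, y j⟫ = -1 / (t - 1 : ℝ)) (hx : ∀ i, ‖y i + u i‖ = 1)
    (hu : ∀ i, ‖u i‖ ≤ d)
    (T4 : ∀ i j, i ≠ j → |⟪u i, y j + (1 / (t - 1 : ℝ)) • y i⟫| ≤ κ) {i j : Fin t}
    (hij : i ≠ j) :
    |⟪y i + u i, y j + u j⟫ + 1 / (t - 1 : ℝ)| ≤ 2 * κ + 2 * d ^ 2 := by
  have ht2 : (2 : ℝ) ≤ t := by exact_mod_cast ht
  have ht1 : (1 : ℝ) ≤ t - 1 := by linarith
  have hd : 0 ≤ d := (norm_nonneg _).trans (hu i)
  have h1 : ∀ i j, i ≠ j → |⟪u i, y j⟫| ≤ κ + d ^ 2 / 2 := by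
    intro i j hij
    have e1 : ⟪u i, y j⟫ = ⟪u i, y j + (1 / (t - 1 : ℝ)) • y i⟫
        - (1 / (t - 1 : ℝ)) * ⟪y i, u i⟫ := by
      rw [inner_add_right, real_inner_smul_right, real_inner_comm (u i) (y i)]
      ring
    rw [e1, half_sq (hy i) (hx i)]
    refine (abs_sub _ _).trans (add_le_add (T4 i j hij) ?_)
    rw [abs_mul, abs_neg, abs_of_pos (by positivity),
      abs_of_nonneg (by positivity : 0 ≤ ‖u i‖ ^ 2 / 2)]
    have h2 : 1 / (t - 1 : ℝ) ≤ 1 := by rw [div_le_one (by linarith)]; exact ht1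
    have h3 : ‖u i‖ ^ 2 ≤ d ^ 2 := pow_le_pow_left₀ (norm_nonneg _) (hu i) 2
    calc 1 / (t - 1 : ℝ) * (‖u i‖ ^ 2 / 2) ≤ 1 * (‖u i‖ ^ 2 / 2) :=
          mul_le_mul_of_nonneg_right h2 (by positivity)
      _ ≤ _ := by linarith
  have h4 : |⟪u i, u j⟫| ≤ d ^ 2 := by
    rw [sq]
    exact (abs_real_inner_le_norm _ _).trans (mul_le_mul (hu i) (hu j) (norm_nonneg _) hd)
  have h5 := h1 i j hij
  have h6 := h1 j i hij.symm
  have e : ⟪y i + u i, y j + u j⟫ + 1 / (t - 1 : ℝ) = ⟪u i, y j⟫ + ⟪u j, y i⟫ + ⟪u i, u j⟫ := by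
    rw [inner_add_left, inner_add_right, inner_add_right, hyy i j hij,
      real_inner_comm (u j) (y i)]
    ring
  rw [e]
  rw [abs_le] at h4 h5 h6 ⊢
  constructor <;> linarith [h4.1, h4.2, h5.1, h5.2, h6.1, h6.2]

theorem sum_simplex_zero {t : ℕ} (ht : 2 ≤ t) (y : Fin t → E) (hy : ∀ i, ‖y i‖ = 1)
    (hyy : ∀ i j, i ≠ j → ⟪y i, y j⟫ = -1 / (t - 1 : ℝ)) : ∑ i, y i = 0 := by
  have ht2 : (2 : ℝ) ≤ t := by exact_mod_cast ht
  have ht1 : (0 : ℝ) < t - 1 := by linarith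
  have h : ‖∑ i, y i‖ ^ 2 = 0 := by
    rw [← real_inner_self_eq_norm_sq, sum_inner]
    simp only [inner_sum]
    have h1 : ∀ i, ∑ j, ⟪y i, y j⟫ = 0 := by
      intro i
      rw [← Finset.add_sum_erase _ _ (Finset.mem_univ i), real_inner_self_eq_norm_sq, hy i]
      have h2 : ∑ j ∈ Finset.univ.erase i, ⟪y i, y j⟫
          = ∑ _j ∈ Finset.univ.erase i, (-1 / (t - 1 : ℝ)) :=
        Finset.sum_congr rfl fun j hj => hyy i j (Finset.ne_of_mem_erase hj).symm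
      rw [h2, Finset.sum_const, Finset.card_erase_of_mem (Finset.mem_univ i), Finset.card_univ,
        Fintype.card_fin, nsmul_eq_mul, Nat.cast_sub (by omega : 1 ≤ t)]
      push_cast
      field_simp
      ring
    simp [h1]
  have h2 : ‖∑ i, y i‖ = 0 := by
    rwa [sq_eq_zero_iff] at h
  exact norm_eq_zero.1 h2

theorem det_sum {t : ℕ} (ht : 2 ≤ t) {d : ℝ} (y u : Fin t → E) (hy : ∀ i, ‖y i‖ = 1)
    (hyy : ∀ i j, i ≠ j → ⟪y i, y j⟫ = -1 / (t - 1 : ℝ)) (hx : ∀ i, ‖y i + u i‖ = 1)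
    (hu : ∀ i, ‖u i‖ ≤ d) :
    ∑ i, ∑ j ∈ Finset.univ.erase i, (⟪y i + u i, y j + u j⟫ + 1 / (t - 1 : ℝ)) ≤ t ^ 2 * d ^ 2 := by
  have ht2 : (2 : ℝ) ≤ t := by exact_mod_cast ht
  have ht1 : (0 : ℝ) < t - 1 := by linarith
  have hd : 0 ≤ d := (norm_nonneg _).trans (hu ⟨0, by omega⟩)
  have h0 := sum_simplex_zero ht y hy hyy
  have h1 : ∀ i, ∑ j ∈ Finset.univ.erase i, (⟪y i + u i, y j + u j⟫ + 1 / (t - 1 : ℝ))
      = ∑ j, ⟪y i + u i, y j + u j⟫ := by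
    intro i
    rw [Finset.sum_add_distrib, Finset.sum_const, Finset.card_erase_of_mem (Finset.mem_univ i),
      Finset.card_univ, Fintype.card_fin, nsmul_eq_mul, Nat.cast_sub (by omega : 1 ≤ t),
      ← Finset.add_sum_erase _ (fun j => ⟪y i + u i, y j + u j⟫) (Finset.mem_univ i),
      real_inner_self_eq_norm_sq, hx i]
    push_cast
    field_simp
    ring
  simp only [h1]
  have h2 : ∑ i, ∑ j, ⟪y i + u i, y j + u j⟫ = ‖∑ i, u i‖ ^ 2 := by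
    have h3 : ∑ i, u i = ∑ i, (y i + u i) := by
      rw [Finset.sum_add_distrib, h0, zero_add]
    rw [h3, ← real_inner_self_eq_norm_sq, sum_inner]
    simp only [inner_sum]
  rw [h2]
  have h4 : ‖∑ i, u i‖ ≤ t * d := by
    refine (norm_sum_le _ _).trans ?_
    calc ∑ i, ‖u i‖ ≤ ∑ _i : Fin t, d := Finset.sum_le_sum fun i _ => hu i
      _ = t * d := by simp
  calc ‖∑ i, u i‖ ^ 2 ≤ (t * d) ^ 2 := pow_le_pow_left₀ (norm_nonneg _) h4 2
    _ = _ := by ring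

end Pool.Agent.helper440_simplex
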