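import Pool.Agent.helper440_simplex.Moments

/-! # Conditioning on one vector of a frame -/

set_option autoImplicit false
set_option linter.unusedSectionVars false

namespace Pool.Agent.helper440_simplex

open MeasureTheory Metric Set Filter Topology
open scoped RealInnerProductSpace ENNReal

variable {E : Type*} [NormedAddCommGroup E] [InnerProductSpace ℝ E] [CompleteSpace E]
  [FiniteDimensional ℝ E] [MeasurableSpace E] [BorelSpace E]

/-- normalised projection of `z` to the orthogonal complement of `x` -/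
noncomputable def pj (x z : E) : E := ‖z - ⟪x, z⟫ • x‖⁻¹ • (z - ⟪x, z⟫ • x)

theorem pj_perp {x : E} (hx : ‖x‖ = 1) (z : E) : ⟪x, pj x z⟫ = 0 := by
  unfold pj
  rw [real_inner_smul_right, inner_sub_right, real_inner_smul_right, real_inner_self_eq_norm_sq,
    hx]
  ring

theorem pj_sq {x z : E} (hx : ‖x‖ = 1) (hz : ‖z‖ = 1) :
    ‖z - ⟪x, z⟫ • x‖ ^ 2 = 1 - ⟪x, z⟫ ^ 2 := by
  rw [norm_sub_sq_real, norm_smul, hx, hz, real_inner_smul_right, real_inner_comm x z,
    Real.norm_eq_abs, mul_one, sq_abs]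
  ring

theorem pj_pos {x z : E} (hx : ‖x‖ = 1) (hz : ‖z‖ = 1) (h : |⟪x, z⟫| ≤ 1 / 2) :
    0 < ‖z - ⟪x, z⟫ • x‖ := by
  have h1 := pj_sq hx hz
  have h2 : ⟪x, z⟫ ^ 2 ≤ 1 / 4 := by
    have := abs_le.1 h
    nlinarith
  have h3 : 0 < ‖z - ⟪x, z⟫ • x‖ ^ 2 := by rw [h1]; linarith
  refine lt_of_le_of_ne (norm_nonneg _) fun h => ?_
  rw [← h] at h3
  norm_num at h3

theorem pj_norm {x z : E} (hx : ‖x‖ = 1) (hz : ‖z‖ = 1) (h : |⟪x, z⟫| ≤ 1 / 2) :
    ‖pj x z‖ = 1 := by
  have h1 := pj_pos hx hz h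
  unfold pj
  rw [norm_smul, norm_inv, norm_norm, inv_mul_cancel₀ h1.ne']

theorem pj_near {x z : E} (hx : ‖x‖ = 1) (hz : ‖z‖ = 1) (h : |⟪x, z⟫| ≤ 1 / 2) :
    ‖pj x z - z‖ ≤ 3 / 2 * |⟪x, z⟫| := by
  have h1 := pj_pos hx hz h
  have h2 := pj_sq hx hz
  have h3 := pj_norm hx hz h
  set r := ‖z - ⟪x, z⟫ • x‖ with hr
  have h4 : ⟪pj x z, z⟫ = r := by
    unfold pj
    rw [← hr, real_inner_smul_left, inner_sub_left, real_inner_smul_left,
      real_inner_self_eq_norm_sq, hz]
    have : (1 : ℝ) ^ 2 - ⟪x, z⟫ * ⟪x, z⟫ = r ^ 2 := by rw [h2]; ring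
    rw [this]
    field_simp
  have hr1 : r ≤ 1 := by nlinarith [sq_nonneg ⟪x, z⟫]
  have hr2 : 1 - ⟪x, z⟫ ^ 2 ≤ r := by nlinarith
  have h5 : ‖pj x z - z‖ ^ 2 ≤ (3 / 2 * |⟪x, z⟫|) ^ 2 := by
    rw [norm_sub_sq_real, h3, hz, h4, mul_pow, sq_abs]
    nlinarith [sq_nonneg ⟪x, z⟫]
  exact (pow_le_pow_iff_left₀ (norm_nonneg _) (by positivity) two_ne_zero).1 h5

theorem pj_equiv (g : UG E) (x z : E) : pj (av g x) (av g z) = av g (pj x z) := by
  unfold pj
  rw [av_inner, ← av_smul, ← av_sub, av_norm, ← av_smul]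

theorem pj_meas : Measurable (Function.uncurry (pj : E → E → E)) := by
  have h1 : Measurable (fun p : E × E => p.2 - ⟪p.1, p.2⟫ • p.1) :=
    measurable_snd.sub ((measurable_fst.inner measurable_snd).smul measurable_fst)
  exact (h1.norm.inv).smul h1

/-- the measure of the first vector of a frame -/
theorem meas_point {x y : E} (h : ‖x‖ = ‖y‖) (A : Set E) :
    (hm E) {g | av g x ∈ A} = (hm E) {g | av g y ∈ A} := by
  rw [← measure_preimage_mul_right (hm E) (hh (x - y)) {g | av g x ∈ A}]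
  congr 1
  ext g
  simp only [mem_preimage, mem_ofPred_eq, av_mul, hh_sub h]

theorem meas_frame {e f f' : E} (h : ‖f‖ = ‖f'‖) (hf : ⟪e, f⟫ = 0) (hf' : ⟪e, f'⟫ = 0)
    (B : Set (E × E)) :
    (hm E) {g | (av g e, av g f') ∈ B} = (hm E) {g | (av g e, av g f) ∈ B} := by
  rw [← measure_preimage_mul_right (hm E) (hh (f - f')) {g | (av g e, av g f) ∈ B}]
  congr 1
  ext g
  have e1 : av (hh (f - f')) e = e := hh_fix (by
    rw [inner_sub_left, real_inner_comm e f, hf, real_inner_comm e f', hf', sub_zero])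
  simp only [mem_preimage, mem_ofPred_eq, av_mul, hh_sub h, e1]

theorem disint {e f : E} (he : ‖e‖ = 1) (hf : ‖f‖ = 1) (hef : ⟪e, f⟫ = 0) {B : Set (E × E)}
    (hB : MeasurableSet B) :
    ∫⁻ g, (hm E) {g' | |⟪av g e, av g' f⟫| ≤ 1 / 2 ∧ (av g e, pj (av g e) (av g' f)) ∈ B}
        ∂(hm E)
      = (hm E) {g | (av g e, av g f) ∈ B} * (hm E) {g | |⟪e, av g f⟫| ≤ 1 / 2} := by
  set W : Set (UG E × UG E) := {p | |⟪e, av p.2 f⟫| ≤ 1 / 2 ∧
    (av p.1 e, av p.1 (pj e (av p.2 f))) ∈ B} with hW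
  have m1 : Measurable (fun p : UG E × UG E => av p.2 f) := (av_meas f).comp measurable_snd
  have m2 : Measurable (fun p : UG E × UG E => av p.1 e) := (av_meas e).comp measurable_fst
  have m3 : Measurable (fun p : UG E × UG E => pj e (av p.2 f)) :=
    pj_meas.comp (measurable_const.prodMk m1)
  have m4 : Measurable (fun p : UG E × UG E => av p.1 (pj e (av p.2 f))) :=
    av_continuous.measurable.comp (measurable_fst.prodMk m3)
  have hW1 : MeasurableSet {p : UG E × UG E | |⟪e, av p.2 f⟫| ≤ 1 / 2} :=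
    measurableSet_le (measurable_const.inner m1).abs measurable_const
  have hW2 : MeasurableSet {p : UG E × UG E | (av p.1 e, av p.1 (pj e (av p.2 f))) ∈ B} :=
    (m2.prodMk m4) hB
  have hWm : MeasurableSet W := hW1.inter hW2
  have e1 : ∀ g : UG E, (hm E) {g' | |⟪av g e, av g' f⟫| ≤ 1 / 2 ∧
      (av g e, pj (av g e) (av g' f)) ∈ B} = (hm E) (Prod.mk g ⁻¹' W) := by
    intro g
    rw [← measure_preimage_mul (hm E) g {g' | |⟪av g e, av g' f⟫| ≤ 1 / 2 ∧
      (av g e, pj (av g e) (av g' f)) ∈ B}]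
    congr 1
    ext g'
    simp only [mem_preimage, mem_ofPred_eq, hW, av_mul, av_inner, pj_equiv]
  simp only [e1]
  rw [← Measure.prod_apply hWm, Measure.prod_apply_symm hWm]
  have e2 : ∀ g' : UG E, (hm E) ((fun x => (x, g')) ⁻¹' W)
      = {g' : UG E | |⟪e, av g' f⟫| ≤ 1 / 2}.indicator
        (fun _ => (hm E) {g | (av g e, av g f) ∈ B}) g' := by
    intro g'
    by_cases h : |⟪e, av g' f⟫| ≤ 1 / 2
    · rw [Set.indicator_of_mem (by exact h)]
      rw [← meas_frame (e := e) (f := f) (f' := pj e (av g' f)) _ hef (pj_perp he _) B]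
      · congr 1
        ext g
        simp only [mem_preimage, mem_ofPred_eq, hW, h, true_and]
      · rw [pj_norm he (by rw [av_norm, hf]) h, hf]
    · rw [Set.indicator_of_notMem (by exact h)]
      have : (fun x => (x, g')) ⁻¹' W = (∅ : Set (UG E)) := by
        ext g
        simp only [mem_preimage, mem_ofPred_eq, hW, h, false_and, mem_empty_iff_false]
      rw [this, measure_empty]
  simp only [e2]
  rw [lintegral_indicator_const]
  exact measurableSet_le (measurable_const.inner (av_meas f)).abs measurable_const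

/-- directions at `x` which lead to `A` -/
def Om (θ : ℝ) (A : Set E) (x : E) : Set E :=
  {ω | ‖ω‖ = 1 ∧ ⟪x, ω⟫ = 0 ∧ Real.cos θ • x + Real.sin θ • ω ∈ A}

/-- the proportion of directions at `x` which lead to `A` -/
noncomputable def mA (θ : ℝ) (A : Set E) (f x : E) : ℝ :=
  (hm E).real {g' | |⟪x, av g' f⟫| ≤ 1 / 2 ∧ pj x (av g' f) ∈ Om θ A x}

theorem Om_meas (θ : ℝ) {A : Set E} (hA : MeasurableSet A) :
    MeasurableSet {p : E × E | p.2 ∈ Om θ A p.1} := by
  have h1 : MeasurableSet {p : E × E | ‖p.2‖ = 1} :=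
    measurableSet_eq_fun measurable_snd.norm measurable_const
  have h2 : MeasurableSet {p : E × E | ⟪p.1, p.2⟫ = 0} :=
    measurableSet_eq_fun (measurable_fst.inner measurable_snd) measurable_const
  have h3 : MeasurableSet {p : E × E | Real.cos θ • p.1 + Real.sin θ • p.2 ∈ A} :=
    ((measurable_fst.const_smul (Real.cos θ)).add (measurable_snd.const_smul (Real.sin θ))) hA
  exact h1.inter (h2.inter h3)

theorem mA_meas_set (θ : ℝ) {A : Set E} (hA : MeasurableSet A) (f : E) :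
    MeasurableSet {p : E × UG E | |⟪p.1, av p.2 f⟫| ≤ 1 / 2 ∧ pj p.1 (av p.2 f) ∈ Om θ A p.1} := by
  have m1 : Measurable (fun p : E × UG E => av p.2 f) := (av_meas f).comp measurable_snd
  have h1 : MeasurableSet {p : E × UG E | |⟪p.1, av p.2 f⟫| ≤ 1 / 2} :=
    measurableSet_le (measurable_fst.inner m1).abs measurable_const
  have m2 : Measurable (fun p : E × UG E => (p.1, pj p.1 (av p.2 f))) :=
    measurable_fst.prodMk (pj_meas.comp (measurable_fst.prodMk m1))
  exact h1.inter (m2 (Om_meas θ hA))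

theorem mA_meas (θ : ℝ) {A : Set E} (hA : MeasurableSet A) (f : E) : Measurable (mA θ A f) :=
  (measurable_measure_prodMk_left (mA_meas_set θ hA f)).ennreal_toReal

theorem mA_le_one (θ : ℝ) (A : Set E) (f x : E) : mA θ A f x ≤ 1 := measureReal_le_one

theorem mA_nonneg (θ : ℝ) (A : Set E) (f x : E) : 0 ≤ mA θ A f x := measureReal_nonneg

/-- most points have many directions leading to `A` -/
theorem Astar_meas {e f v0 : E} (he : ‖e‖ = 1) (hf : ‖f‖ = 1) (hv0 : ‖v0‖ = 1) (hef : ⟪e, f⟫ = 0)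
    (θ : ℝ) {A : Set E} (hA : MeasurableSet A) {ζ : ℝ} (hζ : 0 ≤ ζ) :
    (hm E).real {g | av g v0 ∈ A}
      ≤ (hm E).real {g | ζ ≤ mA θ A f (av g e)} + ζ
        + (hm E).real {g | 1 / 2 < |⟪e, av g f⟫|} := by
  set B : Set (E × E) := {p : E × E | p.2 ∈ Om θ A p.1} with hB
  have hBm : MeasurableSet B := Om_meas θ hA
  have h1 := disint he hf hef hBm
  -- left side
  have hmeas : Measurable (fun g : UG E => mA θ A f (av g e)) := (mA_meas θ hA f).comp (av_meas e)
  have e1 : ∀ g : UG E, (hm E) {g' | |⟪av g e, av g' f⟫| ≤ 1 / 2 ∧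
      (av g e, pj (av g e) (av g' f)) ∈ B} = ENNReal.ofReal (mA θ A f (av g e)) := by
    intro g
    unfold mA
    rw [ofReal_measureReal]
    rfl
  simp only [e1] at h1
  have hint : Integrable (fun g : UG E => mA θ A f (av g e)) (hm E) :=
    Integrable.of_bound hmeas.aestronglyMeasurable 1 (Eventually.of_forall fun g => by
      rw [Real.norm_eq_abs, abs_of_nonneg (mA_nonneg _ _ _ _)]
      exact mA_le_one _ _ _ _)
  rw [← ofReal_integral_eq_lintegral_ofReal hint
    (Eventually.of_forall fun g => mA_nonneg _ _ _ _)] at h1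
  have h2 := congrArg ENNReal.toReal h1
  rw [ENNReal.toReal_ofReal (integral_nonneg fun g => mA_nonneg _ _ _ _),
    ENNReal.toReal_mul] at h2
  -- first factor
  have hcs : ‖Real.cos θ • e + Real.sin θ • f‖ = 1 := by
    have : ‖Real.cos θ • e + Real.sin θ • f‖ ^ 2 = 1 := by
      rw [norm_add_sq_real, norm_smul, norm_smul, inner_smul_left, inner_smul_right, hef, he, hf]
      simp only [mul_zero, add_zero, mul_one, Real.norm_eq_abs, sq_abs]
      exact Real.cos_sq_add_sin_sq θ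
    nlinarith [norm_nonneg (Real.cos θ • e + Real.sin θ • f)]
  have e2 : (hm E) {g | (av g e, av g f) ∈ B} = (hm E) {g | av g v0 ∈ A} := by
    rw [meas_point (hv0.trans hcs.symm) A]
    congr 1
    ext g
    simp only [hB, Om, mem_ofPred_eq, av_norm, av_inner, hf, hef, av_add, av_smul, true_and]
  rw [e2] at h2
  -- integral bound
  set S : Set (UG E) := {g | ζ ≤ mA θ A f (av g e)} with hS
  have hSm : MeasurableSet S := measurableSet_le measurable_const hmeas
  have h3 : ∫ g, (mA θ A f (av g e) - ζ) ∂(hm E) ≤ (hm E).real S * 1 := by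
    refine int_le_ind hSm (f := fun g => mA θ A f (av g e) - ζ)
      (hint.sub (integrable_const _)) fun g => ?_
    by_cases hg : g ∈ S
    · rw [Set.indicator_of_mem hg]
      have := mA_le_one θ A f (av g e)
      linarith
    · rw [Set.indicator_of_notMem hg]
      have : mA θ A f (av g e) < ζ := not_le.1 hg
      linarith
  rw [integral_sub hint (integrable_const _), integral_const, probReal_univ, one_smul,
    mul_one] at h3
  have h4 : (hm E).real {g : UG E | 1 / 2 < |⟪e, av g f⟫|}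
      = 1 - (hm E).real {g : UG E | |⟪e, av g f⟫| ≤ 1 / 2} := by
    rw [← probReal_compl_eq_one_sub]
    · congr 1
      ext g
      simp
    · exact measurableSet_le (measurable_const.inner (av_meas f)).abs measurable_const
  have h5 : (hm E).real {g | av g v0 ∈ A} ≤ 1 := measureReal_le_one
  have h6 : 0 ≤ (hm E).real {g | av g v0 ∈ A} := measureReal_nonneg
  have h7 : (hm E).real {g : UG E | |⟪e, av g f⟫| ≤ 1 / 2} ≤ 1 := measureReal_le_one
  change _ = (hm E).real _ * (hm E).real _ at h2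
  rw [h4]
  nlinarith

/-- transferring a conditional estimate to frames -/
theorem frame_le {e f : E} (he : ‖e‖ = 1) (hf : ‖f‖ = 1) (hef : ⟪e, f⟫ = 0)
    {B : Set (E × E)} (hB : MeasurableSet B) {p1 : ℝ}
    (h : ∀ y : E, ‖y‖ = 1 → (hm E).real {g' | |⟪y, av g' f⟫| ≤ 1 / 2 ∧ (y, pj y (av g' f)) ∈ B} ≤ p1)
    (hhalf : 1 / 2 ≤ (hm E).real {g | |⟪e, av g f⟫| ≤ 1 / 2}) :
    (hm E).real {g | (av g e, av g f) ∈ B} ≤ 2 * p1 := by
  have h1 := disint he hf hef hB
  have hp1 : 0 ≤ p1 := measureReal_nonneg.trans (h e he)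
  have h2 : ∫⁻ g, (hm E) {g' | |⟪av g e, av g' f⟫| ≤ 1 / 2 ∧
      (av g e, pj (av g e) (av g' f)) ∈ B} ∂(hm E) ≤ ENNReal.ofReal p1 := by
    calc _ ≤ ∫⁻ _g : UG E, ENNReal.ofReal p1 ∂(hm E) := by
          refine lintegral_mono fun g => ?_
          have h3 := h (av g e) (by rw [av_norm, he])
          rw [← ofReal_measureReal]
          exact ENNReal.ofReal_le_ofReal h3
      _ = _ := by simp
  rw [h1] at h2
  have h3 := ENNReal.toReal_mono ENNReal.ofReal_ne_top h2
  rw [ENNReal.toReal_mul, ENNReal.toReal_ofReal hp1] at h3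
  change (hm E).real _ * (hm E).real _ ≤ _ at h3
  have h4 : 0 ≤ (hm E).real {g | (av g e, av g f) ∈ B} := measureReal_nonneg
  nlinarith

end Pool.Agent.helper440_simplex
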