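import Pool.Agent.helper440_simplex.Law

/-! # Sets of measure above one half contain regular simplices -/

set_option autoImplicit false
set_option linter.unusedSectionVars false

namespace Pool.Agent.helper440_simplex

open MeasureTheory Metric Set Filter Topology
open scoped RealInnerProductSpace Pointwise ENNReal

section Core
variable {t : ℕ} {E : Type*} [NormedAddCommGroup E] [InnerProductSpace ℝ E] [CompleteSpace E]
  [FiniteDimensional ℝ E]

/-- core statement for a compact set and a given set of parameters -/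
theorem core {m : ℕ} (hn : Module.finrank ℝ E = m + 2) (ht : 2 ≤ t) (s : Fin t → SS E)
    (hs : ∀ i l, i ≠ l → ⟪(s i : E), s l⟫ = -1 / (t - 1 : ℝ)) {ε M y0 c : ℝ} {N : ℕ}
    (hM : 0 < M) (hε0 : 0 ≤ ε) (hε1 : ε ≤ 1) (hy0 : 0 < y0)
    (hy : Psi y0 ≤ ε * Psi M - (1 - ε) * Psi ((t - 1) * M))
    (hc0 : 0 ≤ c)
    (hN : t * ((t - 1) * M) * ((t - 1) * M + ((t - 1) * M) ^ 2 * t / (t * y0 / 2)) ≤ N)
    (hc : 2 * KK t (t * y0 / 2) N ((t - 1) * M) * (t - 1) < 4 * c * (m + 1))
    (hc2 : c * (t * Psi ((t - 1) * M) ^ 2) < (t * y0 / 2) ^ (N + 3))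
    (K : Set (SS E)) (hK : IsCompact K) (x0 : SS E)
    (hKε : ε ≤ (hm E).real {g | sa g x0 ∈ K}) (hKne : K.Nonempty) :
    ∃ g : UG E, ∀ i, sa g (s i) ∈ K := by
  by_contra hcon
  push Not at hcon
  have ht2 : (2 : ℝ) ≤ t := by exact_mod_cast ht
  have ht0 : (0 : ℝ) < t := by linarith
  have ht1 : (1 : ℝ) ≤ t - 1 := by linarith
  set B := (t - 1 : ℝ) * M with hB
  have hMB : M ≤ B := by rw [hB]; nlinarith
  have hB0 : 0 < B := lt_of_lt_of_le hM hMB
  set S0 := t * y0 / 2 with hS0
  have hS0p : 0 < S0 := by positivity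
  have hPM : 0 < Psi M := by rw [← Psi_zero]; exact Psi_strictMono hM
  have hPB : 0 < Psi B := by rw [← Psi_zero]; exact Psi_strictMono hB0
  have hPMB : Psi M ≤ Psi B := Psi_strictMono.monotone hMB
  -- a uniform distance
  set Dg : UG E → ℝ := fun g => ∑ i, infDist (sa g (s i)) K with hDg
  have hDc : Continuous Dg := continuous_finsetSum _ fun i _ =>
    (continuous_infDist_pt K).comp (sa_continuous_left (s i))
  obtain ⟨g0, -, hg0⟩ := isCompact_univ.exists_isMinOn (univ_nonempty (α := UG E))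
    hDc.continuousOn
  have hDpos : 0 < Dg g0 := by
    obtain ⟨i, hi⟩ := hcon g0
    have h1 : 0 < infDist (sa g0 (s i)) K :=
      (hK.isClosed.notMem_iff_infDist_pos hKne).1 hi
    have h2 : infDist (sa g0 (s i)) K ≤ Dg g0 :=
      Finset.single_le_sum (f := fun i => infDist (sa g0 (s i)) K)
        (fun i _ => infDist_nonneg) (Finset.mem_univ i)
    linarith
  set δ := Dg g0 / t with hδ
  have hδ0 : 0 < δ := by positivity
  have hfar : ∀ g, ∃ i, δ ≤ infDist (sa g (s i)) K := by
    intro g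
    by_contra hc
    push Not at hc
    have h1 : Dg g < ∑ _i : Fin t, δ := by
      refine Finset.sum_lt_sum_of_nonempty ?_ fun i _ => hc i
      exact ⟨⟨0, by omega⟩, Finset.mem_univ _⟩
    have h2 : ∑ _i : Fin t, δ = Dg g0 := by
      rw [Finset.sum_const, Finset.card_univ, Fintype.card_fin, nsmul_eq_mul, hδ]
      field_simp
    have h3 : Dg g0 ≤ Dg g := hg0 (mem_univ g)
    linarith
  -- the function
  set Cc := (Psi M + Psi B) / δ with hCc
  have hCc0 : 0 < Cc := by positivity
  set f : C(SS E, ℝ) := ⟨fun x => max (-Psi B) (Psi M - Cc * infDist x K), by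
    exact continuous_const.max (continuous_const.sub
      (continuous_const.mul (continuous_infDist_pt K)))⟩ with hf
  have hfdef : ∀ x, f x = max (-Psi B) (Psi M - Cc * infDist x K) := fun x => rfl
  have hfM : ∀ x, f x ≤ Psi M := by
    intro x
    rw [hfdef]
    refine max_le (by linarith) ?_
    have : 0 ≤ Cc * infDist x K := mul_nonneg hCc0.le infDist_nonneg
    linarith
  have hr : ∀ x, f x ∈ Icc (-Psi B) (Psi B) := fun x =>
    ⟨le_max_left _ _, (hfM x).trans hPMB⟩
  have hfK : ∀ x ∈ K, f x = Psi M := by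
    intro x hx
    rw [hfdef, infDist_zero_of_mem hx, mul_zero, sub_zero, max_eq_right (by linarith)]
  have hffar : ∀ x, δ ≤ infDist x K → f x = -Psi B := by
    intro x hx
    rw [hfdef, max_eq_left]
    have : Psi M + Psi B ≤ Cc * infDist x K := by
      calc Psi M + Psi B = Cc * δ := by rw [hCc]; field_simp
        _ ≤ _ := mul_le_mul_of_nonneg_left hx hCc0.le
    linarith
  have hmain := main_cont hn ht s hs hB0 hS0p hN hc f hr x0
  -- the right side is small
  have hfc : ∀ x : SS E, Continuous (fun g : UG E => f (sa g x)) := fun x =>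
    f.continuous.comp (sa_continuous_left x)
  have hPc : Continuous (fun g : UG E => (fun i => f (sa g (s i)) : Fin t → ℝ)) :=
    continuous_pi fun i => hfc (s i)
  have hGB : Gam (-Psi B) = -B := by rw [← Psi_neg, Gam_Psi]
  have hGM : ∀ x, Gam (f x) ≤ M := by
    intro x
    obtain ⟨y, hy1, hy2⟩ := exists_Psi hB0.le (hr x)
    rw [← hy2, Gam_Psi]
    have h1 := hfM x
    rw [← hy2] at h1
    exact Psi_strictMono.le_iff_le.1 h1
  have hrhs : ∀ g, FF S0 N c (fun i => f (sa g (s i))) ≤ c * (t * Psi B ^ 2) := by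
    intro g
    obtain ⟨i0, hi0⟩ := hfar g
    have hW : WW (fun i => f (sa g (s i))) ≤ 0 := by
      unfold WW
      rw [← Finset.add_sum_erase _ _ (Finset.mem_univ i0)]
      have h1 : Gam (f (sa g (s i0))) = -B := by rw [hffar _ hi0, hGB]
      have h2 : ∑ i ∈ Finset.univ.erase i0, Gam (f (sa g (s i)))
          ≤ ∑ _i ∈ Finset.univ.erase i0, M := Finset.sum_le_sum fun i _ => hGM _
      have h3 : ∑ _i ∈ (Finset.univ : Finset (Fin t)).erase i0, M = B := by
        rw [Finset.sum_const, Finset.card_erase_of_mem (Finset.mem_univ i0), Finset.card_univ,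
          Fintype.card_fin, nsmul_eq_mul, Nat.cast_sub (by omega : 1 ≤ t), hB]
        simp
      linarith
    unfold FF
    rw [tp_of_nonpos (by omega) (by linarith), zero_add]
    refine mul_le_mul_of_nonneg_left ?_ hc0
    calc ∑ i, f (sa g (s i)) ^ 2 ≤ ∑ _i : Fin t, Psi B ^ 2 := by
          refine Finset.sum_le_sum fun i _ => ?_
          exact sq_le_sq' (hr _).1 (hr _).2
      _ = t * Psi B ^ 2 := by simp
  have hub : ∫ g, FF S0 N c (fun i => f (sa g (s i))) ∂(hm E) ≤ c * (t * Psi B ^ 2) := by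
    have h1 : ∫ g, FF S0 N c (fun i => f (sa g (s i))) ∂(hm E)
        ≤ ∫ _g : UG E, c * (t * Psi B ^ 2) ∂(hm E) :=
      integral_mono (hm_integrable (FF_comp_cont hB0.le S0 N c hPc (fun g i => hr _)))
        (integrable_const _) hrhs
    rwa [integral_const, probReal_univ, one_smul] at h1
  -- the mean
  set p := ∫ g, f (sa g x0) ∂(hm E) with hp
  have hKm : MeasurableSet {g : UG E | sa g x0 ∈ K} :=
    (hK.isClosed.preimage (sa_continuous_left x0)).measurableSet
  have hplow : Psi y0 ≤ p := by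
    have h1 : ∫ g, ({g : UG E | sa g x0 ∈ K}.indicator (fun _ => Psi M + Psi B) g - Psi B)
        ∂(hm E) ≤ p := by
      refine integral_mono (((integrable_const _).indicator hKm).sub (integrable_const _))
        (hm_integrable (hfc x0)) fun g => ?_
      by_cases hg : g ∈ {g : UG E | sa g x0 ∈ K}
      · simp only [Set.indicator_of_mem hg]
        rw [hfK _ hg]
        linarith
      · simp only [Set.indicator_of_notMem hg]
        have := (hr (sa g x0)).1
        linarith
    rw [integral_sub ((integrable_const _).indicator hKm) (integrable_const _),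
      integral_indicator_const _ hKm, integral_const, probReal_univ, one_smul, smul_eq_mul] at h1
    have h2 : ε * (Psi M + Psi B) ≤ (hm E).real {g | sa g x0 ∈ K} * (Psi M + Psi B) :=
      mul_le_mul_of_nonneg_right hKε (by linarith)
    nlinarith
  have hpup : p ≤ Psi B := by
    have h1 : p ≤ ∫ _g : UG E, Psi B ∂(hm E) :=
      integral_mono (hm_integrable (hfc x0)) (integrable_const _) (fun g => (hr _).2)
    rwa [integral_const, probReal_univ, one_smul] at h1
  have hPy0 : 0 < Psi y0 := by rw [← Psi_zero]; exact Psi_strictMono hy0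
  have hGp : y0 ≤ Gam p := by
    obtain ⟨y, hy1, hy2⟩ := exists_Psi (p := p) hB0.le ⟨by linarith, hpup⟩
    rw [← hy2] at hplow
    rw [← hy2, Gam_Psi]
    exact Psi_strictMono.le_iff_le.1 hplow
  have hlhs : S0 ^ (N + 3) ≤ FF S0 N c (fun _ : Fin t => p) := by
    unfold FF WW
    have h1 : ∑ _i : Fin t, Gam p = t * Gam p := by simp
    rw [h1]
    have h2 : S0 ≤ t * Gam p - S0 := by
      have : t * y0 ≤ t * Gam p := mul_le_mul_of_nonneg_left hGp ht0.le
      rw [hS0]
      linarith
    have h3 : tp (N + 3) S0 ≤ tp (N + 3) (t * Gam p - S0) := tp_mono h2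
    rw [tp_of_nonneg _ hS0p.le] at h3
    have h4 : 0 ≤ c * ∑ _i : Fin t, p ^ 2 :=
      mul_nonneg hc0 (Finset.sum_nonneg fun _ _ => sq_nonneg _)
    linarith
  linarith

end Core

/-- the parameters can be chosen -/
theorem exists_params (t : ℕ) (ht : 2 ≤ t) (ε : ℝ) (hε : 1 / 2 < ε) (hε1 : ε ≤ 1) :
    ∃ (M y0 c : ℝ) (N m0 : ℕ), 0 < M ∧ 0 < y0 ∧
      Psi y0 ≤ ε * Psi M - (1 - ε) * Psi ((t - 1) * M) ∧ 0 ≤ c ∧
      t * ((t - 1) * M) * ((t - 1) * M + ((t - 1) * M) ^ 2 * t / (t * y0 / 2)) ≤ N ∧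
      (∀ m : ℕ, m0 ≤ m → 2 * KK t (t * y0 / 2) N ((t - 1) * M) * (t - 1) < 4 * c * (m + 1)) ∧
      c * (t * Psi ((t - 1) * M) ^ 2) < (t * y0 / 2) ^ (N + 3) := by
  have ht2 : (2 : ℝ) ≤ t := by exact_mod_cast ht
  have ht0 : (0 : ℝ) < t := by linarith
  obtain ⟨b, hb0, hb1, hb2⟩ := Psi_bdd
  have hε0 : 0 < ε := by linarith
  obtain ⟨M, hM⟩ := hb2 ((1 - ε) / ε * b) (by
    have : (1 - ε) / ε < 1 := by rw [div_lt_one hε0]; linarith
    nlinarith)
  have hMb : (1 - ε) * b < ε * Psi M := by
    have h1 := mul_lt_mul_of_pos_left hM hε0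
    have h2 : ε * ((1 - ε) / ε * b) = (1 - ε) * b := by field_simp
    linarith
  have hM0 : 0 < M := by
    have h1 : 0 < Psi M := by
      have h2 : 0 ≤ (1 - ε) * b := mul_nonneg (by linarith) hb0.le
      by_contra hcon
      push Not at hcon
      nlinarith
    by_contra hcon
    push Not at hcon
    have := Psi_strictMono.monotone hcon
    rw [Psi_zero] at this
    linarith
  set p0 := ε * Psi M - (1 - ε) * Psi ((t - 1) * M) with hp0
  have hp0pos : 0 < p0 := by
    have h1 := hb1 ((t - 1) * M)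
    have h2 : (1 - ε) * Psi ((t - 1) * M) ≤ (1 - ε) * b :=
      mul_le_mul_of_nonneg_left h1.le (by linarith)
    linarith
  have hPM : 0 < Psi M := by rw [← Psi_zero]; exact Psi_strictMono hM0
  have hPB : 0 < Psi ((t - 1) * M) := by
    rw [← Psi_zero]; exact Psi_strictMono (by nlinarith)
  obtain ⟨y0, hy1, hy2⟩ := exists_Psi (B := M) (p := p0) hM0.le ⟨by linarith, by
    have h1 : ε * Psi M ≤ 1 * Psi M := mul_le_mul_of_nonneg_right hε1 hPM.le
    have h2 : 0 ≤ (1 - ε) * Psi ((t - 1) * M) := mul_nonneg (by linarith) hPB.le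
    linarith⟩
  have hy0 : 0 < y0 := by
    by_contra hcon
    push Not at hcon
    have := Psi_strictMono.monotone hcon
    rw [Psi_zero, hy2] at this
    linarith
  obtain ⟨N, hN⟩ := exists_nat_ge
    (t * ((t - 1) * M) * ((t - 1) * M + ((t - 1) * M) ^ 2 * t / (t * y0 / 2)))
  set Q := (t * y0 / 2) ^ (N + 3) with hQ
  have hQ0 : 0 < Q := by positivity
  set c := Q / (2 * (t * Psi ((t - 1) * M) ^ 2)) with hc
  have hc0 : 0 < c := by positivity
  obtain ⟨m0, hm0⟩ := exists_nat_ge
    (2 * KK t (t * y0 / 2) N ((t - 1) * M) * (t - 1) / (4 * c))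
  refine ⟨M, y0, c, N, m0, hM0, hy0, hy2.le, hc0.le, hN, ?_, ?_⟩
  · intro m hm
    have h1 : (m0 : ℝ) ≤ m := by exact_mod_cast hm
    have h2 : 2 * KK t (t * y0 / 2) N ((t - 1) * M) * (t - 1) / (4 * c) < m + 1 := by linarith
    rw [div_lt_iff₀ (by positivity)] at h2
    linarith
  · have : c * (t * Psi ((t - 1) * M) ^ 2) = Q / 2 := by
      rw [hc]; field_simp
    rw [this]
    linarith

/-- every measurable set of normalised measure above `ε > 1/2` contains a regular simplex -/
theorem simplex_in_set (t : ℕ) (ht : 2 ≤ t) (ε : ℝ) (hε : 1 / 2 < ε) :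
    ∃ k₀ : ℕ, ∀ k : ℕ, k₀ < k →
      ∀ A : Set (sphere (0 : EuclideanSpace ℝ (Fin (k + 1))) 1), MeasurableSet A →
        ENNReal.ofReal ε *
            (volume : Measure (EuclideanSpace ℝ (Fin (k + 1)))).toSphere univ
          < (volume : Measure (EuclideanSpace ℝ (Fin (k + 1)))).toSphere A →
        ∃ y : Fin t → sphere (0 : EuclideanSpace ℝ (Fin (k + 1))) 1,
          (∀ i, y i ∈ A) ∧ ∀ i j, i ≠ j →
            inner ℝ (y i : EuclideanSpace ℝ (Fin (k + 1)))
              (y j : EuclideanSpace ℝ (Fin (k + 1))) = -1 / (t - 1 : ℝ) := by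
  rcases le_or_gt ε 1 with hε1 | hε1
  · obtain ⟨M, y0, c, N, m0, hM, hy0, hy, hc0, hN, hc, hc2⟩ := exists_params t ht ε hε hε1
    refine ⟨t + m0 + 2, fun k hk A hA hAε => ?_⟩
    have hn : Module.finrank ℝ (EuclideanSpace ℝ (Fin (k + 1))) = k + 1 := by simp
    have hn2 : Module.finrank ℝ (EuclideanSpace ℝ (Fin (k + 1))) = (k - 1) + 2 := by
      rw [hn]; omega
    obtain ⟨s, hs⟩ := exists_simplex ht (by omega : t ≤ k + 1) hn
    set x0 := s ⟨0, by omega⟩ with hx0
    have hlaw := law (by omega) x0 hA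
    set σ := (volume : Measure (EuclideanSpace ℝ (Fin (k + 1)))).toSphere with hσ
    have hσfin : σ univ ≠ ⊤ := measure_ne_top _ _
    have hprob : ENNReal.ofReal ε
        < (hm (EuclideanSpace ℝ (Fin (k + 1)))) {g | sa g x0 ∈ A} := by
      rw [← hlaw] at hAε
      exact lt_of_mul_lt_mul_right' hAε
    set ν : Measure (sphere (0 : EuclideanSpace ℝ (Fin (k + 1))) 1) :=
      (hm (EuclideanSpace ℝ (Fin (k + 1)))).map (fun g => sa g x0) with hν
    have hmeas : Measurable (fun g : UG (EuclideanSpace ℝ (Fin (k + 1))) => sa g x0) :=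
      (sa_continuous_left x0).measurable
    have hνp : IsProbabilityMeasure ν := Measure.isProbabilityMeasure_map hmeas.aemeasurable
    have hνA : ENNReal.ofReal ε < ν A := by
      rw [hν, Measure.map_apply hmeas hA]
      exact hprob
    obtain ⟨K, hKA, hK, hKε⟩ := hA.exists_lt_isCompact hνA
    have hKν : ν K = (hm (EuclideanSpace ℝ (Fin (k + 1)))) {g | sa g x0 ∈ K} := by
      rw [hν, Measure.map_apply hmeas hK.measurableSet]
      rfl
    have hKne : K.Nonempty := by
      rw [nonempty_iff_ne_empty]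
      rintro rfl
      simp at hKε
    have hKreal : ε ≤ (hm (EuclideanSpace ℝ (Fin (k + 1)))).real {g | sa g x0 ∈ K} := by
      rw [hKν] at hKε
      have h1 := ENNReal.toReal_mono (measure_ne_top _ _) hKε.le
      rwa [ENNReal.toReal_ofReal (by linarith)] at h1
    have hm0 : m0 ≤ k - 1 := by omega
    have hck := hc (k - 1) hm0
    obtain ⟨g, hg⟩ := core hn2 ht s hs hM (by linarith) hε1 hy0 hy hc0 hN hck hc2 K hK x0
      hKreal hKne
    refine ⟨fun i => sa g (s i), fun i => hKA (hg i), fun i j hij => ?_⟩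
    show inner ℝ (sa g (s i) : EuclideanSpace ℝ (Fin (k + 1))) (sa g (s j)) = _
    rw [sa_coe, sa_coe, av_inner, hs i j hij]
  · refine ⟨0, fun k _ A _ hAε => ?_⟩
    exfalso
    have h1 : (volume : Measure (EuclideanSpace ℝ (Fin (k + 1)))).toSphere A
        ≤ (volume : Measure (EuclideanSpace ℝ (Fin (k + 1)))).toSphere univ :=
      measure_mono (subset_univ _)
    have h2 : (volume : Measure (EuclideanSpace ℝ (Fin (k + 1)))).toSphere univ
        ≤ ENNReal.ofReal ε * (volume : Measure (EuclideanSpace ℝ (Fin (k + 1)))).toSphere univ := by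
      have h3 : (1 : ℝ≥0∞) ≤ ENNReal.ofReal ε := by
        rw [← ENNReal.ofReal_one]
        exact ENNReal.ofReal_le_ofReal hε1.le
      calc _ = 1 * (volume : Measure (EuclideanSpace ℝ (Fin (k + 1)))).toSphere univ := by
            rw [one_mul]
        _ ≤ _ := mul_le_mul_left h3 _
    exact absurd hAε (not_lt.2 (h1.trans h2))

end Pool.Agent.helper440_simplex
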