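import Pool.Agent.helper440_simplex.Profile

/-! # The function of `t` variables and its derivatives -/

set_option autoImplicit false

namespace Pool.Agent.helper440_simplex

open MeasureTheory Set Filter Topology

variable {t : ℕ}

/-- sum of the heights -/
noncomputable def WW (p : Fin t → ℝ) : ℝ := ∑ i, Gam (p i)

/-- the weight `exp (Γ² / 2)` -/
noncomputable def ee (x : ℝ) : ℝ := Real.exp (Gam x ^ 2 / 2)

theorem ee_pos (x : ℝ) : 0 < ee x := Real.exp_pos _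

/-- the function -/
noncomputable def FF (S0 : ℝ) (N : ℕ) (c : ℝ) (p : Fin t → ℝ) : ℝ :=
  tp (N + 3) (WW p - S0) + c * ∑ i, (p i) ^ 2

/-- its gradient -/
noncomputable def dFF (S0 : ℝ) (N : ℕ) (c : ℝ) (p : Fin t → ℝ) (i : Fin t) : ℝ :=
  (N + 3 : ℕ) * tp (N + 2) (WW p - S0) * ee (p i) + 2 * c * p i

/-- its Hessian applied to `w` -/
noncomputable def hFF (S0 : ℝ) (N : ℕ) (c : ℝ) (p w : Fin t → ℝ) (i : Fin t) : ℝ :=
  (N + 3 : ℕ) * ((N + 2 : ℕ) * tp (N + 1) (WW p - S0) * (∑ l, ee (p l) * w l)) * ee (p i)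
    + (N + 3 : ℕ) * tp (N + 2) (WW p - S0) * (Gam (p i) * ee (p i) ^ 2 * w i) + 2 * c * w i

/-- the cube -/
def cube (t : ℕ) (B : ℝ) : Set (Fin t → ℝ) := {p | ∀ i, p i ∈ Icc (-Psi B) (Psi B)}

theorem hasDerivAt_Gam_comp {B : ℝ} (hB : 0 ≤ B) {x : ℝ → ℝ} {x' s : ℝ}
    (hx : HasDerivAt x x' s) (hp : x s ∈ Icc (-Psi B) (Psi B)) :
    HasDerivAt (fun r => Gam (x r)) (ee (x s) * x') s :=
  (hasDerivAt_Gam hB hp).comp s hx

theorem hasDerivAt_ee_comp {B : ℝ} (hB : 0 ≤ B) {x : ℝ → ℝ} {x' s : ℝ}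
    (hx : HasDerivAt x x' s) (hp : x s ∈ Icc (-Psi B) (Psi B)) :
    HasDerivAt (fun r => ee (x r)) (Gam (x s) * ee (x s) ^ 2 * x') s := by
  have h1 := hasDerivAt_Gam_comp hB hx hp
  have h2 : HasDerivAt (fun r => Gam (x r) ^ 2 / 2) (Gam (x s) * (ee (x s) * x')) s :=
    ((h1.fun_pow 2).div_const 2).congr_deriv (by push_cast; ring)
  have h3 := h2.exp
  unfold ee at *
  exact h3.congr_deriv (by ring)

theorem hasDerivAt_WW {B : ℝ} (hB : 0 ≤ B) {x : ℝ → Fin t → ℝ} {x' : Fin t → ℝ} {s : ℝ}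
    (hx : ∀ i, HasDerivAt (fun r => x r i) (x' i) s) (hp : x s ∈ cube t B) :
    HasDerivAt (fun r => WW (x r)) (∑ l, ee (x s l) * x' l) s := by
  unfold WW
  exact HasDerivAt.fun_sum fun i _ => hasDerivAt_Gam_comp hB (hx i) (hp i)

theorem hasDerivAt_tpW {B : ℝ} (hB : 0 ≤ B) (S0 : ℝ) (m : ℕ) {x : ℝ → Fin t → ℝ}
    {x' : Fin t → ℝ} {s : ℝ}
    (hx : ∀ i, HasDerivAt (fun r => x r i) (x' i) s) (hp : x s ∈ cube t B) :
    HasDerivAt (fun r => tp (m + 2) (WW (x r) - S0))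
      ((m + 2 : ℕ) * tp (m + 1) (WW (x s) - S0) * (∑ l, ee (x s l) * x' l)) s := by
  have h := HasDerivAt.comp s (hasDerivAt_tp m (WW (x s) - S0))
    ((hasDerivAt_WW hB hx hp).sub_const S0)
  exact h

theorem hasDerivAt_FF {B : ℝ} (hB : 0 ≤ B) (S0 : ℝ) (N : ℕ) (c : ℝ) {x : ℝ → Fin t → ℝ}
    {x' : Fin t → ℝ} {s : ℝ}
    (hx : ∀ i, HasDerivAt (fun r => x r i) (x' i) s) (hp : x s ∈ cube t B) :
    HasDerivAt (fun r => FF S0 N c (x r)) (∑ i, dFF S0 N c (x s) i * x' i) s := by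
  unfold FF
  have h1 := hasDerivAt_tpW hB S0 (N + 1) hx hp
  have h2 : HasDerivAt (fun r => c * ∑ i, (x r i) ^ 2) (c * ∑ i, 2 * x s i * x' i) s := by
    refine HasDerivAt.const_mul c (HasDerivAt.fun_sum fun i _ => ?_)
    exact ((hx i).fun_pow 2).congr_deriv (by push_cast; ring)
  refine (h1.fun_add h2).congr_deriv ?_
  unfold dFF
  rw [Finset.mul_sum, Finset.mul_sum, ← Finset.sum_add_distrib]
  refine Finset.sum_congr rfl fun i _ => ?_
  push_cast
  ring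

theorem hasDerivAt_dFF {B : ℝ} (hB : 0 ≤ B) (S0 : ℝ) (N : ℕ) (c : ℝ) {x : ℝ → Fin t → ℝ}
    {x' : Fin t → ℝ} {s : ℝ} (i : Fin t)
    (hx : ∀ i, HasDerivAt (fun r => x r i) (x' i) s) (hp : x s ∈ cube t B) :
    HasDerivAt (fun r => dFF S0 N c (x r) i) (hFF S0 N c (x s) x' i) s := by
  unfold dFF
  have h1 := hasDerivAt_tpW hB S0 N hx hp
  have h2 := hasDerivAt_ee_comp hB (hx i) (hp i)
  exact ((h1.const_mul ((N + 3 : ℕ) : ℝ)).fun_mul h2).fun_add ((hx i).const_mul (2 * c))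

theorem cube_convex (B : ℝ) : Convex ℝ (cube t B) := by
  intro p hp q hq a b ha hb hab i
  exact (convex_Icc _ _) (hp i) (hq i) ha hb hab

theorem segment_mem {B : ℝ} {p q : Fin t → ℝ} (hp : p ∈ cube t B) (hq : q ∈ cube t B)
    {s : ℝ} (hs : s ∈ Icc (0 : ℝ) 1) : (fun i => p i + s * (q i - p i)) ∈ cube t B := by
  intro i
  have := (convex_Icc (-Psi B) (Psi B)) (hp i) (hq i) (a := 1 - s) (b := s)
    (by linarith [hs.2]) hs.1 (by ring)
  convert this using 1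
  simp only [smul_eq_mul]
  ring

theorem ee_le {B x : ℝ} (hB : 0 ≤ B) (hx : x ∈ Icc (-Psi B) (Psi B)) :
    ee x ≤ Real.exp (B ^ 2 / 2) := by
  unfold ee
  have h := Gam_mem hB hx
  apply Real.exp_le_exp.2
  have : Gam x ^ 2 ≤ B ^ 2 := sq_le_sq' h.1 h.2
  linarith

theorem abs_Gam_le {B x : ℝ} (hB : 0 ≤ B) (hx : x ∈ Icc (-Psi B) (Psi B)) : |Gam x| ≤ B :=
  abs_le.2 (Gam_mem hB hx)

theorem WW_le {B : ℝ} (hB : 0 ≤ B) {p : Fin t → ℝ} (hp : p ∈ cube t B) : WW p ≤ t * B := by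
  unfold WW
  calc ∑ i, Gam (p i) ≤ ∑ _i : Fin t, B := Finset.sum_le_sum fun i _ => (Gam_mem hB (hp i)).2
    _ = t * B := by simp

/-- the constant bounding everything -/
noncomputable def LL (t : ℕ) (S0 : ℝ) (N : ℕ) (c B : ℝ) : ℝ :=
  (N + 3 : ℕ) * tp (N + 2) (t * B - S0) * Real.exp (B ^ 2 / 2) + 2 * |c| * Psi B
  + ((N + 3 : ℕ) * ((N + 2 : ℕ) * tp (N + 1) (t * B - S0)) * Real.exp (B ^ 2 / 2) ^ 2
    + (N + 3 : ℕ) * tp (N + 2) (t * B - S0) * (B * Real.exp (B ^ 2 / 2) ^ 2) + 2 * |c|)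

theorem LL_parts (t : ℕ) (S0 : ℝ) (N : ℕ) (c : ℝ) {B : ℝ} (hB : 0 ≤ B) :
    0 ≤ (N + 3 : ℕ) * tp (N + 2) (t * B - S0) * Real.exp (B ^ 2 / 2) + 2 * |c| * Psi B ∧
    0 ≤ ((N + 3 : ℕ) * ((N + 2 : ℕ) * tp (N + 1) (t * B - S0)) * Real.exp (B ^ 2 / 2) ^ 2
    + (N + 3 : ℕ) * tp (N + 2) (t * B - S0) * (B * Real.exp (B ^ 2 / 2) ^ 2) + 2 * |c|) := by
  have h1 := tp_nonneg (N + 2) (t * B - S0)
  have h2 := tp_nonneg (N + 1) (t * B - S0)
  have h3 : 0 ≤ Psi B := by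
    rw [← Psi_zero]; exact Psi_strictMono.monotone hB
  constructor <;> positivity

theorem LL_nonneg (t : ℕ) (S0 : ℝ) (N : ℕ) (c : ℝ) {B : ℝ} (hB : 0 ≤ B) :
    0 ≤ LL t S0 N c B := by
  have := LL_parts t S0 N c hB
  unfold LL
  linarith [this.1, this.2]

theorem abs_dFF_le {B : ℝ} (hB : 0 ≤ B) (S0 : ℝ) (N : ℕ) (c : ℝ) {p : Fin t → ℝ}
    (hp : p ∈ cube t B) (i : Fin t) : |dFF S0 N c p i| ≤ LL t S0 N c B := by
  have h0 := LL_parts t S0 N c hB
  have hW : tp (N + 2) (WW p - S0) ≤ tp (N + 2) (t * B - S0) :=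
    tp_mono (by linarith [WW_le hB hp])
  have h1 : |((N + 3 : ℕ) : ℝ) * tp (N + 2) (WW p - S0) * ee (p i)|
      ≤ (N + 3 : ℕ) * tp (N + 2) (t * B - S0) * Real.exp (B ^ 2 / 2) := by
    rw [abs_of_nonneg (by
      have := tp_nonneg (N + 2) (WW p - S0)
      have := (ee_pos (p i)).le
      positivity)]
    have := tp_nonneg (N + 2) (WW p - S0)
    have := tp_nonneg (N + 2) (t * B - S0)
    have h3 := ee_le hB (hp i)
    have := (ee_pos (p i)).le
    gcongr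
  have h2 : |2 * c * p i| ≤ 2 * |c| * Psi B := by
    rw [abs_mul, abs_mul, abs_two]
    have : |p i| ≤ Psi B := abs_le.2 (hp i)
    gcongr
  unfold dFF LL
  calc _ ≤ _ := abs_add_le _ _
    _ ≤ _ := add_le_add h1 h2
    _ ≤ _ := by linarith [h0.2]

theorem abs_hFF_le {B : ℝ} (hB : 0 ≤ B) (S0 : ℝ) (N : ℕ) (c : ℝ) {p : Fin t → ℝ}
    (hp : p ∈ cube t B) (w : Fin t → ℝ) (i : Fin t) :
    |hFF S0 N c p w i| ≤ LL t S0 N c B * ∑ l, |w l| := by
  have h0 := LL_parts t S0 N c hB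
  have hW2 : tp (N + 2) (WW p - S0) ≤ tp (N + 2) (t * B - S0) :=
    tp_mono (by linarith [WW_le hB hp])
  have hW1 : tp (N + 1) (WW p - S0) ≤ tp (N + 1) (t * B - S0) :=
    tp_mono (by linarith [WW_le hB hp])
  have n2 := tp_nonneg (N + 2) (WW p - S0)
  have n1 := tp_nonneg (N + 1) (WW p - S0)
  have m2 := tp_nonneg (N + 2) (t * B - S0)
  have m1 := tp_nonneg (N + 1) (t * B - S0)
  have hs : 0 ≤ ∑ l, |w l| := Finset.sum_nonneg fun l _ => abs_nonneg _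
  have hwi : |w i| ≤ ∑ l, |w l| :=
    Finset.single_le_sum (f := fun l => |w l|) (fun l _ => abs_nonneg _) (Finset.mem_univ i)
  have hE : 0 < Real.exp (B ^ 2 / 2) := Real.exp_pos _
  have hsum : |∑ l, ee (p l) * w l| ≤ Real.exp (B ^ 2 / 2) * ∑ l, |w l| := by
    rw [Finset.mul_sum]
    refine (Finset.abs_sum_le_sum_abs _ _).trans (Finset.sum_le_sum fun l _ => ?_)
    rw [abs_mul, abs_of_pos (ee_pos _)]
    exact mul_le_mul_of_nonneg_right (ee_le hB (hp l)) (abs_nonneg _)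
  have e1 := ee_le hB (hp i)
  have e0 := (ee_pos (p i)).le
  have a1 : |((N + 3 : ℕ) : ℝ) * ((N + 2 : ℕ) * tp (N + 1) (WW p - S0) * (∑ l, ee (p l) * w l))
      * ee (p i)| ≤ ((N + 3 : ℕ) * ((N + 2 : ℕ) * tp (N + 1) (t * B - S0))
        * Real.exp (B ^ 2 / 2) ^ 2) * ∑ l, |w l| := by
    rw [abs_mul, abs_mul, abs_mul, abs_mul, abs_of_nonneg e0, abs_of_nonneg n1,
      Nat.abs_cast, Nat.abs_cast]
    calc ((N + 3 : ℕ) : ℝ) * ((N + 2 : ℕ) * tp (N + 1) (WW p - S0) * |∑ l, ee (p l) * w l|)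
      * ee (p i) ≤ ((N + 3 : ℕ) : ℝ) * ((N + 2 : ℕ) * tp (N + 1) (t * B - S0) *
        (Real.exp (B ^ 2 / 2) * ∑ l, |w l|)) * Real.exp (B ^ 2 / 2) := by gcongr
      _ = _ := by ring
  have a2 : |((N + 3 : ℕ) : ℝ) * tp (N + 2) (WW p - S0) * (Gam (p i) * ee (p i) ^ 2 * w i)|
      ≤ ((N + 3 : ℕ) * tp (N + 2) (t * B - S0) * (B * Real.exp (B ^ 2 / 2) ^ 2)) *
        ∑ l, |w l| := by
    have g1 := abs_Gam_le hB (hp i)
    rw [abs_mul, abs_mul, abs_mul, abs_mul, abs_of_nonneg n2, Nat.abs_cast, abs_pow,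
      abs_of_nonneg e0]
    calc ((N + 3 : ℕ) : ℝ) * tp (N + 2) (WW p - S0) * (|Gam (p i)| * ee (p i) ^ 2 * |w i|)
      ≤ ((N + 3 : ℕ) : ℝ) * tp (N + 2) (t * B - S0) *
        (B * Real.exp (B ^ 2 / 2) ^ 2 * ∑ l, |w l|) := by gcongr
      _ = _ := by ring
  have a3 : |2 * c * w i| ≤ 2 * |c| * ∑ l, |w l| := by
    rw [abs_mul, abs_mul, abs_two]
    gcongr
  unfold hFF LL
  calc _ ≤ _ := abs_add_le _ _
    _ ≤ _ := add_le_add ((abs_add_le _ _).trans (add_le_add a1 a2)) a3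
    _ ≤ _ := by nlinarith [mul_nonneg h0.1 hs]

theorem dFF_lip {B : ℝ} (hB : 0 ≤ B) (S0 : ℝ) (N : ℕ) (c : ℝ) {p q : Fin t → ℝ}
    (hp : p ∈ cube t B) (hq : q ∈ cube t B) (i : Fin t) :
    |dFF S0 N c q i - dFF S0 N c p i| ≤ LL t S0 N c B * ∑ l, |q l - p l| := by
  have h := norm_image_sub_le_of_norm_deriv_le_segment_01'
    (f := fun s : ℝ => dFF S0 N c (fun l => p l + s * (q l - p l)) i)
    (f' := fun s => hFF S0 N c (fun l => p l + s * (q l - p l)) (fun l => q l - p l) i)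
    (C := LL t S0 N c B * ∑ l, |q l - p l|) ?_ ?_
  · simpa using h
  · intro s hs
    refine HasDerivAt.hasDerivWithinAt ?_
    refine hasDerivAt_dFF hB S0 N c i (x := fun s l => p l + s * (q l - p l)) ?_
      (segment_mem hp hq hs)
    intro l
    have := ((hasDerivAt_id s).mul_const (q l - p l)).const_add (p l)
    simpa using this
  · intro s hs
    exact abs_hFF_le hB S0 N c (segment_mem hp hq (Ico_subset_Icc_self hs)) _ i

theorem FF_lip {B : ℝ} (hB : 0 ≤ B) (S0 : ℝ) (N : ℕ) (c : ℝ) {p q : Fin t → ℝ}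
    (hp : p ∈ cube t B) (hq : q ∈ cube t B) :
    |FF S0 N c q - FF S0 N c p| ≤ LL t S0 N c B * ∑ l, |q l - p l| := by
  have h := norm_image_sub_le_of_norm_deriv_le_segment_01'
    (f := fun s : ℝ => FF S0 N c (fun l => p l + s * (q l - p l)))
    (f' := fun s => ∑ i, dFF S0 N c (fun l => p l + s * (q l - p l)) i * (q i - p i))
    (C := LL t S0 N c B * ∑ l, |q l - p l|) ?_ ?_
  · simpa using h
  · intro s hs
    refine HasDerivAt.hasDerivWithinAt ?_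
    refine hasDerivAt_FF hB S0 N c (x := fun s l => p l + s * (q l - p l)) ?_
      (segment_mem hp hq hs)
    intro l
    have := ((hasDerivAt_id s).mul_const (q l - p l)).const_add (p l)
    simpa using this
  · intro s hs
    rw [Finset.mul_sum]
    refine (norm_sum_le _ _).trans (Finset.sum_le_sum fun l _ => ?_)
    rw [norm_mul]
    exact mul_le_mul_of_nonneg_right
      (abs_dFF_le hB S0 N c (segment_mem hp hq (Ico_subset_Icc_self hs)) l) (norm_nonneg _)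

/-- one sided second order bound along a segment -/
theorem FF_taylor {B : ℝ} (hB : 0 ≤ B) (S0 : ℝ) (N : ℕ) (c : ℝ) {p q : Fin t → ℝ}
    (hp : p ∈ cube t B) (hq : q ∈ cube t B) {ε : ℝ} (hε0 : 0 < ε) (hε1 : ε ≤ 1) :
    FF S0 N c (fun l => p l + ε * (q l - p l)) ≤ FF S0 N c p
      + ε * ∑ i, dFF S0 N c p i * (q i - p i)
      + ε ^ 2 * (LL t S0 N c B * (∑ l, |q l - p l|) ^ 2) := by
  obtain ⟨ξ, hξ, he⟩ := exists_hasDerivAt_eq_slope
    (fun s : ℝ => FF S0 N c (fun l => p l + s * (q l - p l)))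
    (fun s => ∑ i, dFF S0 N c (fun l => p l + s * (q l - p l)) i * (q i - p i)) hε0
    (by
      intro s hs
      refine HasDerivAt.continuousAt (f' := ∑ i, dFF S0 N c (fun l => p l + s * (q l - p l)) i *
        (q i - p i)) ?_ |>.continuousWithinAt
      refine hasDerivAt_FF hB S0 N c (x := fun s l => p l + s * (q l - p l)) ?_
        (segment_mem hp hq ⟨hs.1, hs.2.trans hε1⟩)
      intro l
      have := ((hasDerivAt_id s).mul_const (q l - p l)).const_add (p l)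
      simpa using this)
    (by
      intro s hs
      refine hasDerivAt_FF hB S0 N c (x := fun s l => p l + s * (q l - p l)) ?_
        (segment_mem hp hq ⟨hs.1.le, hs.2.le.trans hε1⟩)
      intro l
      have := ((hasDerivAt_id s).mul_const (q l - p l)).const_add (p l)
      simpa using this)
  have hξ1 : ξ ∈ Icc (0 : ℝ) 1 := ⟨hξ.1.le, hξ.2.le.trans hε1⟩
  have hL := LL_nonneg t S0 N c hB
  have hd : ∑ i, dFF S0 N c (fun l => p l + ξ * (q l - p l)) i * (q i - p i)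
      ≤ ∑ i, dFF S0 N c p i * (q i - p i) + ε * (LL t S0 N c B * (∑ l, |q l - p l|) ^ 2) := by
    rw [← sub_le_iff_le_add', ← Finset.sum_sub_distrib]
    calc ∑ i, (dFF S0 N c (fun l => p l + ξ * (q l - p l)) i * (q i - p i)
          - dFF S0 N c p i * (q i - p i))
        ≤ ∑ i, (LL t S0 N c B * (ε * ∑ l, |q l - p l|)) * |q i - p i| := by
          refine Finset.sum_le_sum fun i _ => ?_
          rw [← sub_mul]
          refine (le_abs_self _).trans ?_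
          rw [abs_mul]
          refine mul_le_mul_of_nonneg_right ?_ (abs_nonneg _)
          refine (dFF_lip hB S0 N c hp (segment_mem hp hq hξ1) i).trans ?_
          refine mul_le_mul_of_nonneg_left ?_ hL
          rw [Finset.mul_sum]
          refine Finset.sum_le_sum fun l _ => ?_
          rw [add_sub_cancel_left, abs_mul, abs_of_nonneg hξ1.1]
          exact mul_le_mul_of_nonneg_right hξ.2.le (abs_nonneg _)
      _ = _ := by rw [← Finset.mul_sum]; ring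
  have he' : FF S0 N c (fun l => p l + ε * (q l - p l)) - FF S0 N c p
      = ε * ∑ i, dFF S0 N c (fun l => p l + ξ * (q l - p l)) i * (q i - p i) := by
    have h0 : (fun l => p l + (0 : ℝ) * (q l - p l)) = p := by ext l; ring
    rw [h0, sub_zero] at he
    rw [he]
    field_simp
  have := mul_le_mul_of_nonneg_left hd hε0.le
  nlinarith [this, he']

end Pool.Agent.helper440_simplex
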