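import Pool.Agent.helper440_simplex.Smooth

/-! # The law of a random point and the regular simplex -/

set_option autoImplicit false
set_option linter.unusedSectionVars false

namespace Pool.Agent.helper440_simplex

open MeasureTheory Metric Set Filter Topology
open scoped RealInnerProductSpace Pointwise ENNReal

variable {E : Type*} [NormedAddCommGroup E] [InnerProductSpace ℝ E] [CompleteSpace E]
  [FiniteDimensional ℝ E] [MeasurableSpace E] [BorelSpace E]

theorem sa_measurePreserving (g : UG E) :
    MeasurePreserving (sa g) (volume : Measure E).toSphere (volume : Measure E).toSphere := by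
  refine ⟨(sa_continuous_right g).measurable, ?_⟩
  ext s hs
  rw [Measure.map_apply (sa_continuous_right g).measurable hs,
    Measure.toSphere_apply' _ ((sa_continuous_right g).measurable hs),
    Measure.toSphere_apply' _ hs]
  congr 1
  set L : E ≃ₗᵢ[ℝ] E := Unitary.linearIsometryEquiv g with hL
  have hLg : ∀ x, L x = av g x := fun x => rfl
  have hLs : ∀ x, L.symm x = av g⁻¹ x := by
    intro x
    rw [L.symm_apply_eq, hLg, av_inv']
  have hset : (Set.Ioo (0 : ℝ) 1 • ((↑) '' (sa g ⁻¹' s) : Set E))
      = L ⁻¹' (Set.Ioo (0 : ℝ) 1 • ((↑) '' s : Set E)) := by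
    ext y
    simp only [Set.mem_smul, Set.mem_image, Set.mem_preimage]
    constructor
    · rintro ⟨c, hc, z, ⟨w, hw, rfl⟩, rfl⟩
      exact ⟨c, hc, L w, ⟨sa g w, hw, rfl⟩, by simp⟩
    · rintro ⟨c, hc, z, ⟨w, hw, rfl⟩, h⟩
      refine ⟨c, hc, av g⁻¹ w, ⟨sa g⁻¹ w, ?_, rfl⟩, ?_⟩
      · have : sa g (sa g⁻¹ w) = w := by
          rw [← sa_mul, mul_inv_cancel, sa_one]
        rw [this]; exact hw
      · rw [← hLs]
        apply L.injective
        rw [← h]; simp
  rw [hset]
  exact L.measurePreserving.measure_preimage_equiv (f := L.toHomeomorph.toMeasurableEquiv) _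

/-- the law of `g x0` is the normalised surface measure -/
theorem law (hn : 1 ≤ Module.finrank ℝ E) (x0 : SS E) {A : Set (SS E)} (hA : MeasurableSet A) :
    (hm E) {g | sa g x0 ∈ A} * (volume : Measure E).toSphere univ
      = (volume : Measure E).toSphere A := by
  set σ := (volume : Measure E).toSphere with hσ
  have hind : Measurable (fun p : SS E × UG E => A.indicator (1 : SS E → ℝ≥0∞) (sa p.2 p.1)) :=
    (measurable_one.indicator hA).comp
      (sa_continuous.comp (continuous_snd.prodMk continuous_fst)).measurable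
  have hx : ∀ x : SS E, ∫⁻ g, A.indicator (1 : SS E → ℝ≥0∞) (sa g x) ∂(hm E)
      = (hm E) {g | sa g x0 ∈ A} := by
    intro x
    obtain ⟨h, hh⟩ := sa_trans hn x0 x
    have e1 := lintegral_mul_right_eq_self (μ := hm E)
      (fun g => A.indicator (1 : SS E → ℝ≥0∞) (sa g x0)) h
    simp only [sa_mul, hh] at e1
    rw [e1]
    have e2 : (fun g : UG E => A.indicator (1 : SS E → ℝ≥0∞) (sa g x0))
        = {g : UG E | sa g x0 ∈ A}.indicator 1 := by
      funext g
      by_cases hg : sa g x0 ∈ A
      · rw [Set.indicator_of_mem hg, Set.indicator_of_mem (by exact hg)]; rfl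
      · rw [Set.indicator_of_notMem hg, Set.indicator_of_notMem (by exact hg)]
    rw [e2, lintegral_indicator_one]
    exact (sa_continuous_left x0).measurable hA
  have hg : ∀ g : UG E, ∫⁻ x, A.indicator (1 : SS E → ℝ≥0∞) (sa g x) ∂σ = σ A := by
    intro g
    rw [(sa_measurePreserving g).lintegral_comp (measurable_one.indicator hA),
      lintegral_indicator_one hA]
  have hswap := lintegral_lintegral_swap (μ := σ) (ν := hm E)
    (f := fun x g => A.indicator (1 : SS E → ℝ≥0∞) (sa g x)) hind.aemeasurable
  simp only [hx, hg] at hswap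
  rw [lintegral_const, lintegral_const, measure_univ (μ := hm E), mul_one] at hswap
  exact hswap

omit [MeasurableSpace E] [BorelSpace E] in
/-- the regular simplex -/
theorem exists_simplex {t n : ℕ} (ht : 2 ≤ t) (htn : t ≤ n) (hn : Module.finrank ℝ E = n) :
    ∃ s : Fin t → SS E, ∀ i l, i ≠ l → ⟪(s i : E), s l⟫ = -1 / (t - 1 : ℝ) := by
  have ht2 : (2 : ℝ) ≤ t := by exact_mod_cast ht
  have ht0 : (0 : ℝ) < t := by linarith
  have ht1 : (0 : ℝ) < t - 1 := by linarith
  set b := stdOrthonormalBasis ℝ E with hb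
  have hcard : t ≤ Module.finrank ℝ E := by omega
  set v : Fin t → E := fun i => b (Fin.castLE hcard i) with hv
  have hvv : ∀ i l, ⟪v i, v l⟫ = if i = l then (1 : ℝ) else 0 := by
    intro i l
    simp only [hv]
    rw [orthonormal_iff_ite.1 b.orthonormal]
    by_cases h : i = l
    · simp [h]
    · rw [if_neg h, if_neg]
      intro h2
      exact h (Fin.castLE_injective hcard h2)
  set a : E := (1 / (t : ℝ)) • ∑ i, v i with ha
  have hva : ∀ i, ⟪v i, a⟫ = 1 / (t : ℝ) := by
    intro i
    rw [ha, real_inner_smul_right, inner_sum]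
    simp [hvv]
  have haa : ⟪a, a⟫ = 1 / (t : ℝ) := by
    nth_rewrite 1 [ha]
    rw [real_inner_smul_left, sum_inner]
    simp only [hva, Finset.sum_const, Finset.card_univ, Fintype.card_fin, nsmul_eq_mul]
    field_simp
  set w : Fin t → E := fun i => Real.sqrt (t / (t - 1)) • (v i - a) with hw
  have hww : ∀ i l, ⟪w i, w l⟫ = (t / (t - 1)) * ((if i = l then (1 : ℝ) else 0) - 1 / t) := by
    intro i l
    simp only [hw]
    rw [real_inner_smul_left, real_inner_smul_right, ← mul_assoc,
      Real.mul_self_sqrt (by positivity)]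
    congr 1
    rw [inner_sub_left, inner_sub_right, inner_sub_right, hvv, hva, haa,
      real_inner_comm (v l) a, hva]
    ring
  refine ⟨fun i => ⟨w i, ?_⟩, fun i l hil => ?_⟩
  · rw [mem_sphere_zero_iff_norm]
    have h1 : ‖w i‖ ^ 2 = 1 := by
      rw [← real_inner_self_eq_norm_sq, hww, if_pos rfl]
      field_simp
    nlinarith [norm_nonneg (w i)]
  · show ⟪w i, w l⟫ = _
    rw [hww, if_neg hil]
    field_simp
    ring

end Pool.Agent.helper440_simplex
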