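import Pool.Agent.helper440_simplex.Core
import Pool.Agent.helper440_simplex.Law

set_option autoImplicit false
set_option linter.unusedSectionVars false

namespace Pool.Agent.helper440_simplex

open MeasureTheory Metric Set Filter Topology
open scoped RealInnerProductSpace

section CoreW
variable {E : Type*} [NormedAddCommGroup E] [InnerProductSpace ℝ E] [CompleteSpace E]
  [FiniteDimensional ℝ E] [MeasurableSpace E] [BorelSpace E]

/-! # Several functions with weights -/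

section Mf
variable {t : ℕ}

/-- weighted sum of the heights -/
noncomputable def WWw (lam p : Fin t → ℝ) : ℝ := ∑ i, lam i * Gam (p i)

/-- the function -/
noncomputable def FFw (lam : Fin t → ℝ) (S0 : ℝ) (N : ℕ) (c : ℝ) (p : Fin t → ℝ) : ℝ :=
  tp (N + 3) (WWw lam p - S0) + c * ∑ i, (p i) ^ 2

/-- its gradient -/
noncomputable def dFFw (lam : Fin t → ℝ) (S0 : ℝ) (N : ℕ) (c : ℝ) (p : Fin t → ℝ) (i : Fin t) :
    ℝ := (N + 3 : ℕ) * tp (N + 2) (WWw lam p - S0) * (lam i * ee (p i)) + 2 * c * p i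

/-- its Hessian applied to `w` -/
noncomputable def hFFw (lam : Fin t → ℝ) (S0 : ℝ) (N : ℕ) (c : ℝ) (p w : Fin t → ℝ) (i : Fin t) :
    ℝ := (N + 3 : ℕ) * ((N + 2 : ℕ) * tp (N + 1) (WWw lam p - S0) *
      (∑ l, lam l * ee (p l) * w l)) * (lam i * ee (p i))
    + (N + 3 : ℕ) * tp (N + 2) (WWw lam p - S0) * (lam i * (Gam (p i) * ee (p i) ^ 2 * w i))
    + 2 * c * w i

/-- weights in the unit interval -/
def OKlam (lam : Fin t → ℝ) : Prop := ∀ i, 0 ≤ lam i ∧ lam i ≤ 1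

-- hasDerivAt_FFw
theorem hasDerivAt_FFw_WW (lam : Fin t → ℝ) {B : ℝ} (hB : 0 ≤ B) {x : ℝ → Fin t → ℝ}
    {x' : Fin t → ℝ} {s : ℝ}
    (hx : ∀ i, HasDerivAt (fun r => x r i) (x' i) s) (hp : x s ∈ cube t B) :
    HasDerivAt (fun r => WWw lam (x r)) (∑ l, lam l * ee (x s l) * x' l) s := by
  unfold WWw
  refine HasDerivAt.fun_sum fun i _ => ?_
  exact ((hasDerivAt_Gam_comp hB (hx i) (hp i)).const_mul (lam i)).congr_deriv (by ring)

theorem hasDerivAt_FFw_tpW (lam : Fin t → ℝ) {B : ℝ} (hB : 0 ≤ B) (S0 : ℝ) (m : ℕ)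
    {x : ℝ → Fin t → ℝ} {x' : Fin t → ℝ} {s : ℝ}
    (hx : ∀ i, HasDerivAt (fun r => x r i) (x' i) s) (hp : x s ∈ cube t B) :
    HasDerivAt (fun r => tp (m + 2) (WWw lam (x r) - S0))
      ((m + 2 : ℕ) * tp (m + 1) (WWw lam (x s) - S0) * (∑ l, lam l * ee (x s l) * x' l)) s := by
  have h := HasDerivAt.comp s (hasDerivAt_tp m (WWw lam (x s) - S0))
    ((hasDerivAt_FFw_WW lam hB hx hp).sub_const S0)
  exact h

theorem hasDerivAt_FFw (lam : Fin t → ℝ) {B : ℝ} (hB : 0 ≤ B) (S0 : ℝ) (N : ℕ) (c : ℝ)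
    {x : ℝ → Fin t → ℝ} {x' : Fin t → ℝ} {s : ℝ}
    (hx : ∀ i, HasDerivAt (fun r => x r i) (x' i) s) (hp : x s ∈ cube t B) :
    HasDerivAt (fun r => FFw lam S0 N c (x r)) (∑ i, dFFw lam S0 N c (x s) i * x' i) s := by
  unfold FFw
  have h1 := hasDerivAt_FFw_tpW lam hB S0 (N + 1) hx hp
  have h2 : HasDerivAt (fun r => c * ∑ i, (x r i) ^ 2) (c * ∑ i, 2 * x s i * x' i) s := by
    refine HasDerivAt.const_mul c (HasDerivAt.fun_sum fun i _ => ?_)
    exact ((hx i).fun_pow 2).congr_deriv (by push_cast; ring)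
  refine (h1.fun_add h2).congr_deriv ?_
  unfold dFFw
  rw [Finset.mul_sum, Finset.mul_sum, ← Finset.sum_add_distrib]
  refine Finset.sum_congr rfl fun i _ => ?_
  push_cast
  ring

-- hasDerivAt_dFFw
theorem hasDerivAt_dFFw_WWw (lam : Fin t → ℝ) {B : ℝ} (hB : 0 ≤ B) {x : ℝ → Fin t → ℝ}
    {x' : Fin t → ℝ} {s : ℝ}
    (hx : ∀ i, HasDerivAt (fun r => x r i) (x' i) s) (hp : x s ∈ cube t B) :
    HasDerivAt (fun r => WWw lam (x r)) (∑ l, lam l * ee (x s l) * x' l) s := by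
  unfold WWw
  have h : HasDerivAt (fun r => ∑ i, lam i * Gam (x r i)) (∑ l, lam l * (ee (x s l) * x' l)) s :=
    HasDerivAt.fun_sum fun i _ => (hasDerivAt_Gam_comp hB (hx i) (hp i)).const_mul (lam i)
  have e : (∑ l, lam l * (ee (x s l) * x' l)) = ∑ l, lam l * ee (x s l) * x' l :=
    Finset.sum_congr rfl fun l _ => (mul_assoc _ _ _).symm
  rw [← e]
  exact h

theorem hasDerivAt_dFFw_tpW (lam : Fin t → ℝ) {B : ℝ} (hB : 0 ≤ B) (S0 : ℝ) (m : ℕ)
    {x : ℝ → Fin t → ℝ} {x' : Fin t → ℝ} {s : ℝ}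
    (hx : ∀ i, HasDerivAt (fun r => x r i) (x' i) s) (hp : x s ∈ cube t B) :
    HasDerivAt (fun r => tp (m + 2) (WWw lam (x r) - S0))
      ((m + 2 : ℕ) * tp (m + 1) (WWw lam (x s) - S0) * (∑ l, lam l * ee (x s l) * x' l)) s := by
  have h := HasDerivAt.comp s (hasDerivAt_tp m (WWw lam (x s) - S0))
    ((hasDerivAt_dFFw_WWw lam hB hx hp).sub_const S0)
  exact h

theorem hasDerivAt_dFFw (lam : Fin t → ℝ) {B : ℝ} (hB : 0 ≤ B) (S0 : ℝ) (N : ℕ) (c : ℝ)
    {x : ℝ → Fin t → ℝ} {x' : Fin t → ℝ} {s : ℝ} (i : Fin t)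
    (hx : ∀ i, HasDerivAt (fun r => x r i) (x' i) s) (hp : x s ∈ cube t B) :
    HasDerivAt (fun r => dFFw lam S0 N c (x r) i) (hFFw lam S0 N c (x s) x' i) s := by
  unfold dFFw
  have h1 := hasDerivAt_dFFw_tpW lam hB S0 N hx hp
  have h2 := (hasDerivAt_ee_comp hB (hx i) (hp i)).const_mul (lam i)
  exact ((h1.const_mul ((N + 3 : ℕ) : ℝ)).fun_mul h2).fun_add ((hx i).const_mul (2 * c))

-- WWw_le
theorem WWw_le {lam : Fin t → ℝ} (hl : OKlam lam) {B : ℝ} (hB : 0 ≤ B) {p : Fin t → ℝ}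
    (hp : p ∈ cube t B) : WWw lam p ≤ t * B := by
  unfold WWw
  calc ∑ i, lam i * Gam (p i) ≤ ∑ _i : Fin t, B := by
        refine Finset.sum_le_sum fun i _ => ?_
        have h1 : Gam (p i) ≤ B := (Gam_mem hB (hp i)).2
        calc lam i * Gam (p i) ≤ lam i * B := mul_le_mul_of_nonneg_left h1 (hl i).1
          _ ≤ 1 * B := mul_le_mul_of_nonneg_right (hl i).2 hB
          _ = B := one_mul B
    _ = t * B := by simp

-- abs_dFFw_le
theorem abs_dFFw_le {lam : Fin t → ℝ} (hl : OKlam lam) {B : ℝ} (hB : 0 ≤ B) (S0 : ℝ) (N : ℕ)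
    (c : ℝ) {p : Fin t → ℝ} (hp : p ∈ cube t B) (i : Fin t) :
    |dFFw lam S0 N c p i| ≤ LL t S0 N c B := by
  have h0 := LL_parts t S0 N c hB
  have hW : tp (N + 2) (WWw lam p - S0) ≤ tp (N + 2) (t * B - S0) :=
    tp_mono (by linarith [WWw_le hl hB hp])
  have hle : lam i * ee (p i) ≤ Real.exp (B ^ 2 / 2) := by
    calc lam i * ee (p i) ≤ 1 * ee (p i) :=
          mul_le_mul_of_nonneg_right (hl i).2 (ee_pos (p i)).le
      _ = ee (p i) := one_mul _
      _ ≤ _ := ee_le hB (hp i)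
  have hnn : 0 ≤ lam i * ee (p i) := mul_nonneg (hl i).1 (ee_pos (p i)).le
  have h1 : |((N + 3 : ℕ) : ℝ) * tp (N + 2) (WWw lam p - S0) * (lam i * ee (p i))|
      ≤ (N + 3 : ℕ) * tp (N + 2) (t * B - S0) * Real.exp (B ^ 2 / 2) := by
    have ha := tp_nonneg (N + 2) (WWw lam p - S0)
    have hb := tp_nonneg (N + 2) (t * B - S0)
    have hc : (0 : ℝ) ≤ ((N + 3 : ℕ) : ℝ) := Nat.cast_nonneg _
    rw [abs_of_nonneg (mul_nonneg (mul_nonneg hc ha) hnn)]
    exact mul_le_mul (mul_le_mul_of_nonneg_left hW hc) hle hnn (mul_nonneg hc hb)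
  have h2 : |2 * c * p i| ≤ 2 * |c| * Psi B := by
    rw [abs_mul, abs_mul, abs_two]
    have : |p i| ≤ Psi B := abs_le.2 (hp i)
    gcongr
  unfold dFFw LL
  calc _ ≤ _ := abs_add_le _ _
    _ ≤ _ := add_le_add h1 h2
    _ ≤ _ := by linarith [h0.2]

-- abs_hFFw_le
theorem abs_hFFw_le_lamee {lam : Fin t → ℝ} (hl : OKlam lam) {B : ℝ} (hB : 0 ≤ B)
    {p : Fin t → ℝ} (hp : p ∈ cube t B) (i : Fin t) :
    0 ≤ lam i * ee (p i) ∧ lam i * ee (p i) ≤ Real.exp (B ^ 2 / 2) := by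
  have e1 := ee_le hB (hp i)
  have e0 := (ee_pos (p i)).le
  refine ⟨mul_nonneg (hl i).1 e0, ?_⟩
  calc lam i * ee (p i) ≤ 1 * ee (p i) := mul_le_mul_of_nonneg_right (hl i).2 e0
    _ = ee (p i) := one_mul _
    _ ≤ _ := e1

theorem abs_hFFw_le {lam : Fin t → ℝ} (hl : OKlam lam) {B : ℝ} (hB : 0 ≤ B) (S0 : ℝ) (N : ℕ)
    (c : ℝ) {p : Fin t → ℝ} (hp : p ∈ cube t B) (w : Fin t → ℝ) (i : Fin t) :
    |hFFw lam S0 N c p w i| ≤ LL t S0 N c B * ∑ l, |w l| := by
  have h0 := LL_parts t S0 N c hB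
  have hW2 : tp (N + 2) (WWw lam p - S0) ≤ tp (N + 2) (t * B - S0) :=
    tp_mono (by linarith [WWw_le hl hB hp])
  have hW1 : tp (N + 1) (WWw lam p - S0) ≤ tp (N + 1) (t * B - S0) :=
    tp_mono (by linarith [WWw_le hl hB hp])
  have n2 := tp_nonneg (N + 2) (WWw lam p - S0)
  have n1 := tp_nonneg (N + 1) (WWw lam p - S0)
  have m2 := tp_nonneg (N + 2) (t * B - S0)
  have m1 := tp_nonneg (N + 1) (t * B - S0)
  have hs : 0 ≤ ∑ l, |w l| := Finset.sum_nonneg fun l _ => abs_nonneg _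
  have hwi : |w i| ≤ ∑ l, |w l| :=
    Finset.single_le_sum (f := fun l => |w l|) (fun l _ => abs_nonneg _) (Finset.mem_univ i)
  have hE : 0 < Real.exp (B ^ 2 / 2) := Real.exp_pos _
  have hsum : |∑ l, lam l * ee (p l) * w l| ≤ Real.exp (B ^ 2 / 2) * ∑ l, |w l| := by
    rw [Finset.mul_sum]
    refine (Finset.abs_sum_le_sum_abs _ _).trans (Finset.sum_le_sum fun l _ => ?_)
    rw [abs_mul, abs_of_nonneg (abs_hFFw_le_lamee hl hB hp l).1]
    exact mul_le_mul_of_nonneg_right (abs_hFFw_le_lamee hl hB hp l).2 (abs_nonneg _)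
  have e1 := ee_le hB (hp i)
  have e0 := (ee_pos (p i)).le
  have l0 := (abs_hFFw_le_lamee hl hB hp i).1
  have l1 := (abs_hFFw_le_lamee hl hB hp i).2
  have a1 : |((N + 3 : ℕ) : ℝ) * ((N + 2 : ℕ) * tp (N + 1) (WWw lam p - S0) *
      (∑ l, lam l * ee (p l) * w l)) * (lam i * ee (p i))| ≤
      ((N + 3 : ℕ) * ((N + 2 : ℕ) * tp (N + 1) (t * B - S0))
        * Real.exp (B ^ 2 / 2) ^ 2) * ∑ l, |w l| := by
    rw [abs_mul, abs_mul, abs_mul, abs_mul, abs_of_nonneg l0, abs_of_nonneg n1,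
      Nat.abs_cast, Nat.abs_cast]
    calc ((N + 3 : ℕ) : ℝ) * ((N + 2 : ℕ) * tp (N + 1) (WWw lam p - S0) *
        |∑ l, lam l * ee (p l) * w l|) * (lam i * ee (p i)) ≤
        ((N + 3 : ℕ) : ℝ) * ((N + 2 : ℕ) * tp (N + 1) (t * B - S0) *
        (Real.exp (B ^ 2 / 2) * ∑ l, |w l|)) * Real.exp (B ^ 2 / 2) := by gcongr
      _ = _ := by ring
  have a2 : |((N + 3 : ℕ) : ℝ) * tp (N + 2) (WWw lam p - S0) *
      (lam i * (Gam (p i) * ee (p i) ^ 2 * w i))|
      ≤ ((N + 3 : ℕ) * tp (N + 2) (t * B - S0) * (B * Real.exp (B ^ 2 / 2) ^ 2)) *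
        ∑ l, |w l| := by
    have g1 := abs_Gam_le hB (hp i)
    have g2 : |lam i| ≤ 1 := by
      rw [abs_of_nonneg (hl i).1]; exact (hl i).2
    rw [abs_mul, abs_mul, abs_mul, abs_mul, abs_mul, abs_of_nonneg n2, Nat.abs_cast, abs_pow,
      abs_of_nonneg e0]
    calc ((N + 3 : ℕ) : ℝ) * tp (N + 2) (WWw lam p - S0) *
        (|lam i| * (|Gam (p i)| * ee (p i) ^ 2 * |w i|))
      ≤ ((N + 3 : ℕ) : ℝ) * tp (N + 2) (t * B - S0) *
        (1 * (B * Real.exp (B ^ 2 / 2) ^ 2 * ∑ l, |w l|)) := by gcongr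
      _ = _ := by ring
  have a3 : |2 * c * w i| ≤ 2 * |c| * ∑ l, |w l| := by
    rw [abs_mul, abs_mul, abs_two]
    gcongr
  unfold hFFw LL
  calc _ ≤ _ := abs_add_le _ _
    _ ≤ _ := add_le_add ((abs_add_le _ _).trans (add_le_add a1 a2)) a3
    _ ≤ _ := by nlinarith [mul_nonneg h0.1 hs]

-- dFFw_lip
theorem dFFw_lip {lam : Fin t → ℝ} (hl : OKlam lam) {B : ℝ} (hB : 0 ≤ B) (S0 : ℝ) (N : ℕ)
    (c : ℝ) {p q : Fin t → ℝ} (hp : p ∈ cube t B) (hq : q ∈ cube t B) (i : Fin t) :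
    |dFFw lam S0 N c q i - dFFw lam S0 N c p i| ≤ LL t S0 N c B * ∑ l, |q l - p l| := by
  have h := norm_image_sub_le_of_norm_deriv_le_segment_01'
    (f := fun s : ℝ => dFFw lam S0 N c (fun l => p l + s * (q l - p l)) i)
    (f' := fun s => hFFw lam S0 N c (fun l => p l + s * (q l - p l)) (fun l => q l - p l) i)
    (C := LL t S0 N c B * ∑ l, |q l - p l|) ?_ ?_
  · simpa using h
  · intro s hs
    refine HasDerivAt.hasDerivWithinAt ?_
    refine hasDerivAt_dFFw lam hB S0 N c i (x := fun s l => p l + s * (q l - p l)) ?_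
      (segment_mem hp hq hs)
    intro l
    have := ((hasDerivAt_id s).mul_const (q l - p l)).const_add (p l)
    simpa using this
  · intro s hs
    exact abs_hFFw_le hl hB S0 N c (segment_mem hp hq (Ico_subset_Icc_self hs)) _ i

-- FFw_lip
theorem FFw_lip {lam : Fin t → ℝ} (hl : OKlam lam) {B : ℝ} (hB : 0 ≤ B) (S0 : ℝ) (N : ℕ)
    (c : ℝ) {p q : Fin t → ℝ} (hp : p ∈ cube t B) (hq : q ∈ cube t B) :
    |FFw lam S0 N c q - FFw lam S0 N c p| ≤ LL t S0 N c B * ∑ l, |q l - p l| := by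
  have h := norm_image_sub_le_of_norm_deriv_le_segment_01'
    (f := fun s : ℝ => FFw lam S0 N c (fun l => p l + s * (q l - p l)))
    (f' := fun s => ∑ i, dFFw lam S0 N c (fun l => p l + s * (q l - p l)) i * (q i - p i))
    (C := LL t S0 N c B * ∑ l, |q l - p l|) ?_ ?_
  · simpa using h
  · intro s hs
    refine HasDerivAt.hasDerivWithinAt ?_
    refine hasDerivAt_FFw lam hB S0 N c (x := fun s l => p l + s * (q l - p l)) ?_
      (segment_mem hp hq hs)
    intro l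
    have := ((hasDerivAt_id s).mul_const (q l - p l)).const_add (p l)
    simpa using this
  · intro s hs
    rw [Finset.mul_sum]
    refine (norm_sum_le _ _).trans (Finset.sum_le_sum fun l _ => ?_)
    rw [norm_mul]
    exact mul_le_mul_of_nonneg_right
      (abs_dFFw_le hl hB S0 N c (segment_mem hp hq (Ico_subset_Icc_self hs)) l) (norm_nonneg _)

-- FFw_taylor
theorem FFw_taylor {lam : Fin t → ℝ} (hl : OKlam lam) {B : ℝ} (hB : 0 ≤ B) (S0 : ℝ) (N : ℕ)
    (c : ℝ) {p q : Fin t → ℝ} (hp : p ∈ cube t B) (hq : q ∈ cube t B) {ε : ℝ} (hε0 : 0 < ε)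
    (hε1 : ε ≤ 1) :
    FFw lam S0 N c (fun l => p l + ε * (q l - p l)) ≤ FFw lam S0 N c p
      + ε * ∑ i, dFFw lam S0 N c p i * (q i - p i)
      + ε ^ 2 * (LL t S0 N c B * (∑ l, |q l - p l|) ^ 2) := by
  obtain ⟨ξ, hξ, he⟩ := exists_hasDerivAt_eq_slope
    (fun s : ℝ => FFw lam S0 N c (fun l => p l + s * (q l - p l)))
    (fun s => ∑ i, dFFw lam S0 N c (fun l => p l + s * (q l - p l)) i * (q i - p i)) hε0
    (by
      intro s hs
      refine HasDerivAt.continuousAt (f' := ∑ i, dFFw lam S0 N c (fun l => p l + s * (q l - p l)) i *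
        (q i - p i)) ?_ |>.continuousWithinAt
      refine hasDerivAt_FFw lam hB S0 N c (x := fun s l => p l + s * (q l - p l)) ?_
        (segment_mem hp hq ⟨hs.1, hs.2.trans hε1⟩)
      intro l
      have := ((hasDerivAt_id s).mul_const (q l - p l)).const_add (p l)
      simpa using this)
    (by
      intro s hs
      refine hasDerivAt_FFw lam hB S0 N c (x := fun s l => p l + s * (q l - p l)) ?_
        (segment_mem hp hq ⟨hs.1.le, hs.2.le.trans hε1⟩)
      intro l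
      have := ((hasDerivAt_id s).mul_const (q l - p l)).const_add (p l)
      simpa using this)
  have hξ1 : ξ ∈ Icc (0 : ℝ) 1 := ⟨hξ.1.le, hξ.2.le.trans hε1⟩
  have hL := LL_nonneg t S0 N c hB
  have hd : ∑ i, dFFw lam S0 N c (fun l => p l + ξ * (q l - p l)) i * (q i - p i)
      ≤ ∑ i, dFFw lam S0 N c p i * (q i - p i)
        + ε * (LL t S0 N c B * (∑ l, |q l - p l|) ^ 2) := by
    rw [← sub_le_iff_le_add', ← Finset.sum_sub_distrib]
    calc ∑ i, (dFFw lam S0 N c (fun l => p l + ξ * (q l - p l)) i * (q i - p i)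
          - dFFw lam S0 N c p i * (q i - p i))
        ≤ ∑ i, (LL t S0 N c B * (ε * ∑ l, |q l - p l|)) * |q i - p i| := by
          refine Finset.sum_le_sum fun i _ => ?_
          rw [← sub_mul]
          refine (le_abs_self _).trans ?_
          rw [abs_mul]
          refine mul_le_mul_of_nonneg_right ?_ (abs_nonneg _)
          refine (dFFw_lip hl hB S0 N c hp (segment_mem hp hq hξ1) i).trans ?_
          refine mul_le_mul_of_nonneg_left ?_ hL
          rw [Finset.mul_sum]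
          refine Finset.sum_le_sum fun l _ => ?_
          rw [add_sub_cancel_left, abs_mul, abs_of_nonneg hξ1.1]
          exact mul_le_mul_of_nonneg_right hξ.2.le (abs_nonneg _)
      _ = _ := by rw [← Finset.mul_sum]; ring
  have he' : FFw lam S0 N c (fun l => p l + ε * (q l - p l)) - FFw lam S0 N c p
      = ε * ∑ i, dFFw lam S0 N c (fun l => p l + ξ * (q l - p l)) i * (q i - p i) := by
    have h0 : (fun l => p l + (0 : ℝ) * (q l - p l)) = p := by ext l; ring
    rw [h0, sub_zero] at he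
    rw [he]
    field_simp
  have := mul_le_mul_of_nonneg_left hd hε0.le
  nlinarith [this, he']

-- comp_contw
theorem comp_contw_WW (lam : Fin t → ℝ) {X : Type*} [TopologicalSpace X] {B : ℝ} (hB : 0 ≤ B)
    {P : X → Fin t → ℝ} (hP : Continuous P)
    (hp : ∀ r, P r ∈ cube t B) : Continuous (fun r => WWw lam (P r)) := by
  unfold WWw
  exact continuous_finsetSum _ fun i _ =>
    continuous_const.mul (Gam_comp_cont hB ((continuous_apply i).comp hP) (fun r => hp r i))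

theorem comp_contw_tp (lam : Fin t → ℝ) {X : Type*} [TopologicalSpace X] {B : ℝ} (hB : 0 ≤ B)
    (S0 : ℝ) (m : ℕ) {P : X → Fin t → ℝ}
    (hP : Continuous P) (hp : ∀ r, P r ∈ cube t B) :
    Continuous (fun r => tp m (WWw lam (P r) - S0)) :=
  (continuous_tp m).comp ((comp_contw_WW lam hB hP hp).sub continuous_const)

theorem comp_contw (lam : Fin t → ℝ) {X : Type*} [TopologicalSpace X] {B : ℝ} (hB : 0 ≤ B)
    (S0 : ℝ) (N : ℕ) (c : ℝ) {P : X → Fin t → ℝ} (hP : Continuous P)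
    (hp : ∀ r, P r ∈ cube t B) : Continuous (fun r => FFw lam S0 N c (P r)) ∧
    (∀ i, Continuous (fun r => dFFw lam S0 N c (P r) i)) ∧
    ∀ (D : X → Fin t → ℝ), Continuous D → ∀ i,
      Continuous (fun r => hFFw lam S0 N c (P r) (D r) i) := by
  have h1 := comp_contw_tp lam hB S0 (N + 2) hP hp
  have h0 := comp_contw_tp lam hB S0 (N + 1) hP hp
  refine ⟨?_, fun i => ?_, fun D hD i => ?_⟩
  · unfold FFw
    refine (comp_contw_tp lam hB S0 _ hP hp).add (continuous_const.mul ?_)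
    exact continuous_finsetSum _ fun i _ => ((continuous_apply i).comp hP).pow 2
  · unfold dFFw
    have h2 := ee_comp_cont hB ((continuous_apply i).comp hP) (fun r => hp r i)
    have h3 := (continuous_apply i).comp hP
    exact ((continuous_const.mul h1).mul (continuous_const.mul h2)).add (continuous_const.mul h3)
  · unfold hFFw
    have h2 := ee_comp_cont hB ((continuous_apply i).comp hP) (fun r => hp r i)
    have h3 := (continuous_apply i).comp hD
    have h4 := Gam_comp_cont hB ((continuous_apply i).comp hP) (fun r => hp r i)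
    have h5 : Continuous (fun r => ∑ l, lam l * ee (P r l) * D r l) :=
      continuous_finsetSum _ fun l _ =>
        (continuous_const.mul
          (ee_comp_cont hB ((continuous_apply l).comp hP) (fun r => hp r l))).mul
          ((continuous_apply l).comp hD)
    exact (((continuous_const.mul ((continuous_const.mul h0).mul h5)).mul
        (continuous_const.mul h2)).add
      ((continuous_const.mul h1).mul (continuous_const.mul ((h4.mul (h2.pow 2)).mul h3)))).add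
      (continuous_const.mul h3)

end Mf

section Mf2
variable {t : ℕ} {E : Type*} [NormedAddCommGroup E] [InnerProductSpace ℝ E]

-- psd_corew
theorem psd_corew (ht : 1 ≤ t) (β : Fin t → ℝ) (z : Fin t → E) (Q : ℝ) (B S0 δ Nn κ0 : ℝ)
    (hB : 0 ≤ B) (hb : ∀ i, |β i| ≤ B) (hS : 0 < S0) (hW : S0 ≤ ∑ i, β i) (hδ : 0 ≤ δ)
    (hNn : 0 ≤ Nn) (hQ : κ0 * ∑ i, ‖z i - (1 / (t : ℝ)) • ∑ l, z l‖ ^ 2 ≤ Q)
    (hN : δ * (B + B ^ 2 * t / S0) ≤ Nn * κ0) :
    0 ≤ Nn * Q + δ * ∑ i, β i * ‖z i‖ ^ 2 := by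
  have ht2 : (1 : ℝ) ≤ t := by exact_mod_cast ht
  have ht0 : (0 : ℝ) < t := by linarith
  set zb : E := (1 / (t : ℝ)) • ∑ i, z i with hzb
  set v : Fin t → E := fun i => z i - zb with hv
  have hzi : ∀ i, ‖z i‖ ^ 2 = ‖v i‖ ^ 2 + 2 * ⟪v i, zb⟫ + ‖zb‖ ^ 2 := by
    intro i
    have : z i = v i + zb := by simp [hv]
    rw [this, norm_add_sq_real]
  set V := ∑ i, ‖v i‖ ^ 2 with hV
  have hV0 : 0 ≤ V := Finset.sum_nonneg fun i _ => sq_nonneg _
  set u : E := ∑ i, β i • v i with hu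
  have h3 : ∑ i, β i * ‖z i‖ ^ 2 = ∑ i, β i * ‖v i‖ ^ 2 + 2 * ⟪u, zb⟫ + (∑ i, β i) * ‖zb‖ ^ 2 := by
    have : ⟪u, zb⟫ = ∑ i, β i * ⟪v i, zb⟫ := by
      rw [hu, sum_inner]
      exact Finset.sum_congr rfl fun i _ => real_inner_smul_left _ _ _
    rw [this, Finset.mul_sum, Finset.sum_mul, ← Finset.sum_add_distrib, ← Finset.sum_add_distrib]
    refine Finset.sum_congr rfl fun i _ => ?_
    rw [hzi]; ring
  have h4 : -(B * V) ≤ ∑ i, β i * ‖v i‖ ^ 2 := by
    rw [hV, Finset.mul_sum, ← Finset.sum_neg_distrib]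
    refine Finset.sum_le_sum fun i _ => ?_
    have := (abs_le.1 (hb i)).1
    nlinarith [sq_nonneg ‖v i‖]
  have h5 : ‖u‖ ^ 2 ≤ B ^ 2 * t * V := by
    have e1 : ‖u‖ ≤ B * ∑ i, ‖v i‖ := by
      rw [hu, Finset.mul_sum]
      refine (norm_sum_le _ _).trans (Finset.sum_le_sum fun i _ => ?_)
      rw [norm_smul]
      exact mul_le_mul_of_nonneg_right (hb i) (norm_nonneg _)
    have e2 : (∑ i, ‖v i‖) ^ 2 ≤ t * V := by
      have := sq_sum_le_card_mul_sum_sq (s := (Finset.univ : Finset (Fin t)))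
        (f := fun i => ‖v i‖)
      simpa using this
    have e3 : 0 ≤ ∑ i, ‖v i‖ := Finset.sum_nonneg fun i _ => norm_nonneg _
    calc ‖u‖ ^ 2 ≤ (B * ∑ i, ‖v i‖) ^ 2 := pow_le_pow_left₀ (norm_nonneg _) e1 2
      _ = B ^ 2 * (∑ i, ‖v i‖) ^ 2 := by ring
      _ ≤ B ^ 2 * (t * V) := mul_le_mul_of_nonneg_left e2 (sq_nonneg _)
      _ = _ := by ring
  have h6 : -(‖u‖ ^ 2 / S0 + S0 * ‖zb‖ ^ 2) ≤ 2 * ⟪u, zb⟫ := by
    have e1 := abs_real_inner_le_norm u zb
    have e2 := (abs_le.1 e1).1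
    have e3 : 2 * (‖u‖ * ‖zb‖) ≤ ‖u‖ ^ 2 / S0 + S0 * ‖zb‖ ^ 2 := by
      have : ‖u‖ ^ 2 / S0 + S0 * ‖zb‖ ^ 2 - 2 * (‖u‖ * ‖zb‖) = (‖u‖ - S0 * ‖zb‖) ^ 2 / S0 := by
        field_simp
        ring
      have h0 : 0 ≤ (‖u‖ - S0 * ‖zb‖) ^ 2 / S0 := by positivity
      linarith
    linarith
  have h7 : ‖u‖ ^ 2 / S0 ≤ B ^ 2 * t / S0 * V := by
    rw [div_mul_eq_mul_div]
    exact div_le_div_of_nonneg_right h5 hS.le
  have h8 : -((B + B ^ 2 * t / S0) * V) ≤ ∑ i, β i * ‖z i‖ ^ 2 := by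
    rw [h3]
    have : S0 * ‖zb‖ ^ 2 ≤ (∑ i, β i) * ‖zb‖ ^ 2 := mul_le_mul_of_nonneg_right hW (sq_nonneg _)
    linarith
  have h11 : Nn * (κ0 * V) ≤ Nn * Q := mul_le_mul_of_nonneg_left hQ hNn
  have h12 : δ * -((B + B ^ 2 * t / S0) * V) ≤ δ * ∑ i, β i * ‖z i‖ ^ 2 :=
    mul_le_mul_of_nonneg_left h8 hδ
  have h13 : δ * (B + B ^ 2 * t / S0) * V ≤ Nn * κ0 * V := mul_le_mul_of_nonneg_right hN hV0
  nlinarith

-- coer_vec
theorem coer_vec_norm [FiniteDimensional ℝ E] (v : E) :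
    ‖v‖ ^ 2 = ∑ k, ⟪stdOrthonormalBasis ℝ E k, v⟫ ^ 2 := by
  rw [← (stdOrthonormalBasis ℝ E).sum_sq_norm_inner_right v]
  refine Finset.sum_congr rfl fun k _ => ?_
  rw [Real.norm_eq_abs, sq_abs]

theorem coer_vec_inner [FiniteDimensional ℝ E] (u v : E) :
    ⟪u, v⟫ = ∑ k, ⟪stdOrthonormalBasis ℝ E k, u⟫ * ⟪stdOrthonormalBasis ℝ E k, v⟫ := by
  rw [← (stdOrthonormalBasis ℝ E).sum_inner_mul_inner u v]
  refine Finset.sum_congr rfl fun k _ => ?_
  rw [real_inner_comm]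

theorem coer_vec_sum (b : Fin t → ℝ) (x : Fin t → E) :
    ‖∑ i, b i • x i‖ ^ 2 = ∑ i, ∑ l, ⟪x i, x l⟫ * (b i * b l) := by
  rw [← real_inner_self_eq_norm_sq, sum_inner]
  refine Finset.sum_congr rfl fun i _ => ?_
  rw [inner_sum]
  refine Finset.sum_congr rfl fun l _ => ?_
  rw [real_inner_smul_left, real_inner_smul_right]
  ring

theorem coer_vec [FiniteDimensional ℝ E] (lam : Fin t → ℝ) (x : Fin t → E) {κ0 : ℝ}
    (h : ∀ a : Fin t → ℝ, κ0 * ∑ i, (a i - (∑ l, a l) / t) ^ 2 ≤ ‖∑ i, (lam i * a i) • x i‖ ^ 2)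
    (z : Fin t → E) : κ0 * ∑ i, ‖z i - (1 / (t : ℝ)) • ∑ l, z l‖ ^ 2
      ≤ ∑ i, ∑ l, ⟪x i, x l⟫ * ⟪lam i • z i, lam l • z l⟫ := by
  have h1 : ∀ k, κ0 * ∑ i, (⟪stdOrthonormalBasis ℝ E k, z i⟫
      - (∑ l, ⟪stdOrthonormalBasis ℝ E k, z l⟫) / t) ^ 2
      ≤ ∑ i, ∑ l, ⟪x i, x l⟫ * ((lam i * ⟪stdOrthonormalBasis ℝ E k, z i⟫)
        * (lam l * ⟪stdOrthonormalBasis ℝ E k, z l⟫)) := by
    intro k
    have := h (fun i => ⟪stdOrthonormalBasis ℝ E k, z i⟫)
    rwa [coer_vec_sum] at this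
  have h2 := Finset.sum_le_sum (s := Finset.univ) fun k _ => h1 k
  have e1 : κ0 * ∑ i, ‖z i - (1 / (t : ℝ)) • ∑ l, z l‖ ^ 2
      = ∑ k, κ0 * ∑ i, (⟪stdOrthonormalBasis ℝ E k, z i⟫
      - (∑ l, ⟪stdOrthonormalBasis ℝ E k, z l⟫) / t) ^ 2 := by
    rw [← Finset.mul_sum, Finset.sum_comm]
    congr 1
    refine Finset.sum_congr rfl fun i _ => ?_
    rw [coer_vec_norm]
    refine Finset.sum_congr rfl fun k _ => ?_
    rw [inner_sub_right, real_inner_smul_right, inner_sum]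
    congr 2
    ring
  have e2 : ∑ i, ∑ l, ⟪x i, x l⟫ * ⟪lam i • z i, lam l • z l⟫
      = ∑ k, ∑ i, ∑ l, ⟪x i, x l⟫ * ((lam i * ⟪stdOrthonormalBasis ℝ E k, z i⟫)
        * (lam l * ⟪stdOrthonormalBasis ℝ E k, z l⟫)) := by
    symm
    rw [Finset.sum_comm]
    refine Finset.sum_congr rfl fun i _ => ?_
    rw [Finset.sum_comm]
    refine Finset.sum_congr rfl fun l _ => ?_
    symm
    rw [coer_vec_inner (lam i • z i), Finset.mul_sum]
    refine Finset.sum_congr rfl fun k _ => ?_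
    rw [real_inner_smul_right, real_inner_smul_right]
  rw [e1, e2]
  exact h2

-- hess_lowerw
theorem hess_lowerw_sum (lam : Fin t → ℝ) (S0 : ℝ) (N : ℕ) (c : ℝ) (p w : Fin t → ℝ) :
    ∑ i, hFFw lam S0 N c p w i * w i
      = (N + 3 : ℕ) * ((N + 2 : ℕ) * tp (N + 1) (WWw lam p - S0)) *
          (∑ l, lam l * (ee (p l) * w l)) ^ 2
        + (N + 3 : ℕ) * tp (N + 2) (WWw lam p - S0) *
          (∑ i, lam i * Gam (p i) * (ee (p i) * w i) ^ 2)
        + 2 * c * ∑ i, w i ^ 2 := by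
  unfold hFFw
  have e0 : ∑ l, lam l * ee (p l) * w l = ∑ l, lam l * (ee (p l) * w l) :=
    Finset.sum_congr rfl fun l _ => by ring
  rw [e0]
  have e1 : ∀ i, ((N + 3 : ℕ) * ((N + 2 : ℕ) * tp (N + 1) (WWw lam p - S0) *
        (∑ l, lam l * (ee (p l) * w l))) * (lam i * ee (p i))
      + (N + 3 : ℕ) * tp (N + 2) (WWw lam p - S0) * (lam i * (Gam (p i) * ee (p i) ^ 2 * w i))
      + 2 * c * w i) * w i
      = ((N + 3 : ℕ) * ((N + 2 : ℕ) * tp (N + 1) (WWw lam p - S0)) *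
          (∑ l, lam l * (ee (p l) * w l))) * (lam i * (ee (p i) * w i))
        + (N + 3 : ℕ) * tp (N + 2) (WWw lam p - S0) * (lam i * Gam (p i) * (ee (p i) * w i) ^ 2)
        + 2 * c * w i ^ 2 := by
    intro i; ring
  simp only [e1, Finset.sum_add_distrib, ← Finset.mul_sum]
  ring

theorem hess_lowerw [FiniteDimensional ℝ E] (ht : 1 ≤ t) {lam : Fin t → ℝ} (hl : OKlam lam)
    {n : ℕ} (e : OrthonormalBasis (Fin n) ℝ E) {B S0 c κ0 : ℝ} {N : ℕ}
    (hB : 0 ≤ B) (hS : 0 < S0) (hκ : 0 < κ0) (hN : t * B * (B + B ^ 2 * t / S0) ≤ N * κ0)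
    {p : Fin t → ℝ} (hp : p ∈ cube t B) (x y : Fin t → E) (hx : ∀ i, ‖x i‖ = 1)
    (hco : ∀ a : Fin t → ℝ, κ0 * ∑ i, (a i - (∑ l, a l) / t) ^ 2
      ≤ ‖∑ i, (lam i * a i) • x i‖ ^ 2) (hxy : ∀ i, ⟪x i, y i⟫ = 0) :
    4 * c * ∑ i, ‖y i‖ ^ 2 - 2 * KK t S0 N B * ∑ i, ∑ l, ⟪x i, y l⟫ ^ 2
      ≤ ∑ a, ∑ b, ∑ i, hFFw lam S0 N c p (fun i => DD e a b (x i) (y i)) i *
        DD e a b (x i) (y i) := by
  have ht2 : (1 : ℝ) ≤ t := by exact_mod_cast ht
  have ht0 : (0 : ℝ) < t := by linarith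
  set z : Fin t → E := fun i => ee (p i) • y i with hz
  set u : Fin t → E := fun i => lam i • z i with hu
  have hDz : ∀ a b i, ee (p i) * DD e a b (x i) (y i) = DD e a b (x i) (z i) := by
    intro a b i
    simp only [DD, hz, real_inner_smul_right]
    ring
  have hDu : ∀ a b i, lam i * DD e a b (x i) (z i) = DD e a b (x i) (u i) := by
    intro a b i
    simp only [DD, hu, real_inner_smul_right]
    ring
  have hq : ∀ a b, ∑ i, hFFw lam S0 N c p (fun i => DD e a b (x i) (y i)) i *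
        DD e a b (x i) (y i)
      = (N + 3 : ℕ) * ((N + 2 : ℕ) * tp (N + 1) (WWw lam p - S0)) *
          (∑ l, ∑ l', DD e a b (x l) (u l) * DD e a b (x l') (u l'))
        + (N + 3 : ℕ) * tp (N + 2) (WWw lam p - S0) *
          (∑ i, lam i * Gam (p i) * (DD e a b (x i) (z i) * DD e a b (x i) (z i)))
        + 2 * c * ∑ i, DD e a b (x i) (y i) * DD e a b (x i) (y i) := by
    intro a b
    rw [hess_lowerw_sum]
    simp only [hDz, hDu]
    congr 2
    · congr 1
      rw [sq, Finset.sum_mul_sum]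
    · congr 1
      exact Finset.sum_congr rfl fun i _ => by ring
    · exact Finset.sum_congr rfl fun i _ => by ring
  have hlin : ∀ (A1 A2 A3 : ℝ) (P R T : Fin n → Fin n → ℝ),
      ∑ a, ∑ b, (A1 * P a b + A2 * R a b + A3 * T a b)
        = A1 * (∑ a, ∑ b, P a b) + A2 * (∑ a, ∑ b, R a b) + A3 * (∑ a, ∑ b, T a b) := by
    intro A1 A2 A3 P R T
    simp only [Finset.sum_add_distrib, ← Finset.mul_sum]
  simp only [hq]
  rw [hlin]
  have s1 : ∑ a, ∑ b, ∑ l, ∑ l', DD e a b (x l) (u l) * DD e a b (x l') (u l')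
      = 2 * (∑ l, ∑ l', (⟪x l, x l'⟫ * ⟪u l, u l'⟫ - ⟪x l, u l'⟫ * ⟪u l, x l'⟫)) := by
    calc ∑ a, ∑ b, ∑ l, ∑ l', DD e a b (x l) (u l) * DD e a b (x l') (u l')
        = ∑ l, ∑ l', ∑ a, ∑ b, DD e a b (x l) (u l) * DD e a b (x l') (u l') := by
          have c1 : ∀ a, ∑ b, ∑ l, ∑ l', DD e a b (x l) (u l) * DD e a b (x l') (u l')
              = ∑ l, ∑ l', ∑ b, DD e a b (x l) (u l) * DD e a b (x l') (u l') := by
            intro a
            rw [Finset.sum_comm]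
            refine Finset.sum_congr rfl fun l _ => ?_
            rw [Finset.sum_comm]
          simp only [c1]
          rw [Finset.sum_comm]
          refine Finset.sum_congr rfl fun l _ => ?_
          rw [Finset.sum_comm]
      _ = _ := by
          rw [Finset.mul_sum]
          refine Finset.sum_congr rfl fun l _ => ?_
          rw [Finset.mul_sum]
          refine Finset.sum_congr rfl fun l' _ => ?_
          rw [sum_DD_mul]
  have s2 : ∑ a, ∑ b, ∑ i, lam i * Gam (p i) * (DD e a b (x i) (z i) * DD e a b (x i) (z i))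
      = 2 * ∑ i, lam i * Gam (p i) * ‖z i‖ ^ 2 := by
    have c1 : ∀ a, ∑ b, ∑ i, lam i * Gam (p i) * (DD e a b (x i) (z i) * DD e a b (x i) (z i))
        = ∑ i, ∑ b, lam i * Gam (p i) * (DD e a b (x i) (z i) * DD e a b (x i) (z i)) := by
      intro a; rw [Finset.sum_comm]
    simp only [c1]
    rw [Finset.sum_comm, Finset.mul_sum]
    refine Finset.sum_congr rfl fun i _ => ?_
    simp only [← Finset.mul_sum]
    rw [sum_DD_mul]
    have hxz : ⟪x i, z i⟫ = 0 := by simp [hz, real_inner_smul_right, hxy]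
    rw [hxz, real_inner_self_eq_norm_sq, real_inner_self_eq_norm_sq, hx]
    ring
  have s3 : ∑ a, ∑ b, ∑ i, DD e a b (x i) (y i) * DD e a b (x i) (y i)
      = 2 * ∑ i, ‖y i‖ ^ 2 := by
    have c1 : ∀ a, ∑ b, ∑ i, (DD e a b (x i) (y i) * DD e a b (x i) (y i))
        = ∑ i, ∑ b, (DD e a b (x i) (y i) * DD e a b (x i) (y i)) := by
      intro a; rw [Finset.sum_comm]
    simp only [c1]
    rw [Finset.sum_comm, Finset.mul_sum]
    refine Finset.sum_congr rfl fun i _ => ?_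
    rw [sum_DD_mul, hxy, real_inner_self_eq_norm_sq, real_inner_self_eq_norm_sq, hx]
    ring
  rw [s1, s2, s3]
  have hQ := coer_vec lam x hco z
  have hcross : ∑ l, ∑ l', ⟪x l, u l'⟫ * ⟪u l, x l'⟫
      ≤ Real.exp (B ^ 2 / 2) ^ 2 * ∑ i, ∑ l, ⟪x i, y l⟫ ^ 2 := by
    have h1 : ∑ l, ∑ l', ⟪x l, u l'⟫ * ⟪u l, x l'⟫ ≤ ∑ l, ∑ l', ⟪x l, u l'⟫ ^ 2 := by
      have h2 : ∀ l l', ⟪x l, u l'⟫ * ⟪u l, x l'⟫ ≤ (⟪x l, u l'⟫ ^ 2 + ⟪x l', u l⟫ ^ 2) / 2 := by
        intro l l'
        rw [real_inner_comm (x l') (u l)]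
        nlinarith [sq_nonneg (⟪x l, u l'⟫ - ⟪x l', u l⟫)]
      calc ∑ l, ∑ l', ⟪x l, u l'⟫ * ⟪u l, x l'⟫
          ≤ ∑ l, ∑ l', (⟪x l, u l'⟫ ^ 2 + ⟪x l', u l⟫ ^ 2) / 2 :=
            Finset.sum_le_sum fun l _ => Finset.sum_le_sum fun l' _ => h2 l l'
        _ = _ := by
            simp only [add_div, Finset.sum_add_distrib]
            rw [Finset.sum_comm (f := fun l l' => ⟪x l', u l⟫ ^ 2 / 2)]
            simp only [← Finset.sum_div]
            ring
    refine h1.trans ?_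
    rw [Finset.mul_sum]
    refine Finset.sum_le_sum fun i _ => ?_
    rw [Finset.mul_sum]
    refine Finset.sum_le_sum fun l _ => ?_
    simp only [hu, hz, real_inner_smul_right, mul_pow]
    have h3 : lam l ^ 2 ≤ 1 := pow_le_one₀ (hl l).1 (hl l).2
    have h4 : ee (p l) ^ 2 * ⟪x i, y l⟫ ^ 2 ≤ Real.exp (B ^ 2 / 2) ^ 2 * ⟪x i, y l⟫ ^ 2 :=
      mul_le_mul_of_nonneg_right
        (pow_le_pow_left₀ (ee_pos _).le (ee_le hB (hp l)) 2) (sq_nonneg _)
    have h5 : 0 ≤ ee (p l) ^ 2 * ⟪x i, y l⟫ ^ 2 := by positivity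
    calc lam l ^ 2 * (ee (p l) ^ 2 * ⟪x i, y l⟫ ^ 2)
        ≤ 1 * (ee (p l) ^ 2 * ⟪x i, y l⟫ ^ 2) := mul_le_mul_of_nonneg_right h3 h5
      _ ≤ _ := by rw [one_mul]; exact h4
  simp only [Finset.sum_sub_distrib]
  set Q : ℝ := ∑ l, ∑ l', ⟪x l, x l'⟫ * ⟪u l, u l'⟫ with hQdef
  have hQ' : κ0 * ∑ i, ‖z i - (1 / (t : ℝ)) • ∑ l, z l‖ ^ 2 ≤ Q := hQ
  set T : ℝ := ∑ i, ∑ l, ⟪x i, y l⟫ ^ 2 with hT
  have hT0 : 0 ≤ T := Finset.sum_nonneg fun i _ => Finset.sum_nonneg fun l _ => sq_nonneg _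
  rcases le_total (WWw lam p) S0 with hW | hW
  · have z1 : tp (N + 1) (WWw lam p - S0) = 0 := tp_of_nonpos (by omega) (by linarith)
    have z2 : tp (N + 2) (WWw lam p - S0) = 0 := tp_of_nonpos (by omega) (by linarith)
    rw [z1, z2]
    have := KK_nonneg t S0 N B
    nlinarith [mul_nonneg this hT0]
  · have z2 : tp (N + 2) (WWw lam p - S0) = (WWw lam p - S0) * tp (N + 1) (WWw lam p - S0) := by
      rw [show N + 2 = N + 2 from rfl, tp_succ]
    have hWB := WWw_le hl hB hp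
    have hb : ∀ i, |lam i * Gam (p i)| ≤ B := by
      intro i
      rw [abs_mul, abs_of_nonneg (hl i).1]
      calc lam i * |Gam (p i)| ≤ 1 * |Gam (p i)| :=
            mul_le_mul_of_nonneg_right (hl i).2 (abs_nonneg _)
        _ ≤ B := by rw [one_mul]; exact abs_Gam_le hB (hp i)
    have hpsd := psd_corew ht (fun i => lam i * Gam (p i)) z Q B S0 (WWw lam p - S0)
      (N + 2 : ℕ) κ0 hB hb hS hW (by linarith) (by positivity) hQ' (by
        have h1 : (WWw lam p - S0) * (B + B ^ 2 * t / S0) ≤ (t * B) * (B + B ^ 2 * t / S0) :=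
          mul_le_mul_of_nonneg_right (by linarith) (by positivity)
        push_cast
        nlinarith)
    have hmono : tp (N + 1) (WWw lam p - S0) ≤ tp (N + 1) (t * B - S0) := tp_mono (by linarith)
    have n1 := tp_nonneg (N + 1) (WWw lam p - S0)
    set Tq := tp (N + 1) (WWw lam p - S0) with hTq
    rw [z2]
    have hK : (N + 3 : ℕ) * ((N + 2 : ℕ) * Tq) * (∑ l, ∑ l', ⟪x l, u l'⟫ * ⟪u l, x l'⟫)
        ≤ KK t S0 N B * T := by
      calc (N + 3 : ℕ) * ((N + 2 : ℕ) * Tq) * (∑ l, ∑ l', ⟪x l, u l'⟫ * ⟪u l, x l'⟫)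
          ≤ (N + 3 : ℕ) * ((N + 2 : ℕ) * Tq) * (Real.exp (B ^ 2 / 2) ^ 2 * T) :=
            mul_le_mul_of_nonneg_left hcross (by positivity)
        _ ≤ (N + 3 : ℕ) * ((N + 2 : ℕ) * tp (N + 1) (t * B - S0)) *
            (Real.exp (B ^ 2 / 2) ^ 2 * T) := by gcongr
        _ = KK t S0 N B * T := by unfold KK; ring
    have hpos : 0 ≤ (N + 3 : ℕ) * Tq * ((N + 2 : ℕ) * Q
        + (WWw lam p - S0) * ∑ i, lam i * Gam (p i) * ‖z i‖ ^ 2) := by positivity
    nlinarith [hK, hpos]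

end Mf2

section Mf3
variable {t : ℕ} {E : Type*} [NormedAddCommGroup E] [InnerProductSpace ℝ E] [CompleteSpace E]
  [FiniteDimensional ℝ E]

/-- the values at the points `g (s i)` of several functions -/
noncomputable def valw (s : Fin t → SS E) (ψ : Fin t → VV E) (g : UG E) : Fin t → ℝ :=
  fun i => (ψ i (sa g (s i))).1

theorem valw_cont (s : Fin t → SS E) (ψ : Fin t → VV E) : Continuous (valw s ψ) :=
  continuous_pi fun i => continuous_fst.comp ((ψ i).continuous.comp (sa_continuous_left (s i)))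

/-- the functional -/
noncomputable def PhiFw (lam : Fin t → ℝ) (S0 : ℝ) (N : ℕ) (c : ℝ) (s : Fin t → SS E)
    (ψ : Fin t → VV E) : ℝ := ∫ g, FFw lam S0 N c (valw s ψ g) ∂(hm E)

-- critw
theorem critw_FF_comp_cont (lam : Fin t → ℝ) {B : ℝ} (hB : 0 ≤ B) (S0 : ℝ) (N : ℕ) (c : ℝ)
    {P : UG E → Fin t → ℝ} (hP : Continuous P) (hp : ∀ r, P r ∈ cube t B) :
    Continuous (fun r => FFw lam S0 N c (P r)) := (comp_contw lam hB S0 N c hP hp).1

theorem critw_dFF_comp_cont (lam : Fin t → ℝ) {B : ℝ} (hB : 0 ≤ B) (S0 : ℝ) (N : ℕ) (c : ℝ)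
    {P : UG E → Fin t → ℝ} (hP : Continuous P) (hp : ∀ r, P r ∈ cube t B) (i : Fin t) :
    Continuous (fun r => dFFw lam S0 N c (P r) i) := (comp_contw lam hB S0 N c hP hp).2.1 i

theorem critw_first_order {lam : Fin t → ℝ} (hl : OKlam lam) {B : ℝ} (hB : 0 ≤ B) (S0 : ℝ) (N : ℕ) (c : ℝ) {P Q : UG E → Fin t → ℝ}
    (hP : Continuous P) (hp : ∀ r, P r ∈ cube t B) (hQ : Continuous Q) (hq : ∀ r, Q r ∈ cube t B)
    (hmin : ∀ τ : ℝ, 0 < τ → τ ≤ 1 → ∫ g, FFw lam S0 N c (P g) ∂(hm E)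
      ≤ ∫ g, FFw lam S0 N c (fun l => P g l + τ * (Q g l - P g l)) ∂(hm E)) :
    0 ≤ ∫ g, ∑ i, dFFw lam S0 N c (P g) i * (Q g i - P g i) ∂(hm E) := by
  set I := ∫ g, ∑ i, dFFw lam S0 N c (P g) i * (Q g i - P g i) ∂(hm E) with hI
  set C := LL t S0 N c B * (∑ _l : Fin t, 2 * Psi B) ^ 2 with hC
  have hL := LL_nonneg t S0 N c hB
  have hPs : 0 ≤ Psi B := by
    rw [← Psi_zero]; exact Psi_strictMono.monotone hB
  have hc1 : Continuous (fun g => ∑ i, dFFw lam S0 N c (P g) i * (Q g i - P g i)) :=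
    continuous_finsetSum _ fun i _ => (critw_dFF_comp_cont lam hB S0 N c hP hp i).mul
      (((continuous_apply i).comp hQ).sub ((continuous_apply i).comp hP))
  have hc2 : Continuous (fun g => FFw lam S0 N c (P g)) := critw_FF_comp_cont lam hB S0 N c hP hp
  have key : ∀ τ : ℝ, 0 < τ → τ ≤ 1 → 0 ≤ I + τ * C := by
    intro τ h0 h1
    have h2 := hmin τ h0 h1
    have h3 : ∫ g, FFw lam S0 N c (fun l => P g l + τ * (Q g l - P g l)) ∂(hm E)
        ≤ ∫ g, (FFw lam S0 N c (P g) + τ * (∑ i, dFFw lam S0 N c (P g) i * (Q g i - P g i)) + τ ^ 2 * C)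
          ∂(hm E) := by
      refine integral_mono ?_ ?_ ?_
      · refine hm_integrable (critw_FF_comp_cont lam hB S0 N c
          (P := fun g l => P g l + τ * (Q g l - P g l)) ?_ ?_)
        · exact continuous_pi fun l => ((continuous_apply l).comp hP).add (continuous_const.mul
            (((continuous_apply l).comp hQ).sub ((continuous_apply l).comp hP)))
        · intro g
          exact segment_mem (hp g) (hq g) ⟨h0.le, h1⟩
      · exact hm_integrable ((hc2.add (continuous_const.mul hc1)).add continuous_const)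
      · intro g
        refine (FFw_taylor hl hB S0 N c (hp g) (hq g) h0 h1).trans ?_
        have : (∑ l, |Q g l - P g l|) ^ 2 ≤ (∑ _l : Fin t, 2 * Psi B) ^ 2 := by
          refine pow_le_pow_left₀ (Finset.sum_nonneg fun l _ => abs_nonneg _)
            (Finset.sum_le_sum fun l _ => ?_) 2
          have a1 := hp g l
          have a2 := hq g l
          rw [abs_le]
          constructor <;> linarith [a1.1, a1.2, a2.1, a2.2]
        have h5 := mul_le_mul_of_nonneg_left this hL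
        have h6 := mul_le_mul_of_nonneg_left h5 (sq_nonneg τ)
        simp only [hC]
        linarith
    have hc3 : Continuous (fun g => τ * ∑ i, dFFw lam S0 N c (P g) i * (Q g i - P g i)) :=
      continuous_const.mul hc1
    have hc4 : Continuous (fun g => FFw lam S0 N c (P g)
        + τ * ∑ i, dFFw lam S0 N c (P g) i * (Q g i - P g i)) := hc2.add hc3
    rw [integral_add (hm_integrable hc4) (integrable_const _),
      integral_add (hm_integrable hc2) (hm_integrable hc3), integral_const_mul] at h3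
    simp only [integral_const, probReal_univ, one_smul] at h3
    have h4 : 0 ≤ τ * (I + τ * C) := by
      have e : τ * (I + τ * C) = τ * I + τ ^ 2 * C := by ring
      rw [e]
      linarith
    exact nonneg_of_mul_nonneg_right h4 h0
  have hlim : Tendsto (fun τ : ℝ => I + τ * C) (𝓝[>] 0) (𝓝 (I + 0 * C)) := by
    have : Continuous (fun τ : ℝ => I + τ * C) := by fun_prop
    exact this.continuousAt.tendsto.mono_left nhdsWithin_le_nhds
  rw [zero_mul, add_zero] at hlim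
  refine ge_of_tendsto hlim ?_
  filter_upwards [Ioo_mem_nhdsGT (zero_lt_one' ℝ)] with τ hτ
  exact key τ hτ.1 hτ.2.le

theorem critw {lam : Fin t → ℝ} (hl : OKlam lam) {B : ℝ} (hB : 0 ≤ B) (S0 : ℝ) (N : ℕ) (c : ℝ)
    {P : UG E → Fin t → ℝ} (hP : Continuous P) (hp : ∀ r, P r ∈ cube t B) (R : UG E)
    (hmin : ∀ τ : ℝ, 0 < τ → τ ≤ 1 → ∫ g, FFw lam S0 N c (P g) ∂(hm E)
      ≤ ∫ g, FFw lam S0 N c (fun l => P g l + τ * ((P (R * g) l + P (R⁻¹ * g) l) / 2 - P g l))
        ∂(hm E)) :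
    ∫ g, ∑ i, (dFFw lam S0 N c (P (R * g)) i - dFFw lam S0 N c (P g) i) *
      (P (R * g) i - P g i) ∂(hm E) ≤ 0 := by
  have hPR : ∀ h : UG E, Continuous (fun g => P (h * g)) := fun h =>
    hP.comp (continuous_const.mul continuous_id)
  have h1 := critw_first_order hl hB S0 N c hP hp (Q := fun g l => (P (R * g) l + P (R⁻¹ * g) l) / 2)
    (continuous_pi fun l => ((((continuous_apply l).comp (hPR R))).add
      ((continuous_apply l).comp (hPR R⁻¹))).div_const 2)
    (by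
      intro g l
      have a1 := hp (R * g) l
      have a2 := hp (R⁻¹ * g) l
      constructor <;> linarith [a1.1, a1.2, a2.1, a2.2])
    hmin
  have c1 : Continuous (fun g => ∑ i, dFFw lam S0 N c (P g) i * (P (R * g) i - P g i)) :=
    continuous_finsetSum _ fun i _ => (critw_dFF_comp_cont lam hB S0 N c hP hp i).mul
      (((continuous_apply i).comp (hPR R)).sub ((continuous_apply i).comp hP))
  have c2 : Continuous (fun g => ∑ i, dFFw lam S0 N c (P g) i * (P (R⁻¹ * g) i - P g i)) :=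
    continuous_finsetSum _ fun i _ => (critw_dFF_comp_cont lam hB S0 N c hP hp i).mul
      (((continuous_apply i).comp (hPR R⁻¹)).sub ((continuous_apply i).comp hP))
  have h2 : ∫ g, ∑ i, dFFw lam S0 N c (P g) i * (P (R⁻¹ * g) i - P g i) ∂(hm E)
      = ∫ g, ∑ i, dFFw lam S0 N c (P (R * g)) i * (P g i - P (R * g) i) ∂(hm E) := by
    have := hm_int_left R (fun g => ∑ i, dFFw lam S0 N c (P g) i * (P (R⁻¹ * g) i - P g i))
    rw [← this]
    simp only [inv_mul_cancel_left]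
  have h3 : ∫ g, ∑ i, dFFw lam S0 N c (P g) i * ((P (R * g) i + P (R⁻¹ * g) i) / 2 - P g i) ∂(hm E)
      = (1 / 2) * (∫ g, ∑ i, dFFw lam S0 N c (P g) i * (P (R * g) i - P g i) ∂(hm E)
        + ∫ g, ∑ i, dFFw lam S0 N c (P g) i * (P (R⁻¹ * g) i - P g i) ∂(hm E)) := by
    rw [← integral_add (hm_integrable c1) (hm_integrable c2), ← integral_const_mul]
    refine integral_congr_ae (Eventually.of_forall fun g => ?_)
    simp only [← Finset.sum_add_distrib, Finset.mul_sum]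
    exact Finset.sum_congr rfl fun i _ => by ring
  rw [h3, h2, ← integral_add (hm_integrable c1) ?_] at h1
  · have h4 : ∫ g, (∑ i, dFFw lam S0 N c (P g) i * (P (R * g) i - P g i)
        + ∑ i, dFFw lam S0 N c (P (R * g)) i * (P g i - P (R * g) i)) ∂(hm E)
        = - ∫ g, ∑ i, (dFFw lam S0 N c (P (R * g)) i - dFFw lam S0 N c (P g) i) *
          (P (R * g) i - P g i) ∂(hm E) := by
      rw [← integral_neg]
      refine integral_congr_ae (Eventually.of_forall fun g => ?_)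
      simp only [← Finset.sum_add_distrib, ← Finset.sum_neg_distrib]
      exact Finset.sum_congr rfl fun i _ => by ring
    rw [h4] at h1
    linarith
  · refine hm_integrable (continuous_finsetSum _ fun i _ => ?_)
    exact (critw_dFF_comp_cont lam hB S0 N c (hPR R) (fun g => hp _) i).mul
      (((continuous_apply i).comp hP).sub ((continuous_apply i).comp (hPR R)))

-- crit_infw
theorem crit_infw {lam : Fin t → ℝ} (hl : OKlam lam) {B : ℝ} (hB : 0 ≤ B) (S0 : ℝ) (N : ℕ)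
    (c : ℝ) {P D : UG E → Fin t → ℝ}
    (hP : Continuous P) (hp : ∀ r, P r ∈ cube t B) (R : ℝ → UG E) (hR0 : R 0 = 1)
    (hder : ∀ g i, HasDerivAt (fun θ => P (R θ * g) i) (D g i) 0) (L : ℝ)
    (hLip : ∀ᶠ θ in 𝓝 (0 : ℝ), ∀ g i, |P (R θ * g) i - P g i| ≤ L * |θ|)
    (hcrit : ∀ θ, ∫ g, ∑ i, (dFFw lam S0 N c (P (R θ * g)) i - dFFw lam S0 N c (P g) i) *
      (P (R θ * g) i - P g i) ∂(hm E) ≤ 0) :
    ∫ g, ∑ i, hFFw lam S0 N c (P g) (D g) i * D g i ∂(hm E) ≤ 0 := by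
  have hPR : ∀ h : UG E, Continuous (fun g => P (h * g)) := fun h =>
    hP.comp (continuous_const.mul continuous_id)
  have hLL := LL_nonneg t S0 N c hB
  have hlim : Tendsto (fun θ : ℝ => ∫ g, ∑ i, (θ⁻¹ * (dFFw lam S0 N c (P (R θ * g)) i
      - dFFw lam S0 N c (P g) i)) * (θ⁻¹ * (P (R θ * g) i - P g i)) ∂(hm E)) (𝓝[≠] 0)
      (𝓝 (∫ g, ∑ i, hFFw lam S0 N c (P g) (D g) i * D g i ∂(hm E))) := by
    refine tendsto_integral_filter_of_dominated_convergence
      (fun _ => ∑ _i : Fin t, (LL t S0 N c B * ∑ _l : Fin t, L) * L) ?_ ?_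
      (integrable_const _) ?_
    · refine Eventually.of_forall fun θ => ?_
      refine Continuous.aestronglyMeasurable (continuous_finsetSum _ fun i _ => ?_)
      exact (continuous_const.mul (((comp_contw lam hB S0 N c (hPR _) (fun g => hp _)).2.1 i).sub
        ((comp_contw lam hB S0 N c hP hp).2.1 i))).mul (continuous_const.mul
        (((continuous_apply i).comp (hPR _)).sub ((continuous_apply i).comp hP)))
    · filter_upwards [hLip.filter_mono nhdsWithin_le_nhds, self_mem_nhdsWithin] with θ hθ h0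
      refine Eventually.of_forall fun g => ?_
      have hθ0 : 0 < |θ| := abs_pos.2 h0
      refine (norm_sum_le _ _).trans (Finset.sum_le_sum fun i _ => ?_)
      rw [norm_mul]
      have e1 : ‖θ⁻¹ * (P (R θ * g) i - P g i)‖ ≤ L := by
        rw [norm_mul, norm_inv, Real.norm_eq_abs, Real.norm_eq_abs, inv_mul_le_iff₀ hθ0, mul_comm]
        exact hθ g i
      have hL0 : 0 ≤ L := (norm_nonneg _).trans e1
      have e2 : ‖θ⁻¹ * (dFFw lam S0 N c (P (R θ * g)) i - dFFw lam S0 N c (P g) i)‖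
          ≤ LL t S0 N c B * ∑ _l : Fin t, L := by
        rw [norm_mul, norm_inv, Real.norm_eq_abs, Real.norm_eq_abs, inv_mul_le_iff₀ hθ0]
        refine (dFFw_lip hl hB S0 N c (hp g) (hp (R θ * g)) i).trans ?_
        calc LL t S0 N c B * ∑ l, |P (R θ * g) l - P g l|
            ≤ LL t S0 N c B * ∑ _l : Fin t, L * |θ| :=
              mul_le_mul_of_nonneg_left (Finset.sum_le_sum fun l _ => hθ g l) hLL
          _ = _ := by rw [← Finset.sum_mul]; ring
      exact mul_le_mul e2 e1 (norm_nonneg _)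
        (mul_nonneg hLL (Finset.sum_nonneg fun _ _ => hL0))
    · refine Eventually.of_forall fun g => ?_
      refine tendsto_finsetSum _ fun i _ => ?_
      have hd0 : (fun θ => P (R θ * g)) 0 = P g := by simp [hR0]
      have hd1 := hasDerivAt_dFFw lam hB S0 N c i (x := fun θ => P (R θ * g)) (hder g) (hp _)
      have t1 := hd1.tendsto_slope_zero
      have t2 := (hder g i).tendsto_slope_zero
      simp only [zero_add, smul_eq_mul, hR0, one_mul] at t1 t2
      exact t1.mul t2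
  refine le_of_tendsto hlim ?_
  filter_upwards [self_mem_nhdsWithin] with θ h0
  have : ∀ g, ∑ i, (θ⁻¹ * (dFFw lam S0 N c (P (R θ * g)) i - dFFw lam S0 N c (P g) i)) *
      (θ⁻¹ * (P (R θ * g) i - P g i)) = (θ⁻¹ * θ⁻¹) *
      ∑ i, (dFFw lam S0 N c (P (R θ * g)) i - dFFw lam S0 N c (P g) i) *
        (P (R θ * g) i - P g i) := by
    intro g
    rw [Finset.mul_sum]
    exact Finset.sum_congr rfl fun i _ => by ring
  simp only [this]
  rw [integral_const_mul]
  exact mul_nonpos_of_nonneg_of_nonpos (mul_self_nonneg _) (hcrit θ)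

-- PhiFw_cont
theorem PhiFw_cont {lam : Fin t → ℝ} (hl : OKlam lam) {B : ℝ} (hB : 0 ≤ B) (S0 : ℝ) (N : ℕ)
    (c : ℝ) (s : Fin t → SS E) {K : Set (Fin t → VV E)}
    (hK : ∀ ψ ∈ K, ∀ i x, (ψ i x).1 ∈ Icc (-Psi B) (Psi B)) :
    ContinuousOn (PhiFw lam S0 N c s) K := by
  have hL := LL_nonneg t S0 N c hB
  refine (LipschitzOnWith.of_dist_le_mul (K := Real.toNNReal (LL t S0 N c B * t))
    fun ψ hψ χ hχ => ?_).continuousOn
  rw [Real.coe_toNNReal _ (by positivity)]
  have hψc : ∀ g, valw s ψ g ∈ cube t B := fun g i => hK ψ hψ _ _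
  have hχc : ∀ g, valw s χ g ∈ cube t B := fun g i => hK χ hχ _ _
  have i1 := hm_integrable (comp_contw lam hB S0 N c (valw_cont s ψ) hψc).1
  have i2 := hm_integrable (comp_contw lam hB S0 N c (valw_cont s χ) hχc).1
  unfold PhiFw
  rw [Real.dist_eq, ← integral_sub i1 i2]
  have := norm_integral_le_of_norm_le_const (μ := hm E) (C := LL t S0 N c B * t * dist ψ χ)
    (f := fun g => FFw lam S0 N c (valw s ψ g) - FFw lam S0 N c (valw s χ g))
    (Eventually.of_forall fun g => ?_)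
  · simpa using this
  · refine (FFw_lip hl hB S0 N c (hχc g) (hψc g)).trans ?_
    rw [mul_assoc]
    refine mul_le_mul_of_nonneg_left ?_ hL
    calc ∑ l, |valw s ψ g l - valw s χ g l| ≤ ∑ _l : Fin t, dist ψ χ := by
          refine Finset.sum_le_sum fun l _ => ?_
          have h0 := dist_le_pi_dist ψ χ l
          have h1 := ContinuousMap.dist_apply_le_dist (f := ψ l) (g := χ l) (sa g (s l))
          rw [Prod.dist_eq] at h1
          have h2 := (le_max_left _ _).trans h1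
          rw [Real.dist_eq] at h2
          exact h2.trans h0
      _ = _ := by simp

-- tang_zerow
theorem tang_zerow {m : ℕ} (hn : Module.finrank ℝ E = m + 2) (ht : 1 ≤ t) {lam : Fin t → ℝ}
    (hl : OKlam lam) (s : Fin t → SS E) {B S0 c κ0 : ℝ} {N : ℕ}
    (hco : ∀ a : Fin t → ℝ, κ0 * ∑ i, (a i - (∑ l, a l) / t) ^ 2
      ≤ ‖∑ i, (lam i * a i) • (s i : E)‖ ^ 2) (hκ : 0 < κ0)
    (hB : 0 ≤ B) (hS : 0 < S0) (hN : t * B * (B + B ^ 2 * t / S0) ≤ N * κ0)
    (hc : 2 * KK t S0 N B * t < 4 * c * (m + 1)) {ψ : Fin t → VV E} (hψ : ∀ i, IsGrad (ψ i))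
    (hr : ∀ i x, (ψ i x).1 ∈ Icc (-Psi B) (Psi B))
    (hmin : ∀ R : UG E, ∀ τ : ℝ, 0 < τ → τ ≤ 1 → ∫ g, FFw lam S0 N c (valw s ψ g) ∂(hm E)
      ≤ ∫ g, FFw lam S0 N c (fun l => valw s ψ g l
        + τ * ((valw s ψ (R * g) l + valw s ψ (R⁻¹ * g) l) / 2 - valw s ψ g l)) ∂(hm E))
    (i : Fin t) (x : SS E) : tang (ψ i) x = 0 := by
  have ht1 : (1 : ℝ) ≤ t := by exact_mod_cast ht
  have ht0 : (0 : ℝ) < t := by linarith
  have hpos : 0 < t := by omega
  have hpc : ∀ g, valw s ψ g ∈ cube t B := fun g i => hr i _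
  have hPc := valw_cont s ψ
  obtain ⟨e⟩ : Nonempty (OrthonormalBasis (Fin (m + 2)) ℝ E) := by
    obtain ⟨b, _⟩ := exists_onb1 (n := m + 1) hn (x : E) (norm_eq_of_mem_sphere x)
    exact ⟨b⟩
  set D : Fin (m + 2) → Fin (m + 2) → UG E → Fin t → ℝ := fun a b g i =>
    DD e a b (sa g (s i) : E) (tang (ψ i) (sa g (s i))) with hD
  have hDc : ∀ a b, Continuous (D a b) := by
    intro a b
    refine continuous_pi fun i => ?_
    have c1 : Continuous (fun g : UG E => (sa g (s i) : E)) :=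
      continuous_subtype_val.comp (sa_continuous_left (s i))
    have c2 : Continuous (fun g : UG E => tang (ψ i) (sa g (s i))) :=
      field_cont (tang_continuous (ψ i)) (s i)
    simp only [hD, DD]
    exact ((continuous_const.inner c1).mul (continuous_const.inner c2)).sub
      ((continuous_const.inner c1).mul (continuous_const.inner c2))
  have hterm : ∀ a b i, Continuous (fun g => hFFw lam S0 N c (valw s ψ g) (D a b g) i *
      D a b g i) :=
    fun a b i => ((comp_contw lam hB S0 N c hPc hpc).2.2 (D a b) (hDc a b) i).mul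
      ((continuous_apply i).comp (hDc a b))
  have h1 : ∀ a b, ∫ g, ∑ i, hFFw lam S0 N c (valw s ψ g) (D a b g) i * D a b g i ∂(hm E)
      ≤ 0 := by
    intro a b
    have hL0 : ∀ i, ∃ L : ℝ, ∀ᶠ θ in 𝓝 (0 : ℝ), ∀ x : SS E,
        |(ψ i (sa (rot (e a) (e b) θ) x)).1 - (ψ i x).1| ≤ L * |θ| :=
      fun i => rot_val_lip (hψ i) (e a) (e b)
    choose L hL using hL0
    refine crit_infw hl hB S0 N c hPc hpc (rot (e a) (e b)) (rot_zero _ _) ?_ (∑ i, |L i|) ?_ ?_
    · intro g i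
      have := rot_val_hasDerivAt (hψ i) (e a) (e b) (sa g (s i))
      rw [inner_gen] at this
      exact this
    · have hall : ∀ᶠ θ in 𝓝 (0 : ℝ), ∀ i : Fin t, ∀ x : SS E,
          |(ψ i (sa (rot (e a) (e b) θ) x)).1 - (ψ i x).1| ≤ L i * |θ| :=
        Filter.eventually_all.2 fun i => hL i
      filter_upwards [hall] with θ hθ
      intro g i
      have h2 := hθ i (sa g (s i))
      refine le_trans (show |valw s ψ (rot (e a) (e b) θ * g) i - valw s ψ g i| ≤ L i * |θ|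
        from h2) ?_
      have h3 : L i ≤ ∑ j, |L j| :=
        (le_abs_self _).trans (Finset.single_le_sum (f := fun j => |L j|)
          (fun j _ => abs_nonneg _) (Finset.mem_univ i))
      exact mul_le_mul_of_nonneg_right h3 (abs_nonneg _)
    · intro θ
      exact critw hl hB S0 N c hPc hpc _ (hmin _)
  have h2 : ∫ g, ∑ a, ∑ b, ∑ i, hFFw lam S0 N c (valw s ψ g) (D a b g) i * D a b g i ∂(hm E)
      ≤ 0 := by
    rw [integral_finsetSum _ fun a _ => hm_integrable (continuous_finsetSum _ fun b _ =>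
      continuous_finsetSum _ fun i _ => hterm a b i)]
    refine Finset.sum_nonpos fun a _ => ?_
    rw [integral_finsetSum _ fun b _ => hm_integrable (continuous_finsetSum _ fun i _ =>
      hterm a b i)]
    exact Finset.sum_nonpos fun b _ => h1 a b
  set J : Fin t → ℝ := fun l => ∫ g, ‖tang (ψ l) (sa g (s l))‖ ^ 2 ∂(hm E) with hJ
  have hJ0 : ∀ l, 0 ≤ J l := fun l => integral_nonneg fun g => sq_nonneg _
  have cN : ∀ i, Continuous (fun g : UG E => ‖tang (ψ i) (sa g (s i))‖ ^ 2) := fun i =>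
    (field_cont (tang_continuous (ψ i)) (s i)).norm.pow 2
  have cI : ∀ i l, Continuous (fun g : UG E =>
      ⟪(sa g (s i) : E), tang (ψ l) (sa g (s l))⟫ ^ 2) :=
    fun i l => ((continuous_subtype_val.comp (sa_continuous_left (s i))).inner
      (field_cont (tang_continuous (ψ l)) (s l))).pow 2
  have hcog : ∀ g : UG E, ∀ a : Fin t → ℝ, κ0 * ∑ i, (a i - (∑ l, a l) / t) ^ 2
      ≤ ‖∑ i, (lam i * a i) • (sa g (s i) : E)‖ ^ 2 := by
    intro g a
    have e1 : ∑ i, (lam i * a i) • (sa g (s i) : E) = av g (∑ i, (lam i * a i) • (s i : E)) := by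
      unfold av
      rw [map_sum]
      refine Finset.sum_congr rfl fun i _ => ?_
      rw [map_smul]
      rfl
    rw [e1, av_norm]
    exact hco a
  have h3 : ∫ g, (4 * c * ∑ i, ‖tang (ψ i) (sa g (s i))‖ ^ 2
      - 2 * KK t S0 N B * ∑ i, ∑ l, ⟪(sa g (s i) : E), tang (ψ l) (sa g (s l))⟫ ^ 2) ∂(hm E)
      ≤ 0 := by
    refine (integral_mono ?_ ?_ fun g => ?_).trans h2
    · exact hm_integrable ((continuous_const.mul (continuous_finsetSum _ fun i _ => cN i)).sub
        (continuous_const.mul (continuous_finsetSum _ fun i _ =>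
          continuous_finsetSum _ fun l _ => cI i l)))
    · exact hm_integrable (continuous_finsetSum _ fun a _ => continuous_finsetSum _ fun b _ =>
        continuous_finsetSum _ fun i _ => hterm a b i)
    · exact hess_lowerw ht hl e hB hS hκ hN (hpc g) (fun i => (sa g (s i) : E))
        (fun i => tang (ψ i) (sa g (s i))) (fun i => norm_eq_of_mem_sphere _)
        (hcog g) (fun i => tang_orth (ψ i) _)
  have cA : Continuous (fun g : UG E => 4 * c * ∑ i, ‖tang (ψ i) (sa g (s i))‖ ^ 2) :=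
    continuous_const.mul (continuous_finsetSum _ fun i _ => cN i)
  have cB : Continuous (fun g : UG E => 2 * KK t S0 N B *
      ∑ i, ∑ l, ⟪(sa g (s i) : E), tang (ψ l) (sa g (s l))⟫ ^ 2) :=
    continuous_const.mul (continuous_finsetSum _ fun i _ => continuous_finsetSum _ fun l _ =>
      cI i l)
  rw [integral_sub (hm_integrable cA) (hm_integrable cB), integral_const_mul, integral_const_mul,
    integral_finsetSum _ fun i _ => hm_integrable (cN i),
    integral_finsetSum _ fun i _ => hm_integrable (continuous_finsetSum _ fun l _ => cI i l)] at h3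
  have h4 : ∑ i, ∫ g, ‖tang (ψ i) (sa g (s i))‖ ^ 2 ∂(hm E) = ∑ l, J l := rfl
  have h5 : ∀ i, (m + 1 : ℝ) * ∫ g, ∑ l, ⟪(sa g (s i) : E), tang (ψ l) (sa g (s l))⟫ ^ 2 ∂(hm E)
      ≤ ∑ l, J l := by
    intro i
    rw [integral_finsetSum _ fun l _ => hm_integrable (cI i l), Finset.mul_sum]
    refine Finset.sum_le_sum fun l _ => ?_
    exact avg_le hn (tang_continuous (ψ l)) (tang_orth (ψ l)) (s i) (s l)
  have h6 : (m + 1 : ℝ) * ∑ i, ∫ g, ∑ l, ⟪(sa g (s i) : E), tang (ψ l) (sa g (s l))⟫ ^ 2 ∂(hm E)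
      ≤ t * ∑ l, J l := by
    rw [Finset.mul_sum]
    calc _ ≤ ∑ _i : Fin t, ∑ l, J l := Finset.sum_le_sum fun i _ => h5 i
      _ = _ := by simp
  rw [h4] at h3
  have hK := KK_nonneg t S0 N B
  have hm1 : (0 : ℝ) < m + 1 := by positivity
  have h7 : (4 * c * (m + 1) - 2 * KK t S0 N B * t) * (∑ l, J l) ≤ 0 := by
    have e1 := mul_le_mul_of_nonneg_left h6 hK
    have e2 := mul_le_mul_of_nonneg_left h3 hm1.le
    rw [mul_zero] at e2
    nlinarith [e1, e2]
  have h8 : ∑ l, J l ≤ 0 := by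
    by_contra hcon
    push Not at hcon
    have : 0 < (4 * c * (m + 1) - 2 * KK t S0 N B * t) * (∑ l, J l) :=
      mul_pos (by linarith) hcon
    linarith
  have h9 : J i ≤ 0 :=
    (Finset.single_le_sum (f := J) (fun l _ => hJ0 l) (Finset.mem_univ i)).trans h8
  exact zero_of_int (by omega) (tang_continuous (ψ i)) (s i) h9 x

-- main_ineqw
theorem main_ineqw {m : ℕ} (hn : Module.finrank ℝ E = m + 2) (ht : 1 ≤ t) {lam : Fin t → ℝ}
    (hl : OKlam lam) (s : Fin t → SS E) {B S0 c κ0 : ℝ} {N : ℕ}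
    (hco : ∀ a : Fin t → ℝ, κ0 * ∑ i, (a i - (∑ l, a l) / t) ^ 2
      ≤ ‖∑ i, (lam i * a i) • (s i : E)‖ ^ 2) (hκ : 0 < κ0)
    (hB : 0 ≤ B) (hS : 0 < S0) (hN : t * B * (B + B ^ 2 * t / S0) ≤ N * κ0)
    (hc : 2 * KK t S0 N B * t < 4 * c * (m + 1)) {φ : Fin t → VV E} (hφ : ∀ i, IsGrad (φ i))
    (hr : ∀ i x, (φ i x).1 ∈ Icc (-Psi B) (Psi B)) (x0 : SS E) :
    FFw lam S0 N c (fun i : Fin t => ∫ g, (φ i (sa g x0)).1 ∂(hm E))
      ≤ ∫ g, FFw lam S0 N c (valw s φ g) ∂(hm E) := by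
  set K : Set (Fin t → VV E) := Set.pi univ (fun i => KS (φ i)) with hKdef
  have hrK : ∀ ψ ∈ K, ∀ i x, (ψ i x).1 ∈ Icc (-Psi B) (Psi B) := fun ψ hψ i x =>
    KS_range (φ i) (hr i) (hψ i (mem_univ i)) x
  have hKc : IsCompact K := isCompact_univ_pi (fun i => KS_compact (φ i))
  obtain ⟨ψ, hψ, hmin⟩ := hKc.exists_isMinOn ⟨φ, fun i _ => KS_self (φ i)⟩
    (PhiFw_cont hl hB S0 N c s hrK)
  have hmin' : ∀ χ ∈ K, PhiFw lam S0 N c s ψ ≤ PhiFw lam S0 N c s χ := fun χ hχ => hmin hχ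
  have hgr : ∀ i, IsGrad (ψ i) := fun i => KS_isGrad (hφ i) (hψ i (mem_univ i))
  have hmod : ∀ R : UG E, ∀ τ : ℝ, 0 < τ → τ ≤ 1 → ∫ g, FFw lam S0 N c (valw s ψ g) ∂(hm E)
      ≤ ∫ g, FFw lam S0 N c (fun l => valw s ψ g l
        + τ * ((valw s ψ (R * g) l + valw s ψ (R⁻¹ * g) l) / 2 - valw s ψ g l)) ∂(hm E) := by
    intro R τ h0 h1
    set χ : Fin t → VV E := fun i =>
      (1 - τ) • ψ i + τ • ((1 / 2 : ℝ) • TT R (ψ i) + (1 / 2 : ℝ) • TT R⁻¹ (ψ i)) with hχ
    have hχK : χ ∈ K := by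
      intro i _
      have hψi := hψ i (mem_univ i)
      refine KS_convex (φ i) hψi ?_ (by linarith) h0.le (by ring)
      exact KS_convex (φ i) (KS_inv (φ i) R hψi) (KS_inv (φ i) R⁻¹ hψi) (by norm_num)
        (by norm_num) (by norm_num)
    have h2 := hmin' χ hχK
    unfold PhiFw at h2
    have h3 : ∀ g, valw s χ g = fun l => valw s ψ g l
        + τ * ((valw s ψ (R * g) l + valw s ψ (R⁻¹ * g) l) / 2 - valw s ψ g l) := by
      intro g
      funext l
      have e1 : valw s χ g l = (1 - τ) * (ψ l (sa g (s l))).1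
          + τ * ((1 / 2) * (TT R (ψ l) (sa g (s l))).1
            + (1 / 2) * (TT R⁻¹ (ψ l) (sa g (s l))).1) := by
        simp [valw, hχ]
        ring
      rw [e1, TT_fst, TT_fst, ← sa_mul, ← sa_mul]
      simp only [valw]
      ring
    simp only [h3] at h2
    exact h2
  have htan : ∀ i x, tang (ψ i) x = 0 := by
    intro i x
    exact tang_zerow hn ht hl s hco hκ hB hS hN hc hgr (hrK ψ hψ) hmod i x
  have hconst : ∀ i y, (ψ i y).1 = (ψ i x0).1 := fun i y =>
    const_of_tang (hgr i) (htan i) hn x0 y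
  have h1 : ∀ i, (ψ i x0).1 = ∫ g, (φ i (sa g x0)).1 ∂(hm E) := by
    intro i
    have hmean := KS_mean (φ i) x0 (hψ i (mem_univ i))
    rw [← hmean]
    simp only [hconst]
    simp
  have h1' : (fun i : Fin t => ∫ g, (φ i (sa g x0)).1 ∂(hm E)) = fun i => (ψ i x0).1 :=
    funext fun i => (h1 i).symm
  rw [h1']
  have h2 : PhiFw lam S0 N c s ψ = FFw lam S0 N c (fun i : Fin t => (ψ i x0).1) := by
    unfold PhiFw
    have : ∀ g, valw s ψ g = fun i => (ψ i x0).1 := fun g => funext fun i => hconst i _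
    simp only [this]
    simp
  rw [← h2]
  exact hmin' φ (fun i _ => KS_self (φ i))

-- main_contw
theorem main_contw {m : ℕ} (hn : Module.finrank ℝ E = m + 2) (ht : 1 ≤ t) {lam : Fin t → ℝ}
    (hl : OKlam lam) (s : Fin t → SS E) {B S0 c κ0 : ℝ} {N : ℕ}
    (hco : ∀ a : Fin t → ℝ, κ0 * ∑ i, (a i - (∑ l, a l) / t) ^ 2
      ≤ ‖∑ i, (lam i * a i) • (s i : E)‖ ^ 2) (hκ : 0 < κ0)
    (hB : 0 < B) (hS : 0 < S0) (hN : t * B * (B + B ^ 2 * t / S0) ≤ N * κ0)
    (hc : 2 * KK t S0 N B * t < 4 * c * (m + 1)) (f : Fin t → C(SS E, ℝ))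
    (hr : ∀ i x, f i x ∈ Icc (-Psi B) (Psi B)) (x0 : SS E) :
    FFw lam S0 N c (fun i : Fin t => ∫ g, f i (sa g x0) ∂(hm E))
      ≤ ∫ g, FFw lam S0 N c (fun i => f i (sa g (s i))) ∂(hm E) := by
  have hPs : 0 < Psi B := by
    rw [← Psi_zero]; exact Psi_strictMono hB
  have hL := LL_nonneg t S0 N c hB.le
  have hfc : ∀ (i : Fin t) (x : SS E), Continuous (fun g : UG E => f i (sa g x)) := fun i x =>
    (f i).continuous.comp (sa_continuous_left x)
  have hmeanf : ∀ i, ∫ g, f i (sa g x0) ∂(hm E) ∈ Icc (-Psi B) (Psi B) := by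
    intro i
    have hlow : ∫ _g : UG E, (-Psi B) ∂(hm E) ≤ ∫ g, f i (sa g x0) ∂(hm E) :=
      integral_mono (integrable_const _) (hm_integrable (hfc i x0)) (fun g => (hr i _).1)
    have hup : ∫ g, f i (sa g x0) ∂(hm E) ≤ ∫ _g : UG E, (Psi B) ∂(hm E) :=
      integral_mono (hm_integrable (hfc i x0)) (integrable_const _) (fun g => (hr i _).2)
    rw [integral_const, probReal_univ, one_smul] at hlow hup
    exact ⟨hlow, hup⟩
  refine le_of_forall_pos_le_add fun ε hε => ?_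
  obtain ⟨η, hη0, hη1, hη⟩ : ∃ η : ℝ, 0 < η ∧ η < 1 ∧
      2 * (LL t S0 N c B * (t * (2 * η * Psi B))) ≤ ε := by
    set C := 4 * (LL t S0 N c B * (t * Psi B)) with hC
    have hC0 : 0 ≤ C := by positivity
    refine ⟨min (1 / 2) (ε / (C + 1)), by positivity, by
      refine lt_of_le_of_lt (min_le_left _ _) (by norm_num), ?_⟩
    have h1 : min (1 / 2) (ε / (C + 1)) ≤ ε / (C + 1) := min_le_right _ _
    have h2 : C * (ε / (C + 1)) ≤ ε := by
      rw [mul_div_assoc', div_le_iff₀ (by positivity)]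
      nlinarith
    calc 2 * (LL t S0 N c B * (t * (2 * min (1 / 2) (ε / (C + 1)) * Psi B)))
        = C * min (1 / 2) (ε / (C + 1)) := by rw [hC]; ring
      _ ≤ C * (ε / (C + 1)) := mul_le_mul_of_nonneg_left h1 hC0
      _ ≤ ε := h2
  have hex : ∀ i : Fin t, ∃ F : E → ℝ, ContDiff ℝ 1 F ∧
      ∀ x : SS E, |F x - ((1 - η) • f i) x| ≤ η * Psi B := fun i =>
    exists_C1_near ((1 - η) • f i) (ε := η * Psi B) (by positivity)
  choose F hF hFf using hex
  set φ : Fin t → VV E := fun i => ofC1 (F i) (hF i) with hφ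
  have hclose : ∀ i x, |(φ i x).1 - (1 - η) * f i x| ≤ η * Psi B := fun i x => hFf i x
  have habs : ∀ i x, |f i x| ≤ Psi B := fun i x => abs_le.2 (hr i x)
  have hrφ : ∀ i x, (φ i x).1 ∈ Icc (-Psi B) (Psi B) := by
    intro i x
    have h1 := abs_le.1 (hclose i x)
    have h2 := hr i x
    have h3 : (1 - η) * f i x ≤ (1 - η) * Psi B := mul_le_mul_of_nonneg_left h2.2 (by linarith)
    have h4 : (1 - η) * (-Psi B) ≤ (1 - η) * f i x := mul_le_mul_of_nonneg_left h2.1 (by linarith)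
    constructor <;> linarith [h1.1, h1.2]
  have hd : ∀ i x, |(φ i x).1 - f i x| ≤ 2 * η * Psi B := by
    intro i x
    have h1 := abs_le.1 (hclose i x)
    have h2 := hr i x
    have h3 : η * f i x ≤ η * Psi B := mul_le_mul_of_nonneg_left h2.2 hη0.le
    have h4 : η * (-Psi B) ≤ η * f i x := mul_le_mul_of_nonneg_left h2.1 hη0.le
    rw [abs_le]
    constructor <;> linarith [h1.1, h1.2]
  have hφc : ∀ (i : Fin t) (x : SS E), Continuous (fun g : UG E => (φ i (sa g x)).1) := fun i x =>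
    continuous_fst.comp ((φ i).continuous.comp (sa_continuous_left x))
  have hmain := main_ineqw hn ht hl s hco hκ hB.le hS hN hc
    (fun i => ofC1_isGrad (F i) (hF i)) hrφ x0
  have hmeanφ : ∀ i, ∫ g, (φ i (sa g x0)).1 ∂(hm E) ∈ Icc (-Psi B) (Psi B) := by
    intro i
    have hlow : ∫ _g : UG E, (-Psi B) ∂(hm E) ≤ ∫ g, (φ i (sa g x0)).1 ∂(hm E) :=
      integral_mono (integrable_const _) (hm_integrable (hφc i x0)) (fun g => (hrφ i _).1)
    have hup : ∫ g, (φ i (sa g x0)).1 ∂(hm E) ≤ ∫ _g : UG E, (Psi B) ∂(hm E) :=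
      integral_mono (hm_integrable (hφc i x0)) (integrable_const _) (fun g => (hrφ i _).2)
    rw [integral_const, probReal_univ, one_smul] at hlow hup
    exact ⟨hlow, hup⟩
  have hmd : ∀ i, |∫ g, f i (sa g x0) ∂(hm E) - ∫ g, (φ i (sa g x0)).1 ∂(hm E)|
      ≤ 2 * η * Psi B := by
    intro i
    rw [← integral_sub (hm_integrable (hfc i x0)) (hm_integrable (hφc i x0))]
    have := norm_integral_le_of_norm_le_const (μ := hm E) (C := 2 * η * Psi B)
      (f := fun g => f i (sa g x0) - (φ i (sa g x0)).1) (Eventually.of_forall fun g => ?_)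
    · simpa using this
    · rw [Real.norm_eq_abs, abs_sub_comm]
      exact hd i _
  have e1 : FFw lam S0 N c (fun i : Fin t => ∫ g, f i (sa g x0) ∂(hm E))
      - FFw lam S0 N c (fun i : Fin t => ∫ g, (φ i (sa g x0)).1 ∂(hm E))
      ≤ LL t S0 N c B * (t * (2 * η * Psi B)) := by
    refine (le_abs_self _).trans ((FFw_lip hl hB.le S0 N c (fun i => hmeanφ i)
      (fun i => hmeanf i)).trans (mul_le_mul_of_nonneg_left ?_ hL))
    calc _ ≤ ∑ _l : Fin t, (2 * η * Psi B) := Finset.sum_le_sum fun l _ => hmd l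
      _ = _ := by simp
  have hPc : Continuous (fun g : UG E => (fun i => f i (sa g (s i)) : Fin t → ℝ)) :=
    continuous_pi fun i => hfc i (s i)
  have e2 : ∫ g, FFw lam S0 N c (valw s φ g) ∂(hm E)
      ≤ ∫ g, (FFw lam S0 N c (fun i => f i (sa g (s i))) + LL t S0 N c B * (t * (2 * η * Psi B)))
        ∂(hm E) := by
    refine integral_mono (hm_integrable (comp_contw lam hB.le S0 N c (valw_cont s φ)
      (fun g i => hrφ i _)).1) (hm_integrable ((comp_contw lam hB.le S0 N c hPc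
      (fun g i => hr i _)).1.add continuous_const)) fun g => ?_
    have h1 : FFw lam S0 N c (valw s φ g) - FFw lam S0 N c (fun i => f i (sa g (s i)))
        ≤ LL t S0 N c B * (t * (2 * η * Psi B)) := by
      refine (le_abs_self _).trans ((FFw_lip hl hB.le S0 N c (p := fun i => f i (sa g (s i)))
        (q := valw s φ g) (fun i => hr i _) (fun i => hrφ i _)).trans
        (mul_le_mul_of_nonneg_left ?_ hL))
      calc _ ≤ ∑ _l : Fin t, (2 * η * Psi B) := Finset.sum_le_sum fun l _ => hd l _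
        _ = _ := by simp
    simp only
    linarith
  rw [integral_add (hm_integrable (comp_contw lam hB.le S0 N c hPc (fun g i => hr i _)).1)
    (integrable_const _), integral_const, probReal_univ, one_smul] at e2
  linarith

-- quantw
theorem quantw_int_le_ind {F : UG E → ℝ} {S : Set (UG E)} {C : ℝ} (hS : MeasurableSet S)
    (hF : Integrable F (hm E)) (h : ∀ g, F g ≤ S.indicator (fun _ => C) g) :
    ∫ g, F g ∂(hm E) ≤ (hm E).real S * C := by
  have h1 : ∫ g, F g ∂(hm E) ≤ ∫ g, S.indicator (fun _ => C) g ∂(hm E) :=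
    integral_mono hF ((integrable_const C).indicator hS) h
  rwa [integral_indicator_const _ hS, smul_eq_mul] at h1

theorem quantw {m : ℕ} (hn : Module.finrank ℝ E = m + 2) (ht : 1 ≤ t) {lam : Fin t → ℝ}
    (hl : OKlam lam) (s : Fin t → SS E) {B M S0 c κ0 l0 : ℝ} {N : ℕ}
    (hco : ∀ a : Fin t → ℝ, κ0 * ∑ i, (a i - (∑ l, a l) / t) ^ 2
      ≤ ‖∑ i, (lam i * a i) • (s i : E)‖ ^ 2) (hκ : 0 < κ0)
    (hM : 0 < M) (hl0 : 0 < l0) (hll : ∀ i, l0 ≤ lam i) (hMB : M ≤ B) (hB : t * M ≤ l0 * B)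
    (hS : 0 < S0) (hc0 : 0 ≤ c)
    (hN : t * B * (B + B ^ 2 * t / S0) ≤ N * κ0)
    (hc : 2 * KK t S0 N B * t < 4 * c * (m + 1))
    (y a : Fin t → ℝ) (hyB : ∀ i, |y i| ≤ B) (hyS : 2 * S0 ≤ ∑ i, lam i * y i)
    (ha : ∀ i, 0 ≤ a i ∧ a i ≤ 1)
    (hy : ∀ i, Psi (y i) ≤ a i * Psi M - (1 - a i) * Psi B)
    (K : Fin t → Set (SS E)) (hK : ∀ i, IsClosed (K i)) (hKne : ∀ i, (K i).Nonempty) (x0 : SS E)
    (hKa : ∀ i, a i ≤ (hm E).real {g | sa g x0 ∈ K i}) {r0 : ℝ} (hr0 : 0 < r0) :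
    S0 ^ (N + 3) - c * (t * Psi B ^ 2)
      ≤ (hm E).real {g | ∀ i, infDist (sa g (s i)) (K i) < r0} * (t * M) ^ (N + 3) := by
  have ht1 : (1 : ℝ) ≤ t := by exact_mod_cast ht
  have ht0 : (0 : ℝ) < t := by linarith
  have hB0 : 0 < B := lt_of_lt_of_le hM hMB
  have hPM : 0 < Psi M := by rw [← Psi_zero]; exact Psi_strictMono hM
  have hPB : 0 < Psi B := by rw [← Psi_zero]; exact Psi_strictMono hB0
  have hPMB : Psi M ≤ Psi B := Psi_strictMono.monotone hMB
  -- the functions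
  set Cc := (Psi M + Psi B) / r0 with hCc
  have hCc0 : 0 < Cc := by positivity
  set f : Fin t → C(SS E, ℝ) := fun i => ⟨fun x => max (-Psi B) (Psi M - Cc * infDist x (K i)), by
    exact continuous_const.max (continuous_const.sub
      (continuous_const.mul (continuous_infDist_pt (K i))))⟩ with hf
  have hfdef : ∀ i x, f i x = max (-Psi B) (Psi M - Cc * infDist x (K i)) := fun i x => rfl
  have hfM : ∀ i x, f i x ≤ Psi M := by
    intro i x
    rw [hfdef]
    refine max_le (by linarith) ?_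
    have : 0 ≤ Cc * infDist x (K i) := mul_nonneg hCc0.le infDist_nonneg
    linarith
  have hr : ∀ i x, f i x ∈ Icc (-Psi B) (Psi B) := fun i x =>
    ⟨le_max_left _ _, (hfM i x).trans hPMB⟩
  have hfK : ∀ i, ∀ x ∈ K i, f i x = Psi M := by
    intro i x hx
    rw [hfdef, infDist_zero_of_mem hx, mul_zero, sub_zero, max_eq_right (by linarith)]
  have hffar : ∀ i x, r0 ≤ infDist x (K i) → f i x = -Psi B := by
    intro i x hx
    rw [hfdef, max_eq_left]
    have : Psi M + Psi B ≤ Cc * infDist x (K i) := by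
      calc Psi M + Psi B = Cc * r0 := by rw [hCc]; field_simp
        _ ≤ _ := mul_le_mul_of_nonneg_left hx hCc0.le
    linarith
  have hmain := main_contw hn ht hl s hco hκ hB0 hS hN hc f hr x0
  have hfc : ∀ i, ∀ x : SS E, Continuous (fun g : UG E => f i (sa g x)) := fun i x =>
    (f i).continuous.comp (sa_continuous_left x)
  have hPc : Continuous (fun g : UG E => (fun i => f i (sa g (s i)) : Fin t → ℝ)) :=
    continuous_pi fun i => hfc i (s i)
  have hGB : Gam (-Psi B) = -B := by rw [← Psi_neg, Gam_Psi]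
  have hGM : ∀ i x, Gam (f i x) ≤ M := by
    intro i x
    obtain ⟨y, hy1, hy2⟩ := exists_Psi hB0.le (hr i x)
    rw [← hy2, Gam_Psi]
    have h1 := hfM i x
    rw [← hy2] at h1
    exact Psi_strictMono.le_iff_le.1 h1
  have hlM : ∀ i x, lam i * Gam (f i x) ≤ M := by
    intro i x
    calc lam i * Gam (f i x) ≤ lam i * M := mul_le_mul_of_nonneg_left (hGM i x) (hl i).1
      _ ≤ 1 * M := mul_le_mul_of_nonneg_right (hl i).2 hM.le
      _ = M := one_mul M
  set S : Set (UG E) := {g | ∀ i, infDist (sa g (s i)) (K i) < r0} with hSdef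
  have hSm : MeasurableSet S := by
    have : S = ⋂ i, {g : UG E | infDist (sa g (s i)) (K i) < r0} := by
      ext g; simp [hSdef]
    rw [this]
    refine MeasurableSet.iInter fun i => ?_
    exact (isOpen_lt ((continuous_infDist_pt (K i)).comp (sa_continuous_left (s i)))
      continuous_const).measurableSet
  have hsq : ∀ g : UG E, c * ∑ i, f i (sa g (s i)) ^ 2 ≤ c * (t * Psi B ^ 2) := by
    intro g
    refine mul_le_mul_of_nonneg_left ?_ hc0
    calc ∑ i, f i (sa g (s i)) ^ 2 ≤ ∑ _i : Fin t, Psi B ^ 2 := by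
          refine Finset.sum_le_sum fun i _ => ?_
          exact sq_le_sq' (hr i _).1 (hr i _).2
      _ = t * Psi B ^ 2 := by simp
  have hrhs : ∀ g, FFw lam S0 N c (fun i => f i (sa g (s i))) - c * (t * Psi B ^ 2)
      ≤ S.indicator (fun _ => (t * M) ^ (N + 3)) g := by
    intro g
    by_cases hg : g ∈ S
    · rw [Set.indicator_of_mem hg]
      have hW : WWw lam (fun i => f i (sa g (s i))) ≤ t * M := by
        unfold WWw
        calc ∑ i, lam i * Gam (f i (sa g (s i))) ≤ ∑ _i : Fin t, M :=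
              Finset.sum_le_sum fun i _ => hlM i _
          _ = t * M := by simp
      have h1 : tp (N + 3) (WWw lam (fun i => f i (sa g (s i))) - S0) ≤ tp (N + 3) (t * M) :=
        tp_mono (by linarith)
      have e1 : tp (N + 3) (t * M) = (t * M) ^ (N + 3) := tp_of_nonneg _ (by positivity)
      rw [e1] at h1
      have h2 := hsq g
      unfold FFw
      linarith
    · rw [Set.indicator_of_notMem hg]
      have hg2 : ∃ i0, r0 ≤ infDist (sa g (s i0)) (K i0) := by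
        by_contra hcon
        push Not at hcon
        exact hg hcon
      obtain ⟨i0, hi0⟩ := hg2
      have hW : WWw lam (fun i => f i (sa g (s i))) ≤ 0 := by
        unfold WWw
        rw [← Finset.add_sum_erase _ _ (Finset.mem_univ i0)]
        have h1 : Gam (f i0 (sa g (s i0))) = -B := by rw [hffar _ _ hi0, hGB]
        have h2 : ∑ i ∈ Finset.univ.erase i0, lam i * Gam (f i (sa g (s i)))
            ≤ ∑ _i ∈ Finset.univ.erase i0, M := Finset.sum_le_sum fun i _ => hlM i _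
        have h3 : ∑ _i ∈ (Finset.univ : Finset (Fin t)).erase i0, M ≤ t * M := by
          rw [Finset.sum_const, Finset.card_erase_of_mem (Finset.mem_univ i0), Finset.card_univ,
            Fintype.card_fin, nsmul_eq_mul]
          refine mul_le_mul_of_nonneg_right ?_ hM.le
          exact_mod_cast Nat.sub_le t 1
        have h4 : l0 * B ≤ lam i0 * B := mul_le_mul_of_nonneg_right (hll i0) hB0.le
        rw [h1]
        nlinarith
      unfold FFw
      rw [tp_of_nonpos (by omega) (by linarith), zero_add]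
      have h2 := hsq g
      linarith
  have hFc : Continuous (fun g : UG E => FFw lam S0 N c (fun i => f i (sa g (s i)))) :=
    (comp_contw lam hB0.le S0 N c hPc (fun g i => hr i _)).1
  have hub : ∫ g, (FFw lam S0 N c (fun i => f i (sa g (s i))) - c * (t * Psi B ^ 2)) ∂(hm E)
      ≤ (hm E).real S * (t * M) ^ (N + 3) :=
    quantw_int_le_ind hSm ((hm_integrable hFc).sub (integrable_const _)) hrhs
  rw [integral_sub (hm_integrable hFc) (integrable_const _), integral_const, probReal_univ,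
    one_smul] at hub
  -- the means
  have hGp : ∀ i, y i ≤ Gam (∫ g, f i (sa g x0) ∂(hm E)) := by
    intro i
    have hKm : MeasurableSet {g : UG E | sa g x0 ∈ K i} :=
      ((hK i).preimage (sa_continuous_left x0)).measurableSet
    have hplow : Psi (y i) ≤ ∫ g, f i (sa g x0) ∂(hm E) := by
      have h1 : ∫ g, ({g : UG E | sa g x0 ∈ K i}.indicator (fun _ => Psi M + Psi B) g - Psi B)
          ∂(hm E) ≤ ∫ g, f i (sa g x0) ∂(hm E) := by
        refine integral_mono (((integrable_const _).indicator hKm).sub (integrable_const _))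
          (hm_integrable (hfc i x0)) fun g => ?_
        by_cases hg : g ∈ {g : UG E | sa g x0 ∈ K i}
        · simp only [Set.indicator_of_mem hg]
          rw [hfK _ _ hg]
          linarith
        · simp only [Set.indicator_of_notMem hg]
          have := (hr i (sa g x0)).1
          linarith
      rw [integral_sub ((integrable_const _).indicator hKm) (integrable_const _),
        integral_indicator_const _ hKm, integral_const, probReal_univ, one_smul, smul_eq_mul] at h1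
      have h2 : a i * (Psi M + Psi B) ≤ (hm E).real {g | sa g x0 ∈ K i} * (Psi M + Psi B) :=
        mul_le_mul_of_nonneg_right (hKa i) (by linarith)
      have h3 := hy i
      nlinarith
    have hpup : ∫ g, f i (sa g x0) ∂(hm E) ≤ Psi B := by
      have h1 : ∫ g, f i (sa g x0) ∂(hm E) ≤ ∫ _g : UG E, Psi B ∂(hm E) :=
        integral_mono (hm_integrable (hfc i x0)) (integrable_const _) (fun g => (hr i _).2)
      rwa [integral_const, probReal_univ, one_smul] at h1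
    have hlo : -Psi B ≤ Psi (y i) := by
      rw [← Psi_neg]
      exact Psi_strictMono.monotone (abs_le.1 (hyB i)).1
    obtain ⟨z, hz1, hz2⟩ := exists_Psi (p := ∫ g, f i (sa g x0) ∂(hm E)) hB0.le
      ⟨by linarith, hpup⟩
    rw [← hz2] at hplow
    rw [← hz2, Gam_Psi]
    exact Psi_strictMono.le_iff_le.1 hplow
  have hlhs : S0 ^ (N + 3) ≤ FFw lam S0 N c (fun i : Fin t => ∫ g, f i (sa g x0) ∂(hm E)) := by
    unfold FFw WWw
    have h1 : ∑ i, lam i * y i ≤ ∑ i, lam i * Gam (∫ g, f i (sa g x0) ∂(hm E)) :=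
      Finset.sum_le_sum fun i _ => mul_le_mul_of_nonneg_left (hGp i) (hl i).1
    have h2 : S0 ≤ ∑ i, lam i * Gam (∫ g, f i (sa g x0) ∂(hm E)) - S0 := by linarith
    have h3 : tp (N + 3) S0 ≤ tp (N + 3) (∑ i, lam i * Gam (∫ g, f i (sa g x0) ∂(hm E)) - S0) :=
      tp_mono h2
    rw [tp_of_nonneg _ hS.le] at h3
    have h4 : 0 ≤ c * ∑ i, (∫ g, f i (sa g x0) ∂(hm E)) ^ 2 :=
      mul_nonneg hc0 (Finset.sum_nonneg fun _ _ => sq_nonneg _)
    linarith
  linarith

end Mf3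

/-- the normalised Gaussian distribution function -/
noncomputable def PhN (b : ℝ) : ℝ := 1 / 2 + Psi b / Real.sqrt (2 * Real.pi)

-- PhN_props
theorem PhN_props_lim : Tendsto Psi atTop (𝓝 (Real.sqrt (2 * Real.pi) / 2)) := by
  have h1 : ∫ x in Ioi (0 : ℝ), Real.exp (-(x ^ 2) / 2) = Real.sqrt (2 * Real.pi) / 2 := by
    have h := integral_gaussian_Ioi (1 / 2)
    have e : Real.pi / (1 / 2) = 2 * Real.pi := by ring
    rw [e] at h
    rw [← h]
    refine setIntegral_congr_fun measurableSet_Ioi fun x _ => ?_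
    show Real.exp (-(x ^ 2) / 2) = Real.exp (-(1 / 2) * x ^ 2)
    congr 1
    ring
  have h2 : IntegrableOn (fun x : ℝ => Real.exp (-(x ^ 2) / 2)) (Ioi 0) := by
    have h := (integrable_exp_neg_mul_sq (b := 1 / 2) (by norm_num)).integrableOn (s := Ioi 0)
    refine h.congr_fun (fun x _ => ?_) measurableSet_Ioi
    show Real.exp (-(1 / 2) * x ^ 2) = Real.exp (-(x ^ 2) / 2)
    congr 1
    ring
  rw [← h1]
  exact intervalIntegral_tendsto_integral_Ioi 0 h2 tendsto_id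

theorem PhN_props_lt (M : ℝ) : Psi M < Real.sqrt (2 * Real.pi) / 2 := by
  have h1 : Psi (M + 1) ≤ Real.sqrt (2 * Real.pi) / 2 :=
    Psi_strictMono.monotone.ge_of_tendsto PhN_props_lim (M + 1)
  exact (Psi_strictMono (by linarith : M < M + 1)).trans_le h1

theorem PhN_props_two : 2 ≤ Real.sqrt (2 * Real.pi) := by
  apply Real.le_sqrt_of_sq_le
  have := Real.pi_gt_three
  nlinarith

theorem PhN_props_lip (a b : ℝ) : |Psi a - Psi b| ≤ |a - b| := by
  have h : ∀ x ∈ (univ : Set ℝ), HasDerivWithinAt Psi (Real.exp (-(x ^ 2) / 2)) univ x :=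
    fun x _ => (hasDerivAt_Psi x).hasDerivWithinAt
  have h2 : ∀ x ∈ (univ : Set ℝ), ‖Real.exp (-(x ^ 2) / 2)‖ ≤ 1 := by
    intro x _
    rw [Real.norm_eq_abs, abs_of_pos (Real.exp_pos _)]
    exact Real.exp_le_one_iff.2 (by nlinarith [sq_nonneg x])
  have h3 := convex_univ.norm_image_sub_le_of_norm_hasDerivWithin_le h h2 (mem_univ b) (mem_univ a)
  rw [one_mul, Real.norm_eq_abs, Real.norm_eq_abs] at h3
  exact h3

theorem PhN_props : StrictMono PhN ∧ Continuous PhN ∧ (∀ b, 0 < PhN b ∧ PhN b < 1) ∧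
    (∀ b, PhN (-b) = 1 - PhN b) ∧ (PhN 0 = 1 / 2) ∧ (∀ y : ℝ, 0 < y → y < 1 → ∃ b, PhN b = y) ∧
    (∀ a b : ℝ, |PhN a - PhN b| ≤ |a - b| / 2) ∧
    (∀ d : ℝ, d < Real.sqrt (2 * Real.pi) / 2 → ∃ M0 : ℝ, ∀ M, M0 ≤ M → d < Psi M) ∧
    (∀ M, Psi M < Real.sqrt (2 * Real.pi) / 2) := by
  obtain ⟨s, hs⟩ : ∃ s : ℝ, s = Real.sqrt (2 * Real.pi) := ⟨_, rfl⟩
  have hs2 : 2 ≤ s := by rw [hs]; exact PhN_props_two
  have hs0 : 0 < s := by linarith
  have hlt : ∀ M, Psi M < s / 2 := by rw [hs]; exact PhN_props_lt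
  have hlim : Tendsto Psi atTop (𝓝 (s / 2)) := by rw [hs]; exact PhN_props_lim
  have hP : ∀ b, PhN b = 1 / 2 + Psi b / s := fun b => by rw [PhN, hs]
  have hbig : ∀ d : ℝ, d < s / 2 → ∃ M0 : ℝ, ∀ M, M0 ≤ M → d < Psi M := by
    intro d hd
    exact eventually_atTop.1 (hlim.eventually_const_lt hd)
  have hmono : StrictMono PhN := by
    intro a b hab
    rw [hP, hP]
    have := div_lt_div_of_pos_right (Psi_strictMono hab) hs0
    linarith
  have hcont : Continuous PhN := by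
    have : PhN = fun b => 1 / 2 + Psi b / s := funext hP
    rw [this]
    exact continuous_const.add (continuous_Psi.div_const s)
  have hgt : ∀ M, -(s / 2) < Psi M := by
    intro M
    have h1 := hlt (-M)
    rw [Psi_neg] at h1
    linarith
  rw [← hs]
  refine ⟨hmono, hcont, ?_, ?_, ?_, ?_, ?_, hbig, hlt⟩
  · intro b
    rw [hP]
    have h1 : Psi b / s < 1 / 2 := by
      rw [div_lt_iff₀ hs0]; linarith [hlt b]
    have h2 : -(1 / 2) < Psi b / s := by
      rw [lt_div_iff₀ hs0]; linarith [hgt b]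
    constructor <;> linarith
  · intro b
    rw [hP, hP, Psi_neg]
    ring
  · rw [hP, Psi_zero]
    simp
  · intro y hy0 hy1
    have h1 : (y - 1 / 2) * s < s / 2 := by nlinarith
    have h2 : (1 / 2 - y) * s < s / 2 := by nlinarith
    obtain ⟨M1, hM1⟩ := hbig _ h1
    obtain ⟨M2, hM2⟩ := hbig _ h2
    have h3 : PhN (-M2) < y := by
      rw [hP, Psi_neg]
      have h4 := hM2 M2 le_rfl
      have h5 : 1 / 2 - y < Psi M2 / s := by rw [lt_div_iff₀ hs0]; exact h4
      rw [neg_div]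
      linarith
    have h4 : y < PhN M1 := by
      rw [hP]
      have h4 := hM1 M1 le_rfl
      have h5 : y - 1 / 2 < Psi M1 / s := by rw [lt_div_iff₀ hs0]; exact h4
      linarith
    obtain ⟨b, hb⟩ := mem_range_of_exists_le_of_exists_ge hcont ⟨-M2, h3.le⟩ ⟨M1, h4.le⟩
    exact ⟨b, hb⟩
  · intro a b
    rw [hP, hP]
    have h1 := PhN_props_lip a b
    have e : 1 / 2 + Psi a / s - (1 / 2 + Psi b / s) = (Psi a - Psi b) / s := by ring
    rw [e, abs_div, abs_of_pos hs0]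
    calc |Psi a - Psi b| / s ≤ |a - b| / s := div_le_div_of_nonneg_right h1 hs0.le
      _ ≤ |a - b| / 2 := div_le_div_of_nonneg_left (abs_nonneg _) (by norm_num) hs2

-- mfd
theorem mfd_scal (t : ℕ) (ht : 1 ≤ t) (lam : Fin t → ℝ) (hlam : ∀ i, 0 < lam i ∧ lam i ≤ 1)
    (θ : Fin t → ℝ) (hθ : 0 < ∑ i, lam i * θ i) :
    ∃ (S0 M B l0 : ℝ) (y a : Fin t → ℝ), 0 < S0 ∧ 0 < M ∧ 0 < l0 ∧ (∀ i, l0 ≤ lam i) ∧ M ≤ B ∧
      t * M ≤ l0 * B ∧ (∀ i, |y i| ≤ B) ∧ 2 * S0 ≤ ∑ i, lam i * y i ∧ (∀ i, 0 < a i ∧ a i ≤ 1) ∧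
      (∀ i, Psi (y i) ≤ a i * Psi M - (1 - a i) * Psi B) ∧ (∀ i, a i < PhN (θ i)) := by
  obtain ⟨hmono, -, h01, -, -, -, -, hlim, hlt⟩ := PhN_props
  set L := ∑ i, lam i with hL
  set σ := ∑ i, lam i * θ i with hσ
  have hne : Nonempty (Fin t) := ⟨⟨0, by omega⟩⟩
  have hLpos : 0 < L := Finset.sum_pos (fun i _ => (hlam i).1) Finset.univ_nonempty
  set δ := σ / (2 * L) with hδdef
  have hδ : 0 < δ := by positivity
  obtain ⟨i0, hi0⟩ := Finite.exists_min lam
  set c := Real.sqrt (2 * Real.pi) / 2 with hc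
  have hcpos : 0 < c := by positivity
  have hs : Real.sqrt (2 * Real.pi) = 2 * c := by rw [hc]; ring
  have hgap : ∀ i, Psi (θ i - δ) < Psi (θ i - δ / 2) := fun i => Psi_strictMono (by linarith)
  have hM0 : ∀ i, ∃ M0 : ℝ, ∀ M, M0 ≤ M → c - (Psi (θ i - δ / 2) - Psi (θ i - δ)) < Psi M :=
    fun i => hlim _ (by have := hgap i; linarith)
  choose M0 hM0 using hM0
  set M := 1 + ∑ i, (|M0 i| + |θ i - δ|) with hMdef
  have hsum0 : ∀ i, |M0 i| + |θ i - δ| ≤ ∑ i, (|M0 i| + |θ i - δ|) := fun i =>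
    Finset.single_le_sum (f := fun i => |M0 i| + |θ i - δ|) (fun j _ => by positivity)
      (Finset.mem_univ i)
  have hM1 : 1 ≤ M := by
    have : 0 ≤ ∑ i, (|M0 i| + |θ i - δ|) := Finset.sum_nonneg fun i _ => by positivity
    linarith
  have hMM0 : ∀ i, M0 i ≤ M := fun i => by
    have := hsum0 i; have h2 := le_abs_self (M0 i); have h3 := abs_nonneg (θ i - δ)
    linarith
  have hMy : ∀ i, |θ i - δ| ≤ M := fun i => by
    have := hsum0 i; have h2 := abs_nonneg (M0 i)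
    linarith
  have hl0 : 0 < lam i0 := (hlam i0).1
  have ht1 : (1 : ℝ) ≤ t := by exact_mod_cast ht
  set B := t * M / lam i0 with hB
  have hBeq : lam i0 * B = t * M := by rw [hB]; field_simp
  have hMB : M ≤ B := by
    rw [hB, le_div_iff₀ hl0]
    have h1 : M * lam i0 ≤ M * 1 := mul_le_mul_of_nonneg_left (hlam i0).2 (by linarith)
    have h2 : 1 * M ≤ t * M := mul_le_mul_of_nonneg_right ht1 (by linarith)
    linarith
  refine ⟨σ / 4, M, B, lam i0, fun i => θ i - δ, fun i => PhN (θ i - δ / 2), by positivity,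
    by linarith, hl0, hi0, hMB, hBeq.ge, fun i => (hMy i).trans hMB, ?_,
    fun i => ⟨(h01 _).1, (h01 _).2.le⟩, ?_, fun i => hmono (by linarith)⟩
  · have : ∑ i, lam i * (θ i - δ) = σ - δ * L := by
      simp only [mul_sub, Finset.sum_sub_distrib, hσ, hL]
      rw [← Finset.sum_mul]; ring
    rw [this, hδdef]
    have : σ / (2 * L) * L = σ / 2 := by field_simp
    rw [this]; linarith
  · intro i
    have h1 := hM0 i M (hMM0 i)
    have h2 := hlt B
    have h3 : PhN (θ i - δ / 2) = 1 / 2 + Psi (θ i - δ / 2) / (2 * c) := by rw [PhN, hs]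
    obtain ⟨ha0, ha1⟩ := h01 (θ i - δ / 2)
    set a := PhN (θ i - δ / 2) with ha
    have h4 : (2 * a - 1) * c = Psi (θ i - δ / 2) := by
      rw [h3]; field_simp; ring
    have h5 : a * (c - (Psi (θ i - δ / 2) - Psi (θ i - δ))) ≤ a * Psi M :=
      mul_le_mul_of_nonneg_left h1.le ha0.le
    have h6 : (1 - a) * Psi B ≤ (1 - a) * c :=
      mul_le_mul_of_nonneg_left h2.le (by linarith)
    have h7 : 0 ≤ (1 - a) * (Psi (θ i - δ / 2) - Psi (θ i - δ)) :=
      mul_nonneg (by linarith) (by linarith [hgap i])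
    show Psi (θ i - δ) ≤ a * Psi M - (1 - a) * Psi B
    nlinarith

theorem mfd_lim {F : Type} [NormedAddCommGroup F] [InnerProductSpace ℝ F] [CompleteSpace F]
    [FiniteDimensional ℝ F] {t : ℕ} (s : Fin t → SS F) (K : Fin t → Set (SS F))
    (hK : ∀ i, IsClosed (K i)) (hKne : ∀ i, (K i).Nonempty) {p : ℝ}
    (h : ∀ r0 : ℝ, 0 < r0 → p ≤ (hm F).real {g | ∀ i, infDist (sa g (s i)) (K i) < r0}) :
    p ≤ (hm F).real {g | ∀ i, sa g (s i) ∈ K i} := by
  set A : ℕ → Set (UG F) := fun k => {g | ∀ i, infDist (sa g (s i)) (K i) < 1 / ((k : ℝ) + 1)}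
    with hA
  have hop : ∀ k, IsOpen (A k) := by
    intro k
    have : A k = ⋂ i, {g | infDist (sa g (s i)) (K i) < 1 / ((k : ℝ) + 1)} := by
      ext g; simp [hA]
    rw [this]
    exact isOpen_iInter_of_finite fun i =>
      isOpen_lt ((continuous_infDist_pt _).comp (sa_continuous_left (s i))) continuous_const
  have hanti : Antitone A := by
    intro k l hkl g hg i
    refine (hg i).trans_le ?_
    have : (k : ℝ) ≤ l := by exact_mod_cast hkl
    exact one_div_le_one_div_of_le (by positivity) (by linarith)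
  have hinter : ⋂ k, A k = {g | ∀ i, sa g (s i) ∈ K i} := by
    ext g
    simp only [mem_iInter, hA, mem_ofPred_eq]
    constructor
    · intro hg i
      have h0 : infDist (sa g (s i)) (K i) = 0 := by
        refine le_antisymm (le_of_forall_pos_lt_add fun ε hε => ?_) infDist_nonneg
        obtain ⟨n, hn⟩ := exists_nat_one_div_lt hε
        rw [zero_add]
        exact (hg n i).trans hn
      exact ((hK i).mem_iff_infDist_zero (hKne i)).mpr h0
    · intro hg k i
      rw [infDist_zero_of_mem (hg i)]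
      positivity
  have hlim := tendsto_measure_iInter_atTop (μ := hm F) (s := A)
    (fun k => (hop k).measurableSet.nullMeasurableSet) hanti ⟨0, measure_ne_top _ _⟩
  rw [hinter] at hlim
  have hlim' : Tendsto (fun k => (hm F).real (A k)) atTop
      (𝓝 ((hm F).real {g | ∀ i, sa g (s i) ∈ K i})) :=
    (ENNReal.tendsto_toReal (measure_ne_top _ _)).comp hlim
  exact ge_of_tendsto' hlim' fun k => h _ (by positivity)

theorem mfd (t : ℕ) (ht : 1 ≤ t) (lam : Fin t → ℝ) (hlam : ∀ i, 0 < lam i ∧ lam i ≤ 1) {κ0 : ℝ}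
    (hκ : 0 < κ0) (θ : Fin t → ℝ) (hθ : 0 < ∑ i, lam i * θ i) :
    ∃ p1 : ℝ, 0 < p1 ∧ ∃ n0 : ℕ, ∀ (E : Type) [NormedAddCommGroup E]
    [InnerProductSpace ℝ E] [CompleteSpace E] [FiniteDimensional ℝ E] [MeasurableSpace E]
    [BorelSpace E], n0 ≤ Module.finrank ℝ E → ∀ s : Fin t → SS E,
    (∀ a : Fin t → ℝ, κ0 * ∑ i, (a i - (∑ l, a l) / t) ^ 2
      ≤ ‖∑ i, (lam i * a i) • (s i : E)‖ ^ 2) →
    ∀ D : Fin t → Set (SS E), (∀ i, MeasurableSet (D i)) → (∀ i, PhN (θ i) ≤ (sm E).real (D i)) →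
    p1 ≤ (hm E).real {g | ∀ i, sa g (s i) ∈ D i} := by
  obtain ⟨S0, M, B, l0, y, a, hS, hM, hl0, hll, hMB, htM, hyB, hyS, ha, hy, haθ⟩ :=
    mfd_scal t ht lam hlam θ hθ
  have ht1 : (1 : ℝ) ≤ t := by exact_mod_cast ht
  have htpos : (0 : ℝ) < t := by linarith
  obtain ⟨N, hN⟩ := exists_nat_ge (t * B * (B + B ^ 2 * t / S0) / κ0)
  have hN' : t * B * (B + B ^ 2 * t / S0) ≤ N * κ0 := by rwa [div_le_iff₀ hκ] at hN
  set c : ℝ := S0 ^ (N + 3) / (2 * (t * Psi B ^ 2 + 1)) with hc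
  have hcpos : 0 < c := by positivity
  have hc1 : c * (t * Psi B ^ 2) ≤ S0 ^ (N + 3) / 2 := by
    have h1 : c * (t * Psi B ^ 2 + 1) = S0 ^ (N + 3) / 2 := by
      rw [hc]; field_simp
    nlinarith
  obtain ⟨m0, hm0⟩ := exists_nat_gt (2 * KK t S0 N B * t / (4 * c))
  have hm0' : 2 * KK t S0 N B * t < 4 * c * m0 := by
    rw [div_lt_iff₀ (by positivity)] at hm0; linarith
  have hpow : 0 < (t * M) ^ (N + 3) := by positivity
  refine ⟨S0 ^ (N + 3) / (2 * (t * M) ^ (N + 3)), by positivity, m0 + 2, ?_⟩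
  intro E _ _ _ _ _ _ hE s hco D hD hDm
  obtain ⟨m, hmE⟩ : ∃ m, Module.finrank ℝ E = m + 2 := ⟨Module.finrank ℝ E - 2, by omega⟩
  have hmm : (m0 : ℝ) ≤ m := by
    have : m0 ≤ m := by omega
    exact_mod_cast this
  have hc2 : 2 * KK t S0 N B * t < 4 * c * (m + 1) := by
    have : 4 * c * (m0 : ℝ) ≤ 4 * c * (m + 1) :=
      mul_le_mul_of_nonneg_left (by linarith) (by positivity)
    linarith
  have hfr : 1 ≤ Module.finrank ℝ E := by omega
  obtain ⟨x0⟩ := sm_nonempty hfr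
  have := sm_prob (E := E) hfr
  have hK : ∀ i, ∃ K ⊆ D i, IsClosed K ∧ a i ≤ (hm E).real {g | sa g x0 ∈ K} := by
    intro i
    have h1 : ENNReal.ofReal (a i) < sm E (D i) := by
      rw [ENNReal.ofReal_lt_iff_lt_toReal (ha i).1.le (measure_ne_top _ _)]
      exact (haθ i).trans_le (hDm i)
    obtain ⟨K, hKD, hKc, hKm⟩ := (hD i).exists_lt_isClosed_of_ne_top (measure_ne_top _ _) h1
    refine ⟨K, hKD, hKc, ?_⟩
    have h2 : (hm E) {g | sa g x0 ∈ K} = sm E K := by
      rw [sm_eq hfr x0, Measure.map_apply (sa_continuous_left x0).measurable hKc.measurableSet]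
      rfl
    have h3 : a i < (sm E K).toReal := by
      rw [← ENNReal.ofReal_lt_iff_lt_toReal (ha i).1.le (measure_ne_top _ _)]
      exact hKm
    rw [Measure.real, h2]
    exact h3.le
  choose K hKD hKc hKm using hK
  have hKne : ∀ i, (K i).Nonempty := by
    intro i
    by_contra hemp
    rw [not_nonempty_iff_eq_empty] at hemp
    have := hKm i
    rw [hemp] at this
    simp at this
    linarith [(ha i).1]
  refine (mfd_lim (p := S0 ^ (N + 3) / (2 * (t * M) ^ (N + 3))) s K hKc hKne ?_).trans ?_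
  · intro r0 hr0
    have hq := quantw hmE ht (fun i => ⟨(hlam i).1.le, (hlam i).2⟩) s hco hκ hM hl0 hll hMB htM hS
      hcpos.le hN' hc2 y a hyB hyS (fun i => ⟨(ha i).1.le, (ha i).2⟩) hy K hKc hKne x0 hKm hr0
    rw [div_le_iff₀ (by positivity)]
    linarith
  · refine measureReal_mono ?_ (measure_ne_top _ _)
    intro g hg i
    exact hKD i (hg i)


end CoreW

end Pool.Agent.helper440_simplex
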