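import Pool.Agent.helper440_simplex.Core

set_option autoImplicit false
set_option linter.unusedSectionVars false

namespace Pool.Agent.helper440_simplex

open MeasureTheory Metric Set Filter Topology
open scoped RealInnerProductSpace

/-! # Stability near the hemisphere -/

/-- regular simplex -/
def IsSimp {E : Type*} [NormedAddCommGroup E] [InnerProductSpace ℝ E] {t : ℕ}
    (s : Fin t → SS E) : Prop := ∀ i l, i ≠ l → ⟪(s i : E), (s l : E)⟫ = -1 / (t - 1 : ℝ)

/-- indicator function -/
noncomputable def ind {E : Type*} [NormedAddCommGroup E] (B : Set (SS E)) : SS E → ℝ :=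
  B.indicator (fun _ => (1 : ℝ))

end Pool.Agent.helper440_simplex
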