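import Pool.Agent.helper440_simplex.Spec
import Pool.Agent.helper440_simplex.Mf
import Pool.Agent.helper440_simplex.Simp

set_option autoImplicit false
set_option linter.unusedSectionVars false

namespace Pool.Agent.helper440_simplex

open MeasureTheory Metric Set Filter Topology
open scoped RealInnerProductSpace

section CoreW
variable {E : Type*} [NormedAddCommGroup E] [InnerProductSpace ℝ E] [CompleteSpace E]
  [FiniteDimensional ℝ E] [MeasurableSpace E] [BorelSpace E]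

section Frames
variable {E : Type*} [NormedAddCommGroup E] [InnerProductSpace ℝ E] [CompleteSpace E]
  [FiniteDimensional ℝ E] [MeasurableSpace E] [BorelSpace E]

-- exists_frame
theorem exists_frame {t : ℕ} (ht : 2 ≤ t) (hn : t + 1 ≤ Module.finrank ℝ E) (e : SS E)
    (c : Fin t → ℝ) (h0 : ∑ i, c i = 0) (h1 : ∑ i, c i ^ 2 < t / (t - 1 : ℝ)) :
    ∃ s : Fin t → SS E, IsSimp s ∧ ∀ i, ⟪(e : E), (s i : E)⟫ = c i := by
  classical
  obtain ⟨s', hs'⟩ := exists_simplex (E := E) ht (by omega : t ≤ Module.finrank ℝ E) rfl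
  have htR : (2 : ℝ) ≤ t := by exact_mod_cast ht
  have hq : (0 : ℝ) < t - 1 := by linarith
  have htp : (0 : ℝ) < t := by linarith
  set W : Submodule ℝ E := Submodule.span ℝ (Set.range fun i => ((s' i : SS E) : E)) with hW
  have hWmem : ∀ i, ((s' i : SS E) : E) ∈ W := fun i => Submodule.subset_span ⟨i, rfl⟩
  set u : E := (((t : ℝ) - 1) / t) • ∑ i, c i • ((s' i : SS E) : E) with hu
  have huW : u ∈ W := W.smul_mem _ (W.sum_mem fun i _ => W.smul_mem _ (hWmem i))
  have hin : ∀ i j, ⟪((s' i : SS E) : E), ((s' j : SS E) : E)⟫ =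
      if i = j then 1 else -1 / ((t : ℝ) - 1) := by
    intro i j
    by_cases h : i = j
    · rw [if_pos h, h, real_inner_self_eq_norm_sq, norm_eq_of_mem_sphere, one_pow]
    · rw [if_neg h, hs' i j h]
  have hus : ∀ j, ⟪u, ((s' j : SS E) : E)⟫ = c j := by
    intro j
    rw [hu, real_inner_smul_left, sum_inner]
    have e1 : ∀ i, ⟪c i • ((s' i : SS E) : E), ((s' j : SS E) : E)⟫ =
        c i * (-1 / ((t : ℝ) - 1)) + (if i = j then c i * (1 + 1 / ((t : ℝ) - 1)) else 0) := by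
      intro i
      rw [real_inner_smul_left, hin]
      by_cases h : i = j
      · rw [if_pos h, if_pos h]; ring
      · rw [if_neg h, if_neg h]; ring
    simp only [e1]
    rw [Finset.sum_add_distrib, ← Finset.sum_mul, h0, Finset.sum_ite_eq' Finset.univ j,
      if_pos (Finset.mem_univ _), zero_mul, zero_add]
    field_simp
    ring
  have huu : ‖u‖ ^ 2 < 1 := by
    rw [← real_inner_self_eq_norm_sq]
    have e1 : ⟪u, u⟫ = (((t : ℝ) - 1) / t) * ∑ i, c i ^ 2 := by
      conv_lhs => rw [hu]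
      rw [← hu, real_inner_smul_left, sum_inner]
      congr 1
      refine Finset.sum_congr rfl fun i _ => ?_
      rw [real_inner_smul_left, real_inner_comm, hus]
      ring
    rw [e1]
    calc (((t : ℝ) - 1) / t) * ∑ i, c i ^ 2 < (((t : ℝ) - 1) / t) * (t / (t - 1 : ℝ)) :=
          mul_lt_mul_of_pos_left h1 (by positivity)
      _ = 1 := by field_simp
  -- an orthogonal unit vector
  have hWt : W ≠ ⊤ := by
    intro h
    have h2 : Module.finrank ℝ W ≤ t := by
      have := finrank_range_le_card (R := ℝ) (fun i => ((s' i : SS E) : E))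
      rw [Fintype.card_fin] at this
      exact this
    rw [h, finrank_top] at h2
    omega
  obtain ⟨f0, hf0W, hf0⟩ : ∃ f0 ∈ Wᗮ, f0 ≠ 0 := by
    by_contra hcon
    push Not at hcon
    apply hWt
    rw [← Submodule.orthogonal_eq_bot_iff]
    exact (Submodule.eq_bot_iff _).2 hcon
  set f : E := (‖f0‖)⁻¹ • f0 with hf
  have hfW : f ∈ Wᗮ := Wᗮ.smul_mem _ hf0W
  have hfn : ‖f‖ = 1 := by
    rw [hf, norm_smul, norm_inv, norm_norm, inv_mul_cancel₀ (norm_ne_zero_iff.2 hf0)]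
  have hwf : ∀ w ∈ W, ⟪w, f⟫ = 0 := fun w hw => (Submodule.mem_orthogonal _ _).1 hfW w hw
  set r : ℝ := Real.sqrt (1 - ‖u‖ ^ 2) with hr
  have hr2 : r ^ 2 = 1 - ‖u‖ ^ 2 := Real.sq_sqrt (by linarith)
  have hen : ‖u + r • f‖ = 1 := by
    have h2 : ‖u + r • f‖ ^ 2 = 1 := by
      have h3 : ‖r • f‖ = |r| := by rw [norm_smul, hfn, mul_one, Real.norm_eq_abs]
      rw [norm_add_sq_real, real_inner_smul_right, hwf u huW, h3, sq_abs, hr2]
      ring
    nlinarith [norm_nonneg (u + r • f)]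
  set e' : SS E := ⟨u + r • f, by rw [mem_sphere_zero_iff_norm]; exact hen⟩ with he'
  obtain ⟨g, hg⟩ := sa_trans (E := E) (by omega) e' e
  refine ⟨fun i => sa g (s' i), ?_, ?_⟩
  · intro i l hil
    rw [sa_coe, sa_coe, av_inner]
    exact hs' i l hil
  · intro i
    rw [← hg, sa_coe, sa_coe, av_inner, he']
    show ⟪u + r • f, ((s' i : SS E) : E)⟫ = c i
    rw [inner_add_left, hus, real_inner_smul_left, real_inner_comm, hwf _ (hWmem i), mul_zero,
      add_zero]

-- simp_trans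
/-- two families with the same Gram matrix have linear combinations of the same norm -/
theorem simp_trans_norm {t : ℕ} (s s' : Fin t → SS E)
    (h : ∀ i l, ⟪(s i : E), (s l : E)⟫ = ⟪(s' i : E), (s' l : E)⟫) (c : Fin t → ℝ) :
    ‖∑ i, c i • (s i : E)‖ = ‖∑ i, c i • (s' i : E)‖ := by
  have key : ‖∑ i, c i • (s i : E)‖ ^ 2 = ‖∑ i, c i • (s' i : E)‖ ^ 2 := by
    rw [← real_inner_self_eq_norm_sq, ← real_inner_self_eq_norm_sq]
    simp only [sum_inner, inner_sum, real_inner_smul_left, real_inner_smul_right, h]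
  exact (sq_eq_sq₀ (norm_nonneg _) (norm_nonneg _)).mp key

/-- families with the same Gram matrix are equivalent under the orthogonal group -/
theorem simp_trans_gram {t : ℕ} (s s' : Fin t → SS E)
    (h : ∀ i l, ⟪(s i : E), (s l : E)⟫ = ⟪(s' i : E), (s' l : E)⟫) :
    ∃ g : UG E, ∀ i, sa g (s i) = s' i := by
  classical
  let L : (Fin t → ℝ) →ₗ[ℝ] E := Fintype.linearCombination ℝ (fun i => (s i : E))
  let L' : (Fin t → ℝ) →ₗ[ℝ] E := Fintype.linearCombination ℝ (fun i => (s' i : E))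
  have hL : ∀ c, L c = ∑ i, c i • (s i : E) := fun c => rfl
  have hL' : ∀ c, L' c = ∑ i, c i • (s' i : E) := fun c => rfl
  have hn : ∀ c, ‖L c‖ = ‖L' c‖ := by
    intro c
    rw [hL, hL']
    exact simp_trans_norm s s' h c
  have hker : LinearMap.ker L ≤ LinearMap.ker L' := by
    intro c hc
    rw [LinearMap.mem_ker] at hc ⊢
    have := hn c
    rw [hc, norm_zero] at this
    exact norm_eq_zero.mp this.symm
  let f : LinearMap.range L →ₗ[ℝ] E :=
    ((LinearMap.ker L).liftQ L' hker).comp (L.quotKerEquivRange.symm : _ →ₗ[ℝ] _)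
  have hf : ∀ c, f ⟨L c, LinearMap.mem_range_self L c⟩ = L' c := by
    intro c
    have e1 : L.quotKerEquivRange.symm ⟨L c, LinearMap.mem_range_self L c⟩
        = (LinearMap.ker L).mkQ c := by
      rw [LinearEquiv.symm_apply_eq]
      rfl
    show ((LinearMap.ker L).liftQ L' hker) (L.quotKerEquivRange.symm ⟨L c, _⟩) = L' c
    rw [e1]
    rfl
  let F : LinearMap.range L →ₗᵢ[ℝ] E :=
    { toLinearMap := f
      norm_map' := by
        rintro ⟨x, c, rfl⟩
        rw [hf c]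
        exact (hn c).symm }
  let G : E →ₗᵢ[ℝ] E := F.extend
  let e : E ≃ₗᵢ[ℝ] E := G.toLinearIsometryEquiv rfl
  refine ⟨Unitary.linearIsometryEquiv.symm e, fun i => ?_⟩
  apply Subtype.ext
  show ((Unitary.linearIsometryEquiv.symm e : UG E) : E →L[ℝ] E) (s i) = s' i
  rw [Unitary.coe_symm_linearIsometryEquiv_apply]
  show G (s i : E) = s' i
  have h1 : L (Pi.single i 1) = (s i : E) := by
    rw [hL]
    simp [Pi.single_apply]
  have h2 : L' (Pi.single i 1) = (s' i : E) := by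
    rw [hL']
    simp [Pi.single_apply]
  have h3 : G (L (Pi.single i 1)) = L' (Pi.single i 1) := by
    have := F.extend_apply ⟨L (Pi.single i 1), LinearMap.mem_range_self L _⟩
    exact this.trans (hf _)
  rw [h1, h2] at h3
  exact h3

theorem simp_trans {t : ℕ} (ht : 2 ≤ t) (s s' : Fin t → SS E) (hs : IsSimp s) (hs' : IsSimp s') :
    ∃ g : UG E, ∀ i, sa g (s i) = s' i := by
  refine simp_trans_gram s s' fun i l => ?_
  by_cases hil : i = l
  · subst hil
    rw [real_inner_self_eq_norm_sq, real_inner_self_eq_norm_sq,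
      norm_eq_of_mem_sphere, norm_eq_of_mem_sphere]
  · rw [hs i l hil, hs' i l hil]

-- simp_prob_eq
theorem simp_prob_eq {t : ℕ} (ht : 2 ≤ t) (s s' : Fin t → SS E) (hs : IsSimp s) (hs' : IsSimp s')
    (B : Set (SS E)) :
    (hm E).real {g | ∀ i, sa g (s i) ∈ B} = (hm E).real {g | ∀ i, sa g (s' i) ∈ B} := by
  obtain ⟨g0, hg0⟩ := simp_trans ht s s' hs hs'
  have e : {g : UG E | ∀ i, sa g (s' i) ∈ B}
      = (fun h : UG E => h * g0) ⁻¹' {g : UG E | ∀ i, sa g (s i) ∈ B} := by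
    ext g
    simp only [Set.mem_ofPred_eq, Set.mem_preimage, sa_mul, hg0]
  rw [Measure.real, Measure.real, e, measure_preimage_mul_right]

-- frame_coer
theorem frame_coer_sum {t : ℕ} (ht : 2 ≤ t) (s : Fin t → SS E) (hs : IsSimp s) (a : Fin t → ℝ) :
    ‖∑ i, a i • (s i : E)‖ ^ 2 = (t / (t - 1 : ℝ)) * ∑ i, (a i - (∑ l, a l) / t) ^ 2 := by
  have ht0 : (t : ℝ) ≠ 0 := by positivity
  have ht1 : (t : ℝ) - 1 ≠ 0 := by
    have : (2 : ℝ) ≤ t := by exact_mod_cast ht
    linarith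
  have e1 : ‖∑ i, a i • (s i : E)‖ ^ 2 = ∑ i, ∑ l, a i * a l * ⟪(s i : E), (s l : E)⟫ := by
    rw [← real_inner_self_eq_norm_sq, sum_inner]
    refine Finset.sum_congr rfl fun i _ => ?_
    rw [inner_sum]
    refine Finset.sum_congr rfl fun l _ => ?_
    rw [real_inner_smul_left, real_inner_smul_right]; ring
  have e2 : ∀ i l, a i * a l * ⟪(s i : E), (s l : E)⟫
      = (if l = i then (t / (t - 1 : ℝ)) * a i ^ 2 else 0) - (1 / (t - 1 : ℝ)) * (a i * a l) := by
    intro i l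
    by_cases h : l = i
    · subst h
      rw [if_pos rfl, real_inner_self_eq_norm_sq, norm_eq_of_mem_sphere (s l)]
      field_simp
    · rw [if_neg h, hs i l (fun h' => h h'.symm)]
      ring
  have e3 : ∑ i, ∑ l, a i * a l * ⟪(s i : E), (s l : E)⟫
      = (t / (t - 1 : ℝ)) * ∑ i, a i ^ 2 - (1 / (t - 1 : ℝ)) * (∑ i, a i) ^ 2 := by
    rw [Finset.sum_congr rfl fun i _ => Finset.sum_congr rfl fun l _ => e2 i l]
    simp only [Finset.sum_sub_distrib, Finset.sum_ite_eq', Finset.mem_univ, if_true,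
      ← Finset.mul_sum]
    rw [← Finset.sum_mul, sq]
  have e4 : ∑ i, (a i - (∑ l, a l) / t) ^ 2 = ∑ i, a i ^ 2 - (∑ i, a i) ^ 2 / t := by
    have : ∀ i, (a i - (∑ l, a l) / t) ^ 2
        = a i ^ 2 - a i * (2 * (∑ l, a l) / t) + ((∑ l, a l) / t) ^ 2 := fun i => by ring
    simp only [this, Finset.sum_add_distrib, Finset.sum_sub_distrib, ← Finset.sum_mul,
      Finset.sum_const, Finset.card_univ, Fintype.card_fin, nsmul_eq_mul]
    field_simp
    ring
  rw [e1, e3, e4]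
  field_simp

theorem frame_coer {t : ℕ} (ht : 2 ≤ t) (e : SS E) (s : Fin t → SS E) (hs : IsSimp s)
    (c : Fin t → ℝ) (h0 : ∑ i, c i = 0) (hc : ∀ i, |c i| < 1) (z : Fin t → SS (Pe e))
    (hz : ∀ i, s i = pt e (c i) (z i)) (a : Fin t → ℝ) :
    (t / (t - 1 : ℝ) - ∑ i, c i ^ 2) * ∑ i, (a i - (∑ l, a l) / t) ^ 2
      ≤ ‖∑ i, (Real.sqrt (1 - c i ^ 2) * a i) • (z i : Pe e)‖ ^ 2 := by
  set v : Pe e := ∑ i, (Real.sqrt (1 - c i ^ 2) * a i) • (z i : Pe e) with hv
  have h1 : (∑ i, a i • (s i : E)) = (v : E) + (∑ i, a i * c i) • (e : E) := by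
    have hvE : (v : E) = ∑ i, (Real.sqrt (1 - c i ^ 2) * a i) • ((z i : Pe e) : E) := by
      rw [hv]; simp
    rw [hvE, Finset.sum_smul, ← Finset.sum_add_distrib]
    refine Finset.sum_congr rfl fun i _ => ?_
    have hh := abs_lt.1 (hc i)
    rw [hz i, pt_coe hh.1.le hh.2.le, smul_add, smul_smul, smul_smul, mul_comm (a i) (Real.sqrt _)]
    abel
  have h2 : ⟪(v : E), (e : E)⟫ = 0 := by
    rw [real_inner_comm]; exact Pe_inner e v
  have h3 : ‖∑ i, a i • (s i : E)‖ ^ 2 = ‖v‖ ^ 2 + (∑ i, a i * c i) ^ 2 := by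
    rw [h1, norm_add_sq_real, real_inner_smul_right, h2, norm_smul, norm_eq_of_mem_sphere e,
      Real.norm_eq_abs, mul_one, sq_abs, Submodule.coe_norm]
    ring
  have h4 : ∑ i, a i * c i = ∑ i, (a i - (∑ l, a l) / t) * c i := by
    simp only [sub_mul, Finset.sum_sub_distrib, ← Finset.mul_sum, h0, mul_zero, sub_zero]
  have h5 : (∑ i, a i * c i) ^ 2
      ≤ (∑ i, (a i - (∑ l, a l) / t) ^ 2) * ∑ i, c i ^ 2 := by
    rw [h4]
    exact Finset.sum_mul_sq_le_sq_mul_sq _ _ _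
  have h6 := frame_coer_sum ht s hs a
  rw [h3] at h6
  nlinarith

-- slice_ineq
theorem slice_ineq_meas (hn : 3 ≤ Module.finrank ℝ E) (r : ℝ) {f : SS E → ℝ} (hf : Measurable f) :
    Measurable (PP r f) := by
  have h1 : Measurable (fun x : SS E => ((r, x) : ℝ × SS E)) :=
    measurable_const.prodMk measurable_id
  have h2 := (PP_meas hn hf).comp h1
  exact h2

theorem slice_ineq_ind {α : Type*} [MeasurableSpace α] (μ : Measure α) {S : Set α}
    (hS : MeasurableSet S) : ∫ x, S.indicator (fun _ => (1 : ℝ)) x ∂μ = μ.real S := by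
  rw [integral_indicator_const (1 : ℝ) hS]; simp

theorem slice_ineq_dcont (e : SS E) (g : UG E) (r : ℝ) :
    Continuous (fun w : SS (Pe e) => sa g (pt e r w)) := by
  have h0 := pt_cont e
  have h1 : Continuous (fun w : SS (Pe e) => ((r, w) : ℝ × SS (Pe e))) :=
    Continuous.prodMk_right r
  have h2 := h0.comp h1
  simp only [Function.comp_def] at h2
  have h3 := (sa_continuous_right g).comp h2
  simp only [Function.comp_def] at h3
  exact h3

theorem slice_ineq_D (hn2 : 2 ≤ Module.finrank ℝ E) (e : SS E) (g : UG E) (r : ℝ)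
    {B : Set (SS E)} (hB : MeasurableSet B) :
    (sm (Pe e)).real {w : SS (Pe e) | sa g (pt e r w) ∈ B} = PP r (ind B) (sa g e) := by
  have hindm : Measurable (ind B) := measurable_const.indicator hB
  have hDm : MeasurableSet {w : SS (Pe e) | sa g (pt e r w) ∈ B} :=
    (slice_ineq_dcont e g r).measurable hB
  rw [PP_rot hn2 r hindm g e, ← slice_ineq_ind _ hDm]
  unfold PP
  rfl

theorem slice_ineq_set {t : ℕ} {F : Type*} [NormedAddCommGroup F] [InnerProductSpace ℝ F]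
    [CompleteSpace F] [FiniteDimensional ℝ F] [MeasurableSpace F] [BorelSpace F]
    (z : Fin t → SS F) (D : Fin t → Set (SS F)) (hD : ∀ i, MeasurableSet (D i)) :
    MeasurableSet {k : UG F | ∀ i, sa k (z i) ∈ D i} := by
  have : {k : UG F | ∀ i, sa k (z i) ∈ D i} = ⋂ i, (fun k => sa k (z i)) ⁻¹' (D i) := by
    ext k; simp
  rw [this]
  exact MeasurableSet.iInter fun i => (sa_continuous_left (z i)).measurable (hD i)

theorem slice_ineq_S {t : ℕ} (hn3 : 3 ≤ Module.finrank ℝ E) (c θ : Fin t → ℝ)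
    {f : SS E → ℝ} (hf : Measurable f) :
    MeasurableSet {x : SS E | ∀ i, θ i ≤ PP (c i) f x} := by
  have : {x : SS E | ∀ i, θ i ≤ PP (c i) f x} = ⋂ i, {x : SS E | θ i ≤ PP (c i) f x} := by
    ext g; simp
  rw [this]
  refine MeasurableSet.iInter fun i => ?_
  exact measurableSet_le measurable_const (slice_ineq_meas hn3 (c i) hf)

theorem slice_ineq_inner {t : ℕ} (e : SS E) (c : Fin t → ℝ) (s' : Fin t → SS E)
    (z : Fin t → SS (Pe e)) (hz : ∀ i, s' i = pt e (c i) (z i)) {B : Set (SS E)}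
    (hB : MeasurableSet B) (g : UG E) :
    ∫ k, ({g : UG E | ∀ i, sa g (s' i) ∈ B}).indicator (fun _ => (1 : ℝ)) (g * ex e k)
      ∂(hm (Pe e))
      = (hm (Pe e)).real {k | ∀ i, sa k (z i) ∈ {w : SS (Pe e) | sa g (pt e (c i) w) ∈ B}} := by
  have hset := slice_ineq_set z (fun i => {w : SS (Pe e) | sa g (pt e (c i) w) ∈ B})
    (fun i => (slice_ineq_dcont e g (c i)).measurable hB)
  rw [← slice_ineq_ind _ hset]
  refine integral_congr_ae (Filter.Eventually.of_forall fun k => ?_)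
  have : (g * ex e k ∈ {g : UG E | ∀ i, sa g (s' i) ∈ B}) ↔
      (k ∈ {k : UG (Pe e) | ∀ i, sa k (z i) ∈ {w : SS (Pe e) | sa g (pt e (c i) w) ∈ B}}) := by
    simp only [Set.mem_ofPred_eq]
    refine forall_congr' fun i => ?_
    rw [sa_mul, hz i, ex_pt]
  by_cases h : k ∈ {k : UG (Pe e) | ∀ i, sa k (z i) ∈ {w : SS (Pe e) | sa g (pt e (c i) w) ∈ B}}
  · show Set.indicator _ _ _ = Set.indicator _ _ _
    rw [Set.indicator_of_mem h, Set.indicator_of_mem (this.2 h)]
  · show Set.indicator _ _ _ = Set.indicator _ _ _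
    rw [Set.indicator_of_notMem h, Set.indicator_of_notMem (fun h' => h (this.1 h'))]

theorem slice_ineq_str (e : SS E) {Φ : UG E → ℝ} (hΦm : Measurable Φ) :
    StronglyMeasurable (fun g : UG E => ∫ k, Φ (g * ex e k) ∂(hm (Pe e))) := by
  have hmeas2 : Measurable (fun p : UG E × UG (Pe e) => Φ (p.1 * ex e p.2)) := by
    have h1 : Continuous (fun p : UG E × UG (Pe e) => p.1 * ex e p.2) :=
      continuous_fst.mul ((ex_cont e).comp continuous_snd)
    exact hΦm.comp h1.measurable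
  exact hmeas2.stronglyMeasurable.integral_prod_right'

theorem slice_ineq {t : ℕ} (ht : 2 ≤ t) (hn : t + 1 ≤ Module.finrank ℝ E) (c : Fin t → ℝ)
    (h0 : ∑ i, c i = 0) (h1 : ∑ i, c i ^ 2 < t / (t - 1 : ℝ)) (hc : ∀ i, |c i| < 1)
    (θ : Fin t → ℝ) {p1 : ℝ} (hp1 : 0 < p1)
    (H : ∀ (e : SS E) (z : Fin t → SS (Pe e)),
      (∀ a : Fin t → ℝ, (t / (t - 1 : ℝ) - ∑ i, c i ^ 2) * ∑ i, (a i - (∑ l, a l) / t) ^ 2
        ≤ ‖∑ i, (Real.sqrt (1 - c i ^ 2) * a i) • (z i : Pe e)‖ ^ 2) →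
      ∀ D : Fin t → Set (SS (Pe e)), (∀ i, MeasurableSet (D i)) →
      (∀ i, PhN (θ i) ≤ (sm (Pe e)).real (D i)) →
      p1 ≤ (hm (Pe e)).real {k | ∀ i, sa k (z i) ∈ D i})
    (s : Fin t → SS E) (hs : IsSimp s) {B : Set (SS E)} (hB : MeasurableSet B) :
    p1 * (sm E).real {x | ∀ i, PhN (θ i) ≤ PP (c i) (ind B) x}
      ≤ (hm E).real {g | ∀ i, sa g (s i) ∈ B} := by
  have hn1 : 1 ≤ Module.finrank ℝ E := by omega
  have hn2 : 2 ≤ Module.finrank ℝ E := by omega
  have hn3 : 3 ≤ Module.finrank ℝ E := by omega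
  obtain ⟨e⟩ := sm_nonempty (E := E) hn1
  obtain ⟨s', hs', hc'⟩ := exists_frame ht hn e c h0 h1
  have hz : ∀ i, ∃ w : SS (Pe e), s' i = pt e (c i) w := by
    intro i
    obtain ⟨w, hw⟩ := pt_surj hn2 e (s' i)
    rw [hc' i] at hw
    exact ⟨w, hw⟩
  choose z hz using hz
  have hcoer := frame_coer ht e s' hs' c h0 hc z hz
  have hindm : Measurable (ind B) := measurable_const.indicator hB
  rw [simp_prob_eq ht s s' hs hs' B]
  have hAm : MeasurableSet {g : UG E | ∀ i, sa g (s' i) ∈ B} :=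
    slice_ineq_set s' (fun _ => B) (fun _ => hB)
  have hSm : MeasurableSet {x : SS E | ∀ i, PhN (θ i) ≤ PP (c i) (ind B) x} :=
    slice_ineq_S hn3 c (fun i => PhN (θ i)) hindm
  have hΦm : Measurable (({g : UG E | ∀ i, sa g (s' i) ∈ B}).indicator (fun _ => (1 : ℝ))) :=
    measurable_const.indicator hAm
  have hΦb : ∃ C : ℝ, ∀ g, |({g : UG E | ∀ i, sa g (s' i) ∈ B}).indicator
      (fun _ => (1 : ℝ)) g| ≤ C := by
    refine ⟨1, fun g => ?_⟩
    by_cases hg : g ∈ {g : UG E | ∀ i, sa g (s' i) ∈ B}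
    · rw [Set.indicator_of_mem hg]; simp
    · rw [Set.indicator_of_notMem hg]; simp
  rw [← slice_ineq_ind (hm E) hAm, cond_right e hΦm hΦb]
  have hlow : ∀ g, p1 * ({x : SS E | ∀ i, PhN (θ i) ≤ PP (c i) (ind B) x}).indicator
      (fun _ => (1 : ℝ)) (sa g e)
      ≤ ∫ k, ({g : UG E | ∀ i, sa g (s' i) ∈ B}).indicator (fun _ => (1 : ℝ)) (g * ex e k)
        ∂(hm (Pe e)) := by
    intro g
    rw [slice_ineq_inner e c s' z hz hB g]
    by_cases hg : sa g e ∈ {x : SS E | ∀ i, PhN (θ i) ≤ PP (c i) (ind B) x}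
    · rw [Set.indicator_of_mem hg, mul_one]
      refine H e z hcoer (fun i => {w : SS (Pe e) | sa g (pt e (c i) w) ∈ B})
        (fun i => (slice_ineq_dcont e g (c i)).measurable hB) fun i => ?_
      rw [slice_ineq_D hn2 e g (c i) hB]
      exact hg i
    · rw [Set.indicator_of_notMem hg, mul_zero]
      exact measureReal_nonneg
  have hI : Integrable (fun g : UG E => ∫ k, ({g : UG E | ∀ i, sa g (s' i) ∈ B}).indicator
      (fun _ => (1 : ℝ)) (g * ex e k) ∂(hm (Pe e))) (hm E) := by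
    refine Integrable.of_bound (slice_ineq_str e hΦm).aestronglyMeasurable 1
      (Filter.Eventually.of_forall fun g => ?_)
    rw [slice_ineq_inner e c s' z hz hB g, Real.norm_eq_abs, abs_of_nonneg measureReal_nonneg]
    exact measureReal_le_one
  have hSi : Measurable (({x : SS E | ∀ i, PhN (θ i) ≤ PP (c i) (ind B) x}).indicator
      (fun _ => (1 : ℝ))) := measurable_const.indicator hSm
  rw [← slice_ineq_ind (sm E) hSm, sm_int hn1 e hSi, ← integral_const_mul]
  refine integral_mono_of_nonneg (Filter.Eventually.of_forall fun g => ?_) hI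
      (Filter.Eventually.of_forall hlow)
  exact mul_nonneg hp1.le (Set.indicator_nonneg (fun _ _ => zero_le_one) _)

end Frames

-- slice_unif
theorem slice_unif (t : ℕ) (ht : 2 ≤ t) (c : Fin t → ℝ)
    (h0 : ∑ i, c i = 0) (h1 : ∑ i, c i ^ 2 < t / (t - 1 : ℝ)) (hc : ∀ i, |c i| < 1) {δ : ℝ}
    (hδ : 0 < δ) :
    ∃ p1 : ℝ, 0 < p1 ∧ ∃ n0 : ℕ, ∀ (E : Type) [NormedAddCommGroup E]
    [InnerProductSpace ℝ E] [CompleteSpace E] [FiniteDimensional ℝ E] [MeasurableSpace E]
    [BorelSpace E], n0 ≤ Module.finrank ℝ E → ∀ s : Fin t → SS E, IsSimp s →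
    ∀ B : Set (SS E), MeasurableSet B →
    p1 * (sm E).real {x | ∃ θ : Fin t → ℝ, (∀ i, PhN (θ i) ≤ PP (c i) (ind B) x) ∧
      (∀ i, |θ i| ≤ 1 / δ) ∧ δ ≤ ∑ i, Real.sqrt (1 - c i ^ 2) * θ i}
      ≤ (hm E).real {g | ∀ i, sa g (s i) ∈ B} := by
  classical
  have ht0 : 0 < t := by omega
  have htR : (0 : ℝ) < t := by exact_mod_cast ht0
  set lam : Fin t → ℝ := fun i => Real.sqrt (1 - c i ^ 2) with hlam
  have hlam1 : ∀ i, 0 < lam i ∧ lam i ≤ 1 := by
    intro i
    have h2 : c i ^ 2 < 1 := by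
      rw [sq_lt_one_iff_abs_lt_one]
      exact hc i
    constructor
    · exact Real.sqrt_pos.2 (by linarith)
    · show Real.sqrt (1 - c i ^ 2) ≤ 1
      rw [Real.sqrt_le_left (by norm_num)]
      nlinarith [sq_nonneg (c i)]
  set κ0 : ℝ := t / (t - 1 : ℝ) - ∑ i, c i ^ 2 with hκ0
  have hκ : 0 < κ0 := by
    rw [hκ0]
    linarith
  set η : ℝ := δ / (2 * t) with hη
  have hηpos : 0 < η := by positivity
  set N : ℤ := ⌈(1 / δ) / η⌉ + 1 with hN
  set I : Finset (Fin t → ℤ) := (Fintype.piFinset (fun _ : Fin t => Finset.Icc (-N) N)).filter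
    (fun k => 0 < ∑ i, lam i * (η * (k i : ℝ))) with hI
  have key : ∀ k : Fin t → ℤ, ∃ p1 : ℝ, ∃ n0 : ℕ, k ∈ I → (0 < p1 ∧
      ∀ (E : Type) [NormedAddCommGroup E]
      [InnerProductSpace ℝ E] [CompleteSpace E] [FiniteDimensional ℝ E] [MeasurableSpace E]
      [BorelSpace E], n0 ≤ Module.finrank ℝ E → ∀ s : Fin t → SS E,
      (∀ a : Fin t → ℝ, κ0 * ∑ i, (a i - (∑ l, a l) / t) ^ 2
        ≤ ‖∑ i, (lam i * a i) • (s i : E)‖ ^ 2) →
      ∀ D : Fin t → Set (SS E), (∀ i, MeasurableSet (D i)) →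
      (∀ i, PhN (η * (k i : ℝ)) ≤ (sm E).real (D i)) →
      p1 ≤ (hm E).real {g | ∀ i, sa g (s i) ∈ D i}) := by
    intro k
    by_cases hk : k ∈ I
    · have hk2 : 0 < ∑ i, lam i * (η * (k i : ℝ)) := (Finset.mem_filter.1 hk).2
      obtain ⟨p1, hp1, n0, h⟩ := mfd t (by omega) lam hlam1 hκ (fun i => η * (k i : ℝ)) hk2
      exact ⟨p1, n0, fun _ => ⟨hp1, h⟩⟩
    · exact ⟨1, 0, fun h => absurd h hk⟩
  choose p1 n0 hkey using key
  have hsum0 : 0 ≤ ∑ k ∈ I, 1 / p1 k :=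
    Finset.sum_nonneg (fun k hk => (one_div_pos.2 (hkey k hk).1).le)
  refine ⟨1 / (∑ k ∈ I, 1 / p1 k + 1), by positivity, ∑ k ∈ I, n0 k + t + 1, ?_⟩
  intro E _ _ _ _ _ _ hfr s hs B hB
  have hfr1 : 1 ≤ Module.finrank ℝ E := by omega
  have := sm_prob (E := E) hfr1
  set Q : ℝ := (hm E).real {g | ∀ i, sa g (s i) ∈ B} with hQ
  have hQ0 : 0 ≤ Q := measureReal_nonneg
  -- one slice
  have hone : ∀ k ∈ I, (sm E).real {x | ∀ i, PhN (η * (k i : ℝ)) ≤ PP (c i) (ind B) x}
      ≤ (1 / p1 k) * Q := by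
    intro k hk
    obtain ⟨hp, hmf⟩ := hkey k hk
    have h2 := slice_ineq ht (by omega : t + 1 ≤ Module.finrank ℝ E) c h0 h1 hc
      (fun i => η * (k i : ℝ)) hp (by
        intro e z hz D hD hDm
        refine hmf (Pe e) ?_ z hz D hD hDm
        have h3 : Module.finrank ℝ (Pe e) = Module.finrank ℝ E - 1 :=
          finrank_Pe (n := Module.finrank ℝ E - 1) (by omega) e
        have h4 : n0 k ≤ ∑ k ∈ I, n0 k := Finset.single_le_sum (fun _ _ => Nat.zero_le _) hk
        omega) s hs hB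
    rw [one_div, ← div_eq_inv_mul, le_div_iff₀ hp, mul_comm]
    exact h2
  -- the union
  have hsub : {x : SS E | ∃ θ : Fin t → ℝ, (∀ i, PhN (θ i) ≤ PP (c i) (ind B) x) ∧
      (∀ i, |θ i| ≤ 1 / δ) ∧ δ ≤ ∑ i, Real.sqrt (1 - c i ^ 2) * θ i} ⊆
      ⋃ k ∈ I, {x | ∀ i, PhN (η * (k i : ℝ)) ≤ PP (c i) (ind B) x} := by
    rintro x ⟨θ, hθ1, hθ2, hθ3⟩
    set k : Fin t → ℤ := fun i => ⌊θ i / η⌋ with hk
    have hk1 : ∀ i, η * (k i : ℝ) ≤ θ i := by
      intro i
      have h5 : (k i : ℝ) ≤ θ i / η := Int.floor_le _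
      rw [le_div_iff₀ hηpos] at h5
      linarith
    have hk2 : ∀ i, θ i - η ≤ η * (k i : ℝ) := by
      intro i
      have h5 : θ i / η < (k i : ℝ) + 1 := Int.lt_floor_add_one _
      rw [div_lt_iff₀ hηpos] at h5
      linarith
    have hkI : k ∈ I := by
      rw [hI, Finset.mem_filter]
      refine ⟨?_, ?_⟩
      · rw [Fintype.mem_piFinset]
        intro i
        rw [Finset.mem_Icc]
        obtain ⟨hlo, hhi⟩ := abs_le.1 (hθ2 i)
        have hceil : (1 / δ) / η ≤ (⌈(1 / δ) / η⌉ : ℝ) := Int.le_ceil _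
        constructor
        · have h6 : -(⌈(1 / δ) / η⌉ : ℝ) - 1 ≤ θ i / η - 1 := by
            have : -(1 / δ) / η ≤ θ i / η := div_le_div_of_nonneg_right hlo hηpos.le
            rw [neg_div] at this
            linarith
          have h7 : θ i / η - 1 < (k i : ℝ) := Int.sub_one_lt_floor _
          have h8 : -(⌈(1 / δ) / η⌉ : ℝ) - 1 < (k i : ℝ) := lt_of_le_of_lt h6 h7
          have h9 : -⌈(1 / δ) / η⌉ - 1 < k i := by exact_mod_cast h8
          rw [hN]
          omega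
        · have h6 : (k i : ℝ) ≤ (⌈(1 / δ) / η⌉ : ℝ) := by
            have h7 : (k i : ℝ) ≤ θ i / η := Int.floor_le _
            have : θ i / η ≤ (1 / δ) / η := div_le_div_of_nonneg_right hhi hηpos.le
            linarith
          have h9 : k i ≤ ⌈(1 / δ) / η⌉ := by exact_mod_cast h6
          rw [hN]
          omega
      · have h6 : ∑ i, (lam i * θ i - η) ≤ ∑ i, lam i * (η * (k i : ℝ)) := by
          apply Finset.sum_le_sum
          intro i _
          have h7 := hk2 i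
          have h8 := hlam1 i
          nlinarith [h8.1, h8.2]
        rw [Finset.sum_sub_distrib, Finset.sum_const, Finset.card_univ, Fintype.card_fin,
          nsmul_eq_mul] at h6
        have h9 : (t : ℝ) * η = δ / 2 := by
          rw [hη]
          field_simp
        have h10 : δ ≤ ∑ i, lam i * θ i := hθ3
        linarith
    refine Set.mem_iUnion₂.2 ⟨k, hkI, ?_⟩
    intro i
    exact (PhN_props.1.monotone (hk1 i)).trans (hθ1 i)
  have hle : (sm E).real {x : SS E | ∃ θ : Fin t → ℝ, (∀ i, PhN (θ i) ≤ PP (c i) (ind B) x) ∧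
      (∀ i, |θ i| ≤ 1 / δ) ∧ δ ≤ ∑ i, Real.sqrt (1 - c i ^ 2) * θ i}
      ≤ (∑ k ∈ I, 1 / p1 k) * Q := by
    refine (measureReal_mono hsub (measure_ne_top _ _)).trans ?_
    refine (measureReal_biUnion_finset_le _ _).trans ?_
    rw [Finset.sum_mul]
    exact Finset.sum_le_sum hone
  rw [one_div, ← div_eq_inv_mul, div_le_iff₀ (by positivity)]
  nlinarith [hle, hQ0, hsum0]

-- mu_up
theorem mu_up_norm {E : Type*} [NormedAddCommGroup E] [InnerProductSpace ℝ E] {t : ℕ}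
    (ht : 2 ≤ t) (s : Fin t → SS E) (hs : IsSimp s) (a : Fin t → ℝ) :
    ‖∑ i, (1 * a i) • (s i : E)‖ ^ 2
      = (t / (t - 1 : ℝ)) * ∑ i, (a i - (∑ l, a l) / t) ^ 2 := by
  have ht1 : (0 : ℝ) < t - 1 := by
    have : (2 : ℝ) ≤ t := by exact_mod_cast ht
    linarith
  have ht0 : (t : ℝ) ≠ 0 := by
    have : (2 : ℝ) ≤ t := by exact_mod_cast ht
    positivity
  have hin : ∀ i l, ⟪(s i : E), (s l : E)⟫ = (if i = l then 1 + 1 / (t - 1 : ℝ) else 0)
      - 1 / (t - 1 : ℝ) := by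
    intro i l
    by_cases h : i = l
    · subst h
      rw [if_pos rfl, real_inner_self_eq_norm_sq, norm_eq_of_mem_sphere]
      ring
    · rw [if_neg h, hs i l h]
      ring
  have e1 : ‖∑ i, (1 * a i) • (s i : E)‖ ^ 2
      = (1 + 1 / (t - 1 : ℝ)) * ∑ i, a i ^ 2 - 1 / (t - 1 : ℝ) * (∑ i, a i) ^ 2 := by
    rw [← real_inner_self_eq_norm_sq, sum_inner]
    simp only [inner_sum, real_inner_smul_left, real_inner_smul_right, hin, one_mul]
    have : ∀ i : Fin t, ∑ l, a l * (a i * ((if i = l then 1 + 1 / (t - 1 : ℝ) else 0)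
        - 1 / (t - 1 : ℝ))) = (1 + 1 / (t - 1 : ℝ)) * a i ^ 2 - 1 / (t - 1 : ℝ) *
          (a i * ∑ l, a l) := by
      intro i
      have h1 : ∀ l, a l * (a i * ((if i = l then 1 + 1 / (t - 1 : ℝ) else 0)
        - 1 / (t - 1 : ℝ))) = (if i = l then (1 + 1 / (t - 1 : ℝ)) * (a l * a i) else 0)
          - 1 / (t - 1 : ℝ) * a i * a l := by
        intro l
        split_ifs <;> ring
      simp only [h1]
      rw [Finset.sum_sub_distrib, Finset.sum_ite_eq, if_pos (Finset.mem_univ i),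
        ← Finset.mul_sum]
      ring
    simp only [this]
    rw [Finset.sum_sub_distrib, ← Finset.mul_sum, ← Finset.mul_sum, ← Finset.sum_mul]
    ring
  rw [e1]
  have e2 : ∑ i, (a i - (∑ l, a l) / t) ^ 2 = ∑ i, a i ^ 2 - (∑ l, a l) ^ 2 / t := by
    have h1 : ∀ i, (a i - (∑ l, a l) / t) ^ 2
        = a i ^ 2 - 2 * ((∑ l, a l) / t) * a i + ((∑ l, a l) / t) ^ 2 := by
      intro i; ring
    simp only [h1]
    rw [Finset.sum_add_distrib, Finset.sum_sub_distrib, ← Finset.mul_sum, Finset.sum_const,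
      Finset.card_univ, Fintype.card_fin, nsmul_eq_mul]
    field_simp
    ring
  rw [e2]
  field_simp
  ring

theorem mu_up (t : ℕ) (ht : 2 ≤ t) {η : ℝ} (hη : 0 < η) :
    ∃ p0 : ℝ, 0 < p0 ∧ ∃ n0 : ℕ, ∀ (E : Type) [NormedAddCommGroup E]
    [InnerProductSpace ℝ E] [CompleteSpace E] [FiniteDimensional ℝ E] [MeasurableSpace E]
    [BorelSpace E], n0 ≤ Module.finrank ℝ E → ∀ s : Fin t → SS E, IsSimp s →
    ∀ B : Set (SS E), MeasurableSet B → (hm E).real {g | ∀ i, sa g (s i) ∈ B} ≤ p0 →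
    (sm E).real B ≤ 1 / 2 + η := by
  have hb : PhN η ≤ 1 / 2 + η := by
    obtain ⟨_, _, _, _, h0, _, hl, _⟩ := PhN_props
    have h1 := hl η 0
    rw [h0, sub_zero, abs_of_pos hη] at h1
    have h2 := le_abs_self (PhN η - 1 / 2)
    linarith
  have ht1 : (0 : ℝ) < t - 1 := by
    have : (2 : ℝ) ≤ t := by exact_mod_cast ht
    linarith
  have ht0 : (0 : ℝ) < t := by
    have : (2 : ℝ) ≤ t := by exact_mod_cast ht
    linarith
  obtain ⟨p1, hp1, n0, H⟩ := mfd t (by omega) (fun _ => 1) (fun _ => ⟨one_pos, le_rfl⟩)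
    (κ0 := t / (t - 1 : ℝ)) (div_pos ht0 ht1) (fun _ => η) (by
      simp only [one_mul, Finset.sum_const, Finset.card_univ, Fintype.card_fin, nsmul_eq_mul]
      exact mul_pos ht0 hη)
  refine ⟨p1 / 2, by linarith, n0, ?_⟩
  intro E _ _ _ _ _ _ hn s hs B hB hP
  by_contra hcon
  have hcon' : 1 / 2 + η < (sm E).real B := not_le.mp hcon
  have h1 := H E hn s (fun a => (mu_up_norm ht s hs a).ge) (fun _ => B) (fun _ => hB)
    (fun _ => by linarith)
  linarith


end CoreW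

end Pool.Agent.helper440_simplex
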