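import Pool.Agent.helper440_simplex.G0a

set_option autoImplicit false
set_option linter.unusedSectionVars false

namespace Pool.Agent.helper440_simplex

open MeasureTheory Metric Set Filter Topology
open scoped RealInnerProductSpace

section CoreW
variable {E : Type*} [NormedAddCommGroup E] [InnerProductSpace ℝ E] [CompleteSpace E]
  [FiniteDimensional ℝ E] [MeasurableSpace E] [BorelSpace E]

-- odd_V
theorem odd_V_BM {B : Set (SS E)} (hB : MeasurableSet B) : BM (ind B) := by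
  refine ⟨measurable_const.indicator hB, 1, fun x => ?_⟩
  unfold ind
  by_cases hx : x ∈ B
  · simp [Set.indicator_of_mem hx]
  · simp [Set.indicator_of_notMem hx]

theorem odd_V_ind01 (B : Set (SS E)) (x : SS E) : 0 ≤ ind B x ∧ ind B x ≤ 1 := by
  unfold ind
  by_cases hx : x ∈ B
  · simp [Set.indicator_of_mem hx]
  · simp [Set.indicator_of_notMem hx]

theorem odd_V_int {B : Set (SS E)} (hB : MeasurableSet B) :
    ∫ x, ind B x ∂(sm E) = (sm E).real B := by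
  unfold ind
  rw [integral_indicator_const _ hB]
  simp

theorem odd_V_integrable (hn : 1 ≤ Module.finrank ℝ E) {f : SS E → ℝ} (hf : BM f) :
    Integrable f (sm E) := by
  have := sm_prob (E := E) hn
  obtain ⟨hm, C, hC⟩ := hf
  exact Integrable.of_bound hm.aestronglyMeasurable C
    (Filter.Eventually.of_forall fun x => by rw [Real.norm_eq_abs]; exact hC x)

theorem odd_V_num {x η e : ℝ} (hx : 6 ≤ x) (hη : 0 < η) (he : 0 < e)
    (h : 16 / (η ^ 2 * e) ≤ x) : (2 / x) ^ 2 ≤ (η / 2) ^ 2 * e := by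
  have hx0 : 0 < x := by linarith
  rw [div_pow, div_le_iff₀ (by positivity)]
  rw [div_le_iff₀ (by positivity)] at h
  have h4 : x * (η ^ 2 * e) ≤ x ^ 2 * (η ^ 2 * e) := by
    apply mul_le_mul_of_nonneg_right _ (by positivity)
    nlinarith
  have h5 : (η / 2) ^ 2 * e * x ^ 2 = x ^ 2 * (η ^ 2 * e) / 4 := by ring
  rw [h5]
  linarith

theorem odd_V_final (hn : 1 ≤ Module.finrank ℝ E) {X : SS E → ℝ} (hX : Integrable X (sm E))
    {S T : Set (SS E)} (hSm : MeasurableSet S) (hTm : MeasurableSet T) {e ν ε : ℝ}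
    (hpt : ∀ x, |X x| ≤ 2 * (e + (S.indicator (fun _ => (1 : ℝ)) x +
      T.indicator (fun _ => (1 : ℝ)) x)) - X x)
    (hν : ∫ x, X x ∂(sm E) = 2 * ν - 1) (hS : (sm E).real S ≤ e) (hT : (sm E).real T ≤ e)
    (h1 : 1 / 2 - e ≤ ν) (h8 : 8 * e ≤ ε) : ∫ x, |X x| ∂(sm E) ≤ ε := by
  have hprob := sm_prob (E := E) hn
  have hSi : Integrable (S.indicator (fun _ => (1 : ℝ))) (sm E) :=
    (integrable_const _).indicator hSm
  have hTi : Integrable (T.indicator (fun _ => (1 : ℝ))) (sm E) :=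
    (integrable_const _).indicator hTm
  have hRi : Integrable (fun x => 2 * (e + (S.indicator (fun _ => (1 : ℝ)) x +
      T.indicator (fun _ => (1 : ℝ)) x))) (sm E) :=
    ((integrable_const _).add (hSi.add hTi)).const_mul 2
  have hint : ∫ x, |X x| ∂(sm E) ≤ ∫ x, (2 * (e + (S.indicator (fun _ => (1 : ℝ)) x +
      T.indicator (fun _ => (1 : ℝ)) x)) - X x) ∂(sm E) :=
    integral_mono_of_nonneg (Filter.Eventually.of_forall fun x => abs_nonneg _) (hRi.sub hX)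
      (Filter.Eventually.of_forall hpt)
  have e3 : ∫ x, (2 * (e + (S.indicator (fun _ => (1 : ℝ)) x +
      T.indicator (fun _ => (1 : ℝ)) x)) - X x) ∂(sm E) =
      ∫ x, 2 * (e + (S.indicator (fun _ => (1 : ℝ)) x +
      T.indicator (fun _ => (1 : ℝ)) x)) ∂(sm E) - ∫ x, X x ∂(sm E) := integral_sub hRi hX
  have q3 : ∫ x, (e + (S.indicator (fun _ => (1 : ℝ)) x +
      T.indicator (fun _ => (1 : ℝ)) x)) ∂(sm E) = ∫ _x : SS E, e ∂(sm E) +
      ∫ x, (S.indicator (fun _ => (1 : ℝ)) x + T.indicator (fun _ => (1 : ℝ)) x) ∂(sm E) :=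
    integral_add (integrable_const _) (hSi.add hTi)
  have q4 : ∫ x, (S.indicator (fun _ => (1 : ℝ)) x + T.indicator (fun _ => (1 : ℝ)) x) ∂(sm E) =
      ∫ x, S.indicator (fun _ => (1 : ℝ)) x ∂(sm E) +
        ∫ x, T.indicator (fun _ => (1 : ℝ)) x ∂(sm E) := integral_add hSi hTi
  have q5 : ∫ _x : SS E, e ∂(sm E) = e := by simp
  have q6 : ∫ x, S.indicator (fun _ => (1 : ℝ)) x ∂(sm E) = (sm E).real S := by
    rw [integral_indicator_const _ hSm]; simp
  have q7 : ∫ x, T.indicator (fun _ => (1 : ℝ)) x ∂(sm E) = (sm E).real T := by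
    rw [integral_indicator_const _ hTm]; simp
  have q8 : ∫ x, 2 * (e + (S.indicator (fun _ => (1 : ℝ)) x +
      T.indicator (fun _ => (1 : ℝ)) x)) ∂(sm E) = 2 * (e + ((sm E).real S + (sm E).real T)) := by
    rw [integral_const_mul, q3, q4, q5, q6, q7]
  rw [e3, q8, hν] at hint
  linarith

theorem odd_V_cheb (hn6 : 6 ≤ Module.finrank ℝ E) {B : Set (SS E)} (hB : MeasurableSet B)
    {η1 e : ℝ} (hη10 : 0 < η1) (he0 : 0 < e)
    (hnr : 16 / (η1 ^ 2 * e) ≤ (Module.finrank ℝ E : ℝ)) :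
    ∃ T : Set (SS E), MeasurableSet T ∧ (sm E).real T ≤ e ∧
      ∀ x, x ∉ T → (sm E).real B - η1 / 2 < PP 0 (ind B) x := by
  have hn6r : (6 : ℝ) ≤ Module.finrank ℝ E := by exact_mod_cast hn6
  have hprob := sm_prob (E := E) (by omega)
  have hBM := odd_V_BM hB
  have hBM1 : BM (fun _ : SS E => (1 : ℝ)) := ⟨measurable_const, 1, fun x => by simp⟩
  have hP0 := PP_basic (E := E) (by omega) 0 hBM hBM1
  generalize hndef : Module.finrank ℝ E = n at hn6r hnr
  set μ : ℝ := (sm E).real B with hμdef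
  have hμ0 : 0 ≤ μ := measureReal_nonneg
  have hμ1 : μ ≤ 1 := measureReal_le_one
  let f : SS E → ℝ := fun y => 1 * ind B y + (-μ) * 1
  have hfBM : BM f := by
    refine ⟨(hBM.1.const_mul 1).add measurable_const, 1, fun x => ?_⟩
    obtain ⟨h1, h2⟩ := odd_V_ind01 B x
    show |1 * ind B x + (-μ) * 1| ≤ 1
    rw [abs_le]
    constructor <;> linarith
  have hf0 : ∫ x, f x ∂(sm E) = 0 := by
    show ∫ x, (1 * ind B x + (-μ) * 1) ∂(sm E) = 0
    rw [integral_add ((odd_V_integrable (by omega) hBM).const_mul 1) (integrable_const _),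
      integral_const_mul, odd_V_int hB, integral_const]
    simp [hμdef]
  have hPf : ∀ x, PP 0 f x = PP 0 (ind B) x - μ := by
    intro x
    have h1 := hP0.2.2.1 1 (-μ) x
    rw [hP0.2.1 x] at h1
    show PP 0 (fun y => 1 * ind B y + (-μ) * 1) x = _
    rw [h1]; ring
  have hPfBM : BM (PP 0 f) := (PP_basic (E := E) (by omega) 0 hfBM hBM1).1
  have hf2 : ∫ x, (f x) ^ 2 ∂(sm E) ≤ 1 := by
    have h1 : ∫ x, (f x) ^ 2 ∂(sm E) ≤ ∫ _x : SS E, (1 : ℝ) ∂(sm E) := by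
      refine integral_mono_of_nonneg (Filter.Eventually.of_forall fun x => sq_nonneg _)
        (integrable_const _) (Filter.Eventually.of_forall fun x => ?_)
      obtain ⟨h1, h2⟩ := odd_V_ind01 B x
      show (1 * ind B x + (-μ) * 1) ^ 2 ≤ 1
      nlinarith
    simpa using h1
  have hspec : ∫ x, (PP 0 f x) ^ 2 ∂(sm E) ≤ (2 / n) ^ 2 := by
    have h1 := spec_mean0 (E := E) (n := n) hndef (by omega) (r := 0) (by simp) hfBM hf0
    have h2 : max |(0 : ℝ)| ((0 : ℝ) ^ 2 + 2 / n) = 2 / n := by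
      rw [abs_zero]
      have : (0 : ℝ) ≤ 2 / n := by positivity
      rw [max_eq_right (by linarith)]
      ring
    rw [h2] at h1
    refine h1.trans ?_
    have h3 : (0 : ℝ) ≤ (2 / n) ^ 2 := sq_nonneg _
    nlinarith
  -- the exceptional set for V_0
  set T : Set (SS E) := {x | (η1 / 2) ^ 2 ≤ (PP 0 f x) ^ 2} with hT
  have hTm : MeasurableSet T := measurableSet_le measurable_const (hPfBM.1.pow_const 2)
  have hsqi : Integrable (fun x => (PP 0 f x) ^ 2) (sm E) := by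
    obtain ⟨hm', C, hC⟩ := hPfBM
    refine odd_V_integrable (by omega) ⟨hm'.pow_const 2, C ^ 2, fun x => ?_⟩
    rw [abs_pow]
    exact pow_le_pow_left₀ (abs_nonneg _) (hC x) 2
  have hTb : (sm E).real T ≤ e := by
    have h1 := mul_meas_ge_le_integral_of_nonneg (μ := sm E)
      (Filter.Eventually.of_forall fun x => sq_nonneg (PP 0 f x)) hsqi ((η1 / 2) ^ 2)
    have h2 : (η1 / 2) ^ 2 * (sm E).real T ≤ (2 / n) ^ 2 := h1.trans hspec
    have h3 : (2 / (n : ℝ)) ^ 2 ≤ (η1 / 2) ^ 2 * e := odd_V_num hn6r hη10 he0 hnr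
    have h5 : (η1 / 2) ^ 2 * (sm E).real T ≤ (η1 / 2) ^ 2 * e := h2.trans h3
    exact le_of_mul_le_mul_left h5 (by positivity)
  refine ⟨T, hTm, hTb, fun x hx => ?_⟩
  have hx' : ¬ (η1 / 2) ^ 2 ≤ (PP 0 f x) ^ 2 := hx
  rw [hPf x] at hx'
  by_contra hcon
  apply hx'
  have h4 : η1 / 2 ≤ μ - PP 0 (ind B) x := by linarith
  nlinarith

theorem odd_V_theta {m : ℕ} {s : ℝ} (hs34 : s ^ 2 ≤ 3 / 4) {e : ℝ} (h0 : 0 < e) (h1 : e ≤ 1 / 8)
    {Mb : ℝ} (hMb : PhN Mb = 1 - e / 4) {δ : ℝ} (hδ0 : 0 < δ) (hδ1 : δ ≤ e / 4)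
    (hδ2 : Mb ≤ 1 / δ) (hδ3 : 1 ≤ 1 / δ) {W : ℝ → ℝ} (hA : W s ≤ 1) (hB : W (-s) ≤ 1)
    (hAB : 1 + e ≤ W s + W (-s)) (hC : PhN (-(e / (16 * (m + 2)))) ≤ W 0) :
    ∃ θ : Fin (m + 2) → ℝ,
      (∀ i, PhN (θ i) ≤ W ((Fin.cons s (Fin.cons (-s) (fun _ : Fin m => (0 : ℝ))) :
        Fin (m + 2) → ℝ) i)) ∧ (∀ i, |θ i| ≤ 1 / δ) ∧
      δ ≤ ∑ i, Real.sqrt (1 - ((Fin.cons s (Fin.cons (-s) (fun _ : Fin m => (0 : ℝ))) :
        Fin (m + 2) → ℝ) i) ^ 2) * θ i := by
  obtain ⟨hmono, -, -, hneg, hzero, hsurj, hlip, -, -⟩ := PhN_props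
  have hm0 : (0 : ℝ) ≤ m := Nat.cast_nonneg m
  obtain ⟨θ1, h1'⟩ := hsurj (min (W s) (1 - e / 4)) (lt_min (by linarith) (by linarith))
    (lt_of_le_of_lt (min_le_right _ _) (by linarith))
  obtain ⟨θ2, h2'⟩ := hsurj (min (W (-s)) (1 - e / 4)) (lt_min (by linarith) (by linarith))
    (lt_of_le_of_lt (min_le_right _ _) (by linarith))
  have hsum : 1 + e / 2 ≤ min (W s) (1 - e / 4) + min (W (-s)) (1 - e / 4) := by
    rcases min_cases (W s) (1 - e / 4) with ⟨q1, _⟩ | ⟨q1, _⟩ <;>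
      rcases min_cases (W (-s)) (1 - e / 4) with ⟨q2, _⟩ | ⟨q2, _⟩ <;> rw [q1, q2] <;> linarith
  have hlow1 : e / 4 ≤ min (W s) (1 - e / 4) := le_min (by linarith) (by linarith)
  have hlow2 : e / 4 ≤ min (W (-s)) (1 - e / 4) := le_min (by linarith) (by linarith)
  have habs : ∀ θ : ℝ, e / 4 ≤ PhN θ → PhN θ ≤ 1 - e / 4 → |θ| ≤ Mb := by
    intro θ ha hb
    rw [abs_le]
    constructor
    · rw [← hmono.le_iff_le, hneg, hMb]; linarith
    · rw [← hmono.le_iff_le, hMb]; exact hb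
  have ha1 : |θ1| ≤ Mb := habs θ1 (by rw [h1']; exact hlow1) (by rw [h1']; exact min_le_right _ _)
  have ha2 : |θ2| ≤ Mb := habs θ2 (by rw [h2']; exact hlow2) (by rw [h2']; exact min_le_right _ _)
  have hdiff : e / 2 ≤ PhN θ1 - PhN (-θ2) := by rw [hneg, h1', h2']; linarith
  have hpos : -θ2 < θ1 := by
    rw [← hmono.lt_iff_lt]; linarith
  have hl := hlip θ1 (-θ2)
  have h12 : e ≤ θ1 + θ2 := by
    have h3 : PhN θ1 - PhN (-θ2) ≤ |θ1 - -θ2| / 2 := (le_abs_self _).trans hl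
    rw [abs_of_pos (by linarith : (0 : ℝ) < θ1 - -θ2)] at h3
    linarith
  set τ : ℝ := e / (16 * (m + 2)) with hτ
  have hτ0 : 0 < τ := by positivity
  have hτ1 : m * τ ≤ e / 16 := by
    rw [hτ, ← mul_div_assoc, div_le_div_iff₀ (by positivity) (by norm_num)]
    nlinarith
  have hτ2 : τ ≤ 1 := by
    rw [hτ, div_le_one (by positivity)]
    nlinarith
  refine ⟨Fin.cons θ1 (Fin.cons θ2 (fun _ => -τ)), ?_, ?_, ?_⟩
  · rw [Fin.forall_fin_succ]
    refine ⟨?_, ?_⟩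
    · simp only [Fin.cons_zero]
      rw [h1']; exact min_le_left _ _
    · rw [Fin.forall_fin_succ]
      refine ⟨?_, fun j => ?_⟩
      · simp only [Fin.cons_succ, Fin.cons_zero]
        rw [h2']; exact min_le_left _ _
      · simp only [Fin.cons_succ]
        exact hC
  · rw [Fin.forall_fin_succ]
    refine ⟨?_, ?_⟩
    · simp only [Fin.cons_zero]
      exact ha1.trans hδ2
    · rw [Fin.forall_fin_succ]
      refine ⟨?_, fun j => ?_⟩
      · simp only [Fin.cons_succ, Fin.cons_zero]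
        exact ha2.trans hδ2
      · simp only [Fin.cons_succ]
        rw [abs_neg, abs_of_pos hτ0]
        exact hτ2.trans hδ3
  · rw [Fin.sum_univ_succ, Fin.sum_univ_succ]
    simp only [Fin.cons_succ, Fin.cons_zero]
    have hsq : (1 : ℝ) / 2 ≤ Real.sqrt (1 - s ^ 2) := by
      apply Real.le_sqrt_of_sq_le
      linarith
    have h5 : Real.sqrt (1 - (-s) ^ 2) = Real.sqrt (1 - s ^ 2) := by rw [neg_sq]
    have h6 : Real.sqrt (1 - (0 : ℝ) ^ 2) = 1 := by norm_num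
    rw [h5, h6, Finset.sum_const, Finset.card_univ, Fintype.card_fin, nsmul_eq_mul]
    have h7 : 1 / 2 * e ≤ Real.sqrt (1 - s ^ 2) * (θ1 + θ2) :=
      mul_le_mul hsq h12 h0.le (Real.sqrt_nonneg _)
    nlinarith

theorem odd_V (t : ℕ) (ht : 3 ≤ t) {s : ℝ} (hs0 : 0 < s) (hs : 2 * s ^ 2 < t / (t - 1 : ℝ)) {ε : ℝ}
    (hε : 0 < ε) : ∃ p0 : ℝ, 0 < p0 ∧ ∃ η : ℝ, 0 < η ∧ ∃ n0 : ℕ, ∀ (E : Type) [NormedAddCommGroup E]
    [InnerProductSpace ℝ E] [CompleteSpace E] [FiniteDimensional ℝ E] [MeasurableSpace E]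
    [BorelSpace E], n0 ≤ Module.finrank ℝ E → ∀ σ : Fin t → SS E, IsSimp σ →
    ∀ B : Set (SS E), MeasurableSet B → (hm E).real {g | ∀ i, sa g (σ i) ∈ B} ≤ p0 →
    1 / 2 - η ≤ (sm E).real B →
    ∫ x, |PP s (ind B) x + PP (-s) (ind B) x - 1| ∂(sm E) ≤ ε := by
  obtain ⟨m, rfl⟩ : ∃ m, t = m + 2 := ⟨t - 2, by omega⟩
  obtain ⟨hmono, -, -, hneg, hzero, hsurj, hlip, -, -⟩ := PhN_props
  have hm1 : (1 : ℝ) ≤ m := by
    have : 1 ≤ m := by omega
    exact_mod_cast this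
  have hs34 : s ^ 2 < 3 / 4 := by
    have h1 : ((m + 2 : ℕ) : ℝ) / (((m + 2 : ℕ) : ℝ) - 1) ≤ 3 / 2 := by
      push_cast
      rw [div_le_div_iff₀ (by linarith) (by norm_num)]
      linarith
    linarith
  have hs1 : s < 1 := by nlinarith
  -- constants
  set e : ℝ := min ε 1 / 8 with he
  have he0 : 0 < e := by
    have : 0 < min ε 1 := lt_min hε one_pos
    positivity
  have he1 : e ≤ 1 / 8 := by
    have := min_le_right ε 1
    linarith
  have he2 : 8 * e ≤ ε := by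
    have := min_le_left ε 1
    linarith
  obtain ⟨Mb, hMb⟩ := hsurj (1 - e / 4) (by linarith) (by linarith)
  have hMb0 : 0 ≤ Mb := by
    rw [← hmono.le_iff_le, hzero, hMb]; linarith
  set δ : ℝ := min (e / 4) (1 / (Mb + 1)) with hδ
  have hδ0 : 0 < δ := lt_min (by linarith) (by positivity)
  have hδ1 : δ ≤ e / 4 := min_le_left _ _
  have hδ2' : Mb + 1 ≤ 1 / δ := by
    rw [le_div_iff₀ hδ0]
    have h1 : δ ≤ 1 / (Mb + 1) := min_le_right _ _
    rw [le_div_iff₀ (by linarith)] at h1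
    linarith
  set η1 : ℝ := 1 / 2 - PhN (-(e / (16 * (m + 2)))) with hη1
  have hη10 : 0 < η1 := by
    have h1 : PhN (-(e / (16 * (m + 2)))) < PhN 0 := by
      apply hmono
      have : 0 < e / (16 * ((m : ℝ) + 2)) := by positivity
      linarith
    rw [hzero] at h1
    linarith
  set c : Fin (m + 2) → ℝ := Fin.cons s (Fin.cons (-s) (fun _ : Fin m => (0 : ℝ))) with hc
  have hc0 : ∑ i, c i = 0 := by
    rw [hc, Fin.sum_univ_succ, Fin.sum_univ_succ]
    simp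
  have hc1 : ∑ i, c i ^ 2 < ((m + 2 : ℕ) : ℝ) / (((m + 2 : ℕ) : ℝ) - 1) := by
    have : ∑ i, c i ^ 2 = 2 * s ^ 2 := by
      rw [hc, Fin.sum_univ_succ, Fin.sum_univ_succ]
      simp
      ring
    rw [this]
    exact hs
  have hc2 : ∀ i, |c i| < 1 := by
    rw [Fin.forall_fin_succ]
    refine ⟨?_, ?_⟩
    · simp only [hc, Fin.cons_zero]
      rw [abs_of_pos hs0]; exact hs1
    · rw [Fin.forall_fin_succ]
      refine ⟨?_, fun j => ?_⟩
      · simp only [hc, Fin.cons_succ, Fin.cons_zero]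
        rw [abs_neg, abs_of_pos hs0]; exact hs1
      · simp [hc]
  obtain ⟨p1, hp1, n1, hslice⟩ := slice_unif (m + 2) (by omega) c hc0 hc1 hc2 hδ0
  refine ⟨p1 * e, by positivity, min (η1 / 2) e, lt_min (by positivity) he0,
    max n1 (max 6 (⌈16 / (η1 ^ 2 * e)⌉₊ + 1)), ?_⟩
  intro E _ _ _ _ _ _ hn σ hσ B hB hp hμ
  have hn1 : n1 ≤ Module.finrank ℝ E := (le_max_left _ _).trans hn
  have hn6 : 6 ≤ Module.finrank ℝ E := (le_max_left _ _).trans ((le_max_right _ _).trans hn)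
  have hnc : ⌈16 / (η1 ^ 2 * e)⌉₊ + 1 ≤ Module.finrank ℝ E :=
    (le_max_right _ _).trans ((le_max_right _ _).trans hn)
  set n : ℕ := Module.finrank ℝ E with hndef
  have hnr : 16 / (η1 ^ 2 * e) ≤ (n : ℝ) := by
    have h1 : 16 / (η1 ^ 2 * e) ≤ (⌈16 / (η1 ^ 2 * e)⌉₊ : ℝ) := Nat.le_ceil _
    have h2 : ((⌈16 / (η1 ^ 2 * e)⌉₊ + 1 : ℕ) : ℝ) ≤ (n : ℝ) := by exact_mod_cast hnc
    push_cast at h2
    linarith
  have hn6r : (6 : ℝ) ≤ n := by exact_mod_cast hn6
  have hprob := sm_prob (E := E) (by omega)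
  have hBM := odd_V_BM hB
  have hBM1 : BM (fun _ : SS E => (1 : ℝ)) := ⟨measurable_const, 1, fun x => by simp⟩
  have hPs := PP_basic (E := E) (by omega) s hBM hBM1
  have hPm := PP_basic (E := E) (by omega) (-s) hBM hBM1
  have hP0 := PP_basic (E := E) (by omega) 0 hBM hBM1
  set μ : ℝ := (sm E).real B with hμdef
  have hμ0 : 0 ≤ μ := measureReal_nonneg
  have hμ1 : μ ≤ 1 := measureReal_le_one
  obtain ⟨T, hTm, hTb, hTx⟩ := odd_V_cheb hn6 hB hη10 he0 hnr
  -- the exceptional set from the slice inequality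
  set S : Set (SS E) := {x | 1 + e ≤ PP s (ind B) x + PP (-s) (ind B) x ∧
    PhN (-(e / (16 * (m + 2)))) ≤ PP 0 (ind B) x} with hS
  have hSm : MeasurableSet S :=
    (measurableSet_le measurable_const (hPs.1.1.add hPm.1.1)).inter
      (measurableSet_le measurable_const hP0.1.1)
  have hle1 : ∀ x, PP s (ind B) x ≤ 1 := fun x =>
    hPs.2.2.2.1 1 x (fun y => (odd_V_ind01 B y).2)
  have hle2 : ∀ x, PP (-s) (ind B) x ≤ 1 := fun x =>
    hPm.2.2.2.1 1 x (fun y => (odd_V_ind01 B y).2)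
  have hSb : (sm E).real S ≤ e := by
    have h1 := hslice E hn1 σ hσ B hB
    have h2 : S ⊆ {x | ∃ θ : Fin (m + 2) → ℝ, (∀ i, PhN (θ i) ≤ PP (c i) (ind B) x) ∧
      (∀ i, |θ i| ≤ 1 / δ) ∧ δ ≤ ∑ i, Real.sqrt (1 - c i ^ 2) * θ i} := by
      rintro x ⟨hx1, hx2⟩
      exact odd_V_theta (W := fun r => PP r (ind B) x) hs34.le he0 he1 hMb hδ0 hδ1
        (by linarith) (by linarith) (hle1 x) (hle2 x) hx1 hx2
    have h3 := measureReal_mono (μ := sm E) h2
    have h4 : p1 * (sm E).real S ≤ p1 * e :=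
      (mul_le_mul_of_nonneg_left h3 hp1.le).trans (h1.trans hp)
    exact le_of_mul_le_mul_left h4 hp1
  -- the pointwise bound
  have hpt : ∀ x, |PP s (ind B) x + PP (-s) (ind B) x - 1| ≤
      2 * (e + (S.indicator (fun _ => (1 : ℝ)) x + T.indicator (fun _ => (1 : ℝ)) x)) -
        (PP s (ind B) x + PP (-s) (ind B) x - 1) := by
    intro x
    set X : ℝ := PP s (ind B) x + PP (-s) (ind B) x - 1 with hX
    have hX1 : X ≤ 1 := by
      have := hle1 x
      have := hle2 x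
      linarith
    have hS0 : 0 ≤ S.indicator (fun _ => (1 : ℝ)) x :=
      Set.indicator_nonneg (fun _ _ => zero_le_one) x
    have hT0 : 0 ≤ T.indicator (fun _ => (1 : ℝ)) x :=
      Set.indicator_nonneg (fun _ _ => zero_le_one) x
    have hkey : max 0 X ≤ e + (S.indicator (fun _ => (1 : ℝ)) x +
        T.indicator (fun _ => (1 : ℝ)) x) := by
      apply max_le (by linarith)
      by_cases h1 : X ≤ e
      · linarith
      · have hxe : 1 + e ≤ PP s (ind B) x + PP (-s) (ind B) x := by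
          rw [not_le] at h1
          linarith
        by_cases h2 : PhN (-(e / (16 * (m + 2)))) ≤ PP 0 (ind B) x
        · have : x ∈ S := ⟨hxe, h2⟩
          rw [Set.indicator_of_mem this]
          linarith
        · have : x ∈ T := by
            by_contra hcon
            have h5 := hTx x hcon
            rw [not_le] at h2
            have h3 : min (η1 / 2) e ≤ η1 / 2 := min_le_left _ _
            linarith
          rw [Set.indicator_of_mem this]
          linarith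
    rcases le_total 0 X with h | h
    · rw [abs_of_nonneg h]
      have := (le_max_right 0 X).trans hkey
      linarith
    · rw [abs_of_nonpos h]
      linarith
  have i1 := odd_V_integrable (E := E) (by omega) hPs.1
  have i2 := odd_V_integrable (E := E) (by omega) hPm.1
  have e1 : ∫ x, (PP s (ind B) x + PP (-s) (ind B) x - 1) ∂(sm E) = 2 * μ - 1 := by
    have q1 : ∫ x, (PP s (ind B) x + PP (-s) (ind B) x - 1) ∂(sm E) =
        ∫ x, (PP s (ind B) x + PP (-s) (ind B) x) ∂(sm E) - ∫ _x : SS E, (1 : ℝ) ∂(sm E) :=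
      integral_sub (i1.add i2) (integrable_const _)
    have q2 : ∫ x, (PP s (ind B) x + PP (-s) (ind B) x) ∂(sm E) =
        ∫ x, PP s (ind B) x ∂(sm E) + ∫ x, PP (-s) (ind B) x ∂(sm E) := integral_add i1 i2
    have q3 := (PP_sym (E := E) (by omega) (r := s) (by linarith) (by linarith) hBM hBM1).2.1
    have q4 := (PP_sym (E := E) (by omega) (r := -s) (by linarith) (by linarith) hBM hBM1).2.1
    have q5 : ∫ _x : SS E, (1 : ℝ) ∂(sm E) = 1 := by simp
    rw [q1, q2, q3, q4, q5, odd_V_int hB]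
    ring
  have h9 : min (η1 / 2) e ≤ e := min_le_right _ _
  exact odd_V_final (by omega) ((i1.add i2).sub (integrable_const _)) hSm hTm hpt e1 hSb hTb
    (by linarith) he2

/-- inverse of the normal distribution function -/
noncomputable def ThN : ℝ → ℝ := Function.invFun PhN

/-- the doubling map -/
noncomputable def Dm (κ y : ℝ) : ℝ := if y ≤ 0 then 0 else if 1 ≤ y then 1 else PhN (κ * ThN y)

-- Dm_props
theorem Dm_props_inv (b : ℝ) : ThN (PhN b) = b :=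
  Function.leftInverse_invFun PhN_props.1.injective b

theorem Dm_props_val (κ b : ℝ) : Dm κ (PhN b) = PhN (κ * b) := by
  have h := PhN_props.2.2.1 b
  unfold Dm
  rw [if_neg (not_le.2 h.1), if_neg (not_le.2 h.2), Dm_props_inv]

theorem Dm_props_zero {κ y : ℝ} (hy : y ≤ 0) : Dm κ y = 0 := by
  unfold Dm
  rw [if_pos hy]

theorem Dm_props_one {κ y : ℝ} (hy : 1 ≤ y) : Dm κ y = 1 := by
  unfold Dm
  rw [if_neg (by linarith), if_pos hy]

theorem Dm_props_ex {y : ℝ} (h0 : 0 < y) (h1 : y < 1) : ∃ b, PhN b = y :=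
  PhN_props.2.2.2.2.2.1 y h0 h1

theorem Dm_props_der (b : ℝ) :
    HasDerivAt PhN (Real.exp (-(b ^ 2) / 2) / Real.sqrt (2 * Real.pi)) b := by
  have h := ((hasDerivAt_Psi b).div_const (Real.sqrt (2 * Real.pi))).const_add (1 / 2)
  exact h

theorem Dm_props_mono {κ : ℝ} (hκ : 1 ≤ κ) : Monotone (fun b => κ * PhN b - PhN (κ * b)) := by
  have hd : ∀ b, HasDerivAt (fun b => κ * PhN b - PhN (κ * b))
      (κ * (Real.exp (-(b ^ 2) / 2) / Real.sqrt (2 * Real.pi)) -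
        Real.exp (-((κ * b) ^ 2) / 2) / Real.sqrt (2 * Real.pi) * (κ * 1)) b := by
    intro b
    have h1 := (Dm_props_der b).const_mul κ
    have h2 := (Dm_props_der (κ * b)).comp b ((hasDerivAt_id b).const_mul κ)
    exact h1.sub h2
  refine monotone_of_deriv_nonneg (fun b => (hd b).differentiableAt) fun b => ?_
  rw [(hd b).deriv]
  have h3 : Real.exp (-((κ * b) ^ 2) / 2) ≤ Real.exp (-(b ^ 2) / 2) := by
    apply Real.exp_le_exp.2
    have h4 : b ^ 2 ≤ (κ * b) ^ 2 := by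
      rw [mul_pow]
      have h5 : 1 ≤ κ ^ 2 := one_le_pow₀ hκ
      nlinarith [sq_nonneg b]
    linarith
  have h6 : Real.exp (-((κ * b) ^ 2) / 2) / Real.sqrt (2 * Real.pi) ≤
      Real.exp (-(b ^ 2) / 2) / Real.sqrt (2 * Real.pi) :=
    div_le_div_of_nonneg_right h3 (Real.sqrt_nonneg _)
  have h7 := mul_le_mul_of_nonneg_left h6 (by linarith : (0 : ℝ) ≤ κ)
  linarith

theorem Dm_props_low {κ : ℝ} (hκ : 1 ≤ κ) (b : ℝ) : PhN (κ * b) ≤ κ * PhN b := by
  by_contra hcon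
  push Not at hcon
  set ε : ℝ := PhN (κ * b) - κ * PhN b with hε
  have hε0 : 0 < ε := by linarith
  have hκ0 : 0 < κ := by linarith
  obtain ⟨c, hc⟩ := Dm_props_ex (y := min (ε / 2) (1 / 2)) (lt_min (by linarith) (by norm_num))
    (lt_of_le_of_lt (min_le_right _ _) (by norm_num))
  have hm := Dm_props_mono hκ (min_le_left b (c / κ))
  dsimp only at hm
  have hmono := PhN_props.1.monotone
  have h1 : κ * min b (c / κ) ≤ c := by
    have := min_le_right b (c / κ)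
    have h2 := mul_le_mul_of_nonneg_left this hκ0.le
    have h3 : κ * (c / κ) = c := by field_simp
    linarith
  have h4 := hmono h1
  rw [hc] at h4
  have h5 := min_le_left (ε / 2) (1 / 2 : ℝ)
  have h6 := (PhN_props.2.2.1 (min b (c / κ))).1
  have h7 : 0 < κ * PhN (min b (c / κ)) := by positivity
  linarith

theorem Dm_props_up {κ : ℝ} (hκ : 1 ≤ κ) (b : ℝ) : 1 - PhN (κ * b) ≤ κ * (1 - PhN b) := by
  have h := Dm_props_low hκ (-b)
  rw [mul_neg, PhN_props.2.2.2.1, PhN_props.2.2.2.1] at h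
  exact h

theorem Dm_props_bd (κ y : ℝ) : 0 ≤ Dm κ y ∧ Dm κ y ≤ 1 := by
  rcases le_or_gt y 0 with h0 | h0
  · rw [Dm_props_zero h0]
    exact ⟨le_rfl, zero_le_one⟩
  rcases le_or_gt 1 y with h1 | h1
  · rw [Dm_props_one h1]
    exact ⟨zero_le_one, le_rfl⟩
  obtain ⟨b, rfl⟩ := Dm_props_ex h0 h1
  rw [Dm_props_val]
  have h := PhN_props.2.2.1 (κ * b)
  exact ⟨h.1.le, h.2.le⟩

theorem Dm_props_main {κ : ℝ} (hκ : 1 ≤ κ) {y y' : ℝ} (h : y ≤ y') :
    Dm κ y ≤ Dm κ y' ∧ Dm κ y' - Dm κ y ≤ κ * (y' - y) := by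
  have hκ0 : 0 < κ := by linarith
  rcases le_or_gt y 0 with h0 | h0
  · rw [Dm_props_zero h0]
    refine ⟨(Dm_props_bd κ y').1, ?_⟩
    rcases le_or_gt y' 0 with h0' | h0'
    · rw [Dm_props_zero h0', sub_zero]
      have : 0 ≤ y' - y := by linarith
      positivity
    rcases le_or_gt 1 y' with h1' | h1'
    · rw [Dm_props_one h1']
      nlinarith
    obtain ⟨b, rfl⟩ := Dm_props_ex h0' h1'
    rw [Dm_props_val]
    have := Dm_props_low hκ b
    nlinarith
  rcases le_or_gt 1 y' with h1' | h1'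
  · rw [Dm_props_one h1']
    refine ⟨(Dm_props_bd κ y).2, ?_⟩
    rcases le_or_gt 1 y with h1 | h1
    · rw [Dm_props_one h1, sub_self]
      have : 0 ≤ y' - y := by linarith
      positivity
    obtain ⟨b, rfl⟩ := Dm_props_ex h0 h1
    rw [Dm_props_val]
    have := Dm_props_up hκ b
    nlinarith
  have h1 : y < 1 := lt_of_le_of_lt h h1'
  have h0' : 0 < y' := lt_of_lt_of_le h0 h
  obtain ⟨b, rfl⟩ := Dm_props_ex h0 h1
  obtain ⟨b', rfl⟩ := Dm_props_ex h0' h1'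
  have hbb : b ≤ b' := PhN_props.1.le_iff_le.1 h
  rw [Dm_props_val, Dm_props_val]
  refine ⟨PhN_props.1.monotone (mul_le_mul_of_nonneg_left hbb hκ0.le), ?_⟩
  have hm := Dm_props_mono hκ hbb
  dsimp only at hm
  linarith

theorem Dm_props {κ : ℝ} (hκ : 1 ≤ κ) : (∀ b, Dm κ (PhN b) = PhN (κ * b)) ∧
    (∀ y y', |Dm κ y - Dm κ y'| ≤ κ * |y - y'|) ∧ (∀ y, Dm κ (1 - y) = 1 - Dm κ y) ∧
    (∀ y, 0 ≤ Dm κ y ∧ Dm κ y ≤ 1) ∧ Monotone (Dm κ) ∧ Continuous (Dm κ) := by
  have hlip : ∀ y y', |Dm κ y - Dm κ y'| ≤ κ * |y - y'| := by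
    intro y y'
    rcases le_total y y' with h | h
    · obtain ⟨h1, h2⟩ := Dm_props_main hκ h
      rw [abs_sub_comm, abs_of_nonneg (by linarith), abs_sub_comm y y',
        abs_of_nonneg (by linarith)]
      exact h2
    · obtain ⟨h1, h2⟩ := Dm_props_main hκ h
      rw [abs_of_nonneg (by linarith), abs_of_nonneg (by linarith)]
      exact h2
  refine ⟨Dm_props_val κ, hlip, ?_, Dm_props_bd κ, fun y y' h => (Dm_props_main hκ h).1, ?_⟩
  · intro y
    rcases le_or_gt y 0 with h0 | h0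
    · rw [Dm_props_zero h0, Dm_props_one (by linarith), sub_zero]
    rcases le_or_gt 1 y with h1 | h1
    · rw [Dm_props_one h1, Dm_props_zero (by linarith), sub_self]
    obtain ⟨b, rfl⟩ := Dm_props_ex h0 h1
    rw [← PhN_props.2.2.2.1 b, Dm_props_val, Dm_props_val, mul_neg, PhN_props.2.2.2.1]
  · have hl : LipschitzWith ⟨κ, by linarith⟩ (Dm κ) :=
      LipschitzWith.of_dist_le_mul fun y y' => by
        rw [Real.dist_eq, Real.dist_eq]
        exact hlip y y'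
    exact hl.continuous

-- doub_up
theorem doub_up_pt {κ ε' a v : ℝ} (hκ : 1 ≤ κ) (hε : 0 < ε') (hε1 : ε' ≤ 1) (ha0 : 0 ≤ a)
    (ha1 : a ≤ 1) (hv1 : v ≤ 1) (h : Dm κ (1 - a) + ε' < v) :
    ∃ θ1 θ3 : ℝ, PhN θ1 ≤ a ∧ PhN θ3 ≤ v ∧ ε' ≤ θ3 + κ * θ1 ∧
      ε' / (8 * κ) ≤ PhN θ1 ∧ PhN θ1 ≤ 1 - ε' / (8 * κ) ∧
      ε' / (8 * κ) ≤ PhN θ3 ∧ PhN θ3 ≤ 1 - ε' / (8 * κ) := by
  obtain ⟨hmono, hcont, h01, hneg, hzero, hsurj, hlip, -, -⟩ := PhN_props
  obtain ⟨hD1, hD2, hD3, hD4, hD5, hD6⟩ := Dm_props hκ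
  have hκ0 : 0 < κ := by linarith
  set q := ε' / (8 * κ) with hq
  have hq0 : 0 < q := by positivity
  have hκq : κ * q = ε' / 8 := by rw [hq]; field_simp
  have hqle : q ≤ ε' / 8 := by nlinarith
  obtain ⟨a', ha'⟩ : ∃ a', a' = min a (1 - 2 * q) := ⟨_, rfl⟩
  have ha'a : a' ≤ a := by rw [ha']; exact min_le_left _ _
  have ha'1 : a' ≤ 1 - 2 * q := by rw [ha']; exact min_le_right _ _
  have ha'0 : 0 ≤ a' := by rw [ha']; exact le_min ha0 (by linarith)
  have haa' : a - a' ≤ 2 * q := by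
    rcases min_choice a (1 - 2 * q) with h1 | h1 <;> rw [ha', h1] <;> linarith
  have hDa : Dm κ (1 - a') ≤ Dm κ (1 - a) + ε' / 4 := by
    have h1 := hD2 (1 - a') (1 - a)
    have h2 : |(1 - a') - (1 - a)| ≤ 2 * q := by
      rw [abs_le]; constructor <;> linarith
    have h3 := (abs_le.mp h1).2
    have h4 : κ * |(1 - a') - (1 - a)| ≤ κ * (2 * q) := mul_le_mul_of_nonneg_left h2 hκ0.le
    linarith
  have hD_one : Dm κ 1 = 1 := by simp [Dm]
  have hqa : q ≤ a' := by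
    by_contra hcon
    push Not at hcon
    have h1 := hD2 (1 - a') 1
    have h2 : |(1 - a') - 1| ≤ q := by rw [abs_le]; constructor <;> linarith
    have h3 := (abs_le.mp h1).1
    rw [hD_one] at h3
    have h4 : κ * |(1 - a') - 1| ≤ κ * q := mul_le_mul_of_nonneg_left h2 hκ0.le
    linarith
  obtain ⟨θ1, hθ1⟩ := hsurj a' (by linarith) (by linarith)
  have hDa' : Dm κ (1 - a') = PhN (-(κ * θ1)) := by
    rw [hD3, ← hθ1, hD1, hneg]
  obtain ⟨b', hb'⟩ : ∃ b', b' = min v (1 - ε' / 4) := ⟨_, rfl⟩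
  have hb'v : b' ≤ v := by rw [hb']; exact min_le_left _ _
  have hb'1 : b' ≤ 1 - ε' / 4 := by rw [hb']; exact min_le_right _ _
  have hP0 := (h01 (-(κ * θ1))).1
  have hb'2 : PhN (-(κ * θ1)) + ε' / 2 ≤ b' := by
    rw [hb']
    apply le_min <;> linarith
  obtain ⟨θ3, hθ3⟩ := hsurj b' (by linarith) (by linarith)
  have hlt : -(κ * θ1) < θ3 := by
    rw [← hmono.lt_iff_lt, hθ3]
    linarith
  have hsum : ε' ≤ θ3 + κ * θ1 := by
    have h1 := hlip θ3 (-(κ * θ1))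
    have h2 : |θ3 - -(κ * θ1)| = θ3 + κ * θ1 := by
      rw [abs_of_pos (by linarith)]; ring
    rw [h2] at h1
    have h3 := (abs_le.mp h1).2
    rw [hθ3] at h3
    linarith
  refine ⟨θ1, θ3, ?_, ?_, hsum, ?_, ?_, ?_, ?_⟩
  · rw [hθ1]; exact ha'a
  · rw [hθ3]; exact hb'v
  · rw [hθ1]; exact hqa
  · rw [hθ1]; linarith
  · rw [hθ3]; linarith
  · rw [hθ3]; linarith

theorem doub_up_ind_BM {F : Type*} [NormedAddCommGroup F] [MeasurableSpace F] [BorelSpace F]
    {B : Set (SS F)} (hB : MeasurableSet B) : BM (ind B) := by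
  refine ⟨measurable_const.indicator hB, 1, fun x => ?_⟩
  unfold ind
  by_cases h : x ∈ B
  · simp [Set.indicator_of_mem h]
  · simp [Set.indicator_of_notMem h]

theorem doub_up_ind_le {F : Type*} [NormedAddCommGroup F] (B : Set (SS F)) (x : SS F) :
    0 ≤ ind B x ∧ ind B x ≤ 1 := by
  unfold ind
  by_cases h : x ∈ B
  · simp [Set.indicator_of_mem h]
  · simp [Set.indicator_of_notMem h]

/-- the slice at height `0` -/
theorem doub_up_V0 {n : ℕ} {F : Type*} [NormedAddCommGroup F] [InnerProductSpace ℝ F]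
    [CompleteSpace F] [FiniteDimensional ℝ F] [MeasurableSpace F] [BorelSpace F]
    (hn : Module.finrank ℝ F = n) (h5 : 5 ≤ n) {B : Set (SS F)}
    (hB : MeasurableSet B) {η1 : ℝ} (hη : 0 < η1) (hmu : 1 / 2 - η1 / 2 ≤ (sm F).real B) :
    (sm F).real {x | PP 0 (ind B) x < 1 / 2 - η1} ≤ 4 / (n * η1) := by
  have hprob : IsProbabilityMeasure (sm F) := sm_prob (by omega)
  have hBM := doub_up_ind_BM hB
  have hPP := (PP_basic (E := F) (by omega) 0 hBM hBM).1
  set Y : Set (SS F) := {x | PP 0 (ind B) x < 1 / 2 - η1} with hY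
  have hYm : MeasurableSet Y := hPP.1 measurableSet_Iio
  have hYBM := doub_up_ind_BM hYm
  have hmix := mixing hn h5 (f := ind B) (h := ind Y) hBM hYBM
  have hiB : ∫ x, ind B x ∂(sm F) = (sm F).real B := by
    unfold ind
    rw [integral_indicator hB]
    simp
  have hiY : ∫ x, ind Y x ∂(sm F) = (sm F).real Y := by
    unfold ind
    rw [integral_indicator hYm]
    simp
  have hsq : ∀ (S : Set (SS F)) (x : SS F), (ind S x) ^ 2 = ind S x := by
    intro S x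
    unfold ind
    by_cases h : x ∈ S
    · simp [Set.indicator_of_mem h]
    · simp [Set.indicator_of_notMem h]
  simp only [hsq] at hmix
  rw [hiB, hiY] at hmix
  have hB1 : (sm F).real B ≤ 1 := measureReal_le_one
  have hY1 : (sm F).real Y ≤ 1 := measureReal_le_one
  have hY0 : 0 ≤ (sm F).real Y := measureReal_nonneg
  have hs1 : Real.sqrt ((sm F).real Y) ≤ 1 := Real.sqrt_le_one.mpr hY1
  have hs2 : Real.sqrt ((sm F).real B) ≤ 1 := Real.sqrt_le_one.mpr hB1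
  have hn0 : (0 : ℝ) < n := by
    have : 0 < n := by omega
    exact_mod_cast this
  have hrhs : 2 / (n : ℝ) * (Real.sqrt ((sm F).real Y) * Real.sqrt ((sm F).real B)) ≤ 2 / n := by
    have h1 : Real.sqrt ((sm F).real Y) * Real.sqrt ((sm F).real B) ≤ 1 :=
      mul_le_one₀ hs1 (Real.sqrt_nonneg _) hs2
    have h2 : 0 ≤ 2 / (n : ℝ) := by positivity
    calc _ ≤ 2 / (n : ℝ) * 1 := mul_le_mul_of_nonneg_left h1 h2
      _ = _ := mul_one _
  have hlow := (abs_le.mp (hmix.trans hrhs)).1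
  have hup : ∫ x, ind Y x * PP 0 (ind B) x ∂(sm F) ≤ (1 / 2 - η1) * (sm F).real Y := by
    rw [← hiY, ← integral_const_mul]
    obtain ⟨C, hC⟩ := hPP.2
    apply integral_mono_of_nonneg
    · refine Filter.Eventually.of_forall fun x => ?_
      refine mul_nonneg (doub_up_ind_le Y x).1 ?_
      exact (PP_basic (E := F) (by omega) 0 hBM hBM).2.2.2.2.1 0 x (fun y => (doub_up_ind_le B y).1)
    · refine Integrable.const_mul ?_ _
      refine Integrable.of_bound hYBM.1.aestronglyMeasurable 1 ?_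
      refine Filter.Eventually.of_forall fun x => ?_
      rw [Real.norm_eq_abs, abs_of_nonneg (doub_up_ind_le Y x).1]
      exact (doub_up_ind_le Y x).2
    · refine Filter.Eventually.of_forall fun x => ?_
      show ind Y x * PP 0 (ind B) x ≤ (1 / 2 - η1) * ind Y x
      unfold ind
      by_cases h : x ∈ Y
      · rw [Set.indicator_of_mem h]
        have : PP 0 (ind B) x < 1 / 2 - η1 := h
        unfold ind at this
        linarith
      · rw [Set.indicator_of_notMem h]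
        simp
  have h3 : (η1 / 2) * (sm F).real Y ≤ 2 / n := by
    have h4 : (1 / 2 - η1 / 2) * (sm F).real Y ≤ (sm F).real B * (sm F).real Y :=
      mul_le_mul_of_nonneg_right hmu hY0
    nlinarith
  rw [le_div_iff₀ (by positivity)]
  have h5' : (η1 / 2) * (sm F).real Y * n ≤ 2 := by
    calc _ ≤ 2 / (n : ℝ) * n := mul_le_mul_of_nonneg_right h3 hn0.le
      _ = 2 := by field_simp
  linarith

theorem doub_up_one (m : ℕ) {τ : ℝ} (hs : 6 * τ ^ 2 < ((m + 3 : ℕ) : ℝ) / (((m + 3 : ℕ) : ℝ) - 1))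
    (hs4 : 4 * τ ^ 2 < 1) {ε : ℝ} (hε : 0 < ε) :
    ∃ p0 : ℝ, 0 < p0 ∧ ∃ η : ℝ, 0 < η ∧ ∃ n0 : ℕ, ∀ (E : Type) [NormedAddCommGroup E]
    [InnerProductSpace ℝ E] [CompleteSpace E] [FiniteDimensional ℝ E] [MeasurableSpace E]
    [BorelSpace E], n0 ≤ Module.finrank ℝ E → ∀ σ : Fin (m + 3) → SS E, IsSimp σ →
    ∀ B : Set (SS E), MeasurableSet B → (hm E).real {g | ∀ i, sa g (σ i) ∈ B} ≤ p0 →
    1 / 2 - η ≤ (sm E).real B →
    ∫ x, max 0 (PP (2 * τ) (ind B) x
      - Dm (2 * Real.sqrt (1 - τ ^ 2) / Real.sqrt (1 - 4 * τ ^ 2)) (1 - PP (-τ) (ind B) x)) ∂(sm E)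
      ≤ ε := by
  obtain ⟨hmono, hcont, h01, hneg, hzero, hsurj, hlip, -, -⟩ := PhN_props
  set l := Real.sqrt (1 - τ ^ 2) with hl
  set l' := Real.sqrt (1 - 4 * τ ^ 2) with hl'
  have hl'0 : 0 < l' := Real.sqrt_pos.mpr (by linarith)
  have hll : l' ≤ l := Real.sqrt_le_sqrt (by nlinarith [sq_nonneg τ])
  have hl0 : 0 < l := by linarith
  set κ := 2 * l / l' with hκ
  have hκ1 : 1 ≤ κ := by rw [hκ, le_div_iff₀ hl'0]; linarith
  have hκ0 : 0 < κ := by linarith
  have hκl : l' * κ = 2 * l := by rw [hκ]; field_simp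
  obtain ⟨hD1, hD2, hD3, hD4, hD5, hD6⟩ := Dm_props hκ1
  -- parameters
  obtain ⟨ε', hε'⟩ : ∃ e, e = min 1 (ε / 4) := ⟨_, rfl⟩
  have hε'0 : 0 < ε' := by rw [hε']; exact lt_min one_pos (by linarith)
  have hε'1 : ε' ≤ 1 := by rw [hε']; exact min_le_left _ _
  have hε'4 : ε' ≤ ε / 4 := by rw [hε']; exact min_le_right _ _
  obtain ⟨q, hq⟩ : ∃ q, q = ε' / (8 * κ) := ⟨_, rfl⟩
  have hq0 : 0 < q := by rw [hq]; positivity
  have hq1 : q < 1 := by
    rw [hq, div_lt_one (by positivity)]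
    linarith
  obtain ⟨b0, hb0⟩ := hsurj q hq0 hq1
  obtain ⟨ς, hς⟩ : ∃ z, z = l' * ε' / (2 * (m + 3)) := ⟨_, rfl⟩
  have hς0 : 0 < ς := by rw [hς]; positivity
  have hςm : (m : ℝ) * ς ≤ l' * ε' / 2 := by
    have h1 : ((m : ℝ) + 3) * ς = l' * ε' / 2 := by
      rw [hς]; field_simp
    nlinarith
  obtain ⟨η1, hη1⟩ : ∃ z, z = 1 / 2 - PhN (-ς) := ⟨_, rfl⟩
  have hη10 : 0 < η1 := by
    have : PhN (-ς) < PhN 0 := hmono (by linarith)
    rw [hη1]; linarith
  obtain ⟨M, hM⟩ : ∃ z, z = |b0| + ς + 1 := ⟨_, rfl⟩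
  have hM0 : 0 < M := by rw [hM]; positivity
  obtain ⟨δ, hδ⟩ : ∃ z, z = min (l' * ε' / 2) (1 / M) := ⟨_, rfl⟩
  have hδ0 : 0 < δ := by rw [hδ]; exact lt_min (by positivity) (by positivity)
  have hδ1 : δ ≤ l' * ε' / 2 := by rw [hδ]; exact min_le_left _ _
  have hδM : M ≤ 1 / δ := by
    rw [le_div_iff₀ hδ0]
    have : δ ≤ 1 / M := by rw [hδ]; exact min_le_right _ _
    calc M * δ ≤ M * (1 / M) := mul_le_mul_of_nonneg_left this hM0.le
      _ = 1 := by field_simp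
  have hτ2 : |2 * τ| < 1 := by
    rw [abs_lt]
    constructor <;> nlinarith
  have hτ1 : |-τ| < 1 := by
    rw [abs_neg]
    rw [abs_mul, abs_two] at hτ2
    linarith [abs_nonneg τ]
  set c : Fin (m + 3) → ℝ := Fin.cons (-τ) (Fin.cons (-τ) (Fin.cons (2 * τ) (fun _ => 0))) with hc
  obtain ⟨p1, hp1, n0, hsl⟩ := slice_unif (m + 3) (by omega) c
    (by
      simp only [hc, Fin.sum_univ_succ, Fin.cons_zero, Fin.cons_succ]
      simp
      ring)
    (by
      have : ∑ i, c i ^ 2 = 6 * τ ^ 2 := by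
        simp only [hc, Fin.sum_univ_succ, Fin.cons_zero, Fin.cons_succ]
        simp
        ring
      rw [this]
      exact hs)
    (by
      simp only [hc, Fin.forall_fin_succ, Fin.cons_zero, Fin.cons_succ]
      refine ⟨hτ1, hτ1, hτ2, fun i => by simp⟩)
    hδ0
  obtain ⟨n1, hn1⟩ := exists_nat_gt (4 / (η1 * (ε / 4)))
  refine ⟨p1 * (ε / 4), by positivity, η1 / 2, by positivity, max n0 (max n1 5), ?_⟩
  intro E _ _ _ _ _ _ hdim σ hσ B hB hp hmu
  obtain ⟨n, hn⟩ : ∃ n, Module.finrank ℝ E = n := ⟨_, rfl⟩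
  have hdim0 : n0 ≤ Module.finrank ℝ E := (le_max_left _ _).trans hdim
  have hdim1 : n1 ≤ n := by
    rw [← hn]; exact ((le_max_left _ _).trans (le_max_right _ _)).trans hdim
  have hdim5 : 5 ≤ n := by
    rw [← hn]; exact ((le_max_right _ _).trans (le_max_right _ _)).trans hdim
  have hprob : IsProbabilityMeasure (sm E) := sm_prob (by omega)
  have h1 := hsl E hdim0 σ hσ B hB
  set X : Set (SS E) := {x | ∃ θ : Fin (m + 3) → ℝ, (∀ i, PhN (θ i) ≤ PP (c i) (ind B) x) ∧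
      (∀ i, |θ i| ≤ 1 / δ) ∧ δ ≤ ∑ i, Real.sqrt (1 - c i ^ 2) * θ i} with hX
  have hXm : (sm E).real X ≤ ε / 4 := by
    have h2 := h1.trans hp
    exact le_of_mul_le_mul_left h2 hp1
  set Y : Set (SS E) := {x | PP 0 (ind B) x < 1 / 2 - η1} with hY
  have hYm : (sm E).real Y ≤ ε / 4 := by
    refine (doub_up_V0 hn hdim5 hB hη10 hmu).trans ?_
    have hn1' : (4 / (η1 * (ε / 4))) < n := lt_of_lt_of_le hn1 (by exact_mod_cast hdim1)
    have hnpos : (0 : ℝ) < n := by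
      have : 0 < n := by omega
      exact_mod_cast this
    rw [div_lt_iff₀ (by positivity)] at hn1'
    rw [div_le_iff₀ (by positivity)]
    nlinarith
  have hBM := doub_up_ind_BM hB
  have hb2 := PP_basic (E := E) (by omega) (2 * τ) hBM hBM
  have hb1 := PP_basic (E := E) (by omega) (-τ) hBM hBM
  have hv1 : ∀ x, PP (2 * τ) (ind B) x ≤ 1 := fun x =>
    hb2.2.2.2.1 1 x (fun y => (doub_up_ind_le B y).2)
  have ha1 : ∀ x, PP (-τ) (ind B) x ≤ 1 := fun x =>
    hb1.2.2.2.1 1 x (fun y => (doub_up_ind_le B y).2)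
  have ha0 : ∀ x, 0 ≤ PP (-τ) (ind B) x := fun x =>
    hb1.2.2.2.2.1 0 x (fun y => (doub_up_ind_le B y).1)
  obtain ⟨f, hf⟩ : ∃ f : SS E → ℝ, f = fun x => max 0 (PP (2 * τ) (ind B) x
      - Dm κ (1 - PP (-τ) (ind B) x)) := ⟨_, rfl⟩
  have hfm : Measurable f := by
    rw [hf]
    refine measurable_const.max (hb2.1.1.sub ?_)
    exact hD6.measurable.comp (measurable_const.sub hb1.1.1)
  have hf0 : ∀ x, 0 ≤ f x := fun x => by rw [hf]; exact le_max_left _ _
  have hf1 : ∀ x, f x ≤ 1 := fun x => by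
    rw [hf]
    refine max_le zero_le_one ?_
    have := (hD4 (1 - PP (-τ) (ind B) x)).1
    linarith [hv1 x]
  set Z : Set (SS E) := {x | ε' < f x} with hZ
  have hZm : MeasurableSet Z := hfm measurableSet_Ioi
  have hZsub : Z ⊆ X ∪ Y := by
    intro x hx
    by_cases hxY : x ∈ Y
    · exact Or.inr hxY
    left
    have hu : 1 / 2 - η1 ≤ PP 0 (ind B) x := not_lt.mp hxY
    have hxf : ε' < f x := hx
    rw [hf] at hxf
    simp only [] at hxf
    have hxf' : Dm κ (1 - PP (-τ) (ind B) x) + ε' < PP (2 * τ) (ind B) x := by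
      rcases lt_max_iff.mp hxf with h | h
      · linarith
      · linarith
    obtain ⟨θ1, θ3, k1, k2, k3, k4, k5, k6, k7⟩ := doub_up_pt hκ1 hε'0 hε'1 (ha0 x) (ha1 x) (hv1 x) hxf'
    rw [← hq] at k4 k5 k6 k7
    have hbd : ∀ θ, q ≤ PhN θ → PhN θ ≤ 1 - q → |θ| ≤ 1 / δ := by
      intro θ e1 e2
      rw [← hb0] at e1
      rw [← hb0, ← hneg] at e2
      have e3 := hmono.le_iff_le.mp e1
      have e4 := hmono.le_iff_le.mp e2
      have e5 : |θ| ≤ |b0| := by
        rw [abs_le]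
        constructor
        · linarith [neg_abs_le b0]
        · linarith [neg_abs_le b0]
      linarith
    refine ⟨Fin.cons θ1 (Fin.cons θ1 (Fin.cons θ3 (fun _ => -ς))), ?_, ?_, ?_⟩
    · simp only [hc, Fin.forall_fin_succ, Fin.cons_zero, Fin.cons_succ]
      refine ⟨k1, k1, k2, fun i => ?_⟩
      linarith
    · simp only [Fin.forall_fin_succ, Fin.cons_zero, Fin.cons_succ]
      refine ⟨hbd _ k4 k5, hbd _ k4 k5, hbd _ k6 k7, fun i => ?_⟩
      rw [abs_neg, abs_of_pos hς0]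
      linarith [abs_nonneg b0]
    · have hsum : ∑ i, Real.sqrt (1 - c i ^ 2) *
          (Fin.cons θ1 (Fin.cons θ1 (Fin.cons θ3 (fun _ => -ς))) : Fin (m + 3) → ℝ) i =
          2 * l * θ1 + l' * θ3 - m * ς := by
        simp only [hc, Fin.sum_univ_succ, Fin.cons_zero, Fin.cons_succ]
        have e1 : (1 : ℝ) - (-τ) ^ 2 = 1 - τ ^ 2 := by ring
        have e2 : (1 : ℝ) - (2 * τ) ^ 2 = 1 - 4 * τ ^ 2 := by ring
        rw [e1, e2, ← hl, ← hl']
        simp
        ring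
      rw [hsum]
      have e3 : l' * (θ3 + κ * θ1) = 2 * l * θ1 + l' * θ3 := by
        rw [mul_add, ← mul_assoc, hκl]; ring
      have e4 : l' * ε' ≤ l' * (θ3 + κ * θ1) := mul_le_mul_of_nonneg_left k3 hl'0.le
      rw [e3] at e4
      linarith
  have hZr : (sm E).real Z ≤ ε / 2 := by
    calc (sm E).real Z ≤ (sm E).real (X ∪ Y) := measureReal_mono hZsub
      _ ≤ (sm E).real X + (sm E).real Y := measureReal_union_le _ _
      _ ≤ ε / 2 := by linarith
  have hmain : ∫ x, f x ∂(sm E) ≤ ε' + (sm E).real Z := by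
    have e1 : ∫ x, (ε' + ind Z x) ∂(sm E) = ε' + (sm E).real Z := by
      have hint : Integrable (ind Z) (sm E) := by
        refine Integrable.of_bound (doub_up_ind_BM hZm).1.aestronglyMeasurable 1 ?_
        refine Filter.Eventually.of_forall fun x => ?_
        rw [Real.norm_eq_abs, abs_of_nonneg (doub_up_ind_le Z x).1]
        exact (doub_up_ind_le Z x).2
      rw [integral_add (integrable_const _) hint]
      unfold ind
      rw [integral_indicator hZm]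
      simp
    rw [← e1]
    apply integral_mono_of_nonneg
    · exact Filter.Eventually.of_forall fun x => hf0 x
    · refine (integrable_const _).add ?_
      refine Integrable.of_bound (doub_up_ind_BM hZm).1.aestronglyMeasurable 1 ?_
      refine Filter.Eventually.of_forall fun x => ?_
      rw [Real.norm_eq_abs, abs_of_nonneg (doub_up_ind_le Z x).1]
      exact (doub_up_ind_le Z x).2
    · refine Filter.Eventually.of_forall fun x => ?_
      show f x ≤ ε' + ind Z x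
      unfold ind
      by_cases h : x ∈ Z
      · rw [Set.indicator_of_mem h]
        linarith [hf1 x]
      · rw [Set.indicator_of_notMem h]
        have : f x ≤ ε' := not_lt.mp h
        linarith
  have hfin : ∫ x, f x ∂(sm E) ≤ ε := by linarith
  rw [hf] at hfin
  exact hfin

theorem doub_up (t : ℕ) (ht : 3 ≤ t) {s : ℝ} (hs0 : 0 < s) (hs : 6 * s ^ 2 < t / (t - 1 : ℝ))
    (hs4 : 4 * s ^ 2 < 1) {ε : ℝ} (hε : 0 < ε) :
    ∃ p0 : ℝ, 0 < p0 ∧ ∃ η : ℝ, 0 < η ∧ ∃ n0 : ℕ, ∀ (E : Type) [NormedAddCommGroup E]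
    [InnerProductSpace ℝ E] [CompleteSpace E] [FiniteDimensional ℝ E] [MeasurableSpace E]
    [BorelSpace E], n0 ≤ Module.finrank ℝ E → ∀ σ : Fin t → SS E, IsSimp σ →
    ∀ B : Set (SS E), MeasurableSet B → (hm E).real {g | ∀ i, sa g (σ i) ∈ B} ≤ p0 →
    1 / 2 - η ≤ (sm E).real B → ∀ τ : ℝ, (τ = s ∨ τ = -s) →
    ∫ x, max 0 (PP (2 * τ) (ind B) x
      - Dm (2 * Real.sqrt (1 - s ^ 2) / Real.sqrt (1 - 4 * s ^ 2)) (1 - PP (-τ) (ind B) x)) ∂(sm E)
      ≤ ε := by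
  obtain ⟨m, rfl⟩ : ∃ m, t = m + 3 := ⟨t - 3, by omega⟩
  have hs' : 6 * (-s) ^ 2 < ((m + 3 : ℕ) : ℝ) / (((m + 3 : ℕ) : ℝ) - 1) := by
    rw [neg_sq]; exact hs
  have hs4' : 4 * (-s) ^ 2 < 1 := by rw [neg_sq]; exact hs4
  obtain ⟨p, hp, η, hη, n0, H⟩ := doub_up_one m hs hs4 hε
  obtain ⟨p', hp', η', hη', n0', H'⟩ := doub_up_one m hs' hs4' hε
  refine ⟨min p p', lt_min hp hp', min η η', lt_min hη hη', max n0 n0', ?_⟩
  intro E _ _ _ _ _ _ hdim σ hσ B hB hpB hmu τ hτ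
  rcases hτ with rfl | rfl
  · refine H E ((le_max_left _ _).trans hdim) σ hσ B hB (hpB.trans (min_le_left _ _)) ?_
    linarith [min_le_left η η']
  · have h := H' E ((le_max_right _ _).trans hdim) σ hσ B hB (hpB.trans (min_le_right _ _))
      (by linarith [min_le_right η η'])
    rw [neg_sq] at h
    exact h

-- doubling

theorem doubling_BM_ind {B : Set (SS E)} (hB : MeasurableSet B) : BM (ind B) := by
  refine ⟨measurable_const.indicator hB, 1, fun x => ?_⟩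
  unfold ind
  by_cases hx : x ∈ B
  · rw [indicator_of_mem hx]; norm_num
  · rw [indicator_of_notMem hx]; norm_num

theorem doubling_PP {B : Set (SS E)} (hB : MeasurableSet B) (h3 : 3 ≤ Module.finrank ℝ E) (r : ℝ) :
    Measurable (PP r (ind B)) ∧ ∀ x, 0 ≤ PP r (ind B) x ∧ PP r (ind B) x ≤ 1 := by
  have hI := doubling_BM_ind hB
  obtain ⟨h1, -, -, h4, h5, -, -⟩ := PP_basic h3 r hI hI
  refine ⟨h1.1, fun x => ⟨h5 0 x fun y => ?_, h4 1 x fun y => ?_⟩⟩
  · exact indicator_nonneg (fun _ _ => zero_le_one) y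
  · unfold ind
    by_cases hy : y ∈ B
    · rw [indicator_of_mem hy]
    · rw [indicator_of_notMem hy]; exact zero_le_one

theorem doubling_int (h1 : 1 ≤ Module.finrank ℝ E) {f : SS E → ℝ} (hf : Measurable f) {C : ℝ}
    (hC : ∀ x, |f x| ≤ C) : Integrable f (sm E) := by
  have := sm_prob (E := E) h1
  exact (integrable_const C).mono' hf.aestronglyMeasurable (Filter.Eventually.of_forall hC)

theorem doubling_kappa {s : ℝ} (hs4 : 4 * s ^ 2 < 1) :
    1 ≤ 2 * Real.sqrt (1 - s ^ 2) / Real.sqrt (1 - 4 * s ^ 2) := by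
  have h0 : 0 < Real.sqrt (1 - 4 * s ^ 2) := Real.sqrt_pos.2 (by linarith)
  rw [le_div_iff₀ h0, one_mul]
  have h1 : Real.sqrt (1 - 4 * s ^ 2) ≤ Real.sqrt (1 - s ^ 2) :=
    Real.sqrt_le_sqrt (by nlinarith [sq_nonneg s])
  have h2 := Real.sqrt_nonneg (1 - s ^ 2)
  linarith

theorem doubling_pt {κ a a' b b' : ℝ} (hκ : 1 ≤ κ) :
    |a - Dm κ b| ≤ max 0 (a - Dm κ (1 - b')) + κ * |b + b' - 1| + max 0 (a' - Dm κ (1 - b))
      + |a + a' - 1| := by
  obtain ⟨-, h2, h3, -, -, -⟩ := Dm_props hκ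
  have e1 := le_max_right 0 (a - Dm κ (1 - b'))
  have e2 := le_max_left 0 (a - Dm κ (1 - b'))
  have e3 := le_max_right 0 (a' - Dm κ (1 - b))
  have e4 := le_max_left 0 (a' - Dm κ (1 - b))
  have e5 := h2 (1 - b') b
  have e6 : |1 - b' - b| = |b + b' - 1| := by
    rw [← abs_neg]; congr 1; ring
  rw [e6] at e5
  have e7 := (abs_le.1 e5)
  have e8 := h3 b
  have e9 := abs_nonneg (a + a' - 1)
  have e10 := neg_abs_le (a + a' - 1)
  have e11 : 0 ≤ κ * |b + b' - 1| := mul_nonneg (by linarith) (abs_nonneg _)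
  rw [abs_le]
  constructor
  · linarith
  · linarith [e7.1, e7.2]

theorem doubling_main (h3 : 3 ≤ Module.finrank ℝ E) {κ : ℝ} (hκ : 1 ≤ κ) {B : Set (SS E)}
    (hB : MeasurableSet B) {s e : ℝ}
    (i1 : ∫ x, max 0 (PP (2 * s) (ind B) x - Dm κ (1 - PP (-s) (ind B) x)) ∂(sm E) ≤ e)
    (i2 : ∫ x, max 0 (PP (2 * -s) (ind B) x - Dm κ (1 - PP (- -s) (ind B) x)) ∂(sm E) ≤ e)
    (i3 : ∫ x, |PP s (ind B) x + PP (-s) (ind B) x - 1| ∂(sm E) ≤ e)
    (i4 : ∫ x, |PP (2 * s) (ind B) x + PP (-(2 * s)) (ind B) x - 1| ∂(sm E) ≤ e) :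
    ∫ x, |PP (2 * s) (ind B) x - Dm κ (PP s (ind B) x)| ∂(sm E) ≤ (3 + κ) * e := by
  have h1 : 1 ≤ Module.finrank ℝ E := by omega
  have hP := sm_prob (E := E) h1
  obtain ⟨-, -, -, hD01, -, hDc⟩ := Dm_props hκ
  rw [neg_neg, show (2 * -s : ℝ) = -(2 * s) by ring] at i2
  obtain ⟨ma, ba⟩ := doubling_PP hB h3 (2 * s)
  obtain ⟨ma', ba'⟩ := doubling_PP hB h3 (-(2 * s))
  obtain ⟨mb, bb⟩ := doubling_PP hB h3 s
  obtain ⟨mb', bb'⟩ := doubling_PP hB h3 (-s)
  have I1 : Integrable (fun x => max 0 (PP (2 * s) (ind B) x - Dm κ (1 - PP (-s) (ind B) x)))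
      (sm E) := by
    refine doubling_int h1 (C := 1) (measurable_const.max
      (ma.sub (hDc.measurable.comp (measurable_const.sub mb')))) fun x => ?_
    rw [abs_of_nonneg (le_max_left _ _)]
    refine max_le zero_le_one ?_
    linarith [(ba x).2, (hD01 (1 - PP (-s) (ind B) x)).1]
  have I2 : Integrable (fun x => max 0 (PP (-(2 * s)) (ind B) x - Dm κ (1 - PP s (ind B) x)))
      (sm E) := by
    refine doubling_int h1 (C := 1) (measurable_const.max
      (ma'.sub (hDc.measurable.comp (measurable_const.sub mb)))) fun x => ?_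
    rw [abs_of_nonneg (le_max_left _ _)]
    refine max_le zero_le_one ?_
    linarith [(ba' x).2, (hD01 (1 - PP s (ind B) x)).1]
  have I3 : Integrable (fun x => |PP s (ind B) x + PP (-s) (ind B) x - 1|) (sm E) := by
    refine doubling_int h1 (C := 1) ((mb.add mb').sub_const 1).abs fun x => ?_
    rw [abs_abs, abs_le]
    constructor <;> linarith [(bb x).1, (bb x).2, (bb' x).1, (bb' x).2]
  have I4 : Integrable (fun x => |PP (2 * s) (ind B) x + PP (-(2 * s)) (ind B) x - 1|)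
      (sm E) := by
    refine doubling_int h1 (C := 1) ((ma.add ma').sub_const 1).abs fun x => ?_
    rw [abs_abs, abs_le]
    constructor <;> linarith [(ba x).1, (ba x).2, (ba' x).1, (ba' x).2]
  have hle : ∫ x, |PP (2 * s) (ind B) x - Dm κ (PP s (ind B) x)| ∂(sm E)
      ≤ ∫ x, (max 0 (PP (2 * s) (ind B) x - Dm κ (1 - PP (-s) (ind B) x))
        + κ * |PP s (ind B) x + PP (-s) (ind B) x - 1|
        + max 0 (PP (-(2 * s)) (ind B) x - Dm κ (1 - PP s (ind B) x))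
        + |PP (2 * s) (ind B) x + PP (-(2 * s)) (ind B) x - 1|) ∂(sm E) := by
    refine integral_mono_of_nonneg (Filter.Eventually.of_forall fun x => abs_nonneg _)
      (((I1.add (I3.const_mul κ)).add I2).add I4) (Filter.Eventually.of_forall fun x => ?_)
    exact doubling_pt hκ
  have hadd : ∫ x, (max 0 (PP (2 * s) (ind B) x - Dm κ (1 - PP (-s) (ind B) x))
        + κ * |PP s (ind B) x + PP (-s) (ind B) x - 1|
        + max 0 (PP (-(2 * s)) (ind B) x - Dm κ (1 - PP s (ind B) x))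
        + |PP (2 * s) (ind B) x + PP (-(2 * s)) (ind B) x - 1|) ∂(sm E)
      = (∫ x, max 0 (PP (2 * s) (ind B) x - Dm κ (1 - PP (-s) (ind B) x)) ∂(sm E))
        + κ * (∫ x, |PP s (ind B) x + PP (-s) (ind B) x - 1| ∂(sm E))
        + (∫ x, max 0 (PP (-(2 * s)) (ind B) x - Dm κ (1 - PP s (ind B) x)) ∂(sm E))
        + (∫ x, |PP (2 * s) (ind B) x + PP (-(2 * s)) (ind B) x - 1| ∂(sm E)) := by
    have J12 : Integrable (fun x => max 0 (PP (2 * s) (ind B) x - Dm κ (1 - PP (-s) (ind B) x))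
        + κ * |PP s (ind B) x + PP (-s) (ind B) x - 1|) (sm E) := I1.add (I3.const_mul κ)
    have J123 : Integrable (fun x => max 0 (PP (2 * s) (ind B) x - Dm κ (1 - PP (-s) (ind B) x))
        + κ * |PP s (ind B) x + PP (-s) (ind B) x - 1|
        + max 0 (PP (-(2 * s)) (ind B) x - Dm κ (1 - PP s (ind B) x))) (sm E) := J12.add I2
    have h4 := integral_add J123 I4
    have h3' := integral_add J12 I2
    have h2 := integral_add I1 (I3.const_mul κ)
    rw [integral_const_mul] at h2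
    rw [h4, h3', h2]
  rw [hadd] at hle
  have i3' := mul_le_mul_of_nonneg_left i3 (by linarith : (0 : ℝ) ≤ κ)
  linarith

theorem doubling (t : ℕ) (ht : 3 ≤ t) {s : ℝ} (hs0 : 0 < s) (hs : 8 * s ^ 2 < t / (t - 1 : ℝ))
    (hs4 : 4 * s ^ 2 < 1) {ε : ℝ} (hε : 0 < ε) :
    ∃ p0 : ℝ, 0 < p0 ∧ ∃ η : ℝ, 0 < η ∧ ∃ n0 : ℕ, ∀ (E : Type) [NormedAddCommGroup E]
    [InnerProductSpace ℝ E] [CompleteSpace E] [FiniteDimensional ℝ E] [MeasurableSpace E]
    [BorelSpace E], n0 ≤ Module.finrank ℝ E → ∀ σ : Fin t → SS E, IsSimp σ →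
    ∀ B : Set (SS E), MeasurableSet B → (hm E).real {g | ∀ i, sa g (σ i) ∈ B} ≤ p0 →
    1 / 2 - η ≤ (sm E).real B →
    ∫ x, |PP (2 * s) (ind B) x
      - Dm (2 * Real.sqrt (1 - s ^ 2) / Real.sqrt (1 - 4 * s ^ 2)) (PP s (ind B) x)| ∂(sm E)
      ≤ ε := by
  obtain ⟨κ, hκe⟩ : ∃ κ : ℝ, κ = 2 * Real.sqrt (1 - s ^ 2) / Real.sqrt (1 - 4 * s ^ 2) := ⟨_, rfl⟩
  have hκ : 1 ≤ κ := by rw [hκe]; exact doubling_kappa hs4
  have hs2 := sq_nonneg s
  have he : 0 < ε / (3 + κ) := div_pos hε (by linarith)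
  obtain ⟨p1, hp1, η1, hη1, n1, H1⟩ := doub_up t ht hs0 (by linarith) hs4 he
  obtain ⟨p2, hp2, η2, hη2, n2, H2⟩ := odd_V t ht hs0 (by linarith) he
  obtain ⟨p3, hp3, η3, hη3, n3, H3⟩ := odd_V t ht (s := 2 * s) (by linarith)
    (by have : 2 * (2 * s) ^ 2 = 8 * s ^ 2 := by ring
        rw [this]; exact hs) he
  refine ⟨min p1 (min p2 p3), lt_min hp1 (lt_min hp2 hp3), min η1 (min η2 η3),
    lt_min hη1 (lt_min hη2 hη3), max 3 (max n1 (max n2 n3)), ?_⟩
  intro E _ _ _ _ _ _ hE σ hσ B hB hp hB2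
  have hE3 : 3 ≤ Module.finrank ℝ E := (le_max_left _ _).trans hE
  have hE1 : n1 ≤ Module.finrank ℝ E := ((le_max_left _ _).trans (le_max_right _ _)).trans hE
  have hE2 : n2 ≤ Module.finrank ℝ E :=
    (((le_max_left _ _).trans (le_max_right _ _)).trans (le_max_right _ _)).trans hE
  have hE4 : n3 ≤ Module.finrank ℝ E :=
    (((le_max_right _ _).trans (le_max_right _ _)).trans (le_max_right _ _)).trans hE
  have q1 : min p1 (min p2 p3) ≤ p1 := min_le_left _ _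
  have q2 : min p1 (min p2 p3) ≤ p2 := (min_le_right _ _).trans (min_le_left _ _)
  have q3 : min p1 (min p2 p3) ≤ p3 := (min_le_right _ _).trans (min_le_right _ _)
  have r1 : min η1 (min η2 η3) ≤ η1 := min_le_left _ _
  have r2 : min η1 (min η2 η3) ≤ η2 := (min_le_right _ _).trans (min_le_left _ _)
  have r3 : min η1 (min η2 η3) ≤ η3 := (min_le_right _ _).trans (min_le_right _ _)
  have j1 := H1 E hE1 σ hσ B hB (hp.trans q1) (by linarith) s (Or.inl rfl)
  have j2 := H1 E hE1 σ hσ B hB (hp.trans q1) (by linarith) (-s) (Or.inr rfl)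
  have j3 := H2 E hE2 σ hσ B hB (hp.trans q2) (by linarith)
  have j4 := H3 E hE4 σ hσ B hB (hp.trans q3) (by linarith)
  rw [← hκe] at j1 j2 ⊢
  have h := doubling_main hE3 hκ hB j1 j2 j3 j4
  have hf : (3 + κ) * (ε / (3 + κ)) = ε := by
    have : (3 + κ) ≠ 0 := by linarith
    field_simp
  rw [hf] at h
  exact h


end CoreW

end Pool.Agent.helper440_simplex
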