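import Pool.Agent.helper440_simplex.G0c

set_option autoImplicit false
set_option linter.unusedSectionVars false

namespace Pool.Agent.helper440_simplex

open MeasureTheory Metric Set Filter Topology
open scoped RealInnerProductSpace

section CoreW
variable {E : Type*} [NormedAddCommGroup E] [InnerProductSpace ℝ E] [CompleteSpace E]
  [FiniteDimensional ℝ E] [MeasurableSpace E] [BorelSpace E]

-- profile_V

/-- the statement that the profile of the sets is known at scale `s` with error `e` -/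
def profile_V_Q (t : ℕ) (s e : ℝ) : Prop :=
    ∃ p0 : ℝ, 0 < p0 ∧ ∃ η : ℝ, 0 < η ∧ ∃ n0 : ℕ, ∀ (E : Type) [NormedAddCommGroup E]
    [InnerProductSpace ℝ E] [CompleteSpace E] [FiniteDimensional ℝ E] [MeasurableSpace E]
    [BorelSpace E], n0 ≤ Module.finrank ℝ E → ∀ σ : Fin t → SS E, IsSimp σ →
    ∀ B : Set (SS E), MeasurableSet B → (hm E).real {g | ∀ i, sa g (σ i) ∈ B} ≤ p0 →
    1 / 2 - η ≤ (sm E).real B →
    ∫ x, |PP s (ind B) x - gm s B x| ∂(sm E) ≤ e

theorem profile_V_Q_mono {t : ℕ} {s e e' : ℝ} (h : profile_V_Q t s e) (hee : e ≤ e') :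
    profile_V_Q t s e' := by
  obtain ⟨p0, hp0, η, hη, n0, H⟩ := h
  refine ⟨p0, hp0, η, hη, n0, ?_⟩
  intro E _ _ _ _ _ _ hn σ hσ B hB h1 h2
  exact (H E hn σ hσ B hB h1 h2).trans hee

theorem profile_V_ind_BM {E : Type*} [NormedAddCommGroup E] [InnerProductSpace ℝ E]
    [CompleteSpace E] [FiniteDimensional ℝ E] [MeasurableSpace E] [BorelSpace E]
    {B : Set (SS E)} (hB : MeasurableSet B) : BM (ind B) := by
  refine ⟨measurable_const.indicator hB, 1, fun x => ?_⟩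
  unfold ind
  by_cases hx : x ∈ B
  · rw [Set.indicator_of_mem hx]; simp
  · rw [Set.indicator_of_notMem hx]; simp

theorem profile_V_gm_meas {E : Type*} [NormedAddCommGroup E] [InnerProductSpace ℝ E]
    [CompleteSpace E] [FiniteDimensional ℝ E] [MeasurableSpace E] [BorelSpace E]
    (s : ℝ) (B : Set (SS E)) : Measurable (gm s B) := by
  obtain ⟨-, hc, -⟩ := PhN_props
  have h1 : Continuous (gm s B) := by
    unfold gm
    refine hc.comp ?_
    refine Continuous.div_const ?_ _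
    refine Continuous.mul continuous_const ?_
    refine Continuous.mul continuous_const ?_
    exact continuous_const.inner continuous_subtype_val
  exact h1.measurable

theorem profile_V_gm_bd {E : Type*} [NormedAddCommGroup E] [InnerProductSpace ℝ E]
    [CompleteSpace E] [FiniteDimensional ℝ E] [MeasurableSpace E] [BorelSpace E]
    (s : ℝ) (B : Set (SS E)) (x : SS E) : |gm s B x| ≤ 1 := by
  obtain ⟨-, -, hb, -⟩ := PhN_props
  unfold gm
  have h := hb (Real.sqrt (2 * Real.pi) * s *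
    (Module.finrank ℝ E * ⟪bar B, (x : E)⟫) / Real.sqrt (1 - s ^ 2))
  rw [abs_of_pos h.1]
  exact h.2.le

theorem profile_V_intble {E : Type*} [NormedAddCommGroup E] [InnerProductSpace ℝ E]
    [CompleteSpace E] [FiniteDimensional ℝ E] [MeasurableSpace E] [BorelSpace E]
    (hn : 1 ≤ Module.finrank ℝ E) {f : SS E → ℝ} (hf : BM f) : Integrable f (sm E) := by
  have := sm_prob (E := E) hn
  obtain ⟨hm1, C, hC⟩ := hf
  refine Integrable.of_bound hm1.aestronglyMeasurable C (Filter.Eventually.of_forall fun x => ?_)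
  rw [Real.norm_eq_abs]
  exact hC x

theorem profile_V_sub_BM {E : Type*} [NormedAddCommGroup E] [InnerProductSpace ℝ E]
    [CompleteSpace E] [FiniteDimensional ℝ E] [MeasurableSpace E] [BorelSpace E]
    {f h : SS E → ℝ} (hf : BM f) (hh : BM h) : BM (fun x => |f x - h x|) := by
  obtain ⟨hm1, C, hC⟩ := hf
  obtain ⟨hm2, D, hD⟩ := hh
  refine ⟨(hm1.sub hm2).abs, C + D, fun x => ?_⟩
  rw [abs_abs]
  exact (abs_sub _ _).trans (add_le_add (hC x) (hD x))

theorem profile_V_base (t : ℕ) (ht : 3 ≤ t) {s : ℝ} (hs0 : 0 < s) (hs : s ≤ 1 / 2) {ε : ℝ}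
    (hε : 0 < ε) : profile_V_Q t s (20 * s ^ 2 + ε) := by
  obtain ⟨p0, hp0, n1, H⟩ := mu_up t (by omega) (η := ε / 4) (by positivity)
  obtain ⟨n2, hn2⟩ := exists_nat_gt (4 / ε)
  refine ⟨p0, hp0, ε / 4, by positivity, max n1 (max n2 5), ?_⟩
  intro E _ _ _ _ _ _ hn σ hσ B hB h1 h2
  have hn1 : n1 ≤ Module.finrank ℝ E := (le_max_left _ _).trans hn
  have hn2' : n2 ≤ Module.finrank ℝ E := ((le_max_left _ _).trans (le_max_right _ _)).trans hn
  have hn5 : 5 ≤ Module.finrank ℝ E := ((le_max_right _ _).trans (le_max_right _ _)).trans hn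
  have h3 := H E hn1 σ hσ B hB h1
  have h4 := base_V (E := E) rfl hn5 hs0 hs hB
  have h5 : |(sm E).real B - 1 / 2| ≤ ε / 4 := abs_le.2 ⟨by linarith, by linarith⟩
  have h6 : (4 / ε : ℝ) < (Module.finrank ℝ E : ℝ) := hn2.trans_le (by exact_mod_cast hn2')
  have h7 : (0 : ℝ) < (Module.finrank ℝ E : ℝ) := lt_trans (by positivity) h6
  have h8 : 2 / (Module.finrank ℝ E : ℝ) ≤ ε / 2 := by
    rw [div_le_iff₀ h7]
    rw [div_lt_iff₀ hε] at h6
    nlinarith
  linarith

theorem profile_V_step (t : ℕ) (ht : 3 ≤ t) {s : ℝ} (hs0 : 0 < s)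
    (hs : 8 * s ^ 2 < t / (t - 1 : ℝ)) (hs4 : 4 * s ^ 2 < 1) {e ε : ℝ} (hε : 0 < ε)
    (h : profile_V_Q t s e) :
    profile_V_Q t (2 * s) ((2 * Real.sqrt (1 - s ^ 2) / Real.sqrt (1 - 4 * s ^ 2)) * e + ε) := by
  obtain ⟨p0, hp0, η, hη, n0, H⟩ := h
  obtain ⟨p1, hp1, η1, hη1, n1, H1⟩ := doubling t ht hs0 hs hs4 hε
  refine ⟨min p0 p1, lt_min hp0 hp1, min η η1, lt_min hη hη1, max n0 (max n1 3), ?_⟩
  intro E _ _ _ _ _ _ hn σ hσ B hB h1 h2
  have hn0 : n0 ≤ Module.finrank ℝ E := (le_max_left _ _).trans hn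
  have hn1 : n1 ≤ Module.finrank ℝ E := ((le_max_left _ _).trans (le_max_right _ _)).trans hn
  have hn3 : 3 ≤ Module.finrank ℝ E := ((le_max_right _ _).trans (le_max_right _ _)).trans hn
  have g0 := H E hn0 σ hσ B hB (h1.trans (min_le_left _ _))
    (by have := min_le_left η η1; linarith)
  have g1 := H1 E hn1 σ hσ B hB (h1.trans (min_le_right _ _))
    (by have := min_le_right η η1; linarith)
  set κ : ℝ := 2 * Real.sqrt (1 - s ^ 2) / Real.sqrt (1 - 4 * s ^ 2) with hκ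
  have hpos4 : 0 < Real.sqrt (1 - 4 * s ^ 2) := Real.sqrt_pos.2 (by linarith)
  have hκ1 : 1 ≤ κ := by
    rw [hκ, le_div_iff₀ hpos4, one_mul]
    have : Real.sqrt (1 - 4 * s ^ 2) ≤ Real.sqrt (1 - s ^ 2) :=
      Real.sqrt_le_sqrt (by nlinarith [sq_nonneg s])
    have h0 := Real.sqrt_nonneg (1 - s ^ 2)
    linarith
  obtain ⟨-, hLip, -, hD01, -, hDc⟩ := Dm_props hκ1
  have hIB : BM (ind B) := profile_V_ind_BM hB
  have hP : ∀ r : ℝ, BM (PP r (ind B)) := fun r => (PP_basic hn3 r hIB hIB).1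
  have hG : ∀ r : ℝ, BM (gm r B) := fun r => ⟨profile_V_gm_meas r B, 1, profile_V_gm_bd r B⟩
  have hDP : BM (fun x => Dm κ (PP s (ind B) x)) := by
    refine ⟨hDc.measurable.comp (hP s).1, 1, fun x => ?_⟩
    have := hD01 (PP s (ind B) x)
    rw [abs_of_nonneg this.1]
    exact this.2
  have hn1' : 1 ≤ Module.finrank ℝ E := by omega
  have i0 := profile_V_intble hn1' (profile_V_sub_BM (hP s) (hG s))
  have i1 := profile_V_intble hn1' (profile_V_sub_BM (hP (2 * s)) hDP)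
  have i2 := profile_V_intble hn1' (profile_V_sub_BM (hP (2 * s)) (hG (2 * s)))
  calc ∫ x, |PP (2 * s) (ind B) x - gm (2 * s) B x| ∂(sm E)
      ≤ ∫ x, (κ * |PP s (ind B) x - gm s B x| +
          |PP (2 * s) (ind B) x - Dm κ (PP s (ind B) x)|) ∂(sm E) := by
        refine integral_mono i2 ((i0.const_mul κ).add i1) ?_
        intro x
        show |PP (2 * s) (ind B) x - gm (2 * s) B x| ≤ κ * |PP s (ind B) x - gm s B x| +
          |PP (2 * s) (ind B) x - Dm κ (PP s (ind B) x)|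
        have e1 := gm_double hs0 hs4 B x
        rw [← hκ] at e1
        rw [← e1]
        have e2 := hLip (PP s (ind B) x) (gm s B x)
        have e3 := abs_sub_le (PP (2 * s) (ind B) x) (Dm κ (PP s (ind B) x)) (Dm κ (gm s B x))
        linarith
    _ = κ * ∫ x, |PP s (ind B) x - gm s B x| ∂(sm E) +
          ∫ x, |PP (2 * s) (ind B) x - Dm κ (PP s (ind B) x)| ∂(sm E) := by
        rw [integral_add (i0.const_mul κ) i1, integral_const_mul]
    _ ≤ κ * e + ε := by
        have := mul_le_mul_of_nonneg_left g0 (by linarith : (0 : ℝ) ≤ κ)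
        linarith

theorem profile_V_iter (t : ℕ) (ht : 3 ≤ t) {s : ℝ} (hs0 : 0 < s) (j : ℕ) :
    ∀ ε : ℝ, 0 < ε → (2 ^ j * s) ≤ 1 / 2 →
    profile_V_Q t (2 ^ j * s)
      (2 ^ j * Real.sqrt (1 - s ^ 2) / Real.sqrt (1 - (2 ^ j * s) ^ 2) * (20 * s ^ 2) + ε) := by
  induction j with
  | zero =>
    intro ε hε hs
    rw [pow_zero, one_mul] at hs ⊢
    have h := profile_V_base t ht hs0 hs hε
    have h1 : 0 < Real.sqrt (1 - s ^ 2) := Real.sqrt_pos.2 (by nlinarith)
    rw [one_mul, div_self h1.ne', one_mul]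
    exact h
  | succ j ih =>
    intro ε hε hs
    have e0 : (2 : ℝ) ^ (j + 1) * s = 2 * (2 ^ j * s) := by ring
    rw [e0] at hs ⊢
    set r : ℝ := 2 ^ j * s with hr
    have hr0 : 0 < r := by positivity
    have hr4 : r ≤ 1 / 4 := by linarith
    have hs4 : 4 * r ^ 2 < 1 := by nlinarith
    have ht' : (3 : ℝ) ≤ t := by exact_mod_cast ht
    have hs8 : 8 * r ^ 2 < t / (t - 1 : ℝ) := by
      rw [lt_div_iff₀ (by linarith)]
      have : 8 * r ^ 2 ≤ 1 / 2 := by nlinarith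
      nlinarith
    set κ : ℝ := 2 * Real.sqrt (1 - r ^ 2) / Real.sqrt (1 - 4 * r ^ 2) with hκ
    have hpos4 : 0 < Real.sqrt (1 - 4 * r ^ 2) := Real.sqrt_pos.2 (by linarith)
    have hpos1 : 0 < Real.sqrt (1 - r ^ 2) := Real.sqrt_pos.2 (by nlinarith)
    have hκ0 : 0 < κ := by positivity
    have h1 := profile_V_step t ht hr0 hs8 hs4 (half_pos hε)
      (ih (ε / 2 / κ) (by positivity) (by linarith))
    refine profile_V_Q_mono h1 (le_of_eq ?_)
    rw [← hκ]
    have e1 : κ * (ε / 2 / κ) = ε / 2 := by field_simp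
    have e2 : Real.sqrt (1 - (2 * r) ^ 2) = Real.sqrt (1 - 4 * r ^ 2) := by
      congr 1; ring
    rw [mul_add, e1, e2]
    have e3 : κ * (2 ^ j * Real.sqrt (1 - s ^ 2) / Real.sqrt (1 - r ^ 2) * (20 * s ^ 2)) =
        2 ^ (j + 1) * Real.sqrt (1 - s ^ 2) / Real.sqrt (1 - 4 * r ^ 2) * (20 * s ^ 2) := by
      rw [hκ]
      have hne := hpos1.ne'
      field_simp
      ring
    rw [e3]
    ring

theorem profile_V_pos (t : ℕ) (ht : 3 ≤ t) {ε : ℝ} (hε : 0 < ε) :
    profile_V_Q t (1 / (t - 1 : ℝ)) ε := by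
  have ht' : (3 : ℝ) ≤ t := by exact_mod_cast ht
  set R : ℝ := 1 / (t - 1 : ℝ) with hR
  have hR0 : 0 < R := by rw [hR]; exact div_pos one_pos (by linarith)
  have hR2 : R ≤ 1 / 2 := by
    rw [hR, div_le_div_iff₀ (by linarith) (by norm_num)]
    linarith
  obtain ⟨k, hk⟩ := exists_nat_gt (20 / ε)
  have hk2 : (k : ℝ) < 2 ^ k := by exact_mod_cast Nat.lt_two_pow_self
  have h2k : (0 : ℝ) < 2 ^ k := by positivity
  have hs0 : 0 < R / 2 ^ k := by positivity
  have e0 : (2 : ℝ) ^ k * (R / 2 ^ k) = R := by field_simp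
  have h := profile_V_iter t ht hs0 k (ε / 2) (half_pos hε) (by rw [e0]; exact hR2)
  rw [e0] at h
  refine profile_V_Q_mono h ?_
  have h1 : Real.sqrt (1 - (R / 2 ^ k) ^ 2) ≤ 1 := by
    have := sq_nonneg (R / 2 ^ k)
    exact Real.sqrt_le_iff.2 ⟨zero_le_one, by rw [one_pow]; linarith⟩
  have h2 : 1 / 2 ≤ Real.sqrt (1 - R ^ 2) := by
    apply Real.le_sqrt_of_sq_le
    nlinarith
  have h3 : (2 : ℝ) ^ k * Real.sqrt (1 - (R / 2 ^ k) ^ 2) / Real.sqrt (1 - R ^ 2) ≤
      2 * 2 ^ k := by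
    rw [div_le_iff₀ (by linarith)]
    nlinarith [mul_le_mul_of_nonneg_left h1 h2k.le, mul_le_mul_of_nonneg_left h2 h2k.le]
  have h4 : (R / 2 ^ k) ^ 2 = R ^ 2 / (2 ^ k * 2 ^ k) := by
    rw [div_pow]; ring
  have h5 : (2 : ℝ) ^ k * Real.sqrt (1 - (R / 2 ^ k) ^ 2) / Real.sqrt (1 - R ^ 2) *
      (20 * (R / 2 ^ k) ^ 2) ≤ 2 * 2 ^ k * (20 * (R / 2 ^ k) ^ 2) :=
    mul_le_mul_of_nonneg_right h3 (by positivity)
  have h6 : 2 * 2 ^ k * (20 * (R / 2 ^ k) ^ 2) = 40 * R ^ 2 / 2 ^ k := by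
    rw [h4]; field_simp; ring
  have h7 : 40 * R ^ 2 / 2 ^ k ≤ ε / 2 := by
    rw [div_le_iff₀ h2k]
    have h8 : 20 / ε < 2 ^ k := hk.trans hk2
    rw [div_lt_iff₀ hε] at h8
    nlinarith
  linarith

theorem profile_V (t : ℕ) (ht : 3 ≤ t) {ε : ℝ} (hε : 0 < ε) :
    ∃ p0 : ℝ, 0 < p0 ∧ ∃ η : ℝ, 0 < η ∧ ∃ n0 : ℕ, ∀ (E : Type) [NormedAddCommGroup E]
    [InnerProductSpace ℝ E] [CompleteSpace E] [FiniteDimensional ℝ E] [MeasurableSpace E]
    [BorelSpace E], n0 ≤ Module.finrank ℝ E → ∀ σ : Fin t → SS E, IsSimp σ →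
    ∀ B : Set (SS E), MeasurableSet B → (hm E).real {g | ∀ i, sa g (σ i) ∈ B} ≤ p0 →
    1 / 2 - η ≤ (sm E).real B →
    (∫ x, |PP (1 / (t - 1 : ℝ)) (ind B) x - gm (1 / (t - 1 : ℝ)) B x| ∂(sm E) ≤ ε) ∧
    (∫ x, |PP (-1 / (t - 1 : ℝ)) (ind B) x - gm (-1 / (t - 1 : ℝ)) B x| ∂(sm E) ≤ ε) := by
  have ht' : (3 : ℝ) ≤ t := by exact_mod_cast ht
  obtain ⟨p0, hp0, η, hη, n0, H⟩ := profile_V_pos t ht (half_pos hε)
  have hR0 : 0 < 1 / (t - 1 : ℝ) := div_pos one_pos (by linarith)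
  have hR2 : 1 / (t - 1 : ℝ) ≤ 1 / 2 := by
    rw [div_le_div_iff₀ (by linarith) (by norm_num)]
    linarith
  have hodd : 2 * (1 / (t - 1 : ℝ)) ^ 2 < t / (t - 1 : ℝ) := by
    rw [lt_div_iff₀ (by linarith)]
    have : 2 * (1 / (t - 1 : ℝ)) ^ 2 ≤ 1 / 2 := by nlinarith
    nlinarith
  obtain ⟨p1, hp1, η1, hη1, n1, H1⟩ := odd_V t ht hR0 hodd (half_pos hε)
  refine ⟨min p0 p1, lt_min hp0 hp1, min η η1, lt_min hη hη1, max n0 (max n1 3), ?_⟩
  intro E _ _ _ _ _ _ hn σ hσ B hB h1 h2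
  have hn0 : n0 ≤ Module.finrank ℝ E := (le_max_left _ _).trans hn
  have hn1 : n1 ≤ Module.finrank ℝ E := ((le_max_left _ _).trans (le_max_right _ _)).trans hn
  have hn3 : 3 ≤ Module.finrank ℝ E := ((le_max_right _ _).trans (le_max_right _ _)).trans hn
  have g0 := H E hn0 σ hσ B hB (h1.trans (min_le_left _ _))
    (by have := min_le_left η η1; linarith)
  have g1 := H1 E hn1 σ hσ B hB (h1.trans (min_le_right _ _))
    (by have := min_le_right η η1; linarith)
  refine ⟨g0.trans (by linarith), ?_⟩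
  have hneg : (-1 / (t - 1 : ℝ)) = -(1 / (t - 1 : ℝ)) := by ring
  rw [hneg]
  set R : ℝ := 1 / (t - 1 : ℝ) with hR
  have hIB : BM (ind B) := profile_V_ind_BM hB
  have hP : ∀ r : ℝ, BM (PP r (ind B)) := fun r => (PP_basic hn3 r hIB hIB).1
  have hG : ∀ r : ℝ, BM (gm r B) := fun r => ⟨profile_V_gm_meas r B, 1, profile_V_gm_bd r B⟩
  have hn1' : 1 ≤ Module.finrank ℝ E := by omega
  have hS : BM (fun x => |PP R (ind B) x + PP (-R) (ind B) x - 1|) := by
    obtain ⟨m1, C1, hC1⟩ := hP R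
    obtain ⟨m2, C2, hC2⟩ := hP (-R)
    refine ⟨((m1.add m2).sub measurable_const).abs, C1 + C2 + 1, fun x => ?_⟩
    rw [abs_abs]
    have a1 := abs_le.1 (hC1 x)
    have a2 := abs_le.1 (hC2 x)
    exact abs_le.2 ⟨by linarith [a1.1, a2.1], by linarith [a1.2, a2.2]⟩
  have i0 := profile_V_intble hn1' (profile_V_sub_BM (hP R) (hG R))
  have i1 := profile_V_intble hn1' hS
  have i2 := profile_V_intble hn1' (profile_V_sub_BM (hP (-R)) (hG (-R)))
  have hgm : ∀ x, gm (-R) B x = 1 - gm R B x := by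
    intro x
    obtain ⟨-, -, -, hN, -⟩ := PhN_props
    unfold gm
    rw [← hN]
    congr 1
    rw [neg_sq]
    ring
  calc ∫ x, |PP (-R) (ind B) x - gm (-R) B x| ∂(sm E)
      ≤ ∫ x, (|PP R (ind B) x + PP (-R) (ind B) x - 1| +
          |PP R (ind B) x - gm R B x|) ∂(sm E) := by
        refine integral_mono i2 (i1.add i0) ?_
        intro x
        show |PP (-R) (ind B) x - gm (-R) B x| ≤ |PP R (ind B) x + PP (-R) (ind B) x - 1| +
          |PP R (ind B) x - gm R B x|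
        rw [hgm x]
        have e1 := abs_sub (PP R (ind B) x + PP (-R) (ind B) x - 1) (PP R (ind B) x - gm R B x)
        have e2 : PP (-R) (ind B) x - (1 - gm R B x) =
          (PP R (ind B) x + PP (-R) (ind B) x - 1) - (PP R (ind B) x - gm R B x) := by ring
        rw [e2]
        exact e1
    _ = ∫ x, |PP R (ind B) x + PP (-R) (ind B) x - 1| ∂(sm E) +
          ∫ x, |PP R (ind B) x - gm R B x| ∂(sm E) := integral_add i1 i0
    _ ≤ ε := by linarith

-- star_V
theorem star_V_coer {V : Type*} [NormedAddCommGroup V] [InnerProductSpace ℝ V] {m : ℕ}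
    (hm2 : 2 ≤ m) (z : Fin m → V) (hz1 : ∀ i, ‖z i‖ = 1)
    (hz2 : ∀ i j, i ≠ j → ⟪z i, z j⟫ = -1 / ((m : ℝ) - 1)) (a : Fin m → ℝ) :
    1 * ∑ i, (a i - (∑ l, a l) / m) ^ 2 ≤ ‖∑ i, ((1 : ℝ) * a i) • z i‖ ^ 2 := by
  have hm1 : (0 : ℝ) < (m : ℝ) - 1 := by
    have : (2 : ℝ) ≤ m := by exact_mod_cast hm2
    linarith
  have hm0 : (0 : ℝ) < m := by linarith
  have hz : ∀ i j, ⟪z i, z j⟫ = -1 / ((m : ℝ) - 1) + (if i = j then (m / ((m : ℝ) - 1)) else 0) := by
    intro i j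
    by_cases h : i = j
    · subst h
      rw [real_inner_self_eq_norm_sq, hz1, if_pos rfl]
      field_simp
      ring
    · rw [hz2 i j h, if_neg h, add_zero]
  have key : ‖∑ i, ((1 : ℝ) * a i) • z i‖ ^ 2
      = -1 / ((m : ℝ) - 1) * (∑ l, a l) ^ 2 + (m / ((m : ℝ) - 1)) * ∑ i, a i ^ 2 := by
    rw [← real_inner_self_eq_norm_sq, sum_inner]
    simp only [inner_sum, real_inner_smul_left, real_inner_smul_right, one_mul, hz]
    simp only [mul_add, mul_ite, mul_zero, Finset.sum_add_distrib, Finset.sum_ite_eq,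
      Finset.mem_univ, if_true]
    congr 1
    · rw [sq, Finset.sum_mul_sum, Finset.mul_sum]
      refine Finset.sum_congr rfl fun i _ => ?_
      rw [Finset.mul_sum]
      refine Finset.sum_congr rfl fun j _ => ?_
      ring
    · rw [Finset.mul_sum]
      refine Finset.sum_congr rfl fun i _ => ?_
      ring
  have key2 : ∑ i, (a i - (∑ l, a l) / m) ^ 2 = ∑ i, a i ^ 2 - (∑ l, a l) ^ 2 / m := by
    have : ∀ i, (a i - (∑ l, a l) / m) ^ 2
        = a i ^ 2 - 2 * ((∑ l, a l) / m) * a i + ((∑ l, a l) / m) ^ 2 := fun i => by ring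
    simp only [this]
    rw [Finset.sum_add_distrib, Finset.sum_sub_distrib, ← Finset.mul_sum, Finset.sum_const,
      Finset.card_univ, Fintype.card_fin, nsmul_eq_mul]
    field_simp
    ring
  have key3 : ‖∑ i, ((1 : ℝ) * a i) • z i‖ ^ 2
      = (m / ((m : ℝ) - 1)) * ∑ i, (a i - (∑ l, a l) / m) ^ 2 := by
    rw [key, key2]
    field_simp
    ring
  rw [key3]
  refine mul_le_mul_of_nonneg_right ?_ (Finset.sum_nonneg fun i _ => sq_nonneg _)
  rw [le_div_iff₀ hm1]
  linarith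

theorem star_V_ptc {E : Type*} [NormedAddCommGroup E] [InnerProductSpace ℝ E] [CompleteSpace E]
    [FiniteDimensional ℝ E] [MeasurableSpace E] [BorelSpace E] (e : SS E) (ρ : ℝ) :
    Continuous (fun w : SS (Pe e) => pt e ρ w) := by
  have h := pt_cont e
  have h2 : Continuous (fun w : SS (Pe e) => ((ρ, w) : ℝ × SS (Pe e))) := by fun_prop
  have h3 := h.comp h2
  exact h3

theorem star_V_Dm {E : Type*} [NormedAddCommGroup E] [InnerProductSpace ℝ E] [CompleteSpace E]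
    [FiniteDimensional ℝ E] [MeasurableSpace E] [BorelSpace E] (e : SS E) (ρ : ℝ) (g : UG E)
    {B : Set (SS E)} (hB : MeasurableSet B) :
    MeasurableSet {w : SS (Pe e) | sa g (pt e ρ w) ∈ B} := by
  have hc := (sa_continuous_right g).comp (star_V_ptc e ρ)
  exact hc.measurable hB

theorem star_V_succ (m : ℕ) (hm2 : 2 ≤ m) {ε : ℝ} (hε : 0 < ε) :
    ∃ p0 : ℝ, 0 < p0 ∧ ∃ n0 : ℕ, ∀ (E : Type) [NormedAddCommGroup E]
    [InnerProductSpace ℝ E] [CompleteSpace E] [FiniteDimensional ℝ E] [MeasurableSpace E]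
    [BorelSpace E], n0 ≤ Module.finrank ℝ E → ∀ s : Fin (m + 1) → SS E,
    (∀ i l, i ≠ l → ⟪(s i : E), (s l : E)⟫ = -1 / (m : ℝ)) →
    ∀ B : Set (SS E), MeasurableSet B → (hm E).real {g | ∀ i, sa g (s i) ∈ B} ≤ p0 →
    (sm E).real {x | x ∈ B ∧ 1 / 2 + ε ≤ PP (-1 / (m : ℝ)) (ind B) x} ≤ ε := by
  obtain ⟨-, -, -, -, hP0, -, hPl, -, -⟩ := PhN_props
  obtain ⟨p1, hp1, n1, H⟩ := mfd m (by omega) (fun _ => 1) (fun _ => ⟨one_pos, le_rfl⟩)
    (κ0 := 1) one_pos (fun _ => ε) (by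
      have : (0 : ℝ) < m := by exact_mod_cast (by omega : 0 < m)
      simp only [one_mul, Finset.sum_const, Finset.card_univ, Fintype.card_fin, nsmul_eq_mul]
      positivity)
  have hPe : PhN ε ≤ 1 / 2 + ε := by
    have h1 := hPl ε 0
    rw [hP0, sub_zero, abs_of_pos hε] at h1
    have h2 := le_abs_self (PhN ε - 1 / 2)
    linarith
  refine ⟨p1 * ε, mul_pos hp1 hε, n1 + m + 5, ?_⟩
  intro E _ _ _ _ _ _ hn s hs B hB hle
  have hm0 : (0 : ℝ) < m := by exact_mod_cast (by omega : 0 < m)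
  have hm2' : (2 : ℝ) ≤ m := by exact_mod_cast hm2
  obtain ⟨n, hn'⟩ : ∃ n, Module.finrank ℝ E = n + 1 := ⟨Module.finrank ℝ E - 1, by omega⟩
  set e := s 0 with he
  set ρ : ℝ := -1 / (m : ℝ) with hρ
  have hρ1 : -1 ≤ ρ := by
    rw [hρ, le_div_iff₀ hm0]; linarith
  have hρ2 : ρ ≤ 1 := by
    rw [hρ, div_le_iff₀ hm0]; linarith
  have hnP : Module.finrank ℝ (Pe e) = n := finrank_Pe hn' e
  have hzex : ∀ i : Fin m, ∃ w : SS (Pe e), s i.succ = pt e ρ w := by
    intro i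
    obtain ⟨w, hw⟩ := pt_surj (by omega) e (s i.succ)
    have : ⟪(e : E), (s i.succ : E)⟫ = ρ := hs 0 i.succ (Fin.succ_ne_zero i).symm
    rw [this] at hw
    exact ⟨w, hw⟩
  choose z hz using hzex
  have hsq : Real.sqrt (1 - ρ ^ 2) * Real.sqrt (1 - ρ ^ 2) = 1 - ρ ^ 2 :=
    Real.mul_self_sqrt (by nlinarith)
  have hzz : ∀ i j, i ≠ j → ⟪(z i : Pe e), (z j : Pe e)⟫ = -1 / ((m : ℝ) - 1) := by
    intro i j hij
    have h1 := (pt_inner hρ1 hρ2 hρ1 hρ2 e (z i) (z j)).2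
    rw [← hz i, ← hz j, hs _ _ (fun h => hij (Fin.succ_injective _ h)), hsq] at h1
    have h2 : (1 - ρ ^ 2) * ⟪(z i : Pe e), (z j : Pe e)⟫ = ρ - ρ ^ 2 := by
      rw [hρ] at *
      linarith
    have h3 : 0 < 1 - ρ ^ 2 := by
      have h4 : ρ ^ 2 = 1 / m ^ 2 := by rw [hρ]; ring
      rw [h4]
      have : 1 / (m : ℝ) ^ 2 < 1 := by
        rw [div_lt_one (by positivity)]
        nlinarith
      linarith
    have h5 : ⟪(z i : Pe e), (z j : Pe e)⟫ = (ρ - ρ ^ 2) / (1 - ρ ^ 2) := by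
      rw [eq_div_iff h3.ne']; linarith
    rw [h5, div_eq_div_iff h3.ne' (by linarith), hρ]
    field_simp
    ring
  have hco := fun a : Fin m → ℝ => star_V_coer hm2 (fun i => (z i : Pe e))
    (fun i => norm_eq_of_mem_sphere (z i)) hzz a
  have hind : BM (ind B) := by
    refine ⟨measurable_const.indicator hB, 1, fun x => ?_⟩
    unfold ind
    by_cases hx : x ∈ B
    · rw [Set.indicator_of_mem hx]; simp
    · rw [Set.indicator_of_notMem hx]; simp
  have hGm : MeasurableSet {x | x ∈ B ∧ 1 / 2 + ε ≤ PP ρ (ind B) x} :=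
    hB.inter (measurableSet_le measurable_const ((PP_basic (by omega) ρ hind hind).1).1)
  -- the main integral
  set S : Set (UG E) := {g | ∀ i, sa g (s i) ∈ B} with hS
  have hSm : MeasurableSet S := by
    have : S = ⋂ i, (fun g => sa g (s i)) ⁻¹' B := by
      ext g; simp [hS]
    rw [this]
    exact MeasurableSet.iInter fun i => (sa_continuous_left (s i)).measurable hB
  have hΦm : Measurable (S.indicator (fun _ => (1 : ℝ))) := measurable_const.indicator hSm
  have h1 : (hm E).real S = ∫ g, S.indicator (fun _ => (1 : ℝ)) g ∂(hm E) := by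
    rw [integral_indicator_const _ hSm]; simp
  rw [h1, cond_right e hΦm ⟨1, fun g => by
    by_cases hx : g ∈ S
    · rw [Set.indicator_of_mem hx]; simp
    · rw [Set.indicator_of_notMem hx]; simp⟩] at hle
  have hDm : ∀ g : UG E, MeasurableSet {w : SS (Pe e) | sa g (pt e ρ w) ∈ B} :=
    fun g => star_V_Dm e ρ g hB
  have hDr : ∀ g : UG E, (sm (Pe e)).real {w : SS (Pe e) | sa g (pt e ρ w) ∈ B}
      = PP ρ (ind B) (sa g e) := by
    intro g
    rw [PP_rot (by omega) ρ hind.1 g e]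
    have h2 : PP ρ (fun y => ind B (sa g y)) e
        = ∫ w, ({w : SS (Pe e) | sa g (pt e ρ w) ∈ B}).indicator (fun _ => (1 : ℝ)) w
            ∂(sm (Pe e)) := by
      unfold PP
      refine integral_congr_ae (Eventually.of_forall fun w => ?_)
      rfl
    rw [h2, integral_indicator_const _ (hDm g)]
    simp
  -- value of the integrand
  have hin : ∀ g : UG E, ∫ k, S.indicator (fun _ => (1 : ℝ)) (g * ex e k) ∂(hm (Pe e))
      = ind B (sa g e) * (hm (Pe e)).real {k | ∀ i, sa k (z i) ∈ {w : SS (Pe e) | sa g (pt e ρ w) ∈ B}} := by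
    intro g
    set T : Set (UG (Pe e)) := {k | ∀ i, sa k (z i) ∈ {w : SS (Pe e) | sa g (pt e ρ w) ∈ B}} with hT
    have hTm : MeasurableSet T := by
      have : T = ⋂ i, (fun k => sa k (z i)) ⁻¹' {w : SS (Pe e) | sa g (pt e ρ w) ∈ B} := by
        ext k; simp [hT]
      rw [this]
      exact MeasurableSet.iInter fun i => (sa_continuous_left (z i)).measurable (hDm g)
    have hmem : ∀ k : UG (Pe e), (g * ex e k ∈ S) ↔ (sa g e ∈ B ∧ k ∈ T) := by
      intro k
      have h0 : sa (g * ex e k) e = sa g e := by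
        rw [sa_mul]
        congr 1
        exact Subtype.ext (ex_props e k).1
      have h1 : ∀ i : Fin m, sa (g * ex e k) (s i.succ) = sa g (pt e ρ (sa k (z i))) := by
        intro i
        rw [hz i, sa_mul, ex_pt]
      constructor
      · intro h
        refine ⟨?_, fun i => ?_⟩
        · have := h 0
          rwa [← he, h0] at this
        · have := h i.succ
          rwa [h1] at this
      · rintro ⟨ha, hb⟩ i
        refine Fin.cases ?_ (fun i => ?_) i
        · show sa (g * ex e k) (s 0) ∈ B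
          rw [← he, h0]; exact ha
        · show sa (g * ex e k) (s i.succ) ∈ B
          rw [h1]; exact hb i
    have h3 : (fun k => S.indicator (fun _ => (1 : ℝ)) (g * ex e k))
        = fun k => ind B (sa g e) * T.indicator (fun _ => (1 : ℝ)) k := by
      funext k
      unfold ind
      by_cases ha : sa g e ∈ B
      · by_cases hb : k ∈ T
        · rw [Set.indicator_of_mem ((hmem k).2 ⟨ha, hb⟩), Set.indicator_of_mem ha,
            Set.indicator_of_mem hb, one_mul]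
        · rw [Set.indicator_of_notMem (fun h => hb ((hmem k).1 h).2), Set.indicator_of_notMem hb,
            mul_zero]
      · rw [Set.indicator_of_notMem (fun h => ha ((hmem k).1 h).1), Set.indicator_of_notMem ha,
            zero_mul]
    rw [h3, integral_const_mul, integral_indicator_const _ hTm]
    simp
  simp only [hin] at hle
  -- lower bound
  have hlow : ∫ g, p1 * ({x | x ∈ B ∧ 1 / 2 + ε ≤ PP ρ (ind B) x} : Set (SS E)).indicator
      (fun _ => (1 : ℝ)) (sa g e) ∂(hm E)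
      ≤ ∫ g, ind B (sa g e) * (hm (Pe e)).real
        {k | ∀ i, sa k (z i) ∈ {w : SS (Pe e) | sa g (pt e ρ w) ∈ B}} ∂(hm E) := by
    have hfm : Measurable (fun p : UG E × UG (Pe e) =>
        S.indicator (fun _ => (1 : ℝ)) (p.1 * ex e p.2)) :=
      hΦm.comp (measurable_fst.mul ((ex_cont e).measurable.comp measurable_snd))
    have hgm := (hfm.stronglyMeasurable.integral_prod_right' (ν := hm (Pe e))).measurable
    simp only [hin] at hgm
    refine integral_mono_of_nonneg (Eventually.of_forall fun g => ?_) ?_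
      (Eventually.of_forall fun g => ?_)
    · show 0 ≤ p1 * _
      exact mul_nonneg hp1.le (Set.indicator_nonneg (fun _ _ => zero_le_one) _)
    · refine Integrable.of_bound hgm.aestronglyMeasurable 1 (Eventually.of_forall fun g => ?_)
      have h4 : 0 ≤ ind B (sa g e) ∧ ind B (sa g e) ≤ 1 := by
        unfold ind
        by_cases hx : sa g e ∈ B
        · rw [Set.indicator_of_mem hx]; simp
        · rw [Set.indicator_of_notMem hx]; simp
      have h5 : (hm (Pe e)).real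
        {k | ∀ i, sa k (z i) ∈ {w : SS (Pe e) | sa g (pt e ρ w) ∈ B}} ≤ 1 := measureReal_le_one
      rw [Real.norm_eq_abs, abs_of_nonneg (mul_nonneg h4.1 measureReal_nonneg)]
      exact mul_le_one₀ h4.2 measureReal_nonneg h5
    · beta_reduce
      by_cases hx : sa g e ∈ {x | x ∈ B ∧ 1 / 2 + ε ≤ PP ρ (ind B) x}
      · rw [Set.indicator_of_mem hx, mul_one]
        have hxB : sa g e ∈ B := hx.1
        have h6 : ind B (sa g e) = 1 := Set.indicator_of_mem hxB _
        rw [h6, one_mul]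
        refine H (Pe e) (by omega) z hco _ (fun _ => hDm g) (fun _ => ?_)
        rw [hDr g]
        exact hPe.trans hx.2
      · rw [Set.indicator_of_notMem hx, mul_zero]
        exact mul_nonneg (Set.indicator_nonneg (fun _ _ => zero_le_one) _) measureReal_nonneg
  rw [integral_const_mul, ← sm_int (by omega) e (measurable_const.indicator hGm),
    integral_indicator_const _ hGm] at hlow
  simp only [smul_eq_mul, mul_one] at hlow
  have h9 := hlow.trans hle
  exact le_of_mul_le_mul_left h9 hp1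

theorem star_V (t : ℕ) (ht : 3 ≤ t) {ε : ℝ} (hε : 0 < ε) :
    ∃ p0 : ℝ, 0 < p0 ∧ ∃ n0 : ℕ, ∀ (E : Type) [NormedAddCommGroup E]
    [InnerProductSpace ℝ E] [CompleteSpace E] [FiniteDimensional ℝ E] [MeasurableSpace E]
    [BorelSpace E], n0 ≤ Module.finrank ℝ E → ∀ s : Fin t → SS E, IsSimp s →
    ∀ B : Set (SS E), MeasurableSet B → (hm E).real {g | ∀ i, sa g (s i) ∈ B} ≤ p0 →
    (sm E).real {x | x ∈ B ∧ 1 / 2 + ε ≤ PP (-1 / (t - 1 : ℝ)) (ind B) x} ≤ ε := by
  obtain ⟨m, rfl⟩ : ∃ m, t = m + 1 := ⟨t - 1, by omega⟩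
  obtain ⟨p0, hp0, n0, H⟩ := star_V_succ m (by omega) hε
  refine ⟨p0, hp0, n0, ?_⟩
  intro E _ _ _ _ _ _ hn s hs B hB hle
  have hc : (((m + 1 : ℕ) : ℝ) - 1) = m := by push_cast; ring
  rw [hc]
  refine H E hn s (fun i l hil => ?_) B hB hle
  have := hs i l hil
  rwa [hc] at this

-- case_big
theorem case_big_half {n : ℕ} (h4 : 4 ≤ n) : mm n 0 = 1 / 2 := by
  obtain ⟨-, -, -, -, -, hev, hint, h1, -, -⟩ := om_basic h4
  unfold mm
  rw [integral_Ici_eq_integral_Ioi]
  have e1 : ∫ s in Iic (0 : ℝ), om n s = ∫ s in Ioi (0 : ℝ), om n s := by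
    have h := integral_comp_neg_Iic (0 : ℝ) (om n)
    simp only [neg_zero] at h
    rw [← h]
    exact integral_congr_ae (Eventually.of_forall fun s => (hev s).symm)
  have e2 : (∫ s in Iic (0 : ℝ), om n s) + ∫ s in Ioi (0 : ℝ), om n s = ∫ s, om n s := by
    rw [← setIntegral_union (Iic_disjoint_Ioi le_rfl) measurableSet_Ioi hint.integrableOn
      hint.integrableOn, Iic_union_Ioi, setIntegral_univ]
  linarith

theorem case_big_slab {E : Type} [NormedAddCommGroup E] [InnerProductSpace ℝ E] [CompleteSpace E]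
    [FiniteDimensional ℝ E] [MeasurableSpace E] [BorelSpace E] {n : ℕ}
    (hn : Module.finrank ℝ E = n) (h4 : 4 ≤ n) (v : SS E) {δ : ℝ} (hδ : 0 ≤ δ) :
    (sm E).real {x | -(δ / Real.sqrt n) ≤ ⟪(v : E), (x : E)⟫ ∧ ⟪(v : E), (x : E)⟫ < 0} ≤ δ := by
  haveI := sm_prob (E := E) (by omega)
  obtain ⟨hc, -, h0, -, -, -, hint, h1, -, hle⟩ := om_basic h4
  have hcn := (cn_bounds h4).2
  have hnpos : (0 : ℝ) < Real.sqrt n := Real.sqrt_pos.2 (by exact_mod_cast (by omega : 0 < n))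
  set a : ℝ := δ / Real.sqrt n with ha
  have ha0 : 0 ≤ a := by positivity
  set ψ : ℝ → ℝ := (Ico (-a) 0).indicator (fun _ => (1 : ℝ)) with hψdef
  have hψ : Measurable ψ := measurable_const.indicator measurableSet_Ico
  have hψb : ∃ C : ℝ, ∀ s, |ψ s| ≤ C := by
    refine ⟨1, fun s => ?_⟩
    by_cases hs : s ∈ Ico (-a) 0
    · simp [hψdef, indicator_of_mem hs]
    · simp [hψdef, indicator_of_notMem hs]
  have hh := sm_height hn h4 v hψ hψb
  have hmeas : MeasurableSet {x : SS E | -a ≤ ⟪(v : E), (x : E)⟫ ∧ ⟪(v : E), (x : E)⟫ < 0} := by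
    have hc1 : Continuous (fun x : SS E => ⟪(v : E), (x : E)⟫) :=
      continuous_const.inner continuous_subtype_val
    exact (measurableSet_Ico (a := -a) (b := (0 : ℝ))).preimage hc1.measurable
  have e1 : (sm E).real {x | -a ≤ ⟪(v : E), (x : E)⟫ ∧ ⟪(v : E), (x : E)⟫ < 0}
      = ∫ x, ψ ⟪(v : E), (x : E)⟫ ∂(sm E) := by
    rw [← integral_indicator_one hmeas]
    refine integral_congr_ae (Eventually.of_forall fun x => ?_)
    by_cases hx : -a ≤ ⟪(v : E), (x : E)⟫ ∧ ⟪(v : E), (x : E)⟫ < 0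
    · have h2 : ⟪(v : E), (x : E)⟫ ∈ Ico (-a) 0 := hx
      have h3 : x ∈ {x : SS E | -a ≤ ⟪(v : E), (x : E)⟫ ∧ ⟪(v : E), (x : E)⟫ < 0} := hx
      simp only [hψdef, indicator_of_mem h2, indicator_of_mem h3, Pi.one_apply]
    · have h2 : ⟪(v : E), (x : E)⟫ ∉ Ico (-a) 0 := hx
      have h3 : x ∉ {x : SS E | -a ≤ ⟪(v : E), (x : E)⟫ ∧ ⟪(v : E), (x : E)⟫ < 0} := hx
      simp only [hψdef, indicator_of_notMem h2, indicator_of_notMem h3]
  rw [e1, hh]
  have e2 : ∫ s, om n s * ψ s = ∫ s in Ico (-a) 0, om n s := by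
    rw [← integral_indicator measurableSet_Ico]
    refine integral_congr_ae (Eventually.of_forall fun s => ?_)
    by_cases hs : s ∈ Ico (-a) 0
    · simp only [hψdef, indicator_of_mem hs, mul_one]
    · simp only [hψdef, indicator_of_notMem hs, mul_zero]
  rw [e2]
  have e3 : ∫ s in Ico (-a) 0, om n s ≤ ∫ s in Ico (-a) 0, cn n := by
    refine setIntegral_mono hint.integrableOn ?_ hle
    exact (integrableOn_const (by simp) (by simp))
  refine e3.trans ?_
  rw [setIntegral_const, measureReal_def, Real.volume_Ico, ENNReal.toReal_ofReal (by linarith),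
    smul_eq_mul]
  have e4 : (0 - -a) * cn n ≤ a * Real.sqrt n := by
    rw [zero_sub, neg_neg]
    exact mul_le_mul_of_nonneg_left hcn ha0
  refine e4.trans (le_of_eq ?_)
  rw [ha, div_mul_cancel₀ _ hnpos.ne']

theorem case_big_gm_cont {E : Type} [NormedAddCommGroup E] [InnerProductSpace ℝ E] [CompleteSpace E]
    [FiniteDimensional ℝ E] [MeasurableSpace E] [BorelSpace E] (s : ℝ) (B : Set (SS E)) :
    Continuous (gm s B) := by
  have hc1 : Continuous (fun x : SS E => ⟪bar B, (x : E)⟫) :=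
    continuous_const.inner continuous_subtype_val
  unfold gm
  exact PhN_props.2.1.comp ((continuous_const.mul (continuous_const.mul hc1)).div_const _)


theorem case_big (t : ℕ) (ht : 3 ≤ t) {κ α0 : ℝ} (hκ : 0 < κ) (hα : 0 < α0) :
    ∃ ε0 : ℝ, 0 < ε0 ∧ ∃ η : ℝ, 0 < η ∧ ∃ n0 : ℕ, ∀ (E : Type) [NormedAddCommGroup E]
    [InnerProductSpace ℝ E] [CompleteSpace E] [FiniteDimensional ℝ E] [MeasurableSpace E]
    [BorelSpace E], n0 ≤ Module.finrank ℝ E → ∀ B : Set (SS E), MeasurableSet B →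
    (∫ x, |PP (-1 / (t - 1 : ℝ)) (ind B) x - gm (-1 / (t - 1 : ℝ)) B x| ∂(sm E) ≤ ε0) →
    (sm E).real {x | x ∈ B ∧ 1 / 2 + ε0 ≤ PP (-1 / (t - 1 : ℝ)) (ind B) x} ≤ ε0 →
    1 / 2 - η ≤ (sm E).real B → α0 ≤ Real.sqrt (Module.finrank ℝ E) * ‖bar B‖ →
    ∃ v : SS E, (sm E).real (symmDiff B {x | 0 ≤ ⟪(v : E), (x : E)⟫}) ≤ κ := by
  
  obtain ⟨hmono, -, h01, -, hhalf, -, -, -, -⟩ := PhN_props
  have ht1 : (2 : ℝ) ≤ (t : ℝ) - 1 := by
    have : (3 : ℝ) ≤ t := by exact_mod_cast ht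
    linarith
  set R : ℝ := 1 / ((t : ℝ) - 1) with hR
  have hR0 : 0 < R := by positivity
  have hR1 : R ≤ 1 / 2 := by
    rw [hR]
    exact one_div_le_one_div_of_le (by norm_num) ht1
  have hneg : (-1 / ((t : ℝ) - 1)) = -R := by rw [hR]; ring
  -- constants
  set δ2 : ℝ := κ / 8 with hδ2
  have hδ20 : 0 < δ2 := by positivity
  set δ1 : ℝ := R * α0 * δ2 with hδ1
  have hδ10 : 0 < δ1 := by positivity
  set gp : ℝ := PhN δ1 - 1 / 2 with hgp
  have hg0 : 0 < gp := by
    have := hmono hδ10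
    rw [hhalf] at this
    linarith
  set s0 : ℝ := min 1 (min (gp / 2) (κ / 16)) with hs0
  have hs0pos : 0 < s0 := by
    rw [hs0]
    exact lt_min one_pos (lt_min (by positivity) (by positivity))
  have hs01 : s0 ≤ 1 := min_le_left _ _
  have hs0g : s0 ≤ gp / 2 := (min_le_right _ _).trans (min_le_left _ _)
  have hs0k : s0 ≤ κ / 16 := (min_le_right _ _).trans (min_le_right _ _)
  have hs0sq : s0 ^ 2 ≤ s0 := by nlinarith
  refine ⟨s0 ^ 2, by positivity, κ / 4, by positivity, 5, ?_⟩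
  intro E _ _ _ _ _ _ hn B hB hI hS hBm hα1
  rw [hneg] at hI hS
  set n : ℕ := Module.finrank ℝ E with hnd
  haveI := sm_prob (E := E) (by omega)
  have hnpos : (0 : ℝ) < Real.sqrt n := Real.sqrt_pos.2 (by exact_mod_cast (by omega : 0 < n))
  have hb0 : 0 < ‖bar B‖ := by
    by_contra hcon
    have : ‖bar B‖ = 0 := le_antisymm (not_lt.1 hcon) (norm_nonneg _)
    rw [this, mul_zero] at hα1
    linarith
  have hv1 : ‖(‖bar B‖⁻¹ • bar B : E)‖ = 1 := by
    rw [norm_smul, norm_inv, norm_norm, inv_mul_cancel₀ hb0.ne']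
  let v : SS E := ⟨‖bar B‖⁻¹ • bar B, by rw [mem_sphere_zero_iff_norm]; exact hv1⟩
  have hbv : ∀ x : SS E, ⟪bar B, (x : E)⟫ = ‖bar B‖ * ⟪(v : E), (x : E)⟫ := by
    intro x
    show ⟪bar B, (x : E)⟫ = ‖bar B‖ * ⟪‖bar B‖⁻¹ • bar B, (x : E)⟫
    rw [real_inner_smul_left, ← mul_assoc, mul_inv_cancel₀ hb0.ne', one_mul]
  refine ⟨v, ?_⟩
  have hcv : Continuous (fun x : SS E => ⟪(v : E), (x : E)⟫) :=
    continuous_const.inner continuous_subtype_val
  set H : Set (SS E) := {x | 0 ≤ ⟪(v : E), (x : E)⟫} with hH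
  have hHm : MeasurableSet H := (measurableSet_Ici (a := (0 : ℝ))).preimage hcv.measurable
  -- the exceptional sets
  have hBMi : BM (ind B) := by
    refine ⟨measurable_const.indicator hB, 1, fun x => ?_⟩
    by_cases hx : x ∈ B
    · simp [ind, indicator_of_mem hx]
    · simp [ind, indicator_of_notMem hx]
  have hV : BM (PP (-R) (ind B)) := (PP_basic (by omega) (-R) hBMi hBMi).1
  have hG := case_big_gm_cont (-R) B
  set A1 : Set (SS E) := {x | s0 ≤ |PP (-R) (ind B) x - gm (-R) B x|} with hA1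
  set A2 : Set (SS E) := {x | x ∈ B ∧ 1 / 2 + s0 ^ 2 ≤ PP (-R) (ind B) x} with hA2
  have hint : Integrable (fun x => |PP (-R) (ind B) x - gm (-R) B x|) (sm E) := by
    obtain ⟨C, hC⟩ := hV.2
    refine Integrable.abs (Integrable.sub ?_ ?_)
    · exact Integrable.of_bound hV.1.aestronglyMeasurable C (Eventually.of_forall fun x => by
        rw [Real.norm_eq_abs]; exact hC x)
    · refine Integrable.of_bound hG.measurable.aestronglyMeasurable 1 (Eventually.of_forall fun x => ?_)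
      rw [Real.norm_eq_abs, abs_le]
      unfold gm
      have := h01 (Real.sqrt (2 * Real.pi) * (-R) * (Module.finrank ℝ E * ⟪bar B, (x : E)⟫) / Real.sqrt (1 - (-R) ^ 2))
      constructor <;> linarith [this.1, this.2]
  have hA1m : (sm E).real A1 ≤ s0 := by
    have h1 := mul_meas_ge_le_integral_of_nonneg (μ := sm E)
      (f := fun x => |PP (-R) (ind B) x - gm (-R) B x|)
      (Eventually.of_forall fun x => abs_nonneg _) hint s0
    have h2 : s0 * (sm E).real A1 ≤ s0 ^ 2 := h1.trans hI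
    nlinarith
  have hkey : B \ H ⊆ (A1 ∪ A2) ∪ {x | -(δ2 / Real.sqrt n) ≤ ⟪(v : E), (x : E)⟫ ∧ ⟪(v : E), (x : E)⟫ < 0} := by
    rintro x ⟨hxB, hxH⟩
    have hy : ⟪(v : E), (x : E)⟫ < 0 := not_le.1 hxH
    by_cases h1 : x ∈ A1
    · exact Or.inl (Or.inl h1)
    by_cases h2 : x ∈ A2
    · exact Or.inl (Or.inr h2)
    refine Or.inr ⟨?_, hy⟩
    have h3 : |PP (-R) (ind B) x - gm (-R) B x| < s0 := not_le.1 h1
    have h4 : PP (-R) (ind B) x < 1 / 2 + s0 ^ 2 := by
      by_contra hcon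
      exact h2 ⟨hxB, not_lt.1 hcon⟩
    have h5 : gm (-R) B x < PhN δ1 := by
      have h30 := (abs_lt.1 h3).1
      have h31 : PhN δ1 = 1 / 2 + gp := by rw [hgp]; ring
      linarith
    have h6 : Real.sqrt (2 * Real.pi) * (-R) * (n * ⟪bar B, (x : E)⟫) / Real.sqrt (1 - (-R) ^ 2) < δ1 :=
      hmono.lt_iff_lt.1 h5
    rw [hbv x] at h6
    set y : ℝ := ⟪(v : E), (x : E)⟫ with hyd
    have hsq1 : 0 < Real.sqrt (1 - (-R) ^ 2) := Real.sqrt_pos.2 (by nlinarith [mul_nonneg hR0.le hR0.le])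
    have hsq2 : Real.sqrt (1 - (-R) ^ 2) ≤ 1 := by
      have h20 : 1 - (-R) ^ 2 ≤ 1 := by nlinarith [mul_nonneg hR0.le hR0.le]
      have h21 := Real.sqrt_le_sqrt h20
      rwa [Real.sqrt_one] at h21
    have hsq3 : 1 ≤ Real.sqrt (2 * Real.pi) := by
      rw [← Real.sqrt_one]
      exact Real.sqrt_le_sqrt (by nlinarith [Real.pi_gt_three])
    have hnn : (Real.sqrt n) * (Real.sqrt n) = n := Real.mul_self_sqrt (Nat.cast_nonneg n)
    have h7 : Real.sqrt (2 * Real.pi) * R * (n * (‖bar B‖ * (-y))) < δ1 * Real.sqrt (1 - (-R) ^ 2) := by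
      have := (div_lt_iff₀ hsq1).1 h6
      calc Real.sqrt (2 * Real.pi) * R * (n * (‖bar B‖ * (-y)))
          = Real.sqrt (2 * Real.pi) * (-R) * (n * (‖bar B‖ * y)) := by ring
        _ < _ := this
    have h8 : δ1 * Real.sqrt (1 - (-R) ^ 2) ≤ δ1 := mul_le_of_le_one_right hδ10.le hsq2
    have hny : 0 ≤ -y := by linarith
    have h9 : R * (α0 * (Real.sqrt n * (-y))) ≤ Real.sqrt (2 * Real.pi) * R * (n * (‖bar B‖ * (-y))) := by
      have e1 : α0 * (Real.sqrt n * (-y)) ≤ (Real.sqrt n * ‖bar B‖) * (Real.sqrt n * (-y)) :=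
        mul_le_mul_of_nonneg_right hα1 (by positivity)
      have e2 : (Real.sqrt n * ‖bar B‖) * (Real.sqrt n * (-y)) = n * (‖bar B‖ * (-y)) := by
        calc (Real.sqrt n * ‖bar B‖) * (Real.sqrt n * (-y))
            = (Real.sqrt n * Real.sqrt n) * (‖bar B‖ * (-y)) := by ring
          _ = _ := by rw [hnn]
      rw [e2] at e1
      have e3 : 0 ≤ (n : ℝ) * (‖bar B‖ * (-y)) := by positivity
      calc R * (α0 * (Real.sqrt n * (-y))) ≤ R * (n * (‖bar B‖ * (-y))) :=
            mul_le_mul_of_nonneg_left e1 hR0.le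
        _ = 1 * (R * (n * (‖bar B‖ * (-y)))) := by ring
        _ ≤ Real.sqrt (2 * Real.pi) * (R * (n * (‖bar B‖ * (-y)))) :=
            mul_le_mul_of_nonneg_right hsq3 (by positivity)
        _ = _ := by ring
    have h10 : R * (α0 * (Real.sqrt n * (-y))) < R * (α0 * δ2) := by
      calc R * (α0 * (Real.sqrt n * (-y))) < δ1 := lt_of_le_of_lt h9 (lt_of_lt_of_le h7 h8)
        _ = R * (α0 * δ2) := by rw [hδ1]; ring
    have h11 : Real.sqrt n * (-y) < δ2 :=
      lt_of_mul_lt_mul_left (lt_of_mul_lt_mul_left h10 hR0.le) hα.le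
    have h12 : -y < δ2 / Real.sqrt n := by
      rw [lt_div_iff₀ hnpos]
      linarith
    show -(δ2 / Real.sqrt n) ≤ y
    linarith
  have hslab := case_big_slab (E := E) hnd.symm (by omega) v hδ20.le
  have hBH : (sm E).real (B \ H) ≤ s0 + s0 ^ 2 + δ2 := by
    calc (sm E).real (B \ H) ≤ _ := measureReal_mono hkey
      _ ≤ _ := measureReal_union_le _ _
      _ ≤ ((sm E).real A1 + (sm E).real A2) + δ2 := by
          gcongr
          exact measureReal_union_le _ _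
      _ ≤ s0 + s0 ^ 2 + δ2 := by gcongr
  have hHhalf : (sm E).real H = 1 / 2 := by
    rw [← case_big_half (n := n) (by omega)]
    exact cap_meas hnd.symm (by omega) v 0
  have hHB : (sm E).real (H \ B) ≤ κ / 4 + (s0 + s0 ^ 2 + δ2) := by
    have e1 : (sm E).real (H \ B) + (sm E).real (H ∩ B) = (sm E).real H := by
      have := measureReal_inter_add_diff (μ := sm E) (s := H) hB
      linarith
    have e2 : (sm E).real (B ∩ H) + (sm E).real (B \ H) = (sm E).real B :=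
      measureReal_inter_add_diff (μ := sm E) (s := B) hHm
    rw [inter_comm] at e2
    linarith
  have hfin : (sm E).real (symmDiff B H) ≤ (sm E).real (B \ H) + (sm E).real (H \ B) := by
    rw [Set.symmDiff_def]
    exact measureReal_union_le _ _
  linarith



end CoreW

end Pool.Agent.helper440_simplex
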