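import Pool.Agent.helper440_simplex.Select

/-! # Frames with prescribed Gram matrix -/

set_option autoImplicit false
set_option linter.unusedSectionVars false

namespace Pool.Agent.helper440_simplex

open MeasureTheory Metric Set Filter Topology
open scoped RealInnerProductSpace MatrixOrder

theorem sq_root {t : ℕ} {G : Matrix (Fin t) (Fin t) ℝ} (hG : G.PosSemidef) :
    ∃ B : Matrix (Fin t) (Fin t) ℝ, ∀ i j, G i j = ∑ k, B k i * B k j := by
  obtain ⟨B, hB⟩ := CStarAlgebra.nonneg_iff_eq_star_mul_self.mp hG.nonneg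
  refine ⟨B, fun i j => ?_⟩
  rw [hB, Matrix.mul_apply]
  refine Finset.sum_congr rfl fun k _ => ?_
  simp

section Fr
variable {E : Type*} [NormedAddCommGroup E] [InnerProductSpace ℝ E] [CompleteSpace E]
  [FiniteDimensional ℝ E]

theorem frame_of_gram {t : ℕ} (hdim : 2 * t ≤ Module.finrank ℝ E) (s : Fin t → E)
    {G : Matrix (Fin t) (Fin t) ℝ} (hG : G.PosSemidef) :
    ∃ o : Fin t → E, (∀ i j, ⟪o i, o j⟫ = G i j) ∧ ∀ i j, ⟪s i, o j⟫ = 0 := by
  obtain ⟨B, hB⟩ := sq_root hG
  set V := (Submodule.span ℝ (Set.range s))ᗮ with hV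
  have h1 := Submodule.finrank_add_finrank_orthogonal (Submodule.span ℝ (Set.range s))
  have h2 : Module.finrank ℝ (Submodule.span ℝ (Set.range s)) ≤ t := by
    have h := finrank_range_le_card (R := ℝ) s
    rw [Set.finrank] at h
    simpa using h
  have h3 : t ≤ Module.finrank ℝ V := by
    rw [hV]; omega
  set c := stdOrthonormalBasis ℝ V with hc
  set w : Fin t → E := fun k => (c (Fin.castLE h3 k) : E) with hw
  have hww : ∀ k l, ⟪w k, w l⟫ = if k = l then (1 : ℝ) else 0 := by
    intro k l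
    have := orthonormal_iff_ite.1 c.orthonormal (Fin.castLE h3 k) (Fin.castLE h3 l)
    rw [Submodule.coe_inner] at this
    simp only [hw]
    rw [this]
    by_cases h : k = l
    · simp [h]
    · rw [if_neg h, if_neg]
      intro h4
      exact h (Fin.castLE_injective h3 h4)
  have hsw : ∀ i k, ⟪s i, w k⟫ = 0 := fun i k =>
    (Submodule.mem_orthogonal _ _).1 (c (Fin.castLE h3 k)).2 (s i)
      (Submodule.subset_span (Set.mem_range_self i))
  refine ⟨fun i => ∑ k, B k i • w k, fun i j => ?_, fun i j => ?_⟩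
  · rw [sum_inner]
    simp only [inner_sum, real_inner_smul_left, real_inner_smul_right, hww]
    rw [hB]
    refine Finset.sum_congr rfl fun k _ => ?_
    simp
    ring
  · rw [inner_sum]
    simp only [real_inner_smul_right, hsw, mul_zero, Finset.sum_const_zero]

end Fr

/-- perturbed Gram matrix of a regular simplex -/
noncomputable def GG (t : ℕ) (W : Fin t → Fin t → ℝ) (lam : ℝ) : Matrix (Fin t) (Fin t) ℝ :=
  fun i j => if i = j then 1 else -1 / (t - 1 : ℝ) + lam * W i j

theorem GG_psd {t : ℕ} (ht : 2 ≤ t) {W : Fin t → Fin t → ℝ} (hsym : ∀ i j, W i j = W j i)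
    (hdiag : ∀ i, W i i = 0) {Kw w lam : ℝ} (hKw : ∀ i j, |W i j| ≤ Kw) (hw : 0 < w)
    (hsum : ∑ i, ∑ j, W i j = w) (hlam : 0 ≤ lam)
    (hsmall : lam * (t ^ 3 * Kw ^ 2 / w + t * Kw) ≤ 1) : (GG t W lam).PosSemidef := by
  have ht2 : (2 : ℝ) ≤ t := by exact_mod_cast ht
  have ht0 : (0 : ℝ) < t := by linarith
  have ht1 : (0 : ℝ) < t - 1 := by linarith
  have hKw0 : 0 ≤ Kw := (abs_nonneg _).trans (hKw ⟨0, by omega⟩ ⟨0, by omega⟩)
  refine Matrix.PosSemidef.of_dotProduct_mulVec_nonneg ?_ fun x => ?_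
  · ext i j
    simp only [Matrix.conjTranspose_apply, GG, star_trivial]
    by_cases h : i = j
    · simp [h]
    · rw [if_neg h, if_neg (Ne.symm h), hsym]
  · have e0 : star x ⬝ᵥ (GG t W lam).mulVec x = ∑ i, ∑ j, x i * (GG t W lam i j * x j) := by
      simp only [dotProduct, Matrix.mulVec, star_trivial, Finset.mul_sum]
    rw [e0]
    set S := ∑ i, x i with hS
    set xb := S / t with hxb
    set z : Fin t → ℝ := fun i => x i - xb with hz
    have hsz : ∑ i, z i = 0 := by
      simp only [hz]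
      rw [Finset.sum_sub_distrib, Finset.sum_const, Finset.card_univ, Fintype.card_fin,
        nsmul_eq_mul, ← hS, hxb]
      field_simp
      rw [sub_self, mul_zero]
    have hx : ∀ i, x i = xb + z i := fun i => by simp only [hz]; ring
    have e1 : ∀ i j, x i * (GG t W lam i j * x j)
        = (if i = j then (1 + 1 / (t - 1 : ℝ)) * (x i * x j) else 0)
          - 1 / (t - 1 : ℝ) * (x i * x j) + lam * (W i j * (x i * x j)) := by
      intro i j
      unfold GG
      by_cases h : i = j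
      · subst h
        rw [if_pos rfl, if_pos rfl, hdiag]
        ring
      · rw [if_neg h, if_neg h]
        ring
    simp only [e1, Finset.sum_add_distrib, Finset.sum_sub_distrib, ← Finset.mul_sum]
    have e2 : ∑ i, ∑ j, (if i = j then (1 + 1 / (t - 1 : ℝ)) * (x i * x j) else 0)
        = (1 + 1 / (t - 1 : ℝ)) * ∑ i, x i ^ 2 := by
      rw [Finset.mul_sum]
      refine Finset.sum_congr rfl fun i _ => ?_
      simp [sq]
    have e3 : ∑ i, x i * ∑ j, x j = S ^ 2 := by
      rw [← Finset.sum_mul, ← hS, sq]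
    rw [e2, e3]
    set Z := ∑ i, z i ^ 2 with hZ
    have hZ0 : 0 ≤ Z := Finset.sum_nonneg fun _ _ => sq_nonneg _
    have e4 : ∑ i, x i ^ 2 = Z + t * xb ^ 2 := by
      have : ∀ i, x i ^ 2 = z i ^ 2 + 2 * xb * z i + xb ^ 2 := fun i => by rw [hx i]; ring
      simp only [this, Finset.sum_add_distrib, ← Finset.mul_sum, hsz, Finset.sum_const,
        Finset.card_univ, Fintype.card_fin, nsmul_eq_mul]
      ring
    have e5 : S = t * xb := by rw [hxb]; field_simp
    -- the form of W
    set R : Fin t → ℝ := fun i => ∑ j, W i j with hR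
    have e6 : ∑ i, ∑ j, W i j * (x i * x j)
        = xb ^ 2 * w + 2 * xb * ∑ i, z i * R i + ∑ i, ∑ j, W i j * (z i * z j) := by
      have : ∀ i j, W i j * (x i * x j) = xb ^ 2 * W i j + xb * (z i * W i j)
          + xb * (W j i * z j) + W i j * (z i * z j) := fun i j => by
        rw [hx i, hx j, hsym j i]; ring
      have hR' : ∀ i, ∑ j, W i j = R i := fun i => rfl
      have e7 : ∑ i, ∑ j, W j i * z j = ∑ i, z i * R i := by
        rw [Finset.sum_comm]
        refine Finset.sum_congr rfl fun i _ => ?_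
        rw [← Finset.sum_mul, mul_comm]
      simp only [this, Finset.sum_add_distrib, ← Finset.mul_sum, e7, hR', hsum]
      ring
    have hRb : ∀ i, |R i| ≤ t * Kw := by
      intro i
      calc |R i| ≤ ∑ j, |W i j| := Finset.abs_sum_le_sum_abs _ _
        _ ≤ ∑ _j : Fin t, Kw := Finset.sum_le_sum fun j _ => hKw i j
        _ = t * Kw := by simp
    have hR2 : ∑ i, R i ^ 2 ≤ t ^ 3 * Kw ^ 2 := by
      calc ∑ i, R i ^ 2 ≤ ∑ _i : Fin t, (t * Kw) ^ 2 := by
            refine Finset.sum_le_sum fun i _ => ?_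
            rw [← sq_abs (R i)]
            exact pow_le_pow_left₀ (abs_nonneg _) (hRb i) 2
        _ = t ^ 3 * Kw ^ 2 := by simp; ring
    have hcs : (∑ i, z i * R i) ^ 2 ≤ Z * (t ^ 3 * Kw ^ 2) :=
      (Finset.sum_mul_sq_le_sq_mul_sq Finset.univ z R).trans (mul_le_mul_of_nonneg_left hR2 hZ0)
    have h10 : -(Z * (t ^ 3 * Kw ^ 2 / w)) ≤ xb ^ 2 * w + 2 * xb * ∑ i, z i * R i := by
      set q := ∑ i, z i * R i with hq
      have h11 : 0 ≤ (xb * w + q) ^ 2 / w := by positivity
      have h12 : (xb * w + q) ^ 2 / w = xb ^ 2 * w + 2 * xb * q + q ^ 2 / w := by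
        field_simp; ring
      have h13 : q ^ 2 / w ≤ Z * (t ^ 3 * Kw ^ 2 / w) := by
        rw [mul_div_assoc', div_le_div_iff_of_pos_right hw]
        exact hcs
      linarith
    have h14 : -(t * Kw * Z) ≤ ∑ i, ∑ j, W i j * (z i * z j) := by
      have h15 : ∀ i j, -(Kw * ((z i ^ 2 + z j ^ 2) / 2)) ≤ W i j * (z i * z j) := by
        intro i j
        have h16 : |W i j * (z i * z j)| ≤ Kw * ((z i ^ 2 + z j ^ 2) / 2) := by
          rw [abs_mul]
          refine mul_le_mul (hKw i j) ?_ (abs_nonneg _) hKw0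
          rw [abs_le]
          constructor
          · nlinarith [sq_nonneg (z i + z j)]
          · nlinarith [sq_nonneg (z i - z j)]
        exact (abs_le.1 h16).1
      have h17 : ∑ i, ∑ j, -(Kw * ((z i ^ 2 + z j ^ 2) / 2)) ≤ ∑ i, ∑ j, W i j * (z i * z j) :=
        Finset.sum_le_sum fun i _ => Finset.sum_le_sum fun j _ => h15 i j
      have h18 : ∑ i : Fin t, ∑ j : Fin t, -(Kw * ((z i ^ 2 + z j ^ 2) / 2)) = -(t * Kw * Z) := by
        simp only [Finset.sum_neg_distrib, ← Finset.mul_sum, ← Finset.sum_div,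
          Finset.sum_add_distrib, Finset.sum_const, Finset.card_univ, Fintype.card_fin,
          nsmul_eq_mul]
        rw [← hZ]
        ring
      linarith
    rw [e6, e4, e5]
    have h20 : -Z ≤ lam * (xb ^ 2 * w + 2 * xb * ∑ i, z i * R i
        + ∑ i, ∑ j, W i j * (z i * z j)) := by
      have h21 : lam * (-(Z * (t ^ 3 * Kw ^ 2 / w)) - t * Kw * Z)
          ≤ lam * (xb ^ 2 * w + 2 * xb * ∑ i, z i * R i + ∑ i, ∑ j, W i j * (z i * z j)) :=
        mul_le_mul_of_nonneg_left (by linarith) hlam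
      have h22 : lam * (-(Z * (t ^ 3 * Kw ^ 2 / w)) - t * Kw * Z)
          = -(Z * (lam * (t ^ 3 * Kw ^ 2 / w + t * Kw))) := by ring
      have h23 : Z * (lam * (t ^ 3 * Kw ^ 2 / w + t * Kw)) ≤ Z * 1 :=
        mul_le_mul_of_nonneg_left hsmall hZ0
      linarith
    have h24 : (1 + 1 / (t - 1 : ℝ)) * (Z + t * xb ^ 2) - 1 / (t - 1 : ℝ) * (t * xb) ^ 2
        = (1 + 1 / (t - 1 : ℝ)) * Z := by
      field_simp
      ring
    rw [h24]
    have h25 : Z ≤ (1 + 1 / (t - 1 : ℝ)) * Z := by
      have : 0 ≤ 1 / (t - 1 : ℝ) * Z := by positivity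
      linarith
    linarith

end Pool.Agent.helper440_simplex
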