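import Mathlib

/-! # The orthogonal group, its action on the sphere and its invariant probability -/

set_option autoImplicit false
set_option linter.unusedSectionVars false

namespace Pool.Agent.helper440_simplex

open MeasureTheory Metric Set Filter Topology
open scoped RealInnerProductSpace

/-- the unit sphere -/
abbrev SS (E : Type*) [NormedAddCommGroup E] := sphere (0 : E) 1

/-- the orthogonal group -/
abbrev UG (E : Type*) [NormedAddCommGroup E] [InnerProductSpace ℝ E] [CompleteSpace E] :=
  ↥(unitary (E →L[ℝ] E))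

section Act
variable {E : Type*} [NormedAddCommGroup E] [InnerProductSpace ℝ E] [CompleteSpace E]

/-- the action on vectors -/
noncomputable def av (g : UG E) (x : E) : E := (g : E →L[ℝ] E) x

theorem av_norm (g : UG E) (x : E) : ‖av g x‖ = ‖x‖ := Unitary.norm_map _ _

theorem av_inner (g : UG E) (x y : E) : ⟪av g x, av g y⟫ = ⟪x, y⟫ := Unitary.inner_map_map _ _ _

theorem av_mul (g h : UG E) (x : E) : av (g * h) x = av g (av h x) := rfl

theorem av_one (x : E) : av (1 : UG E) x = x := rfl

theorem av_inv (g : UG E) (x : E) : av g⁻¹ (av g x) = x := by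
  rw [← av_mul, inv_mul_cancel, av_one]

theorem av_inv' (g : UG E) (x : E) : av g (av g⁻¹ x) = x := by
  rw [← av_mul, mul_inv_cancel, av_one]

theorem av_add (g : UG E) (x y : E) : av g (x + y) = av g x + av g y := map_add _ _ _

theorem av_sub (g : UG E) (x y : E) : av g (x - y) = av g x - av g y := map_sub _ _ _

theorem av_smul (g : UG E) (c : ℝ) (x : E) : av g (c • x) = c • av g x := map_smul _ _ _

theorem av_continuous : Continuous (fun p : UG E × E => av p.1 p.2) :=
  (continuous_subtype_val.comp continuous_fst).clm_apply continuous_snd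

theorem av_inner_left (g : UG E) (x y : E) : ⟪av g⁻¹ x, y⟫ = ⟪x, av g y⟫ := by
  rw [← av_inner g (av g⁻¹ x) y, av_inv']

/-- the action on the sphere -/
noncomputable def sa (g : UG E) (x : SS E) : SS E :=
  ⟨av g x, by rw [mem_sphere_zero_iff_norm, av_norm]; exact norm_eq_of_mem_sphere x⟩

theorem sa_coe (g : UG E) (x : SS E) : (sa g x : E) = av g x := rfl

theorem sa_mul (g h : UG E) (x : SS E) : sa (g * h) x = sa g (sa h x) := rfl

theorem sa_one (x : SS E) : sa (1 : UG E) x = x := rfl

theorem sa_inv (g : UG E) (x : SS E) : sa g⁻¹ (sa g x) = x := by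
  rw [← sa_mul, inv_mul_cancel, sa_one]

theorem sa_continuous : Continuous (fun p : UG E × SS E => sa p.1 p.2) := by
  refine Continuous.subtype_mk ?_ _
  exact av_continuous.comp (continuous_fst.prodMk (continuous_subtype_val.comp continuous_snd))

theorem sa_continuous_left (x : SS E) : Continuous (fun g : UG E => sa g x) :=
  sa_continuous.comp (continuous_id.prodMk continuous_const)

theorem sa_continuous_right (g : UG E) : Continuous (fun x : SS E => sa g x) :=
  sa_continuous.comp (continuous_const.prodMk continuous_id)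

end Act

section Cpt
variable {E : Type*} [NormedAddCommGroup E] [InnerProductSpace ℝ E] [CompleteSpace E]
  [FiniteDimensional ℝ E]

instance compactSpace_UG : CompactSpace (UG E) := by
  have : ProperSpace (E →L[ℝ] E) := FiniteDimensional.proper_real _
  have h : IsCompact ((unitary (E →L[ℝ] E) : Submonoid (E →L[ℝ] E)) : Set (E →L[ℝ] E)) := by
    refine Metric.isCompact_of_isClosed_isBounded isClosed_unitary ?_
    refine (Metric.isBounded_closedBall (x := (0 : E →L[ℝ] E)) (r := 1)).subset ?_
    intro u hu
    rw [mem_closedBall_zero_iff]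
    refine ContinuousLinearMap.opNorm_le_bound _ zero_le_one fun x => ?_
    rw [one_mul]
    exact (ContinuousLinearMap.norm_map_of_mem_unitary hu x).le
  exact isCompact_iff_compactSpace.mp h

instance secondCountable_UG : SecondCountableTopology (UG E) := by
  have : ProperSpace (E →L[ℝ] E) := FiniteDimensional.proper_real _
  have : SecondCountableTopology (E →L[ℝ] E) := inferInstance
  infer_instance

/-- invariant probability on the orthogonal group -/
noncomputable def hm (E : Type*) [NormedAddCommGroup E] [InnerProductSpace ℝ E] [CompleteSpace E]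
    [FiniteDimensional ℝ E] : Measure (UG E) :=
  Measure.haarMeasure (⊤ : TopologicalSpace.PositiveCompacts (UG E))

instance hm_prob : IsProbabilityMeasure (hm E) := by
  refine ⟨?_⟩
  have := Measure.haarMeasure_self (K₀ := (⊤ : TopologicalSpace.PositiveCompacts (UG E)))
  simpa [hm] using this

instance hm_left : (hm E).IsMulLeftInvariant := by unfold hm; infer_instance

instance hm_haar : (hm E).IsHaarMeasure := by unfold hm; infer_instance

instance hm_right : (hm E).IsMulRightInvariant := by
  set μ := hm E with hμ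
  let ν : Measure (UG E) := μ.inv
  have hνr : ν.IsMulRightInvariant := inferInstance
  have hνp : IsProbabilityMeasure ν := by
    refine ⟨?_⟩
    show μ.inv univ = 1
    rw [Measure.inv_apply]
    simp
  have hμν : ν = μ := by
    ext s hs
    have hm : Measurable (fun p : UG E × UG E => s.indicator (1 : UG E → ENNReal) (p.1 * p.2)) :=
      (measurable_one.indicator hs).comp measurable_mul
    have e1 : ∫⁻ x, ∫⁻ y, s.indicator (1 : UG E → ENNReal) (x * y) ∂μ ∂ν = μ s := by
      have : ∀ x, ∫⁻ y, s.indicator (1 : UG E → ENNReal) (x * y) ∂μ = μ s := by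
        intro x
        rw [lintegral_mul_left_eq_self (fun z => s.indicator (1 : UG E → ENNReal) z) x,
          lintegral_indicator_one hs]
      simp only [this]
      rw [lintegral_const, measure_univ, mul_one]
    have e2 : ∫⁻ y, ∫⁻ x, s.indicator (1 : UG E → ENNReal) (x * y) ∂ν ∂μ = ν s := by
      have : ∀ y, ∫⁻ x, s.indicator (1 : UG E → ENNReal) (x * y) ∂ν = ν s := by
        intro y
        rw [lintegral_mul_right_eq_self (fun z => s.indicator (1 : UG E → ENNReal) z) y,
          lintegral_indicator_one hs]
      simp only [this]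
      rw [lintegral_const, measure_univ, mul_one]
    rw [← e1, ← e2]
    exact (lintegral_lintegral_swap hm.aemeasurable).symm
  rw [← hμν]; exact hνr

theorem hm_int_left (h : UG E) (f : UG E → ℝ) : ∫ g, f (h * g) ∂(hm E) = ∫ g, f g ∂(hm E) :=
  integral_mul_left_eq_self f h

theorem hm_int_right (h : UG E) (f : UG E → ℝ) : ∫ g, f (g * h) ∂(hm E) = ∫ g, f g ∂(hm E) :=
  integral_mul_right_eq_self f h

theorem hm_integrable {F : Type*} [NormedAddCommGroup F] [SecondCountableTopology F]
    {f : UG E → F} (hf : Continuous f) : Integrable f (hm E) :=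
  hf.integrable_of_hasCompactSupport (HasCompactSupport.of_compactSpace _)

/-- transitivity on frames -/
theorem exists_UG {n : ℕ} (b c : OrthonormalBasis (Fin n) ℝ E) :
    ∃ g : UG E, ∀ i, av g (b i) = c i := by
  refine ⟨Unitary.linearIsometryEquiv.symm (b.equiv c (Equiv.refl _)), fun i => ?_⟩
  unfold av
  rw [Unitary.coe_symm_linearIsometryEquiv_apply]
  simp

theorem exists_onb1 {n : ℕ} (hn : Module.finrank ℝ E = n + 1) (a : E) (ha : ‖a‖ = 1) :
    ∃ b : OrthonormalBasis (Fin (n + 1)) ℝ E, b 0 = a := by
  have hv : Orthonormal ℝ (({0} : Set (Fin (n + 1))).domRestrict (fun _ => a)) := by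
    rw [orthonormal_iff_ite]
    rintro ⟨i, hi⟩ ⟨j, hj⟩
    simp only [Set.mem_singleton_iff] at hi hj
    subst hi; subst hj
    simp [Set.domRestrict, ha]
  obtain ⟨b, hb⟩ := hv.exists_orthonormalBasis_extension_of_card_eq (by simp [hn])
  exact ⟨b, by simpa using hb 0 (by simp)⟩

theorem exists_onb2 {n : ℕ} (hn : Module.finrank ℝ E = n + 2) (a u : E) (ha : ‖a‖ = 1)
    (hu : ‖u‖ = 1) (hau : inner ℝ a u = 0) :
    ∃ b : OrthonormalBasis (Fin (n + 2)) ℝ E, b 0 = a ∧ b 1 = u := by
  have hv : Orthonormal ℝ (({0, 1} : Set (Fin (n + 2))).domRestrict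
      (fun i => if i = 0 then a else u)) := by
    rw [orthonormal_iff_ite]
    rintro ⟨i, hi⟩ ⟨j, hj⟩
    simp only [Set.mem_insert_iff, Set.mem_singleton_iff] at hi hj
    rcases hi with rfl | rfl <;> rcases hj with rfl | rfl <;>
      simp [Set.domRestrict, ha, hu, hau, real_inner_comm a u ▸ hau]
  obtain ⟨b, hb⟩ := hv.exists_orthonormalBasis_extension_of_card_eq (by simp [hn])
  exact ⟨b, by simpa using hb 0 (by simp), by simpa using hb 1 (by simp)⟩

/-- the law of `g x` does not depend on `x` -/
theorem hm_point (hn : 1 ≤ Module.finrank ℝ E) (x y : SS E) (f : SS E → ℝ) :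
    ∫ g, f (sa g x) ∂(hm E) = ∫ g, f (sa g y) ∂(hm E) := by
  obtain ⟨n, hn⟩ : ∃ n, Module.finrank ℝ E = n + 1 := ⟨Module.finrank ℝ E - 1, by omega⟩
  obtain ⟨b, hb⟩ := exists_onb1 hn (x : E) (norm_eq_of_mem_sphere x)
  obtain ⟨c, hc⟩ := exists_onb1 hn (y : E) (norm_eq_of_mem_sphere y)
  obtain ⟨h, hh⟩ := exists_UG b c
  have h0 := hh 0
  rw [hb, hc] at h0
  rw [← hm_int_right h (fun g => f (sa g x))]
  have : sa h x = y := Subtype.ext (by rw [sa_coe, h0])
  simp only [sa_mul, this]

end Cpt

end Pool.Agent.helper440_simplex
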