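import Pool.Agent.helper440_simplex.Iso

/-! # The law of the height -/

set_option autoImplicit false
set_option linter.unusedSectionVars false

namespace Pool.Agent.helper440_simplex

open MeasureTheory Metric Set Filter Topology
open scoped RealInnerProductSpace

variable {E : Type*} [NormedAddCommGroup E] [InnerProductSpace ℝ E] [CompleteSpace E]
  [FiniteDimensional ℝ E]

theorem int_deriv_zero {φ : VV E} (h : IsGrad φ) (a b : E) (x0 : SS E) :
    ∫ g, ⟪(φ (sa g x0)).2, gen a b (sa g x0)⟫ ∂(hm E) = 0 := by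
  obtain ⟨L, hL⟩ := rot_val_lip h a b
  have hφc : Continuous fun x : SS E => (φ x).1 := continuous_fst.comp φ.continuous
  set Q : ℝ → UG E → ℝ := fun θ g =>
    θ⁻¹ * ((φ (sa (rot a b θ) (sa g x0))).1 - (φ (sa g x0)).1) with hQ
  have hc1 : ∀ θ, Continuous (fun g : UG E => (φ (sa (rot a b θ) (sa g x0))).1) := fun θ =>
    hφc.comp ((sa_continuous_right _).comp (sa_continuous_left x0))
  have hc2 : Continuous (fun g : UG E => (φ (sa g x0)).1) := hφc.comp (sa_continuous_left x0)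
  have hQ0 : ∀ θ, ∫ g, Q θ g ∂(hm E) = 0 := by
    intro θ
    simp only [hQ]
    rw [integral_const_mul, integral_sub (hm_integrable (hc1 θ)) (hm_integrable hc2)]
    have := hm_int_left (rot a b θ) (fun g => (φ (sa g x0)).1)
    simp only [sa_mul] at this
    rw [this]; ring
  have hT : Tendsto (fun θ => ∫ g, Q θ g ∂(hm E)) (𝓝[≠] 0)
      (𝓝 (∫ g, ⟪(φ (sa g x0)).2, gen a b (sa g x0)⟫ ∂(hm E))) := by
    refine tendsto_integral_filter_of_dominated_convergence (fun _ => L) ?_ ?_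
      (integrable_const _) ?_
    · exact Eventually.of_forall fun θ =>
        (continuous_const.mul ((hc1 θ).sub hc2)).aestronglyMeasurable
    · filter_upwards [nhdsWithin_le_nhds hL, self_mem_nhdsWithin] with θ hθ hne
      refine Eventually.of_forall fun g => ?_
      have h1 := hθ (sa g x0)
      have hne' : 0 < |θ| := abs_pos.2 hne
      simp only [hQ]
      rw [Real.norm_eq_abs, abs_mul, abs_inv, inv_mul_le_iff₀ hne', mul_comm]
      exact h1
    · refine Eventually.of_forall fun g => ?_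
      have h1 := rot_val_hasDerivAt h a b (sa g x0)
      rw [hasDerivAt_iff_tendsto_slope_zero] at h1
      simp only [zero_add, rot_zero, sa_one, smul_eq_mul] at h1
      exact h1
  have h2 : Tendsto (fun θ : ℝ => ∫ g, Q θ g ∂(hm E)) (𝓝[≠] 0) (𝓝 0) := by
    simp only [hQ0]
    exact tendsto_const_nhds
  exact tendsto_nhds_unique hT h2

theorem ht_cont (v x0 : SS E) : Continuous (fun g : UG E => ⟪(v : E), (sa g x0 : E)⟫) :=
  continuous_const.inner (continuous_subtype_val.comp (sa_continuous_left x0))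

theorem abs_ht_le (v x : SS E) : |⟪(v : E), (x : E)⟫| ≤ 1 := by
  have := abs_real_inner_le_norm (v : E) (x : E)
  rwa [norm_eq_of_mem_sphere x, norm_eq_of_mem_sphere v, mul_one] at this

theorem stein_one {ψ : ℝ → ℝ} (hψ : ContDiff ℝ 1 ψ) (v w : E) (hv : ‖v‖ = 1) (hw : ‖w‖ = 1)
    (hvw : ⟪v, w⟫ = 0) (x0 : SS E) :
    ∫ g, deriv ψ ⟪v, (sa g x0 : E)⟫ * ⟪w, (sa g x0 : E)⟫ ^ 2 ∂(hm E)
      = ∫ g, ψ ⟪v, (sa g x0 : E)⟫ * ⟪v, (sa g x0 : E)⟫ ∂(hm E) := by
  set F : E → ℝ := fun z => ψ ⟪v, z⟫ * ⟪w, z⟫ with hF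
  have hFc : ContDiff ℝ 1 F :=
    (hψ.comp (contDiff_const.inner ℝ contDiff_id)).mul (contDiff_const.inner ℝ contDiff_id)
  have hd : ∀ z u : E, fderiv ℝ F z u = deriv ψ ⟪v, z⟫ * ⟪v, u⟫ * ⟪w, z⟫ + ψ ⟪v, z⟫ * ⟪w, u⟫ := by
    intro z u
    have h1 : HasFDerivAt (fun z : E => ⟪v, z⟫) (innerSL ℝ v) z := (innerSL ℝ v).hasFDerivAt
    have h1' : HasFDerivAt (fun z : E => ⟪w, z⟫) (innerSL ℝ w) z := (innerSL ℝ w).hasFDerivAt
    have h2 : HasDerivAt ψ (deriv ψ ⟪v, z⟫) ⟪v, z⟫ :=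
      ((hψ.differentiable (by norm_num)) _).hasDerivAt
    have h3 := (h2.comp_hasFDerivAt z h1).mul h1'
    have h4 : fderiv ℝ F z = _ := h3.fderiv
    rw [h4]
    simp
    ring
  have h0 := int_deriv_zero (ofC1_isGrad F hFc) v w x0
  have h5 : ∀ g : UG E, ⟪(ofC1 F hFc (sa g x0)).2, gen v w (sa g x0)⟫
      = deriv ψ ⟪v, (sa g x0 : E)⟫ * ⟪w, (sa g x0 : E)⟫ ^ 2
        - ψ ⟪v, (sa g x0 : E)⟫ * ⟪v, (sa g x0 : E)⟫ := by
    intro g
    rw [ofC1_inner, hd, gen_apply]
    simp only [inner_sub_right, real_inner_smul_right, real_inner_self_eq_norm_sq, hv, hw, hvw,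
      real_inner_comm v w]
    ring
  simp only [h5] at h0
  have hc : ∀ u : E, Continuous (fun g : UG E => ⟪u, (sa g x0 : E)⟫) := fun u =>
    continuous_const.inner (continuous_subtype_val.comp (sa_continuous_left x0))
  rw [integral_sub] at h0
  · linarith
  · exact hm_integrable (((hψ.continuous_deriv (by norm_num)).comp (hc v)).mul ((hc w).pow 2))
  · exact hm_integrable ((hψ.continuous.comp (hc v)).mul (hc v))

theorem stein {m : ℕ} (hn : Module.finrank ℝ E = m + 2) {ψ : ℝ → ℝ} (hψ : ContDiff ℝ 1 ψ)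
    (v x0 : SS E) :
    ∫ g, deriv ψ ⟪(v : E), (sa g x0 : E)⟫ * (1 - ⟪(v : E), (sa g x0 : E)⟫ ^ 2) ∂(hm E)
      = (m + 1 : ℝ) * ∫ g, ψ ⟪(v : E), (sa g x0 : E)⟫ * ⟪(v : E), (sa g x0 : E)⟫ ∂(hm E) := by
  obtain ⟨b, hb⟩ := exists_onb1 (n := m + 1) (by omega) (v : E) (norm_eq_of_mem_sphere v)
  have hc : ∀ u : E, Continuous (fun g : UG E => ⟪u, (sa g x0 : E)⟫) := fun u =>
    continuous_const.inner (continuous_subtype_val.comp (sa_continuous_left x0))
  have h1 : ∀ j : Fin (m + 1), ∫ g, deriv ψ ⟪(v : E), (sa g x0 : E)⟫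
      * ⟪b j.succ, (sa g x0 : E)⟫ ^ 2 ∂(hm E)
      = ∫ g, ψ ⟪(v : E), (sa g x0 : E)⟫ * ⟪(v : E), (sa g x0 : E)⟫ ∂(hm E) := by
    intro j
    refine stein_one hψ (v : E) (b j.succ) (norm_eq_of_mem_sphere v) (b.orthonormal.1 _) ?_ x0
    rw [← hb]
    exact b.orthonormal.2 (Fin.succ_ne_zero j).symm
  have h2 : ∑ j : Fin (m + 1), ∫ g, deriv ψ ⟪(v : E), (sa g x0 : E)⟫
      * ⟪b j.succ, (sa g x0 : E)⟫ ^ 2 ∂(hm E)
      = ∫ g, deriv ψ ⟪(v : E), (sa g x0 : E)⟫ * (1 - ⟪(v : E), (sa g x0 : E)⟫ ^ 2) ∂(hm E) := by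
    rw [← integral_finsetSum]
    · congr 1
      funext g
      rw [← Finset.mul_sum]
      congr 1
      have h3 : ∑ j : Fin (m + 2), ⟪b j, (sa g x0 : E)⟫ ^ 2 = 1 := by
        have h4 := b.sum_inner_mul_inner (sa g x0 : E) (sa g x0 : E)
        rw [real_inner_self_eq_norm_sq, norm_eq_of_mem_sphere, one_pow] at h4
        rw [← h4]
        refine Finset.sum_congr rfl fun j _ => ?_
        rw [sq, real_inner_comm (b j) (sa g x0 : E)]
      rw [Fin.sum_univ_succ, hb] at h3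
      linarith
    · intro j _
      exact hm_integrable (((hψ.continuous_deriv (by norm_num)).comp (hc _)).mul ((hc _).pow 2))
  rw [← h2]
  simp only [h1, Finset.sum_const, Finset.card_univ, Fintype.card_fin, nsmul_eq_mul]
  push_cast
  ring

theorem ht_sq_int (v x0 : SS E) :
    Integrable (fun g : UG E => ⟪(v : E), (sa g x0 : E)⟫ ^ 2) (hm E) :=
  hm_integrable ((ht_cont v x0).pow 2)

theorem ht_sq {m : ℕ} (hn : Module.finrank ℝ E = m + 2) (v x0 : SS E) :
    ∫ g, ⟪(v : E), (sa g x0 : E)⟫ ^ 2 ∂(hm E) = 1 / (m + 2 : ℝ) := by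
  have h := stein hn (ψ := id) contDiff_id v x0
  simp only [deriv_id, one_mul, id] at h
  rw [integral_sub (integrable_const _) (ht_sq_int v x0),
    integral_const, probReal_univ, one_smul] at h
  have h2 : ∀ g : UG E, ⟪(v : E), (sa g x0 : E)⟫ * ⟪(v : E), (sa g x0 : E)⟫
      = ⟪(v : E), (sa g x0 : E)⟫ ^ 2 := fun g => by ring
  simp only [h2] at h
  have h3 : (0 : ℝ) < m + 2 := by positivity
  rw [eq_div_iff h3.ne']
  linarith

theorem ind_le_int {S : Set (UG E)} (hS : MeasurableSet S) {f : UG E → ℝ}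
    (hf : Integrable f (hm E)) {c : ℝ} (h : ∀ g, S.indicator (fun _ => c) g ≤ f g) :
    (hm E).real S * c ≤ ∫ g, f g ∂(hm E) := by
  have h1 : ∫ g, S.indicator (fun _ => c) g ∂(hm E) ≤ ∫ g, f g ∂(hm E) :=
    integral_mono ((integrable_const _).indicator hS) hf h
  rwa [integral_indicator_const _ hS, smul_eq_mul] at h1

theorem int_le_ind {S : Set (UG E)} (hS : MeasurableSet S) {f : UG E → ℝ}
    (hf : Integrable f (hm E)) {c : ℝ} (h : ∀ g, f g ≤ S.indicator (fun _ => c) g) :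
    ∫ g, f g ∂(hm E) ≤ (hm E).real S * c := by
  have h1 : ∫ g, f g ∂(hm E) ≤ ∫ g, S.indicator (fun _ => c) g ∂(hm E) :=
    integral_mono hf ((integrable_const _).indicator hS) h
  rwa [integral_indicator_const _ hS, smul_eq_mul] at h1

theorem ht_cheb {m : ℕ} (hn : Module.finrank ℝ E = m + 2) (v x0 : SS E) {κ : ℝ} (hκ : 0 < κ) :
    (hm E).real {g | κ ≤ |⟪(v : E), (sa g x0 : E)⟫|} ≤ 1 / ((m + 2) * κ ^ 2) := by
  have hS : MeasurableSet {g : UG E | κ ≤ |⟪(v : E), (sa g x0 : E)⟫|} :=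
    (isClosed_le continuous_const (ht_cont v x0).abs).measurableSet
  have h := ind_le_int hS (ht_sq_int v x0) (c := κ ^ 2) ?_
  · rw [ht_sq hn] at h
    have h3 : (0 : ℝ) < m + 2 := by positivity
    rw [le_div_iff₀ (by positivity)]
    rw [le_div_iff₀ h3] at h
    nlinarith
  · intro g
    by_cases hg : g ∈ {g : UG E | κ ≤ |⟪(v : E), (sa g x0 : E)⟫|}
    · rw [Set.indicator_of_mem hg]
      rw [← sq_abs ⟪(v : E), (sa g x0 : E)⟫]
      exact pow_le_pow_left₀ hκ.le hg 2
    · rw [Set.indicator_of_notMem hg]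
      exact sq_nonneg _

theorem ht_abs {m : ℕ} (hn : Module.finrank ℝ E = m + 2) (v x0 : SS E) :
    ∫ g, |⟪(v : E), (sa g x0 : E)⟫| ∂(hm E) ≤ 1 / Real.sqrt (m + 2 : ℝ) := by
  set q := Real.sqrt (m + 2 : ℝ) with hq
  have hq2 : q ^ 2 = m + 2 := Real.sq_sqrt (by positivity)
  have hq0 : 0 < q := Real.sqrt_pos.2 (by positivity)
  have h1 : ∫ g, |⟪(v : E), (sa g x0 : E)⟫| ∂(hm E)
      ≤ ∫ g, (q / 2 * ⟪(v : E), (sa g x0 : E)⟫ ^ 2 + 1 / (2 * q)) ∂(hm E) := by
    refine integral_mono (hm_integrable (ht_cont v x0).abs)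
      (((ht_sq_int v x0).const_mul _).add (integrable_const _)) fun g => ?_
    show |⟪(v : E), (sa g x0 : E)⟫| ≤ q / 2 * ⟪(v : E), (sa g x0 : E)⟫ ^ 2 + 1 / (2 * q)
    rw [← sq_abs ⟪(v : E), (sa g x0 : E)⟫]
    set r := |⟪(v : E), (sa g x0 : E)⟫|
    have : 0 ≤ (q * r - 1) ^ 2 / (2 * q) := by positivity
    have e : (q * r - 1) ^ 2 / (2 * q) = q / 2 * r ^ 2 + 1 / (2 * q) - r := by
      field_simp; ring
    linarith
  rw [integral_add ((ht_sq_int v x0).const_mul _) (integrable_const _),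
    integral_const_mul, ht_sq hn, integral_const, probReal_univ, one_smul, ← hq2] at h1
  have e : q / 2 * (1 / q ^ 2) + 1 / (2 * q) = 1 / q := by field_simp; norm_num
  linarith

/-- small intervals have small probability -/
theorem ht_conc {m : ℕ} (hn : Module.finrank ℝ E = m + 2) (v x0 : SS E) {a b : ℝ} (hb : 0 < b)
    (hab : |a| + b ≤ 1 / 2) :
    (hm E).real {g | |⟪(v : E), (sa g x0 : E)⟫ - a| ≤ b} ≤ 5 * b * Real.sqrt (m + 2 : ℝ) := by
  set S : Set (UG E) := {g | |⟪(v : E), (sa g x0 : E)⟫ - a| ≤ b} with hS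
  have hSm : MeasurableSet S :=
    (isClosed_le ((ht_cont v x0).sub continuous_const).abs continuous_const).measurableSet
  set ψ : ℝ → ℝ := fun x => b * Real.arctan ((x - a) / b) with hψ
  have hψc : ContDiff ℝ 1 ψ :=
    contDiff_const.mul (Real.contDiff_arctan.comp ((contDiff_id.sub contDiff_const).div_const b))
  have hψd : ∀ x, deriv ψ x = 1 / (1 + ((x - a) / b) ^ 2) := by
    intro x
    have h1 : HasDerivAt (fun x : ℝ => (x - a) / b) (1 / b) x := ((hasDerivAt_id x).sub_const a).div_const b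
    have h2 := (h1.arctan).const_mul b
    rw [show deriv ψ x = _ from h2.deriv]
    field_simp
  have hst := stein hn hψc v x0
  have hlow := ind_le_int hSm (f := fun g => deriv ψ ⟪(v : E), (sa g x0 : E)⟫
      * (1 - ⟪(v : E), (sa g x0 : E)⟫ ^ 2)) (hm_integrable
      (((hψc.continuous_deriv (by norm_num)).comp (ht_cont v x0)).mul
        (continuous_const.sub ((ht_cont v x0).pow 2)))) (c := 3 / 8) ?_
  · have hup : (m + 1 : ℝ) * ∫ g, ψ ⟪(v : E), (sa g x0 : E)⟫ * ⟪(v : E), (sa g x0 : E)⟫ ∂(hm E)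
        ≤ (m + 1 : ℝ) * (b * (Real.pi / 2) * (1 / Real.sqrt (m + 2 : ℝ))) := by
      refine mul_le_mul_of_nonneg_left ?_ (by positivity)
      have h1 : ∫ g, ψ ⟪(v : E), (sa g x0 : E)⟫ * ⟪(v : E), (sa g x0 : E)⟫ ∂(hm E)
          ≤ ∫ g, b * (Real.pi / 2) * |⟪(v : E), (sa g x0 : E)⟫| ∂(hm E) := by
        refine integral_mono (hm_integrable ((hψc.continuous.comp (ht_cont v x0)).mul
          (ht_cont v x0))) ((hm_integrable (ht_cont v x0).abs).const_mul _) fun g => ?_
        refine (le_abs_self _).trans ?_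
        rw [abs_mul]
        refine mul_le_mul_of_nonneg_right ?_ (abs_nonneg _)
        simp only [hψ]
        rw [abs_mul, abs_of_pos hb]
        refine mul_le_mul_of_nonneg_left ?_ hb.le
        rw [abs_le]
        exact ⟨(Real.neg_pi_div_two_lt_arctan _).le, (Real.arctan_lt_pi_div_two _).le⟩
      rw [integral_const_mul] at h1
      exact h1.trans (mul_le_mul_of_nonneg_left (ht_abs hn v x0) (by positivity))
    rw [hst] at hlow
    set q := Real.sqrt (m + 2 : ℝ) with hq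
    have hq2 : q ^ 2 = m + 2 := Real.sq_sqrt (by positivity)
    have hq0 : 0 < q := Real.sqrt_pos.2 (by positivity)
    have h2 : (m + 1 : ℝ) * (b * (Real.pi / 2) * (1 / q)) ≤ b * (Real.pi / 2) * q := by
      have : (m + 1 : ℝ) * (b * (Real.pi / 2) * (1 / q)) = b * (Real.pi / 2) * ((m + 1) / q) := by
        ring
      rw [this]
      refine mul_le_mul_of_nonneg_left ?_ (by positivity)
      rw [div_le_iff₀ hq0]
      nlinarith
    have h3 : b * (Real.pi / 2) * q ≤ b * (15 / 8) * q := by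
      refine mul_le_mul_of_nonneg_right (mul_le_mul_of_nonneg_left ?_ hb.le) hq0.le
      have := Real.pi_lt_d2
      linarith
    linarith
  · intro g
    by_cases hg : g ∈ S
    · rw [Set.indicator_of_mem hg]
      have hg' : |⟪(v : E), (sa g x0 : E)⟫ - a| ≤ b := hg
      set h := ⟪(v : E), (sa g x0 : E)⟫
      have h1 : |h| ≤ 1 / 2 := by
        have := abs_add_le (h - a) a
        rw [sub_add_cancel] at this
        linarith
      have h2 : h ^ 2 ≤ 1 / 4 := by
        have := abs_le.1 h1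
        nlinarith
      have h3 : ((h - a) / b) ^ 2 ≤ 1 := by
        rw [div_pow, div_le_one (by positivity), ← sq_abs (h - a)]
        exact pow_le_pow_left₀ (abs_nonneg _) hg' 2
      have h4 : 1 / 2 ≤ deriv ψ h := by
        rw [hψd]
        rw [div_le_div_iff₀ (by norm_num) (by positivity)]
        linarith
      nlinarith
    · rw [Set.indicator_of_notMem hg]
      have h1 := abs_ht_le v (sa g x0)
      have h2 := abs_le.1 h1
      refine mul_nonneg ?_ (by nlinarith)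
      rw [hψd]; positivity

/-- small intervals around zero have positive probability -/
theorem ht_center {m : ℕ} (hn : Module.finrank ℝ E = m + 2) (v x0 : SS E) {b : ℝ} (hb : 0 < b) :
    (m + 1) * (b ^ 2 / 2) * (1 - (hm E).real {g | |⟪(v : E), (sa g x0 : E)⟫| ≤ b})
      ≤ (hm E).real {g | |⟪(v : E), (sa g x0 : E)⟫| ≤ b} := by
  set S : Set (UG E) := {g | |⟪(v : E), (sa g x0 : E)⟫| ≤ b} with hS
  have hSm : MeasurableSet S :=
    (isClosed_le (ht_cont v x0).abs continuous_const).measurableSet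
  set ψ : ℝ → ℝ := fun x => b ^ 2 * x / (b ^ 2 + x ^ 2) with hψ
  have hpos : ∀ x : ℝ, 0 < b ^ 2 + x ^ 2 := fun x => by positivity
  have hψc : ContDiff ℝ 1 ψ :=
    (contDiff_const.mul contDiff_id).div (contDiff_const.add (contDiff_id.pow 2))
      (fun x => (hpos x).ne')
  have hψd : ∀ x, deriv ψ x = b ^ 2 * (b ^ 2 - x ^ 2) / (b ^ 2 + x ^ 2) ^ 2 := by
    intro x
    have h1 : HasDerivAt (fun x : ℝ => b ^ 2 * x) (b ^ 2) x := by
      simpa using (hasDerivAt_id x).const_mul (b ^ 2)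
    have h2 : HasDerivAt (fun x : ℝ => b ^ 2 + x ^ 2) (2 * x) x := by
      simpa using ((hasDerivAt_id x).pow 2).const_add (b ^ 2)
    rw [show deriv ψ x = _ from (h1.div h2 (hpos x).ne').deriv]
    congr 1
    ring
  have hst := stein hn hψc v x0
  have hup := int_le_ind hSm (f := fun g => deriv ψ ⟪(v : E), (sa g x0 : E)⟫
      * (1 - ⟪(v : E), (sa g x0 : E)⟫ ^ 2)) (hm_integrable
      (((hψc.continuous_deriv (by norm_num)).comp (ht_cont v x0)).mul
        (continuous_const.sub ((ht_cont v x0).pow 2)))) (c := 1) ?_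
  · have hlow := ind_le_int hSm.compl (f := fun g => ψ ⟪(v : E), (sa g x0 : E)⟫
      * ⟪(v : E), (sa g x0 : E)⟫) (hm_integrable ((hψc.continuous.comp (ht_cont v x0)).mul
      (ht_cont v x0))) (c := b ^ 2 / 2) ?_
    · rw [hst] at hup
      rw [probReal_compl_eq_one_sub hSm] at hlow
      have h1 : (m + 1 : ℝ) * ((1 - (hm E).real S) * (b ^ 2 / 2))
          ≤ (m + 1 : ℝ) * ∫ g, ψ ⟪(v : E), (sa g x0 : E)⟫ * ⟪(v : E), (sa g x0 : E)⟫ ∂(hm E) :=
        mul_le_mul_of_nonneg_left hlow (by positivity)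
      linarith
    · intro g
      by_cases hg : g ∈ Sᶜ
      · rw [Set.indicator_of_mem hg]
        have hg' : b < |⟪(v : E), (sa g x0 : E)⟫| := not_le.1 hg
        set h := ⟪(v : E), (sa g x0 : E)⟫
        have h1 : b ^ 2 ≤ h ^ 2 := by
          rw [← sq_abs h]; exact pow_le_pow_left₀ hb.le hg'.le 2
        simp only [hψ]
        rw [div_mul_eq_mul_div, div_le_div_iff₀ (by norm_num) (hpos h)]
        nlinarith [sq_nonneg b]
      · rw [Set.indicator_of_notMem hg]
        simp only [hψ]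
        set h := ⟪(v : E), (sa g x0 : E)⟫
        have : b ^ 2 * h / (b ^ 2 + h ^ 2) * h = b ^ 2 * h ^ 2 / (b ^ 2 + h ^ 2) := by ring
        rw [this]
        positivity
  · intro g
    by_cases hg : g ∈ S
    · rw [Set.indicator_of_mem hg]
      set h := ⟪(v : E), (sa g x0 : E)⟫
      have h1 : deriv ψ h ≤ 1 := by
        rw [hψd, div_le_one (by have := hpos h; positivity)]
        nlinarith [sq_nonneg h, sq_nonneg b, mul_nonneg (sq_nonneg b) (sq_nonneg h),
          mul_nonneg (sq_nonneg h) (sq_nonneg h)]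
      have h2 : 0 ≤ 1 - h ^ 2 := by
        have := abs_le.1 (abs_ht_le v (sa g x0))
        nlinarith
      have h3 : 1 - h ^ 2 ≤ 1 := by nlinarith [sq_nonneg h]
      nlinarith
    · rw [Set.indicator_of_notMem hg]
      have hg' : b < |⟪(v : E), (sa g x0 : E)⟫| := not_le.1 hg
      set h := ⟪(v : E), (sa g x0 : E)⟫
      have h1 : b ^ 2 ≤ h ^ 2 := by
        rw [← sq_abs h]; exact pow_le_pow_left₀ hb.le hg'.le 2
      have h2 : 0 ≤ 1 - h ^ 2 := by
        have := abs_le.1 (abs_ht_le v (sa g x0))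
        nlinarith
      refine mul_nonpos_of_nonpos_of_nonneg ?_ h2
      rw [hψd]
      apply div_nonpos_of_nonpos_of_nonneg _ (by positivity)
      exact mul_nonpos_of_nonneg_of_nonpos (by positivity) (by linarith)

end Pool.Agent.helper440_simplex
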