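import Pool.Agent.helper440_simplex.Core

set_option autoImplicit false
set_option linter.unusedSectionVars false

namespace Pool.Agent.helper440_simplex

open MeasureTheory Metric Set Filter Topology
open scoped RealInnerProductSpace

/-! # Heights, fibres, composition -/

/-- the base `max 0 (1 - s ^ 2)` -/
noncomputable def bs (s : ℝ) : ℝ := max 0 (1 - s ^ 2)

/-- normalising constant -/
noncomputable def cn (n : ℕ) : ℝ := (∫ s : ℝ, bs s ^ (((n : ℝ) - 3) / 2))⁻¹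

/-- density of the height on the unit sphere of an `n`-dimensional space -/
noncomputable def om (n : ℕ) (s : ℝ) : ℝ := cn n * bs s ^ (((n : ℝ) - 3) / 2)

/-- measure of the cap `b ≤ height` -/
noncomputable def mm (n : ℕ) (b : ℝ) : ℝ := ∫ s in Ici b, om n s

-- om_basic
theorem om_basic_nonneg (s : ℝ) : 0 ≤ bs s := le_max_left _ _

theorem om_basic_le_one (s : ℝ) : bs s ≤ 1 := by
  unfold bs
  exact max_le zero_le_one (by nlinarith [sq_nonneg s])

theorem om_basic_zero {s : ℝ} (hs : 1 ≤ |s|) : bs s = 0 := by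
  unfold bs
  apply max_eq_left
  have : 1 ≤ |s| ^ 2 := by nlinarith
  rw [sq_abs] at this
  linarith

theorem om_basic_pos {s : ℝ} (hs : |s| < 1) : 0 < bs s := by
  unfold bs
  apply lt_max_of_lt_right
  have : |s| ^ 2 < 1 := by nlinarith [abs_nonneg s]
  rw [sq_abs] at this
  linarith

theorem om_basic_mono {s s' : ℝ} (h : |s| ≤ |s'|) : bs s' ≤ bs s := by
  unfold bs
  apply max_le_max le_rfl
  have := sq_le_sq.2 h
  linarith

theorem om_basic_cont : Continuous bs := by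
  unfold bs
  fun_prop

theorem om_basic {n : ℕ} (hn : 4 ≤ n) : 0 < cn n ∧ Continuous (om n) ∧ (∀ s, 0 ≤ om n s) ∧
    (∀ s, 1 ≤ |s| → om n s = 0) ∧ (∀ s, |s| < 1 → 0 < om n s) ∧ (∀ s, om n (-s) = om n s) ∧
    Integrable (om n) ∧ ∫ s, om n s = 1 ∧
    (∀ s s' : ℝ, |s| ≤ |s'| → om n s' ≤ om n s) ∧ (∀ s, om n s ≤ cn n) := by
  have he : 0 < ((n : ℝ) - 3) / 2 := by
    have : (4 : ℝ) ≤ n := by exact_mod_cast hn
    linarith
  have hcont : Continuous (fun s => bs s ^ (((n : ℝ) - 3) / 2)) :=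
    om_basic_cont.rpow_const (fun _ => Or.inr he.le)
  have hnn : ∀ s, 0 ≤ bs s ^ (((n : ℝ) - 3) / 2) := fun s => Real.rpow_nonneg (om_basic_nonneg s) _
  have hz : ∀ s, 1 ≤ |s| → bs s ^ (((n : ℝ) - 3) / 2) = 0 := by
    intro s hs
    rw [om_basic_zero hs, Real.zero_rpow he.ne']
  have hsupp : HasCompactSupport (fun s => bs s ^ (((n : ℝ) - 3) / 2)) := by
    refine HasCompactSupport.intro (isCompact_Icc : IsCompact (Icc (-1 : ℝ) 1)) ?_
    intro s hs
    apply hz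
    by_contra hc
    push Not at hc
    exact hs ⟨(abs_lt.1 hc).1.le, (abs_lt.1 hc).2.le⟩
  have hint : Integrable (fun s => bs s ^ (((n : ℝ) - 3) / 2)) :=
    hcont.integrable_of_hasCompactSupport hsupp
  have hpos : 0 < ∫ s : ℝ, bs s ^ (((n : ℝ) - 3) / 2) := by
    refine hcont.integral_pos_of_hasCompactSupport_nonneg_nonzero hsupp hnn (x := 0) ?_
    exact (Real.rpow_pos_of_pos (om_basic_pos (by simp)) _).ne'
  have hcn : 0 < cn n := inv_pos.2 hpos
  refine ⟨hcn, continuous_const.mul hcont, fun s => mul_nonneg hcn.le (hnn s), ?_, ?_, ?_, ?_, ?_,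
    ?_, ?_⟩
  · intro s hs
    unfold om
    rw [hz s hs, mul_zero]
  · intro s hs
    exact mul_pos hcn (Real.rpow_pos_of_pos (om_basic_pos hs) _)
  · intro s
    unfold om bs
    rw [neg_sq]
  · exact hint.const_mul _
  · unfold om
    rw [integral_const_mul]
    exact inv_mul_cancel₀ hpos.ne'
  · intro s s' h
    exact mul_le_mul_of_nonneg_left
      (Real.rpow_le_rpow (om_basic_nonneg s') (om_basic_mono h) he.le) hcn.le
  · intro s
    have h1 : bs s ^ (((n : ℝ) - 3) / 2) ≤ 1 :=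
      Real.rpow_le_one (om_basic_nonneg s) (om_basic_le_one s) he.le
    exact mul_le_of_le_one_right hcn.le h1

-- cn_bounds
theorem cn_bounds_pow {n : ℕ} (hn : 4 ≤ n) :
    (1 : ℝ) / 2 ≤ (1 - 1 / (n : ℝ)) ^ (((n : ℝ) - 3) / 2) := by
  have hn4 : (4 : ℝ) ≤ n := by exact_mod_cast hn
  have hpos : (0 : ℝ) < n := by linarith
  have h1 : 1 / (n : ℝ) ≤ 1 / 4 := one_div_le_one_div_of_le (by norm_num) hn4
  have h0 : 0 < 1 / (n : ℝ) := by positivity
  by_cases hk : ((n : ℝ) - 3) / 2 ≤ 1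
  · have h2 := Real.rpow_le_rpow_of_exponent_ge (x := 1 - 1 / (n : ℝ)) (by linarith) (by linarith) hk
    rw [Real.rpow_one] at h2
    linarith
  · push Not at hk
    have h2 := one_add_mul_self_le_rpow_one_add (s := -(1 / (n : ℝ))) (by linarith) hk.le
    have h3 : 1 + ((n : ℝ) - 3) / 2 * (-(1 / (n : ℝ))) = 1 / 2 + 3 / (2 * n) := by
      field_simp
      ring
    rw [h3] at h2
    have h4 : 0 < 3 / (2 * (n : ℝ)) := by positivity
    have h5 : (1 : ℝ) + -(1 / (n : ℝ)) = 1 - 1 / (n : ℝ) := by ring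
    rw [h5] at h2
    linarith

theorem cn_bounds_le (k : ℝ) (hk : 0 < k) (s : ℝ) : bs s ^ k ≤ Real.exp (-k * s ^ 2) := by
  have h1 : bs s ≤ Real.exp (-s ^ 2) := by
    refine max_le (Real.exp_pos _).le ?_
    have := Real.add_one_le_exp (-s ^ 2)
    linarith
  have h0 : 0 ≤ bs s := le_max_left _ _
  refine (Real.rpow_le_rpow h0 h1 hk.le).trans (le_of_eq ?_)
  rw [← Real.exp_mul]
  congr 1
  ring

theorem cn_bounds_int (k : ℝ) (hk : 0 < k) : Integrable (fun s : ℝ => bs s ^ k) := by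
  refine (integrable_exp_neg_mul_sq hk).mono' ?_ (Eventually.of_forall (fun s => ?_))
  · have h1 : Measurable (fun s : ℝ => bs s ^ k) := by
      unfold bs
      fun_prop
    exact h1.aestronglyMeasurable
  · have h0 : 0 ≤ bs s := le_max_left _ _
    rw [Real.norm_of_nonneg (Real.rpow_nonneg h0 _)]
    exact cn_bounds_le k hk s

theorem cn_bounds_upper {n : ℕ} (hn : 4 ≤ n) :
    ∫ s : ℝ, bs s ^ (((n : ℝ) - 3) / 2) ≤ 10 / Real.sqrt n := by
  have hn4 : (4 : ℝ) ≤ n := by exact_mod_cast hn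
  have hk : 0 < ((n : ℝ) - 3) / 2 := by linarith
  have h1 : ∫ s : ℝ, bs s ^ (((n : ℝ) - 3) / 2) ≤ ∫ s : ℝ, Real.exp (-(((n : ℝ) - 3) / 2) * s ^ 2) :=
    integral_mono (cn_bounds_int _ hk) (integrable_exp_neg_mul_sq hk) (fun s => cn_bounds_le _ hk s)
  rw [integral_gaussian] at h1
  refine h1.trans ?_
  have h2 : Real.pi / (((n : ℝ) - 3) / 2) ≤ (10 / Real.sqrt n) ^ 2 := by
    rw [div_pow, Real.sq_sqrt (by linarith), div_le_div_iff₀ hk (by linarith)]
    nlinarith [Real.pi_lt_four, Real.pi_pos]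
  calc Real.sqrt (Real.pi / (((n : ℝ) - 3) / 2)) ≤ Real.sqrt ((10 / Real.sqrt n) ^ 2) :=
        Real.sqrt_le_sqrt h2
    _ = 10 / Real.sqrt n := Real.sqrt_sq (by positivity)

theorem cn_bounds_lower {n : ℕ} (hn : 4 ≤ n) :
    1 / Real.sqrt n ≤ ∫ s : ℝ, bs s ^ (((n : ℝ) - 3) / 2) := by
  have hn4 : (4 : ℝ) ≤ n := by exact_mod_cast hn
  have hnpos : (0 : ℝ) < n := by linarith
  have hk : 0 < ((n : ℝ) - 3) / 2 := by linarith
  have hsq : 0 < Real.sqrt n := Real.sqrt_pos.2 hnpos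
  have hr : 0 < 1 / Real.sqrt n := by positivity
  have h1 : ∫ s in Icc (-(1 / Real.sqrt n)) (1 / Real.sqrt n), bs s ^ (((n : ℝ) - 3) / 2) ≤
      ∫ s : ℝ, bs s ^ (((n : ℝ) - 3) / 2) :=
    setIntegral_le_integral (cn_bounds_int _ hk)
      (Eventually.of_forall (fun s => Real.rpow_nonneg (le_max_left _ _) _))
  refine le_trans ?_ h1
  have h2 : ∫ _s in Icc (-(1 / Real.sqrt n)) (1 / Real.sqrt n), (1 / 2 : ℝ) ≤
      ∫ s in Icc (-(1 / Real.sqrt n)) (1 / Real.sqrt n), bs s ^ (((n : ℝ) - 3) / 2) := by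
    refine setIntegral_mono_on (by simp) (cn_bounds_int _ hk).integrableOn measurableSet_Icc ?_
    intro s hs
    have h3 : s ^ 2 ≤ 1 / (n : ℝ) := by
      have h4 : |s| ≤ 1 / Real.sqrt n := abs_le.2 ⟨by linarith [hs.1], hs.2⟩
      have h5 : |s| ^ 2 ≤ (1 / Real.sqrt n) ^ 2 := pow_le_pow_left₀ (abs_nonneg s) h4 2
      rw [sq_abs, div_pow, one_pow, Real.sq_sqrt hnpos.le] at h5
      exact h5
    have h6 : 1 - 1 / (n : ℝ) ≤ bs s := (by linarith : 1 - 1 / (n : ℝ) ≤ 1 - s ^ 2).trans (le_max_right _ _)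
    have h7 : 0 ≤ 1 - 1 / (n : ℝ) := by
      have : 1 / (n : ℝ) ≤ 1 / 4 := one_div_le_one_div_of_le (by norm_num) hn4
      linarith
    exact (cn_bounds_pow hn).trans (Real.rpow_le_rpow h7 h6 hk.le)
  refine le_trans (le_of_eq ?_) h2
  rw [setIntegral_const, measureReal_def, Real.volume_Icc, ENNReal.toReal_ofReal (by linarith), smul_eq_mul]
  ring

theorem cn_bounds {n : ℕ} (hn : 4 ≤ n) : Real.sqrt n / 10 ≤ cn n ∧ cn n ≤ Real.sqrt n := by
  have hn4 : (4 : ℝ) ≤ n := by exact_mod_cast hn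
  have hnpos : (0 : ℝ) < n := by linarith
  have hsq : 0 < Real.sqrt n := Real.sqrt_pos.2 hnpos
  have h1 := cn_bounds_lower hn
  have h2 := cn_bounds_upper hn
  have hpos : 0 < ∫ s : ℝ, bs s ^ (((n : ℝ) - 3) / 2) := lt_of_lt_of_le (by positivity) h1
  unfold cn
  constructor
  · have h3 := inv_anti₀ hpos h2
    rw [inv_div] at h3
    exact h3
  · have h3 := inv_anti₀ (by positivity : 0 < 1 / Real.sqrt n) h1
    rw [one_div, inv_inv] at h3
    exact h3

-- om_window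
theorem om_window {R : ℝ} (hR : 0 ≤ R) : ∃ n0 : ℕ, 4 ≤ n0 ∧ ∀ n : ℕ, n0 ≤ n → ∀ s : ℝ,
    |s| ≤ R / Real.sqrt n → Real.sqrt n * (Real.exp (-R ^ 2) / 10) ≤ om n s := by
  refine ⟨max 4 (⌈2 * R ^ 2⌉₊), le_max_left _ _, fun n hn s hs => ?_⟩
  have hn4 : 4 ≤ n := le_trans (le_max_left _ _) hn
  have hn2 : 2 * R ^ 2 ≤ (n : ℝ) :=
    (Nat.le_ceil _).trans (by exact_mod_cast le_trans (le_max_right _ _) hn)
  have hnr : (4 : ℝ) ≤ n := by exact_mod_cast hn4
  have hn0 : (0 : ℝ) < n := by linarith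
  obtain ⟨hc1, -⟩ := cn_bounds hn4
  set x : ℝ := R ^ 2 / n with hx
  have hx0 : 0 ≤ x := by positivity
  have hx1 : x ≤ 1 / 2 := by
    rw [hx, div_le_iff₀ hn0]; linarith
  have hxn : x * n = R ^ 2 := by rw [hx]; field_simp
  have hs2 : s ^ 2 ≤ x := by
    have h1 : s ^ 2 ≤ (R / Real.sqrt n) ^ 2 := by
      rw [← sq_abs s]
      exact pow_le_pow_left₀ (abs_nonneg s) hs 2
    rwa [div_pow, Real.sq_sqrt hn0.le] at h1
  have hE : Real.exp (-(2 * x)) ≤ bs s := by
    have h2 : 1 - x ≤ bs s := le_trans (by linarith) (le_max_right _ _)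
    refine le_trans ?_ h2
    rw [Real.exp_neg, inv_le_comm₀ (Real.exp_pos _) (by linarith)]
    have h3 : 2 * x + 1 ≤ Real.exp (2 * x) := Real.add_one_le_exp _
    refine le_trans ?_ h3
    rw [inv_eq_one_div, div_le_iff₀ (by linarith)]
    nlinarith
  have hp : Real.exp (-R ^ 2) ≤ bs s ^ (((n : ℝ) - 3) / 2) := by
    have h4 : Real.exp (-(2 * x)) ^ (((n : ℝ) - 3) / 2) ≤ bs s ^ (((n : ℝ) - 3) / 2) :=
      Real.rpow_le_rpow (Real.exp_pos _).le hE (by linarith)
    refine le_trans ?_ h4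
    rw [← Real.exp_mul]
    apply Real.exp_le_exp.mpr
    nlinarith
  unfold om
  calc Real.sqrt n * (Real.exp (-R ^ 2) / 10) = (Real.sqrt n / 10) * Real.exp (-R ^ 2) := by ring
    _ ≤ cn n * bs s ^ (((n : ℝ) - 3) / 2) :=
        mul_le_mul hc1 hp (Real.exp_pos _).le (le_trans (by positivity) hc1)

-- om_lip
theorem om_lip_aux {R : ℝ} (hR : 0 ≤ R) {n : ℕ} (hn : 5 ≤ n) (hRn : R / Real.sqrt n < 1) (s s' : ℝ)
    (hs : |s| ≤ R / Real.sqrt n) (hs' : |s'| ≤ R / Real.sqrt n) :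
    |bs s ^ (((n : ℝ) - 3) / 2) - bs s' ^ (((n : ℝ) - 3) / 2)| ≤ R * Real.sqrt n * |s - s'| := by
  have hn0 : (0 : ℝ) < n := by
    have : 0 < n := by omega
    exact_mod_cast this
  have hn5 : (5 : ℝ) ≤ n := by exact_mod_cast hn
  have hsq : 0 < Real.sqrt n := Real.sqrt_pos.2 hn0
  set b := R / Real.sqrt n with hb
  have hpos : ∀ x ∈ Icc (-b) b, 0 < 1 - x ^ 2 := by
    intro x hx
    have h1 : |x| ≤ b := abs_le.2 hx
    have h2 : |x| < 1 := h1.trans_lt hRn
    have h3 : x ^ 2 < 1 := by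
      rw [← sq_abs]
      nlinarith [abs_nonneg x]
    linarith
  have hbs : ∀ x ∈ Icc (-b) b, bs x = 1 - x ^ 2 := by
    intro x hx
    unfold bs
    exact max_eq_right (hpos x hx).le
  have hd : ∀ x ∈ Icc (-b) b, HasDerivWithinAt (fun x : ℝ => (1 - x ^ 2) ^ (((n : ℝ) - 3) / 2))
      ((-(2 * x)) * (((n : ℝ) - 3) / 2) * (1 - x ^ 2) ^ (((n : ℝ) - 3) / 2 - 1)) (Icc (-b) b) x := by
    intro x hx
    have h1 : HasDerivAt (fun x : ℝ => 1 - x ^ 2) (-(2 * x)) x := by
      have := (hasDerivAt_pow 2 x).const_sub 1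
      simpa using this
    exact (h1.rpow_const (Or.inl (hpos x hx).ne')).hasDerivWithinAt
  have hbd : ∀ x ∈ Icc (-b) b,
      ‖(-(2 * x)) * (((n : ℝ) - 3) / 2) * (1 - x ^ 2) ^ (((n : ℝ) - 3) / 2 - 1)‖ ≤
        R * Real.sqrt n := by
    intro x hx
    have h0 := hpos x hx
    have h1 : |x| ≤ b := abs_le.2 hx
    have h2 : (1 - x ^ 2) ^ (((n : ℝ) - 3) / 2 - 1) ≤ 1 :=
      Real.rpow_le_one h0.le (by nlinarith [sq_nonneg x]) (by linarith)
    have h3 : 0 ≤ (1 - x ^ 2) ^ (((n : ℝ) - 3) / 2 - 1) := Real.rpow_nonneg h0.le _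
    rw [norm_mul, norm_mul, norm_neg, norm_mul, Real.norm_eq_abs, Real.norm_eq_abs,
      Real.norm_eq_abs, Real.norm_of_nonneg h3, abs_of_nonneg (by norm_num : (0:ℝ) ≤ 2),
      abs_of_nonneg (by linarith : (0:ℝ) ≤ ((n : ℝ) - 3) / 2)]
    have h4 : 2 * |x| * (((n : ℝ) - 3) / 2) ≤ b * n := by
      have h5 : 2 * |x| * (((n : ℝ) - 3) / 2) = |x| * ((n : ℝ) - 3) := by ring
      rw [h5]
      exact mul_le_mul h1 (by linarith) (by linarith) (by positivity)
    have h6 : b * n = R * Real.sqrt n := by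
      have h7 : Real.sqrt n * Real.sqrt n = n := Real.mul_self_sqrt hn0.le
      rw [hb, div_mul_eq_mul_div, div_eq_iff hsq.ne']
      rw [mul_assoc, h7]
    calc 2 * |x| * (((n : ℝ) - 3) / 2) * (1 - x ^ 2) ^ (((n : ℝ) - 3) / 2 - 1)
        ≤ (b * n) * 1 := mul_le_mul h4 h2 h3 (by positivity)
      _ = R * Real.sqrt n := by rw [mul_one, h6]
  have hsm : s ∈ Icc (-b) b := abs_le.1 hs
  have hsm' : s' ∈ Icc (-b) b := abs_le.1 hs'
  have key := (convex_Icc (-b) b).norm_image_sub_le_of_norm_hasDerivWithin_le hd hbd hsm' hsm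
  rw [hbs s hsm, hbs s' hsm']
  simpa [Real.norm_eq_abs] using key

theorem om_lip {R : ℝ} (hR : 0 ≤ R) : ∃ n0 : ℕ, 4 ≤ n0 ∧ ∀ n : ℕ, n0 ≤ n → ∀ s s' : ℝ,
    |s| ≤ R / Real.sqrt n → |s'| ≤ R / Real.sqrt n → |om n s - om n s'| ≤ R * n * |s - s'| := by
  refine ⟨⌈R ^ 2⌉₊ + 5, by omega, fun n hn s s' hs hs' => ?_⟩
  have hn5 : 5 ≤ n := by omega
  have hn0 : (0 : ℝ) < n := by
    have : 0 < n := by omega
    exact_mod_cast this
  have hR2 : R ^ 2 < n := by
    have h1 : R ^ 2 ≤ (⌈R ^ 2⌉₊ : ℝ) := Nat.le_ceil _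
    have h2 : ((⌈R ^ 2⌉₊ : ℕ) : ℝ) < n := by exact_mod_cast (by omega : ⌈R ^ 2⌉₊ < n)
    linarith
  have hsq : 0 < Real.sqrt n := Real.sqrt_pos.2 hn0
  have hRn : R / Real.sqrt n < 1 := by
    rw [div_lt_one hsq]
    exact Real.lt_sqrt_of_sq_lt hR2
  have h1 := om_lip_aux hR hn5 hRn s s' hs hs'
  have h2 := (cn_bounds (show 4 ≤ n by omega)).2
  have h3 := (om_basic (show 4 ≤ n by omega)).1
  unfold om
  rw [← mul_sub, abs_mul, abs_of_pos h3]
  have h7 : Real.sqrt n * Real.sqrt n = n := Real.mul_self_sqrt hn0.le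
  calc cn n * |bs s ^ (((n : ℝ) - 3) / 2) - bs s' ^ (((n : ℝ) - 3) / 2)|
      ≤ Real.sqrt n * (R * Real.sqrt n * |s - s'|) :=
        mul_le_mul h2 h1 (abs_nonneg _) hsq.le
    _ = R * (Real.sqrt n * Real.sqrt n) * |s - s'| := by ring
    _ = R * n * |s - s'| := by rw [h7]

section Height
variable {E : Type*} [NormedAddCommGroup E] [InnerProductSpace ℝ E] [CompleteSpace E]
  [FiniteDimensional ℝ E] [MeasurableSpace E] [BorelSpace E]

-- sm_stein
theorem sm_stein_rot {m : ℕ} (hn : Module.finrank ℝ E = m + 2) (v u : E) (hv : ‖v‖ = 1)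
    (hu : ‖u‖ = 1) (hvu : inner ℝ v u = 0) (θ : ℝ) :
    ∃ g : UG E, ∀ x : E, ⟪v, av g x⟫ = Real.cos θ * ⟪v, x⟫ + Real.sin θ * ⟪u, x⟫ ∧
      ⟪u, av g x⟫ = -Real.sin θ * ⟪v, x⟫ + Real.cos θ * ⟪u, x⟫ := by
  have hvv : ⟪v, v⟫ = 1 := by rw [real_inner_self_eq_norm_sq, hv, one_pow]
  have huu : ⟪u, u⟫ = 1 := by rw [real_inner_self_eq_norm_sq, hu, one_pow]
  have huv : ⟪u, v⟫ = 0 := by rw [real_inner_comm]; exact hvu
  have hcs := Real.cos_sq_add_sin_sq θ
  have h1 : ‖Real.cos θ • v + Real.sin θ • u‖ = 1 := by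
    have h2 : ‖Real.cos θ • v + Real.sin θ • u‖ ^ 2 = 1 := by
      rw [← real_inner_self_eq_norm_sq]
      simp only [inner_add_left, inner_add_right, real_inner_smul_left, real_inner_smul_right,
        hvv, huu, huv, hvu]
      linarith
    nlinarith [norm_nonneg (Real.cos θ • v + Real.sin θ • u)]
  have h1' : ‖-Real.sin θ • v + Real.cos θ • u‖ = 1 := by
    have h2 : ‖-Real.sin θ • v + Real.cos θ • u‖ ^ 2 = 1 := by
      rw [← real_inner_self_eq_norm_sq]
      simp only [inner_add_left, inner_add_right, real_inner_smul_left, real_inner_smul_right,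
        hvv, huu, huv, hvu]
      linarith
    nlinarith [norm_nonneg (-Real.sin θ • v + Real.cos θ • u)]
  have h3 : inner ℝ (Real.cos θ • v + Real.sin θ • u) (-Real.sin θ • v + Real.cos θ • u) = 0 := by
    simp only [inner_add_left, inner_add_right, real_inner_smul_left, real_inner_smul_right,
      hvv, huu, huv, hvu]
    ring
  obtain ⟨b, hb0, hb1⟩ := exists_onb2 hn v u hv hu hvu
  obtain ⟨c, hc0, hc1⟩ := exists_onb2 hn _ _ h1 h1' h3
  obtain ⟨g, hg⟩ := exists_UG c b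
  have hg0 := hg 0
  have hg1 := hg 1
  rw [hb0, hc0] at hg0
  rw [hb1, hc1] at hg1
  refine ⟨g, fun x => ⟨?_, ?_⟩⟩
  · conv_lhs => rw [← hg0]
    rw [av_inner, inner_add_left, real_inner_smul_left, real_inner_smul_left]
  · conv_lhs => rw [← hg1]
    rw [av_inner, inner_add_left, real_inner_smul_left, real_inner_smul_left]

theorem sm_stein_cont (v : E) : Continuous fun x : SS E => ⟪v, (x : E)⟫ :=
  continuous_const.inner continuous_subtype_val

theorem sm_stein_int (hn : 1 ≤ Module.finrank ℝ E) {f : SS E → ℝ} (hf : Continuous f) :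
    Integrable f (sm E) := by
  have := sm_prob hn
  exact hf.integrable_of_hasCompactSupport (HasCompactSupport.of_compactSpace _)

theorem sm_stein_const {m : ℕ} (hn : Module.finrank ℝ E = m + 2) (v u : E) (hv : ‖v‖ = 1)
    (hu : ‖u‖ = 1) (hvu : inner ℝ v u = 0) (k : ℕ) (θ : ℝ) :
    ∫ x : SS E, (Real.cos θ * ⟪v, (x : E)⟫ + Real.sin θ * ⟪u, (x : E)⟫) ^ (k + 1) *
      (-Real.sin θ * ⟪v, (x : E)⟫ + Real.cos θ * ⟪u, (x : E)⟫) ∂(sm E) =
    ∫ x : SS E, ⟪v, (x : E)⟫ ^ (k + 1) * ⟪u, (x : E)⟫ ∂(sm E) := by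
  obtain ⟨g, hg⟩ := sm_stein_rot hn v u hv hu hvu θ
  have h1 := sm_inv (E := E) g
  have hc : Continuous fun x : SS E => ⟪v, (x : E)⟫ ^ (k + 1) * ⟪u, (x : E)⟫ :=
    ((sm_stein_cont v).pow _).mul (sm_stein_cont u)
  have h2 := integral_map (μ := sm E) h1.measurable.aemeasurable
    (f := fun x : SS E => ⟪v, (x : E)⟫ ^ (k + 1) * ⟪u, (x : E)⟫)
    hc.measurable.aestronglyMeasurable
  rw [h1.map_eq] at h2
  rw [h2]
  refine integral_congr_ae (Eventually.of_forall fun x => ?_)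
  show _ = ⟪v, (sa g x : E)⟫ ^ (k + 1) * ⟪u, (sa g x : E)⟫
  rw [sa_coe, (hg x).1, (hg x).2]

theorem sm_stein_abs (v : E) (hv : ‖v‖ = 1) (x : SS E) : |⟪v, (x : E)⟫| ≤ 1 := by
  have h := abs_real_inner_le_norm v (x : E)
  rw [hv, norm_eq_of_mem_sphere x, one_mul] at h
  exact h

theorem sm_stein_one {m : ℕ} (hn : Module.finrank ℝ E = m + 2) (v u : E) (hv : ‖v‖ = 1)
    (hu : ‖u‖ = 1) (hvu : inner ℝ v u = 0) (k : ℕ) :
    ∫ x : SS E, ⟪v, (x : E)⟫ ^ (k + 2) ∂(sm E) =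
      (k + 1) * ∫ x : SS E, ⟪u, (x : E)⟫ ^ 2 * ⟪v, (x : E)⟫ ^ k ∂(sm E) := by
  have hn1 : 1 ≤ Module.finrank ℝ E := by omega
  have hprob := sm_prob hn1
  let F : ℝ → SS E → ℝ := fun θ x =>
    (Real.cos θ * ⟪v, (x : E)⟫ + Real.sin θ * ⟪u, (x : E)⟫) ^ (k + 1) *
      (-Real.sin θ * ⟪v, (x : E)⟫ + Real.cos θ * ⟪u, (x : E)⟫)
  let F' : ℝ → SS E → ℝ := fun θ x =>
    ((k + 1 : ℕ) * (Real.cos θ * ⟪v, (x : E)⟫ + Real.sin θ * ⟪u, (x : E)⟫) ^ k *
      (-Real.sin θ * ⟪v, (x : E)⟫ + Real.cos θ * ⟪u, (x : E)⟫)) *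
      (-Real.sin θ * ⟪v, (x : E)⟫ + Real.cos θ * ⟪u, (x : E)⟫) +
    (Real.cos θ * ⟪v, (x : E)⟫ + Real.sin θ * ⟪u, (x : E)⟫) ^ (k + 1) *
      (-Real.cos θ * ⟪v, (x : E)⟫ + -Real.sin θ * ⟪u, (x : E)⟫)
  have hcv := sm_stein_cont (E := E) v
  have hcu := sm_stein_cont (E := E) u
  have hF : ∀ θ, Continuous (F θ) := fun θ =>
    (((hcv.const_mul _).add (hcu.const_mul _)).pow _).mul
      ((hcv.const_mul _).add (hcu.const_mul _))
  have hF' : ∀ θ, Continuous (F' θ) := fun θ =>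
    ((((((hcv.const_mul _).add (hcu.const_mul _)).pow _).const_mul _).mul
      ((hcv.const_mul _).add (hcu.const_mul _))).mul ((hcv.const_mul _).add (hcu.const_mul _))).add
      ((((hcv.const_mul _).add (hcu.const_mul _)).pow _).mul
      ((hcv.const_mul _).add (hcu.const_mul _)))
  have hd : ∀ (x : SS E) (θ : ℝ), HasDerivAt (fun θ => F θ x) (F' θ x) θ := by
    intro x θ
    have h1 : HasDerivAt (fun θ => Real.cos θ * ⟪v, (x : E)⟫ + Real.sin θ * ⟪u, (x : E)⟫)
        (-Real.sin θ * ⟪v, (x : E)⟫ + Real.cos θ * ⟪u, (x : E)⟫) θ :=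
      ((Real.hasDerivAt_cos θ).mul_const _).add ((Real.hasDerivAt_sin θ).mul_const _)
    have h2 : HasDerivAt (fun θ => -Real.sin θ * ⟪v, (x : E)⟫ + Real.cos θ * ⟪u, (x : E)⟫)
        (-Real.cos θ * ⟪v, (x : E)⟫ + -Real.sin θ * ⟪u, (x : E)⟫) θ :=
      ((Real.hasDerivAt_sin θ).neg.mul_const _).add ((Real.hasDerivAt_cos θ).mul_const _)
    exact (h1.pow (k + 1)).mul h2
  have hb2 : ∀ (p q : ℝ) (x : SS E), |p| ≤ 1 → |q| ≤ 1 →
      |p * ⟪v, (x : E)⟫ + q * ⟪u, (x : E)⟫| ≤ 2 := by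
    intro p q x hp hq
    have h1 := sm_stein_abs v hv x
    have h2 := sm_stein_abs u hu x
    have h3 : |p * ⟪v, (x : E)⟫| ≤ 1 := by
      rw [abs_mul]
      exact mul_le_one₀ hp (abs_nonneg _) h1
    have h4 : |q * ⟪u, (x : E)⟫| ≤ 1 := by
      rw [abs_mul]
      exact mul_le_one₀ hq (abs_nonneg _) h2
    exact (abs_add_le _ _).trans (by linarith)
  have hbound : ∀ (x : SS E) (θ : ℝ), ‖F' θ x‖ ≤ (k + 1 : ℕ) * 2 ^ k * 2 * 2 + 2 ^ (k + 1) * 2 := by
    intro x θ
    have hc := Real.abs_cos_le_one θ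
    have hs := Real.abs_sin_le_one θ
    have hs' : |-Real.sin θ| ≤ 1 := by rwa [abs_neg]
    have hc' : |-Real.cos θ| ≤ 1 := by rwa [abs_neg]
    have b1 := hb2 _ _ x hc hs
    have b2 := hb2 _ _ x hs' hc
    have b3 := hb2 _ _ x hc' hs'
    refine (norm_add_le _ _).trans (add_le_add ?_ ?_)
    · rw [Real.norm_eq_abs, abs_mul, abs_mul, abs_mul, abs_pow, Nat.abs_cast]
      gcongr
    · rw [Real.norm_eq_abs, abs_mul, abs_pow]
      gcongr
  have hder := (hasDerivAt_integral_of_dominated_loc_of_deriv_le (μ := sm E) (F := F) (F' := F')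
    (x₀ := (0 : ℝ)) (s := Set.univ)
    (bound := fun _ => (k + 1 : ℕ) * 2 ^ k * 2 * 2 + 2 ^ (k + 1) * 2) Filter.univ_mem
    (Eventually.of_forall fun θ => (hF θ).measurable.aestronglyMeasurable)
    (sm_stein_int hn1 (hF 0)) (hF' 0).measurable.aestronglyMeasurable
    (Eventually.of_forall fun x θ _ => hbound x θ) (integrable_const _)
    (Eventually.of_forall fun x θ _ => hd x θ)).2
  have hconst : (fun θ => ∫ x, F θ x ∂(sm E)) = fun _ =>
      ∫ x : SS E, ⟪v, (x : E)⟫ ^ (k + 1) * ⟪u, (x : E)⟫ ∂(sm E) := by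
    funext θ
    exact sm_stein_const hn v u hv hu hvu k θ
  rw [hconst] at hder
  have h0 := hder.unique (hasDerivAt_const (0 : ℝ)
    (∫ x : SS E, ⟪v, (x : E)⟫ ^ (k + 1) * ⟪u, (x : E)⟫ ∂(sm E)))
  have h1 : ∀ x : SS E, F' 0 x = (k + 1) * (⟪u, (x : E)⟫ ^ 2 * ⟪v, (x : E)⟫ ^ k) -
      ⟪v, (x : E)⟫ ^ (k + 2) := by
    intro x
    simp only [F', Real.cos_zero, Real.sin_zero]
    push_cast
    ring
  simp only [h1] at h0
  rw [integral_sub, integral_const_mul] at h0
  · linarith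
  · exact sm_stein_int hn1 (((hcu.pow 2).mul (hcv.pow k)).const_mul _)
  · exact sm_stein_int hn1 (hcv.pow _)

theorem sm_stein {n : ℕ} (hn : Module.finrank ℝ E = n) (h2 : 2 ≤ n) (v : SS E) (k : ℕ) :
    ((n : ℝ) - 1) * ∫ x, ⟪(v : E), (x : E)⟫ ^ (k + 2) ∂(sm E)
      = (k + 1) * ∫ x, (1 - ⟪(v : E), (x : E)⟫ ^ 2) * ⟪(v : E), (x : E)⟫ ^ k ∂(sm E) := by
  obtain ⟨m, rfl⟩ : ∃ m, n = m + 2 := ⟨n - 2, by omega⟩
  have hv : ‖(v : E)‖ = 1 := norm_eq_of_mem_sphere v
  have hn1 : 1 ≤ Module.finrank ℝ E := by omega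
  obtain ⟨b, hb⟩ := exists_onb1 (n := m + 1) hn (v : E) hv
  have h1 : ∀ i : Fin (m + 1), ∫ x : SS E, ⟪(v : E), (x : E)⟫ ^ (k + 2) ∂(sm E) =
      (k + 1) * ∫ x : SS E, ⟪b i.succ, (x : E)⟫ ^ 2 * ⟪(v : E), (x : E)⟫ ^ k ∂(sm E) := by
    intro i
    refine sm_stein_one hn (v : E) (b i.succ) hv (b.orthonormal.1 _) ?_ k
    rw [← hb]
    exact b.orthonormal.2 (Fin.succ_ne_zero i).symm
  have hsum : ∀ x : SS E, ∑ i : Fin (m + 1), ⟪b i.succ, (x : E)⟫ ^ 2 =
      1 - ⟪(v : E), (x : E)⟫ ^ 2 := by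
    intro x
    have h2 := b.sum_sq_inner_right (x : E)
    rw [norm_eq_of_mem_sphere x, Fin.sum_univ_succ, hb] at h2
    linarith
  have h3 : ∫ x : SS E, (1 - ⟪(v : E), (x : E)⟫ ^ 2) * ⟪(v : E), (x : E)⟫ ^ k ∂(sm E) =
      ∑ i : Fin (m + 1), ∫ x : SS E, ⟪b i.succ, (x : E)⟫ ^ 2 * ⟪(v : E), (x : E)⟫ ^ k ∂(sm E) := by
    rw [← integral_finsetSum]
    · refine integral_congr_ae (Eventually.of_forall fun x => ?_)
      show (1 - ⟪(v : E), (x : E)⟫ ^ 2) * ⟪(v : E), (x : E)⟫ ^ k = _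
      rw [← hsum x, Finset.sum_mul]
    · intro i _
      exact sm_stein_int hn1 (((sm_stein_cont _).pow 2).mul ((sm_stein_cont _).pow k))
  rw [h3, Finset.mul_sum, ← Finset.sum_congr rfl (fun i _ => h1 i), Finset.sum_const,
    Finset.card_univ, Fintype.card_fin, nsmul_eq_mul]
  push_cast
  ring

-- sm_height

theorem sm_height_inner_le (v x : SS E) : |⟪(v : E), (x : E)⟫| ≤ 1 := by
  have h := abs_real_inner_le_norm (v : E) (x : E)
  rwa [norm_eq_of_mem_sphere v, norm_eq_of_mem_sphere x, mul_one] at h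

theorem sm_height_cont (v : SS E) : Continuous (fun x : SS E => ⟪(v : E), (x : E)⟫) :=
  continuous_const.inner continuous_subtype_val

theorem sm_height_odd (v : SS E) (k : ℕ) (hk : Odd k) :
    ∫ x, ⟪(v : E), (x : E)⟫ ^ k ∂(sm E) = 0 := by
  obtain ⟨g, hg⟩ : ∃ g : UG E, ∀ x : E, av g x = -x :=
    ⟨⟨-1, by rw [Unitary.mem_iff]; constructor <;> simp⟩, fun x => by
      show (-1 : E →L[ℝ] E) x = -x
      simp⟩
  have hc : Continuous (fun x : SS E => ⟪(v : E), (x : E)⟫ ^ k) := (sm_height_cont v).pow k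
  have h1 : ∫ x, ⟪(v : E), (x : E)⟫ ^ k ∂(sm E)
      = ∫ x, ⟪(v : E), ((sa g x : SS E) : E)⟫ ^ k ∂(sm E) := by
    conv_lhs => rw [← (sm_inv g).map_eq]
    rw [integral_map (sm_inv g).measurable.aemeasurable hc.aestronglyMeasurable]
  have h2 : ∀ x : SS E, ⟪(v : E), ((sa g x : SS E) : E)⟫ ^ k = - ⟪(v : E), (x : E)⟫ ^ k := by
    intro x
    rw [sa_coe, hg, inner_neg_right, hk.neg_pow]
  simp only [h2] at h1
  rw [integral_neg] at h1
  linarith

theorem sm_height_int {n : ℕ} (hn : Module.finrank ℝ E = n) (h4 : 4 ≤ n) (v : SS E) (k : ℕ) :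
    Integrable (fun x : SS E => ⟪(v : E), (x : E)⟫ ^ k) (sm E) := by
  have hP : IsProbabilityMeasure (sm E) := sm_prob (by omega)
  refine (integrable_const (1 : ℝ)).mono' ((sm_height_cont v).pow k).aestronglyMeasurable
    (Filter.Eventually.of_forall fun x => ?_)
  rw [Real.norm_eq_abs, abs_pow]
  exact pow_le_one₀ (abs_nonneg _) (sm_height_inner_le v x)

theorem sm_height_rec {n : ℕ} (hn : Module.finrank ℝ E = n) (h4 : 4 ≤ n) (v : SS E) (k : ℕ) :
    ((n : ℝ) + k) * ∫ x, ⟪(v : E), (x : E)⟫ ^ (k + 2) ∂(sm E)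
      = (k + 1) * ∫ x, ⟪(v : E), (x : E)⟫ ^ k ∂(sm E) := by
  have h := sm_stein hn (by omega) v k
  have h2 : ∫ x, (1 - ⟪(v : E), (x : E)⟫ ^ 2) * ⟪(v : E), (x : E)⟫ ^ k ∂(sm E)
      = (∫ x, ⟪(v : E), (x : E)⟫ ^ k ∂(sm E)) - (∫ x, ⟪(v : E), (x : E)⟫ ^ (k + 2) ∂(sm E)) := by
    rw [← integral_sub (sm_height_int hn h4 v k) (sm_height_int hn h4 v (k + 2))]
    refine integral_congr_ae (Filter.Eventually.of_forall fun x => ?_)
    simp only
    ring
  rw [h2] at h
  linarith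

theorem sm_height_om_int {n : ℕ} (h4 : 4 ≤ n) (k : ℕ) :
    Integrable (fun s : ℝ => om n s * s ^ k) := by
  obtain ⟨-, hc, h0, h1, -, -, hi, -, -, -⟩ := om_basic h4
  refine hi.mono' (hc.mul (continuous_id.pow k)).aestronglyMeasurable
    (Filter.Eventually.of_forall fun s => ?_)
  rw [Real.norm_eq_abs, abs_mul, abs_of_nonneg (h0 s), abs_pow]
  by_cases hs : 1 ≤ |s|
  · rw [h1 s hs, zero_mul]
  · exact mul_le_of_le_one_right (h0 s) (pow_le_one₀ (abs_nonneg _) (not_le.1 hs).le)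

theorem sm_height_om_J {n : ℕ} (h4 : 4 ≤ n) (k : ℕ) :
    ∫ s, om n s * s ^ k
      = cn n * ∫ s in (-1 : ℝ)..1, (1 - s ^ 2) ^ (((n : ℝ) - 3) / 2) * s ^ k := by
  obtain ⟨-, -, -, h1, -, -, -, -, -, -⟩ := om_basic h4
  have e1 : ∫ s in Ioc (-1 : ℝ) 1, om n s * s ^ k = ∫ s, om n s * s ^ k := by
    refine setIntegral_eq_integral_of_forall_compl_eq_zero fun s hs => ?_
    rw [h1 s, zero_mul]
    by_contra hlt
    rw [not_le, abs_lt] at hlt
    exact hs ⟨hlt.1, hlt.2.le⟩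
  rw [← e1, ← intervalIntegral.integral_of_le (by norm_num), ← intervalIntegral.integral_const_mul]
  refine intervalIntegral.integral_congr fun s hs => ?_
  rw [uIcc_of_le (by norm_num)] at hs
  have hb : bs s = 1 - s ^ 2 := max_eq_right (by nlinarith [hs.1, hs.2])
  simp only [om, hb]
  ring

theorem sm_height_om_rec {n : ℕ} (h4 : 4 ≤ n) (k : ℕ) :
    ((n : ℝ) + k) * ∫ s, om n s * s ^ (k + 2) = (k + 1) * ∫ s, om n s * s ^ k := by
  obtain ⟨a, ha⟩ : ∃ a : ℝ, a = ((n : ℝ) - 3) / 2 := ⟨_, rfl⟩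
  have hn4 : (4 : ℝ) ≤ n := by exact_mod_cast h4
  have ha0 : 0 < a := by rw [ha]; linarith
  have hJ : ∀ j : ℕ, Continuous (fun s : ℝ => (1 - s ^ 2) ^ a * s ^ j) := by
    intro j
    refine Continuous.mul (Continuous.rpow_const (by fun_prop) fun s => Or.inr ha0.le) (by fun_prop)
  have hG : ∀ s : ℝ, HasDerivAt (fun s : ℝ => s ^ (k + 1) * (1 - s ^ 2) ^ (a + 1))
      (((k : ℝ) + 1) * s ^ k * (1 - s ^ 2) ^ (a + 1)
        + s ^ (k + 1) * ((-(2 * s)) * (a + 1) * (1 - s ^ 2) ^ a)) s := by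
    intro s
    have e1 : HasDerivAt (fun s : ℝ => s ^ (k + 1)) (((k : ℝ) + 1) * s ^ k) s := by
      have := hasDerivAt_pow (k + 1) s
      simpa using this
    have e2 : HasDerivAt (fun s : ℝ => 1 - s ^ 2) (-(2 * s)) s := by
      have := (hasDerivAt_pow 2 s).const_sub 1
      simpa using this
    have e3 := e2.rpow_const (p := a + 1) (Or.inr (by linarith))
    rw [add_sub_cancel_right] at e3
    exact e1.mul e3
  have hI1 : Continuous (fun s : ℝ => ((k : ℝ) + 1) * s ^ k * (1 - s ^ 2) ^ (a + 1)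
        + s ^ (k + 1) * ((-(2 * s)) * (a + 1) * (1 - s ^ 2) ^ a)) := by
    have c1 : Continuous (fun s : ℝ => (1 - s ^ 2) ^ (a + 1)) :=
      Continuous.rpow_const (by fun_prop) fun s => Or.inr (by linarith)
    have c2 : Continuous (fun s : ℝ => (1 - s ^ 2) ^ a) :=
      Continuous.rpow_const (by fun_prop) fun s => Or.inr ha0.le
    fun_prop
  have hF := intervalIntegral.integral_eq_sub_of_hasDerivAt (a := -1) (b := 1)
    (fun s _ => hG s) (hI1.intervalIntegrable _ _)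
  have hz : (0 : ℝ) ^ (a + 1) = 0 := Real.zero_rpow (by linarith)
  norm_num [hz] at hF
  have hF2 : ∫ s in (-1 : ℝ)..1, (((k : ℝ) + 1) * s ^ k * (1 - s ^ 2) ^ (a + 1)
        + s ^ (k + 1) * ((-(2 * s)) * (a + 1) * (1 - s ^ 2) ^ a)) = 0 := by
    have := intervalIntegral.integral_eq_sub_of_hasDerivAt (a := -1) (b := 1)
      (fun s _ => hG s) (hI1.intervalIntegrable _ _)
    rw [this]
    have e : (1 : ℝ) - 1 ^ 2 = 0 := by norm_num
    have e' : (1 : ℝ) - (-1) ^ 2 = 0 := by norm_num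
    simp only [e, e', hz, mul_zero, sub_self]
  have hF3 : ∫ s in (-1 : ℝ)..1, (((k : ℝ) + 1) * s ^ k * (1 - s ^ 2) ^ (a + 1)
        + s ^ (k + 1) * ((-(2 * s)) * (a + 1) * (1 - s ^ 2) ^ a))
      = ((k : ℝ) + 1) * (∫ s in (-1 : ℝ)..1, (1 - s ^ 2) ^ a * s ^ k)
        - ((n : ℝ) + k) * ∫ s in (-1 : ℝ)..1, (1 - s ^ 2) ^ a * s ^ (k + 2) := by
    rw [← intervalIntegral.integral_const_mul, ← intervalIntegral.integral_const_mul,
      ← intervalIntegral.integral_sub (((hJ k).const_mul _).intervalIntegrable _ _)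
        (((hJ (k + 2)).const_mul _).intervalIntegrable _ _)]
    refine intervalIntegral.integral_congr fun s hs => ?_
    rw [uIcc_of_le (by norm_num)] at hs
    have hs0 : 0 ≤ 1 - s ^ 2 := by nlinarith [hs.1, hs.2]
    have hr : (1 - s ^ 2) ^ (a + 1) = (1 - s ^ 2) ^ a * (1 - s ^ 2) := by
      rcases hs0.eq_or_lt with h | h
      · rw [← h, Real.zero_rpow (by linarith), mul_zero]
      · rw [Real.rpow_add h, Real.rpow_one]
    have hn2 : (n : ℝ) = 2 * a + 3 := by rw [ha]; ring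
    simp only [hr]
    rw [hn2]
    ring
  rw [hF3] at hF2
  rw [sm_height_om_J h4, sm_height_om_J h4, ← ha]
  have : ((k : ℝ) + 1) * (∫ s in (-1 : ℝ)..1, (1 - s ^ 2) ^ a * s ^ k)
        = ((n : ℝ) + k) * ∫ s in (-1 : ℝ)..1, (1 - s ^ 2) ^ a * s ^ (k + 2) := by linarith
  linear_combination (-(cn n)) * this

theorem sm_height_moment {n : ℕ} (hn : Module.finrank ℝ E = n) (h4 : 4 ≤ n) (v : SS E) (k : ℕ) :
    ∫ x, ⟪(v : E), (x : E)⟫ ^ k ∂(sm E) = ∫ s, om n s * s ^ k := by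
  obtain ⟨-, -, -, -, -, he, -, h1, -, -⟩ := om_basic h4
  induction k using Nat.twoStepInduction with
  | zero =>
    have hP : IsProbabilityMeasure (sm E) := sm_prob (by omega)
    simp [h1]
  | one =>
    rw [sm_height_odd v 1 odd_one]
    have h := integral_neg_eq_self (fun s : ℝ => om n s * s ^ 1) volume
    simp only [he, pow_one, mul_neg] at h
    rw [integral_neg] at h
    simp only [pow_one]
    linarith
  | more k ih _ =>
    have e1 := sm_height_rec hn h4 v k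
    have e2 := sm_height_om_rec h4 k
    rw [ih, ← e2] at e1
    have hn4 : (4 : ℝ) ≤ n := by exact_mod_cast h4
    have hk : (0 : ℝ) ≤ k := Nat.cast_nonneg k
    have hne : ((n : ℝ) + k) ≠ 0 := ne_of_gt (by linarith)
    exact mul_left_cancel₀ hne e1

theorem sm_height_poly {n : ℕ} (hn : Module.finrank ℝ E = n) (h4 : 4 ≤ n) (v : SS E)
    (p : Polynomial ℝ) :
    ∫ x, p.eval ⟪(v : E), (x : E)⟫ ∂(sm E) = ∫ s, om n s * p.eval s := by
  have e1 : ∀ x : SS E, p.eval ⟪(v : E), (x : E)⟫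
      = ∑ i ∈ Finset.range (p.natDegree + 1), p.coeff i * ⟪(v : E), (x : E)⟫ ^ i :=
    fun x => Polynomial.eval_eq_sum_range _
  have e2 : ∀ s : ℝ, om n s * p.eval s
      = ∑ i ∈ Finset.range (p.natDegree + 1), p.coeff i * (om n s * s ^ i) := by
    intro s
    rw [Polynomial.eval_eq_sum_range, Finset.mul_sum]
    exact Finset.sum_congr rfl fun i _ => by ring
  simp only [e1, e2]
  rw [integral_finsetSum _ (fun i _ => (sm_height_int hn h4 v i).const_mul _),
    integral_finsetSum _ (fun i _ => (sm_height_om_int h4 i).const_mul _)]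
  refine Finset.sum_congr rfl fun i _ => ?_
  rw [integral_const_mul, integral_const_mul, sm_height_moment hn h4 v i]

theorem sm_height_contf {n : ℕ} (hn : Module.finrank ℝ E = n) (h4 : 4 ≤ n) (v : SS E)
    {f : ℝ → ℝ} (hf : Continuous f) (hb : ∃ C : ℝ, ∀ s, |f s| ≤ C) :
    ∫ x, f ⟪(v : E), (x : E)⟫ ∂(sm E) = ∫ s, om n s * f s := by
  have hP : IsProbabilityMeasure (sm E) := sm_prob (by omega)
  obtain ⟨C, hC⟩ := hb
  obtain ⟨-, hc, h0, h1, -, -, hi, hi1, -, -⟩ := om_basic h4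
  have hfi : Integrable (fun x : SS E => f ⟪(v : E), (x : E)⟫) (sm E) :=
    (integrable_const C).mono' (hf.comp (sm_height_cont v)).aestronglyMeasurable
      (Filter.Eventually.of_forall fun x => hC _)
  have hfo : Integrable (fun s : ℝ => om n s * f s) := by
    refine (hi.mul_const C).mono' (hc.mul hf).aestronglyMeasurable
      (Filter.Eventually.of_forall fun s => ?_)
    rw [Real.norm_eq_abs, abs_mul, abs_of_nonneg (h0 s)]
    exact mul_le_mul_of_nonneg_left (hC s) (h0 s)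
  refine eq_of_abs_sub_le_all fun ε hε => ?_
  obtain ⟨p, hp⟩ := exists_polynomial_near_of_continuousOn (-1) 1 f hf.continuousOn (ε / 2)
    (by linarith)
  have hpc : Continuous (fun s : ℝ => p.eval s) := p.continuous
  have hpi : Integrable (fun x : SS E => p.eval ⟪(v : E), (x : E)⟫) (sm E) := by
    refine (integrable_const (C + ε / 2)).mono' (hpc.comp (sm_height_cont v)).aestronglyMeasurable
      (Filter.Eventually.of_forall fun x => ?_)
    have h2 := hp _ (abs_le.1 (sm_height_inner_le v x))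
    have h3 := hC ⟪(v : E), (x : E)⟫
    rw [Real.norm_eq_abs, abs_le]
    rw [abs_lt] at h2
    rw [abs_le] at h3
    constructor <;> linarith [h2.1, h2.2, h3.1, h3.2]
  have hpo : Integrable (fun s : ℝ => om n s * p.eval s) := by
    refine (hi.mul_const (C + ε / 2)).mono' (hc.mul hpc).aestronglyMeasurable
      (Filter.Eventually.of_forall fun s => ?_)
    rw [Real.norm_eq_abs, abs_mul, abs_of_nonneg (h0 s)]
    by_cases hs : 1 ≤ |s|
    · rw [h1 s hs, zero_mul, zero_mul]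
    · refine mul_le_mul_of_nonneg_left ?_ (h0 s)
      have h2 := hp s (abs_le.1 (not_le.1 hs).le)
      have h3 := hC s
      rw [abs_le]
      rw [abs_lt] at h2
      rw [abs_le] at h3
      constructor <;> linarith [h2.1, h2.2, h3.1, h3.2]
  have d1 : |(∫ x, f ⟪(v : E), (x : E)⟫ ∂(sm E)) - (∫ x, p.eval ⟪(v : E), (x : E)⟫ ∂(sm E))|
      ≤ ε / 2 := by
    rw [← integral_sub hfi hpi]
    have : ∀ᵐ (x : SS E) ∂(sm E), ‖f ⟪(v : E), (x : E)⟫ - p.eval ⟪(v : E), (x : E)⟫‖ ≤ ε / 2 := by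
      refine Filter.Eventually.of_forall fun x => ?_
      rw [Real.norm_eq_abs, abs_sub_comm]
      exact (hp _ (abs_le.1 (sm_height_inner_le v x))).le
    have h5 := norm_integral_le_of_norm_le_const this
    simpa using h5
  have d2 : |(∫ s, om n s * p.eval s) - (∫ s, om n s * f s)| ≤ ε / 2 := by
    rw [← integral_sub hpo hfo]
    have h5 : ‖∫ s, (om n s * p.eval s - om n s * f s)‖ ≤ ∫ s, om n s * (ε / 2) := by
      refine norm_integral_le_of_norm_le (hi.mul_const _)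
        (Filter.Eventually.of_forall fun s => ?_)
      rw [← mul_sub, Real.norm_eq_abs, abs_mul, abs_of_nonneg (h0 s)]
      by_cases hs : 1 ≤ |s|
      · rw [h1 s hs, zero_mul, zero_mul]
      · exact mul_le_mul_of_nonneg_left (hp s (abs_le.1 (not_le.1 hs).le)).le (h0 s)
    rw [integral_mul_const, hi1, one_mul] at h5
    exact h5
  rw [sm_height_poly hn h4 v p] at d1
  rw [abs_le] at d1 d2 ⊢
  constructor <;> linarith [d1.1, d1.2, d2.1, d2.2]

theorem sm_height {n : ℕ} (hn : Module.finrank ℝ E = n) (h4 : 4 ≤ n) (v : SS E) {ψ : ℝ → ℝ}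
    (hψ : Measurable ψ) (hb : ∃ C : ℝ, ∀ s, |ψ s| ≤ C) :
    ∫ x, ψ ⟪(v : E), (x : E)⟫ ∂(sm E) = ∫ s, om n s * ψ s := by
  have hP : IsProbabilityMeasure (sm E) := sm_prob (by omega)
  obtain ⟨-, hc, h0, h1, -, -, hi, hi1, -, -⟩ := om_basic h4
  have hcm : Measurable (fun x : SS E => ⟪(v : E), (x : E)⟫) := (sm_height_cont v).measurable
  have hfin : IsFiniteMeasure ((volume : Measure ℝ).withDensity fun s => ENNReal.ofReal (om n s)) :=
    isFiniteMeasure_withDensity_ofReal hi.2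
  have hfin2 : IsFiniteMeasure ((sm E).map (fun x : SS E => ⟪(v : E), (x : E)⟫)) := inferInstance
  have hW : ∀ f : ℝ → ℝ, ∫ s, f s ∂((volume : Measure ℝ).withDensity
      fun s => ENNReal.ofReal (om n s)) = ∫ s, om n s * f s := by
    intro f
    have hm : Measurable (fun s => ENNReal.ofReal (om n s)) := hc.measurable.ennreal_ofReal
    rw [integral_withDensity_eq_integral_toReal_smul hm
      (Filter.Eventually.of_forall fun s => ENNReal.ofReal_lt_top)]
    refine integral_congr_ae (Filter.Eventually.of_forall fun s => ?_)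
    simp only [smul_eq_mul, ENNReal.toReal_ofReal (h0 s)]
  have key : (sm E).map (fun x : SS E => ⟪(v : E), (x : E)⟫)
      = (volume : Measure ℝ).withDensity fun s => ENNReal.ofReal (om n s) := by
    refine ext_of_forall_integral_eq_of_IsFiniteMeasure fun f => ?_
    rw [integral_map hcm.aemeasurable f.continuous.aestronglyMeasurable, hW]
    exact sm_height_contf hn h4 v f.continuous ⟨‖f‖, fun s => f.norm_coe_le_norm s⟩
  rw [← integral_map hcm.aemeasurable hψ.aestronglyMeasurable, key, hW]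

-- cap_meas
theorem cap_meas {n : ℕ} (hn : Module.finrank ℝ E = n) (h4 : 4 ≤ n) (v : SS E) (b : ℝ) :
    (sm E).real {x | b ≤ ⟪(v : E), (x : E)⟫} = mm n b := by
  classical
  have hψ : Measurable (Set.indicator (Ici b) (fun _ : ℝ => (1 : ℝ))) :=
    measurable_const.indicator measurableSet_Ici
  have hb : ∃ C : ℝ, ∀ s, |Set.indicator (Ici b) (fun _ : ℝ => (1 : ℝ)) s| ≤ C := by
    refine ⟨1, fun s => ?_⟩
    by_cases h : s ∈ Ici b
    · rw [Set.indicator_of_mem h, abs_one]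
    · rw [Set.indicator_of_notMem h, abs_zero]
      exact zero_le_one
  have h1 := sm_height hn h4 v hψ hb
  have hm : MeasurableSet {x : SS E | b ≤ ⟪(v : E), (x : E)⟫} := by
    have hc : Continuous (fun x : SS E => (⟪(v : E), (x : E)⟫ : ℝ)) :=
      continuous_const.inner continuous_subtype_val
    exact (isClosed_le continuous_const hc).measurableSet
  have h2 : ∫ x : SS E, Set.indicator (Ici b) (fun _ : ℝ => (1 : ℝ)) ⟪(v : E), (x : E)⟫ ∂(sm E)
      = (sm E).real {x | b ≤ ⟪(v : E), (x : E)⟫} := by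
    rw [← integral_indicator_one hm]
    congr 1
  have h3 : ∫ s, om n s * Set.indicator (Ici b) (fun _ : ℝ => (1 : ℝ)) s = mm n b := by
    unfold mm
    rw [← integral_indicator measurableSet_Ici]
    congr 1
    funext s
    by_cases h : s ∈ Ici b
    · rw [Set.indicator_of_mem h, Set.indicator_of_mem h, mul_one]
    · rw [Set.indicator_of_notMem h, Set.indicator_of_notMem h, mul_zero]
  rw [← h2, h1, h3]

-- PP_meas
/-- the component orthogonal to `x` -/
noncomputable def PP_meas_qq (x : SS E) (z : E) : Pe x :=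
  ⟨z - ⟪(x : E), z⟫ • (x : E), by
    rw [Submodule.mem_orthogonal_singleton_iff_inner_right, inner_sub_right, inner_smul_right,
      real_inner_self_eq_norm_sq, norm_eq_of_mem_sphere x]
    ring⟩

theorem PP_meas_qq_coe (x : SS E) (z : E) :
    ((PP_meas_qq x z : Pe x) : E) = z - ⟪(x : E), z⟫ • (x : E) := rfl

theorem PP_meas_qq_ex (x : SS E) (k : UG (Pe x)) (z : E) :
    PP_meas_qq x (av (ex x k) z) = av k (PP_meas_qq x z) := by
  have h1 := (ex_props x k).1
  have h2 := (ex_props x k).2 (PP_meas_qq x z)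
  have h3 : z = (PP_meas_qq x z : E) + ⟪(x : E), z⟫ • (x : E) := by
    rw [PP_meas_qq_coe]; abel
  have h4 : av (ex x k) z = ((av k (PP_meas_qq x z) : Pe x) : E) + ⟪(x : E), z⟫ • (x : E) := by
    conv_lhs => rw [h3]
    rw [av_add, av_smul, h1, h2]
  have h5 : ⟪(x : E), av (ex x k) z⟫ = ⟪(x : E), z⟫ := by
    rw [h4, inner_add_right, Pe_inner, inner_smul_right, real_inner_self_eq_norm_sq,
      norm_eq_of_mem_sphere x]
    ring
  apply Subtype.ext
  rw [PP_meas_qq_coe, h5, h4]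
  abel

theorem PP_meas_zero (hn : 2 ≤ Module.finrank ℝ E) (y : SS E) : sm E {y} = 0 := by
  have hp := sm_prob (E := E) (by omega)
  have hsame : ∀ z : SS E, sm E {z} = sm E {y} := by
    intro z
    obtain ⟨g, hg, -⟩ := pair_trans hn z z y y (by
      rw [real_inner_self_eq_norm_sq, real_inner_self_eq_norm_sq, norm_eq_of_mem_sphere z,
        norm_eq_of_mem_sphere y])
    have hm := (sm_inv g).measure_preimage (s := {y}) (MeasurableSet.singleton y).nullMeasurableSet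
    rw [← hm]
    congr 1
    ext u
    simp only [mem_preimage, mem_singleton_iff]
    constructor
    · rintro rfl; exact hg
    · intro hu
      have : sa g⁻¹ (sa g u) = sa g⁻¹ (sa g z) := by rw [hu, hg]
      rwa [sa_inv, sa_inv] at this
  by_contra h0
  have hpos : 0 < sm E {y} := pos_iff_ne_zero.2 h0
  have hfin := Measure.finite_const_le_meas_of_disjoint_iUnion (sm E) hpos
    (As := fun z : SS E => ({z} : Set (SS E))) (fun z => MeasurableSet.singleton z)
    (fun a b hab => by simpa [Function.onFun] using hab) (measure_ne_top _ _)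
  have huniv : {z : SS E | sm E {y} ≤ sm E {z}} = univ := by
    ext z; simp [hsame z]
  rw [huniv] at hfin
  obtain ⟨n, hn'⟩ : ∃ n, Module.finrank ℝ E = n + 1 := ⟨Module.finrank ℝ E - 1, by omega⟩
  have hP := finrank_Pe hn' y
  obtain ⟨w0⟩ := sm_nonempty (E := Pe y) (by omega)
  have hinj : Set.InjOn (fun r : ℝ => pt y r w0) (Icc (-1) 1) := by
    intro r hr r' hr' h
    have e1 := (pt_inner hr.1 hr.2 hr.1 hr.2 y w0 w0).1
    have e2 := (pt_inner hr'.1 hr'.2 hr'.1 hr'.2 y w0 w0).1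
    have h' : pt y r w0 = pt y r' w0 := h
    rw [← e1, h', e2]
  have hinf : (Icc (-1 : ℝ) 1).Infinite := Set.Icc_infinite (by norm_num)
  exact (hinf.image hinj) (hfin.subset (subset_univ _))

theorem PP_meas_null (hn : 2 ≤ Module.finrank ℝ E) (x : SS E) :
    ∀ᵐ z : SS E ∂(sm E), PP_meas_qq x (z : E) ≠ 0 := by
  rw [ae_iff]
  have hsub : {z : SS E | ¬ PP_meas_qq x (z : E) ≠ 0} ⊆ {x} ∪ {-x} := by
    intro z hz
    simp only [ne_eq, not_not, Set.mem_ofPred_eq] at hz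
    have h1 : (z : E) = ⟪(x : E), (z : E)⟫ • (x : E) := by
      have := congrArg (fun u : Pe x => (u : E)) hz
      simp only [PP_meas_qq_coe, ZeroMemClass.coe_zero] at this
      exact sub_eq_zero.1 this
    have h2 : |⟪(x : E), (z : E)⟫| = 1 := by
      have h3 := congrArg norm h1
      rw [norm_smul, norm_eq_of_mem_sphere z, norm_eq_of_mem_sphere x, mul_one,
        Real.norm_eq_abs] at h3
      exact h3.symm
    rcases (abs_eq (by norm_num : (0 : ℝ) ≤ 1)).1 h2 with h | h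
    · left
      apply Subtype.ext
      rw [h1, h, one_smul]
    · right
      apply Subtype.ext
      rw [h1, h, neg_smul, one_smul]
      rfl
  refine measure_mono_null hsub ?_
  rw [measure_union_null_iff]
  exact ⟨PP_meas_zero hn x, PP_meas_zero hn (-x)⟩

/-- the direction of the orthogonal component -/
noncomputable def PP_meas_ph (x : SS E) (w0 : SS (Pe x)) (z : SS E) : SS (Pe x) :=
  open Classical in
  ⟨if PP_meas_qq x (z : E) ≠ 0 then ‖PP_meas_qq x (z : E)‖⁻¹ • PP_meas_qq x (z : E) else (w0 : Pe x), by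
    rw [mem_sphere_zero_iff_norm]
    split_ifs with h
    · rw [norm_smul, norm_inv, norm_norm]
      exact inv_mul_cancel₀ (norm_ne_zero_iff.2 h)
    · exact norm_eq_of_mem_sphere w0⟩

theorem PP_meas_ph_coe (x : SS E) (w0 : SS (Pe x)) (z : SS E) (hz : PP_meas_qq x (z : E) ≠ 0) :
    (PP_meas_ph x w0 z : Pe x) = ‖PP_meas_qq x (z : E)‖⁻¹ • PP_meas_qq x (z : E) := by
  unfold PP_meas_ph
  simp only
  rw [if_pos hz]

theorem PP_meas_qq_cont (x : SS E) : Continuous (fun z : SS E => PP_meas_qq x (z : E)) := by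
  unfold PP_meas_qq
  refine Continuous.subtype_mk ?_ _
  exact continuous_subtype_val.sub
    ((continuous_const.inner continuous_subtype_val).smul continuous_const)

theorem PP_meas_ph_meas (x : SS E) (w0 : SS (Pe x)) : Measurable (PP_meas_ph x w0) := by
  classical
  unfold PP_meas_ph
  refine Measurable.subtype_mk ?_
  have hq := (PP_meas_qq_cont x).measurable
  refine Measurable.ite ?_ ?_ measurable_const
  · exact (hq (MeasurableSet.singleton 0)).compl
  · exact hq.norm.inv.smul hq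

theorem PP_meas_law (hn : 3 ≤ Module.finrank ℝ E) (x : SS E) (w0 : SS (Pe x)) :
    (sm E).map (PP_meas_ph x w0) = sm (Pe x) := by
  obtain ⟨n, hn'⟩ : ∃ n, Module.finrank ℝ E = n + 1 := ⟨Module.finrank ℝ E - 1, by omega⟩
  have hP := finrank_Pe hn' x
  have hp := sm_prob (E := E) (by omega)
  have hpr : IsProbabilityMeasure ((sm E).map (PP_meas_ph x w0)) :=
    Measure.isProbabilityMeasure_map (PP_meas_ph_meas x w0).aemeasurable
  refine sm_unique (E := Pe x) (by omega) _ ?_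
  intro k
  have hk : Measurable (sa k : SS (Pe x) → SS (Pe x)) := (sa_continuous_right k).measurable
  rw [Measure.map_map hk (PP_meas_ph_meas x w0)]
  have hcomm : (sa k ∘ PP_meas_ph x w0) =ᵐ[sm E] (PP_meas_ph x w0 ∘ sa (ex x k)) := by
    filter_upwards [PP_meas_null (by omega) x] with z hz
    have hz' : PP_meas_qq x ((sa (ex x k) z : SS E) : E) ≠ 0 := by
      rw [sa_coe, PP_meas_qq_ex]
      intro h
      apply hz
      have := congrArg norm h
      rw [av_norm, norm_zero, norm_eq_zero] at this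
      exact this
    apply Subtype.ext
    simp only [Function.comp]
    rw [PP_meas_ph_coe x w0 _ hz', sa_coe, PP_meas_ph_coe x w0 _ hz, av_smul, sa_coe,
      PP_meas_qq_ex, av_norm]
  rw [Measure.map_congr hcomm,
    ← Measure.map_map (PP_meas_ph_meas x w0) (sa_continuous_right (ex x k)).measurable,
    (sm_inv (ex x k)).map_eq]

theorem PP_meas (hn : 3 ≤ Module.finrank ℝ E) {f : SS E → ℝ} (hf : Measurable f) :
    Measurable (fun p : ℝ × SS E => PP p.1 f p.2) := by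
  have hp := sm_prob (E := E) (by omega)
  obtain ⟨n, hn'⟩ : ∃ n, Module.finrank ℝ E = n + 1 := ⟨Module.finrank ℝ E - 1, by omega⟩
  set F : E → ℝ := Function.extend (Subtype.val : SS E → E) f 0 with hF
  have hemb : MeasurableEmbedding (Subtype.val : SS E → E) :=
    MeasurableEmbedding.subtype_coe (isClosed_sphere.measurableSet)
  have hFm : Measurable F := hemb.measurable_extend hf measurable_const
  have hFv : ∀ y : SS E, F (y : E) = f y := fun y => Subtype.val_injective.extend_apply f 0 y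
  set q : (ℝ × SS E) × SS E → E := fun p =>
    (p.2 : E) - ⟪(p.1.2 : E), (p.2 : E)⟫ • (p.1.2 : E) with hqdef
  have hqc : Continuous q := by
    have c1 : Continuous (fun p : (ℝ × SS E) × SS E => (p.2 : E)) :=
      continuous_subtype_val.comp continuous_snd
    have c2 : Continuous (fun p : (ℝ × SS E) × SS E => (p.1.2 : E)) :=
      continuous_subtype_val.comp (continuous_snd.comp continuous_fst)
    exact c1.sub ((c2.inner c1).smul c2)
  set V : (ℝ × SS E) × SS E → E := fun p =>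
    Real.cos (Real.arccos p.1.1) • (p.1.2 : E)
      + Real.sin (Real.arccos p.1.1) • (‖q p‖⁻¹ • q p) with hV
  have hVm : Measurable V := by
    have m1 : Measurable (fun p : (ℝ × SS E) × SS E => Real.cos (Real.arccos p.1.1)) :=
      (Real.continuous_cos.comp (Real.continuous_arccos.comp
        (continuous_fst.comp continuous_fst))).measurable
    have m2 : Measurable (fun p : (ℝ × SS E) × SS E => Real.sin (Real.arccos p.1.1)) :=
      (Real.continuous_sin.comp (Real.continuous_arccos.comp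
        (continuous_fst.comp continuous_fst))).measurable
    have m3 : Measurable (fun p : (ℝ × SS E) × SS E => (p.1.2 : E)) :=
      (continuous_subtype_val.comp (continuous_snd.comp continuous_fst)).measurable
    have m4 : Measurable q := hqc.measurable
    exact (m1.smul m3).add (m2.smul (m4.norm.inv.smul m4))
  have hG : Measurable (fun p : (ℝ × SS E) × SS E => F (V p)) := hFm.comp hVm
  have hint : StronglyMeasurable (fun p : ℝ × SS E => ∫ z, F (V (p, z)) ∂(sm E)) :=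
    StronglyMeasurable.integral_prod_right (f := fun (p : ℝ × SS E) (z : SS E) => F (V (p, z)))
      hG.stronglyMeasurable
  have heq : (fun p : ℝ × SS E => PP p.1 f p.2) = fun p => ∫ z, F (V (p, z)) ∂(sm E) := by
    funext p
    obtain ⟨r, x⟩ := p
    have hP := finrank_Pe hn' x
    obtain ⟨w0⟩ := sm_nonempty (E := Pe x) (by omega)
    unfold PP
    simp only
    rw [← PP_meas_law hn x w0]
    have hfm : Measurable (fun w : SS (Pe x) => f (pt x r w)) :=
      hf.comp ((pt_cont x).comp (continuous_const.prodMk continuous_id)).measurable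
    rw [integral_map (PP_meas_ph_meas x w0).aemeasurable hfm.aestronglyMeasurable]
    refine integral_congr_ae ?_
    filter_upwards [PP_meas_null (by omega) x] with z hz
    rw [← hFv]
    congr 1
    change Real.cos (Real.arccos r) • (x : E)
      + Real.sin (Real.arccos r) • (((PP_meas_ph x w0 z : Pe x)) : E) = V ((r, x), z)
    rw [PP_meas_ph_coe x w0 z hz]
    rfl
  rw [heq]
  exact hint.measurable

-- PP_basic
theorem PP_basic_prob (hn : 3 ≤ Module.finrank ℝ E) (x : SS E) :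
    IsProbabilityMeasure (sm (Pe x)) := by
  obtain ⟨n, hn'⟩ : ∃ n, Module.finrank ℝ E = n + 1 := ⟨Module.finrank ℝ E - 1, by omega⟩
  apply sm_prob
  rw [finrank_Pe hn' x]
  omega

theorem PP_basic_meas (r : ℝ) {f : SS E → ℝ} (hf : Measurable f) (x : SS E) :
    Measurable (fun w : SS (Pe x) => f (pt x r w)) := by
  have h1 : Continuous (fun w : SS (Pe x) => ((r, w) : ℝ × SS (Pe x))) := Continuous.prodMk_right r
  have hc := Continuous.comp (pt_cont x) h1
  exact hf.comp (Continuous.measurable hc)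

theorem PP_basic_int (hn : 3 ≤ Module.finrank ℝ E) (r : ℝ) {f : SS E → ℝ} (hf : BM f)
    (x : SS E) : Integrable (fun w : SS (Pe x) => f (pt x r w)) (sm (Pe x)) := by
  have := PP_basic_prob hn x
  obtain ⟨hm, C, hC⟩ := hf
  refine Integrable.of_bound (PP_basic_meas r hm x).aestronglyMeasurable C ?_
  exact Filter.Eventually.of_forall fun w => by
    rw [Real.norm_eq_abs]; exact hC _

theorem PP_basic_PPmeas (hn : 3 ≤ Module.finrank ℝ E) (r : ℝ) {f : SS E → ℝ}
    (hf : Measurable f) : Measurable (PP r f) := by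
  have h1 : Measurable (fun x : SS E => ((r, x) : ℝ × SS E)) := measurable_prodMk_left
  have h2 := PP_meas hn hf
  have h3 := h2.comp h1
  exact h3

theorem PP_basic_le (hn : 3 ≤ Module.finrank ℝ E) (r : ℝ) {f h : SS E → ℝ} (hf : BM f)
    (hh : BM h) (hfh : ∀ y, f y ≤ h y) (x : SS E) : PP r f x ≤ PP r h x := by
  unfold PP
  exact integral_mono (PP_basic_int hn r hf x) (PP_basic_int hn r hh x) fun w => hfh _

theorem PP_basic_const (hn : 3 ≤ Module.finrank ℝ E) (r : ℝ) (c : ℝ) (x : SS E) :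
    PP r (fun _ : SS E => c) x = c := by
  have := PP_basic_prob hn x
  unfold PP
  simp

theorem PP_basic_lin (hn : 3 ≤ Module.finrank ℝ E) (r : ℝ) {f h : SS E → ℝ} (hf : BM f)
    (hh : BM h) (a b : ℝ) (x : SS E) :
    PP r (fun y => a * f y + b * h y) x = a * PP r f x + b * PP r h x := by
  unfold PP
  rw [integral_add ((PP_basic_int hn r hf x).const_mul a) ((PP_basic_int hn r hh x).const_mul b),
    integral_const_mul, integral_const_mul]

theorem PP_basic_BMc (c : ℝ) : BM (fun _ : SS E => c) := ⟨measurable_const, |c|, fun _ => le_rfl⟩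

theorem PP_basic_BMsq {f : SS E → ℝ} (hf : BM f) : BM (fun y => f y ^ 2) := by
  obtain ⟨hm, C, hC⟩ := hf
  refine ⟨hm.pow_const 2, C ^ 2, fun x => ?_⟩
  rw [abs_pow]
  exact pow_le_pow_left₀ (abs_nonneg _) (hC x) 2

theorem PP_basic (hn : 3 ≤ Module.finrank ℝ E) (r : ℝ) {f h : SS E → ℝ} (hf : BM f) (hh : BM h) :
    (BM (PP r f)) ∧ (∀ x : SS E, PP r (fun _ : SS E => (1 : ℝ)) x = 1) ∧
    (∀ a b : ℝ, ∀ x, PP r (fun y => a * f y + b * h y) x = a * PP r f x + b * PP r h x) ∧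
    (∀ c x, (∀ y, f y ≤ c) → PP r f x ≤ c) ∧ (∀ c x, (∀ y, c ≤ f y) → c ≤ PP r f x) ∧
    ((∀ y, f y ≤ h y) → ∀ x, PP r f x ≤ PP r h x) ∧
    (∀ x, (PP r f x) ^ 2 ≤ PP r (fun y => f y ^ 2) x) := by
  have hub : ∀ c x, (∀ y, f y ≤ c) → PP r f x ≤ c := by
    intro c x hc
    calc PP r f x ≤ PP r (fun _ : SS E => c) x := PP_basic_le hn r hf (PP_basic_BMc c) hc x
      _ = c := PP_basic_const hn r c x
  have hlb : ∀ c x, (∀ y, c ≤ f y) → c ≤ PP r f x := by
    intro c x hc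
    calc c = PP r (fun _ : SS E => c) x := (PP_basic_const hn r c x).symm
      _ ≤ PP r f x := PP_basic_le hn r (PP_basic_BMc c) hf hc x
  refine ⟨⟨?_, ?_⟩, fun x => PP_basic_const hn r 1 x, fun a b x => PP_basic_lin hn r hf hh a b x,
    hub, hlb, fun hfh x => PP_basic_le hn r hf hh hfh x, ?_⟩
  · exact PP_basic_PPmeas hn r hf.1
  · obtain ⟨hm, C, hC⟩ := hf
    refine ⟨C, fun x => abs_le.2 ⟨?_, ?_⟩⟩
    · exact hlb (-C) x fun y => (abs_le.1 (hC y)).1
    · exact hub C x fun y => (abs_le.1 (hC y)).2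
  · intro x
    set m := PP r f x with hm
    have h1 := PP_basic_lin hn r (PP_basic_BMsq hf) hf 1 (-(2 * m)) x
    have h2 : PP r (fun _ : SS E => -(m ^ 2)) x
        ≤ PP r (fun y => 1 * f y ^ 2 + -(2 * m) * f y) x := by
      refine PP_basic_le hn r (PP_basic_BMc _) ?_ (fun y => ?_) x
      · obtain ⟨hm', C, hC⟩ := hf
        refine ⟨((hm'.pow_const 2).const_mul 1).add (hm'.const_mul _), C ^ 2 + |2 * m| * C,
          fun y => ?_⟩
        calc |1 * f y ^ 2 + -(2 * m) * f y| ≤ |1 * f y ^ 2| + |-(2 * m) * f y| := abs_add_le _ _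
          _ = |f y| ^ 2 + |2 * m| * |f y| := by
            rw [one_mul, abs_pow, abs_mul, abs_neg]
          _ ≤ C ^ 2 + |2 * m| * C := by
            have h3 := hC y
            have h4 := abs_nonneg (f y)
            gcongr
      · nlinarith [sq_nonneg (f y - m)]
    rw [PP_basic_const hn, h1] at h2
    rw [← hm] at h2
    nlinarith

-- PP_sym
theorem PP_sym_pair (hn : 3 ≤ Module.finrank ℝ E) {r : ℝ} (h1 : -1 ≤ r) (h2 : r ≤ 1) :
    ∃ a b : SS E, ⟪(a : E), (b : E)⟫ = r := by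
  obtain ⟨a⟩ := sm_nonempty (E := E) (by omega)
  obtain ⟨n, hn'⟩ : ∃ n, Module.finrank ℝ E = n + 1 := ⟨Module.finrank ℝ E - 1, by omega⟩
  have hp := finrank_Pe hn' a
  obtain ⟨w⟩ := sm_nonempty (E := Pe a) (by omega)
  exact ⟨a, pt a r w, (pt_inner h1 h2 h1 h2 a w w).1⟩

theorem PP_sym_meas (hn : 3 ≤ Module.finrank ℝ E) {f : SS E → ℝ} (hf : BM f) (r : ℝ) :
    Measurable (PP r f) := (PP_basic hn r hf hf).1.1

theorem PP_sym_int (hn : 3 ≤ Module.finrank ℝ E) {f : SS E → ℝ} (hf : BM f) :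
    Integrable f (sm E) := by
  have := sm_prob (E := E) (by omega)
  obtain ⟨hm, C, hC⟩ := hf
  exact Integrable.of_bound hm.aestronglyMeasurable C
    (Filter.Eventually.of_forall fun x => by rw [Real.norm_eq_abs]; exact hC x)

theorem PP_sym_one (hn : 3 ≤ Module.finrank ℝ E) {r : ℝ} (h1 : -1 ≤ r) (h2 : r ≤ 1)
    {f h : SS E → ℝ} (hf : BM f) (hh : BM h) :
    ∫ x, h x * PP r f x ∂(sm E) = ∫ x, f x * PP r h x ∂(sm E) := by
  obtain ⟨a, b, hab⟩ := PP_sym_pair (E := E) hn h1 h2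
  obtain ⟨k, hk1, hk2⟩ := pair_trans (E := E) (by omega) a b b a (real_inner_comm _ _)
  have e1 := PP_pair (E := E) (by omega) hf hh (PP_sym_meas hn hf) a b
  have e2 := PP_pair (E := E) (by omega) hh hf (PP_sym_meas hn hh) a b
  rw [hab] at e1 e2
  rw [e1, e2, ← hm_int_right k (fun g => f (sa g a) * h (sa g b))]
  simp only [sa_mul, hk1, hk2]
  exact integral_congr_ae (Filter.Eventually.of_forall fun g => mul_comm _ _)

theorem PP_sym_two (hn : 3 ≤ Module.finrank ℝ E) {r : ℝ} (h1 : -1 ≤ r) (h2 : r ≤ 1)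
    {f : SS E → ℝ} (hf : BM f) :
    ∫ x, PP r f x ∂(sm E) = ∫ x, f x ∂(sm E) := by
  have h1f : BM (fun _ : SS E => (1 : ℝ)) := ⟨measurable_const, 1, fun x => by simp⟩
  have e := PP_sym_one hn h1 h2 hf h1f
  have e1 := (PP_basic hn r hf hf).2.1
  simpa [e1] using e

theorem PP_sym_three (hn : 3 ≤ Module.finrank ℝ E) {r : ℝ} (h1 : -1 ≤ r) (h2 : r ≤ 1)
    {f : SS E → ℝ} (hf : BM f) :
    ∫ x, (PP r f x) ^ 2 ∂(sm E) ≤ ∫ x, (f x) ^ 2 ∂(sm E) := by
  have hsq : ∀ {u : SS E → ℝ}, BM u → BM (fun y => u y ^ 2) := by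
    rintro u ⟨hu, C, hC⟩
    refine ⟨hu.pow_const 2, C ^ 2, fun x => ?_⟩
    rw [abs_pow]
    exact pow_le_pow_left₀ (abs_nonneg _) (hC x) 2
  have hb := PP_basic hn r hf hf
  have hP : BM (PP r f) := hb.1
  have hf2 := hsq hf
  have hP2 : BM (PP r (fun y => f y ^ 2)) := (PP_basic hn r hf2 hf2).1
  rw [← PP_sym_two hn h1 h2 hf2]
  exact integral_mono (PP_sym_int hn (hsq hP)) (PP_sym_int hn hP2) hb.2.2.2.2.2.2

theorem PP_sym (hn : 3 ≤ Module.finrank ℝ E) {r : ℝ} (h1 : -1 ≤ r) (h2 : r ≤ 1) {f h : SS E → ℝ}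
    (hf : BM f) (hh : BM h) :
    ∫ x, h x * PP r f x ∂(sm E) = ∫ x, f x * PP r h x ∂(sm E) ∧
    ∫ x, PP r f x ∂(sm E) = ∫ x, f x ∂(sm E) ∧
    ∫ x, (PP r f x) ^ 2 ∂(sm E) ≤ ∫ x, (f x) ^ 2 ∂(sm E) := by
  exact ⟨PP_sym_one hn h1 h2 hf hh, PP_sym_two hn h1 h2 hf, PP_sym_three hn h1 h2 hf⟩

-- fiber
theorem fiber_inv (g : UG E) {f : SS E → ℝ} (hf : Measurable f) :
    ∫ x, f (sa g x) ∂(sm E) = ∫ x, f x ∂(sm E) := by
  have h := sm_inv g
  have h1 : ∫ x, f x ∂((sm E).map (sa g)) = ∫ x, f (sa g x) ∂(sm E) :=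
    integral_map h.measurable.aemeasurable hf.aestronglyMeasurable
  rw [← h1, h.map_eq]

theorem fiber_slice (hn : 2 ≤ Module.finrank ℝ E) (v : SS E) {f : SS E → ℝ} (hf : Measurable f)
    (x : SS E) : ∫ k, f (sa (ex v k) x) ∂(hm (Pe v)) = PP ⟪(v : E), (x : E)⟫ f v := by
  obtain ⟨w, hw⟩ := pt_surj hn v x
  rw [PP_eq hn ⟪(v : E), (x : E)⟫ hf v w, ← hw]

theorem fiber_meas (hn3 : 3 ≤ Module.finrank ℝ E) (v : SS E) {f : SS E → ℝ} (hfm : Measurable f) :
    Measurable (fun s : ℝ => PP s f v) := by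
  have hm2 : Measurable (fun s : ℝ => ((s, v) : ℝ × SS E)) := measurable_prodMk_right
  have h := PP_meas hn3 hfm
  have h3 : (fun s : ℝ => PP s f v) =
      (fun p : ℝ × SS E => PP p.1 f p.2) ∘ (fun s : ℝ => ((s, v) : ℝ × SS E)) := rfl
  rw [h3]
  exact h.comp hm2

theorem fiber {n : ℕ} (hn : Module.finrank ℝ E = n) (h4 : 4 ≤ n) (v : SS E) {f : SS E → ℝ}
    (hf : BM f) : ∫ x, f x ∂(sm E) = ∫ s, om n s * PP s f v := by
  have hn2 : 2 ≤ Module.finrank ℝ E := by omega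
  have hn3 : 3 ≤ Module.finrank ℝ E := by omega
  have hprob : IsProbabilityMeasure (sm E) := sm_prob (by omega)
  obtain ⟨hfm, C, hC⟩ := hf
  have hm1 : Measurable (fun p : UG (Pe v) × SS E => f (sa (ex v p.1) p.2)) := by
    refine hfm.comp ?_
    have hc : Continuous (fun p : UG (Pe v) × SS E => sa (ex v p.1) p.2) :=
      sa_continuous.comp (((ex_cont v).comp continuous_fst).prodMk continuous_snd)
    exact hc.measurable
  have hint : Integrable (fun p : UG (Pe v) × SS E => f (sa (ex v p.1) p.2))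
      ((hm (Pe v)).prod (sm E)) :=
    Integrable.of_bound hm1.aestronglyMeasurable C
      (Filter.Eventually.of_forall fun p => by rw [Real.norm_eq_abs]; exact hC _)
  have e1 : ∫ x, f x ∂(sm E) = ∫ k, ∫ x, f (sa (ex v k) x) ∂(sm E) ∂(hm (Pe v)) := by
    have : ∀ k : UG (Pe v), ∫ x, f (sa (ex v k) x) ∂(sm E) = ∫ x, f x ∂(sm E) :=
      fun k => fiber_inv (ex v k) hfm
    simp only [this]
    rw [integral_const]
    simp
  rw [e1, integral_integral_swap hint]
  have e2 : ∀ x : SS E, ∫ k, f (sa (ex v k) x) ∂(hm (Pe v)) = PP ⟪(v : E), (x : E)⟫ f v :=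
    fun x => fiber_slice hn2 v hfm x
  simp only [e2]
  refine sm_height hn h4 v (ψ := fun s => PP s f v) ?_ ?_
  · exact fiber_meas hn3 v hfm
  · refine ⟨C, fun s => ?_⟩
    obtain ⟨-, -, -, hup, hlo, -⟩ := PP_basic hn3 s (f := f) (h := f) ⟨hfm, C, hC⟩ ⟨hfm, C, hC⟩
    rw [abs_le]
    exact ⟨hlo (-C) v fun y => (abs_le.1 (hC y)).1, hup C v fun y => (abs_le.1 (hC y)).2⟩

-- ker_int
theorem ker_int_bound {n : ℕ} (hn : Module.finrank ℝ E = n) (h4 : 4 ≤ n) {f : SS E → ℝ}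
    (hf : BM f) {C : ℝ} (hC : ∀ x, |f x| ≤ C) (s : ℝ) (x : SS E) : |PP s f x| ≤ C := by
  have hb := PP_basic (E := E) (by omega) s hf hf
  obtain ⟨-, -, -, hle, hge, -, -⟩ := hb
  rw [abs_le]
  exact ⟨hge (-C) x fun y => (abs_le.mp (hC y)).1, hle C x fun y => (abs_le.mp (hC y)).2⟩

theorem ker_int_slice {κ : ℝ → ℝ} {f : SS E → ℝ} {s : ℝ} (h1 : -1 ≤ s) (h2 : s ≤ 1) (x : SS E) :
    PP s (fun y => κ ⟪(x : E), (y : E)⟫ * f y) x = κ s * PP s f x := by
  unfold PP
  rw [← integral_const_mul]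
  refine integral_congr_ae (Eventually.of_forall fun w => ?_)
  have := (pt_inner h1 h2 h1 h2 x w w).1
  simp only [this]

theorem ker_int {n : ℕ} (hn : Module.finrank ℝ E = n) (h4 : 4 ≤ n) {κ : ℝ → ℝ} (hκ : Measurable κ)
    (hκb : ∃ C : ℝ, ∀ s, |κ s| ≤ C) {f h : SS E → ℝ} (hf : BM f) (hh : BM h) :
    ∫ x, ∫ y, h x * (κ ⟪(x : E), (y : E)⟫ * f y) ∂(sm E) ∂(sm E)
      = ∫ s, om n s * (κ s * ∫ x, h x * PP s f x ∂(sm E)) := by
  have hprob : IsProbabilityMeasure (sm E) := sm_prob (by omega)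
  obtain ⟨Cκ, hCκ⟩ := hκb
  obtain ⟨Cf, hCf⟩ := hf.2
  obtain ⟨Ch, hCh⟩ := hh.2
  obtain ⟨-, homc, hom0, homz, -, -, homi, -, -, -⟩ := om_basic (n := n) h4
  have hPm : Measurable (fun p : ℝ × SS E => PP p.1 f p.2) := PP_meas (by omega) hf.1
  have hx0 : Nonempty (SS E) := sm_nonempty (by omega)
  have hCh0 : 0 ≤ Ch := le_trans (abs_nonneg _) (hCh hx0.some)
  have hCf0 : 0 ≤ Cf := le_trans (abs_nonneg _) (hCf hx0.some)
  have hCκ0 : 0 ≤ Cκ := le_trans (abs_nonneg _) (hCκ 0)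
  have step1 : ∀ x : SS E, ∫ y, h x * (κ ⟪(x : E), (y : E)⟫ * f y) ∂(sm E)
      = ∫ s, h x * (om n s * (κ s * PP s f x)) := by
    intro x
    rw [integral_const_mul, integral_const_mul]
    congr 1
    have hg : BM (fun y : SS E => κ ⟪(x : E), (y : E)⟫ * f y) := by
      refine ⟨?_, Cκ * Cf, fun y => ?_⟩
      · refine (hκ.comp ?_).mul hf.1
        exact (continuous_const.inner continuous_subtype_val).measurable
      · rw [abs_mul]
        exact mul_le_mul (hCκ _) (hCf _) (abs_nonneg _) hCκ0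
    rw [fiber hn h4 x hg]
    refine integral_congr_ae (Eventually.of_forall fun s => ?_)
    rcases le_or_gt 1 |s| with hs | hs
    · simp only [homz s hs, zero_mul]
    · have := abs_lt.mp hs
      simp only [ker_int_slice this.1.le this.2.le x]
  simp_rw [step1]
  have hint : Integrable (Function.uncurry fun (x : SS E) (s : ℝ) =>
      h x * (om n s * (κ s * PP s f x))) ((sm E).prod volume) := by
    have hdom : Integrable (fun p : SS E × ℝ => (Ch * (Cκ * Cf)) * om n p.2)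
        ((sm E).prod volume) := by
      have := Integrable.mul_prod (μ := sm E) (ν := (volume : Measure ℝ))
        (f := fun _ : SS E => Ch * (Cκ * Cf)) (g := om n) (integrable_const _) homi
      exact this
    refine hdom.mono' ?_ (Eventually.of_forall fun p => ?_)
    · have hm1 : Measurable (fun p : SS E × ℝ => h p.1) := hh.1.comp measurable_fst
      have hm2 : Measurable (fun p : SS E × ℝ => om n p.2) := homc.measurable.comp measurable_snd
      have hm3 : Measurable (fun p : SS E × ℝ => κ p.2) := hκ.comp measurable_snd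
      have hsw : Measurable (fun p : SS E × ℝ => ((p.2, p.1) : ℝ × SS E)) := measurable_swap
      have hm4 : Measurable (fun p : SS E × ℝ => PP p.2 f p.1) := by
        have h5 := hPm.comp hsw
        have h6 : ((fun p : ℝ × SS E => PP p.1 f p.2) ∘ fun p : SS E × ℝ => ((p.2, p.1) : ℝ × SS E))
          = fun p : SS E × ℝ => PP p.2 f p.1 := by
          funext p
          rfl
        rw [h6] at h5
        exact h5
      have hm : Measurable (fun p : SS E × ℝ => h p.1 * (om n p.2 * (κ p.2 * PP p.2 f p.1))) :=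
        hm1.mul (hm2.mul (hm3.mul hm4))
      exact hm.aestronglyMeasurable
    · simp only [Function.uncurry, Real.norm_eq_abs, abs_mul]
      rw [abs_of_nonneg (hom0 p.2)]
      have hb := ker_int_bound hn h4 hf hCf p.2 p.1
      have h1 : |κ p.2| * |PP p.2 f p.1| ≤ Cκ * Cf :=
        mul_le_mul (hCκ _) hb (abs_nonneg _) hCκ0
      calc |h p.1| * (om n p.2 * (|κ p.2| * |PP p.2 f p.1|))
          ≤ Ch * (om n p.2 * (Cκ * Cf)) :=
            mul_le_mul (hCh _) (mul_le_mul_of_nonneg_left h1 (hom0 _))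
              (mul_nonneg (hom0 _) (mul_nonneg (abs_nonneg _) (abs_nonneg _))) hCh0
        _ = Ch * (Cκ * Cf) * om n p.2 := by ring
  rw [integral_integral_swap hint]
  refine integral_congr_ae (Eventually.of_forall fun s => ?_)
  simp only
  rw [← integral_const_mul, ← integral_const_mul]
  refine integral_congr_ae (Eventually.of_forall fun x => ?_)
  simp only
  ring

-- comp
theorem comp_meas_act {F : Type*} [TopologicalSpace F] [SecondCountableTopology F]
    [MeasurableSpace F] [BorelSpace F] {f : SS E → ℝ} (hf : Measurable f) (p : F → SS E)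
    (hp : Continuous p) : Measurable (fun q : UG E × F => f (sa q.1 (p q.2))) := by
  have hc : Continuous (fun q : UG E × F => sa q.1 (p q.2)) :=
    sa_continuous.comp (continuous_fst.prodMk (hp.comp continuous_snd))
  exact hf.comp hc.measurable

theorem comp_integrable {α : Type*} [MeasurableSpace α] (μ : Measure α) [IsFiniteMeasure μ]
    {f : α → ℝ} (hf : Measurable f) (C : ℝ) (hC : ∀ x, |f x| ≤ C) : Integrable f μ :=
  Integrable.of_bound hf.aestronglyMeasurable C (Filter.Eventually.of_forall fun x => by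
    rw [Real.norm_eq_abs]; exact hC x)

theorem comp_PP (hn : 2 ≤ Module.finrank ℝ E) (r : ℝ) {f : SS E → ℝ} (hf : Measurable f)
    (g : UG E) (x : SS E) : PP r f (sa g x) = ∫ w, f (sa g (pt x r w)) ∂(sm (Pe x)) := by
  rw [PP_rot hn r hf g x, PP]

/-- swap of two integrals of a product of bounded functions of `g x` and `g (p w)` -/
theorem comp_swap {F : Type*} [TopologicalSpace F] [SecondCountableTopology F]
    [MeasurableSpace F] [BorelSpace F] (μ : Measure F) [IsProbabilityMeasure μ] {f h : SS E → ℝ}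
    (hf : BM f) (hh : BM h) (p : F → SS E) (hp : Continuous p) (x : SS E) :
    ∫ g, ∫ w, h (sa g (p w)) * f (sa g x) ∂μ ∂(hm E)
      = ∫ w, ∫ g, h (sa g (p w)) * f (sa g x) ∂(hm E) ∂μ := by
  obtain ⟨Cf, hCf⟩ := hf.2
  obtain ⟨Ch, hCh⟩ := hh.2
  have hCh0 : 0 ≤ Ch := (abs_nonneg _).trans (hCh x)
  have hm1 : Measurable (fun q : UG E × F => h (sa q.1 (p q.2)) * f (sa q.1 x)) := by
    refine (comp_meas_act hh.1 p hp).mul ?_
    exact hf.1.comp ((sa_continuous_left x).measurable.comp measurable_fst)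
  refine integral_integral_swap (f := fun (g : UG E) (w : F) => h (sa g (p w)) * f (sa g x)) ?_
  refine comp_integrable _ hm1 (Ch * Cf) ?_
  rintro ⟨g, w⟩
  show |h (sa g (p w)) * f (sa g x)| ≤ _
  rw [abs_mul]
  exact mul_le_mul (hCh _) (hCf _) (abs_nonneg _) hCh0

theorem comp_theta_meas (hn3 : 3 ≤ Module.finrank ℝ E) {f h : SS E → ℝ} (hf : BM f) (hh : BM h)
    (u v : ℝ) : Measurable (fun ξ : ℝ => ∫ x, h x * PP (u + v * ξ) f x ∂(sm E)) := by
  have : IsProbabilityMeasure (sm E) := sm_prob (by omega)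
  have h1 : Measurable (fun q : ℝ × SS E => h q.2 * PP (u + v * q.1) f q.2) := by
    refine (hh.1.comp measurable_snd).mul ?_
    have h2 : Measurable (fun q : ℝ × SS E => ((u + v * q.1, q.2) : ℝ × SS E)) :=
      (measurable_const.add (measurable_const.mul measurable_fst)).prodMk measurable_snd
    exact (PP_meas hn3 hf.1).comp h2
  exact (StronglyMeasurable.integral_prod_right' (ν := sm E) h1.stronglyMeasurable).measurable

theorem comp_theta_bound (hn3 : 3 ≤ Module.finrank ℝ E) {f h : SS E → ℝ} (hf : BM f) (hh : BM h)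
    (u v : ℝ) : ∃ C : ℝ, ∀ ξ : ℝ, |∫ x, h x * PP (u + v * ξ) f x ∂(sm E)| ≤ C := by
  have : IsProbabilityMeasure (sm E) := sm_prob (by omega)
  obtain ⟨e⟩ := sm_nonempty (E := E) (by omega)
  obtain ⟨Cf, hCf⟩ := hf.2
  obtain ⟨Ch, hCh⟩ := hh.2
  have hCh0 : 0 ≤ Ch := (abs_nonneg _).trans (hCh e)
  refine ⟨Ch * Cf, fun s => ?_⟩
  have hpb : ∀ x, |PP (u + v * s) f x| ≤ Cf := by
    intro x
    have hB := PP_basic hn3 (u + v * s) hf hh
    exact abs_le.mpr ⟨hB.2.2.2.2.1 (-Cf) x fun y => (abs_le.mp (hCf y)).1,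
      hB.2.2.2.1 Cf x fun y => (abs_le.mp (hCf y)).2⟩
  have h1 : ‖∫ x, h x * PP (u + v * s) f x ∂(sm E)‖ ≤ (Ch * Cf) * (sm E).real univ := by
    refine norm_integral_le_of_norm_le_const (Filter.Eventually.of_forall fun x => ?_)
    rw [Real.norm_eq_abs, abs_mul]
    exact mul_le_mul (hCh _) (hpb x) (abs_nonneg _) hCh0
  rw [probReal_univ, mul_one, Real.norm_eq_abs] at h1
  exact h1

theorem comp_fin {n : ℕ} (hn : Module.finrank ℝ E = n) (h5 : 5 ≤ n) (e : SS E) :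
    Module.finrank ℝ (Pe e) = n - 1 := finrank_Pe (by omega) e

theorem comp_prob {n : ℕ} (hn : Module.finrank ℝ E = n) (h5 : 5 ≤ n) (e : SS E) :
    IsProbabilityMeasure (sm (Pe e)) := by
  have h := comp_fin hn h5 e
  refine sm_prob ?_
  rw [h]; omega

theorem comp_cont (e : SS E) (b : ℝ) : Continuous (fun w : SS (Pe e) => pt e b w) := by
  have h1 : Continuous (fun w : SS (Pe e) => ((b, w) : ℝ × SS (Pe e))) := Continuous.prodMk_right b
  have h2 := (pt_cont e).comp h1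
  exact h2

theorem comp_C (hn2 : 2 ≤ Module.finrank ℝ E) {b : ℝ} {f h : SS E → ℝ} (hf : BM f)
    (e : SS E) (y : SS E) :
    ∫ g, h (sa g y) * PP b f (sa g e) ∂(hm E)
      = ∫ g, ∫ w', f (sa g (pt e b w')) * h (sa g y) ∂(sm (Pe e)) ∂(hm E) := by
  refine integral_congr_ae (Filter.Eventually.of_forall fun g => ?_)
  show h (sa g y) * PP b f (sa g e) = ∫ w', f (sa g (pt e b w')) * h (sa g y) ∂(sm (Pe e))
  rw [integral_mul_const, comp_PP hn2 b hf.1 g e, mul_comm]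

theorem comp_D (hn3 : 3 ≤ Module.finrank ℝ E) {a b : ℝ} (ha : |a| ≤ 1)
    (hb : |b| ≤ 1) {f h : SS E → ℝ} (hf : BM f) (hh : BM h) (e : SS E) (w w' : SS (Pe e)) :
    ∫ g, f (sa g (pt e b w')) * h (sa g (pt e a w)) ∂(hm E)
      = (fun ξ : ℝ => ∫ x, h x * PP (a * b + Real.sqrt (1 - a ^ 2) * Real.sqrt (1 - b ^ 2) * ξ) f x
          ∂(sm E)) ⟪(w : Pe e), (w' : Pe e)⟫ := by
  obtain ⟨ha1, ha2⟩ := abs_le.mp ha
  obtain ⟨hb1, hb2⟩ := abs_le.mp hb
  have h1 := PP_pair (by omega) hf hh (fun r => (PP_basic hn3 r hf hh).1.1) (pt e a w) (pt e b w')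
  rw [(pt_inner ha1 ha2 hb1 hb2 e w w').2] at h1
  refine Eq.trans ?_ h1.symm
  exact integral_congr_ae (Filter.Eventually.of_forall fun g => mul_comm _ _)

theorem comp_inner {n : ℕ} (hn : Module.finrank ℝ E = n) (h5 : 5 ≤ n) {a b : ℝ} (ha : |a| ≤ 1)
    (hb : |b| ≤ 1) {f h : SS E → ℝ} (hf : BM f) (hh : BM h) (e : SS E) (w : SS (Pe e)) :
    ∫ g, h (sa g (pt e a w)) * PP b f (sa g e) ∂(hm E) = ∫ ξ, om (n - 1) ξ *
      ∫ x, h x * PP (a * b + Real.sqrt (1 - a ^ 2) * Real.sqrt (1 - b ^ 2) * ξ) f x ∂(sm E) := by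
  have hp : IsProbabilityMeasure (sm (Pe e)) := comp_prob hn h5 e
  rw [comp_C (by omega) hf e (pt e a w)]
  rw [comp_swap (sm (Pe e)) hh hf _ (comp_cont e b) (pt e a w)]
  rw [integral_congr_ae (Filter.Eventually.of_forall (comp_D (by omega) ha hb hf hh e w))]
  exact sm_height (comp_fin hn h5 e) (by omega) w (comp_theta_meas (by omega) hf hh _ _) (comp_theta_bound (by omega) hf hh _ _)

theorem comp {n : ℕ} (hn : Module.finrank ℝ E = n) (h5 : 5 ≤ n) {a b : ℝ} (ha : |a| ≤ 1)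
    (hb : |b| ≤ 1) {f h : SS E → ℝ} (hf : BM f) (hh : BM h) :
    ∫ x, h x * PP a (PP b f) x ∂(sm E) = ∫ ξ, om (n - 1) ξ *
      ∫ x, h x * PP (a * b + Real.sqrt (1 - a ^ 2) * Real.sqrt (1 - b ^ 2) * ξ) f x ∂(sm E) := by
  have hn1 : 1 ≤ Module.finrank ℝ E := by omega
  have hn2 : 2 ≤ Module.finrank ℝ E := by omega
  have hn3 : 3 ≤ Module.finrank ℝ E := by omega
  obtain ⟨ha1, ha2⟩ := abs_le.mp ha
  have hbf : BM (PP b f) := (PP_basic hn3 b hf hh).1
  have hah : BM (PP a h) := (PP_basic hn3 a hh hf).1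
  rw [(PP_sym hn3 ha1 ha2 hbf hh).1]
  obtain ⟨e⟩ := sm_nonempty hn1
  have hp : IsProbabilityMeasure (sm (Pe e)) := comp_prob hn h5 e
  rw [sm_int hn1 e (f := fun x => PP b f x * PP a h x) (hbf.1.mul hah.1)]
  have hB : ∫ g, PP b f (sa g e) * PP a h (sa g e) ∂(hm E)
      = ∫ g, ∫ w, h (sa g (pt e a w)) * PP b f (sa g e) ∂(sm (Pe e)) ∂(hm E) := by
    refine integral_congr_ae (Filter.Eventually.of_forall fun g => ?_)
    show PP b f (sa g e) * PP a h (sa g e)
      = ∫ w, h (sa g (pt e a w)) * PP b f (sa g e) ∂(sm (Pe e))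
    rw [integral_mul_const, comp_PP hn2 a hh.1 g e, mul_comm]
  rw [hB, comp_swap (sm (Pe e)) hbf hh _ (comp_cont e a) e]
  rw [integral_congr_ae (Filter.Eventually.of_forall (comp_inner hn h5 ha hb hf hh e)),
    integral_const, probReal_univ, one_smul]


end Height

/-- Gram determinant -/
noncomputable def gr (ρ τ τ' : ℝ) : ℝ := 1 - τ ^ 2 - τ' ^ 2 - ρ ^ 2 + 2 * ρ * τ * τ'

/-- kernel of the pair of heights -/
noncomputable def kk (n : ℕ) (ρ τ τ' : ℝ) : ℝ := (cn (n - 1) / cn n) *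
  (max 0 (gr ρ τ τ')) ^ (((n : ℝ) - 4) / 2) *
  ((1 - ρ ^ 2) * (1 - τ ^ 2) * (1 - τ' ^ 2)) ^ (-(((n : ℝ) - 3) / 2))

/-- inner product of the components -/
noncomputable def rr (ρ τ τ' : ℝ) : ℝ :=
  (ρ - τ * τ') / (Real.sqrt (1 - τ ^ 2) * Real.sqrt (1 - τ' ^ 2))

section Pair
variable {E : Type*} [NormedAddCommGroup E] [InnerProductSpace ℝ E] [CompleteSpace E]
  [FiniteDimensional ℝ E] [MeasurableSpace E] [BorelSpace E]

-- pairlaw
theorem pairlaw_inv : (hm E).inv = hm E := by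
  set μ := hm E with hμ
  let ν : Measure (UG E) := μ.inv
  have hνr : ν.IsMulRightInvariant := inferInstance
  have hνp : IsProbabilityMeasure ν := by
    refine ⟨?_⟩
    show μ.inv univ = 1
    rw [Measure.inv_apply]
    simp
  have hμν : ν = μ := by
    ext s hs
    have hm : Measurable (fun p : UG E × UG E => s.indicator (1 : UG E → ENNReal) (p.1 * p.2)) :=
      (measurable_one.indicator hs).comp measurable_mul
    have e1 : ∫⁻ x, ∫⁻ y, s.indicator (1 : UG E → ENNReal) (x * y) ∂μ ∂ν = μ s := by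
      have : ∀ x, ∫⁻ y, s.indicator (1 : UG E → ENNReal) (x * y) ∂μ = μ s := by
        intro x
        rw [lintegral_mul_left_eq_self (fun z => s.indicator (1 : UG E → ENNReal) z) x,
          lintegral_indicator_one hs]
      simp only [this]
      rw [lintegral_const, measure_univ, mul_one]
    have e2 : ∫⁻ y, ∫⁻ x, s.indicator (1 : UG E → ENNReal) (x * y) ∂ν ∂μ = ν s := by
      have : ∀ y, ∫⁻ x, s.indicator (1 : UG E → ENNReal) (x * y) ∂ν = ν s := by
        intro y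
        rw [lintegral_mul_right_eq_self (fun z => s.indicator (1 : UG E → ENNReal) z) y,
          lintegral_indicator_one hs]
      simp only [this]
      rw [lintegral_const, measure_univ, mul_one]
    rw [← e1, ← e2]
    exact (lintegral_lintegral_swap hm.aemeasurable).symm
  exact hμν

theorem pairlaw_gr (ρ s t : ℝ) :
    gr ρ s t = (1 - ρ ^ 2) * (1 - s ^ 2) - (t - ρ * s) ^ 2 := by
  unfold gr; ring

theorem pairlaw_gr' (ρ s t : ℝ) :
    gr ρ s t = (1 - ρ ^ 2) * (1 - t ^ 2) - (s - ρ * t) ^ 2 := by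
  unfold gr; ring

/-- the density after the substitution -/
theorem pairlaw_dens {n : ℕ} (h6 : 6 ≤ n) {ρ s : ℝ} (hρ : |ρ| < 1) (hs : |s| < 1) (t : ℝ)
    (c : ℝ) (hc : c = Real.sqrt (1 - ρ ^ 2) * Real.sqrt (1 - s ^ 2)) :
    c⁻¹ * om (n - 1) ((t - ρ * s) / c) = om n t * kk n ρ s t := by
  have hρ2 : 0 < 1 - ρ ^ 2 := by
    have := (sq_lt_one_iff_abs_lt_one ρ).2 hρ
    linarith
  have hs2 : 0 < 1 - s ^ 2 := by
    have := (sq_lt_one_iff_abs_lt_one s).2 hs
    linarith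
  have hc0 : 0 < c := by
    rw [hc]
    exact mul_pos (Real.sqrt_pos.2 hρ2) (Real.sqrt_pos.2 hs2)
  have hcsq : c ^ 2 = (1 - ρ ^ 2) * (1 - s ^ 2) := by
    rw [hc, mul_pow, Real.sq_sqrt hρ2.le, Real.sq_sqrt hs2.le]
  have hgr : gr ρ s t = c ^ 2 - (t - ρ * s) ^ 2 := by rw [pairlaw_gr, hcsq]
  have hbs : bs ((t - ρ * s) / c) = max 0 (gr ρ s t) / c ^ 2 := by
    unfold bs
    rw [hgr]
    have h1 : 1 - ((t - ρ * s) / c) ^ 2 = (c ^ 2 - (t - ρ * s) ^ 2) / c ^ 2 := by
      field_simp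
    rw [h1]
    have h2 : (0 : ℝ) < c ^ 2 := by positivity
    rw [← max_div_div_right h2.le, zero_div]
  have hn1 : (((n - 1 : ℕ) : ℝ) - 3) / 2 = ((n : ℝ) - 4) / 2 := by
    rw [Nat.cast_sub (by omega)]
    push_cast
    ring
  have hn6 : (6 : ℝ) ≤ n := by exact_mod_cast h6
  rcases lt_or_ge |t| 1 with ht | ht
  · have ht2 : 0 < 1 - t ^ 2 := by
      have := (sq_lt_one_iff_abs_lt_one t).2 ht
      linarith
    have hcn : 0 < cn n := (om_basic (n := n) (by omega)).1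
    have hbst : bs t = 1 - t ^ 2 := max_eq_right ht2.le
    unfold om kk
    rw [hbs, hbst, hn1]
    have hM : 0 ≤ max 0 (gr ρ s t) := le_max_left _ _
    rw [Real.div_rpow hM (by positivity)]
    have e1 : ((1 - ρ ^ 2) * (1 - s ^ 2) * (1 - t ^ 2)) ^ (-(((n : ℝ) - 3) / 2)) =
        (c ^ 2) ^ (-(((n : ℝ) - 3) / 2)) * (1 - t ^ 2) ^ (-(((n : ℝ) - 3) / 2)) := by
      rw [← hcsq, Real.mul_rpow (by positivity) ht2.le]
    have e2 : (1 - t ^ 2) ^ (((n : ℝ) - 3) / 2) * (1 - t ^ 2) ^ (-(((n : ℝ) - 3) / 2)) = 1 := by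
      rw [← Real.rpow_add ht2, add_neg_cancel, Real.rpow_zero]
    have e3 : c⁻¹ * ((c ^ 2) ^ (((n : ℝ) - 4) / 2))⁻¹ = (c ^ 2) ^ (-(((n : ℝ) - 3) / 2)) := by
      have h1 : c ^ 2 = c ^ (2 : ℝ) := by norm_cast
      rw [h1, ← Real.rpow_mul hc0.le, ← Real.rpow_mul hc0.le, ← Real.rpow_neg hc0.le,
        ← Real.rpow_neg_one c, ← Real.rpow_add hc0]
      congr 1
      ring
    rw [e1, ← e3]
    calc c⁻¹ * (cn (n - 1) * (max 0 (gr ρ s t) ^ (((n : ℝ) - 4) / 2) / (c ^ 2) ^ (((n : ℝ) - 4) / 2)))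
        = cn (n - 1) * (max 0 (gr ρ s t)) ^ (((n : ℝ) - 4) / 2) *
          (c⁻¹ * ((c ^ 2) ^ (((n : ℝ) - 4) / 2))⁻¹) * 1 := by rw [div_eq_mul_inv]; ring
      _ = cn (n - 1) * (max 0 (gr ρ s t)) ^ (((n : ℝ) - 4) / 2) *
          (c⁻¹ * ((c ^ 2) ^ (((n : ℝ) - 4) / 2))⁻¹) *
          ((1 - t ^ 2) ^ (((n : ℝ) - 3) / 2) * (1 - t ^ 2) ^ (-(((n : ℝ) - 3) / 2))) := by rw [e2]
      _ = cn n * (1 - t ^ 2) ^ (((n : ℝ) - 3) / 2) * (cn (n - 1) / cn n *
          max 0 (gr ρ s t) ^ (((n : ℝ) - 4) / 2) *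
          (c⁻¹ * ((c ^ 2) ^ (((n : ℝ) - 4) / 2))⁻¹ * (1 - t ^ 2) ^ (-(((n : ℝ) - 3) / 2)))) := by
          field_simp
  · have h1 : om n t = 0 := (om_basic (n := n) (by omega)).2.2.2.1 t ht
    have h2 : gr ρ s t ≤ 0 := by
      rw [pairlaw_gr']
      have h3 : 1 ≤ t ^ 2 := (one_le_sq_iff_one_le_abs t).2 ht
      have h4 : (1 - ρ ^ 2) * (1 - t ^ 2) ≤ 0 := mul_nonpos_of_nonneg_of_nonpos hρ2.le (by linarith)
      have h5 := sq_nonneg (s - ρ * t)
      linarith
    have h3 : bs ((t - ρ * s) / c) = 0 := by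
      rw [hbs, max_eq_left h2, zero_div]
    rw [h1, zero_mul]
    unfold om
    rw [h3, hn1, Real.zero_rpow (by linarith)]
    ring

theorem pairlaw_subst (c d : ℝ) (hc : 0 < c) (F : ℝ → ℝ) :
    ∫ ξ, F (d + c * ξ) = c⁻¹ * ∫ t, F t := by
  have h1 := Measure.integral_comp_mul_left (fun x => F (d + x)) c
  rw [h1, integral_add_left_eq_self F d, abs_of_pos (inv_pos.2 hc), smul_eq_mul]

theorem pairlaw {n : ℕ} (hn : Module.finrank ℝ E = n) (h6 : 6 ≤ n) (v a b : SS E)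
    (hab : |⟪(a : E), (b : E)⟫| < 1) {ψ : ℝ → ℝ → ℝ} (hψ : Measurable (Function.uncurry ψ))
    (hψb : ∃ C : ℝ, ∀ s s', |ψ s s'| ≤ C) :
    ∫ g, ψ ⟪(v : E), (sa g a : E)⟫ ⟪(v : E), (sa g b : E)⟫ ∂(hm E)
      = ∫ τ, ∫ τ', om n τ * (om n τ' * (kk n ⟪(a : E), (b : E)⟫ τ τ' * ψ τ τ')) := by
  have hmeas : ∀ u w : SS E, Measurable (fun y : SS E => ψ ⟪(u : E), (y : E)⟫ ⟪(w : E), (y : E)⟫) := by
    intro u w
    have h1 : Measurable (fun y : SS E => (⟪(u : E), (y : E)⟫, ⟪(w : E), (y : E)⟫)) :=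
      ((continuous_const.inner continuous_subtype_val).measurable).prodMk
        ((continuous_const.inner continuous_subtype_val).measurable)
    exact hψ.comp h1
  obtain ⟨C, hC⟩ := hψb
  obtain ⟨ρ, hρ⟩ : ∃ ρ : ℝ, ρ = ⟪(a : E), (b : E)⟫ := ⟨_, rfl⟩
  rw [← hρ] at hab ⊢
  -- step 1
  obtain ⟨Ψ, hΨ⟩ : ∃ Ψ : SS E → ℝ, Ψ = fun y : SS E => ψ ⟪(a : E), (y : E)⟫ ⟪(b : E), (y : E)⟫ := ⟨_, rfl⟩
  have hΨm : Measurable Ψ := by rw [hΨ]; exact hmeas a b
  have hΨb : BM Ψ := ⟨hΨm, C, fun y => by rw [hΨ]; exact hC _ _⟩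
  have step1 : ∫ g, ψ ⟪(v : E), (sa g a : E)⟫ ⟪(v : E), (sa g b : E)⟫ ∂(hm E) = ∫ y, Ψ y ∂(sm E) := by
    have h1 : ∀ g : UG E, ψ ⟪(v : E), (sa g a : E)⟫ ⟪(v : E), (sa g b : E)⟫ = Ψ (sa g⁻¹ v) := by
      intro g
      rw [hΨ]
      simp only [sa_coe]
      rw [← av_inner_left g (v : E) (a : E), ← av_inner_left g (v : E) (b : E), real_inner_comm,
        real_inner_comm (av g⁻¹ (v : E)) (b : E)]
    simp only [h1]
    have : (hm E).IsInvInvariant := ⟨pairlaw_inv⟩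
    rw [integral_inv_eq_self (fun g => Ψ (sa g v)) (hm E)]
    exact (sm_int (by omega) v hΨm).symm
  rw [step1, fiber hn (by omega) a hΨb]
  congr 1
  funext s
  rcases lt_or_ge |s| 1 with hs | hs
  · rw [integral_const_mul]
    congr 1
    obtain ⟨w, hw⟩ := pt_surj (by omega) a b
    rw [← hρ] at hw
    obtain ⟨c, hc⟩ : ∃ c : ℝ, c = Real.sqrt (1 - ρ ^ 2) * Real.sqrt (1 - s ^ 2) := ⟨_, rfl⟩
    have hρ2 : 0 < 1 - ρ ^ 2 := by
      have := (sq_lt_one_iff_abs_lt_one ρ).2 hab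
      linarith
    have hs2 : 0 < 1 - s ^ 2 := by
      have := (sq_lt_one_iff_abs_lt_one s).2 hs
      linarith
    have hc0 : 0 < c := by
      rw [hc]
      exact mul_pos (Real.sqrt_pos.2 hρ2) (Real.sqrt_pos.2 hs2)
    have hab' := abs_lt.1 hab
    have hs' := abs_lt.1 hs
    have h1 : ∀ w' : SS (Pe a), Ψ (pt a s w') = ψ s (ρ * s + c * ⟪(w : Pe a), (w' : Pe a)⟫) := by
      intro w'
      have h2 := pt_inner hab'.1.le hab'.2.le hs'.1.le hs'.2.le a w w'
      have h3 := pt_inner hs'.1.le hs'.2.le hs'.1.le hs'.2.le a w' w'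
      rw [hΨ]
      simp only
      rw [h3.1, hw, h2.2, hc]
    have h2 : PP s Ψ a = ∫ ξ, om (n - 1) ξ * ψ s (ρ * s + c * ξ) := by
      unfold PP
      simp only [h1]
      refine sm_height (E := Pe a) (n := n - 1) (finrank_Pe (by omega) a) (by omega) w
        (ψ := fun ξ => ψ s (ρ * s + c * ξ)) ?_ ⟨C, fun ξ => hC _ _⟩
      have h3 : Measurable (fun ξ : ℝ => (s, ρ * s + c * ξ)) := by fun_prop
      exact hψ.comp h3
    rw [h2]
    have h3 : ∀ ξ : ℝ, om (n - 1) ξ * ψ s (ρ * s + c * ξ) =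
        (fun t => om (n - 1) ((t - ρ * s) / c) * ψ s t) (ρ * s + c * ξ) := by
      intro ξ
      simp only
      have : (ρ * s + c * ξ - ρ * s) / c = ξ := by field_simp; ring
      rw [this]
    simp only [h3]
    rw [pairlaw_subst c (ρ * s) hc0 (fun t => om (n - 1) ((t - ρ * s) / c) * ψ s t),
      ← integral_const_mul]
    congr 1
    funext t
    have h4 := pairlaw_dens h6 hab hs t c hc
    rw [← mul_assoc, h4, mul_assoc]
  · have h0 : om n s = 0 := (om_basic (n := n) (by omega)).2.2.2.1 s hs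
    simp [h0]

-- pairfiber
theorem pairfiber_prob (hn : 2 ≤ Module.finrank ℝ E) (x : SS E) :
    IsProbabilityMeasure (sm (Pe x)) := by
  obtain ⟨n, hn'⟩ : ∃ n, Module.finrank ℝ E = n + 1 := ⟨Module.finrank ℝ E - 1, by omega⟩
  exact sm_prob (by rw [finrank_Pe hn' x]; omega)

theorem pairfiber_pt (x : SS E) (r : ℝ) : Measurable (fun w : SS (Pe x) => pt x r w) :=
  ((pt_cont x).comp (continuous_const.prodMk continuous_id)).measurable

theorem pairfiber_ptm (x : SS E) : Measurable (fun p : ℝ × SS (Pe x) => pt x p.1 p.2) :=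
  (pt_cont x).measurable

theorem pairfiber_ptc (x : SS E) {α : Type*} [MeasurableSpace α] {r : α → ℝ} {w : α → SS (Pe x)}
    (hr : Measurable r) (hw : Measurable w) : Measurable (fun a => pt x (r a) (w a)) := by
  have h := (pairfiber_ptm x).comp (hr.prodMk hw)
  exact h

theorem pairfiber_PPm (hn : 3 ≤ Module.finrank ℝ E) {f : SS E → ℝ} (hf : Measurable f) (r : ℝ) :
    Measurable (PP r f) := by
  have h0 : Measurable (fun x : SS E => (r, x)) := measurable_const.prodMk measurable_id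
  have h := (PP_meas hn hf).comp h0
  exact h

theorem pairfiber_kmeas (hn : 3 ≤ Module.finrank ℝ E) :
    Measurable (fun p : ℝ × SS E => (sm (Pe p.2)).map (fun w => pt p.2 p.1 w)) := by
  refine Measure.measurable_of_measurable_coe _ fun B hB => ?_
  have key : ∀ p : ℝ × SS E, ((sm (Pe p.2)).map (fun w => pt p.2 p.1 w)) B =
      ENNReal.ofReal (PP p.1 (B.indicator (fun _ => (1 : ℝ))) p.2) := by
    intro p
    have := pairfiber_prob (by omega) p.2
    rw [Measure.map_apply (pairfiber_pt p.2 p.1) hB]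
    unfold PP
    have e : (fun w : SS (Pe p.2) => B.indicator (fun _ => (1 : ℝ)) (pt p.2 p.1 w)) =
        ((fun w : SS (Pe p.2) => pt p.2 p.1 w) ⁻¹' B).indicator (fun _ => (1 : ℝ)) := by
      funext w
      rfl
    rw [e, integral_indicator_const _ (pairfiber_pt p.2 p.1 hB), smul_eq_mul, mul_one,
      Measure.real, ENNReal.ofReal_toReal (measure_ne_top _ _)]
  simp only [key]
  exact ENNReal.measurable_ofReal.comp (PP_meas hn (measurable_const.indicator hB))

/-- the kernel of the slices -/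
noncomputable def pairfiber_k (hn : 3 ≤ Module.finrank ℝ E) :
    ProbabilityTheory.Kernel (ℝ × SS E) (SS E) :=
  ⟨fun p => (sm (Pe p.2)).map (fun w => pt p.2 p.1 w), pairfiber_kmeas hn⟩

theorem pairfiber_kprob (hn : 3 ≤ Module.finrank ℝ E) :
    ProbabilityTheory.IsMarkovKernel (pairfiber_k (E := E) hn) := by
  refine ⟨fun p => ?_⟩
  have := pairfiber_prob (by omega) p.2
  show IsProbabilityMeasure ((sm (Pe p.2)).map (fun w => pt p.2 p.1 w))
  exact Measure.isProbabilityMeasure_map (pairfiber_pt p.2 p.1).aemeasurable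

theorem pairfiber_meas (hn : 3 ≤ Module.finrank ℝ E) {α : Type*} [MeasurableSpace α]
    {F : α → SS E → ℝ} (hF : Measurable (Function.uncurry F)) {r : α → ℝ} (hr : Measurable r)
    {x : α → SS E} (hx : Measurable x) : Measurable (fun a => PP (r a) (F a) (x a)) := by
  have := pairfiber_kprob (E := E) hn
  let κ : ProbabilityTheory.Kernel α (SS E) :=
    (pairfiber_k hn).comap (fun a => (r a, x a)) (hr.prodMk hx)
  have h1 : StronglyMeasurable (fun a => ∫ y, Function.uncurry F (a, y) ∂(κ a)) :=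
    StronglyMeasurable.integral_kernel_prod_right' hF.stronglyMeasurable
  have h2 : (fun a => PP (r a) (F a) (x a)) = fun a => ∫ y, Function.uncurry F (a, y) ∂(κ a) := by
    funext a
    show _ = ∫ y, F a y ∂((sm (Pe (x a))).map (fun w => pt (x a) (r a) w))
    rw [integral_map (pairfiber_pt (x a) (r a)).aemeasurable]
    · rfl
    · exact (hF.comp (measurable_const.prodMk measurable_id)).aestronglyMeasurable
  rw [h2]
  exact h1.measurable

theorem pairfiber_ae {n : ℕ} (hn : Module.finrank ℝ E = n) (h4 : 4 ≤ n) (v a : SS E) :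
    ∀ᵐ g ∂(hm E), |⟪(v : E), (sa g a : E)⟫| < 1 := by
  have : IsProbabilityMeasure (sm E) := sm_prob (by omega)
  have hψ : Measurable (fun s : ℝ => if 1 ≤ |s| then (1 : ℝ) else 0) :=
    Measurable.ite (measurableSet_le measurable_const continuous_abs.measurable)
      measurable_const measurable_const
  have hb : ∀ s : ℝ, |(fun s : ℝ => if 1 ≤ |s| then (1 : ℝ) else 0) s| ≤ 1 := by
    intro s; dsimp only; split_ifs <;> simp
  have hin : Continuous (fun x : SS E => ⟪(v : E), (x : E)⟫) :=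
    continuous_const.inner continuous_subtype_val
  have h0 := sm_height hn h4 v hψ ⟨1, hb⟩
  have h1 : ∫ s, om n s * (fun s : ℝ => if 1 ≤ |s| then (1 : ℝ) else 0) s = 0 := by
    have : (fun s => om n s * (fun s : ℝ => if 1 ≤ |s| then (1 : ℝ) else 0) s) = fun _ => 0 := by
      funext s
      dsimp only
      split_ifs with h
      · rw [(om_basic h4).2.2.2.1 s h, zero_mul]
      · rw [mul_zero]
    rw [this, integral_zero]
  rw [h1] at h0
  have hint : Integrable (fun x : SS E => (fun s : ℝ => if 1 ≤ |s| then (1 : ℝ) else 0)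
      ⟪(v : E), (x : E)⟫) (sm E) :=
    Integrable.of_bound (hψ.comp hin.measurable).aestronglyMeasurable 1
      (Filter.Eventually.of_forall fun x => hb _)
  have h2 := (integral_eq_zero_iff_of_nonneg (μ := sm E) (fun x => by
    dsimp only [Pi.zero_apply]; split_ifs <;> simp) hint).1 h0
  have h3 : ∀ᵐ x : SS E ∂(sm E), |⟪(v : E), (x : E)⟫| < 1 := by
    filter_upwards [h2] with x hx
    by_contra hc
    rw [not_lt] at hc
    simp [hc] at hx
  rw [sm_eq (by omega) a] at h3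
  exact ae_of_ae_map (sa_continuous_left a).measurable.aemeasurable h3

theorem pairfiber_M (h4 : 4 ≤ Module.finrank ℝ E) (v : SS E) (ρ : ℝ) {f h : SS E → ℝ}
    (hf : BM f) (hh : BM h) : Measurable (Function.uncurry fun τ τ' : ℝ =>
      ∫ w, h (pt v τ w) * PP (rr ρ τ τ') (fun w' => f (pt v τ' w')) w ∂(sm (Pe v))) := by
  obtain ⟨m, hm'⟩ : ∃ m, Module.finrank ℝ E = m + 1 := ⟨Module.finrank ℝ E - 1, by omega⟩
  have hPv : Module.finrank ℝ (Pe v) = m := finrank_Pe hm' v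
  have : IsProbabilityMeasure (sm (Pe v)) := sm_prob (by omega)
  have h1 : Measurable (fun q : (ℝ × ℝ) × SS (Pe v) => h (pt v q.1.1 q.2)) :=
    hh.1.comp (pairfiber_ptc v (measurable_fst.comp measurable_fst) measurable_snd)
  have hrr : Measurable (fun q : (ℝ × ℝ) × SS (Pe v) => rr ρ q.1.1 q.1.2) := by
    unfold rr
    fun_prop
  have h0 : Measurable (Function.uncurry (fun (q : (ℝ × ℝ) × SS (Pe v)) (w' : SS (Pe v)) =>
      f (pt v q.1.2 w'))) :=
    hf.1.comp (pairfiber_ptc v (measurable_snd.comp (measurable_fst.comp measurable_fst))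
      measurable_snd)
  have h2 : Measurable (fun q : (ℝ × ℝ) × SS (Pe v) =>
      PP (rr ρ q.1.1 q.1.2) (fun w' => f (pt v q.1.2 w')) q.2) :=
    pairfiber_meas (by omega) h0 hrr measurable_snd
  have h3 : StronglyMeasurable (fun p : ℝ × ℝ => ∫ w, (fun q : (ℝ × ℝ) × SS (Pe v) =>
      h (pt v q.1.1 q.2) * PP (rr ρ q.1.1 q.1.2) (fun w' => f (pt v q.1.2 w')) q.2) (p, w)
      ∂(sm (Pe v))) :=
    StronglyMeasurable.integral_prod_right' (h1.mul h2).stronglyMeasurable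
  exact h3.measurable

theorem pairfiber_B (h4 : 4 ≤ Module.finrank ℝ E) (v : SS E) (ρ : ℝ) {f h : SS E → ℝ}
    (hf : BM f) (hh : BM h) : ∃ C : ℝ, ∀ τ τ' : ℝ,
      |∫ w, h (pt v τ w) * PP (rr ρ τ τ') (fun w' => f (pt v τ' w')) w ∂(sm (Pe v))| ≤ C := by
  obtain ⟨m, hm'⟩ : ∃ m, Module.finrank ℝ E = m + 1 := ⟨Module.finrank ℝ E - 1, by omega⟩
  have hPv : Module.finrank ℝ (Pe v) = m := finrank_Pe hm' v
  have : IsProbabilityMeasure (sm (Pe v)) := sm_prob (by omega)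
  obtain ⟨C1, hC1⟩ := hh.2
  obtain ⟨C2, hC2⟩ := hf.2
  refine ⟨C1 * C2, fun τ τ' => ?_⟩
  have hPP : ∀ w, |PP (rr ρ τ τ') (fun w' => f (pt v τ' w')) w| ≤ C2 := by
    intro w
    have := pairfiber_prob (E := Pe v) (by omega) w
    have h5 := norm_integral_le_of_norm_le_const (μ := sm (Pe w))
      (f := fun z => f (pt v τ' (pt w (rr ρ τ τ') z))) (C := C2)
      (Filter.Eventually.of_forall fun z => hC2 _)
    rw [probReal_univ, mul_one] at h5
    exact h5
  have h6 := norm_integral_le_of_norm_le_const (μ := sm (Pe v))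
    (f := fun w => h (pt v τ w) * PP (rr ρ τ τ') (fun w' => f (pt v τ' w')) w) (C := C1 * C2)
    (Filter.Eventually.of_forall fun w => by
      rw [Real.norm_eq_abs, abs_mul]
      exact mul_le_mul (hC1 _) (hPP w) (abs_nonneg _) ((abs_nonneg _).trans (hC1 v)))
  rw [probReal_univ, mul_one] at h6
  exact h6

theorem pairfiber_inner (h4 : 4 ≤ Module.finrank ℝ E) (v : SS E) {ρ τ τ' : ℝ} {f h : SS E → ℝ}
    (hf : BM f) (hh : BM h) (x y : SS E) (hx : ⟪(v : E), (x : E)⟫ = τ)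
    (hy : ⟪(v : E), (y : E)⟫ = τ') (hxy : ⟪(x : E), (y : E)⟫ = ρ) (ht : |τ| < 1)
    (ht' : |τ'| < 1) :
    ∫ k, h (sa (ex v k) x) * f (sa (ex v k) y) ∂(hm (Pe v)) =
      ∫ w, h (pt v τ w) * PP (rr ρ τ τ') (fun w' => f (pt v τ' w')) w ∂(sm (Pe v)) := by
  obtain ⟨m, hm'⟩ : ∃ m, Module.finrank ℝ E = m + 1 := ⟨Module.finrank ℝ E - 1, by omega⟩
  have hPv : Module.finrank ℝ (Pe v) = m := finrank_Pe hm' v
  obtain ⟨w, hw⟩ := pt_surj (by omega) v x
  obtain ⟨w', hw'⟩ := pt_surj (by omega) v y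
  rw [hx] at hw
  rw [hy] at hw'
  have ga' := abs_lt.1 ht
  have gb' := abs_lt.1 ht'
  have hww : ⟪(w : Pe v), (w' : Pe v)⟫ = rr ρ τ τ' := by
    have h1 := (pt_inner (r := τ) (r' := τ') ga'.1.le ga'.2.le gb'.1.le gb'.2.le v w w').2
    rw [← hw, ← hw', hxy] at h1
    have p1 : 0 < Real.sqrt (1 - τ ^ 2) := Real.sqrt_pos.2 (by nlinarith)
    have p2 : 0 < Real.sqrt (1 - τ' ^ 2) := Real.sqrt_pos.2 (by nlinarith)
    unfold rr
    rw [eq_div_iff (mul_pos p1 p2).ne']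
    linarith
  obtain ⟨C1, hC1⟩ := hh.2
  obtain ⟨C2, hC2⟩ := hf.2
  have hmh : BM (fun z : SS (Pe v) => h (pt v τ z)) :=
    ⟨hh.1.comp (pairfiber_pt v τ), C1, fun z => hC1 _⟩
  have hmf : BM (fun z : SS (Pe v) => f (pt v τ' z)) :=
    ⟨hf.1.comp (pairfiber_pt v τ'), C2, fun z => hC2 _⟩
  have e4 := PP_pair (E := Pe v) (by omega) hmf hmh
    (pairfiber_PPm (by omega) hmf.1) w w'
  rw [hww] at e4
  rw [e4]
  refine integral_congr_ae (Filter.Eventually.of_forall fun k => ?_)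
  dsimp only
  rw [hw, hw', ex_pt, ex_pt]

theorem pairfiber {n : ℕ} (hn : Module.finrank ℝ E = n) (h6 : 6 ≤ n) (v : SS E) {ρ : ℝ}
    (hρ : |ρ| < 1) {f h : SS E → ℝ} (hf : BM f) (hh : BM h) :
    ∫ x, h x * PP ρ f x ∂(sm E) = ∫ τ, ∫ τ', om n τ * (om n τ' * (kk n ρ τ τ' *
      ∫ w, h (pt v τ w) * PP (rr ρ τ τ') (fun w' => f (pt v τ' w')) w ∂(sm (Pe v)))) := by
  obtain ⟨m, rfl⟩ : ∃ m, n = m + 1 := ⟨n - 1, by omega⟩
  have hPv : Module.finrank ℝ (Pe v) = m := finrank_Pe hn v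
  have : IsProbabilityMeasure (sm (Pe v)) := sm_prob (by omega)
  obtain ⟨w1⟩ : Nonempty (SS (Pe v)) := sm_nonempty (by omega)
  have hρ' := abs_lt.1 hρ
  obtain ⟨C1, hC1⟩ := hh.2
  obtain ⟨C2, hC2⟩ := hf.2
  obtain ⟨a, b, hab⟩ : ∃ a b : SS E, ⟪(a : E), (b : E)⟫ = ρ :=
    ⟨v, pt v ρ w1, (pt_inner (r := ρ) (r' := ρ) hρ'.1.le hρ'.2.le hρ'.1.le hρ'.2.le v w1 w1).1⟩
  have e1 := PP_pair (by omega) hf hh
    (pairfiber_PPm (by omega) hf.1) a b
  rw [hab] at e1
  rw [e1]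
  -- averaging over the stabiliser
  have hma : Measurable (fun g : UG E => h (sa g a)) := hh.1.comp (sa_continuous_left a).measurable
  have hmb : Measurable (fun g : UG E => f (sa g b)) := hf.1.comp (sa_continuous_left b).measurable
  have e2 := cond_left v (Φ := fun g => h (sa g a) * f (sa g b)) (hma.mul hmb)
    ⟨C1 * C2, fun g => by
      rw [abs_mul]
      exact mul_le_mul (hC1 _) (hC2 _) (abs_nonneg _) ((abs_nonneg _).trans (hC1 a))⟩
  rw [e2]
  have e3 := pairlaw hn h6 v a b (by rw [hab]; exact hρ) (pairfiber_M (by omega) v ρ hf hh)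
    (pairfiber_B (by omega) v ρ hf hh)
  rw [hab] at e3
  rw [← e3]
  refine integral_congr_ae ?_
  filter_upwards [pairfiber_ae hn (by omega) v a, pairfiber_ae hn (by omega) v b] with g ga gb
  exact pairfiber_inner (by omega) v hf hh (sa g a) (sa g b) rfl rfl
    (by rw [sa_coe, sa_coe, av_inner, hab]) ga gb

end Pair


end Pool.Agent.helper440_simplex
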