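import Pool.Agent.helper440_simplex.Grp

/-! # The closed convex hull of the rotates of a function together with its gradient -/

set_option autoImplicit false
set_option linter.unusedSectionVars false

namespace Pool.Agent.helper440_simplex

open MeasureTheory Metric Set Filter Topology
open scoped RealInnerProductSpace

variable {E : Type*} [NormedAddCommGroup E] [InnerProductSpace ℝ E] [CompleteSpace E]
  [FiniteDimensional ℝ E]

/-- value and gradient -/
abbrev VV (E : Type*) [NormedAddCommGroup E] := C(SS E, ℝ × E)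

/-- rotate -/
noncomputable def TT (h : UG E) (φ : VV E) : VV E :=
  ⟨fun x => ((φ (sa h x)).1, av h⁻¹ (φ (sa h x)).2), by
    have h1 : Continuous (fun x => φ (sa h x)) := φ.continuous.comp (sa_continuous_right h)
    exact (continuous_fst.comp h1).prodMk
      (av_continuous.comp (continuous_const.prodMk (continuous_snd.comp h1)))⟩

theorem TT_fst (h : UG E) (φ : VV E) (x : SS E) : (TT h φ x).1 = (φ (sa h x)).1 := rfl

theorem TT_snd (h : UG E) (φ : VV E) (x : SS E) : (TT h φ x).2 = av h⁻¹ (φ (sa h x)).2 := rfl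

theorem TT_lin (h : UG E) (a b : ℝ) (φ ψ : VV E) :
    TT h (a • φ + b • ψ) = a • TT h φ + b • TT h ψ := by
  ext x
  · simp [TT_fst]
  · simp [TT_snd, av_add, av_smul]

theorem TT_mul (g h : UG E) (φ : VV E) : TT h (TT g φ) = TT (g * h) φ := by
  ext x
  · simp [TT_fst, sa_mul]
  · simp [TT_snd, sa_mul, av_mul]

theorem TT_one (φ : VV E) : TT 1 φ = φ := by
  ext x
  · simp [TT_fst, sa_one]
  · simp [TT_snd, sa_one, av_one]

theorem TT_dist (h : UG E) (φ ψ : VV E) : dist (TT h φ) (TT h ψ) ≤ dist φ ψ := by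
  rw [ContinuousMap.dist_le dist_nonneg]
  intro x
  have h1 := ContinuousMap.dist_apply_le_dist (f := φ) (g := ψ) (sa h x)
  refine le_trans (le_of_eq ?_) h1
  rw [Prod.dist_eq, Prod.dist_eq, TT_fst, TT_fst, TT_snd, TT_snd]
  congr 1
  rw [dist_eq_norm, ← av_sub, av_norm, dist_eq_norm]

theorem TT_continuous (h : UG E) : Continuous (TT h : VV E → VV E) :=
  (LipschitzWith.of_dist_le_mul (K := 1) fun φ ψ => by
    rw [NNReal.coe_one, one_mul]; exact TT_dist h φ ψ).continuous

theorem TT_orbit_continuous (φ : VV E) : Continuous (fun g : UG E => TT g φ) := by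
  have hc : Continuous (fun p : UG E × SS E =>
      ((φ (sa p.1 p.2)).1, av p.1⁻¹ (φ (sa p.1 p.2)).2)) := by
    have h1 : Continuous (fun p : UG E × SS E => φ (sa p.1 p.2)) :=
      φ.continuous.comp sa_continuous
    exact (continuous_fst.comp h1).prodMk
      (av_continuous.comp ((continuous_inv.comp continuous_fst).prodMk (continuous_snd.comp h1)))
  exact (ContinuousMap.curry (⟨_, hc⟩ : C(UG E × SS E, ℝ × E))).continuous

/-- the closed convex hull of the orbit -/
noncomputable def KS (φ : VV E) : Set (VV E) :=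
  closure (convexHull ℝ (range fun g : UG E => TT g φ))

theorem KS_convex (φ : VV E) : Convex ℝ (KS φ) := (convex_convexHull ℝ _).closure

theorem KS_orbit (φ : VV E) (g : UG E) : TT g φ ∈ KS φ :=
  subset_closure (subset_convexHull ℝ _ (mem_range_self g))

theorem KS_self (φ : VV E) : φ ∈ KS φ := by
  have := KS_orbit φ 1
  rwa [TT_one] at this

theorem KS_compact (φ : VV E) : IsCompact (KS φ) := by
  have h1 : IsCompact (range fun g : UG E => TT g φ) := isCompact_range (TT_orbit_continuous φ)
  have h2 := h1.totallyBounded.convexHull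
  exact h2.closure.isCompact_of_isClosed isClosed_closure

theorem KS_min (φ : VV E) {C : Set (VV E)} (hC : IsClosed C) (hcv : Convex ℝ C)
    (h : ∀ g : UG E, TT g φ ∈ C) : KS φ ⊆ C :=
  closure_minimal (convexHull_min (by rintro _ ⟨g, rfl⟩; exact h g) hcv) hC

theorem KS_inv (φ : VV E) (h : UG E) {ψ : VV E} (hψ : ψ ∈ KS φ) : TT h ψ ∈ KS φ := by
  have : KS φ ⊆ {ψ | TT h ψ ∈ KS φ} := by
    refine KS_min φ (isClosed_closure.preimage (TT_continuous h)) ?_ ?_
    · intro a ha b hb s r hs hr hsr
      show TT h (s • a + r • b) ∈ KS φ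
      rw [TT_lin]
      exact KS_convex φ ha hb hs hr hsr
    · intro g
      show TT h (TT g φ) ∈ KS φ
      rw [TT_mul]
      exact KS_orbit φ _
  exact this hψ

/-- the values stay in an interval -/
theorem KS_range (φ : VV E) {a b : ℝ} (h : ∀ x, (φ x).1 ∈ Icc a b) {ψ : VV E} (hψ : ψ ∈ KS φ)
    (x : SS E) : (ψ x).1 ∈ Icc a b := by
  have : KS φ ⊆ {ψ | (ψ x).1 ∈ Icc a b} := by
    refine KS_min φ (isClosed_Icc.preimage
      (continuous_fst.comp (continuous_eval_const x))) ?_ ?_
    · intro u hu v hv s r hs hr hsr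
      exact convex_Icc a b hu hv hs hr hsr
    · intro g
      exact h _
  exact this hψ

/-- the mean is preserved -/
theorem KS_mean (φ : VV E) (x : SS E) {ψ : VV E} (hψ : ψ ∈ KS φ) :
    ∫ g, (ψ (sa g x)).1 ∂(hm E) = ∫ g, (φ (sa g x)).1 ∂(hm E) := by
  have hint : ∀ ψ : VV E, Integrable (fun g => (ψ (sa g x)).1) (hm E) := fun ψ =>
    hm_integrable (continuous_fst.comp (ψ.continuous.comp (sa_continuous_left x)))
  have : KS φ ⊆ {ψ | ∫ g, (ψ (sa g x)).1 ∂(hm E) = ∫ g, (φ (sa g x)).1 ∂(hm E)} := by
    refine KS_min φ ?_ ?_ ?_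
    · refine isClosed_eq ?_ continuous_const
      refine (LipschitzWith.of_dist_le_mul (K := 1) fun ψ χ => ?_).continuous
      rw [NNReal.coe_one, one_mul, Real.dist_eq, ← integral_sub (hint ψ) (hint χ)]
      have := norm_integral_le_of_norm_le_const (μ := hm E) (C := dist ψ χ)
        (f := fun g => (ψ (sa g x)).1 - (χ (sa g x)).1) (Eventually.of_forall fun g => ?_)
      · simpa using this
      · have h1 := ContinuousMap.dist_apply_le_dist (f := ψ) (g := χ) (sa g x)
        rw [Prod.dist_eq] at h1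
        have h2 := (le_max_left _ _).trans h1
        rwa [Real.dist_eq] at h2
    · intro u hu v hv s r hs hr hsr
      simp only [mem_ofPred_eq] at hu hv ⊢
      have : ∀ g, (((s • u + r • v : VV E)) (sa g x)).1
          = s * (u (sa g x)).1 + r * (v (sa g x)).1 := fun g => by simp
      simp only [this]
      rw [integral_add ((hint u).const_mul s) ((hint v).const_mul r), integral_const_mul,
        integral_const_mul, hu, hv, ← add_mul, hsr, one_mul]
    · intro h
      simp only [mem_ofPred_eq, TT_fst, ← sa_mul]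
      exact hm_int_left h (fun g => (φ (sa g x)).1)
  exact this hψ

/-- the uniform first order expansion is preserved -/
theorem KS_mod (φ : VV E) {ε δ : ℝ}
    (h : ∀ x y : SS E, ‖(y : E) - x‖ < δ →
      |(φ y).1 - (φ x).1 - ⟪(φ x).2, (y : E) - x⟫| ≤ ε * ‖(y : E) - x‖)
    {ψ : VV E} (hψ : ψ ∈ KS φ) (x y : SS E) (hxy : ‖(y : E) - x‖ < δ) :
      |(ψ y).1 - (ψ x).1 - ⟪(ψ x).2, (y : E) - x⟫| ≤ ε * ‖(y : E) - x‖ := by
  have : KS φ ⊆ {ψ | |(ψ y).1 - (ψ x).1 - ⟪(ψ x).2, (y : E) - x⟫| ≤ ε * ‖(y : E) - x‖} := by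
    refine KS_min φ ?_ ?_ ?_
    · refine isClosed_le ?_ continuous_const
      have cx : Continuous (fun ψ : VV E => ψ x) := continuous_eval_const x
      have cy : Continuous (fun ψ : VV E => ψ y) := continuous_eval_const y
      exact (((continuous_fst.comp cy).sub (continuous_fst.comp cx)).sub
        ((continuous_snd.comp cx).inner continuous_const)).abs
    · intro u hu v hv s r hs hr hsr
      simp only [mem_ofPred_eq] at hu hv ⊢
      have e : ((s • u + r • v : VV E) y).1 - ((s • u + r • v : VV E) x).1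
            - ⟪((s • u + r • v : VV E) x).2, (y : E) - x⟫
          = s * ((u y).1 - (u x).1 - ⟪(u x).2, (y : E) - x⟫)
            + r * ((v y).1 - (v x).1 - ⟪(v x).2, (y : E) - x⟫) := by
        simp only [ContinuousMap.add_apply, ContinuousMap.smul_apply, Prod.fst_add, Prod.snd_add,
          Prod.smul_fst, Prod.smul_snd, smul_eq_mul, inner_add_left, real_inner_smul_left]
        ring
      rw [e]
      calc _ ≤ |s * ((u y).1 - (u x).1 - ⟪(u x).2, (y : E) - x⟫)|
            + |r * ((v y).1 - (v x).1 - ⟪(v x).2, (y : E) - x⟫)| := abs_add_le _ _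
        _ ≤ s * (ε * ‖(y : E) - x‖) + r * (ε * ‖(y : E) - x‖) := by
            rw [abs_mul, abs_mul, abs_of_nonneg hs, abs_of_nonneg hr]
            gcongr
        _ = _ := by rw [← add_mul, hsr, one_mul]
    · intro g
      have h1 := h (sa g x) (sa g y) (by rwa [sa_coe, sa_coe, ← av_sub, av_norm])
      simp only [mem_ofPred_eq, TT_fst, TT_snd, av_inner_left, av_sub]
      rw [sa_coe, sa_coe, ← av_sub, av_norm] at h1
      rwa [av_sub] at h1
  exact this hψ

end Pool.Agent.helper440_simplex
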