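import Pool.Agent.helper440_simplex.Disint

/-! # Directions at a point which lead to a given set are nearby -/

set_option autoImplicit false
set_option linter.unusedSectionVars false

namespace Pool.Agent.helper440_simplex

open MeasureTheory Metric Set Filter Topology
open scoped RealInnerProductSpace ENNReal

variable {E : Type*} [NormedAddCommGroup E] [InnerProductSpace ℝ E] [CompleteSpace E]
  [FiniteDimensional ℝ E] [MeasurableSpace E] [BorelSpace E]

theorem exists_compact_sub {T : Set (SS E)} (hT : MeasurableSet T) (x0 : SS E) {r : ℝ}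
    (hr : 0 ≤ r) (h : r < (hm E).real {g | sa g x0 ∈ T}) :
    ∃ K ⊆ T, IsCompact K ∧ K.Nonempty ∧ r < (hm E).real {g | sa g x0 ∈ K} := by
  set ν : Measure (SS E) := (hm E).map (fun g => sa g x0) with hν
  have hmeas : Measurable (fun g : UG E => sa g x0) := (sa_continuous_left x0).measurable
  have hνp : IsProbabilityMeasure ν := Measure.isProbabilityMeasure_map hmeas.aemeasurable
  have hνT : ENNReal.ofReal r < ν T := by
    rw [hν, Measure.map_apply hmeas hT, ENNReal.ofReal_lt_iff_lt_toReal hr (measure_ne_top _ _)]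
    exact h
  obtain ⟨K, hKT, hK, hKr⟩ := hT.exists_lt_isCompact hνT
  have hKne : K.Nonempty := by
    rw [nonempty_iff_ne_empty]
    rintro rfl
    simp at hKr
  refine ⟨K, hKT, hK, hKne, ?_⟩
  rw [hν, Measure.map_apply hmeas hK.measurableSet,
    ENNReal.ofReal_lt_iff_lt_toReal hr (measure_ne_top _ _)] at hKr
  exact hKr

theorem scaled_cheb {m : ℕ} (hn : Module.finrank ℝ E = m + 2) (v x0 : SS E) {κ q : ℝ}
    (hκ : 0 < κ) (hq : 0 < q) (hq2 : q ^ 2 = m + 2) :
    (hm E).real {g | κ / q ≤ |⟪(v : E), (sa g x0 : E)⟫|} ≤ 1 / κ ^ 2 := by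
  have h := ht_cheb hn v x0 (κ := κ / q) (by positivity)
  have e : ((m : ℝ) + 2) * (κ / q) ^ 2 = κ ^ 2 := by
    rw [← hq2]; field_simp
  rwa [e] at h

theorem ht_ge {m : ℕ} (hn : Module.finrank ℝ E = m + 2) (v x0 : SS E) {κ q : ℝ}
    (hκ : 0 < κ) (hq : 0 < q) (hq2 : q ^ 2 = m + 2) :
    1 - 1 / κ ^ 2 ≤ (hm E).real {g | -(κ / q) ≤ ⟪(v : E), (sa g x0 : E)⟫} := by
  have h := scaled_cheb hn v x0 hκ hq hq2
  have hS : MeasurableSet {g : UG E | -(κ / q) ≤ ⟪(v : E), (sa g x0 : E)⟫} :=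
    (isClosed_le continuous_const (ht_cont v x0)).measurableSet
  have h2 := probReal_compl_eq_one_sub (μ := hm E) hS
  have h3 : (hm E).real {g : UG E | -(κ / q) ≤ ⟪(v : E), (sa g x0 : E)⟫}ᶜ
      ≤ (hm E).real {g | κ / q ≤ |⟪(v : E), (sa g x0 : E)⟫|} := by
    refine measureReal_mono ?_ (measure_ne_top _ _)
    intro g hg
    have hg' : ⟪(v : E), (sa g x0 : E)⟫ < -(κ / q) := not_le.1 hg
    show κ / q ≤ |⟪(v : E), (sa g x0 : E)⟫|
    rw [le_abs]
    right
    linarith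
  linarith

theorem loc {m : ℕ} (hn : Module.finrank ℝ E = m + 2) (x y f : SS E) {κ1 κ2 q ζ θ R2 : ℝ}
    {A : Set E} (hA : MeasurableSet A)
    (hκ1 : 0 < κ1) (hκ2 : 0 < κ2) (hq : 0 < q) (hq2 : q ^ 2 = m + 2)
    (hs1 : κ1 / q ≤ 1 / 2) (hs2 : κ2 / q ≤ 1 / 2) (hζ : 1 / κ1 ^ 2 < ζ)
    (hx : ζ ≤ mA θ A f x) (hR2 : (7 * κ2 + 4 * κ1) / q < R2) :
    (hm E).real {g' | |⟪(y : E), av g' f⟫| ≤ 1 / 2 ∧
      R2 ≤ infDist (pj (y : E) (av g' f)) (Om θ A (x : E))} ≤ 3 / κ2 ^ 2 := by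
  have hxn : ‖(x : E)‖ = 1 := norm_eq_of_mem_sphere x
  have hyn : ‖(y : E)‖ = 1 := norm_eq_of_mem_sphere y
  have hfn : ‖(f : E)‖ = 1 := norm_eq_of_mem_sphere f
  set T : Set (SS E) := {z | |⟪(x : E), (z : E)⟫| ≤ 1 / 2 ∧ pj (x : E) (z : E) ∈ Om θ A x} with hT
  have hTm : MeasurableSet T := by
    have h1 : MeasurableSet {z : SS E | |⟪(x : E), (z : E)⟫| ≤ 1 / 2} :=
      measurableSet_le (measurable_const.inner measurable_subtype_coe).abs measurable_const
    have m2 : Measurable (fun z : SS E => ((x : E), pj (x : E) (z : E))) :=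
      measurable_const.prodMk (pj_meas.comp (measurable_const.prodMk measurable_subtype_coe))
    exact h1.inter (m2 (Om_meas θ hA))
  have hTP : (hm E).real {g | sa g f ∈ T} = mA θ A f x := rfl
  obtain ⟨K, hKT, hK, hKne, hKP⟩ := exists_compact_sub hTm f (r := 1 / κ1 ^ 2) (by positivity)
    (by rw [hTP]; linarith)
  have h1 : (hm E).real {g | κ1 / q ≤ ⟪(x : E), (sa g f : E)⟫} < (hm E).real {g | sa g f ∈ K} := by
    refine lt_of_le_of_lt ?_ hKP
    refine le_trans ?_ (scaled_cheb hn x f hκ1 hq hq2)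
    refine measureReal_mono ?_ (measure_ne_top _ _)
    intro g hg
    have hg' : κ1 / q ≤ ⟪(x : E), (sa g f : E)⟫ := hg
    exact hg'.trans (le_abs_self _)
  have ha : |κ1 / q| ≤ 1 / 2 := by rwa [abs_of_pos (by positivity)]
  have hb : |κ2 / q| ≤ 1 / 2 := by rwa [abs_of_pos (by positivity)]
  set R1 := (κ1 + κ2) / q * (5 / 4) with hR1
  have h2 := iso (by omega) x f hK.isClosed hKne ha hb le_rfl (by positivity) (δ := R1)
    (by rw [hR1, ← add_div]
        refine mul_le_mul_of_nonneg_left (by norm_num) (by positivity)) h1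
  have h3 := ht_ge hn x f hκ2 hq hq2
  have hcl : MeasurableSet {g : UG E | infDist (sa g f) K ≤ R1} :=
    (isClosed_le ((continuous_infDist_pt K).comp (sa_continuous_left f))
      continuous_const).measurableSet
  have h4 := probReal_compl_eq_one_sub (μ := hm E) hcl
  have h5 := scaled_cheb hn x f hκ2 hq hq2
  have h6 := scaled_cheb hn y f hκ2 hq hq2
  have hsub : {g' : UG E | |⟪(y : E), av g' f⟫| ≤ 1 / 2 ∧
      R2 ≤ infDist (pj (y : E) (av g' f)) (Om θ A (x : E))}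
      ⊆ {g : UG E | infDist (sa g f) K ≤ R1}ᶜ ∪ {g | κ2 / q ≤ |⟪(x : E), (sa g f : E)⟫|}
        ∪ {g | κ2 / q ≤ |⟪(y : E), (sa g f : E)⟫|} := by
    rintro g ⟨hg1, hg2⟩
    by_contra hcon
    simp only [mem_union, mem_compl_iff, mem_ofPred_eq, not_or, not_le] at hcon
    obtain ⟨⟨c1, c2⟩, c3⟩ := hcon
    obtain ⟨z0, hz0K, hz0⟩ := hK.exists_infDist_eq_dist hKne (sa g f)
    rw [hz0, Subtype.dist_eq, dist_eq_norm] at c1
    have hz0T := hKT hz0K
    have hz0n : ‖(z0 : E)‖ = 1 := norm_eq_of_mem_sphere z0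
    set z : E := (sa g f : E) with hz
    have hzn : ‖z‖ = 1 := norm_eq_of_mem_sphere (sa g f)
    have d1 := pj_near hyn hzn hg1
    have d2 := pj_near hxn hz0n hz0T.1
    have d3 : |⟪(x : E), (z0 : E)⟫| ≤ |⟪(x : E), z⟫| + ‖z - z0‖ := by
      have e1 : ⟪(x : E), (z0 : E)⟫ = ⟪(x : E), z⟫ - ⟪(x : E), z - z0⟫ := by
        rw [inner_sub_right]; ring
      rw [e1]
      refine (abs_sub _ _).trans ?_
      have := abs_real_inner_le_norm (x : E) (z - z0)
      rw [hxn, one_mul] at this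
      linarith
    have d4 : dist (pj (y : E) z) (pj (x : E) z0) ≤ 3 / 2 * (κ2 / q) + R1
        + 3 / 2 * (κ2 / q + R1) := by
      rw [dist_eq_norm]
      have e1 : pj (y : E) z - pj (x : E) z0
          = (pj (y : E) z - z) + (z - z0) - (pj (x : E) z0 - z0) := by abel
      rw [e1]
      refine (norm_sub_le _ _).trans ?_
      refine (add_le_add (norm_add_le _ _) le_rfl).trans ?_
      have f1 : 3 / 2 * |⟪(y : E), z⟫| ≤ 3 / 2 * (κ2 / q) := by linarith
      have f2 : 3 / 2 * |⟪(x : E), (z0 : E)⟫| ≤ 3 / 2 * (κ2 / q + R1) := by linarith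
      linarith
    have d5 : infDist (pj (y : E) z) (Om θ A x) ≤ dist (pj (y : E) z) (pj (x : E) z0) :=
      infDist_le_dist_of_mem hz0T.2
    have d6 : 3 / 2 * (κ2 / q) + R1 + 3 / 2 * (κ2 / q + R1) ≤ (7 * κ2 + 4 * κ1) / q := by
      rw [hR1]
      have : (7 * κ2 + 4 * κ1) / q - (3 / 2 * (κ2 / q) + (κ1 + κ2) / q * (5 / 4)
          + 3 / 2 * (κ2 / q + (κ1 + κ2) / q * (5 / 4))) = (7 / 8 * κ2 + 7 / 8 * κ1) / q := by
        field_simp; ring
      have h0 : 0 ≤ (7 / 8 * κ2 + 7 / 8 * κ1) / q := by positivity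
      linarith
    have d7 : R2 ≤ infDist (pj (y : E) z) (Om θ A x) := hg2
    linarith
  refine (measureReal_mono hsub (measure_ne_top _ _)).trans ?_
  refine (measureReal_union_le _ _).trans ?_
  have h7 := measureReal_union_le (μ := hm E) ({g : UG E | infDist (sa g f) K ≤ R1}ᶜ)
    {g | κ2 / q ≤ |⟪(x : E), (sa g f : E)⟫|}
  have e : 3 / κ2 ^ 2 = 1 / κ2 ^ 2 + 1 / κ2 ^ 2 + 1 / κ2 ^ 2 := by ring
  rw [e]
  linarith

end Pool.Agent.helper440_simplex
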