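import Pool.Agent.helper440_simplex.LocalA5

set_option autoImplicit false
set_option linter.unusedSectionVars false

namespace Pool.Agent.helper440_simplex

open MeasureTheory Metric Set Filter Topology
open scoped RealInnerProductSpace

section CoreW
variable {E : Type*} [NormedAddCommGroup E] [InnerProductSpace ℝ E] [CompleteSpace E]
  [FiniteDimensional ℝ E] [MeasurableSpace E] [BorelSpace E]

-- NX_small
theorem NX_small_W {E : Type*} [NormedAddCommGroup E] [InnerProductSpace ℝ E] [CompleteSpace E]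
    [FiniteDimensional ℝ E] [MeasurableSpace E] [BorelSpace E] (v : SS E) (w0 : SS (Pe v)) :
    ∃ W : SS E → SS (Pe v), Measurable W ∧
      ∀ (τ : ℝ) (w : SS (Pe v)), |τ| < 1 → W (pt v τ w) = w := by
  classical
  let G : Pe v → Pe v := fun u => if u = 0 then (w0 : Pe v) else ‖u‖⁻¹ • u
  have hG : Measurable G := by
    refine Measurable.ite (measurableSet_singleton 0) measurable_const ?_
    exact (measurable_norm.inv).smul measurable_id
  have hG1 : ∀ u, ‖G u‖ = 1 := by
    intro u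
    by_cases h : u = 0
    · simp only [G, if_pos h]; exact norm_eq_of_mem_sphere w0
    · simp only [G, if_neg h]
      rw [norm_smul, norm_inv, norm_norm, inv_mul_cancel₀ (norm_ne_zero_iff.mpr h)]
  refine ⟨fun x => ⟨G ((Pe v).orthogonalProjectionOnto (x : E)), by
    rw [mem_sphere_zero_iff_norm]; exact hG1 _⟩, ?_, ?_⟩
  · refine Measurable.subtype_mk ?_
    exact hG.comp (((Pe v).orthogonalProjectionOnto).continuous.measurable.comp
      measurable_subtype_coe)
  · intro τ w hτ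
    have hs : 0 < Real.sqrt (1 - τ ^ 2) := by
      apply Real.sqrt_pos.mpr
      have := (sq_lt_one_iff_abs_lt_one τ).mpr hτ
      linarith
    have hp : (Pe v).orthogonalProjectionOnto ((pt v τ w : SS E) : E)
        = Real.sqrt (1 - τ ^ 2) • (w : Pe v) := by
      rw [pt_coe (abs_lt.mp hτ).1.le (abs_lt.mp hτ).2.le]
      rw [map_add, map_smul, map_smul, Submodule.orthogonalProjectionOnto_mem_subspace_eq_self]
      have h0 : (Pe v).orthogonalProjectionOnto ((v : SS E) : E) = 0 := by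
        rw [Submodule.orthogonalProjectionOnto_eq_zero_iff]
        exact Submodule.le_orthogonal_orthogonal _ (Submodule.mem_span_singleton_self _)
      rw [h0, smul_zero, zero_add]
    have hw : ‖(w : Pe v)‖ = 1 := norm_eq_of_mem_sphere w
    have hw0 : (w : Pe v) ≠ 0 := by
      intro h
      rw [h, norm_zero] at hw
      exact zero_ne_one hw
    apply Subtype.ext
    show G ((Pe v).orthogonalProjectionOnto ((pt v τ w : SS E) : E)) = w
    rw [hp]
    have hne : Real.sqrt (1 - τ ^ 2) • (w : Pe v) ≠ 0 := smul_ne_zero hs.ne' hw0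
    simp only [G, if_neg hne]
    rw [norm_smul, hw, mul_one, Real.norm_of_nonneg hs.le, smul_smul, inv_mul_cancel₀ hs.ne',
      one_smul]

theorem NX_small_cont {n : ℕ} (hn : 4 ≤ n) (c : ℝ) :
    Continuous (fun τ => ∫ s in c..τ, om n s) ∧ Monotone (fun τ => ∫ s in c..τ, om n s) ∧
    (∀ τ, |∫ s in c..τ, om n s| ≤ 1) ∧ (∀ b e : ℝ, b ≤ e → (∫ s in c..e, om n s)
      - ∫ s in c..b, om n s = ∫ s in Icc b e, om n s) := by
  obtain ⟨_, hc, h0, _, _, _, hi, h1, _, _⟩ := om_basic hn
  have hii : ∀ a b : ℝ, IntervalIntegrable (om n) volume a b := fun a b => hi.intervalIntegrable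
  have hsub : ∀ b e : ℝ, (∫ s in c..e, om n s) - ∫ s in c..b, om n s = ∫ s in b..e, om n s :=
    fun b e => intervalIntegral.integral_interval_sub_left (hii _ _) (hii _ _)
  refine ⟨?_, ?_, ?_, ?_⟩
  · exact intervalIntegral.continuous_primitive hii c
  · intro b e hbe
    have := hsub b e
    have h2 : 0 ≤ ∫ s in b..e, om n s := intervalIntegral.integral_nonneg hbe fun u _ => h0 u
    show ∫ s in c..b, om n s ≤ ∫ s in c..e, om n s
    linarith
  · intro τ
    have h2 := intervalIntegral.norm_integral_le_integral_norm_uIoc (f := om n) (a := c) (b := τ)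
      (μ := volume)
    rw [Real.norm_eq_abs] at h2
    refine h2.trans ?_
    rw [← h1]
    have h3 : ∀ x, ‖om n x‖ = om n x := fun x => by rw [Real.norm_eq_abs, abs_of_nonneg (h0 x)]
    simp only [h3]
    exact setIntegral_le_integral hi (Filter.Eventually.of_forall h0)
  · intro b e hbe
    rw [hsub, intervalIntegral.integral_of_le hbe, integral_Icc_eq_integral_Ioc]

theorem NX_small_level {n : ℕ} (hn : 4 ≤ n) (c x y : ℝ) (hxy : x ≤ y) :
    ∫ τ, om n τ * (if x ≤ ∫ s in c..τ, om n s ∧ ∫ s in c..τ, om n s ≤ y then 1 else 0)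
      ≤ y - x := by
  obtain ⟨_, hc, h0, h1, _, _, hi, _, _, _⟩ := om_basic hn
  obtain ⟨hT, hTm, _, hTs⟩ := NX_small_cont hn c
  set S : Set ℝ := Icc (-1) 1 ∩ (fun τ => ∫ s in c..τ, om n s) ⁻¹' (Icc x y) with hS
  have hSc : IsCompact S := isCompact_Icc.inter_right (isClosed_Icc.preimage hT)
  rcases S.eq_empty_or_nonempty with he | hne
  · have : ∀ τ, om n τ * (if x ≤ ∫ s in c..τ, om n s ∧ ∫ s in c..τ, om n s ≤ y then (1:ℝ) else 0)
        = 0 := by
      intro τ
      by_cases hτ : |τ| ≤ 1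
      · rw [if_neg, mul_zero]
        intro h
        have : τ ∈ S := ⟨abs_le.mp hτ, h⟩
        rw [he] at this
        exact this
      · rw [h1 τ (not_le.mp hτ).le, zero_mul]
    simp only [this, integral_zero]
    linarith
  · obtain ⟨b, hbS, hb⟩ := hSc.exists_isLeast hne
    obtain ⟨e, heS, he⟩ := hSc.exists_isGreatest hne
    have hbe : b ≤ e := hb heS
    have h2 : ∫ τ, om n τ * (if x ≤ ∫ s in c..τ, om n s ∧ ∫ s in c..τ, om n s ≤ y then 1 else 0)
        ≤ ∫ τ, (Icc b e).indicator (om n) τ := by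
      refine integral_mono_of_nonneg (Filter.Eventually.of_forall fun τ => ?_)
        (hi.indicator measurableSet_Icc) (Filter.Eventually.of_forall fun τ => ?_)
      · exact mul_nonneg (h0 τ) (by split_ifs <;> norm_num)
      · show om n τ * (if x ≤ ∫ s in c..τ, om n s ∧ ∫ s in c..τ, om n s ≤ y then (1:ℝ) else 0)
          ≤ (Icc b e).indicator (om n) τ
        by_cases hτ : |τ| ≤ 1
        · split_ifs with h
          · have hτS : τ ∈ S := ⟨abs_le.mp hτ, h⟩
            rw [indicator_of_mem (show τ ∈ Icc b e from ⟨hb hτS, he hτS⟩), mul_one]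
          · rw [mul_zero]
            exact indicator_nonneg (fun _ _ => h0 _) _
        · rw [h1 τ (not_le.mp hτ).le, zero_mul]
          exact indicator_nonneg (fun _ _ => h0 _) _
    refine h2.trans ?_
    rw [integral_indicator measurableSet_Icc, ← hTs b e hbe]
    have h3 := hbS.2.1
    have h4 := heS.2.2
    simp only at h3 h4
    linarith

theorem NX_small_bath {n : ℕ} (hn : 4 ≤ n) (c al : ℝ) (h : ℝ → ℝ) (hm : Measurable h)
    (h01 : ∀ τ, 0 ≤ h τ ∧ h τ ≤ 1) (hs : ∀ τ, al ≤ ∫ s in c..τ, om n s → h τ = 0) :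
    (∫ τ, om n τ * h τ) ^ 2 / 4
      ≤ al * (∫ τ, om n τ * h τ) - ∫ τ, om n τ * (h τ * ∫ s in c..τ, om n s) := by
  obtain ⟨_, hc, h0, h1, _, _, hi, _, _, _⟩ := om_basic hn
  obtain ⟨hT, hTm, hTb, hTs⟩ := NX_small_cont hn c
  set N := ∫ τ, om n τ * h τ with hN
  have hN0 : 0 ≤ N := integral_nonneg fun τ => mul_nonneg (h0 τ) (h01 τ).1
  have hbd : ∀ {g : ℝ → ℝ}, Measurable g → (∀ τ, |g τ| ≤ 1) →
      Integrable (fun τ => om n τ * g τ) := by
    intro g hg hg1
    refine hi.mul_bdd (c := 1) hg.aestronglyMeasurable (Filter.Eventually.of_forall fun τ => ?_)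
    rw [Real.norm_eq_abs]; exact hg1 τ
  have i1 : Integrable (fun τ => om n τ * h τ) := hbd hm fun τ => by
    rw [abs_of_nonneg (h01 τ).1]; exact (h01 τ).2
  have i2 : Integrable (fun τ => om n τ * (h τ * ∫ s in c..τ, om n s)) := by
    refine hbd (hm.mul hT.measurable) fun τ => ?_
    rw [abs_mul, abs_of_nonneg (h01 τ).1]
    exact mul_le_one₀ (h01 τ).2 (abs_nonneg _) (hTb τ)
  set l := N / 2 with hl
  have hl0 : 0 ≤ l := by positivity
  let J : ℝ → ℝ := fun τ => if al - l ≤ ∫ s in c..τ, om n s ∧ ∫ s in c..τ, om n s ≤ al then 1 else 0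
  have hJm : Measurable J := by
    refine Measurable.ite ?_ measurable_const measurable_const
    exact (hT.measurable measurableSet_Icc : MeasurableSet ((fun τ => ∫ s in c..τ, om n s) ⁻¹' (Icc (al - l) al)))
  have i3 : Integrable (fun τ => om n τ * J τ) := hbd hJm fun τ => by
    show |(if _ then (1:ℝ) else 0)| ≤ 1
    split_ifs <;> simp
  have hJ : ∫ τ, om n τ * J τ ≤ l := by
    have := NX_small_level hn c (al - l) al (by linarith)
    simpa [J] using this
  have key : ∫ τ, (l * (om n τ * h τ) - l * (om n τ * J τ))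
      ≤ ∫ τ, (al * (om n τ * h τ) - om n τ * (h τ * ∫ s in c..τ, om n s)) := by
    refine integral_mono ((i1.const_mul l).sub (i3.const_mul l)) ((i1.const_mul al).sub i2) fun τ => ?_
    show l * (om n τ * h τ) - l * (om n τ * J τ)
      ≤ al * (om n τ * h τ) - om n τ * (h τ * ∫ s in c..τ, om n s)
    have hh := h01 τ
    have hJ0 : 0 ≤ J τ ∧ J τ ≤ 1 := by
      show 0 ≤ (if _ then (1:ℝ) else 0) ∧ (if _ then (1:ℝ) else 0) ≤ 1
      split_ifs <;> simp
    have hpt : l * h τ - l * J τ ≤ al * h τ - h τ * ∫ s in c..τ, om n s := by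
      by_cases hA : al ≤ ∫ s in c..τ, om n s
      · rw [hs τ hA]
        have := mul_nonneg hl0 hJ0.1
        linarith
      · rw [not_le] at hA
        by_cases hB : al - l ≤ ∫ s in c..τ, om n s
        · have hJ1 : J τ = 1 := if_pos ⟨hB, hA.le⟩
          rw [hJ1]
          have e1 := mul_nonneg hh.1 (sub_nonneg.mpr hA.le)
          have e2 := mul_nonneg hl0 (sub_nonneg.mpr hh.2)
          nlinarith
        · rw [not_le] at hB
          have e1 := mul_nonneg hh.1 (sub_nonneg.mpr hB.le)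
          have e2 := mul_nonneg hl0 hJ0.1
          nlinarith
    have := mul_le_mul_of_nonneg_left hpt (h0 τ)
    linarith
  rw [integral_sub (i1.const_mul l) (i3.const_mul l), integral_sub (i1.const_mul al) i2,
    integral_const_mul, integral_const_mul, integral_const_mul, ← hN] at key
  have := mul_le_mul_of_nonneg_left hJ hl0
  nlinarith

theorem NX_small_pm0 {E : Type*} [NormedAddCommGroup E] [InnerProductSpace ℝ E] [CompleteSpace E]
    [FiniteDimensional ℝ E] [MeasurableSpace E] [BorelSpace E] (v : SS E) :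
    Measurable (fun p : SS (Pe v) × ℝ => pt v p.2 p.1) := by
  have h := (pt_cont v).comp (continuous_snd.prodMk continuous_fst :
    Continuous (fun p : SS (Pe v) × ℝ => (p.2, p.1)))
  exact h.measurable

theorem NX_small_pm1 {E : Type*} [NormedAddCommGroup E] [InnerProductSpace ℝ E] [CompleteSpace E]
    [FiniteDimensional ℝ E] [MeasurableSpace E] [BorelSpace E] (v : SS E) (w : SS (Pe v)) :
    Measurable (fun τ : ℝ => pt v τ w) := by
  have h := (pt_cont v).comp (continuous_id.prodMk continuous_const :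
    Continuous (fun τ : ℝ => (τ, w)))
  exact h.measurable

theorem NX_small_pm {E : Type*} [NormedAddCommGroup E] [InnerProductSpace ℝ E] [CompleteSpace E]
    [FiniteDimensional ℝ E] [MeasurableSpace E] [BorelSpace E] {n : ℕ} (hn : 4 ≤ n) (v : SS E)
    {f : SS E → ℝ} (hf : Measurable f) (hb : ∀ x, |f x| ≤ 1) :
    Measurable (vf n v f) ∧ (∀ w, |vf n v f w| ≤ 1) ∧
      ∀ w, Integrable (fun τ => om n τ * f (pt v τ w)) := by
  obtain ⟨_, hc, h0, _, _, _, hi, hi1, _, _⟩ := om_basic hn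
  have hj0 : Measurable (fun p : SS (Pe v) × ℝ => f (pt v p.2 p.1)) := hf.comp (NX_small_pm0 v)
  have hj1 : Measurable (fun p : SS (Pe v) × ℝ => om n p.2) := hc.measurable.comp measurable_snd
  have hj : Measurable (fun p : SS (Pe v) × ℝ => om n p.2 * f (pt v p.2 p.1)) := hj1.mul hj0
  have hI : ∀ w, Integrable (fun τ => om n τ * f (pt v τ w)) := fun w => by
    have h1 : Measurable (fun τ : ℝ => f (pt v τ w)) := hf.comp (NX_small_pm1 v w)
    refine hi.mul_bdd (c := 1) h1.aestronglyMeasurable (Filter.Eventually.of_forall fun τ => ?_)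
    rw [Real.norm_eq_abs]; exact hb _
  refine ⟨?_, ?_, hI⟩
  · have h2 := hj.stronglyMeasurable.integral_prod_right' (ν := (volume : Measure ℝ))
    dsimp only at h2
    exact h2.measurable
  · intro w
    show |∫ τ, om n τ * f (pt v τ w)| ≤ 1
    rw [← hi1]
    refine (abs_integral_le_integral_abs).trans (integral_mono (hI w).abs hi fun τ => ?_)
    show |om n τ * f (pt v τ w)| ≤ om n τ
    rw [abs_mul, abs_of_nonneg (h0 τ)]
    exact mul_le_of_le_one_right (h0 τ) (hb _)


theorem NX_small_one {t : ℕ} (ht : 3 ≤ t) {E : Type*} [NormedAddCommGroup E]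
    [InnerProductSpace ℝ E] [CompleteSpace E]
    [FiniteDimensional ℝ E] [MeasurableSpace E] [BorelSpace E] {n : ℕ}
    (hE : Module.finrank ℝ E = n) (hn : 6 ≤ n) (v : SS E) {c a C2 C3 : ℝ}
    (ha : 0 ≤ a) (hca : c + t * a / Real.sqrt n < 1)
    (hca' : -1 < c - t * a / Real.sqrt n)
    (hρ : |rhoc t c| < 1) (hk : 0 < kk n (rhoc t c) c c) {A : Set (SS E)} (hA : MeasurableSet A)
    (g2 : ∀ τ : ℝ, |τ - c| ≤ t * a / Real.sqrt n →
      |Gc n (rhoc t c) c τ - Gc n (rhoc t c) c c
      + kk n (rhoc t c) c c / (t - 1) * ∫ s in c..τ, om n s| ≤ C2)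
    (bil : ∀ h ψ : SS E → ℝ, Measurable h →
    Measurable ψ → (∀ x, |h x| ≤ 1) → (∀ x, |ψ x| ≤ 1) →
    (∀ x : SS E, t * a / Real.sqrt n < |⟪(v : E), (x : E)⟫ - c| → h x = 0 ∧ ψ x = 0) →
    |∫ x, h x * PP (rhoc t c) ψ x ∂(sm E) - kk n (rhoc t c) c c *
      ∫ w, vf n v h w * PP (-1 / (t - 1)) (vf n v ψ) w ∂(sm (Pe v))| ≤ C3)
    (hlow : ∀ x ∈ A, c - a / Real.sqrt n ≤ ⟪(v : E), (x : E)⟫)
    (hhigh : ∀ x : SS E, c + t * a / Real.sqrt n ≤ ⟪(v : E), (x : E)⟫ → x ∈ A)
    (hal : ∀ w, al t n v c A w ≤ ∫ s in c..(c + t * a / Real.sqrt n), om n s)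
    (hstar : Star (rhoc t c) (Gc n (rhoc t c) c c) A) :
    Measurable (NX t n v c A) ∧ (∀ w, 0 ≤ NX t n v c A w ∧ NX t n v c A w ≤ 2 * (t * a)) ∧
    kk n (rhoc t c) c c / (t - 1) * ∫ w, (NX t n v c A w) ^ 2 / 4 ∂(sm (Pe v))
      ≤ C2 * ∫ w, NX t n v c A w ∂(sm (Pe v)) + C3 := by
  classical
  have h4 : 4 ≤ n := by omega
  obtain ⟨_, hc', h0, h1, _, _, hi, hi1, _, hcn⟩ := om_basic h4
  obtain ⟨hT, hTm, hTb, hTs⟩ := NX_small_cont h4 c
  have hE1 : 1 ≤ Module.finrank ℝ E := by omega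
  have hP : Module.finrank ℝ (Pe v) = n - 1 := finrank_Pe (n := n - 1) (by omega) v
  have := sm_prob (E := E) hE1
  have := sm_prob (E := Pe v) (by omega)
  obtain ⟨w0⟩ := sm_nonempty (E := Pe v) (by omega)
  obtain ⟨W, hW, hWpt⟩ := NX_small_W v w0
  have hsn : 0 < Real.sqrt n := Real.sqrt_pos.mpr (by exact_mod_cast (by omega : 0 < n))
  have ht1 : (1:ℝ) ≤ t := by exact_mod_cast (by omega : 1 ≤ t)
  have ht2 : (0:ℝ) < t - 1 := by
    have : (3:ℝ) ≤ t := by exact_mod_cast ht
    linarith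
  have hδ0 : 0 ≤ t * a / Real.sqrt n := by positivity
  have hδa : a / Real.sqrt n ≤ t * a / Real.sqrt n := by
    apply div_le_div_of_nonneg_right _ hsn.le
    nlinarith
  have hindm : ∀ {B : Set (SS E)}, MeasurableSet B → Measurable (ind B) := fun hB =>
    measurable_const.indicator hB
  have hind01 : ∀ (B : Set (SS E)) (x : SS E), 0 ≤ ind B x ∧ ind B x ≤ 1 := by
    intro B x
    unfold ind
    by_cases hx : x ∈ B
    · rw [indicator_of_mem hx]; norm_num
    · rw [indicator_of_notMem hx]; norm_num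
  have hvx : Measurable (fun x : SS E => (⟪(v : E), (x : E)⟫ : ℝ)) :=
    (continuous_const.inner continuous_subtype_val).measurable
  have hCpm : MeasurableSet (Cp v c) := measurableSet_le measurable_const hvx
  set ψ : SS E → ℝ := fun x => ind A x - ind (Cp v c) x with hψ
  have hψm : Measurable ψ := (hindm hA).sub (hindm hCpm)
  have hψb : ∀ x, |ψ x| ≤ 1 := by
    intro x
    have e1 := hind01 A x
    have e2 := hind01 (Cp v c) x
    show |ind A x - ind (Cp v c) x| ≤ 1
    rw [abs_le]; constructor <;> linarith [e1.1, e1.2, e2.1, e2.2]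
  obtain ⟨hMm, hMb, hMI⟩ := NX_small_pm h4 v hψm hψb
  have hPb := PP_basic (E := Pe v) (by omega) (-1 / ((t:ℝ) - 1)) (f := vf n v ψ)
    (h := vf n v ψ) ⟨hMm, 1, hMb⟩ ⟨hMm, 1, hMb⟩
  have halm : Measurable (al t n v c A) := by
    have := (hPb.1.1).const_mul ((t:ℝ) - 1)
    exact this
  obtain ⟨Ca, hCa⟩ := hPb.1.2
  have halb : ∀ w, |al t n v c A w| ≤ (t - 1) * Ca := by
    intro w
    have h3 := hCa w
    show |((t:ℝ) - 1) * PP (-1 / ((t:ℝ) - 1)) (vf n v ψ) w| ≤ _
    rw [abs_mul, abs_of_pos ht2]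
    exact mul_le_mul_of_nonneg_left h3 ht2.le
  set Θ : SS E → ℝ := fun x => ∫ s in c..⟪(v : E), (x : E)⟫, om n s with hΘ
  have hΘm : Measurable Θ := hT.measurable.comp hvx
  set h : SS E → ℝ := fun x => ind A x * (if Θ x < al t n v c A (W x) then 1 else 0) with hh
  have hhm : Measurable h := by
    refine (hindm hA).mul (Measurable.ite ?_ measurable_const measurable_const)
    exact measurableSet_lt hΘm (halm.comp hW)
  have hh01 : ∀ x, 0 ≤ h x ∧ h x ≤ 1 := by
    intro x
    have e1 := hind01 A x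
    show 0 ≤ ind A x * (if Θ x < al t n v c A (W x) then 1 else 0) ∧
      ind A x * (if Θ x < al t n v c A (W x) then 1 else 0) ≤ 1
    split_ifs
    · rw [mul_one]; exact e1
    · rw [mul_zero]; norm_num
  have hhb : ∀ x, |h x| ≤ 1 := fun x => by rw [abs_of_nonneg (hh01 x).1]; exact (hh01 x).2
  have hpin : ∀ (τ : ℝ) (w : SS (Pe v)), |τ| < 1 → (⟪(v : E), (pt v τ w : E)⟫ : ℝ) = τ := by
    intro τ w hτ
    have := abs_lt.mp hτ
    exact (pt_inner this.1.le this.2.le this.1.le this.2.le v w w).1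
  have hhpt : ∀ (τ : ℝ) (w : SS (Pe v)), |τ| < 1 → h (pt v τ w)
      = ind A (pt v τ w) * (if ∫ s in c..τ, om n s < al t n v c A w then 1 else 0) := by
    intro τ w hτ
    show ind A (pt v τ w) * (if ∫ s in c..⟪(v : E), (pt v τ w : E)⟫, om n s
      < al t n v c A (W (pt v τ w)) then 1 else 0) = _
    rw [hWpt τ w hτ, hpin τ w hτ]
  have hNX : ∀ w, NX t n v c A w = vf n v h w := by
    intro w
    unfold NX vf
    refine integral_congr_ae (Filter.Eventually.of_forall fun τ => ?_)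
    show om n τ * _ = om n τ * _
    by_cases hτ : |τ| < 1
    · rw [hhpt τ w hτ]
    · rw [h1 τ (not_lt.mp hτ), zero_mul, zero_mul]
  have hsup : ∀ x : SS E, t * a / Real.sqrt n < |⟪(v : E), (x : E)⟫ - c| → h x = 0 ∧ ψ x = 0 := by
    intro x hx
    rcases lt_abs.mp hx with hx | hx
    · have hxA : x ∈ A := hhigh x (by linarith)
      have hxC : x ∈ Cp v c := by show c ≤ _; linarith
      constructor
      · show ind A x * (if Θ x < al t n v c A (W x) then 1 else 0) = 0
        rw [if_neg, mul_zero]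
        intro hlt
        have e1 := hal (W x)
        have e2 : (∫ s in c..(c + t * a / Real.sqrt n), om n s) ≤ Θ x := hTm (by linarith)
        linarith
      · show ind A x - ind (Cp v c) x = 0
        unfold ind
        rw [indicator_of_mem hxA, indicator_of_mem hxC, sub_self]
    · have hxA : x ∉ A := fun hxA => by
        have := hlow x hxA
        linarith
      have hxC : x ∉ Cp v c := fun hxC => by
        have : c ≤ (⟪(v : E), (x : E)⟫ : ℝ) := hxC
        linarith
      constructor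
      · show ind A x * _ = 0
        unfold ind
        rw [indicator_of_notMem hxA, zero_mul]
      · show ind A x - ind (Cp v c) x = 0
        unfold ind
        rw [indicator_of_notMem hxA, indicator_of_notMem hxC, sub_self]
  have B := bil h ψ hhm hψm hhb hψb hsup
  set f2 : SS E → ℝ := fun x => h x * Θ x with hf2
  have hf2m : Measurable f2 := hhm.mul hΘm
  have hf2b : ∀ x, |f2 x| ≤ 1 := by
    intro x
    show |h x * Θ x| ≤ 1
    rw [abs_mul]
    exact mul_le_one₀ (hhb x) (abs_nonneg _) (hTb _)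
  obtain ⟨hNm, hNb, hNI⟩ := NX_small_pm h4 v hhm hhb
  obtain ⟨hFm, hFb, hFI⟩ := NX_small_pm h4 v hf2m hf2b
  have hNXeq : NX t n v c A = vf n v h := funext hNX
  have hNX0 : ∀ w, 0 ≤ vf n v h w := fun w =>
    integral_nonneg fun τ => mul_nonneg (h0 τ) (hh01 _).1
  -- integrability helpers
  have hint1 : ∀ {g : SS E → ℝ}, BM g → Integrable g (sm E) := by
    rintro g ⟨hg, C, hC⟩
    exact Integrable.of_bound hg.aestronglyMeasurable C
      (Filter.Eventually.of_forall fun x => by rw [Real.norm_eq_abs]; exact hC x)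
  have hint2 : ∀ {g : SS (Pe v) → ℝ}, BM g → Integrable g (sm (Pe v)) := by
    rintro g ⟨hg, C, hC⟩
    exact Integrable.of_bound hg.aestronglyMeasurable C
      (Filter.Eventually.of_forall fun x => by rw [Real.norm_eq_abs]; exact hC x)
  have hn3 : 3 ≤ Module.finrank ℝ E := by omega
  have bmh : BM h := ⟨hhm, 1, hhb⟩
  have bmψ : BM ψ := ⟨hψm, 1, hψb⟩
  have bmf2 : BM f2 := ⟨hf2m, 1, hf2b⟩
  have bmA : BM (ind A) := ⟨hindm hA, 1, fun x => by
    rw [abs_of_nonneg (hind01 A x).1]; exact (hind01 A x).2⟩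
  have bmC : BM (ind (Cp v c)) := ⟨hindm hCpm, 1, fun x => by
    rw [abs_of_nonneg (hind01 _ x).1]; exact (hind01 _ x).2⟩
  have bmPψ : BM (PP (rhoc t c) ψ) := (PP_basic hn3 (rhoc t c) bmψ bmψ).1
  have bmhP : BM (fun x => h x * PP (rhoc t c) ψ x) := by
    obtain ⟨hm1, C, hC⟩ := bmPψ
    refine ⟨hhm.mul hm1, C, fun x => ?_⟩
    show |h x * PP (rhoc t c) ψ x| ≤ C
    rw [abs_mul]
    calc |h x| * |PP (rhoc t c) ψ x| ≤ 1 * C :=
          mul_le_mul (hhb x) (hC x) (abs_nonneg _) zero_le_one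
      _ = C := one_mul _
  have hlin : ∀ x, PP (rhoc t c) ψ x = PP (rhoc t c) (ind A) x
      - PP (rhoc t c) (ind (Cp v c)) x := by
    intro x
    have := (PP_basic hn3 (rhoc t c) bmA bmC).2.2.1 1 (-1) x
    have e : (fun y => (1:ℝ) * ind A y + (-1) * ind (Cp v c) y) = ψ := by
      funext y; show _ = ind A y - ind (Cp v c) y; ring
    rw [e] at this
    rw [this]; ring
  set kc := kk n (rhoc t c) c c with hkc
  have hkt : 0 < kc / (t - 1) := div_pos hk ht2
  have hpt : ∀ x, h x * PP (rhoc t c) ψ x - kc / (t - 1) * f2 x - C2 * h x ≤ 0 := by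
    intro x
    by_cases hx : t * a / Real.sqrt n < |⟪(v : E), (x : E)⟫ - c|
    · have e1 := (hsup x hx).1
      show h x * PP (rhoc t c) ψ x - kc / (t - 1) * (h x * Θ x) - C2 * h x ≤ 0
      rw [e1]; simp
    · rw [not_lt] at hx
      have hx' := abs_le.mp hx
      have habs : |(⟪(v : E), (x : E)⟫ : ℝ)| < 1 := by
        rw [abs_lt]; constructor <;> linarith [hx'.1, hx'.2]
      have e1 := g2 _ hx
      have e2 := cap_slice hE (by omega) v x (c := c) hρ habs
      by_cases hxA : x ∈ A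
      · have e3 := hstar x hxA
        have e4 := hlin x
        rw [e2] at e4
        have e5 := (abs_le.mp e1).1
        have e6 : PP (rhoc t c) ψ x - kc / (t - 1) * Θ x - C2 ≤ 0 := by
          rw [e4]
          show PP (rhoc t c) (ind A) x - Gc n (rhoc t c) c ⟪(v : E), (x : E)⟫
            - kc / (t - 1) * (∫ s in c..⟪(v : E), (x : E)⟫, om n s) - C2 ≤ 0
          linarith
        have e7 := mul_nonpos_of_nonneg_of_nonpos (hh01 x).1 e6
        show h x * PP (rhoc t c) ψ x - kc / (t - 1) * (h x * Θ x) - C2 * h x ≤ 0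
        linarith
      · have e3 : h x = 0 := by
          show ind A x * _ = 0
          unfold ind
          rw [indicator_of_notMem hxA, zero_mul]
        show h x * PP (rhoc t c) ψ x - kc / (t - 1) * (h x * Θ x) - C2 * h x ≤ 0
        rw [e3]; simp
  have hIn : ∫ x, (h x * PP (rhoc t c) ψ x - kc / (t - 1) * f2 x - C2 * h x) ∂(sm E) ≤ 0 :=
    integral_nonpos hpt
  have j1 := hint1 bmhP
  have j2 := hint1 bmf2
  have j3 := hint1 bmh
  have hsplit : ∫ x, (h x * PP (rhoc t c) ψ x - kc / (t - 1) * f2 x - C2 * h x) ∂(sm E)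
      = ∫ x, h x * PP (rhoc t c) ψ x ∂(sm E) - kc / (t - 1) * ∫ x, f2 x ∂(sm E)
        - C2 * ∫ x, h x ∂(sm E) := by
    have q1 : Integrable (fun x => kc / ((t:ℝ) - 1) * f2 x) (sm E) := j2.const_mul _
    have q2 : Integrable (fun x => C2 * h x) (sm E) := j3.const_mul _
    have q3 : Integrable (fun x => h x * PP (rhoc t c) ψ x - kc / ((t:ℝ) - 1) * f2 x) (sm E) :=
      j1.sub q1
    rw [integral_sub q3 q2, integral_sub j1 q1, integral_const_mul, integral_const_mul]
  rw [hsplit] at hIn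
  have F1 : ∫ x, h x ∂(sm E) = ∫ w, vf n v h w ∂(sm (Pe v)) := fiber_w hE h4 v bmh
  have F2 : ∫ x, f2 x ∂(sm E) = ∫ w, vf n v f2 w ∂(sm (Pe v)) := fiber_w hE h4 v bmf2
  have G1 : kc * ∫ w, vf n v h w * PP (-1 / ((t:ℝ) - 1)) (vf n v ψ) w ∂(sm (Pe v))
      = kc / (t - 1) * ∫ w, al t n v c A w * vf n v h w ∂(sm (Pe v)) := by
    rw [← integral_const_mul, ← integral_const_mul]
    congr 1
    funext w
    show kc * (vf n v h w * PP (-1 / ((t:ℝ) - 1)) (vf n v ψ) w)
      = kc / (t - 1) * (((t:ℝ) - 1) * PP (-1 / ((t:ℝ) - 1)) (vf n v ψ) w * vf n v h w)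
    field_simp
  rw [G1] at B
  have k1 : Integrable (fun w => al t n v c A w * vf n v h w) (sm (Pe v)) := by
    refine hint2 ⟨halm.mul hNm, (t - 1) * Ca, fun w => ?_⟩
    show |al t n v c A w * vf n v h w| ≤ _
    rw [abs_mul]
    calc |al t n v c A w| * |vf n v h w| ≤ ((t - 1) * Ca) * 1 :=
          mul_le_mul (halb w) (hNb w) (abs_nonneg _) ((abs_nonneg _).trans (halb w))
      _ = _ := mul_one _
  have k2 : Integrable (vf n v f2) (sm (Pe v)) := hint2 ⟨hFm, 1, hFb⟩
  have bath : ∀ w, (vf n v h w) ^ 2 / 4 ≤ al t n v c A w * vf n v h w - vf n v f2 w := by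
    intro w
    have hm1 : Measurable (fun τ : ℝ => ind A (pt v τ w)
        * (if ∫ s in c..τ, om n s < al t n v c A w then (1:ℝ) else 0)) := by
      refine ((hindm hA).comp (NX_small_pm1 v w)).mul
        (Measurable.ite ?_ measurable_const measurable_const)
      exact measurableSet_lt hT.measurable measurable_const
    have := NX_small_bath h4 c (al t n v c A w) _ hm1 ?_ ?_
    · have e1 : ∫ τ, om n τ * (ind A (pt v τ w)
          * (if ∫ s in c..τ, om n s < al t n v c A w then (1:ℝ) else 0)) = vf n v h w := hNX w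
      have e2 : ∫ τ, om n τ * ((ind A (pt v τ w)
          * (if ∫ s in c..τ, om n s < al t n v c A w then (1:ℝ) else 0)) * ∫ s in c..τ, om n s)
          = vf n v f2 w := by
        unfold vf
        refine integral_congr_ae (Filter.Eventually.of_forall fun τ => ?_)
        show om n τ * _ = om n τ * (h (pt v τ w) * ∫ s in c..⟪(v : E), (pt v τ w : E)⟫, om n s)
        by_cases hτ : |τ| < 1
        · rw [hhpt τ w hτ, hpin τ w hτ]
        · rw [h1 τ (not_lt.mp hτ), zero_mul, zero_mul]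
      rw [e1, e2] at this
      exact this
    · intro τ
      have e1 := hind01 A (pt v τ w)
      split_ifs
      · rw [mul_one]; exact e1
      · rw [mul_zero]; norm_num
    · intro τ hτ
      rw [if_neg (not_lt.mpr hτ), mul_zero]
  have hI2 : ∫ w, (vf n v h w) ^ 2 / 4 ∂(sm (Pe v))
      ≤ ∫ w, (al t n v c A w * vf n v h w - vf n v f2 w) ∂(sm (Pe v)) :=
    integral_mono_of_nonneg (Filter.Eventually.of_forall fun w => by positivity) (k1.sub k2)
      (Filter.Eventually.of_forall bath)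
  rw [integral_sub k1 k2] at hI2
  rw [hNXeq]
  refine ⟨hNm, fun w => ⟨hNX0 w, ?_⟩, ?_⟩
  · have e0 : (∫ τ, om n τ * h (pt v τ w))
        ≤ ∫ τ, (Icc (c - t * a / Real.sqrt n) (c + t * a / Real.sqrt n)).indicator
          (fun _ => cn n) τ := by
      refine integral_mono_of_nonneg (Filter.Eventually.of_forall fun τ => ?_) ?_
        (Filter.Eventually.of_forall fun τ => ?_)
      · exact mul_nonneg (h0 τ) (hh01 _).1
      · exact (integrable_indicator_iff measurableSet_Icc).mpr
          (integrableOn_const (by simp [Real.volume_Icc]))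
      · show om n τ * h (pt v τ w) ≤ _
        have hcn0 : 0 ≤ cn n := (h0 0).trans (hcn 0)
        by_cases hτ : |τ| < 1
        · by_cases hτ2 : τ ∈ Icc (c - t * a / Real.sqrt n) (c + t * a / Real.sqrt n)
          · rw [indicator_of_mem hτ2]
            calc om n τ * h (pt v τ w) ≤ cn n * 1 :=
                  mul_le_mul (hcn τ) (hh01 _).2 (hh01 _).1 hcn0
              _ = cn n := mul_one _
          · rw [indicator_of_notMem hτ2]
            have : h (pt v τ w) = 0 := by
              refine (hsup _ ?_).1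
              rw [hpin τ w hτ]
              by_contra hcon
              rw [not_lt] at hcon
              have := abs_le.mp hcon
              exact hτ2 ⟨by linarith, by linarith⟩
            rw [this, mul_zero]
        · rw [h1 τ (not_lt.mp hτ), zero_mul]
          exact indicator_nonneg (fun _ _ => hcn0) _
    show (∫ τ, om n τ * h (pt v τ w)) ≤ 2 * (t * a)
    refine e0.trans ?_
    rw [integral_indicator measurableSet_Icc, setIntegral_const, Real.volume_real_Icc_of_le
      (by linarith), smul_eq_mul]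
    have e2 := (cn_bounds h4).2
    have e3 : (c + t * a / Real.sqrt n - (c - t * a / Real.sqrt n)) * cn n
        ≤ (c + t * a / Real.sqrt n - (c - t * a / Real.sqrt n)) * Real.sqrt n :=
      mul_le_mul_of_nonneg_left e2 (by linarith)
    refine e3.trans (le_of_eq ?_)
    field_simp
    ring
  · have e1 := (abs_le.mp B).1
    have e2 := mul_le_mul_of_nonneg_left hI2 hkt.le
    rw [F1, F2] at hIn
    nlinarith

theorem NX_small (t : ℕ) (ht : 3 ≤ t) {Hm : ℝ} (hH : 0 ≤ Hm) :
    ∃ C : ℝ, 1 ≤ C ∧ ∃ a0 : ℝ, 0 < a0 ∧ ∃ n0 : ℕ, 6 ≤ n0 ∧ ∀ (E : Type) [NormedAddCommGroup E]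
    [InnerProductSpace ℝ E] [CompleteSpace E] [FiniteDimensional ℝ E] [MeasurableSpace E]
    [BorelSpace E], ∀ n : ℕ, Module.finrank ℝ E = n → n0 ≤ n → ∀ (v : SS E) (c : ℝ), 0 ≤ c →
    Real.sqrt n * c ≤ Hm → ∀ a : ℝ, 0 < a → a ≤ a0 → ∀ A : Set (SS E), MeasurableSet A →
    (∀ x ∈ A, c - a / Real.sqrt n ≤ ⟪(v : E), (x : E)⟫) →
    (∀ x : SS E, c + t * a / Real.sqrt n ≤ ⟪(v : E), (x : E)⟫ → x ∈ A) →
    Star (rhoc t c) (Gc n (rhoc t c) c c) A →
    ∫ w, NX t n v c A w ∂(sm (Pe v)) ≤ C * a ^ ((3 : ℝ) / 2) := by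
  obtain ⟨C1, hC1, n1, hn1, ker⟩ := ker_est t ht hH
  obtain ⟨C2, hC2, n2, hn2, g2⟩ := gc_est2 t ht hH
  obtain ⟨C3, hC3, n3, hn3, bil⟩ := bil_est t ht hH
  obtain ⟨a0, ha0, n4, hn4, bel⟩ := NX_below t ht hH
  obtain ⟨n5, hn5⟩ := exists_nat_gt ((Hm + t) ^ 2)
  have ht3 : (3:ℝ) ≤ t := by exact_mod_cast ht
  have ht2 : (0:ℝ) < t - 1 := by linarith
  have ht0 : (0:ℝ) < t := by linarith
  have hC10 : 0 < C1 := by linarith
  have hC20 : 0 < C2 := by linarith
  have hC30 : 0 < C3 := by linarith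
  set K : ℝ := 4 * ((t - 1) * C1 * (C2 * t ^ 2 * (2 * t) + C3)) with hK
  have hK0 : 0 ≤ K := by positivity
  refine ⟨K + 1, by linarith, min a0 1, lt_min ha0 one_pos, n1 + n2 + n3 + n4 + n5, by omega, ?_⟩
  intro E _ _ _ _ _ _ n hE hn v c hc hcH a ha ha' A hA hlow hhigh hstar
  have haa0 : a ≤ a0 := ha'.trans (min_le_left _ _)
  have ha1 : a ≤ 1 := ha'.trans (min_le_right _ _)
  have hn6 : 6 ≤ n := by omega
  have hsn : 0 < Real.sqrt n := Real.sqrt_pos.mpr (by exact_mod_cast (by omega : 0 < n))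
  have hns : Hm + t < Real.sqrt n := by
    apply Real.lt_sqrt_of_sq_lt
    calc (Hm + t) ^ 2 < n5 := hn5
      _ ≤ n := by exact_mod_cast (by omega)
  have hcs : c ≤ Hm / Real.sqrt n := by
    rw [le_div_iff₀ hsn]; linarith [mul_comm c (Real.sqrt n)]
  have hta : t * a / Real.sqrt n ≤ t / Real.sqrt n := by
    apply div_le_div_of_nonneg_right _ hsn.le
    nlinarith
  have hq : Hm / Real.sqrt n + t / Real.sqrt n < 1 := by
    rw [← add_div, div_lt_one hsn]; exact hns
  have hq0 : 0 ≤ Hm / Real.sqrt n := div_nonneg hH hsn.le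
  have hca : c + t * a / Real.sqrt n < 1 := by linarith
  have hca' : -1 < c - t * a / Real.sqrt n := by linarith
  obtain ⟨k1, _, _, _, _, _, _, _, k2, _⟩ := ker n (by omega) c hc hcH 0 le_rfl (by positivity) c c
    (by simp) (by simp)
  have hρ : |rhoc t c| < 1 := by linarith
  have hk : 0 < kk n (rhoc t c) c c := lt_of_lt_of_le (by positivity) k1
  obtain ⟨hbel, -⟩ := bel E n hE (by omega) v c hc hcH a ha haa0 A hA hlow hhigh
  obtain ⟨m1, m2, m3⟩ := NX_small_one ht hE hn6 v (c := c) (a := a) (C2 := C2 * (t * a) ^ 2)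
    (C3 := C3 * a ^ 3) ha.le hca hca' hρ hk hA
    (fun τ hτ => g2 n (by omega) c hc hcH (t * a) (by positivity) (by nlinarith) τ hτ)
    (fun h ψ hm ψm hb ψb hs => bil E n hE (by omega) v c hc hcH a ha.le ha1 h ψ hm ψm hb ψb hs)
    hlow hhigh (fun w => (hbel w).2.2.2) hstar
  have hP : Module.finrank ℝ (Pe v) = n - 1 := finrank_Pe (n := n - 1) (by omega) v
  have := sm_prob (E := Pe v) (by omega)
  have i1 : Integrable (NX t n v c A) (sm (Pe v)) :=
    Integrable.of_bound m1.aestronglyMeasurable (2 * (t * a))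
      (Filter.Eventually.of_forall fun w => by
        rw [Real.norm_eq_abs, abs_of_nonneg (m2 w).1]; exact (m2 w).2)
  have i2 : Integrable (fun w => (NX t n v c A w) ^ 2) (sm (Pe v)) :=
    Integrable.of_bound (m1.pow_const 2).aestronglyMeasurable ((2 * (t * a)) ^ 2)
      (Filter.Eventually.of_forall fun w => by
        rw [Real.norm_eq_abs, abs_of_nonneg (sq_nonneg _)]
        exact pow_le_pow_left₀ (m2 w).1 (m2 w).2 2)
  have e1 : ∫ w, NX t n v c A w ∂(sm (Pe v)) ≤ 2 * (t * a) := by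
    have : ∫ w, NX t n v c A w ∂(sm (Pe v)) ≤ ∫ _w : SS (Pe v), 2 * (t * a) ∂(sm (Pe v)) :=
      integral_mono i1 (integrable_const _) fun w => (m2 w).2
    refine this.trans (le_of_eq ?_)
    rw [integral_const, probReal_univ, one_smul]
  have e2 : ∫ w, (NX t n v c A w) ^ 2 / 4 ∂(sm (Pe v))
      = (∫ w, (NX t n v c A w) ^ 2 ∂(sm (Pe v))) / 4 := integral_div _ _
  rw [e2] at m3
  set I2 := ∫ w, (NX t n v c A w) ^ 2 ∂(sm (Pe v)) with hI2
  set I1 := ∫ w, NX t n v c A w ∂(sm (Pe v)) with hI1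
  have hI20 : 0 ≤ I2 := integral_nonneg fun w => sq_nonneg _
  have e3 : 1 / C1 / (t - 1) * (I2 / 4) ≤ kk n (rhoc t c) c c / (t - 1) * (I2 / 4) := by
    apply mul_le_mul_of_nonneg_right _ (by positivity)
    exact div_le_div_of_nonneg_right k1 ht2.le
  have e4 : C2 * (t * a) ^ 2 * I1 ≤ C2 * (t * a) ^ 2 * (2 * (t * a)) :=
    mul_le_mul_of_nonneg_left e1 (by positivity)
  have e5 : 1 / C1 / (t - 1) * (I2 / 4) ≤ (C2 * t ^ 2 * (2 * t) + C3) * a ^ 3 := by
    calc _ ≤ _ := e3
      _ ≤ _ := m3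
      _ ≤ C2 * (t * a) ^ 2 * (2 * (t * a)) + C3 * a ^ 3 := by linarith
      _ = _ := by ring
  have e6 : I2 ≤ K * a ^ 3 := by
    have e7 : I2 = 4 * ((t - 1) * C1 * (1 / C1 / (t - 1) * (I2 / 4))) := by
      field_simp
    rw [e7, hK]
    have := mul_le_mul_of_nonneg_left e5 (by positivity : (0:ℝ) ≤ 4 * ((t - 1) * C1))
    linarith
  set b := a ^ ((3 : ℝ) / 2) with hb
  have hb0 : 0 < b := Real.rpow_pos_of_pos ha _
  have hb2 : b ^ 2 = a ^ 3 := by
    rw [hb, ← Real.rpow_natCast, ← Real.rpow_mul ha.le, ← Real.rpow_natCast]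
    norm_num
  have e8 : 2 * b * I1 ≤ I2 + b ^ 2 := by
    have e9 : ∫ w, 2 * b * NX t n v c A w ∂(sm (Pe v))
        ≤ ∫ w, ((NX t n v c A w) ^ 2 + b ^ 2) ∂(sm (Pe v)) :=
      integral_mono (i1.const_mul _) (i2.add (integrable_const _)) fun w => by
        show 2 * b * NX t n v c A w ≤ (NX t n v c A w) ^ 2 + b ^ 2
        nlinarith [sq_nonneg (NX t n v c A w - b)]
    rw [integral_const_mul, integral_add i2 (integrable_const _), integral_const, probReal_univ,
      one_smul] at e9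
    exact e9
  rw [← hb2] at e6
  have e10 : b * (2 * I1) ≤ b * ((K + 1) * b) := by nlinarith
  have e11 := le_of_mul_le_mul_left e10 hb0
  have e12 : 0 ≤ (K + 1) * b := by positivity
  linarith


end CoreW

end Pool.Agent.helper440_simplex
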