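import Pool.Agent.helper440_simplex.Spec

set_option autoImplicit false
set_option linter.unusedSectionVars false

namespace Pool.Agent.helper440_simplex

open MeasureTheory Metric Set Filter Topology
open scoped RealInnerProductSpace

section CoreW
variable {E : Type*} [NormedAddCommGroup E] [InnerProductSpace ℝ E] [CompleteSpace E]
  [FiniteDimensional ℝ E] [MeasurableSpace E] [BorelSpace E]

-- iter_lin
theorem iter_lin_BM_const {E : Type*} [NormedAddCommGroup E] [InnerProductSpace ℝ E]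
    [CompleteSpace E] [FiniteDimensional ℝ E] [MeasurableSpace E] [BorelSpace E] (c : ℝ) :
    BM (fun _ : SS E => c) := ⟨measurable_const, |c|, fun _ => le_rfl⟩

theorem iter_lin_BM_lin {E : Type*} [NormedAddCommGroup E] [InnerProductSpace ℝ E]
    [CompleteSpace E] [FiniteDimensional ℝ E] [MeasurableSpace E] [BorelSpace E] (a b : ℝ)
    {f h : SS E → ℝ} (hf : BM f) (hh : BM h) : BM (fun x => a * f x + b * h x) := by
  obtain ⟨hfm, C, hC⟩ := hf
  obtain ⟨hhm, D, hD⟩ := hh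
  refine ⟨(hfm.const_mul a).add (hhm.const_mul b), |a| * C + |b| * D, fun x => ?_⟩
  calc |a * f x + b * h x| ≤ |a * f x| + |b * h x| := abs_add_le _ _
    _ = |a| * |f x| + |b| * |h x| := by rw [abs_mul, abs_mul]
    _ ≤ _ := by
      have h1 := mul_le_mul_of_nonneg_left (hC x) (abs_nonneg a)
      have h2 := mul_le_mul_of_nonneg_left (hD x) (abs_nonneg b)
      linarith

theorem iter_lin_BM_mul {E : Type*} [NormedAddCommGroup E] [InnerProductSpace ℝ E]
    [CompleteSpace E] [FiniteDimensional ℝ E] [MeasurableSpace E] [BorelSpace E]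
    {f h : SS E → ℝ} (hf : BM f) (hh : BM h) : BM (fun x => f x * h x) := by
  obtain ⟨hfm, C, hC⟩ := hf
  obtain ⟨hhm, D, hD⟩ := hh
  refine ⟨hfm.mul hhm, C * D, fun x => ?_⟩
  rw [abs_mul]
  exact mul_le_mul (hC x) (hD x) (abs_nonneg _) ((abs_nonneg _).trans (hC x))

theorem iter_lin_BM_abs {E : Type*} [NormedAddCommGroup E] [InnerProductSpace ℝ E]
    [CompleteSpace E] [FiniteDimensional ℝ E] [MeasurableSpace E] [BorelSpace E]
    {f : SS E → ℝ} (hf : BM f) : BM (fun x => |f x|) := by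
  obtain ⟨hfm, C, hC⟩ := hf
  refine ⟨hfm.abs, C, fun x => ?_⟩
  rw [abs_abs]; exact hC x

theorem iter_lin_BM_inner {E : Type*} [NormedAddCommGroup E] [InnerProductSpace ℝ E]
    [CompleteSpace E] [FiniteDimensional ℝ E] [MeasurableSpace E] [BorelSpace E] (y : E) :
    BM (fun x : SS E => ⟪y, (x : E)⟫) := by
  refine ⟨(continuous_const.inner continuous_subtype_val).measurable, ‖y‖, fun x => ?_⟩
  have h := abs_real_inner_le_norm y (x : E)
  rw [norm_eq_of_mem_sphere x, mul_one] at h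
  exact h

theorem iter_lin_int {E : Type*} [NormedAddCommGroup E] [InnerProductSpace ℝ E]
    [CompleteSpace E] [FiniteDimensional ℝ E] [MeasurableSpace E] [BorelSpace E]
    (hn : 1 ≤ Module.finrank ℝ E) {f : SS E → ℝ} (hf : BM f) : Integrable f (sm E) := by
  have := sm_prob (E := E) hn
  obtain ⟨hfm, C, hC⟩ := hf
  exact Integrable.of_bound hfm.aestronglyMeasurable C (Eventually.of_forall fun x => hC x)

/-- linearity of the integral on BM functions -/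
theorem iter_lin_intlin {E : Type*} [NormedAddCommGroup E] [InnerProductSpace ℝ E]
    [CompleteSpace E] [FiniteDimensional ℝ E] [MeasurableSpace E] [BorelSpace E]
    (hn : 1 ≤ Module.finrank ℝ E) (a b : ℝ) {f h : SS E → ℝ} (hf : BM f) (hh : BM h) :
    ∫ x, (a * f x + b * h x) ∂(sm E) = a * ∫ x, f x ∂(sm E) + b * ∫ x, h x ∂(sm E) := by
  rw [integral_add ((iter_lin_int hn hf).const_mul a) ((iter_lin_int hn hh).const_mul b),
    integral_const_mul, integral_const_mul]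

theorem iter_lin_intabs {E : Type*} [NormedAddCommGroup E] [InnerProductSpace ℝ E]
    [CompleteSpace E] [FiniteDimensional ℝ E] [MeasurableSpace E] [BorelSpace E]
    (hn : 3 ≤ Module.finrank ℝ E) {r : ℝ} (h1 : -1 ≤ r) (h2 : r ≤ 1) {f : SS E → ℝ} (hf : BM f) :
    ∫ x, |PP r f x| ∂(sm E) ≤ ∫ x, |f x| ∂(sm E) := by
  have ha := iter_lin_BM_abs hf
  have hP : BM (PP r f) := (PP_basic hn r hf hf).1
  have hPa : BM (PP r (fun x => |f x|)) := (PP_basic hn r ha ha).1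
  rw [← (PP_sym hn h1 h2 ha ha).2.1]
  refine integral_mono (iter_lin_int (by omega) (iter_lin_BM_abs hP))
    (iter_lin_int (by omega) hPa) fun x => ?_
  have hmono := (PP_basic hn r hf ha).2.2.2.2.2.1 (fun y => le_abs_self (f y)) x
  have hneg : BM (fun x => (-1) * f x + 0 * f x) := iter_lin_BM_lin (-1) 0 hf hf
  have hmono2 := (PP_basic hn r hneg ha).2.2.2.2.2.1
    (fun y => by have := neg_abs_le (f y); linarith) x
  rw [(PP_basic hn r hf hf).2.2.1 (-1) 0 x] at hmono2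
  exact abs_le.mpr ⟨by linarith, hmono⟩

/-- Cauchy-Schwarz against the constant one -/
theorem iter_lin_cs {E : Type*} [NormedAddCommGroup E] [InnerProductSpace ℝ E]
    [CompleteSpace E] [FiniteDimensional ℝ E] [MeasurableSpace E] [BorelSpace E]
    (hn : 1 ≤ Module.finrank ℝ E) {f : SS E → ℝ} (hf : BM f) :
    ∫ x, |f x| ∂(sm E) ≤ Real.sqrt (∫ x, (f x) ^ 2 ∂(sm E)) := by
  have := sm_prob (E := E) hn
  set A := ∫ x, |f x| ∂(sm E) with hA
  have hA0 : 0 ≤ A := integral_nonneg fun x => abs_nonneg _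
  refine Real.le_sqrt_of_sq_le ?_
  have hfa := iter_lin_BM_abs hf
  have hff := iter_lin_BM_mul hfa hfa
  have h0 : 0 ≤ ∫ x, (|f x| - A) ^ 2 ∂(sm E) := integral_nonneg fun x => sq_nonneg _
  have e : ∫ x, (|f x| - A) ^ 2 ∂(sm E)
      = ∫ x, (1 * (1 * (|f x| * |f x|) + (-(2 * A)) * |f x|) + A ^ 2 * 1) ∂(sm E) := by
    refine integral_congr_ae (Eventually.of_forall fun x => ?_)
    show (|f x| - A) ^ 2 = 1 * (1 * (|f x| * |f x|) + (-(2 * A)) * |f x|) + A ^ 2 * 1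
    ring
  rw [e, iter_lin_intlin hn 1 (A ^ 2) (iter_lin_BM_lin 1 (-(2 * A)) hff hfa)
    (iter_lin_BM_const 1), iter_lin_intlin hn 1 (-(2 * A)) hff hfa] at h0
  simp only [integral_const, probReal_univ, smul_eq_mul, mul_one, one_mul] at h0
  have e2 : ∫ x, (f x) ^ 2 ∂(sm E) = ∫ x, |f x| * |f x| ∂(sm E) := by
    refine integral_congr_ae (Eventually.of_forall fun x => ?_)
    show (f x) ^ 2 = |f x| * |f x|
    rw [abs_mul_abs_self, sq]
  rw [e2]
  rw [← hA] at h0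
  nlinarith

theorem iter_lin_step {E : Type*} [NormedAddCommGroup E] [InnerProductSpace ℝ E]
    [CompleteSpace E] [FiniteDimensional ℝ E] [MeasurableSpace E] [BorelSpace E]
    {n : ℕ} (hn : Module.finrank ℝ E = n) (h5 : 5 ≤ n) {q r : ℝ} (hq : 2 ≤ q) (hr : |r| ≤ 1)
    (J : ℕ) : ∀ f : SS E → ℝ, BM f → ∫ x, f x ∂(sm E) = 0 →
    (∀ y : E, ∫ x, ⟪y, (x : E)⟫ * f x ∂(sm E) = 0) →
    ∫ x, |f x| ∂(sm E) ≤ (q ^ (J + 1) - 1) * ∫ x, |f x + q * PP r f x| ∂(sm E)
      + (q * (r ^ 2 + 2 / n)) ^ J * (q * Real.sqrt (∫ x, (PP r f x) ^ 2 ∂(sm E))) := by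
  have h3 : 3 ≤ Module.finrank ℝ E := by omega
  have h1' : 1 ≤ Module.finrank ℝ E := by omega
  obtain ⟨hr1, hr2⟩ := abs_le.mp hr
  have key : ∀ f : SS E → ℝ, BM f → ∫ x, |f x| ∂(sm E)
      ≤ ∫ x, |f x + q * PP r f x| ∂(sm E) + q * ∫ x, |PP r f x| ∂(sm E) := by
    intro f hf
    have hP : BM (PP r f) := (PP_basic h3 r hf hf).1
    have hR : BM (fun x => f x + q * PP r f x) := by
      have := iter_lin_BM_lin 1 q hf hP
      simpa using this
    have := iter_lin_intlin h1' 1 q (iter_lin_BM_abs hR) (iter_lin_BM_abs hP)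
    rw [one_mul] at this
    rw [← this]
    refine integral_mono (iter_lin_int h1' (iter_lin_BM_abs hf))
      (iter_lin_int h1' (iter_lin_BM_lin 1 q (iter_lin_BM_abs hR) (iter_lin_BM_abs hP))) fun x => ?_
    show |f x| ≤ 1 * |f x + q * PP r f x| + q * |PP r f x|
    have e : f x = (f x + q * PP r f x) + (-(q * PP r f x)) := by ring
    calc |f x| = |(f x + q * PP r f x) + (-(q * PP r f x))| := by rw [← e]
      _ ≤ |f x + q * PP r f x| + |-(q * PP r f x)| := abs_add_le _ _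
      _ = _ := by rw [abs_neg, abs_mul, abs_of_nonneg (by linarith : (0:ℝ) ≤ q), one_mul]
  induction J with
  | zero =>
    intro f hf h0 h1
    have hP : BM (PP r f) := (PP_basic h3 r hf hf).1
    have k := key f hf
    have c := iter_lin_cs h1' hP
    have nn : 0 ≤ ∫ x, |f x + q * PP r f x| ∂(sm E) := integral_nonneg fun x => abs_nonneg _
    rw [zero_add, pow_one, pow_zero, one_mul]
    have : q * ∫ x, |PP r f x| ∂(sm E) ≤ q * Real.sqrt (∫ x, (PP r f x) ^ 2 ∂(sm E)) :=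
      mul_le_mul_of_nonneg_left c (by linarith)
    nlinarith
  | succ J ih =>
    intro f hf h0 h1
    have hP : BM (PP r f) := (PP_basic h3 r hf hf).1
    have hg : BM (fun x => (-q) * PP r f x + 0 * PP r f x) := iter_lin_BM_lin (-q) 0 hP hP
    set g : SS E → ℝ := fun x => (-q) * PP r f x + 0 * PP r f x with hgdef
    have hgx : ∀ x, g x = -(q * PP r f x) := fun x => by
      show (-q) * PP r f x + 0 * PP r f x = _
      ring
    have hg0 : ∫ x, g x ∂(sm E) = 0 := by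
      rw [hgdef, iter_lin_intlin h1' (-q) 0 hP hP, (PP_sym h3 hr1 hr2 hf hf).2.1, h0]
      ring
    have hg1 : ∀ y : E, ∫ x, ⟪y, (x : E)⟫ * g x ∂(sm E) = 0 := by
      intro y
      have hy := iter_lin_BM_inner y
      have e1 : ∫ x, ⟪y, (x : E)⟫ * PP r f x ∂(sm E) = 0 := by
        rw [(PP_sym h3 hr1 hr2 hf hy).1]
        have : ∀ x : SS E, f x * PP r (fun z : SS E => ⟪y, (z : E)⟫) x
            = r * (⟪y, (x : E)⟫ * f x) := fun x => by
          rw [PP_linear h3 hr]; ring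
        simp only [this]
        rw [integral_const_mul, h1 y, mul_zero]
      have : ∀ x : SS E, ⟪y, (x : E)⟫ * g x = (-q) * (⟪y, (x : E)⟫ * PP r f x) := fun x => by
        rw [hgx]; ring
      simp only [this]
      rw [integral_const_mul, e1, mul_zero]
    have hi := ih g hg hg0 hg1
    have k := key f hf
    -- |g| = q |P f|
    have eg : ∫ x, |g x| ∂(sm E) = q * ∫ x, |PP r f x| ∂(sm E) := by
      rw [← integral_const_mul]
      refine integral_congr_ae (Eventually.of_forall fun x => ?_)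
      show |g x| = q * |PP r f x|
      rw [hgx, abs_neg, abs_mul, abs_of_nonneg (by linarith : (0:ℝ) ≤ q)]
    -- g + q P g = -q P (f + q P f)
    have hRR : BM (fun x => 1 * f x + q * PP r f x) := iter_lin_BM_lin 1 q hf hP
    have eR : ∫ x, |g x + q * PP r g x| ∂(sm E) ≤ q * ∫ x, |f x + q * PP r f x| ∂(sm E) := by
      have e1 : ∀ x, g x + q * PP r g x = -(q * PP r (fun x => 1 * f x + q * PP r f x) x) := by
        intro x
        rw [(PP_basic h3 r hf hP).2.2.1 1 q x, hgdef, (PP_basic h3 r hP hP).2.2.1 (-q) 0 x]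
        ring
      have e2 : ∫ x, |g x + q * PP r g x| ∂(sm E)
          = q * ∫ x, |PP r (fun x => 1 * f x + q * PP r f x) x| ∂(sm E) := by
        rw [← integral_const_mul]
        refine integral_congr_ae (Eventually.of_forall fun x => ?_)
        show |g x + q * PP r g x| = q * |PP r (fun x => 1 * f x + q * PP r f x) x|
        rw [e1, abs_neg, abs_mul, abs_of_nonneg (by linarith : (0:ℝ) ≤ q)]
      rw [e2]
      have := iter_lin_intabs h3 hr1 hr2 hRR
      simp only [one_mul] at this ⊢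
      exact mul_le_mul_of_nonneg_left this (by linarith)
    -- ‖P g‖ ≤ (r^2+2/n) ‖g‖ = (r^2+2/n) q ‖P f‖
    have eP : Real.sqrt (∫ x, (PP r g x) ^ 2 ∂(sm E))
        ≤ (q * (r ^ 2 + 2 / n)) * Real.sqrt (∫ x, (PP r f x) ^ 2 ∂(sm E)) := by
      have hs := spec_rest hn h5 hr hg hg0 hg1
      have e3 : ∫ x, (g x) ^ 2 ∂(sm E) = q ^ 2 * ∫ x, (PP r f x) ^ 2 ∂(sm E) := by
        rw [← integral_const_mul]
        refine integral_congr_ae (Eventually.of_forall fun x => ?_)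
        show (g x) ^ 2 = q ^ 2 * (PP r f x) ^ 2
        rw [hgx]; ring
      rw [e3] at hs
      have hc : 0 ≤ q * (r ^ 2 + 2 / n) := by positivity
      calc Real.sqrt (∫ x, (PP r g x) ^ 2 ∂(sm E))
          ≤ Real.sqrt ((q * (r ^ 2 + 2 / n)) ^ 2 * ∫ x, (PP r f x) ^ 2 ∂(sm E)) := by
            refine Real.sqrt_le_sqrt ?_
            calc _ ≤ _ := hs
              _ = _ := by ring
        _ = _ := by
            rw [Real.sqrt_mul (sq_nonneg _), Real.sqrt_sq hc]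
    have nn : 0 ≤ ∫ x, |f x + q * PP r f x| ∂(sm E) := integral_nonneg fun x => abs_nonneg _
    have hqJ : 0 ≤ q ^ (J + 1) - 1 := by
      have : 1 ≤ q ^ (J + 1) := one_le_pow₀ (by linarith)
      linarith
    have hΛ : 0 ≤ (q * (r ^ 2 + 2 / n)) ^ J := by positivity
    have t1 : (q ^ (J + 1) - 1) * ∫ x, |g x + q * PP r g x| ∂(sm E)
        ≤ (q ^ (J + 1) - 1) * (q * ∫ x, |f x + q * PP r f x| ∂(sm E)) :=
      mul_le_mul_of_nonneg_left eR hqJ
    have t2 : (q * (r ^ 2 + 2 / n)) ^ J * (q * Real.sqrt (∫ x, (PP r g x) ^ 2 ∂(sm E)))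
        ≤ (q * (r ^ 2 + 2 / n)) ^ J * (q * ((q * (r ^ 2 + 2 / n))
          * Real.sqrt (∫ x, (PP r f x) ^ 2 ∂(sm E)))) :=
      mul_le_mul_of_nonneg_left (mul_le_mul_of_nonneg_left eP (by linarith)) hΛ
    rw [eg] at hi
    have e4 : (q * (r ^ 2 + 2 / n)) ^ J * (q * ((q * (r ^ 2 + 2 / n))
          * Real.sqrt (∫ x, (PP r f x) ^ 2 ∂(sm E))))
        = (q * (r ^ 2 + 2 / n)) ^ (J + 1) * (q * Real.sqrt (∫ x, (PP r f x) ^ 2 ∂(sm E))) := by
      ring
    have e5 : (q ^ (J + 1 + 1) - 1) * ∫ x, |f x + q * PP r f x| ∂(sm E)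
        - (q ^ (J + 1) - 1) * (q * ∫ x, |f x + q * PP r f x| ∂(sm E))
        - ∫ x, |f x + q * PP r f x| ∂(sm E)
        = (q - 2) * ∫ x, |f x + q * PP r f x| ∂(sm E) := by ring
    have e6 : 0 ≤ (q - 2) * ∫ x, |f x + q * PP r f x| ∂(sm E) :=
      mul_nonneg (by linarith) nn
    linarith

theorem iter_lin_inner_zero {E : Type*} [NormedAddCommGroup E] [InnerProductSpace ℝ E]
    [CompleteSpace E] [FiniteDimensional ℝ E] [MeasurableSpace E] [BorelSpace E]
    (hn : 3 ≤ Module.finrank ℝ E) (y : E) : ∫ x : SS E, ⟪y, (x : E)⟫ ∂(sm E) = 0 := by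
  have hy := iter_lin_BM_inner y
  have h := (PP_sym hn (r := 0) (by norm_num) (by norm_num) hy hy).2.1
  have : ∀ x : SS E, PP 0 (fun z : SS E => ⟪y, (z : E)⟫) x = 0 := fun x => by
    rw [PP_linear hn (by norm_num)]; ring
  simp only [this] at h
  rw [← h]; simp

theorem iter_lin_inner_sq {E : Type*} [NormedAddCommGroup E] [InnerProductSpace ℝ E]
    [CompleteSpace E] [FiniteDimensional ℝ E] [MeasurableSpace E] [BorelSpace E]
    {n : ℕ} (hn : Module.finrank ℝ E = n) (h5 : 5 ≤ n) (y : E) :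
    (n : ℝ) * ∫ x : SS E, ⟪y, (x : E)⟫ ^ 2 ∂(sm E) = ‖y‖ ^ 2 := by
  have := sm_prob (E := E) (by omega)
  by_cases hy : y = 0
  · subst hy; simp
  have hy' : ‖y‖ ≠ 0 := norm_ne_zero_iff.mpr hy
  let v : SS E := ⟨‖y‖⁻¹ • y, by
    rw [mem_sphere_zero_iff_norm, norm_smul, norm_inv, norm_norm, inv_mul_cancel₀ hy']⟩
  have hs := sm_stein hn (by omega) v 0
  simp only [zero_add, pow_zero, mul_one, Nat.cast_zero, one_mul] at hs
  have hvB := iter_lin_BM_inner (E := E) (v : E)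
  have hvv := iter_lin_BM_mul hvB hvB
  have e1 : ∫ x : SS E, (1 - ⟪(v : E), (x : E)⟫ ^ 2) ∂(sm E)
      = 1 - ∫ x : SS E, ⟪(v : E), (x : E)⟫ ^ 2 ∂(sm E) := by
    rw [integral_sub (integrable_const _) ?_]
    · simp
    · have := iter_lin_int (E := E) (by omega) hvv
      simpa only [sq] using this
  rw [e1] at hs
  have e2 : ∫ x : SS E, ⟪y, (x : E)⟫ ^ 2 ∂(sm E)
      = ‖y‖ ^ 2 * ∫ x : SS E, ⟪(v : E), (x : E)⟫ ^ 2 ∂(sm E) := by
    rw [← integral_const_mul]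
    refine integral_congr_ae (Eventually.of_forall fun x => ?_)
    show ⟪y, (x : E)⟫ ^ 2 = ‖y‖ ^ 2 * ⟪‖y‖⁻¹ • y, (x : E)⟫ ^ 2
    rw [real_inner_smul_left]
    field_simp
  rw [e2]
  have : (n : ℝ) * ∫ x : SS E, ⟪(v : E), (x : E)⟫ ^ 2 ∂(sm E) = 1 := by linarith
  calc (n : ℝ) * (‖y‖ ^ 2 * ∫ x : SS E, ⟪(v : E), (x : E)⟫ ^ 2 ∂(sm E))
      = ‖y‖ ^ 2 * ((n : ℝ) * ∫ x : SS E, ⟪(v : E), (x : E)⟫ ^ 2 ∂(sm E)) := by ring
    _ = ‖y‖ ^ 2 := by rw [this, mul_one]

theorem iter_lin_inner_inner {E : Type*} [NormedAddCommGroup E] [InnerProductSpace ℝ E]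
    [CompleteSpace E] [FiniteDimensional ℝ E] [MeasurableSpace E] [BorelSpace E]
    {n : ℕ} (hn : Module.finrank ℝ E = n) (h5 : 5 ≤ n) (y z : E) :
    (n : ℝ) * ∫ x : SS E, ⟪y, (x : E)⟫ * ⟪z, (x : E)⟫ ∂(sm E) = ⟪y, z⟫ := by
  have h1' : 1 ≤ Module.finrank ℝ E := by omega
  have a := iter_lin_inner_sq hn h5 (y + z)
  have b := iter_lin_inner_sq hn h5 y
  have c := iter_lin_inner_sq hn h5 z
  have hy := iter_lin_BM_inner (E := E) y
  have hz := iter_lin_BM_inner (E := E) z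
  have hyy := iter_lin_BM_mul hy hy
  have hyz := iter_lin_BM_mul hy hz
  have hzz := iter_lin_BM_mul hz hz
  have e : ∫ x : SS E, ⟪y + z, (x : E)⟫ ^ 2 ∂(sm E)
      = (∫ x : SS E, ⟪y, (x : E)⟫ ^ 2 ∂(sm E)) + 2 * (∫ x : SS E, ⟪y, (x : E)⟫ * ⟪z, (x : E)⟫ ∂(sm E))
        + ∫ x : SS E, ⟪z, (x : E)⟫ ^ 2 ∂(sm E) := by
    have e1 : ∫ x : SS E, ⟪y + z, (x : E)⟫ ^ 2 ∂(sm E)
        = ∫ x : SS E, (1 * (1 * (⟪y, (x : E)⟫ * ⟪y, (x : E)⟫) + 2 * (⟪y, (x : E)⟫ * ⟪z, (x : E)⟫))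
          + 1 * (⟪z, (x : E)⟫ * ⟪z, (x : E)⟫)) ∂(sm E) := by
      refine integral_congr_ae (Eventually.of_forall fun x => ?_)
      show ⟪y + z, (x : E)⟫ ^ 2 = 1 * (1 * (⟪y, (x : E)⟫ * ⟪y, (x : E)⟫)
        + 2 * (⟪y, (x : E)⟫ * ⟪z, (x : E)⟫)) + 1 * (⟪z, (x : E)⟫ * ⟪z, (x : E)⟫)
      rw [inner_add_left]; ring
    rw [e1, iter_lin_intlin h1' 1 1 (iter_lin_BM_lin 1 2 hyy hyz) hzz,
      iter_lin_intlin h1' 1 2 hyy hyz]
    simp only [sq, one_mul]
  rw [e] at a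
  have d := norm_add_sq_real y z
  linarith

theorem iter_lin {E : Type*} [NormedAddCommGroup E] [InnerProductSpace ℝ E] [CompleteSpace E]
    [FiniteDimensional ℝ E] [MeasurableSpace E] [BorelSpace E] (t : ℕ) (ht : 3 ≤ t) {n : ℕ}
    (hn : Module.finrank ℝ E = n) (h5 : 5 ≤ n) (J : ℕ) (hJ : 1 ≤ J) {M : SS E → ℝ} (hM : BM M) :
    ∃ b : E, (n : ℝ) * ‖b‖ ^ 2 ≤ ∫ x, (M x) ^ 2 ∂(sm E) ∧
    ∫ x, |M x - n * ⟪b, (x : E)⟫| ∂(sm E)
      ≤ 2 * ((t : ℝ) - 1) ^ J * ∫ x, |M x + (t - 1) * PP (-1 / (t - 1)) M x| ∂(sm E)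
        + ((t - 1) * (1 / (t - 1) ^ 2 + 2 / n)) ^ (J - 1) * ((t - 1) *
          Real.sqrt (∫ x, (PP (-1 / (t - 1)) M x) ^ 2 ∂(sm E))) := by
  obtain ⟨J, rfl⟩ : ∃ J', J = J' + 1 := ⟨J - 1, by omega⟩
  have h3 : 3 ≤ Module.finrank ℝ E := by omega
  have h1' : 1 ≤ Module.finrank ℝ E := by omega
  have := sm_prob (E := E) h1'
  have htR : (3 : ℝ) ≤ t := by exact_mod_cast ht
  set q : ℝ := (t : ℝ) - 1 with hqdef
  have hq : 2 ≤ q := by rw [hqdef]; linarith
  set r : ℝ := -1 / q with hrdef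
  have hr : |r| ≤ 1 := by
    rw [hrdef, abs_div, abs_neg, abs_one, abs_of_nonneg (by linarith : (0:ℝ) ≤ q), div_le_one (by linarith)]
    linarith
  obtain ⟨hr1, hr2⟩ := abs_le.mp hr
  have hrsq : 1 / q ^ 2 = r ^ 2 := by rw [hrdef, div_pow]; norm_num
  have hqr : q * r = -1 := by rw [hrdef]; field_simp
  have hnpos : (0 : ℝ) < n := by
    have : (5 : ℝ) ≤ n := by exact_mod_cast h5
    linarith
  -- the barycenter
  have hMxint : Integrable (fun x : SS E => M x • (x : E)) (sm E) := by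
    obtain ⟨hMm, C, hC⟩ := hM
    refine Integrable.of_bound (hMm.smul measurable_subtype_coe).aestronglyMeasurable C
      (Eventually.of_forall fun x => ?_)
    rw [norm_smul, norm_eq_of_mem_sphere x, mul_one]
    exact hC x
  set b : E := ∫ x, M x • (x : E) ∂(sm E) with hb
  have hbi : ∀ y : E, ∫ x, ⟪y, (x : E)⟫ * M x ∂(sm E) = ⟪y, b⟫ := by
    intro y
    rw [hb, ← integral_inner hMxint y]
    refine integral_congr_ae (Eventually.of_forall fun x => ?_)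
    show ⟪y, (x : E)⟫ * M x = ⟪y, M x • (x : E)⟫
    rw [real_inner_smul_right]; ring
  have hbB := iter_lin_BM_inner (E := E) b
  set m0 : ℝ := ∫ x, M x ∂(sm E) with hm0
  have hPM : BM (PP r M) := (PP_basic h3 r hM hM).1
  -- M2
  have hA : BM (fun x : SS E => (-m0) * 1 + (-(n : ℝ)) * ⟪b, (x : E)⟫) :=
    iter_lin_BM_lin (-m0) (-(n : ℝ)) (iter_lin_BM_const 1) hbB
  set A : SS E → ℝ := fun x => (-m0) * 1 + (-(n : ℝ)) * ⟪b, (x : E)⟫ with hAdef
  have hM2 : BM (fun x => 1 * M x + 1 * A x) := iter_lin_BM_lin 1 1 hM hA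
  set M2 : SS E → ℝ := fun x => 1 * M x + 1 * A x with hM2def
  have hM2x : ∀ x, M2 x = M x - m0 - n * ⟪b, (x : E)⟫ := fun x => by
    show 1 * M x + 1 * ((-m0) * 1 + (-(n : ℝ)) * ⟪b, (x : E)⟫) = _
    ring
  have hM20 : ∫ x, M2 x ∂(sm E) = 0 := by
    rw [hM2def, iter_lin_intlin h1' 1 1 hM hA, hAdef,
      iter_lin_intlin h1' (-m0) (-(n : ℝ)) (iter_lin_BM_const 1) hbB, iter_lin_inner_zero h3 b]
    simp only [integral_const, probReal_univ, smul_eq_mul, mul_one, one_mul]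
    rw [← hm0]; ring
  have hM21 : ∀ y : E, ∫ x, ⟪y, (x : E)⟫ * M2 x ∂(sm E) = 0 := by
    intro y
    have hy := iter_lin_BM_inner (E := E) y
    have e : ∫ x, ⟪y, (x : E)⟫ * M2 x ∂(sm E)
        = ∫ x, (1 * (1 * (⟪y, (x : E)⟫ * M x) + (-m0) * ⟪y, (x : E)⟫)
          + (-(n : ℝ)) * (⟪y, (x : E)⟫ * ⟪b, (x : E)⟫)) ∂(sm E) := by
      refine integral_congr_ae (Eventually.of_forall fun x => ?_)
      show ⟪y, (x : E)⟫ * M2 x = 1 * (1 * (⟪y, (x : E)⟫ * M x) + (-m0) * ⟪y, (x : E)⟫)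
          + (-(n : ℝ)) * (⟪y, (x : E)⟫ * ⟪b, (x : E)⟫)
      rw [hM2x]; ring
    have h' := iter_lin_inner_inner hn h5 y b
    rw [e, iter_lin_intlin h1' 1 (-(n : ℝ)) (iter_lin_BM_lin 1 (-m0) (iter_lin_BM_mul hy hM) hy)
      (iter_lin_BM_mul hy hbB), iter_lin_intlin h1' 1 (-m0) (iter_lin_BM_mul hy hM) hy,
      iter_lin_inner_zero h3 y, hbi y]
    linarith
  -- P M2
  have hPA : ∀ x, PP r A x = (-m0) + (-(n : ℝ)) * (r * ⟪b, (x : E)⟫) := by
    intro x
    rw [hAdef, (PP_basic h3 r (iter_lin_BM_const 1) hbB).2.2.1 (-m0) (-(n : ℝ)) x,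
      PP_linear h3 hr b x, (PP_basic h3 r hM hM).2.1 x, mul_one]
  have hPM2 : ∀ x, PP r M2 x = PP r M x - m0 - n * (r * ⟪b, (x : E)⟫) := by
    intro x
    rw [hM2def, (PP_basic h3 r hM hA).2.2.1 1 1 x, hPA x]
    ring
  have hPM2B : BM (PP r M2) := (PP_basic h3 r hM2 hM2).1
  refine ⟨b, ?_, ?_⟩
  · -- n ‖b‖² ≤ ∫ M²
    have hMM := iter_lin_BM_mul hM hM
    have hbM := iter_lin_BM_mul hbB hM
    have hbb := iter_lin_BM_mul hbB hbB
    have h0 : 0 ≤ ∫ x, (M x - n * ⟪b, (x : E)⟫) ^ 2 ∂(sm E) :=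
      integral_nonneg fun x => sq_nonneg _
    have e : ∫ x, (M x - n * ⟪b, (x : E)⟫) ^ 2 ∂(sm E)
        = ∫ x, (1 * (1 * (M x * M x) + (-(2 * n : ℝ)) * (⟪b, (x : E)⟫ * M x))
          + ((n : ℝ) ^ 2) * (⟪b, (x : E)⟫ * ⟪b, (x : E)⟫)) ∂(sm E) := by
      refine integral_congr_ae (Eventually.of_forall fun x => ?_)
      show (M x - n * ⟪b, (x : E)⟫) ^ 2 = 1 * (1 * (M x * M x) + (-(2 * n : ℝ)) * (⟪b, (x : E)⟫ * M x))
          + ((n : ℝ) ^ 2) * (⟪b, (x : E)⟫ * ⟪b, (x : E)⟫)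
      ring
    have h' := iter_lin_inner_inner hn h5 b b
    rw [e, iter_lin_intlin h1' 1 ((n : ℝ) ^ 2) (iter_lin_BM_lin 1 (-(2 * n : ℝ)) hMM hbM) hbb,
      iter_lin_intlin h1' 1 (-(2 * n : ℝ)) hMM hbM, hbi b] at h0
    rw [real_inner_self_eq_norm_sq] at h' h0
    have e2 : ∫ x, (M x) ^ 2 ∂(sm E) = ∫ x, M x * M x ∂(sm E) := by simp only [sq]
    rw [e2]
    nlinarith
  · have hstep := iter_lin_step hn h5 hq hr J M2 hM2 hM20 hM21
    rw [hrsq]
    -- R
    have hR : BM (fun x => 1 * M x + q * PP r M x) := iter_lin_BM_lin 1 q hM hPM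
    have hR' : BM (fun x => M x + q * PP r M x) := by simpa using hR
    set IR : ℝ := ∫ x, |M x + q * PP r M x| ∂(sm E) with hIR
    have hIR0 : 0 ≤ IR := integral_nonneg fun x => abs_nonneg _
    have hintR : ∫ x, (M x + q * PP r M x) ∂(sm E) = (t : ℝ) * m0 := by
      have := iter_lin_intlin h1' 1 q hM hPM
      rw [(PP_sym h3 hr1 hr2 hM hM).2.1] at this
      simp only [one_mul] at this
      rw [this, hqdef]; ring
    have hm0le : (t : ℝ) * |m0| ≤ IR := by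
      have : |∫ x, (M x + q * PP r M x) ∂(sm E)| ≤ IR := by
        rw [hIR]
        exact abs_integral_le_integral_abs
      rw [hintR, abs_mul, abs_of_nonneg (by linarith : (0:ℝ) ≤ (t:ℝ))] at this
      exact this
    have hR2 : ∫ x, |M2 x + q * PP r M2 x| ∂(sm E) ≤ 2 * IR := by
      have e1 : ∀ x, M2 x + q * PP r M2 x = (M x + q * PP r M x) - t * m0 := by
        intro x
        rw [hM2x, hPM2]
        have e0 : q * (PP r M x - m0 - n * (r * ⟪b, (x : E)⟫))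
            = q * PP r M x - q * m0 - (q * r) * (n * ⟪b, (x : E)⟫) := by ring
        rw [e0, hqr, hqdef]; ring
      have hR2B : BM (fun x => M2 x + q * PP r M2 x) := by
        simpa using iter_lin_BM_lin 1 q hM2 hPM2B
      calc ∫ x, |M2 x + q * PP r M2 x| ∂(sm E)
          ≤ ∫ x, (1 * |M x + q * PP r M x| + (t * |m0|) * 1) ∂(sm E) := by
            refine integral_mono (iter_lin_int h1' (iter_lin_BM_abs hR2B))
              (iter_lin_int h1' (iter_lin_BM_lin 1 (t * |m0|) (iter_lin_BM_abs hR')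
                (iter_lin_BM_const 1))) fun x => ?_
            show |M2 x + q * PP r M2 x| ≤ 1 * |M x + q * PP r M x| + (t * |m0|) * 1
            rw [e1]
            calc |(M x + q * PP r M x) - t * m0| ≤ |M x + q * PP r M x| + |t * m0| := abs_sub _ _
              _ = _ := by
                rw [abs_mul, abs_of_nonneg (by linarith : (0:ℝ) ≤ (t:ℝ)), one_mul, mul_one]
        _ = IR + t * |m0| := by
            rw [iter_lin_intlin h1' 1 (t * |m0|) (iter_lin_BM_abs hR') (iter_lin_BM_const 1)]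
            simp only [integral_const, probReal_univ, smul_eq_mul, mul_one, one_mul]
            rw [← hIR]
        _ ≤ 2 * IR := by linarith
    -- ‖P M2‖ ≤ ‖P M‖
    have hPP : Real.sqrt (∫ x, (PP r M2 x) ^ 2 ∂(sm E)) ≤ Real.sqrt (∫ x, (PP r M x) ^ 2 ∂(sm E)) := by
      refine Real.sqrt_le_sqrt ?_
      -- PP r M = PP r M2 + D, D = m0 + n r ⟪b, x⟫
      have hD : BM (fun x : SS E => m0 * 1 + (n * r) * ⟪b, (x : E)⟫) :=
        iter_lin_BM_lin m0 (n * r) (iter_lin_BM_const 1) hbB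
      set D : SS E → ℝ := fun x => m0 * 1 + (n * r) * ⟪b, (x : E)⟫ with hDdef
      have hPM2D : ∀ x, PP r M x = PP r M2 x + D x := fun x => by
        rw [hPM2]; show _ = _ + (m0 * 1 + (n * r) * ⟪b, (x : E)⟫); ring
      have hPM20 : ∫ x, PP r M2 x ∂(sm E) = 0 := by
        rw [(PP_sym h3 hr1 hr2 hM2 hM2).2.1, hM20]
      have hPM21 : ∫ x, ⟪b, (x : E)⟫ * PP r M2 x ∂(sm E) = 0 := by
        rw [(PP_sym h3 hr1 hr2 hM2 hbB).1]
        have : ∀ x : SS E, M2 x * PP r (fun z : SS E => ⟪b, (z : E)⟫) x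
            = r * (⟪b, (x : E)⟫ * M2 x) := fun x => by
          rw [PP_linear h3 hr]; ring
        simp only [this]
        rw [integral_const_mul, hM21 b, mul_zero]
      have hcross : ∫ x, D x * PP r M2 x ∂(sm E) = 0 := by
        have e : ∫ x, D x * PP r M2 x ∂(sm E)
            = ∫ x, (m0 * PP r M2 x + (n * r) * (⟪b, (x : E)⟫ * PP r M2 x)) ∂(sm E) := by
          refine integral_congr_ae (Eventually.of_forall fun x => ?_)
          show (m0 * 1 + (n * r) * ⟪b, (x : E)⟫) * PP r M2 x = _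
          ring
        rw [e, iter_lin_intlin h1' m0 (n * r) hPM2B (iter_lin_BM_mul hbB hPM2B), hPM20, hPM21]
        ring
      have e : ∫ x, (PP r M x) ^ 2 ∂(sm E) = ∫ x, (1 * (1 * (PP r M2 x * PP r M2 x)
          + 2 * (D x * PP r M2 x)) + 1 * (D x * D x)) ∂(sm E) := by
        refine integral_congr_ae (Eventually.of_forall fun x => ?_)
        show (PP r M x) ^ 2 = 1 * (1 * (PP r M2 x * PP r M2 x)
          + 2 * (D x * PP r M2 x)) + 1 * (D x * D x)
        rw [hPM2D]; ring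
      have hDD : 0 ≤ ∫ x, D x * D x ∂(sm E) := integral_nonneg fun x => mul_self_nonneg _
      rw [e, iter_lin_intlin h1' 1 1 (iter_lin_BM_lin 1 2 (iter_lin_BM_mul hPM2B hPM2B)
        (iter_lin_BM_mul hD hPM2B)) (iter_lin_BM_mul hD hD),
        iter_lin_intlin h1' 1 2 (iter_lin_BM_mul hPM2B hPM2B) (iter_lin_BM_mul hD hPM2B), hcross]
      have e3 : ∫ x, (PP r M2 x) ^ 2 ∂(sm E) = ∫ x, PP r M2 x * PP r M2 x ∂(sm E) := by
        simp only [sq]
      rw [e3]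
      linarith
    have hMM1 : ∫ x, |M x - n * ⟪b, (x : E)⟫| ∂(sm E) ≤ |m0| + ∫ x, |M2 x| ∂(sm E) := by
      have hB : BM (fun x => M x - n * ⟪b, (x : E)⟫) := by
        have := iter_lin_BM_lin 1 (-(n : ℝ)) hM hbB
        simpa [sub_eq_add_neg] using this
      calc ∫ x, |M x - n * ⟪b, (x : E)⟫| ∂(sm E)
          ≤ ∫ x, (|m0| * 1 + 1 * |M2 x|) ∂(sm E) := by
            refine integral_mono (iter_lin_int h1' (iter_lin_BM_abs hB))
              (iter_lin_int h1' (iter_lin_BM_lin |m0| 1 (iter_lin_BM_const 1)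
                (iter_lin_BM_abs hM2))) fun x => ?_
            show |M x - n * ⟪b, (x : E)⟫| ≤ |m0| * 1 + 1 * |M2 x|
            have e : M x - n * ⟪b, (x : E)⟫ = m0 + M2 x := by rw [hM2x]; ring
            rw [e, mul_one, one_mul]
            exact abs_add_le _ _
        _ = _ := by
            rw [iter_lin_intlin h1' |m0| 1 (iter_lin_BM_const 1) (iter_lin_BM_abs hM2)]
            simp only [integral_const, probReal_univ, smul_eq_mul, mul_one, one_mul]
    have hm0' : |m0| ≤ IR := by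
      have := abs_nonneg m0
      nlinarith
    have hqJ : 0 ≤ q ^ (J + 1) - 1 := by
      have : 1 ≤ q ^ (J + 1) := one_le_pow₀ (by linarith)
      linarith
    have t1 := mul_le_mul_of_nonneg_left hR2 hqJ
    have hΛ : 0 ≤ (q * (r ^ 2 + 2 / n)) ^ J := by positivity
    have t2 : (q * (r ^ 2 + 2 / n)) ^ J * (q * Real.sqrt (∫ x, (PP r M2 x) ^ 2 ∂(sm E)))
        ≤ (q * (r ^ 2 + 2 / n)) ^ J * (q * Real.sqrt (∫ x, (PP r M x) ^ 2 ∂(sm E))) :=
      mul_le_mul_of_nonneg_left (mul_le_mul_of_nonneg_left hPP (by linarith)) hΛ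
    rw [Nat.add_sub_cancel]
    have e9 : (q ^ (J + 1) - 1) * (2 * IR) = 2 * q ^ (J + 1) * IR - 2 * IR := by ring
    linarith

-- lin_L1
theorem lin_L1_poly (t : ℝ) (ht : 0 ≤ t) : 3 / 4 * t ^ 2 - 1 / 16 * t ^ 4 ≤ t := by
  have h := mul_nonneg ht (mul_nonneg (sq_nonneg (t - 2)) (by linarith : (0 : ℝ) ≤ t + 4))
  have e : t * ((t - 2) ^ 2 * (t + 4)) = t ^ 4 - 12 * t ^ 2 + 16 * t := by ring
  rw [e] at h
  linarith

theorem lin_L1_unit {E : Type*} [NormedAddCommGroup E] [InnerProductSpace ℝ E] [CompleteSpace E]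
    [FiniteDimensional ℝ E] [MeasurableSpace E] [BorelSpace E] {n : ℕ}
    (hn : Module.finrank ℝ E = n) (h5 : 5 ≤ n) (v : SS E) :
    1 / (2 * Real.sqrt n) ≤ ∫ x, |⟪(v : E), (x : E)⟫| ∂(sm E) := by
  have hP : IsProbabilityMeasure (sm E) := sm_prob (by omega)
  have hc : Continuous fun x : SS E => ⟪(v : E), (x : E)⟫ :=
    continuous_const.inner continuous_subtype_val
  have hi : ∀ f : SS E → ℝ, Continuous f → Integrable f (sm E) := fun f hf =>
    hf.integrable_of_hasCompactSupport (HasCompactSupport.of_compactSpace _)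
  have hn0 : (0 : ℝ) < n := by
    have : 0 < n := by omega
    exact_mod_cast this
  have h0 := sm_stein hn (by omega) v 0
  have h2 := sm_stein hn (by omega) v 2
  have i2 : Integrable (fun x : SS E => ⟪(v : E), (x : E)⟫ ^ 2) (sm E) := hi _ (hc.pow 2)
  have i4 : Integrable (fun x : SS E => ⟪(v : E), (x : E)⟫ ^ 4) (sm E) := hi _ (hc.pow 4)
  set m2 := ∫ x, ⟪(v : E), (x : E)⟫ ^ 2 ∂(sm E) with hm2
  set m4 := ∫ x, ⟪(v : E), (x : E)⟫ ^ 4 ∂(sm E) with hm4
  have e0 : ∫ x, (1 - ⟪(v : E), (x : E)⟫ ^ 2) * ⟪(v : E), (x : E)⟫ ^ 0 ∂(sm E) = 1 - m2 := by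
    have : (fun x : SS E => (1 - ⟪(v : E), (x : E)⟫ ^ 2) * ⟪(v : E), (x : E)⟫ ^ 0)
        = fun x : SS E => (1 : ℝ) - ⟪(v : E), (x : E)⟫ ^ 2 := by
      funext x
      ring
    rw [this, integral_sub (integrable_const _) i2]
    simp [hm2]
  have e2 : ∫ x, (1 - ⟪(v : E), (x : E)⟫ ^ 2) * ⟪(v : E), (x : E)⟫ ^ 2 ∂(sm E) = m2 - m4 := by
    have : (fun x : SS E => (1 - ⟪(v : E), (x : E)⟫ ^ 2) * ⟪(v : E), (x : E)⟫ ^ 2)
        = fun x : SS E => ⟪(v : E), (x : E)⟫ ^ 2 - ⟪(v : E), (x : E)⟫ ^ 4 := by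
      funext x
      ring
    rw [this, integral_sub i2 i4]
  rw [e0] at h0
  rw [e2] at h2
  simp only [Nat.cast_zero, zero_add, one_mul, Nat.cast_ofNat] at h0 h2
  have f2 : (n : ℝ) * m2 = 1 := by linarith
  have f4 : ((n : ℝ) + 2) * m4 = 3 * m2 := by linarith
  have hm4' : 0 ≤ m4 := integral_nonneg fun x => by positivity
  have g4 : (n : ℝ) ^ 2 * m4 ≤ 3 := by
    have : (n : ℝ) * (((n : ℝ) + 2) * m4) = 3 := by
      rw [f4]
      linarith
    nlinarith [mul_nonneg hn0.le hm4']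
  have hs : Real.sqrt n ^ 2 = n := Real.sq_sqrt hn0.le
  have hs0 : 0 < Real.sqrt n := Real.sqrt_pos.2 hn0
  have key : ∫ x, (3 / 4 * ((n : ℝ) * ⟪(v : E), (x : E)⟫ ^ 2)
      - 1 / 16 * ((n : ℝ) ^ 2 * ⟪(v : E), (x : E)⟫ ^ 4)) ∂(sm E)
      ≤ ∫ x, Real.sqrt n * |⟪(v : E), (x : E)⟫| ∂(sm E) := by
    refine integral_mono (((i2.const_mul _).const_mul _).sub ((i4.const_mul _).const_mul _))
      (hi _ (continuous_const.mul hc.abs)) fun x => ?_
    have h := lin_L1_poly (Real.sqrt n * |⟪(v : E), (x : E)⟫|) (by positivity)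
    have q2 : (Real.sqrt n * |⟪(v : E), (x : E)⟫|) ^ 2 = n * ⟪(v : E), (x : E)⟫ ^ 2 := by
      rw [mul_pow, hs, sq_abs]
    have q4 : (Real.sqrt n * |⟪(v : E), (x : E)⟫|) ^ 4 = (n : ℝ) ^ 2 * ⟪(v : E), (x : E)⟫ ^ 4 := by
      have : (Real.sqrt n * |⟪(v : E), (x : E)⟫|) ^ 4
        = ((Real.sqrt n * |⟪(v : E), (x : E)⟫|) ^ 2) ^ 2 := by ring
      rw [this, q2]
      ring
    rw [q2, q4] at h
    exact h
  rw [integral_sub ((i2.const_mul _).const_mul _) ((i4.const_mul _).const_mul _)] at key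
  simp only [integral_const_mul] at key
  rw [← hm2, ← hm4, f2] at key
  have fin : (1 : ℝ) / 2 ≤ Real.sqrt n * ∫ x, |⟪(v : E), (x : E)⟫| ∂(sm E) := by linarith
  rw [div_le_iff₀ (by positivity)]
  linarith

theorem lin_L1 {E : Type*} [NormedAddCommGroup E] [InnerProductSpace ℝ E] [CompleteSpace E]
    [FiniteDimensional ℝ E] [MeasurableSpace E] [BorelSpace E] {n : ℕ}
    (hn : Module.finrank ℝ E = n) (h5 : 5 ≤ n) (b : E) :
    ‖b‖ / (2 * Real.sqrt n) ≤ ∫ x, |⟪b, (x : E)⟫| ∂(sm E) := by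
  by_cases hb : b = 0
  · subst hb
    simp
  · have hb' : 0 < ‖b‖ := norm_pos_iff.2 hb
    have hv : (‖b‖⁻¹ • b) ∈ sphere (0 : E) 1 := by
      rw [mem_sphere_zero_iff_norm, norm_smul, norm_inv, norm_norm, inv_mul_cancel₀ hb'.ne']
    have h := lin_L1_unit hn h5 ⟨_, hv⟩
    have e : (fun x : SS E => |⟪b, (x : E)⟫|)
        = fun x : SS E => ‖b‖ * |⟪(‖b‖⁻¹ • b : E), (x : E)⟫| := by
      funext x
      rw [real_inner_smul_left, abs_mul, abs_inv, abs_norm, ← mul_assoc,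
        mul_inv_cancel₀ hb'.ne', one_mul]
    rw [e, integral_const_mul]
    calc ‖b‖ / (2 * Real.sqrt n) = ‖b‖ * (1 / (2 * Real.sqrt n)) := by ring
      _ ≤ _ := mul_le_mul_of_nonneg_left h hb'.le


end CoreW

end Pool.Agent.helper440_simplex
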