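import Pool.Agent.helper440_simplex.LocalA2

set_option autoImplicit false
set_option linter.unusedSectionVars false

namespace Pool.Agent.helper440_simplex

open MeasureTheory Metric Set Filter Topology
open scoped RealInnerProductSpace

section CoreW
variable {E : Type*} [NormedAddCommGroup E] [InnerProductSpace ℝ E] [CompleteSpace E]
  [FiniteDimensional ℝ E] [MeasurableSpace E] [BorelSpace E]

-- tilt
theorem tilt_theta_mono {n : ℕ} (hn : 4 ≤ n) (c : ℝ) {τ τ' : ℝ} (h : τ ≤ τ') :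
    ∫ s in c..τ, om n s ≤ ∫ s in c..τ', om n s := by
  obtain ⟨_, hcont, hnn, -⟩ := om_basic hn
  have h1 : (∫ s in c..τ, om n s) + ∫ s in τ..τ', om n s = ∫ s in c..τ', om n s :=
    intervalIntegral.integral_add_adjacent_intervals (hcont.intervalIntegrable _ _)
      (hcont.intervalIntegrable _ _)
  have h2 : 0 ≤ ∫ s in τ..τ', om n s := intervalIntegral.integral_nonneg h fun s _ => hnn s
  linarith

theorem tilt_theta_lin {n : ℕ} (hn : 4 ≤ n) {Hm : ℝ} (hH : 0 ≤ Hm)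
    (hlip : ∀ s s' : ℝ, |s| ≤ (Hm + 1) / Real.sqrt n → |s'| ≤ (Hm + 1) / Real.sqrt n →
      |om n s - om n s'| ≤ (Hm + 1) * n * |s - s'|)
    {c τ : ℝ} (hc0 : 0 ≤ c) (hc : Real.sqrt n * c ≤ Hm)
    (hy : |Real.sqrt n * (τ - c)| ≤ 1) :
    |(∫ s in c..τ, om n s) - om n c * (τ - c)| ≤ (Hm + 1) * (Real.sqrt n * (τ - c)) ^ 2 := by
  obtain ⟨_, hcont, hnn, -⟩ := om_basic hn
  have hn0 : (0 : ℝ) < n := by exact_mod_cast (by omega : 0 < n)
  have hN : 0 < Real.sqrt n := Real.sqrt_pos.2 hn0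
  have hNN : Real.sqrt n * Real.sqrt n = n := Real.mul_self_sqrt hn0.le
  have e : (∫ s in c..τ, om n s) - om n c * (τ - c) = ∫ s in c..τ, (om n s - om n c) := by
    rw [intervalIntegral.integral_sub (hcont.intervalIntegrable _ _) intervalIntegrable_const,
      intervalIntegral.integral_const, smul_eq_mul, mul_comm (τ - c)]
  rw [e]
  have hyc : |τ - c| ≤ 1 / Real.sqrt n := by
    rw [abs_mul, abs_of_pos hN] at hy
    rw [le_div_iff₀ hN]; linarith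
  have hcN : c ≤ Hm / Real.sqrt n := by rw [le_div_iff₀ hN]; linarith
  have hadd : Hm / Real.sqrt n + 1 / Real.sqrt n = (Hm + 1) / Real.sqrt n := by ring
  have hpos : 0 < 1 / Real.sqrt n := by positivity
  have key := intervalIntegral.norm_integral_le_of_norm_le_const (a := c) (b := τ)
    (f := fun s => om n s - om n c) (C := (Hm + 1) * n * |τ - c|) (by
      intro s hs
      have h1 : |s - c| ≤ |τ - c| := Set.abs_sub_left_of_mem_uIcc (Set.uIoc_subset_uIcc hs)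
      rw [Real.norm_eq_abs]
      have h2 : |s| ≤ (Hm + 1) / Real.sqrt n := by
        have : |s| ≤ |s - c| + |c| := by
          have := abs_add_le (s - c) c
          simpa using this
        rw [abs_of_nonneg hc0] at this
        linarith
      have h3 : |c| ≤ (Hm + 1) / Real.sqrt n := by
        rw [abs_of_nonneg hc0]; linarith
      refine (hlip s c h2 h3).trans ?_
      exact mul_le_mul_of_nonneg_left h1 (by positivity))
  rw [Real.norm_eq_abs] at key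
  refine key.trans (le_of_eq ?_)
  rw [mul_assoc, abs_mul_abs_self, mul_pow, Real.sq_sqrt hn0.le]
  ring

theorem tilt_L1 {Hm θ g y A r K : ℝ} (hH : 0 ≤ Hm) (hg : |g| ≤ 1 / 4) (hA : |A - 1| ≤ |y|)
    (hr0 : 0 ≤ r) (hr : r ≤ Hm * θ ^ 2) (hK : 4 * (1 + Hm) ≤ K)
    (h : K * (g ^ 2 + θ ^ 2) < |y + g|) : (r ≤ y + A * g) ↔ 0 < y + g := by
  have hK0 : 0 ≤ K := by linarith
  have hE : 0 ≤ g ^ 2 + θ ^ 2 := by positivity
  have h1 : |(A - 1) * g| ≤ |y| * |g| := by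
    rw [abs_mul]; exact mul_le_mul_of_nonneg_right hA (abs_nonneg _)
  have h2 : |y| ≤ |y + g| + |g| := by
    have := abs_add_le (y + g) (-g)
    rw [abs_neg] at this
    simpa using this
  have h3 : |y| * |g| ≤ |y + g| / 4 + g ^ 2 := by
    have h4 : |y| * |g| ≤ (|y + g| + |g|) * |g| := mul_le_mul_of_nonneg_right h2 (abs_nonneg _)
    have h5 : |y + g| * |g| ≤ |y + g| * (1 / 4) := mul_le_mul_of_nonneg_left hg (abs_nonneg _)
    have h6 : |g| * |g| = g ^ 2 := by rw [abs_mul_abs_self]; ring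
    nlinarith
  have h7 : 4 * (1 + Hm) * (g ^ 2 + θ ^ 2) ≤ K * (g ^ 2 + θ ^ 2) :=
    mul_le_mul_of_nonneg_right hK hE
  have h8 := abs_le.1 h1
  have h9 : 0 ≤ Hm * g ^ 2 := by positivity
  have h10 : 0 ≤ Hm * θ ^ 2 := by positivity
  have h11 : 0 ≤ g ^ 2 := by positivity
  have h12 : 0 ≤ θ ^ 2 := by positivity
  have hAg : y + A * g = (y + g) + (A - 1) * g := by ring
  rw [hAg]
  constructor
  · intro hC
    by_contra hneg
    push Not at hneg
    rw [abs_of_nonpos hneg] at h h3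
    nlinarith
  · intro hpos
    rw [abs_of_pos hpos] at h h3
    nlinarith

theorem tilt_L2 {θ g y φ φ0 R1 T K δ1 : ℝ} (hφ0 : 0 < φ0) (hφ : φ0 ≤ φ) (hR : 0 ≤ R1)
    (hT : |T - φ * y| ≤ R1 * y ^ 2) (hy : |y| ≤ δ1) (hg : |g| ≤ δ1) (hδ : 16 * R1 * δ1 ≤ φ0)
    (hK : 4 * R1 ≤ K * φ0) (hK0 : 0 ≤ K)
    (h : K * (g ^ 2 + θ ^ 2) < |y + g|) : (-(φ * g) ≤ T) ↔ 0 < y + g := by
  have hs : |y + g| ≤ 2 * δ1 := by
    have := abs_add_le y g
    linarith
  have hE : g ^ 2 ≤ g ^ 2 + θ ^ 2 := by nlinarith [sq_nonneg θ]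
  have h1 : K * g ^ 2 ≤ |y + g| := by
    have : K * g ^ 2 ≤ K * (g ^ 2 + θ ^ 2) := mul_le_mul_of_nonneg_left hE hK0
    linarith
  have h2 : y ^ 2 ≤ 2 * |y + g| ^ 2 + 2 * g ^ 2 := by
    rw [sq_abs]; nlinarith [sq_nonneg (y + 2 * g)]
  have hsn := abs_nonneg (y + g)
  have h3 : R1 * |y + g| ^ 2 ≤ φ0 / 8 * |y + g| := by
    have : R1 * |y + g| ≤ φ0 / 8 := by
      have : R1 * |y + g| ≤ R1 * (2 * δ1) := mul_le_mul_of_nonneg_left hs hR
      linarith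
    nlinarith
  have h4 : 4 * R1 * g ^ 2 ≤ φ0 * |y + g| := by
    have : 4 * R1 * g ^ 2 ≤ K * φ0 * g ^ 2 := mul_le_mul_of_nonneg_right hK (sq_nonneg g)
    have h5 : φ0 * (K * g ^ 2) ≤ φ0 * |y + g| := mul_le_mul_of_nonneg_left h1 hφ0.le
    nlinarith
  have h5 : R1 * y ^ 2 ≤ 3 / 4 * (φ0 * |y + g|) := by
    have : R1 * y ^ 2 ≤ R1 * (2 * |y + g| ^ 2 + 2 * g ^ 2) := mul_le_mul_of_nonneg_left h2 hR
    nlinarith
  have h6 : φ0 * |y + g| ≤ φ * |y + g| := mul_le_mul_of_nonneg_right hφ hsn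
  have h7 := abs_le.1 hT
  have hK2 : 0 ≤ K * (g ^ 2 + θ ^ 2) := by positivity
  have h8 : 0 < |y + g| := lt_of_le_of_lt hK2 h
  have h9 : 0 < φ0 * |y + g| := by positivity
  constructor
  · intro hC
    by_contra hneg
    push Not at hneg
    rw [abs_of_nonpos hneg] at h5 h6 h9
    nlinarith
  · intro hpos
    rw [abs_of_pos hpos] at h5 h6 h9
    nlinarith

theorem tilt_A {N c τ y : ℝ} (hN : 4 ≤ N) (hc0 : 0 ≤ c) (hc2 : c ^ 2 ≤ 1 / 2)
    (hτ : |τ| ≤ 1) (hy : y = N * (τ - c)) :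
    0 ≤ Real.sqrt (1 - τ ^ 2) / Real.sqrt (1 - c ^ 2) ∧
    Real.sqrt (1 - τ ^ 2) / Real.sqrt (1 - c ^ 2) ≤ 2 ∧
    |Real.sqrt (1 - τ ^ 2) / Real.sqrt (1 - c ^ 2) - 1| ≤ |y| := by
  have hκ2 : (1 : ℝ) / 2 ≤ 1 - c ^ 2 := by linarith
  have hκ : 1 / 2 ≤ Real.sqrt (1 - c ^ 2) := by
    rw [show (1 : ℝ) / 2 = Real.sqrt ((1 / 2) ^ 2) from (Real.sqrt_sq (by norm_num)).symm]
    exact Real.sqrt_le_sqrt (by norm_num; linarith)
  have hκ0 : 0 < Real.sqrt (1 - c ^ 2) := by linarith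
  have hτ2 : τ ^ 2 ≤ 1 := by rw [← sq_abs]; nlinarith [abs_nonneg τ]
  have hs1 : Real.sqrt (1 - τ ^ 2) ≤ 1 := by
    rw [Real.sqrt_le_one]; nlinarith [sq_nonneg τ]
  have hs0 : 0 ≤ Real.sqrt (1 - τ ^ 2) := Real.sqrt_nonneg _
  have hA0 : 0 ≤ Real.sqrt (1 - τ ^ 2) / Real.sqrt (1 - c ^ 2) := by positivity
  refine ⟨hA0, ?_, ?_⟩
  · rw [div_le_iff₀ hκ0]; linarith
  · set A := Real.sqrt (1 - τ ^ 2) / Real.sqrt (1 - c ^ 2) with hA
    have hAA : A ^ 2 * (1 - c ^ 2) = 1 - τ ^ 2 := by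
      rw [hA, div_pow, Real.sq_sqrt (by linarith), Real.sq_sqrt (by linarith)]
      field_simp
    have h1 : |A - 1| * (A + 1) * (1 - c ^ 2) = |c - τ| * |c + τ| := by
      rw [← abs_mul, show (c - τ) * (c + τ) = (A - 1) * ((A + 1) * (1 - c ^ 2)) by
        nlinarith [hAA], abs_mul, abs_of_nonneg (show 0 ≤ (A + 1) * (1 - c ^ 2) by
          apply mul_nonneg <;> linarith)]
      ring
    have hc1 : c ≤ 1 := by nlinarith
    have h2 : |c + τ| ≤ 2 := by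
      have := abs_add_le c τ
      rw [abs_of_nonneg hc0] at this
      linarith
    have h3 : |A - 1| * (1 / 2) ≤ |c - τ| * 2 := by
      have h4 : |A - 1| * (1 / 2) ≤ |A - 1| * ((A + 1) * (1 - c ^ 2)) := by
        refine mul_le_mul_of_nonneg_left ?_ (abs_nonneg _)
        nlinarith
      have h5 : |c - τ| * |c + τ| ≤ |c - τ| * 2 := mul_le_mul_of_nonneg_left h2 (abs_nonneg _)
      nlinarith
    have h6 : |y| = N * |c - τ| := by
      rw [hy, abs_mul, abs_of_pos (by linarith : (0 : ℝ) < N), abs_sub_comm]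
    rw [h6]
    nlinarith [abs_nonneg (c - τ)]

theorem tilt_r {Hm N c θ : ℝ} (hN : 0 ≤ N) (hc0 : 0 ≤ c) (hc : N * c ≤ Hm) :
    0 ≤ N * c * (Real.sqrt (1 + θ ^ 2) - 1) ∧
    N * c * (Real.sqrt (1 + θ ^ 2) - 1) ≤ Hm * θ ^ 2 := by
  have h1 : 1 ≤ Real.sqrt (1 + θ ^ 2) := by
    rw [Real.one_le_sqrt]; nlinarith [sq_nonneg θ]
  have h2 : Real.sqrt (1 + θ ^ 2) ≤ 1 + θ ^ 2 := by
    rw [Real.sqrt_le_left (by positivity)]
    nlinarith [sq_nonneg θ]
  have h3 : 0 ≤ N * c := mul_nonneg hN hc0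
  refine ⟨mul_nonneg h3 (by linarith), ?_⟩
  exact mul_le_mul hc (by linarith) (by linarith) (h3.trans hc)

/-- pointwise agreement of the two conditions -/
theorem tilt_pt {Hm : ℝ} (hH : 0 ≤ Hm) : ∃ φ0 K δ : ℝ, 0 < φ0 ∧ 0 < K ∧ 0 < δ ∧
    ∃ n0 : ℕ, 16 ≤ n0 ∧ ∀ n : ℕ, n0 ≤ n → ∀ c : ℝ, 0 ≤ c → Real.sqrt n * c ≤ Hm →
    c ^ 2 ≤ 1 / 2 ∧ Real.sqrt n * φ0 ≤ om n c ∧
    ∀ g θ : ℝ, 0 ≤ θ → θ ≤ δ → |g| ≤ δ → ∀ τ : ℝ, |τ| ≤ 1 →
    K * (g ^ 2 + θ ^ 2) < |Real.sqrt n * (τ - c) + g| →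
    ((c * Real.sqrt (1 + θ ^ 2) ≤ τ + Real.sqrt (1 - τ ^ 2) *
        (g / Real.sqrt n / Real.sqrt (1 - c ^ 2))) ↔
      (-(om n c * (g / Real.sqrt n)) ≤ ∫ s in c..τ, om n s)) := by
  obtain ⟨n1, hn1, hwin⟩ := om_window hH
  obtain ⟨n2, hn2, hlip⟩ := om_lip (R := Hm + 1) (by linarith)
  set φ0 : ℝ := Real.exp (-Hm ^ 2) / 10 with hφ0
  have hφ0p : 0 < φ0 := by positivity
  have hφ01 : φ0 ≤ 1 / 10 := by
    have : Real.exp (-Hm ^ 2) ≤ 1 := Real.exp_le_one_iff.2 (by nlinarith [sq_nonneg Hm])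
    rw [hφ0]; linarith
  obtain ⟨n3, hn3⟩ := exists_nat_ge (2 * Hm ^ 2)
  set R1 : ℝ := Hm + 1 with hR1
  have hR1p : 1 ≤ R1 := by linarith
  set δ1 : ℝ := φ0 / (16 * R1) with hδ1
  have hδ1p : 0 < δ1 := by positivity
  have hδ1e : 16 * R1 * δ1 = φ0 := by rw [hδ1]; field_simp
  have hδ11 : δ1 ≤ 1 / 160 := by
    have : 16 * δ1 ≤ 16 * R1 * δ1 := by nlinarith
    linarith
  set δ : ℝ := δ1 / (8 * R1) with hδ
  have hδp : 0 < δ := by positivity
  have hδe : 8 * R1 * δ = δ1 := by rw [hδ]; field_simp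
  have hδle : 8 * δ ≤ δ1 := by nlinarith
  have hHδ : Hm * δ ^ 2 ≤ δ1 / 4 := by
    have h1 : Hm * δ ≤ R1 * δ := by nlinarith
    have h2 : δ ≤ 1 := by linarith
    have h3 : Hm * δ ^ 2 ≤ R1 * δ * δ := by nlinarith
    have h4 : R1 * δ * δ ≤ R1 * δ := by nlinarith
    linarith
  refine ⟨φ0, 4 * R1 / φ0, δ, hφ0p, by positivity, hδp, n1 + n2 + n3 + 16, by omega, ?_⟩
  intro n hn c hc0 hc
  have hn4 : 4 ≤ n := by omega
  have hn16 : (16 : ℝ) ≤ n := by exact_mod_cast (by omega : 16 ≤ n)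
  have hn0 : (0 : ℝ) < n := by linarith
  have hN4 : 4 ≤ Real.sqrt n := by
    rw [show (4 : ℝ) = Real.sqrt (4 ^ 2) from (Real.sqrt_sq (by norm_num)).symm]
    exact Real.sqrt_le_sqrt (by norm_num; omega)
  have hN : 0 < Real.sqrt n := by linarith
  have hNN : Real.sqrt n * Real.sqrt n = n := Real.mul_self_sqrt hn0.le
  have hn3' : 2 * Hm ^ 2 ≤ n := hn3.trans (by exact_mod_cast (by omega : n3 ≤ n))
  have hc2 : c ^ 2 ≤ 1 / 2 := by
    have h1 : (n : ℝ) * c ^ 2 ≤ Hm ^ 2 := by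
      have h0 : 0 ≤ Real.sqrt n * c := by positivity
      have : (Real.sqrt n * c) ^ 2 ≤ Hm ^ 2 := by
        exact pow_le_pow_left₀ h0 hc 2
      rw [mul_pow, Real.sq_sqrt hn0.le] at this
      exact this
    by_contra hcon
    push Not at hcon
    nlinarith
  have hcN : |c| ≤ Hm / Real.sqrt n := by
    rw [abs_of_nonneg hc0, le_div_iff₀ hN]; linarith
  have hO : Real.sqrt n * φ0 ≤ om n c := hwin n (by omega) c hcN
  refine ⟨hc2, hO, ?_⟩
  intro g θ hθ0 hθ hg τ hτ hK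
  obtain ⟨hA0, hA2, hA1⟩ := tilt_A hN4 hc0 hc2 hτ rfl
  obtain ⟨hr0, hr1⟩ := tilt_r (θ := θ) hN.le hc0 hc
  set A : ℝ := Real.sqrt (1 - τ ^ 2) / Real.sqrt (1 - c ^ 2) with hA
  set r : ℝ := Real.sqrt n * c * (Real.sqrt (1 + θ ^ 2) - 1) with hr
  set y : ℝ := Real.sqrt n * (τ - c) with hy
  set φ : ℝ := om n c / Real.sqrt n with hφ
  have hφ0' : φ0 ≤ φ := by rw [hφ, le_div_iff₀ hN]; linarith
  have hφy : om n c * (τ - c) = φ * y := by rw [hφ, hy]; field_simp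
  have hφg : om n c * (g / Real.sqrt n) = φ * g := by rw [hφ]; field_simp
  have hC : (c * Real.sqrt (1 + θ ^ 2) ≤ τ + Real.sqrt (1 - τ ^ 2) *
        (g / Real.sqrt n / Real.sqrt (1 - c ^ 2))) ↔ r ≤ y + A * g := by
    have e : Real.sqrt n * (τ + Real.sqrt (1 - τ ^ 2) *
        (g / Real.sqrt n / Real.sqrt (1 - c ^ 2)) - c * Real.sqrt (1 + θ ^ 2))
        = y + A * g - r := by
      have hκ0 : 0 < Real.sqrt (1 - c ^ 2) := Real.sqrt_pos.2 (by linarith)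
      rw [hy, hA, hr]
      field_simp
      ring
    rw [← sub_nonneg, ← sub_nonneg (b := r), ← e]
    exact ⟨fun h => mul_nonneg hN.le h, fun h => nonneg_of_mul_nonneg_right h hN⟩
  have hlip' := hlip n (by omega)
  have hnear : |y| ≤ 1 → |(∫ s in c..τ, om n s) - φ * y| ≤ R1 * y ^ 2 := by
    intro h
    rw [← hφy]
    exact tilt_theta_lin hn4 hH hlip' hc0 hc h
  have hgδ1 : 8 * |g| ≤ δ1 := by linarith
  have hgn := abs_nonneg g
  have hrδ : r ≤ δ1 / 4 := by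
    have : Hm * θ ^ 2 ≤ Hm * δ ^ 2 :=
      mul_le_mul_of_nonneg_left (pow_le_pow_left₀ hθ0 hθ 2) hH
    linarith
  have hAg : |A * g| ≤ 2 * |g| := by
    rw [abs_mul, abs_of_nonneg hA0]
    exact mul_le_mul_of_nonneg_right hA2 hgn
  have hAg' := abs_le.1 hAg
  have hga := abs_le.1 (le_refl |g|)
  rw [hC, hφg]
  rcases le_or_gt |y| δ1 with hy1 | hy1
  · have k1 := tilt_L1 (K := 4 * R1 / φ0) hH (by linarith : |g| ≤ 1 / 4) hA1 hr0 hr1
      (by rw [le_div_iff₀ hφ0p]; nlinarith) hK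
    have k2 := tilt_L2 (K := 4 * R1 / φ0) (θ := θ) hφ0p hφ0' (by linarith : 0 ≤ R1)
      (hnear (by linarith)) hy1 (by linarith) hδ1e.le
      (by rw [div_mul_cancel₀ _ hφ0p.ne']) (by positivity) hK
    rw [k1, k2]
  · have hφp : 0 < φ := by linarith
    have hφg' : |φ * g| ≤ φ * (δ1 / 8) := by
      rw [abs_mul, abs_of_pos hφp]
      exact mul_le_mul_of_nonneg_left (by linarith) hφp.le
    have hφg2 := abs_le.1 hφg'
    have hφδ : 0 < φ * δ1 := by positivity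
    have hRδ : R1 * δ1 ^ 2 ≤ φ * δ1 / 16 := by
      have : R1 * δ1 = φ0 / 16 := by linarith
      have h2 : R1 * δ1 ^ 2 = φ0 / 16 * δ1 := by rw [← this]; ring
      rw [h2]; nlinarith
    rcases lt_abs.1 hy1 with h | h
    · have hle : c + δ1 / Real.sqrt n ≤ τ := by
        have : δ1 / Real.sqrt n ≤ τ - c := by
          rw [div_le_iff₀ hN]; linarith
        linarith
      have h1 := tilt_theta_mono hn4 c hle
      have e1 : Real.sqrt n * (c + δ1 / Real.sqrt n - c) = δ1 := by field_simp; ring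
      have h2 := tilt_theta_lin hn4 hH hlip' hc0 hc (τ := c + δ1 / Real.sqrt n)
        (by rw [e1, abs_of_pos hδ1p]; linarith)
      rw [e1, show om n c * (c + δ1 / Real.sqrt n - c) = φ * δ1 by rw [hφ]; field_simp; ring]
        at h2
      have h3 := abs_le.1 h2
      constructor
      · intro _; linarith
      · intro _; linarith
    · have hle : τ ≤ c - δ1 / Real.sqrt n := by
        have : δ1 / Real.sqrt n ≤ c - τ := by
          rw [div_le_iff₀ hN]; linarith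
        linarith
      have h1 := tilt_theta_mono hn4 c hle
      have e1 : Real.sqrt n * (c - δ1 / Real.sqrt n - c) = -δ1 := by field_simp; ring
      have h2 := tilt_theta_lin hn4 hH hlip' hc0 hc (τ := c - δ1 / Real.sqrt n)
        (by rw [e1, abs_neg, abs_of_pos hδ1p]; linarith)
      rw [e1, show om n c * (c - δ1 / Real.sqrt n - c) = -(φ * δ1) by
        rw [hφ]; field_simp; ring, neg_sq] at h2
      have h3 := abs_le.1 h2
      constructor
      · intro _; linarith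
      · intro _; linarith

theorem tilt_ite (P : Prop) [Decidable P] : (0 : ℝ) ≤ (if P then (1 : ℝ) else 0) ∧
    (if P then (1 : ℝ) else 0) ≤ 1 := by
  split_ifs <;> norm_num

theorem tilt_abs {a b : ℝ} (ha : 0 ≤ a ∧ a ≤ 1) (hb : 0 ≤ b ∧ b ≤ 1) : |a - b| ≤ 1 := by
  rw [abs_le]; constructor <;> linarith [ha.1, ha.2, hb.1, hb.2]

/-- integrated over the height -/
theorem tilt_int {Hm : ℝ} (hH : 0 ≤ Hm) : ∃ φ0 K : ℝ, 0 < φ0 ∧ 0 < K ∧
    ∃ n0 : ℕ, 16 ≤ n0 ∧ ∀ n : ℕ, n0 ≤ n → ∀ c : ℝ, 0 ≤ c → Real.sqrt n * c ≤ Hm →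
    c ^ 2 ≤ 1 / 2 ∧ Real.sqrt n * φ0 ≤ om n c ∧
    ∀ g θ : ℝ, 0 ≤ θ → ∀ F : ℝ → ℝ, (∀ τ, 0 ≤ F τ ∧ F τ ≤ 1) →
    (∀ τ, |τ| ≤ 1 → F τ = if (c * Real.sqrt (1 + θ ^ 2) ≤ τ + Real.sqrt (1 - τ ^ 2) *
        (g / Real.sqrt n / Real.sqrt (1 - c ^ 2))) then 1 else 0) →
    ∫ τ, om n τ * |F τ - (if -(om n c * (g / Real.sqrt n)) ≤ ∫ s in c..τ, om n s then 1 else 0)|
      ≤ K * (g ^ 2 + θ ^ 2) := by
  obtain ⟨φ0, K, δ, hφ0, hK, hδ, n0, hn0, hpt⟩ := tilt_pt hH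
  refine ⟨φ0, 2 * K + 1 / δ ^ 2, hφ0, by positivity, n0, hn0, ?_⟩
  intro n hn c hc0 hc
  obtain ⟨hc2, hO, hmain⟩ := hpt n hn c hc0 hc
  refine ⟨hc2, hO, ?_⟩
  intro g θ hθ F hF01 hF
  have hn4 : 4 ≤ n := by omega
  have hn' : (0 : ℝ) < n := by exact_mod_cast (by omega : 0 < n)
  have hN : 0 < Real.sqrt n := Real.sqrt_pos.2 hn'
  obtain ⟨_, _, hnn, hzero, _, _, hint, hint1, _, hle⟩ := om_basic hn4
  have hcn := (cn_bounds hn4).2
  set E : ℝ := g ^ 2 + θ ^ 2 with hE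
  have hE0 : 0 ≤ E := by positivity
  have hδE : 0 ≤ 1 / δ ^ 2 * E := by positivity
  have hKE : 0 ≤ K * E := by positivity
  have hab1 : ∀ τ, |F τ - (if -(om n c * (g / Real.sqrt n)) ≤ ∫ s in c..τ, om n s
      then 1 else 0)| ≤ 1 := fun τ => tilt_abs (hF01 τ) (tilt_ite _)
  have hnonneg : ∀ τ, 0 ≤ om n τ * |F τ - (if -(om n c * (g / Real.sqrt n)) ≤
      ∫ s in c..τ, om n s then 1 else 0)| := fun τ => mul_nonneg (hnn τ) (abs_nonneg _)
  by_cases hs : θ ≤ δ ∧ |g| ≤ δ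
  · obtain ⟨hs1, hs2⟩ := hs
    set a : ℝ := c + (-g - K * E) / Real.sqrt n with ha
    set b : ℝ := c + (-g + K * E) / Real.sqrt n with hb
    have hab : a ≤ b := by
      rw [ha, hb]
      have : (-g - K * E) / Real.sqrt n ≤ (-g + K * E) / Real.sqrt n :=
        div_le_div_of_nonneg_right (by linarith) hN.le
      linarith
    have hpw : ∀ τ, om n τ * |F τ - (if -(om n c * (g / Real.sqrt n)) ≤
        ∫ s in c..τ, om n s then 1 else 0)| ≤ (Icc a b).indicator (fun _ => Real.sqrt n) τ := by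
      intro τ
      by_cases hτ : τ ∈ Icc a b
      · rw [Set.indicator_of_mem hτ]
        calc _ ≤ om n τ * 1 := mul_le_mul_of_nonneg_left (hab1 τ) (hnn τ)
          _ ≤ Real.sqrt n := by rw [mul_one]; exact (hle τ).trans hcn
      · rw [Set.indicator_of_notMem hτ]
        rcases le_or_gt |τ| 1 with h1 | h1
        · have hlt : K * E < |Real.sqrt n * (τ - c) + g| := by
            by_contra hcon
            push Not at hcon
            obtain ⟨h2, h3⟩ := abs_le.1 hcon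
            apply hτ
            constructor
            · rw [ha]
              have : (-g - K * E) / Real.sqrt n ≤ τ - c := by
                rw [div_le_iff₀ hN]; linarith
              linarith
            · rw [hb]
              have : τ - c ≤ (-g + K * E) / Real.sqrt n := by
                rw [le_div_iff₀ hN]; linarith
              linarith
          have hiff := hmain g θ hθ hs1 hs2 τ h1 hlt
          rw [hF τ h1]
          simp only [hiff, sub_self, abs_zero, mul_zero, le_refl]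
        · rw [hzero τ h1.le, zero_mul]
    have hub : Integrable ((Icc a b).indicator (fun _ : ℝ => Real.sqrt n)) := by
      rw [integrable_indicator_iff measurableSet_Icc]
      exact integrableOn_const (by simp)
    have h4 := integral_mono_of_nonneg (Filter.Eventually.of_forall hnonneg) hub
      (Filter.Eventually.of_forall hpw)
    refine h4.trans ?_
    rw [integral_indicator_const _ measurableSet_Icc, smul_eq_mul, Real.volume_real_Icc_of_le hab]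
    have : (b - a) * Real.sqrt n = 2 * (K * E) := by
      rw [ha, hb]; field_simp; ring
    rw [this]
    nlinarith
  · have hδE2 : δ ^ 2 ≤ E := by
      rw [not_and_or, not_le, not_le] at hs
      rcases hs with hs | hs
      · have : δ ^ 2 ≤ θ ^ 2 := pow_le_pow_left₀ hδ.le hs.le 2
        nlinarith [sq_nonneg g]
      · have : δ ^ 2 ≤ |g| ^ 2 := pow_le_pow_left₀ hδ.le hs.le 2
        rw [sq_abs] at this
        nlinarith [sq_nonneg θ]
    have h1 : 1 ≤ 1 / δ ^ 2 * E := by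
      rw [one_div, inv_mul_eq_div, one_le_div (by positivity)]; exact hδE2
    have h4 := integral_mono_of_nonneg (Filter.Eventually.of_forall hnonneg) hint
      (Filter.Eventually.of_forall fun τ => (mul_le_mul_of_nonneg_left (hab1 τ) (hnn τ)).trans
        (le_of_eq (mul_one _)))
    rw [hint1] at h4
    refine h4.trans ?_
    nlinarith

theorem tilt_intble {E : Type*} [NormedAddCommGroup E] [InnerProductSpace ℝ E] [CompleteSpace E]
    [FiniteDimensional ℝ E] [MeasurableSpace E] [BorelSpace E] (hn : 1 ≤ Module.finrank ℝ E)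
    (b : E) : Integrable (fun x : SS E => ⟪b, (x : E)⟫ ^ 2) (sm E) := by
  have := sm_prob (E := E) hn
  have hcont : Continuous (fun x : SS E => ⟪b, (x : E)⟫ ^ 2) :=
    (continuous_const.inner continuous_subtype_val).pow 2
  refine Integrable.of_bound hcont.measurable.aestronglyMeasurable (‖b‖ ^ 2)
    (Filter.Eventually.of_forall fun x => ?_)
  rw [Real.norm_eq_abs, abs_pow]
  have h1 : |⟪b, (x : E)⟫| ≤ ‖b‖ := by
    have := abs_real_inner_le_norm b (x : E)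
    rwa [norm_eq_of_mem_sphere x, mul_one] at this
  exact pow_le_pow_left₀ (abs_nonneg _) h1 2

theorem tilt_sq {E : Type*} [NormedAddCommGroup E] [InnerProductSpace ℝ E] [CompleteSpace E]
    [FiniteDimensional ℝ E] [MeasurableSpace E] [BorelSpace E] {n : ℕ}
    (hn : Module.finrank ℝ E = n) (h2 : 2 ≤ n) (b : E) :
    ∫ x, ⟪b, (x : E)⟫ ^ 2 ∂(sm E) = ‖b‖ ^ 2 / n := by
  have hn1 : 1 ≤ Module.finrank ℝ E := by omega
  have := sm_prob (E := E) hn1
  have hn' : (0 : ℝ) < n := by exact_mod_cast (by omega : 0 < n)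
  by_cases hb : b = 0
  · subst hb; simp
  · have hb' : ‖b‖ ≠ 0 := norm_ne_zero_iff.2 hb
    let u : SS E := ⟨‖b‖⁻¹ • b, by
      rw [mem_sphere_zero_iff_norm, norm_smul, norm_inv, norm_norm, inv_mul_cancel₀ hb']⟩
    have hu : ∀ x : SS E, ⟪b, (x : E)⟫ ^ 2 = ‖b‖ ^ 2 * ⟪(u : E), (x : E)⟫ ^ 2 := by
      intro x
      show _ = ‖b‖ ^ 2 * ⟪‖b‖⁻¹ • b, (x : E)⟫ ^ 2
      rw [real_inner_smul_left]
      field_simp
    simp only [hu]
    rw [integral_const_mul]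
    have h3 := sm_stein hn h2 u 0
    have h4 : ∫ x, (1 - ⟪(u : E), (x : E)⟫ ^ 2) * ⟪(u : E), (x : E)⟫ ^ 0 ∂(sm E)
        = 1 - ∫ x, ⟪(u : E), (x : E)⟫ ^ 2 ∂(sm E) := by
      simp only [pow_zero, mul_one]
      rw [integral_sub (integrable_const _) (tilt_intble hn1 (u : E))]
      simp
    rw [h4] at h3
    simp only [zero_add, Nat.cast_zero, one_mul] at h3
    have h5 : (n : ℝ) * ∫ x, ⟪(u : E), (x : E)⟫ ^ 2 ∂(sm E) = 1 := by linarith
    have h6 : ∫ x, ⟪(u : E), (x : E)⟫ ^ 2 ∂(sm E) = 1 / n := by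
      rw [eq_div_iff hn'.ne']; linarith
    rw [h6]; ring

theorem tilt (t : ℕ) (ht : 3 ≤ t) {Hm : ℝ} (hH : 0 ≤ Hm) :
    ∃ C : ℝ, 1 ≤ C ∧ ∃ n0 : ℕ, 6 ≤ n0 ∧ ∀ (E : Type) [NormedAddCommGroup E]
    [InnerProductSpace ℝ E] [CompleteSpace E] [FiniteDimensional ℝ E] [MeasurableSpace E]
    [BorelSpace E], ∀ n : ℕ, Module.finrank ℝ E = n → n0 ≤ n → ∀ (v : SS E) (c : ℝ), 0 ≤ c →
    Real.sqrt n * c ≤ Hm → ∀ b : Pe v, ∃ v' : SS E,
    ∫ w, (∫ τ, om n τ * |ind (Cp v' c) (pt v τ w)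
      - (if -⟪b, (w : Pe v)⟫ ≤ ∫ s in c..τ, om n s then 1 else 0)|) ∂(sm (Pe v))
      ≤ C * (‖b‖ / Real.sqrt n) ^ 2 := by
  obtain ⟨φ0, K, hφ0, hK, n0, hn0, hmain⟩ := tilt_int hH
  have hC0 : 0 ≤ 4 * K / φ0 ^ 2 := by positivity
  refine ⟨1 + 4 * K / φ0 ^ 2, by linarith, n0, by omega, ?_⟩
  intro E _ _ _ _ _ _ n hn hnn v c hc0 hc b
  obtain ⟨hc2, hO, hbd⟩ := hmain n hnn c hc0 hc
  obtain ⟨m, rfl⟩ : ∃ m, n = m + 1 := ⟨n - 1, by omega⟩
  have hm15 : 15 ≤ m := by omega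
  have hm' : (15 : ℝ) ≤ m := by exact_mod_cast hm15
  have hn' : ((m + 1 : ℕ) : ℝ) = m + 1 := by push_cast; ring
  have hnpos : (0 : ℝ) < ((m + 1 : ℕ) : ℝ) := by rw [hn']; linarith
  have hN : 0 < Real.sqrt ((m + 1 : ℕ) : ℝ) := Real.sqrt_pos.2 hnpos
  have hNN : Real.sqrt ((m + 1 : ℕ) : ℝ) ^ 2 = ((m + 1 : ℕ) : ℝ) := Real.sq_sqrt hnpos.le
  set N : ℝ := Real.sqrt ((m + 1 : ℕ) : ℝ) with hNdef
  set O : ℝ := om (m + 1) c with hOdef
  have hO0 : 0 < O := lt_of_lt_of_le (by positivity) hO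
  have hκ2 : Real.sqrt (1 - c ^ 2) ^ 2 = 1 - c ^ 2 := Real.sq_sqrt (by linarith)
  have hκ0 : 0 < Real.sqrt (1 - c ^ 2) := Real.sqrt_pos.2 (by linarith)
  set κ : ℝ := Real.sqrt (1 - c ^ 2) with hκ
  set μ : ℝ := (O * κ)⁻¹ with hμ
  have hμ0 : 0 < μ := by positivity
  set β : E := μ • (b : E) with hβ
  set θ : ℝ := ‖β‖ with hθ
  have hvv : ⟪(v : E), (v : E)⟫ = 1 := by
    rw [real_inner_self_eq_norm_sq, norm_eq_of_mem_sphere v]; norm_num
  have hvβ : ⟪(v : E), β⟫ = 0 := by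
    rw [hβ, real_inner_smul_right, Pe_inner, mul_zero]
  have hnorm2 : ‖(v : E) + β‖ ^ 2 = 1 + θ ^ 2 := by
    rw [norm_add_sq_real, hvβ, norm_eq_of_mem_sphere v]; ring
  have hS0 : 0 < Real.sqrt (1 + θ ^ 2) := Real.sqrt_pos.2 (by positivity)
  have hnorm : ‖(v : E) + β‖ = Real.sqrt (1 + θ ^ 2) := by
    rw [← hnorm2, Real.sqrt_sq (norm_nonneg _)]
  set S : ℝ := Real.sqrt (1 + θ ^ 2) with hS
  let v' : SS E := ⟨S⁻¹ • ((v : E) + β), by
    rw [mem_sphere_zero_iff_norm, norm_smul, norm_inv, hnorm, Real.norm_eq_abs, abs_of_pos hS0,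
      inv_mul_cancel₀ hS0.ne']⟩
  refine ⟨v', ?_⟩
  have hinner : ∀ w : SS (Pe v), ∫ τ, om (m + 1) τ * |ind (Cp v' c) (pt v τ w)
      - (if -⟪b, (w : Pe v)⟫ ≤ ∫ s in c..τ, om (m + 1) s then 1 else 0)|
      ≤ K * ((m + 1) / O ^ 2) * ⟪b, (w : Pe v)⟫ ^ 2 + K * θ ^ 2 := by
    intro w
    have h := hbd (N * ⟪b, (w : Pe v)⟫ / O) θ (norm_nonneg _)
      (fun τ => ind (Cp v' c) (pt v τ w)) (by
        intro τ
        show 0 ≤ (Cp v' c).indicator (fun _ => (1 : ℝ)) (pt v τ w) ∧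
          (Cp v' c).indicator (fun _ => (1 : ℝ)) (pt v τ w) ≤ 1
        by_cases hh : pt v τ w ∈ Cp v' c
        · rw [Set.indicator_of_mem hh]; norm_num
        · rw [Set.indicator_of_notMem hh]; norm_num) (by
        intro τ hτ
        obtain ⟨hτ1, hτ2⟩ := abs_le.1 hτ
        have hmem : pt v τ w ∈ Cp v' c ↔ c * S ≤ τ + Real.sqrt (1 - τ ^ 2) *
            (N * ⟪b, (w : Pe v)⟫ / O / N / κ) := by
          have e1 : ⟪(v' : E), (pt v τ w : E)⟫ = (τ + Real.sqrt (1 - τ ^ 2) *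
              (N * ⟪b, (w : Pe v)⟫ / O / N / κ)) / S := by
            show ⟪S⁻¹ • ((v : E) + β), (pt v τ w : E)⟫ = _
            rw [pt_coe hτ1 hτ2, real_inner_smul_left, inner_add_left, inner_add_right,
              inner_add_right, real_inner_smul_right, real_inner_smul_right,
              real_inner_smul_right, real_inner_smul_right, hvv, Pe_inner,
              real_inner_comm (v : E) β, hvβ]
            have e2 : ⟪β, ((w : Pe v) : E)⟫ = μ * ⟪b, (w : Pe v)⟫ := by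
              rw [hβ, real_inner_smul_left, Submodule.coe_inner]
            rw [e2, hμ]
            field_simp
            ring
          show c ≤ ⟪(v' : E), (pt v τ w : E)⟫ ↔ _
          rw [e1, le_div_iff₀ hS0]
        by_cases hC : c * S ≤ τ + Real.sqrt (1 - τ ^ 2) *
            (N * ⟪b, (w : Pe v)⟫ / O / N / κ)
        · rw [if_pos hC]
          exact Set.indicator_of_mem (hmem.2 hC) _
        · rw [if_neg hC]
          exact Set.indicator_of_notMem (fun h => hC (hmem.1 h)) _)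
    have e : O * (N * ⟪b, (w : Pe v)⟫ / O / N) = ⟪b, (w : Pe v)⟫ := by field_simp
    simp only [e] at h
    refine h.trans (le_of_eq ?_)
    rw [div_pow, mul_pow, hNN, hn']
    ring
  have hfr : Module.finrank ℝ (Pe v) = m := finrank_Pe hn v
  have hsq := tilt_sq hfr (by omega) b
  have hib := tilt_intble (E := Pe v) (by omega) b
  have hprob : IsProbabilityMeasure (sm (Pe v)) := sm_prob (by omega)
  have hnn4 := (om_basic (show 4 ≤ m + 1 by omega)).2.2.1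
  have hup : Integrable (fun w : SS (Pe v) => K * ((m + 1) / O ^ 2) * ⟪b, (w : Pe v)⟫ ^ 2
      + K * θ ^ 2) (sm (Pe v)) := (hib.const_mul _).add (integrable_const _)
  have hfin := integral_mono_of_nonneg
    (f := fun w : SS (Pe v) => ∫ τ, om (m + 1) τ * |ind (Cp v' c) (pt v τ w)
      - (if -⟪b, (w : Pe v)⟫ ≤ ∫ s in c..τ, om (m + 1) s then 1 else 0)|)
    (Filter.Eventually.of_forall fun w =>
      integral_nonneg fun τ => mul_nonneg (hnn4 τ) (abs_nonneg _)) hup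
    (Filter.Eventually.of_forall hinner)
  refine hfin.trans ?_
  rw [integral_add (hib.const_mul _) (integrable_const _), integral_const_mul, hsq,
    integral_const, probReal_univ, one_smul]
  have hbn : ‖(b : E)‖ = ‖b‖ := rfl
  have hθ2 : θ ^ 2 = ‖b‖ ^ 2 / (O ^ 2 * (1 - c ^ 2)) := by
    rw [hθ, hβ, norm_smul, Real.norm_eq_abs, abs_of_pos hμ0, hμ, mul_pow, inv_pow, mul_pow, hκ2,
      hbn]
    ring
  have hB : 0 ≤ ‖b‖ ^ 2 / O ^ 2 := by positivity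
  have h1 : θ ^ 2 ≤ 2 * (‖b‖ ^ 2 / O ^ 2) := by
    rw [hθ2, div_le_iff₀ (by apply mul_pos (by positivity); linarith)]
    have : 2 * (‖b‖ ^ 2 / O ^ 2) * (O ^ 2 * (1 - c ^ 2)) = 2 * (1 - c ^ 2) * ‖b‖ ^ 2 := by
      field_simp
    rw [this]
    nlinarith [sq_nonneg ‖b‖]
  have h2 : K * ((m + 1) / O ^ 2) * (‖b‖ ^ 2 / m) ≤ K * (2 * (‖b‖ ^ 2 / O ^ 2)) := by
    have : K * ((m + 1) / O ^ 2) * (‖b‖ ^ 2 / m) = K * ((m + 1) / m * (‖b‖ ^ 2 / O ^ 2)) := by
      field_simp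
    rw [this]
    refine mul_le_mul_of_nonneg_left (mul_le_mul_of_nonneg_right ?_ hB) hK.le
    rw [div_le_iff₀ (by linarith)]; linarith
  have h3 : ‖b‖ ^ 2 / O ^ 2 ≤ 1 / φ0 ^ 2 * (‖b‖ / N) ^ 2 := by
    have h4 : (N * φ0) ^ 2 ≤ O ^ 2 := pow_le_pow_left₀ (by positivity) hO 2
    have h5 : 1 / φ0 ^ 2 * (‖b‖ / N) ^ 2 = ‖b‖ ^ 2 / (N * φ0) ^ 2 := by
      field_simp
    rw [h5]
    exact div_le_div_of_nonneg_left (sq_nonneg _) (by positivity) h4
  have h6 : K * θ ^ 2 ≤ K * (2 * (‖b‖ ^ 2 / O ^ 2)) := mul_le_mul_of_nonneg_left h1 hK.le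
  have h7 : K * (2 * (‖b‖ ^ 2 / O ^ 2)) ≤ K * (2 * (1 / φ0 ^ 2 * (‖b‖ / N) ^ 2)) :=
    mul_le_mul_of_nonneg_left (mul_le_mul_of_nonneg_left h3 (by norm_num)) hK.le
  have h8 : (1 + 4 * K / φ0 ^ 2) * (‖b‖ / N) ^ 2
      = (‖b‖ / N) ^ 2 + 2 * (K * (2 * (1 / φ0 ^ 2 * (‖b‖ / N) ^ 2))) := by
    ring
  rw [h8]
  have h9 : 0 ≤ (‖b‖ / N) ^ 2 := sq_nonneg _
  linarith


end CoreW

end Pool.Agent.helper440_simplex
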