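import Pool.Agent.helper440_simplex.LocalA3
import Pool.Agent.helper440_simplex.LocalA6
import Pool.Agent.helper440_simplex.LocalA7
import Pool.Agent.helper440_simplex.LocalA8

set_option autoImplicit false
set_option linter.unusedSectionVars false

namespace Pool.Agent.helper440_simplex

open MeasureTheory Metric Set Filter Topology
open scoped RealInnerProductSpace

section CoreW
variable {E : Type*} [NormedAddCommGroup E] [InnerProductSpace ℝ E] [CompleteSpace E]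
  [FiniteDimensional ℝ E] [MeasurableSpace E] [BorelSpace E]

-- loc_step
theorem loc_step_bmi (hn : 1 ≤ Module.finrank ℝ E) {f : SS E → ℝ} (hf : BM f) :
    Integrable f (sm E) := by
  have := sm_prob (E := E) hn
  obtain ⟨hm, C, hC⟩ := hf
  exact Integrable.of_bound hm.aestronglyMeasurable C
    (ae_of_all _ fun x => by rw [Real.norm_eq_abs]; exact hC x)

theorem loc_step_bml {f h : SS E → ℝ} (hf : BM f) (hh : BM h) (a b : ℝ) :
    BM (fun x => a * f x + b * h x) := by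
  obtain ⟨hm, C, hC⟩ := hf
  obtain ⟨hm', C', hC'⟩ := hh
  refine ⟨(hm.const_mul a).add (hm'.const_mul b), |a| * C + |b| * C', fun x => ?_⟩
  refine (abs_add_le _ _).trans ?_
  rw [abs_mul, abs_mul]
  exact add_le_add (mul_le_mul_of_nonneg_left (hC x) (abs_nonneg _))
    (mul_le_mul_of_nonneg_left (hC' x) (abs_nonneg _))

theorem loc_step_bma {f : SS E → ℝ} (hf : BM f) : BM (fun x => |f x|) := by
  obtain ⟨hm, C, hC⟩ := hf
  exact ⟨continuous_abs.measurable.comp hm, C, fun x => by rw [abs_abs]; exact hC x⟩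

theorem loc_step_bmi' {B : Set (SS E)} (hB : MeasurableSet B) : BM (ind B) := by
  refine ⟨measurable_const.indicator hB, 1, fun x => ?_⟩
  unfold ind
  by_cases h : x ∈ B
  · rw [indicator_of_mem h]; simp
  · rw [indicator_of_notMem h]; simp

theorem loc_step_lin_bm (b : E) : BM (fun x : SS E => ⟪b, (x : E)⟫) := by
  refine ⟨(continuous_const.inner continuous_subtype_val).measurable, ‖b‖, fun x => ?_⟩
  refine (abs_real_inner_le_norm _ _).trans ?_
  rw [norm_eq_of_mem_sphere x, mul_one]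

/-- the integral of the positive part -/
theorem loc_step_R (hn : 3 ≤ Module.finrank ℝ E) {t : ℕ} (ht : 3 ≤ t) {M N : SS E → ℝ}
    (hM : BM M) (hN : BM N) (hN0 : ∀ w, 0 ≤ N w)
    (hle : ∀ w, M w + (t - 1) * PP (-1 / (t - 1)) M w ≤ N w) {s : ℝ}
    (hs : -s ≤ ∫ w, M w ∂(sm E)) :
    (∫ w, (M w + (t - 1) * PP (-1 / (t - 1)) M w) ∂(sm E) = t * ∫ w, M w ∂(sm E)) ∧
    (t * ∫ w, M w ∂(sm E) ≤ ∫ w, N w ∂(sm E)) ∧
    ∫ w, |M w + (t - 1) * PP (-1 / (t - 1)) M w| ∂(sm E) ≤ 2 * ∫ w, N w ∂(sm E) + t * s := by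
  have ht' : (3 : ℝ) ≤ t := by exact_mod_cast ht
  have hr1 : -1 ≤ (-1 : ℝ) / (t - 1) := by
    rw [neg_div, neg_le_neg_iff, div_le_one (by linarith)]; linarith
  have hr2 : (-1 : ℝ) / (t - 1) ≤ 1 := by
    refine le_trans ?_ zero_le_one
    exact div_nonpos_of_nonpos_of_nonneg (by norm_num) (by linarith)
  obtain ⟨hP, -⟩ := PP_basic hn (-1 / ((t : ℝ) - 1)) hM hM
  have hsym := (PP_sym hn hr1 hr2 hM hM).2.1
  have hR : BM (fun w => M w + (t - 1) * PP (-1 / (t - 1)) M w) := by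
    have := loc_step_bml hM hP 1 (t - 1)
    simpa only [one_mul] using this
  have h1 : ∫ w, (M w + (t - 1) * PP (-1 / (t - 1)) M w) ∂(sm E) = t * ∫ w, M w ∂(sm E) := by
    rw [integral_add (loc_step_bmi (by omega) hM) ((loc_step_bmi (by omega) hP).const_mul _),
      integral_const_mul, hsym]
    ring
  have h2 := integral_mono (loc_step_bmi (by omega) hR) (loc_step_bmi (by omega) hN) hle
  refine ⟨h1, h1 ▸ h2, ?_⟩
  have h3 : ∫ w, |M w + (t - 1) * PP (-1 / (t - 1)) M w| ∂(sm E)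
      ≤ ∫ w, (2 * N w + (-1) * (M w + (t - 1) * PP (-1 / (t - 1)) M w)) ∂(sm E) := by
    refine integral_mono (loc_step_bmi (by omega) (loc_step_bma hR))
      (loc_step_bmi (by omega) (loc_step_bml hN hR 2 (-1))) fun w => ?_
    simp only
    have h4 := hle w
    have h5 := hN0 w
    rw [abs_le]
    constructor <;> linarith
  refine h3.trans ?_
  rw [integral_add ((loc_step_bmi (by omega) hN).const_mul _)
    ((loc_step_bmi (by omega) hR).const_mul _), integral_const_mul, integral_const_mul, h1]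
  nlinarith

theorem loc_step_B {k : ℕ} (hk : Module.finrank ℝ E = k) (h5 : 5 ≤ k) {t : ℕ} (ht : 3 ≤ t)
    {J : ℕ} (hJ : 1 ≤ J) {M : SS E → ℝ} (hM : BM M) : ∃ b : E, ∃ D : ℝ,
    D ≤ 2 * ((t : ℝ) - 1) ^ J * ∫ x, |M x + (t - 1) * PP (-1 / (t - 1)) M x| ∂(sm E)
        + (((t : ℝ) - 1) * (1 / (t - 1) ^ 2 + 2 / k)) ^ (J - 1) * ((t - 1) *
          Real.sqrt (∫ x, (PP (-1 / (t - 1)) M x) ^ 2 ∂(sm E))) ∧ 0 ≤ D ∧
    ∫ x, |(t - 1) * PP (-1 / (t - 1)) M x + ⟪b, (x : E)⟫| ∂(sm E) ≤ (t - 1) * D ∧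
    ‖b‖ / Real.sqrt k ≤ 2 * (∫ x, |M x| ∂(sm E) + D) := by
  have ht' : (3 : ℝ) ≤ t := by exact_mod_cast ht
  have hr1 : |(-1 : ℝ) / (t - 1)| ≤ 1 := by
    rw [abs_div, abs_neg, abs_one, abs_of_pos (by linarith : (0 : ℝ) < t - 1),
      div_le_one (by linarith)]; linarith
  obtain ⟨b0, -, hb⟩ := iter_lin t ht hk h5 J hJ hM
  have hk3 : 3 ≤ Module.finrank ℝ E := by omega
  have hk1 : 1 ≤ Module.finrank ℝ E := by omega
  set b : E := (k : ℝ) • b0 with hbdef
  have hbi : ∀ x : SS E, ⟪b, (x : E)⟫ = k * ⟪b0, (x : E)⟫ := fun x => by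
    rw [hbdef, real_inner_smul_left]
  have hbm := loc_step_lin_bm b
  have hMb : BM (fun x => M x - ⟪b, (x : E)⟫) := by
    have := loc_step_bml hM hbm 1 (-1)
    refine (congrArg BM ?_).mp this
    funext x; ring
  refine ⟨b, ∫ x, |M x - ⟪b, (x : E)⟫| ∂(sm E), ?_, integral_nonneg fun x => abs_nonneg _, ?_, ?_⟩
  · simp only [hbi]
    exact hb
  · obtain ⟨hP, -, -⟩ := PP_basic hk3 (-1 / ((t : ℝ) - 1)) hM hM
    obtain ⟨hP', -, hlin, -⟩ := PP_basic hk3 (-1 / ((t : ℝ) - 1)) hM hbm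
    have hPM := PP_basic hk3 (-1 / ((t : ℝ) - 1)) hMb hMb
    have hPa := (PP_basic hk3 (-1 / ((t : ℝ) - 1)) hMb (loc_step_bma hMb)).2.2.2.2.2.1
      (fun y => le_abs_self _)
    have hPb := (PP_basic hk3 (-1 / ((t : ℝ) - 1)) (loc_step_bml hMb hMb (-1) 0)
      (loc_step_bma hMb)).2.2.2.2.2.1 (fun y => by
        have := neg_abs_le (M y - ⟪b, (y : E)⟫)
        linarith)
    have hPn : ∀ x, PP (-1 / ((t : ℝ) - 1)) (fun y => -1 * (M y - ⟪b, (y : E)⟫)
        + 0 * (M y - ⟪b, (y : E)⟫)) x = - PP (-1 / ((t : ℝ) - 1)) (fun y => M y - ⟪b, (y : E)⟫) x :=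
      fun x => by rw [hPM.2.2.1 (-1) 0 x]; ring
    have hPabs : BM (PP (-1 / ((t : ℝ) - 1)) (fun x => |M x - ⟪b, (x : E)⟫|)) :=
      (PP_basic hk3 (-1 / ((t : ℝ) - 1)) (loc_step_bma hMb) (loc_step_bma hMb)).1
    have hpt : ∀ x : SS E, |(t - 1) * PP (-1 / (t - 1)) M x + ⟪b, (x : E)⟫|
        ≤ (t - 1) * PP (-1 / (t - 1)) (fun x => |M x - ⟪b, (x : E)⟫|) x := by
      intro x
      have h1 : PP (-1 / ((t : ℝ) - 1)) (fun y => M y - ⟪b, (y : E)⟫) x
          = PP (-1 / ((t : ℝ) - 1)) M x - (-1 / ((t : ℝ) - 1)) * ⟪b, (x : E)⟫ := by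
        have h2 := hlin 1 (-1) x
        rw [PP_linear hk3 hr1 b x] at h2
        rw [show (fun y : SS E => M y - ⟪b, (y : E)⟫) = fun y => 1 * M y + -1 * ⟪b, (y : E)⟫ from
          funext fun y => by ring, h2]
        ring
      have h3 : (t - 1) * PP (-1 / (t - 1)) M x + ⟪b, (x : E)⟫
          = (t - 1) * PP (-1 / (t - 1)) (fun y => M y - ⟪b, (y : E)⟫) x := by
        rw [h1]
        have : (t : ℝ) - 1 ≠ 0 := by linarith
        field_simp
        ring
      rw [h3, abs_mul, abs_of_pos (by linarith : (0 : ℝ) < t - 1)]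
      refine mul_le_mul_of_nonneg_left ?_ (by linarith)
      rw [abs_le]
      refine ⟨?_, hPa x⟩
      have := hPb x
      rw [hPn] at this
      linarith
    have h4 : BM (fun x : SS E => (t - 1) * PP (-1 / (t - 1)) M x + ⟪b, (x : E)⟫) := by
      have := loc_step_bml hP hbm (t - 1) 1
      simpa only [one_mul] using this
    refine (integral_mono (loc_step_bmi hk1 (loc_step_bma h4))
      ((loc_step_bmi hk1 hPabs).const_mul _) hpt).trans ?_
    rw [integral_const_mul]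
    refine mul_le_mul_of_nonneg_left ?_ (by linarith)
    rw [(PP_sym hk3 (abs_le.1 hr1).1 (abs_le.1 hr1).2 (loc_step_bma hMb) (loc_step_bma hMb)).2.1]
  · have h1 := lin_L1 hk h5 b
    have h2 : ∫ x, |⟪b, (x : E)⟫| ∂(sm E)
        ≤ ∫ x, (|M x| + |M x - ⟪b, (x : E)⟫|) ∂(sm E) := by
      refine integral_mono (loc_step_bmi hk1 (loc_step_bma hbm))
        ((loc_step_bmi hk1 (loc_step_bma hM)).add (loc_step_bmi hk1 (loc_step_bma hMb)))
        fun x => ?_
      simp only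
      have := abs_sub (M x) (M x - ⟪b, (x : E)⟫)
      rwa [sub_sub_cancel] at this
    rw [integral_add (loc_step_bmi hk1 (loc_step_bma hM)) (loc_step_bmi hk1 (loc_step_bma hMb))]
      at h2
    have h3 : ‖b‖ / Real.sqrt k = 2 * (‖b‖ / (2 * Real.sqrt k)) := by
      have : Real.sqrt k ≠ 0 := by
        rw [Real.sqrt_ne_zero']
        exact_mod_cast (by omega : 0 < k)
      field_simp
    rw [h3]
    linarith

/-- small set expansion for functions with both signs -/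
theorem loc_step_S (t : ℕ) (ht : 3 ≤ t) : ∃ C : ℝ, 0 < C ∧ ∃ n0 : ℕ, 6 ≤ n0 ∧ ∀ (F : Type)
    [NormedAddCommGroup F]
    [InnerProductSpace ℝ F] [CompleteSpace F] [FiniteDimensional ℝ F] [MeasurableSpace F]
    [BorelSpace F], n0 ≤ Module.finrank ℝ F → ∀ M : SS F → ℝ, BM M → ∀ a : ℝ, 0 < a →
    (∀ w, |M w| ≤ a) →
    Real.sqrt (∫ x, (PP (-1 / ((t : ℝ) - 1)) M x) ^ 2 ∂(sm F))
      ≤ C * (a * ((∫ x, |M x| ∂(sm F)) / a) ^ ((7 : ℝ) / 10)) := by
  have ht' : (3 : ℝ) ≤ t := by exact_mod_cast ht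
  have hrabs : |(-1 : ℝ) / (t - 1)| = 1 / (t - 1) := by
    rw [abs_div, abs_neg, abs_one, abs_of_pos (by linarith : (0 : ℝ) < t - 1)]
  obtain ⟨C, hC, n0, hn0, h⟩ := sse_fun (r1 := 1 / ((t : ℝ) - 1)) (by
    apply one_div_pos.2; linarith)
  refine ⟨Real.sqrt C, Real.sqrt_pos.2 hC, n0, hn0, ?_⟩
  intro F _ _ _ _ _ _ hF M hM a ha hMa
  have hF3 : 3 ≤ Module.finrank ℝ F := by omega
  have hF1 : 1 ≤ Module.finrank ℝ F := by omega
  have h1 := h F hF (-1 / ((t : ℝ) - 1)) hrabs.ge (by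
    rw [hrabs, div_le_div_iff₀ (by linarith) (by norm_num)]; linarith) (fun x => |M x| / a)
    ((loc_step_bma hM).1.div_const a) (fun x => ⟨by positivity, by
      rw [div_le_one ha]; exact hMa x⟩)
  have hg : BM (fun x => |M x| / a) := by
    have := loc_step_bml (loc_step_bma hM) (loc_step_bma hM) a⁻¹ 0
    refine (congrArg BM ?_).mp this
    funext x; ring
  -- compare
  have hPa := (PP_basic hF3 (-1 / ((t : ℝ) - 1)) hM (loc_step_bma hM)).2.2.2.2.2.1
      (fun y => le_abs_self _)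
  have hPb := (PP_basic hF3 (-1 / ((t : ℝ) - 1)) (loc_step_bml hM hM (-1) 0)
      (loc_step_bma hM)).2.2.2.2.2.1 (fun y => by
        have := neg_abs_le (M y)
        linarith)
  have hPn : ∀ x, PP (-1 / ((t : ℝ) - 1)) (fun y => -1 * M y + 0 * M y) x
      = - PP (-1 / ((t : ℝ) - 1)) M x :=
    fun x => by rw [(PP_basic hF3 (-1 / ((t : ℝ) - 1)) hM hM).2.2.1 (-1) 0 x]; ring
  have hPg : ∀ x, PP (-1 / ((t : ℝ) - 1)) (fun x => |M x|) x
      = a * PP (-1 / ((t : ℝ) - 1)) (fun x => |M x| / a) x := by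
    intro x
    have h2 := (PP_basic hF3 (-1 / ((t : ℝ) - 1)) hg hg).2.2.1 a 0 x
    rw [show (fun y : SS F => a * (|M y| / a) + 0 * (|M y| / a)) = fun y => |M y| from
      funext fun y => by field_simp; ring] at h2
    rw [h2]; ring
  have habs : ∀ x, |PP (-1 / ((t : ℝ) - 1)) M x|
      ≤ a * PP (-1 / ((t : ℝ) - 1)) (fun x => |M x| / a) x := by
    intro x
    rw [← hPg, abs_le]
    refine ⟨?_, hPa x⟩
    have := hPb x
    rw [hPn] at this
    linarith
  have hsq : ∫ x, (PP (-1 / ((t : ℝ) - 1)) M x) ^ 2 ∂(sm F)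
      ≤ a ^ 2 * ∫ x, (PP (-1 / ((t : ℝ) - 1)) (fun x => |M x| / a) x) ^ 2 ∂(sm F) := by
    rw [← integral_const_mul]
    have hb1 : BM (PP (-1 / ((t : ℝ) - 1)) M) := (PP_basic hF3 _ hM hM).1
    have hb2 : BM (PP (-1 / ((t : ℝ) - 1)) (fun x => |M x| / a)) := (PP_basic hF3 _ hg hg).1
    have hbsq : ∀ {f : SS F → ℝ}, BM f → BM (fun x => f x ^ 2) := by
      rintro f ⟨hf, K, hK⟩
      refine ⟨hf.pow_const 2, K ^ 2, fun x => ?_⟩
      rw [abs_pow]
      exact pow_le_pow_left₀ (abs_nonneg _) (hK x) 2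
    refine integral_mono (loc_step_bmi hF1 (hbsq hb1))
      ((loc_step_bmi hF1 (hbsq hb2)).const_mul _) fun x => ?_
    simp only
    rw [← mul_pow, ← sq_abs]
    exact pow_le_pow_left₀ (abs_nonneg _) (habs x) 2
  have hint : ∫ x, |M x| / a ∂(sm F) = (∫ x, |M x| ∂(sm F)) / a := integral_div _ _
  have hnn : 0 ≤ (∫ x, |M x| ∂(sm F)) / a :=
    div_nonneg (integral_nonneg fun x => abs_nonneg _) ha.le
  rw [hint] at h1
  refine Real.sqrt_le_iff.2 ⟨by positivity, hsq.trans ?_⟩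
  rw [mul_pow, mul_pow, Real.sq_sqrt hC.le, ← Real.rpow_natCast (_ ^ ((7 : ℝ) / 10)),
    ← Real.rpow_mul hnn]
  have : ((7 : ℝ) / 10) * ((2 : ℕ) : ℝ) = 7 / 5 := by norm_num
  rw [this]
  nlinarith [mul_le_mul_of_nonneg_left h1 (sq_nonneg a)]

theorem loc_step_ptm (v : SS E) : Measurable (fun p : SS (Pe v) × ℝ => pt v p.2 p.1) :=
  ((pt_cont v).comp continuous_swap).measurable

theorem loc_step_par {n : ℕ} (h5 : 5 ≤ n) (v : SS E) {F : SS (Pe v) × ℝ → ℝ} (hF : Measurable F)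
    {C : ℝ} (hC : ∀ w τ, |F (w, τ)| ≤ C) :
    (∀ w, Integrable (fun τ => om n τ * F (w, τ))) ∧
    Measurable (fun w => ∫ τ, om n τ * F (w, τ)) ∧ ∀ w, |∫ τ, om n τ * F (w, τ)| ≤ C := by
  obtain ⟨-, hcont, hnn, -, -, -, hint, hone, -, -⟩ := om_basic (n := n) (by omega)
  have hi : ∀ w, Integrable (fun τ => om n τ * F (w, τ)) := by
    intro w
    refine hint.mul_bdd (c := C) ?_ ?_
    · exact (hF.comp measurable_prodMk_left).aestronglyMeasurable
    · exact ae_of_all _ fun τ => by rw [Real.norm_eq_abs]; exact hC w τ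
  refine ⟨hi, ?_, ?_⟩
  · have h1 : StronglyMeasurable (fun p : SS (Pe v) × ℝ => om n p.2 * F p) :=
      ((hcont.measurable.comp measurable_snd).mul hF).stronglyMeasurable
    exact h1.integral_prod_right'.measurable
  · intro w
    refine (norm_integral_le_integral_norm (fun τ => om n τ * F (w, τ))).trans ?_
    have h2 : ∫ τ, ‖om n τ * F (w, τ)‖ ≤ ∫ τ, om n τ * C := by
      refine integral_mono (hi w).norm (hint.mul_const C) fun τ => ?_
      simp only [norm_mul, Real.norm_eq_abs, abs_of_nonneg (hnn τ)]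
      exact mul_le_mul_of_nonneg_left (hC w τ) (hnn τ)
    rw [integral_mul_const, hone, one_mul] at h2
    exact h2

theorem loc_step_abs_ind (A B : Set (SS E)) (x : SS E) :
    |ind A x - ind B x| = ind (symmDiff A B) x := by
  classical
  unfold ind
  by_cases h1 : x ∈ A <;> by_cases h2 : x ∈ B <;>
    simp [Set.mem_symmDiff, h1, h2]

theorem loc_step_int_ind {B : Set (SS E)} (hB : MeasurableSet B) :
    ∫ x, ind B x ∂(sm E) = (sm E).real B := by
  unfold ind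
  rw [integral_indicator_const _ hB]
  simp

theorem loc_step_symm {n : ℕ} (hn : Module.finrank ℝ E = n) (h4 : 4 ≤ n) (v : SS E)
    {A B : Set (SS E)} (hA : MeasurableSet A) (hB : MeasurableSet B) :
    (sm E).real (symmDiff A B)
      = ∫ w, (∫ τ, om n τ * |ind A (pt v τ w) - ind B (pt v τ w)|) ∂(sm (Pe v)) := by
  have hm : MeasurableSet (symmDiff A B) := hA.symmDiff hB
  rw [← loc_step_int_ind hm, fiber_w hn h4 v (loc_step_bmi' hm)]
  simp only [loc_step_abs_ind]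

theorem loc_step_diff {n : ℕ} (hn : Module.finrank ℝ E = n) (h4 : 4 ≤ n) (v : SS E)
    {A B : Set (SS E)} (hA : MeasurableSet A) (hB : MeasurableSet B) :
    (sm E).real A - (sm E).real B
      = ∫ w, (∫ τ, om n τ * (ind A (pt v τ w) - ind B (pt v τ w))) ∂(sm (Pe v)) := by
  have h1 : BM (fun x => ind A x - ind B x) := by
    have := loc_step_bml (loc_step_bmi' hA) (loc_step_bmi' hB) 1 (-1)
    refine (congrArg BM ?_).mp this
    funext x; ring
  have hn1 : 1 ≤ Module.finrank ℝ E := by omega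
  rw [← fiber_w hn h4 v h1, integral_sub (loc_step_bmi hn1 (loc_step_bmi' hA))
    (loc_step_bmi hn1 (loc_step_bmi' hB)), loc_step_int_ind hA, loc_step_int_ind hB]

theorem loc_step_Cp_meas (v : SS E) (c : ℝ) : MeasurableSet (Cp v c) :=
  measurableSet_le measurable_const (continuous_const.inner continuous_subtype_val).measurable

theorem loc_step_Th {n : ℕ} (h4 : 4 ≤ n) (c : ℝ) : Continuous (fun τ => ∫ s in c..τ, om n s) := by
  obtain ⟨-, hcont, -⟩ := om_basic (n := n) h4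
  exact intervalIntegral.continuous_primitive (fun a b => hcont.intervalIntegrable a b) c

theorem loc_step_ind_le (B : Set (SS E)) (x : SS E) : 0 ≤ ind B x ∧ ind B x ≤ 1 := by
  unfold ind
  by_cases h : x ∈ B
  · rw [indicator_of_mem h]; simp
  · rw [indicator_of_notMem h]; simp

theorem loc_step_MN {n : ℕ} (hn : Module.finrank ℝ E = n) (h6 : 6 ≤ n) (t : ℕ) (v : SS E) (c : ℝ)
    {A : Set (SS E)} (hA : MeasurableSet A) : BM (Mf n v c A) ∧ BM (NX t n v c A) := by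
  have hk : Module.finrank ℝ (Pe v) = n - 1 := finrank_Pe (n := n - 1) (by omega) v
  have hC := loc_step_Cp_meas v c
  have hindm : ∀ {B : Set (SS E)}, MeasurableSet B →
      Measurable (fun p : SS (Pe v) × ℝ => ind B (pt v p.2 p.1)) := fun hB =>
    (loc_step_bmi' hB).1.comp (loc_step_ptm v)
  have h1 := loc_step_par (n := n) (by omega) v
    (F := fun p => ind A (pt v p.2 p.1) - ind (Cp v c) (pt v p.2 p.1))
    ((hindm hA).sub (hindm hC)) (C := 1) (fun w τ => by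
      have h1 := loc_step_ind_le A (pt v τ w)
      have h2 := loc_step_ind_le (Cp v c) (pt v τ w)
      rw [abs_le]; constructor <;> simp only <;> linarith)
  have hM : BM (Mf n v c A) := ⟨h1.2.1, 1, h1.2.2⟩
  refine ⟨hM, ?_⟩
  have hal : Measurable (al t n v c A) := by
    have := (PP_basic (E := Pe v) (by omega) (-1 / ((t : ℝ) - 1)) hM hM).1.1
    exact this.const_mul _
  have hset : MeasurableSet {p : SS (Pe v) × ℝ | ∫ s in c..p.2, om n s < al t n v c A p.1} :=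
    measurableSet_lt ((loc_step_Th (by omega) c).measurable.comp measurable_snd)
      (hal.comp measurable_fst)
  have h2 := loc_step_par (n := n) (by omega) v
    (F := fun p => ind A (pt v p.2 p.1) * (if ∫ s in c..p.2, om n s < al t n v c A p.1 then 1 else 0))
    ((hindm hA).mul (Measurable.ite hset measurable_const measurable_const)) (C := 1)
    (fun w τ => by
      have h1 := loc_step_ind_le A (pt v τ w)
      simp only
      split_ifs
      · rw [mul_one, abs_of_nonneg h1.1]; exact h1.2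
      · simp)
  exact ⟨h2.2.1, 1, h2.2.2⟩

theorem loc_step_main {n : ℕ} (hn : Module.finrank ℝ E = n) (h6 : 6 ≤ n) {t : ℕ} (ht : 3 ≤ t)
    (v : SS E) (c : ℝ) {A A' : Set (SS E)} (hA : MeasurableSet A) (hA' : MeasurableSet A')
    {J : ℕ} (hJ : 1 ≤ J) {tl Nx S IM Ct Lm D : ℝ} (hCt : 0 ≤ Ct)
    (htl : (sm E).real (A \ A') ≤ tl)
    (hcap : (sm E).real (Cp v c) ≤ (sm E).real A)
    (hMN : ∀ w, 0 ≤ NX t n v c A' w ∧ Mf n v c A' w + al t n v c A' w ≤ NX t n v c A' w)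
    (hell : ∀ (ℓ : ℝ) (w : SS (Pe v)),
      ∫ τ, om n τ * |ind A' (pt v τ w) - (if -ℓ ≤ ∫ s in c..τ, om n s then 1 else 0)|
        ≤ 2 * NX t n v c A' w - (Mf n v c A' w + al t n v c A' w) + |al t n v c A' w + ℓ|)
    (hNx : ∫ w, NX t n v c A' w ∂(sm (Pe v)) ≤ Nx)
    (hS : Real.sqrt (∫ x, (PP (-1 / ((t : ℝ) - 1)) (Mf n v c A') x) ^ 2 ∂(sm (Pe v))) ≤ S)
    (hIM : (sm E).real (symmDiff A' (Cp v c)) ≤ IM)
    (hLm : (((t : ℝ) - 1) * (1 / (t - 1) ^ 2 + 2 / ((n - 1 : ℕ) : ℝ))) ^ (J - 1) ≤ Lm)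
    (hD : D = 2 * ((t : ℝ) - 1) ^ J * (2 * Nx + t * tl) + Lm * ((t - 1) * S))
    (htilt : ∀ b : Pe v, ∃ v' : SS E, ∫ w, (∫ τ, om n τ * |ind (Cp v' c) (pt v τ w)
      - (if -⟪b, (w : Pe v)⟫ ≤ ∫ s in c..τ, om n s then 1 else 0)|) ∂(sm (Pe v))
      ≤ Ct * (‖b‖ / Real.sqrt n) ^ 2) :
    ∃ v' : SS E, (sm E).real (symmDiff A (Cp v' c))
      ≤ 3 * Nx + (t + 2) * tl + (t - 1) * D + Ct * (2 * (IM + D)) ^ 2 := by
  have ht' : (3 : ℝ) ≤ t := by exact_mod_cast ht
  have hn1 : 1 ≤ Module.finrank ℝ E := by omega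
  have := sm_prob (E := E) hn1
  have hk : Module.finrank ℝ (Pe v) = n - 1 := finrank_Pe (n := n - 1) (by omega) v
  have hk3 : 3 ≤ Module.finrank ℝ (Pe v) := by omega
  have hk1 : 1 ≤ Module.finrank ℝ (Pe v) := by omega
  have := sm_prob (E := Pe v) hk1
  obtain ⟨hM, hN⟩ := loc_step_MN hn h6 t v c hA'
  have hC := loc_step_Cp_meas v c
  have hal : al t n v c A' = fun w => (t - 1) * PP (-1 / (t - 1)) (Mf n v c A') w := rfl
  -- the integral of `M`
  have hMint : ∫ w, Mf n v c A' w ∂(sm (Pe v)) = (sm E).real A' - (sm E).real (Cp v c) :=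
    (loc_step_diff hn (by omega) v hA' hC).symm
  have htl0 : 0 ≤ tl := le_trans measureReal_nonneg htl
  have hAA' : (sm E).real A ≤ (sm E).real A' + tl := by
    have h1 : A ⊆ A' ∪ (A \ A') := fun x hx => by
      by_cases h : x ∈ A'
      · exact Or.inl h
      · exact Or.inr ⟨hx, h⟩
    have h2 := (measureReal_mono (μ := sm E) h1).trans (measureReal_union_le A' (A \ A'))
    linarith
  have hMtl : -tl ≤ ∫ w, Mf n v c A' w ∂(sm (Pe v)) := by
    rw [hMint]; linarith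
  obtain ⟨hR1, hR2, hR3⟩ := loc_step_R hk3 ht hM hN (fun w => (hMN w).1) (fun w => (hMN w).2) hMtl
  obtain ⟨b, D0, hD0, hD0n, hb1, hb2⟩ := loc_step_B hk (by omega) ht hJ hM
  have hNx0 : 0 ≤ ∫ w, NX t n v c A' w ∂(sm (Pe v)) := integral_nonneg fun w => (hMN w).1
  have hDD : D0 ≤ D := by
    rw [hD]
    refine hD0.trans ?_
    have h1 : (0 : ℝ) ≤ 2 * ((t : ℝ) - 1) ^ J := by
      have : (0 : ℝ) ≤ t - 1 := by linarith
      positivity
    have h2 : (∫ x, |Mf n v c A' x + (t - 1) * PP (-1 / (t - 1)) (Mf n v c A') x| ∂(sm (Pe v)))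
        ≤ 2 * Nx + t * tl := by linarith
    refine add_le_add (mul_le_mul_of_nonneg_left h2 h1) ?_
    have h3 : (0 : ℝ) ≤ (((t : ℝ) - 1) * (1 / (t - 1) ^ 2 + 2 / ((n - 1 : ℕ) : ℝ))) ^ (J - 1) := by
      have : (0 : ℝ) ≤ t - 1 := by linarith
      positivity
    refine mul_le_mul hLm (mul_le_mul_of_nonneg_left hS (by linarith)) ?_ (h3.trans hLm)
    exact mul_nonneg (by linarith) (Real.sqrt_nonneg _)
  obtain ⟨v', hv'⟩ := htilt b
  refine ⟨v', ?_⟩
  have hC' := loc_step_Cp_meas v' c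
  -- triangle inequality
  have htri : (sm E).real (symmDiff A (Cp v' c))
      ≤ (sm E).real (symmDiff A A') + (sm E).real (symmDiff A' (Cp v' c)) := by
    have h1 : symmDiff A (Cp v' c) ⊆ symmDiff A A' ∪ symmDiff A' (Cp v' c) :=
      symmDiff_triangle A A' (Cp v' c)
    exact (measureReal_mono (μ := sm E) h1).trans (measureReal_union_le _ _)
  -- first part
  have hp1 : (sm E).real (symmDiff A A') ≤ ∫ w, Mf n v c A' w ∂(sm (Pe v)) + 2 * tl := by
    have h1 : symmDiff A A' ⊆ (A \ A') ∪ (A' \ A) := by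
      rw [Set.symmDiff_def]
    have h2 := (measureReal_mono (μ := sm E) h1).trans (measureReal_union_le _ _)
    have h3 : (sm E).real (A' ∩ A) + (sm E).real (A' \ A) = (sm E).real A' :=
      measureReal_inter_add_diff hA
    have h4 : (sm E).real (A ∩ A') + (sm E).real (A \ A') = (sm E).real A :=
      measureReal_inter_add_diff hA'
    rw [inter_comm] at h4
    rw [hMint]
    linarith
  -- `∫ |M|`
  have hMabs : ∫ w, |Mf n v c A' w| ∂(sm (Pe v)) ≤ IM := by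
    refine le_trans ?_ hIM
    rw [loc_step_symm hn (by omega) v hA' hC]
    have hmm : Measurable (fun p : SS (Pe v) × ℝ =>
        |ind A' (pt v p.2 p.1) - ind (Cp v c) (pt v p.2 p.1)|) :=
      continuous_abs.measurable.comp (((loc_step_bmi' hA').1.comp (loc_step_ptm v)).sub
        ((loc_step_bmi' hC).1.comp (loc_step_ptm v)))
    have h1 := loc_step_par (n := n) (by omega) v hmm (C := 1) (fun w τ => by
      have h1 := loc_step_ind_le A' (pt v τ w)
      have h2 := loc_step_ind_le (Cp v c) (pt v τ w)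
      rw [abs_abs, abs_le]; constructor <;> simp only <;> linarith)
    refine integral_mono (loc_step_bmi hk1 (loc_step_bma hM))
      (loc_step_bmi hk1 ⟨h1.2.1, 1, h1.2.2⟩) fun w => ?_
    simp only
    have h2 : Mf n v c A' w = ∫ τ, om n τ * (ind A' (pt v τ w) - ind (Cp v c) (pt v τ w)) := rfl
    rw [h2]
    refine (norm_integral_le_integral_norm (fun τ => om n τ *
      (ind A' (pt v τ w) - ind (Cp v c) (pt v τ w)))).trans (le_of_eq ?_)
    refine integral_congr_ae (ae_of_all _ fun τ => ?_)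
    simp only [norm_mul, Real.norm_eq_abs]
    rw [abs_of_nonneg ((om_basic (n := n) (by omega)).2.2.1 τ)]
  -- second part
  have hsetb : MeasurableSet {p : SS (Pe v) × ℝ | -⟪b, (p.1 : Pe v)⟫ ≤ ∫ s in c..p.2, om n s} :=
    measurableSet_le (((loc_step_lin_bm b).1.comp measurable_fst).neg)
      ((loc_step_Th (by omega) c).measurable.comp measurable_snd)
  have hitem : Measurable (fun p : SS (Pe v) × ℝ =>
      (if -⟪b, (p.1 : Pe v)⟫ ≤ ∫ s in c..p.2, om n s then (1 : ℝ) else 0)) :=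
    Measurable.ite hsetb measurable_const measurable_const
  have hpar : ∀ {B : Set (SS E)}, MeasurableSet B → _ := fun {B} hB =>
    loc_step_par (n := n) (by omega) v
      (F := fun p => |ind B (pt v p.2 p.1)
        - (if -⟪b, (p.1 : Pe v)⟫ ≤ ∫ s in c..p.2, om n s then (1 : ℝ) else 0)|)
      (continuous_abs.measurable.comp (((loc_step_bmi' hB).1.comp (loc_step_ptm v)).sub hitem))
      (C := 1) (fun w τ => by
        have h1 := loc_step_ind_le B (pt v τ w)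
        simp only
        rw [abs_abs, abs_le]
        split_ifs <;> constructor <;> linarith)
  have hX1 := hpar hA'
  have hX2 := hpar hC'
  have hp2 : (sm E).real (symmDiff A' (Cp v' c))
      ≤ (2 * Nx + t * tl + (t - 1) * D) + Ct * (‖b‖ / Real.sqrt n) ^ 2 := by
    rw [loc_step_symm hn (by omega) v hA' hC']
    have hmm : Measurable (fun p : SS (Pe v) × ℝ =>
        |ind A' (pt v p.2 p.1) - ind (Cp v' c) (pt v p.2 p.1)|) :=
      continuous_abs.measurable.comp (((loc_step_bmi' hA').1.comp (loc_step_ptm v)).sub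
        ((loc_step_bmi' hC').1.comp (loc_step_ptm v)))
    have h0 := loc_step_par (n := n) (by omega) v hmm (C := 1) (fun w τ => by
      have h1 := loc_step_ind_le A' (pt v τ w)
      have h2 := loc_step_ind_le (Cp v' c) (pt v τ w)
      rw [abs_abs, abs_le]; constructor <;> simp only <;> linarith)
    have h1 : ∫ w, (∫ τ, om n τ * |ind A' (pt v τ w) - ind (Cp v' c) (pt v τ w)|) ∂(sm (Pe v))
        ≤ ∫ w, ((∫ τ, om n τ * |ind A' (pt v τ w)
            - (if -⟪b, (w : Pe v)⟫ ≤ ∫ s in c..τ, om n s then (1 : ℝ) else 0)|)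
          + ∫ τ, om n τ * |ind (Cp v' c) (pt v τ w)
            - (if -⟪b, (w : Pe v)⟫ ≤ ∫ s in c..τ, om n s then (1 : ℝ) else 0)|) ∂(sm (Pe v)) := by
      refine integral_mono (loc_step_bmi hk1 ⟨h0.2.1, 1, h0.2.2⟩)
        ((loc_step_bmi hk1 ⟨hX1.2.1, 1, hX1.2.2⟩).add (loc_step_bmi hk1 ⟨hX2.2.1, 1, hX2.2.2⟩))
        fun w => ?_
      simp only
      rw [← integral_add (hX1.1 w) (hX2.1 w)]
      refine integral_mono (h0.1 w) ((hX1.1 w).add (hX2.1 w)) fun τ => ?_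
      simp only [Pi.add_apply]
      rw [← mul_add]
      refine mul_le_mul_of_nonneg_left ?_ ((om_basic (n := n) (by omega)).2.2.1 τ)
      have h2 := abs_sub_le (ind A' (pt v τ w))
        (if -⟪b, (w : Pe v)⟫ ≤ ∫ s in c..τ, om n s then (1 : ℝ) else 0) (ind (Cp v' c) (pt v τ w))
      rwa [abs_sub_comm (if -⟪b, (w : Pe v)⟫ ≤ ∫ s in c..τ, om n s then (1 : ℝ) else 0)] at h2
    rw [integral_add (loc_step_bmi hk1 ⟨hX1.2.1, 1, hX1.2.2⟩)
      (loc_step_bmi hk1 ⟨hX2.2.1, 1, hX2.2.2⟩)] at h1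
    refine h1.trans (add_le_add ?_ hv')
    have halbm : BM (al t n v c A') := by
      have := (PP_basic hk3 (-1 / ((t : ℝ) - 1)) hM hM).1
      have h3 := loc_step_bml this this (t - 1) 0
      refine (congrArg BM ?_).mp h3
      funext x; rw [hal]; ring
    have hab : BM (fun w : SS (Pe v) => al t n v c A' w + ⟪b, (w : Pe v)⟫) := by
      have := loc_step_bml halbm (loc_step_lin_bm b) 1 1
      simpa only [one_mul] using this
    have hRb : BM (fun w => Mf n v c A' w + al t n v c A' w) := by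
      have := loc_step_bml hM halbm 1 1
      simpa only [one_mul] using this
    have hi1 : Integrable (fun w => 2 * NX t n v c A' w - (Mf n v c A' w + al t n v c A' w))
        (sm (Pe v)) := ((loc_step_bmi hk1 hN).const_mul 2).sub (loc_step_bmi hk1 hRb)
    have h2 : ∫ w, (∫ τ, om n τ * |ind A' (pt v τ w)
            - (if -⟪b, (w : Pe v)⟫ ≤ ∫ s in c..τ, om n s then (1 : ℝ) else 0)|) ∂(sm (Pe v))
        ≤ ∫ w, ((2 * NX t n v c A' w - (Mf n v c A' w + al t n v c A' w))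
          + |al t n v c A' w + ⟪b, (w : Pe v)⟫|) ∂(sm (Pe v)) :=
      integral_mono (loc_step_bmi hk1 ⟨hX1.2.1, 1, hX1.2.2⟩)
        (hi1.add (loc_step_bmi hk1 (loc_step_bma hab))) fun w => hell _ w
    rw [integral_add hi1 (loc_step_bmi hk1 (loc_step_bma hab)),
      integral_sub ((loc_step_bmi hk1 hN).const_mul 2)
      (loc_step_bmi hk1 hRb), integral_const_mul] at h2
    have h3 : ∫ w, (Mf n v c A' w + al t n v c A' w) ∂(sm (Pe v))
      = t * ∫ w, Mf n v c A' w ∂(sm (Pe v)) := hR1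
    have h4 : ∫ w, |al t n v c A' w + ⟪b, (w : Pe v)⟫| ∂(sm (Pe v)) ≤ (t - 1) * D0 := hb1
    have h5 : (t - 1 : ℝ) * D0 ≤ (t - 1) * D := mul_le_mul_of_nonneg_left hDD (by linarith)
    have h6' : -(t * tl) ≤ t * ∫ w, Mf n v c A' w ∂(sm (Pe v)) := by
      rw [← mul_neg]
      exact mul_le_mul_of_nonneg_left hMtl (by linarith)
    linarith
  -- the tilt
  have hk5 : 0 < n - 1 := by omega
  have htn : Ct * (‖b‖ / Real.sqrt n) ^ 2 ≤ Ct * (2 * (IM + D)) ^ 2 := by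
    refine mul_le_mul_of_nonneg_left (pow_le_pow_left₀ (by positivity) ?_ 2) hCt
    have h1 : ‖b‖ / Real.sqrt n ≤ ‖b‖ / Real.sqrt ((n - 1 : ℕ) : ℝ) := by
      refine div_le_div_of_nonneg_left (norm_nonneg _) (Real.sqrt_pos.2 (by exact_mod_cast hk5)) ?_
      exact Real.sqrt_le_sqrt (by exact_mod_cast Nat.sub_le n 1)
    linarith
  have hMN2 : ∫ w, Mf n v c A' w ∂(sm (Pe v)) ≤ Nx := by
    have h1 : ∫ w, Mf n v c A' w ∂(sm (Pe v)) ≤ ∫ w, NX t n v c A' w ∂(sm (Pe v)) := by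
      by_contra hcon
      push Not at hcon
      nlinarith
    linarith
  linarith

theorem loc_step_Mabs {n : ℕ} (hn : Module.finrank ℝ E = n) (h6 : 6 ≤ n) (v : SS E) (c : ℝ)
    {A' : Set (SS E)} (hA' : MeasurableSet A') (t : ℕ) :
    ∫ w, |Mf n v c A' w| ∂(sm (Pe v)) ≤ (sm E).real (symmDiff A' (Cp v c)) := by
  have hk : Module.finrank ℝ (Pe v) = n - 1 := finrank_Pe (n := n - 1) (by omega) v
  have hk1 : 1 ≤ Module.finrank ℝ (Pe v) := by omega
  obtain ⟨hM, -⟩ := loc_step_MN hn h6 t v c hA'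
  have hC := loc_step_Cp_meas v c
  rw [loc_step_symm hn (by omega) v hA' hC]
  have hmm : Measurable (fun p : SS (Pe v) × ℝ =>
      |ind A' (pt v p.2 p.1) - ind (Cp v c) (pt v p.2 p.1)|) :=
    continuous_abs.measurable.comp (((loc_step_bmi' hA').1.comp (loc_step_ptm v)).sub
      ((loc_step_bmi' hC).1.comp (loc_step_ptm v)))
  have h1 := loc_step_par (n := n) (by omega) v hmm (C := 1) (fun w τ => by
    have h1 := loc_step_ind_le A' (pt v τ w)
    have h2 := loc_step_ind_le (Cp v c) (pt v τ w)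
    rw [abs_abs, abs_le]; constructor <;> simp only <;> linarith)
  refine integral_mono (loc_step_bmi hk1 (loc_step_bma hM))
    (loc_step_bmi hk1 ⟨h1.2.1, 1, h1.2.2⟩) fun w => ?_
  simp only
  have h2 : Mf n v c A' w = ∫ τ, om n τ * (ind A' (pt v τ w) - ind (Cp v c) (pt v τ w)) := rfl
  rw [h2]
  refine (norm_integral_le_integral_norm (fun τ => om n τ *
    (ind A' (pt v τ w) - ind (Cp v c) (pt v τ w)))).trans (le_of_eq ?_)
  refine integral_congr_ae (ae_of_all _ fun τ => ?_)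
  simp only [norm_mul, Real.norm_eq_abs]
  rw [abs_of_nonneg ((om_basic (n := n) (by omega)).2.2.1 τ)]

/-- the measure of a thin slab -/
theorem loc_step_slab {n : ℕ} (hn : Module.finrank ℝ E = n) (h4 : 4 ≤ n) (v : SS E) (c : ℝ)
    {d : ℝ} (hd : 0 ≤ d) :
    (sm E).real {x : SS E | c - d / Real.sqrt n ≤ ⟪(v : E), (x : E)⟫ ∧ ⟪(v : E), (x : E)⟫ < c}
      ≤ d := by
  have hn1 : 1 ≤ Module.finrank ℝ E := by omega
  have := sm_prob (E := E) hn1
  have hsq : 0 < Real.sqrt n := Real.sqrt_pos.2 (by exact_mod_cast (by omega : 0 < n))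
  have hδ : 0 ≤ d / Real.sqrt n := by positivity
  obtain ⟨hcn, hcont, hnn, -, -, -, hint, -, -, hle⟩ := om_basic h4
  have h1 : {x : SS E | c - d / Real.sqrt n ≤ ⟪(v : E), (x : E)⟫ ∧ ⟪(v : E), (x : E)⟫ < c}
      = {x : SS E | c - d / Real.sqrt n ≤ ⟪(v : E), (x : E)⟫} \ {x | c ≤ ⟪(v : E), (x : E)⟫} := by
    ext x
    simp [not_le]
  have hms : MeasurableSet {x : SS E | c ≤ ⟪(v : E), (x : E)⟫} := loc_step_Cp_meas v c
  rw [h1, measureReal_diff (fun x hx => by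
    simp only [mem_setOf_eq] at hx ⊢; linarith) hms, cap_meas hn h4,
    cap_meas hn h4]
  unfold mm
  have h2 : Ici (c - d / Real.sqrt n) = Ico (c - d / Real.sqrt n) c ∪ Ici c :=
    (Ico_union_Ici_eq_Ici (by linarith)).symm
  rw [h2, setIntegral_union (by
    rw [Set.disjoint_left]; intro x hx hx'; exact absurd hx.2 (not_lt.2 hx')) measurableSet_Ici
    hint.integrableOn hint.integrableOn, add_sub_cancel_right]
  have h3 : ‖∫ s in Ico (c - d / Real.sqrt n) c, om n s‖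
      ≤ cn n * volume.real (Ico (c - d / Real.sqrt n) c) :=
    norm_setIntegral_le_of_norm_le_const (by rw [Real.volume_Ico]; exact ENNReal.ofReal_lt_top)
      fun s _ => by rw [Real.norm_eq_abs, abs_of_nonneg (hnn s)]; exact hle s
  rw [Real.volume_real_Ico_of_le (by linarith)] at h3
  refine (le_abs_self _).trans (h3.trans ?_)
  have h4' := (cn_bounds h4).2
  calc cn n * (c - (c - d / Real.sqrt n)) = cn n * (d / Real.sqrt n) := by ring
    _ ≤ Real.sqrt n * (d / Real.sqrt n) := mul_le_mul_of_nonneg_right h4' hδ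
    _ = d := by field_simp

theorem loc_step_JK {T C1 C5 e : ℝ} (hT : 2 ≤ T) (hC1 : 0 < C1) (hC5 : 0 < C5) (he : 0 < e) :
    ∃ J : ℕ, 1 ≤ J ∧ ∃ K : ℝ, 1 ≤ K ∧ C1 * K ^ (-(2 : ℝ) / 5) * T ^ J ≤ e ∧
      2 * T ^ 2 * (C5 * K ^ ((3 : ℝ) / 10)) / T ^ J ≤ e := by
  have h1 : Tendsto (fun J : ℕ => (T ^ J) ^ (-((1 : ℝ) / 7))) atTop (𝓝 0) :=
    (tendsto_rpow_neg_atTop (by norm_num)).comp (tendsto_pow_atTop_atTop_of_one_lt (by linarith))
  have hε : 0 < min (e / C1) (e / (2 * T ^ 2 * C5)) := by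
    have : 0 < T := by linarith
    positivity
  obtain ⟨J, hJ1, hJ2⟩ := ((h1.eventually_lt_const hε).and (eventually_ge_atTop 1)).exists
  have hx : 1 ≤ T ^ J := one_le_pow₀ (by linarith)
  have hx0 : 0 < T ^ J := by linarith
  refine ⟨J, hJ2, (T ^ J) ^ ((20 : ℝ) / 7), Real.one_le_rpow hx (by norm_num), ?_, ?_⟩
  · rw [← Real.rpow_mul hx0.le]
    have h2 : (T ^ J) ^ ((20 : ℝ) / 7 * (-(2 : ℝ) / 5)) * T ^ J = (T ^ J) ^ (-((1 : ℝ) / 7)) := by
      nth_rewrite 2 [← Real.rpow_one (T ^ J)]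
      rw [← Real.rpow_add hx0]
      norm_num
    rw [mul_assoc, h2]
    have h3 := (hJ1.trans_le (min_le_left _ _)).le
    calc C1 * (T ^ J) ^ (-((1 : ℝ) / 7)) ≤ C1 * (e / C1) := mul_le_mul_of_nonneg_left h3 hC1.le
      _ = e := by field_simp
  · rw [← Real.rpow_mul hx0.le]
    have h2 : (T ^ J) ^ ((20 : ℝ) / 7 * ((3 : ℝ) / 10)) / T ^ J = (T ^ J) ^ (-((1 : ℝ) / 7)) := by
      nth_rewrite 2 [← Real.rpow_one (T ^ J)]
      rw [← Real.rpow_sub hx0]
      norm_num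
    have h3 := (hJ1.trans_le (min_le_right _ _)).le
    have hT0 : 0 < T := by linarith
    calc 2 * T ^ 2 * (C5 * (T ^ J) ^ ((20 : ℝ) / 7 * ((3 : ℝ) / 10))) / T ^ J
        = 2 * T ^ 2 * C5 * ((T ^ J) ^ ((20 : ℝ) / 7 * ((3 : ℝ) / 10)) / T ^ J) := by ring
      _ = 2 * T ^ 2 * C5 * (T ^ J) ^ (-((1 : ℝ) / 7)) := by rw [h2]
      _ ≤ 2 * T ^ 2 * C5 * (e / (2 * T ^ 2 * C5)) := mul_le_mul_of_nonneg_left h3 (by positivity)
      _ = e := by field_simp

theorem loc_step_Lam {T : ℝ} (hT : 2 ≤ T) (j : ℕ) : ∃ n0 : ℕ, ∀ n : ℕ, n0 ≤ n →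
    (T * (1 / T ^ 2 + 2 / ((n - 1 : ℕ) : ℝ))) ^ j ≤ 2 / T ^ j := by
  have hT0 : 0 < T := by linarith
  have h1 : Tendsto (fun n : ℕ => (T * (1 / T ^ 2 + 2 / ((n - 1 : ℕ) : ℝ))) ^ j) atTop
      (𝓝 ((T * (1 / T ^ 2 + 0)) ^ j)) := by
    refine (((tendsto_const_nhds (x := 1 / T ^ 2)).add ?_).const_mul T).pow j
    exact (tendsto_const_div_atTop_nhds_zero_nat 2).comp (tendsto_sub_atTop_nat 1)
  have h2 : (T * (1 / T ^ 2 + 0)) ^ j < 2 / T ^ j := by
    have : T * (1 / T ^ 2 + 0) = 1 / T := by field_simp; ring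
    rw [this, div_pow, one_pow]
    exact div_lt_div_of_pos_right (by norm_num) (by positivity)
  obtain ⟨n0, hn0⟩ := eventually_atTop.1 (h1.eventually_lt_const h2)
  exact ⟨n0, fun n hn => (hn0 n hn).le⟩

theorem loc_step_S2 {t CM K m I : ℝ} (ht : 1 ≤ t) (hCM : 1 ≤ CM) (hK : 1 ≤ K) (hm : 0 < m)
    (hI0 : 0 ≤ I) (hI : I ≤ CM * m) :
    ((t + 1) * (K * m)) * (I / ((t + 1) * (K * m))) ^ ((7 : ℝ) / 10)
      ≤ (t + 1) * CM * K ^ ((3 : ℝ) / 10) * m := by
  have ht0 : 0 < t + 1 := by linarith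
  have hK0 : 0 < K := by linarith
  have h1 : (I / ((t + 1) * (K * m))) ^ ((7 : ℝ) / 10) ≤ (CM / ((t + 1) * K)) ^ ((7 : ℝ) / 10) := by
    refine Real.rpow_le_rpow (by positivity) ?_ (by norm_num)
    rw [div_le_div_iff₀ (by positivity) (by positivity)]
    calc I * ((t + 1) * K) ≤ CM * m * ((t + 1) * K) := mul_le_mul_of_nonneg_right hI (by positivity)
      _ = CM * ((t + 1) * (K * m)) := by ring
  have h2 : (CM / ((t + 1) * K)) ^ ((7 : ℝ) / 10)
      = CM ^ ((7 : ℝ) / 10) / (((t + 1) ^ ((7 : ℝ) / 10)) * (K ^ ((7 : ℝ) / 10))) := by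
    rw [Real.div_rpow (by linarith) (by positivity), Real.mul_rpow ht0.le hK0.le]
  have h3 : CM ^ ((7 : ℝ) / 10) ≤ CM := by
    nth_rewrite 2 [← Real.rpow_one CM]
    exact Real.rpow_le_rpow_of_exponent_le hCM (by norm_num)
  have h4 : 1 ≤ (t + 1) ^ ((7 : ℝ) / 10) := Real.one_le_rpow (by linarith) (by norm_num)
  have h5 : K / K ^ ((7 : ℝ) / 10) = K ^ ((3 : ℝ) / 10) := by
    nth_rewrite 1 [← Real.rpow_one K]
    rw [← Real.rpow_sub hK0]
    norm_num
  have hK7 : 0 < K ^ ((7 : ℝ) / 10) := Real.rpow_pos_of_pos hK0 _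
  have ht7 : 0 < (t + 1) ^ ((7 : ℝ) / 10) := Real.rpow_pos_of_pos ht0 _
  calc ((t + 1) * (K * m)) * (I / ((t + 1) * (K * m))) ^ ((7 : ℝ) / 10)
      ≤ ((t + 1) * (K * m)) * (CM ^ ((7 : ℝ) / 10) / (((t + 1) ^ ((7 : ℝ) / 10)) *
          (K ^ ((7 : ℝ) / 10)))) := by
        rw [← h2]; exact mul_le_mul_of_nonneg_left h1 (by positivity)
    _ = (t + 1) * m * (CM ^ ((7 : ℝ) / 10) / (t + 1) ^ ((7 : ℝ) / 10)) *
          (K / K ^ ((7 : ℝ) / 10)) := by field_simp
    _ = (t + 1) * m * (CM ^ ((7 : ℝ) / 10) / (t + 1) ^ ((7 : ℝ) / 10)) * K ^ ((3 : ℝ) / 10) := by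
        rw [h5]
    _ ≤ (t + 1) * m * CM * K ^ ((3 : ℝ) / 10) := by
        refine mul_le_mul_of_nonneg_right (mul_le_mul_of_nonneg_left ?_ (by positivity))
          (Real.rpow_nonneg hK0.le _)
        refine (div_le_self (Real.rpow_nonneg (by linarith) _) h4).trans h3
    _ = (t + 1) * CM * K ^ ((3 : ℝ) / 10) * m := by ring

/-- the final numerical inequality -/
theorem loc_step_fin {t CM Ct e tl Nx S m P D Lm IM : ℝ} (ht : 3 ≤ t) (hCM : 1 ≤ CM) (hCt : 1 ≤ Ct)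
    (he : e = 1 / (4 * (3 * t ^ 2 + t + 2))) (hP : 1 ≤ P) (hm : 0 < m)
    (htl0 : 0 ≤ tl) (htl : tl * P ≤ e * m) (hNx0 : 0 ≤ Nx) (hNx : Nx * P ≤ e * m)
    (hS : Lm * ((t - 1) * S) ≤ e * m) (hIM0 : 0 ≤ IM) (hIM : IM ≤ CM * m)
    (hD0 : 0 ≤ D)
    (hD : D = 2 * P * (2 * Nx + t * tl) + Lm * ((t - 1) * S))
    (hmκ : m ≤ 1 / (16 * Ct * (CM + 1) ^ 2)) :
    3 * Nx + (t + 2) * tl + (t - 1) * D + Ct * (2 * (IM + D)) ^ 2 ≤ m / 2 := by
  have h1 : tl ≤ e * m := by nlinarith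
  have h2 : Nx ≤ e * m := by nlinarith
  have hem : 0 ≤ e * m := by nlinarith
  have hDle : D ≤ (2 * t + 5) * (e * m) := by
    rw [hD]
    nlinarith
  have he' : e * (4 * (3 * t ^ 2 + t + 2)) = 1 := by
    rw [he]; field_simp
  have he0 : 0 < e := by rw [he]; positivity
  have h3 : 3 * Nx + (t + 2) * tl + (t - 1) * D ≤ m / 4 := by
    have h4 : (t - 1) * D ≤ (t - 1) * ((2 * t + 5) * (e * m)) :=
      mul_le_mul_of_nonneg_left hDle (by linarith)
    have h5 : (t + 2) * tl ≤ (t + 2) * (e * m) := mul_le_mul_of_nonneg_left h1 (by linarith)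
    have h6 : 3 * Nx + (t + 2) * tl + (t - 1) * D
        ≤ (e * m) * (3 + (t + 2) + (t - 1) * (2 * t + 5)) := by nlinarith
    have h7 : (e * m) * (3 + (t + 2) + (t - 1) * (2 * t + 5)) ≤ (e * m) * (3 * t ^ 2 + t + 2) := by
      refine mul_le_mul_of_nonneg_left ?_ hem
      nlinarith
    have h8 : (e * m) * (3 * t ^ 2 + t + 2) = m / 4 := by
      have : e * m * (3 * t ^ 2 + t + 2) = (e * (4 * (3 * t ^ 2 + t + 2))) * m / 4 := by ring
      rw [this, he']; ring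
    linarith
  have hDm : D ≤ m := by
    have : (2 * t + 5) * (e * m) ≤ m := by
      have h9 : (2 * t + 5) * e ≤ 1 := by nlinarith
      nlinarith
    linarith
  have h10 : Ct * (2 * (IM + D)) ^ 2 ≤ m / 4 := by
    have h11 : 2 * (IM + D) ≤ 2 * ((CM + 1) * m) := by nlinarith
    have h12 : (2 * (IM + D)) ^ 2 ≤ (2 * ((CM + 1) * m)) ^ 2 :=
      pow_le_pow_left₀ (by positivity) h11 2
    rw [le_div_iff₀ (by positivity)] at hmκ
    have h13 : Ct * (2 * (IM + D)) ^ 2 ≤ Ct * (2 * ((CM + 1) * m)) ^ 2 :=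
      mul_le_mul_of_nonneg_left h12 (by linarith)
    nlinarith
  linarith

theorem loc_step (t : ℕ) (ht : 3 ≤ t) {Hm : ℝ} (hH : 0 ≤ Hm) :
    ∃ κ : ℝ, 0 < κ ∧ ∃ n0 : ℕ, 6 ≤ n0 ∧ ∀ (E : Type) [NormedAddCommGroup E]
    [InnerProductSpace ℝ E] [CompleteSpace E] [FiniteDimensional ℝ E] [MeasurableSpace E]
    [BorelSpace E], ∀ n : ℕ, Module.finrank ℝ E = n → n0 ≤ n → ∀ (v : SS E) (c : ℝ), 0 ≤ c →
    Real.sqrt n * c ≤ Hm → ∀ A : Set (SS E), MeasurableSet A →
    Star (rhoc t c) (Gc n (rhoc t c) c c) A →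
    (∀ a b : ℝ, 0 ≤ a → (t - 1) * a < b →
      Star (rhoc t c) (Gc n (rhoc t c) c c) (clp v c a b A)) →
    (sm E).real (symmDiff A (Cp v c)) ≤ κ → (sm E).real (Cp v c) < (sm E).real A →
    ∃ v' : SS E, (sm E).real (symmDiff A (Cp v' c)) < (sm E).real (symmDiff A (Cp v c)) := by
  have ht' : (3 : ℝ) ≤ t := by exact_mod_cast ht
  obtain ⟨C1, hC1, n1, -, hts⟩ := tail_sum t ht hH
  obtain ⟨a0, ha0, n2, -, hNB⟩ := NX_below t ht hH
  obtain ⟨C2, hC2, a1, ha1, n3, -, hNS⟩ := NX_small t ht hH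
  obtain ⟨C3, hC3, n4, -, hSS⟩ := loc_step_S t ht
  obtain ⟨C4, hC4, n5, -, hti⟩ := tilt t ht hH
  obtain ⟨CM, hCM⟩ : ∃ CM : ℝ, CM = C1 + 2 := ⟨_, rfl⟩
  have hCM1 : 1 ≤ CM := by linarith
  obtain ⟨C5, hC5⟩ : ∃ C5 : ℝ, C5 = C3 * ((t + 1) * CM) := ⟨_, rfl⟩
  have hC5p : 0 < C5 := by rw [hC5]; positivity
  obtain ⟨e, he⟩ : ∃ e : ℝ, e = 1 / (4 * (3 * (t : ℝ) ^ 2 + t + 2)) := ⟨_, rfl⟩
  have he0 : 0 < e := by rw [he]; positivity
  obtain ⟨J, hJ, K, hK, hJ1, hJ2⟩ := loc_step_JK (T := (t : ℝ) - 1) (C1 := C1) (C5 := C5) (e := e)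
    (by linarith) (by linarith) hC5p he0
  obtain ⟨n6, hn6⟩ := loc_step_Lam (T := (t : ℝ) - 1) (by linarith) (J - 1)
  have hT0 : (0 : ℝ) < t - 1 := by linarith
  have hK0 : 0 < K := by linarith
  have hP1 : 1 ≤ ((t : ℝ) - 1) ^ J := one_le_pow₀ (by linarith)
  have hP0 : 0 < ((t : ℝ) - 1) ^ J := by linarith
  have hK32 : 0 < K ^ ((3 : ℝ) / 2) := Real.rpow_pos_of_pos hK0 _
  obtain ⟨κ, hκ⟩ : ∃ κ : ℝ, κ = min (min (1 / K) (min (a0 / K) (a1 / K)))
      (min ((e / (C2 * K ^ ((3 : ℝ) / 2) * ((t : ℝ) - 1) ^ J)) ^ 2)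
        (1 / (16 * C4 * (CM + 1) ^ 2))) := ⟨_, rfl⟩
  have hC20 : 0 < C2 := by linarith
  have hC40 : 0 < C4 := by linarith
  have hκ0 : 0 < κ := by
    rw [hκ]
    refine lt_min (lt_min (by positivity) (lt_min (by positivity) (by positivity)))
      (lt_min (by positivity) (by positivity))
  refine ⟨κ, hκ0, n1 + n2 + n3 + (n4 + 1) + n5 + n6 + 6, by omega, ?_⟩
  intro E _ _ _ _ _ _ n hn hn0 v c hc hHc A hA hstar hclp hδ hlt
  have hn1 : 1 ≤ Module.finrank ℝ E := by omega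
  have := sm_prob (E := E) hn1
  have hCm := loc_step_Cp_meas v c
  have hsq : 0 < Real.sqrt n := Real.sqrt_pos.2 (by exact_mod_cast (by omega : 0 < n))
  obtain ⟨m, hm⟩ : ∃ m : ℝ, m = (sm E).real (Cp v c \ A) := ⟨_, rfl⟩
  have hm0 : 0 ≤ m := by rw [hm]; exact measureReal_nonneg
  have hmδ : m ≤ (sm E).real (symmDiff A (Cp v c)) := by
    rw [hm]
    refine measureReal_mono ?_
    rw [Set.symmDiff_def]
    exact subset_union_right
  have hAC : m < (sm E).real (A \ Cp v c) := by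
    have h3 : (sm E).real (Cp v c ∩ A) + (sm E).real (Cp v c \ A) = (sm E).real (Cp v c) :=
      measureReal_inter_add_diff hA
    have h4 : (sm E).real (A ∩ Cp v c) + (sm E).real (A \ Cp v c) = (sm E).real A :=
      measureReal_inter_add_diff hCm
    rw [inter_comm] at h4
    rw [← hm] at h3
    linarith
  rcases hm0.eq_or_lt with hm00 | hmp
  · exfalso
    have h1 := hts E n hn (by omega) v c hc hHc A hA hstar hclp 1 le_rfl (by
      rw [← hm, ← hm00]; norm_num)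
    rw [← hm, ← hm00] at h1
    have h2 : A \ Cp v c ⊆ {x : SS E | x ∈ A ∧ ⟪(v : E), (x : E)⟫ < c - 1 * 0 / Real.sqrt n} := by
      rintro x ⟨hx, hx'⟩
      refine ⟨hx, ?_⟩
      have h3 : ¬ c ≤ ⟪(v : E), (x : E)⟫ := hx'
      push Not at h3
      simpa using h3
    have h3 := (measureReal_mono (μ := sm E) h2).trans h1
    rw [← hm00] at hAC
    rw [mul_zero] at h3
    linarith
  have hmκ : m ≤ κ := hmδ.trans hδ
  have hm1 : K * m ≤ 1 := by
    have : m ≤ 1 / K := hmκ.trans (by rw [hκ]; exact (min_le_left _ _).trans (min_le_left _ _))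
    rw [le_div_iff₀ hK0] at this
    linarith
  have hma0 : K * m ≤ a0 := by
    have : m ≤ a0 / K := hmκ.trans (by
      rw [hκ]
      exact (min_le_left _ _).trans ((min_le_right _ _).trans (min_le_left _ _)))
    rw [le_div_iff₀ hK0] at this
    linarith
  have hma1 : K * m ≤ a1 := by
    have : m ≤ a1 / K := hmκ.trans (by
      rw [hκ]
      exact (min_le_left _ _).trans ((min_le_right _ _).trans (min_le_right _ _)))
    rw [le_div_iff₀ hK0] at this
    linarith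
  have hmq : m ≤ (e / (C2 * K ^ ((3 : ℝ) / 2) * ((t : ℝ) - 1) ^ J)) ^ 2 := hmκ.trans (by
    rw [hκ]; exact (min_le_right _ _).trans (min_le_left _ _))
  have hmt : m ≤ 1 / (16 * C4 * (CM + 1) ^ 2) := hmκ.trans (by
    rw [hκ]; exact (min_le_right _ _).trans (min_le_right _ _))
  obtain ⟨a, ha⟩ : ∃ a : ℝ, a = K * m := ⟨_, rfl⟩
  have hap : 0 < a := by rw [ha]; positivity
  have haq : 0 < a / Real.sqrt n := by positivity
  obtain ⟨A', hA'⟩ : ∃ A' : Set (SS E), A' = clp v c (a / Real.sqrt n) (t * a / Real.sqrt n) A :=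
    ⟨_, rfl⟩
  have hA'm : MeasurableSet A' := by
    rw [hA']
    exact (hA.inter (loc_step_Cp_meas v _)).union (loc_step_Cp_meas v _)
  have hlow : ∀ x ∈ A', c - a / Real.sqrt n ≤ ⟪(v : E), (x : E)⟫ := by
    intro x hx
    rw [hA'] at hx
    rcases hx with hx | hx
    · exact hx.2
    · have h1 : c + t * a / Real.sqrt n ≤ ⟪(v : E), (x : E)⟫ := hx
      have h2 : 0 ≤ t * a / Real.sqrt n := by positivity
      linarith
  have hup : ∀ x : SS E, c + t * a / Real.sqrt n ≤ ⟪(v : E), (x : E)⟫ → x ∈ A' := by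
    intro x hx
    rw [hA']
    exact Or.inr hx
  have hstar' : Star (rhoc t c) (Gc n (rhoc t c) c c) A' := by
    rw [hA']
    refine hclp _ _ haq.le ?_
    rw [mul_div_assoc]
    nlinarith
  obtain ⟨hB1, hB2⟩ := hNB E n hn (by omega) v c hc hHc a hap (ha ▸ hma0) A' hA'm hlow hup
  have hNxs := hNS E n hn (by omega) v c hc hHc a hap (ha ▸ hma1) A' hA'm hlow hup hstar'
  have htail := hts E n hn (by omega) v c hc hHc A hA hstar hclp K hK (by rw [← hm]; exact hm1)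
  rw [← hm] at htail
  have htl : (sm E).real (A \ A') ≤ C1 * K ^ (-(2 : ℝ) / 5) * m := by
    refine (measureReal_mono ?_).trans htail
    rintro x ⟨hx, hx'⟩
    refine ⟨hx, ?_⟩
    by_contra hcon
    push Not at hcon
    refine hx' ?_
    rw [hA']
    exact Or.inl ⟨hx, by rw [mem_setOf_eq, ha]; exact hcon⟩
  have hIM : (sm E).real (symmDiff A' (Cp v c)) ≤ CM * m := by
    have h1 : (sm E).real (A \ Cp v c) ≤ (C1 + 1) * m := by
      have h2 := hts E n hn (by omega) v c hc hHc A hA hstar hclp 1 le_rfl (by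
        rw [← hm]; nlinarith)
      rw [← hm, Real.one_rpow, mul_one, one_mul] at h2
      have h3 := loc_step_slab hn (by omega) v c hm0
      have h4 : A \ Cp v c ⊆ {x : SS E | x ∈ A ∧ ⟪(v : E), (x : E)⟫ < c - m / Real.sqrt n} ∪
          {x : SS E | c - m / Real.sqrt n ≤ ⟪(v : E), (x : E)⟫ ∧ ⟪(v : E), (x : E)⟫ < c} := by
        rintro x ⟨hx, hx'⟩
        have h5 : ¬ c ≤ ⟪(v : E), (x : E)⟫ := hx'
        push Not at h5
        by_cases h6 : c - m / Real.sqrt n ≤ ⟪(v : E), (x : E)⟫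
        · exact Or.inr ⟨h6, h5⟩
        · push Not at h6
          exact Or.inl ⟨hx, h6⟩
      have h5 := (measureReal_mono (μ := sm E) h4).trans (measureReal_union_le _ _)
      linarith
    have h2 : symmDiff A' (Cp v c) ⊆ (A \ Cp v c) ∪ (Cp v c \ A) := by
      intro x hx
      rw [Set.mem_symmDiff] at hx
      rcases hx with ⟨hx, hx'⟩ | ⟨hx, hx'⟩
      · refine Or.inl ⟨?_, hx'⟩
        rw [hA'] at hx
        rcases hx with hx | hx
        · exact hx.1
        · exfalso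
          apply hx'
          have h1 : c + t * a / Real.sqrt n ≤ ⟪(v : E), (x : E)⟫ := hx
          have h2 : 0 ≤ t * a / Real.sqrt n := by positivity
          show c ≤ ⟪(v : E), (x : E)⟫
          linarith
      · refine Or.inr ⟨hx, fun hxA => hx' ?_⟩
        rw [hA']
        refine Or.inl ⟨hxA, ?_⟩
        have h1 : c ≤ ⟪(v : E), (x : E)⟫ := hx
        show c - a / Real.sqrt n ≤ ⟪(v : E), (x : E)⟫
        linarith
    have h3 := (measureReal_mono (μ := sm E) h2).trans (measureReal_union_le _ _)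
    rw [← hm] at h3
    rw [hCM]
    linarith
  obtain ⟨hMbm, -⟩ := loc_step_MN hn (by omega) t v c hA'm
  have hk : Module.finrank ℝ (Pe v) = n - 1 := finrank_Pe (n := n - 1) (by omega) v
  have hS0 := hSS (Pe v) (by omega) (Mf n v c A') hMbm ((t + 1) * a) (by positivity)
    (fun w => (hB1 w).1)
  have hMabs := (loc_step_Mabs hn (by omega) v c hA'm t).trans hIM
  have hS : Real.sqrt (∫ x, (PP (-1 / ((t : ℝ) - 1)) (Mf n v c A') x) ^ 2 ∂(sm (Pe v)))
      ≤ C5 * K ^ ((3 : ℝ) / 10) * m := by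
    refine hS0.trans ?_
    have h1 := loc_step_S2 (t := t) (by linarith) hCM1 hK hmp
      (integral_nonneg fun w => abs_nonneg _) hMabs
    rw [← ha] at h1
    calc C3 * ((t + 1) * a * ((∫ x, |Mf n v c A' x| ∂(sm (Pe v))) / ((t + 1) * a)) ^ ((7 : ℝ) / 10))
        ≤ C3 * ((t + 1) * CM * K ^ ((3 : ℝ) / 10) * m) := mul_le_mul_of_nonneg_left h1 hC3.le
      _ = C5 * K ^ ((3 : ℝ) / 10) * m := by rw [hC5]; ring
  have hK25 : 0 < K ^ (-(2 : ℝ) / 5) := Real.rpow_pos_of_pos hK0 _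
  have hK310 : 0 < K ^ ((3 : ℝ) / 10) := Real.rpow_pos_of_pos hK0 _
  obtain ⟨D, hD⟩ : ∃ D : ℝ, D = 2 * ((t : ℝ) - 1) ^ J * (2 * (C2 * a ^ ((3 : ℝ) / 2))
      + t * (C1 * K ^ (-(2 : ℝ) / 5) * m))
      + (2 / ((t : ℝ) - 1) ^ (J - 1)) * ((t - 1) * (C5 * K ^ ((3 : ℝ) / 10) * m)) := ⟨_, rfl⟩
  have hPJ : ((t : ℝ) - 1) ^ J = ((t : ℝ) - 1) ^ (J - 1) * (t - 1) := by
    rw [← pow_succ]
    congr 1
    omega
  have hPJ0 : 0 < ((t : ℝ) - 1) ^ (J - 1) := by positivity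
  have hC10 : 0 < C1 := by linarith
  have hD0 : 0 ≤ D := by rw [hD]; positivity
  obtain ⟨v', hv'⟩ := loc_step_main hn (by omega) ht v c hA hA'm hJ hC40.le htl hlt.le
    (fun w => ⟨(hB1 w).2.1, (hB1 w).2.2.1⟩) hB2 hNxs hS hIM (hn6 n (by omega)) hD
    (fun b => hti E n hn (by omega) v c hc hHc b)
  refine ⟨v', ?_⟩
  have ha32 : a ^ ((3 : ℝ) / 2) = K ^ ((3 : ℝ) / 2) * (m * Real.sqrt m) := by
    rw [ha, Real.mul_rpow hK0.le hm0]
    congr 1
    rw [Real.sqrt_eq_rpow]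
    nth_rewrite 2 [← Real.rpow_one m]
    rw [← Real.rpow_add hmp]
    norm_num
  have hsqm : Real.sqrt m ≤ e / (C2 * K ^ ((3 : ℝ) / 2) * ((t : ℝ) - 1) ^ J) := by
    rw [Real.sqrt_le_left (by positivity)]
    exact hmq
  have hfin := loc_step_fin (t := t) (CM := CM) (Ct := C4) (e := e)
    (tl := C1 * K ^ (-(2 : ℝ) / 5) * m) (Nx := C2 * a ^ ((3 : ℝ) / 2))
    (S := C5 * K ^ ((3 : ℝ) / 10) * m) (m := m) (P := ((t : ℝ) - 1) ^ J) (D := D)
    (Lm := 2 / ((t : ℝ) - 1) ^ (J - 1)) (IM := CM * m) ht' hCM1 hC4 he hP1 hmp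
    (by positivity) (by nlinarith) (by positivity) (by
      rw [ha32]
      rw [le_div_iff₀ (by positivity)] at hsqm
      nlinarith) (by
      have h1 : 2 / ((t : ℝ) - 1) ^ (J - 1) * ((t - 1) * (C5 * K ^ ((3 : ℝ) / 10) * m))
          = 2 * ((t : ℝ) - 1) ^ 2 * (C5 * K ^ ((3 : ℝ) / 10)) / ((t : ℝ) - 1) ^ J * m := by
        rw [hPJ]
        field_simp
      rw [h1]
      exact mul_le_mul_of_nonneg_right hJ2 hm0) (by positivity) le_rfl hD0 hD hmt
  linarith

-- step_thm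
theorem step_thm (t : ℕ) (ht : 3 ≤ t) (hT : Thm (t - 1)) (hG : Gst t) : Thm t := by
  intro ε hε
  obtain ⟨κ, hκ, n1, h6, hloc⟩ := loc_step t ht (Real.sqrt_nonneg (1 / ε))
  obtain ⟨n2, hstar⟩ := star_of t ht hT hε
  obtain ⟨n3, hgst⟩ := hG ε κ hε hκ
  refine ⟨max n1 (max n2 n3), ?_⟩
  intro E _ _ _ _ _ _ hn v c hc hcap A hA hb
  have hn1 : n1 ≤ Module.finrank ℝ E := (le_max_left _ _).trans hn
  have hn2 : n2 ≤ Module.finrank ℝ E :=
    ((le_max_left _ _).trans (le_max_right _ _)).trans hn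
  have hn3 : n3 ≤ Module.finrank ℝ E :=
    ((le_max_right _ _).trans (le_max_right _ _)).trans hn
  have h4 : 4 ≤ Module.finrank ℝ E := by omega
  by_contra hcon
  rw [not_le] at hcon
  obtain ⟨v1, hv1⟩ := hgst E hn3 v c hc hcap A hA hb hcon.le
  obtain ⟨v2, hv2⟩ := min_v rfl h4 c hA.measurableSet
  have h21 : (sm E).real (symmDiff A (Cp v2 c)) ≤ κ := (hv2 v1).trans hv1
  have hcc : (sm E).real (Cp v2 c) = (sm E).real (Cp v c) :=
    (cap_meas rfl h4 v2 c).trans (cap_meas rfl h4 v c).symm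
  have hcap2 : ε ≤ (sm E).real (Cp v2 c) := by
    rw [hcc]
    exact hcap
  have hH : Real.sqrt (Module.finrank ℝ E) * c ≤ Real.sqrt (1 / ε) :=
    cap_height rfl h4 v hc hε hcap
  obtain ⟨v', hv'⟩ := hloc E (Module.finrank ℝ E) rfl hn1 v2 c hc hH A hA.measurableSet
    (hstar E hn2 v2 c hc hcap2 A hA hb)
    (fun a b ha hab => by
      obtain ⟨hc1, hc2⟩ := clamp_bad (by omega) v2 hc ha hab hA hb
      exact hstar E hn2 v2 c hc hcap2 _ hc1 hc2)
    h21 (by rw [hcc]; exact hcon)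
  exact absurd (hv2 v') (not_le.mpr hv')


end CoreW

end Pool.Agent.helper440_simplex
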