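import Pool.Agent.helper440_simplex.Sse
import Pool.Agent.helper440_simplex.CapBase
import Pool.Agent.helper440_simplex.Simp

set_option autoImplicit false
set_option linter.unusedSectionVars false

namespace Pool.Agent.helper440_simplex

open MeasureTheory Metric Set Filter Topology
open scoped RealInnerProductSpace

section CoreW
variable {E : Type*} [NormedAddCommGroup E] [InnerProductSpace ℝ E] [CompleteSpace E]
  [FiniteDimensional ℝ E] [MeasurableSpace E] [BorelSpace E]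

/-! # Local analysis -/

section Loc1
variable {E : Type*} [NormedAddCommGroup E] [InnerProductSpace ℝ E] [CompleteSpace E]
  [FiniteDimensional ℝ E] [MeasurableSpace E] [BorelSpace E]

/-- the pointwise slice inequality -/
def Star (ρ G : ℝ) (A : Set (SS E)) : Prop := ∀ x ∈ A, PP ρ (ind A) x ≤ G

-- clamp_bad
theorem clamp_bad_sum {t : ℕ} (ht : 2 ≤ t) (v : SS E) {c : ℝ} (hc : 0 ≤ c) (x : Fin t → SS E)
    (hx : ∀ i j, i ≠ j → ⟪(x i : E), (x j : E)⟫ ≤ rhoc t c) :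
    ∑ i, ⟪(v : E), (x i : E)⟫ ≤ t * c := by
  have ht1 : (0 : ℝ) < (t : ℝ) - 1 := by
    have : (2 : ℝ) ≤ t := by exact_mod_cast ht
    linarith
  have hv : ‖(v : E)‖ = 1 := norm_eq_of_mem_sphere v
  have hnorm : ‖∑ i, (x i : E)‖ ^ 2 ≤ (t * c) ^ 2 := by
    rw [← real_inner_self_eq_norm_sq, sum_inner]
    have h1 : ∀ i : Fin t, ⟪(x i : E), ∑ j, (x j : E)⟫ ≤ 1 + ((t : ℝ) - 1) * rhoc t c := by
      intro i
      rw [inner_sum, ← Finset.add_sum_erase _ _ (Finset.mem_univ i)]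
      have h2 : ⟪(x i : E), (x i : E)⟫ = 1 := by
        rw [real_inner_self_eq_norm_sq, norm_eq_of_mem_sphere (x i)]; norm_num
      rw [h2]
      have h3 : ∑ j ∈ Finset.univ.erase i, ⟪(x i : E), (x j : E)⟫
          ≤ ∑ _j ∈ Finset.univ.erase i, rhoc t c := by
        apply Finset.sum_le_sum
        intro j hj
        exact hx i j (Ne.symm (Finset.ne_of_mem_erase hj))
      rw [Finset.sum_const, Finset.card_erase_of_mem (Finset.mem_univ i), Finset.card_univ,
        Fintype.card_fin, nsmul_eq_mul, Nat.cast_sub (by omega), Nat.cast_one] at h3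
      linarith
    calc ∑ i, ⟪(x i : E), ∑ j, (x j : E)⟫ ≤ ∑ _i : Fin t, (1 + ((t : ℝ) - 1) * rhoc t c) :=
          Finset.sum_le_sum (fun i _ => h1 i)
      _ = t * (1 + ((t : ℝ) - 1) * rhoc t c) := by
          rw [Finset.sum_const, Finset.card_univ, Fintype.card_fin, nsmul_eq_mul]
      _ = (t * c) ^ 2 := by
          have h4 : ((t : ℝ) - 1) * rhoc t c = t * c ^ 2 - 1 := by
            rw [rhoc, mul_div_cancel₀ _ ht1.ne']
          rw [h4]; ring
      _ ≤ (t * c) ^ 2 := le_rfl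
  have hle : ‖∑ i, (x i : E)‖ ≤ t * c := by
    have h0 : (0 : ℝ) ≤ t * c := by positivity
    exact (pow_le_pow_iff_left₀ (norm_nonneg _) h0 two_ne_zero).mp hnorm
  calc ∑ i, ⟪(v : E), (x i : E)⟫ = ⟪(v : E), ∑ i, (x i : E)⟫ := by rw [inner_sum]
    _ ≤ ‖(v : E)‖ * ‖∑ i, (x i : E)‖ := real_inner_le_norm _ _
    _ ≤ t * c := by rw [hv, one_mul]; exact hle

theorem clamp_bad {t : ℕ} (ht : 2 ≤ t) (v : SS E) {c a b : ℝ} (hc : 0 ≤ c) (ha : 0 ≤ a)
    (hab : (t - 1) * a < b) {A : Set (SS E)} (hA : IsClosed A) (hb : Bad t (rhoc t c) A) :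
    IsClosed (clp v c a b A) ∧ Bad t (rhoc t c) (clp v c a b A) := by
  have hcont : Continuous (fun x : SS E => ⟪(v : E), (x : E)⟫) :=
    continuous_const.inner continuous_subtype_val
  refine ⟨(hA.inter (isClosed_le continuous_const hcont)).union
    (isClosed_le continuous_const hcont), ?_⟩
  intro x hx
  by_contra hcon
  push Not at hcon
  have ht1 : (0 : ℝ) < (t : ℝ) - 1 := by
    have : (2 : ℝ) ≤ t := by exact_mod_cast ht
    linarith
  have hb0 : 0 ≤ b := by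
    have : 0 ≤ ((t : ℝ) - 1) * a := mul_nonneg ht1.le ha
    linarith
  have hlow : ∀ i, c - a ≤ ⟪(v : E), (x i : E)⟫ := by
    intro i
    rcases hx i with h | h
    · exact h.2
    · have : c + b ≤ ⟪(v : E), (x i : E)⟫ := h
      linarith
  have hall : ∀ i, x i ∈ A := by
    intro i
    rcases hx i with h | h
    · exact h.1
    · exfalso
      have hi : c + b ≤ ⟪(v : E), (x i : E)⟫ := h
      have hs := clamp_bad_sum ht v hc x hcon
      rw [← Finset.add_sum_erase _ _ (Finset.mem_univ i)] at hs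
      have h3 : ∑ _j ∈ Finset.univ.erase i, (c - a) ≤ ∑ j ∈ Finset.univ.erase i, ⟪(v : E), (x j : E)⟫ :=
        Finset.sum_le_sum (fun j _ => hlow j)
      rw [Finset.sum_const, Finset.card_erase_of_mem (Finset.mem_univ i), Finset.card_univ,
        Fintype.card_fin, nsmul_eq_mul, Nat.cast_sub (by omega), Nat.cast_one] at h3
      nlinarith
  obtain ⟨i, j, hij, hlt⟩ := hb x hall
  exact absurd (hcon i j hij) (not_le.mpr hlt)

-- cap_slice
theorem cap_slice {n : ℕ} (hn : Module.finrank ℝ E = n) (h5 : 5 ≤ n) (v x : SS E) {ρ c : ℝ}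
    (hρ : |ρ| < 1) (hx : |⟪(v : E), (x : E)⟫| < 1) :
    PP ρ (ind (Cp v c)) x = Gc n ρ c ⟪(v : E), (x : E)⟫ := by
  obtain ⟨e, he⟩ := pt_surj (E := E) (by omega) x v
  have hfin : Module.finrank ℝ (Pe x) = n - 1 := finrank_Pe (E := E) (n := n - 1) (by omega) x
  set τ : ℝ := ⟪(v : E), (x : E)⟫ with hτ
  have hτ' : ⟪(x : E), (v : E)⟫ = τ := real_inner_comm _ _
  rw [hτ'] at he
  have h1 : 0 < Real.sqrt (1 - ρ ^ 2) := by
    apply Real.sqrt_pos.2
    have := (sq_lt_one_iff_abs_lt_one ρ).2 hρ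
    linarith
  have h2 : 0 < Real.sqrt (1 - τ ^ 2) := by
    apply Real.sqrt_pos.2
    have := (sq_lt_one_iff_abs_lt_one τ).2 hx
    linarith
  let W : Set (SS (Pe x)) := {w | (c - ρ * τ) /
    (Real.sqrt (1 - ρ ^ 2) * Real.sqrt (1 - τ ^ 2)) ≤ ⟪(e : Pe x), (w : Pe x)⟫}
  have hset : ∀ w : SS (Pe x), pt x ρ w ∈ Cp v c ↔ w ∈ W := by
    intro w
    have h3 := (pt_inner (abs_le.1 hx.le).1 (abs_le.1 hx.le).2 (abs_le.1 hρ.le).1
      (abs_le.1 hρ.le).2 x e w).2
    rw [← he] at h3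
    show c ≤ ⟪(v : E), (pt x ρ w : E)⟫ ↔ (c - ρ * τ) /
      (Real.sqrt (1 - ρ ^ 2) * Real.sqrt (1 - τ ^ 2)) ≤ ⟪(e : Pe x), (w : Pe x)⟫
    rw [h3, div_le_iff₀ (mul_pos h1 h2)]
    constructor <;> intro h <;> linarith
  have hfun : ∀ w : SS (Pe x), ind (Cp v c) (pt x ρ w) = W.indicator (fun _ => (1 : ℝ)) w := by
    intro w
    unfold ind
    by_cases h : pt x ρ w ∈ Cp v c
    · rw [Set.indicator_of_mem h, Set.indicator_of_mem ((hset w).1 h)]
    · rw [Set.indicator_of_notMem h, Set.indicator_of_notMem (fun h' => h ((hset w).2 h'))]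
  have hcl : IsClosed W :=
    isClosed_le continuous_const (continuous_const.inner continuous_subtype_val)
  unfold PP
  simp only [hfun]
  rw [integral_indicator_const _ hcl.measurableSet, smul_eq_mul, mul_one]
  exact cap_meas (E := Pe x) hfin (by omega) e _

-- slice_bad
theorem slice_bad {t : ℕ} (ht : 3 ≤ t) {ρ : ℝ} (h1 : -1 < ρ) (h2 : ρ < 1) {A : Set (SS E)}
    (hA : IsClosed A) (hb : Bad t ρ A) {x : SS E} (hx : x ∈ A) :
    IsClosed {w : SS (Pe x) | pt x ρ w ∈ A} ∧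
    Bad (t - 1) (ρ / (1 + ρ)) {w : SS (Pe x) | pt x ρ w ∈ A} := by
  obtain ⟨m, rfl⟩ : ∃ m, t = m + 1 := ⟨t - 1, by omega⟩
  refine ⟨hA.preimage ((pt_cont x).comp (continuous_const.prodMk continuous_id)), ?_⟩
  rw [Nat.add_sub_cancel]
  intro w hw
  by_contra hcon
  push Not at hcon
  obtain ⟨i, j, hij, hlt⟩ := hb (Fin.cons x (fun i => pt x ρ (w i))) (by
    intro i
    refine Fin.cases ?_ (fun i => ?_) i
    · rw [Fin.cons_zero]; exact hx
    · rw [Fin.cons_succ]; exact hw i)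
  have key : ∀ w w' : SS (Pe x), ⟪(x : E), (pt x ρ w : E)⟫ = ρ ∧
      ⟪(pt x ρ w : E), (pt x ρ w' : E)⟫
        = ρ * ρ + Real.sqrt (1 - ρ ^ 2) * Real.sqrt (1 - ρ ^ 2) * ⟪(w : Pe x), (w' : Pe x)⟫ :=
    fun w w' => pt_inner h1.le h2.le h1.le h2.le x w w'
  revert hij hlt
  refine Fin.cases ?_ (fun i => ?_) i <;> refine Fin.cases ?_ (fun j => ?_) j
  · intro hij _
    exact hij rfl
  · intro _ hlt
    rw [Fin.cons_zero, Fin.cons_succ, (key (w j) (w j)).1] at hlt
    exact lt_irrefl _ hlt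
  · intro _ hlt
    rw [Fin.cons_zero, Fin.cons_succ, real_inner_comm, (key (w i) (w i)).1] at hlt
    exact lt_irrefl _ hlt
  · intro hij hlt
    have hne : i ≠ j := fun h => hij (congrArg Fin.succ h)
    rw [Fin.cons_succ, Fin.cons_succ, (key (w i) (w j)).2] at hlt
    have h3 := hcon i j hne
    have h4 : 0 ≤ 1 - ρ ^ 2 := by nlinarith
    rw [Real.mul_self_sqrt h4] at hlt
    have h5 := mul_le_mul_of_nonneg_left h3 h4
    have h6 : (1 - ρ ^ 2) * (ρ / (1 + ρ)) = (1 - ρ) * ρ := by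
      have : 1 + ρ ≠ 0 := by linarith
      field_simp
      ring
    rw [h6] at h5
    nlinarith

-- fiber_w
theorem fiber_w {n : ℕ} (hn : Module.finrank ℝ E = n) (h4 : 4 ≤ n) (v : SS E) {f : SS E → ℝ}
    (hf : BM f) :
    ∫ x, f x ∂(sm E) = ∫ w, (∫ τ, om n τ * f (pt v τ w)) ∂(sm (Pe v)) := by
  obtain ⟨hfm, C, hC⟩ := hf
  have hfr : Module.finrank ℝ (Pe v) = n - 1 := finrank_Pe (n := n - 1) (by omega) v
  have : IsProbabilityMeasure (sm (Pe v)) := sm_prob (E := Pe v) (by omega)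
  rw [fiber hn h4 v ⟨hfm, C, hC⟩]
  obtain ⟨-, -, -, -, -, -, homi, -⟩ := om_basic h4
  have hpt : Measurable (fun p : ℝ × SS (Pe v) => pt v p.1 p.2) := (pt_cont v).measurable
  have hint : Integrable (Function.uncurry fun (τ : ℝ) (w : SS (Pe v)) => om n τ * f (pt v τ w))
      (volume.prod (sm (Pe v))) := by
    have h1 : Integrable (fun p : ℝ × SS (Pe v) => om n p.1) (volume.prod (sm (Pe v))) :=
      homi.comp_fst (sm (Pe v))
    refine Integrable.mul_bdd (c := C) h1 ?_ ?_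
    · exact (hfm.comp hpt).aestronglyMeasurable
    · exact Filter.Eventually.of_forall fun p => by rw [Real.norm_eq_abs]; exact hC _
  have h1 : ∫ s, om n s * PP s f v = ∫ s, ∫ w, om n s * f (pt v s w) ∂(sm (Pe v)) := by
    refine integral_congr_ae (Filter.Eventually.of_forall fun s => ?_)
    simp only [PP]
    rw [integral_const_mul]
  rw [h1, integral_integral_swap hint]

-- min_v
theorem min_v_icc {n : ℕ} (hn : Module.finrank ℝ E = n) (h4 : 4 ≤ n) (v : SS E) {a b : ℝ} (hab : a ≤ b) :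
    (sm E).real {x | ⟪(v : E), (x : E)⟫ ∈ Icc a b} ≤ cn n * (b - a) := by
  have hprob := sm_prob (E := E) (by omega)
  obtain ⟨-, -, hnn, -, -, -, hint, -, -, hle⟩ := om_basic h4
  have hcont : Continuous (fun x : SS E => ⟪(v : E), (x : E)⟫) := continuous_const.inner continuous_subtype_val
  have hm : MeasurableSet {x : SS E | ⟪(v : E), (x : E)⟫ ∈ Icc a b} := hcont.measurable measurableSet_Icc
  have hψ : Measurable ((Icc a b).indicator (fun _ : ℝ => (1 : ℝ))) := measurable_const.indicator measurableSet_Icc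
  have hb : ∃ C : ℝ, ∀ s, |(Icc a b).indicator (fun _ : ℝ => (1 : ℝ)) s| ≤ C := by
    refine ⟨1, fun s => ?_⟩
    by_cases hs : s ∈ Icc a b
    · rw [indicator_of_mem hs]; simp
    · rw [indicator_of_notMem hs]; simp
  have h1 := sm_height hn h4 v hψ hb
  have h2 : ∫ x, (Icc a b).indicator (fun _ : ℝ => (1 : ℝ)) ⟪(v : E), (x : E)⟫ ∂(sm E)
      = (sm E).real {x | ⟪(v : E), (x : E)⟫ ∈ Icc a b} := by
    rw [← integral_indicator_one hm]
    rfl
  rw [← h2, h1]
  have h3 : ∀ s, om n s * (Icc a b).indicator (fun _ : ℝ => (1 : ℝ)) s = (Icc a b).indicator (om n) s := by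
    intro s
    by_cases hs : s ∈ Icc a b
    · rw [indicator_of_mem hs, indicator_of_mem hs, mul_one]
    · rw [indicator_of_notMem hs, indicator_of_notMem hs, mul_zero]
  simp only [h3]
  rw [integral_indicator measurableSet_Icc]
  calc ∫ s in Icc a b, om n s ≤ ∫ _s in Icc a b, cn n := by
        refine setIntegral_mono_on hint.integrableOn ?_ measurableSet_Icc fun s _ => hle s
        exact integrableOn_const (by simp)
    _ = cn n * (b - a) := by
        rw [setIntegral_const, smul_eq_mul, measureReal_def, Real.volume_Icc,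
          ENNReal.toReal_ofReal (by linarith), mul_comm]

theorem min_v_lip {n : ℕ} (hn : Module.finrank ℝ E = n) (h4 : 4 ≤ n) (c : ℝ) (v v' : SS E) :
    (sm E).real (symmDiff (Cp v c) (Cp v' c)) ≤ cn n * (2 * ‖(v : E) - v'‖) := by
  have hprob := sm_prob (E := E) (by omega)
  have hsub : symmDiff (Cp v c) (Cp v' c) ⊆
      {x | ⟪(v : E), (x : E)⟫ ∈ Icc (c - ‖(v : E) - v'‖) (c + ‖(v : E) - v'‖)} := by
    intro x hx
    have h1 : |⟪(v : E), (x : E)⟫ - ⟪(v' : E), (x : E)⟫| ≤ ‖(v : E) - v'‖ := by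
      rw [← inner_sub_left]
      have h := abs_real_inner_le_norm ((v : E) - v') (x : E)
      rwa [norm_eq_of_mem_sphere x, mul_one] at h
    rw [abs_le] at h1
    rw [mem_ofPred_eq, mem_Icc]
    rcases hx with ⟨ha, hb⟩ | ⟨ha, hb⟩
    · simp only [Cp, mem_ofPred_eq, not_le] at ha hb
      constructor <;> linarith [h1.1, h1.2, norm_nonneg ((v : E) - v')]
    · simp only [Cp, mem_ofPred_eq, not_le] at ha hb
      constructor <;> linarith [h1.1, h1.2, norm_nonneg ((v : E) - v')]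
  refine (measureReal_mono hsub).trans ?_
  refine (min_v_icc hn h4 v (by linarith [norm_nonneg ((v : E) - v')])).trans (le_of_eq ?_)
  ring

theorem min_v {n : ℕ} (hn : Module.finrank ℝ E = n) (h4 : 4 ≤ n) (c : ℝ) {A : Set (SS E)}
    (hA : MeasurableSet A) : ∃ v : SS E, ∀ v' : SS E,
    (sm E).real (symmDiff A (Cp v c)) ≤ (sm E).real (symmDiff A (Cp v' c)) := by
  have hprob := sm_prob (E := E) (by omega)
  have hne := sm_nonempty (E := E) (by omega)
  have hcn : 0 < cn n := (om_basic h4).1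
  have key : ∀ v v' : SS E, (sm E).real (symmDiff A (Cp v c)) - (sm E).real (symmDiff A (Cp v' c))
      ≤ 2 * cn n * dist v v' := by
    intro v v'
    have h1 := measureReal_symmDiff_le (μ := sm E) (s := A) (t := Cp v' c) (Cp v c)
    have h2 := min_v_lip hn h4 c v' v
    have h3 : dist v v' = ‖(v' : E) - v‖ := by
      rw [dist_comm, Subtype.dist_eq, dist_eq_norm]
    rw [h3]
    linarith
  have hcont : Continuous (fun v : SS E => (sm E).real (symmDiff A (Cp v c))) := by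
    have hl : LipschitzWith (Real.toNNReal (2 * cn n)) (fun v : SS E => (sm E).real (symmDiff A (Cp v c))) := by
      refine LipschitzWith.of_dist_le_mul fun v v' => ?_
      rw [Real.coe_toNNReal _ (by positivity), Real.dist_eq, abs_le]
      have h1 := key v v'
      have h2 := key v' v
      rw [dist_comm v' v] at h2
      constructor <;> linarith
    exact hl.continuous
  obtain ⟨v, -, hv⟩ := isCompact_univ.exists_isMinOn (s := (univ : Set (SS E))) univ_nonempty hcont.continuousOn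
  exact ⟨v, fun v' => hv (mem_univ v')⟩

end Loc1

-- rhoc_slice
theorem rhoc_slice {t : ℕ} (ht : 3 ≤ t) {c : ℝ} (h0 : 0 ≤ c) (h1 : c < 1) :
    rhoc t c / (1 + rhoc t c) = rhoc (t - 1) (Real.sqrt (t * c ^ 2 / (t - 2 + t * c ^ 2))) ∧
    (c - rhoc t c * c) / (Real.sqrt (1 - rhoc t c ^ 2) * Real.sqrt (1 - c ^ 2))
      = Real.sqrt (t * c ^ 2 / (t - 2 + t * c ^ 2)) ∧ -1 < rhoc t c ∧ rhoc t c < 1 := by
  have hT : (3 : ℝ) ≤ (t : ℝ) := by exact_mod_cast ht
  have hcast : ((t - 1 : ℕ) : ℝ) = (t : ℝ) - 1 := by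
    rw [Nat.cast_sub (by omega)]; simp
  unfold rhoc
  rw [hcast]
  generalize (t : ℝ) = T at hT
  have hT1 : 0 < T - 1 := by linarith
  have hT2 : 0 < T - 2 := by linarith
  have hc2 : 0 < 1 - c ^ 2 := by nlinarith
  have hTc : 0 ≤ T * c ^ 2 := by positivity
  have hD : 0 < T - 2 + T * c ^ 2 := by linarith
  have e1 : 1 + (T * c ^ 2 - 1) / (T - 1) = (T - 2 + T * c ^ 2) / (T - 1) := by
    field_simp; ring
  have e2 : 1 - (T * c ^ 2 - 1) / (T - 1) = T * (1 - c ^ 2) / (T - 1) := by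
    field_simp; ring
  refine ⟨?_, ?_, ?_, ?_⟩
  · rw [e1, Real.sq_sqrt (by positivity)]
    have hT1' : T - 1 ≠ 0 := hT1.ne'
    have hD' : T - 2 + T * c ^ 2 ≠ 0 := hD.ne'
    have hT2' : T - 1 - 1 ≠ 0 := by
      have : T - 1 - 1 = T - 2 := by ring
      rw [this]; exact hT2.ne'
    rw [div_div_div_cancel_right₀ hT1', div_eq_div_iff hD' hT2']
    field_simp
    ring
  · have hρ : 0 < 1 - ((T * c ^ 2 - 1) / (T - 1)) ^ 2 := by
      have : 1 - ((T * c ^ 2 - 1) / (T - 1)) ^ 2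
          = (1 + (T * c ^ 2 - 1) / (T - 1)) * (1 - (T * c ^ 2 - 1) / (T - 1)) := by ring
      rw [this, e1, e2]
      positivity
    have hnum : 0 ≤ c - (T * c ^ 2 - 1) / (T - 1) * c := by
      have : c - (T * c ^ 2 - 1) / (T - 1) * c = c * (1 - (T * c ^ 2 - 1) / (T - 1)) := by ring
      rw [this, e2]
      positivity
    rw [← Real.sqrt_mul hρ.le, ← Real.sqrt_sq hnum, ← Real.sqrt_div (sq_nonneg _)]
    congr 1
    have a1 : c - (T * c ^ 2 - 1) / (T - 1) * c = c * (T * (1 - c ^ 2) / (T - 1)) := by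
      rw [← e2]; ring
    have a2 : 1 - ((T * c ^ 2 - 1) / (T - 1)) ^ 2
        = ((T - 2 + T * c ^ 2) / (T - 1)) * (T * (1 - c ^ 2) / (T - 1)) := by
      rw [← e1, ← e2]; ring
    rw [a1, a2]
    have hT0 : T ≠ 0 := by linarith
    have hc2' : (1 - c ^ 2) ≠ 0 := hc2.ne'
    have hT1' : T - 1 ≠ 0 := hT1.ne'
    have hD' : T - 2 + T * c ^ 2 ≠ 0 := hD.ne'
    field_simp
  · rw [lt_div_iff₀ hT1]
    linarith
  · rw [div_lt_one hT1]
    nlinarith

-- cap_height
theorem cap_height {E : Type*} [NormedAddCommGroup E] [InnerProductSpace ℝ E] [CompleteSpace E]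
    [FiniteDimensional ℝ E] [MeasurableSpace E] [BorelSpace E] {n : ℕ}
    (hn : Module.finrank ℝ E = n) (h4 : 4 ≤ n) (v : SS E) {c ε : ℝ} (hc : 0 ≤ c) (hε : 0 < ε)
    (h : ε ≤ (sm E).real (Cp v c)) : Real.sqrt n * c ≤ Real.sqrt (1 / ε) := by
  have hcm : (sm E).real (Cp v c) = mm n c := cap_meas hn h4 v c
  rw [hcm] at h
  obtain ⟨-, hcont, hnn, -, -, -, hint, -, -, -⟩ := om_basic h4
  have hsq := om_sq h4
  have hn0 : (0 : ℝ) < n := by
    have : (4 : ℝ) ≤ n := by exact_mod_cast h4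
    linarith
  have hint2 : Integrable (fun s => om n s * s ^ 2) := by
    by_contra hcon
    rw [integral_undef hcon] at hsq
    have : (0 : ℝ) < 1 / n := by positivity
    linarith
  have key : mm n c * c ^ 2 ≤ 1 / n := by
    unfold mm
    rw [← hsq, ← integral_mul_const]
    have e1 : ∫ s in Ici c, om n s * c ^ 2 ≤ ∫ s in Ici c, om n s * s ^ 2 := by
      refine setIntegral_mono_on (hint.mul_const _).integrableOn hint2.integrableOn
        measurableSet_Ici fun s hs => ?_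
      have hs' : c ≤ s := hs
      exact mul_le_mul_of_nonneg_left (pow_le_pow_left₀ hc hs' 2) (hnn s)
    refine e1.trans ?_
    exact setIntegral_le_integral hint2
      (Filter.Eventually.of_forall fun s => mul_nonneg (hnn s) (sq_nonneg s))
  have h2 : ε * c ^ 2 ≤ 1 / n := (mul_le_mul_of_nonneg_right h (sq_nonneg c)).trans key
  have h3 : n * c ^ 2 ≤ 1 / ε := by
    rw [le_div_iff₀ hε]
    rw [le_div_iff₀ hn0] at h2
    linarith
  have h4' : Real.sqrt n * c = Real.sqrt (n * c ^ 2) := by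
    rw [Real.sqrt_mul hn0.le, Real.sqrt_sq hc]
  rw [h4']
  exact Real.sqrt_le_sqrt h3

-- star_of
theorem star_of_mm {K : ℝ} (hK : 0 ≤ K) {n : ℕ} (h6 : 6 ≤ n) {c : ℝ} (h0 : 0 ≤ c)
    (hc : n * c ^ 2 ≤ K) (hc2 : c ^ 2 ≤ 1 / 2) :
    Real.exp (-K) / (1000 * (1 + Real.sqrt K)) ≤ mm (n - 1) c := by
  have h1 : c < 1 := by nlinarith
  have hcast : ((n - 1 : ℕ) : ℝ) = (n : ℝ) - 1 := by
    rw [Nat.cast_sub (by omega)]; norm_num
  have hn6 : (6 : ℝ) ≤ n := by exact_mod_cast h6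
  have hlow := mm_lower (n := n - 1) (by omega) h0 h1
  refine le_trans ?_ hlow
  have hpos : (0 : ℝ) < 1 - c ^ 2 := by linarith
  have hs0 : 0 ≤ Real.sqrt K := Real.sqrt_nonneg K
  have hs : c * Real.sqrt ((n - 1 : ℕ) : ℝ) ≤ Real.sqrt K := by
    apply Real.le_sqrt_of_sq_le
    rw [mul_pow, Real.sq_sqrt (by rw [hcast]; linarith), hcast]
    nlinarith [sq_nonneg c]
  have hs1 : 0 ≤ c * Real.sqrt ((n - 1 : ℕ) : ℝ) := mul_nonneg h0 (Real.sqrt_nonneg _)
  have hlog : -(2 * c ^ 2) ≤ Real.log (1 - c ^ 2) := by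
    have h := Real.one_sub_inv_le_log_of_pos hpos
    refine le_trans ?_ h
    rw [← sub_nonneg]
    have : 1 - (1 - c ^ 2)⁻¹ - -(2 * c ^ 2) = c ^ 2 * (1 - 2 * c ^ 2) / (1 - c ^ 2) := by
      field_simp; ring
    rw [this]
    apply div_nonneg _ hpos.le
    apply mul_nonneg (sq_nonneg c); linarith
  have hexp : Real.exp (-K) ≤ (1 - c ^ 2) ^ ((((n - 1 : ℕ) : ℝ) - 1) / 2) := by
    rw [Real.rpow_def_of_pos hpos]
    apply Real.exp_le_exp.mpr
    rw [hcast]
    have h3 : (0 : ℝ) ≤ ((n : ℝ) - 1 - 1) / 2 := by linarith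
    have h4 := mul_le_mul_of_nonneg_right hlog h3
    nlinarith [sq_nonneg c]
  gcongr

theorem star_of (t : ℕ) (ht : 3 ≤ t) (hT : Thm (t - 1)) {ε : ℝ} (hε : 0 < ε) :
    ∃ n0 : ℕ, ∀ (E : Type) [NormedAddCommGroup E]
    [InnerProductSpace ℝ E] [CompleteSpace E] [FiniteDimensional ℝ E] [MeasurableSpace E]
    [BorelSpace E], n0 ≤ Module.finrank ℝ E → ∀ (v : SS E) (c : ℝ), 0 ≤ c →
    ε ≤ (sm E).real (Cp v c) → ∀ A : Set (SS E), IsClosed A → Bad t (rhoc t c) A →
    Star (rhoc t c) (Gc (Module.finrank ℝ E) (rhoc t c) c c) A := by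
  set K : ℝ := 3 * (1 / ε) with hKdef
  have hK : 0 ≤ K := by positivity
  set ε' : ℝ := Real.exp (-K) / (1000 * (1 + Real.sqrt K)) with hε'def
  have hε' : 0 < ε' := by positivity
  obtain ⟨n1, hn1⟩ := hT ε' hε'
  obtain ⟨n2, hn2⟩ := exists_nat_ge (2 * K)
  refine ⟨n1 + n2 + 6, ?_⟩
  intro E _ _ _ _ _ _ hE v c hc hcap A hA hb x hx
  set n := Module.finrank ℝ E with hn
  have hnR : ((n1 + n2 + 6 : ℕ) : ℝ) ≤ n := by exact_mod_cast hE
  push_cast at hnR
  have hn1R : (0 : ℝ) ≤ n1 := Nat.cast_nonneg _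
  have hn2R : (0 : ℝ) ≤ n2 := Nat.cast_nonneg _
  have hnpos : (0 : ℝ) < n := by linarith
  have hch := cap_height (n := n) hn.symm (by omega) v hc hε hcap
  have hnc : (n : ℝ) * c ^ 2 ≤ 1 / ε := by
    have h2 : (Real.sqrt n * c) ^ 2 ≤ (Real.sqrt (1 / ε)) ^ 2 :=
      pow_le_pow_left₀ (mul_nonneg (Real.sqrt_nonneg _) hc) hch 2
    rwa [mul_pow, Real.sq_sqrt hnpos.le, Real.sq_sqrt (by positivity)] at h2
  have hn2K : 2 * K ≤ (n : ℝ) := by linarith
  -- c ^ 2 ≤ 1 / 6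
  have hc6 : c ^ 2 ≤ 1 / 6 := by
    by_contra hcon
    push Not at hcon
    have : (n : ℝ) * (1 / 6) < n * c ^ 2 := mul_lt_mul_of_pos_left hcon hnpos
    have hk : K = 3 * (1 / ε) := hKdef
    linarith
  have hc1 : c < 1 := by nlinarith
  have htR : (3 : ℝ) ≤ t := by exact_mod_cast ht
  obtain ⟨hr1, hr2, hr3, hr4⟩ := rhoc_slice ht hc hc1
  set c' : ℝ := Real.sqrt (t * c ^ 2 / (t - 2 + t * c ^ 2)) with hc'def
  have hc'0 : 0 ≤ c' := Real.sqrt_nonneg _
  have hden : (0 : ℝ) < t - 2 + t * c ^ 2 := by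
    have : (0 : ℝ) ≤ t * c ^ 2 := by positivity
    linarith
  have hc'sq : c' ^ 2 = t * c ^ 2 / (t - 2 + t * c ^ 2) :=
    Real.sq_sqrt (by positivity)
  have hc'3 : c' ^ 2 ≤ 3 * c ^ 2 := by
    rw [hc'sq, div_le_iff₀ hden]
    have h5 : 0 ≤ c ^ 2 := sq_nonneg c
    have h6 : (0 : ℝ) ≤ t * c ^ 2 := by positivity
    nlinarith [mul_nonneg h5 h6, mul_nonneg h5 (by linarith : (0 : ℝ) ≤ t - 3)]
  have hc'h : c' ^ 2 ≤ 1 / 2 := by linarith
  have hc'K : (n : ℝ) * c' ^ 2 ≤ K := by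
    calc (n : ℝ) * c' ^ 2 ≤ n * (3 * c ^ 2) := mul_le_mul_of_nonneg_left hc'3 hnpos.le
      _ = 3 * (n * c ^ 2) := by ring
      _ ≤ 3 * (1 / ε) := by linarith
  have hmm := star_of_mm hK (n := n) (by omega) hc'0 hc'K hc'h
  -- the slice
  obtain ⟨hD1, hD2⟩ := slice_bad ht hr3 hr4 hA hb hx
  rw [hr1] at hD2
  have hfr : Module.finrank ℝ (Pe x) = n - 1 := by
    apply finrank_Pe (n := n - 1)
    omega
  obtain ⟨v'⟩ := sm_nonempty (E := Pe x) (by omega)
  have hcm := cap_meas (E := Pe x) hfr (by omega) v' c'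
  have hfin := hn1 (Pe x) (by omega) v' c' hc'0 (by
    show ε' ≤ (sm (Pe x)).real {y | c' ≤ ⟪(v' : Pe x), (y : Pe x)⟫}
    rw [hcm]; exact hmm) _ hD1 hD2
  have hcm' : (sm (Pe x)).real (Cp v' c') = mm (n - 1) c' := hcm
  rw [hcm'] at hfin
  have hG : Gc n (rhoc t c) c c = mm (n - 1) c' := by
    unfold Gc
    rw [hr2]
  rw [hG]
  have hPP : PP (rhoc t c) (ind A) x = (sm (Pe x)).real {w : SS (Pe x) | pt x (rhoc t c) w ∈ A} := by
    unfold PP
    have : (fun w : SS (Pe x) => ind A (pt x (rhoc t c) w))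
        = {w : SS (Pe x) | pt x (rhoc t c) w ∈ A}.indicator (fun _ => (1 : ℝ)) := by
      funext w
      unfold ind
      by_cases hw : pt x (rhoc t c) w ∈ A
      · rw [Set.indicator_of_mem hw, Set.indicator_of_mem (by exact hw)]
      · rw [Set.indicator_of_notMem hw, Set.indicator_of_notMem (by exact hw)]
    rw [this, integral_indicator hD1.measurableSet]
    simp
  rw [hPP]
  exact hfin


end CoreW

end Pool.Agent.helper440_simplex
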