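import Pool.Agent.helper440_simplex.Spec
import Pool.Agent.helper440_simplex.CapBase
import Pool.Agent.helper440_simplex.Simp

set_option autoImplicit false
set_option linter.unusedSectionVars false

namespace Pool.Agent.helper440_simplex

open MeasureTheory Metric Set Filter Topology
open scoped RealInnerProductSpace

section CoreW
variable {E : Type*} [NormedAddCommGroup E] [InnerProductSpace ℝ E] [CompleteSpace E]
  [FiniteDimensional ℝ E] [MeasurableSpace E] [BorelSpace E]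

-- ker_est
theorem ker_est_mul {x y A B n : ℝ} (hn : 0 < n) (hx : |x| ≤ A / Real.sqrt n)
    (hy : |y| ≤ B / Real.sqrt n) : |x * y| ≤ A * B / n := by
  rw [abs_mul]
  calc |x| * |y| ≤ (A / Real.sqrt n) * (B / Real.sqrt n) :=
        mul_le_mul hx hy (abs_nonneg _) ((abs_nonneg _).trans hx)
    _ = A * B / n := by rw [div_mul_div_comm, Real.mul_self_sqrt hn.le]

theorem ker_est_log {x y : ℝ} (hx : 1 / 2 ≤ x) (hy : 1 / 2 ≤ y) :
    |Real.log x - Real.log y| ≤ 2 * |x - y| := by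
  have key : ∀ x y : ℝ, 1 / 2 ≤ x → 1 / 2 ≤ y → Real.log x - Real.log y ≤ 2 * |x - y| := by
    intro x y hx hy
    have hx0 : 0 < x := by linarith
    have hy0 : 0 < y := by linarith
    rw [← Real.log_div hx0.ne' hy0.ne']
    have h1 := Real.log_le_sub_one_of_pos (div_pos hx0 hy0)
    have h2 : x / y - 1 ≤ 2 * |x - y| := by
      rw [div_sub_one hy0.ne', div_le_iff₀ hy0]
      have := le_abs_self (x - y)
      nlinarith [abs_nonneg (x - y)]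
    linarith
  rw [abs_le]
  constructor
  · have := key y x hy hx
    rw [abs_sub_comm] at this
    linarith
  · exact key x y hx hy

theorem ker_est_exp {x y Λ : ℝ} (hx : x ≤ Λ) (hy : y ≤ Λ) :
    |Real.exp x - Real.exp y| ≤ Real.exp Λ * |x - y| := by
  have key : ∀ x y : ℝ, x ≤ Λ → Real.exp x - Real.exp y ≤ Real.exp Λ * |x - y| := by
    intro x y hx
    have h1 : Real.exp y = Real.exp x * Real.exp (y - x) := by
      rw [← Real.exp_add]; congr 1; ring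
    have h2 := Real.add_one_le_exp (y - x)
    have h3 : Real.exp x - Real.exp y ≤ Real.exp x * (x - y) := by
      rw [h1]
      nlinarith [Real.exp_pos x]
    have h4 : Real.exp x * (x - y) ≤ Real.exp x * |x - y| :=
      mul_le_mul_of_nonneg_left (le_abs_self _) (Real.exp_pos x).le
    have h5 : Real.exp x * |x - y| ≤ Real.exp Λ * |x - y| :=
      mul_le_mul_of_nonneg_right (Real.exp_le_exp.2 hx) (abs_nonneg _)
    linarith
  rw [abs_le]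
  constructor
  · have := key y x hy
    rw [abs_sub_comm] at this
    linarith
  · exact key x y hx

theorem ker_est_L {R : ℝ} (hR : 1 ≤ R) {n : ℕ} (hn6 : 6 ≤ n) (hδ : R * R / n ≤ 1 / 12) {ρ τ τ' : ℝ}
    (hρ : |ρ| ≤ 1 / 2) (hτ : |τ| ≤ R / Real.sqrt n) (hτ' : |τ'| ≤ R / Real.sqrt n) :
    kk n ρ τ τ' = (cn (n - 1) / cn n) * Real.exp (((n : ℝ) - 4) / 2 * Real.log (gr ρ τ τ')
      - ((n : ℝ) - 3) / 2 * Real.log ((1 - ρ ^ 2) * (1 - τ ^ 2) * (1 - τ' ^ 2))) ∧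
    1 / 2 ≤ gr ρ τ τ' ∧ 1 / 2 ≤ (1 - ρ ^ 2) * (1 - τ ^ 2) * (1 - τ' ^ 2) ∧
    |((n : ℝ) - 4) / 2 * Real.log (gr ρ τ τ')
      - ((n : ℝ) - 3) / 2 * Real.log ((1 - ρ ^ 2) * (1 - τ ^ 2) * (1 - τ' ^ 2))|
      ≤ 6 * R ^ 2 + 1 := by
  have hnR : (6 : ℝ) ≤ n := by exact_mod_cast hn6
  have hn0 : (0 : ℝ) < n := by linarith
  set δ : ℝ := R * R / n with hδd
  have hδ0 : 0 ≤ δ := by positivity
  have h1 : τ ^ 2 ≤ δ := by
    have := ker_est_mul hn0 hτ hτ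
    rw [sq]; exact (le_abs_self _).trans this
  have h2 : τ' ^ 2 ≤ δ := by
    have := ker_est_mul hn0 hτ' hτ'
    rw [sq]; exact (le_abs_self _).trans this
  have h3 := abs_le.1 (ker_est_mul hn0 hτ hτ')
  have hρ' := abs_le.1 hρ
  have hρ2 : ρ ^ 2 ≤ 1 / 4 := by nlinarith
  have hw : |ρ * (τ * τ')| ≤ δ / 2 := by
    rw [abs_mul]
    have := abs_le.2 h3
    calc |ρ| * |τ * τ'| ≤ 1 / 2 * δ := mul_le_mul hρ this (abs_nonneg _) (by norm_num)
      _ = δ / 2 := by ring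
  have hw' := abs_le.1 hw
  have u0 := sq_nonneg τ
  have v0 := sq_nonneg τ'
  have r0 := sq_nonneg ρ
  have g1 : 1 / 2 ≤ gr ρ τ τ' := by
    unfold gr
    linarith [hw'.1]
  have ru : ρ ^ 2 * τ ^ 2 ≤ 1 / 4 * δ := mul_le_mul hρ2 h1 u0 (by norm_num)
  have rv : ρ ^ 2 * τ' ^ 2 ≤ 1 / 4 * δ := mul_le_mul hρ2 h2 v0 (by norm_num)
  have uv : τ ^ 2 * τ' ^ 2 ≤ 1 / 12 * δ := mul_le_mul (h1.trans hδ) h2 v0 (by norm_num)
  have ruv : ρ ^ 2 * (τ ^ 2 * τ' ^ 2) ≤ 1 / 4 * (1 / 12 * δ) :=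
    mul_le_mul hρ2 uv (mul_nonneg u0 v0) (by norm_num)
  have ru0 := mul_nonneg r0 u0
  have rv0 := mul_nonneg r0 v0
  have uv0 := mul_nonneg u0 v0
  have ruv0 := mul_nonneg r0 uv0
  have hP : (1 - ρ ^ 2) * (1 - τ ^ 2) * (1 - τ' ^ 2) = 1 - ρ ^ 2 - τ ^ 2 - τ' ^ 2
      + ρ ^ 2 * τ ^ 2 + ρ ^ 2 * τ' ^ 2 + τ ^ 2 * τ' ^ 2 - ρ ^ 2 * (τ ^ 2 * τ' ^ 2) := by ring
  set P := (1 - ρ ^ 2) * (1 - τ ^ 2) * (1 - τ' ^ 2) with hPd
  have p1 : 1 / 2 ≤ P := by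
    rw [hP]; linarith
  have p2 : P ≤ 1 := by
    have q1 : (1 - ρ ^ 2) * (1 - τ ^ 2) ≤ 1 :=
      mul_le_one₀ (by linarith) (by linarith) (by linarith)
    exact mul_le_one₀ q1 (by linarith) (by linarith)
  have hgP : |gr ρ τ τ' - P| ≤ 6 * δ := by
    have : gr ρ τ τ' - P = 2 * (ρ * (τ * τ')) - ρ ^ 2 * τ ^ 2 - ρ ^ 2 * τ' ^ 2
        - τ ^ 2 * τ' ^ 2 + ρ ^ 2 * (τ ^ 2 * τ' ^ 2) := by
      rw [hP]; unfold gr; ring
    rw [this, abs_le]
    constructor <;> linarith [hw'.1, hw'.2]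
  refine ⟨?_, g1, p1, ?_⟩
  · unfold kk
    rw [← hPd, max_eq_right (by linarith : (0 : ℝ) ≤ gr ρ τ τ'),
      Real.rpow_def_of_pos (by linarith : (0 : ℝ) < gr ρ τ τ'),
      Real.rpow_def_of_pos (by linarith : (0 : ℝ) < P), mul_assoc, ← Real.exp_add]
    congr 2
    ring
  · have e1 : ((n : ℝ) - 4) / 2 * Real.log (gr ρ τ τ') - ((n : ℝ) - 3) / 2 * Real.log P
        = ((n : ℝ) - 4) / 2 * (Real.log (gr ρ τ τ') - Real.log P) - 1 / 2 * Real.log P := by ring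
    have l1 := (ker_est_log g1 p1).trans (mul_le_mul_of_nonneg_left hgP (by norm_num))
    have l2 : Real.log P ≤ 0 := Real.log_nonpos (by linarith) p2
    have l3 : -1 ≤ Real.log P := by
      have h := Real.one_sub_inv_le_log_of_pos (show 0 < P by linarith)
      have h' : P⁻¹ ≤ 2 := by
        rw [inv_le_comm₀ (by linarith) (by norm_num)]
        linarith
      linarith
    rw [e1]
    have l4 : |((n : ℝ) - 4) / 2 * (Real.log (gr ρ τ τ') - Real.log P)| ≤ 6 * R ^ 2 := by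
      rw [abs_mul, abs_of_nonneg (by linarith : (0 : ℝ) ≤ ((n : ℝ) - 4) / 2)]
      calc ((n : ℝ) - 4) / 2 * |Real.log (gr ρ τ τ') - Real.log P|
          ≤ (n : ℝ) / 2 * (2 * (6 * δ)) :=
            mul_le_mul (by linarith) l1 (abs_nonneg _) (by linarith)
        _ = 6 * R ^ 2 := by rw [hδd]; field_simp
    have l4' := abs_le.1 l4
    rw [abs_le]
    constructor <;> linarith [l4'.1, l4'.2]

theorem ker_est_cn {n : ℕ} (hn : 6 ≤ n) : 1 / 20 ≤ cn (n - 1) / cn n ∧ cn (n - 1) / cn n ≤ 10 := by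
  obtain ⟨a1, a2⟩ := cn_bounds (n := n) (by omega)
  obtain ⟨b1, b2⟩ := cn_bounds (n := n - 1) (by omega)
  have hnR : (6 : ℝ) ≤ n := by exact_mod_cast hn
  have e : ((n - 1 : ℕ) : ℝ) = (n : ℝ) - 1 := by
    rw [Nat.cast_sub (by omega)]; simp
  rw [e] at b1 b2
  have s0 : 0 < Real.sqrt n := Real.sqrt_pos.2 (by linarith)
  have s1 : Real.sqrt ((n : ℝ) - 1) ≤ Real.sqrt n := Real.sqrt_le_sqrt (by linarith)
  have s2 : Real.sqrt n / 2 ≤ Real.sqrt ((n : ℝ) - 1) := by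
    apply Real.le_sqrt_of_sq_le
    rw [div_pow, Real.sq_sqrt (by linarith)]
    linarith
  have c0 : 0 < cn n := by linarith
  constructor
  · rw [le_div_iff₀ c0]; linarith
  · rw [div_le_iff₀ c0]; linarith

theorem ker_est_diff {R a n c τ τ' : ℝ} (hn0 : 0 < n) (hc : |c| ≤ R / Real.sqrt n)
    (hτ : |τ| ≤ R / Real.sqrt n) (hτ' : |τ'| ≤ R / Real.sqrt n)
    (h1 : |τ - c| ≤ a / Real.sqrt n) (h2 : |τ' - c| ≤ a / Real.sqrt n) :
    |τ ^ 2 - c ^ 2| ≤ 2 * (R * a / n) ∧ |τ' ^ 2 - c ^ 2| ≤ 2 * (R * a / n) ∧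
      |τ * τ' - c ^ 2| ≤ 2 * (R * a / n) := by
  have eζ : 2 * R * a / n = 2 * (R * a / n) := by ring
  have hs : ∀ x : ℝ, |x| ≤ R / Real.sqrt n → |x + c| ≤ (2 * R) / Real.sqrt n := by
    intro x hx
    refine (abs_add_le _ _).trans ?_
    have : (2 * R) / Real.sqrt n = R / Real.sqrt n + R / Real.sqrt n := by ring
    linarith
  rw [← eζ]
  refine ⟨?_, ?_, ?_⟩
  · rw [show τ ^ 2 - c ^ 2 = (τ + c) * (τ - c) by ring]
    exact ker_est_mul hn0 (hs τ hτ) h1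
  · rw [show τ' ^ 2 - c ^ 2 = (τ' + c) * (τ' - c) by ring]
    exact ker_est_mul hn0 (hs τ' hτ') h2
  · have e1 := ker_est_mul hn0 hτ h2
    have e2 := ker_est_mul hn0 hc h1
    rw [show τ * τ' - c ^ 2 = τ * (τ' - c) + c * (τ - c) by ring]
    refine (abs_add_le _ _).trans ?_
    have : 2 * R * a / n = R * a / n + R * a / n := by ring
    linarith

theorem ker_est_Q {c τ τ' ζ : ℝ} (hζ : 0 ≤ ζ) (hc : c ^ 2 ≤ 1 / 4) (hτ : τ ^ 2 ≤ 1 / 4)
    (hτ' : τ' ^ 2 ≤ 1 / 4) (d1 : |τ ^ 2 - c ^ 2| ≤ 2 * ζ) (d2 : |τ' ^ 2 - c ^ 2| ≤ 2 * ζ) :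
    |(1 - τ ^ 2) * (1 - τ' ^ 2) - (1 - c ^ 2) * (1 - c ^ 2)| ≤ 4 * ζ := by
  have c20 := sq_nonneg c
  have v20 := sq_nonneg τ'
  have e : (1 - τ ^ 2) * (1 - τ' ^ 2) - (1 - c ^ 2) * (1 - c ^ 2)
      = -((τ ^ 2 - c ^ 2) * (1 - τ' ^ 2)) - (τ' ^ 2 - c ^ 2) * (1 - c ^ 2) := by ring
  have h3 : |(τ ^ 2 - c ^ 2) * (1 - τ' ^ 2)| ≤ 2 * ζ * 1 := by
    rw [abs_mul]
    refine mul_le_mul d1 ?_ (abs_nonneg _) (by linarith)
    rw [abs_le]; constructor <;> linarith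
  have h4 : |(τ' ^ 2 - c ^ 2) * (1 - c ^ 2)| ≤ 2 * ζ * 1 := by
    rw [abs_mul]
    refine mul_le_mul d2 ?_ (abs_nonneg _) (by linarith)
    rw [abs_le]; constructor <;> linarith
  have h3' := abs_le.1 h3
  have h4' := abs_le.1 h4
  rw [e, abs_le]
  constructor <;> linarith [h3'.1, h3'.2, h4'.1, h4'.2]

theorem ker_est_rr {ρ c τ τ' ζ : ℝ} (hζ : 0 ≤ ζ) (hρ : |ρ| ≤ 1 / 2) (hc : c ^ 2 ≤ 1 / 4)
    (hτ : τ ^ 2 ≤ 1 / 4) (hτ' : τ' ^ 2 ≤ 1 / 4) (d1 : |τ ^ 2 - c ^ 2| ≤ 2 * ζ)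
    (d2 : |τ' ^ 2 - c ^ 2| ≤ 2 * ζ) (d3 : |τ * τ' - c ^ 2| ≤ 2 * ζ) :
    |rr ρ τ τ' - (ρ - c ^ 2) / (1 - c ^ 2)| ≤ 40 * ζ := by
  have dQ := ker_est_Q hζ hc hτ hτ' d1 d2
  have c20 := sq_nonneg c
  have u20 := sq_nonneg τ
  have v20 := sq_nonneg τ'
  have S0 : 0 ≤ (1 - τ ^ 2) := by linarith
  have hρ1' := abs_le.1 hρ
  set S := Real.sqrt (1 - τ ^ 2) * Real.sqrt (1 - τ' ^ 2) with hS
  have hSS : S = Real.sqrt ((1 - τ ^ 2) * (1 - τ' ^ 2)) := by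
    rw [hS, Real.sqrt_mul S0]
  have hQ1 : 1 / 4 ≤ (1 - τ ^ 2) * (1 - τ' ^ 2) := by
    have : (1 / 2 : ℝ) * (1 / 2) ≤ (1 - τ ^ 2) * (1 - τ' ^ 2) :=
      mul_le_mul (by linarith) (by linarith) (by norm_num) S0
    linarith
  have hS1 : 1 / 2 ≤ S := by
    rw [hSS]
    apply Real.le_sqrt_of_sq_le
    norm_num
    linarith
  have hS2 : S * S = (1 - τ ^ 2) * (1 - τ' ^ 2) := by
    rw [hSS, Real.mul_self_sqrt (by linarith)]
  have hrr : rr ρ τ τ' = (ρ - τ * τ') / S := rfl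
  clear_value S
  have hcc : 1 / 2 ≤ 1 - c ^ 2 := by linarith
  have dS : |(1 - c ^ 2) - S| ≤ 4 * ζ := by
    have e : ((1 - c ^ 2) - S) * ((1 - c ^ 2) + S)
        = -((1 - τ ^ 2) * (1 - τ' ^ 2) - (1 - c ^ 2) * (1 - c ^ 2)) := by
      rw [← hS2]; ring
    have h3 : |(1 - c ^ 2) - S| * ((1 - c ^ 2) + S) ≤ 4 * ζ := by
      rw [← abs_of_nonneg (by linarith : 0 ≤ (1 - c ^ 2) + S), ← abs_mul, e, abs_neg]
      exact dQ
    have h4 : |(1 - c ^ 2) - S| * 1 ≤ |(1 - c ^ 2) - S| * ((1 - c ^ 2) + S) :=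
      mul_le_mul_of_nonneg_left (by linarith) (abs_nonneg _)
    linarith
  have h5 : (1 / 4 : ℝ) ≤ S * (1 - c ^ 2) := by
    have : (1 / 2 : ℝ) * (1 / 2) ≤ S * (1 - c ^ 2) :=
      mul_le_mul hS1 hcc (by norm_num) (by linarith)
    linarith
  have hS0 : S ≠ 0 := by linarith
  have hc0' : 1 - c ^ 2 ≠ 0 := by linarith
  have e : rr ρ τ τ' - (ρ - c ^ 2) / (1 - c ^ 2) = ((c ^ 2 - τ * τ') * (1 - c ^ 2)
      + (ρ - c ^ 2) * ((1 - c ^ 2) - S)) / (S * (1 - c ^ 2)) := by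
    rw [hrr, div_sub_div _ _ hS0 hc0']
    congr 1
    ring
  rw [e, abs_div, abs_of_nonneg (by linarith : 0 ≤ S * (1 - c ^ 2)),
    div_le_iff₀ (by linarith)]
  have h3 : |(c ^ 2 - τ * τ') * (1 - c ^ 2)| ≤ 2 * ζ * 1 := by
    rw [abs_mul]
    refine mul_le_mul ?_ ?_ (abs_nonneg _) (by linarith)
    · rw [abs_sub_comm]; exact d3
    · rw [abs_le]; constructor <;> linarith
  have h4 : |(ρ - c ^ 2) * ((1 - c ^ 2) - S)| ≤ 2 * (4 * ζ) := by
    rw [abs_mul]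
    refine mul_le_mul ?_ dS (abs_nonneg _) (by norm_num)
    rw [abs_le]; constructor <;> linarith [hρ1'.1, hρ1'.2]
  refine (abs_add_le _ _).trans ?_
  have h6 : 40 * ζ * (1 / 4) ≤ 40 * ζ * (S * (1 - c ^ 2)) :=
    mul_le_mul_of_nonneg_left h5 (by linarith)
  linarith

theorem ker_est_g {ρ c τ τ' ζ : ℝ} (hρ : |ρ| ≤ 1 / 2) (d1 : |τ ^ 2 - c ^ 2| ≤ 2 * ζ)
    (d2 : |τ' ^ 2 - c ^ 2| ≤ 2 * ζ) (d3 : |τ * τ' - c ^ 2| ≤ 2 * ζ) :
    |gr ρ τ τ' - gr ρ c c| ≤ 8 * ζ := by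
  have e : gr ρ τ τ' - gr ρ c c = -(τ ^ 2 - c ^ 2) - (τ' ^ 2 - c ^ 2)
      + 2 * (ρ * (τ * τ' - c ^ 2)) := by unfold gr; ring
  have h3 : |ρ * (τ * τ' - c ^ 2)| ≤ 1 / 2 * (2 * ζ) := by
    rw [abs_mul]
    exact mul_le_mul hρ d3 (abs_nonneg _) (by norm_num)
  have h3' := abs_le.1 h3
  have d1' := abs_le.1 d1
  have d2' := abs_le.1 d2
  rw [e, abs_le]
  constructor <;> linarith [h3'.1, h3'.2, d1'.1, d1'.2, d2'.1, d2'.2]

theorem ker_est_kkd {R : ℝ} (hR : 1 ≤ R) {n : ℕ} (hn6 : 6 ≤ n) (hδ : R * R / n ≤ 1 / 12)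
    {ρ c a τ τ' : ℝ} (hρ : |ρ| ≤ 1 / 2) (hc : |c| ≤ R / Real.sqrt n)
    (hτ : |τ| ≤ R / Real.sqrt n) (hτ' : |τ'| ≤ R / Real.sqrt n)
    (h1 : |τ - c| ≤ a / Real.sqrt n) (h2 : |τ' - c| ≤ a / Real.sqrt n) (ha : 0 ≤ a) :
    Real.exp (-(6 * R ^ 2 + 1)) / 20 ≤ kk n ρ τ τ' ∧
    kk n ρ τ τ' ≤ 10 * Real.exp (6 * R ^ 2 + 1) ∧
    |kk n ρ τ τ' - kk n ρ c c| ≤ 120 * R * Real.exp (6 * R ^ 2 + 1) * a := by
  have hn6' : (6 : ℝ) ≤ n := by exact_mod_cast hn6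
  have hn0 : (0 : ℝ) < n := by linarith
  obtain ⟨k1, g1, p1, L1⟩ := ker_est_L hR hn6 hδ hρ hτ hτ'
  obtain ⟨k2, g2, p2, L2⟩ := ker_est_L hR hn6 hδ hρ hc hc
  obtain ⟨q1, q2⟩ := ker_est_cn hn6
  obtain ⟨d1, d2, d3⟩ := ker_est_diff hn0 hc hτ hτ' h1 h2
  have c2 : c ^ 2 ≤ R * R / n := by
    have := ker_est_mul hn0 hc hc
    rw [sq]; exact (le_abs_self _).trans this
  have u2 : τ ^ 2 ≤ R * R / n := by
    have := ker_est_mul hn0 hτ hτ
    rw [sq]; exact (le_abs_self _).trans this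
  have v2 : τ' ^ 2 ≤ R * R / n := by
    have := ker_est_mul hn0 hτ' hτ'
    rw [sq]; exact (le_abs_self _).trans this
  set ζ := R * a / n with hζ
  have hζ0 : 0 ≤ ζ := by positivity
  have nζ : (n : ℝ) * ζ = R * a := by rw [hζ]; field_simp
  clear_value ζ
  have dg := ker_est_g hρ d1 d2 d3
  have dQ := ker_est_Q hζ0 (by linarith) (by linarith) (by linarith) d1 d2
  have hρ1' := abs_le.1 hρ
  have hρρ : ρ ^ 2 ≤ 1 / 4 := by nlinarith
  have hρρ0 := sq_nonneg ρ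
  set P := (1 - ρ ^ 2) * (1 - τ ^ 2) * (1 - τ' ^ 2) with hP
  set Pc := (1 - ρ ^ 2) * (1 - c ^ 2) * (1 - c ^ 2) with hPc
  have dP : |P - Pc| ≤ 4 * ζ := by
    have e : P - Pc = (1 - ρ ^ 2) * ((1 - τ ^ 2) * (1 - τ' ^ 2) - (1 - c ^ 2) * (1 - c ^ 2)) := by
      rw [hP, hPc]; ring
    rw [e, abs_mul]
    have : |1 - ρ ^ 2| ≤ 1 := by rw [abs_le]; constructor <;> linarith
    calc |1 - ρ ^ 2| * |(1 - τ ^ 2) * (1 - τ' ^ 2) - (1 - c ^ 2) * (1 - c ^ 2)|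
        ≤ 1 * (4 * ζ) := mul_le_mul this dQ (abs_nonneg _) (by norm_num)
      _ = 4 * ζ := by ring
  clear_value P Pc
  set L := ((n : ℝ) - 4) / 2 * Real.log (gr ρ τ τ') - ((n : ℝ) - 3) / 2 * Real.log P with hL
  set Lc := ((n : ℝ) - 4) / 2 * Real.log (gr ρ c c) - ((n : ℝ) - 3) / 2 * Real.log Pc with hLc
  have lg := (ker_est_log g1 g2).trans (mul_le_mul_of_nonneg_left dg (by norm_num))
  have lP := (ker_est_log p1 p2).trans (mul_le_mul_of_nonneg_left dP (by norm_num))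
  have dL : |L - Lc| ≤ 12 * R * a := by
    have e : L - Lc = ((n : ℝ) - 4) / 2 * (Real.log (gr ρ τ τ') - Real.log (gr ρ c c))
        - ((n : ℝ) - 3) / 2 * (Real.log P - Real.log Pc) := by rw [hL, hLc]; ring
    have h3 : |((n : ℝ) - 4) / 2 * (Real.log (gr ρ τ τ') - Real.log (gr ρ c c))| ≤ 8 * R * a := by
      rw [abs_mul, abs_of_nonneg (by linarith : (0 : ℝ) ≤ ((n : ℝ) - 4) / 2)]
      calc _ ≤ (n : ℝ) / 2 * (2 * (8 * ζ)) :=
            mul_le_mul (by linarith) lg (abs_nonneg _) (by linarith)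
        _ = 8 * (n * ζ) := by ring
        _ = 8 * R * a := by rw [nζ]; ring
    have h4 : |((n : ℝ) - 3) / 2 * (Real.log P - Real.log Pc)| ≤ 4 * R * a := by
      rw [abs_mul, abs_of_nonneg (by linarith : (0 : ℝ) ≤ ((n : ℝ) - 3) / 2)]
      calc _ ≤ (n : ℝ) / 2 * (2 * (4 * ζ)) :=
            mul_le_mul (by linarith) lP (abs_nonneg _) (by linarith)
        _ = 4 * (n * ζ) := by ring
        _ = 4 * R * a := by rw [nζ]; ring
    have h3' := abs_le.1 h3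
    have h4' := abs_le.1 h4
    rw [e, abs_le]
    constructor <;> linarith [h3'.1, h3'.2, h4'.1, h4'.2]
  clear_value L Lc
  set q := cn (n - 1) / cn n with hq
  clear_value q
  set Λ := 6 * R ^ 2 + 1 with hΛ
  clear_value Λ
  have L1' := abs_le.1 L1
  have L2' := abs_le.1 L2
  have eL1 : Real.exp (-Λ) ≤ Real.exp L := Real.exp_le_exp.2 L1'.1
  have eL2 : Real.exp L ≤ Real.exp Λ := Real.exp_le_exp.2 L1'.2
  refine ⟨?_, ?_, ?_⟩
  · rw [k1]
    have : 1 / 20 * Real.exp (-Λ) ≤ q * Real.exp L :=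
      mul_le_mul q1 eL1 (Real.exp_pos _).le (by linarith)
    linarith
  · rw [k1]
    exact mul_le_mul q2 eL2 (Real.exp_pos _).le (by norm_num)
  · rw [k1, k2, ← mul_sub, abs_mul, abs_of_nonneg (by linarith : 0 ≤ q)]
    have h3 := ker_est_exp L1'.2 L2'.2
    calc q * |Real.exp L - Real.exp Lc| ≤ 10 * (Real.exp Λ * (12 * R * a)) :=
          mul_le_mul q2 (h3.trans (mul_le_mul_of_nonneg_left dL (Real.exp_pos _).le))
            (abs_nonneg _) (by norm_num)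
      _ = 120 * R * Real.exp Λ * a := by ring

theorem ker_est_rho {t : ℕ} (ht : 3 ≤ t) {c : ℝ} (htc : (t : ℝ) * c ^ 2 ≤ 1 / 2) :
    |rhoc t c| ≤ 1 / 2 ∧ 1 / (2 * (t - 1 : ℝ)) ≤ |rhoc t c| ∧
      (rhoc t c - c ^ 2) / (1 - c ^ 2) = -(1 / (t - 1)) := by
  have ht' : (3 : ℝ) ≤ t := by exact_mod_cast ht
  have ht1 : (0 : ℝ) < t - 1 := by linarith
  have htc0 : 0 ≤ (t : ℝ) * c ^ 2 := by positivity
  have hc2 : c ^ 2 ≤ 1 / 2 := by nlinarith [sq_nonneg c]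
  have hρe : rhoc t c = -((1 - t * c ^ 2) / (t - 1)) := by
    rw [rhoc, ← neg_div]; congr 1; ring
  have hρa : |rhoc t c| = (1 - t * c ^ 2) / (t - 1) := by
    rw [hρe, abs_neg, abs_of_nonneg (div_nonneg (by linarith) ht1.le)]
  refine ⟨?_, ?_, ?_⟩
  · rw [hρa, div_le_iff₀ ht1]; linarith
  · rw [hρa, div_le_div_iff₀ (by linarith) ht1]
    nlinarith
  · have h1 : (1 : ℝ) - c ^ 2 ≠ 0 := by linarith
    rw [hρe, div_eq_iff h1]
    field_simp
    ring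

theorem ker_est_core {t : ℕ} (ht : 3 ≤ t) {R : ℝ} (hR : 1 ≤ R) {n : ℕ} (hn6 : 6 ≤ n)
    (hnR : 8000 * (t : ℝ) ^ 2 * R ^ 2 ≤ n) {c a τ τ' : ℝ}
    (hc : |c| ≤ R / Real.sqrt n) (hτ : |τ| ≤ R / Real.sqrt n) (hτ' : |τ'| ≤ R / Real.sqrt n)
    (h1 : |τ - c| ≤ a / Real.sqrt n) (h2 : |τ' - c| ≤ a / Real.sqrt n) (ha : 0 ≤ a)
    (ha4 : a ≤ 4 * t) :
    Real.exp (-(6 * R ^ 2 + 1)) / 20 ≤ kk n (rhoc t c) τ τ' ∧
    kk n (rhoc t c) τ τ' ≤ 10 * Real.exp (6 * R ^ 2 + 1) ∧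
    |kk n (rhoc t c) τ τ' - kk n (rhoc t c) c c| ≤ 120 * R * Real.exp (6 * R ^ 2 + 1) * a ∧
    |rr (rhoc t c) τ τ' + 1 / (t - 1)| ≤ 40 * (R * a / n) ∧ |rr (rhoc t c) τ τ'| ≤ 13 / 25 ∧
    1 / (2 * (t - 1 : ℝ)) ≤ |rr (rhoc t c) τ τ'| ∧ |τ| ≤ 1 / 2 ∧
    |rhoc t c| ≤ 13 / 25 ∧ 1 / (2 * (t - 1 : ℝ)) ≤ |rhoc t c| := by
  have hn6' : (6 : ℝ) ≤ n := by exact_mod_cast hn6
  have hn0 : (0 : ℝ) < n := by linarith
  have ht' : (3 : ℝ) ≤ t := by exact_mod_cast ht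
  have ht1 : (0 : ℝ) < t - 1 := by linarith
  have htt : (9 : ℝ) ≤ (t : ℝ) ^ 2 := by nlinarith
  set δ : ℝ := R * R / n with hδd
  have hδt : 8000 * (t : ℝ) ^ 2 * δ ≤ 1 := by
    rw [hδd, ← sq, ← mul_div_assoc, div_le_one hn0]
    exact hnR
  have hδ0 : 0 ≤ δ := by positivity
  have hδ1 : δ ≤ 1 / 72000 := by
    have := mul_le_mul_of_nonneg_right htt hδ0
    linarith
  have hδtt : (t : ℝ) ^ 2 * δ ≤ 1 / 8000 := by linarith
  have hδt1 : (t : ℝ) * δ ≤ (t : ℝ) ^ 2 * δ := mul_le_mul_of_nonneg_right (by nlinarith) hδ0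
  have c2 : c ^ 2 ≤ δ := by
    have := ker_est_mul hn0 hc hc
    rw [sq]; exact (le_abs_self _).trans this
  have u2 : τ ^ 2 ≤ δ := by
    have := ker_est_mul hn0 hτ hτ
    rw [sq]; exact (le_abs_self _).trans this
  have v2 : τ' ^ 2 ≤ δ := by
    have := ker_est_mul hn0 hτ' hτ'
    rw [sq]; exact (le_abs_self _).trans this
  have htc : (t : ℝ) * c ^ 2 ≤ 1 / 2 := by
    have := mul_le_mul_of_nonneg_left c2 (by linarith : (0 : ℝ) ≤ t)
    linarith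
  obtain ⟨hρ1, hρ2, rc⟩ := ker_est_rho ht htc
  obtain ⟨k1, k2, k3⟩ := ker_est_kkd hR hn6 (by linarith : R * R / n ≤ 1 / 12) hρ1 hc hτ hτ'
    h1 h2 ha
  obtain ⟨d1, d2, d3⟩ := ker_est_diff hn0 hc hτ hτ' h1 h2
  set ζ := R * a / n with hζ
  have hζ0 : 0 ≤ ζ := by positivity
  have dr := ker_est_rr hζ0 hρ1 (by linarith) (by linarith) (by linarith) d1 d2 d3
  rw [rc, sub_neg_eq_add] at dr
  have h3 : ζ ≤ 4 * (t * δ) := by
    have h4 : 4 * (t * δ) = 4 * t * (R * R) / n := by rw [hδd]; ring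
    rw [h4, hζ]
    gcongr ?_ / _
    have hRR : R ≤ R * R := by nlinarith
    have : R * a ≤ (R * R) * (4 * t) := mul_le_mul hRR ha4 ha (by linarith)
    linarith
  clear_value ζ δ
  have ζb : 40 * ζ ≤ 1 / 50 := by linarith
  have ζb2 : 40 * ζ ≤ 1 / (2 * (t - 1 : ℝ)) := by
    rw [le_div_iff₀ (by linarith)]
    have h5 : 40 * ζ * (2 * ((t : ℝ) - 1)) ≤ 40 * (4 * (t * δ)) * (2 * t) :=
      mul_le_mul (by linarith) (by linarith) (by linarith) (by positivity)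
    have h6 : 40 * (4 * (t * δ)) * (2 * t) = 320 * (t ^ 2 * δ) := by ring
    linarith
  have dr' := abs_le.1 dr
  have ht2 : (1 : ℝ) / (t - 1) ≤ 1 / 2 := by
    rw [div_le_div_iff₀ ht1 (by norm_num)]; linarith
  have ht3 : (0 : ℝ) < 1 / (t - 1) := by positivity
  have ht4 : (1 : ℝ) / (t - 1) = 2 * (1 / (2 * (t - 1))) := by field_simp
  refine ⟨k1, k2, k3, dr, ?_, ?_, ?_, ?_, hρ2⟩
  · rw [abs_le]
    constructor <;> linarith [dr'.1, dr'.2]
  · have h4 : -(rr (rhoc t c) τ τ') ≤ |rr (rhoc t c) τ τ'| := neg_le_abs _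
    linarith [dr'.2]
  · exact abs_le_of_sq_le_sq (by norm_num; linarith) (by norm_num)
  · linarith

theorem ker_est (t : ℕ) (ht : 3 ≤ t) {Hm : ℝ} (hH : 0 ≤ Hm) :
    ∃ C : ℝ, 1 ≤ C ∧ ∃ n0 : ℕ, 6 ≤ n0 ∧ ∀ n : ℕ, n0 ≤ n → ∀ c : ℝ, 0 ≤ c → Real.sqrt n * c ≤ Hm →
    ∀ a : ℝ, 0 ≤ a → a ≤ 4 * t → ∀ τ τ' : ℝ, |τ - c| ≤ a / Real.sqrt n →
    |τ' - c| ≤ a / Real.sqrt n → 1 / C ≤ kk n (rhoc t c) τ τ' ∧ kk n (rhoc t c) τ τ' ≤ C ∧
    |kk n (rhoc t c) τ τ' - kk n (rhoc t c) c c| ≤ C * a ∧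
    |rr (rhoc t c) τ τ' + 1 / (t - 1)| ≤ C * a / n ∧ |rr (rhoc t c) τ τ'| ≤ 13 / 25 ∧
    1 / (2 * (t - 1 : ℝ)) ≤ |rr (rhoc t c) τ τ'| ∧ Real.sqrt n / C ≤ om n τ ∧ |τ| ≤ 1 / 2 ∧
    |rhoc t c| ≤ 13 / 25 ∧ 1 / (2 * (t - 1 : ℝ)) ≤ |rhoc t c| := by
  set R : ℝ := Hm + 4 * t with hRd
  have ht' : (3 : ℝ) ≤ t := by exact_mod_cast ht
  have hR : 1 ≤ R := by rw [hRd]; linarith
  obtain ⟨n1, hn1, hwin⟩ := om_window (R := R) (by linarith)
  set Λ := 6 * R ^ 2 + 1 with hΛ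
  have hR2 : 1 ≤ R ^ 2 := by nlinarith
  have hΛ0 : 0 ≤ Λ := by rw [hΛ]; linarith
  have eΛ : 1 ≤ Real.exp Λ := Real.one_le_exp hΛ0
  have hC1 : 1 ≤ 200 * R * Real.exp Λ := by nlinarith
  have hC20 : 20 * Real.exp Λ ≤ 200 * R * Real.exp Λ := by nlinarith
  refine ⟨200 * R * Real.exp Λ, hC1, max (max 6 n1) (⌈8000 * (t : ℝ) ^ 2 * R ^ 2⌉₊), ?_, ?_⟩
  · exact (le_max_left _ _).trans (le_max_left _ _)
  intro n hn c hc0 hc a ha ha4 τ τ' h1 h2
  have hn6 : 6 ≤ n := ((le_max_left _ _).trans (le_max_left _ _)).trans hn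
  have hnn1 : n1 ≤ n := ((le_max_right _ _).trans (le_max_left _ _)).trans hn
  have hnR : 8000 * (t : ℝ) ^ 2 * R ^ 2 ≤ n :=
    (Nat.le_ceil _).trans (by exact_mod_cast (le_max_right _ _).trans hn)
  have hn6' : (6 : ℝ) ≤ n := by exact_mod_cast hn6
  have s0 : 0 < Real.sqrt n := Real.sqrt_pos.2 (by linarith)
  have hcH : c ≤ Hm / Real.sqrt n := by
    rw [le_div_iff₀ s0]; linarith
  have hcR : |c| ≤ R / Real.sqrt n := by
    rw [abs_of_nonneg hc0]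
    refine hcH.trans ?_
    gcongr
    rw [hRd]; linarith
  have haux : ∀ x : ℝ, |x - c| ≤ a / Real.sqrt n → |x| ≤ R / Real.sqrt n := by
    intro x hx
    have e : x = (x - c) + c := by ring
    rw [e]
    refine (abs_add_le _ _).trans ?_
    rw [abs_of_nonneg hc0]
    have h3 : a / Real.sqrt n ≤ 4 * t / Real.sqrt n := by gcongr
    have h4 : R / Real.sqrt n = Hm / Real.sqrt n + 4 * t / Real.sqrt n := by
      rw [hRd]; ring
    linarith
  obtain ⟨k1, k2, k3, k4, k5, k6, k7, k8, k9⟩ := ker_est_core ht hR hn6 hnR hcR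
    (haux τ h1) (haux τ' h2) h1 h2 ha ha4
  refine ⟨?_, ?_, ?_, ?_, k5, k6, ?_, k7, k8, k9⟩
  · refine le_trans ?_ k1
    rw [Real.exp_neg, div_le_iff₀ (by positivity), inv_eq_one_div, div_div, one_div_mul_eq_div,
      le_div_iff₀ (by positivity)]
    linarith
  · refine k2.trans ?_
    nlinarith
  · refine k3.trans ?_
    have : 0 ≤ R * Real.exp Λ * a := by positivity
    nlinarith
  · refine k4.trans ?_
    rw [← mul_div_assoc]
    gcongr ?_ / _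
    have h5 : R * a ≤ R * a * Real.exp Λ := le_mul_of_one_le_right (by positivity) eΛ
    have h6 : 0 ≤ R * a := by positivity
    nlinarith
  · have h5 := hwin n hnn1 τ (haux τ h1)
    refine le_trans ?_ h5
    rw [div_le_iff₀ (by positivity)]
    have h6 : Real.exp (-R ^ 2) * Real.exp Λ = Real.exp (-R ^ 2 + Λ) := (Real.exp_add _ _).symm
    have h7 : 1 ≤ Real.exp (-R ^ 2 + Λ) := Real.one_le_exp (by rw [hΛ]; linarith)
    have h8 : Real.sqrt n * (Real.exp (-R ^ 2) / 10) * (200 * R * Real.exp Λ)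
        = 20 * (R * (Real.exp (-R ^ 2) * Real.exp Λ)) * Real.sqrt n := by ring
    rw [h8, h6]
    have h9 : 1 ≤ 20 * (R * Real.exp (-R ^ 2 + Λ)) := by
      have := one_le_mul_of_one_le_of_one_le hR h7
      linarith
    exact le_mul_of_one_le_left s0.le h9

-- gc_deriv
theorem gc_deriv_mm {m : ℕ} (hm : 4 ≤ m) (b : ℝ) : HasDerivAt (mm m) (-(om m b)) b := by
  obtain ⟨-, hcont, -, -, -, -, hint, -, -, -⟩ := om_basic hm
  have h1 : ∀ x : ℝ, mm m x = (∫ s, om m s) - ((∫ s in Iic b, om m s) + ∫ s in b..x, om m s) := by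
    intro x
    unfold mm
    rw [integral_Ici_eq_integral_Ioi]
    have e1 := intervalIntegral.integral_Iic_add_Ioi (b := x) (f := om m) (μ := volume)
      hint.integrableOn hint.integrableOn
    have e2 := intervalIntegral.integral_Iic_sub_Iic (a := b) (b := x) (f := om m) (μ := volume)
      hint.integrableOn hint.integrableOn
    linarith
  have h2 : HasDerivAt (fun x => ∫ s in b..x, om m s) (om m b) b :=
    intervalIntegral.integral_hasDerivAt_right (hcont.intervalIntegrable _ _)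
      (hcont.stronglyMeasurableAtFilter _ _) hcont.continuousAt
  have h3 : mm m = fun x => (∫ s, om m s) - ((∫ s in Iic b, om m s) + ∫ s in b..x, om m s) :=
    funext h1
  rw [h3]
  exact (h2.const_add _).const_sub _

theorem gc_deriv_lt {x : ℝ} (hx : |x| < 1) : 0 < 1 - x ^ 2 := by
  have := (sq_lt_one_iff_abs_lt_one x).mpr hx
  linarith

theorem gc_deriv_xi {ρ c τ : ℝ} (hρ : |ρ| < 1) (hτ : |τ| < 1) :
    HasDerivAt (fun x => (c - ρ * x) / (Real.sqrt (1 - ρ ^ 2) * Real.sqrt (1 - x ^ 2)))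
      ((c * τ - ρ) / (1 - τ ^ 2) / (Real.sqrt (1 - ρ ^ 2) * Real.sqrt (1 - τ ^ 2))) τ := by
  have hρ' := gc_deriv_lt hρ
  have hτ' := gc_deriv_lt hτ
  have hS : 0 < Real.sqrt (1 - ρ ^ 2) := Real.sqrt_pos.mpr hρ'
  have hT : 0 < Real.sqrt (1 - τ ^ 2) := Real.sqrt_pos.mpr hτ'
  have hT2 : Real.sqrt (1 - τ ^ 2) ^ 2 = 1 - τ ^ 2 := Real.sq_sqrt hτ'.le
  have d1 : HasDerivAt (fun x : ℝ => c - ρ * x) (-(ρ * 1)) τ :=
    ((hasDerivAt_id τ).const_mul ρ).const_sub c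
  have d2 : HasDerivAt (fun x : ℝ => 1 - x ^ 2) (-(2 * τ)) τ := by
    have := (hasDerivAt_pow 2 τ).const_sub 1
    simpa using this
  have d3 := (d2.sqrt hτ'.ne').const_mul (Real.sqrt (1 - ρ ^ 2))
  have d4 := d1.div d3 (mul_pos hS hT).ne'
  refine HasDerivAt.congr_deriv d4 ?_
  set T := Real.sqrt (1 - τ ^ 2) with hTd
  set S := Real.sqrt (1 - ρ ^ 2) with hSd
  rw [← hT2]
  field_simp
  linear_combination (-ρ) * hT2

theorem gc_deriv_val {n : ℕ} (hn : 6 ≤ n) {ρ c τ : ℝ} (hρ : |ρ| < 1) (hc : |c| < 1) (hτ : |τ| < 1) :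
    om (n - 1) ((c - ρ * τ) / (Real.sqrt (1 - ρ ^ 2) * Real.sqrt (1 - τ ^ 2))) /
      (Real.sqrt (1 - ρ ^ 2) * Real.sqrt (1 - τ ^ 2)) = kk n ρ τ c * om n c := by
  have hρ' := gc_deriv_lt hρ
  have hτ' := gc_deriv_lt hτ
  have hc' := gc_deriv_lt hc
  have hcn : 0 < cn n := (om_basic (by omega : 4 ≤ n)).1
  have hD : 0 < (1 - ρ ^ 2) * (1 - τ ^ 2) := mul_pos hρ' hτ'
  have hsq : Real.sqrt (1 - ρ ^ 2) * Real.sqrt (1 - τ ^ 2)
      = Real.sqrt ((1 - ρ ^ 2) * (1 - τ ^ 2)) := (Real.sqrt_mul hρ'.le _).symm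
  have hbs : bs ((c - ρ * τ) / (Real.sqrt (1 - ρ ^ 2) * Real.sqrt (1 - τ ^ 2)))
      = max 0 (gr ρ τ c) / ((1 - ρ ^ 2) * (1 - τ ^ 2)) := by
    unfold bs gr
    rw [hsq, div_pow, Real.sq_sqrt hD.le]
    have e : 1 - (c - ρ * τ) ^ 2 / ((1 - ρ ^ 2) * (1 - τ ^ 2))
        = (1 - τ ^ 2 - c ^ 2 - ρ ^ 2 + 2 * ρ * τ * c) / ((1 - ρ ^ 2) * (1 - τ ^ 2)) := by
      rw [eq_div_iff hD.ne', sub_mul, div_mul_cancel₀ _ hD.ne']
      ring
    rw [e, ← max_div_div_right hD.le, zero_div]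
  have hcast : (((n - 1 : ℕ) : ℝ) - 3) / 2 = ((n : ℝ) - 4) / 2 := by
    rw [Nat.cast_sub (by omega : 1 ≤ n)]
    push_cast
    ring
  have hbc : bs c = 1 - c ^ 2 := max_eq_right hc'.le
  unfold om kk
  rw [hbs, hbc, hcast, hsq, Real.sqrt_eq_rpow, Real.div_rpow (le_max_left _ _) hD.le,
    Real.mul_rpow hD.le hc'.le]
  have e1 : ((1 - ρ ^ 2) * (1 - τ ^ 2)) ^ (-(((n : ℝ) - 3) / 2))
      = (((1 - ρ ^ 2) * (1 - τ ^ 2)) ^ (((n : ℝ) - 4) / 2))⁻¹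
        * (((1 - ρ ^ 2) * (1 - τ ^ 2)) ^ ((1 : ℝ) / 2))⁻¹ := by
    rw [← Real.rpow_neg hD.le, ← Real.rpow_neg hD.le, ← Real.rpow_add hD]
    congr 1
    ring
  have e2 : (1 - c ^ 2) ^ (-(((n : ℝ) - 3) / 2)) = ((1 - c ^ 2) ^ (((n : ℝ) - 3) / 2))⁻¹ :=
    Real.rpow_neg hc'.le _
  rw [e1, e2]
  have p1 : ((1 - ρ ^ 2) * (1 - τ ^ 2)) ^ (((n : ℝ) - 4) / 2) ≠ 0 := (Real.rpow_pos_of_pos hD _).ne'
  have p2 : ((1 - ρ ^ 2) * (1 - τ ^ 2)) ^ ((1 : ℝ) / 2) ≠ 0 := (Real.rpow_pos_of_pos hD _).ne'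
  have p3 : (1 - c ^ 2) ^ (((n : ℝ) - 3) / 2) ≠ 0 := (Real.rpow_pos_of_pos hc' _).ne'
  field_simp

theorem gc_deriv {n : ℕ} (hn : 6 ≤ n) {ρ c τ : ℝ} (hρ : |ρ| < 1) (hc : |c| < 1) (hτ : |τ| < 1) :
    HasDerivAt (Gc n ρ c) (-(kk n ρ τ c * om n c * (c * τ - ρ) / (1 - τ ^ 2))) τ := by
  have h1 := gc_deriv_mm (m := n - 1) (by omega)
    ((c - ρ * τ) / (Real.sqrt (1 - ρ ^ 2) * Real.sqrt (1 - τ ^ 2)))
  have h2 := gc_deriv_xi (c := c) hρ hτ
  have h3 := h1.comp τ h2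
  have h4 := gc_deriv_val hn hρ hc hτ
  have e : Gc n ρ c = mm (n - 1) ∘
      fun x => (c - ρ * x) / (Real.sqrt (1 - ρ ^ 2) * Real.sqrt (1 - x ^ 2)) := rfl
  rw [e]
  refine HasDerivAt.congr_deriv h3 ?_
  rw [← h4]
  ring

-- gc_est1
theorem gc_est1_sq {x : ℝ} (hx : |x| < 1) : 0 < 1 - x ^ 2 := by
  nlinarith [sq_abs x, abs_nonneg x]

theorem gc_est1_kk_nonneg {n : ℕ} (hn : 6 ≤ n) {ρ τ c : ℝ} (hρ : |ρ| < 1) (hc : |c| < 1)
    (hτ : |τ| < 1) : 0 ≤ kk n ρ τ c := by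
  have h1 := (om_basic (n := n) (by omega)).1
  have h2 := (om_basic (n := n - 1) (by omega)).1
  have e1 : 0 ≤ 1 - ρ ^ 2 := by nlinarith [sq_abs ρ, abs_nonneg ρ]
  have e2 : 0 ≤ 1 - τ ^ 2 := by nlinarith [sq_abs τ, abs_nonneg τ]
  have e3 : 0 ≤ 1 - c ^ 2 := by nlinarith [sq_abs c, abs_nonneg c]
  unfold kk
  refine mul_nonneg (mul_nonneg (div_nonneg h2.le h1.le) (Real.rpow_nonneg (le_max_left _ _) _))
    (Real.rpow_nonneg (mul_nonneg (mul_nonneg e1 e2) e3) _)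

theorem gc_est1 (t : ℕ) (ht : 3 ≤ t) {Hm : ℝ} (hH : 0 ≤ Hm) :
    ∃ C : ℝ, 1 ≤ C ∧ ∃ n0 : ℕ, 6 ≤ n0 ∧ ∀ n : ℕ, n0 ≤ n → ∀ c : ℝ, 0 ≤ c → Real.sqrt n * c ≤ Hm →
    ∀ τ : ℝ, -1 < τ → τ ≤ c →
    min (Real.sqrt n * (c - τ)) 1 / C ≤ Gc n (rhoc t c) c τ - Gc n (rhoc t c) c c := by
  obtain ⟨C0, hC0, n0, hn0, hker⟩ := ker_est t ht hH
  have htr : (3 : ℝ) ≤ t := by exact_mod_cast ht
  have hT : (2 : ℝ) ≤ (t : ℝ) - 1 := by linarith
  obtain ⟨n1, hn1⟩ := exists_nat_gt ((4 * ((t : ℝ) - 1) * (Hm + 1)) ^ 2)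
  have hC1 : (1 : ℝ) ≤ 4 * ((t : ℝ) - 1) * C0 ^ 2 := by nlinarith [sq_nonneg (C0 - 1)]
  refine ⟨4 * ((t : ℝ) - 1) * C0 ^ 2, hC1, max n0 n1, le_trans hn0 (le_max_left _ _), ?_⟩
  intro n hn c hc hcH τ hτ1 hτc
  have hnn0 : n0 ≤ n := le_trans (le_max_left _ _) hn
  have hnn1 : n1 ≤ n := le_trans (le_max_right _ _) hn
  have h6 : 6 ≤ n := le_trans hn0 hnn0
  have h6r : (6 : ℝ) ≤ n := by exact_mod_cast h6
  have hs2 : Real.sqrt n ^ 2 = n := Real.sq_sqrt (by positivity)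
  have hs0 : 0 ≤ Real.sqrt n := Real.sqrt_nonneg _
  have hs1 : (2 : ℝ) < Real.sqrt n := by nlinarith
  have hsp : 0 < Real.sqrt n := by linarith
  have hbig : 4 * ((t : ℝ) - 1) * (Hm + 1) ≤ Real.sqrt n := by
    apply Real.le_sqrt_of_sq_le
    have : (n1 : ℝ) ≤ n := by exact_mod_cast hnn1
    linarith
  -- c small
  have hcs : 4 * ((t : ℝ) - 1) * c ≤ 1 := by
    by_contra hcon
    push Not at hcon
    have hcp : 0 < c := by
      rcases hc.eq_or_lt with h | h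
      · rw [← h] at hcon; norm_num at hcon
      · exact h
    have : Real.sqrt n * c ≥ 4 * ((t : ℝ) - 1) * (Hm + 1) * c := by nlinarith
    nlinarith
  have hc8 : c ≤ 1 / 8 := by nlinarith
  have hcabs : |c| < 1 := by rw [abs_of_nonneg hc]; linarith
  have hinv : 0 < 1 / Real.sqrt n := by positivity
  have hinv2 : 1 / Real.sqrt n < 1 / 2 := by
    rw [div_lt_div_iff₀ hsp (by norm_num)]; linarith
  have ha1 : (1 : ℝ) ≤ 4 * t := by linarith
  -- constants at c c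
  have hcc := hker n hnn0 c hc hcH 1 zero_le_one ha1 c c (by simp) (by simp)
  obtain ⟨-, -, -, -, -, -, homc, -, hρ1, hρ2⟩ := hcc
  set ρ := rhoc t c with hρdef
  have hρneg : ρ ≤ 0 := by
    rw [hρdef]; unfold rhoc
    apply div_nonpos_of_nonpos_of_nonneg _ (by linarith)
    nlinarith
  have hρabs : |ρ| < 1 := by linarith
  have hρ3 : 1 / (2 * ((t : ℝ) - 1)) ≤ -ρ := by rwa [abs_of_nonpos hρneg] at hρ2
  have hquarter : 1 / (2 * ((t : ℝ) - 1)) = 2 * (1 / (4 * ((t : ℝ) - 1))) := by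
    field_simp; norm_num
  have hcq : c ≤ 1 / (4 * ((t : ℝ) - 1)) := by
    rw [le_div_iff₀ (by linarith)]; linarith
  have hpos : ∀ x : ℝ, |x| < 1 → 1 / (4 * ((t : ℝ) - 1)) ≤ c * x - ρ := by
    intro x hx
    have := (abs_lt.mp hx).1
    nlinarith
  have hqpos : 0 < 1 / (4 * ((t : ℝ) - 1)) := by positivity
  have hom0 : 0 ≤ om n c := (om_basic (n := n) (by omega)).2.2.1 c
  have hder : ∀ x : ℝ, |x| < 1 → HasDerivAt (Gc n ρ c)
      (-(kk n ρ x c * om n c * (c * x - ρ) / (1 - x ^ 2))) x :=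
    fun x hx => gc_deriv h6 hρabs hcabs hx
  have habs : ∀ x ∈ Ioo (-1 : ℝ) 1, |x| < 1 := fun x hx => abs_lt.mpr ⟨hx.1, hx.2⟩
  have hanti : AntitoneOn (Gc n ρ c) (Ioo (-1 : ℝ) 1) := by
    apply antitoneOn_of_deriv_nonpos (convex_Ioo _ _)
    · intro x hx
      exact (hder x (habs x hx)).continuousAt.continuousWithinAt
    · intro x hx
      rw [interior_Ioo] at hx
      exact (hder x (habs x hx)).differentiableAt.differentiableWithinAt
    · intro x hx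
      rw [interior_Ioo] at hx
      rw [(hder x (habs x hx)).deriv]
      have hx' := habs x hx
      have e2 : 0 < 1 - x ^ 2 := gc_est1_sq hx'
      have := gc_est1_kk_nonneg h6 hρabs hcabs hx'
      have h3 := hpos x hx'
      have : 0 ≤ kk n ρ x c * om n c * (c * x - ρ) / (1 - x ^ 2) := by
        apply div_nonneg _ e2.le
        exact mul_nonneg (mul_nonneg this hom0) (by linarith)
      linarith
  -- slope
  have hslope : ∀ x : ℝ, c - 1 / Real.sqrt n ≤ x → x ≤ c →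
      Real.sqrt n * (c - x) / (4 * ((t : ℝ) - 1) * C0 ^ 2) ≤ Gc n ρ c x - Gc n ρ c c := by
    intro x hx1 hx2
    rcases hx2.eq_or_lt with hx3 | hx3
    · rw [hx3]; simp
    · obtain ⟨y, hy, hy2⟩ := exists_hasDerivAt_eq_slope (Gc n ρ c)
        (fun x => -(kk n ρ x c * om n c * (c * x - ρ) / (1 - x ^ 2))) hx3
        (by
          intro z hz
          have : |z| < 1 := abs_lt.mpr ⟨by linarith [hz.1], by linarith [hz.2]⟩
          exact (hder z this).continuousAt.continuousWithinAt)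
        (by
          intro z hz
          have : |z| < 1 := abs_lt.mpr ⟨by linarith [hz.1], by linarith [hz.2]⟩
          exact hder z this)
      have hyabs : |y| < 1 := abs_lt.mpr ⟨by linarith [hy.1], by linarith [hy.2]⟩
      have hyk := (hker n hnn0 c hc hcH 1 zero_le_one ha1 y c
        (by rw [abs_le]; constructor <;> linarith [hy.1, hy.2]) (by simp)).1
      have e2 : 0 < 1 - y ^ 2 := gc_est1_sq hyabs
      have e3 : 1 - y ^ 2 ≤ 1 := by nlinarith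
      have h3 := hpos y hyabs
      have hC0p : 0 < C0 := by linarith
      have hk : 1 / C0 * (Real.sqrt n / C0) * (1 / (4 * ((t : ℝ) - 1)))
          ≤ kk n ρ y c * om n c * (c * y - ρ) / (1 - y ^ 2) := by
        rw [le_div_iff₀ e2]
        have hA : 1 / C0 * (Real.sqrt n / C0) ≤ kk n ρ y c * om n c := by
          apply mul_le_mul hyk homc (by positivity)
          exact le_trans (by positivity) hyk
        have hB : 1 / C0 * (Real.sqrt n / C0) * (1 / (4 * ((t : ℝ) - 1)))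
            ≤ kk n ρ y c * om n c * (c * y - ρ) := by
          apply mul_le_mul hA h3 hqpos.le
          exact le_trans (by positivity) hA
        have hD : 0 ≤ 1 / C0 * (Real.sqrt n / C0) * (1 / (4 * ((t : ℝ) - 1))) := by positivity
        nlinarith
      have hcx : 0 < c - x := by linarith
      have hE : Gc n ρ c x - Gc n ρ c c
          = (kk n ρ y c * om n c * (c * y - ρ) / (1 - y ^ 2)) * (c - x) := by
        have := hy2
        rw [eq_div_iff hcx.ne'] at this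
        linarith
      rw [hE]
      have hF : Real.sqrt n * (c - x) / (4 * ((t : ℝ) - 1) * C0 ^ 2)
          = 1 / C0 * (Real.sqrt n / C0) * (1 / (4 * ((t : ℝ) - 1))) * (c - x) := by
        field_simp
      rw [hF]
      exact mul_le_mul_of_nonneg_right hk hcx.le
  have hCpos : (0 : ℝ) < 4 * ((t : ℝ) - 1) * C0 ^ 2 := by linarith
  rcases le_total (c - 1 / Real.sqrt n) τ with h | h
  · refine le_trans ?_ (hslope τ h hτc)
    apply div_le_div_of_nonneg_right (min_le_left _ _) hCpos.le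
  · have h1 := hslope (c - 1 / Real.sqrt n) le_rfl (by linarith)
    have h2 : Gc n ρ c (c - 1 / Real.sqrt n) ≤ Gc n ρ c τ := by
      apply hanti ⟨hτ1, by linarith⟩ ⟨by linarith, by linarith⟩ h
    have h3 : Real.sqrt n * (c - (c - 1 / Real.sqrt n)) = 1 := by
      field_simp; ring
    rw [h3] at h1
    have h4 : min (Real.sqrt n * (c - τ)) 1 / (4 * ((t : ℝ) - 1) * C0 ^ 2)
        ≤ 1 / (4 * ((t : ℝ) - 1) * C0 ^ 2) :=
      div_le_div_of_nonneg_right (min_le_right _ _) hCpos.le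
    linarith

-- gc_est2
theorem gc_est2_q {t c s : ℝ} (ht : 3 ≤ t) (hs : 1 - s ^ 2 ≠ 0) :
    (c * s - (t * c ^ 2 - 1) / (t - 1)) / (1 - s ^ 2) - 1 / (t - 1)
      = ((t + 1) * c * (s - c) + (s - c) ^ 2) / ((t - 1) * (1 - s ^ 2)) := by
  have h1 : t - 1 ≠ 0 := by
    have : (0 : ℝ) < t - 1 := by linarith
    exact this.ne'
  field_simp
  ring

theorem gc_est2_bd {t C Hm r a c s ko k oc os : ℝ} (ht : 3 ≤ t) (hC : 1 ≤ C) (hHm : 0 ≤ Hm)
    (hr : 1 ≤ r) (ha : 0 ≤ a) (hat : a ≤ 2 * t) (hc : 0 ≤ c) (hcH : r * c ≤ Hm)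
    (hs : |s - c| ≤ a / r) (hs2 : s ^ 2 ≤ 1 / 4) (hko : 0 ≤ ko) (hkoC : ko ≤ C)
    (hkk : |ko - k| ≤ C * a) (hk : 0 ≤ k) (hkC : k ≤ C) (hoc : 0 ≤ oc) (hocr : oc ≤ r)
    (hos : |os - oc| ≤ (Hm + 2 * t) * r ^ 2 * |s - c|) :
    |-(ko * oc * (c * s - (t * c ^ 2 - 1) / (t - 1)) / (1 - s ^ 2)) + k / (t - 1) * os|
      ≤ (C * ((t + 1) * Hm + 2 * t) + C + C * (Hm + 2 * t)) * a * r := by
  have hr0 : 0 < r := by linarith
  have hC0 : 0 ≤ C := by linarith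
  have ht1 : 0 < t - 1 := by linarith
  have hs3 : 3 / 4 ≤ 1 - s ^ 2 := by linarith
  have hs4 : 1 - s ^ 2 ≠ 0 := by
    have : (0 : ℝ) < 1 - s ^ 2 := by linarith
    exact this.ne'
  set δ := |s - c| with hδ
  have hδ0 : 0 ≤ δ := abs_nonneg _
  have hδr : δ * r ≤ a := (le_div_iff₀ hr0).1 hs
  set q := (c * s - (t * c ^ 2 - 1) / (t - 1)) / (1 - s ^ 2) - 1 / (t - 1) with hq
  set M := (t + 1) * Hm + 2 * t with hM
  have hM0 : 0 ≤ M := by
    rw [hM]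
    have : 0 ≤ (t + 1) * Hm := mul_nonneg (by linarith) hHm
    linarith
  -- the bound for q
  have hqb : |q| * r ≤ M * a := by
    rw [hq, gc_est2_q ht hs4, abs_div]
    have hden : (1 : ℝ) ≤ |(t - 1) * (1 - s ^ 2)| := by
      rw [abs_of_nonneg (mul_nonneg ht1.le (by linarith))]
      nlinarith
    have hden0 : (0 : ℝ) < |(t - 1) * (1 - s ^ 2)| := by linarith
    have hnum : |(t + 1) * c * (s - c) + (s - c) ^ 2| ≤ (t + 1) * c * δ + δ ^ 2 := by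
      refine (abs_add_le _ _).trans ?_
      rw [abs_mul, abs_mul, abs_of_nonneg (by linarith : (0 : ℝ) ≤ t + 1), abs_of_nonneg hc,
        abs_pow]
    have h1 : |(t + 1) * c * (s - c) + (s - c) ^ 2| / |(t - 1) * (1 - s ^ 2)|
        ≤ (t + 1) * c * δ + δ ^ 2 := by
      rw [div_le_iff₀ hden0]
      have h2 : 0 ≤ (t + 1) * c * δ + δ ^ 2 := by positivity
      nlinarith
    have h3 : ((t + 1) * c * δ + δ ^ 2) * r ≤ M * a := by
      have h4 : c * r ≤ Hm := by linarith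
      have hcr : 0 ≤ c * r := mul_nonneg hc hr0.le
      -- delta at most a at most 2 t, c at most Hm
      have h5 : δ ≤ a := by nlinarith
      have h6 : (t + 1) * c * δ * r ≤ (t + 1) * Hm * a := by
        have h7 : c * r * δ ≤ Hm * a := mul_le_mul h4 h5 hδ0 hHm
        have h8 : (t + 1) * (c * r * δ) ≤ (t + 1) * (Hm * a) :=
          mul_le_mul_of_nonneg_left h7 (by linarith)
        calc (t + 1) * c * δ * r = (t + 1) * (c * r * δ) := by ring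
          _ ≤ (t + 1) * (Hm * a) := h8
          _ = (t + 1) * Hm * a := by ring
      have h7 : δ ^ 2 * r ≤ 2 * t * a := by
        have h8 : δ * (δ * r) ≤ 2 * t * a := mul_le_mul (h5.trans hat) hδr
          (mul_nonneg hδ0 hr0.le) (by linarith)
        calc δ ^ 2 * r = δ * (δ * r) := by ring
          _ ≤ 2 * t * a := h8
      calc ((t + 1) * c * δ + δ ^ 2) * r = (t + 1) * c * δ * r + δ ^ 2 * r := by ring
        _ ≤ (t + 1) * Hm * a + 2 * t * a := add_le_add h6 h7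
        _ = M * a := by
          rw [hM]
          ring
    exact (mul_le_mul_of_nonneg_right h1 hr0.le).trans h3
  have hid : -(ko * oc * (c * s - (t * c ^ 2 - 1) / (t - 1)) / (1 - s ^ 2)) + k / (t - 1) * os
      = -(ko * oc * q) + -(1 / (t - 1) * ((ko - k) * oc + k * (oc - os))) := by
    rw [hq]
    ring
  rw [hid]
  refine (abs_add_le _ _).trans ?_
  rw [abs_neg, abs_neg]
  have hA : |ko * oc * q| ≤ C * M * a * r := by
    rw [abs_mul, abs_mul, abs_of_nonneg hko, abs_of_nonneg hoc]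
    have h1 : oc * |q| ≤ M * a := by
      have := mul_le_mul_of_nonneg_right hocr (abs_nonneg q)
      nlinarith
    have h2 : ko * (oc * |q|) ≤ C * (M * a) :=
      mul_le_mul hkoC h1 (mul_nonneg hoc (abs_nonneg q)) hC0
    have h3 : 0 ≤ C * (M * a) := mul_nonneg hC0 (mul_nonneg hM0 ha)
    nlinarith
  have hB : |1 / (t - 1) * ((ko - k) * oc + k * (oc - os))| ≤ (C + C * (Hm + 2 * t)) * a * r := by
    rw [abs_mul]
    have h1 : |1 / (t - 1)| ≤ 1 := by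
      rw [abs_of_nonneg (by positivity), div_le_one ht1]
      linarith
    have h2 : |(ko - k) * oc + k * (oc - os)| ≤ (C + C * (Hm + 2 * t)) * a * r := by
      refine (abs_add_le _ _).trans ?_
      rw [abs_mul, abs_mul, abs_of_nonneg hoc, abs_of_nonneg hk]
      have h3 : |ko - k| * oc ≤ C * a * r :=
        mul_le_mul hkk hocr hoc (mul_nonneg hC0 ha)
      have h4 : |oc - os| ≤ (Hm + 2 * t) * a * r := by
        rw [abs_sub_comm]
        refine hos.trans ?_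
        have h5 : (0 : ℝ) ≤ (Hm + 2 * t) * r := mul_nonneg (by linarith) hr0.le
        calc (Hm + 2 * t) * r ^ 2 * δ = (Hm + 2 * t) * r * (δ * r) := by ring
          _ ≤ (Hm + 2 * t) * r * a := mul_le_mul_of_nonneg_left hδr h5
          _ = (Hm + 2 * t) * a * r := by ring
      have h5 : k * |oc - os| ≤ C * ((Hm + 2 * t) * a * r) :=
        mul_le_mul hkC h4 (abs_nonneg _) hC0
      calc |ko - k| * oc + k * |oc - os| ≤ C * a * r + C * ((Hm + 2 * t) * a * r) :=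
            add_le_add h3 h5
        _ = (C + C * (Hm + 2 * t)) * a * r := by ring
    calc |1 / (t - 1)| * |(ko - k) * oc + k * (oc - os)|
        ≤ 1 * ((C + C * (Hm + 2 * t)) * a * r) :=
          mul_le_mul h1 h2 (abs_nonneg _) zero_le_one
      _ = (C + C * (Hm + 2 * t)) * a * r := one_mul _
  calc |ko * oc * q| + |1 / (t - 1) * ((ko - k) * oc + k * (oc - os))|
      ≤ C * M * a * r + (C + C * (Hm + 2 * t)) * a * r := add_le_add hA hB
    _ = (C * M + C + C * (Hm + 2 * t)) * a * r := by ring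

theorem gc_est2 (t : ℕ) (ht : 3 ≤ t) {Hm : ℝ} (hH : 0 ≤ Hm) :
    ∃ C : ℝ, 1 ≤ C ∧ ∃ n0 : ℕ, 6 ≤ n0 ∧ ∀ n : ℕ, n0 ≤ n → ∀ c : ℝ, 0 ≤ c → Real.sqrt n * c ≤ Hm →
    ∀ a : ℝ, 0 ≤ a → a ≤ 2 * t → ∀ τ : ℝ, |τ - c| ≤ a / Real.sqrt n →
    |Gc n (rhoc t c) c τ - Gc n (rhoc t c) c c
      + kk n (rhoc t c) c c / (t - 1) * ∫ s in c..τ, om n s| ≤ C * a ^ 2 := by
  obtain ⟨C, hC, n1, hn1, hker⟩ := ker_est t ht hH
  have ht3 : (3 : ℝ) ≤ (t : ℝ) := by exact_mod_cast ht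
  have hR : (0 : ℝ) ≤ Hm + 2 * t := by linarith
  obtain ⟨n2, hn2, hlip⟩ := om_lip hR
  have hC0 : (0 : ℝ) ≤ C := by linarith
  have hM0 : (0 : ℝ) ≤ (t + 1) * Hm := mul_nonneg (by linarith) hH
  refine ⟨C * ((t + 1) * Hm + 2 * t) + C + C * (Hm + 2 * t), ?_, max n1 n2,
    le_trans hn1 (le_max_left _ _), ?_⟩
  · have h1 : 0 ≤ C * ((t + 1) * Hm + 2 * t) := mul_nonneg hC0 (by linarith)
    have h2 : 0 ≤ C * (Hm + 2 * t) := mul_nonneg hC0 hR
    linarith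
  · intro n hn c hc hcH a ha hat τ hτ
    have hn1' : n1 ≤ n := le_trans (le_max_left _ _) hn
    have hn2' : n2 ≤ n := le_trans (le_max_right _ _) hn
    have hn6 : 6 ≤ n := le_trans hn1 hn1'
    have hnR : (1 : ℝ) ≤ (n : ℝ) := by
      have : 1 ≤ n := by omega
      exact_mod_cast this
    set r := Real.sqrt n with hr
    have hr1 : 1 ≤ r := Real.one_le_sqrt.2 hnR
    have hr0 : 0 < r := by linarith
    have hr2 : r ^ 2 = n := Real.sq_sqrt (by linarith)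
    obtain ⟨hcn0, hcont, hnn, _, _, _, _, _, _, hle⟩ := om_basic (n := n) (by omega)
    have hcnr : cn n ≤ r := (cn_bounds (n := n) (by omega)).2
    set ρ := rhoc t c with hρ
    have hat4 : a ≤ 4 * t := by linarith
    have hcc : |c - c| ≤ a / r := by
      rw [sub_self, abs_zero]
      exact div_nonneg ha hr0.le
    obtain ⟨hk1, hk2, _, _, _, _, _, hc2, hρ1, _⟩ :=
      hker n hn1' c hc hcH a ha hat4 c c hcc hcc
    have hkpos : 0 ≤ kk n ρ c c := le_trans (by positivity) hk1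
    have hρlt : |ρ| < 1 := by linarith
    have hclt : |c| < 1 := by linarith
    have hcr : c ≤ Hm / r := (le_div_iff₀ hr0).2 (by linarith)
    have hcR : |c| ≤ (Hm + 2 * t) / r := by
      rw [abs_of_nonneg hc]
      refine hcr.trans ?_
      exact div_le_div_of_nonneg_right (by linarith) hr0.le
    let F : ℝ → ℝ := fun s => Gc n ρ c s - Gc n ρ c c + kk n ρ c c / (t - 1) *
      ∫ x in c..s, om n x
    have hF : ∀ s ∈ Set.uIcc c τ, HasDerivWithinAt F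
        (-(kk n ρ s c * om n c * (c * s - ρ) / (1 - s ^ 2)) + kk n ρ c c / (t - 1) * om n s)
        (Set.uIcc c τ) s ∧
        ‖-(kk n ρ s c * om n c * (c * s - ρ) / (1 - s ^ 2)) + kk n ρ c c / (t - 1) * om n s‖
          ≤ (C * ((t + 1) * Hm + 2 * t) + C + C * (Hm + 2 * t)) * a * r := by
      intro s hs
      have hsc : |s - c| ≤ a / r := (Set.abs_sub_left_of_mem_uIcc hs).trans hτ
      obtain ⟨ho1, ho2, ho3, _, _, _, _, hs2, _, _⟩ :=
        hker n hn1' c hc hcH a ha hat4 s c hsc hcc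
      have hslt : |s| < 1 := by linarith
      constructor
      · have h1 := gc_deriv hn6 hρlt hclt hslt
        have h2 := (hcont.integral_hasStrictDerivAt c s).hasDerivAt
        have h3 := (h1.sub_const (Gc n ρ c c)).add (h2.const_mul (kk n ρ c c / (t - 1)))
        exact h3.hasDerivWithinAt
      · rw [Real.norm_eq_abs]
        have hsR : |s| ≤ (Hm + 2 * t) / r := by
          have h1 : |s| ≤ |s - c| + |c| := by
            have := abs_add_le (s - c) c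
            rwa [sub_add_cancel] at this
          rw [abs_of_nonneg hc] at h1
          have h2 : a / r ≤ 2 * t / r := div_le_div_of_nonneg_right hat hr0.le
          calc |s| ≤ a / r + Hm / r := h1.trans (add_le_add hsc hcr)
            _ ≤ 2 * t / r + Hm / r := by linarith
            _ = (Hm + 2 * t) / r := by ring
        have hlip1 := hlip n hn2' s c hsR hcR
        rw [← hr2] at hlip1
        exact gc_est2_bd ht3 hC hH hr1 ha hat hc hcH hsc (by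
            have h1 : |s| ^ 2 ≤ (1 / 2) ^ 2 := pow_le_pow_left₀ (abs_nonneg s) hs2 2
            rw [sq_abs] at h1
            linarith) (le_trans (by positivity) ho1) ho2 ho3 hkpos hk2 (hnn c)
          ((hle c).trans hcnr) hlip1
    have hmv := Convex.norm_image_sub_le_of_norm_hasDerivWithin_le
      (fun s hs => (hF s hs).1) (fun s hs => (hF s hs).2) (convex_uIcc c τ)
      Set.left_mem_uIcc Set.right_mem_uIcc
    have hFc : F c = 0 := by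
      change Gc n ρ c c - Gc n ρ c c + kk n ρ c c / (t - 1) * ∫ x in c..c, om n x = 0
      rw [intervalIntegral.integral_same]
      ring
    rw [hFc, sub_zero, Real.norm_eq_abs, Real.norm_eq_abs] at hmv
    refine hmv.trans ?_
    have hτr : |τ - c| * r ≤ a := (le_div_iff₀ hr0).1 hτ
    have hK : 0 ≤ C * ((t + 1) * Hm + 2 * t) + C + C * (Hm + 2 * t) := by
      have h1 : 0 ≤ C * ((t + 1) * Hm + 2 * t) := mul_nonneg hC0 (by linarith)
      have h2 : 0 ≤ C * (Hm + 2 * t) := mul_nonneg hC0 hR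
      linarith
    calc (C * ((t + 1) * Hm + 2 * t) + C + C * (Hm + 2 * t)) * a * r * |τ - c|
        = (C * ((t + 1) * Hm + 2 * t) + C + C * (Hm + 2 * t)) * a * (|τ - c| * r) := by ring
      _ ≤ (C * ((t + 1) * Hm + 2 * t) + C + C * (Hm + 2 * t)) * a * a :=
          mul_le_mul_of_nonneg_left hτr (mul_nonneg hK ha)
      _ = (C * ((t + 1) * Hm + 2 * t) + C + C * (Hm + 2 * t)) * a ^ 2 := by ring


end CoreW

end Pool.Agent.helper440_simplex
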