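import Pool.Agent.helper440_simplex.Spec
import Pool.Agent.helper440_simplex.Iso

set_option autoImplicit false
set_option linter.unusedSectionVars false

namespace Pool.Agent.helper440_simplex

open MeasureTheory Metric Set Filter Topology
open scoped RealInnerProductSpace

section CoreW
variable {E : Type*} [NormedAddCommGroup E] [InnerProductSpace ℝ E] [CompleteSpace E]
  [FiniteDimensional ℝ E] [MeasurableSpace E] [BorelSpace E]

/-! # Small sets -/

/-- kernel of the squared averaging operator, `q = r ^ 2` -/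
noncomputable def Kr (n : ℕ) (q s : ℝ) : ℝ := om (n - 1) ((s - q) / (1 - q)) / ((1 - q) * om n s)

/-- truncated kernel -/
noncomputable def KN (n : ℕ) (q N s : ℝ) : ℝ := if s < 1 then min (Kr n q s) N else N

-- KN_mono
/-- the logarithm of the kernel -/
noncomputable def KN_mono_H (n : ℕ) (q s : ℝ) : ℝ :=
  -(1 / 2) * Real.log (1 - s) + ((n : ℝ) - 4) / 2 * Real.log (1 + s - 2 * q) -
    ((n : ℝ) - 3) / 2 * Real.log (1 + s)

theorem KN_mono_deriv (n : ℕ) (q s : ℝ) (h1 : 0 < 1 - s) (h2 : 0 < 1 + s - 2 * q)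
    (h3 : 0 < 1 + s) : HasDerivAt (KN_mono_H n q)
      (-(1 / 2) * (-1 / (1 - s)) + ((n : ℝ) - 4) / 2 * (1 / (1 + s - 2 * q)) -
        ((n : ℝ) - 3) / 2 * (1 / (1 + s))) s := by
  have e1 : HasDerivAt (fun s : ℝ => 1 - s) (-1) s := by
    simpa using (hasDerivAt_id s).const_sub 1
  have e2 : HasDerivAt (fun s : ℝ => 1 + s - 2 * q) 1 s := by
    simpa using ((hasDerivAt_id s).const_add 1).sub_const (2 * q)
  have e3 : HasDerivAt (fun s : ℝ => 1 + s) 1 s := by
    simpa using (hasDerivAt_id s).const_add 1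
  exact (((e1.log h1.ne').const_mul (-(1 / 2))).add
    ((e2.log h2.ne').const_mul (((n : ℝ) - 4) / 2))).sub
    ((e3.log h3.ne').const_mul (((n : ℝ) - 3) / 2))

theorem KN_mono_Hmono {n : ℕ} (hn : 6 ≤ n) {q : ℝ} (hq : 1 ≤ ((n : ℝ) - 4) * q)
    (hq1 : q ≤ 1 / 2) : MonotoneOn (KN_mono_H n q) (Ioo (2 * q - 1) 1) := by
  have hn' : (6 : ℝ) ≤ n := by exact_mod_cast hn
  have hq0 : 0 < q := by
    by_contra h
    push Not at h
    nlinarith
  refine monotoneOn_of_deriv_nonneg (convex_Ioo _ _) ?_ ?_ ?_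
  · intro s hs
    have h := KN_mono_deriv n q s (by linarith [hs.2]) (by linarith [hs.1]) (by linarith [hs.1])
    exact h.continuousAt.continuousWithinAt
  · intro s hs
    rw [interior_Ioo] at hs
    have h := KN_mono_deriv n q s (by linarith [hs.2]) (by linarith [hs.1]) (by linarith [hs.1])
    exact h.differentiableAt.differentiableWithinAt
  · intro s hs
    rw [interior_Ioo] at hs
    have h1 : 0 < 1 - s := by linarith [hs.2]
    have h2 : 0 < 1 + s - 2 * q := by linarith [hs.1]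
    have h3 : 0 < 1 + s := by linarith [hs.1]
    rw [(KN_mono_deriv n q s h1 h2 h3).deriv]
    have e : -(1 / 2) * (-1 / (1 - s)) + ((n : ℝ) - 4) / 2 * (1 / (1 + s - 2 * q)) -
        ((n : ℝ) - 3) / 2 * (1 / (1 + s)) =
        (s / (1 - s) + ((n : ℝ) - 4) * q / (1 + s - 2 * q)) / (1 + s) := by
      field_simp
      ring
    rw [e]
    refine div_nonneg ?_ h3.le
    rcases le_or_gt 0 s with h0 | h0
    · have : 0 ≤ s / (1 - s) := div_nonneg h0 h1.le
      have : 0 ≤ ((n : ℝ) - 4) * q / (1 + s - 2 * q) := div_nonneg (by linarith) h2.le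
      linarith
    · have a1 : -1 ≤ s / (1 - s) := by
        rw [le_div_iff₀ h1]
        linarith
      have a2 : 1 ≤ ((n : ℝ) - 4) * q / (1 + s - 2 * q) := by
        rw [le_div_iff₀ h2]
        linarith
      linarith

theorem KN_mono_formula {n : ℕ} (hn : 6 ≤ n) {q : ℝ} (hq0 : 0 < q) (hq1 : q ≤ 1 / 2) (s : ℝ)
    (h1 : 2 * q - 1 < s) (h2 : s < 1) : Kr n q s =
      cn (n - 1) / ((1 - q) * cn n) * Real.exp (-(((n : ℝ) - 4) * Real.log (1 - q))) *
        Real.exp (KN_mono_H n q s) := by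
  have hq2 : 0 < 1 - q := by linarith
  have c1 : 0 < cn n := (om_basic (by omega : 4 ≤ n)).1
  have a1 : 0 < 1 - s := by linarith
  have a2 : 0 < 1 + s - 2 * q := by linarith
  have a3 : 0 < 1 + s := by linarith
  have hcast : (((n - 1 : ℕ) : ℝ) - 3) / 2 = ((n : ℝ) - 4) / 2 := by
    rw [Nat.cast_sub (by omega)]
    push_cast
    ring
  have b1 : 1 - ((s - q) / (1 - q)) ^ 2 = (1 - s) * (1 + s - 2 * q) / (1 - q) ^ 2 := by
    field_simp
    ring
  have b2 : bs ((s - q) / (1 - q)) = (1 - s) * (1 + s - 2 * q) / (1 - q) ^ 2 := by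
    unfold bs
    rw [b1]
    exact max_eq_right (by positivity)
  have b3 : bs s = (1 - s) * (1 + s) := by
    unfold bs
    rw [max_eq_right] <;> nlinarith
  unfold Kr om
  rw [b2, b3, hcast, Real.rpow_def_of_pos (by positivity), Real.rpow_def_of_pos (by positivity),
    Real.log_div (by positivity) (by positivity), Real.log_mul a1.ne' a2.ne',
    Real.log_mul a1.ne' a3.ne', Real.log_pow]
  have e1 : Real.exp ((Real.log (1 - s) + Real.log (1 + s - 2 * q) - ((2 : ℕ) : ℝ) * Real.log (1 - q)) *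
      (((n : ℝ) - 4) / 2)) = Real.exp (-(((n : ℝ) - 4) * Real.log (1 - q))) *
      Real.exp (KN_mono_H n q s) * Real.exp ((Real.log (1 - s) + Real.log (1 + s)) *
        (((n : ℝ) - 3) / 2)) := by
    rw [← Real.exp_add, ← Real.exp_add]
    congr 1
    unfold KN_mono_H
    push_cast
    ring
  rw [e1]
  have e2 := (Real.exp_pos ((Real.log (1 - s) + Real.log (1 + s)) * (((n : ℝ) - 3) / 2))).ne'
  field_simp

theorem KN_mono {n : ℕ} (hn : 6 ≤ n) {q N : ℝ} (hq : 1 ≤ (n - 4) * q) (hq1 : q ≤ 1 / 2)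
    (hN : 0 ≤ N) : Monotone (KN n q N) ∧ (∀ s, 0 ≤ KN n q N s ∧ KN n q N s ≤ N) := by
  have hn' : (6 : ℝ) ≤ n := by exact_mod_cast hn
  have hq0 : 0 < q := by
    by_contra h
    push Not at h
    nlinarith
  have hq2 : 0 < 1 - q := by linarith
  have hK0 : ∀ s, 0 ≤ Kr n q s := by
    intro s
    unfold Kr
    exact div_nonneg ((om_basic (by omega : 4 ≤ n - 1)).2.2.1 _)
      (mul_nonneg hq2.le ((om_basic (by omega : 4 ≤ n)).2.2.1 _))
  have hb : ∀ s, 0 ≤ KN n q N s ∧ KN n q N s ≤ N := by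
    intro s
    unfold KN
    split_ifs
    · exact ⟨le_min (hK0 s) hN, min_le_right _ _⟩
    · exact ⟨hN, le_rfl⟩
  refine ⟨fun s t hst => ?_, hb⟩
  by_cases ht : t < 1
  · have hs : s < 1 := lt_of_le_of_lt hst ht
    unfold KN
    rw [if_pos hs, if_pos ht]
    refine min_le_min ?_ le_rfl
    by_cases h1 : s ≤ 2 * q - 1
    · have : Kr n q s = 0 := by
        unfold Kr
        have h2 : om (n - 1) ((s - q) / (1 - q)) = 0 := by
          refine (om_basic (by omega : 4 ≤ n - 1)).2.2.2.1 _ ?_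
          have h3 : (s - q) / (1 - q) ≤ -1 := by
            rw [div_le_iff₀ hq2]
            linarith
          rw [abs_of_nonpos (by linarith)]
          linarith
        rw [h2, zero_div]
      rw [this]
      exact hK0 t
    · push Not at h1
      rw [KN_mono_formula hn hq0 hq1 s h1 hs, KN_mono_formula hn hq0 hq1 t (by linarith) ht]
      have c1 : 0 < cn n := (om_basic (by omega : 4 ≤ n)).1
      have c2 : 0 < cn (n - 1) := (om_basic (by omega : 4 ≤ n - 1)).1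
      refine mul_le_mul_of_nonneg_left ?_ (by positivity)
      exact Real.exp_le_exp.2 (KN_mono_Hmono hn hq hq1 ⟨h1, hs⟩ ⟨by linarith, ht⟩ hst)
  · have : KN n q N t = N := by
      unfold KN
      rw [if_neg ht]
    rw [this]
    exact (hb s).2


-- ei_ineq
theorem ei_ineq_poly {σ : ℝ} (h0 : 0 ≤ σ) (h1 : σ ≤ 2 / 3) :
    (32 / 27) * (σ * (2 * (456 / 625) - σ) ^ 2) ≤ (99 / 100) * ((456 / 625) ^ 4 * (2 - σ) ^ 2) := by
  nlinarith [mul_nonneg h0 (sub_nonneg.2 h1), mul_nonneg (mul_nonneg h0 h0) (sub_nonneg.2 h1),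
    mul_nonneg (mul_nonneg h0 (sub_nonneg.2 h1)) (sub_nonneg.2 h1)]

theorem ei_ineq_amgm {σ A : ℝ} (h0 : 0 ≤ σ) (h1 : σ ≤ 2 * A) :
    σ * (2 * A - σ) ^ 2 ≤ (32 / 27) * A ^ 3 := by
  have key : (32 / 27) * A ^ 3 - σ * (2 * A - σ) ^ 2 = (σ - 2 * A / 3) ^ 2 * (8 / 3 * A - σ) := by
    ring
  have h2 : 0 ≤ (σ - 2 * A / 3) ^ 2 * (8 / 3 * A - σ) := mul_nonneg (sq_nonneg _) (by linarith)
  linarith

theorem ei_ineq {q ξ s B : ℝ} (hq0 : 0 ≤ q) (hq : q ≤ 169 / 625) (hs : s = q + (1 - q) * ξ)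
    (hs1 : 1 / 3 ≤ s) (hξ : ξ ≤ 1) (hB0 : 0 ≤ B) (hB1 : B ≤ 1) :
    (1 - ξ ^ 2) * (1 - 2 * B / (1 + s)) ≤ 0.995 * (1 - B) ^ ((3 : ℝ) / 2) := by
  obtain ⟨p, hp⟩ : ∃ p, p = 1 - q := ⟨_, rfl⟩
  obtain ⟨σ, hσ⟩ : ∃ σ, σ = 1 - s := ⟨_, rfl⟩
  obtain ⟨A, hA⟩ : ∃ A, A = 1 - B := ⟨_, rfl⟩
  obtain ⟨p0, hp0⟩ : ∃ p0 : ℝ, p0 = 456 / 625 := ⟨_, rfl⟩
  have hpl : p0 ≤ p := by rw [hp0, hp]; linarith
  have hp0' : (2 / 3 : ℝ) < p0 := by rw [hp0]; norm_num
  have hppos : 0 < p := by linarith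
  have hσp : σ = p * (1 - ξ) := by rw [hσ, hs, hp]; ring
  have hσ0 : 0 ≤ σ := by rw [hσp]; exact mul_nonneg hppos.le (by linarith)
  have hσ1 : σ ≤ 2 / 3 := by linarith
  have hA0 : 0 ≤ A := by linarith
  have hA1 : A ≤ 1 := by linarith
  have e1 : 1 - ξ = σ / p := by rw [hσp]; field_simp
  have e2 : 1 - ξ ^ 2 = σ * (2 * p - σ) / p ^ 2 := by
    have : ξ = 1 - σ / p := by linarith
    rw [this]
    field_simp
    ring
  have e3 : 1 - 2 * B / (1 + s) = (2 * A - σ) / (2 - σ) := by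
    have h1 : (1 + s) ≠ 0 := by linarith
    have h2 : 2 - σ = 1 + s := by linarith
    rw [h2, eq_div_iff h1, sub_mul, div_mul_cancel₀ _ h1]
    rw [hA, hσ]; ring
  rw [e2, e3, ← hA]
  have hw0 : 0 ≤ A ^ ((3 : ℝ) / 2) := Real.rpow_nonneg hA0 _
  have h2σ : 0 < 2 - σ := by linarith
  have hps : 0 ≤ 2 * p - σ := by linarith
  rcases le_total (2 * A) σ with h | h
  · have t1 : (2 * A - σ) / (2 - σ) ≤ 0 := div_nonpos_of_nonpos_of_nonneg (by linarith) h2σ.le
    have t2 : 0 ≤ σ * (2 * p - σ) / p ^ 2 := by positivity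
    have t3 := mul_nonpos_of_nonneg_of_nonpos t2 t1
    linarith
  · -- monotonicity
    have m1 : (2 * p - σ) / p ^ 2 ≤ (2 * p0 - σ) / p0 ^ 2 := by
      rw [div_le_div_iff₀ (by positivity) (by positivity)]
      have t : (2 * p0 - σ) * p ^ 2 - (2 * p - σ) * p0 ^ 2 = (p - p0) * (p * (p0 - σ) + p0 * (p - σ)) := by ring
      have t2 : 0 ≤ (p - p0) * (p * (p0 - σ) + p0 * (p - σ)) := by
        refine mul_nonneg (by linarith) (add_nonneg (mul_nonneg (by linarith) (by linarith)) (mul_nonneg (by linarith) (by linarith)))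
      linarith
    obtain ⟨g, hg⟩ : ∃ g, g = (2 * p0 - σ) / p0 ^ 2 := ⟨_, rfl⟩
    have hg0 : 0 ≤ g := by rw [hg]; exact div_nonneg (by linarith) (by positivity)
    have hgp : g * p0 ^ 2 = 2 * p0 - σ := by rw [hg]; field_simp
    have m2 : σ * (2 * p - σ) / p ^ 2 * ((2 * A - σ) / (2 - σ)) ≤ σ * g * ((2 * A - σ) / (2 - σ)) := by
      refine mul_le_mul_of_nonneg_right ?_ (div_nonneg (by linarith) h2σ.le)
      rw [mul_div_assoc]
      exact mul_le_mul_of_nonneg_left (hg ▸ m1) hσ0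
    refine m2.trans ?_
    obtain ⟨x, hx⟩ : ∃ x, x = σ * g * ((2 * A - σ) / (2 - σ)) := ⟨_, rfl⟩
    rw [← hx]
    have hx0 : x * (2 - σ) = σ * g * (2 * A - σ) := by rw [hx]; field_simp
    have hxn : 0 ≤ x := by rw [hx]; exact mul_nonneg (mul_nonneg hσ0 hg0) (div_nonneg (by linarith) h2σ.le)
    have hw2 : (A ^ ((3 : ℝ) / 2)) ^ 2 = A ^ 3 := by
      rw [← Real.rpow_natCast, ← Real.rpow_mul hA0]
      rw [← Real.rpow_natCast]
      norm_num
    obtain ⟨w, hw⟩ : ∃ w, w = A ^ ((3 : ℝ) / 2) := ⟨_, rfl⟩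
    rw [← hw] at hw0 hw2 ⊢
    -- x ^ 2 ≤ 0.99 A ^ 3
    have b1 := ei_ineq_amgm hσ0 h
    have b2 := ei_ineq_poly hσ0 hσ1
    rw [← hp0] at b2
    have hp4 : 0 < p0 ^ 4 := by positivity
    have b3 : (x * (2 - σ)) ^ 2 * p0 ^ 4 ≤ (99 / 100 * w ^ 2) * ((2 - σ) ^ 2 * p0 ^ 4) := by
      have c1 : (x * (2 - σ)) ^ 2 * p0 ^ 4 = (σ * (2 * A - σ) ^ 2) * (σ * (2 * p0 - σ) ^ 2) := by
        rw [hx0, ← hgp]; ring
      have c2 : (σ * (2 * A - σ) ^ 2) * (σ * (2 * p0 - σ) ^ 2) ≤ ((32 / 27) * A ^ 3) * (σ * (2 * p0 - σ) ^ 2) :=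
        mul_le_mul_of_nonneg_right b1 (by positivity)
      have c3 : A ^ 3 * ((32 / 27) * (σ * (2 * p0 - σ) ^ 2)) ≤ A ^ 3 * ((99 / 100) * (p0 ^ 4 * (2 - σ) ^ 2)) :=
        mul_le_mul_of_nonneg_left b2 (by positivity)
      rw [c1, hw2]
      linarith
    have b4 : x ^ 2 ≤ 99 / 100 * w ^ 2 := by
      have c0 : 0 < (2 - σ) ^ 2 * p0 ^ 4 := by positivity
      have c1 : x ^ 2 * ((2 - σ) ^ 2 * p0 ^ 4) ≤ (99 / 100 * w ^ 2) * ((2 - σ) ^ 2 * p0 ^ 4) := by
        have : x ^ 2 * ((2 - σ) ^ 2 * p0 ^ 4) = (x * (2 - σ)) ^ 2 * p0 ^ 4 := by ring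
        rw [this]; exact b3
      exact le_of_mul_le_mul_right c1 c0
    have b5 : x ^ 2 ≤ (0.995 * w) ^ 2 := by nlinarith [sq_nonneg w]
    exact (sq_le_sq₀ hxn (by positivity)).1 b5

-- mm_upper
/-- the comparison function -/
noncomputable def mm_upper_g (n : ℕ) (s : ℝ) : ℝ := (1 - s ^ 2) ^ (((n : ℝ) - 1) / 2)

theorem mm_upper_deriv {n : ℕ} (hn : 5 ≤ n) (s : ℝ) :
    HasDerivAt (mm_upper_g n) (-(((n : ℝ) - 1) * s * (1 - s ^ 2) ^ (((n : ℝ) - 3) / 2))) s := by
  have hn' : (5 : ℝ) ≤ n := by exact_mod_cast hn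
  have h1 : HasDerivAt (fun s : ℝ => 1 - s ^ 2) (-(2 * s)) s := by
    simpa using (hasDerivAt_pow 2 s).const_sub 1
  have h2 := h1.rpow_const (p := ((n : ℝ) - 1) / 2) (Or.inr (by linarith))
  have e : ((n : ℝ) - 1) / 2 - 1 = ((n : ℝ) - 3) / 2 := by ring
  rw [e] at h2
  refine h2.congr_deriv ?_
  ring

theorem mm_upper_cont {n : ℕ} (hn : 5 ≤ n) :
    Continuous fun s : ℝ => -(((n : ℝ) - 1) * s * (1 - s ^ 2) ^ (((n : ℝ) - 3) / 2)) := by
  have hn' : (5 : ℝ) ≤ n := by exact_mod_cast hn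
  refine (Continuous.mul (continuous_const.mul continuous_id) ?_).neg
  exact (continuous_const.sub (continuous_pow 2)).rpow_const fun _ => Or.inr (by linarith)

theorem mm_upper_ftc {n : ℕ} (hn : 5 ≤ n) (a b : ℝ) :
    ∫ s in a..b, ((n : ℝ) - 1) * s * (1 - s ^ 2) ^ (((n : ℝ) - 3) / 2) =
      mm_upper_g n a - mm_upper_g n b := by
  have h := intervalIntegral.integral_eq_sub_of_hasDerivAt (a := a) (b := b)
    (fun s _ => mm_upper_deriv hn s) ((mm_upper_cont hn).intervalIntegrable a b)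
  rw [intervalIntegral.integral_neg] at h
  linarith

theorem mm_upper_om {n : ℕ} {s : ℝ} (h0 : 0 ≤ s) (h1 : s ≤ 1) :
    om n s = cn n * (1 - s ^ 2) ^ (((n : ℝ) - 3) / 2) := by
  unfold om bs
  rw [max_eq_right]
  nlinarith

theorem mm_upper_split {n : ℕ} (hn : 5 ≤ n) {b : ℝ} (h1 : b ≤ 1) :
    mm n b = ∫ s in b..1, om n s := by
  obtain ⟨-, hc, h0, hz, -, -, hi, -⟩ := om_basic (by omega : 4 ≤ n)
  unfold mm
  rw [intervalIntegral.integral_of_le h1, integral_Ici_eq_integral_Ioi]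
  have hu : Ioi b = Ioc b 1 ∪ Ioi 1 := (Ioc_union_Ioi_eq_Ioi h1).symm
  rw [hu, setIntegral_union (by
    rw [Set.disjoint_left]
    intro x hx hx'
    exact absurd hx.2 (not_le.2 hx')) measurableSet_Ioi hi.integrableOn hi.integrableOn]
  have : ∫ s in Ioi (1 : ℝ), om n s = 0 := by
    refine setIntegral_eq_zero_of_forall_eq_zero fun s hs => ?_
    exact hz s ((le_of_lt hs).trans (le_abs_self s))
  rw [this, add_zero]

theorem mm_upper {n : ℕ} (hn : 5 ≤ n) {b : ℝ} (h0 : 0 ≤ b) (h1 : b ≤ 1) :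
    mm n b ≤ (1 - b ^ 2) ^ (((n : ℝ) - 1) / 2) := by
  have hn' : (5 : ℝ) ≤ n := by exact_mod_cast hn
  obtain ⟨hcp, hc, hn0, hz, -, -, hi, hone, -⟩ := om_basic (by omega : 4 ≤ n)
  have hg : (1 - b ^ 2) ^ (((n : ℝ) - 1) / 2) = mm_upper_g n b := rfl
  rw [hg]
  have hcG : Continuous fun s : ℝ => ((n : ℝ) - 1) * s * (1 - s ^ 2) ^ (((n : ℝ) - 3) / 2) := by
    refine (mm_upper_cont hn).neg.congr fun s => ?_
    exact neg_neg _
  by_cases hb : cn n ≤ ((n : ℝ) - 1) * b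
  · rw [mm_upper_split hn h1]
    have h2 : ∫ s in b..1, om n s ≤
        ∫ s in b..1, ((n : ℝ) - 1) * s * (1 - s ^ 2) ^ (((n : ℝ) - 3) / 2) := by
      refine intervalIntegral.integral_mono_on h1 (hc.intervalIntegrable _ _)
        (hcG.intervalIntegrable _ _) fun s hs => ?_
      rw [mm_upper_om (h0.trans hs.1) hs.2]
      refine mul_le_mul_of_nonneg_right ?_ (Real.rpow_nonneg (by nlinarith [hs.1, hs.2]) _)
      have : ((n : ℝ) - 1) * b ≤ ((n : ℝ) - 1) * s :=
        mul_le_mul_of_nonneg_left hs.1 (by linarith)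
      linarith
    rw [mm_upper_ftc hn] at h2
    have h3 : mm_upper_g n 1 = 0 := by
      unfold mm_upper_g
      rw [one_pow, sub_self, Real.zero_rpow]
      have : (0 : ℝ) < ((n : ℝ) - 1) / 2 := by linarith
      exact this.ne'
    linarith
  · push Not at hb
    -- the mass below `b`
    have h2 : ∫ s in (0 : ℝ)..b, ((n : ℝ) - 1) * s * (1 - s ^ 2) ^ (((n : ℝ) - 3) / 2) ≤
        ∫ s in (0 : ℝ)..b, om n s := by
      refine intervalIntegral.integral_mono_on h0 (hcG.intervalIntegrable _ _)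
        (hc.intervalIntegrable _ _) fun s hs => ?_
      rw [mm_upper_om hs.1 (hs.2.trans h1)]
      refine mul_le_mul_of_nonneg_right ?_ (Real.rpow_nonneg (by nlinarith [hs.1, hs.2]) _)
      have : ((n : ℝ) - 1) * s ≤ ((n : ℝ) - 1) * b :=
        mul_le_mul_of_nonneg_left hs.2 (by linarith)
      linarith
    rw [mm_upper_ftc hn] at h2
    have h3 : mm_upper_g n 0 = 1 := by
      unfold mm_upper_g
      rw [zero_pow two_ne_zero, sub_zero, Real.one_rpow]
    have h4 : (∫ s in (0 : ℝ)..b, om n s) + mm n b ≤ 1 := by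
      unfold mm
      rw [intervalIntegral.integral_of_le h0, integral_Ici_eq_integral_Ioi,
        ← setIntegral_union (by
          rw [Set.disjoint_left]
          intro x hx hx'
          exact absurd hx.2 (not_le.2 hx')) measurableSet_Ioi hi.integrableOn hi.integrableOn,
        ← hone]
      exact setIntegral_le_integral hi (Filter.Eventually.of_forall hn0)
    linarith


-- mm_lower
theorem mm_lower_pow {n : ℕ} (hn : 5 ≤ n) :
    (1 / 3 : ℝ) ≤ (1 - 2 / (n : ℝ)) ^ (((n : ℝ) - 3) / 2) := by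
  have hn' : (5 : ℝ) ≤ n := by exact_mod_cast hn
  have hn0 : (0 : ℝ) < n := by linarith
  have hpos : (0 : ℝ) < 1 - 2 / (n : ℝ) := by
    rw [sub_pos, div_lt_one hn0]
    linarith
  rw [Real.rpow_def_of_pos hpos]
  have hlog := Real.one_sub_inv_le_log_of_pos hpos
  have hinv : 1 - (1 - 2 / (n : ℝ))⁻¹ = -2 / ((n : ℝ) - 2) := by
    have h2 : (n : ℝ) - 2 ≠ 0 := by linarith
    have h3 : 1 - 2 / (n : ℝ) ≠ 0 := hpos.ne'
    have h4 : (n : ℝ) ≠ 0 := hn0.ne'
    have h5 : 1 - 2 / (n : ℝ) = ((n : ℝ) - 2) / n := by field_simp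
    rw [h5, inv_div]
    field_simp
    ring
  rw [hinv] at hlog
  have h6 : -1 ≤ Real.log (1 - 2 / (n : ℝ)) * (((n : ℝ) - 3) / 2) := by
    have h7 : -2 / ((n : ℝ) - 2) * (((n : ℝ) - 3) / 2) ≤
        Real.log (1 - 2 / (n : ℝ)) * (((n : ℝ) - 3) / 2) :=
      mul_le_mul_of_nonneg_right hlog (by linarith)
    have h8 : -1 ≤ -2 / ((n : ℝ) - 2) * (((n : ℝ) - 3) / 2) := by
      have h2 : 0 < (n : ℝ) - 2 := by linarith
      have h9 : -2 / ((n : ℝ) - 2) * (((n : ℝ) - 3) / 2) = -(((n : ℝ) - 3) / ((n : ℝ) - 2)) := by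
        field_simp
      rw [h9, neg_le_neg_iff, div_le_one h2]
      linarith
    linarith
  have h10 : Real.exp (-1) ≤ Real.exp (Real.log (1 - 2 / (n : ℝ)) * (((n : ℝ) - 3) / 2)) :=
    Real.exp_le_exp.mpr h6
  have h11 : (1 / 3 : ℝ) ≤ Real.exp (-1) := by
    rw [Real.exp_neg, one_div]
    apply inv_anti₀ (Real.exp_pos 1)
    have := Real.exp_one_lt_d9
    linarith
  linarith

theorem mm_lower_bs {n : ℕ} (hn : 5 ≤ n) {b s : ℝ} (h0 : 0 ≤ b) (h1 : b < 1) (hs : b ≤ s)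
    (hs' : s ≤ b + (1 - b ^ 2) / (Real.sqrt n * (1 + b * Real.sqrt n))) :
    (1 - b ^ 2) * (1 - 2 / (n : ℝ)) ≤ bs s := by
  have hn' : (5 : ℝ) ≤ n := by exact_mod_cast hn
  have hn0 : (0 : ℝ) < n := by linarith
  set r := Real.sqrt n with hr
  have hrr : r * r = n := Real.mul_self_sqrt hn0.le
  have hr1 : 1 ≤ r := by
    rw [hr]
    exact Real.one_le_sqrt.mpr (by linarith)
  have hr0 : 0 < r := by linarith
  have hbr : 0 ≤ b * r := by positivity
  have hA : 0 < 1 - b ^ 2 := by nlinarith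
  have hA1 : 1 - b ^ 2 ≤ 1 := by nlinarith [sq_nonneg b]
  set δ := (1 - b ^ 2) / (r * (1 + b * r)) with hδ
  have hD : 0 < r * (1 + b * r) := by positivity
  have hδ0 : 0 ≤ δ := div_nonneg hA.le hD.le
  have hδ1 : δ * (r * (1 + b * r)) = 1 - b ^ 2 := by
    rw [hδ]
    exact div_mul_cancel₀ _ hD.ne'
  have hδr : δ * r ≤ 1 := by
    have : δ * r ≤ δ * (r * (1 + b * r)) := by
      apply mul_le_mul_of_nonneg_left _ hδ0
      nlinarith
    linarith
  -- s ^ 2 - b ^ 2 ≤ δ (2 b + δ)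
  have e1 : s ^ 2 - b ^ 2 ≤ δ * (2 * b + δ) := by
    have : s ^ 2 ≤ (b + δ) ^ 2 := by
      apply pow_le_pow_left₀ (by linarith) hs'
    nlinarith
  -- δ (2 b + δ) n ≤ 2 (1 - b ^ 2)
  have e2 : δ * (2 * b + δ) * n ≤ 2 * (1 - b ^ 2) := by
    rw [← hδ1, ← hrr]
    have : δ * r * (δ * r) ≤ δ * r * 1 := mul_le_mul_of_nonneg_left hδr (by positivity)
    nlinarith [mul_nonneg hδ0 hr0.le]
  have e3 : δ * (2 * b + δ) ≤ (1 - b ^ 2) * (2 / (n : ℝ)) := by
    have h2 : (1 - b ^ 2) * (2 / (n : ℝ)) = (2 * (1 - b ^ 2)) / n := by ring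
    rw [h2, le_div_iff₀ hn0]
    exact e2
  have e4 : (1 - b ^ 2) * (1 - 2 / (n : ℝ)) ≤ 1 - s ^ 2 := by nlinarith
  exact le_trans e4 (le_max_right _ _)

theorem mm_lower {n : ℕ} (hn : 5 ≤ n) {b : ℝ} (h0 : 0 ≤ b) (h1 : b < 1) :
    (1 - b ^ 2) ^ (((n : ℝ) - 1) / 2) / (1000 * (1 + b * Real.sqrt n)) ≤ mm n b := by
  have hn' : (5 : ℝ) ≤ n := by exact_mod_cast hn
  have hn0 : (0 : ℝ) < n := by linarith
  obtain ⟨hcn, hcont, hnn, -, -, -, hint, -, -, -⟩ := om_basic (n := n) (by omega)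
  have hcb := (cn_bounds (n := n) (by omega)).1
  have hr1 : 1 ≤ Real.sqrt n := Real.one_le_sqrt.mpr (by linarith)
  have hr0 : 0 < Real.sqrt n := by linarith
  have hbr : 0 ≤ b * Real.sqrt n := by positivity
  have hA : 0 < 1 - b ^ 2 := by nlinarith
  have hD : 0 < Real.sqrt n * (1 + b * Real.sqrt n) := by positivity
  have hδ0 : 0 ≤ (1 - b ^ 2) / (Real.sqrt n * (1 + b * Real.sqrt n)) := div_nonneg hA.le hD.le
  set δ := (1 - b ^ 2) / (Real.sqrt n * (1 + b * Real.sqrt n)) with hδ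
  have hpos : (0 : ℝ) ≤ 1 - 2 / (n : ℝ) := by
    rw [sub_nonneg, div_le_one hn0]
    linarith
  have hP0 : 0 ≤ (1 - b ^ 2) ^ (((n : ℝ) - 3) / 2) := Real.rpow_nonneg hA.le _
  have hpt : ∀ s ∈ Icc b (b + δ), cn n * ((1 - b ^ 2) ^ (((n : ℝ) - 3) / 2) * (1 / 3)) ≤ om n s := by
    intro s hs
    have h2 := mm_lower_bs hn h0 h1 hs.1 hs.2
    have h3 : ((1 - b ^ 2) * (1 - 2 / (n : ℝ))) ^ (((n : ℝ) - 3) / 2) ≤
        bs s ^ (((n : ℝ) - 3) / 2) :=
      Real.rpow_le_rpow (mul_nonneg hA.le hpos) h2 (by linarith)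
    rw [Real.mul_rpow hA.le hpos] at h3
    have h4 : (1 - b ^ 2) ^ (((n : ℝ) - 3) / 2) * (1 / 3) ≤
        (1 - b ^ 2) ^ (((n : ℝ) - 3) / 2) * (1 - 2 / (n : ℝ)) ^ (((n : ℝ) - 3) / 2) :=
      mul_le_mul_of_nonneg_left (mm_lower_pow hn) hP0
    exact mul_le_mul_of_nonneg_left (h4.trans h3) hcn.le
  have hI1 : ∫ s in Icc b (b + δ), om n s ≤ mm n b := by
    unfold mm
    refine setIntegral_mono_set hint.integrableOn ?_ ?_
    · exact Filter.Eventually.of_forall (fun s => hnn s)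
    · exact (Icc_subset_Ici_self).eventuallyLE
  have hI2 : ∫ s in Icc b (b + δ), (cn n * ((1 - b ^ 2) ^ (((n : ℝ) - 3) / 2) * (1 / 3))) ≤
      ∫ s in Icc b (b + δ), om n s := by
    refine setIntegral_mono_on ?_ hint.integrableOn measurableSet_Icc hpt
    exact continuous_const.integrableOn_Icc
  have hI3 : ∫ s in Icc b (b + δ), (cn n * ((1 - b ^ 2) ^ (((n : ℝ) - 3) / 2) * (1 / 3))) =
      δ * (cn n * ((1 - b ^ 2) ^ (((n : ℝ) - 3) / 2) * (1 / 3))) := by
    rw [setIntegral_const, Real.volume_real_Icc_of_le (by linarith)]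
    simp
  have hpw : (1 - b ^ 2) ^ (((n : ℝ) - 1) / 2) =
      (1 - b ^ 2) ^ (((n : ℝ) - 3) / 2) * (1 - b ^ 2) := by
    rw [← Real.rpow_add_one hA.ne']
    congr 1
    ring
  have hfin : (1 - b ^ 2) ^ (((n : ℝ) - 1) / 2) / (1000 * (1 + b * Real.sqrt n)) ≤
      δ * (cn n * ((1 - b ^ 2) ^ (((n : ℝ) - 3) / 2) * (1 / 3))) := by
    have h5 : δ * ((Real.sqrt n / 10) * ((1 - b ^ 2) ^ (((n : ℝ) - 3) / 2) * (1 / 3))) ≤
        δ * (cn n * ((1 - b ^ 2) ^ (((n : ℝ) - 3) / 2) * (1 / 3))) := by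
      apply mul_le_mul_of_nonneg_left _ hδ0
      apply mul_le_mul_of_nonneg_right hcb
      positivity
    refine le_trans ?_ h5
    have hE : 0 < 1 + b * Real.sqrt n := by positivity
    have h6 : δ * ((Real.sqrt n / 10) * ((1 - b ^ 2) ^ (((n : ℝ) - 3) / 2) * (1 / 3))) =
        (1 - b ^ 2) ^ (((n : ℝ) - 1) / 2) / (30 * (1 + b * Real.sqrt n)) := by
      rw [hpw, hδ]
      field_simp
      ring
    rw [h6]
    apply div_le_div_of_nonneg_left (Real.rpow_nonneg hA.le _) (by positivity)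
    nlinarith
  linarith

section Sse
variable {E : Type*} [NormedAddCommGroup E] [InnerProductSpace ℝ E] [CompleteSpace E]
  [FiniteDimensional ℝ E] [MeasurableSpace E] [BorelSpace E]

-- Kr_rep
/-- both heights vanish outside the unit interval -/
theorem Kr_rep_pt {n : ℕ} (h5 : 5 ≤ n) {q : ℝ} (hq0 : 0 ≤ q) (hq1 : q < 1) (s L : ℝ) :
    om (n - 1) ((s - q) / (1 - q)) / (1 - q) * L = om n s * (Kr n q s * L) := by
  have hc : 0 < 1 - q := by linarith
  obtain ⟨-, -, -, hz, hp, -, -, -, -, -⟩ := om_basic (n := n) (by omega)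
  obtain ⟨-, -, -, hz', -, -, -, -, -, -⟩ := om_basic (n := n - 1) (by omega)
  rcases lt_or_ge |s| 1 with hs | hs
  · have h1 := (hp s hs).ne'
    unfold Kr
    field_simp
  · rw [hz s hs, zero_mul]
    have h2 : 1 ≤ |(s - q) / (1 - q)| := by
      rw [abs_div, abs_of_pos hc, le_div_iff₀ hc, one_mul]
      rcases le_abs'.mp hs with h3 | h3
      · rw [le_abs]; right; linarith
      · rw [le_abs]; left; linarith
    rw [hz' _ h2]; simp

theorem Kr_rep_sub {q : ℝ} (hq1 : q < 1) (G : ℝ → ℝ) :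
    ∫ ξ, G ξ = ∫ s, G ((s - q) / (1 - q)) / (1 - q) := by
  have hc : 0 < 1 - q := by linarith
  rw [integral_div, integral_sub_right_eq_self (fun s => G (s / (1 - q))) q,
    Measure.integral_comp_div, abs_of_pos hc, smul_eq_mul]
  field_simp

theorem Kr_rep {n : ℕ} (hn : Module.finrank ℝ E = n) (h5 : 5 ≤ n) {r : ℝ} (hr : |r| < 1)
    {f h : SS E → ℝ} (hf : BM f) (hh : BM h) :
    ∫ x, h x * PP r (PP r f) x ∂(sm E)
      = ∫ s, om n s * (Kr n (r ^ 2) s * ∫ x, h x * PP s f x ∂(sm E)) := by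
  have hq0 : 0 ≤ r ^ 2 := sq_nonneg r
  have hq1 : r ^ 2 < 1 := by
    rw [← sq_abs]
    nlinarith [abs_nonneg r]
  have hc : 0 < 1 - r ^ 2 := by linarith
  rw [comp hn h5 hr.le hr.le hf hh, Real.mul_self_sqrt hc.le,
    Kr_rep_sub hq1 (fun ξ => om (n - 1) ξ *
      ∫ x, h x * PP (r * r + (1 - r ^ 2) * ξ) f x ∂(sm E))]
  refine integral_congr_ae (Filter.Eventually.of_forall fun s => ?_)
  have e1 : r * r + (1 - r ^ 2) * ((s - r ^ 2) / (1 - r ^ 2)) = s := by
    field_simp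
    ring
  show om (n - 1) ((s - r ^ 2) / (1 - r ^ 2)) * (∫ x, h x *
      PP (r * r + (1 - r ^ 2) * ((s - r ^ 2) / (1 - r ^ 2))) f x ∂(sm E)) / (1 - r ^ 2) = _
  rw [e1]
  refine Eq.trans ?_ (Kr_rep_pt h5 hq0 hq1 s (∫ x, h x * PP s f x ∂(sm E)))
  ring

-- cap_pair
theorem cap_pair_mm_anti {n : ℕ} (hn : 4 ≤ n) : Antitone (mm n) := by
  obtain ⟨_, _, hnn, _, _, _, hint, _⟩ := om_basic hn
  intro a b hab
  unfold mm
  exact setIntegral_mono_set hint.integrableOn (ae_of_all _ (fun s => hnn s))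
    (Ici_subset_Ici.2 hab).eventuallyLE

theorem cap_pair_mm_nonneg {n : ℕ} (hn : 4 ≤ n) (b : ℝ) : 0 ≤ mm n b := by
  obtain ⟨_, _, hnn, _, _, _, hint, _⟩ := om_basic hn
  exact integral_nonneg fun s => hnn s

theorem cap_pair_mm_le_one {n : ℕ} (hn : 4 ≤ n) (b : ℝ) : mm n b ≤ 1 := by
  obtain ⟨_, _, hnn, _, _, _, hint, h1, _⟩ := om_basic hn
  rw [← h1]
  exact setIntegral_le_integral hint (ae_of_all _ (fun s => hnn s))

theorem cap_pair_BM (v : SS E) (b : ℝ) :
    BM (fun y => {y : SS E | b ≤ ⟪(v : E), (y : E)⟫}.indicator (fun _ => (1 : ℝ)) y) := by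
  refine ⟨?_, 1, fun x => ?_⟩
  · refine measurable_const.indicator ?_
    exact measurableSet_le measurable_const
      (continuous_const.inner continuous_subtype_val).measurable
  · by_cases hx : x ∈ {y : SS E | b ≤ ⟪(v : E), (y : E)⟫}
    · simp [Set.indicator_of_mem hx]
    · simp [Set.indicator_of_notMem hx]

theorem cap_pair_key {n : ℕ} (hn : Module.finrank ℝ E = n) (h5 : 5 ≤ n) (v : SS E) (b s : ℝ)
    (hs0 : -1 < s) (hs1 : s ≤ 1) :
    ∫ x, ({y : SS E | b ≤ ⟪(v : E), (y : E)⟫}.indicator (fun _ => (1 : ℝ)) x)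
      * PP s (fun y => {y : SS E | b ≤ ⟪(v : E), (y : E)⟫}.indicator (fun _ => (1 : ℝ)) y) x
      ∂(sm E) ≤ mm n (2 * b / Real.sqrt (2 + 2 * s)) := by
  classical
  set f : SS E → ℝ := fun y => {y : SS E | b ≤ ⟪(v : E), (y : E)⟫}.indicator (fun _ => (1 : ℝ)) y
    with hf
  have hBM : BM f := cap_pair_BM v b
  have hfr : 1 ≤ Module.finrank ℝ E := by omega
  obtain ⟨a⟩ := sm_nonempty (E := E) hfr
  have hPe : Module.finrank ℝ (Pe a) = n - 1 :=
    finrank_Pe (n := n - 1) (by omega) a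
  obtain ⟨w⟩ := sm_nonempty (E := Pe a) (by omega)
  have hin : ⟪(a : E), (pt a s w : E)⟫ = s :=
    (pt_inner hs0.le hs1 hs0.le hs1 a w w).1
  have hPf : ∀ r : ℝ, Measurable (PP r f) := fun r =>
    (PP_basic (by omega) r hBM hBM).1.1
  have hpair := PP_pair (by omega) hBM hBM hPf a (pt a s w)
  rw [hin] at hpair
  have hgoal : (∫ x, ({y : SS E | b ≤ ⟪(v : E), (y : E)⟫}.indicator (fun _ => (1 : ℝ)) x)
      * PP s f x ∂(sm E)) = ∫ x, f x * PP s f x ∂(sm E) := rfl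
  rw [hgoal, hpair]
  set c : SS E := pt a s w with hc
  have hna : ‖(a : E)‖ = 1 := norm_eq_of_mem_sphere a
  have hnc : ‖(c : E)‖ = 1 := norm_eq_of_mem_sphere c
  have hN2 : ‖(a : E) + (c : E)‖ ^ 2 = 2 + 2 * s := by
    rw [norm_add_sq_real, hna, hnc, hin]; ring
  have hN : ‖(a : E) + (c : E)‖ = Real.sqrt (2 + 2 * s) := by
    rw [← hN2, Real.sqrt_sq (norm_nonneg _)]
  have hpos : 0 < Real.sqrt (2 + 2 * s) := Real.sqrt_pos.2 (by linarith)
  set N := Real.sqrt (2 + 2 * s) with hNdef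
  let u : SS E := ⟨N⁻¹ • ((a : E) + (c : E)), by
    rw [mem_sphere_zero_iff_norm, norm_smul, hN, Real.norm_eq_abs, abs_inv, abs_of_pos hpos]
    exact inv_mul_cancel₀ hpos.ne'⟩
  have hF : BM (fun y => {y : SS E | 2 * b / N ≤ ⟪(v : E), (y : E)⟫}.indicator
      (fun _ => (1 : ℝ)) y) := cap_pair_BM v _
  have hcap := cap_meas hn (by omega) v (2 * b / N)
  have hint := sm_int hfr u hF.1
  have hmeas : MeasurableSet {y : SS E | 2 * b / N ≤ ⟪(v : E), (y : E)⟫} :=
    measurableSet_le measurable_const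
      (continuous_const.inner continuous_subtype_val).measurable
  have hcap' : mm n (2 * b / N) = ∫ g, {y : SS E | 2 * b / N ≤ ⟪(v : E), (y : E)⟫}.indicator
      (fun _ => (1 : ℝ)) (sa g u) ∂(hm E) := by
    rw [← hint, ← hcap]
    rw [integral_indicator hmeas]
    simp
  rw [hcap']
  have hsaM : ∀ x : SS E, Measurable (fun g : UG E => sa g x) := fun x =>
    (sa_continuous_left x).measurable
  refine integral_mono ?_ ?_ ?_
  · refine Integrable.of_bound ((hBM.1.comp (hsaM a)).mul (hBM.1.comp (hsaM c))).aestronglyMeasurable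
      1 (ae_of_all _ fun g => ?_)
    have h1 : ∀ x, |f x| ≤ 1 := by
      intro x
      by_cases hx : x ∈ {y : SS E | b ≤ ⟪(v : E), (y : E)⟫}
      · simp [hf, Set.indicator_of_mem hx]
      · simp [hf, Set.indicator_of_notMem hx]
    rw [Real.norm_eq_abs]
    show |f (sa g a) * f (sa g c)| ≤ 1
    rw [abs_mul]
    exact mul_le_one₀ (h1 _) (abs_nonneg _) (h1 _)
  · refine Integrable.of_bound (hF.1.comp (hsaM u)).aestronglyMeasurable
      1 (ae_of_all _ fun g => ?_)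
    show |{y : SS E | 2 * b / N ≤ ⟪(v : E), (y : E)⟫}.indicator (fun _ => (1 : ℝ)) (sa g u)| ≤ 1
    by_cases hx : sa g u ∈ {y : SS E | 2 * b / N ≤ ⟪(v : E), (y : E)⟫}
    · simp [Set.indicator_of_mem hx]
    · simp [Set.indicator_of_notMem hx]
  · intro g
    show f (sa g a) * f (sa g c)
      ≤ {y : SS E | 2 * b / N ≤ ⟪(v : E), (y : E)⟫}.indicator (fun _ => (1 : ℝ)) (sa g u)
    have hnn : 0 ≤ {y : SS E | 2 * b / N ≤ ⟪(v : E), (y : E)⟫}.indicator
        (fun _ => (1 : ℝ)) (sa g u) := Set.indicator_nonneg (fun _ _ => zero_le_one) _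
    by_cases h1 : sa g a ∈ {y : SS E | b ≤ ⟪(v : E), (y : E)⟫}
    · by_cases h2 : sa g c ∈ {y : SS E | b ≤ ⟪(v : E), (y : E)⟫}
      · have h3 : sa g u ∈ {y : SS E | 2 * b / N ≤ ⟪(v : E), (y : E)⟫} := by
          show 2 * b / N ≤ ⟪(v : E), (sa g u : E)⟫
          have e1 : (sa g u : E) = N⁻¹ • ((sa g a : E) + (sa g c : E)) := by
            rw [sa_coe, sa_coe, sa_coe]
            show av g (N⁻¹ • ((a : E) + (c : E))) = _
            rw [av_smul, av_add]
          have h1' : b ≤ ⟪(v : E), (sa g a : E)⟫ := h1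
          have h2' : b ≤ ⟪(v : E), (sa g c : E)⟫ := h2
          rw [e1, real_inner_smul_right, inner_add_right, div_eq_inv_mul]
          exact mul_le_mul_of_nonneg_left (by linarith) (inv_nonneg.2 hpos.le)
        rw [Set.indicator_of_mem h3]
        simp [hf, Set.indicator_of_mem h1, Set.indicator_of_mem h2]
      · have : f (sa g c) = 0 := Set.indicator_of_notMem h2 _
        rw [this, mul_zero]; exact hnn
    · have : f (sa g a) = 0 := Set.indicator_of_notMem h1 _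
      rw [this, zero_mul]; exact hnn

theorem cap_pair {n : ℕ} (hn : Module.finrank ℝ E = n) (h5 : 5 ≤ n) {r : ℝ} (hr : |r| ≤ 1)
    (v : SS E) {b : ℝ} (hb : 0 ≤ b) :
    ∫ x, (PP r (fun y => {y : SS E | b ≤ ⟪(v : E), (y : E)⟫}.indicator (fun _ => (1 : ℝ)) y) x) ^ 2
      ∂(sm E) ≤ ∫ ξ, om (n - 1) ξ *
        mm n (2 * b / Real.sqrt (2 + 2 * (r ^ 2 + (1 - r ^ 2) * ξ))) := by
  classical
  set f : SS E → ℝ := fun y => {y : SS E | b ≤ ⟪(v : E), (y : E)⟫}.indicator (fun _ => (1 : ℝ)) y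
    with hf
  have hBM : BM f := cap_pair_BM v b
  have hr1 := (abs_le.1 hr).1
  have hr2 := (abs_le.1 hr).2
  have hPB : BM (PP r f) := (PP_basic (by omega) r hBM hBM).1
  have e1 : ∫ x, (PP r f x) ^ 2 ∂(sm E) = ∫ x, f x * PP r (PP r f) x ∂(sm E) := by
    rw [← (PP_sym (by omega) hr1 hr2 hBM hPB).1]
    congr 1
    ext x
    ring
  have hr3 : 0 ≤ 1 - r ^ 2 := by
    have := (sq_le_one_iff_abs_le_one r).2 hr
    linarith
  rw [e1, comp hn h5 hr hr hBM hBM]
  obtain ⟨hcn, homc, homn, homz, _, _, homi, _⟩ := om_basic (n := n - 1) (by omega)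
  have hmono := cap_pair_mm_anti (n := n) (by omega)
  have hnn : ∀ c, 0 ≤ mm n c := cap_pair_mm_nonneg (by omega)
  have hle : ∀ c, mm n c ≤ 1 := cap_pair_mm_le_one (by omega)
  have hf0 : ∀ x, 0 ≤ f x := fun x => Set.indicator_nonneg (fun _ _ => zero_le_one) _
  refine integral_mono_of_nonneg (ae_of_all _ fun ξ => ?_) ?_ (ae_of_all _ fun ξ => ?_)
  · refine mul_nonneg (homn ξ) (integral_nonneg fun x => mul_nonneg (hf0 x) ?_)
    exact integral_nonneg fun w => hf0 _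
  · refine Integrable.mul_bdd (c := 1) homi ?_ (ae_of_all _ fun ξ => ?_)
    · have hm : Measurable (mm n) := hmono.measurable
      exact (hm.comp (by fun_prop)).aestronglyMeasurable
    · rw [Real.norm_eq_abs, abs_of_nonneg (hnn _)]
      exact hle _
  · by_cases hξ : 1 ≤ |ξ|
    · show om (n - 1) ξ * _ ≤ om (n - 1) ξ * _
      rw [homz ξ hξ, zero_mul, zero_mul]
    · have hξ' := abs_lt.1 (not_le.1 hξ)
      have hsq : Real.sqrt (1 - r ^ 2) * Real.sqrt (1 - r ^ 2) = 1 - r ^ 2 :=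
        Real.mul_self_sqrt hr3
      refine mul_le_mul_of_nonneg_left ?_ (homn ξ)
      have e2 : r * r + Real.sqrt (1 - r ^ 2) * Real.sqrt (1 - r ^ 2) * ξ
          = r ^ 2 + (1 - r ^ 2) * ξ := by rw [hsq]; ring
      rw [e2]
      refine cap_pair_key hn h5 v b _ ?_ ?_
      · rcases hr3.lt_or_eq with h | h
        · nlinarith [sq_nonneg r]
        · rw [← h]; nlinarith
      · nlinarith

end Sse

-- cap_num
theorem cap_num_mm_zero {n : ℕ} (hn : 4 ≤ n) {β : ℝ} (h : 1 ≤ β) : mm n β = 0 := by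
  unfold mm
  refine setIntegral_eq_zero_of_forall_eq_zero ?_
  intro s hs
  exact (om_basic hn).2.2.2.1 s (le_trans h (le_trans hs (le_abs_self s)))

theorem cap_num_mm_nonneg {n : ℕ} (hn : 4 ≤ n) (β : ℝ) : 0 ≤ mm n β := by
  unfold mm
  exact setIntegral_nonneg measurableSet_Ici (fun s _ => (om_basic hn).2.2.1 s)

theorem cap_num_mm {n : ℕ} (hn : 5 ≤ n) {b s : ℝ} (hb : 0 ≤ b) (hs : -1 < s) :
    mm n (2 * b / Real.sqrt (2 + 2 * s))
      ≤ (max 0 (1 - 2 * b ^ 2 / (1 + s))) ^ (((n : ℝ) - 1) / 2) := by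
  have h2 : 0 < 2 + 2 * s := by linarith
  have h3 : 0 < 1 + s := by linarith
  have hβ0 : 0 ≤ 2 * b / Real.sqrt (2 + 2 * s) := by positivity
  have hβ2 : (2 * b / Real.sqrt (2 + 2 * s)) ^ 2 = 2 * b ^ 2 / (1 + s) := by
    rw [div_pow, Real.sq_sqrt h2.le]
    field_simp
  rcases le_or_gt (2 * b / Real.sqrt (2 + 2 * s)) 1 with h | h
  · have h4 := mm_upper hn hβ0 h
    rw [hβ2] at h4
    rw [max_eq_right]
    · exact h4
    · rw [← hβ2]
      nlinarith
  · rw [cap_num_mm_zero (by omega) h.le]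
    positivity

theorem cap_num_point {n : ℕ} (hn : 6 ≤ n) {q b ξ : ℝ} (hq0 : 0 ≤ q) (hq : q ≤ 169 / 625)
    (hb0 : 0 ≤ b) (hb1 : b ≤ 1) :
    om (n - 1) ξ * mm n (2 * b / Real.sqrt (2 + 2 * (q + (1 - q) * ξ))) ≤
      om (n - 1) ξ * (1 - b ^ 2) ^ ((3 / 4 : ℝ) * ((n : ℝ) - 4)) +
      (Icc (-1 : ℝ) 1).indicator (fun _ => Real.sqrt n * (0.995 : ℝ) ^ (((n : ℝ) - 4) / 2) *
        (1 - b ^ 2) ^ ((3 / 4 : ℝ) * ((n : ℝ) - 4))) ξ := by
  have hB0 : 0 ≤ 1 - b ^ 2 := by nlinarith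
  have hB1 : 1 - b ^ 2 ≤ 1 := by nlinarith
  have hn' : (6 : ℝ) ≤ n := by exact_mod_cast hn
  have hom : 0 ≤ om (n - 1) ξ := (om_basic (by omega)).2.2.1 ξ
  have hind : 0 ≤ (Icc (-1 : ℝ) 1).indicator (fun _ => Real.sqrt n *
      (0.995 : ℝ) ^ (((n : ℝ) - 4) / 2) * (1 - b ^ 2) ^ ((3 / 4 : ℝ) * ((n : ℝ) - 4))) ξ :=
    Set.indicator_nonneg (fun _ _ => by positivity) _
  rcases le_or_gt 1 |ξ| with hξ | hξ
  · rw [(om_basic (n := n - 1) (by omega)).2.2.2.1 ξ hξ, zero_mul, zero_mul, zero_add]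
    exact hind
  have hξ' := abs_lt.mp hξ
  have hs : -1 < q + (1 - q) * ξ := by nlinarith
  have hs1 : 0 < 1 + (q + (1 - q) * ξ) := by linarith
  have hmm := cap_num_mm (n := n) (by omega) hb0 hs
  rcases le_or_gt (q + (1 - q) * ξ) (1 / 3) with h | h
  · have h1 : max 0 (1 - 2 * b ^ 2 / (1 + (q + (1 - q) * ξ))) ≤ (1 - b ^ 2) ^ (3 / 2 : ℝ) := by
      refine max_le (by positivity) ?_
      have hb := one_add_mul_self_le_rpow_one_add (s := -b ^ 2) (by nlinarith) (p := 3 / 2)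
        (by norm_num)
      have h2 : 3 / 2 * b ^ 2 ≤ 2 * b ^ 2 / (1 + (q + (1 - q) * ξ)) := by
        rw [le_div_iff₀ hs1]
        nlinarith [sq_nonneg b]
      have h3 : (1 + -b ^ 2) = 1 - b ^ 2 := by ring
      rw [h3] at hb
      linarith
    have h2 : mm n (2 * b / Real.sqrt (2 + 2 * (q + (1 - q) * ξ)))
        ≤ (1 - b ^ 2) ^ ((3 / 4 : ℝ) * ((n : ℝ) - 4)) := by
      refine hmm.trans ?_
      refine (Real.rpow_le_rpow (le_max_left _ _) h1 (by linarith)).trans ?_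
      rw [← Real.rpow_mul hB0]
      refine Real.rpow_le_rpow_of_exponent_ge' hB0 hB1 (by nlinarith) (by nlinarith)
    have h3 := mul_le_mul_of_nonneg_left h2 hom
    linarith
  · have hei := ei_ineq (q := q) (ξ := ξ) (s := q + (1 - q) * ξ) (B := b ^ 2) hq0 hq rfl h.le
      hξ'.2.le (by positivity) (by nlinarith)
    have hx0 : 0 ≤ 1 - ξ ^ 2 := by nlinarith
    have h1 : (1 - ξ ^ 2) * max 0 (1 - 2 * b ^ 2 / (1 + (q + (1 - q) * ξ)))
        ≤ 0.995 * (1 - b ^ 2) ^ (3 / 2 : ℝ) := by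
      rcases max_cases 0 (1 - 2 * b ^ 2 / (1 + (q + (1 - q) * ξ))) with h5 | h5
      · rw [h5.1, mul_zero]
        positivity
      · rw [h5.1]
        exact hei
    have hmx : max 0 (1 - 2 * b ^ 2 / (1 + (q + (1 - q) * ξ))) ≤ 1 := by
      refine max_le zero_le_one ?_
      have : 0 ≤ 2 * b ^ 2 / (1 + (q + (1 - q) * ξ)) := by positivity
      linarith
    have h2 : mm n (2 * b / Real.sqrt (2 + 2 * (q + (1 - q) * ξ)))
        ≤ (max 0 (1 - 2 * b ^ 2 / (1 + (q + (1 - q) * ξ)))) ^ (((n : ℝ) - 4) / 2) :=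
      hmm.trans (Real.rpow_le_rpow_of_exponent_ge' (le_max_left _ _) hmx (by linarith)
        (by linarith))
    have hcn := cn_bounds (n := n - 1) (by omega)
    have hcast : ((n - 1 : ℕ) : ℝ) = (n : ℝ) - 1 := by
      rw [Nat.cast_sub (by omega)]
      simp
    have hcn2 : cn (n - 1) ≤ Real.sqrt n := by
      refine hcn.2.trans (Real.sqrt_le_sqrt ?_)
      rw [hcast]
      linarith
    have hcn0 : 0 ≤ cn (n - 1) := (om_basic (n := n - 1) (by omega)).1.le
    have hom2 : om (n - 1) ξ = cn (n - 1) * (1 - ξ ^ 2) ^ (((n : ℝ) - 4) / 2) := by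
      unfold om bs
      rw [hcast, max_eq_right hx0]
      congr 2
      ring
    have h3 : om (n - 1) ξ * mm n (2 * b / Real.sqrt (2 + 2 * (q + (1 - q) * ξ)))
        ≤ Real.sqrt n * (0.995 : ℝ) ^ (((n : ℝ) - 4) / 2) *
        (1 - b ^ 2) ^ ((3 / 4 : ℝ) * ((n : ℝ) - 4)) := by
      calc om (n - 1) ξ * mm n (2 * b / Real.sqrt (2 + 2 * (q + (1 - q) * ξ)))
          ≤ (cn (n - 1) * (1 - ξ ^ 2) ^ (((n : ℝ) - 4) / 2)) *
            (max 0 (1 - 2 * b ^ 2 / (1 + (q + (1 - q) * ξ)))) ^ (((n : ℝ) - 4) / 2) := by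
            rw [← hom2]
            exact mul_le_mul_of_nonneg_left h2 hom
        _ = cn (n - 1) * ((1 - ξ ^ 2) *
            max 0 (1 - 2 * b ^ 2 / (1 + (q + (1 - q) * ξ)))) ^ (((n : ℝ) - 4) / 2) := by
            rw [Real.mul_rpow hx0 (le_max_left _ _), mul_assoc]
        _ ≤ Real.sqrt n * (0.995 * (1 - b ^ 2) ^ (3 / 2 : ℝ)) ^ (((n : ℝ) - 4) / 2) := by
            refine mul_le_mul hcn2 (Real.rpow_le_rpow ?_ h1 (by linarith)) ?_ (by positivity)
            · exact mul_nonneg hx0 (le_max_left _ _)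
            · exact Real.rpow_nonneg (mul_nonneg hx0 (le_max_left _ _)) _
        _ = _ := by
            rw [Real.mul_rpow (by norm_num) (by positivity), ← Real.rpow_mul hB0, mul_assoc]
            congr 3
            ring
    have h4 : (Icc (-1 : ℝ) 1).indicator (fun _ => Real.sqrt n *
      (0.995 : ℝ) ^ (((n : ℝ) - 4) / 2) * (1 - b ^ 2) ^ ((3 / 4 : ℝ) * ((n : ℝ) - 4))) ξ
        = Real.sqrt n * (0.995 : ℝ) ^ (((n : ℝ) - 4) / 2) *
        (1 - b ^ 2) ^ ((3 / 4 : ℝ) * ((n : ℝ) - 4)) :=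
      Set.indicator_of_mem (show ξ ∈ Icc (-1 : ℝ) 1 from ⟨hξ'.1.le, hξ'.2.le⟩) _
    rw [h4]
    have h5 : 0 ≤ om (n - 1) ξ * (1 - b ^ 2) ^ ((3 / 4 : ℝ) * ((n : ℝ) - 4)) := by positivity
    linarith

theorem cap_num_const {n : ℕ} (hn : 6 ≤ n) :
    Real.sqrt n * (0.995 : ℝ) ^ (((n : ℝ) - 4) / 2) ≤ 400 := by
  have hn' : (6 : ℝ) ≤ n := by exact_mod_cast hn
  have h1 : (0.995 : ℝ) ^ (((n : ℝ) - 4) / 2) ≤ Real.exp (-(((n : ℝ) - 4) / 400)) := by
    rw [Real.rpow_def_of_pos (by norm_num)]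
    refine Real.exp_le_exp.mpr ?_
    have h2 : Real.log (0.995 : ℝ) ≤ 0.995 - 1 := Real.log_le_sub_one_of_pos (by norm_num)
    nlinarith
  have h2 : Real.sqrt n ≤ n := by
    rw [Real.sqrt_le_left (by linarith)]
    nlinarith
  have h3 : ((n : ℝ) - 4) / 400 + 1 ≤ Real.exp (((n : ℝ) - 4) / 400) := Real.add_one_le_exp _
  have h4 : Real.sqrt n ≤ 400 * Real.exp (((n : ℝ) - 4) / 400) := by linarith
  calc Real.sqrt n * (0.995 : ℝ) ^ (((n : ℝ) - 4) / 2)
      ≤ (400 * Real.exp (((n : ℝ) - 4) / 400)) * Real.exp (-(((n : ℝ) - 4) / 400)) :=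
        mul_le_mul h4 h1 (by positivity) (by positivity)
    _ = 400 := by
        rw [mul_assoc, ← Real.exp_add, add_neg_cancel, Real.exp_zero, mul_one]

theorem cap_num_upper {n : ℕ} (hn : 6 ≤ n) {q b : ℝ} (hq0 : 0 ≤ q) (hq : q ≤ 169 / 625)
    (hb0 : 0 ≤ b) (hb1 : b ≤ 1) :
    ∫ ξ, om (n - 1) ξ * mm n (2 * b / Real.sqrt (2 + 2 * (q + (1 - q) * ξ))) ≤
      801 * (1 - b ^ 2) ^ ((3 / 4 : ℝ) * ((n : ℝ) - 4)) := by
  have hB0 : 0 ≤ 1 - b ^ 2 := by nlinarith
  obtain ⟨-, -, hnn, -, -, -, hint, hone, -, -⟩ := om_basic (n := n - 1) (by omega)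
  set A : ℝ := (1 - b ^ 2) ^ ((3 / 4 : ℝ) * ((n : ℝ) - 4)) with hA
  have hA0 : 0 ≤ A := by positivity
  set D : ℝ := Real.sqrt n * (0.995 : ℝ) ^ (((n : ℝ) - 4) / 2) * A with hD
  have hDA : D ≤ 400 * A := mul_le_mul_of_nonneg_right (cap_num_const hn) hA0
  have hi2 : Integrable ((Icc (-1 : ℝ) 1).indicator (fun _ => D)) := by
    refine (integrable_indicator_iff measurableSet_Icc).mpr ?_
    exact integrableOn_const (by simp) (by simp)
  have hle : ∫ ξ, om (n - 1) ξ * mm n (2 * b / Real.sqrt (2 + 2 * (q + (1 - q) * ξ))) ≤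
      ∫ ξ, (om (n - 1) ξ * A + (Icc (-1 : ℝ) 1).indicator (fun _ => D) ξ) := by
    refine integral_mono_of_nonneg (Eventually.of_forall fun ξ => ?_)
      ((hint.mul_const A).add hi2) (Eventually.of_forall fun ξ => ?_)
    · exact mul_nonneg (hnn ξ) (cap_num_mm_nonneg (by omega) _)
    · exact cap_num_point hn hq0 hq hb0 hb1
  refine hle.trans ?_
  rw [integral_add (hint.mul_const A) hi2, integral_mul_const, hone,
    integral_indicator measurableSet_Icc, setIntegral_const]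
  have hv : (volume : Measure ℝ).real (Icc (-1 : ℝ) 1) = 2 := by
    rw [Real.volume_real_Icc_of_le (by norm_num)]
    norm_num
  rw [hv, smul_eq_mul]
  linarith

theorem cap_num_lower {n : ℕ} (hn : 120 ≤ n) {b : ℝ} (hb0 : 0 ≤ b) (hb1 : b < 1) :
    (1 - b ^ 2) ^ ((3 / 4 : ℝ) * ((n : ℝ) - 4)) ≤
      (80 * (1000 : ℝ) ^ ((7 : ℝ) / 5)) * (mm n b) ^ ((7 : ℝ) / 5) := by
  have hB0 : 0 < 1 - b ^ 2 := by nlinarith
  have hB1 : 1 - b ^ 2 ≤ 1 := by nlinarith
  have hn' : (120 : ℝ) ≤ n := by exact_mod_cast hn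
  have hl := mm_lower (n := n) (by omega) hb0 hb1
  set x : ℝ := b * Real.sqrt n with hx
  have hx0 : 0 ≤ x := by positivity
  have hx2 : x ^ 2 = b ^ 2 * n := by
    rw [hx, mul_pow, Real.sq_sqrt (by linarith)]
  have h1 : ((1 - b ^ 2) ^ (((n : ℝ) - 1) / 2) / (1000 * (1 + x))) ^ ((7 : ℝ) / 5)
      ≤ (mm n b) ^ ((7 : ℝ) / 5) := Real.rpow_le_rpow (by positivity) hl (by norm_num)
  have h2 : ((1 - b ^ 2) ^ (((n : ℝ) - 1) / 2) / (1000 * (1 + x))) ^ ((7 : ℝ) / 5)
      = (1 - b ^ 2) ^ ((7 / 10 : ℝ) * ((n : ℝ) - 1)) /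
        ((1000 : ℝ) ^ ((7 : ℝ) / 5) * (1 + x) ^ ((7 : ℝ) / 5)) := by
    rw [Real.div_rpow (by positivity) (by positivity), ← Real.rpow_mul hB0.le,
      Real.mul_rpow (by norm_num) (by positivity)]
    congr 2
    ring
  rw [h2] at h1
  have h3 : (1 + x) ^ ((7 : ℝ) / 5) ≤ 80 * Real.exp (x ^ 2 / 40) := by
    have h4 : (1 + x) ^ ((7 : ℝ) / 5) ≤ (1 + x) ^ (2 : ℝ) :=
      Real.rpow_le_rpow_of_exponent_le (by linarith) (by norm_num)
    rw [Real.rpow_two] at h4
    have h5 : x ^ 2 / 40 + 1 ≤ Real.exp (x ^ 2 / 40) := Real.add_one_le_exp _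
    nlinarith [sq_nonneg (x - 1)]
  have h4 : (1 - b ^ 2) ^ ((n : ℝ) / 40) ≤ Real.exp (-(x ^ 2 / 40)) := by
    rw [Real.rpow_def_of_pos hB0]
    refine Real.exp_le_exp.mpr ?_
    have h5 : Real.log (1 - b ^ 2) ≤ (1 - b ^ 2) - 1 := Real.log_le_sub_one_of_pos hB0
    rw [hx2]
    nlinarith
  have h5 : (1 - b ^ 2) ^ ((3 / 4 : ℝ) * ((n : ℝ) - 4)) ≤
      (1 - b ^ 2) ^ ((7 / 10 : ℝ) * ((n : ℝ) - 1)) * (1 - b ^ 2) ^ ((n : ℝ) / 40) := by
    rw [← Real.rpow_add hB0]
    exact Real.rpow_le_rpow_of_exponent_ge hB0 hB1 (by linarith)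
  have hP : 0 ≤ (1 - b ^ 2) ^ ((7 / 10 : ℝ) * ((n : ℝ) - 1)) := by positivity
  have hK : (0 : ℝ) < (1000 : ℝ) ^ ((7 : ℝ) / 5) := by positivity
  have hX : (0 : ℝ) < (1 + x) ^ ((7 : ℝ) / 5) := by positivity
  have h6 : (1 - b ^ 2) ^ ((n : ℝ) / 40) * (1 + x) ^ ((7 : ℝ) / 5) ≤ 80 := by
    calc (1 - b ^ 2) ^ ((n : ℝ) / 40) * (1 + x) ^ ((7 : ℝ) / 5)
        ≤ Real.exp (-(x ^ 2 / 40)) * (80 * Real.exp (x ^ 2 / 40)) :=
          mul_le_mul h4 h3 hX.le (by positivity)
      _ = 80 * (Real.exp (-(x ^ 2 / 40)) * Real.exp (x ^ 2 / 40)) := by ring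
      _ = 80 := by rw [← Real.exp_add, neg_add_cancel, Real.exp_zero, mul_one]
  have h7 : (1 - b ^ 2) ^ ((n : ℝ) / 40) ≤ 80 / (1 + x) ^ ((7 : ℝ) / 5) := by
    rw [le_div_iff₀ hX]
    exact h6
  calc (1 - b ^ 2) ^ ((3 / 4 : ℝ) * ((n : ℝ) - 4))
      ≤ (1 - b ^ 2) ^ ((7 / 10 : ℝ) * ((n : ℝ) - 1)) * (80 / (1 + x) ^ ((7 : ℝ) / 5)) :=
        h5.trans (mul_le_mul_of_nonneg_left h7 hP)
    _ = (80 * (1000 : ℝ) ^ ((7 : ℝ) / 5)) * ((1 - b ^ 2) ^ ((7 / 10 : ℝ) * ((n : ℝ) - 1)) /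
        ((1000 : ℝ) ^ ((7 : ℝ) / 5) * (1 + x) ^ ((7 : ℝ) / 5))) := by
        field_simp
    _ ≤ _ := mul_le_mul_of_nonneg_left h1 (by positivity)

theorem cap_num : ∃ C : ℝ, 0 < C ∧ ∃ n0 : ℕ, ∀ n : ℕ, n0 ≤ n → ∀ r : ℝ, |r| ≤ 13 / 25 →
    ∀ b : ℝ, 0 ≤ b → b ≤ 1 → ∫ ξ, om (n - 1) ξ *
        mm n (2 * b / Real.sqrt (2 + 2 * (r ^ 2 + (1 - r ^ 2) * ξ))) ≤ C * (mm n b) ^ ((7 : ℝ) / 5) := by
  refine ⟨801 * (80 * (1000 : ℝ) ^ ((7 : ℝ) / 5)), by positivity, 120, ?_⟩
  intro n hn r hr b hb0 hb1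
  have hr' := abs_le.mp hr
  have hu := cap_num_upper (n := n) (by omega) (q := r ^ 2) (b := b) (sq_nonneg r)
    (by nlinarith) hb0 hb1
  refine hu.trans ?_
  rcases hb1.lt_or_eq with h | h
  · have hl := cap_num_lower hn hb0 h
    calc 801 * (1 - b ^ 2) ^ ((3 / 4 : ℝ) * ((n : ℝ) - 4))
        ≤ 801 * ((80 * (1000 : ℝ) ^ ((7 : ℝ) / 5)) * (mm n b) ^ ((7 : ℝ) / 5)) :=
          mul_le_mul_of_nonneg_left hl (by norm_num)
      _ = _ := by ring
  · have hn' : (120 : ℝ) ≤ n := by exact_mod_cast hn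
    have h0 : (1 - b ^ 2) ^ ((3 / 4 : ℝ) * ((n : ℝ) - 4)) = 0 := by
      rw [h]
      norm_num
      exact Real.zero_rpow (by linarith)
    rw [h0, mul_zero]
    have := cap_num_mm_nonneg (n := n) (by omega) b
    positivity

section Riesz
variable {E : Type*} [NormedAddCommGroup E] [InnerProductSpace ℝ E] [CompleteSpace E]
  [FiniteDimensional ℝ E] [MeasurableSpace E] [BorelSpace E]

/-- the bilinear functional -/
noncomputable def JJ (κ : ℝ → ℝ) (f : SS E → ℝ) : ℝ :=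
  ∫ x, ∫ y, f x * (κ ⟪(x : E), (y : E)⟫ * f y) ∂(sm E) ∂(sm E)

-- pol_JJ
theorem pol_JJ_alg {a a' b b' K K' : ℝ} (hK : K' ≤ K) :
    K * (a * b + a' * b') + K' * (a' * b + a * b') ≤
      K * (max a a' * max b b' + min a a' * min b b') +
        K' * (min a a' * max b b' + max a a' * min b b') := by
  rcases le_total a a' with h1 | h1 <;> rcases le_total b b' with h2 | h2 <;>
    simp only [max_eq_left, max_eq_right, min_eq_left, min_eq_right, h1, h2] <;>
    nlinarith [mul_nonneg (sub_nonneg.2 hK) (mul_nonneg (sub_nonneg.2 h1) (sub_nonneg.2 h2))]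

theorem pol_JJ_case (w : E) (f : SS E → ℝ) (x : SS E) :
    (0 ≤ ⟪w, (x : E)⟫ ∧ pol w f x = max (f x) (f (sa (hh w) x)) ∧
      pol w f (sa (hh w) x) = min (f x) (f (sa (hh w) x))) ∨
    (⟪w, (x : E)⟫ ≤ 0 ∧ pol w f x = min (f x) (f (sa (hh w) x)) ∧
      pol w f (sa (hh w) x) = max (f x) (f (sa (hh w) x))) := by
  have e1 : ⟪w, (sa (hh w) x : E)⟫ = - ⟪w, (x : E)⟫ := by
    rw [sa_coe]; exact hh_inner w x
  rcases lt_trichotomy ⟪w, (x : E)⟫ 0 with h | h | h
  · right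
    refine ⟨h.le, ?_, ?_⟩
    · unfold pol; rw [if_neg (not_le.2 h)]
    · unfold pol
      rw [e1, if_pos (by linarith), hh_sa, max_comm]
  · left
    have e2 : sa (hh w) x = x := hh_sa_fix h
    refine ⟨h.ge, ?_, ?_⟩
    · unfold pol; rw [if_pos h.ge]
    · rw [e2]
      unfold pol
      rw [if_pos h.ge, e2, max_self, min_self]
  · left
    refine ⟨h.le, ?_, ?_⟩
    · unfold pol; rw [if_pos h.le]
    · unfold pol
      rw [e1, if_neg (by linarith), hh_sa, min_comm]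

theorem pol_JJ_in (w : E) (x y : SS E) :
    ⟪(sa (hh w) x : E), (sa (hh w) y : E)⟫ = ⟪(x : E), (y : E)⟫ ∧
    ⟪(sa (hh w) x : E), (y : E)⟫ = ⟪(x : E), (sa (hh w) y : E)⟫ ∧
    ⟪(x : E), (sa (hh w) y : E)⟫ = ⟪(x : E), (y : E)⟫ -
      2 * (⟪w, (x : E)⟫ * ⟪w, (y : E)⟫) / ‖w‖ ^ 2 := by
  have h1 : ⟪(sa (hh w) x : E), (sa (hh w) y : E)⟫ = ⟪(x : E), (y : E)⟫ := by
    rw [sa_coe, sa_coe]; exact av_inner _ _ _
  refine ⟨h1, ?_, ?_⟩
  · have h2 : ⟪(sa (hh w) x : E), (sa (hh w) (sa (hh w) y) : E)⟫ =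
        ⟪(x : E), (sa (hh w) y : E)⟫ := by
      rw [sa_coe, sa_coe (hh w) (sa (hh w) y)]; exact av_inner _ _ _
    rw [hh_sa] at h2
    exact h2
  · rw [sa_coe, hh_apply, inner_sub_right, inner_smul_right, real_inner_comm w (x : E)]
    ring

/-- the pointwise inequality -/
theorem pol_JJ_pt {κ : ℝ → ℝ} (hκ : Monotone κ) (w : E) (f : SS E → ℝ) (x y : SS E) :
    f x * (κ ⟪(x : E), (y : E)⟫ * f y) +
      f (sa (hh w) x) * (κ ⟪(sa (hh w) x : E), (y : E)⟫ * f y) +
      f x * (κ ⟪(x : E), (sa (hh w) y : E)⟫ * f (sa (hh w) y)) +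
      f (sa (hh w) x) * (κ ⟪(sa (hh w) x : E), (sa (hh w) y : E)⟫ * f (sa (hh w) y)) ≤
    pol w f x * (κ ⟪(x : E), (y : E)⟫ * pol w f y) +
      pol w f (sa (hh w) x) * (κ ⟪(sa (hh w) x : E), (y : E)⟫ * pol w f y) +
      pol w f x * (κ ⟪(x : E), (sa (hh w) y : E)⟫ * pol w f (sa (hh w) y)) +
      pol w f (sa (hh w) x) * (κ ⟪(sa (hh w) x : E), (sa (hh w) y : E)⟫ *
        pol w f (sa (hh w) y)) := by
  obtain ⟨i1, i2, i3⟩ := pol_JJ_in w x y
  rw [i1, i2]
  have hpos : 0 ≤ ‖w‖ ^ 2 := by positivity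
  rcases pol_JJ_case w f x with ⟨s, hA, hA'⟩ | ⟨s, hA, hA'⟩ <;>
    rcases pol_JJ_case w f y with ⟨t, hB, hB'⟩ | ⟨t, hB, hB'⟩ <;>
    rw [hA, hA', hB, hB']
  · have hK : κ ⟪(x : E), (sa (hh w) y : E)⟫ ≤ κ ⟪(x : E), (y : E)⟫ := by
      refine hκ ?_
      rw [i3]
      have : 0 ≤ 2 * (⟪w, (x : E)⟫ * ⟪w, (y : E)⟫) / ‖w‖ ^ 2 :=
        div_nonneg (mul_nonneg (by norm_num) (mul_nonneg s t)) hpos
      linarith
    have := pol_JJ_alg (a := f x) (a' := f (sa (hh w) x)) (b := f y) (b' := f (sa (hh w) y)) hK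
    linarith
  · have hK : κ ⟪(x : E), (y : E)⟫ ≤ κ ⟪(x : E), (sa (hh w) y : E)⟫ := by
      refine hκ ?_
      rw [i3]
      have : 2 * (⟪w, (x : E)⟫ * ⟪w, (y : E)⟫) / ‖w‖ ^ 2 ≤ 0 :=
        div_nonpos_of_nonpos_of_nonneg (by nlinarith [mul_nonneg s (neg_nonneg.2 t)]) hpos
      linarith
    have := pol_JJ_alg (a := f x) (a' := f (sa (hh w) x)) (b := f (sa (hh w) y)) (b' := f y) hK
    rw [max_comm (f (sa (hh w) y)) (f y), min_comm (f (sa (hh w) y)) (f y)] at this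
    linarith
  · have hK : κ ⟪(x : E), (y : E)⟫ ≤ κ ⟪(x : E), (sa (hh w) y : E)⟫ := by
      refine hκ ?_
      rw [i3]
      have : 2 * (⟪w, (x : E)⟫ * ⟪w, (y : E)⟫) / ‖w‖ ^ 2 ≤ 0 :=
        div_nonpos_of_nonpos_of_nonneg (by nlinarith [mul_nonneg t (neg_nonneg.2 s)]) hpos
      linarith
    have := pol_JJ_alg (a := f x) (a' := f (sa (hh w) x)) (b := f (sa (hh w) y)) (b' := f y) hK
    rw [max_comm (f (sa (hh w) y)) (f y), min_comm (f (sa (hh w) y)) (f y)] at this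
    linarith
  · have hK : κ ⟪(x : E), (sa (hh w) y : E)⟫ ≤ κ ⟪(x : E), (y : E)⟫ := by
      refine hκ ?_
      rw [i3]
      have : 0 ≤ 2 * (⟪w, (x : E)⟫ * ⟪w, (y : E)⟫) / ‖w‖ ^ 2 :=
        div_nonneg (mul_nonneg (by norm_num) (mul_nonneg_of_nonpos_of_nonpos s t)) hpos
      linarith
    have := pol_JJ_alg (a := f x) (a' := f (sa (hh w) x)) (b := f y) (b' := f (sa (hh w) y)) hK
    linarith

/-- symmetrisation over the four pairs -/
theorem pol_JJ_four {κ : ℝ → ℝ} (hκ : Monotone κ) (hκb : ∃ C : ℝ, ∀ s, |κ s| ≤ C) (w : E)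
    (hne : Nonempty (SS E)) {f : SS E → ℝ} (hf : Continuous f) :
    Integrable (fun z : SS E × SS E => f z.1 * (κ ⟪(z.1 : E), (z.2 : E)⟫ * f z.2) +
      f (sa (hh w) z.1) * (κ ⟪(sa (hh w) z.1 : E), (z.2 : E)⟫ * f z.2) +
      f z.1 * (κ ⟪(z.1 : E), (sa (hh w) z.2 : E)⟫ * f (sa (hh w) z.2)) +
      f (sa (hh w) z.1) * (κ ⟪(sa (hh w) z.1 : E), (sa (hh w) z.2 : E)⟫ * f (sa (hh w) z.2)))
      ((sm E).prod (sm E)) ∧
    ∫ z : SS E × SS E, (f z.1 * (κ ⟪(z.1 : E), (z.2 : E)⟫ * f z.2) +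
      f (sa (hh w) z.1) * (κ ⟪(sa (hh w) z.1 : E), (z.2 : E)⟫ * f z.2) +
      f z.1 * (κ ⟪(z.1 : E), (sa (hh w) z.2 : E)⟫ * f (sa (hh w) z.2)) +
      f (sa (hh w) z.1) * (κ ⟪(sa (hh w) z.1 : E), (sa (hh w) z.2 : E)⟫ * f (sa (hh w) z.2)))
      ∂((sm E).prod (sm E)) = 4 * JJ κ f := by
  classical
  have hfin : 1 ≤ Module.finrank ℝ E := by
    obtain ⟨x⟩ := hne
    have hx : (x : E) ≠ 0 := by
      intro h
      have := norm_eq_of_mem_sphere x
      rw [h, norm_zero] at this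
      exact zero_ne_one this
    have : Nontrivial E := ⟨⟨(x : E), 0, hx⟩⟩
    exact Module.finrank_pos
  have := sm_prob (E := E) hfin
  set h := hh w with hh_def
  have hcont : Continuous (sa h : SS E → SS E) := sa_continuous_right h
  have hemb : MeasurableEmbedding (sa h : SS E → SS E) :=
    (Homeomorph.mk ⟨sa h, sa h, hh_sa w, hh_sa w⟩ hcont hcont :
      SS E ≃ₜ SS E).measurableEmbedding
  have inv : ∀ φ : SS E → ℝ, ∫ x, φ (sa h x) ∂(sm E) = ∫ x, φ x ∂(sm E) :=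
    fun φ => (sm_inv h).integral_comp hemb φ
  obtain ⟨C, hC⟩ := hκb
  obtain ⟨D, hD⟩ : ∃ D : ℝ, ∀ x, |f x| ≤ D := by
    obtain ⟨D, hD⟩ := isCompact_univ.exists_bound_of_continuousOn (s := (univ : Set (SS E)))
      (f := f) hf.continuousOn
    exact ⟨D, fun x => hD x (mem_univ x)⟩
  have hκm : Measurable κ := hκ.measurable
  -- the basic integrand
  have hin : Continuous (fun z : SS E × SS E => ⟪(z.1 : E), (z.2 : E)⟫) :=
    (continuous_subtype_val.comp continuous_fst).inner (continuous_subtype_val.comp continuous_snd)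
  have hGm : Measurable (fun z : SS E × SS E => f z.1 * (κ ⟪(z.1 : E), (z.2 : E)⟫ * f z.2)) :=
    (hf.measurable.comp measurable_fst).mul
      ((hκm.comp hin.measurable).mul (hf.measurable.comp measurable_snd))
  have hGb : ∀ z : SS E × SS E, ‖f z.1 * (κ ⟪(z.1 : E), (z.2 : E)⟫ * f z.2)‖ ≤ D * (C * D) := by
    intro z
    have hD0 : 0 ≤ D := (abs_nonneg _).trans (hD z.1)
    have hC0 : 0 ≤ C := (abs_nonneg _).trans (hC 0)
    rw [Real.norm_eq_abs, abs_mul, abs_mul]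
    exact mul_le_mul (hD _) (mul_le_mul (hC _) (hD _) (abs_nonneg _) hC0)
      (mul_nonneg (abs_nonneg _) (abs_nonneg _)) hD0
  have key : ∀ T : SS E × SS E → SS E × SS E, Measurable T →
      Integrable (fun z => f (T z).1 * (κ ⟪((T z).1 : E), ((T z).2 : E)⟫ * f (T z).2))
        ((sm E).prod (sm E)) := by
    intro T hT
    refine Integrable.of_bound (hGm.comp hT).aestronglyMeasurable (D * (C * D)) ?_
    exact Filter.Eventually.of_forall fun z => hGb (T z)
  have k1 := key id measurable_id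
  have k2 := key (fun z => (sa h z.1, z.2))
    ((hcont.measurable.comp measurable_fst).prodMk measurable_snd)
  have k3 := key (fun z => (z.1, sa h z.2))
    (measurable_fst.prodMk (hcont.measurable.comp measurable_snd))
  have k4 := key (fun z => (sa h z.1, sa h z.2))
    ((hcont.measurable.comp measurable_fst).prodMk (hcont.measurable.comp measurable_snd))
  simp only [id] at k1 k2 k3 k4
  refine ⟨((k1.add k2).add k3).add k4, ?_⟩
  have e1 : ∫ z : SS E × SS E, f z.1 * (κ ⟪(z.1 : E), (z.2 : E)⟫ * f z.2)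
      ∂((sm E).prod (sm E)) = JJ κ f := by
    rw [integral_prod _ k1]; rfl
  have e2 : ∫ z : SS E × SS E, f (sa h z.1) * (κ ⟪(sa h z.1 : E), (z.2 : E)⟫ * f z.2)
      ∂((sm E).prod (sm E)) = JJ κ f := by
    rw [integral_prod _ k2]
    exact inv (fun x => ∫ y, f x * (κ ⟪(x : E), (y : E)⟫ * f y) ∂(sm E))
  have e3 : ∫ z : SS E × SS E, f z.1 * (κ ⟪(z.1 : E), (sa h z.2 : E)⟫ * f (sa h z.2))
      ∂((sm E).prod (sm E)) = JJ κ f := by
    rw [integral_prod _ k3]
    unfold JJ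
    refine integral_congr_ae (Filter.Eventually.of_forall fun x => ?_)
    exact inv (fun y => f x * (κ ⟪(x : E), (y : E)⟫ * f y))
  have e4 : ∫ z : SS E × SS E, f (sa h z.1) * (κ ⟪(sa h z.1 : E), (sa h z.2 : E)⟫ * f (sa h z.2))
      ∂((sm E).prod (sm E)) = JJ κ f := by
    rw [integral_prod _ k4]
    unfold JJ
    rw [← inv (fun x => ∫ y, f x * (κ ⟪(x : E), (y : E)⟫ * f y) ∂(sm E))]
    refine integral_congr_ae (Filter.Eventually.of_forall fun x => ?_)
    exact inv (fun y => f (sa h x) * (κ ⟪(sa h x : E), (y : E)⟫ * f y))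
  have s1 := integral_add ((k1.add k2).add k3) k4
  have s2 := integral_add (k1.add k2) k3
  have s3 := integral_add k1 k2
  simp only [Pi.add_apply] at s1 s2 s3
  rw [s1, s2, s3, e1, e2, e3, e4]
  ring

theorem pol_JJ {κ : ℝ → ℝ} (hκ : Monotone κ) (hκb : ∃ C : ℝ, ∀ s, |κ s| ≤ C) (w : E)
    {f : SS E → ℝ} (hf : Continuous f) (hp : Continuous (pol w f)) :
    JJ κ f ≤ JJ κ (pol w f) := by
  rcases isEmpty_or_nonempty (SS E) with hE | hE
  · unfold JJ
    rw [integral_of_isEmpty, integral_of_isEmpty]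
  · obtain ⟨i1, e1⟩ := pol_JJ_four hκ hκb w hE hf
    obtain ⟨i2, e2⟩ := pol_JJ_four hκ hκb w hE hp
    have := integral_mono i1 i2 (fun z => pol_JJ_pt hκ w f z.1 z.2)
    rw [e1, e2] at this
    linarith

-- riesz
open scoped BoundedContinuousFunction in
/-- Lipschitz functions with a given law -/
def riesz_LF (L M : ℝ) (x0 : SS E) (f : SS E → ℝ) : Set (SS E →ᵇ ℝ) :=
  {u | (∀ x y : SS E, |u x - u y| ≤ L * ‖(x : E) - y‖) ∧ (∀ x, u x ∈ Icc (-M) M) ∧
    ∀ ψ : ℝ →ᵇ ℝ, ∫ g, ψ (u (sa g x0)) ∂(hm E) = ∫ g, ψ (f (sa g x0)) ∂(hm E)}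

open scoped BoundedContinuousFunction in
theorem riesz_cont_int (x0 : SS E) (ψ : ℝ →ᵇ ℝ) :
    Continuous (fun u : SS E →ᵇ ℝ => ∫ g, ψ (u (sa g x0)) ∂(hm E)) := by
  refine continuous_of_dominated (bound := fun _ => ‖ψ‖) (fun u => ?_) (fun u => ?_)
    (integrable_const _) ?_
  · exact (ψ.continuous.comp (u.continuous.comp (sa_continuous_left x0))).aestronglyMeasurable
  · exact Eventually.of_forall fun g => ψ.norm_coe_le_norm _
  · refine Eventually.of_forall fun g => ψ.continuous.comp ?_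
    exact (continuous_apply (sa g x0)).comp BoundedContinuousFunction.continuous_coe

open scoped BoundedContinuousFunction in
theorem riesz_LF_closed (L M : ℝ) (x0 : SS E) (f : SS E → ℝ) : IsClosed (riesz_LF L M x0 f) := by
  have hev : ∀ x : SS E, Continuous (fun u : SS E →ᵇ ℝ => u x) := fun x =>
    (continuous_apply x).comp BoundedContinuousFunction.continuous_coe
  have e : riesz_LF L M x0 f
      = (⋂ x : SS E, ⋂ y : SS E, {u : SS E →ᵇ ℝ | |u x - u y| ≤ L * ‖(x : E) - y‖})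
      ∩ (⋂ x : SS E, {u : SS E →ᵇ ℝ | u x ∈ Icc (-M) M})
      ∩ (⋂ ψ : ℝ →ᵇ ℝ, {u : SS E →ᵇ ℝ | ∫ g, ψ (u (sa g x0)) ∂(hm E)
          = ∫ g, ψ (f (sa g x0)) ∂(hm E)}) := by
    ext u
    simp only [riesz_LF, mem_ofPred_eq, mem_inter_iff, mem_iInter, and_assoc]
  rw [e]
  refine (IsClosed.inter (isClosed_iInter fun x => isClosed_iInter fun y => ?_)
    (isClosed_iInter fun x => ?_)).inter (isClosed_iInter fun ψ => ?_)
  · exact isClosed_le (((hev x).sub (hev y)).abs) continuous_const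
  · exact isClosed_Icc.preimage (hev x)
  · exact isClosed_eq (riesz_cont_int x0 ψ) continuous_const

open scoped BoundedContinuousFunction in
theorem riesz_LF_compact (L M : ℝ) (x0 : SS E) (f : SS E → ℝ) :
    IsCompact (riesz_LF L M x0 f) := by
  refine BoundedContinuousFunction.arzela_ascoli₂ (Icc (-M) M) isCompact_Icc _
    (riesz_LF_closed L M x0 f) (fun u x hu => hu.2.1 x) ?_
  refine (LipschitzWith.uniformEquicontinuous _ (Real.toNNReal L) ?_).equicontinuous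
  rintro ⟨u, hu⟩
  refine LipschitzWith.of_dist_le_mul fun x y => ?_
  rw [Real.dist_eq, Subtype.dist_eq, dist_eq_norm]
  exact (hu.1 x y).trans (mul_le_mul_of_nonneg_right (Real.le_coe_toNNReal L) (norm_nonneg _))

open scoped BoundedContinuousFunction in
/-- the law of a polarised function -/
theorem riesz_pol_law (w : E) {f : SS E → ℝ} (hf : Continuous f) (hp : Continuous (pol w f))
    (x0 : SS E) (ψ : ℝ →ᵇ ℝ) :
    ∫ g, ψ (pol w f (sa g x0)) ∂(hm E) = ∫ g, ψ (f (sa g x0)) ∂(hm E) := by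
  have hi : ∀ u : SS E → ℝ, Continuous u → ∀ h : UG E,
      Integrable (fun g => ψ (u (sa (h * g) x0))) (hm E) := fun u hu h =>
    hm_integrable (ψ.continuous.comp (hu.comp ((sa_continuous_left x0).comp
      (continuous_const.mul continuous_id))))
  have e1 := hm_int_left (hh w) (fun g => ψ (pol w f (sa g x0)))
  have e2 := hm_int_left (hh w) (fun g => ψ (f (sa g x0)))
  have i1 := hi _ hp (hh w)
  have i2 := hi _ hf (hh w)
  have i3 := hi _ hp 1
  have i4 := hi _ hf 1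
  simp only [one_mul] at i3 i4
  have e3 : ∫ g, (ψ (pol w f (sa g x0)) + ψ (pol w f (sa (hh w * g) x0))) ∂(hm E)
      = ∫ g, (ψ (f (sa g x0)) + ψ (f (sa (hh w * g) x0))) ∂(hm E) := by
    congr 1
    funext g
    rw [sa_mul]
    exact pol_pair w f ψ _
  rw [integral_add i3 i1, integral_add i4 i2, e1, e2] at e3
  linarith

open scoped BoundedContinuousFunction in
theorem riesz_law_eq {x0 : SS E} {u f : SS E → ℝ} (hu : Continuous u) (hf : Continuous f)
    (h : ∀ ψ : ℝ →ᵇ ℝ, ∫ g, ψ (u (sa g x0)) ∂(hm E) = ∫ g, ψ (f (sa g x0)) ∂(hm E))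
    {s : Set ℝ} (hs : MeasurableSet s) :
    (hm E).real {g | u (sa g x0) ∈ s} = (hm E).real {g | f (sa g x0) ∈ s} := by
  have mu : Measurable (fun g : UG E => u (sa g x0)) :=
    (hu.comp (sa_continuous_left x0)).measurable
  have mf : Measurable (fun g : UG E => f (sa g x0)) :=
    (hf.comp (sa_continuous_left x0)).measurable
  have p1 : IsProbabilityMeasure ((hm E).map (fun g : UG E => u (sa g x0))) :=
    Measure.isProbabilityMeasure_map mu.aemeasurable
  have p2 : IsProbabilityMeasure ((hm E).map (fun g : UG E => f (sa g x0))) :=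
    Measure.isProbabilityMeasure_map mf.aemeasurable
  have e : (hm E).map (fun g : UG E => u (sa g x0)) = (hm E).map (fun g : UG E => f (sa g x0)) := by
    apply ext_of_forall_integral_eq_of_IsFiniteMeasure
    intro ψ
    rw [integral_map mu.aemeasurable ψ.continuous.aestronglyMeasurable,
      integral_map mf.aemeasurable ψ.continuous.aestronglyMeasurable]
    exact h ψ
  have e2 := congrArg (fun m => m.real s) e
  simp only [map_measureReal_apply mu hs, map_measureReal_apply mf hs] at e2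
  exact e2

theorem riesz_trans (hn : 1 ≤ Module.finrank ℝ E) (x y : SS E) : ∃ g : UG E, sa g x = y := by
  obtain ⟨n, hn⟩ : ∃ n, Module.finrank ℝ E = n + 1 := ⟨Module.finrank ℝ E - 1, by omega⟩
  obtain ⟨b, hb⟩ := exists_onb1 hn (x : E) (norm_eq_of_mem_sphere x)
  obtain ⟨c, hc⟩ := exists_onb1 hn (y : E) (norm_eq_of_mem_sphere y)
  obtain ⟨h, hh⟩ := exists_UG b c
  have h0 := hh 0
  rw [hb, hc] at h0
  exact ⟨h, Subtype.ext (by rw [sa_coe, h0])⟩

open scoped BoundedContinuousFunction in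
theorem riesz_JJ_cont (hn : 1 ≤ Module.finrank ℝ E) {κ : ℝ → ℝ} (hκ : Monotone κ)
    (hκb : ∃ C : ℝ, ∀ s, |κ s| ≤ C) {M : ℝ} (hM : 0 ≤ M) :
    Continuous (fun u : SS E →ᵇ ℝ => JJ κ (fun x => max (-M) (min M (u x)))) := by
  obtain ⟨C, hC⟩ := hκb
  have hpr : IsProbabilityMeasure (sm E) := sm_prob hn
  have hC0 : 0 ≤ C := (abs_nonneg _).trans (hC 0)
  have hclamp : ∀ r : ℝ, |max (-M) (min M r)| ≤ M := by
    intro r
    rw [abs_le]
    exact ⟨le_max_left _ _, max_le (by linarith) (min_le_left _ _)⟩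
  have hev : ∀ x : SS E, Continuous (fun u : SS E →ᵇ ℝ => max (-M) (min M (u x))) := fun x =>
    continuous_const.max (continuous_const.min
      ((continuous_apply x).comp BoundedContinuousFunction.continuous_coe))
  have hcm : ∀ u : SS E →ᵇ ℝ, Measurable (fun x : SS E => max (-M) (min M (u x))) := fun u =>
    (continuous_const.max (continuous_const.min u.continuous)).measurable
  have hin : Measurable (fun p : SS E × SS E => κ ⟪(p.1 : E), (p.2 : E)⟫) := by
    refine hκ.measurable.comp (Continuous.measurable ?_)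
    exact (continuous_subtype_val.comp continuous_fst).inner
      (continuous_subtype_val.comp continuous_snd)
  have hmeas : ∀ u : SS E →ᵇ ℝ, Measurable (fun p : SS E × SS E =>
      max (-M) (min M (u p.1)) * (κ ⟪(p.1 : E), (p.2 : E)⟫ * max (-M) (min M (u p.2)))) := fun u =>
    ((hcm u).comp measurable_fst).mul (hin.mul ((hcm u).comp measurable_snd))
  have hbd : ∀ (u : SS E →ᵇ ℝ) (x y : SS E),
      ‖max (-M) (min M (u x)) * (κ ⟪(x : E), (y : E)⟫ * max (-M) (min M (u y)))‖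
        ≤ M * (C * M) := by
    intro u x y
    rw [Real.norm_eq_abs, abs_mul, abs_mul]
    exact mul_le_mul (hclamp _) (mul_le_mul (hC _) (hclamp _) (abs_nonneg _) hC0)
      (by positivity) hM
  unfold JJ
  refine continuous_of_dominated (bound := fun _ => M * (C * M)) (fun u => ?_) (fun u => ?_)
    (integrable_const _) ?_
  · exact ((hmeas u).stronglyMeasurable.integral_prod_right').aestronglyMeasurable
  · refine Eventually.of_forall fun x => ?_
    have := norm_integral_le_of_norm_le_const (μ := sm E)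
      (f := fun y : SS E => max (-M) (min M (u x)) * (κ ⟪(x : E), (y : E)⟫
        * max (-M) (min M (u y)))) (C := M * (C * M)) (Eventually.of_forall fun y => hbd u x y)
    simpa using this
  · refine Eventually.of_forall fun x => ?_
    refine continuous_of_dominated (bound := fun _ => M * (C * M)) (fun u => ?_) (fun u => ?_)
      (integrable_const _) ?_
    · exact ((hmeas u).comp measurable_prodMk_left).aestronglyMeasurable
    · exact Eventually.of_forall fun y => hbd u x y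
    · exact Eventually.of_forall fun y => (hev x).mul (continuous_const.mul (hev y))

open scoped BoundedContinuousFunction in
/-- rearrangement: a Lipschitz function with the same law, monotone in the height -/
theorem riesz_rearr (hn : 1 ≤ Module.finrank ℝ E) {κ : ℝ → ℝ} (hκ : Monotone κ)
    (hκb : ∃ C : ℝ, ∀ s, |κ s| ≤ C) {L M : ℝ} (hL : 0 ≤ L) (v : E) (x0 : SS E)
    {f : SS E → ℝ}
    (hf : ∀ x y : SS E, |f x - f y| ≤ L * ‖(x : E) - y‖) (hfM : ∀ x, f x ∈ Icc (-M) M) :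
    ∃ u : SS E → ℝ, (∀ x y : SS E, |u x - u y| ≤ L * ‖(x : E) - y‖) ∧
      (∀ x, u x ∈ Icc (-M) M) ∧
      (∀ ψ : ℝ →ᵇ ℝ, ∫ g, ψ (u (sa g x0)) ∂(hm E) = ∫ g, ψ (f (sa g x0)) ∂(hm E)) ∧
      (∀ x y : SS E, ⟪v, (y : E)⟫ < ⟪v, (x : E)⟫ → u y ≤ u x) ∧ JJ κ f ≤ JJ κ u := by
  set J : (SS E →ᵇ ℝ) → ℝ := fun u => ∫ g, max (-M) (min M (u (sa g x0))) * ⟪v, (sa g x0 : E)⟫
    ∂(hm E) with hJ
  have hvc : ∀ x : SS E, Continuous (fun g : UG E => ⟪v, (sa g x : E)⟫) := fun x =>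
    continuous_const.inner (continuous_subtype_val.comp (sa_continuous_left x))
  have hvb : ∀ x : SS E, |⟪v, (x : E)⟫| ≤ ‖v‖ := by
    intro x
    have := abs_real_inner_le_norm v (x : E)
    rwa [norm_eq_of_mem_sphere x, mul_one] at this
  have hM : -M ≤ M := (hfM x0).1.trans (hfM x0).2
  have hM0 : 0 ≤ M := by linarith
  have hclamp : ∀ r : ℝ, |max (-M) (min M r)| ≤ M := by
    intro r
    rw [abs_le]
    exact ⟨le_max_left _ _, max_le hM (min_le_left _ _)⟩
  have hJc : Continuous J := by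
    refine continuous_of_dominated (bound := fun _ => M * ‖v‖) (fun u => ?_) (fun u => ?_)
      (integrable_const _) ?_
    · exact ((continuous_const.max (continuous_const.min
        (u.continuous.comp (sa_continuous_left x0)))).mul (hvc x0)).aestronglyMeasurable
    · refine Eventually.of_forall fun g => ?_
      rw [Real.norm_eq_abs, abs_mul]
      exact mul_le_mul (hclamp _) (hvb _) (abs_nonneg _) ((abs_nonneg _).trans (hclamp 0))
    · refine Eventually.of_forall fun g => ?_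
      refine (continuous_const.max (continuous_const.min ?_)).mul continuous_const
      exact (continuous_apply (sa g x0)).comp BoundedContinuousFunction.continuous_coe
  have hJJe : ∀ q : SS E → ℝ, (∀ x, q x ∈ Icc (-M) M) →
      JJ κ (fun x => max (-M) (min M (q x))) = JJ κ q := by
    intro q hq
    congr 1
    funext x
    have := hq x
    rw [min_eq_right this.2, max_eq_right this.1]
  set S : Set (SS E →ᵇ ℝ) := riesz_LF L M x0 f ∩
    {u : SS E →ᵇ ℝ | JJ κ f ≤ JJ κ (fun x => max (-M) (min M (u x)))} with hS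
  have hSc : IsCompact S := (riesz_LF_compact L M x0 f).inter_right
    (isClosed_le continuous_const (riesz_JJ_cont hn hκ hκb hM0))
  have hne : S.Nonempty := by
    refine ⟨BoundedContinuousFunction.mkOfCompact ⟨f, cont_of_lip hf⟩, ⟨hf, hfM, fun ψ => rfl⟩, ?_⟩
    exact (hJJe f hfM).symm.le
  obtain ⟨u, ⟨hu, huJ⟩, hmax⟩ := hSc.exists_isMaxOn hne hJc.continuousOn
  have huJ' : JJ κ f ≤ JJ κ (u : SS E → ℝ) := by
    have h1 : JJ κ f ≤ JJ κ (fun x => max (-M) (min M (u x))) := huJ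
    rwa [hJJe u hu.2.1] at h1
  refine ⟨u, hu.1, hu.2.1, hu.2.2, fun x y hxy => ?_, huJ'⟩
  by_contra hcon
  push Not at hcon
  set w : E := (x : E) - y with hw
  have hwv : 0 < ⟪w, v⟫ := by
    rw [hw, real_inner_comm, inner_sub_right]; linarith
  have hw0 : 0 < ‖w‖ := by
    rw [norm_pos_iff]; rintro h; rw [h, inner_zero_left] at hwv; exact lt_irrefl _ hwv
  have hplip := pol_lip (w := w) hL hu.1
  have hpc : Continuous (pol w u) := cont_of_lip hplip
  have hpM := pol_mem (w := w) hu.2.1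
  set u' : SS E →ᵇ ℝ := BoundedContinuousFunction.mkOfCompact ⟨pol w u, hpc⟩ with hu'
  have hu'mem : u' ∈ S := by
    refine ⟨⟨hplip, hpM, fun ψ => ?_⟩, ?_⟩
    · rw [← hu.2.2 ψ]
      exact riesz_pol_law w u.continuous hpc x0 ψ
    · show JJ κ f ≤ JJ κ (fun x => max (-M) (min M (pol w u x)))
      rw [hJJe _ hpM]
      exact huJ'.trans (pol_JJ hκ hκb w u.continuous hpc)
  have hle : J u' ≤ J u := hmax hu'mem
  have hJe : ∀ q : SS E →ᵇ ℝ, (∀ x, q x ∈ Icc (-M) M) →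
      J q = ∫ g, q (sa g x0) * ⟪v, (sa g x0 : E)⟫ ∂(hm E) := by
    intro q hq
    simp only [hJ]
    congr 1
    funext g
    have := hq (sa g x0)
    rw [min_eq_right this.2, max_eq_right this.1]
  rw [hJe u' hpM, hJe u hu.2.1] at hle
  -- symmetrised integrals
  have hfl : ∀ q : SS E →ᵇ ℝ, ∀ h : UG E,
      Integrable (fun g => q (sa (h * g) x0) * ⟪v, (sa (h * g) x0 : E)⟫) (hm E) := by
    intro q h
    have hc : Continuous (fun g : UG E => sa (h * g) x0) :=
      (sa_continuous_left x0).comp (continuous_const.mul continuous_id)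
    exact hm_integrable ((q.continuous.comp hc).mul
      (continuous_const.inner (continuous_subtype_val.comp hc)))
  have e1 := hm_int_left (hh w) (fun g => u' (sa g x0) * ⟪v, (sa g x0 : E)⟫)
  have e2 := hm_int_left (hh w) (fun g => u (sa g x0) * ⟪v, (sa g x0 : E)⟫)
  have i1 := hfl u' (hh w)
  have i2 := hfl u (hh w)
  have i3 := hfl u' 1
  have i4 := hfl u 1
  simp only [one_mul] at i3 i4
  set KK' : SS E → ℝ := fun z => (pol w u z - u z) * (⟪v, (z : E)⟫ - ⟪v, (sa (hh w) z : E)⟫)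
    with hKK
  have hdiff : ∀ z : SS E, ⟪v, (z : E)⟫ - ⟪v, (sa (hh w) z : E)⟫
      = 2 * ⟪w, (z : E)⟫ / ‖w‖ ^ 2 * ⟪w, v⟫ := by
    intro z
    rw [sa_coe, hh_apply, inner_sub_right, real_inner_smul_right, real_inner_comm w v]
    ring
  have hKnn : ∀ z, 0 ≤ KK' z := by
    intro z
    have h1 := pol_sign w u z
    simp only [hKK]
    rw [hdiff]
    have : (pol w u z - u z) * (2 * ⟪w, (z : E)⟫ / ‖w‖ ^ 2 * ⟪w, v⟫)
        = ((pol w u z - u z) * ⟪w, (z : E)⟫) * (2 * ⟪w, v⟫ / ‖w‖ ^ 2) := by ring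
    rw [this]
    exact mul_nonneg h1 (by positivity)
  have hKc : Continuous KK' := by
    refine (hpc.sub u.continuous).mul ?_
    exact (continuous_const.inner continuous_subtype_val).sub
      (continuous_const.inner (continuous_subtype_val.comp (sa_continuous_right _)))
  have hKx : 0 < KK' x := by
    simp only [hKK]
    have hwx : 0 < ⟪w, (x : E)⟫ := by
      have h1 : ⟪w, (x : E)⟫ - ⟪w, (y : E)⟫ = ‖w‖ ^ 2 := by
        rw [← inner_sub_right, ← real_inner_self_eq_norm_sq]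
      have h2 : ⟪w, (y : E)⟫ = - ⟪w, (x : E)⟫ := by
        rw [hw, inner_sub_left, inner_sub_left, real_inner_self_eq_norm_sq,
          real_inner_self_eq_norm_sq, norm_eq_of_mem_sphere x, norm_eq_of_mem_sphere y,
          real_inner_comm (x : E) (y : E)]
        ring
      have h3 : 0 < ‖w‖ ^ 2 := by positivity
      linarith
    refine mul_pos ?_ ?_
    · unfold pol
      rw [if_pos hwx.le, hw, hh_sa_sub]
      have := le_max_right (u x) (u y)
      linarith
    · rw [hdiff]; positivity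
  have hKi : ∀ h : UG E, Integrable (fun g : UG E => KK' (sa g x0)) (hm E) := fun _ =>
    hm_integrable (hKc.comp (sa_continuous_left x0))
  have e3 : ∫ g, (u' (sa g x0) * ⟪v, (sa g x0 : E)⟫
        + u' (sa (hh w * g) x0) * ⟪v, (sa (hh w * g) x0 : E)⟫) ∂(hm E)
      = ∫ g, (u (sa g x0) * ⟪v, (sa g x0 : E)⟫
        + u (sa (hh w * g) x0) * ⟪v, (sa (hh w * g) x0 : E)⟫) ∂(hm E)
        + ∫ g, KK' (sa g x0) ∂(hm E) := by
    have i5 : Integrable (fun g => u (sa g x0) * ⟪v, (sa g x0 : E)⟫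
        + u (sa (hh w * g) x0) * ⟪v, (sa (hh w * g) x0 : E)⟫) (hm E) := i4.add i2
    rw [← integral_add i5 (hKi 1)]
    congr 1
    funext g
    rw [sa_mul]
    have h1 := pol_pair w u id (sa g x0)
    simp only [id] at h1
    have h2 : ∀ z, u' z = pol w u z := fun z => rfl
    simp only [h2, hKK]
    have h3 : pol w u (sa (hh w) (sa g x0))
        = u (sa g x0) + u (sa (hh w) (sa g x0)) - pol w u (sa g x0) := by linarith
    rw [h3]
    ring
  rw [integral_add i3 i1, integral_add i4 i2, e1, e2] at e3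
  have hpos : 0 < ∫ g, KK' (sa g x0) ∂(hm E) := by
    obtain ⟨g, hg⟩ := riesz_trans hn x0 x
    refine (hKc.comp (sa_continuous_left x0)).integral_pos_of_hasCompactSupport_nonneg_nonzero
      (HasCompactSupport.of_compactSpace _) (fun g => hKnn _) (x := g) ?_
    show KK' (sa g x0) ≠ 0
    rw [hg]
    exact hKx.ne'
  linarith

theorem riesz (hn : 1 ≤ Module.finrank ℝ E) {κ : ℝ → ℝ} (hκ : Monotone κ)
    (hκb : ∃ C : ℝ, ∀ s, |κ s| ≤ C) (v : E) {L M : ℝ} (hL : 0 ≤ L) {f : SS E → ℝ}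
    (hf : ∀ x y : SS E, |f x - f y| ≤ L * ‖(x : E) - y‖) (hfM : ∀ x, f x ∈ Icc (-M) M) :
    ∃ u : SS E → ℝ, (∀ x y : SS E, |u x - u y| ≤ L * ‖(x : E) - y‖) ∧
      (∀ x, u x ∈ Icc (-M) M) ∧
      (∀ s : ℝ, (sm E).real {x | s < u x} = (sm E).real {x | s < f x}) ∧
      (∫ x, u x ∂(sm E) = ∫ x, f x ∂(sm E)) ∧
      (∀ x y : SS E, ⟪v, (y : E)⟫ < ⟪v, (x : E)⟫ → u y ≤ u x) ∧ JJ κ f ≤ JJ κ u := by
  obtain ⟨x0⟩ := sm_nonempty hn
  obtain ⟨u, hu1, hu2, hu3, hu4, hu5⟩ := riesz_rearr hn hκ hκb hL v x0 hf hfM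
  have huc : Continuous u := cont_of_lip hu1
  have hfc : Continuous f := cont_of_lip hf
  have hM : -M ≤ M := (hfM x0).1.trans (hfM x0).2
  refine ⟨u, hu1, hu2, fun s => ?_, ?_, hu4, hu5⟩
  · have h1 := riesz_law_eq huc hfc hu3 (s := Ioi s) measurableSet_Ioi
    rw [sm_eq hn x0, map_measureReal_apply (sa_continuous_left x0).measurable
        (measurableSet_lt measurable_const huc.measurable),
      map_measureReal_apply (sa_continuous_left x0).measurable
        (measurableSet_lt measurable_const hfc.measurable)]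
    exact h1
  · rw [sm_int hn x0 huc.measurable, sm_int hn x0 hfc.measurable]
    set ψ : BoundedContinuousFunction ℝ ℝ := BoundedContinuousFunction.ofNormedAddCommGroup
      (fun r : ℝ => max (-M) (min M r))
      (continuous_const.max (continuous_const.min continuous_id)) M (by
        intro r
        rw [Real.norm_eq_abs, abs_le]
        exact ⟨le_max_left _ _, max_le hM (min_le_left _ _)⟩) with hψ
    have hq : ∀ q : SS E → ℝ, (∀ x, q x ∈ Icc (-M) M) → ∀ x, ψ (q x) = q x := by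
      intro q hq x
      show max (-M) (min M (q x)) = q x
      rw [min_eq_right (hq x).2, max_eq_right (hq x).1]
    have h1 := hu3 ψ
    simp only [hq u hu2, hq f hfM] at h1
    exact h1

end Riesz

-- sse_cap
theorem sse_cap_half {n : ℕ} (hn : 4 ≤ n) : mm n 0 = 1 / 2 := by
  obtain ⟨-, -, -, -, -, hsym, hint, htot, -, -⟩ := om_basic hn
  have h1 : ∫ s in Iic (0 : ℝ), om n s = mm n 0 := by
    have h := integral_comp_neg_Ioi (0 : ℝ) (om n)
    rw [neg_zero] at h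
    rw [← h, mm, integral_Ici_eq_integral_Ioi]
    exact setIntegral_congr_fun measurableSet_Ioi fun x _ => hsym x
  have h2 : ∫ s in Ioi (0 : ℝ), om n s = mm n 0 := by
    rw [mm, integral_Ici_eq_integral_Ioi]
  have h3 : (∫ s in Iic (0 : ℝ), om n s) + ∫ s in Ioi (0 : ℝ), om n s = 1 := by
    rw [← htot]
    have h4 := integral_add_compl (μ := volume) (measurableSet_Iic (a := (0 : ℝ))) hint
    rwa [compl_Iic] at h4
  linarith

theorem sse_cap : ∃ C : ℝ, 0 < C ∧ ∃ n0 : ℕ, 6 ≤ n0 ∧ ∀ (E : Type) [NormedAddCommGroup E]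
    [InnerProductSpace ℝ E] [CompleteSpace E] [FiniteDimensional ℝ E] [MeasurableSpace E]
    [BorelSpace E], n0 ≤ Module.finrank ℝ E → ∀ r : ℝ, |r| ≤ 13 / 25 → ∀ (v : SS E) (b : ℝ),
    ∫ x, (PP r (fun y => {y : SS E | b ≤ ⟪(v : E), (y : E)⟫}.indicator (fun _ => (1 : ℝ)) y) x) ^ 2
      ∂(sm E) ≤ C * ((sm E).real {y | b ≤ ⟪(v : E), (y : E)⟫}) ^ ((7 : ℝ) / 5) := by
  obtain ⟨C, hC, n0, h⟩ := cap_num
  refine ⟨C + 4, by linarith, max n0 6, le_max_right _ _, ?_⟩
  intro E _ _ _ _ _ _ hdim r hr v b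
  have h6 : 6 ≤ Module.finrank ℝ E := (le_max_right _ _).trans hdim
  have hn0 : n0 ≤ Module.finrank ℝ E := (le_max_left _ _).trans hdim
  have hprob : IsProbabilityMeasure (sm E) := sm_prob (by omega)
  have hr1 : |r| ≤ 1 := hr.trans (by norm_num)
  have hm0 : 0 ≤ (sm E).real {y : SS E | b ≤ ⟪(v : E), (y : E)⟫} := measureReal_nonneg
  have hcont : Continuous fun y : SS E => ⟪(v : E), (y : E)⟫ :=
    continuous_const.inner continuous_subtype_val
  have hset : MeasurableSet {y : SS E | b ≤ ⟪(v : E), (y : E)⟫} :=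
    (isClosed_le continuous_const hcont).measurableSet
  have hBM : BM (fun y : SS E => {y : SS E | b ≤ ⟪(v : E), (y : E)⟫}.indicator
      (fun _ => (1 : ℝ)) y) := by
    refine ⟨measurable_const.indicator hset, 1, fun x => ?_⟩
    dsimp only
    by_cases hx : x ∈ {y : SS E | b ≤ ⟪(v : E), (y : E)⟫}
    · rw [indicator_of_mem hx]; simp
    · rw [indicator_of_notMem hx]; simp
  rcases le_or_gt b 0 with hb | hb
  · -- large caps
    have hle : ∫ x, (PP r (fun y => {y : SS E | b ≤ ⟪(v : E), (y : E)⟫}.indicator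
        (fun _ => (1 : ℝ)) y) x) ^ 2 ∂(sm E) ≤ 1 := by
      have hbas := PP_basic (E := E) (by omega) r hBM hBM
      have hup : ∀ x, PP r (fun y => {y : SS E | b ≤ ⟪(v : E), (y : E)⟫}.indicator
          (fun _ => (1 : ℝ)) y) x ≤ 1 := fun x => hbas.2.2.2.1 1 x (fun y => by
        by_cases hx : y ∈ {y : SS E | b ≤ ⟪(v : E), (y : E)⟫}
        · rw [indicator_of_mem hx]
        · rw [indicator_of_notMem hx]; exact zero_le_one)
      have hlo : ∀ x, 0 ≤ PP r (fun y => {y : SS E | b ≤ ⟪(v : E), (y : E)⟫}.indicator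
          (fun _ => (1 : ℝ)) y) x := fun x => hbas.2.2.2.2.1 0 x (fun y => by
        by_cases hx : y ∈ {y : SS E | b ≤ ⟪(v : E), (y : E)⟫}
        · rw [indicator_of_mem hx]; exact zero_le_one
        · rw [indicator_of_notMem hx])
      have hnorm := norm_integral_le_of_norm_le_const (μ := sm E) (C := 1)
        (f := fun x => (PP r (fun y => {y : SS E | b ≤ ⟪(v : E), (y : E)⟫}.indicator
          (fun _ => (1 : ℝ)) y) x) ^ 2) (Filter.Eventually.of_forall fun x => by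
          rw [Real.norm_eq_abs, abs_of_nonneg (sq_nonneg _)]
          exact pow_le_one₀ (hlo x) (hup x))
      rw [probReal_univ, mul_one] at hnorm
      exact (le_abs_self _).trans hnorm
    have hhalf : 1 / 2 ≤ (sm E).real {y : SS E | b ≤ ⟪(v : E), (y : E)⟫} := by
      rw [← sse_cap_half (n := Module.finrank ℝ E) (by omega),
        ← cap_meas (E := E) rfl (by omega) v 0]
      exact measureReal_mono (fun x (hx : 0 ≤ ⟪(v : E), (x : E)⟫) => hb.trans hx)
    have hpow : (1 : ℝ) / 4 ≤ ((sm E).real {y : SS E | b ≤ ⟪(v : E), (y : E)⟫}) ^ ((7 : ℝ) / 5) := by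
      calc (1 : ℝ) / 4 = (1 / 2 : ℝ) ^ (2 : ℝ) := by
            rw [Real.rpow_two]; norm_num
        _ ≤ (1 / 2 : ℝ) ^ ((7 : ℝ) / 5) :=
            Real.rpow_le_rpow_of_exponent_ge (by norm_num) (by norm_num) (by norm_num)
        _ ≤ _ := Real.rpow_le_rpow (by norm_num) hhalf (by norm_num)
    nlinarith
  · rcases le_or_gt b 1 with hb1 | hb1
    · have h1 := cap_pair (E := E) (n := Module.finrank ℝ E) rfl (by omega) hr1 v hb.le
      have h2 := h (Module.finrank ℝ E) hn0 r hr b hb.le hb1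
      rw [cap_meas (E := E) (n := Module.finrank ℝ E) rfl (by omega) v b]
      rw [cap_meas (E := E) (n := Module.finrank ℝ E) rfl (by omega) v b] at hm0
      have h3 : 0 ≤ (mm (Module.finrank ℝ E) b) ^ ((7 : ℝ) / 5) := Real.rpow_nonneg hm0 _
      nlinarith [h1.trans h2]
    · have hempty : {y : SS E | b ≤ ⟪(v : E), (y : E)⟫} = ∅ := by
        ext y
        simp only [mem_ofPred_eq, mem_empty_iff_false, iff_false, not_le]
        refine lt_of_le_of_lt ((real_inner_le_norm _ _).trans ?_) hb1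
        rw [norm_eq_of_mem_sphere v, norm_eq_of_mem_sphere y, mul_one]
      have hPP : ∀ x, PP r (fun y => {y : SS E | b ≤ ⟪(v : E), (y : E)⟫}.indicator
          (fun _ => (1 : ℝ)) y) x = 0 := by
        intro x
        rw [hempty]
        simp [PP]
      simp only [hPP]
      have : 0 ≤ ((sm E).real {y : SS E | b ≤ ⟪(v : E), (y : E)⟫}) ^ ((7 : ℝ) / 5) :=
        Real.rpow_nonneg hm0 _
      simp only [ne_eq, OfNat.ofNat_ne_zero, not_false_eq_true, zero_pow, integral_zero]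
      positivity

-- sse_mono
theorem sse_mono_cs {α : Type*} [MeasurableSpace α] {μ : Measure α} [IsFiniteMeasure μ]
    {f h : α → ℝ} (hf : Measurable f) (hfb : ∃ C : ℝ, ∀ x, |f x| ≤ C) (hh : Measurable h)
    (hhb : ∃ C : ℝ, ∀ x, |h x| ≤ C) :
    (∫ x, f x * h x ∂μ) ^ 2 ≤ (∫ x, f x ^ 2 ∂μ) * ∫ x, h x ^ 2 ∂μ := by
  obtain ⟨A, hA⟩ := hfb
  obtain ⟨B, hB⟩ := hhb
  have hff : Integrable (fun x => f x ^ 2) μ := by
    refine Integrable.of_bound (hf.pow_const 2).aestronglyMeasurable (A ^ 2) ?_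
    refine Eventually.of_forall fun x => ?_
    rw [Real.norm_eq_abs, abs_pow]
    exact pow_le_pow_left₀ (abs_nonneg _) (hA x) 2
  have hhh : Integrable (fun x => h x ^ 2) μ := by
    refine Integrable.of_bound (hh.pow_const 2).aestronglyMeasurable (B ^ 2) ?_
    refine Eventually.of_forall fun x => ?_
    rw [Real.norm_eq_abs, abs_pow]
    exact pow_le_pow_left₀ (abs_nonneg _) (hB x) 2
  have hfh : Integrable (fun x => f x * h x) μ := by
    refine Integrable.of_bound (hf.mul hh).aestronglyMeasurable (A * B) ?_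
    refine Eventually.of_forall fun x => ?_
    rw [Real.norm_eq_abs, abs_mul]
    exact mul_le_mul (hA x) (hB x) (abs_nonneg _) ((abs_nonneg _).trans (hA x))
  have key : ∀ t : ℝ, 0 ≤ (∫ x, h x ^ 2 ∂μ) * (t * t) + (2 * ∫ x, f x * h x ∂μ) * t
      + ∫ x, f x ^ 2 ∂μ := by
    intro t
    have h0 : 0 ≤ ∫ x, (t * h x + f x) ^ 2 ∂μ := integral_nonneg fun x => sq_nonneg _
    have e : ∫ x, (t * h x + f x) ^ 2 ∂μ
        = ∫ x, ((t * t) * h x ^ 2 + (2 * t) * (f x * h x)) + f x ^ 2 ∂μ := by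
      refine integral_congr_ae (Eventually.of_forall fun x => ?_)
      show (t * h x + f x) ^ 2 = ((t * t) * h x ^ 2 + (2 * t) * (f x * h x)) + f x ^ 2
      ring
    have e1 : ∫ x, ((t * t) * h x ^ 2 + (2 * t) * (f x * h x)) + f x ^ 2 ∂μ
        = (∫ x, ((t * t) * h x ^ 2 + (2 * t) * (f x * h x)) ∂μ) + ∫ x, f x ^ 2 ∂μ :=
      integral_add ((hhh.const_mul (t * t)).add (hfh.const_mul (2 * t))) hff
    have e2 : ∫ x, ((t * t) * h x ^ 2 + (2 * t) * (f x * h x)) ∂μ
        = (∫ x, (t * t) * h x ^ 2 ∂μ) + ∫ x, (2 * t) * (f x * h x) ∂μ :=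
      integral_add (hhh.const_mul (t * t)) (hfh.const_mul (2 * t))
    rw [e, e1, e2, integral_const_mul, integral_const_mul] at h0
    nlinarith [h0]
  have := discrim_le_zero key
  unfold discrim at this
  nlinarith [this]

theorem sse_mono_ind {A : Set (SS E)} (hA : MeasurableSet A) :
    BM (fun y : SS E => A.indicator (fun _ => (1 : ℝ)) y) := by
  refine ⟨measurable_const.indicator hA, 1, fun x => ?_⟩
  show |A.indicator (fun _ => (1 : ℝ)) x| ≤ 1
  by_cases hx : x ∈ A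
  · rw [Set.indicator_of_mem hx]; simp
  · rw [Set.indicator_of_notMem hx]; simp

theorem sse_mono_null {n : ℕ} (hn : Module.finrank ℝ E = n) (h4 : 4 ≤ n) (v : SS E) (b : ℝ) :
    (sm E).real {x : SS E | ⟪(v : E), (x : E)⟫ = b} = 0 := by
  have hψ : Measurable (({b} : Set ℝ).indicator (fun _ => (1 : ℝ))) :=
    measurable_const.indicator (measurableSet_singleton b)
  have h := sm_height hn h4 v hψ ⟨1, fun s => by
    by_cases hs : s ∈ ({b} : Set ℝ)
    · rw [Set.indicator_of_mem hs]; simp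
    · rw [Set.indicator_of_notMem hs]; simp⟩
  have hm : MeasurableSet {x : SS E | ⟪(v : E), (x : E)⟫ = b} :=
    (measurableSet_singleton b).preimage
      (continuous_const.inner continuous_subtype_val).measurable
  have e1 : ∫ x, ({b} : Set ℝ).indicator (fun _ => (1 : ℝ)) ⟪(v : E), (x : E)⟫ ∂(sm E)
      = (sm E).real {x : SS E | ⟪(v : E), (x : E)⟫ = b} := by
    rw [← integral_indicator_one hm]
    rfl
  have e2 : ∫ s, om n s * ({b} : Set ℝ).indicator (fun _ => (1 : ℝ)) s = 0 := by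
    have : (fun s => om n s * ({b} : Set ℝ).indicator (fun _ => (1 : ℝ)) s) =ᵐ[volume]
        fun _ => (0 : ℝ) := by
      have hne : ∀ᵐ s : ℝ, s ≠ b := by
        rw [ae_iff]
        simp
      filter_upwards [hne] with s hs
      rw [Set.indicator_of_notMem (by simpa using hs), mul_zero]
    rw [integral_congr_ae this]
    simp
  rw [← e1, h, e2]

theorem sse_mono_setcap {n : ℕ} (hn : Module.finrank ℝ E = n) (h4 : 4 ≤ n) (v : SS E)
    (u : SS E → ℝ) (hmono : ∀ x y : SS E, ⟪(v : E), (y : E)⟫ < ⟪(v : E), (x : E)⟫ → u y ≤ u x)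
    (s : ℝ) : ∃ b : ℝ, {x : SS E | s < u x} ⊆ {y : SS E | b ≤ ⟪(v : E), (y : E)⟫} ∧
      (sm E).real {y : SS E | b ≤ ⟪(v : E), (y : E)⟫} ≤ (sm E).real {x : SS E | s < u x} := by
  have hprob : IsProbabilityMeasure (sm E) := sm_prob (by omega)
  have hle1 : ∀ y : SS E, |⟪(v : E), (y : E)⟫| ≤ 1 := fun y => by
    have := abs_real_inner_le_norm (v : E) (y : E)
    rwa [norm_eq_of_mem_sphere v, norm_eq_of_mem_sphere y, one_mul] at this
  by_cases hne : ({x : SS E | s < u x}).Nonempty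
  · set T : Set ℝ := (fun x : SS E => ⟪(v : E), (x : E)⟫) '' {x : SS E | s < u x} with hT
    have hTne : T.Nonempty := hne.image _
    have hTb : BddBelow T := ⟨-1, by
      rintro _ ⟨y, -, rfl⟩
      exact (abs_le.mp (hle1 y)).1⟩
    refine ⟨sInf T, ?_, ?_⟩
    · intro x hx
      exact csInf_le hTb ⟨x, hx, rfl⟩
    · have hsub : {y : SS E | sInf T ≤ ⟪(v : E), (y : E)⟫} ⊆
          {x : SS E | s < u x} ∪ {x : SS E | ⟪(v : E), (x : E)⟫ = sInf T} := by
        intro y hy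
        rcases lt_or_eq_of_le (show sInf T ≤ ⟪(v : E), (y : E)⟫ from hy) with h | h
        · left
          obtain ⟨_, ⟨z, hz, rfl⟩, hzy⟩ := exists_lt_of_csInf_lt hTne h
          exact lt_of_lt_of_le (show s < u z from hz) (hmono y z hzy)
        · right
          exact h.symm
      calc (sm E).real {y : SS E | sInf T ≤ ⟪(v : E), (y : E)⟫}
          ≤ (sm E).real ({x : SS E | s < u x} ∪ {x : SS E | ⟪(v : E), (x : E)⟫ = sInf T}) :=
            measureReal_mono hsub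
        _ ≤ (sm E).real {x : SS E | s < u x}
            + (sm E).real {x : SS E | ⟪(v : E), (x : E)⟫ = sInf T} := measureReal_union_le _ _
        _ = (sm E).real {x : SS E | s < u x} := by rw [sse_mono_null hn h4, add_zero]
  · rw [Set.not_nonempty_iff_eq_empty] at hne
    refine ⟨2, ?_, ?_⟩
    · rw [hne]; exact Set.empty_subset _
    · have : {y : SS E | (2 : ℝ) ≤ ⟪(v : E), (y : E)⟫} = ∅ := by
        ext y
        simp only [Set.mem_ofPred_eq, Set.mem_empty_iff_false, iff_false, not_le]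
        have := (abs_le.mp (hle1 y)).2
        linarith
      rw [this, hne]

theorem sse_mono_layer {α : Type*} [MeasurableSpace α] {μ : Measure α} [IsFiniteMeasure μ]
    {u H : α → ℝ} (hu : Measurable u) (hu1 : ∀ x, 0 ≤ u x ∧ u x ≤ 1) (hH : Measurable H)
    (hHb : ∃ C : ℝ, ∀ x, |H x| ≤ C) :
    ∫ x, u x * H x ∂μ = ∫ s, (∫ x, {y | s < u y}.indicator (fun _ => (1 : ℝ)) x * H x ∂μ)
      ∂(volume.restrict (Ioc (0 : ℝ) 1)) := by
  obtain ⟨C, hC⟩ := hHb
  have hset : MeasurableSet {p : α × ℝ | p.2 < u p.1} :=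
    measurableSet_lt measurable_snd (hu.comp measurable_fst)
  have h1 : ∀ x, u x * H x = ∫ s, {y | s < u y}.indicator (fun _ => (1 : ℝ)) x * H x
      ∂(volume.restrict (Ioc (0 : ℝ) 1)) := by
    intro x
    rw [integral_mul_const]
    congr 1
    have e : (fun s : ℝ => {y | s < u y}.indicator (fun _ => (1 : ℝ)) x)
        = (Iio (u x)).indicator (fun _ => (1 : ℝ)) := by
      funext s
      by_cases hs : s < u x
      · rw [Set.indicator_of_mem (show x ∈ {y | s < u y} from hs),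
          Set.indicator_of_mem (show s ∈ Iio (u x) from hs)]
      · rw [Set.indicator_of_notMem (show x ∉ {y | s < u y} from hs),
          Set.indicator_of_notMem (show s ∉ Iio (u x) from hs)]
    rw [e]
    have e2 : ∫ s, (Iio (u x)).indicator (fun _ => (1 : ℝ)) s ∂(volume.restrict (Ioc (0 : ℝ) 1))
        = (volume.restrict (Ioc (0 : ℝ) 1)).real (Iio (u x)) := by
      rw [← integral_indicator_one measurableSet_Iio]
      rfl
    rw [e2, measureReal_restrict_apply measurableSet_Iio]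
    have e3 : Iio (u x) ∩ Ioc (0 : ℝ) 1 = Ioo 0 (u x) := by
      ext s
      simp only [Set.mem_inter_iff, Set.mem_Iio, Set.mem_Ioc, Set.mem_Ioo]
      constructor
      · rintro ⟨a, b, c⟩; exact ⟨b, a⟩
      · rintro ⟨a, b⟩; exact ⟨b, a, b.le.trans (hu1 x).2⟩
    rw [e3, Real.volume_real_Ioo_of_le (hu1 x).1, sub_zero]
  calc ∫ x, u x * H x ∂μ = ∫ x, ∫ s, {y | s < u y}.indicator (fun _ => (1 : ℝ)) x * H x
      ∂(volume.restrict (Ioc (0 : ℝ) 1)) ∂μ := by
        refine integral_congr_ae (Eventually.of_forall fun x => ?_)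
        exact h1 x
    _ = _ := by
        refine integral_integral_swap ?_
        refine Integrable.of_bound (C := C) ?_ ?_
        · have hm : Measurable (fun p : α × ℝ =>
              {p : α × ℝ | p.2 < u p.1}.indicator (fun _ => (1 : ℝ)) p * H p.1) :=
            (measurable_const.indicator hset).mul (hH.comp measurable_fst)
          exact hm.aestronglyMeasurable
        · refine Eventually.of_forall fun p => ?_
          show ‖{y | p.2 < u y}.indicator (fun _ => (1 : ℝ)) p.1 * H p.1‖ ≤ C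
          by_cases hs : p.2 < u p.1
          · rw [Set.indicator_of_mem (show p.1 ∈ {y | p.2 < u y} from hs), one_mul]
            exact hC _
          · rw [Set.indicator_of_notMem (show p.1 ∉ {y | p.2 < u y} from hs), zero_mul, norm_zero]
            exact (abs_nonneg _).trans (hC p.1)

theorem sse_mono : ∃ C : ℝ, 0 < C ∧ ∃ n0 : ℕ, 6 ≤ n0 ∧ ∀ (E : Type) [NormedAddCommGroup E]
    [InnerProductSpace ℝ E] [CompleteSpace E] [FiniteDimensional ℝ E] [MeasurableSpace E]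
    [BorelSpace E], n0 ≤ Module.finrank ℝ E → ∀ r : ℝ, |r| ≤ 13 / 25 → ∀ (v : SS E) (u : SS E → ℝ),
    Continuous u → (∀ x, 0 ≤ u x ∧ u x ≤ 1) →
    (∀ x y : SS E, ⟪(v : E), (y : E)⟫ < ⟪(v : E), (x : E)⟫ → u y ≤ u x) →
    ∫ x, (PP r u x) ^ 2 ∂(sm E) ≤ C * (∫ x, u x ∂(sm E)) ^ ((7 : ℝ) / 5) := by
  obtain ⟨C, hC, n0, hn0, hcap⟩ := sse_cap
  refine ⟨C, hC, n0, hn0, ?_⟩
  intro E _ _ _ _ _ _ hE r hr v u hu hu1 hmono
  have hprob : IsProbabilityMeasure (sm E) := sm_prob (by omega)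
  have h3 : 3 ≤ Module.finrank ℝ E := by omega
  have hrr := abs_le.mp hr
  have hr1 : -1 ≤ r := by linarith [hrr.1]
  have hr2 : r ≤ 1 := by linarith [hrr.2]
  have huBM : BM u := ⟨hu.measurable, 1, fun x => by
    rw [abs_of_nonneg (hu1 x).1]; exact (hu1 x).2⟩
  set G : SS E → ℝ := PP r u with hG
  have hGBM : BM G := (PP_basic h3 r huBM huBM).1
  have hG0 : ∀ x, 0 ≤ G x := fun x =>
    (PP_basic h3 r huBM huBM).2.2.2.2.1 0 x (fun y => (hu1 y).1)
  set H : SS E → ℝ := PP r G with hH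
  have hHBM : BM H := (PP_basic h3 r hGBM hGBM).1
  have hH0 : ∀ x, 0 ≤ H x := fun x =>
    (PP_basic h3 r hGBM hGBM).2.2.2.2.1 0 x (fun y => hG0 y)
  set N : ℝ := ∫ x, (G x) ^ 2 ∂(sm E) with hN
  have hN0 : 0 ≤ N := integral_nonneg fun x => sq_nonneg _
  set m : ℝ → ℝ := fun s => (sm E).real {x : SS E | s < u x} with hm
  have hm0 : ∀ s, 0 ≤ m s := fun s => measureReal_nonneg
  have hm1 : ∀ s, m s ≤ 1 := fun s => measureReal_le_one
  have hanti : Antitone m := fun s t hst => measureReal_mono fun x hx => lt_of_le_of_lt hst hx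
  have hmeas : Measurable m := hanti.measurable
  -- the set bound
  have hF : ∀ s, ∫ x, {y : SS E | s < u y}.indicator (fun _ => (1 : ℝ)) x * H x ∂(sm E)
      ≤ Real.sqrt N * (Real.sqrt C * (m s) ^ ((7 : ℝ) / 10)) := by
    intro s
    have hAm : MeasurableSet {y : SS E | s < u y} := measurableSet_lt measurable_const hu.measurable
    have hIBM : BM (fun y : SS E => {y : SS E | s < u y}.indicator (fun _ => (1 : ℝ)) y) :=
      sse_mono_ind hAm
    obtain ⟨b, hb1, hb2⟩ := sse_mono_setcap (n := Module.finrank ℝ E) rfl (by omega) v u hmono s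
    have hKm : MeasurableSet {y : SS E | b ≤ ⟪(v : E), (y : E)⟫} :=
      measurableSet_le measurable_const (continuous_const.inner continuous_subtype_val).measurable
    have hKBM : BM (fun y : SS E => {y : SS E | b ≤ ⟪(v : E), (y : E)⟫}.indicator
        (fun _ => (1 : ℝ)) y) :=
      sse_mono_ind hKm
    have hsym := (PP_sym h3 hr1 hr2 (f := G)
      (h := fun y : SS E => {y : SS E | s < u y}.indicator (fun _ => (1 : ℝ)) y) hGBM hIBM).1
    have hFBM := (PP_basic h3 r hIBM hKBM).1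
    have hF0 : ∀ x, 0 ≤ PP r (fun y : SS E => {y : SS E | s < u y}.indicator (fun _ => (1 : ℝ)) y) x :=
      fun x => (PP_basic h3 r hIBM hIBM).2.2.2.2.1 0 x
        (fun y => Set.indicator_nonneg (fun _ _ => zero_le_one) y)
    have hFle : ∀ x, PP r (fun y : SS E => {y : SS E | s < u y}.indicator (fun _ => (1 : ℝ)) y) x
        ≤ PP r (fun y : SS E => {y : SS E | b ≤ ⟪(v : E), (y : E)⟫}.indicator
          (fun _ => (1 : ℝ)) y) x :=
      (PP_basic h3 r hIBM hKBM).2.2.2.2.2.1 (fun y =>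
        Set.indicator_le_indicator_of_subset hb1 (fun _ => zero_le_one) y)
    have hKF := (PP_basic h3 r hKBM hKBM).1
    have hsq : ∫ x, (PP r (fun y : SS E => {y : SS E | s < u y}.indicator (fun _ => (1 : ℝ)) y) x) ^ 2
        ∂(sm E) ≤ C * (m s) ^ ((7 : ℝ) / 5) := by
      refine le_trans ?_ (le_trans (hcap E hE r hr v b) ?_)
      · refine integral_mono_of_nonneg (Eventually.of_forall fun x => sq_nonneg _) ?_
          (Eventually.of_forall fun x => pow_le_pow_left₀ (hF0 x) (hFle x) 2)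
        obtain ⟨B, hB⟩ := hKF.2
        refine Integrable.of_bound (hKF.1.pow_const 2).aestronglyMeasurable (B ^ 2) ?_
        refine Eventually.of_forall fun x => ?_
        rw [Real.norm_eq_abs, abs_pow]
        exact pow_le_pow_left₀ (abs_nonneg _) (hB x) 2
      · refine mul_le_mul_of_nonneg_left ?_ hC.le
        exact Real.rpow_le_rpow measureReal_nonneg hb2 (by norm_num)
    have hcs := sse_mono_cs (μ := sm E) hGBM.1 hGBM.2 hFBM.1 hFBM.2
    rw [← hN] at hcs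
    have h2 : (∫ x, {y : SS E | s < u y}.indicator (fun _ => (1 : ℝ)) x * H x ∂(sm E)) ^ 2
        ≤ N * (C * (m s) ^ ((7 : ℝ) / 5)) := by
      rw [hsym]
      exact hcs.trans (mul_le_mul_of_nonneg_left hsq hN0)
    have h4 : N * (C * (m s) ^ ((7 : ℝ) / 5))
        = (Real.sqrt N * (Real.sqrt C * (m s) ^ ((7 : ℝ) / 10))) ^ 2 := by
      rw [mul_pow, mul_pow, Real.sq_sqrt hN0, Real.sq_sqrt hC.le, ← Real.rpow_natCast,
        ← Real.rpow_mul (hm0 s)]
      norm_num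
    rw [h4] at h2
    refine le_of_abs_le (abs_le_of_sq_le_sq h2 ?_)
    have := Real.rpow_nonneg (hm0 s) ((7 : ℝ) / 10)
    positivity
  -- the layer cake
  have hNeq : N = ∫ s, (∫ x, {y : SS E | s < u y}.indicator (fun _ => (1 : ℝ)) x * H x ∂(sm E))
      ∂(volume.restrict (Ioc (0 : ℝ) 1)) := by
    rw [← sse_mono_layer hu.measurable hu1 hHBM.1 hHBM.2]
    have := (PP_sym h3 hr1 hr2 (f := u) (h := G) huBM hGBM).1
    rw [← this, hN]
    refine integral_congr_ae (Eventually.of_forall fun x => ?_)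
    show G x ^ 2 = G x * PP r u x
    rw [← hG, sq]
  have hMeq : ∫ x, u x ∂(sm E) = ∫ s, m s ∂(volume.restrict (Ioc (0 : ℝ) 1)) := by
    have := sse_mono_layer (μ := sm E) (u := u) (H := fun _ => (1 : ℝ)) hu.measurable hu1
      measurable_const ⟨1, fun _ => by simp⟩
    simp only [mul_one] at this
    rw [this]
    refine integral_congr_ae (Eventually.of_forall fun s => ?_)
    have hAm : MeasurableSet {y : SS E | s < u y} := measurableSet_lt measurable_const hu.measurable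
    show ∫ x, {y : SS E | s < u y}.indicator (fun _ => (1 : ℝ)) x ∂(sm E) = m s
    rw [hm]
    show _ = (sm E).real {x : SS E | s < u x}
    rw [← integral_indicator_one hAm]
    rfl
  have hPR : IsProbabilityMeasure (volume.restrict (Ioc (0 : ℝ) 1)) := ⟨by
    rw [Measure.restrict_apply_univ, Real.volume_Ioc]; simp⟩
  have hmi : Integrable m (volume.restrict (Ioc (0 : ℝ) 1)) := by
    refine Integrable.of_bound hmeas.aestronglyMeasurable 1 (Eventually.of_forall fun s => ?_)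
    rw [Real.norm_eq_abs, abs_of_nonneg (hm0 s)]
    exact hm1 s
  have hmi7 : Integrable (fun s => (m s) ^ ((7 : ℝ) / 10)) (volume.restrict (Ioc (0 : ℝ) 1)) := by
    refine Integrable.of_bound (hmeas.pow_const _).aestronglyMeasurable 1
      (Eventually.of_forall fun s => ?_)
    rw [Real.norm_eq_abs, abs_of_nonneg (Real.rpow_nonneg (hm0 s) _)]
    exact Real.rpow_le_one (hm0 s) (hm1 s) (by norm_num)
  have hjen : ∫ s, (m s) ^ ((7 : ℝ) / 10) ∂(volume.restrict (Ioc (0 : ℝ) 1))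
      ≤ (∫ s, m s ∂(volume.restrict (Ioc (0 : ℝ) 1))) ^ ((7 : ℝ) / 10) := by
    refine (Real.concaveOn_rpow (p := (7 : ℝ) / 10) (by norm_num) (by norm_num)).le_map_integral
      (f := m) ?_ isClosed_Ici (Eventually.of_forall fun s => hm0 s) hmi hmi7
    exact (Real.continuous_rpow_const (by norm_num)).continuousOn
  set M : ℝ := ∫ x, u x ∂(sm E) with hM
  have hM0 : 0 ≤ M := integral_nonneg fun x => (hu1 x).1
  rw [← hMeq] at hjen
  have hmain : N ≤ Real.sqrt N * (Real.sqrt C * M ^ ((7 : ℝ) / 10)) := by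
    calc N = ∫ s, (∫ x, {y : SS E | s < u y}.indicator (fun _ => (1 : ℝ)) x * H x ∂(sm E))
          ∂(volume.restrict (Ioc (0 : ℝ) 1)) := hNeq
      _ ≤ ∫ s, Real.sqrt N * (Real.sqrt C * (m s) ^ ((7 : ℝ) / 10))
          ∂(volume.restrict (Ioc (0 : ℝ) 1)) := by
          refine integral_mono_of_nonneg (Eventually.of_forall fun s => ?_)
            ((hmi7.const_mul _).const_mul _) (Eventually.of_forall fun s => hF s)
          refine integral_nonneg fun x => mul_nonneg ?_ (hH0 x)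
          exact Set.indicator_nonneg (fun _ _ => zero_le_one) x
      _ = Real.sqrt N * (Real.sqrt C *
            ∫ s, (m s) ^ ((7 : ℝ) / 10) ∂(volume.restrict (Ioc (0 : ℝ) 1))) := by
          rw [integral_const_mul, integral_const_mul]
      _ ≤ Real.sqrt N * (Real.sqrt C * M ^ ((7 : ℝ) / 10)) := by
          refine mul_le_mul_of_nonneg_left ?_ (Real.sqrt_nonneg _)
          exact mul_le_mul_of_nonneg_left hjen (Real.sqrt_nonneg _)
  have hK0 : 0 ≤ Real.sqrt C * M ^ ((7 : ℝ) / 10) :=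
    mul_nonneg (Real.sqrt_nonneg _) (Real.rpow_nonneg hM0 _)
  have hK2 : (Real.sqrt C * M ^ ((7 : ℝ) / 10)) ^ 2 = C * M ^ ((7 : ℝ) / 5) := by
    rw [mul_pow, Real.sq_sqrt hC.le, ← Real.rpow_natCast, ← Real.rpow_mul hM0]
    norm_num
  rw [← hK2]
  have hs : Real.sqrt N ^ 2 = N := Real.sq_sqrt hN0
  rcases (Real.sqrt_nonneg N).eq_or_lt with h0 | hpos
  · have : N = 0 := by rw [← hs, ← h0]; norm_num
    rw [this]
    positivity
  · have : Real.sqrt N ≤ Real.sqrt C * M ^ ((7 : ℝ) / 10) := by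
      by_contra hcon
      push Not at hcon
      nlinarith [mul_lt_mul_of_pos_left hcon hpos]
    rw [← hs]
    exact pow_le_pow_left₀ (Real.sqrt_nonneg _) this 2

-- sse_set

theorem sse_set_BM_int (h1 : 1 ≤ Module.finrank ℝ E) {f : SS E → ℝ} (hf : BM f) :
    Integrable f (sm E) := by
  have := sm_prob (E := E) h1
  obtain ⟨hm, C, hC⟩ := hf
  exact (integrable_const C).mono' hm.aestronglyMeasurable (Filter.Eventually.of_forall hC)

theorem sse_set_BM_mul {f g : SS E → ℝ} (hf : BM f) (hg : BM g) : BM (fun x => f x * g x) := by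
  obtain ⟨hm, C, hC⟩ := hf
  obtain ⟨hm', C', hC'⟩ := hg
  refine ⟨hm.mul hm', C * C', fun x => ?_⟩
  rw [abs_mul]
  exact mul_le_mul (hC x) (hC' x) (abs_nonneg _) ((abs_nonneg _).trans (hC x))

theorem sse_set_BM_01 {f : SS E → ℝ} (hf : Measurable f) (h01 : ∀ x, 0 ≤ f x ∧ f x ≤ 1) : BM f :=
  ⟨hf, 1, fun x => abs_le.2 ⟨by linarith [(h01 x).1], (h01 x).2⟩⟩

theorem sse_set_PP_01 (h3 : 3 ≤ Module.finrank ℝ E) (r : ℝ) {f : SS E → ℝ} (hf : Measurable f)
    (h01 : ∀ x, 0 ≤ f x ∧ f x ≤ 1) (x : SS E) : 0 ≤ PP r f x ∧ PP r f x ≤ 1 := by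
  have hB := sse_set_BM_01 hf h01
  obtain ⟨-, -, -, h4, h5, -, -⟩ := PP_basic h3 r hB hB
  exact ⟨h5 0 x fun y => (h01 y).1, h4 1 x fun y => (h01 y).2⟩

theorem sse_set_Lam_meas (h3 : 3 ≤ Module.finrank ℝ E) {f : SS E → ℝ} (hf : Measurable f) :
    Measurable (fun s : ℝ => ∫ x, f x * PP s f x ∂(sm E)) := by
  have := sm_prob (E := E) (by omega)
  have hM : Measurable (fun p : ℝ × SS E => f p.2 * PP p.1 f p.2) :=
    (hf.comp measurable_snd).mul (PP_meas h3 hf)
  exact (hM.stronglyMeasurable.integral_prod_right' (ν := sm E)).measurable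

theorem sse_set_Lam_01 (h3 : 3 ≤ Module.finrank ℝ E) {f : SS E → ℝ} (hf : Measurable f)
    (h01 : ∀ x, 0 ≤ f x ∧ f x ≤ 1) (s : ℝ) :
    0 ≤ ∫ x, f x * PP s f x ∂(sm E) ∧ ∫ x, f x * PP s f x ∂(sm E) ≤ 1 := by
  have := sm_prob (E := E) (by omega)
  have hB := sse_set_BM_01 hf h01
  have hPB := (PP_basic h3 s hB hB).1
  have hP := sse_set_PP_01 h3 s hf h01
  constructor
  · exact integral_nonneg fun x => mul_nonneg (h01 x).1 (hP x).1
  · have h := integral_mono (sse_set_BM_int (by omega) (sse_set_BM_mul hB hPB))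
      (integrable_const (1 : ℝ)) (fun x => mul_le_one₀ (h01 x).2 (hP x).1 (hP x).2)
    simpa using h

theorem sse_set_id {n : ℕ} (hn : Module.finrank ℝ E = n) (h6 : 6 ≤ n) {r : ℝ} (hr : |r| < 1)
    {f : SS E → ℝ} (hf : BM f) : ∫ x, (PP r f x) ^ 2 ∂(sm E)
      = ∫ s, om n s * (Kr n (r ^ 2) s * ∫ x, f x * PP s f x ∂(sm E)) := by
  rw [← Kr_rep hn (by omega) hr hf hf]
  have h3 : 3 ≤ Module.finrank ℝ E := by omega
  have hPB := (PP_basic h3 r hf hf).1
  obtain ⟨h1, h2⟩ := abs_le.1 hr.le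
  rw [(PP_sym h3 h1 h2 hPB hf).1]
  refine integral_congr_ae (Filter.Eventually.of_forall fun x => ?_)
  simp only
  ring

theorem sse_set_Kr_nonneg {n : ℕ} (h6 : 6 ≤ n) {q : ℝ} (hq : q < 1) (s : ℝ) :
    0 ≤ Kr n q s := by
  unfold Kr
  obtain ⟨-, -, h0, -⟩ := om_basic (show 4 ≤ n - 1 by omega)
  obtain ⟨-, -, h0', -⟩ := om_basic (show 4 ≤ n by omega)
  exact div_nonneg (h0 _) (mul_nonneg (by linarith) (h0' _))

theorem sse_set_Kr_meas {n : ℕ} (h6 : 6 ≤ n) (q : ℝ) : Measurable (Kr n q) := by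
  obtain ⟨-, hc, -⟩ := om_basic (show 4 ≤ n - 1 by omega)
  obtain ⟨-, hc', -⟩ := om_basic (show 4 ≤ n by omega)
  have h1 : Measurable (fun s : ℝ => om (n - 1) ((s - q) / (1 - q))) :=
    hc.measurable.comp ((measurable_id.sub_const q).div_const _)
  have h2 : Measurable (fun s : ℝ => (1 - q) * om n s) := hc'.measurable.const_mul _
  exact h1.div h2

theorem sse_set_Kr_int {n : ℕ} (hn : Module.finrank ℝ E = n) (h6 : 6 ≤ n) {r : ℝ} (hr : |r| < 1) :
    Integrable (fun s => om n s * Kr n (r ^ 2) s) := by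
  have h3 : 3 ≤ Module.finrank ℝ E := by omega
  have hP := sm_prob (E := E) (by omega)
  have hB : BM (fun _ : SS E => (1 : ℝ)) := ⟨measurable_const, 1, fun x => by simp⟩
  have h := Kr_rep hn (by omega) hr hB hB
  have e1 : ∀ s : ℝ, PP s (fun _ : SS E => (1 : ℝ)) = fun _ => 1 := fun s =>
    funext (PP_basic h3 s hB hB).2.1
  simp only [e1, mul_one, integral_const, probReal_univ, smul_eq_mul] at h
  exact integrable_of_integral_eq_one h.symm

theorem sse_set_int2 {n : ℕ} (hn : Module.finrank ℝ E = n) (h6 : 6 ≤ n) {r : ℝ} (hr : |r| < 1)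
    {Λ : ℝ → ℝ} (hΛ : Measurable Λ) (h01 : ∀ s, 0 ≤ Λ s ∧ Λ s ≤ 1) :
    Integrable (fun s => om n s * (Kr n (r ^ 2) s * Λ s)) := by
  have hq : r ^ 2 < 1 := by rw [← sq_abs]; nlinarith [abs_nonneg r]
  obtain ⟨-, hc, h0, -⟩ := om_basic (show 4 ≤ n by omega)
  refine (sse_set_Kr_int hn h6 hr).mono'
    (hc.measurable.mul ((sse_set_Kr_meas h6 _).mul hΛ)).aestronglyMeasurable
    (Filter.Eventually.of_forall fun s => ?_)
  have hK := sse_set_Kr_nonneg h6 hq s
  rw [Real.norm_eq_abs, abs_of_nonneg (mul_nonneg (h0 s) (mul_nonneg hK (h01 s).1))]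
  exact mul_le_mul_of_nonneg_left (mul_le_of_le_one_right hK (h01 s).2) (h0 s)

theorem sse_set_trunc_le {n : ℕ} (h6 : 6 ≤ n) {q N : ℝ} (s : ℝ) {L : ℝ} (hL : 0 ≤ L) :
    om n s * (KN n q N s * L) ≤ om n s * (Kr n q s * L) := by
  obtain ⟨-, -, h0, h1, -⟩ := om_basic (show 4 ≤ n by omega)
  by_cases hs : s < 1
  · refine mul_le_mul_of_nonneg_left (mul_le_mul_of_nonneg_right ?_ hL) (h0 s)
    unfold KN
    rw [if_pos hs]
    exact min_le_left _ _
  · rw [h1 s (by rw [not_lt] at hs; exact hs.trans (le_abs_self s)), zero_mul, zero_mul]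

theorem sse_set_trunc_lim {n : ℕ} (h6 : 6 ≤ n) {q : ℝ} (s L : ℝ) :
    Tendsto (fun k : ℕ => om n s * (KN n q k s * L)) atTop (𝓝 (om n s * (Kr n q s * L))) := by
  obtain ⟨-, -, h0, h1, -⟩ := om_basic (show 4 ≤ n by omega)
  by_cases hs : s < 1
  · refine tendsto_const_nhds.congr' ?_
    filter_upwards [eventually_ge_atTop ⌈Kr n q s⌉₊] with k hk
    unfold KN
    rw [if_pos hs, min_eq_left (Nat.ceil_le.1 hk)]
  · rw [h1 s (by rw [not_lt] at hs; exact hs.trans (le_abs_self s))]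
    simp only [zero_mul]
    exact tendsto_const_nhds

theorem sse_set_lip {n : ℕ} (hn : Module.finrank ℝ E = n) (h6 : 6 ≤ n) {r C : ℝ}
    (hq : 1 ≤ ((n : ℝ) - 4) * r ^ 2) (hr : |r| ≤ 13 / 25)
    (hmono : ∀ (v : SS E) (u : SS E → ℝ),
      Continuous u → (∀ x, 0 ≤ u x ∧ u x ≤ 1) →
      (∀ x y : SS E, ⟪(v : E), (y : E)⟫ < ⟪(v : E), (x : E)⟫ → u y ≤ u x) →
      ∫ x, (PP r u x) ^ 2 ∂(sm E) ≤ C * (∫ x, u x ∂(sm E)) ^ ((7 : ℝ) / 5))
    {f : SS E → ℝ} {L : ℝ} (hL : 0 ≤ L) (hf : ∀ x y : SS E, |f x - f y| ≤ L * ‖(x : E) - y‖)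
    (h01 : ∀ x, 0 ≤ f x ∧ f x ≤ 1) :
    ∫ x, (PP r f x) ^ 2 ∂(sm E) ≤ C * (∫ x, f x ∂(sm E)) ^ ((7 : ℝ) / 5) := by
  have h1 : 1 ≤ Module.finrank ℝ E := by omega
  have h3 : 3 ≤ Module.finrank ℝ E := by omega
  have hP := sm_prob (E := E) h1
  obtain ⟨v⟩ := sm_nonempty (E := E) h1
  have hfc : Continuous f := cont_of_lip hf
  have hfB : BM f := sse_set_BM_01 hfc.measurable h01
  have hr1 : |r| < 1 := by linarith
  have hq2 : r ^ 2 ≤ 1 / 2 := by rw [← sq_abs]; nlinarith [abs_nonneg r]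
  have key : ∀ k : ℕ, ∫ s, om n s * (KN n (r ^ 2) k s * ∫ x, f x * PP s f x ∂(sm E))
      ≤ C * (∫ x, f x ∂(sm E)) ^ ((7 : ℝ) / 5) := by
    intro k
    obtain ⟨hKm, hKb⟩ := KN_mono h6 hq hq2 (Nat.cast_nonneg (α := ℝ) k)
    have hKbd : ∃ C : ℝ, ∀ s, |KN n (r ^ 2) k s| ≤ C :=
      ⟨k, fun s => abs_le.2 ⟨by linarith [(hKb s).1, (hKb s).2], (hKb s).2⟩⟩
    obtain ⟨u, hu1, hu2, hu3, hu4, hu5, hu6⟩ := riesz h1 hKm hKbd (v : E) hL hf (M := 1)
      (fun x => ⟨by linarith [(h01 x).1], (h01 x).2⟩)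
    have huc := cont_of_lip hu1
    obtain ⟨w, hw⟩ : ∃ w : SS E → ℝ, w = fun x => max 0 (u x) := ⟨_, rfl⟩
    have hwc : Continuous w := by rw [hw]; exact continuous_const.max huc
    have hw01 : ∀ x, 0 ≤ w x ∧ w x ≤ 1 := by
      intro x
      rw [hw]
      exact ⟨le_max_left _ _, max_le zero_le_one (hu2 x).2⟩
    have hwB := sse_set_BM_01 hwc.measurable hw01
    have hae : w =ᵐ[sm E] u := by
      have h5 : ∀ᵐ x ∂(sm E), ∀ m : ℕ, -(1 / ((m : ℝ) + 1)) < u x := by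
        rw [ae_all_iff]
        intro m
        have hm : (0 : ℝ) < 1 / ((m : ℝ) + 1) := by positivity
        have h7 : (sm E).real {x | -(1 / ((m : ℝ) + 1)) < u x} = 1 := by
          rw [hu3]
          have : {x | -(1 / ((m : ℝ) + 1)) < f x} = univ := by
            refine eq_univ_of_forall fun x => ?_
            show -(1 / ((m : ℝ) + 1)) < f x
            linarith [(h01 x).1]
          rw [this, probReal_univ]
        have h8 : (sm E) {x | -(1 / ((m : ℝ) + 1)) < u x} = 1 := by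
          rw [measureReal_def] at h7
          rw [← ENNReal.toReal_eq_one_iff]
          exact h7
        have h9 : MeasurableSet {x | -(1 / ((m : ℝ) + 1)) < u x} :=
          measurableSet_lt measurable_const huc.measurable
        exact (prob_compl_eq_zero_iff h9).2 h8
      filter_upwards [h5] with x hx
      rw [hw]
      refine max_eq_right ?_
      by_contra hneg
      rw [not_le] at hneg
      obtain ⟨m, hm⟩ := exists_nat_one_div_lt (neg_pos.2 hneg)
      linarith [hx m]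
    have hJ : JJ (KN n (r ^ 2) k) u = JJ (KN n (r ^ 2) k) w := by
      unfold JJ
      refine integral_congr_ae ?_
      filter_upwards [hae] with x hx
      refine integral_congr_ae ?_
      filter_upwards [hae] with y hy
      rw [hx, hy]
    have e1 : JJ (KN n (r ^ 2) k) w
        = ∫ s, om n s * (KN n (r ^ 2) k s * ∫ x, w x * PP s w x ∂(sm E)) :=
      ker_int hn (by omega) hKm.measurable hKbd hwB hwB
    have e2 : JJ (KN n (r ^ 2) k) f
        = ∫ s, om n s * (KN n (r ^ 2) k s * ∫ x, f x * PP s f x ∂(sm E)) :=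
      ker_int hn (by omega) hKm.measurable hKbd hfB hfB
    have hΛm := sse_set_Lam_meas h3 hwc.measurable
    have hΛ01 := sse_set_Lam_01 h3 hwc.measurable hw01
    obtain ⟨-, -, ho, -⟩ := om_basic (show 4 ≤ n by omega)
    have e3 : ∫ s, om n s * (KN n (r ^ 2) k s * ∫ x, w x * PP s w x ∂(sm E))
        ≤ ∫ s, om n s * (Kr n (r ^ 2) s * ∫ x, w x * PP s w x ∂(sm E)) := by
      refine integral_mono_of_nonneg (Filter.Eventually.of_forall fun s => ?_)
        (sse_set_int2 hn h6 hr1 hΛm hΛ01) (Filter.Eventually.of_forall fun s => ?_)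
      · exact mul_nonneg (ho s) (mul_nonneg (hKb s).1 (hΛ01 s).1)
      · exact sse_set_trunc_le h6 s (hΛ01 s).1
    have e4 := sse_set_id hn h6 hr1 hwB
    have e5 := hmono v w hwc hw01 (fun x y hxy => by
      rw [hw]
      exact max_le_max le_rfl (hu5 x y hxy))
    have e6 : ∫ x, w x ∂(sm E) = ∫ x, f x ∂(sm E) := by
      rw [← hu4]
      exact integral_congr_ae hae
    rw [e6] at e5
    rw [← e2]
    calc JJ (KN n (r ^ 2) k) f ≤ JJ (KN n (r ^ 2) k) u := hu6
      _ = JJ (KN n (r ^ 2) k) w := hJ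
      _ = _ := e1
      _ ≤ _ := e3
      _ = _ := e4.symm
      _ ≤ _ := e5
  have hΛm := sse_set_Lam_meas h3 hfc.measurable
  have hΛ01 := sse_set_Lam_01 h3 hfc.measurable h01
  obtain ⟨-, hoc, ho, -⟩ := om_basic (show 4 ≤ n by omega)
  have hlim : Tendsto (fun k : ℕ => ∫ s, om n s * (KN n (r ^ 2) k s *
      ∫ x, f x * PP s f x ∂(sm E))) atTop
      (𝓝 (∫ s, om n s * (Kr n (r ^ 2) s * ∫ x, f x * PP s f x ∂(sm E)))) := by
    refine tendsto_integral_of_dominated_convergence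
      (fun s => om n s * (Kr n (r ^ 2) s * ∫ x, f x * PP s f x ∂(sm E))) ?_
      (sse_set_int2 hn h6 hr1 hΛm hΛ01) ?_ ?_
    · intro k
      obtain ⟨hKm, hKb⟩ := KN_mono h6 hq hq2 (Nat.cast_nonneg (α := ℝ) k)
      exact (hoc.measurable.mul (hKm.measurable.mul hΛm)).aestronglyMeasurable
    · intro k
      obtain ⟨hKm, hKb⟩ := KN_mono h6 hq hq2 (Nat.cast_nonneg (α := ℝ) k)
      refine Filter.Eventually.of_forall fun s => ?_
      rw [Real.norm_eq_abs,
        abs_of_nonneg (mul_nonneg (ho s) (mul_nonneg (hKb s).1 (hΛ01 s).1))]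
      exact sse_set_trunc_le h6 s (hΛ01 s).1
    · exact Filter.Eventually.of_forall fun s => sse_set_trunc_lim h6 s _
  rw [sse_set_id hn h6 hr1 hfB]
  exact le_of_tendsto' hlim key

theorem sse_set_closed {n : ℕ} (hn : Module.finrank ℝ E = n) (h6 : 6 ≤ n) {r C : ℝ}
    (hq : 1 ≤ ((n : ℝ) - 4) * r ^ 2) (hr : |r| ≤ 13 / 25)
    (hmono : ∀ (v : SS E) (u : SS E → ℝ),
      Continuous u → (∀ x, 0 ≤ u x ∧ u x ≤ 1) →
      (∀ x y : SS E, ⟪(v : E), (y : E)⟫ < ⟪(v : E), (x : E)⟫ → u y ≤ u x) →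
      ∫ x, (PP r u x) ^ 2 ∂(sm E) ≤ C * (∫ x, u x ∂(sm E)) ^ ((7 : ℝ) / 5))
    {F : Set (SS E)} (hF : IsClosed F) :
    ∫ x, (PP r (F.indicator (fun _ => (1 : ℝ))) x) ^ 2 ∂(sm E)
      ≤ C * ((sm E).real F) ^ ((7 : ℝ) / 5) := by
  have h1 : 1 ≤ Module.finrank ℝ E := by omega
  have h3 : 3 ≤ Module.finrank ℝ E := by omega
  have hP := sm_prob (E := E) h1
  rcases F.eq_empty_or_nonempty with hFe | hFe
  · have h := sse_set_lip hn h6 hq hr hmono (f := fun _ => (0 : ℝ)) (L := 0) le_rfl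
      (fun x y => by simp) (fun x => by simp)
    have e : (F.indicator (fun _ => (1 : ℝ))) = fun _ => (0 : ℝ) := by
      rw [hFe, Set.indicator_empty]
    rw [e, hFe]
    simpa using h
  · obtain ⟨g, hg⟩ : ∃ g : ℕ → SS E → ℝ, g = fun (k : ℕ) x =>
        max 0 (1 - (k : ℝ) * infDist x F) := ⟨_, rfl⟩
    have hglip : ∀ k : ℕ, ∀ x y : SS E, |g k x - g k y| ≤ (k : ℝ) * ‖(x : E) - y‖ := by
      intro k x y
      rw [hg]
      simp only
      have a1 : |max 0 (1 - (k : ℝ) * infDist x F) - max 0 (1 - (k : ℝ) * infDist y F)|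
          ≤ |(1 - (k : ℝ) * infDist x F) - (1 - (k : ℝ) * infDist y F)| := by
        rw [max_comm 0, max_comm 0]
        exact abs_max_sub_max_le_abs _ _ _
      have a2 : |infDist x F - infDist y F| ≤ dist x y := by
        have := (lipschitz_infDist_pt F).dist_le_mul x y
        rwa [Real.dist_eq, NNReal.coe_one, one_mul] at this
      have a3 : dist x y = ‖(x : E) - y‖ := by rw [Subtype.dist_eq, dist_eq_norm]
      refine a1.trans ?_
      have a4 : (1 - (k : ℝ) * infDist x F) - (1 - (k : ℝ) * infDist y F)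
          = -((k : ℝ) * (infDist x F - infDist y F)) := by ring
      rw [a4, abs_neg, abs_mul, Nat.abs_cast, ← a3]
      exact mul_le_mul_of_nonneg_left a2 (Nat.cast_nonneg k)
    have hg01 : ∀ k : ℕ, ∀ x, 0 ≤ g k x ∧ g k x ≤ 1 := by
      intro k x
      rw [hg]
      refine ⟨le_max_left _ _, max_le zero_le_one ?_⟩
      have : 0 ≤ (k : ℝ) * infDist x F := mul_nonneg (Nat.cast_nonneg k) infDist_nonneg
      linarith
    have hgc : ∀ k, Continuous (g k) := fun k => cont_of_lip (hglip k)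
    have hIm : Measurable (F.indicator (fun _ => (1 : ℝ))) :=
      measurable_const.indicator hF.measurableSet
    have hI01 : ∀ x, 0 ≤ F.indicator (fun _ => (1 : ℝ)) x ∧ F.indicator (fun _ => (1 : ℝ)) x ≤ 1 := by
      intro x
      by_cases hx : x ∈ F
      · rw [indicator_of_mem hx]; norm_num
      · rw [indicator_of_notMem hx]; norm_num
    have hge : ∀ k : ℕ, ∀ x, F.indicator (fun _ => (1 : ℝ)) x ≤ g k x := by
      intro k x
      by_cases hx : x ∈ F
      · rw [indicator_of_mem hx, hg]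
        simp only
        rw [infDist_zero_of_mem hx, mul_zero, sub_zero]
        exact le_max_right _ _
      · rw [indicator_of_notMem hx]
        exact (hg01 k x).1
    have hstep : ∀ k : ℕ, ∫ x, (PP r (F.indicator (fun _ => (1 : ℝ))) x) ^ 2 ∂(sm E)
        ≤ C * (∫ x, g k x ∂(sm E)) ^ ((7 : ℝ) / 5) := by
      intro k
      refine le_trans ?_ (sse_set_lip hn h6 hq hr hmono (Nat.cast_nonneg k) (hglip k) (hg01 k))
      have hB1 := sse_set_BM_01 hIm hI01
      have hB2 := sse_set_BM_01 (hgc k).measurable (hg01 k)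
      obtain ⟨hPB1, -, -, -, -, hm, -⟩ := PP_basic h3 r hB1 hB2
      have hPB2 := (PP_basic h3 r hB2 hB2).1
      have i1 := sse_set_BM_int h1 (sse_set_BM_mul hPB1 hPB1)
      have i2 := sse_set_BM_int h1 (sse_set_BM_mul hPB2 hPB2)
      simp only [pow_two]
      refine integral_mono i1 i2 fun x => ?_
      have b1 := (sse_set_PP_01 h3 r hIm hI01 x).1
      have b2 := hm (hge k) x
      exact mul_le_mul b2 b2 b1 (b1.trans b2)
    have hlim : Tendsto (fun k : ℕ => ∫ x, g k x ∂(sm E)) atTop (𝓝 ((sm E).real F)) := by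
      have e : (sm E).real F = ∫ x, F.indicator (fun _ => (1 : ℝ)) x ∂(sm E) := by
        rw [integral_indicator_const _ hF.measurableSet]
        simp
      rw [e]
      refine tendsto_integral_of_dominated_convergence (fun _ => (1 : ℝ))
        (fun k => (hgc k).aestronglyMeasurable) (integrable_const _)
        (fun k => Filter.Eventually.of_forall fun x => by
          rw [Real.norm_eq_abs, abs_of_nonneg (hg01 k x).1]; exact (hg01 k x).2)
        (Filter.Eventually.of_forall fun x => ?_)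
      by_cases hx : x ∈ F
      · rw [indicator_of_mem hx]
        refine tendsto_const_nhds.congr fun k => ?_
        rw [hg]
        simp only
        rw [infDist_zero_of_mem hx, mul_zero, sub_zero]
        exact (max_eq_right zero_le_one).symm
      · rw [indicator_of_notMem hx]
        have hd : 0 < infDist x F := (hF.notMem_iff_infDist_pos hFe).1 hx
        refine tendsto_const_nhds.congr' ?_
        filter_upwards [eventually_ge_atTop ⌈1 / infDist x F⌉₊] with k hk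
        rw [hg]
        simp only
        have hk' : 1 / infDist x F ≤ k := Nat.ceil_le.1 hk
        rw [div_le_iff₀ hd] at hk'
        exact (max_eq_left (by linarith)).symm
    have hlim2 : Tendsto (fun k : ℕ => C * (∫ x, g k x ∂(sm E)) ^ ((7 : ℝ) / 5)) atTop
        (𝓝 (C * ((sm E).real F) ^ ((7 : ℝ) / 5))) := by
      have hcr : Continuous (fun t : ℝ => C * t ^ ((7 : ℝ) / 5)) :=
        continuous_const.mul (Real.continuous_rpow_const (by norm_num))
      exact (hcr.tendsto _).comp hlim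
    exact ge_of_tendsto' hlim2 hstep

theorem sse_set_meas {n : ℕ} (hn : Module.finrank ℝ E = n) (h6 : 6 ≤ n) {r C : ℝ} (hC : 0 ≤ C)
    (hq : 1 ≤ ((n : ℝ) - 4) * r ^ 2) (hr : |r| ≤ 13 / 25)
    (hmono : ∀ (v : SS E) (u : SS E → ℝ),
      Continuous u → (∀ x, 0 ≤ u x ∧ u x ≤ 1) →
      (∀ x y : SS E, ⟪(v : E), (y : E)⟫ < ⟪(v : E), (x : E)⟫ → u y ≤ u x) →
      ∫ x, (PP r u x) ^ 2 ∂(sm E) ≤ C * (∫ x, u x ∂(sm E)) ^ ((7 : ℝ) / 5))
    {B : Set (SS E)} (hB : MeasurableSet B) :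
    ∫ x, (PP r (B.indicator (fun _ => (1 : ℝ))) x) ^ 2 ∂(sm E)
      ≤ C * ((sm E).real B) ^ ((7 : ℝ) / 5) := by
  have h1 : 1 ≤ Module.finrank ℝ E := by omega
  have h3 : 3 ≤ Module.finrank ℝ E := by omega
  have hP := sm_prob (E := E) h1
  refine le_of_forall_pos_le_add fun ε hε => ?_
  obtain ⟨F, hFB, hF, hFm⟩ := hB.exists_isClosed_sdiff_lt (μ := sm E) (measure_ne_top _ _)
    (ε := ENNReal.ofReal (ε / 3)) (by simp; linarith)
  have hD : MeasurableSet (B \ F) := hB.diff hF.measurableSet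
  have hDr : (sm E).real (B \ F) ≤ ε / 3 := by
    rw [measureReal_def]
    exact ENNReal.toReal_le_of_le_ofReal (by linarith) hFm.le
  have hI : ∀ A : Set (SS E), MeasurableSet A → Measurable (A.indicator (fun _ => (1 : ℝ))) ∧
      ∀ x, 0 ≤ A.indicator (fun _ => (1 : ℝ)) x ∧ A.indicator (fun _ => (1 : ℝ)) x ≤ 1 := by
    intro A hA
    refine ⟨measurable_const.indicator hA, fun x => ?_⟩
    by_cases hx : x ∈ A
    · rw [indicator_of_mem hx]; norm_num
    · rw [indicator_of_notMem hx]; norm_num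
  obtain ⟨mB, bB⟩ := hI B hB
  obtain ⟨mF, bF⟩ := hI F hF.measurableSet
  obtain ⟨mD, bD⟩ := hI (B \ F) hD
  have BB := sse_set_BM_01 mB bB
  have BF := sse_set_BM_01 mF bF
  have BD := sse_set_BM_01 mD bD
  have hsum : (B.indicator (fun _ => (1 : ℝ))) = fun y =>
      1 * F.indicator (fun _ => (1 : ℝ)) y + 1 * (B \ F).indicator (fun _ => (1 : ℝ)) y := by
    funext y
    by_cases hy : y ∈ F
    · have hyD : y ∉ B \ F := fun h => h.2 hy
      rw [indicator_of_mem hy, indicator_of_notMem hyD, indicator_of_mem (hFB hy)]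
      norm_num
    · by_cases hyB : y ∈ B
      · have hyD : y ∈ B \ F := ⟨hyB, hy⟩
        rw [indicator_of_notMem hy, indicator_of_mem hyD, indicator_of_mem hyB]
        norm_num
      · have hyD : y ∉ B \ F := fun h => hyB h.1
        rw [indicator_of_notMem hy, indicator_of_notMem hyD, indicator_of_notMem hyB]
        norm_num
  obtain ⟨PBF, -, hlin, -⟩ := PP_basic h3 r BF BD
  have PBD := (PP_basic h3 r BD BD).1
  have PBB := (PP_basic h3 r BB BB).1
  have hpt : ∀ x, PP r (B.indicator (fun _ => (1 : ℝ))) x ^ 2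
      ≤ PP r (F.indicator (fun _ => (1 : ℝ))) x ^ 2
        + 3 * PP r ((B \ F).indicator (fun _ => (1 : ℝ))) x := by
    intro x
    have e := hlin 1 1 x
    rw [← hsum, one_mul, one_mul] at e
    have c1 := sse_set_PP_01 h3 r mF bF x
    have c2 := sse_set_PP_01 h3 r mD bD x
    rw [e]
    nlinarith [c1.1, c1.2, c2.1, c2.2, mul_nonneg c2.1 (sub_nonneg.2 c1.2),
      mul_nonneg c2.1 (sub_nonneg.2 c2.2)]
  obtain ⟨hr0, hr0'⟩ := abs_le.1 (show |r| ≤ 1 by linarith)
  have hmean : ∫ x, PP r ((B \ F).indicator (fun _ => (1 : ℝ))) x ∂(sm E)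
      = (sm E).real (B \ F) := by
    rw [(PP_sym h3 hr0 hr0' BD BD).2.1, integral_indicator_const _ hD]
    simp
  have i1 : Integrable (fun x => PP r (B.indicator (fun _ => (1 : ℝ))) x ^ 2) (sm E) := by
    have := sse_set_BM_int h1 (sse_set_BM_mul PBB PBB)
    simpa only [pow_two] using this
  have i2 : Integrable (fun x => PP r (F.indicator (fun _ => (1 : ℝ))) x ^ 2) (sm E) := by
    have := sse_set_BM_int h1 (sse_set_BM_mul PBF PBF)
    simpa only [pow_two] using this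
  have i3 : Integrable (fun x => 3 * PP r ((B \ F).indicator (fun _ => (1 : ℝ))) x) (sm E) :=
    (sse_set_BM_int h1 PBD).const_mul 3
  have h5 := integral_mono i1 (i2.add i3) hpt
  have h6' : ∫ x, ((fun x => PP r (F.indicator (fun _ => (1 : ℝ))) x ^ 2)
      + fun x => 3 * PP r ((B \ F).indicator (fun _ => (1 : ℝ))) x) x ∂(sm E)
      = (∫ x, PP r (F.indicator (fun _ => (1 : ℝ))) x ^ 2 ∂(sm E))
        + 3 * (sm E).real (B \ F) := by
    rw [integral_add' i2 i3, integral_const_mul, hmean]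
  rw [h6'] at h5
  have h7 := sse_set_closed hn h6 hq hr hmono hF
  have h8 : (sm E).real F ^ ((7 : ℝ) / 5) ≤ (sm E).real B ^ ((7 : ℝ) / 5) :=
    Real.rpow_le_rpow measureReal_nonneg (measureReal_mono hFB) (by norm_num)
  have h9 := mul_le_mul_of_nonneg_left h8 hC
  linarith

theorem sse_set {r1 : ℝ} (hr1 : 0 < r1) : ∃ C : ℝ, 0 < C ∧ ∃ n0 : ℕ, 6 ≤ n0 ∧ ∀ (E : Type)
    [NormedAddCommGroup E]
    [InnerProductSpace ℝ E] [CompleteSpace E] [FiniteDimensional ℝ E] [MeasurableSpace E]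
    [BorelSpace E], n0 ≤ Module.finrank ℝ E → ∀ r : ℝ, r1 ≤ |r| → |r| ≤ 13 / 25 →
    ∀ (B : Set (SS E)), MeasurableSet B →
    ∫ x, (PP r (B.indicator (fun _ => (1 : ℝ))) x) ^ 2 ∂(sm E)
      ≤ C * ((sm E).real B) ^ ((7 : ℝ) / 5) := by
  obtain ⟨C, hC, n0, hn0, h⟩ := sse_mono
  refine ⟨C, hC, max n0 (⌈1 / r1 ^ 2⌉₊ + 4), le_max_of_le_left hn0, ?_⟩
  intro E _ _ _ _ _ _ hE r hr1' hr B hB
  obtain ⟨n, hn⟩ : ∃ n, Module.finrank ℝ E = n := ⟨_, rfl⟩
  have hn1 : n0 ≤ n := by rw [← hn]; exact (le_max_left _ _).trans hE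
  have hn2 : ⌈1 / r1 ^ 2⌉₊ + 4 ≤ n := by rw [← hn]; exact (le_max_right _ _).trans hE
  have hn3 : 1 / r1 ^ 2 ≤ (n : ℝ) - 4 := by
    have h1 : 1 / r1 ^ 2 ≤ (⌈1 / r1 ^ 2⌉₊ : ℝ) := Nat.le_ceil _
    have h2 : ((⌈1 / r1 ^ 2⌉₊ + 4 : ℕ) : ℝ) ≤ n := by exact_mod_cast hn2
    push_cast at h2
    linarith
  have hr2 : 0 < r1 ^ 2 := by positivity
  have hr3 : r1 ^ 2 ≤ r ^ 2 := by
    rw [← sq_abs r]
    exact pow_le_pow_left₀ hr1.le hr1' 2
  have hq : 1 ≤ ((n : ℝ) - 4) * r ^ 2 := by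
    rw [div_le_iff₀ hr2] at hn3
    have h4 : 0 ≤ (n : ℝ) - 4 := by
      by_contra hneg
      rw [not_le] at hneg
      nlinarith
    exact hn3.trans (mul_le_mul_of_nonneg_left hr3 h4)
  exact sse_set_meas hn (hn0.trans hn1) hC.le hq hr
    (fun v u => h E (by rw [hn]; exact hn1) r hr v u) hB

-- sse_fun
/-- bounded measurable functions are integrable -/
theorem sse_fun_int (hn : 1 ≤ Module.finrank ℝ E) {f : SS E → ℝ} (hf : BM f) :
    Integrable f (sm E) := by
  have := sm_prob (E := E) hn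
  obtain ⟨C, hC⟩ := hf.2
  exact Integrable.of_bound hf.1.aestronglyMeasurable C
    (Filter.Eventually.of_forall fun x => by rw [Real.norm_eq_abs]; exact hC x)

/-- counting the levels below a number -/
theorem sse_fun_count (m : ℕ) (hm : 0 < m) (y : ℝ) (h0 : 0 ≤ y) (h1 : y ≤ 1) :
    (m : ℝ) * y ≤ ∑ i ∈ Finset.range m, (if (i : ℝ) / m < y then (1 : ℝ) else 0) ∧
    ∑ i ∈ Finset.range m, (if (i : ℝ) / m < y then (1 : ℝ) else 0) ≤ m * y + 1 := by
  have hm0 : (0 : ℝ) < m := by exact_mod_cast hm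
  have e : ∑ i ∈ Finset.range m, (if (i : ℝ) / m < y then (1 : ℝ) else 0) = (⌈(m : ℝ) * y⌉₊ : ℝ) := by
    rw [← Finset.sum_filter, Finset.sum_const, nsmul_eq_mul, mul_one]
    have : (Finset.range m).filter (fun i : ℕ => (i : ℝ) / m < y) = Finset.range ⌈(m : ℝ) * y⌉₊ := by
      ext i
      rw [Finset.mem_filter, Finset.mem_range, Finset.mem_range, Nat.lt_ceil, div_lt_iff₀ hm0]
      constructor
      · rintro ⟨_, h⟩; linarith
      · intro h
        refine ⟨?_, by linarith⟩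
        have : (i : ℝ) < m := by nlinarith
        exact_mod_cast this
    rw [this, Finset.card_range]
  rw [e]
  exact ⟨Nat.le_ceil _, (Nat.ceil_lt_add_one (by positivity)).le⟩

theorem sse_fun_bm {f : SS E → ℝ} (hf : Measurable f) (s : ℝ) :
    BM ({x | s < f x}.indicator (fun _ : SS E => (1 : ℝ))) := by
  refine ⟨measurable_const.indicator (measurableSet_lt measurable_const hf), 1, fun x => ?_⟩
  by_cases h : x ∈ {x | s < f x}
  · rw [Set.indicator_of_mem h]; simp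
  · rw [Set.indicator_of_notMem h]; simp

/-- finite sums are bounded and measurable, and the operator is additive on them -/
theorem sse_fun_sum (hn : 3 ≤ Module.finrank ℝ E) (r : ℝ) (g : ℕ → SS E → ℝ) (hg : ∀ i, BM (g i))
    (m : ℕ) : BM (fun x => ∑ i ∈ Finset.range m, g i x) ∧
      ∀ x, PP r (fun x => ∑ i ∈ Finset.range m, g i x) x = ∑ i ∈ Finset.range m, PP r (g i) x := by
  induction m with
  | zero =>
    have hz : BM (fun _ : SS E => (0 : ℝ)) := ⟨measurable_const, 0, fun x => by simp⟩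
    refine ⟨by simpa using hz, fun x => ?_⟩
    have := (PP_basic hn r hz hz).2.2.1 0 0 x
    simpa using this
  | succ m ih =>
    obtain ⟨h1, h2⟩ := ih
    constructor
    · obtain ⟨C, hC⟩ := h1.2
      obtain ⟨D, hD⟩ := (hg m).2
      simp only [Finset.sum_range_succ]
      exact ⟨h1.1.add (hg m).1, C + D, fun x => (abs_add_le _ _).trans (add_le_add (hC x) (hD x))⟩
    · intro x
      have h3 := (PP_basic hn r h1 (hg m)).2.2.1 1 1 x
      simp only [one_mul] at h3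
      simp only [Finset.sum_range_succ]
      rw [h3, h2]

theorem sse_fun {r1 : ℝ} (hr1 : 0 < r1) : ∃ C : ℝ, 0 < C ∧ ∃ n0 : ℕ, 6 ≤ n0 ∧ ∀ (E : Type)
    [NormedAddCommGroup E]
    [InnerProductSpace ℝ E] [CompleteSpace E] [FiniteDimensional ℝ E] [MeasurableSpace E]
    [BorelSpace E], n0 ≤ Module.finrank ℝ E → ∀ r : ℝ, r1 ≤ |r| → |r| ≤ 13 / 25 →
    ∀ (f : SS E → ℝ), Measurable f → (∀ x, 0 ≤ f x ∧ f x ≤ 1) →
    ∫ x, (PP r f x) ^ 2 ∂(sm E) ≤ C * (∫ x, f x ∂(sm E)) ^ ((7 : ℝ) / 5) := by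
  obtain ⟨C, hC, n0, hn0, hset⟩ := sse_set hr1
  refine ⟨C, hC, n0, hn0, ?_⟩
  intro E _ _ _ _ _ _ hE r hr hr' f hf hf01
  have hn1 : 1 ≤ Module.finrank ℝ E := by omega
  have hn3 : 3 ≤ Module.finrank ℝ E := by omega
  have := sm_prob (E := E) hn1
  have hBMf : BM f := ⟨hf, 1, fun x => by rw [abs_of_nonneg (hf01 x).1]; exact (hf01 x).2⟩
  have hfint := sse_fun_int hn1 hBMf
  have hI0 : 0 ≤ ∫ x, f x ∂(sm E) := integral_nonneg fun x => (hf01 x).1
  -- the estimate for every number of levels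
  have key : ∀ m : ℕ, 0 < m → ∫ x, (PP r f x) ^ 2 ∂(sm E) ≤
      C * (∫ x, f x ∂(sm E) + 2 / m) ^ ((7 : ℝ) / 5) := by
    intro m hm
    have hm0 : (0 : ℝ) < m := by exact_mod_cast hm
    obtain ⟨B, hB⟩ : ∃ B : ℕ → Set (SS E), B = fun i : ℕ => {x | (i : ℝ) / m < f x} := ⟨_, rfl⟩
    have hBm : ∀ i, MeasurableSet (B i) := fun i => by
      rw [hB]; exact measurableSet_lt measurable_const hf
    obtain ⟨g, hg⟩ : ∃ g : ℕ → SS E → ℝ, g = fun i => (B i).indicator (fun _ => (1 : ℝ)) := ⟨_, rfl⟩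
    have hgBM : ∀ i, BM (g i) := fun i => by rw [hg, hB]; exact sse_fun_bm hf _
    have hgval : ∀ i x, g i x = if (i : ℝ) / m < f x then 1 else 0 := by
      intro i x
      rw [hg, hB]
      simp only [Set.indicator_apply, Set.mem_setOf_eq]
    obtain ⟨hFBM, hPF⟩ := sse_fun_sum hn3 r g hgBM m
    have hsum_le : ∀ x, (m : ℝ) * f x ≤ ∑ i ∈ Finset.range m, g i x ∧
        ∑ i ∈ Finset.range m, g i x ≤ m * f x + 1 := by
      intro x
      have := sse_fun_count m hm (f x) (hf01 x).1 (hf01 x).2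
      simp only [hgval]
      exact this
    -- weights
    obtain ⟨σ, hσ⟩ : ∃ σ : ℕ → ℝ, σ = fun i => (sm E).real (B i) := ⟨_, rfl⟩
    have hσ0 : ∀ i, 0 ≤ σ i := fun i => by rw [hσ]; exact measureReal_nonneg
    obtain ⟨c, hc⟩ : ∃ c : ℕ → ℝ, c = fun i => (σ i + 1 / m) ^ ((7 : ℝ) / 10) := ⟨_, rfl⟩
    have hcpos : ∀ i, 0 < c i := fun i => by
      rw [hc]
      have := hσ0 i
      exact Real.rpow_pos_of_pos (by positivity) _
    -- L2 bound of the pieces
    have hpiece : ∀ i, ∫ x, (PP r (g i) x) ^ 2 ∂(sm E) ≤ C * (c i) ^ 2 := by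
      intro i
      have h1 := hset E hE r hr hr' (B i) (hBm i)
      rw [hg]
      refine h1.trans ?_
      apply mul_le_mul_of_nonneg_left _ hC.le
      rw [hc]
      simp only
      rw [← Real.rpow_natCast, ← Real.rpow_mul (by have := hσ0 i; positivity)]
      have h2 : ((7 : ℝ) / 10) * ((2 : ℕ) : ℝ) = 7 / 5 := by norm_num
      rw [h2]
      apply Real.rpow_le_rpow measureReal_nonneg _ (by norm_num)
      have h3 : σ i = (sm E).real (B i) := by rw [hσ]
      rw [h3]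
      have : (0 : ℝ) < 1 / m := by positivity
      linarith
    -- pointwise Cauchy-Schwarz
    have hPg : ∀ i, BM (PP r (g i)) := fun i => (PP_basic hn3 r (hgBM i) (hgBM i)).1
    have hCS : ∀ x, (PP r f x) ^ 2 ≤ (1 / (m : ℝ) ^ 2) * ((∑ i ∈ Finset.range m, c i) *
        ∑ i ∈ Finset.range m, (PP r (g i) x) ^ 2 / c i) := by
      intro x
      have hF2 : BM (fun y => (1 / (m : ℝ)) * ∑ i ∈ Finset.range m, g i y +
          0 * ∑ i ∈ Finset.range m, g i y) := by
        obtain ⟨D, hD⟩ := hFBM.2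
        refine ⟨(hFBM.1.const_mul _).add (hFBM.1.const_mul _), (1 / (m : ℝ)) * D, fun y => ?_⟩
        show |(1 / (m : ℝ)) * ∑ i ∈ Finset.range m, g i y + 0 * ∑ i ∈ Finset.range m, g i y| ≤ _
        rw [zero_mul, add_zero, abs_mul, abs_of_pos (by positivity : (0 : ℝ) < 1 / m)]
        exact mul_le_mul_of_nonneg_left (hD y) (by positivity)
      have h1 : PP r f x ≤ (1 / (m : ℝ)) * ∑ i ∈ Finset.range m, PP r (g i) x := by
        have h2 := (PP_basic hn3 r hBMf hF2).2.2.2.2.2.1 (fun y => by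
          rw [zero_mul, add_zero, one_div, ← div_eq_inv_mul, le_div_iff₀ hm0, mul_comm]
          exact (hsum_le y).1) x
        refine h2.trans (le_of_eq ?_)
        rw [(PP_basic hn3 r hFBM hFBM).2.2.1 (1 / (m : ℝ)) 0 x, zero_mul, add_zero, hPF]
      have h0 : 0 ≤ PP r f x :=
        (PP_basic hn3 r hBMf hBMf).2.2.2.2.1 0 x fun y => (hf01 y).1
      have h3 : (PP r f x) ^ 2 ≤ ((1 / (m : ℝ)) * ∑ i ∈ Finset.range m, PP r (g i) x) ^ 2 :=
        pow_le_pow_left₀ h0 h1 2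
      refine h3.trans ?_
      rw [mul_pow, one_div_pow]
      apply mul_le_mul_of_nonneg_left _ (by positivity)
      apply Finset.sum_sq_le_sum_mul_sum_of_sq_eq_mul
      · intro i _; exact (hcpos i).le
      · intro i _; have := hcpos i; positivity
      · intro i _; have := hcpos i; field_simp
    -- integrate
    have hsqint : ∀ i, Integrable (fun x => (PP r (g i) x) ^ 2 / c i) (sm E) := by
      intro i
      obtain ⟨D, hD⟩ := (hPg i).2
      have : BM (fun x => (PP r (g i) x) ^ 2) := ⟨(hPg i).1.pow_const 2, D ^ 2, fun x => by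
        rw [abs_pow]; exact pow_le_pow_left₀ (abs_nonneg _) (hD x) 2⟩
      exact (sse_fun_int hn1 this).div_const _
    have hPfint : Integrable (fun x => (PP r f x) ^ 2) (sm E) := by
      have hPf := (PP_basic hn3 r hBMf hBMf).1
      obtain ⟨D, hD⟩ := hPf.2
      have : BM (fun x => (PP r f x) ^ 2) := ⟨hPf.1.pow_const 2, D ^ 2, fun x => by
        rw [abs_pow]; exact pow_le_pow_left₀ (abs_nonneg _) (hD x) 2⟩
      exact sse_fun_int hn1 this
    obtain ⟨S, hS⟩ : ∃ S : ℝ, S = ∑ i ∈ Finset.range m, (1 / (m : ℝ)) * c i := ⟨_, rfl⟩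
    have hSc : ∑ i ∈ Finset.range m, c i = m * S := by
      rw [hS, ← Finset.mul_sum]; field_simp
    have hS0 : 0 ≤ S := by
      rw [hS]
      exact Finset.sum_nonneg fun i _ => mul_nonneg (by positivity) (hcpos i).le
    have h1 : ∫ x, (PP r f x) ^ 2 ∂(sm E) ≤ C * S ^ 2 := by
      calc ∫ x, (PP r f x) ^ 2 ∂(sm E) ≤ ∫ x, (1 / (m : ℝ) ^ 2) * ((∑ i ∈ Finset.range m, c i) *
        ∑ i ∈ Finset.range m, (PP r (g i) x) ^ 2 / c i) ∂(sm E) :=
            integral_mono hPfint (((integrable_finsetSum _ fun i _ => hsqint i).const_mul _).const_mul _) hCS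
        _ = (1 / (m : ℝ) ^ 2) * ((∑ i ∈ Finset.range m, c i) *
            ∑ i ∈ Finset.range m, (∫ x, (PP r (g i) x) ^ 2 ∂(sm E)) / c i) := by
            rw [integral_const_mul, integral_const_mul, integral_finsetSum _ fun i _ => hsqint i]
            simp only [integral_div]
        _ ≤ (1 / (m : ℝ) ^ 2) * ((∑ i ∈ Finset.range m, c i) *
            ∑ i ∈ Finset.range m, C * c i) := by
            apply mul_le_mul_of_nonneg_left _ (by positivity)
            apply mul_le_mul_of_nonneg_left _ (Finset.sum_nonneg fun i _ => (hcpos i).le)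
            apply Finset.sum_le_sum
            intro i _
            rw [div_le_iff₀ (hcpos i)]
            have := hpiece i
            nlinarith
        _ = C * S ^ 2 := by
            rw [← Finset.mul_sum, hSc]
            field_simp
    -- Jensen
    have h2 : S ^ ((10 : ℝ) / 7) ≤ ∫ x, f x ∂(sm E) + 2 / m := by
      have h3 := Real.rpow_arith_mean_le_arith_mean_rpow (Finset.range m) (fun _ => 1 / (m : ℝ)) c
        (fun i _ => by positivity) (by rw [Finset.sum_const, Finset.card_range, nsmul_eq_mul]; field_simp)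
        (fun i _ => (hcpos i).le) (p := (10 : ℝ) / 7) (by norm_num)
      rw [← hS] at h3
      refine h3.trans ?_
      have h4 : ∀ i, c i ^ ((10 : ℝ) / 7) = σ i + 1 / m := by
        intro i
        rw [hc]
        simp only
        rw [← Real.rpow_mul (by have := hσ0 i; positivity)]
        have : (7 : ℝ) / 10 * (10 / 7) = 1 := by norm_num
        rw [this, Real.rpow_one]
      simp only [h4]
      have h5 : ∀ i, σ i = ∫ x, g i x ∂(sm E) := by
        intro i
        rw [hg, hσ]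
        simp only
        rw [integral_indicator_const _ (hBm i)]
        simp
      have h6 : ∑ i ∈ Finset.range m, σ i ≤ m * (∫ x, f x ∂(sm E)) + 1 := by
        simp only [h5]
        rw [← integral_finsetSum _ fun i _ => sse_fun_int hn1 (hgBM i)]
        calc ∫ x, ∑ i ∈ Finset.range m, g i x ∂(sm E) ≤ ∫ x, (m * f x + 1) ∂(sm E) :=
              integral_mono (sse_fun_int hn1 hFBM) ((hfint.const_mul _).add (integrable_const _))
                fun x => (hsum_le x).2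
          _ = m * (∫ x, f x ∂(sm E)) + 1 := by
              rw [integral_add (hfint.const_mul _) (integrable_const _), integral_const_mul]
              simp
      rw [← Finset.mul_sum, Finset.sum_add_distrib, Finset.sum_const, Finset.card_range,
        nsmul_eq_mul]
      have h7 : 1 / (m : ℝ) * (∑ i ∈ Finset.range m, σ i + m * (1 / m)) ≤
          1 / (m : ℝ) * ((m * (∫ x, f x ∂(sm E)) + 1) + m * (1 / m)) := by
        apply mul_le_mul_of_nonneg_left _ (by positivity)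
        linarith
      refine h7.trans (le_of_eq ?_)
      field_simp
      ring
    have h3 : S ^ 2 ≤ (∫ x, f x ∂(sm E) + 2 / m) ^ ((7 : ℝ) / 5) := by
      have h4 : (S ^ ((10 : ℝ) / 7)) ^ ((7 : ℝ) / 5) = S ^ 2 := by
        rw [← Real.rpow_mul hS0, ← Real.rpow_natCast]
        norm_num
      rw [← h4]
      exact Real.rpow_le_rpow (Real.rpow_nonneg hS0 _) h2 (by norm_num)
    exact h1.trans (mul_le_mul_of_nonneg_left h3 hC.le)
  -- the limit
  have hlim : Tendsto (fun m : ℕ => C * (∫ x, f x ∂(sm E) + 2 / (m : ℝ)) ^ ((7 : ℝ) / 5)) atTop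
      (𝓝 (C * (∫ x, f x ∂(sm E) + 0) ^ ((7 : ℝ) / 5))) := by
    have h1 : Tendsto (fun m : ℕ => (2 : ℝ) / (m : ℝ)) atTop (𝓝 0) :=
      tendsto_const_div_atTop_nhds_zero_nat 2
    have h2 : Continuous (fun t : ℝ => C * (∫ x, f x ∂(sm E) + t) ^ ((7 : ℝ) / 5)) :=
      continuous_const.mul ((continuous_const.add continuous_id).rpow_const fun x => Or.inr (by norm_num))
    exact (h2.tendsto 0).comp h1
  rw [add_zero] at hlim
  refine ge_of_tendsto hlim ?_
  filter_upwards [eventually_gt_atTop 0] with m hm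
  exact key m hm


end CoreW

end Pool.Agent.helper440_simplex
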