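import Pool.Agent.helper440_simplex.LocalA1
import Pool.Agent.helper440_simplex.LocalA2
import Pool.Agent.helper440_simplex.Sse

set_option autoImplicit false
set_option linter.unusedSectionVars false

namespace Pool.Agent.helper440_simplex

open MeasureTheory Metric Set Filter Topology
open scoped RealInnerProductSpace

section CoreW
variable {E : Type*} [NormedAddCommGroup E] [InnerProductSpace ℝ E] [CompleteSpace E]
  [FiniteDimensional ℝ E] [MeasurableSpace E] [BorelSpace E]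

-- tail_D
theorem tail_D_holder {o F : ℝ → ℝ} (ho : ∀ s, 0 ≤ o s) (hoi : Integrable o)
    (hF : Measurable F) (hF0 : ∀ s, 0 ≤ F s) (hF1 : ∀ s, F s ≤ 1) {W : Set ℝ}
    (hW : MeasurableSet W) (hz : ∀ s, s ∉ W → o s * F s = 0) {K : ℝ} (hK : 0 < K)
    (hoW : ∫ s in W, o s ≤ K) {p : ℝ} (hp0 : 0 < p) (hp1 : p < 1) :
    ∫ s, o s * F s ^ p ≤ K ^ (1 - p) * (∫ s, o s * F s) ^ p := by
  have hFp1 : ∀ s, F s ^ p ≤ 1 := fun s => Real.rpow_le_one (hF0 s) (hF1 s) hp0.le
  have hFp0 : ∀ s, 0 ≤ F s ^ p := fun s => Real.rpow_nonneg (hF0 s) p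
  have hFpm : Measurable (fun s => F s ^ p) := hF.pow_const p
  have hint1 : Integrable (fun s => o s * F s) :=
    hoi.mul_bdd (c := 1) hF.aestronglyMeasurable (ae_of_all _ fun s => by
      rw [Real.norm_eq_abs, abs_of_nonneg (hF0 s)]; exact hF1 s)
  have hint2 : Integrable (fun s => o s * F s ^ p) :=
    hoi.mul_bdd (c := 1) hFpm.aestronglyMeasurable (ae_of_all _ fun s => by
      rw [Real.norm_eq_abs, abs_of_nonneg (hFp0 s)]; exact hFp1 s)
  have hM0 : 0 ≤ ∫ s, o s * F s := integral_nonneg fun s => mul_nonneg (ho s) (hF0 s)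
  rcases hM0.eq_or_lt with hM | hM
  · have h1 : (fun s => o s * F s) =ᵐ[volume] 0 :=
      (integral_eq_zero_iff_of_nonneg (fun s => mul_nonneg (ho s) (hF0 s)) hint1).1 hM.symm
    have h2 : ∫ s, o s * F s ^ p = 0 := by
      rw [integral_eq_zero_iff_of_nonneg (fun s => mul_nonneg (ho s) (hFp0 s)) hint2]
      filter_upwards [h1] with s hs
      simp only [Pi.zero_apply, mul_eq_zero] at hs ⊢
      rcases hs with hs | hs
      · exact Or.inl hs
      · right; rw [hs, Real.zero_rpow hp0.ne']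
    rw [h2, ← hM, Real.zero_rpow hp0.ne', mul_zero]
  · set M := ∫ s, o s * F s with hMdef
    set l := M / K with hl
    have hl0 : 0 < l := div_pos hM hK
    have hlp : 0 < l ^ p := Real.rpow_pos_of_pos hl0 p
    have hpt : ∀ s, o s * F s ^ p ≤ l ^ p * (p / l * (o s * F s) + (1 - p) * W.indicator o s) := by
      intro s
      by_cases hs : s ∈ W
      · rw [Set.indicator_of_mem hs]
        have h3 : F s ^ p ≤ l ^ p * (p * (F s / l) + (1 - p)) := by
          have h4 : (F s / l) ^ p * 1 ^ (1 - p) ≤ p * (F s / l) + (1 - p) * 1 :=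
            Real.geom_mean_le_arith_mean2_weighted hp0.le (by linarith)
              (div_nonneg (hF0 s) hl0.le) zero_le_one (by ring)
          rw [Real.one_rpow, mul_one, mul_one] at h4
          have h5 : F s ^ p = l ^ p * (F s / l) ^ p := by
            rw [← Real.mul_rpow hl0.le (div_nonneg (hF0 s) hl0.le), mul_div_cancel₀ _ hl0.ne']
          rw [h5]
          exact mul_le_mul_of_nonneg_left h4 hlp.le
        calc o s * F s ^ p ≤ o s * (l ^ p * (p * (F s / l) + (1 - p))) :=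
              mul_le_mul_of_nonneg_left h3 (ho s)
          _ = _ := by ring
      · rw [Set.indicator_of_notMem hs]
        have h3 := hz s hs
        have h4 : o s * F s ^ p = 0 := by
          rcases mul_eq_zero.1 h3 with h | h
          · rw [h, zero_mul]
          · rw [h, Real.zero_rpow hp0.ne', mul_zero]
        rw [h4, h3]
        simp
    have hint3 : Integrable (fun s => p / l * (o s * F s) + (1 - p) * W.indicator o s) :=
      (hint1.const_mul _).add ((hoi.indicator hW).const_mul _)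
    calc ∫ s, o s * F s ^ p
        ≤ ∫ s, l ^ p * (p / l * (o s * F s) + (1 - p) * W.indicator o s) :=
          integral_mono hint2 (hint3.const_mul _) hpt
      _ = l ^ p * (p / l * M + (1 - p) * ∫ s in W, o s) := by
          rw [integral_const_mul, integral_add (hint1.const_mul _) ((hoi.indicator hW).const_mul _),
            integral_const_mul, integral_const_mul, integral_indicator hW]
      _ ≤ l ^ p * (p / l * M + (1 - p) * K) := by
          apply mul_le_mul_of_nonneg_left _ hlp.le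
          have := mul_le_mul_of_nonneg_left hoW (by linarith : 0 ≤ 1 - p)
          linarith
      _ = l ^ p * K := by
          have : p / l * M = p * K := by
            rw [hl]; field_simp
          rw [this]; ring
      _ = K ^ (1 - p) * M ^ p := by
          rw [hl, Real.div_rpow hM.le hK.le, Real.rpow_sub hK, Real.rpow_one]
          field_simp

theorem tail_D_cs {X : Type*} [MeasurableSpace X] {μ : Measure X} [IsProbabilityMeasure μ]
    {B : Set X} (hB : MeasurableSet B) {g : X → ℝ} (hg : Measurable g) (hg0 : ∀ x, 0 ≤ g x)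
    (hg1 : ∀ x, g x ≤ 1) {Y : ℝ} (hY : ∫ x, g x ^ 2 ∂μ ≤ Y) :
    ∫ x, B.indicator (fun _ => (1 : ℝ)) x * g x ∂μ
      ≤ (μ.real B) ^ ((1 : ℝ) / 2) * Y ^ ((1 : ℝ) / 2) := by
  have hI0 : ∀ x, 0 ≤ B.indicator (fun _ => (1 : ℝ)) x := fun x =>
    Set.indicator_nonneg (fun _ _ => zero_le_one) x
  have hI1 : ∀ x, B.indicator (fun _ => (1 : ℝ)) x ≤ 1 := fun x =>
    Set.indicator_le_self' (fun _ _ => zero_le_one) x
  have hIm : Measurable (B.indicator (fun _ => (1 : ℝ))) := measurable_const.indicator hB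
  have h2 : (2 : ℝ).HolderConjugate 2 := Real.HolderConjugate.two_two
  have hm1 : MemLp (B.indicator (fun _ => (1 : ℝ))) (ENNReal.ofReal 2) μ :=
    MemLp.of_bound hIm.aestronglyMeasurable 1 (ae_of_all _ fun x => by
      rw [Real.norm_eq_abs, abs_of_nonneg (hI0 x)]; exact hI1 x)
  have hm2 : MemLp g (ENNReal.ofReal 2) μ :=
    MemLp.of_bound hg.aestronglyMeasurable 1 (ae_of_all _ fun x => by
      rw [Real.norm_eq_abs, abs_of_nonneg (hg0 x)]; exact hg1 x)
  have h := integral_mul_le_Lp_mul_Lq_of_nonneg h2 (ae_of_all _ hI0) (ae_of_all _ hg0) hm1 hm2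
  refine h.trans ?_
  have e1 : ∫ x, B.indicator (fun _ => (1 : ℝ)) x ^ (2 : ℝ) ∂μ = μ.real B := by
    have : (fun x => B.indicator (fun _ => (1 : ℝ)) x ^ (2 : ℝ))
        = B.indicator (fun _ => (1 : ℝ)) := by
      funext x
      by_cases hx : x ∈ B
      · simp [Set.indicator_of_mem hx]
      · rw [Set.indicator_of_notMem hx]
        norm_num
    rw [this]
    exact integral_indicator_one hB
  have e2 : ∫ x, g x ^ (2 : ℝ) ∂μ = ∫ x, g x ^ 2 ∂μ := by
    congr 1; funext x; rw [Real.rpow_two]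
  rw [e1, e2]
  have h0 : 0 ≤ ∫ x, g x ^ 2 ∂μ := integral_nonneg fun x => sq_nonneg _
  exact mul_le_mul_of_nonneg_left (Real.rpow_le_rpow h0 hY (by norm_num))
    (Real.rpow_nonneg measureReal_nonneg _)


theorem tail_D_sq {v : SS E} {τ : ℝ} (h1 : -1 ≤ τ) (h2 : τ ≤ 1) (w : SS (Pe v)) :
    ⟪(v : E), (pt v τ w : E)⟫ = τ := (pt_inner h1 h2 h1 h2 v w w).1

theorem tail_D_slice (v : SS E) (τ : ℝ) {B : Set (SS E)} (hB : MeasurableSet B) :
    MeasurableSet {w : SS (Pe v) | pt v τ w ∈ B} :=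
  hB.preimage ((pt_cont v).comp (continuous_const.prodMk continuous_id)).measurable

theorem tail_D_ind_BM {B : Set (SS E)} (hB : MeasurableSet B) : BM (ind B) := by
  refine ⟨measurable_const.indicator hB, 1, fun x => ?_⟩
  unfold ind
  by_cases hx : x ∈ B
  · simp [Set.indicator_of_mem hx]
  · simp [Set.indicator_of_notMem hx]

theorem tail_D_ind_nonneg (B : Set (SS E)) (x : SS E) : 0 ≤ ind B x :=
  Set.indicator_nonneg (fun _ _ => zero_le_one) x

theorem tail_D_ind_le (B : Set (SS E)) (x : SS E) : ind B x ≤ 1 :=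
  Set.indicator_le_self' (fun _ _ => zero_le_one) x

theorem tail_D_PP_slice (v : SS E) (τ : ℝ) {B : Set (SS E)} (hB : MeasurableSet B) :
    PP τ (ind B) v = (sm (Pe v)).real {w : SS (Pe v) | pt v τ w ∈ B} := by
  have h : (fun w : SS (Pe v) => ind B (pt v τ w))
      = {w : SS (Pe v) | pt v τ w ∈ B}.indicator (fun _ => (1 : ℝ)) := by
    funext w
    rfl
  unfold PP
  rw [h]
  exact integral_indicator_one (tail_D_slice v τ hB)

theorem tail_D_meas (h3 : 3 ≤ Module.finrank ℝ E) (v : SS E) {f : SS E → ℝ} (hf : Measurable f) :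
    Measurable (fun τ : ℝ => PP τ f v) := by
  have h := PP_meas h3 hf
  exact h.of_uncurry_right (f := fun τ x => PP τ f x)

theorem tail_D_zero {n : ℕ} (h4 : 4 ≤ n) (v : SS E) {c δ : ℝ} {B : Set (SS E)}
    (hBW : ∀ x ∈ B, |⟪(v : E), (x : E)⟫ - c| ≤ δ) {s : ℝ} (hs : ¬ |s - c| ≤ δ) :
    om n s = 0 ∨ ∀ w : SS (Pe v), ind B (pt v s w) = 0 := by
  by_cases h1 : 1 ≤ |s|
  · exact Or.inl ((om_basic h4).2.2.2.1 s h1)
  · right
    intro w
    have h2 := abs_lt.1 (not_le.1 h1)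
    unfold ind
    apply Set.indicator_of_notMem
    intro hmem
    have h3 := hBW _ hmem
    rw [tail_D_sq h2.1.le h2.2.le w] at h3
    exact hs h3

theorem tail_D_pair {n : ℕ} (hn : Module.finrank ℝ E = n) (h6 : 6 ≤ n) (v : SS E)
    {ρ c δ C2 C3 K : ℝ} (hρ : |ρ| < 1) {S T : Set (SS E)} (hS : MeasurableSet S)
    (hT : MeasurableSet T) (hSW : ∀ x ∈ S, |⟪(v : E), (x : E)⟫ - c| ≤ δ)
    (hTW : ∀ x ∈ T, |⟪(v : E), (x : E)⟫ - c| ≤ δ)
    (hker : ∀ τ τ' : ℝ, |τ - c| ≤ δ → |τ' - c| ≤ δ → 0 ≤ kk n ρ τ τ' ∧ kk n ρ τ τ' ≤ C2)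
    (hsse : ∀ τ τ' : ℝ, |τ - c| ≤ δ → |τ' - c| ≤ δ → ∀ B : Set (SS (Pe v)), MeasurableSet B →
      ∫ x, (PP (rr ρ τ τ') (B.indicator (fun _ => (1 : ℝ))) x) ^ 2 ∂(sm (Pe v))
        ≤ C3 * ((sm (Pe v)).real B) ^ ((7 : ℝ) / 5))
    (hC2 : 0 ≤ C2) (hC3 : 0 ≤ C3) (hK0 : 0 < K) (hK : ∫ s in {s : ℝ | |s - c| ≤ δ}, om n s ≤ K) :
    ∫ x, ind S x * PP ρ (ind T) x ∂(sm E) ≤ C2 * C3 ^ ((1 : ℝ) / 2) *
      (K ^ ((1 : ℝ) / 2) * ((sm E).real S) ^ ((1 : ℝ) / 2)) *
      (K ^ ((3 : ℝ) / 10) * ((sm E).real T) ^ ((7 : ℝ) / 10)) := by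
  obtain ⟨m, rfl⟩ : ∃ m, n = m + 1 := ⟨n - 1, by omega⟩
  have hnP : Module.finrank ℝ (Pe v) = m := finrank_Pe hn v
  have h3P : 3 ≤ Module.finrank ℝ (Pe v) := by omega
  have h3 : 3 ≤ Module.finrank ℝ E := by omega
  have hprob : IsProbabilityMeasure (sm (Pe v)) := sm_prob (by omega)
  have hprobE : IsProbabilityMeasure (sm E) := sm_prob (by omega)
  have homb := om_basic (n := m + 1) (by omega)
  have hom0 : ∀ s, 0 ≤ om (m + 1) s := homb.2.2.1
  have homi : Integrable (om (m + 1)) := homb.2.2.2.2.2.2.1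
  rw [pairfiber hn h6 v hρ (tail_D_ind_BM hT) (tail_D_ind_BM hS)]
  have hFSm' : Measurable (fun τ : ℝ => PP τ (ind S) v) :=
    tail_D_meas h3 v (tail_D_ind_BM hS).1
  have hFTm' : Measurable (fun τ : ℝ => PP τ (ind T) v) :=
    tail_D_meas h3 v (tail_D_ind_BM hT).1
  obtain ⟨FS, hFS, hFSm⟩ : ∃ FS : ℝ → ℝ, (∀ τ, FS τ = PP τ (ind S) v) ∧ Measurable FS :=
    ⟨fun τ => PP τ (ind S) v, fun _ => rfl, hFSm'⟩
  obtain ⟨FT, hFT, hFTm⟩ : ∃ FT : ℝ → ℝ, (∀ τ, FT τ = PP τ (ind T) v) ∧ Measurable FT :=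
    ⟨fun τ => PP τ (ind T) v, fun _ => rfl, hFTm'⟩
  have hFSe : ∀ τ, FS τ = (sm (Pe v)).real {w : SS (Pe v) | pt v τ w ∈ S} :=
    fun τ => (hFS τ).trans (tail_D_PP_slice v τ hS)
  have hFTe : ∀ τ, FT τ = (sm (Pe v)).real {w : SS (Pe v) | pt v τ w ∈ T} :=
    fun τ => (hFT τ).trans (tail_D_PP_slice v τ hT)
  have hFS0 : ∀ τ, 0 ≤ FS τ := fun τ => by rw [hFSe]; exact measureReal_nonneg
  have hFT0 : ∀ τ, 0 ≤ FT τ := fun τ => by rw [hFTe]; exact measureReal_nonneg
  have hFS1 : ∀ τ, FS τ ≤ 1 := fun τ => by rw [hFSe]; exact measureReal_le_one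
  have hFT1 : ∀ τ, FT τ ≤ 1 := fun τ => by rw [hFTe]; exact measureReal_le_one
  -- pointwise bounds
  have hpt : ∀ τ τ' : ℝ, 0 ≤ om (m + 1) τ * (om (m + 1) τ' * (kk (m + 1) ρ τ τ' *
      ∫ w, ind S (pt v τ w) * PP (rr ρ τ τ') (fun w' => ind T (pt v τ' w')) w ∂(sm (Pe v)))) ∧
      om (m + 1) τ * (om (m + 1) τ' * (kk (m + 1) ρ τ τ' *
      ∫ w, ind S (pt v τ w) * PP (rr ρ τ τ') (fun w' => ind T (pt v τ' w')) w ∂(sm (Pe v))))
      ≤ C2 * C3 ^ ((1 : ℝ) / 2) * (om (m + 1) τ * FS τ ^ ((1 : ℝ) / 2)) *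
        (om (m + 1) τ' * FT τ' ^ ((7 : ℝ) / 10)) := by
    intro τ τ'
    have hR0 : 0 ≤ C2 * C3 ^ ((1 : ℝ) / 2) * (om (m + 1) τ * FS τ ^ ((1 : ℝ) / 2)) *
        (om (m + 1) τ' * FT τ' ^ ((7 : ℝ) / 10)) := by
      have h1 := Real.rpow_nonneg (hFS0 τ) ((1 : ℝ) / 2)
      have h2 := Real.rpow_nonneg (hFT0 τ') ((7 : ℝ) / 10)
      have h3 := Real.rpow_nonneg hC3 ((1 : ℝ) / 2)
      have h4 := hom0 τ
      have h5 := hom0 τ'
      positivity
    by_cases hτ : |τ - c| ≤ δ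
    · by_cases hτ' : |τ' - c| ≤ δ
      · obtain ⟨hk0, hk2⟩ := hker τ τ' hτ hτ'
        have hBT := tail_D_slice v τ' hT
        have hBS := tail_D_slice v τ hS
        have hbm : BM ({w : SS (Pe v) | pt v τ' w ∈ T}.indicator (fun _ => (1 : ℝ))) :=
          tail_D_ind_BM hBT
        have hP := PP_basic h3P (rr ρ τ τ') hbm hbm
        have hg0 : ∀ w, 0 ≤ PP (rr ρ τ τ')
            ({w : SS (Pe v) | pt v τ' w ∈ T}.indicator (fun _ => (1 : ℝ))) w := fun w =>
          hP.2.2.2.2.1 0 w (fun y => Set.indicator_nonneg (fun _ _ => zero_le_one) y)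
        have hg1 : ∀ w, PP (rr ρ τ τ')
            ({w : SS (Pe v) | pt v τ' w ∈ T}.indicator (fun _ => (1 : ℝ))) w ≤ 1 := fun w =>
          hP.2.2.2.1 1 w (fun y => Set.indicator_le_self' (fun _ _ => zero_le_one) y)
        have hcs := tail_D_cs (μ := sm (Pe v)) hBS hP.1.1 hg0 hg1 (hsse τ τ' hτ hτ' _ hBT)
        have heq : (fun w : SS (Pe v) => ind S (pt v τ w) *
            PP (rr ρ τ τ') (fun w' => ind T (pt v τ' w')) w)
            = fun w => {w : SS (Pe v) | pt v τ w ∈ S}.indicator (fun _ => (1 : ℝ)) w *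
              PP (rr ρ τ τ') ({w : SS (Pe v) | pt v τ' w ∈ T}.indicator (fun _ => (1 : ℝ))) w := by
          funext w
          rfl
        rw [heq]
        have hI0 : 0 ≤ ∫ w, {w : SS (Pe v) | pt v τ w ∈ S}.indicator (fun _ => (1 : ℝ)) w *
              PP (rr ρ τ τ') ({w : SS (Pe v) | pt v τ' w ∈ T}.indicator (fun _ => (1 : ℝ))) w
              ∂(sm (Pe v)) :=
          integral_nonneg fun w => mul_nonneg
            (Set.indicator_nonneg (fun _ _ => zero_le_one) w) (hg0 w)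
        refine ⟨mul_nonneg (hom0 _) (mul_nonneg (hom0 _) (mul_nonneg hk0 hI0)), ?_⟩
        rw [← hFSe, ← hFTe] at hcs
        have e1 : (C3 * FT τ' ^ ((7 : ℝ) / 5)) ^ ((1 : ℝ) / 2)
            = C3 ^ ((1 : ℝ) / 2) * FT τ' ^ ((7 : ℝ) / 10) := by
          rw [Real.mul_rpow hC3 (Real.rpow_nonneg (hFT0 _) _), ← Real.rpow_mul (hFT0 _)]
          norm_num
        rw [e1] at hcs
        have h7 : kk (m + 1) ρ τ τ' * ∫ w, {w : SS (Pe v) | pt v τ w ∈ S}.indicator
              (fun _ => (1 : ℝ)) w *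
              PP (rr ρ τ τ') ({w : SS (Pe v) | pt v τ' w ∈ T}.indicator (fun _ => (1 : ℝ))) w
              ∂(sm (Pe v)) ≤ C2 * (FS τ ^ ((1 : ℝ) / 2) *
                (C3 ^ ((1 : ℝ) / 2) * FT τ' ^ ((7 : ℝ) / 10))) :=
          mul_le_mul hk2 hcs hI0 hC2
        calc _ ≤ om (m + 1) τ * (om (m + 1) τ' * (C2 * (FS τ ^ ((1 : ℝ) / 2) *
                (C3 ^ ((1 : ℝ) / 2) * FT τ' ^ ((7 : ℝ) / 10))))) :=
              mul_le_mul_of_nonneg_left (mul_le_mul_of_nonneg_left h7 (hom0 _)) (hom0 _)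
          _ = _ := by ring
      · have h0 : om (m + 1) τ * (om (m + 1) τ' * (kk (m + 1) ρ τ τ' *
            ∫ w, ind S (pt v τ w) * PP (rr ρ τ τ') (fun w' => ind T (pt v τ' w')) w
              ∂(sm (Pe v)))) = 0 := by
          rcases tail_D_zero (n := m + 1) (by omega) v hTW hτ' with h | h
          · rw [h]; ring
          · have : (fun w : SS (Pe v) => ind S (pt v τ w) *
                PP (rr ρ τ τ') (fun w' => ind T (pt v τ' w')) w) = fun _ => 0 := by
              funext w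
              have h8 : (fun w' : SS (Pe v) => ind T (pt v τ' w')) = fun _ => (0 : ℝ) := funext h
              rw [h8]
              unfold PP
              simp
            rw [this, integral_zero]
            ring
        rw [h0]
        exact ⟨le_rfl, hR0⟩
    · have h0 : om (m + 1) τ * (om (m + 1) τ' * (kk (m + 1) ρ τ τ' *
            ∫ w, ind S (pt v τ w) * PP (rr ρ τ τ') (fun w' => ind T (pt v τ' w')) w
              ∂(sm (Pe v)))) = 0 := by
        rcases tail_D_zero (n := m + 1) (by omega) v hSW hτ with h | h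
        · rw [h]; ring
        · have : (fun w : SS (Pe v) => ind S (pt v τ w) *
              PP (rr ρ τ τ') (fun w' => ind T (pt v τ' w')) w) = fun _ => 0 := by
            funext w
            rw [h w, zero_mul]
          rw [this, integral_zero]
          ring
      rw [h0]
      exact ⟨le_rfl, hR0⟩
  have hAi : Integrable (fun s => om (m + 1) s * FS s ^ ((1 : ℝ) / 2)) :=
    homi.mul_bdd (c := 1) (hFSm.pow_const _).aestronglyMeasurable (ae_of_all _ fun s => by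
      rw [Real.norm_eq_abs, abs_of_nonneg (Real.rpow_nonneg (hFS0 s) _)]
      exact Real.rpow_le_one (hFS0 s) (hFS1 s) (by norm_num))
  have hBi : Integrable (fun s => om (m + 1) s * FT s ^ ((7 : ℝ) / 10)) :=
    homi.mul_bdd (c := 1) (hFTm.pow_const _).aestronglyMeasurable (ae_of_all _ fun s => by
      rw [Real.norm_eq_abs, abs_of_nonneg (Real.rpow_nonneg (hFT0 s) _)]
      exact Real.rpow_le_one (hFT0 s) (hFT1 s) (by norm_num))
  have hWm : MeasurableSet {s : ℝ | |s - c| ≤ δ} :=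
    (isClosed_le (by fun_prop) continuous_const).measurableSet
  have hzS : ∀ s, s ∉ {s : ℝ | |s - c| ≤ δ} → om (m + 1) s * FS s = 0 := by
    intro s hs
    rcases tail_D_zero (n := m + 1) (by omega) v hSW hs with h | h
    · rw [h, zero_mul]
    · have : FS s = 0 := by
        rw [hFS]
        unfold PP
        simp only [h, integral_zero]
      rw [this, mul_zero]
  have hzT : ∀ s, s ∉ {s : ℝ | |s - c| ≤ δ} → om (m + 1) s * FT s = 0 := by
    intro s hs
    rcases tail_D_zero (n := m + 1) (by omega) v hTW hs with h | h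
    · rw [h, zero_mul]
    · have : FT s = 0 := by
        rw [hFT]
        unfold PP
        simp only [h, integral_zero]
      rw [this, mul_zero]
  have hS1 := tail_D_holder hom0 homi hFSm hFS0 hFS1 hWm hzS hK0 hK (p := 1 / 2)
    (by norm_num) (by norm_num)
  have hT1 := tail_D_holder hom0 homi hFTm hFT0 hFT1 hWm hzT hK0 hK (p := 7 / 10)
    (by norm_num) (by norm_num)
  have e1 : ∫ s, om (m + 1) s * FS s = (sm E).real S := by
    simp only [hFS]
    rw [← fiber hn (by omega) v (tail_D_ind_BM hS)]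
    exact integral_indicator_one hS
  have e2 : ∫ s, om (m + 1) s * FT s = (sm E).real T := by
    simp only [hFT]
    rw [← fiber hn (by omega) v (tail_D_ind_BM hT)]
    exact integral_indicator_one hT
  rw [e1] at hS1
  rw [e2] at hT1
  have e3 : (1 : ℝ) - 1 / 2 = 1 / 2 := by norm_num
  have e4 : (1 : ℝ) - 7 / 10 = 3 / 10 := by norm_num
  rw [e3] at hS1
  rw [e4] at hT1
  have hκ : 0 ≤ C2 * C3 ^ ((1 : ℝ) / 2) := mul_nonneg hC2 (Real.rpow_nonneg hC3 _)
  have hA0 : ∀ s, 0 ≤ om (m + 1) s * FS s ^ ((1 : ℝ) / 2) := fun s =>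
    mul_nonneg (hom0 s) (Real.rpow_nonneg (hFS0 s) _)
  have hB0 : ∀ s, 0 ≤ om (m + 1) s * FT s ^ ((7 : ℝ) / 10) := fun s =>
    mul_nonneg (hom0 s) (Real.rpow_nonneg (hFT0 s) _)
  have hinner : ∀ τ : ℝ, ∫ τ', om (m + 1) τ * (om (m + 1) τ' * (kk (m + 1) ρ τ τ' *
      ∫ w, ind S (pt v τ w) * PP (rr ρ τ τ') (fun w' => ind T (pt v τ' w')) w ∂(sm (Pe v))))
      ≤ C2 * C3 ^ ((1 : ℝ) / 2) * (om (m + 1) τ * FS τ ^ ((1 : ℝ) / 2)) *
        ∫ τ', om (m + 1) τ' * FT τ' ^ ((7 : ℝ) / 10) := by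
    intro τ
    rw [← integral_const_mul]
    exact integral_mono_of_nonneg (ae_of_all _ fun τ' => (hpt τ τ').1) (hBi.const_mul _)
      (ae_of_all _ fun τ' => (hpt τ τ').2)
  calc _ ≤ ∫ τ, C2 * C3 ^ ((1 : ℝ) / 2) * (om (m + 1) τ * FS τ ^ ((1 : ℝ) / 2)) *
        ∫ τ', om (m + 1) τ' * FT τ' ^ ((7 : ℝ) / 10) :=
        integral_mono_of_nonneg (ae_of_all _ fun τ => integral_nonneg fun τ' => (hpt τ τ').1)
          ((hAi.const_mul _).mul_const _) (ae_of_all _ hinner)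
    _ = C2 * C3 ^ ((1 : ℝ) / 2) * (∫ τ, om (m + 1) τ * FS τ ^ ((1 : ℝ) / 2)) *
        ∫ τ', om (m + 1) τ' * FT τ' ^ ((7 : ℝ) / 10) := by
        rw [integral_mul_const, integral_const_mul]
    _ ≤ _ := by
        apply mul_le_mul
        · exact mul_le_mul_of_nonneg_left hS1 hκ
        · exact hT1
        · exact integral_nonneg hB0
        · exact mul_nonneg hκ (mul_nonneg (Real.rpow_nonneg hK0.le _)
            (Real.rpow_nonneg measureReal_nonneg _))

theorem tail_D_num {r σ m D C : ℝ} (hr : 0 < r) (hσ : 0 ≤ σ) (hm : 0 ≤ m) 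
    (h : r * σ ≤ D * r ^ ((4 : ℝ) / 5) * σ ^ ((1 : ℝ) / 2) * m ^ ((7 : ℝ) / 10)) (hC : D ^ 2 ≤ C) :
    σ ≤ C * r ^ (-(2 : ℝ) / 5) * m ^ ((7 : ℝ) / 5) := by
  have hC0 : 0 ≤ C := (sq_nonneg D).trans hC
  rcases hσ.eq_or_lt with h0 | h0
  · rw [← h0]
    exact mul_nonneg (mul_nonneg hC0 (Real.rpow_nonneg hr.le _)) (Real.rpow_nonneg hm _)
  · set q := σ ^ ((1 : ℝ) / 2) with hq
    have hq0 : 0 < q := Real.rpow_pos_of_pos h0 _
    have hqq : q * q = σ := by
      rw [hq, ← Real.rpow_add h0]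
      norm_num
    have h1 : r * q ≤ D * r ^ ((4 : ℝ) / 5) * m ^ ((7 : ℝ) / 10) := by
      have h2 : (r * q) * q ≤ (D * r ^ ((4 : ℝ) / 5) * m ^ ((7 : ℝ) / 10)) * q := by
        calc (r * q) * q = r * σ := by rw [mul_assoc, hqq]
          _ ≤ _ := h
          _ = _ := by ring
      exact le_of_mul_le_mul_right h2 hq0
    have h3 : q ≤ D * r ^ (-(1 : ℝ) / 5) * m ^ ((7 : ℝ) / 10) := by
      have e : r ^ ((4 : ℝ) / 5) = r * r ^ (-(1 : ℝ) / 5) := by
        nth_rewrite 2 [← Real.rpow_one r]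
        rw [← Real.rpow_add hr]
        norm_num
      rw [e] at h1
      have h4 : r * q ≤ r * (D * r ^ (-(1 : ℝ) / 5) * m ^ ((7 : ℝ) / 10)) := by
        calc r * q ≤ _ := h1
          _ = _ := by ring
      exact le_of_mul_le_mul_left h4 hr
    have h5 : σ ≤ (D * r ^ (-(1 : ℝ) / 5) * m ^ ((7 : ℝ) / 10)) *
        (D * r ^ (-(1 : ℝ) / 5) * m ^ ((7 : ℝ) / 10)) := by
      rw [← hqq]
      exact mul_le_mul h3 h3 hq0.le (hq0.le.trans h3)
    have e1 : r ^ (-(1 : ℝ) / 5) * r ^ (-(1 : ℝ) / 5) = r ^ (-(2 : ℝ) / 5) := by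
      rw [← Real.rpow_add hr]; norm_num
    have e2 : m ^ ((7 : ℝ) / 10) * m ^ ((7 : ℝ) / 10) = m ^ ((7 : ℝ) / 5) := by
      rw [← Real.rpow_add_of_nonneg hm (by norm_num) (by norm_num)]; norm_num
    calc σ ≤ _ := h5
      _ = D ^ 2 * (r ^ (-(1 : ℝ) / 5) * r ^ (-(1 : ℝ) / 5)) *
          (m ^ ((7 : ℝ) / 10) * m ^ ((7 : ℝ) / 10)) := by ring
      _ = D ^ 2 * r ^ (-(2 : ℝ) / 5) * m ^ ((7 : ℝ) / 5) := by rw [e1, e2]
      _ ≤ _ := by
        have := Real.rpow_nonneg hr.le (-(2 : ℝ) / 5)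
        have := Real.rpow_nonneg hm ((7 : ℝ) / 5)
        gcongr

theorem tail_D_pw {n : ℕ} (hn : Module.finrank ℝ E = n) (h5 : 5 ≤ n) (v x : SS E)
    {ρ c : ℝ} (hρ : |ρ| < 1) (hx : |⟪(v : E), (x : E)⟫| < 1) {A' : Set (SS E)}
    (hA' : MeasurableSet A') (hst : PP ρ (ind A') x ≤ Gc n ρ c c) :
    Gc n ρ c ⟪(v : E), (x : E)⟫ - Gc n ρ c c ≤ PP ρ (ind (Cp v c \ A')) x := by
  have hCm : MeasurableSet (Cp v c) := by
    have : IsClosed (Cp v c) :=
      isClosed_le continuous_const (continuous_const.inner continuous_subtype_val)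
    exact this.measurableSet
  have hTm : MeasurableSet (Cp v c \ A') := MeasurableSet.diff hCm hA'
  have h3 : 3 ≤ Module.finrank ℝ E := by omega
  have hb1 := tail_D_ind_BM hA'
  have hb2 := tail_D_ind_BM hTm
  have hb3 := tail_D_ind_BM hCm
  have hb4 : BM (fun y => 1 * ind A' y + 1 * ind (Cp v c \ A') y) := by
    refine ⟨(hb1.1.const_mul 1).add (hb2.1.const_mul 1), 2, fun y => ?_⟩
    have a1 := tail_D_ind_nonneg A' y
    have a2 := tail_D_ind_le A' y
    have a3 := tail_D_ind_nonneg (Cp v c \ A') y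
    have a4 := tail_D_ind_le (Cp v c \ A') y
    rw [abs_of_nonneg (by linarith)]
    linarith
  have hlin := (PP_basic h3 ρ hb1 hb2).2.2.1 1 1 x
  have hmono := (PP_basic h3 ρ hb3 hb4).2.2.2.2.2.1 (fun y => by
    unfold ind
    by_cases h1 : y ∈ Cp v c
    · by_cases h2 : y ∈ A'
      · rw [Set.indicator_of_mem h1, Set.indicator_of_mem h2]
        have := tail_D_ind_nonneg (Cp v c \ A') y
        unfold ind at this
        linarith
      · rw [Set.indicator_of_mem h1, Set.indicator_of_notMem h2,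
          Set.indicator_of_mem (show y ∈ Cp v c \ A' from ⟨h1, h2⟩)]
        norm_num
    · rw [Set.indicator_of_notMem h1]
      have a1 := tail_D_ind_nonneg A' y
      have a3 := tail_D_ind_nonneg (Cp v c \ A') y
      unfold ind at a1 a3
      linarith) x
  rw [hlin, cap_slice hn h5 v x hρ hx] at hmono
  linarith

theorem tail_D_win {n : ℕ} (h4 : 4 ≤ n) {c δ : ℝ} (hδ : 0 ≤ δ) :
    ∫ s in {s : ℝ | |s - c| ≤ δ}, om n s ≤ Real.sqrt n * (2 * δ) := by
  have hb := om_basic h4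
  have hset : {s : ℝ | |s - c| ≤ δ} = Icc (c - δ) (c + δ) := by
    ext s
    simp only [Set.mem_ofPred_eq, mem_Icc, abs_le]
    constructor
    · rintro ⟨h1, h2⟩; exact ⟨by linarith, by linarith⟩
    · rintro ⟨h1, h2⟩; exact ⟨by linarith, by linarith⟩
  rw [hset]
  have h1 : ‖∫ s in Icc (c - δ) (c + δ), om n s‖ ≤ Real.sqrt n * volume.real (Icc (c - δ) (c + δ)) := by
    apply norm_setIntegral_le_of_norm_le_const
    · rw [Real.volume_Icc]; exact ENNReal.ofReal_lt_top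
    · intro s _
      rw [Real.norm_eq_abs, abs_of_nonneg (hb.2.2.1 s)]
      exact (hb.2.2.2.2.2.2.2.2.2 s).trans (cn_bounds h4).2
  have h2 : volume.real (Icc (c - δ) (c + δ)) = 2 * δ := by
    rw [Real.volume_real_Icc_of_le (by linarith)]; ring
  rw [h2] at h1
  exact (le_abs_self _).trans h1

theorem tail_D (t : ℕ) (ht : 3 ≤ t) {Hm : ℝ} (hH : 0 ≤ Hm) :
    ∃ C : ℝ, 1 ≤ C ∧ ∃ n0 : ℕ, 6 ≤ n0 ∧ ∀ (E : Type) [NormedAddCommGroup E]
    [InnerProductSpace ℝ E] [CompleteSpace E] [FiniteDimensional ℝ E] [MeasurableSpace E]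
    [BorelSpace E], ∀ n : ℕ, Module.finrank ℝ E = n → n0 ≤ n → ∀ (v : SS E) (c : ℝ), 0 ≤ c →
    Real.sqrt n * c ≤ Hm → ∀ A : Set (SS E), MeasurableSet A →
    (∀ a b : ℝ, 0 ≤ a → (t - 1) * a < b →
      Star (rhoc t c) (Gc n (rhoc t c) c c) (clp v c a b A)) →
    ∀ r : ℝ, 0 < r → r ≤ 1 →
    (sm E).real {x | x ∈ A ∧ c - 2 * r / Real.sqrt n ≤ ⟪(v : E), (x : E)⟫ ∧
      ⟪(v : E), (x : E)⟫ < c - r / Real.sqrt n}
      ≤ C * r ^ (-(2 : ℝ) / 5) * ((sm E).real (Cp v c \ A)) ^ ((7 : ℝ) / 5) := by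
  have ht1 : (0 : ℝ) < 2 * ((t : ℝ) - 1) := by
    have : (3 : ℝ) ≤ t := by exact_mod_cast ht
    linarith
  have ht3 : (3 : ℝ) ≤ t := by exact_mod_cast ht
  obtain ⟨C2, hC2, n2, hn2, hker⟩ := ker_est t ht hH
  obtain ⟨C1, hC1, n1, hn1, hgc⟩ := gc_est1 t ht hH
  obtain ⟨C3, hC3, n3, hn3, hsse⟩ := sse_set (r1 := 1 / (2 * ((t : ℝ) - 1)))
    (one_div_pos.2 ht1)
  set D : ℝ := C1 * (C2 * C3 ^ ((1 : ℝ) / 2)) * (4 * t) ^ ((4 : ℝ) / 5) with hD
  refine ⟨max 1 (D ^ 2), le_max_left _ _, max n2 (max n1 (n3 + 1)),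
    hn2.trans (le_max_left _ _), ?_⟩
  intro E _ _ _ _ _ _ n hnE hn0 v c hc hcH A hA hStar r hr hr1
  have hn2' : n2 ≤ n := (le_max_left _ _).trans hn0
  have hn1' : n1 ≤ n := (le_max_left _ _).trans ((le_max_right _ _).trans hn0)
  have hn3' : n3 + 1 ≤ n := (le_max_right _ _).trans ((le_max_right _ _).trans hn0)
  have h6 : 6 ≤ n := hn2.trans hn2'
  have hs0 : 0 < Real.sqrt n := Real.sqrt_pos.2 (by exact_mod_cast (by omega : 0 < n))
  set s := Real.sqrt n with hs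
  have hrs : 0 < r / s := div_pos hr hs0
  have h2r : 2 * r / s = 2 * (r / s) := by ring
  have h2tr : 2 * t * r / s = 2 * t * (r / s) := by ring
  have ha0 : 0 ≤ 2 * r / s := by rw [h2r]; linarith
  have hab : ((t : ℝ) - 1) * (2 * r / s) < (((t : ℝ) - 1) * (2 * r) + r) / s := by
    have : (((t : ℝ) - 1) * (2 * r) + r) / s = ((t : ℝ) - 1) * (2 * r / s) + r / s := by ring
    rw [this]; linarith
  have hst := hStar (2 * r / s) ((((t : ℝ) - 1) * (2 * r) + r) / s) ha0 hab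
  set b : ℝ := (((t : ℝ) - 1) * (2 * r) + r) / s with hb
  have hbδ : b ≤ 2 * t * r / s := by
    have : b = (2 * (t : ℝ) - 1) * (r / s) := by rw [hb]; ring
    rw [this, h2tr]
    nlinarith
  -- measurability
  have hcont : Continuous (fun x : SS E => ⟪(v : E), (x : E)⟫) :=
    continuous_const.inner continuous_subtype_val
  have hCm : MeasurableSet (Cp v c) := (isClosed_le continuous_const hcont).measurableSet
  have hclm : MeasurableSet (clp v c (2 * r / s) b A) := by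
    unfold clp
    exact (hA.inter (isClosed_le continuous_const hcont).measurableSet).union
      (isClosed_le continuous_const hcont).measurableSet
  set S : Set (SS E) := {x | x ∈ A ∧ c - 2 * r / s ≤ ⟪(v : E), (x : E)⟫ ∧
      ⟪(v : E), (x : E)⟫ < c - r / s} with hSdef
  have hSm : MeasurableSet S :=
    hA.inter ((isClosed_le continuous_const hcont).measurableSet.inter
      (isOpen_lt hcont continuous_const).measurableSet)
  set T : Set (SS E) := Cp v c \ clp v c (2 * r / s) b A with hTdef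
  have hTm : MeasurableSet T := MeasurableSet.diff hCm hclm
  have hTA : T ⊆ Cp v c \ A := by
    rintro x ⟨hx1, hx2⟩
    refine ⟨hx1, fun hxA => hx2 (Or.inl ⟨hxA, ?_⟩)⟩
    have : c ≤ ⟪(v : E), (x : E)⟫ := hx1
    show c - 2 * r / s ≤ ⟪(v : E), (x : E)⟫
    linarith
  have hSW : ∀ x ∈ S, |⟪(v : E), (x : E)⟫ - c| ≤ 2 * t * r / s := by
    rintro x ⟨-, hx1, hx2⟩
    rw [abs_le]
    rw [h2tr]
    rw [h2r] at hx1
    constructor
    · nlinarith
    · nlinarith
  have hTW : ∀ x ∈ T, |⟪(v : E), (x : E)⟫ - c| ≤ 2 * t * r / s := by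
    rintro x ⟨hx1, hx2⟩
    have h1 : c ≤ ⟪(v : E), (x : E)⟫ := hx1
    have h2 : ⟪(v : E), (x : E)⟫ < c + b := by
      by_contra hcon
      exact hx2 (Or.inr (not_lt.1 hcon))
    rw [abs_le]
    constructor
    · rw [h2tr]
      have : 0 ≤ 2 * (t : ℝ) * (r / s) := by positivity
      linarith
    · linarith
  have ha4 : 0 ≤ 2 * (t : ℝ) * r := by positivity
  have ha4' : 2 * (t : ℝ) * r ≤ 4 * t := by nlinarith
  have hkerτ := hker n hn2' c hc hcH (2 * t * r) ha4 ha4'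
  have hc0 : |c - c| ≤ 2 * t * r / s := by
    rw [sub_self, abs_zero, h2tr]; positivity
  have hρ1 : |rhoc t c| < 1 := by
    have := (hkerτ c c hc0 hc0).2.2.2.2.2.2.2.2.1
    linarith
  have hC2' : 0 < C2 := by linarith
  have hC1' : 0 < C1 := by linarith
  have h5 : 5 ≤ n := by omega
  -- pointwise lower bound
  have hpw : ∀ x ∈ S, r / C1 ≤ PP (rhoc t c) (ind T) x := by
    intro x hx
    have hτ := hSW x hx
    have h12 : |⟪(v : E), (x : E)⟫| ≤ 1 / 2 := (hkerτ _ _ hτ hτ).2.2.2.2.2.2.2.1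
    have hlt : |⟪(v : E), (x : E)⟫| < 1 := by linarith
    obtain ⟨hxA, hx1, hx2⟩ := hx
    have hmem : x ∈ clp v c (2 * r / s) b A := Or.inl ⟨hxA, hx1⟩
    have h1 := tail_D_pw hnE h5 v x hρ1 hlt hclm (hst x hmem)
    have hτc : ⟪(v : E), (x : E)⟫ ≤ c := by linarith
    have h2 := hgc n hn1' c hc hcH _ (abs_lt.1 hlt).1 hτc
    have h3 : r ≤ min (s * (c - ⟪(v : E), (x : E)⟫)) 1 := by
      refine le_min ?_ hr1
      have h4 : r / s ≤ c - ⟪(v : E), (x : E)⟫ := by linarith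
      calc r = s * (r / s) := by field_simp
        _ ≤ _ := mul_le_mul_of_nonneg_left h4 hs0.le
    calc r / C1 ≤ min (s * (c - ⟪(v : E), (x : E)⟫)) 1 / C1 :=
          div_le_div_of_nonneg_right h3 hC1'.le
      _ ≤ _ := h2
      _ ≤ _ := h1
  -- integrate
  have hprobE : IsProbabilityMeasure (sm E) := sm_prob (by omega)
  have h3E : 3 ≤ Module.finrank ℝ E := by omega
  have hPT := PP_basic h3E (rhoc t c) (tail_D_ind_BM hTm) (tail_D_ind_BM hTm)
  have hint : r / C1 * (sm E).real S ≤ ∫ x, ind S x * PP (rhoc t c) (ind T) x ∂(sm E) := by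
    have e1 : r / C1 * (sm E).real S = ∫ x, r / C1 * ind S x ∂(sm E) := by
      rw [integral_const_mul]
      congr 1
      exact (integral_indicator_one hSm).symm
    rw [e1]
    obtain ⟨hm1, K1, hK1⟩ := hPT.1
    have hSi : Integrable (ind S) (sm E) :=
      Integrable.of_bound (tail_D_ind_BM hSm).1.aestronglyMeasurable 1
        (ae_of_all _ fun x => by
          rw [Real.norm_eq_abs, abs_of_nonneg (tail_D_ind_nonneg S x)]
          exact tail_D_ind_le S x)
    refine integral_mono (hSi.const_mul _)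
      (hSi.mul_bdd (c := K1) hm1.aestronglyMeasurable (ae_of_all _ fun x => hK1 x)) ?_
    intro x
    show r / C1 * ind S x ≤ ind S x * PP (rhoc t c) (ind T) x
    by_cases hx : x ∈ S
    · have e2 : ind S x = 1 := Set.indicator_of_mem hx _
      rw [e2, mul_one, one_mul]
      exact hpw x hx
    · have e2 : ind S x = 0 := Set.indicator_of_notMem hx _
      rw [e2, mul_zero, zero_mul]
  have hK0 : 0 < 4 * (t : ℝ) * r := by positivity
  have hK : ∫ u in {u : ℝ | |u - c| ≤ 2 * t * r / s}, om n u ≤ 4 * t * r := by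
    refine (tail_D_win (n := n) (by omega) (c := c) (δ := 2 * t * r / s)
      (by positivity)).trans (le_of_eq ?_)
    rw [← hs]
    field_simp
    ring
  have hpair := tail_D_pair hnE h6 v (C2 := C2) (C3 := C3) hρ1 hSm hTm hSW hTW
    (fun τ τ' h1 h2 => by
      have := hkerτ τ τ' h1 h2
      exact ⟨(by positivity : (0 : ℝ) ≤ 1 / C2).trans this.1, this.2.1⟩)
    (fun τ τ' h1 h2 B hB => by
      have h7 := hkerτ τ τ' h1 h2
      obtain ⟨m, rfl⟩ : ∃ m, n = m + 1 := ⟨n - 1, by omega⟩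
      have hnP : Module.finrank ℝ (Pe v) = m := finrank_Pe hnE v
      exact hsse (Pe v) (by rw [hnP]; omega) _ h7.2.2.2.2.2.1 h7.2.2.2.2.1 B hB)
    hC2'.le hC3.le hK0 hK
  have hσ0 : 0 ≤ (sm E).real S := measureReal_nonneg
  have hm' : (sm E).real T ≤ (sm E).real (Cp v c \ A) := measureReal_mono hTA
  have hT0 : 0 ≤ (sm E).real T := measureReal_nonneg
  refine tail_D_num (D := D) hr hσ0 measureReal_nonneg ?_ (le_max_right _ _)
  have h8 : r * (sm E).real S ≤ C1 * (C2 * C3 ^ ((1 : ℝ) / 2) *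
      ((4 * t * r) ^ ((1 : ℝ) / 2) * ((sm E).real S) ^ ((1 : ℝ) / 2)) *
      ((4 * t * r) ^ ((3 : ℝ) / 10) * ((sm E).real (Cp v c \ A)) ^ ((7 : ℝ) / 10))) := by
    have h9 := hint.trans hpair
    have h10 : r * (sm E).real S = C1 * (r / C1 * (sm E).real S) := by field_simp
    rw [h10]
    refine mul_le_mul_of_nonneg_left (h9.trans ?_) hC1'.le
    have h11 : ((sm E).real T) ^ ((7 : ℝ) / 10) ≤ ((sm E).real (Cp v c \ A)) ^ ((7 : ℝ) / 10) :=
      Real.rpow_le_rpow hT0 hm' (by norm_num)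
    have h12 : 0 ≤ C2 * C3 ^ ((1 : ℝ) / 2) *
      ((4 * t * r) ^ ((1 : ℝ) / 2) * ((sm E).real S) ^ ((1 : ℝ) / 2)) := by
      have := Real.rpow_nonneg hC3.le ((1 : ℝ) / 2)
      have := Real.rpow_nonneg hK0.le ((1 : ℝ) / 2)
      have := Real.rpow_nonneg hσ0 ((1 : ℝ) / 2)
      positivity
    exact mul_le_mul_of_nonneg_left (mul_le_mul_of_nonneg_left h11
      (Real.rpow_nonneg hK0.le _)) h12
  refine h8.trans (le_of_eq ?_)
  have e5 : (4 * (t : ℝ) * r) ^ ((1 : ℝ) / 2) * (4 * (t : ℝ) * r) ^ ((3 : ℝ) / 10)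
      = (4 * t) ^ ((4 : ℝ) / 5) * r ^ ((4 : ℝ) / 5) := by
    rw [← Real.rpow_add hK0, ← Real.mul_rpow (by positivity) hr.le]
    norm_num
  calc _ = C1 * (C2 * C3 ^ ((1 : ℝ) / 2)) * ((4 * (t : ℝ) * r) ^ ((1 : ℝ) / 2) *
        (4 * (t : ℝ) * r) ^ ((3 : ℝ) / 10)) * ((sm E).real S) ^ ((1 : ℝ) / 2) *
        ((sm E).real (Cp v c \ A)) ^ ((7 : ℝ) / 10) := by ring
    _ = _ := by rw [e5, hD]; ring

-- tail_G
section tail_G_aux
variable {E : Type*} [NormedAddCommGroup E] [InnerProductSpace ℝ E] [CompleteSpace E]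
  [FiniteDimensional ℝ E] [MeasurableSpace E] [BorelSpace E]

theorem tail_G_bm {B : Set (SS E)} (hB : MeasurableSet B) : BM (ind B) := by
  refine ⟨measurable_const.indicator hB, 1, fun x => ?_⟩
  unfold ind
  by_cases h : x ∈ B
  · rw [Set.indicator_of_mem h]; norm_num
  · rw [Set.indicator_of_notMem h]; norm_num

theorem tail_G_hgt (v : SS E) : Measurable (fun x : SS E => ⟪(v : E), (x : E)⟫) :=
  (continuous_const.inner continuous_subtype_val).measurable

theorem tail_G_Cp (v : SS E) (c : ℝ) : MeasurableSet (Cp v c) :=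
  measurableSet_le measurable_const (tail_G_hgt v)

/-- the level `-1` is null -/
theorem tail_G_null {n : ℕ} (hn : Module.finrank ℝ E = n) (h4 : 4 ≤ n) (v : SS E) :
    ∀ᵐ (x : SS E) ∂(sm E), -1 < ⟪(v : E), (x : E)⟫ := by
  have hp : IsProbabilityMeasure (sm E) := sm_prob (by omega)
  have h1 := sm_height hn h4 v (ψ := ({-1} : Set ℝ).indicator (fun _ => (1 : ℝ)))
    (measurable_const.indicator (measurableSet_singleton _)) ⟨1, fun s => by
      by_cases h : s ∈ ({-1} : Set ℝ)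
      · rw [Set.indicator_of_mem h]; norm_num
      · rw [Set.indicator_of_notMem h]; norm_num⟩
  have h2 : ∫ s, om n s * ({-1} : Set ℝ).indicator (fun _ => (1 : ℝ)) s = 0 := by
    rw [show (0 : ℝ) = ∫ s : ℝ, (0 : ℝ) by simp]
    refine integral_congr_ae ?_
    have : ∀ᵐ s : ℝ, s ≠ -1 := by
      rw [ae_iff]; simp
    filter_upwards [this] with s hs
    rw [Set.indicator_of_notMem (by simpa using hs), mul_zero]
  rw [h2] at h1
  have hmS : MeasurableSet {x : SS E | ⟪(v : E), (x : E)⟫ = -1} :=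
    measurableSet_eq_fun (tail_G_hgt v) measurable_const
  have h3 : (fun x : SS E => ({-1} : Set ℝ).indicator (fun _ => (1 : ℝ)) ⟪(v : E), (x : E)⟫)
      = {x : SS E | ⟪(v : E), (x : E)⟫ = -1}.indicator (fun _ => (1 : ℝ)) := by
    funext x
    simp [Set.indicator]
  rw [h3, integral_indicator_const _ hmS, smul_eq_mul, mul_one] at h1
  have h4' : (sm E) {x : SS E | ⟪(v : E), (x : E)⟫ = -1} = 0 := by
    rwa [measureReal_eq_zero_iff] at h1
  have h5 : ∀ᵐ (x : SS E) ∂(sm E), ¬ (⟪(v : E), (x : E)⟫ = -1) := by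
    rw [ae_iff]; simpa using h4'
  filter_upwards [h5] with x hx
  have h6 : |⟪(v : E), (x : E)⟫| ≤ 1 := by
    have := abs_real_inner_le_norm (v : E) (x : E)
    rwa [norm_eq_of_mem_sphere v, norm_eq_of_mem_sphere x, mul_one] at this
  exact lt_of_le_of_ne (neg_le_of_abs_le h6) (Ne.symm hx)

end tail_G_aux

theorem tail_G (t : ℕ) (ht : 3 ≤ t) {Hm : ℝ} (hH : 0 ≤ Hm) :
    ∃ C : ℝ, 1 ≤ C ∧ ∃ n0 : ℕ, 6 ≤ n0 ∧ ∀ (E : Type) [NormedAddCommGroup E]
    [InnerProductSpace ℝ E] [CompleteSpace E] [FiniteDimensional ℝ E] [MeasurableSpace E]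
    [BorelSpace E], ∀ n : ℕ, Module.finrank ℝ E = n → n0 ≤ n → ∀ (v : SS E) (c : ℝ), 0 ≤ c →
    Real.sqrt n * c ≤ Hm → ∀ A : Set (SS E), MeasurableSet A →
    Star (rhoc t c) (Gc n (rhoc t c) c c) A →
    (sm E).real {x | x ∈ A ∧ ⟪(v : E), (x : E)⟫ < c - 1 / Real.sqrt n}
      ≤ C * ((sm E).real (Cp v c \ A)) ^ ((7 : ℝ) / 5) := by
  have ht1 : (0 : ℝ) < (t : ℝ) - 1 := by
    have : (3 : ℝ) ≤ t := by exact_mod_cast ht
    linarith
  have hr1 : (0 : ℝ) < 1 / (2 * ((t : ℝ) - 1)) := by positivity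
  obtain ⟨C1, hC1, n1, hn1, H1⟩ := sse_set hr1
  obtain ⟨C2, hC2, n2, hn2, H2⟩ := ker_est t ht hH
  obtain ⟨C3, hC3, n3, hn3, H3⟩ := gc_est1 t ht hH
  refine ⟨max 1 (C3 ^ 2 * C1), le_max_left _ _, max n1 (max n2 n3), le_max_of_le_left hn1, ?_⟩
  intro E _ _ _ _ _ _ n hn hnn v c hc hcH A hA hst
  have hnn1 : n1 ≤ n := le_trans (le_max_left _ _) hnn
  have hnn2 : n2 ≤ n := le_trans (le_trans (le_max_left _ _) (le_max_right _ _)) hnn
  have hnn3 : n3 ≤ n := le_trans (le_trans (le_max_right _ _) (le_max_right _ _)) hnn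
  have h6 : 6 ≤ n := le_trans hn1 hnn1
  have hn0 : (0 : ℝ) < n := by
    have : 0 < n := by omega
    exact_mod_cast this
  have hsq : 0 < Real.sqrt n := Real.sqrt_pos.mpr hn0
  have hp : IsProbabilityMeasure (sm E) := sm_prob (by omega)
  obtain ⟨-, -, -, -, -, -, -, hc2, hρ1, hρ2⟩ := H2 n hnn2 c hc hcH 0 le_rfl (by positivity) c c
    (by simp) (by simp)
  set ρ := rhoc t c with hρ
  have hρlt : |ρ| < 1 := lt_of_le_of_lt hρ1 (by norm_num)
  set T : Set (SS E) := Cp v c \ A with hT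
  have hTm : MeasurableSet T := (tail_G_Cp v c).diff hA
  set S : Set (SS E) := {x | x ∈ A ∧ ⟪(v : E), (x : E)⟫ < c - 1 / Real.sqrt n} with hS
  have hSm : MeasurableSet S := hA.inter (measurableSet_lt (tail_G_hgt v) measurable_const)
  have hsse := H1 E (by omega) ρ hρ2 hρ1 T hTm
  have hbT : BM (ind T) := tail_G_bm hTm
  have hbA : BM (ind A) := tail_G_bm hA
  have hbC : BM (ind (Cp v c)) := tail_G_bm (tail_G_Cp v c)
  have hPT : BM (PP ρ (ind T)) := (PP_basic (by omega) ρ hbT hbT).1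
  -- pointwise inequality
  have hpt : ∀ x ∈ S, -1 < ⟪(v : E), (x : E)⟫ → 1 / C3 ≤ PP ρ (ind T) x := by
    intro x hx hx1
    have hxA : x ∈ A := hx.1
    have hxc : ⟪(v : E), (x : E)⟫ < c - 1 / Real.sqrt n := hx.2
    have hpos : 0 < 1 / Real.sqrt n := by positivity
    have hcc : c ≤ 1 / 2 := (abs_le.mp hc2).2
    have habs : |⟪(v : E), (x : E)⟫| < 1 := abs_lt.mpr ⟨hx1, by linarith⟩
    have e1 := H3 n hnn3 c hc hcH ⟪(v : E), (x : E)⟫ hx1 (by linarith)
    have e2 : min (Real.sqrt n * (c - ⟪(v : E), (x : E)⟫)) 1 = 1 := by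
      refine min_eq_right ?_
      have : 1 / Real.sqrt n ≤ c - ⟪(v : E), (x : E)⟫ := by linarith
      calc (1 : ℝ) = Real.sqrt n * (1 / Real.sqrt n) := by field_simp
        _ ≤ _ := mul_le_mul_of_nonneg_left this hsq.le
    rw [e2] at e1
    have e3 := cap_slice hn (by omega) v x (ρ := ρ) (c := c) hρlt habs
    have e4 := hst x hxA
    have e5 : PP ρ (ind (Cp v c)) x ≤ PP ρ (fun y => 1 * ind A y + 1 * ind T y) x := by
      have hsum : BM (fun y => 1 * ind A y + 1 * ind T y) := by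
        refine ⟨(hbA.1.const_mul 1).add (hbT.1.const_mul 1), ?_⟩
        obtain ⟨a, ha⟩ := hbA.2
        obtain ⟨b, hb⟩ := hbT.2
        refine ⟨a + b, fun y => ?_⟩
        calc |1 * ind A y + 1 * ind T y| = |ind A y + ind T y| := by rw [one_mul, one_mul]
          _ ≤ |ind A y| + |ind T y| := abs_add_le _ _
          _ ≤ a + b := add_le_add (ha y) (hb y)
      refine (PP_basic (by omega) ρ hbC hsum).2.2.2.2.2.1 (fun y => ?_) x
      simp only [one_mul]
      unfold ind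
      by_cases hy : y ∈ Cp v c
      · by_cases hyA : y ∈ A
        · have : y ∉ T := fun h => h.2 hyA
          rw [Set.indicator_of_mem hy, Set.indicator_of_mem hyA, Set.indicator_of_notMem this]
          norm_num
        · have : y ∈ T := ⟨hy, hyA⟩
          rw [Set.indicator_of_mem hy, Set.indicator_of_notMem hyA, Set.indicator_of_mem this]
          norm_num
      · rw [Set.indicator_of_notMem hy]
        exact add_nonneg (Set.indicator_nonneg (fun _ _ => zero_le_one) _)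
          (Set.indicator_nonneg (fun _ _ => zero_le_one) _)
    have e6 : PP ρ (fun y => 1 * ind A y + 1 * ind T y) x
        = 1 * PP ρ (ind A) x + 1 * PP ρ (ind T) x :=
      (PP_basic (by omega) ρ hbA hbT).2.2.1 1 1 x
    rw [e6, e3] at e5
    linarith
  have hae : ∀ᵐ (x : SS E) ∂(sm E), S.indicator (fun _ => 1 / C3 ^ 2) x ≤ (PP ρ (ind T) x) ^ 2 := by
    filter_upwards [tail_G_null hn (by omega) v] with x hx
    by_cases hxS : x ∈ S
    · rw [Set.indicator_of_mem hxS]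
      have h := hpt x hxS hx
      have h0 : (0 : ℝ) ≤ 1 / C3 := by positivity
      calc 1 / C3 ^ 2 = (1 / C3) ^ 2 := by rw [one_div_pow]
        _ ≤ _ := pow_le_pow_left₀ h0 h 2
    · rw [Set.indicator_of_notMem hxS]
      positivity
  have hint : Integrable (fun x => (PP ρ (ind T) x) ^ 2) (sm E) := by
    obtain ⟨b, hb⟩ := hPT.2
    refine Integrable.of_bound (hPT.1.pow_const 2).aestronglyMeasurable (b ^ 2)
      (Filter.Eventually.of_forall fun x => ?_)
    rw [Real.norm_eq_abs, abs_pow]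
    exact pow_le_pow_left₀ (abs_nonneg _) (hb x) 2
  have hint2 : Integrable (S.indicator (fun _ => 1 / C3 ^ 2)) (sm E) :=
    (integrable_const _).indicator hSm
  have hI := integral_mono_ae hint2 hint hae
  rw [integral_indicator_const _ hSm, smul_eq_mul] at hI
  have hI2 : (sm E).real S * (1 / C3 ^ 2) ≤ C1 * ((sm E).real T) ^ ((7 : ℝ) / 5) := hI.trans hsse
  have hC3 : (0 : ℝ) < C3 ^ 2 := by positivity
  have hI3 : (sm E).real S ≤ C3 ^ 2 * C1 * ((sm E).real T) ^ ((7 : ℝ) / 5) := by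
    have := mul_le_mul_of_nonneg_left hI2 hC3.le
    calc (sm E).real S = C3 ^ 2 * ((sm E).real S * (1 / C3 ^ 2)) := by field_simp
      _ ≤ _ := this
      _ = _ := by ring
  refine hI3.trans (mul_le_mul_of_nonneg_right (le_max_right _ _) ?_)
  exact Real.rpow_nonneg measureReal_nonneg _

-- tail_sum
theorem tail_sum_q : (2 : ℝ) ^ (-(2 : ℝ) / 5) ≤ 4 / 5 := by
  have h0 : (0 : ℝ) ≤ (2 : ℝ) ^ (-(2 : ℝ) / 5) := by positivity
  refine le_of_pow_le_pow_left₀ (n := 5) (by norm_num) (by norm_num) ?_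
  rw [← Real.rpow_natCast, ← Real.rpow_mul (by norm_num)]
  have : (-(2 : ℝ) / 5) * ((5 : ℕ) : ℝ) = -2 := by norm_num
  rw [this, Real.rpow_neg (by norm_num)]
  norm_num

theorem tail_sum_geo (N : ℕ) : ∑ j ∈ Finset.range N, ((4 : ℝ) / 5) ^ j ≤ 5 := by
  rw [geom_sum_eq (by norm_num)]
  have : (0 : ℝ) ≤ (4 / 5) ^ N := by positivity
  rw [div_le_iff_of_neg (by norm_num)]
  linarith

theorem tail_sum_term {x : ℝ} (hx : 0 < x) (j : ℕ) :
    ((2 : ℝ) ^ j * x) ^ (-(2 : ℝ) / 5) ≤ (4 / 5) ^ j * x ^ (-(2 : ℝ) / 5) := by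
  rw [Real.mul_rpow (by positivity) hx.le]
  refine mul_le_mul_of_nonneg_right ?_ (by positivity)
  rw [← Real.rpow_natCast 2 j, ← Real.rpow_mul (by norm_num), mul_comm, Real.rpow_mul (by norm_num),
    Real.rpow_natCast]
  exact pow_le_pow_left₀ (by positivity) tail_sum_q j

theorem tail_sum_near {x d : ℝ} (hx : 0 < x) (hd : x < d) :
    ∃ j : ℕ, 2 ^ j * x < d ∧ d ≤ 2 * (2 ^ j * x) := by
  have hex : ∃ j : ℕ, d ≤ 2 * (2 ^ j * x) := by
    obtain ⟨j, hj⟩ := pow_unbounded_of_one_lt (d / x) (by norm_num : (1 : ℝ) < 2)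
    refine ⟨j, ?_⟩
    rw [div_lt_iff₀ hx] at hj
    have : 0 < 2 ^ j * x := by positivity
    linarith
  classical
  refine ⟨Nat.find hex, ?_, Nat.find_spec hex⟩
  rcases Nat.eq_zero_or_pos (Nat.find hex) with h | h
  · rw [h]
    simpa using hd
  · obtain ⟨k, hk⟩ : ∃ k, Nat.find hex = k + 1 := ⟨Nat.find hex - 1, by omega⟩
    have := Nat.find_min hex (m := k) (by omega)
    push Not at this
    rw [hk, pow_succ]
    linarith

theorem tail_sum (t : ℕ) (ht : 3 ≤ t) {Hm : ℝ} (hH : 0 ≤ Hm) :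
    ∃ C : ℝ, 1 ≤ C ∧ ∃ n0 : ℕ, 6 ≤ n0 ∧ ∀ (E : Type) [NormedAddCommGroup E]
    [InnerProductSpace ℝ E] [CompleteSpace E] [FiniteDimensional ℝ E] [MeasurableSpace E]
    [BorelSpace E], ∀ n : ℕ, Module.finrank ℝ E = n → n0 ≤ n → ∀ (v : SS E) (c : ℝ), 0 ≤ c →
    Real.sqrt n * c ≤ Hm → ∀ A : Set (SS E), MeasurableSet A →
    Star (rhoc t c) (Gc n (rhoc t c) c c) A →
    (∀ a b : ℝ, 0 ≤ a → (t - 1) * a < b →
      Star (rhoc t c) (Gc n (rhoc t c) c c) (clp v c a b A)) →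
    ∀ K : ℝ, 1 ≤ K → K * (sm E).real (Cp v c \ A) ≤ 1 →
    (sm E).real {x | x ∈ A ∧
      ⟪(v : E), (x : E)⟫ < c - K * (sm E).real (Cp v c \ A) / Real.sqrt n}
      ≤ C * K ^ (-(2 : ℝ) / 5) * (sm E).real (Cp v c \ A) := by
  obtain ⟨C1, hC1, n1, hn1, H1⟩ := tail_D t ht hH
  obtain ⟨C2, hC2, n2, hn2, H2⟩ := tail_G t ht hH
  refine ⟨C1 * 5 + C2, by linarith, max n1 n2, le_trans hn1 (le_max_left _ _), ?_⟩
  intro E _ _ _ _ _ _ n hfin hn v c hc hcH A hA hStar hClp K hK hKm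
  have D := H1 E n hfin (le_trans (le_max_left _ _) hn) v c hc hcH A hA hClp
  have G := H2 E n hfin (le_trans (le_max_right _ _) hn) v c hc hcH A hA hStar
  have hn6 : 6 ≤ n := le_trans hn1 (le_trans (le_max_left _ _) hn)
  have hprob : IsProbabilityMeasure (sm E) := sm_prob (by omega)
  have hm0 : 0 ≤ (sm E).real (Cp v c \ A) := measureReal_nonneg
  generalize (sm E).real (Cp v c \ A) = m at *
  have hsq : 0 < Real.sqrt n := Real.sqrt_pos.2 (by exact_mod_cast (by omega : 0 < n))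
  rcases hm0.eq_or_lt with h0 | h0
  · -- m = 0
    subst h0
    have e0 : ((0 : ℝ)) ^ ((7 : ℝ) / 5) = 0 := Real.zero_rpow (by norm_num)
    rw [e0, mul_zero] at G
    have hsub : {x : SS E | x ∈ A ∧ ⟪(v : E), (x : E)⟫ < c - K * 0 / Real.sqrt n} ⊆
        {x : SS E | x ∈ A ∧ ⟪(v : E), (x : E)⟫ < c - 1 / Real.sqrt n} ∪
        ⋃ j : ℕ, {x : SS E | x ∈ A ∧ c - 2 * ((1 / 2 : ℝ) ^ (j + 1)) / Real.sqrt n ≤
          ⟪(v : E), (x : E)⟫ ∧ ⟪(v : E), (x : E)⟫ < c - ((1 / 2 : ℝ) ^ (j + 1)) / Real.sqrt n} := by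
      rintro x ⟨hxA, hx⟩
      rw [mul_zero, zero_div, sub_zero] at hx
      by_cases h1 : ⟪(v : E), (x : E)⟫ < c - 1 / Real.sqrt n
      · exact Or.inl ⟨hxA, h1⟩
      · right
        push Not at h1
        have hd0 : 0 < Real.sqrt n * (c - ⟪(v : E), (x : E)⟫) := mul_pos hsq (by linarith)
        have hd1 : Real.sqrt n * (c - ⟪(v : E), (x : E)⟫) ≤ 1 := by
          have h2 : c - ⟪(v : E), (x : E)⟫ ≤ 1 / Real.sqrt n := by linarith
          rw [le_div_iff₀ hsq] at h2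
          linarith
        obtain ⟨j, hj1, hj2⟩ := exists_nat_pow_near_of_lt_one hd0 hd1
          (by norm_num : (0 : ℝ) < 1 / 2) (by norm_num)
        rw [mem_iUnion]
        refine ⟨j, hxA, ?_, ?_⟩
        · have h3 : c - ⟪(v : E), (x : E)⟫ ≤ 2 * ((1 / 2 : ℝ) ^ (j + 1)) / Real.sqrt n := by
            rw [le_div_iff₀ hsq, pow_succ]
            linarith
          linarith
        · have h3 : ((1 / 2 : ℝ) ^ (j + 1)) / Real.sqrt n < c - ⟪(v : E), (x : E)⟫ := by
            rw [div_lt_iff₀ hsq]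
            linarith
          linarith
    have hz : ∀ j : ℕ, (sm E) {x : SS E | x ∈ A ∧ c - 2 * ((1 / 2 : ℝ) ^ (j + 1)) / Real.sqrt n ≤
          ⟪(v : E), (x : E)⟫ ∧ ⟪(v : E), (x : E)⟫ < c - ((1 / 2 : ℝ) ^ (j + 1)) / Real.sqrt n} = 0 := by
      intro j
      have h4 := D ((1 / 2 : ℝ) ^ (j + 1)) (by positivity)
        (pow_le_one₀ (by norm_num) (by norm_num))
      rw [e0, mul_zero] at h4
      rw [← measureReal_eq_zero_iff]
      exact le_antisymm h4 measureReal_nonneg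
    have hz' : (sm E) {x : SS E | x ∈ A ∧ ⟪(v : E), (x : E)⟫ < c - 1 / Real.sqrt n} = 0 := by
      rw [← measureReal_eq_zero_iff]
      exact le_antisymm G measureReal_nonneg
    have hz2 : (sm E) {x : SS E | x ∈ A ∧ ⟪(v : E), (x : E)⟫ < c - K * 0 / Real.sqrt n} = 0 :=
      measure_mono_null hsub (measure_union_null hz' (measure_iUnion_null hz))
    rw [mul_zero ((C1 * 5 + C2) * K ^ (-(2 : ℝ) / 5))]
    exact le_of_eq ((measureReal_eq_zero_iff).2 hz2)
  · -- m > 0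
    have hKm0 : 0 < K * m := by positivity
    obtain ⟨N, hN⟩ := pow_unbounded_of_one_lt (1 / (K * m)) (by norm_num : (1 : ℝ) < 2)
    rw [div_lt_iff₀ hKm0] at hN
    let S : ℕ → Set (SS E) := fun j => {x : SS E | x ∈ A ∧
      c - 2 * (2 ^ j * (K * m)) / Real.sqrt n ≤ ⟪(v : E), (x : E)⟫ ∧
        ⟪(v : E), (x : E)⟫ < c - (2 ^ j * (K * m)) / Real.sqrt n}
    have hsub : {x : SS E | x ∈ A ∧ ⟪(v : E), (x : E)⟫ < c - K * m / Real.sqrt n} ⊆
        {x : SS E | x ∈ A ∧ ⟪(v : E), (x : E)⟫ < c - 1 / Real.sqrt n} ∪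
        ⋃ j ∈ (Finset.range N).filter (fun j => 2 ^ j * (K * m) ≤ 1), S j := by
      rintro x ⟨hxA, hx⟩
      by_cases h1 : ⟪(v : E), (x : E)⟫ < c - 1 / Real.sqrt n
      · exact Or.inl ⟨hxA, h1⟩
      · right
        push Not at h1
        have hd0 : K * m < Real.sqrt n * (c - ⟪(v : E), (x : E)⟫) := by
          have h2 : K * m / Real.sqrt n < c - ⟪(v : E), (x : E)⟫ := by linarith
          rw [div_lt_iff₀ hsq] at h2
          linarith
        have hd1 : Real.sqrt n * (c - ⟪(v : E), (x : E)⟫) ≤ 1 := by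
          have h2 : c - ⟪(v : E), (x : E)⟫ ≤ 1 / Real.sqrt n := by linarith
          rw [le_div_iff₀ hsq] at h2
          linarith
        obtain ⟨j, hj1, hj2⟩ := tail_sum_near hKm0 hd0
        have hj3 : 2 ^ j * (K * m) ≤ 1 := by linarith
        have hjN : j < N := by
          by_contra hcon
          push Not at hcon
          have h5 : (2 : ℝ) ^ N ≤ 2 ^ j := pow_le_pow_right₀ (by norm_num) hcon
          have h6 : 2 ^ N * (K * m) ≤ 2 ^ j * (K * m) := mul_le_mul_of_nonneg_right h5 hKm0.le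
          linarith
        simp only [mem_iUnion]
        refine ⟨j, Finset.mem_filter.2 ⟨Finset.mem_range.2 hjN, hj3⟩, hxA, ?_, ?_⟩
        · have h3 : c - ⟪(v : E), (x : E)⟫ ≤ 2 * (2 ^ j * (K * m)) / Real.sqrt n := by
            rw [le_div_iff₀ hsq]
            linarith
          linarith
        · have h3 : (2 ^ j * (K * m)) / Real.sqrt n < c - ⟪(v : E), (x : E)⟫ := by
            rw [div_lt_iff₀ hsq]
            linarith
          linarith
    have hm1 : (sm E).real {x : SS E | x ∈ A ∧ ⟪(v : E), (x : E)⟫ < c - K * m / Real.sqrt n} ≤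
        (sm E).real {x : SS E | x ∈ A ∧ ⟪(v : E), (x : E)⟫ < c - 1 / Real.sqrt n} +
        ∑ j ∈ (Finset.range N).filter (fun j => 2 ^ j * (K * m) ≤ 1), (sm E).real (S j) :=
      (measureReal_mono hsub (measure_ne_top _ _)).trans ((measureReal_union_le _ _).trans
        (add_le_add le_rfl (measureReal_biUnion_finset_le _ _)))
    have hterm : ∀ j ∈ (Finset.range N).filter (fun j => 2 ^ j * (K * m) ≤ 1),
        (sm E).real (S j) ≤ (C1 * K ^ (-(2 : ℝ) / 5) * m) * (4 / 5) ^ j := by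
      intro j hj
      rw [Finset.mem_filter] at hj
      have h4 := D (2 ^ j * (K * m)) (by positivity) hj.2
      refine h4.trans ?_
      have h5 := tail_sum_term hKm0 j
      have h6 : (K * m) ^ (-(2 : ℝ) / 5) * m ^ ((7 : ℝ) / 5) = K ^ (-(2 : ℝ) / 5) * m := by
        rw [Real.mul_rpow (by linarith) h0.le, mul_assoc, ← Real.rpow_add h0]
        norm_num
      calc C1 * (2 ^ j * (K * m)) ^ (-(2 : ℝ) / 5) * m ^ ((7 : ℝ) / 5)
          ≤ C1 * ((4 / 5) ^ j * (K * m) ^ (-(2 : ℝ) / 5)) * m ^ ((7 : ℝ) / 5) := by gcongr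
        _ = C1 * (4 / 5) ^ j * ((K * m) ^ (-(2 : ℝ) / 5) * m ^ ((7 : ℝ) / 5)) := by ring
        _ = _ := by rw [h6]; ring
    have hsum : ∑ j ∈ (Finset.range N).filter (fun j => 2 ^ j * (K * m) ≤ 1), (sm E).real (S j) ≤
        (C1 * K ^ (-(2 : ℝ) / 5) * m) * 5 := by
      refine (Finset.sum_le_sum hterm).trans ?_
      rw [← Finset.mul_sum]
      have hpos : 0 ≤ C1 * K ^ (-(2 : ℝ) / 5) * m := by positivity
      refine mul_le_mul_of_nonneg_left ?_ hpos
      refine le_trans ?_ (tail_sum_geo N)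
      exact Finset.sum_le_sum_of_subset_of_nonneg (Finset.filter_subset _ _)
        (fun _ _ _ => by positivity)
    have hG2 : C2 * m ^ ((7 : ℝ) / 5) ≤ C2 * K ^ (-(2 : ℝ) / 5) * m := by
      have h7 : m ^ ((7 : ℝ) / 5) = m ^ ((2 : ℝ) / 5) * m := by
        rw [← Real.rpow_add_one h0.ne']
        norm_num
      have h8 : m ^ ((2 : ℝ) / 5) ≤ K ^ (-(2 : ℝ) / 5) := by
        have h9 : m ≤ K⁻¹ := by
          rw [← one_div, le_div_iff₀ (by linarith)]
          linarith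
        have h10 : K ^ (-(2 : ℝ) / 5) = (K⁻¹) ^ ((2 : ℝ) / 5) := by
          rw [Real.inv_rpow (by linarith), ← Real.rpow_neg (by linarith)]
          norm_num
        rw [h10]
        exact Real.rpow_le_rpow h0.le h9 (by norm_num)
      rw [h7, mul_assoc]
      have : m ^ ((2 : ℝ) / 5) * m ≤ K ^ (-(2 : ℝ) / 5) * m := mul_le_mul_of_nonneg_right h8 h0.le
      exact mul_le_mul_of_nonneg_left this (by linarith)
    calc _ ≤ _ := hm1
      _ ≤ C2 * K ^ (-(2 : ℝ) / 5) * m + (C1 * K ^ (-(2 : ℝ) / 5) * m) * 5 :=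
        add_le_add (G.trans hG2) hsum
      _ = _ := by ring


end CoreW

end Pool.Agent.helper440_simplex
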