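import Pool.Agent.helper440_simplex.LocalA1
import Pool.Agent.helper440_simplex.LocalA2

set_option autoImplicit false
set_option linter.unusedSectionVars false

namespace Pool.Agent.helper440_simplex

open MeasureTheory Metric Set Filter Topology
open scoped RealInnerProductSpace

section CoreW
variable {E : Type*} [NormedAddCommGroup E] [InnerProductSpace ℝ E] [CompleteSpace E]
  [FiniteDimensional ℝ E] [MeasurableSpace E] [BorelSpace E]

/-- integral over the fibre -/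
noncomputable def vf {E : Type*} [NormedAddCommGroup E] [InnerProductSpace ℝ E] [CompleteSpace E]
    [FiniteDimensional ℝ E] [MeasurableSpace E] [BorelSpace E] (n : ℕ) (v : SS E)
    (ψ : SS E → ℝ) (w : SS (Pe v)) : ℝ := ∫ τ, om n τ * ψ (pt v τ w)

-- bil_est
section bil_est_sec
variable {E : Type*} [NormedAddCommGroup E] [InnerProductSpace ℝ E] [CompleteSpace E]
  [FiniteDimensional ℝ E] [MeasurableSpace E] [BorelSpace E]

theorem bil_est_I (hn : 3 ≤ Module.finrank ℝ E) (a : SS E) (w0 : SS (Pe a)) {r : ℝ} (hr : |r| ≤ 1)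
    {f h : SS E → ℝ} (hf : BM f) (hh : BM h) :
    ∫ x, h x * PP r f x ∂(sm E) = ∫ g, h (sa g a) * f (sa g (pt a r w0)) ∂(hm E) := by
  obtain ⟨h1, h2⟩ := abs_le.mp hr
  have hi : ⟪(a : E), (pt a r w0 : E)⟫ = r := (pt_inner h1 h2 h1 h2 a w0 w0).1
  have h3 := PP_pair (by omega) hf hh (fun r' => (PP_basic hn r' hf hf).1.1) a (pt a r w0)
  rw [hi] at h3
  exact h3

theorem bil_est_diff {m : ℕ} (hm : Module.finrank ℝ E = m) (h6 : 6 ≤ m) {r r' : ℝ}
    (hr : |r| ≤ 3 / 4) (hr' : |r'| ≤ 3 / 4) {f h : SS E → ℝ} (hf : Measurable f)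
    (hh : Measurable h) (hf1 : ∀ x, |f x| ≤ 1) (hh1 : ∀ x, |h x| ≤ 1) :
    |∫ x, h x * PP r f x ∂(sm E) - ∫ x, h x * PP r' f x ∂(sm E)| ≤ 40 * |r - r'| := by
  have hp : IsProbabilityMeasure (sm E) := sm_prob (by omega)
  have hfB : BM f := ⟨hf, 1, hf1⟩
  obtain ⟨⟨m1, C1, b1⟩, -⟩ := PP_basic (E := E) (by omega) r hfB hfB
  obtain ⟨⟨m2, C2, b2⟩, -⟩ := PP_basic (E := E) (by omega) r' hfB hfB
  have bdd : ∀ {g : SS E → ℝ} {C : ℝ}, Measurable g → (∀ x, |g x| ≤ C) → Integrable g (sm E) :=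
    fun hg hC => Integrable.of_bound hg.aestronglyMeasurable _ (ae_of_all _ hC)
  have i1 : Integrable (fun x => h x * PP r f x) (sm E) := by
    refine bdd (C := C1) (hh.mul m1) fun x => ?_
    rw [abs_mul]
    calc _ ≤ 1 * |PP r f x| := mul_le_mul_of_nonneg_right (hh1 x) (abs_nonneg _)
      _ ≤ C1 := by rw [one_mul]; exact b1 x
  have i2 : Integrable (fun x => h x * PP r' f x) (sm E) := by
    refine bdd (C := C2) (hh.mul m2) fun x => ?_
    rw [abs_mul]
    calc _ ≤ 1 * |PP r' f x| := mul_le_mul_of_nonneg_right (hh1 x) (abs_nonneg _)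
      _ ≤ C2 := by rw [one_mul]; exact b2 x
  rw [← integral_sub i1 i2]
  set D : SS E → ℝ := fun x => PP r f x - PP r' f x with hD
  have hDm : Measurable D := m1.sub m2
  have hDb : ∀ x, |D x| ≤ C1 + C2 := fun x => (abs_sub _ _).trans (add_le_add (b1 x) (b2 x))
  have iD : Integrable (fun x => |D x|) (sm E) :=
    bdd (C := C1 + C2) hDm.abs fun x => by rw [abs_abs]; exact hDb x
  have iD2 : Integrable (fun x => D x ^ 2) (sm E) :=
    bdd (C := (C1 + C2) ^ 2) (hDm.pow_const 2) fun x => by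
      rw [abs_pow]
      exact pow_le_pow_left₀ (abs_nonneg _) (hDb x) 2
  have e1 : |∫ x, (h x * PP r f x - h x * PP r' f x) ∂(sm E)| ≤ ∫ x, |D x| ∂(sm E) := by
    refine (abs_integral_le_integral_abs).trans ?_
    refine integral_mono_of_nonneg (ae_of_all _ fun x => abs_nonneg _) iD (ae_of_all _ fun x => ?_)
    show |h x * PP r f x - h x * PP r' f x| ≤ |D x|
    rw [← mul_sub, abs_mul]
    calc _ ≤ 1 * |D x| := mul_le_mul_of_nonneg_right (hh1 x) (abs_nonneg _)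
      _ = _ := one_mul _
  set M := ∫ x, |D x| ∂(sm E) with hM
  have hM0 : 0 ≤ M := integral_nonneg fun x => abs_nonneg _
  have e2 : M ^ 2 ≤ ∫ x, D x ^ 2 ∂(sm E) := by
    have h0 : 0 ≤ ∫ x, (D x ^ 2 - 2 * M * |D x| + M ^ 2) ∂(sm E) := by
      refine integral_nonneg fun x => ?_
      show 0 ≤ D x ^ 2 - 2 * M * |D x| + M ^ 2
      have : D x ^ 2 = |D x| ^ 2 := (sq_abs _).symm
      rw [this]
      nlinarith [sq_nonneg (|D x| - M)]
    have iA : Integrable (fun x => D x ^ 2 - 2 * M * |D x|) (sm E) := iD2.sub (iD.const_mul _)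
    rw [integral_add iA (integrable_const _),
      integral_sub iD2 (iD.const_mul _), integral_const_mul, integral_const] at h0
    simp only [probReal_univ, one_smul] at h0
    rw [← hM] at h0
    nlinarith
  have e3 := spec_diff hm h6 hr hr' hfB
  have e4 : ∫ x, (f x) ^ 2 ∂(sm E) ≤ 1 := by
    have : ∫ x, (f x) ^ 2 ∂(sm E) ≤ ∫ x, (1 : ℝ) ∂(sm E) := by
      refine integral_mono_of_nonneg (ae_of_all _ fun x => sq_nonneg _) (integrable_const _)
        (ae_of_all _ fun x => ?_)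
      show f x ^ 2 ≤ 1
      rw [← sq_abs]
      exact pow_le_one₀ (abs_nonneg _) (hf1 x)
    simpa using this
  have e5 : M ^ 2 ≤ (40 * |r - r'|) ^ 2 := by
    refine e2.trans (e3.trans ?_)
    have := mul_le_mul_of_nonneg_left e4 (sq_nonneg (40 * |r - r'|))
    linarith
  exact e1.trans (abs_le_of_sq_le_sq' e5 (by positivity)).2

theorem bil_est_ptm (v : SS E) : Measurable (fun p : ℝ × SS (Pe v) => pt v p.1 p.2) :=
  (pt_cont v).measurable

theorem bil_est_ptc {T : Type*} [MeasurableSpace T] (v : SS E)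
    {α : T → ℝ} {β : T → SS (Pe v)} (hα : Measurable α) (hβ : Measurable β) :
    Measurable (fun q => pt v (α q) (β q)) := by
  have h1 : Measurable (fun q => (α q, β q)) := hα.prodMk hβ
  have h2 := (bil_est_ptm v).comp h1
  exact h2

theorem bil_est_cmp {T : Type*} [MeasurableSpace T] (v : SS E) {φ : SS E → ℝ} (hφ : Measurable φ)
    {α : T → ℝ} {β : T → SS (Pe v)} (hα : Measurable α) (hβ : Measurable β) :
    Measurable (fun q => φ (pt v (α q) (β q))) := by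
  have h2 := bil_est_ptc v hα hβ
  exact hφ.comp h2

theorem bil_est_sam {T : Type*} [MeasurableSpace T] (a0 : SS E) {γ : T → UG E}
    (hγ : Measurable γ) : Measurable (fun q => sa (γ q) a0) := by
  have h1 := (sa_continuous_left a0).measurable
  exact h1.comp hγ

theorem bil_est_sbm {T : Type*} [MeasurableSpace T] (a0 : SS E) (w0 : SS (Pe a0)) {γ : T → UG E}
    (hγ : Measurable γ) {ρ : T → ℝ} (hρ : Measurable ρ) :
    Measurable (fun q => sa (γ q) (pt a0 (ρ q) w0)) := by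
  have h1 : Measurable (fun q => pt a0 (ρ q) w0) := bil_est_ptc a0 hρ measurable_const
  have h2 : Measurable (fun p : UG E × SS E => sa p.1 p.2) := sa_continuous.measurable
  have h3 : Measurable (fun q => (γ q, pt a0 (ρ q) w0)) := hγ.prodMk h1
  have h4 := h2.comp h3
  exact h4

/-- the joint function -/
noncomputable def bil_est_J (v : SS E) (a0 : SS (Pe v)) (w0 : SS (Pe a0)) (h ψ : SS E → ℝ)
    (r τ τ' : ℝ) : ℝ :=
  ∫ g, h (pt v τ (sa g a0)) * ψ (pt v τ' (sa g (pt a0 r w0))) ∂(hm (Pe v))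

theorem bil_est_Fm {T : Type*} [MeasurableSpace T] (v : SS E) (a0 : SS (Pe v)) (w0 : SS (Pe a0))
    {h ψ : SS E → ℝ} (hh : Measurable h) (hψ : Measurable ψ) {γ : T → UG (Pe v)}
    (hγ : Measurable γ) {ρ τ τ' : T → ℝ} (hρ : Measurable ρ) (hτ : Measurable τ)
    (hτ' : Measurable τ') :
    Measurable (fun q => h (pt v (τ q) (sa (γ q) a0)) *
      ψ (pt v (τ' q) (sa (γ q) (pt a0 (ρ q) w0)))) :=
  (bil_est_cmp v hh hτ (bil_est_sam a0 hγ)).mul (bil_est_cmp v hψ hτ' (bil_est_sbm a0 w0 hγ hρ))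

theorem bil_est_Jm (v : SS E) (a0 : SS (Pe v)) (w0 : SS (Pe a0))
    {h ψ : SS E → ℝ} (hh : Measurable h) (hψ : Measurable ψ) :
    Measurable (fun z : ℝ × ℝ × ℝ => bil_est_J v a0 w0 h ψ z.1 z.2.1 z.2.2) := by
  have h1 := bil_est_Fm (T := (ℝ × ℝ × ℝ) × UG (Pe v)) v a0 w0 hh hψ (γ := fun q => q.2)
    (ρ := fun q => q.1.1) (τ := fun q => q.1.2.1) (τ' := fun q => q.1.2.2) measurable_snd
    (measurable_fst.comp measurable_fst)
    (measurable_fst.comp (measurable_snd.comp measurable_fst))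
    (measurable_snd.comp (measurable_snd.comp measurable_fst))
  exact (h1.stronglyMeasurable.integral_prod_right (ν := hm (Pe v))
    (f := fun (z : ℝ × ℝ × ℝ) (g : UG (Pe v)) =>
      h (pt v z.2.1 (sa g a0)) * ψ (pt v z.2.2 (sa g (pt a0 z.1 w0))))).measurable

theorem bil_est_J1 (v : SS E) (a0 : SS (Pe v)) (w0 : SS (Pe a0))
    {h ψ : SS E → ℝ} (hh1 : ∀ x, |h x| ≤ 1) (hψ1 : ∀ x, |ψ x| ≤ 1) (r τ τ' : ℝ) :
    |bil_est_J v a0 w0 h ψ r τ τ'| ≤ 1 := by
  have := norm_integral_le_of_norm_le_const (μ := hm (Pe v)) (C := 1)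
    (f := fun g => h (pt v τ (sa g a0)) * ψ (pt v τ' (sa g (pt a0 r w0))))
    (ae_of_all _ fun g => by
      rw [norm_mul]
      exact mul_le_one₀ (hh1 _) (norm_nonneg _) (hψ1 _))
  simpa [bil_est_J] using this

theorem bil_est_JI (v : SS E) (a0 : SS (Pe v)) (w0 : SS (Pe a0))
    (hn : 3 ≤ Module.finrank ℝ (Pe v))
    {h ψ : SS E → ℝ} (hh : Measurable h) (hψ : Measurable ψ)
    (hh1 : ∀ x, |h x| ≤ 1) (hψ1 : ∀ x, |ψ x| ≤ 1) {r : ℝ} (hr : |r| ≤ 1) (τ τ' : ℝ) :
    ∫ w, h (pt v τ w) * PP r (fun w' => ψ (pt v τ' w')) w ∂(sm (Pe v))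
      = bil_est_J v a0 w0 h ψ r τ τ' := by
  have h1 : BM (fun w' : SS (Pe v) => ψ (pt v τ' w')) :=
    ⟨bil_est_cmp v hψ measurable_const measurable_id, 1, fun _ => hψ1 _⟩
  have h2 : BM (fun w' : SS (Pe v) => h (pt v τ w')) :=
    ⟨bil_est_cmp v hh measurable_const measurable_id, 1, fun _ => hh1 _⟩
  exact bil_est_I hn a0 w0 hr h1 h2

theorem bil_est_Jd (v : SS E) (a0 : SS (Pe v)) (w0 : SS (Pe a0)) {m : ℕ}
    (hn : Module.finrank ℝ (Pe v) = m) (hm : 6 ≤ m)
    {h ψ : SS E → ℝ} (hh : Measurable h) (hψ : Measurable ψ)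
    (hh1 : ∀ x, |h x| ≤ 1) (hψ1 : ∀ x, |ψ x| ≤ 1) {r r' : ℝ} (hr : |r| ≤ 3 / 4)
    (hr' : |r'| ≤ 3 / 4) (τ τ' : ℝ) :
    |bil_est_J v a0 w0 h ψ r τ τ' - bil_est_J v a0 w0 h ψ r' τ τ'| ≤ 40 * |r - r'| := by
  rw [← bil_est_JI v a0 w0 (by omega) hh hψ hh1 hψ1 (by linarith : |r| ≤ 1) τ τ',
    ← bil_est_JI v a0 w0 (by omega) hh hψ hh1 hψ1 (by linarith : |r'| ≤ 1) τ τ']
  exact bil_est_diff hn hm hr hr' (bil_est_cmp v hψ measurable_const measurable_id)
    (bil_est_cmp v hh measurable_const measurable_id) (fun _ => hψ1 _) (fun _ => hh1 _)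

theorem bil_est_vf {n : ℕ} (h4 : 4 ≤ n) (v : SS E) {φ : SS E → ℝ} (hφ : Measurable φ)
    (hφ1 : ∀ x, |φ x| ≤ 1) : BM (vf n v φ) := by
  obtain ⟨-, homc, hom0, -, -, -, homi, homI, -⟩ := om_basic h4
  have hm1 : Measurable (fun p : SS (Pe v) × ℝ => om n p.2 * φ (pt v p.2 p.1)) :=
    (homc.measurable.comp measurable_snd).mul (bil_est_cmp v hφ measurable_snd measurable_fst)
  refine ⟨(hm1.stronglyMeasurable.integral_prod_right (ν := volume)
    (f := fun (w : SS (Pe v)) (τ : ℝ) => om n τ * φ (pt v τ w))).measurable, 1, fun w => ?_⟩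
  unfold vf
  have h1 : ‖∫ τ, om n τ * φ (pt v τ w)‖ ≤ ∫ τ, om n τ := by
    refine norm_integral_le_of_norm_le homi (ae_of_all _ fun τ => ?_)
    rw [norm_mul, Real.norm_eq_abs, Real.norm_eq_abs, abs_of_nonneg (hom0 τ)]
    exact mul_le_of_le_one_right (hom0 τ) (hφ1 _)
  rw [homI] at h1
  exact h1

theorem bil_est_RR {n : ℕ} (hn : 4 ≤ n) (v : SS E) (a0 : SS (Pe v)) (w0 : SS (Pe a0))
    (hnP : 3 ≤ Module.finrank ℝ (Pe v))
    {h ψ : SS E → ℝ} (hh : Measurable h) (hψ : Measurable ψ)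
    (hh1 : ∀ x, |h x| ≤ 1) (hψ1 : ∀ x, |ψ x| ≤ 1) {rc : ℝ} (hrc : |rc| ≤ 1) (kc : ℝ) :
    kc * ∫ w, vf n v h w * PP rc (vf n v ψ) w ∂(sm (Pe v)) =
      ∫ z : ℝ × ℝ, om n z.1 * (om n z.2 * (kc * bil_est_J v a0 w0 h ψ rc z.1 z.2))
        ∂(volume.prod volume) := by
  obtain ⟨-, homc, hom0, -, -, -, homi, homI, -⟩ := om_basic hn
  have homm : Measurable (om n) := homc.measurable
  rw [bil_est_I hnP a0 w0 hrc (bil_est_vf hn v hψ hψ1) (bil_est_vf hn v hh hh1),
    ← integral_const_mul]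
  have e1 : ∀ g : UG (Pe v), kc * (vf n v h (sa g a0) * vf n v ψ (sa g (pt a0 rc w0))) =
      ∫ z : ℝ × ℝ, kc * ((om n z.1 * h (pt v z.1 (sa g a0))) *
        (om n z.2 * ψ (pt v z.2 (sa g (pt a0 rc w0))))) ∂(volume.prod volume) := by
    intro g
    rw [integral_const_mul, integral_prod_mul (fun τ => om n τ * h (pt v τ (sa g a0)))
      (fun τ' => om n τ' * ψ (pt v τ' (sa g (pt a0 rc w0))))]
    rfl
  have e2 : ∀ (g : UG (Pe v)) (z : ℝ × ℝ), kc * ((om n z.1 * h (pt v z.1 (sa g a0))) *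
      (om n z.2 * ψ (pt v z.2 (sa g (pt a0 rc w0))))) = (kc * om n z.1 * om n z.2) *
        (h (pt v z.1 (sa g a0)) * ψ (pt v z.2 (sa g (pt a0 rc w0)))) := by
    intro g z; ring
  simp only [e1, e2]
  rw [integral_integral_swap]
  · refine integral_congr_ae (ae_of_all _ fun z => ?_)
    show ∫ g, (kc * om n z.1 * om n z.2) *
        (h (pt v z.1 (sa g a0)) * ψ (pt v z.2 (sa g (pt a0 rc w0)))) ∂(hm (Pe v)) =
          om n z.1 * (om n z.2 * (kc * bil_est_J v a0 w0 h ψ rc z.1 z.2))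
    rw [integral_const_mul]
    show (kc * om n z.1 * om n z.2) * bil_est_J v a0 w0 h ψ rc z.1 z.2 = _
    ring
  · have hdom : Integrable (fun z : ℝ × ℝ => (om n z.1 * |kc|) * om n z.2)
        ((volume : Measure ℝ).prod (volume : Measure ℝ)) :=
      (homi.mul_const |kc|).mul_prod homi
    have hbig : Integrable (fun p : UG (Pe v) × (ℝ × ℝ) =>
        (fun _ : UG (Pe v) => (1 : ℝ)) p.1 * (fun z : ℝ × ℝ => (om n z.1 * |kc|) * om n z.2) p.2)
        ((hm (Pe v)).prod ((volume : Measure ℝ).prod (volume : Measure ℝ))) :=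
      (integrable_const (1 : ℝ)).mul_prod hdom
    have hmm : Measurable (fun p : UG (Pe v) × (ℝ × ℝ) => (kc * om n p.2.1 * om n p.2.2) *
        (h (pt v p.2.1 (sa p.1 a0)) * ψ (pt v p.2.2 (sa p.1 (pt a0 rc w0))))) := by
      have m1 : Measurable (fun p : UG (Pe v) × (ℝ × ℝ) => kc * om n p.2.1 * om n p.2.2) :=
        (measurable_const.mul (homm.comp (measurable_fst.comp measurable_snd))).mul
          (homm.comp (measurable_snd.comp measurable_snd))
      exact m1.mul (bil_est_Fm v a0 w0 hh hψ measurable_fst measurable_const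
        (measurable_fst.comp measurable_snd) (measurable_snd.comp measurable_snd))
    refine hbig.mono' hmm.aestronglyMeasurable (ae_of_all _ fun p => ?_)
    show |(kc * om n p.2.1 * om n p.2.2) *
        (h (pt v p.2.1 (sa p.1 a0)) * ψ (pt v p.2.2 (sa p.1 (pt a0 rc w0))))| ≤
          1 * ((om n p.2.1 * |kc|) * om n p.2.2)
    rw [abs_mul, abs_mul, abs_mul, abs_mul, abs_of_nonneg (hom0 _), abs_of_nonneg (hom0 _)]
    have h1 : |h (pt v p.2.1 (sa p.1 a0))| * |ψ (pt v p.2.2 (sa p.1 (pt a0 rc w0)))| ≤ 1 :=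
      mul_le_one₀ (hh1 _) (abs_nonneg _) (hψ1 _)
    have h2 : 0 ≤ |kc| * om n p.2.1 * om n p.2.2 :=
      mul_nonneg (mul_nonneg (abs_nonneg _) (hom0 _)) (hom0 _)
    have h3 := mul_le_mul_of_nonneg_left h1 h2
    linarith

theorem bil_est_c3 {T : Type*} [MeasurableSpace T] {J : ℝ → ℝ → ℝ → ℝ}
    (hJ : Measurable (fun z : ℝ × ℝ × ℝ => J z.1 z.2.1 z.2.2)) {a b c : T → ℝ}
    (ha : Measurable a) (hb : Measurable b) (hc : Measurable c) :
    Measurable (fun q => J (a q) (b q) (c q)) := by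
  have h1 : Measurable (fun q => (a q, b q, c q)) := ha.prodMk (hb.prodMk hc)
  have h2 := hJ.comp h1
  exact h2

end bil_est_sec

theorem bil_est (t : ℕ) (ht : 3 ≤ t) {Hm : ℝ} (hH : 0 ≤ Hm) :
    ∃ C : ℝ, 1 ≤ C ∧ ∃ n0 : ℕ, 6 ≤ n0 ∧ ∀ (E : Type) [NormedAddCommGroup E]
    [InnerProductSpace ℝ E] [CompleteSpace E] [FiniteDimensional ℝ E] [MeasurableSpace E]
    [BorelSpace E], ∀ n : ℕ, Module.finrank ℝ E = n → n0 ≤ n → ∀ (v : SS E) (c : ℝ), 0 ≤ c →
    Real.sqrt n * c ≤ Hm → ∀ a : ℝ, 0 ≤ a → a ≤ 1 → ∀ h ψ : SS E → ℝ, Measurable h →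
    Measurable ψ → (∀ x, |h x| ≤ 1) → (∀ x, |ψ x| ≤ 1) →
    (∀ x : SS E, t * a / Real.sqrt n < |⟪(v : E), (x : E)⟫ - c| → h x = 0 ∧ ψ x = 0) →
    |∫ x, h x * PP (rhoc t c) ψ x ∂(sm E) - kk n (rhoc t c) c c *
      ∫ w, vf n v h w * PP (-1 / (t - 1)) (vf n v ψ) w ∂(sm (Pe v))| ≤ C * a ^ 3 := by
  obtain ⟨C0, hC0, n1, hn1, hk⟩ := ker_est t ht hH
  have ht3 : (3 : ℝ) ≤ t := by exact_mod_cast ht
  refine ⟨4 * t ^ 3 * C0 * (1 + 40 * C0), ?_, max n1 7, le_trans (by norm_num) (le_max_right _ _), ?_⟩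
  · have h1 : (1 : ℝ) ≤ t ^ 3 := one_le_pow₀ (by linarith)
    have h2 : (1 : ℝ) ≤ 4 * t ^ 3 := by linarith
    have h3 : (1 : ℝ) ≤ 4 * t ^ 3 * C0 := by nlinarith
    nlinarith
  intro E _ _ _ _ _ _ n hn hnn v c hc hcH a ha0 ha1 h ψ hh hψ hh1 hψ1 hsupp
  have hnn1 : n1 ≤ n := (le_max_left _ _).trans hnn
  have hn7 : 7 ≤ n := (le_max_right _ _).trans hnn
  have hnR : (7 : ℝ) ≤ n := by exact_mod_cast hn7
  have hsq : 0 < Real.sqrt n := Real.sqrt_pos.mpr (by linarith)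
  have hsq2 : Real.sqrt n * Real.sqrt n = n := Real.mul_self_sqrt (by linarith)
  obtain ⟨hcn0, homc, hom0, hom1, -, -, homi, homI, -, homle⟩ := om_basic (n := n) (by omega)
  have hcnle := (cn_bounds (n := n) (by omega)).2
  have homn : ∀ s, om n s ≤ Real.sqrt n := fun s => (homle s).trans hcnle
  have hker := hk n hnn1 c hc hcH (t * a) (by positivity) (by nlinarith)
  have hker0 := hk n hnn1 c hc hcH 0 le_rfl (by positivity) c c (by simp) (by simp)
  set ρ := rhoc t c with hρ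
  set rc : ℝ := -1 / (t - 1) with hrc
  set kc := kk n ρ c c with hkc
  have hkc0 : 0 ≤ kc := le_trans (by positivity) hker0.1
  have hkcC : kc ≤ C0 := hker0.2.1
  have hρ1 : |ρ| < 1 := by
    have := hker0.2.2.2.2.2.2.2.2.1
    linarith
  have hrc34 : |rc| ≤ 3 / 4 := by
    rw [hrc, abs_div, abs_neg, abs_one, abs_of_pos (by linarith : (0 : ℝ) < t - 1)]
    rw [div_le_iff₀ (by linarith)]
    linarith
  have hfP : Module.finrank ℝ (Pe v) = n - 1 := finrank_Pe (by omega) v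
  obtain ⟨a0⟩ : Nonempty (SS (Pe v)) := sm_nonempty (by omega)
  have hfP2 : Module.finrank ℝ (Pe a0) = n - 2 := finrank_Pe (by omega) a0
  obtain ⟨w0⟩ : Nonempty (SS (Pe a0)) := sm_nonempty (by omega)
  have hprob : IsProbabilityMeasure (sm (Pe v)) := sm_prob (by omega)
  -- the joint function
  obtain ⟨J, hJ⟩ : ∃ J : ℝ → ℝ → ℝ → ℝ, J = bil_est_J v a0 w0 h ψ := ⟨_, rfl⟩
  have hJm : Measurable (fun z : ℝ × ℝ × ℝ => J z.1 z.2.1 z.2.2) := by
    rw [hJ]; exact bil_est_Jm v a0 w0 hh hψ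
  have hJ1 : ∀ r τ τ', |J r τ τ'| ≤ 1 := fun r τ τ' => by
    rw [hJ]; exact bil_est_J1 v a0 w0 hh1 hψ1 r τ τ'
  have hJI : ∀ r τ τ', |r| ≤ 1 → ∫ w, h (pt v τ w) * PP r (fun w' => ψ (pt v τ' w')) w ∂(sm (Pe v))
      = J r τ τ' := fun r τ τ' hr => by
    rw [hJ]; exact bil_est_JI v a0 w0 (by omega) hh hψ hh1 hψ1 hr τ τ'
  have hJd : ∀ r r' τ τ', |r| ≤ 3 / 4 → |r'| ≤ 3 / 4 → |J r τ τ' - J r' τ τ'| ≤ 40 * |r - r'| :=
    fun r r' τ τ' hr hr' => by
      rw [hJ]; exact bil_est_Jd v a0 w0 hfP (by omega) hh hψ hh1 hψ1 hr hr' τ τ'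
  -- supports
  set W : Set ℝ := Icc (c - t * a / Real.sqrt n) (c + t * a / Real.sqrt n) with hW
  have hWmem : ∀ τ, τ ∈ W ↔ |τ - c| ≤ t * a / Real.sqrt n := by
    intro τ
    rw [hW, mem_Icc, abs_le]
    constructor
    · rintro ⟨h1, h2⟩; constructor <;> linarith
    · rintro ⟨h1, h2⟩; constructor <;> linarith
  have hslice : ∀ τ, |τ| < 1 → τ ∉ W → ∀ w, h (pt v τ w) = 0 ∧ ψ (pt v τ w) = 0 := by
    intro τ hτ hτW w
    apply hsupp
    obtain ⟨h1, h2⟩ := abs_lt.mp hτ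
    rw [(pt_inner h1.le h2.le h1.le h2.le v w w).1]
    rw [hWmem, not_le] at hτW
    exact hτW
  have hJ0 : ∀ r τ τ', |τ| < 1 → |τ'| < 1 → ¬ (τ ∈ W ∧ τ' ∈ W) → J r τ τ' = 0 := by
    intro r τ τ' h1 h2 h3
    have : ∀ g, h (pt v τ (sa g a0)) * ψ (pt v τ' (sa g (pt a0 r w0))) = 0 := by
      intro g
      by_cases h4 : τ ∈ W
      · rw [(hslice τ' h2 (fun h5 => h3 ⟨h4, h5⟩) _).2, mul_zero]
      · rw [(hslice τ h1 h4 _).1, zero_mul]
    rw [hJ]
    unfold bil_est_J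
    simp only [this, integral_zero]
  -- the two integrands
  set Q : ℝ × ℝ → ℝ := fun z => om n z.1 * (om n z.2 * (kk n ρ z.1 z.2 * J (rr ρ z.1 z.2) z.1 z.2))
    with hQ
  set R : ℝ × ℝ → ℝ := fun z => om n z.1 * (om n z.2 * (kc * J rc z.1 z.2)) with hR
  have hkkm : Measurable (fun z : ℝ × ℝ => kk n ρ z.1 z.2) := by
    unfold kk gr
    refine Measurable.mul (Measurable.mul measurable_const ?_) ?_
    · exact Measurable.pow_const (by fun_prop) _
    · exact Measurable.pow_const (by fun_prop) _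
  have hrrm : Measurable (fun z : ℝ × ℝ => rr ρ z.1 z.2) := by
    unfold rr
    fun_prop
  have homm : Measurable (om n) := homc.measurable
  have hQm : Measurable Q := by
    refine (homm.comp measurable_fst).mul ((homm.comp measurable_snd).mul (hkkm.mul ?_))
    exact bil_est_c3 hJm hrrm measurable_fst measurable_snd
  have hRm : Measurable R := by
    refine (homm.comp measurable_fst).mul ((homm.comp measurable_snd).mul
      (measurable_const.mul ?_))
    exact bil_est_c3 hJm measurable_const measurable_fst measurable_snd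
  have hzero : ∀ z : ℝ × ℝ, z ∉ W ×ˢ W → Q z = 0 ∧ R z = 0 := by
    intro z hz
    by_cases h1 : |z.1| < 1
    · by_cases h2 : |z.2| < 1
      · have h3 : ∀ r, J r z.1 z.2 = 0 := fun r => hJ0 r _ _ h1 h2 (fun h4 => hz ⟨h4.1, h4.2⟩)
        constructor
        · show om n z.1 * (om n z.2 * (kk n ρ z.1 z.2 * J (rr ρ z.1 z.2) z.1 z.2)) = 0
          rw [h3]; ring
        · show om n z.1 * (om n z.2 * (kc * J rc z.1 z.2)) = 0
          rw [h3]; ring
      · have h3 := hom1 z.2 (not_lt.mp h2)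
        constructor
        · show om n z.1 * (om n z.2 * (kk n ρ z.1 z.2 * J (rr ρ z.1 z.2) z.1 z.2)) = 0
          rw [h3]; ring
        · show om n z.1 * (om n z.2 * (kc * J rc z.1 z.2)) = 0
          rw [h3]; ring
    · have h3 := hom1 z.1 (not_lt.mp h1)
      constructor
      · show om n z.1 * (om n z.2 * (kk n ρ z.1 z.2 * J (rr ρ z.1 z.2) z.1 z.2)) = 0
        rw [h3]; ring
      · show om n z.1 * (om n z.2 * (kc * J rc z.1 z.2)) = 0
        rw [h3]; ring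
  have hdom : Integrable (fun z : ℝ × ℝ => (om n z.1 * C0) * om n z.2) (volume.prod volume) :=
    (homi.mul_const C0).mul_prod homi
  have hQb : ∀ z, ‖Q z‖ ≤ (om n z.1 * C0) * om n z.2 := by
    intro z
    by_cases hz : z ∈ W ×ˢ W
    · have hkz := hker z.1 z.2 ((hWmem _).1 hz.1) ((hWmem _).1 hz.2)
      have hk0 : 0 ≤ kk n ρ z.1 z.2 := le_trans (by positivity) hkz.1
      show |om n z.1 * (om n z.2 * (kk n ρ z.1 z.2 * J (rr ρ z.1 z.2) z.1 z.2))| ≤ _
      rw [abs_mul, abs_mul, abs_mul, abs_of_nonneg (hom0 _), abs_of_nonneg (hom0 _),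
        abs_of_nonneg hk0]
      have h1 : kk n ρ z.1 z.2 * |J (rr ρ z.1 z.2) z.1 z.2| ≤ C0 * 1 :=
        mul_le_mul hkz.2.1 (hJ1 _ _ _) (abs_nonneg _) (by linarith)
      have h2 := mul_le_mul_of_nonneg_left h1 (mul_nonneg (hom0 z.1) (hom0 z.2))
      linarith
    · rw [(hzero z hz).1, norm_zero]
      have := hom0 z.1
      have := hom0 z.2
      positivity
  have hRb : ∀ z, ‖R z‖ ≤ (om n z.1 * C0) * om n z.2 := by
    intro z
    show |om n z.1 * (om n z.2 * (kc * J rc z.1 z.2))| ≤ _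
    rw [abs_mul, abs_mul, abs_mul, abs_of_nonneg (hom0 _), abs_of_nonneg (hom0 _),
      abs_of_nonneg hkc0]
    have h1 : kc * |J rc z.1 z.2| ≤ C0 * 1 :=
      mul_le_mul hkcC (hJ1 _ _ _) (abs_nonneg _) (by linarith)
    have h2 := mul_le_mul_of_nonneg_left h1 (mul_nonneg (hom0 z.1) (hom0 z.2))
    linarith
  have hQi : Integrable Q (volume.prod volume) :=
    hdom.mono' hQm.aestronglyMeasurable (ae_of_all _ hQb)
  have hRi : Integrable R (volume.prod volume) :=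
    hdom.mono' hRm.aestronglyMeasurable (ae_of_all _ hRb)
  -- left side
  have hL : ∫ x, h x * PP ρ ψ x ∂(sm E) = ∫ z, Q z ∂(volume.prod volume) := by
    rw [pairfiber hn (by omega) v hρ1 ⟨hψ, 1, hψ1⟩ ⟨hh, 1, hh1⟩, integral_prod Q hQi]
    refine integral_congr_ae (ae_of_all _ fun τ => ?_)
    refine integral_congr_ae (ae_of_all _ fun τ' => ?_)
    show om n τ * (om n τ' * (kk n ρ τ τ' * ∫ w, h (pt v τ w) *
      PP (rr ρ τ τ') (fun w' => ψ (pt v τ' w')) w ∂(sm (Pe v)))) = Q (τ, τ')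
    by_cases hz : (τ, τ') ∈ W ×ˢ W
    · have hkz := hker τ τ' ((hWmem _).1 hz.1) ((hWmem _).1 hz.2)
      rw [hJI _ _ _ (by have := hkz.2.2.2.2.1; linarith)]
    · rw [(hzero _ hz).1]
      by_cases h1 : |τ| < 1
      · by_cases h2 : |τ'| < 1
        · have h3 : ∫ w, h (pt v τ w) *
              PP (rr ρ τ τ') (fun w' => ψ (pt v τ' w')) w ∂(sm (Pe v)) = 0 := by
            by_cases h4 : τ ∈ W
            · have h5 : ∀ w', ψ (pt v τ' w') = 0 := fun w' =>
                (hslice τ' h2 (fun h5 => hz ⟨h4, h5⟩) w').2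
              have h6 : (fun w' : SS (Pe v) => ψ (pt v τ' w')) = fun _ => 0 := funext h5
              rw [h6]
              have h7 : ∀ w : SS (Pe v), PP (rr ρ τ τ') (fun _ : SS (Pe v) => (0 : ℝ)) w = 0 := by
                intro w
                unfold PP
                simp
              simp only [h7, mul_zero, integral_zero]
            · have h5 : ∀ w, h (pt v τ w) = 0 := fun w => (hslice τ h1 h4 w).1
              simp only [h5, zero_mul, integral_zero]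
          rw [h3]; ring
        · rw [hom1 τ' (not_lt.mp h2)]; ring
      · rw [hom1 τ (not_lt.mp h1)]; ring
  -- right side
  have hRR : kc * ∫ w, vf n v h w * PP rc (vf n v ψ) w ∂(sm (Pe v)) =
      ∫ z, R z ∂(volume.prod volume) := by
    rw [hR, hJ]
    exact bil_est_RR (by omega) v a0 w0 (by omega) hh hψ hh1 hψ1 (by linarith) kc
  rw [hL, hRR, ← integral_sub hQi hRi]
  -- the bound
  have hsub0 : ∀ z, z ∉ W ×ˢ W → Q z - R z = 0 := fun z hz => by
    rw [(hzero z hz).1, (hzero z hz).2, sub_zero]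
  rw [← setIntegral_eq_integral_of_forall_compl_eq_zero hsub0]
  set B : ℝ := n * (C0 * (t * a) + C0 * (40 * (C0 * (t * a) / n))) with hB
  have hbd : ∀ z ∈ W ×ˢ W, ‖Q z - R z‖ ≤ B := by
    intro z hz
    have hkz := hker z.1 z.2 ((hWmem _).1 hz.1) ((hWmem _).1 hz.2)
    obtain ⟨k1, k2, k3, k4, k5, -⟩ := hkz
    have hd := hJd (rr ρ z.1 z.2) rc z.1 z.2 (by linarith) hrc34
    have h4 : |rr ρ z.1 z.2 - rc| ≤ C0 * (t * a) / n := by
      have : rr ρ z.1 z.2 - rc = rr ρ z.1 z.2 + 1 / (t - 1) := by rw [hrc]; ring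
      rw [this]
      exact k4
    show |om n z.1 * (om n z.2 * (kk n ρ z.1 z.2 * J (rr ρ z.1 z.2) z.1 z.2)) -
      om n z.1 * (om n z.2 * (kc * J rc z.1 z.2))| ≤ B
    have e : om n z.1 * (om n z.2 * (kk n ρ z.1 z.2 * J (rr ρ z.1 z.2) z.1 z.2)) -
      om n z.1 * (om n z.2 * (kc * J rc z.1 z.2)) = (om n z.1 * om n z.2) *
        ((kk n ρ z.1 z.2 - kc) * J (rr ρ z.1 z.2) z.1 z.2 +
          kc * (J (rr ρ z.1 z.2) z.1 z.2 - J rc z.1 z.2)) := by ring
    rw [e, abs_mul, abs_of_nonneg (mul_nonneg (hom0 _) (hom0 _))]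
    have h5 : om n z.1 * om n z.2 ≤ n := by
      rw [← hsq2]
      exact mul_le_mul (homn _) (homn _) (hom0 _) hsq.le
    have h6 : |(kk n ρ z.1 z.2 - kc) * J (rr ρ z.1 z.2) z.1 z.2 +
          kc * (J (rr ρ z.1 z.2) z.1 z.2 - J rc z.1 z.2)| ≤
          C0 * (t * a) + C0 * (40 * (C0 * (t * a) / n)) := by
      refine (abs_add_le _ _).trans (add_le_add ?_ ?_)
      · rw [abs_mul]
        have := mul_le_mul k3 (hJ1 (rr ρ z.1 z.2) z.1 z.2) (abs_nonneg _)
          (by positivity)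
        linarith
      · rw [abs_mul, abs_of_nonneg hkc0]
        refine mul_le_mul hkcC (hd.trans ?_) (abs_nonneg _) (by linarith)
        linarith
    exact mul_le_mul h5 h6 (abs_nonneg _) (by linarith)
  have hWv : (volume : Measure ℝ).real W = 2 * (t * a / Real.sqrt n) := by
    rw [hW, Real.volume_real_Icc_of_le (by
      have : 0 ≤ t * a / Real.sqrt n := by positivity
      linarith)]
    ring
  have hSv : ((volume : Measure ℝ).prod (volume : Measure ℝ)).real (W ×ˢ W) =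
      (2 * (t * a / Real.sqrt n)) * (2 * (t * a / Real.sqrt n)) := by
    rw [measureReal_prod_prod, hWv]
  have hfin : ((volume : Measure ℝ).prod (volume : Measure ℝ)) (W ×ˢ W) < ⊤ := by
    rw [Measure.prod_prod]
    exact ENNReal.mul_lt_top (by rw [hW, Real.volume_Icc]; exact ENNReal.ofReal_lt_top)
      (by rw [hW, Real.volume_Icc]; exact ENNReal.ofReal_lt_top)
  have hfinal := norm_setIntegral_le_of_norm_le_const hfin hbd
  rw [hSv] at hfinal
  rw [Real.norm_eq_abs] at hfinal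
  refine hfinal.trans ?_
  have e3 : B * ((2 * (t * a / Real.sqrt n)) * (2 * (t * a / Real.sqrt n))) =
      4 * (t * a) ^ 2 * (C0 * (t * a) + C0 * (40 * (C0 * (t * a) / n))) := by
    rw [hB]
    have : (2 * (t * a / Real.sqrt n)) * (2 * (t * a / Real.sqrt n)) = 4 * (t * a) ^ 2 / n := by
      have h1 : (2 * (t * a / Real.sqrt n)) * (2 * (t * a / Real.sqrt n)) =
          4 * (t * a) ^ 2 / (Real.sqrt n * Real.sqrt n) := by
        generalize Real.sqrt n = s at *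
        have hs : s ≠ 0 := hsq.ne'
        rw [eq_div_iff (mul_ne_zero hs hs)]
        have h2 : t * a / s * s = t * a := div_mul_cancel₀ _ hs
        linear_combination (4 * (t * a / s * s) + 4 * (t * a)) * h2
      rw [h1, hsq2]
    rw [this]
    have hn0 : (n : ℝ) ≠ 0 := by linarith
    field_simp
  rw [e3]
  have h7 : C0 * (t * a) / n ≤ C0 * (t * a) := div_le_self (by positivity) (by linarith)
  have h8 : C0 * (t * a) + C0 * (40 * (C0 * (t * a) / n)) ≤
      C0 * (t * a) + C0 * (40 * (C0 * (t * a))) := by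
    have := mul_le_mul_of_nonneg_left h7 (show (0 : ℝ) ≤ C0 * 40 by linarith)
    linarith
  have h9 := mul_le_mul_of_nonneg_left h8 (show (0 : ℝ) ≤ 4 * (t * a) ^ 2 by positivity)
  refine h9.trans (le_of_eq ?_)
  ring


end CoreW

end Pool.Agent.helper440_simplex
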