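import Pool.Agent.helper440_simplex.LocalA4

set_option autoImplicit false
set_option linter.unusedSectionVars false

namespace Pool.Agent.helper440_simplex

open MeasureTheory Metric Set Filter Topology
open scoped RealInnerProductSpace

section CoreW
variable {E : Type*} [NormedAddCommGroup E] [InnerProductSpace ℝ E] [CompleteSpace E]
  [FiniteDimensional ℝ E] [MeasurableSpace E] [BorelSpace E]

/-- the net profile of a set against the cap -/
noncomputable def Mf {E : Type*} [NormedAddCommGroup E] [InnerProductSpace ℝ E] [CompleteSpace E]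
    [FiniteDimensional ℝ E] [MeasurableSpace E] [BorelSpace E] (n : ℕ) (v : SS E) (c : ℝ) (A : Set (SS E)) (w : SS (Pe v)) : ℝ := vf n v (fun x => ind A x - ind (Cp v c) x) w

/-- the threshold -/
noncomputable def al {E : Type*} [NormedAddCommGroup E] [InnerProductSpace ℝ E] [CompleteSpace E]
    [FiniteDimensional ℝ E] [MeasurableSpace E] [BorelSpace E] (t n : ℕ) (v : SS E)
    (c : ℝ) (A : Set (SS E)) (w : SS (Pe v)) : ℝ := (t - 1) * PP (-1 / (t - 1)) (Mf n v c A) w

/-- the part of the set below the threshold -/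
noncomputable def NX {E : Type*} [NormedAddCommGroup E] [InnerProductSpace ℝ E] [CompleteSpace E]
    [FiniteDimensional ℝ E] [MeasurableSpace E] [BorelSpace E] (t n : ℕ) (v : SS E)
    (c : ℝ) (A : Set (SS E)) (w : SS (Pe v)) : ℝ :=
  ∫ τ, om n τ * (ind A (pt v τ w) * (if ∫ s in c..τ, om n s < al t n v c A w then 1 else 0))

-- NX_below
theorem NX_below_int {n : ℕ} (hn : 4 ≤ n) {g : ℝ → ℝ} (hg : Measurable g) (hb : ∀ τ, |g τ| ≤ 1) :
    Integrable (fun τ => om n τ * g τ) := by
  obtain ⟨_, hc, h0, _, _, _, hi, _⟩ := om_basic hn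
  refine Integrable.mono' hi ((hc.measurable.mul hg).aestronglyMeasurable) ?_
  filter_upwards with τ
  rw [Real.norm_eq_abs, abs_mul, abs_of_nonneg (h0 τ)]
  calc om n τ * |g τ| ≤ om n τ * 1 := mul_le_mul_of_nonneg_left (hb τ) (h0 τ)
    _ = om n τ := mul_one _

theorem NX_below_ii {n : ℕ} (hn : 4 ≤ n) (a b : ℝ) : IntervalIntegrable (om n) volume a b :=
  (om_basic hn).2.1.intervalIntegrable a b

theorem NX_below_cont {n : ℕ} (hn : 4 ≤ n) (c : ℝ) :
    Continuous (fun τ => ∫ s in c..τ, om n s) :=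
  intervalIntegral.continuous_primitive (fun a b => NX_below_ii hn a b) c

theorem NX_below_sub {n : ℕ} (hn : 4 ≤ n) (c a b : ℝ) :
    (∫ s in c..b, om n s) - (∫ s in c..a, om n s) = ∫ s in a..b, om n s :=
  intervalIntegral.integral_interval_sub_left (NX_below_ii hn _ _) (NX_below_ii hn _ _)

theorem NX_below_nonneg {n : ℕ} (hn : 4 ≤ n) {a b : ℝ} (hab : a ≤ b) :
    0 ≤ ∫ s in a..b, om n s :=
  intervalIntegral.integral_nonneg hab (fun u _ => (om_basic hn).2.2.1 u)

theorem NX_below_ind {n : ℕ} {a b : ℝ} (hab : a ≤ b) :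
    ∫ τ, (Icc a b).indicator (om n) τ = ∫ s in a..b, om n s := by
  rw [integral_indicator measurableSet_Icc, integral_Icc_eq_integral_Ioc,
    intervalIntegral.integral_of_le hab]

theorem NX_below_indo {n : ℕ} {a b : ℝ} (hab : a ≤ b) :
    ∫ τ, (Ico a b).indicator (om n) τ = ∫ s in a..b, om n s := by
  rw [integral_indicator measurableSet_Ico, integral_Ico_eq_integral_Ioc,
    intervalIntegral.integral_of_le hab]

theorem NX_below_band {n : ℕ} (hn : 4 ≤ n) (c : ℝ) {p q : ℝ} (hpq : p ≤ q) :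
    ∫ τ, om n τ * (if p ≤ (∫ s in c..τ, om n s) ∧ (∫ s in c..τ, om n s) ≤ q then 1 else 0)
      ≤ q - p := by
  have hΘ := NX_below_cont hn c
  obtain ⟨_, _, h0, h1, _, _, hi, _⟩ := om_basic hn
  set D : Set ℝ := Icc (-1) 1 ∩ {τ | p ≤ (∫ s in c..τ, om n s) ∧ (∫ s in c..τ, om n s) ≤ q} with hD
  have hDc : IsCompact D := by
    apply isCompact_Icc.inter_right
    exact (isClosed_le continuous_const hΘ).inter (isClosed_le hΘ continuous_const)
  rcases D.eq_empty_or_nonempty with hE | hne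
  · have h3 : ∀ τ, om n τ * (if p ≤ (∫ s in c..τ, om n s) ∧ (∫ s in c..τ, om n s) ≤ q
        then 1 else 0) = 0 := by
      intro τ
      by_cases hτ : |τ| < 1
      · rw [if_neg, mul_zero]
        intro h
        have : τ ∈ D := ⟨⟨(abs_lt.1 hτ).1.le, (abs_lt.1 hτ).2.le⟩, h⟩
        rw [hE] at this
        exact this
      · rw [h1 τ (not_lt.1 hτ), zero_mul]
    simp only [h3, integral_zero]
    linarith
  · have h2 := hDc.sInf_mem hne
    have h3 := hDc.sSup_mem hne
    set τ1 := sInf D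
    set τ2 := sSup D
    have h12 : τ1 ≤ τ2 := csInf_le hDc.bddBelow h3
    have h4 : ∫ τ, om n τ * (if p ≤ (∫ s in c..τ, om n s) ∧ (∫ s in c..τ, om n s) ≤ q
        then 1 else 0) ≤ ∫ τ, (Icc τ1 τ2).indicator (om n) τ := by
      apply integral_mono_of_nonneg
      · filter_upwards with τ
        simp only [Pi.zero_apply]
        have := h0 τ
        split_ifs <;> linarith
      · exact hi.indicator measurableSet_Icc
      · filter_upwards with τ
        by_cases hτ : τ ∈ D
        · have h5 : τ ∈ Icc τ1 τ2 := ⟨csInf_le hDc.bddBelow hτ, le_csSup hDc.bddAbove hτ⟩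
          rw [indicator_of_mem h5]
          have := h0 τ
          split_ifs <;> linarith
        · have h6 : om n τ * (if p ≤ (∫ s in c..τ, om n s) ∧ (∫ s in c..τ, om n s) ≤ q
              then 1 else 0) = 0 := by
            by_cases hτ1 : |τ| < 1
            · rw [if_neg, mul_zero]
              intro h
              exact hτ ⟨⟨(abs_lt.1 hτ1).1.le, (abs_lt.1 hτ1).2.le⟩, h⟩
            · rw [h1 τ (not_lt.1 hτ1), zero_mul]
          rw [h6]
          exact indicator_nonneg (fun x _ => h0 x) _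
    rw [NX_below_ind h12, ← NX_below_sub hn c τ1 τ2] at h4
    have h5 := h2.2.1
    have h6 := h3.2.2
    linarith

theorem NX_below_iff {n : ℕ} (hn : 4 ≤ n) {c τ0 β : ℝ} (hτ0 : |τ0| < 1)
    (hΘ : ∫ s in c..τ0, om n s = β) (τ : ℝ) : β ≤ (∫ s in c..τ, om n s) ↔ τ0 ≤ τ := by
  constructor
  · intro h
    by_contra hlt
    push Not at hlt
    have hm : max τ (-1) < τ0 := max_lt hlt (abs_lt.1 hτ0).1
    have h1 : 0 < ∫ s in (max τ (-1))..τ0, om n s := by
      apply intervalIntegral.intervalIntegral_pos_of_pos_on (NX_below_ii hn _ _) _ hm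
      intro x hx
      apply (om_basic hn).2.2.2.2.1
      rw [abs_lt]
      exact ⟨lt_of_le_of_lt (le_max_right _ _) hx.1, hx.2.trans (abs_lt.1 hτ0).2⟩
    have h2 : 0 ≤ ∫ s in τ..(max τ (-1)), om n s := NX_below_nonneg hn (le_max_left _ _)
    have h3 : (∫ s in τ..(max τ (-1)), om n s) + (∫ s in (max τ (-1))..τ0, om n s) =
        ∫ s in τ..τ0, om n s :=
      intervalIntegral.integral_add_adjacent_intervals (NX_below_ii hn _ _) (NX_below_ii hn _ _)
    have h4 := NX_below_sub hn c τ τ0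
    linarith
  · intro h
    have h1 := NX_below_nonneg hn h
    have h2 := NX_below_sub hn c τ0 τ
    linarith

theorem NX_below_shift {n : ℕ} (hn : 4 ≤ n) {c τ0 β : ℝ} (hτ0 : |τ0| < 1)
    (hΘ : ∫ s in c..τ0, om n s = β) :
    ∫ τ, om n τ * ((if c ≤ τ then 1 else 0) - (if β ≤ ∫ s in c..τ, om n s then 1 else 0)) = β := by
  simp only [NX_below_iff hn hτ0 hΘ]
  rcases le_total c τ0 with h | h
  · have h1 : ∀ τ, om n τ * ((if c ≤ τ then 1 else 0) - (if τ0 ≤ τ then 1 else 0)) =
        (Ico c τ0).indicator (om n) τ := by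
      intro τ
      by_cases h2 : c ≤ τ
      · by_cases h3 : τ0 ≤ τ
        · rw [if_pos h2, if_pos h3, indicator_of_notMem (fun h4 => absurd h4.2 (not_lt.2 h3))]
          ring
        · have hm : τ ∈ Ico c τ0 := ⟨h2, not_le.1 h3⟩
          rw [if_pos h2, if_neg h3, indicator_of_mem hm]
          ring
      · have h3 : ¬ τ0 ≤ τ := fun h3 => h2 (h.trans h3)
        rw [if_neg h2, if_neg h3, indicator_of_notMem (fun h4 => h2 h4.1)]
        ring
    rw [integral_congr_ae (Filter.Eventually.of_forall h1), NX_below_indo h, hΘ]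
  · have h1 : ∀ τ, om n τ * ((if c ≤ τ then 1 else 0) - (if τ0 ≤ τ then 1 else 0)) =
        - (Ico τ0 c).indicator (om n) τ := by
      intro τ
      by_cases h2 : τ0 ≤ τ
      · by_cases h3 : c ≤ τ
        · rw [if_pos h2, if_pos h3, indicator_of_notMem (fun h4 => absurd h4.2 (not_lt.2 h3))]
          ring
        · have hm : τ ∈ Ico τ0 c := ⟨h2, not_le.1 h3⟩
          rw [if_pos h2, if_neg h3, indicator_of_mem hm]
          ring
      · have h3 : ¬ c ≤ τ := fun h3 => h2 (h.trans h3)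
        rw [if_neg h2, if_neg h3, indicator_of_notMem (fun h4 => h2 h4.1)]
        ring
    rw [integral_congr_ae (Filter.Eventually.of_forall h1), integral_neg, NX_below_indo h,
      ← intervalIntegral.integral_symm, hΘ]

theorem NX_below_core {n : ℕ} (hn : 4 ≤ n) {c τ0 β : ℝ} (hτ0 : |τ0| < 1)
    (hΘ : ∫ s in c..τ0, om n s = β) {e : ℝ → ℝ} (he : Measurable e)
    (he01 : ∀ τ, e τ = 0 ∨ e τ = 1) :
    0 ≤ (∫ τ, om n τ * (e τ * (if ∫ s in c..τ, om n s < β then 1 else 0))) ∧
    (∫ τ, om n τ * (e τ - if c ≤ τ then 1 else 0)) + β ≤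
      ∫ τ, om n τ * (e τ * (if ∫ s in c..τ, om n s < β then 1 else 0)) ∧
    ∀ ℓ : ℝ, ∫ τ, om n τ * |e τ - (if -ℓ ≤ ∫ s in c..τ, om n s then 1 else 0)| ≤
      2 * (∫ τ, om n τ * (e τ * (if ∫ s in c..τ, om n s < β then 1 else 0))) -
        ((∫ τ, om n τ * (e τ - if c ≤ τ then 1 else 0)) + β) + |β + ℓ| := by
  have hΘc := NX_below_cont hn c
  obtain ⟨_, _, h0, _, _, _, _, _⟩ := om_basic hn
  have hm1 : Measurable (fun τ : ℝ => if ∫ s in c..τ, om n s < β then (1 : ℝ) else 0) :=
    Measurable.ite (measurableSet_lt hΘc.measurable measurable_const) measurable_const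
      measurable_const
  have hm2 : ∀ x : ℝ, Measurable (fun τ : ℝ => if x ≤ ∫ s in c..τ, om n s then (1 : ℝ) else 0) :=
    fun x => Measurable.ite (measurableSet_le measurable_const hΘc.measurable) measurable_const
      measurable_const
  have hm3 : Measurable (fun τ : ℝ => if c ≤ τ then (1 : ℝ) else 0) :=
    Measurable.ite (measurableSet_le measurable_const measurable_id) measurable_const
      measurable_const
  have hm4 : ∀ x y : ℝ, Measurable (fun τ : ℝ => if x ≤ (∫ s in c..τ, om n s) ∧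
      (∫ s in c..τ, om n s) ≤ y then (1 : ℝ) else 0) := by
    intro x y
    exact Measurable.ite ((measurableSet_le measurable_const hΘc.measurable).inter
      (measurableSet_le hΘc.measurable measurable_const)) measurable_const measurable_const
  have i1 : Integrable (fun τ => om n τ * (e τ * (if ∫ s in c..τ, om n s < β then 1 else 0))) := by
    apply NX_below_int hn (he.mul hm1)
    intro τ
    simp only [Pi.mul_apply]
    rcases he01 τ with h | h <;> rw [h] <;> split_ifs <;> norm_num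
  have i2 : Integrable (fun τ => om n τ * ((1 - e τ) *
      (if β ≤ ∫ s in c..τ, om n s then 1 else 0))) := by
    apply NX_below_int hn ((measurable_const.sub he).mul (hm2 β))
    intro τ
    simp only [Pi.mul_apply, Pi.sub_apply]
    rcases he01 τ with h | h <;> rw [h] <;> split_ifs <;> norm_num
  have i3 : Integrable (fun τ => om n τ * (e τ - if c ≤ τ then 1 else 0)) := by
    apply NX_below_int hn (he.sub hm3)
    intro τ
    simp only [Pi.sub_apply]
    rcases he01 τ with h | h <;> rw [h] <;> split_ifs <;> norm_num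
  have i4 : Integrable (fun τ => om n τ * ((if c ≤ τ then 1 else 0) -
      (if β ≤ ∫ s in c..τ, om n s then 1 else 0))) := by
    apply NX_below_int hn (hm3.sub (hm2 β))
    intro τ
    simp only [Pi.sub_apply]
    split_ifs <;> norm_num
  have key : (∫ τ, om n τ * (e τ - if c ≤ τ then 1 else 0)) + β =
      (∫ τ, om n τ * (e τ * (if ∫ s in c..τ, om n s < β then 1 else 0))) -
        ∫ τ, om n τ * ((1 - e τ) * (if β ≤ ∫ s in c..τ, om n s then 1 else 0)) := by
    conv_lhs => rw [← NX_below_shift hn hτ0 hΘ]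
    rw [← integral_add i3 i4, ← integral_sub i1 i2]
    apply integral_congr_ae
    filter_upwards with τ
    by_cases h1 : β ≤ ∫ s in c..τ, om n s
    · rw [if_pos h1, if_neg (not_lt.2 h1)]; ring
    · rw [if_neg h1, if_pos (not_le.1 h1)]; ring
  have hY : 0 ≤ ∫ τ, om n τ * ((1 - e τ) * (if β ≤ ∫ s in c..τ, om n s then 1 else 0)) := by
    apply integral_nonneg
    intro τ
    apply mul_nonneg (h0 τ)
    rcases he01 τ with h | h <;> rw [h] <;> split_ifs <;> norm_num
  refine ⟨?_, ?_, ?_⟩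
  · apply integral_nonneg
    intro τ
    apply mul_nonneg (h0 τ)
    rcases he01 τ with h | h <;> rw [h] <;> split_ifs <;> norm_num
  · linarith
  · intro ℓ
    have hb := NX_below_band hn c (min_le_max : min β (-ℓ) ≤ max β (-ℓ))
    have hbb : max β (-ℓ) - min β (-ℓ) = |β + ℓ| := by
      rw [max_sub_min_eq_abs]
      rw [abs_sub_comm]
      congr 1; ring
    rw [hbb] at hb
    have i5 : Integrable (fun τ => om n τ * (if min β (-ℓ) ≤ (∫ s in c..τ, om n s) ∧
        (∫ s in c..τ, om n s) ≤ max β (-ℓ) then 1 else 0)) := by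
      apply NX_below_int hn (hm4 _ _)
      intro τ
      split_ifs <;> norm_num
    have h5 : ∫ τ, om n τ * |e τ - (if -ℓ ≤ ∫ s in c..τ, om n s then 1 else 0)| ≤
        ∫ τ, ((om n τ * (e τ * (if ∫ s in c..τ, om n s < β then 1 else 0)) +
          om n τ * ((1 - e τ) * (if β ≤ ∫ s in c..τ, om n s then 1 else 0))) +
          om n τ * (if min β (-ℓ) ≤ (∫ s in c..τ, om n s) ∧
            (∫ s in c..τ, om n s) ≤ max β (-ℓ) then 1 else 0)) := by
      apply integral_mono_of_nonneg
      · filter_upwards with τ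
        exact mul_nonneg (h0 τ) (abs_nonneg _)
      · exact (i1.add i2).add i5
      · filter_upwards with τ
        rw [← mul_add, ← mul_add]
        apply mul_le_mul_of_nonneg_left _ (h0 τ)
        by_cases h1 : β ≤ ∫ s in c..τ, om n s
        · by_cases h2 : -ℓ ≤ ∫ s in c..τ, om n s
          · rw [if_pos h2, if_pos h1, if_neg (not_lt.2 h1)]
            rcases he01 τ with h | h <;> rw [h] <;> split_ifs <;> norm_num
          · have h3 : min β (-ℓ) ≤ (∫ s in c..τ, om n s) ∧
                (∫ s in c..τ, om n s) ≤ max β (-ℓ) :=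
              ⟨(min_le_left _ _).trans h1, (not_le.1 h2).le.trans (le_max_right _ _)⟩
            rw [if_neg h2, if_pos h1, if_neg (not_lt.2 h1), if_pos h3]
            rcases he01 τ with h | h <;> rw [h] <;> norm_num
        · by_cases h2 : -ℓ ≤ ∫ s in c..τ, om n s
          · have h3 : min β (-ℓ) ≤ (∫ s in c..τ, om n s) ∧
                (∫ s in c..τ, om n s) ≤ max β (-ℓ) :=
              ⟨(min_le_right _ _).trans h2, (not_le.1 h1).le.trans (le_max_left _ _)⟩
            rw [if_pos h2, if_neg h1, if_pos (not_le.1 h1), if_pos h3]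
            rcases he01 τ with h | h <;> rw [h] <;> norm_num
          · rw [if_neg h2, if_neg h1, if_pos (not_le.1 h1)]
            rcases he01 τ with h | h <;> rw [h] <;> split_ifs <;> norm_num
    have i12 : Integrable (fun τ => om n τ * (e τ * (if ∫ s in c..τ, om n s < β then 1 else 0)) +
          om n τ * ((1 - e τ) * (if β ≤ ∫ s in c..τ, om n s then 1 else 0))) := i1.add i2
    rw [integral_add i12 i5, integral_add i1 i2] at h5
    linarith

theorem NX_below_Mb {n : ℕ} (hn : 4 ≤ n) {c δ η : ℝ} (hδ : 0 ≤ δ) (hη : 0 ≤ η) {e : ℝ → ℝ}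
    (he : Measurable e) (he01 : ∀ τ, e τ = 0 ∨ e τ = 1)
    (h1 : ∀ τ, |τ| < 1 → τ < c - δ → e τ = 0) (h2 : ∀ τ, |τ| < 1 → c + η ≤ τ → e τ = 1) :
    |∫ τ, om n τ * (e τ - if c ≤ τ then 1 else 0)| ≤ ∫ s in (c - δ)..(c + η), om n s ∧
    ∫ τ, om n τ * (e τ - if c ≤ τ then 1 else 0) ≤ ∫ s in (c - δ)..c, om n s := by
  obtain ⟨_, _, h0, hz, _, _, hi, _⟩ := om_basic hn
  have hm3 : Measurable (fun τ : ℝ => if c ≤ τ then (1 : ℝ) else 0) :=
    Measurable.ite (measurableSet_le measurable_const measurable_id) measurable_const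
      measurable_const
  have i3 : Integrable (fun τ => om n τ * (e τ - if c ≤ τ then 1 else 0)) := by
    apply NX_below_int hn (he.sub hm3)
    intro τ
    simp only [Pi.sub_apply]
    rcases he01 τ with h | h <;> rw [h] <;> split_ifs <;> norm_num
  constructor
  · rw [← NX_below_ind (n := n) (by linarith : c - δ ≤ c + η)]
    refine (abs_integral_le_integral_abs).trans ?_
    apply integral_mono i3.abs (hi.indicator measurableSet_Icc)
    intro τ
    have hτ0 := h0 τ
    have hnn : 0 ≤ (Icc (c - δ) (c + η)).indicator (om n) τ := indicator_nonneg (fun x _ => h0 x) _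
    simp only
    by_cases hτ : |τ| < 1
    · by_cases h3 : τ < c - δ
      · rw [h1 τ hτ h3, if_neg (by linarith)]
        simpa using hnn
      · by_cases h4 : c + η ≤ τ
        · rw [h2 τ hτ h4, if_pos (by linarith)]
          simpa using hnn
        · have hmem : τ ∈ Icc (c - δ) (c + η) := ⟨not_lt.1 h3, (not_le.1 h4).le⟩
          rw [indicator_of_mem hmem, abs_mul, abs_of_nonneg hτ0]
          apply mul_le_of_le_one_right hτ0
          rcases he01 τ with h | h <;> rw [h] <;> split_ifs <;> norm_num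
    · rw [hz τ (not_lt.1 hτ), zero_mul, abs_zero]
      exact hnn
  · rw [← NX_below_indo (n := n) (by linarith : c - δ ≤ c)]
    apply integral_mono i3 (hi.indicator measurableSet_Ico)
    intro τ
    have hτ0 := h0 τ
    have hnn : 0 ≤ (Ico (c - δ) c).indicator (om n) τ := indicator_nonneg (fun x _ => h0 x) _
    simp only
    by_cases hτ : |τ| < 1
    · by_cases h3 : τ < c - δ
      · rw [h1 τ hτ h3, if_neg (by linarith)]
        simpa using hnn
      · by_cases h4 : c ≤ τ
        · rw [if_pos h4]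
          refine le_trans ?_ hnn
          rcases he01 τ with h | h <;> rw [h] <;> nlinarith
        · have hmem : τ ∈ Ico (c - δ) c := ⟨not_lt.1 h3, not_le.1 h4⟩
          rw [indicator_of_mem hmem, if_neg h4]
          rcases he01 τ with h | h <;> rw [h] <;> nlinarith
    · rw [hz τ (not_lt.1 hτ), zero_mul]
      exact hnn

theorem NX_below_lo {n : ℕ} (hn : 4 ≤ n) {a b m : ℝ} (hab : a ≤ b)
    (h : ∀ s, a ≤ s → s ≤ b → m ≤ om n s) : (b - a) * m ≤ ∫ s in a..b, om n s := by
  have h1 := intervalIntegral.integral_mono_on (μ := volume) (f := fun _ => m) (g := om n) hab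
    (intervalIntegrable_const) (NX_below_ii hn a b) (fun s hs => h s hs.1 hs.2)
  rwa [intervalIntegral.integral_const, smul_eq_mul] at h1

theorem NX_below_up {n : ℕ} (hn : 4 ≤ n) {a b m : ℝ} (hab : a ≤ b)
    (h : ∀ s, a ≤ s → s ≤ b → om n s ≤ m) : ∫ s in a..b, om n s ≤ (b - a) * m := by
  have h1 := intervalIntegral.integral_mono_on (μ := volume) (g := fun _ => m) (f := om n) hab
    (NX_below_ii hn a b) (intervalIntegrable_const) (fun s hs => h s hs.1 hs.2)
  rwa [intervalIntegral.integral_const, smul_eq_mul] at h1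

section NX_below_sec
variable {E : Type*} [NormedAddCommGroup E] [InnerProductSpace ℝ E] [CompleteSpace E]
  [FiniteDimensional ℝ E] [MeasurableSpace E] [BorelSpace E]

theorem NX_below_indm {A : Set (SS E)} (hA : MeasurableSet A) : Measurable (ind A) :=
  measurable_const.indicator hA

theorem NX_below_ind01 (A : Set (SS E)) (x : SS E) : ind A x = 0 ∨ ind A x = 1 := by
  unfold ind
  by_cases h : x ∈ A
  · right; rw [indicator_of_mem h]
  · left; rw [indicator_of_notMem h]

theorem NX_below_cp (v : SS E) (c : ℝ) : MeasurableSet (Cp v c) := by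
  apply IsClosed.measurableSet
  exact isClosed_le continuous_const (continuous_const.inner continuous_subtype_val)

theorem NX_below_Mf {n : ℕ} (hn : 4 ≤ n) (v : SS E) (c : ℝ) (A : Set (SS E)) (w : SS (Pe v)) :
    Mf n v c A w = ∫ τ, om n τ * (ind A (pt v τ w) - if c ≤ τ then 1 else 0) := by
  unfold Mf vf
  apply integral_congr_ae
  filter_upwards with τ
  by_cases hτ : |τ| < 1
  · have h1 := (pt_inner (abs_lt.1 hτ).1.le (abs_lt.1 hτ).2.le (abs_lt.1 hτ).1.le
      (abs_lt.1 hτ).2.le v w w).1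
    have h2 : ind (Cp v c) (pt v τ w) = if c ≤ τ then 1 else 0 := by
      unfold ind Cp
      rw [indicator_apply]
      simp only [mem_ofPred_eq, h1]
    rw [h2]
  · rw [(om_basic hn).2.2.2.1 τ (not_lt.1 hτ), zero_mul, zero_mul]

theorem NX_below_BM {n : ℕ} (hn : 4 ≤ n) (v : SS E) (c : ℝ) {A : Set (SS E)}
    (hA : MeasurableSet A) {B : ℝ} (hB : ∀ w, |Mf n v c A w| ≤ B) : BM (Mf n v c A) := by
  refine ⟨?_, B, hB⟩
  unfold Mf vf
  have h1 : Measurable (Function.uncurry (fun (w : SS (Pe v)) (τ : ℝ) =>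
      om n τ * (ind A (pt v τ w) - ind (Cp v c) (pt v τ w)))) := by
    have h2 : Measurable (fun p : SS (Pe v) × ℝ => pt v p.2 p.1) :=
      ((pt_cont v).comp (continuous_snd.prodMk continuous_fst)).measurable
    have h3 : Measurable (fun p : SS (Pe v) × ℝ => om n p.2) :=
      (om_basic hn).2.1.measurable.comp measurable_snd
    exact h3.mul (((NX_below_indm hA).comp h2).sub ((NX_below_indm (NX_below_cp v c)).comp h2))
  exact (h1.stronglyMeasurable.integral_prod_right (ν := volume)).measurable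

end NX_below_sec

theorem NX_below (t : ℕ) (ht : 3 ≤ t) {Hm : ℝ} (hH : 0 ≤ Hm) :
    ∃ a0 : ℝ, 0 < a0 ∧ ∃ n0 : ℕ, 6 ≤ n0 ∧ ∀ (E : Type) [NormedAddCommGroup E]
    [InnerProductSpace ℝ E] [CompleteSpace E] [FiniteDimensional ℝ E] [MeasurableSpace E]
    [BorelSpace E], ∀ n : ℕ, Module.finrank ℝ E = n → n0 ≤ n → ∀ (v : SS E) (c : ℝ), 0 ≤ c →
    Real.sqrt n * c ≤ Hm → ∀ a : ℝ, 0 < a → a ≤ a0 → ∀ A : Set (SS E), MeasurableSet A →
    (∀ x ∈ A, c - a / Real.sqrt n ≤ ⟪(v : E), (x : E)⟫) →
    (∀ x : SS E, c + t * a / Real.sqrt n ≤ ⟪(v : E), (x : E)⟫ → x ∈ A) →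
    (∀ w, |Mf n v c A w| ≤ (t + 1) * a ∧ 0 ≤ NX t n v c A w ∧
      Mf n v c A w + al t n v c A w ≤ NX t n v c A w ∧
      al t n v c A w ≤ ∫ s in c..(c + t * a / Real.sqrt n), om n s) ∧
    ∀ (ℓ : ℝ) (w : SS (Pe v)),
      ∫ τ, om n τ * |ind A (pt v τ w) - (if -ℓ ≤ ∫ s in c..τ, om n s then 1 else 0)|
        ≤ 2 * NX t n v c A w - (Mf n v c A w + al t n v c A w) + |al t n v c A w + ℓ| := by
  have ht' : (3 : ℝ) ≤ t := by exact_mod_cast ht
  set R : ℝ := Hm + t + 1 with hRdef
  have hR : 0 ≤ R := by rw [hRdef]; linarith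
  have hR1 : 1 ≤ R := by rw [hRdef]; linarith
  obtain ⟨n1, hn1, hwin⟩ := om_window hR
  obtain ⟨n2, hn2, hlip⟩ := om_lip hR
  set κ : ℝ := Real.exp (-R ^ 2) / 10 with hκdef
  have hκ : 0 < κ := by positivity
  have hκ1 : κ ≤ 1 := by
    have h1 : Real.exp (-R ^ 2) ≤ 1 := Real.exp_le_one_iff.2 (neg_nonpos.2 (sq_nonneg R))
    rw [hκdef]; linarith
  set Dn : ℝ := R * (t ^ 2 + t) + t ^ 2 + 1 with hDdef
  have hRt : 0 ≤ R * ((t : ℝ) ^ 2 + t) := mul_nonneg hR (by positivity)
  have ht2 : 0 ≤ (t : ℝ) ^ 2 := sq_nonneg _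
  have hDn : 1 ≤ Dn := by rw [hDdef]; linarith
  refine ⟨κ / Dn, by positivity, max (max n1 n2) (max 6 (⌈(Hm + 1) ^ 2⌉₊ + 1)),
    (le_max_left 6 _).trans (le_max_right _ _), ?_⟩
  intro E _ _ _ _ _ _ n hn hn0 v c hc0 hcn a ha0 ha1 A hA hA1 hA2
  have hn1' : n1 ≤ n := ((le_max_left _ _).trans (le_max_left _ _)).trans hn0
  have hn2' : n2 ≤ n := ((le_max_right _ _).trans (le_max_left _ _)).trans hn0
  have h6 : 6 ≤ n := ((le_max_left _ _).trans (le_max_right _ _)).trans hn0
  have h7 : ⌈(Hm + 1) ^ 2⌉₊ + 1 ≤ n := ((le_max_right _ _).trans (le_max_right _ _)).trans hn0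
  have h7' : (Hm + 1) ^ 2 < n := by
    have h8 : (Hm + 1) ^ 2 ≤ (⌈(Hm + 1) ^ 2⌉₊ : ℝ) := Nat.le_ceil _
    have h9 : ((⌈(Hm + 1) ^ 2⌉₊ + 1 : ℕ) : ℝ) ≤ n := by exact_mod_cast h7
    push_cast at h9
    linarith
  have h4 : 4 ≤ n := by omega
  have hnpos : (0 : ℝ) < n := by positivity
  have hs0 : 0 < Real.sqrt n := Real.sqrt_pos.2 hnpos
  have hsq : Real.sqrt n * Real.sqrt n = n := Real.mul_self_sqrt hnpos.le
  have hsH : Hm + 1 < Real.sqrt n := Real.lt_sqrt_of_sq_lt h7'
  have haD : a * Dn ≤ κ := by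
    rwa [le_div_iff₀ (by linarith)] at ha1
  have ha_1 : a ≤ 1 := by
    have h8 : a * 1 ≤ a * Dn := mul_le_mul_of_nonneg_left hDn ha0.le
    linarith
  have haD2 : a * Dn = R * a * ((t : ℝ) ^ 2 + t) + a * (t : ℝ) ^ 2 + a := by rw [hDdef]; ring
  have haRt : 0 ≤ R * a * ((t : ℝ) ^ 2 + t) := mul_nonneg (mul_nonneg hR ha0.le) (by positivity)
  have hat2 : 0 ≤ a * (t : ℝ) ^ 2 := mul_nonneg ha0.le ht2
  rw [haD2] at haD
  have hc1 : c ≤ Hm / Real.sqrt n := by
    rw [le_div_iff₀ hs0, mul_comm]; exact hcn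
  obtain ⟨hcn0, _, h0, _, _, _, _, _, _, hup⟩ := om_basic h4
  have hup' : ∀ s, om n s ≤ Real.sqrt n := fun s => (hup s).trans (cn_bounds h4).2
  set i1 : ℝ := 1 / Real.sqrt n with hi1
  have hi1p : 0 < i1 := by positivity
  have hi1s : i1 * Real.sqrt n = 1 := by rw [hi1]; field_simp
  have htp : (0 : ℝ) < t := by linarith
  have hti0 : 0 ≤ (t : ℝ) * i1 := by positivity
  have hti1 : i1 ≤ t * i1 := le_mul_of_one_le_left hi1p.le (by linarith)
  have hHi : 0 ≤ Hm * i1 := mul_nonneg hH hi1p.le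
  have hwinR : ∀ s, c - i1 ≤ s → s ≤ c + t * i1 → |s| ≤ R / Real.sqrt n := by
    intro s hs1 hs2
    have e1 : R / Real.sqrt n = R * i1 := by rw [hi1]; ring
    have e2 : Hm / Real.sqrt n = Hm * i1 := by rw [hi1]; ring
    rw [e2] at hc1
    have e3 : (Hm + t + 1) * i1 = Hm * i1 + t * i1 + i1 := by ring
    rw [e1, abs_le, hRdef, e3]
    constructor <;> linarith
  have hlow : ∀ s, c - i1 ≤ s → s ≤ c + t * i1 → Real.sqrt n * κ ≤ om n s := fun s hs1 hs2 =>
    hwin n hn1' s (hwinR s hs1 hs2)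
  -- the window
  set δ : ℝ := a / Real.sqrt n with hδdef
  have hδ : 0 < δ := by positivity
  have hδa : δ * Real.sqrt n = a := by rw [hδdef]; field_simp
  have hδi : δ ≤ i1 := by
    rw [hδdef, hi1]; gcongr
  have htδ : (t : ℝ) * a / Real.sqrt n = t * δ := by rw [hδdef]; ring
  rw [htδ] at hA2
  have htδ0 : 0 ≤ (t : ℝ) * δ := by positivity
  have htδi : t * δ ≤ t * i1 := mul_le_mul_of_nonneg_left hδi htp.le
  -- functions on the fibre
  have hEm : ∀ w : SS (Pe v), Measurable (fun τ => ind A (pt v τ w)) := by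
    intro w
    exact (NX_below_indm hA).comp
      ((pt_cont v).comp (continuous_id.prodMk continuous_const)).measurable
  have hE1 : ∀ w : SS (Pe v), ∀ τ, |τ| < 1 → τ < c - δ → ind A (pt v τ w) = 0 := by
    intro w τ hτ hlt
    have hin := (pt_inner (abs_lt.1 hτ).1.le (abs_lt.1 hτ).2.le (abs_lt.1 hτ).1.le
      (abs_lt.1 hτ).2.le v w w).1
    unfold ind
    rw [indicator_of_notMem]
    intro hmem
    have := hA1 _ hmem
    rw [hin] at this
    linarith
  have hE2 : ∀ w : SS (Pe v), ∀ τ, |τ| < 1 → c + t * δ ≤ τ → ind A (pt v τ w) = 1 := by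
    intro w τ hτ hlt
    have hin := (pt_inner (abs_lt.1 hτ).1.le (abs_lt.1 hτ).2.le (abs_lt.1 hτ).1.le
      (abs_lt.1 hτ).2.le v w w).1
    unfold ind
    rw [indicator_of_mem]
    apply hA2
    rw [hin]; exact hlt
  have hMb := fun w : SS (Pe v) => NX_below_Mb h4 hδ.le (by positivity : (0:ℝ) ≤ t * δ) (hEm w)
    (fun τ => NX_below_ind01 A _) (hE1 w) (hE2 w)
  have hM1 : ∀ w, |Mf n v c A w| ≤ (t + 1) * a := by
    intro w
    rw [NX_below_Mf h4]
    refine (hMb w).1.trans ?_
    have h8 := NX_below_up h4 (by linarith : c - δ ≤ c + t * δ) (m := Real.sqrt n)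
      (fun s _ _ => hup' s)
    refine h8.trans (le_of_eq ?_)
    rw [← hδa]; ring
  have hM2 : ∀ w, Mf n v c A w ≤ ∫ s in (c - δ)..c, om n s := by
    intro w
    rw [NX_below_Mf h4]
    exact (hMb w).2
  -- the averaging operator on the fibre
  have hBM : BM (Mf n v c A) := NX_below_BM h4 v c hA hM1
  have hfin : 3 ≤ Module.finrank ℝ (Pe v) := by
    have h8 : Module.finrank ℝ E = (n - 1) + 1 := by omega
    rw [finrank_Pe h8 v]; omega
  obtain ⟨_, _, _, hPle, hPge, _, _⟩ := PP_basic hfin (-1 / ((t : ℝ) - 1)) hBM hBM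
  have ht1 : (0 : ℝ) < t - 1 := by linarith
  have hal1 : ∀ w, al t n v c A w ≤ (t - 1) * ∫ s in (c - δ)..c, om n s := by
    intro w
    unfold al
    exact mul_le_mul_of_nonneg_left (hPle _ w hM2) ht1.le
  have hal2 : ∀ w, |al t n v c A w| ≤ (t - 1) * ((t + 1) * a) := by
    intro w
    unfold al
    rw [abs_mul, abs_of_pos ht1]
    apply mul_le_mul_of_nonneg_left _ ht1.le
    rw [abs_le]
    exact ⟨hPge _ w (fun y => (abs_le.1 (hM1 y)).1), hPle _ w (fun y => (abs_le.1 (hM1 y)).2)⟩
  have hal3 : ∀ w, |al t n v c A w| ≤ κ := by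
    intro w
    refine (hal2 w).trans ?_
    have h8 : ((t : ℝ) - 1) * ((t + 1) * a) = a * (t : ℝ) ^ 2 - a := by ring
    rw [h8]
    linarith
  -- the comparison of the two windows
  have hcmp : (t - 1) * ∫ s in (c - δ)..c, om n s ≤ ∫ s in c..(c + t * δ), om n s := by
    have hlc := hlip n hn2'
    have hcR : |c| ≤ R / Real.sqrt n := hwinR c (by linarith) (by linarith)
    have h8 := NX_below_up h4 (by linarith : c - δ ≤ c) (m := om n c + R * n * δ)
      (fun s hs1 hs2 => by
        have h9 := hlc s c (hwinR s (by linarith) (by linarith)) hcR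
        have h10 : |s - c| ≤ δ := by rw [abs_le]; constructor <;> linarith
        have h11 := (abs_le.1 h9).2
        have h12 : R * n * |s - c| ≤ R * n * δ := by gcongr
        linarith)
    have h13 := NX_below_lo h4 (by linarith : c ≤ c + t * δ) (m := om n c - R * n * (t * δ))
      (fun s hs1 hs2 => by
        have h9 := hlc s c (hwinR s (by linarith) (by linarith)) hcR
        have h10 : |s - c| ≤ t * δ := by rw [abs_le]; constructor <;> linarith
        have h11 := (abs_le.1 h9).1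
        have h12 : R * n * |s - c| ≤ R * n * (t * δ) := by gcongr
        linarith)
    have h14 : R * n * δ = Real.sqrt n * (R * a) := by
      calc R * n * δ = R * (Real.sqrt n * Real.sqrt n) * δ := by rw [hsq]
        _ = Real.sqrt n * (R * (δ * Real.sqrt n)) := by ring
        _ = Real.sqrt n * (R * a) := by rw [hδa]
    have h15 := hlow c (by linarith) (by linarith)
    have h16 : R * a * ((t : ℝ) ^ 2 + t) ≤ κ := by linarith
    have h17 : Real.sqrt n * (R * a) * ((t : ℝ) ^ 2 + t) ≤ om n c := by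
      have h18 : Real.sqrt n * (R * a * ((t : ℝ) ^ 2 + t)) ≤ Real.sqrt n * κ :=
        mul_le_mul_of_nonneg_left h16 hs0.le
      have h19 : Real.sqrt n * (R * a) * ((t : ℝ) ^ 2 + t) =
        Real.sqrt n * (R * a * ((t : ℝ) ^ 2 + t)) := by ring
      rw [h19]; linarith
    have h18 : (t - 1) * (δ * (om n c + Real.sqrt n * (R * a))) ≤
        (t * δ) * (om n c - t * (Real.sqrt n * (R * a))) := by
      have h19 : 0 ≤ Real.sqrt n * (R * a) := by positivity
      have h20 := mul_nonneg hδ.le (sub_nonneg.2 h17)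
      have h21 := mul_nonneg hδ.le h19
      have h22 : (t * δ) * (om n c - t * (Real.sqrt n * (R * a))) -
          (t - 1) * (δ * (om n c + Real.sqrt n * (R * a))) =
          δ * (om n c - Real.sqrt n * (R * a) * ((t : ℝ) ^ 2 + t)) +
            δ * (Real.sqrt n * (R * a)) := by ring
      linarith
    have h20 : (t - 1) * ∫ s in (c - δ)..c, om n s ≤
        (t - 1) * (δ * (om n c + Real.sqrt n * (R * a))) := by
      apply mul_le_mul_of_nonneg_left _ ht1.le
      rw [h14] at h8
      refine h8.trans (le_of_eq ?_)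
      ring
    have h21 : R * n * (t * δ) = t * (Real.sqrt n * (R * a)) := by
      rw [← h14]; ring
    rw [h21] at h13
    have h22 : (c + t * δ - c) * (om n c - t * (Real.sqrt n * (R * a))) =
        (t * δ) * (om n c - t * (Real.sqrt n * (R * a))) := by ring
    rw [h22] at h13
    linarith
  -- the point with the given value of the primitive
  have hpt : ∀ w, ∃ τ0 : ℝ, |τ0| < 1 ∧ ∫ s in c..τ0, om n s = al t n v c A w := by
    intro w
    have h8 := hal3 w
    have h9 : al t n v c A w ∈ Icc (∫ s in c..(c - i1), om n s) (∫ s in c..(c + i1), om n s) := by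
      constructor
      · have h10 := NX_below_lo h4 (by linarith : c - i1 ≤ c) (m := Real.sqrt n * κ)
          (fun s hs1 hs2 => hlow s hs1 (by linarith))
        rw [intervalIntegral.integral_symm]
        have h11 : (c - (c - i1)) * (Real.sqrt n * κ) = κ := by
          have : (c - (c - i1)) * (Real.sqrt n * κ) = (i1 * Real.sqrt n) * κ := by ring
          rw [this, hi1s, one_mul]
        rw [h11] at h10
        linarith [(abs_le.1 h8).1]
      · have h10 := NX_below_lo h4 (by linarith : c ≤ c + i1) (m := Real.sqrt n * κ)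
          (fun s hs1 hs2 => hlow s (by linarith) (by linarith))
        have h11 : (c + i1 - c) * (Real.sqrt n * κ) = κ := by
          have : (c + i1 - c) * (Real.sqrt n * κ) = (i1 * Real.sqrt n) * κ := by ring
          rw [this, hi1s, one_mul]
        rw [h11] at h10
        linarith [(abs_le.1 h8).2]
    obtain ⟨τ0, hτ1, hτ2⟩ := intermediate_value_Icc (by linarith : c - i1 ≤ c + i1)
      (NX_below_cont h4 c).continuousOn h9
    refine ⟨τ0, ?_, hτ2⟩
    have e2 : Hm / Real.sqrt n = Hm * i1 := by rw [hi1]; ring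
    rw [e2] at hc1
    have h12 : (Hm + 1) * i1 < 1 := by
      rw [hi1, mul_one_div, div_lt_one hs0]; exact hsH
    have h13 : (Hm + 1) * i1 = Hm * i1 + i1 := by ring
    rw [h13] at h12
    have h14 := hτ1.1
    have h15 := hτ1.2
    rw [abs_lt]
    constructor <;> linarith
  have hcore := fun (w : SS (Pe v)) (τ0 : ℝ) (hτ0 : |τ0| < 1)
    (hΘ : ∫ s in c..τ0, om n s = al t n v c A w) =>
    NX_below_core h4 hτ0 hΘ (hEm w) (fun τ => NX_below_ind01 A _)
  rw [htδ]
  refine ⟨fun w => ?_, fun ℓ w => ?_⟩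
  · obtain ⟨τ0, hτ0, hΘ⟩ := hpt w
    obtain ⟨k1, k2, _⟩ := hcore w τ0 hτ0 hΘ
    refine ⟨hM1 w, k1, ?_, (hal1 w).trans hcmp⟩
    rw [NX_below_Mf h4]
    exact k2
  · obtain ⟨τ0, hτ0, hΘ⟩ := hpt w
    obtain ⟨_, _, k3⟩ := hcore w τ0 hτ0 hΘ
    rw [NX_below_Mf h4]
    exact k3 ℓ


end CoreW

end Pool.Agent.helper440_simplex
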