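import Pool.Agent.helper440_simplex.Avg
import Pool.Agent.helper440_simplex.Crit

/-! # The inequality for continuously differentiable functions -/

set_option autoImplicit false
set_option linter.unusedSectionVars false

namespace Pool.Agent.helper440_simplex

open MeasureTheory Metric Set Filter Topology
open scoped RealInnerProductSpace

variable {t : ℕ} {E : Type*} [NormedAddCommGroup E] [InnerProductSpace ℝ E] [CompleteSpace E]
  [FiniteDimensional ℝ E]

theorem PhiF_continuousOn {B : ℝ} (hB : 0 ≤ B) (S0 : ℝ) (N : ℕ) (c : ℝ) (s : Fin t → SS E)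
    {K : Set (VV E)} (hK : ∀ ψ ∈ K, ∀ x, (ψ x).1 ∈ Icc (-Psi B) (Psi B)) :
    ContinuousOn (PhiF S0 N c s) K := by
  have hL := LL_nonneg t S0 N c hB
  refine (LipschitzOnWith.of_dist_le_mul (K := Real.toNNReal (LL t S0 N c B * t))
    fun ψ hψ χ hχ => ?_).continuousOn
  rw [Real.coe_toNNReal _ (by positivity)]
  have hψc : ∀ g, val s ψ g ∈ cube t B := fun g i => hK ψ hψ _
  have hχc : ∀ g, val s χ g ∈ cube t B := fun g i => hK χ hχ _
  have i1 := hm_integrable (FF_comp_cont hB S0 N c (val_cont s ψ) hψc)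
  have i2 := hm_integrable (FF_comp_cont hB S0 N c (val_cont s χ) hχc)
  unfold PhiF
  rw [Real.dist_eq, ← integral_sub i1 i2]
  have := norm_integral_le_of_norm_le_const (μ := hm E) (C := LL t S0 N c B * t * dist ψ χ)
    (f := fun g => FF S0 N c (val s ψ g) - FF S0 N c (val s χ g))
    (Eventually.of_forall fun g => ?_)
  · simpa using this
  · refine (FF_lip hB S0 N c (hχc g) (hψc g)).trans ?_
    rw [mul_assoc]
    refine mul_le_mul_of_nonneg_left ?_ hL
    calc ∑ l, |val s ψ g l - val s χ g l| ≤ ∑ _l : Fin t, dist ψ χ := by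
          refine Finset.sum_le_sum fun l _ => ?_
          have h1 := ContinuousMap.dist_apply_le_dist (f := ψ) (g := χ) (sa g (s l))
          rw [Prod.dist_eq] at h1
          have h2 := (le_max_left _ _).trans h1
          rwa [Real.dist_eq] at h2
      _ = _ := by simp

theorem sa_trans (hn : 1 ≤ Module.finrank ℝ E) (x y : SS E) : ∃ g : UG E, sa g x = y := by
  obtain ⟨n, hn⟩ : ∃ n, Module.finrank ℝ E = n + 1 := ⟨Module.finrank ℝ E - 1, by omega⟩
  obtain ⟨b, hb⟩ := exists_onb1 hn (x : E) (norm_eq_of_mem_sphere x)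
  obtain ⟨c, hc⟩ := exists_onb1 hn (y : E) (norm_eq_of_mem_sphere y)
  obtain ⟨h, hh⟩ := exists_UG b c
  have h0 := hh 0
  rw [hb, hc] at h0
  exact ⟨h, Subtype.ext (by rw [sa_coe, h0])⟩

theorem zero_of_int {Y : SS E → E} (hn : 1 ≤ Module.finrank ℝ E) (hY : Continuous Y) (x0 : SS E)
    (h : ∫ g, ‖Y (sa g x0)‖ ^ 2 ∂(hm E) ≤ 0) (x : SS E) : Y x = 0 := by
  have hc : Continuous (fun g : UG E => ‖Y (sa g x0)‖ ^ 2) := (field_cont hY x0).norm.pow 2
  have h1 : ∫ g, ‖Y (sa g x0)‖ ^ 2 ∂(hm E) = 0 :=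
    le_antisymm h (integral_nonneg fun g => sq_nonneg _)
  rw [integral_eq_zero_iff_of_nonneg (fun g => sq_nonneg _) (hm_integrable hc)] at h1
  have h2 := (Continuous.ae_eq_iff_eq (hm E) hc continuous_zero).1 h1
  obtain ⟨g, hg⟩ := sa_trans hn x0 x
  have h3 := congrFun h2 g
  simp only [hg, Pi.zero_apply] at h3
  exact norm_eq_zero.1 (pow_eq_zero_iff (two_ne_zero) |>.1 h3)

/-- a minimiser is constant -/
theorem tang_zero {m : ℕ} (hn : Module.finrank ℝ E = m + 2) (ht : 2 ≤ t) (s : Fin t → SS E)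
    (hs : ∀ i l, i ≠ l → ⟪(s i : E), s l⟫ = -1 / (t - 1 : ℝ)) {B S0 c : ℝ} {N : ℕ}
    (hB : 0 ≤ B) (hS : 0 < S0) (hN : t * B * (B + B ^ 2 * t / S0) ≤ N)
    (hc : 2 * KK t S0 N B * (t - 1) < 4 * c * (m + 1)) {ψ : VV E} (hψ : IsGrad ψ)
    (hr : ∀ x, (ψ x).1 ∈ Icc (-Psi B) (Psi B))
    (hmin : ∀ R : UG E, ∀ τ : ℝ, 0 < τ → τ ≤ 1 → ∫ g, FF S0 N c (val s ψ g) ∂(hm E)
      ≤ ∫ g, FF S0 N c (fun l => val s ψ g l
        + τ * ((val s ψ (R * g) l + val s ψ (R⁻¹ * g) l) / 2 - val s ψ g l)) ∂(hm E))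
    (x : SS E) : tang ψ x = 0 := by
  have ht2 : (2 : ℝ) ≤ t := by exact_mod_cast ht
  have ht0 : (0 : ℝ) < t := by linarith
  have hpos : 0 < t := by omega
  have hpc : ∀ g, val s ψ g ∈ cube t B := fun g i => hr _
  have hPc := val_cont s ψ
  obtain ⟨e⟩ : Nonempty (OrthonormalBasis (Fin (m + 2)) ℝ E) := by
    obtain ⟨b, _⟩ := exists_onb1 (n := m + 1) hn (x : E) (norm_eq_of_mem_sphere x)
    exact ⟨b⟩
  set D : Fin (m + 2) → Fin (m + 2) → UG E → Fin t → ℝ := fun a b g i =>
    DD e a b (sa g (s i) : E) (tang ψ (sa g (s i))) with hD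
  have hDc : ∀ a b, Continuous (D a b) := by
    intro a b
    refine continuous_pi fun i => ?_
    have c1 : Continuous (fun g : UG E => (sa g (s i) : E)) :=
      continuous_subtype_val.comp (sa_continuous_left (s i))
    have c2 : Continuous (fun g : UG E => tang ψ (sa g (s i))) :=
      field_cont (tang_continuous ψ) (s i)
    simp only [hD, DD]
    exact ((continuous_const.inner c1).mul (continuous_const.inner c2)).sub
      ((continuous_const.inner c1).mul (continuous_const.inner c2))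
  have hterm : ∀ a b i, Continuous (fun g => hFF S0 N c (val s ψ g) (D a b g) i * D a b g i) :=
    fun a b i => (hFF_comp_cont hB S0 N c hPc (hDc a b) hpc i).mul
      ((continuous_apply i).comp (hDc a b))
  have h1 : ∀ a b, ∫ g, ∑ i, hFF S0 N c (val s ψ g) (D a b g) i * D a b g i ∂(hm E) ≤ 0 := by
    intro a b
    obtain ⟨L, hL⟩ := rot_val_lip hψ (e a) (e b)
    refine crit_inf hB S0 N c hPc hpc (rot (e a) (e b)) (rot_zero _ _) ?_ L ?_ ?_
    · intro g i
      have := rot_val_hasDerivAt hψ (e a) (e b) (sa g (s i))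
      rw [inner_gen] at this
      exact this
    · filter_upwards [hL] with θ hθ
      intro g i
      exact hθ (sa g (s i))
    · intro θ
      exact crit hB S0 N c hPc hpc _ (hmin _)
  have h2 : ∫ g, ∑ a, ∑ b, ∑ i, hFF S0 N c (val s ψ g) (D a b g) i * D a b g i ∂(hm E) ≤ 0 := by
    rw [integral_finsetSum _ fun a _ => hm_integrable (continuous_finsetSum _ fun b _ =>
      continuous_finsetSum _ fun i _ => hterm a b i)]
    refine Finset.sum_nonpos fun a _ => ?_
    rw [integral_finsetSum _ fun b _ => hm_integrable (continuous_finsetSum _ fun i _ =>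
      hterm a b i)]
    exact Finset.sum_nonpos fun b _ => h1 a b
  set J := ∫ g, ‖tang ψ (sa g x)‖ ^ 2 ∂(hm E) with hJ
  have cN : ∀ i, Continuous (fun g : UG E => ‖tang ψ (sa g (s i))‖ ^ 2) := fun i =>
    (field_cont (tang_continuous ψ) (s i)).norm.pow 2
  have cI : ∀ i l, Continuous (fun g : UG E => ⟪(sa g (s i) : E), tang ψ (sa g (s l))⟫ ^ 2) :=
    fun i l => ((continuous_subtype_val.comp (sa_continuous_left (s i))).inner
      (field_cont (tang_continuous ψ) (s l))).pow 2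
  have h3 : ∫ g, (4 * c * ∑ i, ‖tang ψ (sa g (s i))‖ ^ 2
      - 2 * KK t S0 N B * ∑ i, ∑ l, ⟪(sa g (s i) : E), tang ψ (sa g (s l))⟫ ^ 2) ∂(hm E) ≤ 0 := by
    refine (integral_mono ?_ ?_ fun g => ?_).trans h2
    · exact hm_integrable ((continuous_const.mul (continuous_finsetSum _ fun i _ => cN i)).sub
        (continuous_const.mul (continuous_finsetSum _ fun i _ =>
          continuous_finsetSum _ fun l _ => cI i l)))
    · exact hm_integrable (continuous_finsetSum _ fun a _ => continuous_finsetSum _ fun b _ =>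
        continuous_finsetSum _ fun i _ => hterm a b i)
    · exact hess_lower ht e hB hS hN (hpc g) (fun i => (sa g (s i) : E))
        (fun i => tang ψ (sa g (s i))) (fun i => norm_eq_of_mem_sphere _)
        (fun i l hil => by rw [sa_coe, sa_coe, av_inner, hs i l hil])
        (fun i => tang_orth ψ _)
  have cA : Continuous (fun g : UG E => 4 * c * ∑ i, ‖tang ψ (sa g (s i))‖ ^ 2) :=
    continuous_const.mul (continuous_finsetSum _ fun i _ => cN i)
  have cB : Continuous (fun g : UG E => 2 * KK t S0 N B *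
      ∑ i, ∑ l, ⟪(sa g (s i) : E), tang ψ (sa g (s l))⟫ ^ 2) :=
    continuous_const.mul (continuous_finsetSum _ fun i _ => continuous_finsetSum _ fun l _ =>
      cI i l)
  rw [integral_sub (hm_integrable cA) (hm_integrable cB), integral_const_mul, integral_const_mul,
    integral_finsetSum _ fun i _ => hm_integrable (cN i),
    integral_finsetSum _ fun i _ => hm_integrable (continuous_finsetSum _ fun l _ => cI i l)] at h3
  have h4 : ∑ i, ∫ g, ‖tang ψ (sa g (s i))‖ ^ 2 ∂(hm E) = t * J := by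
    have : ∀ i, ∫ g, ‖tang ψ (sa g (s i))‖ ^ 2 ∂(hm E) = J := fun i =>
      norm_avg_const hn (tang ψ) (s i) x
    simp only [this]
    simp
  have h5 : ∀ i, (m + 1 : ℝ) * ∫ g, ∑ l, ⟪(sa g (s i) : E), tang ψ (sa g (s l))⟫ ^ 2 ∂(hm E)
      ≤ (t - 1) * J := by
    intro i
    rw [integral_finsetSum _ fun l _ => hm_integrable (cI i l), Finset.mul_sum]
    have h6 : ∀ l, (m + 1 : ℝ) * ∫ g, ⟪(sa g (s i) : E), tang ψ (sa g (s l))⟫ ^ 2 ∂(hm E)
        ≤ if i = l then 0 else J := by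
      intro l
      split_ifs with h
      · subst h
        simp only [tang_orth]
        simp
      · have := avg_le hn (tang_continuous ψ) (tang_orth ψ) (s i) (s l)
        rwa [norm_avg_const hn (tang ψ) (s l) x] at this
    calc ∑ l, (m + 1 : ℝ) * ∫ g, ⟪(sa g (s i) : E), tang ψ (sa g (s l))⟫ ^ 2 ∂(hm E)
        ≤ ∑ l, (if i = l then 0 else J) := Finset.sum_le_sum fun l _ => h6 l
      _ = ∑ l, (J - if i = l then J else 0) := by
          refine Finset.sum_congr rfl fun l _ => ?_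
          split_ifs <;> ring
      _ = _ := by
          rw [Finset.sum_sub_distrib, Finset.sum_ite_eq, if_pos (Finset.mem_univ _)]
          simp
          ring
  have h6 : (m + 1 : ℝ) * ∑ i, ∫ g, ∑ l, ⟪(sa g (s i) : E), tang ψ (sa g (s l))⟫ ^ 2 ∂(hm E)
      ≤ t * ((t - 1) * J) := by
    rw [Finset.mul_sum]
    calc _ ≤ ∑ _i : Fin t, (t - 1) * J := Finset.sum_le_sum fun i _ => h5 i
      _ = _ := by simp
  rw [h4] at h3
  have hK := KK_nonneg t S0 N B
  have hm1 : (0 : ℝ) < m + 1 := by positivity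
  have h7 : (4 * c * (m + 1) - 2 * KK t S0 N B * (t - 1)) * (t * J) ≤ 0 := by
    have e1 := mul_le_mul_of_nonneg_left h6 hK
    have e2 := mul_le_mul_of_nonneg_left h3 hm1.le
    rw [mul_zero] at e2
    nlinarith [e1, e2]
  have h8 : t * J ≤ 0 := by
    by_contra hcon
    push Not at hcon
    have : 0 < (4 * c * (m + 1) - 2 * KK t S0 N B * (t - 1)) * (t * J) :=
      mul_pos (by linarith) hcon
    linarith
  have h9 : J ≤ 0 := by
    by_contra hcon
    push Not at hcon
    have := mul_pos ht0 hcon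
    linarith
  exact zero_of_int (by omega) (tang_continuous ψ) x h9 x

theorem main_ineq {m : ℕ} (hn : Module.finrank ℝ E = m + 2) (ht : 2 ≤ t) (s : Fin t → SS E)
    (hs : ∀ i l, i ≠ l → ⟪(s i : E), s l⟫ = -1 / (t - 1 : ℝ)) {B S0 c : ℝ} {N : ℕ}
    (hB : 0 ≤ B) (hS : 0 < S0) (hN : t * B * (B + B ^ 2 * t / S0) ≤ N)
    (hc : 2 * KK t S0 N B * (t - 1) < 4 * c * (m + 1)) {φ : VV E} (hφ : IsGrad φ)
    (hr : ∀ x, (φ x).1 ∈ Icc (-Psi B) (Psi B)) (x0 : SS E) :
    FF S0 N c (fun _ : Fin t => ∫ g, (φ (sa g x0)).1 ∂(hm E))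
      ≤ ∫ g, FF S0 N c (val s φ g) ∂(hm E) := by
  have hrK : ∀ ψ ∈ KS φ, ∀ x, (ψ x).1 ∈ Icc (-Psi B) (Psi B) := fun ψ hψ x =>
    KS_range φ hr hψ x
  obtain ⟨ψ, hψ, hmin⟩ := (KS_compact φ).exists_isMinOn ⟨φ, KS_self φ⟩
    (PhiF_continuousOn hB S0 N c s hrK)
  have hmin' : ∀ χ ∈ KS φ, PhiF S0 N c s ψ ≤ PhiF S0 N c s χ := fun χ hχ => hmin hχ
  have htan : ∀ x, tang ψ x = 0 := by
    refine tang_zero hn ht s hs hB hS hN hc (KS_isGrad hφ hψ) (hrK ψ hψ) ?_
    intro R τ h0 h1
    set χ : VV E := (1 - τ) • ψ + τ • ((1 / 2 : ℝ) • TT R ψ + (1 / 2 : ℝ) • TT R⁻¹ ψ) with hχ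
    have hχK : χ ∈ KS φ := by
      refine KS_convex φ hψ ?_ (by linarith) h0.le (by ring)
      exact KS_convex φ (KS_inv φ R hψ) (KS_inv φ R⁻¹ hψ) (by norm_num) (by norm_num)
        (by norm_num)
    have h2 := hmin' χ hχK
    unfold PhiF at h2
    have h3 : ∀ g, val s χ g = fun l => val s ψ g l
        + τ * ((val s ψ (R * g) l + val s ψ (R⁻¹ * g) l) / 2 - val s ψ g l) := by
      intro g
      funext l
      have e1 : val s χ g l = (1 - τ) * val s ψ g l
          + τ * ((1 / 2) * val s (TT R ψ) g l + (1 / 2) * val s (TT R⁻¹ ψ) g l) := by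
        simp [val, hχ]
        ring
      rw [e1, val_TT, val_TT]
      ring
    simp only [h3] at h2
    exact h2
  have hconst : ∀ y, (ψ y).1 = (ψ x0).1 := fun y =>
    const_of_tang (KS_isGrad hφ hψ) htan hn x0 y
  have hmean := KS_mean φ x0 hψ
  have h1 : (ψ x0).1 = ∫ g, (φ (sa g x0)).1 ∂(hm E) := by
    rw [← hmean]
    simp only [hconst]
    simp
  rw [← h1]
  have h2 : PhiF S0 N c s ψ = FF S0 N c (fun _ : Fin t => (ψ x0).1) := by
    unfold PhiF
    have : ∀ g, val s ψ g = fun _ => (ψ x0).1 := fun g => funext fun i => hconst _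
    simp only [this]
    simp
  rw [← h2]
  exact hmin' φ (KS_self φ)

end Pool.Agent.helper440_simplex
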