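import Pool.Agent.helper440_simplex.Height

/-! # Components of equivariant fields in generic directions are small -/

set_option autoImplicit false
set_option linter.unusedSectionVars false

namespace Pool.Agent.helper440_simplex

open MeasureTheory Metric Set Filter Topology
open scoped RealInnerProductSpace

variable {E : Type*} [NormedAddCommGroup E] [InnerProductSpace ℝ E] [CompleteSpace E]
  [FiniteDimensional ℝ E] [MeasurableSpace E] [BorelSpace E]

theorem av_meas (x : E) : Measurable (fun g : UG E => av g x) := (av_cont_left x).measurable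

theorem finrank_perp (a b : E) {m : ℕ} (hn : Module.finrank ℝ E = m + 2) :
    m ≤ Module.finrank ℝ (Submodule.span ℝ ({a, b} : Set E))ᗮ := by
  have h1 := Submodule.finrank_add_finrank_orthogonal (Submodule.span ℝ ({a, b} : Set E))
  have h2 : Module.finrank ℝ (Submodule.span ℝ ({a, b} : Set E)) ≤ 2 := by
    classical
    have h3 := finrank_span_finset_le_card (R := ℝ) ({a, b} : Finset E)
    simp only [Finset.coe_insert, Finset.coe_singleton] at h3
    exact h3.trans Finset.card_le_two
  omega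

theorem moment_int {m : ℕ} (hn : Module.finrank ℝ E = m + 2) {F : E → E → E}
    (hF : Measurable (Function.uncurry F)) {R : ℝ} (hR : ∀ y z, ‖F y z‖ ≤ R) (a b p : E)
    (hp : ‖p‖ = 1) (hap : ⟪a, p⟫ = 0) (hbp : ⟪b, p⟫ = 0) :
    (m : ℝ) * ∫ g, ⟪F (av g a) (av g b), av g p⟫ ^ 2 ∂(hm E) ≤ R ^ 2 := by
  have hR0 : 0 ≤ R := (norm_nonneg _).trans (hR 0 0)
  set V := (Submodule.span ℝ ({a, b} : Set E))ᗮ with hV
  set c := stdOrthonormalBasis ℝ V with hc
  have hm' := finrank_perp a b hn
  have hFm : Measurable (fun g : UG E => F (av g a) (av g b)) :=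
    hF.comp ((av_meas a).prodMk (av_meas b))
  have hint : ∀ x : E, Integrable (fun g : UG E => ⟪F (av g a) (av g b), av g x⟫ ^ 2) (hm E) := by
    intro x
    refine Integrable.of_bound ((hFm.inner (av_meas x)).pow_const 2).aestronglyMeasurable
      ((R * ‖x‖) ^ 2) (Eventually.of_forall fun g => ?_)
    rw [Real.norm_eq_abs, abs_of_nonneg (sq_nonneg _), ← sq_abs]
    refine pow_le_pow_left₀ (abs_nonneg _) ?_ 2
    refine (abs_real_inner_le_norm _ _).trans ?_
    rw [av_norm]
    exact mul_le_mul_of_nonneg_right (hR _ _) (norm_nonneg _)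
  have hVa : ∀ x : V, ⟪a, (x : E)⟫ = 0 := fun x =>
    (Submodule.mem_orthogonal _ _).1 x.2 a (Submodule.subset_span (by simp))
  have hVb : ∀ x : V, ⟪b, (x : E)⟫ = 0 := fun x =>
    (Submodule.mem_orthogonal _ _).1 x.2 b (Submodule.subset_span (by simp))
  have heq : ∀ j, ∫ g, ⟪F (av g a) (av g b), av g (c j : E)⟫ ^ 2 ∂(hm E)
      = ∫ g, ⟪F (av g a) (av g b), av g p⟫ ^ 2 ∂(hm E) := by
    intro j
    have hcj : ‖(c j : E)‖ = 1 := c.orthonormal.1 j
    set ρ : UG E := hh (p - (c j : E)) with hρ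
    have e1 : av ρ p = (c j : E) := hh_sub (by rw [hp, hcj])
    have e2 : av ρ a = a := hh_fix (by
      rw [inner_sub_left, real_inner_comm a p, hap, real_inner_comm a (c j : E), hVa, sub_zero])
    have e3 : av ρ b = b := hh_fix (by
      rw [inner_sub_left, real_inner_comm b p, hbp, real_inner_comm b (c j : E), hVb, sub_zero])
    rw [← hm_int_right ρ (fun g => ⟪F (av g a) (av g b), av g p⟫ ^ 2)]
    simp only [av_mul, e1, e2, e3]
  have hbes : ∀ g : UG E, ∑ j, ⟪F (av g a) (av g b), av g (c j : E)⟫ ^ 2 ≤ R ^ 2 := by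
    intro g
    have hon : Orthonormal ℝ (fun j => av g (c j : E)) := by
      rw [orthonormal_iff_ite]
      intro i j
      rw [av_inner]
      have := orthonormal_iff_ite.1 c.orthonormal i j
      rw [Submodule.coe_inner] at this
      exact this
    have h1 := hon.sum_inner_products_le (F (av g a) (av g b)) (s := Finset.univ)
    calc ∑ j, ⟪F (av g a) (av g b), av g (c j : E)⟫ ^ 2
        = ∑ j, ‖⟪av g (c j : E), F (av g a) (av g b)⟫‖ ^ 2 := by
          refine Finset.sum_congr rfl fun j _ => ?_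
          rw [Real.norm_eq_abs, sq_abs, real_inner_comm]
      _ ≤ ‖F (av g a) (av g b)‖ ^ 2 := h1
      _ ≤ R ^ 2 := pow_le_pow_left₀ (norm_nonneg _) (hR _ _) 2
  have hsum : ∫ g, ∑ j, ⟪F (av g a) (av g b), av g (c j : E)⟫ ^ 2 ∂(hm E) ≤ R ^ 2 := by
    have h1 : ∫ g, ∑ j, ⟪F (av g a) (av g b), av g (c j : E)⟫ ^ 2 ∂(hm E)
        ≤ ∫ _g : UG E, R ^ 2 ∂(hm E) :=
      integral_mono (integrable_finsetSum _ fun j _ => hint _) (integrable_const _) hbes
    rwa [integral_const, probReal_univ, one_smul] at h1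
  rw [integral_finsetSum _ fun j _ => hint _] at hsum
  simp only [heq, Finset.sum_const, Finset.card_univ, Fintype.card_fin, nsmul_eq_mul] at hsum
  have h0 : 0 ≤ ∫ g, ⟪F (av g a) (av g b), av g p⟫ ^ 2 ∂(hm E) :=
    integral_nonneg fun g => sq_nonneg _
  have h1 : (m : ℝ) ≤ (Module.finrank ℝ V : ℝ) := by exact_mod_cast hm'
  exact (mul_le_mul_of_nonneg_right h1 h0).trans hsum

theorem moment {m : ℕ} (hn : Module.finrank ℝ E = m + 2) (hm0 : 0 < m) {F : E → E → E}
    (hF : Measurable (Function.uncurry F)) {R : ℝ} (hR : ∀ y z, ‖F y z‖ ≤ R) (a b p : E)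
    (hp : ‖p‖ ≤ 1) (hap : ⟪a, p⟫ = 0) (hbp : ⟪b, p⟫ = 0) {κ : ℝ} (hκ : 0 < κ) :
    (hm E).real {g | κ ≤ |⟪F (av g a) (av g b), av g p⟫|} ≤ R ^ 2 / (m * κ ^ 2) := by
  have hm1 : (0 : ℝ) < m := by exact_mod_cast hm0
  rcases eq_or_ne p 0 with rfl | hp0
  · have : {g : UG E | κ ≤ |⟪F (av g a) (av g b), av g 0⟫|} = ∅ := by
      ext g
      simp only [mem_ofPred_eq, mem_empty_iff_false, iff_false, not_le]
      have : av g (0 : E) = 0 := by simp [av]
      rw [this, inner_zero_right, abs_zero]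
      exact hκ
    rw [this, measureReal_empty]
    positivity
  · have hpn : 0 < ‖p‖ := norm_pos_iff.2 hp0
    set p' : E := ‖p‖⁻¹ • p with hp'
    have h1 : ‖p'‖ = 1 := by
      rw [hp', norm_smul, norm_inv, norm_norm, inv_mul_cancel₀ hpn.ne']
    have h2 := moment_int hn hF hR a b p' h1 (by rw [hp', real_inner_smul_right, hap, mul_zero])
      (by rw [hp', real_inner_smul_right, hbp, mul_zero])
    have hFm : Measurable (fun g : UG E => F (av g a) (av g b)) :=
      hF.comp ((av_meas a).prodMk (av_meas b))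
    have hS : MeasurableSet {g : UG E | κ ≤ |⟪F (av g a) (av g b), av g p⟫|} :=
      measurableSet_le measurable_const (hFm.inner (av_meas p)).abs
    have hint : Integrable (fun g : UG E => ⟪F (av g a) (av g b), av g p'⟫ ^ 2) (hm E) := by
      refine Integrable.of_bound ((hFm.inner (av_meas p')).pow_const 2).aestronglyMeasurable
        ((R * 1) ^ 2) (Eventually.of_forall fun g => ?_)
      rw [Real.norm_eq_abs, abs_of_nonneg (sq_nonneg _), ← sq_abs]
      refine pow_le_pow_left₀ (abs_nonneg _) ?_ 2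
      refine (abs_real_inner_le_norm _ _).trans ?_
      rw [av_norm, h1]
      exact mul_le_mul_of_nonneg_right (hR _ _) zero_le_one
    have h3 := ind_le_int hS hint (c := κ ^ 2) ?_
    · rw [le_div_iff₀ (by positivity)]
      have h4 := mul_le_mul_of_nonneg_left h3 hm1.le
      linarith
    · intro g
      by_cases hg : g ∈ {g : UG E | κ ≤ |⟪F (av g a) (av g b), av g p⟫|}
      · rw [Set.indicator_of_mem hg, ← sq_abs ⟪F (av g a) (av g b), av g p'⟫]
        refine pow_le_pow_left₀ hκ.le ?_ 2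
        have hg' : κ ≤ |⟪F (av g a) (av g b), av g p⟫| := hg
        refine hg'.trans ?_
        rw [hp', av_smul, real_inner_smul_right, abs_mul, abs_of_pos (inv_pos.2 hpn)]
        have h5 : 1 ≤ ‖p‖⁻¹ := (one_le_inv₀ hpn).2 hp
        nlinarith [abs_nonneg ⟪F (av g a) (av g b), av g p⟫]
      · rw [Set.indicator_of_notMem hg]
        exact sq_nonneg _

end Pool.Agent.helper440_simplex
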