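import Mathlib

/-! # The Gaussian profile function and its inverse -/

set_option autoImplicit false

namespace Pool.Agent.helper440_simplex

open MeasureTheory Set Filter Topology

/-- the primitive of the Gaussian density (not normalised) -/
noncomputable def Psi (b : ℝ) : ℝ := ∫ x in (0 : ℝ)..b, Real.exp (-(x ^ 2) / 2)

theorem cont_dens : Continuous (fun x : ℝ => Real.exp (-(x ^ 2) / 2)) := by fun_prop

theorem hasDerivAt_Psi (b : ℝ) : HasDerivAt Psi (Real.exp (-(b ^ 2) / 2)) b :=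
  intervalIntegral.integral_hasDerivAt_right (cont_dens.intervalIntegrable _ _)
    (cont_dens.stronglyMeasurableAtFilter _ _) cont_dens.continuousAt

theorem hasStrictDerivAt_Psi (b : ℝ) : HasStrictDerivAt Psi (Real.exp (-(b ^ 2) / 2)) b :=
  hasStrictDerivAt_of_hasDerivAt_of_continuousAt
    (Filter.Eventually.of_forall fun x => hasDerivAt_Psi x) cont_dens.continuousAt

theorem continuous_Psi : Continuous Psi :=
  continuous_iff_continuousAt.2 fun b => (hasDerivAt_Psi b).continuousAt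

theorem Psi_strictMono : StrictMono Psi :=
  strictMono_of_hasDerivAt_pos (fun x => hasDerivAt_Psi x) (fun _ => Real.exp_pos _)

theorem Psi_zero : Psi 0 = 0 := by simp [Psi]

theorem Psi_neg (b : ℝ) : Psi (-b) = - Psi b := by
  unfold Psi
  rw [intervalIntegral.integral_symm]
  have h := intervalIntegral.integral_comp_neg (a := -b) (b := 0)
    (fun x : ℝ => Real.exp (-(x ^ 2) / 2))
  simp only [neg_zero, neg_neg, even_two.neg_pow] at h
  rw [h]

theorem Psi_bdd : ∃ c : ℝ, 0 < c ∧ (∀ b, Psi b < c) ∧ ∀ d < c, ∃ b, d < Psi b := by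
  have hint : Integrable (fun x : ℝ => Real.exp (-(x ^ 2) / 2)) := by
    have := integrable_exp_neg_mul_sq (b := (1 / 2 : ℝ)) (by norm_num)
    refine this.congr (Filter.Eventually.of_forall fun x => ?_)
    show Real.exp _ = Real.exp _
    congr 1; ring
  have hb : ∀ b, Psi b ≤ ∫ x : ℝ, Real.exp (-(x ^ 2) / 2) := by
    intro b
    unfold Psi
    rcases le_total 0 b with h | h
    · rw [intervalIntegral.integral_of_le h]
      exact setIntegral_le_integral hint (Filter.Eventually.of_forall fun x => (Real.exp_pos _).le)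
    · have h1 : (∫ x in (0 : ℝ)..b, Real.exp (-(x ^ 2) / 2)) ≤ 0 := by
        rw [intervalIntegral.integral_symm]
        have := intervalIntegral.integral_nonneg (μ := volume) h
          (fun x _ => (Real.exp_pos (-(x ^ 2) / 2)).le)
        linarith
      exact h1.trans (integral_nonneg fun x => (Real.exp_pos _).le)
  have hne : (range Psi).Nonempty := range_nonempty _
  have hbd : BddAbove (range Psi) := ⟨_, by rintro _ ⟨b, rfl⟩; exact hb b⟩
  refine ⟨sSup (range Psi), ?_, ?_, ?_⟩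
  · have h1 : Psi 1 ≤ sSup (range Psi) := le_csSup hbd ⟨1, rfl⟩
    have h2 : Psi 0 < Psi 1 := Psi_strictMono one_pos
    rw [Psi_zero] at h2
    linarith
  · intro b
    have h1 : Psi (b + 1) ≤ sSup (range Psi) := le_csSup hbd ⟨b + 1, rfl⟩
    have h2 : Psi b < Psi (b + 1) := Psi_strictMono (by linarith)
    linarith
  · intro d hd
    obtain ⟨_, ⟨b, rfl⟩, hb⟩ := exists_lt_of_lt_csSup hne hd
    exact ⟨b, hb⟩

/-- the inverse of `Psi` -/
noncomputable def Gam : ℝ → ℝ := Function.invFun Psi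

theorem Gam_Psi (b : ℝ) : Gam (Psi b) = b := Function.leftInverse_invFun Psi_strictMono.injective b

theorem hasDerivAt_Gam' (b : ℝ) : HasDerivAt Gam (Real.exp (b ^ 2 / 2)) (Psi b) := by
  have h := (hasStrictDerivAt_Psi b).to_local_left_inverse (Real.exp_ne_zero _) (g := Gam)
    (Filter.Eventually.of_forall Gam_Psi)
  have e : (Real.exp (-(b ^ 2) / 2))⁻¹ = Real.exp (b ^ 2 / 2) := by
    rw [← Real.exp_neg]; congr 1; ring
  rw [e] at h
  exact h.hasDerivAt

theorem exists_Psi {B p : ℝ} (hB : 0 ≤ B) (hp : p ∈ Icc (-Psi B) (Psi B)) :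
    ∃ b ∈ Icc (-B) B, Psi b = p := by
  rw [← Psi_neg] at hp
  exact intermediate_value_Icc (by linarith) continuous_Psi.continuousOn hp

theorem Gam_mem {B p : ℝ} (hB : 0 ≤ B) (hp : p ∈ Icc (-Psi B) (Psi B)) : Gam p ∈ Icc (-B) B := by
  obtain ⟨b, hb, rfl⟩ := exists_Psi hB hp
  rwa [Gam_Psi]

theorem hasDerivAt_Gam {B p : ℝ} (hB : 0 ≤ B) (hp : p ∈ Icc (-Psi B) (Psi B)) :
    HasDerivAt Gam (Real.exp (Gam p ^ 2 / 2)) p := by
  obtain ⟨b, hb, rfl⟩ := exists_Psi hB hp
  have := hasDerivAt_Gam' b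
  rwa [Gam_Psi]

/-- the truncated power -/
noncomputable def tp (m : ℕ) (x : ℝ) : ℝ := (max x 0) ^ m

theorem tp_nonneg (m : ℕ) (x : ℝ) : 0 ≤ tp m x := pow_nonneg (le_max_right _ _) _

theorem tp_of_nonpos {m : ℕ} (hm : m ≠ 0) {x : ℝ} (hx : x ≤ 0) : tp m x = 0 := by
  simp [tp, max_eq_right hx, hm]

theorem tp_of_nonneg (m : ℕ) {x : ℝ} (hx : 0 ≤ x) : tp m x = x ^ m := by
  simp [tp, max_eq_left hx]

theorem tp_succ (m : ℕ) (x : ℝ) : tp (m + 2) x = x * tp (m + 1) x := by
  rcases le_total x 0 with h | h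
  · rw [tp_of_nonpos (by omega) h, tp_of_nonpos (by omega) h, mul_zero]
  · rw [tp_of_nonneg _ h, tp_of_nonneg _ h]; ring

theorem continuous_tp (m : ℕ) : Continuous (tp m) := by
  unfold tp; fun_prop

theorem tp_mono {m : ℕ} : Monotone (tp m) := by
  intro x y h
  exact pow_le_pow_left₀ (le_max_right _ _) (max_le_max_right _ h) _

theorem hasDerivAt_tp (m : ℕ) (x : ℝ) :
    HasDerivAt (tp (m + 2)) ((m + 2 : ℕ) * tp (m + 1) x) x := by
  rcases lt_trichotomy x 0 with h | h | h
  · have e : tp (m + 2) =ᶠ[𝓝 x] fun _ => 0 := by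
      filter_upwards [Iio_mem_nhds h] with y hy
      exact tp_of_nonpos (by omega) (le_of_lt hy)
    rw [tp_of_nonpos (by omega) h.le, mul_zero]
    exact (hasDerivAt_const x (0 : ℝ)).congr_of_eventuallyEq e
  · subst h
    rw [tp_of_nonpos (by omega) le_rfl, mul_zero]
    rw [hasDerivAt_iff_tendsto_slope]
    have e : ∀ y ∈ ({0}ᶜ : Set ℝ), slope (tp (m + 2)) 0 y = tp (m + 1) y := by
      intro y hy
      have hy' : y ≠ 0 := hy
      rw [slope_def_field, tp_succ, tp_of_nonpos (m := m + 2) (by omega) le_rfl]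
      field_simp
      ring
    have h0 : tp (m + 1) 0 = 0 := tp_of_nonpos (by omega) le_rfl
    have h1 : Tendsto (tp (m + 1)) (𝓝[≠] 0) (𝓝 0) := by
      have := (continuous_tp (m + 1)).tendsto 0
      rw [h0] at this
      exact this.mono_left nhdsWithin_le_nhds
    exact h1.congr' (by
      filter_upwards [self_mem_nhdsWithin] with y hy
      exact (e y hy).symm)
  · have e : tp (m + 2) =ᶠ[𝓝 x] fun y => y ^ (m + 2) := by
      filter_upwards [Ioi_mem_nhds h] with y hy
      exact tp_of_nonneg _ (le_of_lt hy)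
    rw [tp_of_nonneg _ h.le]
    have := hasDerivAt_pow (m + 2) x
    exact this.congr_of_eventuallyEq e

end Pool.Agent.helper440_simplex
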