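import Pool.Agent.helper440_simplex.Final
import Pool.Agent.helper440_simplex.Moments

/-! # A quantitative form -/

set_option autoImplicit false
set_option linter.unusedSectionVars false

namespace Pool.Agent.helper440_simplex

open MeasureTheory Metric Set Filter Topology
open scoped RealInnerProductSpace Pointwise ENNReal

variable {t : ℕ} {E : Type*} [NormedAddCommGroup E] [InnerProductSpace ℝ E] [CompleteSpace E]
  [FiniteDimensional ℝ E]

theorem quant {m : ℕ} (hn : Module.finrank ℝ E = m + 2) (ht : 2 ≤ t) (s : Fin t → SS E)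
    (hs : ∀ i l, i ≠ l → ⟪(s i : E), s l⟫ = -1 / (t - 1 : ℝ)) {ε M y0 c : ℝ} {N : ℕ}
    (hM : 0 < M) (hε0 : 0 ≤ ε) (hε1 : ε ≤ 1) (hy0 : 0 < y0)
    (hy : Psi y0 ≤ ε * Psi M - (1 - ε) * Psi ((t - 1) * M))
    (hc0 : 0 ≤ c)
    (hN : t * ((t - 1) * M) * ((t - 1) * M + ((t - 1) * M) ^ 2 * t / (t * y0 / 2)) ≤ N)
    (hc : 2 * KK t (t * y0 / 2) N ((t - 1) * M) * (t - 1) < 4 * c * (m + 1))
    (K : Set (SS E)) (hK : IsClosed K) (x0 : SS E)
    (hKε : ε ≤ (hm E).real {g | sa g x0 ∈ K}) {r0 : ℝ} (hr0 : 0 < r0) :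
    (t * y0 / 2) ^ (N + 3) - c * (t * Psi ((t - 1) * M) ^ 2)
      ≤ (hm E).real {g | ∀ i, infDist (sa g (s i)) K < r0} * (t * M) ^ (N + 3) := by
  have ht2 : (2 : ℝ) ≤ t := by exact_mod_cast ht
  have ht0 : (0 : ℝ) < t := by linarith
  have ht1 : (1 : ℝ) ≤ t - 1 := by linarith
  set B := (t - 1 : ℝ) * M with hB
  have hMB : M ≤ B := by rw [hB]; nlinarith
  have hB0 : 0 < B := lt_of_lt_of_le hM hMB
  set S0 := t * y0 / 2 with hS0
  have hS0p : 0 < S0 := by positivity
  have hPM : 0 < Psi M := by rw [← Psi_zero]; exact Psi_strictMono hM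
  have hPB : 0 < Psi B := by rw [← Psi_zero]; exact Psi_strictMono hB0
  have hPMB : Psi M ≤ Psi B := Psi_strictMono.monotone hMB
  -- the function
  set Cc := (Psi M + Psi B) / r0 with hCc
  have hCc0 : 0 < Cc := by positivity
  set f : C(SS E, ℝ) := ⟨fun x => max (-Psi B) (Psi M - Cc * infDist x K), by
    exact continuous_const.max (continuous_const.sub
      (continuous_const.mul (continuous_infDist_pt K)))⟩ with hf
  have hfdef : ∀ x, f x = max (-Psi B) (Psi M - Cc * infDist x K) := fun x => rfl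
  have hfM : ∀ x, f x ≤ Psi M := by
    intro x
    rw [hfdef]
    refine max_le (by linarith) ?_
    have : 0 ≤ Cc * infDist x K := mul_nonneg hCc0.le infDist_nonneg
    linarith
  have hr : ∀ x, f x ∈ Icc (-Psi B) (Psi B) := fun x =>
    ⟨le_max_left _ _, (hfM x).trans hPMB⟩
  have hfK : ∀ x ∈ K, f x = Psi M := by
    intro x hx
    rw [hfdef, infDist_zero_of_mem hx, mul_zero, sub_zero, max_eq_right (by linarith)]
  have hffar : ∀ x, r0 ≤ infDist x K → f x = -Psi B := by
    intro x hx
    rw [hfdef, max_eq_left]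
    have : Psi M + Psi B ≤ Cc * infDist x K := by
      calc Psi M + Psi B = Cc * r0 := by rw [hCc]; field_simp
        _ ≤ _ := mul_le_mul_of_nonneg_left hx hCc0.le
    linarith
  have hmain := main_cont hn ht s hs hB0 hS0p hN hc f hr x0
  have hfc : ∀ x : SS E, Continuous (fun g : UG E => f (sa g x)) := fun x =>
    f.continuous.comp (sa_continuous_left x)
  have hPc : Continuous (fun g : UG E => (fun i => f (sa g (s i)) : Fin t → ℝ)) :=
    continuous_pi fun i => hfc (s i)
  have hGB : Gam (-Psi B) = -B := by rw [← Psi_neg, Gam_Psi]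
  have hGM : ∀ x, Gam (f x) ≤ M := by
    intro x
    obtain ⟨y, hy1, hy2⟩ := exists_Psi hB0.le (hr x)
    rw [← hy2, Gam_Psi]
    have h1 := hfM x
    rw [← hy2] at h1
    exact Psi_strictMono.le_iff_le.1 h1
  set S : Set (UG E) := {g | ∀ i, infDist (sa g (s i)) K < r0} with hS
  have hSm : MeasurableSet S := by
    have : S = ⋂ i, {g : UG E | infDist (sa g (s i)) K < r0} := by
      ext g; simp [hS]
    rw [this]
    refine MeasurableSet.iInter fun i => ?_
    exact (isOpen_lt ((continuous_infDist_pt K).comp (sa_continuous_left (s i)))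
      continuous_const).measurableSet
  have hsq : ∀ g : UG E, c * ∑ i, f (sa g (s i)) ^ 2 ≤ c * (t * Psi B ^ 2) := by
    intro g
    refine mul_le_mul_of_nonneg_left ?_ hc0
    calc ∑ i, f (sa g (s i)) ^ 2 ≤ ∑ _i : Fin t, Psi B ^ 2 := by
          refine Finset.sum_le_sum fun i _ => ?_
          exact sq_le_sq' (hr _).1 (hr _).2
      _ = t * Psi B ^ 2 := by simp
  have hrhs : ∀ g, FF S0 N c (fun i => f (sa g (s i))) - c * (t * Psi B ^ 2)
      ≤ S.indicator (fun _ => (t * M) ^ (N + 3)) g := by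
    intro g
    by_cases hg : g ∈ S
    · rw [Set.indicator_of_mem hg]
      have hW : WW (fun i => f (sa g (s i))) ≤ t * M := by
        unfold WW
        calc ∑ i, Gam (f (sa g (s i))) ≤ ∑ _i : Fin t, M := Finset.sum_le_sum fun i _ => hGM _
          _ = t * M := by simp
      have h1 : tp (N + 3) (WW (fun i => f (sa g (s i))) - S0) ≤ tp (N + 3) (t * M) :=
        tp_mono (by linarith)
      have e1 : tp (N + 3) (t * M) = (t * M) ^ (N + 3) := tp_of_nonneg _ (by positivity)
      rw [e1] at h1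
      have h2 := hsq g
      unfold FF
      linarith
    · rw [Set.indicator_of_notMem hg]
      have hg2 : ∃ i0, r0 ≤ infDist (sa g (s i0)) K := by
        by_contra hcon
        push Not at hcon
        exact hg hcon
      obtain ⟨i0, hi0⟩ := hg2
      have hW : WW (fun i => f (sa g (s i))) ≤ 0 := by
        unfold WW
        rw [← Finset.add_sum_erase _ _ (Finset.mem_univ i0)]
        have h1 : Gam (f (sa g (s i0))) = -B := by rw [hffar _ hi0, hGB]
        have h2 : ∑ i ∈ Finset.univ.erase i0, Gam (f (sa g (s i)))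
            ≤ ∑ _i ∈ Finset.univ.erase i0, M := Finset.sum_le_sum fun i _ => hGM _
        have h3 : ∑ _i ∈ (Finset.univ : Finset (Fin t)).erase i0, M = B := by
          rw [Finset.sum_const, Finset.card_erase_of_mem (Finset.mem_univ i0), Finset.card_univ,
            Fintype.card_fin, nsmul_eq_mul, Nat.cast_sub (by omega : 1 ≤ t), hB]
          simp
        linarith
      unfold FF
      rw [tp_of_nonpos (by omega) (by linarith), zero_add]
      have h2 := hsq g
      linarith
  have hub : ∫ g, (FF S0 N c (fun i => f (sa g (s i))) - c * (t * Psi B ^ 2)) ∂(hm E)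
      ≤ (hm E).real S * (t * M) ^ (N + 3) :=
    int_le_ind hSm ((hm_integrable (FF_comp_cont hB0.le S0 N c hPc (fun g i => hr _))).sub
      (integrable_const _)) hrhs
  rw [integral_sub (hm_integrable (FF_comp_cont hB0.le S0 N c hPc (fun g i => hr _)))
      (integrable_const _), integral_const, probReal_univ, one_smul] at hub
  -- the mean
  set p := ∫ g, f (sa g x0) ∂(hm E) with hp
  have hKm : MeasurableSet {g : UG E | sa g x0 ∈ K} :=
    (hK.preimage (sa_continuous_left x0)).measurableSet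
  have hplow : Psi y0 ≤ p := by
    have h1 : ∫ g, ({g : UG E | sa g x0 ∈ K}.indicator (fun _ => Psi M + Psi B) g - Psi B)
        ∂(hm E) ≤ p := by
      refine integral_mono (((integrable_const _).indicator hKm).sub (integrable_const _))
        (hm_integrable (hfc x0)) fun g => ?_
      by_cases hg : g ∈ {g : UG E | sa g x0 ∈ K}
      · simp only [Set.indicator_of_mem hg]
        rw [hfK _ hg]
        linarith
      · simp only [Set.indicator_of_notMem hg]
        have := (hr (sa g x0)).1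
        linarith
    rw [integral_sub ((integrable_const _).indicator hKm) (integrable_const _),
      integral_indicator_const _ hKm, integral_const, probReal_univ, one_smul, smul_eq_mul] at h1
    have h2 : ε * (Psi M + Psi B) ≤ (hm E).real {g | sa g x0 ∈ K} * (Psi M + Psi B) :=
      mul_le_mul_of_nonneg_right hKε (by linarith)
    nlinarith
  have hpup : p ≤ Psi B := by
    have h1 : p ≤ ∫ _g : UG E, Psi B ∂(hm E) :=
      integral_mono (hm_integrable (hfc x0)) (integrable_const _) (fun g => (hr _).2)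
    rwa [integral_const, probReal_univ, one_smul] at h1
  have hPy0 : 0 < Psi y0 := by rw [← Psi_zero]; exact Psi_strictMono hy0
  have hGp : y0 ≤ Gam p := by
    obtain ⟨y, hy1, hy2⟩ := exists_Psi (p := p) hB0.le ⟨by linarith, hpup⟩
    rw [← hy2] at hplow
    rw [← hy2, Gam_Psi]
    exact Psi_strictMono.le_iff_le.1 hplow
  have hlhs : S0 ^ (N + 3) ≤ FF S0 N c (fun _ : Fin t => p) := by
    unfold FF WW
    have h1 : ∑ _i : Fin t, Gam p = t * Gam p := by simp
    rw [h1]
    have h2 : S0 ≤ t * Gam p - S0 := by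
      have : t * y0 ≤ t * Gam p := mul_le_mul_of_nonneg_left hGp ht0.le
      rw [hS0]
      linarith
    have h3 : tp (N + 3) S0 ≤ tp (N + 3) (t * Gam p - S0) := tp_mono h2
    rw [tp_of_nonneg _ hS0p.le] at h3
    have h4 : 0 ≤ c * ∑ _i : Fin t, p ^ 2 :=
      mul_nonneg hc0 (Finset.sum_nonneg fun _ _ => sq_nonneg _)
    linarith
  linarith

/-- a set of measure more than one half has all vertices of many simplices nearby -/
theorem quant_params (t : ℕ) (ht : 2 ≤ t) (ε : ℝ) (hε : 1 / 2 < ε) (hε1 : ε ≤ 1) :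
    ∃ (p0 : ℝ) (m0 : ℕ), 0 < p0 ∧ p0 ≤ 1 ∧ ∀ m : ℕ, m0 ≤ m →
      ∀ (s : Fin t → SS (EuclideanSpace ℝ (Fin (m + 2)))),
      (∀ i l, i ≠ l → ⟪(s i : EuclideanSpace ℝ (Fin (m + 2))), s l⟫ = -1 / (t - 1 : ℝ)) →
      ∀ (K : Set (SS (EuclideanSpace ℝ (Fin (m + 2))))), IsClosed K →
      ∀ x0, ε ≤ (hm (EuclideanSpace ℝ (Fin (m + 2)))).real {g | sa g x0 ∈ K} →
      ∀ r0 : ℝ, 0 < r0 →
      p0 ≤ (hm (EuclideanSpace ℝ (Fin (m + 2)))).real {g | ∀ i, infDist (sa g (s i)) K < r0} := by
  obtain ⟨M, y0, c, N, m0, hM, hy0, hy, hc0, hN, hc, hc2⟩ := exists_params t ht ε hε hε1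
  have ht2 : (2 : ℝ) ≤ t := by exact_mod_cast ht
  have hpos : 0 < ((t : ℝ) * M) ^ (N + 3) := by positivity
  refine ⟨min 1 (((t * y0 / 2) ^ (N + 3) - c * (t * Psi ((t - 1) * M) ^ 2))
    / (t * M) ^ (N + 3)), m0, ?_, min_le_left _ _, ?_⟩
  · refine lt_min one_pos (div_pos (by linarith) hpos)
  · intro m hm s hs K hK x0 hKε r0 hr0
    refine (min_le_right _ _).trans ?_
    rw [div_le_iff₀ hpos]
    exact quant (by simp) ht s hs hM (by linarith) hε1 hy0 hy hc0 hN (hc m hm) K hK x0 hKε hr0

end Pool.Agent.helper440_simplex
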