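import Pool.Agent.helper440_simplex.Loc

/-! # Measurable selections -/

set_option autoImplicit false
set_option linter.unusedSectionVars false

namespace Pool.Agent.helper440_simplex

open MeasureTheory Metric Set Filter Topology

variable {E : Type*} [NormedAddCommGroup E] [InnerProductSpace ℝ E] [CompleteSpace E]
  [FiniteDimensional ℝ E] [MeasurableSpace E] [BorelSpace E]

theorem exists_sel (T : Set E) (hT : T.Nonempty) (R : ℝ) :
    ∃ (a : ℕ → E) (l : E → ℕ), Measurable l ∧ (∀ k, a k ∈ T) ∧
      ∀ y, infDist y T < R → dist y (a (l y)) < R := by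
  classical
  have hne : Nonempty T := hT.to_subtype
  obtain ⟨u, hu⟩ := TopologicalSpace.exists_dense_seq T
  set a : ℕ → E := fun k => (u k : E) with ha
  set p : E → ℕ → Prop := fun y k => dist y (a k) < R ∨ ∀ j, ¬ dist y (a j) < R with hp
  have hex : ∀ y, ∃ k, p y k := by
    intro y
    by_cases h : ∃ j, dist y (a j) < R
    · obtain ⟨j, hj⟩ := h
      exact ⟨j, Or.inl hj⟩
    · push Not at h
      exact ⟨0, Or.inr fun j => not_lt.2 (h j)⟩
  have hopen : ∀ k, MeasurableSet {y : E | dist y (a k) < R} := fun k =>
    (isOpen_lt (continuous_id.dist continuous_const) continuous_const).measurableSet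
  have hpm : ∀ k, MeasurableSet {y : E | p y k} := by
    intro k
    have e : {y : E | p y k} = {y : E | dist y (a k) < R} ∪ ⋂ j, {y : E | dist y (a j) < R}ᶜ := by
      ext y
      simp [hp]
    rw [e]
    exact (hopen k).union (MeasurableSet.iInter fun j => (hopen j).compl)
  refine ⟨a, fun y => Nat.find (hex y), measurable_find hex hpm, fun k => (u k).2, ?_⟩
  intro y hy
  obtain ⟨z, hz, hyz⟩ := (infDist_lt_iff hT).1 hy
  obtain ⟨k, hk⟩ := hu.exists_dist_lt (⟨z, hz⟩ : T) (ε := R - dist y z) (by linarith)
  have h1 : dist y (a k) < R := by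
    have h2 : dist z (a k) < R - dist y z := hk
    have := dist_triangle y z (a k)
    linarith
  rcases Nat.find_spec (hex y) with h | h
  · exact h
  · exact absurd h1 (h k)

theorem exists_maps (K : Set E) (hK : K.Nonempty) (Ω : E → Set E) (hΩ : ∀ x ∈ K, (Ω x).Nonempty)
    {d R : ℝ} (hd : 0 ≤ d) (hR : 0 ≤ R) :
    ∃ (u : E → E) (D : E → E → E), Measurable u ∧ Measurable (Function.uncurry D) ∧
      (∀ y, ‖u y‖ ≤ d) ∧ (∀ y ω, ‖D y ω‖ ≤ R) ∧
      (∀ y, infDist y K < d → y + u y ∈ K) ∧
      (∀ y ω, infDist y K < d → infDist ω (Ω (y + u y)) < R → ω + D y ω ∈ Ω (y + u y)) ∧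
      MeasurableSet {p : E × E | infDist p.1 K < d ∧ R ≤ infDist p.2 (Ω (p.1 + u p.1))} := by
  classical
  obtain ⟨a, l, hl, ha, hal⟩ := exists_sel K hK d
  have hb := fun k => exists_sel (Ω (a k)) (hΩ (a k) (ha k)) R
  choose b r hr hbm hbr using hb
  set u : E → E := fun y => if infDist y K < d then a (l y) - y else 0 with hu
  set G : ℕ → E → E := fun k ω => if infDist ω (Ω (a k)) < R then b k (r k ω) - ω else 0 with hG
  set D : E → E → E := fun y ω => if infDist y K < d then G (l y) ω else 0 with hD
  have hKm : MeasurableSet {y : E | infDist y K < d} :=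
    (isOpen_lt (continuous_infDist_pt K) continuous_const).measurableSet
  have hum : Measurable u :=
    Measurable.ite hKm ((measurable_from_nat.comp hl).sub measurable_id) measurable_const
  have hGm : ∀ k, Measurable (G k) := by
    intro k
    refine Measurable.ite ?_ ((measurable_from_nat.comp (hr k)).sub measurable_id)
      measurable_const
    exact (isOpen_lt (continuous_infDist_pt _) continuous_const).measurableSet
  have hGm2 : Measurable (Function.uncurry G) := measurable_from_prod_countable_right hGm
  have hGm3 : Measurable (fun p : E × E => G (l p.1) p.2) := by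
    have h4 : Measurable (fun p : E × E => (l p.1, p.2)) :=
      (hl.comp measurable_fst).prodMk measurable_snd
    have h5 := hGm2.comp h4
    exact h5
  have hKm2 : MeasurableSet {p : E × E | infDist p.1 K < d} := measurable_fst hKm
  have hDm : Measurable (Function.uncurry D) := by
    have e : Function.uncurry D
        = fun p : E × E => if infDist p.1 K < d then G (l p.1) p.2 else 0 := by
      funext p; rfl
    rw [e]
    exact Measurable.ite hKm2 hGm3 measurable_const
  have hux : ∀ y, infDist y K < d → y + u y = a (l y) := by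
    intro y hy
    simp only [hu, if_pos hy]
    abel
  refine ⟨u, D, hum, hDm, ?_, ?_, ?_, ?_, ?_⟩
  · intro y
    simp only [hu]
    split_ifs with h
    · have := hal y h
      rw [dist_eq_norm, norm_sub_rev] at this
      exact this.le
    · simpa using hd
  · intro y ω
    simp only [hD, hG]
    split_ifs with h h2
    · have := hbr (l y) ω h2
      rw [dist_eq_norm, norm_sub_rev] at this
      exact this.le
    · simpa using hR
    · simpa using hR
  · intro y hy
    rw [hux y hy]
    exact ha _
  · intro y ω hy hω
    rw [hux y hy] at hω ⊢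
    have e : ω + D y ω = b (l y) (r (l y) ω) := by
      simp only [hD, hG, if_pos hy, if_pos hω]
      abel
    rw [e]
    exact hbm _ _
  · have e : {p : E × E | infDist p.1 K < d ∧ R ≤ infDist p.2 (Ω (p.1 + u p.1))}
        = ⋃ k, ({p : E × E | infDist p.1 K < d} ∩ {p : E × E | l p.1 = k})
          ∩ {p : E × E | R ≤ infDist p.2 (Ω (a k))} := by
      ext p
      simp only [mem_ofPred_eq, mem_iUnion, mem_inter_iff]
      constructor
      · rintro ⟨h1, h2⟩
        refine ⟨l p.1, ⟨h1, rfl⟩, ?_⟩
        rwa [hux p.1 h1] at h2
      · rintro ⟨k, ⟨h1, rfl⟩, h3⟩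
        exact ⟨h1, by rwa [hux p.1 h1]⟩
    rw [e]
    refine MeasurableSet.iUnion fun k => ?_
    refine ((measurable_fst hKm).inter ?_).inter ?_
    · exact (hl.comp measurable_fst) (measurableSet_singleton k)
    · exact (isClosed_le continuous_const
        ((continuous_infDist_pt _).comp continuous_snd)).measurableSet

end Pool.Agent.helper440_simplex
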