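import Pool.Agent.helper440_simplex.Main1

/-! # The inequality for continuous functions -/

set_option autoImplicit false
set_option linter.unusedSectionVars false

namespace Pool.Agent.helper440_simplex

open MeasureTheory Metric Set Filter Topology
open scoped RealInnerProductSpace

variable {t : ℕ} {E : Type*} [NormedAddCommGroup E] [InnerProductSpace ℝ E] [CompleteSpace E]
  [FiniteDimensional ℝ E]

/-- a continuously differentiable function with its gradient -/
noncomputable def ofC1 (F : E → ℝ) (hF : ContDiff ℝ 1 F) : VV E :=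
  ⟨fun x => (F x, (InnerProductSpace.toDual ℝ E).symm (fderiv ℝ F x)), by
    refine (hF.continuous.comp continuous_subtype_val).prodMk ?_
    exact (InnerProductSpace.toDual ℝ E).symm.continuous.comp
      ((hF.continuous_fderiv (by norm_num)).comp continuous_subtype_val)⟩

theorem ofC1_fst (F : E → ℝ) (hF : ContDiff ℝ 1 F) (x : SS E) : (ofC1 F hF x).1 = F x := rfl

theorem ofC1_inner (F : E → ℝ) (hF : ContDiff ℝ 1 F) (x : SS E) (v : E) :
    ⟪(ofC1 F hF x).2, v⟫ = fderiv ℝ F x v := by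
  show ⟪(InnerProductSpace.toDual ℝ E).symm (fderiv ℝ F x), v⟫ = _
  rw [InnerProductSpace.toDual_symm_apply]

theorem ofC1_isGrad (F : E → ℝ) (hF : ContDiff ℝ 1 F) : IsGrad (ofC1 F hF) := by
  intro ε hε
  have hcomp : IsCompact (closedBall (0 : E) 1) := isCompact_closedBall 0 1
  have huc := hcomp.uniformContinuousOn_of_continuous
    (hF.continuous_fderiv (by norm_num)).continuousOn
  rw [Metric.uniformContinuousOn_iff] at huc
  obtain ⟨δ, hδ, h1⟩ := huc ε hε
  refine ⟨δ, hδ, fun x y hxy => ?_⟩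
  rw [ofC1_inner, ofC1_fst, ofC1_fst]
  have hx : (x : E) ∈ closedBall (0 : E) 1 := sphere_subset_closedBall x.2
  have hy : (y : E) ∈ closedBall (0 : E) 1 := sphere_subset_closedBall y.2
  have key := Convex.norm_image_sub_le_of_norm_hasFDerivWithin_le' (f := F) (C := ε)
    (s := closedBall (0 : E) 1 ∩ ball (x : E) δ) (x := (x : E)) (y := (y : E))
    (f' := fun z => fderiv ℝ F z) (φ := fderiv ℝ F x)
    (fun z _ => ((hF.differentiable (by norm_num)) z).hasFDerivAt.hasFDerivWithinAt)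
    (fun z hz => ?_) ((convex_closedBall 0 1).inter (convex_ball _ _))
    ⟨hx, mem_ball_self hδ⟩ ⟨hy, by rwa [mem_ball, dist_eq_norm]⟩
  · rwa [Real.norm_eq_abs] at key
  · have := h1 z hz.1 x hx hz.2
    rw [dist_eq_norm] at this
    exact this.le

/-- restrictions of continuously differentiable functions -/
noncomputable def C1alg (E : Type*) [NormedAddCommGroup E] [InnerProductSpace ℝ E] :
    Subalgebra ℝ C(SS E, ℝ) where
  carrier := {f | ∃ F : E → ℝ, ContDiff ℝ 1 F ∧ ∀ x : SS E, f x = F x}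
  mul_mem' := by
    rintro f g ⟨F, hF, hf⟩ ⟨G, hG, hg⟩
    exact ⟨fun x => F x * G x, hF.mul hG, fun x => by simp [hf, hg]⟩
  add_mem' := by
    rintro f g ⟨F, hF, hf⟩ ⟨G, hG, hg⟩
    exact ⟨fun x => F x + G x, hF.add hG, fun x => by simp [hf, hg]⟩
  algebraMap_mem' := by
    intro r
    exact ⟨fun _ => r, contDiff_const, fun x => by simp⟩

theorem C1alg_sep : (C1alg E).SeparatesPoints := by
  intro x y hxy
  have hne : (x : E) ≠ y := fun h => hxy (Subtype.ext h)
  refine ⟨_, ⟨⟨fun z : SS E => ⟪(x : E) - y, (z : E)⟫, by fun_prop⟩, ?_, rfl⟩, ?_⟩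
  · exact ⟨fun z => ⟪(x : E) - y, z⟫, (innerSL ℝ ((x : E) - y)).contDiff, fun z => rfl⟩
  · simp only [ContinuousMap.coe_mk]
    intro h
    rw [← sub_eq_zero, ← inner_sub_right, inner_self_eq_zero, sub_eq_zero] at h
    exact hne h

theorem exists_C1_near (f : C(SS E, ℝ)) {ε : ℝ} (hε : 0 < ε) :
    ∃ F : E → ℝ, ContDiff ℝ 1 F ∧ ∀ x : SS E, |F x - f x| ≤ ε := by
  obtain ⟨⟨g, F, hF, hg⟩, h⟩ :=
    ContinuousMap.exists_mem_subalgebra_near_continuousMap_of_separatesPoints (C1alg E)
      C1alg_sep f ε hε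
  refine ⟨F, hF, fun x => ?_⟩
  rw [← hg, ← Real.norm_eq_abs]
  exact (ContinuousMap.norm_coe_le_norm (g - f) x).trans h.le

/-- the inequality for continuous functions -/
theorem main_cont {m : ℕ} (hn : Module.finrank ℝ E = m + 2) (ht : 2 ≤ t) (s : Fin t → SS E)
    (hs : ∀ i l, i ≠ l → ⟪(s i : E), s l⟫ = -1 / (t - 1 : ℝ)) {B S0 c : ℝ} {N : ℕ}
    (hB : 0 < B) (hS : 0 < S0) (hN : t * B * (B + B ^ 2 * t / S0) ≤ N)
    (hc : 2 * KK t S0 N B * (t - 1) < 4 * c * (m + 1)) (f : C(SS E, ℝ))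
    (hr : ∀ x, f x ∈ Icc (-Psi B) (Psi B)) (x0 : SS E) :
    FF S0 N c (fun _ : Fin t => ∫ g, f (sa g x0) ∂(hm E))
      ≤ ∫ g, FF S0 N c (fun i => f (sa g (s i))) ∂(hm E) := by
  have hPs : 0 < Psi B := by
    rw [← Psi_zero]; exact Psi_strictMono hB
  have hL := LL_nonneg t S0 N c hB.le
  have hfc : ∀ x : SS E, Continuous (fun g : UG E => f (sa g x)) := fun x =>
    f.continuous.comp (sa_continuous_left x)
  have hmeanf : ∫ g, f (sa g x0) ∂(hm E) ∈ Icc (-Psi B) (Psi B) := by
    have hlow : ∫ _g : UG E, (-Psi B) ∂(hm E) ≤ ∫ g, f (sa g x0) ∂(hm E) :=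
      integral_mono (integrable_const _) (hm_integrable (hfc x0)) (fun g => (hr _).1)
    have hup : ∫ g, f (sa g x0) ∂(hm E) ≤ ∫ _g : UG E, (Psi B) ∂(hm E) :=
      integral_mono (hm_integrable (hfc x0)) (integrable_const _) (fun g => (hr _).2)
    rw [integral_const, probReal_univ, one_smul] at hlow hup
    exact ⟨hlow, hup⟩
  refine le_of_forall_pos_le_add fun ε hε => ?_
  obtain ⟨η, hη0, hη1, hη⟩ : ∃ η : ℝ, 0 < η ∧ η < 1 ∧
      2 * (LL t S0 N c B * (t * (2 * η * Psi B))) ≤ ε := by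
    set C := 4 * (LL t S0 N c B * (t * Psi B)) with hC
    have hC0 : 0 ≤ C := by positivity
    refine ⟨min (1 / 2) (ε / (C + 1)), by positivity, by
      refine lt_of_le_of_lt (min_le_left _ _) (by norm_num), ?_⟩
    have h1 : min (1 / 2) (ε / (C + 1)) ≤ ε / (C + 1) := min_le_right _ _
    have h2 : C * (ε / (C + 1)) ≤ ε := by
      rw [mul_div_assoc', div_le_iff₀ (by positivity)]
      nlinarith
    calc 2 * (LL t S0 N c B * (t * (2 * min (1 / 2) (ε / (C + 1)) * Psi B)))
        = C * min (1 / 2) (ε / (C + 1)) := by rw [hC]; ring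
      _ ≤ C * (ε / (C + 1)) := mul_le_mul_of_nonneg_left h1 hC0
      _ ≤ ε := h2
  obtain ⟨F, hF, hFf⟩ := exists_C1_near ((1 - η) • f) (ε := η * Psi B) (by positivity)
  set φ := ofC1 F hF with hφ
  have hclose : ∀ x, |(φ x).1 - (1 - η) * f x| ≤ η * Psi B := fun x => hFf x
  have habs : ∀ x, |f x| ≤ Psi B := fun x => abs_le.2 (hr x)
  have hrφ : ∀ x, (φ x).1 ∈ Icc (-Psi B) (Psi B) := by
    intro x
    have h1 := abs_le.1 (hclose x)
    have h2 := hr x
    have h3 : (1 - η) * f x ≤ (1 - η) * Psi B := mul_le_mul_of_nonneg_left h2.2 (by linarith)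
    have h4 : (1 - η) * (-Psi B) ≤ (1 - η) * f x := mul_le_mul_of_nonneg_left h2.1 (by linarith)
    constructor <;> linarith [h1.1, h1.2]
  have hd : ∀ x, |(φ x).1 - f x| ≤ 2 * η * Psi B := by
    intro x
    have h1 := abs_le.1 (hclose x)
    have h2 := hr x
    have h3 : η * f x ≤ η * Psi B := mul_le_mul_of_nonneg_left h2.2 hη0.le
    have h4 : η * (-Psi B) ≤ η * f x := mul_le_mul_of_nonneg_left h2.1 hη0.le
    rw [abs_le]
    constructor <;> linarith [h1.1, h1.2]
  have hφc : ∀ x : SS E, Continuous (fun g : UG E => (φ (sa g x)).1) := fun x =>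
    continuous_fst.comp (φ.continuous.comp (sa_continuous_left x))
  have hmain := main_ineq hn ht s hs hB.le hS hN hc (ofC1_isGrad F hF) hrφ x0
  have hmeanφ : ∫ g, (φ (sa g x0)).1 ∂(hm E) ∈ Icc (-Psi B) (Psi B) := by
    have hlow : ∫ _g : UG E, (-Psi B) ∂(hm E) ≤ ∫ g, (φ (sa g x0)).1 ∂(hm E) :=
      integral_mono (integrable_const _) (hm_integrable (hφc x0)) (fun g => (hrφ _).1)
    have hup : ∫ g, (φ (sa g x0)).1 ∂(hm E) ≤ ∫ _g : UG E, (Psi B) ∂(hm E) :=
      integral_mono (hm_integrable (hφc x0)) (integrable_const _) (fun g => (hrφ _).2)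
    rw [integral_const, probReal_univ, one_smul] at hlow hup
    exact ⟨hlow, hup⟩
  have hmd : |∫ g, f (sa g x0) ∂(hm E) - ∫ g, (φ (sa g x0)).1 ∂(hm E)| ≤ 2 * η * Psi B := by
    rw [← integral_sub (hm_integrable (hfc x0)) (hm_integrable (hφc x0))]
    have := norm_integral_le_of_norm_le_const (μ := hm E) (C := 2 * η * Psi B)
      (f := fun g => f (sa g x0) - (φ (sa g x0)).1) (Eventually.of_forall fun g => ?_)
    · simpa using this
    · rw [Real.norm_eq_abs, abs_sub_comm]
      exact hd _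
  have e1 : FF S0 N c (fun _ : Fin t => ∫ g, f (sa g x0) ∂(hm E))
      - FF S0 N c (fun _ : Fin t => ∫ g, (φ (sa g x0)).1 ∂(hm E))
      ≤ LL t S0 N c B * (t * (2 * η * Psi B)) := by
    refine (le_abs_self _).trans ((FF_lip hB.le S0 N c (fun _ => hmeanφ) (fun _ => hmeanf)).trans
      (mul_le_mul_of_nonneg_left ?_ hL))
    calc _ ≤ ∑ _l : Fin t, (2 * η * Psi B) := Finset.sum_le_sum fun l _ => hmd
      _ = _ := by simp
  have hPc : Continuous (fun g : UG E => (fun i => f (sa g (s i)) : Fin t → ℝ)) :=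
    continuous_pi fun i => hfc (s i)
  have e2 : ∫ g, FF S0 N c (val s φ g) ∂(hm E)
      ≤ ∫ g, (FF S0 N c (fun i => f (sa g (s i))) + LL t S0 N c B * (t * (2 * η * Psi B)))
        ∂(hm E) := by
    refine integral_mono (hm_integrable (FF_comp_cont hB.le S0 N c (val_cont s φ)
      (fun g i => hrφ _))) (hm_integrable ((FF_comp_cont hB.le S0 N c hPc
      (fun g i => hr _)).add continuous_const)) fun g => ?_
    have h1 : FF S0 N c (val s φ g) - FF S0 N c (fun i => f (sa g (s i)))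
        ≤ LL t S0 N c B * (t * (2 * η * Psi B)) := by
      refine (le_abs_self _).trans ((FF_lip hB.le S0 N c (p := fun i => f (sa g (s i)))
        (q := val s φ g) (fun i => hr _) (fun i => hrφ _)).trans
        (mul_le_mul_of_nonneg_left ?_ hL))
      calc _ ≤ ∑ _l : Fin t, (2 * η * Psi B) := Finset.sum_le_sum fun l _ => hd _
        _ = _ := by simp
    simp only
    linarith
  rw [integral_add (hm_integrable (FF_comp_cont hB.le S0 N c hPc (fun g i => hr _)))
    (integrable_const _), integral_const, probReal_univ, one_smul] at e2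
  linarith

end Pool.Agent.helper440_simplex
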