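import Pool.Agent.helper440_simplex.HeightLaw

set_option autoImplicit false
set_option linter.unusedSectionVars false

namespace Pool.Agent.helper440_simplex

open MeasureTheory Metric Set Filter Topology
open scoped RealInnerProductSpace

/-! # Spectral bounds for the averaging operators -/

-- tri_abs
theorem tri_abs_step {H : Type*} [NormedAddCommGroup H] [InnerProductSpace ℝ H]
    [CompleteSpace H] (T : H →L[ℝ] H) (hT : ∀ x y : H, ⟪T x, y⟫ = ⟪x, T y⟫)
    (W W' : Submodule ℝ H) (hW : ∀ w ∈ W, T w ∈ W) (l : ℝ)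
    (hc : ∀ w ∈ W', T w - l • w ∈ W) {θ : ℝ} (hθ : 0 ≤ θ) (hl : |l| ≤ θ) (p h : H)
    (hp : p ∈ W) (hh : h ∈ W') (hph : ∀ w ∈ W, ⟪w, h⟫ = 0) (hb : ‖T p‖ ≤ θ * ‖p‖) :
    ‖T (p + h)‖ ≤ θ * ‖p + h‖ := by
  have e1 : T h = l • h := by
    have hm := hc h hh
    have h0 : ⟪T h - l • h, T h - l • h⟫ = 0 := by
      conv_lhs => rw [inner_sub_left, hT, real_inner_smul_left]
      rw [real_inner_comm, hph _ (hW _ hm), real_inner_comm, hph _ hm]
      ring
    rw [inner_self_eq_zero] at h0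
    exact sub_eq_zero.mp h0
  have e2 : ‖T (p + h)‖ ^ 2 = ‖T p‖ ^ 2 + l ^ 2 * ‖h‖ ^ 2 := by
    rw [map_add, e1, norm_add_sq_real, real_inner_smul_right, hph _ (hW _ hp), norm_smul, mul_pow,
      Real.norm_eq_abs, sq_abs]
    ring
  have e3 : ‖p + h‖ ^ 2 = ‖p‖ ^ 2 + ‖h‖ ^ 2 := by
    rw [norm_add_sq_real, hph _ hp]
    ring
  have e4 : ‖T (p + h)‖ ^ 2 ≤ (θ * ‖p + h‖) ^ 2 := by
    rw [e2, mul_pow, e3]
    have a1 : ‖T p‖ ^ 2 ≤ (θ * ‖p‖) ^ 2 := pow_le_pow_left₀ (norm_nonneg _) hb 2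
    have a2 : l ^ 2 ≤ θ ^ 2 := by
      rw [← sq_abs l]
      exact pow_le_pow_left₀ (abs_nonneg _) hl 2
    have a3 : l ^ 2 * ‖h‖ ^ 2 ≤ θ ^ 2 * ‖h‖ ^ 2 :=
      mul_le_mul_of_nonneg_right a2 (sq_nonneg _)
    rw [mul_pow] at a1
    linarith [mul_add (θ ^ 2) (‖p‖ ^ 2) (‖h‖ ^ 2)]
  exact (sq_le_sq₀ (norm_nonneg _) (mul_nonneg hθ (norm_nonneg _))).mp e4

theorem tri_abs {H : Type*} [NormedAddCommGroup H] [InnerProductSpace ℝ H] [CompleteSpace H]
    (T : H →L[ℝ] H) (hT : ∀ x y : H, ⟪T x, y⟫ = ⟪x, T y⟫) (V : ℕ → Submodule ℝ H)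
    (hmono : Monotone V) (h0 : ∀ f ∈ V 0, T f ∈ V 0) (lam : ℕ → ℝ)
    (h : ∀ j, ∀ f ∈ V (j + 1), T f - lam (j + 1) • f ∈ V j)
    (hd : Dense (⋃ j, (V j : Set H))) (k : ℕ) {θ : ℝ} (hθ : 0 ≤ θ)
    (hlam : ∀ j, k < j → |lam j| ≤ θ) {f : H} (hf : ∀ g ∈ V k, ⟪g, f⟫ = 0) :
    ‖T f‖ ≤ θ * ‖f‖ := by
  have hA : ∀ j, ∀ g ∈ V j, T g ∈ V j := by
    intro j
    cases j with
    | zero => exact h0
    | succ j =>
      intro g hg
      have h1 := h j g hg
      have h2 : T g = (T g - lam (j + 1) • g) + lam (j + 1) • g := by abel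
      rw [h2]
      exact (V (j + 1)).add_mem (hmono (Nat.le_succ j) h1) ((V (j + 1)).smul_mem _ hg)
  set W : ℕ → Submodule ℝ H := fun j => (V j).topologicalClosure with hWdef
  have hWc : ∀ j, (W j : Set H) = closure (V j : Set H) := fun j => rfl
  have hVW : ∀ j, V j ≤ W j := fun j => (V j).le_topologicalClosure
  have hWmono : Monotone W := fun a b hab => Submodule.topologicalClosure_mono (hmono hab)
  have hB : ∀ j, ∀ g ∈ W j, T g ∈ W j := by
    intro j g hg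
    exact map_mem_closure T.continuous hg (fun x hx => hA j x hx)
  have hC : ∀ j, ∀ g ∈ W (j + 1), T g - lam (j + 1) • g ∈ W j := by
    intro j g hg
    have hc : Continuous (fun x : H => T x - lam (j + 1) • x) :=
      T.continuous.sub (continuous_const.smul continuous_id)
    exact map_mem_closure (f := fun x : H => T x - lam (j + 1) • x) hc hg (fun x hx => h j x hx)
  have : ∀ j, (W j).HasOrthogonalProjection := fun j => by
    have : CompleteSpace (W j) := (V j).isClosed_topologicalClosure.completeSpace_coe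
    infer_instance
  have hD : ∀ g ∈ W k, ⟪g, f⟫ = 0 := by
    intro g hg
    have hcl : IsClosed {x : H | ⟪x, f⟫ = 0} :=
      isClosed_eq (continuous_id.inner continuous_const) continuous_const
    exact closure_minimal (fun x hx => hf x hx) hcl hg
  have hmem : ∀ j, (W j).starProjection f ∈ W j := fun j => by
    rw [Submodule.starProjection_apply]
    exact Submodule.coe_mem _
  have hin : ∀ j, ∀ w ∈ W j, ⟪w, (W j).starProjection f⟫ = ⟪w, f⟫ := by
    intro j w hw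
    have h1 : ⟪w, f - (W j).starProjection f⟫ = 0 :=
      (W j).sub_starProjection_mem_orthogonal f w hw
    rw [inner_sub_right] at h1
    linarith
  have key : ∀ j, ‖T ((W (k + j)).starProjection f)‖ ≤ θ * ‖(W (k + j)).starProjection f‖ := by
    intro j
    induction j with
    | zero =>
      have hz : (W (k + 0)).starProjection f = 0 := by
        have h1 := hin k _ (hmem k)
        rw [hD _ (hmem k), inner_self_eq_zero] at h1
        exact h1
      rw [hz]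
      simp
    | succ j ih =>
      have hs : (W (k + (j + 1))).starProjection f = (W (k + j)).starProjection f
          + ((W (k + (j + 1))).starProjection f - (W (k + j)).starProjection f) := by abel
      rw [hs]
      refine tri_abs_step T hT (W (k + j)) (W (k + j + 1)) (hB _) (lam (k + j + 1)) (hC _) hθ
        (hlam _ (by omega)) _ _ (hmem _) ?_ ?_ ih
      · exact (W (k + j + 1)).sub_mem (hmem (k + j + 1)) (hWmono (Nat.le_succ _) (hmem _))
      · intro w hw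
        rw [inner_sub_right, hin _ w hw, hin _ w (hWmono (by omega) hw), sub_self]
  have hlim : Tendsto (fun j => (W j).starProjection f) atTop (𝓝 f) := by
    refine Submodule.starProjection_tendsto_self W hWmono f ?_
    intro x _
    have hsub : (⋃ j, (V j : Set H)) ⊆ ((⨆ t, W t : Submodule ℝ H) : Set H) := by
      intro y hy
      obtain ⟨j, hj⟩ := mem_iUnion.mp hy
      exact (le_iSup W j) (hVW j hj)
    exact closure_mono hsub (hd x)
  have hlim2 : Tendsto (fun j => (W (k + j)).starProjection f) atTop (𝓝 f) :=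
    hlim.comp (tendsto_atTop_mono (fun j => Nat.le_add_left j k) tendsto_id)
  exact le_of_tendsto_of_tendsto ((T.continuous.tendsto f).comp hlim2).norm
    (hlim2.norm.const_mul θ) (Eventually.of_forall key)

/-- the eigenvalues -/
noncomputable def lamj (m j : ℕ) (r : ℝ) : ℝ :=
  ∫ ξ : ℝ, om m ξ * (((r : ℂ) + Complex.I * (Real.sqrt (1 - r ^ 2) : ℂ) * (ξ : ℂ)) ^ j).re

-- om_sq
theorem om_sq_bs {s : ℝ} (h : s ∈ Icc (-1 : ℝ) 1) : bs s = 1 - s ^ 2 := by
  unfold bs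
  apply max_eq_right
  have h1 := h.1
  have h2 := h.2
  nlinarith

theorem om_sq {m : ℕ} (hm : 4 ≤ m) : ∫ ξ, om m ξ * ξ ^ 2 = 1 / m := by
  obtain ⟨hc, hcont, -, h1, -, -, -, hint, -, -⟩ := om_basic hm
  have hm' : (4 : ℝ) ≤ m := by exact_mod_cast hm
  set e : ℝ := ((m : ℝ) - 3) / 2 with he
  have he0 : 0 ≤ e := by rw [he]; linarith
  have he1 : 1 ≤ e + 1 := by linarith
  have hz : ∀ x : ℝ, x ∉ Ioc (-1 : ℝ) 1 → om m x = 0 := by
    intro x hx
    apply h1
    rw [mem_Ioc, not_and_or, not_lt, not_le] at hx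
    rcases hx with hx | hx
    · rw [abs_of_nonpos (by linarith)]; linarith
    · rw [abs_of_pos (by linarith)]; linarith
  have hle : (-1 : ℝ) ≤ 1 := by norm_num
  have e1 : ∫ ξ, om m ξ * ξ ^ 2 = ∫ s in (-1 : ℝ)..1, cn m * (1 - s ^ 2) ^ e * s ^ 2 := by
    rw [intervalIntegral.integral_of_le hle,
      ← setIntegral_eq_integral_of_forall_compl_eq_zero (s := Ioc (-1 : ℝ) 1)
        (fun x hx => by rw [hz x hx, zero_mul])]
    refine setIntegral_congr_fun measurableSet_Ioc fun s hs => ?_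
    show om m s * s ^ 2 = _
    unfold om
    rw [om_sq_bs (Ioc_subset_Icc_self hs)]
  have e2 : (1 : ℝ) = ∫ s in (-1 : ℝ)..1, cn m * (1 - s ^ 2) ^ e := by
    refine hint.symm.trans ?_
    rw [intervalIntegral.integral_of_le hle,
      ← setIntegral_eq_integral_of_forall_compl_eq_zero (s := Ioc (-1 : ℝ) 1) hz]
    refine setIntegral_congr_fun measurableSet_Ioc fun s hs => ?_
    show om m s = _
    unfold om
    rw [om_sq_bs (Ioc_subset_Icc_self hs)]
  have hpc : Continuous fun s : ℝ => (1 - s ^ 2) ^ e :=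
    (by fun_prop : Continuous fun s : ℝ => 1 - s ^ 2).rpow_const fun _ => Or.inr he0
  have hpc1 : Continuous fun s : ℝ => (1 - s ^ 2) ^ (e + 1) :=
    (by fun_prop : Continuous fun s : ℝ => 1 - s ^ 2).rpow_const fun _ => Or.inr (by linarith)
  have hder : ∀ s ∈ uIcc (-1 : ℝ) 1, HasDerivAt (fun s : ℝ => s * (1 - s ^ 2) ^ (e + 1))
      ((1 - s ^ 2) ^ (e + 1) - (m - 1) * ((1 - s ^ 2) ^ e * s ^ 2)) s := by
    intro s _
    have d1 : HasDerivAt (fun s : ℝ => 1 - s ^ 2) (-(2 * s)) s := by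
      have := (hasDerivAt_pow 2 s).const_sub 1
      simpa using this
    have d2 := (d1.rpow_const (p := e + 1) (Or.inr he1))
    have d3 := (hasDerivAt_id s).mul d2
    have d4 : HasDerivAt (fun s : ℝ => s * (1 - s ^ 2) ^ (e + 1))
        (1 * (1 - s ^ 2) ^ (e + 1) + s * (-(2 * s) * (e + 1) * (1 - s ^ 2) ^ (e + 1 - 1))) s := d3
    have h5 : (1 * (1 - s ^ 2) ^ (e + 1) + s * (-(2 * s) * (e + 1) * (1 - s ^ 2) ^ (e + 1 - 1)))
        = (1 - s ^ 2) ^ (e + 1) - (m - 1) * ((1 - s ^ 2) ^ e * s ^ 2) := by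
      rw [add_sub_cancel_right]
      have : (m : ℝ) - 1 = 2 * (e + 1) := by rw [he]; ring
      rw [this]
      ring
    rw [h5] at d4
    exact d4
  have hftc := intervalIntegral.integral_eq_sub_of_hasDerivAt hder
    (by
      apply Continuous.intervalIntegrable
      exact hpc1.sub (continuous_const.mul (hpc.mul (by fun_prop))))
  have hF1 : (fun s : ℝ => s * (1 - s ^ 2) ^ (e + 1)) 1 = 0 := by
    have : (1 - (1 : ℝ) ^ 2) = 0 := by norm_num
    simp only [this]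
    rw [Real.zero_rpow (by linarith)]
    ring
  have hF2 : (fun s : ℝ => s * (1 - s ^ 2) ^ (e + 1)) (-1) = 0 := by
    have : (1 - (-1 : ℝ) ^ 2) = 0 := by norm_num
    simp only [this]
    rw [Real.zero_rpow (by linarith)]
    ring
  rw [show (1 : ℝ) * (1 - 1 ^ 2) ^ (e + 1) = 0 from hF1,
    show (-1 : ℝ) * (1 - (-1) ^ 2) ^ (e + 1) = 0 from hF2, sub_zero] at hftc
  have hsplit : ∫ s in (-1 : ℝ)..1, ((1 - s ^ 2) ^ (e + 1) - (m - 1) * ((1 - s ^ 2) ^ e * s ^ 2))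
      = (∫ s in (-1 : ℝ)..1, (1 - s ^ 2) ^ e)
        - (m : ℝ) * ∫ s in (-1 : ℝ)..1, (1 - s ^ 2) ^ e * s ^ 2 := by
    rw [← intervalIntegral.integral_const_mul, ← intervalIntegral.integral_sub]
    · apply intervalIntegral.integral_congr
      intro s hs
      rw [uIcc_of_le hle] at hs
      have hb : 0 ≤ 1 - s ^ 2 := by
        have := om_sq_bs hs
        rw [← this]
        exact le_max_left _ _
      show (1 - s ^ 2) ^ (e + 1) - (m - 1) * ((1 - s ^ 2) ^ e * s ^ 2)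
        = (1 - s ^ 2) ^ e - m * ((1 - s ^ 2) ^ e * s ^ 2)
      rw [Real.rpow_add_one' hb (by linarith)]
      ring
    · exact hpc.intervalIntegrable _ _
    · exact (continuous_const.mul (hpc.mul (by fun_prop))).intervalIntegrable _ _
  rw [hsplit] at hftc
  have e3 : ∫ s in (-1 : ℝ)..1, cn m * (1 - s ^ 2) ^ e * s ^ 2
      = cn m * ∫ s in (-1 : ℝ)..1, (1 - s ^ 2) ^ e * s ^ 2 := by
    rw [← intervalIntegral.integral_const_mul]
    congr 1
    funext s
    ring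
  rw [intervalIntegral.integral_const_mul] at e2
  rw [e1, e3]
  have hm0 : (m : ℝ) ≠ 0 := by linarith
  rw [eq_div_iff hm0]
  have h6 : (∫ s in (-1 : ℝ)..1, (1 - s ^ 2) ^ e)
      = (m : ℝ) * ∫ s in (-1 : ℝ)..1, (1 - s ^ 2) ^ e * s ^ 2 := by linarith
  rw [h6] at e2
  linarith

-- om_inv
theorem om_inv_ibp {k : ℝ} (hk : 1 ≤ k) :
    (2 * k) * ∫ ξ in (-1 : ℝ)..1, (1 - ξ ^ 2) ^ (k - 1) =
      (2 * k + 1) * ∫ ξ in (-1 : ℝ)..1, (1 - ξ ^ 2) ^ k := by
  have c1 : Continuous (fun ξ : ℝ => (1 - ξ ^ 2) ^ (k - 1)) :=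
    (Real.continuous_rpow_const (by linarith)).comp (by fun_prop)
  have c2 : Continuous (fun ξ : ℝ => (1 - ξ ^ 2) ^ k) :=
    (Real.continuous_rpow_const (by linarith)).comp (by fun_prop)
  have hder : ∀ ξ ∈ uIcc (-1 : ℝ) 1, HasDerivAt (fun ξ : ℝ => ξ * (1 - ξ ^ 2) ^ k)
      (1 * (1 - ξ ^ 2) ^ k + ξ * ((-(2 * ξ)) * k * (1 - ξ ^ 2) ^ (k - 1))) ξ := by
    intro ξ _
    have h1 : HasDerivAt (fun ξ : ℝ => 1 - ξ ^ 2) (-(2 * ξ)) ξ := by
      have := (hasDerivAt_pow 2 ξ).const_sub 1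
      simpa using this
    exact (hasDerivAt_id ξ).mul (h1.rpow_const (Or.inr hk))
  have c3 : Continuous (fun ξ : ℝ => 1 * (1 - ξ ^ 2) ^ k + ξ * ((-(2 * ξ)) * k * (1 - ξ ^ 2) ^ (k - 1))) := by
    fun_prop
  have h1 := intervalIntegral.integral_eq_sub_of_hasDerivAt hder (c3.intervalIntegrable _ _)
  have h2 : ∫ ξ in (-1 : ℝ)..1, (1 * (1 - ξ ^ 2) ^ k + ξ * ((-(2 * ξ)) * k * (1 - ξ ^ 2) ^ (k - 1))) =
      ∫ ξ in (-1 : ℝ)..1, ((2 * k + 1) * (1 - ξ ^ 2) ^ k - (2 * k) * (1 - ξ ^ 2) ^ (k - 1)) := by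
    apply intervalIntegral.integral_congr
    intro ξ hξ
    rw [uIcc_of_le (by norm_num : (-1 : ℝ) ≤ 1), mem_Icc] at hξ
    have h3 : 0 ≤ 1 - ξ ^ 2 := by nlinarith [hξ.1, hξ.2]
    have h4 : (1 - ξ ^ 2) ^ k = (1 - ξ ^ 2) ^ (k - 1) * (1 - ξ ^ 2) := by
      rcases h3.eq_or_lt with h0 | h0
      · rw [← h0, Real.zero_rpow (by linarith), mul_zero]
      · rw [← Real.rpow_add_one h0.ne' (k - 1), sub_add_cancel]
    simp only
    rw [h4]
    ring
  rw [h2, intervalIntegral.integral_sub ((c2.const_mul _).intervalIntegrable _ _)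
    ((c1.const_mul _).intervalIntegrable _ _), intervalIntegral.integral_const_mul,
    intervalIntegral.integral_const_mul] at h1
  have h5 : (0 : ℝ) ^ k = 0 := Real.zero_rpow (by linarith)
  norm_num at h1
  rw [h5] at h1
  linarith

theorem om_inv {m : ℕ} (hm : 5 ≤ m) : Integrable (fun ξ => om m ξ / (1 - ξ ^ 2)) ∧
    ∫ ξ, om m ξ / (1 - ξ ^ 2) ≤ 3 / 2 := by
  obtain ⟨k, hk⟩ : ∃ k : ℝ, k = ((m : ℝ) - 3) / 2 := ⟨_, rfl⟩
  have hm5 : (5 : ℝ) ≤ m := by exact_mod_cast hm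
  have hk1 : 1 ≤ k := by rw [hk]; linarith
  have hcn : 0 < cn m := (om_basic (n := m) (by omega)).1
  have hom0 : ∀ s, 1 ≤ |s| → om m s = 0 := (om_basic (n := m) (by omega)).2.2.2.1
  have c1 : Continuous (fun ξ : ℝ => (1 - ξ ^ 2) ^ (k - 1)) :=
    (Real.continuous_rpow_const (by linarith)).comp (by fun_prop)
  have c2 : Continuous (fun ξ : ℝ => (1 - ξ ^ 2) ^ k) :=
    (Real.continuous_rpow_const (by linarith)).comp (by fun_prop)
  have hA : ∫ ξ, bs ξ ^ k = ∫ ξ in (-1 : ℝ)..1, (1 - ξ ^ 2) ^ k := by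
    rw [intervalIntegral.integral_of_le (by norm_num)]
    rw [← setIntegral_eq_integral_of_forall_compl_eq_zero (s := Ioc (-1 : ℝ) 1)]
    · apply setIntegral_congr_fun measurableSet_Ioc
      intro ξ hξ
      have h3 : 0 ≤ 1 - ξ ^ 2 := by nlinarith [hξ.1, hξ.2]
      simp only [bs, max_eq_right h3]
    · intro ξ hξ
      have h3 : 1 - ξ ^ 2 ≤ 0 := by
        rw [mem_Ioc, not_and_or, not_lt, not_le] at hξ
        rcases hξ with h | h <;> nlinarith
      rw [bs, max_eq_left h3, Real.zero_rpow (by linarith)]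
  have hpt : ∀ ξ ∈ Ioo (-1 : ℝ) 1, om m ξ / (1 - ξ ^ 2) = cn m * (1 - ξ ^ 2) ^ (k - 1) := by
    intro ξ hξ
    have h3 : 0 < 1 - ξ ^ 2 := by nlinarith [hξ.1, hξ.2]
    rw [om, bs, max_eq_right h3.le, ← hk, Real.rpow_sub_one h3.ne' k]
    ring
  have hout : ∀ ξ, ξ ∉ Ioo (-1 : ℝ) 1 → om m ξ / (1 - ξ ^ 2) = 0 := by
    intro ξ hξ
    rw [hom0 ξ, zero_div]
    by_contra hc
    rw [not_le, abs_lt] at hc
    exact hξ hc
  have hint : IntegrableOn (fun ξ => cn m * (1 - ξ ^ 2) ^ (k - 1)) (Ioo (-1 : ℝ) 1) :=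
    ((c1.const_mul (cn m)).integrableOn_Icc (a := -1) (b := 1)).mono_set Ioo_subset_Icc_self
  have hint2 : IntegrableOn (fun ξ => om m ξ / (1 - ξ ^ 2)) (Ioo (-1 : ℝ) 1) :=
    hint.congr_fun (fun ξ hξ => (hpt ξ hξ).symm) measurableSet_Ioo
  constructor
  · refine (integrableOn_iff_integrable_of_support_subset ?_).1 hint2
    intro ξ hξ
    by_contra hc
    exact hξ (hout ξ hc)
  · rw [← setIntegral_eq_integral_of_forall_compl_eq_zero hout,
      setIntegral_congr_fun measurableSet_Ioo hpt, ← integral_Ioc_eq_integral_Ioo,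
      ← intervalIntegral.integral_of_le (by norm_num), intervalIntegral.integral_const_mul]
    have hib := om_inv_ibp hk1
    have hcnA : cn m = (∫ ξ in (-1 : ℝ)..1, (1 - ξ ^ 2) ^ k)⁻¹ := by
      rw [← hA, cn, hk]
    obtain ⟨A, hAA⟩ : ∃ A : ℝ, A = ∫ ξ in (-1 : ℝ)..1, (1 - ξ ^ 2) ^ k := ⟨_, rfl⟩
    obtain ⟨B, hBB⟩ : ∃ B : ℝ, B = ∫ ξ in (-1 : ℝ)..1, (1 - ξ ^ 2) ^ (k - 1) := ⟨_, rfl⟩
    rw [← hAA, ← hBB] at hib
    rw [← hAA] at hcnA
    rw [← hBB]
    have hA0 : 0 < A := by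
      rw [hcnA] at hcn
      exact inv_pos.1 hcn
    rw [hcnA, inv_mul_le_iff₀ hA0]
    have h5 : (2 * k) * B ≤ (2 * k) * (A * (3 / 2)) := by
      rw [hib]
      nlinarith
    exact le_of_mul_le_mul_left h5 (by linarith)

-- lam_bounds
theorem lam_bounds_int {m : ℕ} (hm : 4 ≤ m) {g : ℝ → ℝ} (hg : Continuous g) :
    Integrable (fun ξ => om m ξ * g ξ) := by
  obtain ⟨-, hc, -, h0, -⟩ := om_basic hm
  refine (hc.mul hg).integrable_of_hasCompactSupport ?_
  refine HasCompactSupport.intro (isCompact_Icc (a := (-1 : ℝ)) (b := 1)) ?_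
  intro x hx
  have h1 : 1 ≤ |x| := by
    by_contra h
    push Not at h
    exact hx ⟨(abs_lt.1 h).1.le, (abs_lt.1 h).2.le⟩
  change om m x * g x = 0
  rw [h0 x h1, zero_mul]

theorem lam_bounds_pt {r ξ : ℝ} (hr : |r| ≤ 1) (hξ : |ξ| ≤ 1) {j : ℕ} (hj : 2 ≤ j) :
    |(((r : ℂ) + Complex.I * (Real.sqrt (1 - r ^ 2) : ℂ) * (ξ : ℂ)) ^ j).re|
      ≤ r ^ 2 + (1 - r ^ 2) * ξ ^ 2 := by
  set z : ℂ := (r : ℂ) + Complex.I * (Real.sqrt (1 - r ^ 2) : ℂ) * (ξ : ℂ) with hz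
  have hr2 : r ^ 2 ≤ 1 := by
    have := sq_abs r
    have h3 := abs_nonneg r
    nlinarith
  have hξ2 : ξ ^ 2 ≤ 1 := by
    have := sq_abs ξ
    have h3 := abs_nonneg ξ
    nlinarith
  have hs : Real.sqrt (1 - r ^ 2) ^ 2 = 1 - r ^ 2 := Real.sq_sqrt (by linarith)
  have hre : z.re = r := by simp [hz]
  have him : z.im = Real.sqrt (1 - r ^ 2) * ξ := by simp [hz]
  have hn : ‖z‖ ^ 2 = r ^ 2 + (1 - r ^ 2) * ξ ^ 2 := by
    rw [Complex.sq_norm, Complex.normSq_apply, hre, him]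
    nlinarith
  have hn1 : ‖z‖ ≤ 1 := by
    have h4 : ‖z‖ ^ 2 ≤ 1 := by
      rw [hn]
      nlinarith
    nlinarith [norm_nonneg z]
  calc |(z ^ j).re| ≤ ‖z ^ j‖ := Complex.abs_re_le_norm _
    _ = ‖z‖ ^ j := norm_pow _ _
    _ ≤ ‖z‖ ^ 2 := pow_le_pow_of_le_one (norm_nonneg z) hn1 hj
    _ = r ^ 2 + (1 - r ^ 2) * ξ ^ 2 := hn

theorem lam_bounds {m : ℕ} (hm : 4 ≤ m) {r : ℝ} (hr : |r| ≤ 1) : lamj m 0 r = 1 ∧
    lamj m 1 r = r ∧ ∀ j, 2 ≤ j → |lamj m j r| ≤ r ^ 2 + 1 / m := by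
  obtain ⟨-, hc, hnn, h0, -, -, hint, h1, -⟩ := om_basic hm
  have hr2 : r ^ 2 ≤ 1 := by
    have := sq_abs r
    have h3 := abs_nonneg r
    nlinarith
  refine ⟨?_, ?_, ?_⟩
  · unfold lamj
    simp [h1]
  · unfold lamj
    have h2 : ∀ ξ : ℝ, om m ξ *
        (((r : ℂ) + Complex.I * (Real.sqrt (1 - r ^ 2) : ℂ) * (ξ : ℂ)) ^ 1).re = om m ξ * r := by
      intro ξ
      simp
    simp only [h2]
    rw [integral_mul_const, h1, one_mul]
  · intro j hj
    have hgc : Continuous fun ξ : ℝ =>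
        (((r : ℂ) + Complex.I * (Real.sqrt (1 - r ^ 2) : ℂ) * (ξ : ℂ)) ^ j).re := by
      fun_prop
    have hi1 := lam_bounds_int hm hgc
    have hi2 : Integrable (fun ξ => om m ξ * (r ^ 2 + (1 - r ^ 2) * ξ ^ 2)) :=
      lam_bounds_int hm (by fun_prop)
    have hi3 : Integrable (fun ξ => om m ξ * ξ ^ 2) := lam_bounds_int hm (by fun_prop)
    have hle : |lamj m j r| ≤ ∫ ξ, om m ξ * (r ^ 2 + (1 - r ^ 2) * ξ ^ 2) := by
      unfold lamj
      refine (abs_integral_le_integral_abs).trans ?_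
      refine integral_mono hi1.abs hi2 ?_
      intro ξ
      show |om m ξ * (((r : ℂ) + Complex.I * (Real.sqrt (1 - r ^ 2) : ℂ) * (ξ : ℂ)) ^ j).re|
        ≤ om m ξ * (r ^ 2 + (1 - r ^ 2) * ξ ^ 2)
      rcases le_total |ξ| 1 with h | h
      · rw [abs_mul, abs_of_nonneg (hnn ξ)]
        exact mul_le_mul_of_nonneg_left (lam_bounds_pt hr h hj) (hnn ξ)
      · rw [h0 ξ h, zero_mul, zero_mul, abs_zero]
    have heq : ∫ ξ, om m ξ * (r ^ 2 + (1 - r ^ 2) * ξ ^ 2) = r ^ 2 + (1 - r ^ 2) * (1 / m) := by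
      have h3 : ∀ ξ : ℝ, om m ξ * (r ^ 2 + (1 - r ^ 2) * ξ ^ 2)
          = r ^ 2 * om m ξ + (1 - r ^ 2) * (om m ξ * ξ ^ 2) := fun ξ => by ring
      simp only [h3]
      rw [integral_add (hint.const_mul _) (hi3.const_mul _), integral_const_mul,
        integral_const_mul, h1, om_sq hm, mul_one]
    rw [heq] at hle
    have h5 : (0 : ℝ) ≤ 1 / m := by positivity
    nlinarith [sq_nonneg r]

-- lam_diff
theorem lam_diff_pow {z w : ℂ} {q : ℝ} (hq0 : 0 ≤ q) (hq : q < 1) (hz : ‖z‖ ≤ q) (hw : ‖w‖ ≤ q)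
    (j : ℕ) : ‖z ^ j - w ^ j‖ * (1 - q) ≤ (1 - q ^ j) * ‖z - w‖ := by
  induction j with
  | zero => simp
  | succ j ih =>
    have e : z ^ (j + 1) - w ^ (j + 1) = z * (z ^ j - w ^ j) + (z - w) * w ^ j := by ring
    have h1 : ‖z ^ (j + 1) - w ^ (j + 1)‖ ≤ q * ‖z ^ j - w ^ j‖ + ‖z - w‖ * q ^ j := by
      rw [e]
      refine (norm_add_le _ _).trans ?_
      rw [norm_mul, norm_mul, norm_pow]
      gcongr
    have h2 : q ^ j ≤ 1 := pow_le_one₀ hq0 hq.le
    have h3 : 0 ≤ ‖z - w‖ := norm_nonneg _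
    calc ‖z ^ (j + 1) - w ^ (j + 1)‖ * (1 - q)
        ≤ (q * ‖z ^ j - w ^ j‖ + ‖z - w‖ * q ^ j) * (1 - q) :=
          mul_le_mul_of_nonneg_right h1 (by linarith)
      _ = q * (‖z ^ j - w ^ j‖ * (1 - q)) + ‖z - w‖ * (q ^ j * (1 - q)) := by ring
      _ ≤ q * ((1 - q ^ j) * ‖z - w‖) + ‖z - w‖ * (q ^ j * (1 - q)) := by gcongr
      _ = (1 - q ^ (j + 1)) * ‖z - w‖ - (1 - q ^ j) * (1 - q) * ‖z - w‖ := by ring
      _ ≤ (1 - q ^ (j + 1)) * ‖z - w‖ := by
          have : 0 ≤ (1 - q ^ j) * (1 - q) * ‖z - w‖ :=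
            mul_nonneg (mul_nonneg (by linarith) (by linarith)) h3
          linarith

theorem lam_diff_sqrt {r r' : ℝ} (hr : |r| ≤ 3 / 4) (hr' : |r'| ≤ 3 / 4) :
    |Real.sqrt (1 - r ^ 2) - Real.sqrt (1 - r' ^ 2)| ≤ 3 / 2 * |r - r'| := by
  have a1 : ∀ t : ℝ, |t| ≤ 3 / 4 → (1 / 4 : ℝ) ≤ 1 - t ^ 2 := by
    intro t ht
    have := abs_le.mp ht
    nlinarith [this.1, this.2]
  have a2 : ∀ t : ℝ, |t| ≤ 3 / 4 → (1 / 2 : ℝ) ≤ Real.sqrt (1 - t ^ 2) := by
    intro t ht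
    refine Real.le_sqrt_of_sq_le ?_
    have := a1 t ht
    norm_num at this ⊢
    linarith
  set s := Real.sqrt (1 - r ^ 2) with hs
  set s' := Real.sqrt (1 - r' ^ 2) with hs'
  have h1 : s ^ 2 = 1 - r ^ 2 := Real.sq_sqrt (by linarith [a1 r hr])
  have h2 : s' ^ 2 = 1 - r' ^ 2 := Real.sq_sqrt (by linarith [a1 r' hr'])
  have h3 := a2 r hr
  have h4 := a2 r' hr'
  rw [← hs] at h3
  rw [← hs'] at h4
  have h5 : |s - s'| * (s + s') = |r - r'| * |r + r'| := by
    rw [← abs_of_nonneg (show 0 ≤ s + s' by linarith), ← abs_mul, ← abs_mul]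
    rw [show (s - s') * (s + s') = -((r - r') * (r + r')) by ring_nf; linarith, abs_neg]
  have h6 : |r + r'| ≤ 3 / 2 := (abs_add_le _ _).trans (by linarith)
  calc |s - s'| ≤ |s - s'| * (s + s') := le_mul_of_one_le_right (abs_nonneg _) (by linarith)
    _ = |r - r'| * |r + r'| := h5
    _ ≤ |r - r'| * (3 / 2) := mul_le_mul_of_nonneg_left h6 (abs_nonneg _)
    _ = 3 / 2 * |r - r'| := mul_comm _ _

theorem lam_diff_norm {r ξ : ℝ} (hr : |r| ≤ 3 / 4) (hξ : |ξ| < 1) :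
    ‖(r : ℂ) + Complex.I * (Real.sqrt (1 - r ^ 2) : ℂ) * (ξ : ℂ)‖
      ≤ Real.sqrt (9 / 16 + 7 / 16 * ξ ^ 2) := by
  have hr2 : r ^ 2 ≤ 9 / 16 := by
    have := abs_le.mp hr
    nlinarith [this.1, this.2]
  have hξ2 : ξ ^ 2 ≤ 1 := by
    have := abs_lt.mp hξ
    nlinarith [this.1, this.2]
  rw [Complex.norm_def]
  refine Real.sqrt_le_sqrt ?_
  rw [Complex.normSq_apply]
  have e1 : ((r : ℂ) + Complex.I * (Real.sqrt (1 - r ^ 2) : ℂ) * (ξ : ℂ)).re = r := by
    simp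
  have e2 : ((r : ℂ) + Complex.I * (Real.sqrt (1 - r ^ 2) : ℂ) * (ξ : ℂ)).im
      = Real.sqrt (1 - r ^ 2) * ξ := by
    simp
  rw [e1, e2]
  have h1 : Real.sqrt (1 - r ^ 2) ^ 2 = 1 - r ^ 2 := Real.sq_sqrt (by linarith)
  have h2 : Real.sqrt (1 - r ^ 2) * ξ * (Real.sqrt (1 - r ^ 2) * ξ) = (1 - r ^ 2) * ξ ^ 2 := by
    rw [mul_mul_mul_comm, ← pow_two, ← pow_two, h1]
  rw [h2]
  nlinarith [mul_nonneg (sub_nonneg.mpr hr2) (sub_nonneg.mpr hξ2)]

theorem lam_diff_pt {r r' ξ : ℝ} (hr : |r| ≤ 3 / 4) (hr' : |r'| ≤ 3 / 4) (hξ : |ξ| < 1) (j : ℕ) :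
    |((((r : ℂ) + Complex.I * (Real.sqrt (1 - r ^ 2) : ℂ) * (ξ : ℂ)) ^ j).re)
      - ((((r' : ℂ) + Complex.I * (Real.sqrt (1 - r' ^ 2) : ℂ) * (ξ : ℂ)) ^ j).re)|
      ≤ 80 / 7 * |r - r'| * (1 / (1 - ξ ^ 2)) := by
  set z : ℂ := (r : ℂ) + Complex.I * (Real.sqrt (1 - r ^ 2) : ℂ) * (ξ : ℂ) with hz
  set w : ℂ := (r' : ℂ) + Complex.I * (Real.sqrt (1 - r' ^ 2) : ℂ) * (ξ : ℂ) with hw
  set q : ℝ := Real.sqrt (9 / 16 + 7 / 16 * ξ ^ 2) with hq
  have hξ2 : ξ ^ 2 < 1 := by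
    have := abs_lt.mp hξ
    nlinarith [this.1, this.2]
  have hq2 : q ^ 2 = 9 / 16 + 7 / 16 * ξ ^ 2 := Real.sq_sqrt (by positivity)
  have hq0 : 0 ≤ q := Real.sqrt_nonneg _
  have hq1 : q < 1 := by nlinarith
  have h1 := lam_diff_pow hq0 hq1 (lam_diff_norm hr hξ) (lam_diff_norm hr' hξ) j
  rw [← hz, ← hw] at h1
  have h2 : ‖z - w‖ ≤ 5 / 2 * |r - r'| := by
    have e : z - w = ((r - r' : ℝ) : ℂ)
        + Complex.I * (((Real.sqrt (1 - r ^ 2) - Real.sqrt (1 - r' ^ 2)) * ξ : ℝ) : ℂ) := by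
      rw [hz, hw]; push_cast; ring
    rw [e]
    refine (norm_add_le _ _).trans ?_
    rw [norm_mul, Complex.norm_I, one_mul, Complex.norm_real, Complex.norm_real, Real.norm_eq_abs,
      Real.norm_eq_abs, abs_mul]
    have := mul_le_mul (lam_diff_sqrt hr hr') hξ.le (abs_nonneg _) (by positivity)
    linarith
  have h3 : |(z ^ j).re - (w ^ j).re| ≤ ‖z ^ j - w ^ j‖ := by
    rw [← Complex.sub_re]; exact Complex.abs_re_le_norm _
  have h4 : 0 ≤ q ^ j := pow_nonneg hq0 j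
  have h5 : ‖z ^ j - w ^ j‖ * (1 - q) ≤ 5 / 2 * |r - r'| := by
    refine h1.trans ?_
    have : (1 - q ^ j) * ‖z - w‖ ≤ 1 * ‖z - w‖ :=
      mul_le_mul_of_nonneg_right (by linarith) (norm_nonneg _)
    linarith
  have h6 : ‖z ^ j - w ^ j‖ * (1 - q ^ 2) ≤ 5 * |r - r'| := by
    have e : ‖z ^ j - w ^ j‖ * (1 - q ^ 2) = ‖z ^ j - w ^ j‖ * (1 - q) * (1 + q) := by ring
    rw [e]
    calc ‖z ^ j - w ^ j‖ * (1 - q) * (1 + q) ≤ 5 / 2 * |r - r'| * (1 + q) :=
          mul_le_mul_of_nonneg_right h5 (by linarith)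
      _ ≤ 5 / 2 * |r - r'| * 2 :=
          mul_le_mul_of_nonneg_left (by linarith) (by positivity)
      _ = 5 * |r - r'| := by ring
  have h7 : 1 - q ^ 2 = 7 / 16 * (1 - ξ ^ 2) := by rw [hq2]; ring
  rw [h7] at h6
  have h8 : 0 < 1 - ξ ^ 2 := by linarith
  refine h3.trans ?_
  rw [mul_one_div, le_div_iff₀ h8]
  nlinarith

theorem lam_diff_intg {m : ℕ} (hm : 5 ≤ m) (r : ℝ) (j : ℕ) : Integrable (fun ξ : ℝ =>
    om m ξ * (((r : ℂ) + Complex.I * (Real.sqrt (1 - r ^ 2) : ℂ) * (ξ : ℂ)) ^ j).re) := by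
  obtain ⟨-, hc, -, h0, -⟩ := om_basic (n := m) (by omega)
  refine Continuous.integrable_of_hasCompactSupport ?_ ?_
  · refine hc.mul (Complex.continuous_re.comp ?_)
    fun_prop
  · refine HasCompactSupport.mul_right ?_
    refine HasCompactSupport.intro (K := Icc (-1) 1) isCompact_Icc ?_
    intro x hx
    refine h0 x ?_
    by_contra hlt
    push Not at hlt
    exact hx ⟨(abs_lt.mp hlt).1.le, (abs_lt.mp hlt).2.le⟩

theorem lam_diff {m : ℕ} (hm : 5 ≤ m) {r r' : ℝ} (hr : |r| ≤ 3 / 4) (hr' : |r'| ≤ 3 / 4) (j : ℕ) :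
    |lamj m j r - lamj m j r'| ≤ 40 * |r - r'| := by
  obtain ⟨-, hc, hnn, h0, -⟩ := om_basic (n := m) (by omega)
  obtain ⟨hi, hI⟩ := om_inv hm
  unfold lamj
  rw [← integral_sub (lam_diff_intg hm r j) (lam_diff_intg hm r' j)]
  have hb : ∀ ξ : ℝ, |om m ξ * (((r : ℂ) + Complex.I * (Real.sqrt (1 - r ^ 2) : ℂ) * (ξ : ℂ)) ^ j).re
      - om m ξ * (((r' : ℂ) + Complex.I * (Real.sqrt (1 - r' ^ 2) : ℂ) * (ξ : ℂ)) ^ j).re|
      ≤ 80 / 7 * |r - r'| * (om m ξ / (1 - ξ ^ 2)) := by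
    intro ξ
    by_cases hξ : |ξ| < 1
    · rw [← mul_sub, abs_mul, abs_of_nonneg (hnn ξ)]
      calc om m ξ * _ ≤ om m ξ * (80 / 7 * |r - r'| * (1 / (1 - ξ ^ 2))) :=
            mul_le_mul_of_nonneg_left (lam_diff_pt hr hr' hξ j) (hnn ξ)
        _ = 80 / 7 * |r - r'| * (om m ξ / (1 - ξ ^ 2)) := by ring
    · rw [h0 ξ (not_lt.mp hξ)]
      simp
  have h1 := norm_integral_le_of_norm_le (hi.const_mul (80 / 7 * |r - r'|))
    (Filter.Eventually.of_forall fun ξ => (Real.norm_eq_abs _).le.trans (hb ξ))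
  rw [Real.norm_eq_abs, integral_const_mul] at h1
  refine h1.trans ?_
  have h2 : 80 / 7 * |r - r'| * ∫ ξ, om m ξ / (1 - ξ ^ 2) ≤ 80 / 7 * |r - r'| * (3 / 2) :=
    mul_le_mul_of_nonneg_left hI (by positivity)
  have := abs_nonneg (r - r')
  linarith

section Spec
variable {E : Type*} [NormedAddCommGroup E] [InnerProductSpace ℝ E] [CompleteSpace E]
  [FiniteDimensional ℝ E] [MeasurableSpace E] [BorelSpace E]

/-- ridge power -/
noncomputable def rg (y : E) (j : ℕ) : SS E → ℝ := fun x => ⟪y, (x : E)⟫ ^ j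

theorem rg_cont (y : E) (j : ℕ) : Continuous (rg y j) :=
  (continuous_const.inner continuous_subtype_val).pow j

-- rg_PP
theorem rg_PP_norm (x : SS E) (y : E) :
    ∃ y' : Pe x, (∀ w : Pe x, ⟪y, (w : E)⟫ = ⟪y', w⟫) ∧
      ‖y'‖ ^ 2 = ‖y‖ ^ 2 - ⟪y, (x : E)⟫ ^ 2 := by
  have hx : ‖(x : E)‖ = 1 := norm_eq_of_mem_sphere x
  have hmem : y - ⟪y, (x : E)⟫ • (x : E) ∈ Pe x := by
    unfold Pe
    rw [Submodule.mem_orthogonal_singleton_iff_inner_right]
    rw [inner_sub_right, real_inner_smul_right, real_inner_self_eq_norm_sq, hx, real_inner_comm]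
    ring
  refine ⟨⟨_, hmem⟩, fun w => ?_, ?_⟩
  · rw [Submodule.coe_inner]
    simp only
    rw [inner_sub_left, real_inner_smul_left, Pe_inner x w]
    ring
  · have : ‖(⟨y - ⟪y, (x : E)⟫ • (x : E), hmem⟩ : Pe x)‖ = ‖y - ⟪y, (x : E)⟫ • (x : E)‖ := rfl
    rw [this, norm_sub_sq_real, norm_smul, hx, real_inner_smul_right]
    simp only [mul_one, Real.norm_eq_abs, sq_abs]
    ring

theorem rg_PP_cs {m : ℕ} (hm : 4 ≤ m) : HasCompactSupport (om m) := by
  obtain ⟨-, -, -, h0, -⟩ := om_basic hm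
  refine HasCompactSupport.intro (isCompact_Icc : IsCompact (Icc (-1 : ℝ) 1)) fun s hs => ?_
  apply h0
  by_contra h
  exact hs (abs_le.mp (not_le.mp h).le)

theorem rg_PP_int {m : ℕ} (hm : 4 ≤ m) {g : ℝ → ℝ} (hg : Continuous g) :
    Integrable (fun ξ => om m ξ * g ξ) := by
  obtain ⟨-, hc, -⟩ := om_basic hm
  exact (hc.mul hg).integrable_of_hasCompactSupport ((rg_PP_cs hm).mul_right)

/-- moments -/
noncomputable def rg_PP_M (m k : ℕ) : ℝ := ∫ ξ : ℝ, om m ξ * ξ ^ k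

theorem rg_PP_odd {m : ℕ} (hm : 4 ≤ m) {k : ℕ} (hk : ¬ Even k) : rg_PP_M m k = 0 := by
  obtain ⟨-, -, -, -, -, he, -⟩ := om_basic hm
  have h := integral_neg_eq_self (fun ξ : ℝ => om m ξ * ξ ^ k) volume
  have h2 : ∀ ξ : ℝ, om m (-ξ) * (-ξ) ^ k = -(om m ξ * ξ ^ k) := fun ξ => by
    rw [he, Odd.neg_pow (Nat.not_even_iff_odd.mp hk)]; ring
  simp only [h2, integral_neg] at h
  unfold rg_PP_M
  linarith

/-- real part of the powers of I -/
def rg_PP_e (k : ℕ) : ℝ := if Even k then (-1) ^ (k / 2) else 0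

theorem rg_PP_I (k : ℕ) : (Complex.I ^ k).re = rg_PP_e k := by
  unfold rg_PP_e
  split_ifs with h
  · obtain ⟨l, rfl⟩ := h
    have h2 : (l + l) / 2 = l := by omega
    rw [h2, ← two_mul, pow_mul, Complex.I_sq]
    have : ((-1 : ℂ)) ^ l = (((-1 : ℝ) ^ l : ℝ) : ℂ) := by push_cast; ring
    rw [this, Complex.ofReal_re]
  · obtain ⟨l, rfl⟩ := Nat.not_even_iff_odd.mp h
    rw [pow_succ, pow_mul, Complex.I_sq]
    have : ((-1 : ℂ)) ^ l = (((-1 : ℝ) ^ l : ℝ) : ℂ) := by push_cast; ring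
    rw [this, Complex.re_ofReal_mul]
    simp

theorem rg_PP_lam {m : ℕ} (hm : 4 ≤ m) (j : ℕ) (r : ℝ) : lamj m j r =
    ∑ k ∈ Finset.range (j + 1),
      (Real.sqrt (1 - r ^ 2) ^ k * r ^ (j - k) * (j.choose k) * rg_PP_M m k) * rg_PP_e k := by
  unfold lamj
  have h1 : ∀ ξ : ℝ, om m ξ * (((r : ℂ) + Complex.I * (Real.sqrt (1 - r ^ 2) : ℂ) * (ξ : ℂ)) ^ j).re
      = ∑ k ∈ Finset.range (j + 1), (Real.sqrt (1 - r ^ 2) ^ k * r ^ (j - k) * (j.choose k)
        * rg_PP_e k) * (om m ξ * ξ ^ k) := by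
    intro ξ
    rw [add_comm, add_pow, Complex.re_sum, Finset.mul_sum]
    refine Finset.sum_congr rfl fun k _ => ?_
    have : (Complex.I * (Real.sqrt (1 - r ^ 2) : ℂ) * (ξ : ℂ)) ^ k * (r : ℂ) ^ (j - k)
        * (j.choose k : ℂ) = ((Real.sqrt (1 - r ^ 2) ^ k * ξ ^ k * r ^ (j - k) * (j.choose k) : ℝ) : ℂ)
          * Complex.I ^ k := by
      push_cast
      ring
    rw [this, Complex.re_ofReal_mul, rg_PP_I]
    ring
  simp only [h1]
  rw [integral_finsetSum]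
  · refine Finset.sum_congr rfl fun k _ => ?_
    rw [integral_const_mul]
    unfold rg_PP_M
    ring
  · intro k _
    exact (rg_PP_int hm (continuous_pow k)).const_mul _

theorem rg_PP_bin {m : ℕ} (hm : 4 ≤ m) (j : ℕ) (u v : ℝ) : ∫ ξ, om m ξ * (v * ξ + u) ^ j =
    ∑ k ∈ Finset.range (j + 1), v ^ k * u ^ (j - k) * (j.choose k) * rg_PP_M m k := by
  have h1 : ∀ ξ : ℝ, om m ξ * (v * ξ + u) ^ j
      = ∑ k ∈ Finset.range (j + 1), (v ^ k * u ^ (j - k) * (j.choose k)) * (om m ξ * ξ ^ k) := by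
    intro ξ
    rw [add_pow, Finset.mul_sum]
    refine Finset.sum_congr rfl fun k _ => ?_
    ring
  simp only [h1]
  rw [integral_finsetSum]
  · refine Finset.sum_congr rfl fun k _ => ?_
    rw [integral_const_mul]
    unfold rg_PP_M
    ring
  · intro k _
    exact (rg_PP_int hm (continuous_pow k)).const_mul _

theorem rg_PP_sm {n : ℕ} (hn : Module.finrank ℝ E = n) (h4 : 4 ≤ n) (y : E) (u : ℝ) (v : ℝ)
    (j : ℕ) : ∫ w : SS E, (v * ⟪y, (w : E)⟫ + u) ^ j ∂(sm E)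
      = ∫ ξ, om n ξ * ((v * ‖y‖) * ξ + u) ^ j := by
  have hprob : IsProbabilityMeasure (sm E) := sm_prob (by omega)
  obtain ⟨-, -, -, h0, -, -, -, hI, -⟩ := om_basic h4
  by_cases hy : y = 0
  · subst hy
    simp only [inner_zero_left, mul_zero, zero_add, norm_zero, zero_mul]
    rw [integral_const, integral_mul_const, hI]
    simp
  · have hy' : ‖y‖ ≠ 0 := norm_ne_zero_iff.mpr hy
    let e : SS E := ⟨‖y‖⁻¹ • y, by
      rw [mem_sphere_zero_iff_norm, norm_smul, norm_inv, norm_norm, inv_mul_cancel₀ hy']⟩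
    have he : ∀ w : SS E, ⟪y, (w : E)⟫ = ‖y‖ * ⟪(e : E), (w : E)⟫ := by
      intro w
      show _ = ‖y‖ * ⟪‖y‖⁻¹ • y, (w : E)⟫
      rw [real_inner_smul_left, ← mul_assoc, mul_inv_cancel₀ hy', one_mul]
    let ψ : ℝ → ℝ := fun t => ((v * ‖y‖) * (max (-1) (min 1 t)) + u) ^ j
    have hψc : Continuous ψ := by fun_prop
    have hψb : ∃ C : ℝ, ∀ s, |ψ s| ≤ C := by
      refine ⟨(|v * ‖y‖| + |u|) ^ j, fun s => ?_⟩
      show |((v * ‖y‖) * (max (-1) (min 1 s)) + u) ^ j| ≤ _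
      rw [abs_pow]
      apply pow_le_pow_left₀ (abs_nonneg _)
      refine (abs_add_le _ _).trans ?_
      rw [abs_mul (v * ‖y‖)]
      have : |max (-1) (min 1 s)| ≤ 1 := by
        rw [abs_le]
        exact ⟨le_max_left _ _, max_le (by norm_num) (min_le_left _ _)⟩
      have := mul_le_mul_of_nonneg_left this (abs_nonneg (v * ‖y‖))
      linarith
    have h := sm_height hn h4 e hψc.measurable hψb
    have e1 : ∀ w : SS E, (v * ⟪y, (w : E)⟫ + u) ^ j = ψ ⟪(e : E), (w : E)⟫ := by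
      intro w
      have hb : |⟪(e : E), (w : E)⟫| ≤ 1 := by
        refine (abs_real_inner_le_norm _ _).trans ?_
        rw [norm_eq_of_mem_sphere e, norm_eq_of_mem_sphere w]; norm_num
      obtain ⟨hb1, hb2⟩ := abs_le.mp hb
      show _ = ((v * ‖y‖) * (max (-1) (min 1 ⟪(e : E), (w : E)⟫)) + u) ^ j
      rw [min_eq_right hb2, max_eq_right hb1, he w]
      ring
    have e2 : ∀ ξ : ℝ, om n ξ * ((v * ‖y‖) * ξ + u) ^ j = om n ξ * ψ ξ := by
      intro ξ
      by_cases hξ : 1 ≤ |ξ|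
      · rw [h0 ξ hξ]; ring
      · obtain ⟨hb1, hb2⟩ := abs_le.mp (not_le.mp hξ).le
        show _ = om n ξ * ((v * ‖y‖) * (max (-1) (min 1 ξ)) + u) ^ j
        rw [min_eq_right hb2, max_eq_right hb1]
    simp only [e1, e2]
    exact h

open Polynomial in
/-- the basic polynomials -/
noncomputable def rg_PP_p (B : ℝ) (j k : ℕ) : Polynomial ℝ :=
  if Even k then X ^ (j - k) * (C B - X ^ 2) ^ (k / 2) else 0

open Polynomial in
theorem rg_PP_pdeg (B : ℝ) {j k : ℕ} (hk : k ≤ j) : (rg_PP_p B j k).natDegree ≤ j ∧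
    (rg_PP_p B j k).coeff j = rg_PP_e k := by
  unfold rg_PP_p rg_PP_e
  split_ifs with h
  · obtain ⟨l, rfl⟩ := h
    have h2 : (l + l) / 2 = l := by omega
    rw [h2]
    have hd : (C B - X ^ 2 : Polynomial ℝ).natDegree ≤ 2 := by
      refine (natDegree_sub_le _ _).trans ?_
      simp
    have hd1 : ((C B - X ^ 2 : Polynomial ℝ) ^ l).natDegree ≤ l * 2 := natDegree_pow_le_of_le l hd
    have hd2 : (X ^ (j - (l + l)) : Polynomial ℝ).natDegree ≤ j - (l + l) := by simp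
    have hj : j = (j - (l + l)) + l * 2 := by omega
    constructor
    · refine (natDegree_mul_le_of_le hd2 hd1).trans ?_
      omega
    · have h3 := coeff_mul_add_eq_of_natDegree_le hd2 hd1
      rw [← hj] at h3
      rw [h3, coeff_pow_of_natDegree_le hd]
      simp
  · simp

open Polynomial in
theorem rg_PP_peval {B a b : ℝ} (hb : b ^ 2 = B - a ^ 2) {j k : ℕ} (hk : Even k) :
    (rg_PP_p B j k).eval a = b ^ k * a ^ (j - k) := by
  unfold rg_PP_p
  rw [if_pos hk]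
  obtain ⟨l, rfl⟩ := hk
  have h2 : (l + l) / 2 = l := by omega
  rw [h2]
  simp only [eval_mul, eval_pow, eval_X, eval_sub, eval_C]
  rw [← hb, ← two_mul l, pow_mul]
  ring

theorem rg_PP {n : ℕ} (hn : Module.finrank ℝ E = n) (h5 : 5 ≤ n) {r : ℝ} (hr : |r| ≤ 1) (y : E)
    (j : ℕ) : ∃ c : ℕ → ℝ, ∀ x, PP r (rg y j) x
      = lamj (n - 1) j r * rg y j x + ∑ i ∈ Finset.range j, c i * rg y i x := by
  have h4 : 4 ≤ n - 1 := by omega
  obtain ⟨h1, h2⟩ := abs_le.mp hr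
  let Q : Polynomial ℝ := ∑ k ∈ Finset.range (j + 1),
    Polynomial.C (Real.sqrt (1 - r ^ 2) ^ k * r ^ (j - k) * (j.choose k) * rg_PP_M (n - 1) k)
      * rg_PP_p (‖y‖ ^ 2) j k
  have hQd : Q.natDegree ≤ j := by
    refine Polynomial.natDegree_sum_le_of_forall_le _ _ fun k hk => ?_
    refine (Polynomial.natDegree_C_mul_le _ _).trans ?_
    exact (rg_PP_pdeg _ (by simpa [Nat.lt_succ_iff] using hk)).1
  have hQc : Q.coeff j = lamj (n - 1) j r := by
    rw [rg_PP_lam h4]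
    show (∑ k ∈ Finset.range (j + 1), _ : Polynomial ℝ).coeff j = _
    rw [Polynomial.finsetSum_coeff]
    refine Finset.sum_congr rfl fun k hk => ?_
    rw [Polynomial.coeff_C_mul, (rg_PP_pdeg _ (by simpa [Nat.lt_succ_iff] using hk)).2]
  refine ⟨fun i => Q.coeff i, fun x => ?_⟩
  obtain ⟨y', hy1, hy2⟩ := rg_PP_norm x y
  have hnP : Module.finrank ℝ (Pe x) = n - 1 := finrank_Pe (by omega) x
  have e1 : ∀ w : SS (Pe x), rg y j (pt x r w)
      = (Real.sqrt (1 - r ^ 2) * ⟪y', (w : Pe x)⟫ + r * ⟪y, (x : E)⟫) ^ j := by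
    intro w
    unfold rg
    rw [pt_coe h1 h2, inner_add_right, real_inner_smul_right, real_inner_smul_right, hy1]
    ring
  have e2 : PP r (rg y j) x = Q.eval ⟪y, (x : E)⟫ := by
    unfold PP
    simp only [e1]
    rw [rg_PP_sm hnP h4, rg_PP_bin h4]
    show _ = (∑ k ∈ Finset.range (j + 1), _ : Polynomial ℝ).eval _
    rw [Polynomial.eval_finsetSum]
    refine Finset.sum_congr rfl fun k hk => ?_
    rw [Polynomial.eval_mul, Polynomial.eval_C]
    by_cases hke : Even k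
    · rw [rg_PP_peval hy2 hke]
      ring
    · rw [rg_PP_odd h4 hke]
      ring
  rw [e2, Polynomial.eval_eq_sum_range' (Nat.lt_succ_of_le hQd), Finset.sum_range_succ, hQc]
  unfold rg
  ring

/-- ridge power in L2 -/
noncomputable def rL (hn : 1 ≤ Module.finrank ℝ E) (y : E) (j : ℕ) : Lp ℝ 2 (sm E) :=
  haveI := sm_prob (E := E) hn
  ContinuousMap.toLp (E := ℝ) 2 (sm E) ℝ ⟨rg y j, rg_cont y j⟩

/-- span of the ridge powers of degree at most `j` -/
noncomputable def VL (hn : 1 ≤ Module.finrank ℝ E) (j : ℕ) : Submodule ℝ (Lp ℝ 2 (sm E)) :=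
  Submodule.span ℝ {F | ∃ y : E, ∃ i ≤ j, F = rL hn y i}

-- VL_dense
/-- the linear function -/
noncomputable def VL_dense_lin (y : E) : C(SS E, ℝ) :=
  ⟨fun x => ⟪y, (x : E)⟫, continuous_const.inner continuous_subtype_val⟩

/-- the exponential -/
noncomputable def VL_dense_ex (y : E) : C(SS E, ℝ) :=
  ⟨fun x => Real.exp ⟪y, (x : E)⟫,
    Real.continuous_exp.comp (continuous_const.inner continuous_subtype_val)⟩

/-- span of all ridge powers in the continuous functions -/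
noncomputable def VL_dense_P (E : Type*) [NormedAddCommGroup E] [InnerProductSpace ℝ E] :
    Submodule ℝ C(SS E, ℝ) :=
  Submodule.span ℝ {F | ∃ y : E, ∃ i : ℕ, F = VL_dense_lin y ^ i}

theorem VL_dense_exp_eq (y : E) : NormedSpace.exp (VL_dense_lin y) = VL_dense_ex y := by
  ext x
  have h1 : HasSum (fun n : ℕ => ((n.factorial : ℝ))⁻¹ • (VL_dense_lin y) ^ n)
      (NormedSpace.exp (VL_dense_lin y)) := NormedSpace.exp_series_hasSum_exp' (𝕂 := ℝ) _
  have h2 := (ContinuousMap.evalCLM ℝ x).hasSum h1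
  have h3 : HasSum (fun n : ℕ => ((n.factorial : ℝ))⁻¹ • (⟪y, (x : E)⟫ : ℝ) ^ n)
      (NormedSpace.exp (⟪y, (x : E)⟫ : ℝ)) := NormedSpace.exp_series_hasSum_exp' (𝕂 := ℝ) _
  have h4 : (NormedSpace.exp (VL_dense_lin y)) x = NormedSpace.exp (⟪y, (x : E)⟫ : ℝ) :=
    h2.unique h3
  rw [h4, ← Real.exp_eq_exp_ℝ]
  rfl

theorem VL_dense_ex_mem (y : E) : VL_dense_ex y ∈ (VL_dense_P E).topologicalClosure := by
  have h1 : HasSum (fun n : ℕ => ((n.factorial : ℝ))⁻¹ • (VL_dense_lin y) ^ n)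
      (NormedSpace.exp (VL_dense_lin y)) := NormedSpace.exp_series_hasSum_exp' (𝕂 := ℝ) _
  rw [VL_dense_exp_eq] at h1
  refine (Submodule.isClosed_topologicalClosure _).mem_of_tendsto h1
    (Filter.Eventually.of_forall fun s => ?_)
  refine Submodule.sum_mem _ fun n _ => Submodule.smul_mem _ _ ?_
  exact Submodule.le_topologicalClosure _ (Submodule.subset_span ⟨y, n, rfl⟩)

/-- the exponentials form a multiplicative set -/
noncomputable def VL_dense_S (E : Type*) [NormedAddCommGroup E] [InnerProductSpace ℝ E] :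
    Submonoid C(SS E, ℝ) where
  carrier := Set.range (VL_dense_ex : E → C(SS E, ℝ))
  mul_mem' := by
    rintro _ _ ⟨y, rfl⟩ ⟨y', rfl⟩
    refine ⟨y + y', ?_⟩
    ext x
    show Real.exp ⟪y + y', (x : E)⟫ = Real.exp ⟪y, (x : E)⟫ * Real.exp ⟪y', (x : E)⟫
    rw [inner_add_left, Real.exp_add]
  one_mem' := by
    refine ⟨0, ?_⟩
    ext x
    show Real.exp ⟪(0 : E), (x : E)⟫ = 1
    rw [inner_zero_left, Real.exp_zero]

theorem VL_dense_cont : (VL_dense_P E).topologicalClosure = ⊤ := by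
  have hS : (Algebra.adjoin ℝ ((VL_dense_S E : Submonoid C(SS E, ℝ)) : Set C(SS E, ℝ))).topologicalClosure
      = ⊤ := by
    apply ContinuousMap.subalgebra_topologicalClosure_eq_top_of_separatesPoints
    intro x x' hxx
    have hne : (x : E) - x' ≠ 0 := fun h => hxx (Subtype.ext (sub_eq_zero.mp h))
    refine ⟨_, ⟨VL_dense_ex ((x : E) - x'), Algebra.subset_adjoin ⟨_, rfl⟩, rfl⟩, ?_⟩
    intro h
    have h1 : Real.exp ⟪(x : E) - x', (x : E)⟫ = Real.exp ⟪(x : E) - x', (x' : E)⟫ := h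
    have h2 := Real.exp_injective h1
    have h3 : ⟪(x : E) - x', (x : E) - x'⟫ = (0 : ℝ) := by
      rw [inner_sub_right, h2, sub_self]
    exact hne (inner_self_eq_zero.mp h3)
  have hle : Subalgebra.toSubmodule (Algebra.adjoin ℝ
      ((VL_dense_S E : Submonoid C(SS E, ℝ)) : Set C(SS E, ℝ))) ≤
      (VL_dense_P E).topologicalClosure := by
    rw [Algebra.adjoin_eq_span, Submonoid.closure_eq, Submodule.span_le]
    rintro _ ⟨y, rfl⟩
    exact VL_dense_ex_mem y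
  rw [eq_top_iff]
  intro f _
  have h1 : f ∈ (Algebra.adjoin ℝ
      ((VL_dense_S E : Submonoid C(SS E, ℝ)) : Set C(SS E, ℝ))).topologicalClosure := by
    rw [hS]; trivial
  have h2 : f ∈ closure ((Algebra.adjoin ℝ
      ((VL_dense_S E : Submonoid C(SS E, ℝ)) : Set C(SS E, ℝ)) : Subalgebra ℝ C(SS E, ℝ)) :
        Set C(SS E, ℝ)) := h1
  exact closure_minimal (fun g hg => hle hg) (Submodule.isClosed_topologicalClosure _) h2

theorem VL_dense (hn : 1 ≤ Module.finrank ℝ E) :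
    Dense (⋃ j, (VL (E := E) hn j : Set (Lp ℝ 2 (sm E)))) := by
  have := sm_prob (E := E) hn
  have hd : Dense ((VL_dense_P E : Submodule ℝ C(SS E, ℝ)) : Set C(SS E, ℝ)) := by
    rw [dense_iff_closure_eq]
    have := congrArg (fun S : Submodule ℝ C(SS E, ℝ) => (S : Set C(SS E, ℝ)))
      (VL_dense_cont (E := E))
    simpa using this
  have hr : DenseRange (ContinuousMap.toLp (E := ℝ) 2 (sm E) ℝ) :=
    ContinuousMap.toLp_denseRange ℝ (sm E) ℝ (by norm_num)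
  have hd2 := hr.dense_image (ContinuousMap.toLp (E := ℝ) 2 (sm E) ℝ).continuous hd
  have hmono : Monotone (VL (E := E) hn) := by
    intro a b hab
    refine Submodule.span_mono ?_
    rintro _ ⟨y, i, hi, rfl⟩
    exact ⟨y, i, hi.trans hab, rfl⟩
  have hdir : Directed (· ≤ ·) (VL (E := E) hn) := hmono.directed_le
  rw [← Submodule.coe_iSup_of_directed _ hdir]
  refine hd2.mono ?_
  rintro _ ⟨f, hf, rfl⟩
  have hle : VL_dense_P E ≤ (⨆ j, VL (E := E) hn j).comap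
      (ContinuousMap.toLp (E := ℝ) 2 (sm E) ℝ).toLinearMap := by
    refine Submodule.span_le.mpr ?_
    rintro _ ⟨y, i, rfl⟩
    refine Submodule.mem_iSup_of_mem i ?_
    refine Submodule.subset_span ⟨y, i, le_rfl, ?_⟩
    rfl
  exact hle hf

-- PP_L2
theorem PP_L2_mp (hn : 1 ≤ Module.finrank ℝ E) (a : SS E) :
    MeasurePreserving (fun g : UG E => sa g a) (hm E) (sm E) :=
  ⟨(sa_continuous_left a).measurable, (sm_eq hn a).symm⟩

/-- composition with the orbit map -/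
noncomputable def PP_L2_J (hn : 1 ≤ Module.finrank ℝ E) (a : SS E) :
    Lp ℝ 2 (sm E) →ₗᵢ[ℝ] Lp ℝ 2 (hm E) :=
  Lp.compMeasurePreservingₗᵢ ℝ (fun g : UG E => sa g a) (PP_L2_mp hn a)

/-- composition with right multiplication -/
noncomputable def PP_L2_H (h : UG E) : Lp ℝ 2 (hm E) →ₗᵢ[ℝ] Lp ℝ 2 (hm E) :=
  Lp.compMeasurePreservingₗᵢ ℝ (fun g : UG E => g * h) (measurePreserving_mul_right (hm E) h)

theorem PP_L2_J_ae (hn : 1 ≤ Module.finrank ℝ E) (a : SS E) (F : Lp ℝ 2 (sm E)) :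
    (PP_L2_J hn a F : UG E → ℝ) =ᵐ[hm E] fun g => F (sa g a) :=
  Lp.coeFn_compMeasurePreserving F (PP_L2_mp hn a)

theorem PP_L2_HJ (hn : 1 ≤ Module.finrank ℝ E) (h : UG E) (a b : SS E) (hab : sa h a = b)
    (F : Lp ℝ 2 (sm E)) : PP_L2_H h (PP_L2_J hn a F) = PP_L2_J hn b F := by
  have h1 : (PP_L2_H h (PP_L2_J hn a F) : UG E → ℝ)
      =ᵐ[hm E] (PP_L2_J hn a F : UG E → ℝ) ∘ (fun g : UG E => g * h) :=
    Lp.coeFn_compMeasurePreserving _ (measurePreserving_mul_right (hm E) h)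
  have h2 : ((PP_L2_J hn a F : UG E → ℝ) ∘ (fun g : UG E => g * h))
      =ᵐ[hm E] ((fun g => F (sa g a)) ∘ (fun g : UG E => g * h)) :=
    (measurePreserving_mul_right (hm E) h).quasiMeasurePreserving.ae_eq_comp
      (PP_L2_J_ae hn a F)
  have h3 : ((fun g => F (sa g a)) ∘ (fun g : UG E => g * h)) = fun g : UG E => F (sa g b) := by
    funext g
    simp only [Function.comp, sa_mul, hab]
  apply Lp.ext
  refine h1.trans (h2.trans ?_)
  rw [h3]
  exact (PP_L2_J_ae hn b F).symm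

/-- the operator -/
noncomputable def PP_L2_T (hn : 1 ≤ Module.finrank ℝ E) (a b : SS E) :
    Lp ℝ 2 (sm E) →L[ℝ] Lp ℝ 2 (sm E) :=
  (ContinuousLinearMap.adjoint (PP_L2_J hn a).toContinuousLinearMap) ∘L
    (PP_L2_J hn b).toContinuousLinearMap

theorem PP_L2_T_inner (hn : 1 ≤ Module.finrank ℝ E) (a b : SS E) (F G : Lp ℝ 2 (sm E)) :
    ⟪PP_L2_T hn a b F, G⟫ = ⟪PP_L2_J hn b F, PP_L2_J hn a G⟫ := by
  unfold PP_L2_T
  rw [ContinuousLinearMap.comp_apply, ContinuousLinearMap.adjoint_inner_left]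
  rfl

theorem PP_L2 (hn : 3 ≤ Module.finrank ℝ E) {r : ℝ} (hr : |r| ≤ 1) :
    ∃ T : Lp ℝ 2 (sm E) →L[ℝ] Lp ℝ 2 (sm E), (∀ F G : Lp ℝ 2 (sm E), ⟪T F, G⟫ = ⟪F, T G⟫) ∧
      ∀ f : SS E → ℝ, BM f → ∀ F : Lp ℝ 2 (sm E), (F =ᵐ[sm E] f) → (T F =ᵐ[sm E] PP r f) := by
  have hn1 : 1 ≤ Module.finrank ℝ E := by omega
  have hn2 : 2 ≤ Module.finrank ℝ E := by omega
  obtain ⟨hr1, hr2⟩ := abs_le.1 hr
  obtain ⟨n, hn'⟩ : ∃ n, Module.finrank ℝ E = n + 1 := ⟨Module.finrank ℝ E - 1, by omega⟩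
  obtain ⟨a⟩ := sm_nonempty (E := E) hn1
  have hPe : 1 ≤ Module.finrank ℝ (Pe a) := by rw [finrank_Pe hn' a]; omega
  obtain ⟨w⟩ := sm_nonempty (E := Pe a) hPe
  set b : SS E := pt a r w with hb
  have hab : ⟪(a : E), (b : E)⟫ = r := (pt_inner hr1 hr2 hr1 hr2 a w w).1
  obtain ⟨h, h1, h2⟩ := pair_trans hn2 a b b a (by rw [real_inner_comm])
  have hprob := sm_prob (E := E) hn1
  refine ⟨PP_L2_T hn1 a b, fun F G => ?_, fun f hf F hF => ?_⟩
  · rw [PP_L2_T_inner, ← real_inner_comm F (PP_L2_T hn1 a b G), PP_L2_T_inner,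
      ← PP_L2_HJ hn1 h a b h1 F, ← PP_L2_HJ hn1 h b a h2 G, LinearIsometry.inner_map_map,
      real_inner_comm]
  · have hPB : BM (PP r f) := (PP_basic hn r hf hf).1
    have hPi : Integrable (PP r f) (sm E) := by
      obtain ⟨hm, C, hC⟩ := hPB
      exact Integrable.of_bound hm.aestronglyMeasurable C
        (Filter.Eventually.of_forall fun x => by rw [Real.norm_eq_abs]; exact hC x)
    have hTi : Integrable (PP_L2_T hn1 a b F : SS E → ℝ) (sm E) :=
      (Lp.memLp (PP_L2_T hn1 a b F)).integrable one_le_two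
    refine Integrable.ae_eq_of_forall_setIntegral_eq _ _ hTi hPi fun s hs hμs => ?_
    rw [← L2.inner_indicatorConstLp_one (𝕜 := ℝ) hs hμs.ne, real_inner_comm, PP_L2_T_inner,
      L2.inner_def]
    have hh : BM (s.indicator (fun _ : SS E => (1 : ℝ))) := by
      refine ⟨measurable_const.indicator hs, 1, fun x => ?_⟩
      by_cases hx : x ∈ s <;> simp [hx]
    have h3 := PP_pair hn2 hf hh (fun r => (PP_basic hn r hf hf).1.1) a b
    rw [hab] at h3
    have h4 : ∫ x in s, PP r f x ∂(sm E)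
        = ∫ x, s.indicator (fun _ : SS E => (1 : ℝ)) x * PP r f x ∂(sm E) := by
      rw [← integral_indicator hs]
      congr 1
      funext x
      by_cases hx : x ∈ s <;> simp [hx]
    rw [h4, h3]
    apply integral_congr_ae
    have h5 := PP_L2_J_ae hn1 b F
    have h6 := PP_L2_J_ae hn1 a (indicatorConstLp 2 hs hμs.ne (1 : ℝ))
    have h7 : ((F : SS E → ℝ) ∘ fun g : UG E => sa g b) =ᵐ[hm E] (f ∘ fun g : UG E => sa g b) :=
      (PP_L2_mp hn1 b).quasiMeasurePreserving.ae_eq_comp hF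
    have h8 : (((indicatorConstLp 2 hs hμs.ne (1 : ℝ) : Lp ℝ 2 (sm E)) : SS E → ℝ) ∘
        fun g : UG E => sa g a)
        =ᵐ[hm E] ((s.indicator (fun _ : SS E => (1 : ℝ))) ∘ fun g : UG E => sa g a) :=
      (PP_L2_mp hn1 a).quasiMeasurePreserving.ae_eq_comp indicatorConstLp_coeFn
    filter_upwards [h5, h6, h7, h8] with g g5 g6 g7 g8
    simp only [Function.comp] at g7 g8
    rw [g5, g6, g7, g8]
    rfl

-- spec_main
theorem spec_main_bm {f : SS E → ℝ} (hf : Continuous f) : BM f := by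
  refine ⟨hf.measurable, ?_⟩
  obtain ⟨C, hC⟩ := (isCompact_univ (X := SS E)).exists_bound_of_continuousOn hf.continuousOn
  exact ⟨C, fun x => by simpa [Real.norm_eq_abs] using hC x (Set.mem_univ x)⟩

theorem spec_main_memLp (hn : 1 ≤ Module.finrank ℝ E) {f : SS E → ℝ} (hf : BM f) :
    MemLp f 2 (sm E) := by
  haveI := sm_prob (E := E) hn
  obtain ⟨C, hC⟩ := hf.2
  exact MemLp.of_bound hf.1.aestronglyMeasurable C (Filter.Eventually.of_forall fun x => by
    simpa [Real.norm_eq_abs] using hC x)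

theorem spec_main_rL (hn : 1 ≤ Module.finrank ℝ E) (y : E) (j : ℕ) :
    (rL hn y j : SS E → ℝ) =ᵐ[sm E] rg y j := by
  haveI := sm_prob (E := E) hn
  exact ContinuousMap.coeFn_toLp (E := ℝ) (p := 2) (𝕜 := ℝ) (sm E) ⟨rg y j, rg_cont y j⟩

theorem spec_main_gen1 {n : ℕ} (hn : Module.finrank ℝ E = n) (h5 : 5 ≤ n) {r : ℝ} (hr : |r| ≤ 1)
    (hn1 : 1 ≤ Module.finrank ℝ E) (T : Lp ℝ 2 (sm E) →L[ℝ] Lp ℝ 2 (sm E))
    (hT : ∀ f : SS E → ℝ, BM f → ∀ F : Lp ℝ 2 (sm E), (F =ᵐ[sm E] f) → (T F =ᵐ[sm E] PP r f))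
    (y : E) (j : ℕ) : ∃ c : ℕ → ℝ, T (rL hn1 y j) = lamj (n - 1) j r • rL hn1 y j
      + ∑ i ∈ Finset.range j, c i • rL hn1 y i := by
  obtain ⟨c, hc⟩ := rg_PP hn h5 hr y j
  refine ⟨c, ?_⟩
  have h1 := hT (rg y j) (spec_main_bm (rg_cont y j)) _ (spec_main_rL hn1 y j)
  have hs : ∀ s : Finset ℕ, ((∑ i ∈ s, c i • rL hn1 y i : Lp ℝ 2 (sm E)) : SS E → ℝ)
      =ᵐ[sm E] fun x => ∑ i ∈ s, c i * rg y i x := by
    intro s
    induction s using Finset.induction_on with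
    | empty =>
      simp only [Finset.sum_empty]
      exact Lp.coeFn_zero _ _ _
    | insert a s ha ih =>
      rw [Finset.sum_insert ha]
      filter_upwards [Lp.coeFn_add (c a • rL hn1 y a) (∑ i ∈ s, c i • rL hn1 y i),
        Lp.coeFn_smul (c a) (rL hn1 y a), spec_main_rL hn1 y a, ih] with x e1 e2 e3 e4
      rw [e1, Pi.add_apply, e2, Pi.smul_apply, e3, e4, Finset.sum_insert ha, smul_eq_mul]
  apply Lp.ext
  filter_upwards [h1, Lp.coeFn_add (lamj (n - 1) j r • rL hn1 y j)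
    (∑ i ∈ Finset.range j, c i • rL hn1 y i), Lp.coeFn_smul (lamj (n - 1) j r) (rL hn1 y j),
    spec_main_rL hn1 y j, hs (Finset.range j)] with x e1 e2 e3 e4 e5
  rw [e1, hc, e2, Pi.add_apply, e3, Pi.smul_apply, e4, e5, smul_eq_mul]

theorem spec_main_mono (hn1 : 1 ≤ Module.finrank ℝ E) :
    Monotone (VL (E := E) hn1) := by
  intro a b hab
  refine Submodule.span_mono ?_
  rintro F ⟨y, i, hi, rfl⟩
  exact ⟨y, i, hi.trans hab, rfl⟩

theorem spec_main_mem (hn1 : 1 ≤ Module.finrank ℝ E) (y : E) {i j : ℕ} (h : i ≤ j) :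
    rL hn1 y i ∈ VL (E := E) hn1 j := Submodule.subset_span ⟨y, i, h, rfl⟩

theorem spec_main {n : ℕ} (hn : Module.finrank ℝ E = n) (h5 : 5 ≤ n) {κ r r' : ℝ} (hr : |r| ≤ 1)
    (hr' : |r'| ≤ 1) (k : ℕ) (hk : k ≤ 1) {θ : ℝ} (hθ0 : 0 ≤ θ)
    (hθ : ∀ j, k < j → |lamj (n - 1) j r - κ * lamj (n - 1) j r'| ≤ θ) {f : SS E → ℝ}
    (hf : BM f) (h0 : ∫ x, f x ∂(sm E) = 0)
    (h1 : k = 1 → ∀ y : E, ∫ x, ⟪y, (x : E)⟫ * f x ∂(sm E) = 0) :
    ∫ x, (PP r f x - κ * PP r' f x) ^ 2 ∂(sm E) ≤ θ ^ 2 * ∫ x, (f x) ^ 2 ∂(sm E) := by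
  have hn1 : 1 ≤ Module.finrank ℝ E := by omega
  have hn3 : 3 ≤ Module.finrank ℝ E := by omega
  haveI := sm_prob (E := E) hn1
  obtain ⟨T1, hs1, hT1⟩ := PP_L2 (E := E) hn3 hr
  obtain ⟨T2, hs2, hT2⟩ := PP_L2 (E := E) hn3 hr'
  set T : Lp ℝ 2 (sm E) →L[ℝ] Lp ℝ 2 (sm E) := T1 - κ • T2 with hTdef
  have hTa : ∀ F, T F = T1 F - κ • T2 F := fun F => rfl
  have hTs : ∀ F G : Lp ℝ 2 (sm E), ⟪T F, G⟫ = ⟪F, T G⟫ := by
    intro F G
    rw [hTa, hTa, inner_sub_left, inner_sub_right, real_inner_smul_left, real_inner_smul_right,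
      hs1, hs2]
  set lam : ℕ → ℝ := fun j => lamj (n - 1) j r - κ * lamj (n - 1) j r' with hlam
  have hgen : ∀ (y : E) (j : ℕ), ∃ c : ℕ → ℝ, T (rL hn1 y j) = lam j • rL hn1 y j
      + ∑ i ∈ Finset.range j, c i • rL hn1 y i := by
    intro y j
    obtain ⟨c, hc⟩ := spec_main_gen1 hn h5 hr hn1 T1 hT1 y j
    obtain ⟨d, hd⟩ := spec_main_gen1 hn h5 hr' hn1 T2 hT2 y j
    refine ⟨fun i => c i - κ * d i, ?_⟩
    rw [hTa, hc, hd]
    simp only [hlam, sub_smul, Finset.sum_sub_distrib, smul_add, mul_smul, Finset.smul_sum]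
    abel
  have hsum : ∀ (c : ℕ → ℝ) (y : E) (j : ℕ),
      ∑ i ∈ Finset.range (j + 1), c i • rL hn1 y i ∈ VL (E := E) hn1 j := by
    intro c y j
    refine Submodule.sum_mem _ fun i hi => Submodule.smul_mem _ _ ?_
    exact spec_main_mem hn1 y (by simpa [Nat.lt_succ_iff] using Finset.mem_range.mp hi)
  have hpres : ∀ (j : ℕ) (y : E) (i : ℕ), i ≤ j → T (rL hn1 y i) ∈ VL (E := E) hn1 j := by
    intro j y i hi
    obtain ⟨c, hc⟩ := hgen y i
    rw [hc]
    refine Submodule.add_mem _ (Submodule.smul_mem _ _ (spec_main_mem hn1 y hi)) ?_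
    refine Submodule.sum_mem _ fun i' hi' => Submodule.smul_mem _ _ ?_
    exact spec_main_mem hn1 y (by have := Finset.mem_range.mp hi'; omega)
  have hV0 : ∀ F ∈ VL (E := E) hn1 0, T F ∈ VL (E := E) hn1 0 := by
    intro F hF
    unfold VL at hF
    induction hF using Submodule.span_induction with
    | mem x hx =>
      obtain ⟨y, i, hi, rfl⟩ := hx
      exact hpres 0 y i hi
    | zero => rw [map_zero]; exact Submodule.zero_mem _
    | add a b _ _ ha hb => rw [map_add]; exact Submodule.add_mem _ ha hb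
    | smul a x _ hx => rw [map_smul]; exact Submodule.smul_mem _ _ hx
  have hV : ∀ j, ∀ F ∈ VL (E := E) hn1 (j + 1), T F - lam (j + 1) • F ∈ VL (E := E) hn1 j := by
    intro j F hF
    unfold VL at hF
    induction hF using Submodule.span_induction with
    | mem x hx =>
      obtain ⟨y, i, hi, rfl⟩ := hx
      rcases Nat.lt_or_ge j i with h | h
      · have hij : i = j + 1 := by omega
        subst hij
        obtain ⟨c, hc⟩ := hgen y (j + 1)
        rw [hc, add_sub_cancel_left]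
        exact hsum c y j
      · exact Submodule.sub_mem _ (hpres j y i h)
          (Submodule.smul_mem _ _ (spec_main_mem hn1 y h))
    | zero => rw [map_zero, smul_zero, sub_zero]; exact Submodule.zero_mem _
    | add a b _ _ ha hb =>
      have : T (a + b) - lam (j + 1) • (a + b)
          = (T a - lam (j + 1) • a) + (T b - lam (j + 1) • b) := by
        rw [map_add, smul_add]; abel
      rw [this]; exact Submodule.add_mem _ ha hb
    | smul a x _ hx =>
      have : T (a • x) - lam (j + 1) • (a • x) = a • (T x - lam (j + 1) • x) := by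
        rw [map_smul, smul_sub, smul_comm]
      rw [this]; exact Submodule.smul_mem _ _ hx
  have hfm := spec_main_memLp hn1 hf
  set F : Lp ℝ 2 (sm E) := hfm.toLp f with hF
  have hFf : (F : SS E → ℝ) =ᵐ[sm E] f := hfm.coeFn_toLp
  have horth : ∀ g ∈ VL (E := E) hn1 k, ⟪g, F⟫ = 0 := by
    intro g hg
    unfold VL at hg
    induction hg using Submodule.span_induction with
    | mem x hx =>
      obtain ⟨y, i, hi, rfl⟩ := hx
      rw [MeasureTheory.L2.inner_def]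
      have e : ∫ x, ⟪(rL hn1 y i : SS E → ℝ) x, (F : SS E → ℝ) x⟫ ∂(sm E)
          = ∫ x, rg y i x * f x ∂(sm E) := by
        refine integral_congr_ae ?_
        filter_upwards [spec_main_rL hn1 y i, hFf] with x e1 e2
        rw [e1, e2]
        simp [mul_comm]
      rw [e]
      rcases Nat.eq_zero_or_pos i with h | h
      · subst h
        simpa [rg] using h0
      · have hi1 : i = 1 := by omega
        subst hi1
        have hk1 : k = 1 := by omega
        simpa [rg] using h1 hk1 y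
    | zero => rw [inner_zero_left]
    | add a b _ _ ha hb => rw [inner_add_left, ha, hb, add_zero]
    | smul a x _ hx => rw [real_inner_smul_left, hx, mul_zero]
  have key := tri_abs T hTs (VL (E := E) hn1) (spec_main_mono hn1) hV0 lam hV (VL_dense hn1) k
    hθ0 hθ horth
  have hsq : ∀ (G : Lp ℝ 2 (sm E)) (g : SS E → ℝ), (G : SS E → ℝ) =ᵐ[sm E] g →
      ‖G‖ ^ 2 = ∫ x, (g x) ^ 2 ∂(sm E) := by
    intro G g hG
    rw [← real_inner_self_eq_norm_sq, MeasureTheory.L2.inner_def]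
    refine integral_congr_ae ?_
    filter_upwards [hG] with x e1
    rw [e1]
    simp [sq]
  have hTF : (T F : SS E → ℝ) =ᵐ[sm E] fun x => PP r f x - κ * PP r' f x := by
    rw [hTa]
    filter_upwards [Lp.coeFn_sub (T1 F) (κ • T2 F), Lp.coeFn_smul κ (T2 F), hT1 f hf F hFf,
      hT2 f hf F hFf] with x e1 e2 e3 e4
    rw [e1, Pi.sub_apply, e2, Pi.smul_apply, e3, e4, smul_eq_mul]
  rw [← hsq (T F) _ hTF, ← hsq F f hFf, ← mul_pow]
  exact pow_le_pow_left₀ (norm_nonneg _) key 2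

-- spec_rest
theorem spec_rest {n : ℕ} (hn : Module.finrank ℝ E = n) (h5 : 5 ≤ n) {r : ℝ} (hr : |r| ≤ 1)
    {f : SS E → ℝ} (hf : BM f) (h0 : ∫ x, f x ∂(sm E) = 0)
    (h1 : ∀ y : E, ∫ x, ⟪y, (x : E)⟫ * f x ∂(sm E) = 0) :
    ∫ x, (PP r f x) ^ 2 ∂(sm E) ≤ (r ^ 2 + 2 / n) ^ 2 * ∫ x, (f x) ^ 2 ∂(sm E) := by
  have hnR : (5 : ℝ) ≤ n := by exact_mod_cast h5
  have hcast : ((n - 1 : ℕ) : ℝ) = (n : ℝ) - 1 := by
    rw [Nat.cast_sub (by omega : 1 ≤ n), Nat.cast_one]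
  have hfrac : (1 : ℝ) / ((n - 1 : ℕ) : ℝ) ≤ 2 / n := by
    rw [hcast, div_le_div_iff₀ (by linarith) (by linarith)]
    linarith
  have h := spec_main (E := E) hn h5 (κ := 0) (r := r) (r' := r) hr hr 1 le_rfl
    (θ := r ^ 2 + 2 / n) (by positivity) (fun j hj => by
      have := (lam_bounds (m := n - 1) (by omega) hr).2.2 j hj
      rw [zero_mul, sub_zero]
      linarith) hf h0 (fun _ => h1)
  simpa using h

-- spec_diff
theorem spec_diff {n : ℕ} (hn : Module.finrank ℝ E = n) (h6 : 6 ≤ n) {r r' : ℝ}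
    (hr : |r| ≤ 3 / 4) (hr' : |r'| ≤ 3 / 4) {f : SS E → ℝ} (hf : BM f) :
    ∫ x, (PP r f x - PP r' f x) ^ 2 ∂(sm E) ≤ (40 * |r - r'|) ^ 2 * ∫ x, (f x) ^ 2 ∂(sm E) := by
  have hp : IsProbabilityMeasure (sm E) := sm_prob (E := E) (by omega)
  obtain ⟨hfm, C, hC⟩ := id hf
  have hfi : Integrable f (sm E) :=
    Integrable.of_bound hfm.aestronglyMeasurable C (Filter.Eventually.of_forall fun x => by
      rw [Real.norm_eq_abs]; exact hC x)
  have hfi2 : Integrable (fun x => f x ^ 2) (sm E) :=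
    Integrable.of_bound (hfm.pow_const 2).aestronglyMeasurable (C ^ 2)
      (Filter.Eventually.of_forall fun x => by
        rw [Real.norm_eq_abs, abs_pow]
        exact pow_le_pow_left₀ (abs_nonneg _) (hC x) 2)
  set c : ℝ := ∫ x, f x ∂(sm E) with hc
  have hg : BM (fun x => f x - c) := by
    refine ⟨hfm.sub_const c, C + |c|, fun x => ?_⟩
    exact (abs_sub _ _).trans (add_le_add (hC x) le_rfl)
  have h1 : BM (fun _ : SS E => (1 : ℝ)) := ⟨measurable_const, 1, fun x => by simp⟩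
  have hPP : ∀ (s : ℝ) (x : SS E), PP s (fun x => f x - c) x = PP s f x - c := by
    intro s x
    have hb := PP_basic (E := E) (by omega) s hf h1
    have h2 := hb.2.2.1 1 (-c) x
    rw [hb.2.1 x] at h2
    have h3 : (fun y : SS E => 1 * f y + -c * 1) = fun y => f y - c := by
      funext y; ring
    rw [h3] at h2
    rw [h2]; ring
  have h0 : ∫ x, (f x - c) ∂(sm E) = 0 := by
    rw [integral_sub hfi (integrable_const c), integral_const, ← hc]
    simp
  have hmain := spec_main (E := E) hn (by omega) (κ := 1) (r := r) (r' := r')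
    (hr.trans (by norm_num)) (hr'.trans (by norm_num)) 0 (by norm_num) (θ := 40 * |r - r'|)
    (by positivity) (fun j _ => by
      rw [one_mul]
      exact lam_diff (m := n - 1) (by omega) hr hr' j) hg h0 (fun h => absurd h (by norm_num))
  have hL : ∫ x, (PP r (fun x => f x - c) x - 1 * PP r' (fun x => f x - c) x) ^ 2 ∂(sm E)
      = ∫ x, (PP r f x - PP r' f x) ^ 2 ∂(sm E) := by
    refine integral_congr_ae (Filter.Eventually.of_forall fun x => ?_)
    simp only [hPP]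
    ring
  rw [hL] at hmain
  refine hmain.trans (mul_le_mul_of_nonneg_left ?_ (by positivity))
  have hexp : ∫ x, (f x - c) ^ 2 ∂(sm E) = ∫ x, f x ^ 2 ∂(sm E) - c ^ 2 := by
    have e1 : (fun x => (f x - c) ^ 2) = fun x => f x ^ 2 - (2 * c * f x - c ^ 2) := by
      funext x; ring
    have hi3 : Integrable (fun x => 2 * c * f x - c ^ 2) (sm E) :=
      (hfi.const_mul (2 * c)).sub (integrable_const _)
    rw [e1, integral_sub hfi2 hi3, integral_sub (hfi.const_mul (2 * c)) (integrable_const _),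
      integral_const_mul, ← hc, integral_const]
    simp
    ring
  rw [hexp]
  nlinarith [sq_nonneg c]

-- spec_mean0
theorem spec_mean0 {n : ℕ} (hn : Module.finrank ℝ E = n) (h5 : 5 ≤ n) {r : ℝ} (hr : |r| ≤ 1)
    {f : SS E → ℝ} (hf : BM f) (h0 : ∫ x, f x ∂(sm E) = 0) :
    ∫ x, (PP r f x) ^ 2 ∂(sm E) ≤ (max |r| (r ^ 2 + 2 / n)) ^ 2 * ∫ x, (f x) ^ 2 ∂(sm E) := by
  have hθ0 : (0 : ℝ) ≤ max |r| (r ^ 2 + 2 / n) := le_trans (abs_nonneg r) (le_max_left _ _)
  have hn5 : (5 : ℝ) ≤ (n : ℝ) := by exact_mod_cast h5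
  have hcast : ((n - 1 : ℕ) : ℝ) = (n : ℝ) - 1 := by
    rw [Nat.cast_sub (by omega)]; simp
  have hfrac : (1 : ℝ) / ((n - 1 : ℕ) : ℝ) ≤ 2 / n := by
    rw [hcast, div_le_div_iff₀ (by linarith) (by linarith)]
    linarith
  have key := spec_main (E := E) hn h5 (κ := 0) (r := r) (r' := 0) hr (by simp) 0 (by norm_num)
    (θ := max |r| (r ^ 2 + 2 / n)) hθ0 (by
      intro j hj
      rw [zero_mul, sub_zero]
      obtain ⟨_, h1, h2⟩ := lam_bounds (m := n - 1) (by omega) hr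
      rcases Nat.lt_or_ge 1 j with hj2 | hj1
      · refine le_trans (h2 j hj2) (le_trans ?_ (le_max_right _ _))
        linarith
      · have : j = 1 := by omega
        subst this
        rw [h1]
        exact le_max_left _ _) hf h0 (by intro h; exact absurd h (by norm_num))
  have heq : ∀ x : SS E, (PP r f x - 0 * PP 0 f x) ^ 2 = (PP r f x) ^ 2 := by
    intro x; rw [zero_mul, sub_zero]
  simp only [heq] at key
  exact key

-- PP_linear
theorem PP_linear (hn : 3 ≤ Module.finrank ℝ E) {r : ℝ} (hr : |r| ≤ 1) (y : E) (x : SS E) :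
    PP r (fun z => ⟪y, (z : E)⟫) x = r * ⟪y, (x : E)⟫ := by
  have h1 : -1 ≤ r := (abs_le.mp hr).1
  have h2 : r ≤ 1 := (abs_le.mp hr).2
  obtain ⟨n, hn'⟩ : ∃ n, Module.finrank ℝ E = n + 1 := ⟨Module.finrank ℝ E - 1, by omega⟩
  have hPe : 1 ≤ Module.finrank ℝ (Pe x) := by
    rw [finrank_Pe hn' x]; omega
  haveI : IsProbabilityMeasure (sm (Pe x)) := sm_prob hPe
  have hc : Continuous (fun w : SS (Pe x) => (⟪y, ((w : Pe x) : E)⟫ : ℝ)) :=
    continuous_const.inner (continuous_subtype_val.comp continuous_subtype_val)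
  have hint : Integrable (fun w : SS (Pe x) => (⟪y, ((w : Pe x) : E)⟫ : ℝ)) (sm (Pe x)) :=
    hc.integrable_of_hasCompactSupport (HasCompactSupport.of_compactSpace _)
  have hz : ∫ w : SS (Pe x), (⟪y, ((w : Pe x) : E)⟫ : ℝ) ∂(sm (Pe x)) = 0 := by
    have hmp := sm_inv (E := Pe x) (-1 : UG (Pe x))
    have hsa : ∀ w : SS (Pe x), (((sa (-1 : UG (Pe x)) w : SS (Pe x)) : Pe x) : E)
        = - ((w : Pe x) : E) := by
      intro w
      rfl
    have e1 : ∫ w : SS (Pe x), (⟪y, ((w : Pe x) : E)⟫ : ℝ) ∂(sm (Pe x))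
        = ∫ w : SS (Pe x), (⟪y, ((sa (-1 : UG (Pe x)) w : Pe x) : E)⟫ : ℝ) ∂(sm (Pe x)) := by
      conv_lhs => rw [← hmp.map_eq]
      exact integral_map hmp.measurable.aemeasurable hc.aestronglyMeasurable
    simp only [hsa, inner_neg_right] at e1
    rw [integral_neg] at e1
    linarith
  unfold PP
  have e2 : ∀ w : SS (Pe x), (⟪y, (pt x r w : E)⟫ : ℝ)
      = r * ⟪y, (x : E)⟫ + Real.sqrt (1 - r ^ 2) * ⟪y, ((w : Pe x) : E)⟫ := by
    intro w
    rw [pt_coe h1 h2, inner_add_right, real_inner_smul_right, real_inner_smul_right]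
  simp only [e2]
  rw [integral_add (integrable_const _) (hint.const_mul _), integral_const, integral_const_mul, hz]
  simp

-- mixing
theorem mixing_bm_int {μ : Measure (SS E)} [IsProbabilityMeasure μ] {a b : SS E → ℝ} (ha : BM a)
    (hb : BM b) : Integrable (fun x => a x * b x) μ := by
  obtain ⟨ham, A, hA⟩ := ha
  obtain ⟨hbm, B, hB⟩ := hb
  refine Integrable.of_bound (ham.mul hbm).aestronglyMeasurable (A * B) (Eventually.of_forall fun x => ?_)
  rw [Real.norm_eq_abs, abs_mul]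
  exact mul_le_mul (hA x) (hB x) (abs_nonneg _) ((abs_nonneg _).trans (hA x))

theorem mixing_bm_int1 {μ : Measure (SS E)} [IsProbabilityMeasure μ] {a : SS E → ℝ} (ha : BM a) :
    Integrable a μ := by
  obtain ⟨ham, A, hA⟩ := ha
  exact Integrable.of_bound ham.aestronglyMeasurable A (Eventually.of_forall fun x => hA x)

theorem mixing_cs {μ : Measure (SS E)} [IsProbabilityMeasure μ] {a b : SS E → ℝ} (ha : BM a)
    (hb : BM b) :
    |∫ x, a x * b x ∂μ| ≤ Real.sqrt (∫ x, a x ^ 2 ∂μ) * Real.sqrt (∫ x, b x ^ 2 ∂μ) := by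
  have haa : Integrable (fun x => a x ^ 2) μ := by simpa [sq] using mixing_bm_int (μ := μ) ha ha
  have hbb : Integrable (fun x => b x ^ 2) μ := by simpa [sq] using mixing_bm_int (μ := μ) hb hb
  have hab := mixing_bm_int (μ := μ) ha hb
  set P := ∫ x, a x ^ 2 ∂μ with hP
  set Q := ∫ x, b x ^ 2 ∂μ with hQ
  set R := ∫ x, a x * b x ∂μ with hR
  have hP0 : 0 ≤ P := integral_nonneg fun x => sq_nonneg _
  have hQ0 : 0 ≤ Q := integral_nonneg fun x => sq_nonneg _
  have key : ∀ t : ℝ, 0 ≤ Q * (t * t) + (-2 * R) * t + P := by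
    intro t
    have h1 : ∫ x, (a x - t * b x) ^ 2 ∂μ = Q * (t * t) + (-2 * R) * t + P := by
      have e : (fun x => (a x - t * b x) ^ 2)
          = fun x => (a x ^ 2 + (-2 * t) * (a x * b x)) + (t * t) * b x ^ 2 := by
        funext x; ring
      have i1 : Integrable (fun x => (-2 * t) * (a x * b x)) μ := hab.const_mul _
      have i2 : Integrable (fun x => (t * t) * b x ^ 2) μ := hbb.const_mul _
      have i3 : Integrable (fun x => a x ^ 2 + (-2 * t) * (a x * b x)) μ := haa.add i1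
      rw [e, integral_add i3 i2, integral_add haa i1, integral_const_mul, integral_const_mul]
      rw [← hP, ← hQ, ← hR]; ring
    rw [← h1]; exact integral_nonneg fun x => sq_nonneg _
  have hd := discrim_le_zero key
  unfold discrim at hd
  have h2 : R ^ 2 ≤ P * Q := by nlinarith
  rw [← Real.sqrt_mul hP0]
  exact Real.abs_le_sqrt h2

theorem mixing {n : ℕ} (hn : Module.finrank ℝ E = n) (h5 : 5 ≤ n) {f h : SS E → ℝ} (hf : BM f)
    (hh : BM h) :
    |∫ x, h x * PP 0 f x ∂(sm E) - (∫ x, h x ∂(sm E)) * ∫ x, f x ∂(sm E)|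
      ≤ 2 / n * (Real.sqrt (∫ x, (h x) ^ 2 ∂(sm E)) * Real.sqrt (∫ x, (f x) ^ 2 ∂(sm E))) := by
  have : IsProbabilityMeasure (sm E) := sm_prob (by omega)
  have h3 : 3 ≤ Module.finrank ℝ E := by omega
  set c := ∫ x, f x ∂(sm E) with hc
  have h1b : BM (fun _ : SS E => (1 : ℝ)) := ⟨measurable_const, 1, fun x => by simp⟩
  have hfi : Integrable f (sm E) := mixing_bm_int1 hf
  have hhi : Integrable h (sm E) := mixing_bm_int1 hh
  have hf' : BM (fun y => 1 * f y + (-c) * (fun _ : SS E => (1 : ℝ)) y) := by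
    obtain ⟨hfm, C, hC⟩ := hf
    refine ⟨(hfm.const_mul 1).add measurable_const, C + |c|, fun x => ?_⟩
    simp only [one_mul, mul_one]
    exact (abs_add_le _ _).trans (add_le_add (hC x) (by rw [abs_neg]))
  obtain ⟨hPb, hP1, hPl, -⟩ := PP_basic (E := E) h3 0 hf h1b
  have hlin : ∀ x, PP 0 (fun y => 1 * f y + (-c) * (fun _ : SS E => (1 : ℝ)) y) x = PP 0 f x - c := by
    intro x
    rw [hPl 1 (-c) x, hP1 x]; ring
  have hPb' : BM (PP 0 (fun y => 1 * f y + (-c) * (fun _ : SS E => (1 : ℝ)) y)) :=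
    (PP_basic (E := E) h3 0 hf' h1b).1
  have e1 : ∫ x, h x * PP 0 f x ∂(sm E) - (∫ x, h x ∂(sm E)) * c
      = ∫ x, h x * PP 0 (fun y => 1 * f y + (-c) * (fun _ : SS E => (1 : ℝ)) y) x ∂(sm E) := by
    have : (fun x => h x * PP 0 (fun y => 1 * f y + (-c) * (fun _ : SS E => (1 : ℝ)) y) x)
        = fun x => h x * PP 0 f x - c * h x := by
      funext x; rw [hlin x]; ring
    rw [this, integral_sub (mixing_bm_int hh hPb) (hhi.const_mul c), integral_const_mul]; ring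
  have h0 : ∫ x, (fun y => 1 * f y + (-c) * (fun _ : SS E => (1 : ℝ)) y) x ∂(sm E) = 0 := by
    simp only [one_mul, mul_one]
    rw [integral_add hfi (integrable_const _), integral_const]
    simp [hc]
  have hs := spec_mean0 hn h5 (r := 0) (by norm_num) hf' h0
  have hn0 : (0 : ℝ) < n := by
    have : 0 < n := by omega
    exact_mod_cast this
  have hmax : max |(0:ℝ)| ((0:ℝ) ^ 2 + 2 / n) = 2 / n := by
    rw [abs_zero]
    have : (0:ℝ) ≤ 2 / n := by positivity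
    simp [this]
  rw [hmax] at hs
  have hvar : ∫ x, ((fun y => 1 * f y + (-c) * (fun _ : SS E => (1 : ℝ)) y) x) ^ 2 ∂(sm E)
      ≤ ∫ x, (f x) ^ 2 ∂(sm E) := by
    have hff : Integrable (fun x => f x ^ 2) (sm E) := by
      simpa [sq] using mixing_bm_int (μ := sm E) hf hf
    have e : (fun x => ((fun y => 1 * f y + (-c) * (fun _ : SS E => (1 : ℝ)) y) x) ^ 2)
        = fun x => (f x ^ 2 + (-2 * c) * f x) + c ^ 2 := by
      funext x; simp only []; ring
    have i1 : Integrable (fun x => (-2 * c) * f x) (sm E) := hfi.const_mul _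
    have i3 : Integrable (fun x => f x ^ 2 + (-2 * c) * f x) (sm E) := hff.add i1
    rw [e, integral_add i3 (integrable_const _), integral_add hff i1, integral_const_mul,
      integral_const, ← hc]
    rw [probReal_univ]; simp only [smul_eq_mul, one_mul]
    nlinarith [sq_nonneg c]
  have hcs := mixing_cs (μ := sm E) hh hPb'
  rw [e1]
  refine hcs.trans ?_
  have h4 : Real.sqrt (∫ x, (PP 0 (fun y => 1 * f y + (-c) * (fun _ : SS E => (1 : ℝ)) y) x) ^ 2 ∂(sm E))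
      ≤ 2 / n * Real.sqrt (∫ x, (f x) ^ 2 ∂(sm E)) := by
    refine Real.sqrt_le_iff.mpr ⟨by positivity, ?_⟩
    rw [mul_pow, Real.sq_sqrt (integral_nonneg fun x => sq_nonneg _)]
    exact hs.trans (mul_le_mul_of_nonneg_left hvar (by positivity))
  calc Real.sqrt (∫ x, (h x) ^ 2 ∂(sm E)) * _
      ≤ Real.sqrt (∫ x, (h x) ^ 2 ∂(sm E)) * (2 / n * Real.sqrt (∫ x, (f x) ^ 2 ∂(sm E))) :=
        mul_le_mul_of_nonneg_left h4 (Real.sqrt_nonneg _)
    _ = _ := by ring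

-- psd
theorem psd_int {f h : SS E → ℝ} (hf : BM f) (hh : BM h)
    (a b : SS E) : Integrable (fun g : UG E => h (sa g a) * f (sa g b)) (hm E) := by
  obtain ⟨hfm, Cf, hCf⟩ := hf
  obtain ⟨hhm, Ch, hCh⟩ := hh
  have ma : Measurable (fun g : UG E => h (sa g a)) := hhm.comp (sa_continuous_left a).measurable
  have mb : Measurable (fun g : UG E => f (sa g b)) := hfm.comp (sa_continuous_left b).measurable
  refine Integrable.of_bound (ma.mul mb).aestronglyMeasurable (Ch * Cf) (Filter.Eventually.of_forall fun g => ?_)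
  rw [Real.norm_eq_abs, abs_mul]
  exact mul_le_mul (hCh _) (hCf _) (abs_nonneg _) ((abs_nonneg _).trans (hCh (sa g a)))

theorem psd_pts {N : ℕ} (hn : Module.finrank ℝ E = N + 1) {s : ℝ} (h0 : 0 ≤ s) (h1 : s ≤ 1) :
    ∃ p : Fin N → SS E, ∀ i j, i ≠ j → ⟪(p i : E), (p j : E)⟫ = s := by
  let b : OrthonormalBasis (Fin (N + 1)) ℝ E := (stdOrthonormalBasis ℝ E).reindex (finCongr hn)
  have hb : ∀ i j, ⟪b i, b j⟫ = if i = j then (1 : ℝ) else 0 := orthonormal_iff_ite.1 b.orthonormal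
  have e0 : ∀ i : Fin N, (0 : Fin (N + 1)) ≠ i.succ := fun i => (Fin.succ_ne_zero i).symm
  have hin : ∀ i j : Fin N, ⟪Real.sqrt s • b 0 + Real.sqrt (1 - s) • b i.succ,
      Real.sqrt s • b 0 + Real.sqrt (1 - s) • b j.succ⟫ = s + (1 - s) * (if i = j then (1 : ℝ) else 0) := by
    intro i j
    simp only [inner_add_left, inner_add_right, real_inner_smul_left, real_inner_smul_right, hb]
    simp only [e0 j, (e0 i).symm, if_true, if_false, Fin.succ_inj]
    have s1 : Real.sqrt s * Real.sqrt s = s := Real.mul_self_sqrt h0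
    have s2 : Real.sqrt (1 - s) * Real.sqrt (1 - s) = 1 - s := Real.mul_self_sqrt (by linarith)
    split_ifs <;> nlinarith
  refine ⟨fun i => ⟨Real.sqrt s • b 0 + Real.sqrt (1 - s) • b i.succ, ?_⟩, fun i j hij => ?_⟩
  · rw [mem_sphere_zero_iff_norm]
    have h := hin i i
    rw [if_pos rfl, real_inner_self_eq_norm_sq] at h
    have h2 : ‖Real.sqrt s • b 0 + Real.sqrt (1 - s) • b i.succ‖ ^ 2 = 1 := by rw [h]; ring
    nlinarith [norm_nonneg (Real.sqrt s • b 0 + Real.sqrt (1 - s) • b i.succ)]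
  · have h := hin i j
    rw [if_neg hij] at h
    simpa using h

theorem psd {n : ℕ} (hn : Module.finrank ℝ E = n) (h5 : 5 ≤ n) {s : ℝ} (h0 : 0 ≤ s) (h1 : s ≤ 1)
    {f : SS E → ℝ} (hf : BM f) :
    (∫ x, f x ∂(sm E)) ^ 2 - (∫ x, (f x) ^ 2 ∂(sm E)) / (n - 2) ≤ ∫ x, f x * PP s f x ∂(sm E) := by
  obtain ⟨N, rfl⟩ : ∃ N, n = N + 1 := ⟨n - 1, by omega⟩
  have hN : 4 ≤ N := by omega
  obtain ⟨p, hp⟩ := psd_pts hn h0 h1
  have h3 : 3 ≤ Module.finrank ℝ E := by omega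
  have h2' : 2 ≤ Module.finrank ℝ E := by omega
  have h1' : 1 ≤ Module.finrank ℝ E := by omega
  set c := ∫ x, f x ∂(sm E) with hc
  set F2 := ∫ x, (f x) ^ 2 ∂(sm E) with hF2
  set P := ∫ x, f x * PP s f x ∂(sm E) with hP
  have hPf : ∀ r : ℝ, Measurable (PP r f) := fun r => (PP_basic h3 r hf hf).1.1
  have hone : BM (fun _ : SS E => (1 : ℝ)) := ⟨measurable_const, 1, fun _ => by simp⟩
  have hI1 : ∀ i, Integrable (fun g : UG E => f (sa g (p i))) (hm E) := by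
    intro i
    have h := psd_int hf hone (p i) (p i)
    simpa using h
  have hI2 : ∀ i j, Integrable (fun g : UG E => f (sa g (p i)) * f (sa g (p j))) (hm E) :=
    fun i j => psd_int hf hf (p i) (p j)
  have hc1 : ∀ i, ∫ g, f (sa g (p i)) ∂(hm E) = c := fun i => (sm_int h1' (p i) hf.1).symm
  have hd : ∀ i j, ∫ g, (f (sa g (p i)) - c) * (f (sa g (p j)) - c) ∂(hm E)
      = (if i = j then F2 else P) - c ^ 2 := by
    intro i j
    have e : ∀ g : UG E, (f (sa g (p i)) - c) * (f (sa g (p j)) - c)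
        = f (sa g (p i)) * f (sa g (p j)) - c * f (sa g (p i)) - c * f (sa g (p j)) + c ^ 2 := fun g => by ring
    simp only [e]
    have i1 : Integrable (fun g : UG E => f (sa g (p i)) * f (sa g (p j)) - c * f (sa g (p i))) (hm E) :=
      (hI2 i j).sub ((hI1 i).const_mul c)
    have i2 : Integrable (fun g : UG E => f (sa g (p i)) * f (sa g (p j)) - c * f (sa g (p i)) -
        c * f (sa g (p j))) (hm E) := i1.sub ((hI1 j).const_mul c)
    rw [integral_add i2 (integrable_const _), integral_sub i1 ((hI1 j).const_mul c),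
      integral_sub (hI2 i j) ((hI1 i).const_mul c), integral_const_mul, integral_const_mul, hc1, hc1,
      integral_const]
    have hm1 : (hm E).real univ = 1 := by simp
    rw [hm1, one_smul]
    by_cases hij : i = j
    · subst hij
      rw [if_pos rfl]
      have e2 : ∫ g, f (sa g (p i)) * f (sa g (p i)) ∂(hm E) = F2 := by
        have := sm_int h1' (p i) (hf.1.pow_const 2)
        rw [hF2, this]
        exact integral_congr_ae (Filter.Eventually.of_forall fun g => by simp only [pow_two])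
      rw [e2]
      ring
    · rw [if_neg hij]
      have e3 := PP_pair h2' hf hf hPf (p i) (p j)
      rw [hp i j hij] at e3
      rw [← e3]
      ring
  have hsum : ∫ g, (∑ i, (f (sa g (p i)) - c)) ^ 2 ∂(hm E)
      = ∑ i : Fin N, ∑ j : Fin N, ((if i = j then F2 else P) - c ^ 2) := by
    have e : ∀ g : UG E, (∑ i, (f (sa g (p i)) - c)) ^ 2
        = ∑ i : Fin N, ∑ j : Fin N, (f (sa g (p i)) - c) * (f (sa g (p j)) - c) := by
      intro g
      rw [pow_two, Finset.sum_mul_sum]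
    have hI : ∀ i j, Integrable (fun g : UG E => (f (sa g (p i)) - c) * (f (sa g (p j)) - c)) (hm E) := by
      intro i j
      have e' : (fun g : UG E => (f (sa g (p i)) - c) * (f (sa g (p j)) - c))
        = fun g : UG E => f (sa g (p i)) * f (sa g (p j)) - c * f (sa g (p i)) - c * f (sa g (p j)) + c ^ 2 := by
        funext g
        ring
      rw [e']
      exact (((hI2 i j).sub ((hI1 i).const_mul c)).sub ((hI1 j).const_mul c)).add (integrable_const _)
    simp only [e]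
    rw [integral_finsetSum _ fun i _ => integrable_finsetSum _ fun j _ => hI i j]
    refine Finset.sum_congr rfl fun i _ => ?_
    rw [integral_finsetSum _ fun j _ => hI i j]
    exact Finset.sum_congr rfl fun j _ => hd i j
  have hnn : 0 ≤ ∫ g, (∑ i, (f (sa g (p i)) - c)) ^ 2 ∂(hm E) := integral_nonneg fun g => sq_nonneg _
  rw [hsum] at hnn
  have hval : ∑ i : Fin N, ∑ j : Fin N, ((if i = j then F2 else P) - c ^ 2)
      = N * (F2 - P) + N * N * (P - c ^ 2) := by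
    have h : ∀ i : Fin N, ∑ j : Fin N, ((if i = j then F2 else P) - c ^ 2) = (F2 - P) + N * (P - c ^ 2) := by
      intro i
      have h' : ∀ j : Fin N, ((if i = j then F2 else P) - c ^ 2) = (if i = j then F2 - P else 0) + (P - c ^ 2) := by
        intro j
        split_ifs <;> ring
      simp only [h']
      rw [Finset.sum_add_distrib, Finset.sum_ite_eq, if_pos (Finset.mem_univ _), Finset.sum_const, Finset.card_univ,
        Fintype.card_fin, nsmul_eq_mul]
    simp only [h]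
    rw [Finset.sum_const, Finset.card_univ, Fintype.card_fin, nsmul_eq_mul]
    ring
  rw [hval] at hnn
  have hNR : (4 : ℝ) ≤ N := by exact_mod_cast hN
  have hcast : (((N + 1 : ℕ) : ℝ) - 2) = N - 1 := by push_cast; ring
  rw [hcast]
  have hN1 : (0 : ℝ) < N - 1 := by linarith
  have h4 : 0 ≤ (F2 - P) + N * (P - c ^ 2) := by
    have : (0 : ℝ) < N := by linarith
    by_contra hneg
    rw [not_le] at hneg
    have := mul_neg_of_pos_of_neg this hneg
    nlinarith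
  have h5' : c ^ 2 - P ≤ F2 / (N - 1) := by
    rw [le_div_iff₀ hN1]
    nlinarith [sq_nonneg c]
  linarith

end Spec


end Pool.Agent.helper440_simplex
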