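import Pool.Agent.helper440_simplex.Det

/-! # A neighbourhood of measure above one half -/

set_option autoImplicit false
set_option linter.unusedSectionVars false

namespace Pool.Agent.helper440_simplex

open MeasureTheory Metric Set Filter Topology
open scoped RealInnerProductSpace

section A0
variable {E : Type*} [NormedAddCommGroup E] [InnerProductSpace ℝ E] [CompleteSpace E]
  [FiniteDimensional ℝ E]

theorem ht_symm (v x0 : SS E) (b : ℝ) :
    (hm E).real {g | ⟪(v : E), (sa g x0 : E)⟫ < -b} = (hm E).real {g | b < ⟪(v : E), (sa g x0 : E)⟫} := by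
  have h := measure_preimage_mul (hm E) (hh (v : E)) {g | b < ⟪(v : E), (sa g x0 : E)⟫}
  unfold Measure.real
  rw [← h]
  congr 2
  ext g
  simp only [mem_preimage, mem_ofPred_eq, sa_mul]
  rw [sa_coe (hh (v : E)), hh_inner]
  constructor <;> intro h <;> linarith

theorem ht_low {m : ℕ} (hn : Module.finrank ℝ E = m + 2) (v x0 : SS E) {b q : ℝ} (hb : 0 < b)
    (hb1 : b ≤ 1) (hq : 0 < q) (hq2 : q ^ 2 = m + 2) :
    1 / 2 + b ^ 2 / 64 ≤ (hm E).real {g | -(b / (2 * q)) ≤ ⟪(v : E), (sa g x0 : E)⟫} := by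
  set c := b / (2 * q) with hc
  have hc0 : 0 < c := by positivity
  have h1 := ht_center hn v x0 hc0
  set p := (hm E).real {g | |⟪(v : E), (sa g x0 : E)⟫| ≤ c} with hp
  have hp1 : p ≤ 1 := measureReal_le_one
  have h2 : b ^ 2 / 16 * (1 - p) ≤ p := by
    refine le_trans (mul_le_mul_of_nonneg_right ?_ (by linarith)) h1
    have e : c ^ 2 = b ^ 2 / (4 * q ^ 2) := by rw [hc]; ring
    rw [e, hq2]
    rw [div_div, mul_div_assoc', div_le_div_iff₀ (by norm_num) (by positivity)]
    have : (0 : ℝ) ≤ m := Nat.cast_nonneg m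
    nlinarith [sq_nonneg b]
  have h3 : b ^ 2 / 32 ≤ p := by
    have hb2 : b ^ 2 ≤ 1 := by nlinarith
    by_contra hcon
    push Not at hcon
    nlinarith [sq_nonneg b]
  have hS : MeasurableSet {g : UG E | -c ≤ ⟪(v : E), (sa g x0 : E)⟫} :=
    (isClosed_le continuous_const (ht_cont v x0)).measurableSet
  have h4 := probReal_compl_eq_one_sub (μ := hm E) hS
  have e4 : {g : UG E | -c ≤ ⟪(v : E), (sa g x0 : E)⟫}ᶜ
      = {g : UG E | ⟪(v : E), (sa g x0 : E)⟫ < -c} := by
    ext g; simp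
  rw [e4, ht_symm] at h4
  have h5 : (hm E).real {g | -c ≤ ⟪(v : E), (sa g x0 : E)⟫}
      = p + (hm E).real {g | c < ⟪(v : E), (sa g x0 : E)⟫} := by
    rw [hp, ← measureReal_union]
    · congr 1
      ext g
      simp only [mem_ofPred_eq, mem_union, abs_le]
      constructor
      · intro h
        rcases le_or_gt ⟪(v : E), (sa g x0 : E)⟫ c with h6 | h6
        · exact Or.inl ⟨h, h6⟩
        · exact Or.inr h6
      · rintro (h | h)
        · exact h.1
        · linarith
    · rw [Set.disjoint_left]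
      intro g hg hg2
      have h6 : |⟪(v : E), (sa g x0 : E)⟫| ≤ c := hg
      have h7 : c < ⟪(v : E), (sa g x0 : E)⟫ := hg2
      have := (abs_le.1 h6).2
      linarith
    · exact (isOpen_lt continuous_const (ht_cont v x0)).measurableSet
  linarith

end A0

variable {E : Type*} [NormedAddCommGroup E] [InnerProductSpace ℝ E] [CompleteSpace E]
  [FiniteDimensional ℝ E] [MeasurableSpace E] [BorelSpace E]

theorem mA_indep {f f' : E} (h : ‖f‖ = ‖f'‖) (θ : ℝ) (A : Set E) (x : E) :
    mA θ A f x = mA θ A f' x := by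
  unfold mA Measure.real
  have := meas_point h {z : E | |⟪x, z⟫| ≤ 1 / 2 ∧ pj x z ∈ Om θ A x}
  simp only [mem_ofPred_eq] at this
  rw [this]

theorem stepA {m : ℕ} (hn : Module.finrank ℝ E = m + 2) {q b H c1 η θ : ℝ} (hq : 0 < q)
    (hq2 : q ^ 2 = m + 2) (hb : 0 < b) (hb1 : b ≤ 1) (hc1 : b / q ≤ c1) (hcH : c1 ≤ H / q)
    (hη : 0 < η) (hbη : 5 * b ≤ η / 8) (hmη : 4 / (m + 2 : ℝ) ≤ η / 16)
    (hHq : (H + b) / q ≤ 1 / 2) (hHb : 4 * H ^ 3 ≤ b * q ^ 2) (v v0 e f : SS E)
    (hef : ⟪(e : E), (f : E)⟫ = 0) {A : Set E} (hA : MeasurableSet A)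
    (hAP : (hm E).real {g | c1 ≤ ⟪(v : E), (sa g v0 : E)⟫} + η / 2
      ≤ (hm E).real {g | av g (v0 : E) ∈ A}) :
    ∃ K ⊆ {x : SS E | η / 8 ≤ mA θ A f x}, IsCompact K ∧ K.Nonempty ∧
      1 / 2 + b ^ 2 / 64 ≤ (hm E).real {g | infDist (sa g v0) K ≤ c1 - b / (4 * q)} := by
  have hen : ‖(e : E)‖ = 1 := norm_eq_of_mem_sphere e
  have hfn : ‖(f : E)‖ = 1 := norm_eq_of_mem_sphere f
  have hv0n : ‖(v0 : E)‖ = 1 := norm_eq_of_mem_sphere v0
  have hbH : b ≤ H := by
    have := hc1.trans hcH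
    exact (div_le_div_iff_of_pos_right hq).1 this
  have hH : 0 < H := by linarith
  set T : Set (SS E) := {x : SS E | η / 8 ≤ mA θ A f x} with hT
  have hTm : MeasurableSet T :=
    measurableSet_le measurable_const ((mA_meas θ hA f).comp measurable_subtype_coe)
  have h1 := Astar_meas hen hfn hv0n hef θ hA (ζ := η / 8) (by positivity)
  have h2 : (hm E).real {g | η / 8 ≤ mA θ A f (av g e)} = (hm E).real {g | sa g v0 ∈ T} := by
    have := meas_point (hen.trans hv0n.symm) {x : E | η / 8 ≤ mA θ A f x}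
    unfold Measure.real
    rw [show {g : UG E | η / 8 ≤ mA θ A f (av g e)}
      = {g : UG E | av g (e : E) ∈ {x : E | η / 8 ≤ mA θ A f x}} from rfl, this]
    rfl
  rw [h2] at h1
  have h3 : (hm E).real {g | 1 / 2 < |⟪(e : E), av g (f : E)⟫|} ≤ η / 16 := by
    refine le_trans ?_ hmη
    have h4 := ht_cheb hn e f (κ := 1 / 2) (by norm_num)
    have e5 : 1 / ((m + 2 : ℝ) * (1 / 2) ^ 2) = 4 / (m + 2 : ℝ) := by
      field_simp; norm_num
    rw [e5] at h4
    refine le_trans (measureReal_mono ?_ (measure_ne_top _ _)) h4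
    intro g hg
    have hg' : 1 / 2 < |⟪(e : E), av g (f : E)⟫| := hg
    exact hg'.le
  -- the cap slightly enlarged
  set a := c1 - b / q with ha
  have ha0 : 0 ≤ a := by rw [ha]; linarith
  have haH : a ≤ H / q := by
    have : 0 < b / q := by positivity
    rw [ha]; linarith
  have h4 : (hm E).real {g | a ≤ ⟪(v : E), (sa g v0 : E)⟫}
      ≤ (hm E).real {g | c1 ≤ ⟪(v : E), (sa g v0 : E)⟫} + 5 * b := by
    have hbq : 0 < b / q := by positivity
    have h5 := ht_conc hn v v0 (a := c1) (b := b / q) hbq (by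
      rw [abs_of_nonneg (by linarith)]
      rw [add_div] at hHq
      linarith)
    have e6 : 5 * (b / q) * Real.sqrt (m + 2 : ℝ) = 5 * b := by
      rw [← hq2, Real.sqrt_sq hq.le]; field_simp
    rw [e6] at h5
    have h6 : {g : UG E | a ≤ ⟪(v : E), (sa g v0 : E)⟫}
        ⊆ {g | c1 ≤ ⟪(v : E), (sa g v0 : E)⟫} ∪ {g | |⟪(v : E), (sa g v0 : E)⟫ - c1| ≤ b / q} := by
      intro g hg
      have hg' : a ≤ ⟪(v : E), (sa g v0 : E)⟫ := hg
      rcases le_or_gt c1 ⟪(v : E), (sa g v0 : E)⟫ with h7 | h7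
      · exact Or.inl h7
      · refine Or.inr ?_
        show |⟪(v : E), (sa g v0 : E)⟫ - c1| ≤ b / q
        rw [abs_le]
        constructor <;> linarith
    have h7 := (measureReal_mono h6 (measure_ne_top (hm E) _)).trans (measureReal_union_le _ _)
    linarith
  have h5 : (hm E).real {g | a ≤ ⟪(v : E), (sa g v0 : E)⟫} < (hm E).real {g | sa g v0 ∈ T} := by
    linarith
  obtain ⟨K, hKT, hK, hKne, hKP⟩ := exists_compact_sub hTm v0 measureReal_nonneg h5
  refine ⟨K, hKT, hK, hKne, ?_⟩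
  have hb'q : 0 < b / (2 * q) := by positivity
  have hHq2 : H / q ≤ 1 / 2 := by
    have : 0 < b / q := by positivity
    rw [add_div] at hHq; linarith
  have h6 := iso (by omega) v v0 hK.isClosed hKne (a := a) (b := b / (2 * q)) (c0 := H / q)
    (δ := c1 - b / (4 * q)) (by rwa [abs_of_nonneg ha0])
    (by
      rw [abs_of_pos hb'q, div_le_div_iff₀ (by positivity) hq]
      nlinarith)
    hHq2 (by positivity) (by
      have e7 : a + b / (2 * q) = c1 - b / (2 * q) := by
        rw [ha]; field_simp; ring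
      rw [e7]
      have h8 : (c1 - b / (2 * q)) * (1 + (H / q) ^ 2)
          ≤ c1 - b / (2 * q) + (H / q) * (H / q) ^ 2 := by
        have h9 : (c1 - b / (2 * q)) * (H / q) ^ 2 ≤ (H / q) * (H / q) ^ 2 :=
          mul_le_mul_of_nonneg_right (by linarith) (by positivity)
        linarith
      have h10 : (H / q) * (H / q) ^ 2 ≤ b / (4 * q) := by
        have e8 : (H / q) * (H / q) ^ 2 = H ^ 3 / (q ^ 2 * q) := by field_simp
        rw [e8, div_le_div_iff₀ (by positivity) (by positivity)]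
        nlinarith
      have e9 : b / (2 * q) = b / (4 * q) + b / (4 * q) := by field_simp; norm_num
      linarith) hKP
  exact (ht_low hn v v0 hb hb1 hq hq2).trans h6

end Pool.Agent.helper440_simplex
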