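import Pool.Agent.helper440_simplex.StepA

/-! # The random configuration -/

set_option autoImplicit false
set_option linter.unusedSectionVars false

namespace Pool.Agent.helper440_simplex

open MeasureTheory Metric Set Filter Topology
open scoped RealInnerProductSpace

variable {E : Type*} [NormedAddCommGroup E] [InnerProductSpace ℝ E] [CompleteSpace E]
  [FiniteDimensional ℝ E] [MeasurableSpace E] [BorelSpace E]

theorem ev_small {m : ℕ} (hn : Module.finrank ℝ E = m + 2) (hm2 : 2 ≤ m) {q : ℝ} (hq : 0 < q)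
    (hq2 : q ^ 2 = m + 2) {F : E → E → E} (hF : Measurable (Function.uncurry F)) {ρ : ℝ}
    (hρ : ∀ y z, ‖F y z‖ ≤ ρ / q) (a b p : E)
    (hp : ‖p‖ ≤ 1) (hap : ⟪a, p⟫ = 0) (hbp : ⟪b, p⟫ = 0) {k : ℝ} (hk : 0 < k) :
    (hm E).real {g | k / q ^ 2 ≤ |⟪F (av g a) (av g b), av g p⟫|} ≤ 2 * ρ ^ 2 / k ^ 2 := by
  refine (moment hn (by omega) hF hρ a b p hp hap hbp (κ := k / q ^ 2) (by positivity)).trans ?_
  have hm0 : (2 : ℝ) ≤ m := by exact_mod_cast hm2
  have e : (ρ / q) ^ 2 / (m * (k / q ^ 2) ^ 2) = ρ ^ 2 / k ^ 2 * (q ^ 2 / m) := by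
    field_simp
  rw [e]
  have h1 : q ^ 2 / m ≤ 2 := by
    rw [div_le_iff₀ (by linarith), hq2]; linarith
  calc ρ ^ 2 / k ^ 2 * (q ^ 2 / m) ≤ ρ ^ 2 / k ^ 2 * 2 :=
        mul_le_mul_of_nonneg_left h1 (by positivity)
    _ = _ := by ring

theorem union_le {ι : Type*} [Fintype ι] (B : ι → Set (UG E)) {c : ℝ}
    (h : ∀ i, (hm E).real (B i) ≤ c) : (hm E).real (⋃ i, B i) ≤ Fintype.card ι * c := by
  refine (measureReal_iUnion_fintype_le B).trans ?_
  refine (Finset.sum_le_sum fun i _ => h i).trans ?_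
  rw [Finset.sum_const, Finset.card_univ, nsmul_eq_mul]

theorem simplex_p {t : ℕ} (ht : 2 ≤ t) {a b : E} (ha : ‖a‖ = 1) (hb : ‖b‖ = 1)
    (hab : ⟪a, b⟫ = -1 / (t - 1 : ℝ)) :
    ‖a + (1 / (t - 1 : ℝ)) • b‖ ≤ 1 ∧ ⟪b, a + (1 / (t - 1 : ℝ)) • b⟫ = 0 := by
  have ht2 : (2 : ℝ) ≤ t := by exact_mod_cast ht
  have ht1 : (1 : ℝ) ≤ t - 1 := by linarith
  constructor
  · have h : ‖a + (1 / (t - 1 : ℝ)) • b‖ ^ 2 ≤ 1 := by
      rw [norm_add_sq_real, norm_smul, ha, hb, real_inner_smul_right, hab, Real.norm_eq_abs,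
        mul_one, sq_abs]
      have : (1 : ℝ) ^ 2 + 2 * (1 / (t - 1) * (-1 / (t - 1))) + (1 / (t - 1)) ^ 2
          = 1 - (1 / (t - 1)) ^ 2 := by ring
      rw [this]
      nlinarith [sq_nonneg (1 / (t - 1 : ℝ))]
    nlinarith [norm_nonneg (a + (1 / (t - 1 : ℝ)) • b)]
  · rw [inner_add_right, real_inner_smul_right, real_inner_self_eq_norm_sq, hb,
      real_inner_comm a b, hab]
    ring

theorem frame_p {a b : E} (ha : ‖a‖ = 1) (hb : ‖b‖ = 1) :
    ‖a - ⟪a, b⟫ • b‖ ≤ 1 ∧ ⟪b, a - ⟪a, b⟫ • b⟫ = 0 := by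
  constructor
  · have h : ‖a - ⟪a, b⟫ • b‖ ^ 2 ≤ 1 := by
      rw [norm_sub_sq_real, norm_smul, ha, hb, real_inner_smul_right, Real.norm_eq_abs,
        mul_one, sq_abs]
      nlinarith [sq_nonneg ⟪a, b⟫]
    nlinarith [norm_nonneg (a - ⟪a, b⟫ • b)]
  · rw [inner_sub_right, real_inner_smul_right, real_inner_self_eq_norm_sq, hb,
      real_inner_comm a b]
    ring

theorem Om_nonempty {θ ζ : ℝ} (hζ : 0 < ζ) {A : Set E} {f x : E} (h : ζ ≤ mA θ A f x) :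
    (Om θ A x).Nonempty := by
  by_contra hcon
  rw [not_nonempty_iff_eq_empty] at hcon
  have : mA θ A f x = 0 := by
    unfold mA
    rw [hcon]
    simp
  linarith

/-- the selection fails rarely -/
theorem sel_rare {m : ℕ} (hn : Module.finrank ℝ E = m + 2) {κ1 κ2 q ζ θ r2 d : ℝ}
    {A : Set E} (hA : MeasurableSet A)
    (hκ1 : 0 < κ1) (hκ2 : 0 < κ2) (hq : 0 < q) (hq2 : q ^ 2 = m + 2)
    (hs1 : κ1 / q ≤ 1 / 2) (hs2 : κ2 / q ≤ 1 / 2) (hζ : 1 / κ1 ^ 2 < ζ)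
    (hr2 : 7 * κ2 + 4 * κ1 < r2) (hm8 : 4 / (m + 2 : ℝ) ≤ 1 / 2) (f e o : SS E)
    (heo : ⟪(e : E), (o : E)⟫ = 0)
    {K : Set (SS E)} (hKT : K ⊆ {x : SS E | ζ ≤ mA θ A f x}) {u : E → E}
    (huK : ∀ y, infDist y ((fun x : SS E => (x : E)) '' K) < d →
      y + u y ∈ ((fun x : SS E => (x : E)) '' K))
    (hBm : MeasurableSet {p : E × E | infDist p.1 ((fun x : SS E => (x : E)) '' K) < d ∧
      r2 / q ≤ infDist p.2 (Om θ A (p.1 + u p.1))}) :
    (hm E).real {g | infDist (av g (e : E)) ((fun x : SS E => (x : E)) '' K) < d ∧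
      r2 / q ≤ infDist (av g (o : E)) (Om θ A (av g (e : E) + u (av g (e : E))))} ≤ 6 / κ2 ^ 2 := by
  have hen : ‖(e : E)‖ = 1 := norm_eq_of_mem_sphere e
  have hon : ‖(o : E)‖ = 1 := norm_eq_of_mem_sphere o
  have hfn : ‖(f : E)‖ = 1 := norm_eq_of_mem_sphere f
  have hκ2' : 0 < 1 / κ2 ^ 2 := by positivity
  have hhalf : 1 / 2 ≤ (hm E).real {g | |⟪(e : E), av g (o : E)⟫| ≤ 1 / 2} := by
    have hS : MeasurableSet {g : UG E | |⟪(e : E), av g (o : E)⟫| ≤ 1 / 2} :=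
      measurableSet_le (measurable_const.inner (av_meas _)).abs measurable_const
    have h1 := probReal_compl_eq_one_sub (μ := hm E) hS
    have h2 := ht_cheb hn e o (κ := 1 / 2) (by norm_num)
    have e5 : 1 / ((m + 2 : ℝ) * (1 / 2) ^ 2) = 4 / (m + 2 : ℝ) := by
      field_simp; norm_num
    rw [e5] at h2
    have h3 : (hm E).real {g : UG E | |⟪(e : E), av g (o : E)⟫| ≤ 1 / 2}ᶜ
        ≤ (hm E).real {g | 1 / 2 ≤ |⟪(e : E), (sa g o : E)⟫|} := by
      refine measureReal_mono ?_ (measure_ne_top _ _)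
      intro g hg
      have hg' : 1 / 2 < |⟪(e : E), av g (o : E)⟫| := not_le.1 hg
      exact hg'.le
    linarith
  have h := frame_le hen hon heo hBm (p1 := 3 / κ2 ^ 2) ?_ hhalf
  · have e6 : 2 * (3 / κ2 ^ 2) = 6 / κ2 ^ 2 := by ring
    rw [e6] at h
    exact h
  · intro y hy
    by_cases hyd : infDist y ((fun x : SS E => (x : E)) '' K) < d
    · obtain ⟨x, hxK, hx⟩ := huK y hyd
      have hx' : (x : E) = y + u y := hx
      have h1 : ζ ≤ mA θ A (o : E) (x : E) := by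
        rw [mA_indep (hon.trans hfn.symm)]
        exact hKT hxK
      have hys : y ∈ SS E := by rwa [mem_sphere_zero_iff_norm]
      have h2 := loc hn x ⟨y, hys⟩ o (κ1 := κ1) (κ2 := κ2) (q := q) (ζ := ζ) (θ := θ)
        (R2 := r2 / q) hA hκ1 hκ2 hq hq2 hs1 hs2 hζ h1
        (by rw [div_lt_div_iff_of_pos_right hq]; exact hr2)
      refine le_trans (measureReal_mono ?_ (measure_ne_top _ _)) h2
      rintro g ⟨hg1, hg2⟩
      refine ⟨hg1, ?_⟩
      rw [hx']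
      exact hg2.2
    · have : {g' : UG E | |⟪y, av g' (o : E)⟫| ≤ 1 / 2 ∧ (y, pj y (av g' (o : E))) ∈
          {p : E × E | infDist p.1 ((fun x : SS E => (x : E)) '' K) < d ∧
          r2 / q ≤ infDist p.2 (Om θ A (p.1 + u p.1))}} = ∅ := by
        ext g
        simp only [mem_ofPred_eq, mem_empty_iff_false, iff_false, not_and]
        intro _ h3
        exact absurd h3 hyd
      rw [this, measureReal_empty]
      positivity

end Pool.Agent.helper440_simplex
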