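import Pool.Agent.helper440_simplex.StepC

/-! # Choosing the configuration -/

set_option autoImplicit false
set_option linter.unusedSectionVars false

namespace Pool.Agent.helper440_simplex

open MeasureTheory Metric Set Filter Topology
open scoped RealInnerProductSpace

variable {E : Type*} [NormedAddCommGroup E] [InnerProductSpace ℝ E] [CompleteSpace E]
  [FiniteDimensional ℝ E] [MeasurableSpace E] [BorelSpace E]

omit [MeasurableSpace E] [BorelSpace E] in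
theorem pigeon {ι : Type*} [Fintype ι] [Nonempty ι] (N : Set (UG E)) (c : UG E → ι) :
    ∃ κ, (hm E).real N / Fintype.card ι ≤ (hm E).real (N ∩ {g | c g = κ}) := by
  by_contra hcon
  push Not at hcon
  have h1 : (hm E).real N ≤ ∑ κ, (hm E).real (N ∩ {g | c g = κ}) := by
    refine le_trans (measureReal_mono ?_ (measure_ne_top _ _)) (measureReal_iUnion_fintype_le _)
    intro g hg
    exact mem_iUnion.2 ⟨c g, hg, rfl⟩
  have h2 : ∑ κ, (hm E).real (N ∩ {g | c g = κ}) < ∑ _κ : ι, (hm E).real N / Fintype.card ι :=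
    Finset.sum_lt_sum_of_nonempty Finset.univ_nonempty fun κ _ => hcon κ
  have h3 : (0 : ℝ) < Fintype.card ι := by exact_mod_cast Fintype.card_pos
  rw [Finset.sum_const, Finset.card_univ, nsmul_eq_mul, mul_div_cancel₀ _ h3.ne'] at h2
  linarith

/-- algebra of the final estimate -/
theorem final_alg {t : ℕ} (ht : 2 ≤ t) {θ q X C G W avg τ Kx K3 d c1 b lam : ℝ} (hθ0 : 0 < θ)
    (hθ1 : θ ≤ 1) (hq : 0 < q) (hX : |q ^ 2 * (X + 1 / (t - 1 : ℝ))| ≤ Kx)
    (hXC : q ^ 2 * (X + 1 / (t - 1 : ℝ)) ≤ C + τ) (hG : G = -1 / (t - 1 : ℝ) + lam * W)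
    (hW : W = avg - C + 2 * τ) (hlam : lam = 1 / (q ^ 2 * Real.sin θ ^ 2))
    (havg : avg ≤ q ^ 2 * (t * d ^ 2 / (t - 1 : ℝ)))
    (hpar : 3 * τ + θ * (Kx + K3) ≤ b ^ 2 / 8) (hb : 0 < b) (hd : d = c1 - b / (8 * q))
    (hc1 : b / q ≤ c1) :
    Real.cos θ ^ 2 * X + Real.sin θ ^ 2 * G + θ * (K3 / q ^ 2)
      ≤ -1 / (t - 1 : ℝ) + t * c1 ^ 2 / (t - 1 : ℝ) := by
  have ht2 : (2 : ℝ) ≤ t := by exact_mod_cast ht
  have ht1 : (1 : ℝ) ≤ t - 1 := by linarith
  have ht0 : (0 : ℝ) < t - 1 := by linarith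
  have hs0 : 0 < Real.sin θ := Real.sin_pos_of_pos_of_lt_pi hθ0 (by
    have := Real.pi_gt_three; linarith)
  have hs1 : Real.sin θ ≤ θ := Real.sin_le hθ0.le
  have hs2 : Real.sin θ ^ 2 ≤ θ := by nlinarith
  have hcs := Real.sin_sq_add_cos_sq θ
  have hq2 : 0 < q ^ 2 := by positivity
  set S := Real.sin θ ^ 2 with hS
  have hS0 : 0 < S := by positivity
  have hcS : Real.cos θ ^ 2 = 1 - S := by linarith
  set r := 1 / (t - 1 : ℝ) with hr
  have hrn : -1 / (t - 1 : ℝ) = -r := by rw [hr]; ring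
  set ξ := q ^ 2 * (X + r) with hξ
  have hXξ : X = ξ / q ^ 2 - r := by rw [hξ]; field_simp; ring
  have hSlam : S * (lam * W) = W / q ^ 2 := by
    rw [hlam]; field_simp
  have e1 : Real.cos θ ^ 2 * X + S * G + θ * (K3 / q ^ 2)
      = -r + ((1 - S) * ξ + W + θ * K3) / q ^ 2 := by
    rw [hcS, hG, hrn, mul_add, hSlam, hXξ]
    field_simp
    ring
  rw [e1, hrn]
  have h1 : (1 - S) * ξ ≤ C + τ + θ * Kx := by
    have h2 : -(S * ξ) ≤ θ * Kx := by
      have h3 : |S * ξ| ≤ θ * Kx := by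
        rw [abs_mul, abs_of_pos hS0]
        exact mul_le_mul hs2 hX (abs_nonneg _) hθ0.le
      linarith [(abs_le.1 h3).1]
    linarith
  have h4 : (1 - S) * ξ + W + θ * K3 ≤ q ^ 2 * (t * d ^ 2 / (t - 1 : ℝ)) + b ^ 2 / 8 := by
    rw [hW]; linarith
  have h5 : b ^ 2 / 8 ≤ q ^ 2 * (t * (c1 ^ 2 - d ^ 2) / (t - 1 : ℝ)) := by
    have h6 : b ^ 2 / 8 ≤ q ^ 2 * (c1 ^ 2 - d ^ 2) := by
      have e2 : c1 ^ 2 - d ^ 2 = (b / (8 * q)) * (c1 + d) := by rw [hd]; ring
      have hb8 : b / (8 * q) ≤ b / q := by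
        rw [div_le_div_iff₀ (by positivity) hq]; nlinarith
      have h7 : b / q ≤ c1 + d := by
        rw [hd]; linarith
      have h8 : (b / (8 * q)) * (b / q) ≤ (b / (8 * q)) * (c1 + d) :=
        mul_le_mul_of_nonneg_left h7 (by positivity)
      have e3 : q ^ 2 * ((b / (8 * q)) * (b / q)) = b ^ 2 / 8 := by field_simp
      rw [e2, ← e3]
      exact mul_le_mul_of_nonneg_left h8 hq2.le
    have h9 : (1 : ℝ) ≤ t / (t - 1) := by rw [le_div_iff₀ ht0]; linarith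
    have h10 : 0 ≤ q ^ 2 * (c1 ^ 2 - d ^ 2) := le_trans (by positivity) h6
    have e4 : q ^ 2 * (t * (c1 ^ 2 - d ^ 2) / (t - 1 : ℝ))
        = (q ^ 2 * (c1 ^ 2 - d ^ 2)) * (t / (t - 1)) := by ring
    rw [e4]
    exact h6.trans (le_mul_of_one_le_right h10 h9)
  have h6 : ((1 - S) * ξ + W + θ * K3) / q ^ 2 ≤ t * c1 ^ 2 / (t - 1 : ℝ) := by
    rw [div_le_iff₀ hq2]
    have e5 : t * c1 ^ 2 / (t - 1 : ℝ) * q ^ 2 = q ^ 2 * (t * d ^ 2 / (t - 1 : ℝ))
        + q ^ 2 * (t * (c1 ^ 2 - d ^ 2) / (t - 1 : ℝ)) := by ring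
    rw [e5]
    linarith
  linarith

omit [CompleteSpace E] [FiniteDimensional ℝ E] [MeasurableSpace E] [BorelSpace E]
  [InnerProductSpace ℝ E] in
theorem infDist_coe (K : Set (SS E)) (x : SS E) :
    infDist (x : E) ((fun x : SS E => (x : E)) '' K) = infDist x K :=
  infDist_image isometry_subtype_coe

omit [CompleteSpace E] [FiniteDimensional ℝ E] [MeasurableSpace E] [BorelSpace E]
  [InnerProductSpace ℝ E] in
theorem norm_one_of_sq {x : E} (h : ‖x‖ ^ 2 = 1) : ‖x‖ = 1 := by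
  nlinarith [norm_nonneg x]

/-- the configuration exists -/
theorem stepD {m t : ℕ} (hn : Module.finrank ℝ E = m + 2) (ht : 2 ≤ t) (hmt : 2 * t ≤ m + 2)
    (hm2 : 2 ≤ m) {q b H c1 θ ζ κ1 κ2 K1 K4 r2 τ p0 : ℝ} {L : ℕ} (hq : 0 < q)
    (hq2 : q ^ 2 = m + 2) (hθ0 : 0 < θ) (hθ1 : θ ≤ 1) (hb : 0 < b) (hc1 : b / q ≤ c1)
    (hcH : c1 ≤ H / q) (hζ0 : 0 < ζ)
    (hκ1 : 0 < κ1) (hκ2 : 0 < κ2) (hs1 : κ1 / q ≤ 1 / 2) (hs2 : κ2 / q ≤ 1 / 2)
    (hζ : 1 / κ1 ^ 2 < ζ) (hr2 : 7 * κ2 + 4 * κ1 < r2) (hm8 : 4 / (m + 2 : ℝ) ≤ 1 / 2)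
    (hK1 : 0 < K1) (hK4 : 0 < K4) (hp0 : 0 < p0) (hτ : 0 < τ)
    (hP2 : (t ^ 2 : ℝ) * (2 * H ^ 2 / K4 ^ 2) ≤ p0 / 2)
    (hL : (2 * (2 * K4 + 2 * H ^ 2)) / τ < L)
    (hP4 : (t ^ 2 : ℝ) * (2 * H ^ 2 / K1 ^ 2) + (t ^ 2 : ℝ) * (2 * r2 ^ 2 / K1 ^ 2)
      + (t ^ 2 : ℝ) * (2 * r2 ^ 2 / K1 ^ 2) + t * (6 / κ2 ^ 2)
      < p0 / 2 / Fintype.card (Fin t → Fin t → Fin L))
    (hP5 : 1 / (q ^ 2 * Real.sin θ ^ 2) * (t ^ 3 * (2 * (2 * K4 + 2 * H ^ 2) + 2 * τ) ^ 2
      / (t * (t - 1) * (2 * τ)) + t * (2 * (2 * K4 + 2 * H ^ 2) + 2 * τ)) ≤ 1)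
    (hP6 : 3 * τ + θ * ((2 * K4 + 2 * H ^ 2) + (2 * r2 ^ 2 + 8 * K1 + 4 * H * r2)) ≤ b ^ 2 / 8)
    {A : Set E} (hA : MeasurableSet A) (f : SS E) {K : Set (SS E)}
    (hKT : K ⊆ {x : SS E | ζ ≤ mA θ A f x}) (hKne : K.Nonempty) (s : Fin t → SS E)
    (hs : ∀ i l, i ≠ l → ⟪(s i : E), s l⟫ = -1 / (t - 1 : ℝ))
    (hN : p0 ≤ (hm E).real {g | ∀ i, infDist (sa g (s i)) K < c1 - b / (8 * q)}) :
    ∃ x : Fin t → E, (∀ i, x i ∈ A) ∧ (∀ i, ‖x i‖ = 1) ∧
      ∀ i j, i ≠ j → ⟪x i, x j⟫ ≤ -1 / (t - 1 : ℝ) + t * c1 ^ 2 / (t - 1 : ℝ) := by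
  have ht2 : (2 : ℝ) ≤ t := by exact_mod_cast ht
  have ht1 : (1 : ℝ) ≤ t - 1 := by linarith
  have ht0 : (0 : ℝ) < t - 1 := by linarith
  have htp : (0 : ℝ) < t := by linarith
  have hbq : 0 < b / q := by positivity
  have hb8 : b / (8 * q) ≤ b / q := by
    rw [div_le_div_iff₀ (by positivity) hq]; nlinarith
  have hb80 : 0 < b / (8 * q) := by positivity
  set d := c1 - b / (8 * q) with hd
  have hd0 : 0 ≤ d := by rw [hd]; linarith
  have hdH : d ≤ H / q := by rw [hd]; linarith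
  have hH : 0 < H := by
    have : 0 < H / q := by linarith
    exact (div_pos_iff_of_pos_right hq).1 this
  have hr20 : 0 < r2 := by linarith
  set Kx := 2 * K4 + 2 * H ^ 2 with hKx
  have hKx0 : 0 < Kx := by positivity
  set K' : Set E := (fun x : SS E => (x : E)) '' K with hK'
  have hK'ne : K'.Nonempty := hKne.image _
  have hOm : ∀ x ∈ K', (Om θ A x).Nonempty := by
    rintro _ ⟨x, hx, rfl⟩
    exact Om_nonempty hζ0 (hKT hx)
  obtain ⟨u, D, hum, hDm, hub, hDb, huK, hDO, hBm⟩ :=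
    exists_maps K' hK'ne (Om θ A) hOm (d := d) (R := r2 / q) hd0 (by positivity)
  have hsn : ∀ i, ‖(s i : E)‖ = 1 := fun i => norm_eq_of_mem_sphere (s i)
  set y : UG E → Fin t → E := fun g i => av g (s i : E) with hy
  set U : UG E → Fin t → E := fun g i => u (av g (s i : E)) with hU
  have hyn : ∀ g i, ‖y g i‖ = 1 := fun g i => by simp only [hy]; rw [av_norm, hsn]
  have hyy : ∀ g i j, i ≠ j → ⟪y g i, y g j⟫ = -1 / (t - 1 : ℝ) := fun g i j hij => by
    simp only [hy]; rw [av_inner, hs i j hij]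
  have hUb : ∀ g i, ‖U g i‖ ≤ d := fun g i => hub _
  have hubq : ∀ y z : E, ‖(fun y _ => u y) y z‖ ≤ H / q := fun y _ => (hub y).trans hdH
  have humm : Measurable (Function.uncurry (fun (y _ : E) => u y)) := hum.comp measurable_fst
  -- the good event
  set N : Set (UG E) := {g | ∀ i, infDist (sa g (s i)) K < d} with hNdef
  have hNd : ∀ g ∈ N, ∀ i, infDist (y g i) K' < d := by
    intro g hg i
    have h1 := infDist_coe K (sa g (s i))
    rw [sa_coe] at h1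
    have h2 : infDist (sa g (s i)) K < d := hg i
    rw [← h1] at h2
    exact h2
  have hxK : ∀ g ∈ N, ∀ i, y g i + U g i ∈ K' := fun g hg i => huK _ (hNd g hg i)
  have hxn : ∀ g ∈ N, ∀ i, ‖y g i + U g i‖ = 1 := by
    intro g hg i
    obtain ⟨z, hz, hz2⟩ := hxK g hg i
    rw [← hz2]
    exact norm_eq_of_mem_sphere z
  -- first family of events
  set B4 : Fin t × Fin t → Set (UG E) := fun p => {g | p.1 ≠ p.2 ∧ K4 / q ^ 2 ≤
    |⟪U g p.1, y g p.2 + (1 / (t - 1 : ℝ)) • y g p.1⟫|} with hB4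
  have hB4P : ∀ p, (hm E).real (B4 p) ≤ 2 * H ^ 2 / K4 ^ 2 := by
    rintro ⟨i, j⟩
    by_cases hij : i = j
    · have : B4 (i, j) = ∅ := by
        ext g
        simp [hB4, hij]
      rw [this, measureReal_empty]
      positivity
    · have h1 := simplex_p ht (hsn j) (hsn i) (hs j i (Ne.symm hij))
      refine le_trans (measureReal_mono ?_ (measure_ne_top _ _))
        (ev_small hn hm2 hq hq2 humm hubq (s i : E) (s i : E)
          ((s j : E) + (1 / (t - 1 : ℝ)) • (s i : E)) h1.1 h1.2 h1.2 hK4)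
      rintro g ⟨_, hg⟩
      show K4 / q ^ 2 ≤ _
      rw [av_add, av_smul]
      exact hg
  have hB4U := union_le B4 hB4P
  set N' := N \ ⋃ p, B4 p with hN'
  have hN'P : p0 / 2 ≤ (hm E).real N' := by
    have h1 : (hm E).real N ≤ (hm E).real N' + (hm E).real (⋃ p, B4 p) := by
      refine le_trans (measureReal_mono ?_ (measure_ne_top _ _)) (measureReal_union_le _ _)
      rw [hN', sdiff_union_self]
      exact subset_union_left
    have h2 : (Fintype.card (Fin t × Fin t) : ℝ) * (2 * H ^ 2 / K4 ^ 2)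
        = (t ^ 2 : ℝ) * (2 * H ^ 2 / K4 ^ 2) := by
      rw [Fintype.card_prod, Fintype.card_fin]; push_cast; ring
    rw [h2] at hB4U
    linarith
  set ξ : UG E → Fin t → Fin t → ℝ := fun g i j =>
    q ^ 2 * (⟪y g i + U g i, y g j + U g j⟫ + 1 / (t - 1 : ℝ)) with hξ
  have hξsym : ∀ g i j, ξ g i j = ξ g j i := fun g i j => by
    simp only [hξ]; rw [real_inner_comm]
  have hξb : ∀ g ∈ N', ∀ i j, i ≠ j → |ξ g i j| ≤ Kx := by
    intro g hg i j hij
    have hT4 : ∀ i j, i ≠ j → |⟪U g i, y g j + (1 / (t - 1 : ℝ)) • y g i⟫| ≤ K4 / q ^ 2 := by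
      intro i j hij
      by_contra hcon
      push Not at hcon
      exact hg.2 (mem_iUnion.2 ⟨(i, j), hij, hcon.le⟩)
    have h1 := det_xi ht (y g) (U g) (hyn g) (hyy g) (hxn g hg.1) (hUb g) hT4 hij
    simp only [hξ]
    rw [abs_mul, abs_of_pos (by positivity)]
    have h2 : q ^ 2 * (2 * (K4 / q ^ 2) + 2 * d ^ 2) ≤ Kx := by
      have h3 : d ^ 2 ≤ (H / q) ^ 2 := pow_le_pow_left₀ hd0 hdH 2
      have h4 : q ^ 2 * (2 * (K4 / q ^ 2) + 2 * (H / q) ^ 2) = Kx := by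
        rw [hKx]; field_simp
      rw [← h4]
      exact mul_le_mul_of_nonneg_left (by linarith) (by positivity)
    exact (mul_le_mul_of_nonneg_left h1 (by positivity)).trans h2
  -- cells
  have hL0 : 0 < L := by
    have h1 : 0 < (2 * Kx) / τ := by positivity
    have h2 : (0 : ℝ) < L := h1.trans hL
    exact_mod_cast h2
  set cell : UG E → Fin t → Fin t → Fin L := fun g i j =>
    ⟨min ⌊(ξ g i j + Kx) / τ⌋₊ (L - 1), by omega⟩ with hcell
  have hne : Nonempty (Fin t → Fin t → Fin L) := ⟨fun _ _ => ⟨0, hL0⟩⟩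
  obtain ⟨κ, hκP⟩ := pigeon N' cell
  set EC := N' ∩ {g | cell g = κ} with hEC
  have hcardpos : (0 : ℝ) < Fintype.card (Fin t → Fin t → Fin L) := by
    exact_mod_cast Fintype.card_pos
  have hECP : p0 / 2 / Fintype.card (Fin t → Fin t → Fin L) ≤ (hm E).real EC := by
    refine le_trans ?_ hκP
    exact div_le_div_of_nonneg_right hN'P hcardpos.le
  -- cell values
  set C : Fin t → Fin t → ℝ := fun i j => -Kx + τ * ((κ i j : ℕ) : ℝ) with hC
  have hCξ : ∀ g ∈ EC, ∀ i j, i ≠ j → C i j ≤ ξ g i j ∧ ξ g i j ≤ C i j + τ := by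
    intro g hg i j hij
    have h1 := hξb g hg.1 i j hij
    have h2 := abs_le.1 h1
    have h3 : 0 ≤ (ξ g i j + Kx) / τ := div_nonneg (by linarith) hτ.le
    have h4 : ⌊(ξ g i j + Kx) / τ⌋₊ < L := by
      have h5 : (ξ g i j + Kx) / τ < L := by
        refine lt_of_le_of_lt ?_ hL
        rw [div_le_div_iff_of_pos_right hτ]
        linarith
      exact (Nat.floor_lt h3).2 h5
    have h5 : ((κ i j : ℕ)) = ⌊(ξ g i j + Kx) / τ⌋₊ := by
      have h6 : cell g = κ := hg.2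
      rw [← h6]
      simp only [hcell]
      omega
    have h6 := Nat.floor_le h3
    have h7 := Nat.lt_floor_add_one ((ξ g i j + Kx) / τ)
    rw [← h5, le_div_iff₀ hτ] at h6
    rw [← h5, div_lt_iff₀ hτ] at h7
    simp only [hC]
    constructor <;> nlinarith
  have hECne : EC.Nonempty := by
    by_contra hcon
    rw [not_nonempty_iff_eq_empty] at hcon
    rw [hcon, measureReal_empty] at hECP
    have : 0 < p0 / 2 / Fintype.card (Fin t → Fin t → Fin L) := by positivity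
    linarith
  obtain ⟨g0, hg0⟩ := hECne
  have hCsym : ∀ i j, i ≠ j → C i j = C j i := by
    intro i j hij
    have h6 : cell g0 = κ := hg0.2
    have h7 : κ i j = κ j i := by
      rw [← h6]
      apply Fin.ext
      simp only [hcell]
      rw [hξsym g0 i j]
    simp only [hC]
    rw [h7]
  have hCb : ∀ i j, i ≠ j → |C i j| ≤ Kx := by
    intro i j hij
    have h1 := (hCξ g0 hg0 i j hij).1
    have h2 := abs_le.1 (hξb g0 hg0.1 i j hij)
    rw [abs_le]
    refine ⟨?_, by linarith⟩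
    simp only [hC]
    have : 0 ≤ τ * ((κ i j : ℕ) : ℝ) := by positivity
    linarith
  have hT : (0 : ℝ) < t * (t - 1) := by positivity
  have hcard : ∀ i : Fin t, ((Finset.univ.erase i).card : ℝ) = t - 1 := by
    intro i
    rw [Finset.card_erase_of_mem (Finset.mem_univ i), Finset.card_univ, Fintype.card_fin,
      Nat.cast_sub (by omega : 1 ≤ t)]
    simp
  set avg := (∑ i, ∑ j ∈ Finset.univ.erase i, C i j) / (t * (t - 1)) with havgdef
  have hconst : ∀ c : ℝ, ∑ i : Fin t, ∑ j ∈ Finset.univ.erase i, c = t * (t - 1) * c := by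
    intro c
    simp only [Finset.sum_const, nsmul_eq_mul, hcard, Finset.card_univ, Fintype.card_fin]
    ring
  have havgb : |avg| ≤ Kx := by
    rw [havgdef, abs_div, abs_of_pos hT, div_le_iff₀ hT]
    calc |∑ i, ∑ j ∈ Finset.univ.erase i, C i j|
        ≤ ∑ i, |∑ j ∈ Finset.univ.erase i, C i j| := Finset.abs_sum_le_sum_abs _ _
      _ ≤ ∑ i, ∑ j ∈ Finset.univ.erase i, |C i j| :=
          Finset.sum_le_sum fun i _ => Finset.abs_sum_le_sum_abs _ _
      _ ≤ ∑ i : Fin t, ∑ j ∈ Finset.univ.erase i, Kx :=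
          Finset.sum_le_sum fun i _ => Finset.sum_le_sum fun j hj =>
            hCb i j (Finset.ne_of_mem_erase hj).symm
      _ = Kx * (t * (t - 1)) := by rw [hconst]; ring
  set W : Fin t → Fin t → ℝ := fun i j => if i = j then 0 else avg - C i j + 2 * τ with hW
  have hWsym : ∀ i j, W i j = W j i := by
    intro i j
    simp only [hW]
    by_cases h : i = j
    · simp [h]
    · rw [if_neg h, if_neg (Ne.symm h), hCsym i j h]
  have hWd : ∀ i, W i i = 0 := fun i => by simp [hW]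
  have hWb : ∀ i j, |W i j| ≤ 2 * Kx + 2 * τ := by
    intro i j
    simp only [hW]
    by_cases h : i = j
    · rw [if_pos h, abs_zero]; positivity
    · rw [if_neg h]
      have h1 := abs_le.1 havgb
      have h2 := abs_le.1 (hCb i j h)
      rw [abs_le]
      constructor <;> linarith [h1.1, h1.2, h2.1, h2.2]
  have hWsum : ∑ i, ∑ j, W i j = t * (t - 1) * (2 * τ) := by
    have h1 : ∀ i, ∑ j, W i j = ∑ j ∈ Finset.univ.erase i, (avg - C i j + 2 * τ) := by
      intro i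
      rw [← Finset.add_sum_erase _ _ (Finset.mem_univ i), hWd i, zero_add]
      refine Finset.sum_congr rfl fun j hj => ?_
      simp only [hW]
      rw [if_neg (Finset.ne_of_mem_erase hj).symm]
    simp only [h1, Finset.sum_add_distrib, Finset.sum_sub_distrib, hconst]
    have h2 : ∑ i, ∑ j ∈ Finset.univ.erase i, C i j = t * (t - 1) * avg := by
      rw [havgdef]; field_simp
    rw [h2]
    ring
  have hs0 : 0 < Real.sin θ := Real.sin_pos_of_pos_of_lt_pi hθ0 (by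
    have := Real.pi_gt_three; linarith)
  set lam := 1 / (q ^ 2 * Real.sin θ ^ 2) with hlam
  have hpsd := GG_psd ht hWsym hWd hWb (w := t * (t - 1) * (2 * τ)) (lam := lam)
    (by positivity) hWsum (by positivity) hP5
  obtain ⟨o, hoG, hso⟩ := frame_of_gram (by omega) (fun i => (s i : E)) hpsd
  have hon : ∀ i, ‖o i‖ = 1 := by
    intro i
    apply norm_one_of_sq
    rw [← real_inner_self_eq_norm_sq, hoG]
    simp [GG]
  have hoo : ∀ i j, i ≠ j → ⟪o i, o j⟫ = -1 / (t - 1 : ℝ) + lam * W i j := by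
    intro i j hij
    rw [hoG]
    simp only [GG]
    rw [if_neg hij]
  have hsoi : ∀ i j, ⟪(s i : E), o j⟫ = 0 := fun i j => hso i j
  -- bad events
  set w : UG E → Fin t → E := fun g i => av g (o i) with hw
  set V : UG E → Fin t → E := fun g i => D (av g (s i : E)) (av g (o i)) with hV
  set B1 : Fin t × Fin t → Set (UG E) := fun p => {g | K1 / q ^ 2 ≤ |⟪U g p.1, w g p.2⟫|}
    with hB1
  set B2 : Fin t × Fin t → Set (UG E) := fun p => {g | p.1 ≠ p.2 ∧ K1 / q ^ 2 ≤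
    |⟪V g p.2, y g p.1 + (1 / (t - 1 : ℝ)) • y g p.2⟫|} with hB2
  set B3 : Fin t × Fin t → Set (UG E) := fun p => {g | K1 / q ^ 2 ≤
    |⟪V g p.2, w g p.1 - ⟪w g p.1, w g p.2⟫ • w g p.2⟫|} with hB3
  set B5 : Fin t → Set (UG E) := fun i => {g | infDist (av g (s i : E)) K' < d ∧
    r2 / q ≤ infDist (av g (o i)) (Om θ A (av g (s i : E) + u (av g (s i : E))))} with hB5
  have hB1P : ∀ p, (hm E).real (B1 p) ≤ 2 * H ^ 2 / K1 ^ 2 := by
    rintro ⟨i, j⟩
    refine le_trans (measureReal_mono ?_ (measure_ne_top _ _))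
      (ev_small hn hm2 hq hq2 humm hubq (s i : E) (s i : E) (o j) (hon j).le (hsoi i j)
        (hsoi i j) hK1)
    intro g hg
    have hg' : K1 / q ^ 2 ≤ |⟪U g i, w g j⟫| := hg
    show K1 / q ^ 2 ≤ _
    exact hg'
  have hB2P : ∀ p, (hm E).real (B2 p) ≤ 2 * r2 ^ 2 / K1 ^ 2 := by
    rintro ⟨i, j⟩
    by_cases hij : i = j
    · have : B2 (i, j) = ∅ := by
        ext g
        simp [hB2, hij]
      rw [this, measureReal_empty]
      positivity
    · have h1 := simplex_p ht (hsn i) (hsn j) (hs i j hij)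
      refine le_trans (measureReal_mono ?_ (measure_ne_top _ _))
        (ev_small hn hm2 hq hq2 hDm hDb (s j : E) (o j)
          ((s i : E) + (1 / (t - 1 : ℝ)) • (s j : E)) h1.1 h1.2 ?_ hK1)
      · rintro g ⟨_, hg⟩
        show K1 / q ^ 2 ≤ _
        rw [av_add, av_smul]
        exact hg
      · rw [inner_add_right, real_inner_smul_right, real_inner_comm (s i : E) (o j), hsoi,
          real_inner_comm (s j : E) (o j), hsoi]
        ring
  have hB3P : ∀ p, (hm E).real (B3 p) ≤ 2 * r2 ^ 2 / K1 ^ 2 := by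
    rintro ⟨i, j⟩
    have h1 := frame_p (hon i) (hon j)
    refine le_trans (measureReal_mono ?_ (measure_ne_top _ _))
      (ev_small hn hm2 hq hq2 hDm hDb (s j : E) (o j)
        (o i - ⟪o i, o j⟫ • o j) h1.1 ?_ h1.2 hK1)
    · intro g hg
      have hg' : K1 / q ^ 2 ≤ |⟪V g j, w g i - ⟪w g i, w g j⟫ • w g j⟫| := hg
      show K1 / q ^ 2 ≤ _
      rw [av_sub, av_smul]
      simp only [hw, av_inner] at hg'
      exact hg'
    · rw [inner_sub_right, real_inner_smul_right, hsoi, hsoi]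
      ring
  have hB5P : ∀ i, (hm E).real (B5 i) ≤ 6 / κ2 ^ 2 := by
    intro i
    have hos : o i ∈ SS E := by rw [mem_sphere_zero_iff_norm]; exact hon i
    exact sel_rare hn hA hκ1 hκ2 hq hq2 hs1 hs2 hζ hr2 hm8 f (s i) ⟨o i, hos⟩ (hsoi i i) hKT
      huK hBm
  have hU1 := union_le B1 hB1P
  have hU2 := union_le B2 hB2P
  have hU3 := union_le B3 hB3P
  have hU5 := union_le B5 hB5P
  have hcc : (Fintype.card (Fin t × Fin t) : ℝ) = t ^ 2 := by
    rw [Fintype.card_prod, Fintype.card_fin]; push_cast; ring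
  rw [hcc] at hU1 hU2 hU3
  rw [Fintype.card_fin] at hU5
  obtain ⟨g, hgE, hgB⟩ : ∃ g ∈ EC, g ∉ ((⋃ p, B1 p) ∪ (⋃ p, B2 p)) ∪ (⋃ p, B3 p) ∪ (⋃ i, B5 i) := by
    by_contra hcon
    push Not at hcon
    have h1 : (hm E).real EC
        ≤ (hm E).real (((⋃ p, B1 p) ∪ (⋃ p, B2 p)) ∪ (⋃ p, B3 p) ∪ (⋃ i, B5 i)) :=
      measureReal_mono (fun g hg => hcon g hg) (measure_ne_top _ _)
    have h2 := measureReal_union_le (μ := hm E)
      (((⋃ p, B1 p) ∪ (⋃ p, B2 p)) ∪ (⋃ p, B3 p)) (⋃ i, B5 i)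
    have h3 := measureReal_union_le (μ := hm E) ((⋃ p, B1 p) ∪ (⋃ p, B2 p)) (⋃ p, B3 p)
    have h4 := measureReal_union_le (μ := hm E) (⋃ p, B1 p) (⋃ p, B2 p)
    linarith
  simp only [mem_union, mem_iUnion, not_or, not_exists] at hgB
  obtain ⟨⟨⟨hg1, hg2⟩, hg3⟩, hg5⟩ := hgB
  have hgN : g ∈ N := hgE.1.1
  have hT1 : ∀ i j, |⟪U g i, w g j⟫| ≤ K1 / q ^ 2 := by
    intro i j
    by_contra hcon
    push Not at hcon
    exact hg1 (i, j) hcon.le
  have hT2 : ∀ i j, i ≠ j → |⟪V g j, y g i + (1 / (t - 1 : ℝ)) • y g j⟫| ≤ K1 / q ^ 2 := by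
    intro i j hij
    by_contra hcon
    push Not at hcon
    exact hg2 (i, j) ⟨hij, hcon.le⟩
  have hT3 : ∀ i j, i ≠ j → |⟪V g j, w g i - ⟪w g i, w g j⟫ • w g j⟫| ≤ K1 / q ^ 2 := by
    intro i j _
    by_contra hcon
    push Not at hcon
    exact hg3 (i, j) hcon.le
  have hOmV : ∀ i, w g i + V g i ∈ Om θ A (y g i + U g i) := by
    intro i
    refine hDO _ _ (hNd g hgN i) ?_
    by_contra hcon
    push Not at hcon
    exact hg5 i ⟨hNd g hgN i, hcon⟩
  have hwn : ∀ i, ‖w g i‖ = 1 := fun i => by simp only [hw]; rw [av_norm, hon]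
  have hyw : ∀ i j, ⟪y g i, w g j⟫ = 0 := fun i j => by
    simp only [hw, hy]; rw [av_inner, hsoi]
  refine ⟨fun i => Real.cos θ • (y g i + U g i) + Real.sin θ • (w g i + V g i),
    fun i => (hOmV i).2.2, fun i => ?_, fun i j hij => ?_⟩
  · have h1 := (hOmV i).1
    have h2 := (hOmV i).2.1
    have h3 := hxn g hgN i
    apply norm_one_of_sq
    rw [norm_add_sq_real, norm_smul, norm_smul, inner_smul_left, inner_smul_right, h2, h1, h3]
    simp only [mul_zero, add_zero, mul_one, Real.norm_eq_abs, sq_abs]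
    exact Real.cos_sq_add_sin_sq θ
  · have h1 := det_step ht hθ0.le hθ1 (y g) (w g) (U g) (V g) hwn hyw
      (fun i => (hOmV i).1) (fun i => (hOmV i).2.1) (hUb g) (fun i => hDb _ _) hT1 hT2 hT3 hij
    refine h1.trans ?_
    have h2 : 2 * (r2 / q) ^ 2 + 2 * (K1 / q ^ 2) + 2 * (3 * (K1 / q ^ 2) + 2 * d * (r2 / q))
        ≤ (2 * r2 ^ 2 + 8 * K1 + 4 * H * r2) / q ^ 2 := by
      have h3 : d * (r2 / q) ≤ (H / q) * (r2 / q) :=
        mul_le_mul_of_nonneg_right hdH (by positivity)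
      have h4 : (2 * r2 ^ 2 + 8 * K1 + 4 * H * r2) / q ^ 2 = 2 * (r2 / q) ^ 2 + 2 * (K1 / q ^ 2)
          + 2 * (3 * (K1 / q ^ 2) + 2 * ((H / q) * (r2 / q))) := by field_simp; ring
      rw [h4]
      linarith
    have h3 := mul_le_mul_of_nonneg_left h2 hθ0.le
    have hWij : W i j = avg - C i j + 2 * τ := by simp only [hW]; rw [if_neg hij]
    have hGij : ⟪w g i, w g j⟫ = -1 / (t - 1 : ℝ) + lam * W i j := by
      simp only [hw]; rw [av_inner, hoo i j hij]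
    have havg : avg ≤ q ^ 2 * (t * d ^ 2 / (t - 1 : ℝ)) := by
      have h5 := det_sum ht (y g) (U g) (hyn g) (hyy g) (hxn g hgN) (hUb g)
      have h6 : ∑ i, ∑ j ∈ Finset.univ.erase i, C i j
          ≤ ∑ i, ∑ j ∈ Finset.univ.erase i, ξ g i j :=
        Finset.sum_le_sum fun i _ => Finset.sum_le_sum fun j hj =>
          (hCξ g hgE i j (Finset.ne_of_mem_erase hj).symm).1
      have h7 : ∑ i, ∑ j ∈ Finset.univ.erase i, ξ g i j
          = q ^ 2 * ∑ i, ∑ j ∈ Finset.univ.erase i,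
            (⟪y g i + U g i, y g j + U g j⟫ + 1 / (t - 1 : ℝ)) := by
        simp only [hξ, ← Finset.mul_sum]
      rw [havgdef, div_le_iff₀ hT]
      have h8 : q ^ 2 * (t * d ^ 2 / (t - 1 : ℝ)) * (t * (t - 1)) = q ^ 2 * (t ^ 2 * d ^ 2) := by
        field_simp
      rw [h8]
      refine h6.trans ?_
      rw [h7]
      exact mul_le_mul_of_nonneg_left h5 (by positivity)
    have h4 := final_alg ht (X := ⟪y g i + U g i, y g j + U g j⟫) (C := C i j)
      (G := ⟪w g i, w g j⟫) (W := W i j) (avg := avg) (τ := τ) (Kx := Kx)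
      (K3 := 2 * r2 ^ 2 + 8 * K1 + 4 * H * r2) (d := d) (c1 := c1) (b := b) (lam := lam)
      hθ0 hθ1 hq (hξb g hgE.1 i j hij) (hCξ g hgE i j hij).2 hGij hWij hlam havg hP6 hb hd hc1
    refine le_trans ?_ h4
    linarith

end Pool.Agent.helper440_simplex
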