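import Pool.Agent.helper440_simplex.StepD
import Pool.Agent.helper440_simplex.Quant

/-! # Choice of the parameters -/

set_option autoImplicit false
set_option linter.unusedSectionVars false

namespace Pool.Agent.helper440_simplex

open MeasureTheory Metric Set Filter Topology
open scoped RealInnerProductSpace

theorem div_le_half {a q : ℝ} (ha : 0 ≤ a) (hq : 0 < q) (h : (2 * a) ^ 2 ≤ q ^ 2) :
    a / q ≤ 1 / 2 := by
  have h1 : 2 * a ≤ q := (pow_le_pow_iff_left₀ (by positivity) hq.le two_ne_zero).1 h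
  rw [div_le_div_iff₀ hq (by norm_num)]
  linarith

/-- the auxiliary parameters -/
theorem exists_aux (t : ℕ) (ht : 2 ≤ t) {η p0 b H : ℝ} (hη : 0 < η) (hη1 : η ≤ 1)
    (hp0 : 0 < p0) (hp1 : p0 ≤ 1) (hb : 0 < b) (hb1 : b ≤ 1) (hH : 0 < H) :
    ∃ (θ κ1 κ2 K1 K4 r2 τ : ℝ) (L : ℕ), 0 < θ ∧ θ ≤ 1 ∧ 0 < κ1 ∧ 0 < κ2 ∧
      1 / κ1 ^ 2 < η / 8 ∧ 7 * κ2 + 4 * κ1 < r2 ∧ 0 < K1 ∧ 0 < K4 ∧ 0 < τ ∧
      (t ^ 2 : ℝ) * (2 * H ^ 2 / K4 ^ 2) ≤ p0 / 2 ∧
      (2 * (2 * K4 + 2 * H ^ 2)) / τ < L ∧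
      (t ^ 2 : ℝ) * (2 * H ^ 2 / K1 ^ 2) + (t ^ 2 : ℝ) * (2 * r2 ^ 2 / K1 ^ 2)
        + (t ^ 2 : ℝ) * (2 * r2 ^ 2 / K1 ^ 2) + t * (6 / κ2 ^ 2)
        < p0 / 2 / Fintype.card (Fin t → Fin t → Fin L) ∧
      3 * τ + θ * ((2 * K4 + 2 * H ^ 2) + (2 * r2 ^ 2 + 8 * K1 + 4 * H * r2)) ≤ b ^ 2 / 8 := by
  have ht2 : (2 : ℝ) ≤ t := by exact_mod_cast ht
  have ht0 : (0 : ℝ) < t := by linarith
  set K4 := 2 * t * H / p0 with hK4
  have hK40 : 0 < K4 := by positivity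
  set τ := b ^ 2 / 48 with hτ
  have hτ0 : 0 < τ := by positivity
  obtain ⟨L, hL⟩ := exists_nat_gt ((2 * (2 * K4 + 2 * H ^ 2)) / τ)
  have hL0 : 0 < L := by
    have h1 : 0 < (2 * (2 * K4 + 2 * H ^ 2)) / τ := by positivity
    have h2 : (0 : ℝ) < L := h1.trans hL
    exact_mod_cast h2
  have hne : Nonempty (Fin t → Fin t → Fin L) := ⟨fun _ _ => ⟨0, hL0⟩⟩
  have hcard : (1 : ℝ) ≤ Fintype.card (Fin t → Fin t → Fin L) := by
    exact_mod_cast Fintype.card_pos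
  set P := p0 / 2 / Fintype.card (Fin t → Fin t → Fin L) with hP
  have hP0 : 0 < P := by positivity
  have hP1 : P ≤ 1 := by
    rw [hP, div_le_one (by linarith)]; linarith
  set κ2 := 24 * t / P with hκ2
  have hκ20 : 0 < κ2 := by positivity
  set κ1 := 4 / η with hκ1
  have hκ10 : 0 < κ1 := by positivity
  set r2 := 7 * κ2 + 4 * κ1 + 1 with hr2
  have hr20 : 0 < r2 := by positivity
  set K1 := 4 * t * (H + r2) / P with hK1
  have hK10 : 0 < K1 := by positivity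
  set Z := (2 * K4 + 2 * H ^ 2) + (2 * r2 ^ 2 + 8 * K1 + 4 * H * r2) with hZ
  have hZ0 : 0 < Z := by positivity
  refine ⟨b ^ 2 / (16 * Z + 1), κ1, κ2, K1, K4, r2, τ, L, by positivity, ?_, hκ10, hκ20, ?_,
    by rw [hr2]; linarith, hK10, hK40, hτ0, ?_, hL, ?_, ?_⟩
  · rw [div_le_one (by positivity)]
    nlinarith
  · have e : 1 / κ1 ^ 2 = η ^ 2 / 16 := by rw [hκ1]; field_simp; norm_num
    rw [e]
    nlinarith
  · have e : (t ^ 2 : ℝ) * (2 * H ^ 2 / K4 ^ 2) = p0 ^ 2 / 2 := by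
      rw [hK4]; field_simp
    rw [e]
    nlinarith
  · have hPP : P ^ 2 ≤ P := by nlinarith
    have h1 : (t ^ 2 : ℝ) * (2 * H ^ 2 / K1 ^ 2) ≤ P / 8 := by
      have e : (t ^ 2 : ℝ) * (2 * H ^ 2 / K1 ^ 2) = P ^ 2 / 8 * (H ^ 2 / (H + r2) ^ 2) := by
        rw [hK1]; field_simp; norm_num
      rw [e]
      have h2 : H ^ 2 / (H + r2) ^ 2 ≤ 1 := by
        rw [div_le_one (by positivity)]
        exact pow_le_pow_left₀ hH.le (by linarith) 2
      nlinarith [sq_nonneg P]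
    have h3 : (t ^ 2 : ℝ) * (2 * r2 ^ 2 / K1 ^ 2) ≤ P / 8 := by
      have e : (t ^ 2 : ℝ) * (2 * r2 ^ 2 / K1 ^ 2) = P ^ 2 / 8 * (r2 ^ 2 / (H + r2) ^ 2) := by
        rw [hK1]; field_simp; norm_num
      rw [e]
      have h2 : r2 ^ 2 / (H + r2) ^ 2 ≤ 1 := by
        rw [div_le_one (by positivity)]
        exact pow_le_pow_left₀ hr20.le (by linarith) 2
      nlinarith [sq_nonneg P]
    have h4 : (t : ℝ) * (6 / κ2 ^ 2) ≤ P / 4 := by
      have e : (t : ℝ) * (6 / κ2 ^ 2) = P ^ 2 / (96 * t) := by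
        rw [hκ2]; field_simp; norm_num
      rw [e, div_le_div_iff₀ (by positivity) (by norm_num)]
      nlinarith
    linarith
  · have h1 : b ^ 2 / (16 * Z + 1) * Z ≤ b ^ 2 / 16 := by
      rw [div_mul_eq_mul_div, div_le_div_iff₀ (by positivity) (by norm_num)]
      nlinarith [sq_nonneg b]
    rw [hτ]
    linarith

/-- the main step with all parameters chosen -/
theorem core2 (t : ℕ) (ht : 2 ≤ t) (η : ℝ) (hη : 0 < η) (hη1 : η ≤ 1) :
    ∃ m0 : ℕ, ∀ m : ℕ, m0 ≤ m → ∀ A : Set (EuclideanSpace ℝ (Fin (m + 2))), MeasurableSet A →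
      ∀ v v0 : SS (EuclideanSpace ℝ (Fin (m + 2))), ∀ c1 : ℝ,
      η / 40 / Real.sqrt (m + 2 : ℝ) ≤ c1 → c1 ≤ 2 / η / Real.sqrt (m + 2 : ℝ) →
      (hm (EuclideanSpace ℝ (Fin (m + 2)))).real
          {g | c1 ≤ ⟪(v : EuclideanSpace ℝ (Fin (m + 2))), (sa g v0 :
            EuclideanSpace ℝ (Fin (m + 2)))⟫} + η / 2
        ≤ (hm (EuclideanSpace ℝ (Fin (m + 2)))).real
          {g | av g (v0 : EuclideanSpace ℝ (Fin (m + 2))) ∈ A} →
      ∃ x : Fin t → EuclideanSpace ℝ (Fin (m + 2)), (∀ i, x i ∈ A) ∧ (∀ i, ‖x i‖ = 1) ∧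
        ∀ i j, i ≠ j → ⟪x i, x j⟫ ≤ -1 / (t - 1 : ℝ) + t * c1 ^ 2 / (t - 1 : ℝ) := by
  set b := η / 40 with hb
  set H := 2 / η with hH
  have hb0 : 0 < b := by positivity
  have hb1 : b ≤ 1 := by rw [hb]; linarith
  have hH0 : 0 < H := by positivity
  have hbb : 0 < b ^ 2 / 64 := by positivity
  have hbb1 : b ^ 2 ≤ 1 := by nlinarith
  obtain ⟨p0, mq, hp0, hp1, hquant⟩ := quant_params t ht (1 / 2 + b ^ 2 / 64) (by linarith)
    (by linarith)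
  obtain ⟨θ, κ1, κ2, K1, K4, r2, τ, L, hθ0, hθ1, hκ1, hκ2, hζ, hr2, hK1, hK4, hτ, hP2, hL, hP4,
    hP6⟩ := exists_aux t ht hη hη1 hp0 hp1 hb0 hb1 hH0
  set X := t ^ 3 * (2 * (2 * K4 + 2 * H ^ 2) + 2 * τ) ^ 2
      / (t * (t - 1) * (2 * τ)) + t * (2 * (2 * K4 + 2 * H ^ 2) + 2 * τ) with hX
  have ht2 : (2 : ℝ) ≤ t := by exact_mod_cast ht
  have ht1 : (0 : ℝ) < t - 1 := by linarith
  have ht0 : (0 : ℝ) < t := by linarith
  have hX0 : 0 < X := by positivity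
  have hs0 : 0 < Real.sin θ := Real.sin_pos_of_pos_of_lt_pi hθ0 (by
    have := Real.pi_gt_three; linarith)
  obtain ⟨m1, hm1⟩ := exists_nat_ge (64 / η + (2 * (H + b)) ^ 2 + 4 * H ^ 3 / b
    + (2 * κ1) ^ 2 + (2 * κ2) ^ 2 + X / Real.sin θ ^ 2)
  refine ⟨mq + m1 + 2 * t + 4, fun m hmle A hA v v0 c1 hc1 hcH hAP => ?_⟩
  have hmm : (m1 : ℝ) ≤ m := by
    have : m1 ≤ m := by omega
    exact_mod_cast this
  set q := Real.sqrt (m + 2 : ℝ) with hq
  have hq0 : 0 < q := Real.sqrt_pos.2 (by positivity)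
  have hq2 : q ^ 2 = m + 2 := Real.sq_sqrt (by positivity)
  have n1 : 0 < 64 / η := by positivity
  have n2 : 0 < (2 * (H + b)) ^ 2 := by positivity
  have n3 : 0 < 4 * H ^ 3 / b := by positivity
  have n4 : 0 < (2 * κ1) ^ 2 := by positivity
  have n5 : 0 < (2 * κ2) ^ 2 := by positivity
  have n6 : 0 < X / Real.sin θ ^ 2 := by positivity
  have g1 : 64 / η ≤ q ^ 2 := by rw [hq2]; linarith
  have g2 : (2 * (H + b)) ^ 2 ≤ q ^ 2 := by rw [hq2]; linarith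
  have g3 : 4 * H ^ 3 / b ≤ q ^ 2 := by rw [hq2]; linarith
  have g4 : (2 * κ1) ^ 2 ≤ q ^ 2 := by rw [hq2]; linarith
  have g5 : (2 * κ2) ^ 2 ≤ q ^ 2 := by rw [hq2]; linarith
  have g6 : X / Real.sin θ ^ 2 ≤ q ^ 2 := by rw [hq2]; linarith
  have hq2p : 0 < q ^ 2 := by positivity
  have hm4 : 4 / (m + 2 : ℝ) ≤ η / 16 := by
    rw [← hq2]
    rw [div_le_iff₀ hη] at g1
    rw [div_le_div_iff₀ hq2p (by norm_num)]
    linarith
  have hfin : Module.finrank ℝ (EuclideanSpace ℝ (Fin (m + 2))) = m + 2 := by simp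
  -- frames
  obtain ⟨s, hs⟩ := exists_simplex (E := EuclideanSpace ℝ (Fin (m + 2))) ht
    (by omega : t ≤ m + 2) hfin
  obtain ⟨ob, hob⟩ := exists_onb1 (n := m + 1) (by omega)
    (v : EuclideanSpace ℝ (Fin (m + 2))) (norm_eq_of_mem_sphere v)
  set e : SS (EuclideanSpace ℝ (Fin (m + 2))) := ⟨ob 0, by
    rw [mem_sphere_zero_iff_norm]; exact ob.orthonormal.1 0⟩ with he
  set f : SS (EuclideanSpace ℝ (Fin (m + 2))) := ⟨ob 1, by
    rw [mem_sphere_zero_iff_norm]; exact ob.orthonormal.1 1⟩ with hf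
  have hef : ⟪(e : EuclideanSpace ℝ (Fin (m + 2))), (f : EuclideanSpace ℝ (Fin (m + 2)))⟫ = 0 := by
    exact ob.orthonormal.2 (by simp)
  obtain ⟨K, hKT, hKc, hKne, hKP⟩ := stepA hfin (θ := θ) hq0 hq2 hb0 hb1 hc1 hcH hη
    (by rw [hb]; linarith) hm4 (div_le_half (by positivity) hq0 g2)
    (by rw [div_le_iff₀ hb0] at g3; linarith) v v0 e f hef hA hAP
  -- the neighbourhood
  set K0 : Set (SS (EuclideanSpace ℝ (Fin (m + 2)))) := {x | infDist x K ≤ c1 - b / (4 * q)}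
    with hK0
  have hK0c : IsClosed K0 := isClosed_le (continuous_infDist_pt K) continuous_const
  have hb8 : 0 < b / (8 * q) := by positivity
  have hN := hquant m (by omega) s hs K0 hK0c v0 hKP (b / (8 * q)) hb8
  have hN2 : p0 ≤ (hm (EuclideanSpace ℝ (Fin (m + 2)))).real
      {g | ∀ i, infDist (sa g (s i)) K < c1 - b / (8 * q)} := by
    refine hN.trans (measureReal_mono ?_ (measure_ne_top _ _))
    intro g hg i
    have h1 : infDist (sa g (s i)) K0 < b / (8 * q) := hg i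
    have hK0ne : K0.Nonempty := by
      rw [nonempty_iff_ne_empty]
      intro h0
      have h2 : (hm (EuclideanSpace ℝ (Fin (m + 2)))).real {g | sa g v0 ∈ K0} = 0 := by
        rw [h0]; simp
      have h3 : 1 / 2 + b ^ 2 / 64 ≤ (hm (EuclideanSpace ℝ (Fin (m + 2)))).real
        {g | sa g v0 ∈ K0} := hKP
      linarith
    obtain ⟨z, hz, hz2⟩ := (infDist_lt_iff hK0ne).1 h1
    have hz' : infDist z K ≤ c1 - b / (4 * q) := hz
    have h4 := infDist_le_infDist_add_dist (s := K) (x := sa g (s i)) (y := z)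
    have e9 : b / (4 * q) = b / (8 * q) + b / (8 * q) := by field_simp; norm_num
    linarith
  exact stepD hfin ht (by omega) (by omega) (θ := θ) (ζ := η / 8) (L := L) hq0 hq2 hθ0 hθ1 hb0
    hc1 hcH (by positivity) hκ1 hκ2 (div_le_half hκ1.le hq0 g4) (div_le_half hκ2.le hq0 g5) hζ
    hr2 (by linarith) hK1 hK4 hp0 hτ hP2 hL hP4 (by
      rw [← hX]
      rw [div_le_iff₀ (by positivity)] at g6
      rw [one_div, inv_mul_le_iff₀ (by positivity), mul_one]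
      exact g6) hP6 hA f hKT hKne s hs hN2

end Pool.Agent.helper440_simplex
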